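import Pool.Agent.SOU.TB

/-! Project SOU (MP_66ba69_lc, mixed insertion): rule 0 (generated). -/

set_option autoImplicit false
set_option maxRecDepth 100000
set_option linter.unusedVariables false

namespace Pool.Agent.SOU

open Pool.Agent.RUP Pool.Agent.SOQ

def d0_p0 : List Nat := [
0x9d00000009300000009100000009b00000008f000000097000000099000000095000800]

def d0_pf : List Nat := d0_p0

theorem d0_ref {V : Type} {S : SRel V} {p : Nat → V} (hp : ∀ i j, i < 4 → j < 4 → p i = p j → i = j)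
    (hts : PHs S p 4 (mA ++ (gf (fun x => 8 + cr 3 x) rf0 ++ fp1.map (tren (n6 1 2 3))))) : False :=
  refuteS (k := 4) (n2 := 3) (n3 := 1) (n4 := 3) (o3 := 30) (o4 := 50) (M := 215) (mA ++ (gf (fun x => 8 + cr 3 x) rf0 ++ fp1.map (tren (n6 1 2 3)))) d0_pf (by decide +kernel)
    (by decide +kernel) (by decide +kernel) (by decide +kernel) hp hts

theorem d0 {V : Type} {W : Mw V} (h : W.Hy) {a b c : V} (nd : [W.z, a, b, c].Nodup)
    (hr : Hit (mrel0 h.bs) (pt [a, b, c] W.z) rf0)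
    (hq : ¬ FS (mrel0 h.bs) W.z fp1 a b c) : False :=
  d0_ref (pt_inj (o := W.z) nd rfl) (PHs.app (h.ph rfl _) (PHs.app (gf_ph hr (cr 3) (cr_pt (n := 3) (l := [a, b, c]) (l' := []) rfl)) (nf_ph hq (ia := 1) (ib := 2) (ic := 3) rfl rfl rfl rfl)))

theorem R0 {V : Type} {W : Mw V} (h : W.Hy) {a b c : V} (nd : [W.z, a, b, c].Nodup)
    (hr : Hit (mrel0 h.bs) (pt [a, b, c] W.z) rf0) : FS (mrel0 h.bs) W.z fp1 a b c :=
  Classical.byContradiction fun hq => d0 h nd hr hq

end Pool.Agent.SOU
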