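import Pool.Agent.SOU.TB

/-! Project SOU (MP_66ba69_lc, mixed insertion): rule 1 (generated). -/

set_option autoImplicit false
set_option maxRecDepth 100000
set_option linter.unusedVariables false

namespace Pool.Agent.SOU

open Pool.Agent.RUP Pool.Agent.SOQ

def c1_0_p0 : List Nat := [
0x2641900000009300000009900000009100000009700000008f00000009b000c000701,
0xa9000000002000200]

def c1_0_pf : List Nat := c1_0_p0

theorem c1_0_ref {V : Type} {S : SRel V} {p : Nat → V} (hp : ∀ i j, i < 4 → j < 4 → p i = p j → i = j)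
    (hts : PHs S p 4 (mA ++ (gf (fun x => 8 + cr 3 x) rf1 ++ (gf (fun x => 8 + c6 0 0 1 2 3 x) f0)))) : False :=
  refuteS (k := 4) (n2 := 3) (n3 := 1) (n4 := 3) (o3 := 30) (o4 := 50) (M := 215) (mA ++ (gf (fun x => 8 + cr 3 x) rf1 ++ (gf (fun x => 8 + c6 0 0 1 2 3 x) f0))) c1_0_pf (by decide +kernel)
    (by decide +kernel) (by decide +kernel) (by decide +kernel) hp hts

theorem c1_0 {V : Type} {W : Mw V} (h : W.Hy) {a b c : V} (nd : [W.z, a, b, c].Nodup)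
    (hr : Hit (mrel0 h.bs) (pt [a, b, c] W.z) rf1)
    (hf : Hit (mrel0 h.bs) (v6 W.z W.z W.z a b c) f0) : False :=
  c1_0_ref (pt_inj (o := W.z) nd rfl) (PHs.app (h.ph rfl _) (PHs.app (gf_ph hr (cr 3) (cr_pt (n := 3) (l := [a, b, c]) (l' := []) rfl)) (gf_ph hf (c6 0 0 1 2 3) (c6_v6 rfl rfl rfl rfl rfl rfl))))

def c1_2_n_p0 : List Nat := [
0x8463100000009b00000009300000009100000009f0305000501,
0xad000000002000200]

def c1_2_n_pf : List Nat := c1_2_n_p0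

theorem c1_2_n_ref {V : Type} {S : SRel V} {p : Nat → V} (hp : ∀ i j, i < 5 → j < 5 → p i = p j → i = j)
    (hts : PHs S p 5 (mA ++ (gf (fun x => 8 + cr 3 x) rf1 ++ (gf (fun x => 8 + c6 4 0 1 2 3 x) f2)))) : False :=
  refuteS (k := 5) (n2 := 3) (n3 := 1) (n4 := 3) (o3 := 45) (o4 := 80) (M := 440) (mA ++ (gf (fun x => 8 + cr 3 x) rf1 ++ (gf (fun x => 8 + c6 4 0 1 2 3 x) f2))) c1_2_n_pf (by decide +kernel)
    (by decide +kernel) (by decide +kernel) (by decide +kernel) hp hts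

theorem c1_2_n {V : Type} {W : Mw V} (h : W.Hy) {a b c u : V} (nd : [W.z, a, b, c, u].Nodup)
    (hr : Hit (mrel0 h.bs) (pt [a, b, c] W.z) rf1)
    (hf : Hit (mrel0 h.bs) (v6 W.z u W.z a b c) f2) : False :=
  c1_2_n_ref (pt_inj (o := W.z) nd rfl) (PHs.app (h.ph rfl _) (PHs.app (gf_ph hr (cr 3) (cr_pt (n := 3) (l := [a, b, c]) (l' := [u]) rfl)) (gf_ph hf (c6 4 0 1 2 3) (c6_v6 rfl rfl rfl rfl rfl rfl))))

def c1_3_n_p0 : List Nat := [
0x8463100000009b0000000930000000910000000a10305000501,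
0xaf000000002000200]

def c1_3_n_pf : List Nat := c1_3_n_p0

theorem c1_3_n_ref {V : Type} {S : SRel V} {p : Nat → V} (hp : ∀ i j, i < 5 → j < 5 → p i = p j → i = j)
    (hts : PHs S p 5 (mA ++ (gf (fun x => 8 + cr 3 x) rf1 ++ (gf (fun x => 8 + c6 4 0 1 2 3 x) f3)))) : False :=
  refuteS (k := 5) (n2 := 3) (n3 := 1) (n4 := 3) (o3 := 45) (o4 := 80) (M := 440) (mA ++ (gf (fun x => 8 + cr 3 x) rf1 ++ (gf (fun x => 8 + c6 4 0 1 2 3 x) f3))) c1_3_n_pf (by decide +kernel)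
    (by decide +kernel) (by decide +kernel) (by decide +kernel) hp hts

theorem c1_3_n {V : Type} {W : Mw V} (h : W.Hy) {a b c u : V} (nd : [W.z, a, b, c, u].Nodup)
    (hr : Hit (mrel0 h.bs) (pt [a, b, c] W.z) rf1)
    (hf : Hit (mrel0 h.bs) (v6 W.z u W.z a b c) f3) : False :=
  c1_3_n_ref (pt_inj (o := W.z) nd rfl) (PHs.app (h.ph rfl _) (PHs.app (gf_ph hr (cr 3) (cr_pt (n := 3) (l := [a, b, c]) (l' := [u]) rfl)) (gf_ph hf (c6 4 0 1 2 3) (c6_v6 rfl rfl rfl rfl rfl rfl))))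

def c1_4_n_p0 : List Nat := [
0x86241d00000009b0326000201,
0xaf000000002000200]

def c1_4_n_pf : List Nat := c1_4_n_p0

theorem c1_4_n_ref {V : Type} {S : SRel V} {p : Nat → V} (hp : ∀ i j, i < 5 → j < 5 → p i = p j → i = j)
    (hts : PHs S p 5 (mA ++ (gf (fun x => 8 + cr 3 x) rf1 ++ (gf (fun x => 8 + c6 4 0 1 2 3 x) f4)))) : False :=
  refuteS (k := 5) (n2 := 3) (n3 := 1) (n4 := 3) (o3 := 45) (o4 := 80) (M := 440) (mA ++ (gf (fun x => 8 + cr 3 x) rf1 ++ (gf (fun x => 8 + c6 4 0 1 2 3 x) f4))) c1_4_n_pf (by decide +kernel)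
    (by decide +kernel) (by decide +kernel) (by decide +kernel) hp hts

theorem c1_4_n {V : Type} {W : Mw V} (h : W.Hy) {a b c u : V} (nd : [W.z, a, b, c, u].Nodup)
    (hr : Hit (mrel0 h.bs) (pt [a, b, c] W.z) rf1)
    (hf : Hit (mrel0 h.bs) (v6 W.z u W.z a b c) f4) : False :=
  c1_4_n_ref (pt_inj (o := W.z) nd rfl) (PHs.app (h.ph rfl _) (PHs.app (gf_ph hr (cr 3) (cr_pt (n := 3) (l := [a, b, c]) (l' := [u]) rfl)) (gf_ph hf (c6 4 0 1 2 3) (c6_v6 rfl rfl rfl rfl rfl rfl))))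

def c1_5_n_p0 : List Nat := [
0x8463100000009b0000000930000000910000000a10305000501,
0xad000000002000200]

def c1_5_n_pf : List Nat := c1_5_n_p0

theorem c1_5_n_ref {V : Type} {S : SRel V} {p : Nat → V} (hp : ∀ i j, i < 5 → j < 5 → p i = p j → i = j)
    (hts : PHs S p 5 (mA ++ (gf (fun x => 8 + cr 3 x) rf1 ++ (gf (fun x => 8 + c6 4 0 1 2 3 x) f5)))) : False :=
  refuteS (k := 5) (n2 := 3) (n3 := 1) (n4 := 3) (o3 := 45) (o4 := 80) (M := 440) (mA ++ (gf (fun x => 8 + cr 3 x) rf1 ++ (gf (fun x => 8 + c6 4 0 1 2 3 x) f5))) c1_5_n_pf (by decide +kernel)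
    (by decide +kernel) (by decide +kernel) (by decide +kernel) hp hts

theorem c1_5_n {V : Type} {W : Mw V} (h : W.Hy) {a b c u : V} (nd : [W.z, a, b, c, u].Nodup)
    (hr : Hit (mrel0 h.bs) (pt [a, b, c] W.z) rf1)
    (hf : Hit (mrel0 h.bs) (v6 W.z u W.z a b c) f5) : False :=
  c1_5_n_ref (pt_inj (o := W.z) nd rfl) (PHs.app (h.ph rfl _) (PHs.app (gf_ph hr (cr 3) (cr_pt (n := 3) (l := [a, b, c]) (l' := [u]) rfl)) (gf_ph hf (c6 4 0 1 2 3) (c6_v6 rfl rfl rfl rfl rfl rfl))))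

def c1_8_n_p0 : List Nat := [
0x2641900000009300000009900000009100000009700000008f00000009b000c000701,
0x46281100000009d00000009300000009b00000009100000008f0000000020000000ad01df000801,
0xaf000000004000200]

def c1_8_n_pf : List Nat := c1_8_n_p0

theorem c1_8_n_ref {V : Type} {S : SRel V} {p : Nat → V} (hp : ∀ i j, i < 5 → j < 5 → p i = p j → i = j)
    (hts : PHs S p 5 (mA ++ (gf (fun x => 8 + cr 3 x) rf1 ++ (gf (fun x => 8 + c6 4 0 1 2 3 x) f8)))) : False :=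
  refuteS (k := 5) (n2 := 3) (n3 := 1) (n4 := 3) (o3 := 45) (o4 := 80) (M := 440) (mA ++ (gf (fun x => 8 + cr 3 x) rf1 ++ (gf (fun x => 8 + c6 4 0 1 2 3 x) f8))) c1_8_n_pf (by decide +kernel)
    (by decide +kernel) (by decide +kernel) (by decide +kernel) hp hts

theorem c1_8_n {V : Type} {W : Mw V} (h : W.Hy) {a b c u : V} (nd : [W.z, a, b, c, u].Nodup)
    (hr : Hit (mrel0 h.bs) (pt [a, b, c] W.z) rf1)
    (hf : Hit (mrel0 h.bs) (v6 W.z u W.z a b c) f8) : False :=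
  c1_8_n_ref (pt_inj (o := W.z) nd rfl) (PHs.app (h.ph rfl _) (PHs.app (gf_ph hr (cr 3) (cr_pt (n := 3) (l := [a, b, c]) (l' := [u]) rfl)) (gf_ph hf (c6 4 0 1 2 3) (c6_v6 rfl rfl rfl rfl rfl rfl))))

def c1_9_n_p0 : List Nat := [
0x86241d00000009b0326000201,
0xad000000002000200]

def c1_9_n_pf : List Nat := c1_9_n_p0

theorem c1_9_n_ref {V : Type} {S : SRel V} {p : Nat → V} (hp : ∀ i j, i < 5 → j < 5 → p i = p j → i = j)
    (hts : PHs S p 5 (mA ++ (gf (fun x => 8 + cr 3 x) rf1 ++ (gf (fun x => 8 + c6 4 0 1 2 3 x) f9)))) : False :=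
  refuteS (k := 5) (n2 := 3) (n3 := 1) (n4 := 3) (o3 := 45) (o4 := 80) (M := 440) (mA ++ (gf (fun x => 8 + cr 3 x) rf1 ++ (gf (fun x => 8 + c6 4 0 1 2 3 x) f9))) c1_9_n_pf (by decide +kernel)
    (by decide +kernel) (by decide +kernel) (by decide +kernel) hp hts

theorem c1_9_n {V : Type} {W : Mw V} (h : W.Hy) {a b c u : V} (nd : [W.z, a, b, c, u].Nodup)
    (hr : Hit (mrel0 h.bs) (pt [a, b, c] W.z) rf1)
    (hf : Hit (mrel0 h.bs) (v6 W.z u W.z a b c) f9) : False :=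
  c1_9_n_ref (pt_inj (o := W.z) nd rfl) (PHs.app (h.ph rfl _) (PHs.app (gf_ph hr (cr 3) (cr_pt (n := 3) (l := [a, b, c]) (l' := [u]) rfl)) (gf_ph hf (c6 4 0 1 2 3) (c6_v6 rfl rfl rfl rfl rfl rfl))))

theorem P1_0 {V : Type} {W : Mw V} (h : W.Hy) {a b c u w : V} (nd : [W.z, a, b, c].Nodup)
    (hr : Hit (mrel0 h.bs) (pt [a, b, c] W.z) rf1)
    (hf : Hit (mrel0 h.bs) (v6 W.z u w a b c) f0) : False := by
  exact c1_0 h nd hr (hit00 (by decide) hf)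

theorem P1_2 {V : Type} {W : Mw V} (h : W.Hy) {a b c u w : V} (nd : [W.z, a, b, c].Nodup)
    (hr : Hit (mrel0 h.bs) (pt [a, b, c] W.z) rf1)
    (hf : Hit (mrel0 h.bs) (v6 W.z u w a b c) f2) : False := by
  have hf := hit01 (by decide) hf
  have hs := hn1 hf rfl
  exact c1_2_n h (nd_snoc nd (nin4 hs.1 hs.2.1 hs.2.2.1 hs.2.2.2)) hr hf

theorem P1_3 {V : Type} {W : Mw V} (h : W.Hy) {a b c u w : V} (nd : [W.z, a, b, c].Nodup)
    (hr : Hit (mrel0 h.bs) (pt [a, b, c] W.z) rf1)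
    (hf : Hit (mrel0 h.bs) (v6 W.z u w a b c) f3) : False := by
  have hf := hit01 (by decide) hf
  have hs := hn1 hf rfl
  exact c1_3_n h (nd_snoc nd (nin4 hs.1 hs.2.1 hs.2.2.1 hs.2.2.2)) hr hf

theorem P1_4 {V : Type} {W : Mw V} (h : W.Hy) {a b c u w : V} (nd : [W.z, a, b, c].Nodup)
    (hr : Hit (mrel0 h.bs) (pt [a, b, c] W.z) rf1)
    (hf : Hit (mrel0 h.bs) (v6 W.z u w a b c) f4) : False := by
  have hf := hit01 (by decide) hf
  have hs := hn1 hf rfl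
  exact c1_4_n h (nd_snoc nd (nin4 hs.1 hs.2.1 hs.2.2.1 hs.2.2.2)) hr hf

theorem P1_5 {V : Type} {W : Mw V} (h : W.Hy) {a b c u w : V} (nd : [W.z, a, b, c].Nodup)
    (hr : Hit (mrel0 h.bs) (pt [a, b, c] W.z) rf1)
    (hf : Hit (mrel0 h.bs) (v6 W.z u w a b c) f5) : False := by
  have hf := hit01 (by decide) hf
  have hs := hn1 hf rfl
  exact c1_5_n h (nd_snoc nd (nin4 hs.1 hs.2.1 hs.2.2.1 hs.2.2.2)) hr hf

theorem P1_8 {V : Type} {W : Mw V} (h : W.Hy) {a b c u w : V} (nd : [W.z, a, b, c].Nodup)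
    (hr : Hit (mrel0 h.bs) (pt [a, b, c] W.z) rf1)
    (hf : Hit (mrel0 h.bs) (v6 W.z u w a b c) f8) : False := by
  have hf := hit01 (by decide) hf
  have hs := hn1 hf rfl
  exact c1_8_n h (nd_snoc nd (nin4 hs.1 hs.2.1 hs.2.2.1 hs.2.2.2)) hr hf

theorem P1_9 {V : Type} {W : Mw V} (h : W.Hy) {a b c u w : V} (nd : [W.z, a, b, c].Nodup)
    (hr : Hit (mrel0 h.bs) (pt [a, b, c] W.z) rf1)
    (hf : Hit (mrel0 h.bs) (v6 W.z u w a b c) f9) : False := by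
  have hf := hit01 (by decide) hf
  have hs := hn1 hf rfl
  exact c1_9_n h (nd_snoc nd (nin4 hs.1 hs.2.1 hs.2.2.1 hs.2.2.2)) hr hf

theorem R1 {V : Type} {W : Mw V} (h : W.Hy) {a b c : V} (nd : [W.z, a, b, c].Nodup)
    (hr : Hit (mrel0 h.bs) (pt [a, b, c] W.z) rf1)
    (hp : FS (mrel0 h.bs) W.z fp1 a b c) : False := by
  obtain ⟨t, ht, u, w, hf⟩ := hp
  simp only [fp1, List.mem_cons, List.not_mem_nil, or_false] at ht
  rcases ht with rfl | rfl | rfl | rfl | rfl | rfl | rfl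
  · exact P1_0 h nd hr hf
  · exact P1_2 h nd hr hf
  · exact P1_3 h nd hr hf
  · exact P1_4 h nd hr hf
  · exact P1_5 h nd hr hf
  · exact P1_8 h nd hr hf
  · exact P1_9 h nd hr hf

end Pool.Agent.SOU
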