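import Pool.Agent.SOU.TB

/-! Project SOU (MP_66ba69_lc, mixed insertion): rule 11 (generated). -/

set_option autoImplicit false
set_option maxRecDepth 100000
set_option linter.unusedVariables false

namespace Pool.Agent.SOU

open Pool.Agent.RUP Pool.Agent.SOQ

def c11_0_p0 : List Nat := [
0x2640030000000970253000201,
0x4826007000000002000000099014c000301,
0x8640030000000040322000201,
0x8624007000000097000000006011f000301,
0xb10000000950000000910000000af00000008f00000009b00000009f000000008000800]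

def c11_0_pf : List Nat := c11_0_p0

theorem c11_0_ref {V : Type} {S : SRel V} {p : Nat → V} (hp : ∀ i j, i < 5 → j < 5 → p i = p j → i = j)
    (hts : PHs S p 5 (mA ++ (gf (fun x => 8 + cr 4 x) rf11 ++ (gf (fun x => 8 + c6 0 0 1 2 3 x) f0 ++ fp1.map (tren (n6 1 2 4)))))) : False :=
  refuteS (k := 5) (n2 := 3) (n3 := 1) (n4 := 3) (o3 := 45) (o4 := 80) (M := 440) (mA ++ (gf (fun x => 8 + cr 4 x) rf11 ++ (gf (fun x => 8 + c6 0 0 1 2 3 x) f0 ++ fp1.map (tren (n6 1 2 4))))) c11_0_pf (by decide +kernel)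
    (by decide +kernel) (by decide +kernel) (by decide +kernel) hp hts

theorem c11_0 {V : Type} {W : Mw V} (h : W.Hy) {a b c d : V} (nd : [W.z, a, b, c, d].Nodup)
    (hr : Hit (mrel0 h.bs) (pt [a, b, c, d] W.z) rf11)
    (hf : Hit (mrel0 h.bs) (v6 W.z W.z W.z a b c) f0)
    (hq : ¬ FS (mrel0 h.bs) W.z fp1 a b d) : False :=
  c11_0_ref (pt_inj (o := W.z) nd rfl) (PHs.app (h.ph rfl _) (PHs.app (gf_ph hr (cr 4) (cr_pt (n := 4) (l := [a, b, c, d]) (l' := []) rfl)) (PHs.app (gf_ph hf (c6 0 0 1 2 3) (c6_v6 rfl rfl rfl rfl rfl rfl)) (nf_ph hq (ia := 1) (ib := 2) (ic := 4) rfl rfl rfl rfl))))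

def c11_2_n_p0 : List Nat := [
0x26400300000009703ee000201,
0x286003000000099045d000201,
0x48260070000000020000000990173000301,
0x84062070000000970000000040176000301,
0x86400300000000604bd000201,
0x4860030000000060460000201,
0x862400700000009700000000a0146000301,
0x642800700000000400000000c0454000301,
0x2a40030000000ab0544000201,
0x8a042070000000100000000ab02bd000301,
0xa6240070000000970000000120281000301,
0x8a4203000000014055f000201,
0xa640030000000160580000201,
0xa628407000000008000000018029c000301,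
0xa84600700000000600000001a02c3000301,
0xa86290000000a500000009500000009300000001e05f0000501,
0x4a6310000000a50000000930000000910000000b30036000501,
0x84a64d0000000200000000a50000000950000000930000000910000000b305f6000701,
0xa2864230000000240000000b50482000301,
0x864a2730000000a50000000950000000b300000009300000009100000008f00000009f0000000970000000990000000ab0000000b50024000c01,
0x84621f00000002600000009d0000000080000000280195000501,
0xa6841f00000002400000002200000001c000000028026a000501,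
0x846a2250000000b500000002a0237000301,
0x86a4410000000b30000000a500000009500000009300000009100000002c0261000701,
0x864a2230000000b500000002e0234000301,
0xab90000000a500000009500000009100000008f00000009b00000009f00000000e0000000ab000000032000000030000b00]

def c11_2_n_pf : List Nat := c11_2_n_p0

theorem c11_2_n_ref {V : Type} {S : SRel V} {p : Nat → V} (hp : ∀ i j, i < 6 → j < 6 → p i = p j → i = j)
    (hts : PHs S p 6 (mA ++ (gf (fun x => 8 + cr 4 x) rf11 ++ (gf (fun x => 8 + c6 5 0 1 2 3 x) f2 ++ fp1.map (tren (n6 1 2 4)))))) : False :=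
  refuteS (k := 6) (n2 := 3) (n3 := 1) (n4 := 3) (o3 := 63) (o4 := 119) (M := 812) (mA ++ (gf (fun x => 8 + cr 4 x) rf11 ++ (gf (fun x => 8 + c6 5 0 1 2 3 x) f2 ++ fp1.map (tren (n6 1 2 4))))) c11_2_n_pf (by decide +kernel)
    (by decide +kernel) (by decide +kernel) (by decide +kernel) hp hts

theorem c11_2_n {V : Type} {W : Mw V} (h : W.Hy) {a b c d u : V} (nd : [W.z, a, b, c, d, u].Nodup)
    (hr : Hit (mrel0 h.bs) (pt [a, b, c, d] W.z) rf11)
    (hf : Hit (mrel0 h.bs) (v6 W.z u W.z a b c) f2)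
    (hq : ¬ FS (mrel0 h.bs) W.z fp1 a b d) : False :=
  c11_2_n_ref (pt_inj (o := W.z) nd rfl) (PHs.app (h.ph rfl _) (PHs.app (gf_ph hr (cr 4) (cr_pt (n := 4) (l := [a, b, c, d]) (l' := [u]) rfl)) (PHs.app (gf_ph hf (c6 5 0 1 2 3) (c6_v6 rfl rfl rfl rfl rfl rfl)) (nf_ph hq (ia := 1) (ib := 2) (ic := 4) rfl rfl rfl rfl))))

def c11_2_4_p0 : List Nat := [
0x2640030000000970253000201,
0x28600300000009902c2000201,
0x4826007000000002000000099014c000301,
0x48600300000000602c5000201,
0x642800700000000400000000802b9000301,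
0xab00000000a000200]

def c11_2_4_pf : List Nat := c11_2_4_p0

theorem c11_2_4_ref {V : Type} {S : SRel V} {p : Nat → V} (hp : ∀ i j, i < 5 → j < 5 → p i = p j → i = j)
    (hts : PHs S p 5 (mA ++ (gf (fun x => 8 + cr 4 x) rf11 ++ (gf (fun x => 8 + c6 4 0 1 2 3 x) f2 ++ fp1.map (tren (n6 1 2 4)))))) : False :=
  refuteS (k := 5) (n2 := 3) (n3 := 1) (n4 := 3) (o3 := 45) (o4 := 80) (M := 440) (mA ++ (gf (fun x => 8 + cr 4 x) rf11 ++ (gf (fun x => 8 + c6 4 0 1 2 3 x) f2 ++ fp1.map (tren (n6 1 2 4))))) c11_2_4_pf (by decide +kernel)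
    (by decide +kernel) (by decide +kernel) (by decide +kernel) hp hts

theorem c11_2_4 {V : Type} {W : Mw V} (h : W.Hy) {a b c d : V} (nd : [W.z, a, b, c, d].Nodup)
    (hr : Hit (mrel0 h.bs) (pt [a, b, c, d] W.z) rf11)
    (hf : Hit (mrel0 h.bs) (v6 W.z d W.z a b c) f2)
    (hq : ¬ FS (mrel0 h.bs) W.z fp1 a b d) : False :=
  c11_2_4_ref (pt_inj (o := W.z) nd rfl) (PHs.app (h.ph rfl _) (PHs.app (gf_ph hr (cr 4) (cr_pt (n := 4) (l := [a, b, c, d]) (l' := []) rfl)) (PHs.app (gf_ph hf (c6 4 0 1 2 3) (c6_v6 rfl rfl rfl rfl rfl rfl)) (nf_ph hq (ia := 1) (ib := 2) (ic := 4) rfl rfl rfl rfl))))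

def c11_3_n_p0 : List Nat := [
0x26400300000009703ee000201,
0x286003000000099045d000201,
0x48260070000000020000000990173000301,
0x4860030000000060460000201,
0x8462900000009500000009300000009100000000604a0000501,
0x2a40030000000ab0517000201,
0x462a00700000000c0000000ad01f7000301,
0x8a062070000000040000000ad02c6000301,
0x8a0640700000000800000000e02c9000301,
0xa8620300000001005c5000201,
0xa6082070000000990000000140200000301,
0x4a62d0000000a70000000930000000910000000b5002d000501,
0xa46310000000a70000000930000000910000000b50018000501,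
0x8a464d00000000a0000000a70000000950000000930000000910000000b505c9000701,
0x28a190000000a70000000b300000009f00000009500000008f0000000180039000701,
0xa8641f00000001c00000001a00000001200000001e026a000501,
0x86a4410000000b50000000a70000000950000000930000000910000000200261000701,
0xabb0000000a70000000b300000009500000009100000008f00000009b00000009f0000000160000000ab000000022000b00]

def c11_3_n_pf : List Nat := c11_3_n_p0

theorem c11_3_n_ref {V : Type} {S : SRel V} {p : Nat → V} (hp : ∀ i j, i < 6 → j < 6 → p i = p j → i = j)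
    (hts : PHs S p 6 (mA ++ (gf (fun x => 8 + cr 4 x) rf11 ++ (gf (fun x => 8 + c6 5 0 1 2 3 x) f3 ++ fp1.map (tren (n6 1 2 4)))))) : False :=
  refuteS (k := 6) (n2 := 3) (n3 := 1) (n4 := 3) (o3 := 63) (o4 := 119) (M := 812) (mA ++ (gf (fun x => 8 + cr 4 x) rf11 ++ (gf (fun x => 8 + c6 5 0 1 2 3 x) f3 ++ fp1.map (tren (n6 1 2 4))))) c11_3_n_pf (by decide +kernel)
    (by decide +kernel) (by decide +kernel) (by decide +kernel) hp hts

theorem c11_3_n {V : Type} {W : Mw V} (h : W.Hy) {a b c d u : V} (nd : [W.z, a, b, c, d, u].Nodup)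
    (hr : Hit (mrel0 h.bs) (pt [a, b, c, d] W.z) rf11)
    (hf : Hit (mrel0 h.bs) (v6 W.z u W.z a b c) f3)
    (hq : ¬ FS (mrel0 h.bs) W.z fp1 a b d) : False :=
  c11_3_n_ref (pt_inj (o := W.z) nd rfl) (PHs.app (h.ph rfl _) (PHs.app (gf_ph hr (cr 4) (cr_pt (n := 4) (l := [a, b, c, d]) (l' := [u]) rfl)) (PHs.app (gf_ph hf (c6 5 0 1 2 3) (c6_v6 rfl rfl rfl rfl rfl rfl)) (nf_ph hq (ia := 1) (ib := 2) (ic := 4) rfl rfl rfl rfl))))

def c11_3_4_p0 : List Nat := [
0x28600300000009902c2000201,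
0xad000000002000200]

def c11_3_4_pf : List Nat := c11_3_4_p0

theorem c11_3_4_ref {V : Type} {S : SRel V} {p : Nat → V} (hp : ∀ i j, i < 5 → j < 5 → p i = p j → i = j)
    (hts : PHs S p 5 (mA ++ (gf (fun x => 8 + cr 4 x) rf11 ++ (gf (fun x => 8 + c6 4 0 1 2 3 x) f3 ++ fp1.map (tren (n6 1 2 4)))))) : False :=
  refuteS (k := 5) (n2 := 3) (n3 := 1) (n4 := 3) (o3 := 45) (o4 := 80) (M := 440) (mA ++ (gf (fun x => 8 + cr 4 x) rf11 ++ (gf (fun x => 8 + c6 4 0 1 2 3 x) f3 ++ fp1.map (tren (n6 1 2 4))))) c11_3_4_pf (by decide +kernel)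
    (by decide +kernel) (by decide +kernel) (by decide +kernel) hp hts

theorem c11_3_4 {V : Type} {W : Mw V} (h : W.Hy) {a b c d : V} (nd : [W.z, a, b, c, d].Nodup)
    (hr : Hit (mrel0 h.bs) (pt [a, b, c, d] W.z) rf11)
    (hf : Hit (mrel0 h.bs) (v6 W.z d W.z a b c) f3)
    (hq : ¬ FS (mrel0 h.bs) W.z fp1 a b d) : False :=
  c11_3_4_ref (pt_inj (o := W.z) nd rfl) (PHs.app (h.ph rfl _) (PHs.app (gf_ph hr (cr 4) (cr_pt (n := 4) (l := [a, b, c, d]) (l' := []) rfl)) (PHs.app (gf_ph hf (c6 4 0 1 2 3) (c6_v6 rfl rfl rfl rfl rfl rfl)) (nf_ph hq (ia := 1) (ib := 2) (ic := 4) rfl rfl rfl rfl))))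

def c11_4_n_p0 : List Nat := [
0x8620b00000009300000008f00000009504b7000401,
0x26400300000009703ee000201,
0x286003000000099045d000201,
0x48260070000000040000000990173000301,
0x84062070000000970000000060176000301,
0x86400300000000804bd000201,
0x48620300000000a0481000201,
0x862400700000009700000000c0146000301,
0x821500000009500000008f00000009f001e000401,
0xa420b00000009100000008f0000000a90571000401,
0x2a60030000000ad0520000201,
0xa8620700000000600000001605f2000301,
0x64a310000000a90000000930000000910000000b30033000501,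
0x46a310000000a90000000930000000910000000b30036000501,
0x6a421d0000000b50030000201,
0x6a42210000000b50554000201,
0xa2150000000a900000008f00000001e002d000401,
0xabd0000000a900000009500000009100000008f00000009b00000009f0000000100530055905ea000803,
0x6bf00000009500000009300000009100000008f00000009b00000009f000000097000000099046104c1000902,
0x2600084621f0008a644100a826423000a8641d00000000a00000009d0000000910000000930000000950000000a90000000b300000002005f6000d01,
0xa864450000000b30000000a90000000950000000930000000910000000280461000701,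
0x8a64530000000b30000000a900000009500000009300000009100000002805e7000701,
0x8a46530000000b30000000a900000009500000009300000009100000002805f0000701,
0x4a68490000000b30000000a900000009500000009300000009100000002a05c3000701,
0x86a422500624a8230000000b500000002805f3000401,
0x86a35008a64273000a2860700a608207000a862010000000220000000930000000950000000a900000003000000002e0000000ad0000000b300000009700000009f00000008f0000000910000000b50000000020000000990000000180299001501,
0x6a82030000000340562000201,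
0x4a6820700000000e0000000340263000301,
0xa6821f00000003200000001c00000009f0000000340237000501,
0x860a2070000000ad000000036022d000301,
0x82a4070000000140000000380260000301,
0x684a22300000002000000003a0560000301,
0xa483500000002c00000001a0000000a900000009500000009100000001200000003e0204000801,
0xa4821f00000003800000001a00000009f00000004002be000501,
0x2400000003c000000044000000042000400]

def c11_4_n_pf : List Nat := c11_4_n_p0

theorem c11_4_n_ref {V : Type} {S : SRel V} {p : Nat → V} (hp : ∀ i j, i < 6 → j < 6 → p i = p j → i = j)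
    (hts : PHs S p 6 (mA ++ (gf (fun x => 8 + cr 4 x) rf11 ++ (gf (fun x => 8 + c6 5 0 1 2 3 x) f4 ++ fp1.map (tren (n6 1 2 4)))))) : False :=
  refuteS (k := 6) (n2 := 3) (n3 := 1) (n4 := 3) (o3 := 63) (o4 := 119) (M := 812) (mA ++ (gf (fun x => 8 + cr 4 x) rf11 ++ (gf (fun x => 8 + c6 5 0 1 2 3 x) f4 ++ fp1.map (tren (n6 1 2 4))))) c11_4_n_pf (by decide +kernel)
    (by decide +kernel) (by decide +kernel) (by decide +kernel) hp hts

theorem c11_4_n {V : Type} {W : Mw V} (h : W.Hy) {a b c d u : V} (nd : [W.z, a, b, c, d, u].Nodup)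
    (hr : Hit (mrel0 h.bs) (pt [a, b, c, d] W.z) rf11)
    (hf : Hit (mrel0 h.bs) (v6 W.z u W.z a b c) f4)
    (hq : ¬ FS (mrel0 h.bs) W.z fp1 a b d) : False :=
  c11_4_n_ref (pt_inj (o := W.z) nd rfl) (PHs.app (h.ph rfl _) (PHs.app (gf_ph hr (cr 4) (cr_pt (n := 4) (l := [a, b, c, d]) (l' := [u]) rfl)) (PHs.app (gf_ph hf (c6 5 0 1 2 3) (c6_v6 rfl rfl rfl rfl rfl rfl)) (nf_ph hq (ia := 1) (ib := 2) (ic := 4) rfl rfl rfl rfl))))

def c11_4_4_p0 : List Nat := [
0x6bf00000009500000009300000009100000008f00000009b00000009f0000000970000000b30000000990000000b5000b00]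

def c11_4_4_pf : List Nat := c11_4_4_p0

theorem c11_4_4_ref {V : Type} {S : SRel V} {p : Nat → V} (hp : ∀ i j, i < 5 → j < 5 → p i = p j → i = j)
    (hts : PHs S p 5 (mA ++ (gf (fun x => 8 + cr 4 x) rf11 ++ (gf (fun x => 8 + c6 4 0 1 2 3 x) f4 ++ fp1.map (tren (n6 1 2 4)))))) : False :=
  refuteS (k := 5) (n2 := 3) (n3 := 1) (n4 := 3) (o3 := 45) (o4 := 80) (M := 440) (mA ++ (gf (fun x => 8 + cr 4 x) rf11 ++ (gf (fun x => 8 + c6 4 0 1 2 3 x) f4 ++ fp1.map (tren (n6 1 2 4))))) c11_4_4_pf (by decide +kernel)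
    (by decide +kernel) (by decide +kernel) (by decide +kernel) hp hts

theorem c11_4_4 {V : Type} {W : Mw V} (h : W.Hy) {a b c d : V} (nd : [W.z, a, b, c, d].Nodup)
    (hr : Hit (mrel0 h.bs) (pt [a, b, c, d] W.z) rf11)
    (hf : Hit (mrel0 h.bs) (v6 W.z d W.z a b c) f4)
    (hq : ¬ FS (mrel0 h.bs) W.z fp1 a b d) : False :=
  c11_4_4_ref (pt_inj (o := W.z) nd rfl) (PHs.app (h.ph rfl _) (PHs.app (gf_ph hr (cr 4) (cr_pt (n := 4) (l := [a, b, c, d]) (l' := []) rfl)) (PHs.app (gf_ph hf (c6 4 0 1 2 3) (c6_v6 rfl rfl rfl rfl rfl rfl)) (nf_ph hq (ia := 1) (ib := 2) (ic := 4) rfl rfl rfl rfl))))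

def c11_5_n_p0 : List Nat := [
0x26400300000009703ee000201,
0x286003000000099045d000201,
0x48260070000000020000000990173000301,
0x4860030000000060460000201,
0x8462900000009500000009300000009100000000604a0000501,
0x2a40030000000ab0517000201,
0x462a00700000000c0000000ad01f7000301,
0x8a062070000000040000000ad02c6000301,
0x8a0640700000000800000000e02c9000301,
0xa8620300000001005c5000201,
0xa6082070000000990000000140200000301,
0xa46310000000a70000000930000000910000000b30018000501,
0x8a464d00000000a0000000a70000000950000000930000000910000000b305c9000701,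
0x824a62300000001a0000000b505c6000301,
0x86a42730000000a70000000b300000009500000009300000009100000008f00000009f0000000990000000ad0000000ab0000000b50039000c01,
0xa8621f00000001c00000001000000009d00000001e0237000501,
0xa8641f00000001a00000001800000001200000001e026a000501,
0x8a642250000000b50000000200195000301,
0x86a4410000000b30000000a70000000950000000930000000910000000220261000701,
0xa6842230000000b500000002402be000301,
0xabf0000000a700000009500000009100000008f00000009b00000009f0000000160000000ab000000026000000028000b00]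

def c11_5_n_pf : List Nat := c11_5_n_p0

theorem c11_5_n_ref {V : Type} {S : SRel V} {p : Nat → V} (hp : ∀ i j, i < 6 → j < 6 → p i = p j → i = j)
    (hts : PHs S p 6 (mA ++ (gf (fun x => 8 + cr 4 x) rf11 ++ (gf (fun x => 8 + c6 5 0 1 2 3 x) f5 ++ fp1.map (tren (n6 1 2 4)))))) : False :=
  refuteS (k := 6) (n2 := 3) (n3 := 1) (n4 := 3) (o3 := 63) (o4 := 119) (M := 812) (mA ++ (gf (fun x => 8 + cr 4 x) rf11 ++ (gf (fun x => 8 + c6 5 0 1 2 3 x) f5 ++ fp1.map (tren (n6 1 2 4))))) c11_5_n_pf (by decide +kernel)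
    (by decide +kernel) (by decide +kernel) (by decide +kernel) hp hts

theorem c11_5_n {V : Type} {W : Mw V} (h : W.Hy) {a b c d u : V} (nd : [W.z, a, b, c, d, u].Nodup)
    (hr : Hit (mrel0 h.bs) (pt [a, b, c, d] W.z) rf11)
    (hf : Hit (mrel0 h.bs) (v6 W.z u W.z a b c) f5)
    (hq : ¬ FS (mrel0 h.bs) W.z fp1 a b d) : False :=
  c11_5_n_ref (pt_inj (o := W.z) nd rfl) (PHs.app (h.ph rfl _) (PHs.app (gf_ph hr (cr 4) (cr_pt (n := 4) (l := [a, b, c, d]) (l' := [u]) rfl)) (PHs.app (gf_ph hf (c6 5 0 1 2 3) (c6_v6 rfl rfl rfl rfl rfl rfl)) (nf_ph hq (ia := 1) (ib := 2) (ic := 4) rfl rfl rfl rfl))))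

def c11_5_4_p0 : List Nat := [
0x28600300000009902c2000201,
0xad000000002000200]

def c11_5_4_pf : List Nat := c11_5_4_p0

theorem c11_5_4_ref {V : Type} {S : SRel V} {p : Nat → V} (hp : ∀ i j, i < 5 → j < 5 → p i = p j → i = j)
    (hts : PHs S p 5 (mA ++ (gf (fun x => 8 + cr 4 x) rf11 ++ (gf (fun x => 8 + c6 4 0 1 2 3 x) f5 ++ fp1.map (tren (n6 1 2 4)))))) : False :=
  refuteS (k := 5) (n2 := 3) (n3 := 1) (n4 := 3) (o3 := 45) (o4 := 80) (M := 440) (mA ++ (gf (fun x => 8 + cr 4 x) rf11 ++ (gf (fun x => 8 + c6 4 0 1 2 3 x) f5 ++ fp1.map (tren (n6 1 2 4))))) c11_5_4_pf (by decide +kernel)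
    (by decide +kernel) (by decide +kernel) (by decide +kernel) hp hts

theorem c11_5_4 {V : Type} {W : Mw V} (h : W.Hy) {a b c d : V} (nd : [W.z, a, b, c, d].Nodup)
    (hr : Hit (mrel0 h.bs) (pt [a, b, c, d] W.z) rf11)
    (hf : Hit (mrel0 h.bs) (v6 W.z d W.z a b c) f5)
    (hq : ¬ FS (mrel0 h.bs) W.z fp1 a b d) : False :=
  c11_5_4_ref (pt_inj (o := W.z) nd rfl) (PHs.app (h.ph rfl _) (PHs.app (gf_ph hr (cr 4) (cr_pt (n := 4) (l := [a, b, c, d]) (l' := []) rfl)) (PHs.app (gf_ph hf (c6 4 0 1 2 3) (c6_v6 rfl rfl rfl rfl rfl rfl)) (nf_ph hq (ia := 1) (ib := 2) (ic := 4) rfl rfl rfl rfl))))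

def c11_8_n_p0 : List Nat := [
0x8620b00000009300000008f00000009504b7000401,
0x26400300000009703ee000201,
0x286003000000099045d000201,
0x48260070000000040000000990173000301,
0x84062070000000970000000060176000301,
0x86400300000000804bd000201,
0x862400700000009700000000c0146000301,
0x84a20900000009500000009100000008f0000000a3055f000501,
0xa240d00000009100000008f0000000a30544000401,
0xa260d00000009300000008f0000000a3054d000401,
0xa280d00000009500000008f0000000a30559000401,
0xa62840700000000a000000010029c000301,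
0xa6240070000000970000000120281000301,
0xa82400700000000e00000001202ba000301,
0xa82600700000009900000001402c3000301,
0x2a6800700000000600000001605c2000301,
0x8a620070000000020000000ab02b4000301,
0x820a6070000000200000000ab0299000301,
0x8a641d0000000b305f6000201,
0xb700000009500000009100000008f00000009b00000009f00000000e000c000701,
0xac10000000b300000009500000009100000008f00000009b00000009f0000000a300000002200000001c0365000a01,
0x2a681d00000002a0563000201,
0x4a681d00000002a0596000201,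
0xa6821f0000000b500000002400000009f00000002c02c7000501,
0xa6841f0000000260000000b500000001800000002e0350000501,
0x8642a7900000009500000002800000009300000009100000008f0000000220000000a300000001a00000001e000000032000000030000c00]

def c11_8_n_pf : List Nat := c11_8_n_p0

theorem c11_8_n_ref {V : Type} {S : SRel V} {p : Nat → V} (hp : ∀ i j, i < 6 → j < 6 → p i = p j → i = j)
    (hts : PHs S p 6 (mA ++ (gf (fun x => 8 + cr 4 x) rf11 ++ (gf (fun x => 8 + c6 5 0 1 2 3 x) f8 ++ fp1.map (tren (n6 1 2 4)))))) : False :=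
  refuteS (k := 6) (n2 := 3) (n3 := 1) (n4 := 3) (o3 := 63) (o4 := 119) (M := 812) (mA ++ (gf (fun x => 8 + cr 4 x) rf11 ++ (gf (fun x => 8 + c6 5 0 1 2 3 x) f8 ++ fp1.map (tren (n6 1 2 4))))) c11_8_n_pf (by decide +kernel)
    (by decide +kernel) (by decide +kernel) (by decide +kernel) hp hts

theorem c11_8_n {V : Type} {W : Mw V} (h : W.Hy) {a b c d u : V} (nd : [W.z, a, b, c, d, u].Nodup)
    (hr : Hit (mrel0 h.bs) (pt [a, b, c, d] W.z) rf11)
    (hf : Hit (mrel0 h.bs) (v6 W.z u W.z a b c) f8)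
    (hq : ¬ FS (mrel0 h.bs) W.z fp1 a b d) : False :=
  c11_8_n_ref (pt_inj (o := W.z) nd rfl) (PHs.app (h.ph rfl _) (PHs.app (gf_ph hr (cr 4) (cr_pt (n := 4) (l := [a, b, c, d]) (l' := [u]) rfl)) (PHs.app (gf_ph hf (c6 5 0 1 2 3) (c6_v6 rfl rfl rfl rfl rfl rfl)) (nf_ph hq (ia := 1) (ib := 2) (ic := 4) rfl rfl rfl rfl))))

def c11_8_4_p0 : List Nat := [
0xa3000000095000200]

def c11_8_4_pf : List Nat := c11_8_4_p0

theorem c11_8_4_ref {V : Type} {S : SRel V} {p : Nat → V} (hp : ∀ i j, i < 5 → j < 5 → p i = p j → i = j)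
    (hts : PHs S p 5 (mA ++ (gf (fun x => 8 + cr 4 x) rf11 ++ (gf (fun x => 8 + c6 4 0 1 2 3 x) f8 ++ fp1.map (tren (n6 1 2 4)))))) : False :=
  refuteS (k := 5) (n2 := 3) (n3 := 1) (n4 := 3) (o3 := 45) (o4 := 80) (M := 440) (mA ++ (gf (fun x => 8 + cr 4 x) rf11 ++ (gf (fun x => 8 + c6 4 0 1 2 3 x) f8 ++ fp1.map (tren (n6 1 2 4))))) c11_8_4_pf (by decide +kernel)
    (by decide +kernel) (by decide +kernel) (by decide +kernel) hp hts

theorem c11_8_4 {V : Type} {W : Mw V} (h : W.Hy) {a b c d : V} (nd : [W.z, a, b, c, d].Nodup)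
    (hr : Hit (mrel0 h.bs) (pt [a, b, c, d] W.z) rf11)
    (hf : Hit (mrel0 h.bs) (v6 W.z d W.z a b c) f8)
    (hq : ¬ FS (mrel0 h.bs) W.z fp1 a b d) : False :=
  c11_8_4_ref (pt_inj (o := W.z) nd rfl) (PHs.app (h.ph rfl _) (PHs.app (gf_ph hr (cr 4) (cr_pt (n := 4) (l := [a, b, c, d]) (l' := []) rfl)) (PHs.app (gf_ph hf (c6 4 0 1 2 3) (c6_v6 rfl rfl rfl rfl rfl rfl)) (nf_ph hq (ia := 1) (ib := 2) (ic := 4) rfl rfl rfl rfl))))

def c11_9_n_p0 : List Nat := [
0x6420b00000009100000008f0000000930412000401,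
0x8620b00000009300000008f00000009504b7000401,
0x26400300000009703ee000201,
0x286003000000099045d000201,
0x48260070000000060000000990173000301,
0x84062070000000970000000080176000301,
0x86400300000000a04bd000201,
0x48600300000000a0460000201,
0x862400700000009700000000e0146000301,
0x64280070000000080000000100454000301,
0x84a20900000009500000009100000008f0000000a3055f000501,
0xa240d00000009100000008f0000000a30544000401,
0xa280d00000009500000008f0000000a30559000401,
0xa62840700000000c000000016029c000301,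
0xa82400700000001200000001802ba000301,
0x2a4800700000001400000001a058c000301,
0xa6841b00000001c05c9000201,
0x4a620070000000020000000ab0245000301,
0x8a620070000000040000000ab02b4000301,
0x820a4070000000200000000240263000301,
0x6a241d0000000b30033000201,
0x62a84250000000220000000b30560000301,
0xa4821f00000002a00000002800000009f00000002c02be000501,
0xac100000009500000009100000008f00000009b00000009f0000000a300000002600000001e00000002e000a00]

def c11_9_n_pf : List Nat := c11_9_n_p0

theorem c11_9_n_ref {V : Type} {S : SRel V} {p : Nat → V} (hp : ∀ i j, i < 6 → j < 6 → p i = p j → i = j)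
    (hts : PHs S p 6 (mA ++ (gf (fun x => 8 + cr 4 x) rf11 ++ (gf (fun x => 8 + c6 5 0 1 2 3 x) f9 ++ fp1.map (tren (n6 1 2 4)))))) : False :=
  refuteS (k := 6) (n2 := 3) (n3 := 1) (n4 := 3) (o3 := 63) (o4 := 119) (M := 812) (mA ++ (gf (fun x => 8 + cr 4 x) rf11 ++ (gf (fun x => 8 + c6 5 0 1 2 3 x) f9 ++ fp1.map (tren (n6 1 2 4))))) c11_9_n_pf (by decide +kernel)
    (by decide +kernel) (by decide +kernel) (by decide +kernel) hp hts

theorem c11_9_n {V : Type} {W : Mw V} (h : W.Hy) {a b c d u : V} (nd : [W.z, a, b, c, d, u].Nodup)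
    (hr : Hit (mrel0 h.bs) (pt [a, b, c, d] W.z) rf11)
    (hf : Hit (mrel0 h.bs) (v6 W.z u W.z a b c) f9)
    (hq : ¬ FS (mrel0 h.bs) W.z fp1 a b d) : False :=
  c11_9_n_ref (pt_inj (o := W.z) nd rfl) (PHs.app (h.ph rfl _) (PHs.app (gf_ph hr (cr 4) (cr_pt (n := 4) (l := [a, b, c, d]) (l' := [u]) rfl)) (PHs.app (gf_ph hf (c6 5 0 1 2 3) (c6_v6 rfl rfl rfl rfl rfl rfl)) (nf_ph hq (ia := 1) (ib := 2) (ic := 4) rfl rfl rfl rfl))))

def c11_9_4_p0 : List Nat := [
0xa3000000095000200]

def c11_9_4_pf : List Nat := c11_9_4_p0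

theorem c11_9_4_ref {V : Type} {S : SRel V} {p : Nat → V} (hp : ∀ i j, i < 5 → j < 5 → p i = p j → i = j)
    (hts : PHs S p 5 (mA ++ (gf (fun x => 8 + cr 4 x) rf11 ++ (gf (fun x => 8 + c6 4 0 1 2 3 x) f9 ++ fp1.map (tren (n6 1 2 4)))))) : False :=
  refuteS (k := 5) (n2 := 3) (n3 := 1) (n4 := 3) (o3 := 45) (o4 := 80) (M := 440) (mA ++ (gf (fun x => 8 + cr 4 x) rf11 ++ (gf (fun x => 8 + c6 4 0 1 2 3 x) f9 ++ fp1.map (tren (n6 1 2 4))))) c11_9_4_pf (by decide +kernel)
    (by decide +kernel) (by decide +kernel) (by decide +kernel) hp hts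

theorem c11_9_4 {V : Type} {W : Mw V} (h : W.Hy) {a b c d : V} (nd : [W.z, a, b, c, d].Nodup)
    (hr : Hit (mrel0 h.bs) (pt [a, b, c, d] W.z) rf11)
    (hf : Hit (mrel0 h.bs) (v6 W.z d W.z a b c) f9)
    (hq : ¬ FS (mrel0 h.bs) W.z fp1 a b d) : False :=
  c11_9_4_ref (pt_inj (o := W.z) nd rfl) (PHs.app (h.ph rfl _) (PHs.app (gf_ph hr (cr 4) (cr_pt (n := 4) (l := [a, b, c, d]) (l' := []) rfl)) (PHs.app (gf_ph hf (c6 4 0 1 2 3) (c6_v6 rfl rfl rfl rfl rfl rfl)) (nf_ph hq (ia := 1) (ib := 2) (ic := 4) rfl rfl rfl rfl))))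

theorem P11_0 {V : Type} {W : Mw V} (h : W.Hy) {a b c d u w : V} (nd : [W.z, a, b, c, d].Nodup)
    (hr : Hit (mrel0 h.bs) (pt [a, b, c, d] W.z) rf11)
    (hf : Hit (mrel0 h.bs) (v6 W.z u w a b c) f0) (hq : ¬ FS (mrel0 h.bs) W.z fp1 a b d) : False := by
  exact c11_0 h nd hr (hit00 (by decide) hf) hq

theorem P11_2 {V : Type} {W : Mw V} (h : W.Hy) {a b c d u w : V} (nd : [W.z, a, b, c, d].Nodup)
    (hr : Hit (mrel0 h.bs) (pt [a, b, c, d] W.z) rf11)
    (hf : Hit (mrel0 h.bs) (v6 W.z u w a b c) f2) (hq : ¬ FS (mrel0 h.bs) W.z fp1 a b d) : False := by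
  have hf := hit01 (by decide) hf
  have hs := hn1 hf rfl
  by_cases id : u = d
  · subst id
    exact c11_2_4 h nd hr hf hq
  exact c11_2_n h (nd_snoc nd (nin5 hs.1 hs.2.1 hs.2.2.1 hs.2.2.2 id)) hr hf hq

theorem P11_3 {V : Type} {W : Mw V} (h : W.Hy) {a b c d u w : V} (nd : [W.z, a, b, c, d].Nodup)
    (hr : Hit (mrel0 h.bs) (pt [a, b, c, d] W.z) rf11)
    (hf : Hit (mrel0 h.bs) (v6 W.z u w a b c) f3) (hq : ¬ FS (mrel0 h.bs) W.z fp1 a b d) : False := by
  have hf := hit01 (by decide) hf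
  have hs := hn1 hf rfl
  by_cases id : u = d
  · subst id
    exact c11_3_4 h nd hr hf hq
  exact c11_3_n h (nd_snoc nd (nin5 hs.1 hs.2.1 hs.2.2.1 hs.2.2.2 id)) hr hf hq

theorem P11_4 {V : Type} {W : Mw V} (h : W.Hy) {a b c d u w : V} (nd : [W.z, a, b, c, d].Nodup)
    (hr : Hit (mrel0 h.bs) (pt [a, b, c, d] W.z) rf11)
    (hf : Hit (mrel0 h.bs) (v6 W.z u w a b c) f4) (hq : ¬ FS (mrel0 h.bs) W.z fp1 a b d) : False := by
  have hf := hit01 (by decide) hf
  have hs := hn1 hf rfl
  by_cases id : u = d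
  · subst id
    exact c11_4_4 h nd hr hf hq
  exact c11_4_n h (nd_snoc nd (nin5 hs.1 hs.2.1 hs.2.2.1 hs.2.2.2 id)) hr hf hq

theorem P11_5 {V : Type} {W : Mw V} (h : W.Hy) {a b c d u w : V} (nd : [W.z, a, b, c, d].Nodup)
    (hr : Hit (mrel0 h.bs) (pt [a, b, c, d] W.z) rf11)
    (hf : Hit (mrel0 h.bs) (v6 W.z u w a b c) f5) (hq : ¬ FS (mrel0 h.bs) W.z fp1 a b d) : False := by
  have hf := hit01 (by decide) hf
  have hs := hn1 hf rfl
  by_cases id : u = d
  · subst id
    exact c11_5_4 h nd hr hf hq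
  exact c11_5_n h (nd_snoc nd (nin5 hs.1 hs.2.1 hs.2.2.1 hs.2.2.2 id)) hr hf hq

theorem P11_8 {V : Type} {W : Mw V} (h : W.Hy) {a b c d u w : V} (nd : [W.z, a, b, c, d].Nodup)
    (hr : Hit (mrel0 h.bs) (pt [a, b, c, d] W.z) rf11)
    (hf : Hit (mrel0 h.bs) (v6 W.z u w a b c) f8) (hq : ¬ FS (mrel0 h.bs) W.z fp1 a b d) : False := by
  have hf := hit01 (by decide) hf
  have hs := hn1 hf rfl
  by_cases id : u = d
  · subst id
    exact c11_8_4 h nd hr hf hq
  exact c11_8_n h (nd_snoc nd (nin5 hs.1 hs.2.1 hs.2.2.1 hs.2.2.2 id)) hr hf hq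

theorem P11_9 {V : Type} {W : Mw V} (h : W.Hy) {a b c d u w : V} (nd : [W.z, a, b, c, d].Nodup)
    (hr : Hit (mrel0 h.bs) (pt [a, b, c, d] W.z) rf11)
    (hf : Hit (mrel0 h.bs) (v6 W.z u w a b c) f9) (hq : ¬ FS (mrel0 h.bs) W.z fp1 a b d) : False := by
  have hf := hit01 (by decide) hf
  have hs := hn1 hf rfl
  by_cases id : u = d
  · subst id
    exact c11_9_4 h nd hr hf hq
  exact c11_9_n h (nd_snoc nd (nin5 hs.1 hs.2.1 hs.2.2.1 hs.2.2.2 id)) hr hf hq

theorem R11 {V : Type} {W : Mw V} (h : W.Hy) {a b c d : V} (nd : [W.z, a, b, c, d].Nodup)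
    (hr : Hit (mrel0 h.bs) (pt [a, b, c, d] W.z) rf11)
    (hp : FS (mrel0 h.bs) W.z fp1 a b c) : FS (mrel0 h.bs) W.z fp1 a b d := by
  by_contra hq
  obtain ⟨t, ht, u, w, hf⟩ := hp
  simp only [fp1, List.mem_cons, List.not_mem_nil, or_false] at ht
  rcases ht with rfl | rfl | rfl | rfl | rfl | rfl | rfl
  · exact P11_0 h nd hr hf hq
  · exact P11_2 h nd hr hf hq
  · exact P11_3 h nd hr hf hq
  · exact P11_4 h nd hr hf hq
  · exact P11_5 h nd hr hf hq
  · exact P11_8 h nd hr hf hq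
  · exact P11_9 h nd hr hf hq

end Pool.Agent.SOU
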