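import Pool.Agent.SOU.TB

/-! Project SOU (MP_66ba69_lc, mixed insertion): rule 12 (generated). -/

set_option autoImplicit false
set_option maxRecDepth 100000
set_option linter.unusedVariables false

namespace Pool.Agent.SOU

open Pool.Agent.RUP Pool.Agent.SOQ

def c12_0_p0 : List Nat := [
0xb30000000930000000910000000b100000008f00000009b00000009f000000097000800]

def c12_0_pf : List Nat := c12_0_p0

theorem c12_0_ref {V : Type} {S : SRel V} {p : Nat → V} (hp : ∀ i j, i < 5 → j < 5 → p i = p j → i = j)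
    (hts : PHs S p 5 (mA ++ (gf (fun x => 8 + cr 4 x) rf12 ++ (gf (fun x => 8 + c6 0 0 1 2 4 x) f0 ++ fp1.map (tren (n6 1 2 3)))))) : False :=
  refuteS (k := 5) (n2 := 3) (n3 := 1) (n4 := 3) (o3 := 45) (o4 := 80) (M := 440) (mA ++ (gf (fun x => 8 + cr 4 x) rf12 ++ (gf (fun x => 8 + c6 0 0 1 2 4 x) f0 ++ fp1.map (tren (n6 1 2 3))))) c12_0_pf (by decide +kernel)
    (by decide +kernel) (by decide +kernel) (by decide +kernel) hp hts

theorem c12_0 {V : Type} {W : Mw V} (h : W.Hy) {a b c d : V} (nd : [W.z, a, b, c, d].Nodup)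
    (hr : Hit (mrel0 h.bs) (pt [a, b, c, d] W.z) rf12)
    (hf : Hit (mrel0 h.bs) (v6 W.z W.z W.z a b d) f0)
    (hq : ¬ FS (mrel0 h.bs) W.z fp1 a b c) : False :=
  c12_0_ref (pt_inj (o := W.z) nd rfl) (PHs.app (h.ph rfl _) (PHs.app (gf_ph hr (cr 4) (cr_pt (n := 4) (l := [a, b, c, d]) (l' := []) rfl)) (PHs.app (gf_ph hf (c6 0 0 1 2 4) (c6_v6 rfl rfl rfl rfl rfl rfl)) (nf_ph hq (ia := 1) (ib := 2) (ic := 3) rfl rfl rfl rfl))))

def c12_2_n_p0 : List Nat := [
0x26400300000009703ee000201,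
0x286003000000099045d000201,
0x84062070000000970000000040176000301,
0x6a042070000000020000000ad0284000301,
0xa642030000000080583000201,
0xa6421b00000000805b1000201,
0xa84620700000000600000000a02c6000301,
0xa8642250000000a100000000c05c6000301,
0x4a8310000000a70000000950000000910000000b50039000501,
0xa8621f00000001000000000e00000009f0000000120237000501,
0xa2486230000000a1000000014026a000301,
0x68a4410000000b50000000a70000000950000000930000000910000000160255000701,
0x684a2230000000140000000b70228000301,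
0xabb0000000a700000009300000009100000008f00000009b00000009f0000000970000000ad00000001a000000018000b00]

def c12_2_n_pf : List Nat := c12_2_n_p0

theorem c12_2_n_ref {V : Type} {S : SRel V} {p : Nat → V} (hp : ∀ i j, i < 6 → j < 6 → p i = p j → i = j)
    (hts : PHs S p 6 (mA ++ (gf (fun x => 8 + cr 4 x) rf12 ++ (gf (fun x => 8 + c6 5 0 1 2 4 x) f2 ++ fp1.map (tren (n6 1 2 3)))))) : False :=
  refuteS (k := 6) (n2 := 3) (n3 := 1) (n4 := 3) (o3 := 63) (o4 := 119) (M := 812) (mA ++ (gf (fun x => 8 + cr 4 x) rf12 ++ (gf (fun x => 8 + c6 5 0 1 2 4 x) f2 ++ fp1.map (tren (n6 1 2 3))))) c12_2_n_pf (by decide +kernel)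
    (by decide +kernel) (by decide +kernel) (by decide +kernel) hp hts

theorem c12_2_n {V : Type} {W : Mw V} (h : W.Hy) {a b c d u : V} (nd : [W.z, a, b, c, d, u].Nodup)
    (hr : Hit (mrel0 h.bs) (pt [a, b, c, d] W.z) rf12)
    (hf : Hit (mrel0 h.bs) (v6 W.z u W.z a b d) f2)
    (hq : ¬ FS (mrel0 h.bs) W.z fp1 a b c) : False :=
  c12_2_n_ref (pt_inj (o := W.z) nd rfl) (PHs.app (h.ph rfl _) (PHs.app (gf_ph hr (cr 4) (cr_pt (n := 4) (l := [a, b, c, d]) (l' := [u]) rfl)) (PHs.app (gf_ph hf (c6 5 0 1 2 4) (c6_v6 rfl rfl rfl rfl rfl rfl)) (nf_ph hq (ia := 1) (ib := 2) (ic := 3) rfl rfl rfl rfl))))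

def c12_2_3_p0 : List Nat := [
0x2640030000000970253000201,
0xad000000002000200]

def c12_2_3_pf : List Nat := c12_2_3_p0

theorem c12_2_3_ref {V : Type} {S : SRel V} {p : Nat → V} (hp : ∀ i j, i < 5 → j < 5 → p i = p j → i = j)
    (hts : PHs S p 5 (mA ++ (gf (fun x => 8 + cr 4 x) rf12 ++ (gf (fun x => 8 + c6 3 0 1 2 4 x) f2 ++ fp1.map (tren (n6 1 2 3)))))) : False :=
  refuteS (k := 5) (n2 := 3) (n3 := 1) (n4 := 3) (o3 := 45) (o4 := 80) (M := 440) (mA ++ (gf (fun x => 8 + cr 4 x) rf12 ++ (gf (fun x => 8 + c6 3 0 1 2 4 x) f2 ++ fp1.map (tren (n6 1 2 3))))) c12_2_3_pf (by decide +kernel)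
    (by decide +kernel) (by decide +kernel) (by decide +kernel) hp hts

theorem c12_2_3 {V : Type} {W : Mw V} (h : W.Hy) {a b c d : V} (nd : [W.z, a, b, c, d].Nodup)
    (hr : Hit (mrel0 h.bs) (pt [a, b, c, d] W.z) rf12)
    (hf : Hit (mrel0 h.bs) (v6 W.z c W.z a b d) f2)
    (hq : ¬ FS (mrel0 h.bs) W.z fp1 a b c) : False :=
  c12_2_3_ref (pt_inj (o := W.z) nd rfl) (PHs.app (h.ph rfl _) (PHs.app (gf_ph hr (cr 4) (cr_pt (n := 4) (l := [a, b, c, d]) (l' := []) rfl)) (PHs.app (gf_ph hf (c6 3 0 1 2 4) (c6_v6 rfl rfl rfl rfl rfl rfl)) (nf_ph hq (ia := 1) (ib := 2) (ic := 3) rfl rfl rfl rfl))))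

def c12_3_n_p0 : List Nat := [
0x26400300000009703ee000201,
0x48260070000000020000000990173000301,
0x621500000009300000008f00000009f0012000401,
0x68241d0000000a10024000201,
0x2a40030000000ad0517000201,
0xa6240050000000970000000ad05ad000301,
0x8a42630000000a90000000af00000009500000009100000008f00000009d0000000ad0000000b505e7000901,
0x4a82d0000000a90000000950000000910000000b7002d000501,
0xb900000009300000009100000008f00000009b00000009f000000097000c000701,
0x24a190000000a90000000100000000b500000009100000008f0000000120033000701,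
0xabd0000000a90000000b500000009300000009100000008f00000009b00000009f0000000ad05200581000902,
0x8bf00000009500000009300000009100000008f00000009b00000009f0000000970000000990000000a10461000a01,
0x846350000000080000000060000000950000000930000000910000000040000000180192000801,
0x6a48490000000b70000000a90000000950000000930000000910000000180524000701,
0xa6843d00000000e0000000a900000009500000009300000009100000001a05ae000701,
0x68a4530000000b70000000a900000009500000009300000009100000001a026a000701,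
0xa463500000001e0000000140000000a900000009300000009100000000600000001c0580000801,
0x68a4410000000b70000000a90000000950000000930000000910000000200255000701,
0xa6400100000000c00000002201f7000301,
0x160000000240520000201,
0x264a00700000000a000000028000000026000400]

def c12_3_n_pf : List Nat := c12_3_n_p0

theorem c12_3_n_ref {V : Type} {S : SRel V} {p : Nat → V} (hp : ∀ i j, i < 6 → j < 6 → p i = p j → i = j)
    (hts : PHs S p 6 (mA ++ (gf (fun x => 8 + cr 4 x) rf12 ++ (gf (fun x => 8 + c6 5 0 1 2 4 x) f3 ++ fp1.map (tren (n6 1 2 3)))))) : False :=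
  refuteS (k := 6) (n2 := 3) (n3 := 1) (n4 := 3) (o3 := 63) (o4 := 119) (M := 812) (mA ++ (gf (fun x => 8 + cr 4 x) rf12 ++ (gf (fun x => 8 + c6 5 0 1 2 4 x) f3 ++ fp1.map (tren (n6 1 2 3))))) c12_3_n_pf (by decide +kernel)
    (by decide +kernel) (by decide +kernel) (by decide +kernel) hp hts

theorem c12_3_n {V : Type} {W : Mw V} (h : W.Hy) {a b c d u : V} (nd : [W.z, a, b, c, d, u].Nodup)
    (hr : Hit (mrel0 h.bs) (pt [a, b, c, d] W.z) rf12)
    (hf : Hit (mrel0 h.bs) (v6 W.z u W.z a b d) f3)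
    (hq : ¬ FS (mrel0 h.bs) W.z fp1 a b c) : False :=
  c12_3_n_ref (pt_inj (o := W.z) nd rfl) (PHs.app (h.ph rfl _) (PHs.app (gf_ph hr (cr 4) (cr_pt (n := 4) (l := [a, b, c, d]) (l' := [u]) rfl)) (PHs.app (gf_ph hf (c6 5 0 1 2 4) (c6_v6 rfl rfl rfl rfl rfl rfl)) (nf_ph hq (ia := 1) (ib := 2) (ic := 3) rfl rfl rfl rfl))))

def c12_3_3_p0 : List Nat := [
0xb500000009f000200]

def c12_3_3_pf : List Nat := c12_3_3_p0

theorem c12_3_3_ref {V : Type} {S : SRel V} {p : Nat → V} (hp : ∀ i j, i < 5 → j < 5 → p i = p j → i = j)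
    (hts : PHs S p 5 (mA ++ (gf (fun x => 8 + cr 4 x) rf12 ++ (gf (fun x => 8 + c6 3 0 1 2 4 x) f3 ++ fp1.map (tren (n6 1 2 3)))))) : False :=
  refuteS (k := 5) (n2 := 3) (n3 := 1) (n4 := 3) (o3 := 45) (o4 := 80) (M := 440) (mA ++ (gf (fun x => 8 + cr 4 x) rf12 ++ (gf (fun x => 8 + c6 3 0 1 2 4 x) f3 ++ fp1.map (tren (n6 1 2 3))))) c12_3_3_pf (by decide +kernel)
    (by decide +kernel) (by decide +kernel) (by decide +kernel) hp hts

theorem c12_3_3 {V : Type} {W : Mw V} (h : W.Hy) {a b c d : V} (nd : [W.z, a, b, c, d].Nodup)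
    (hr : Hit (mrel0 h.bs) (pt [a, b, c, d] W.z) rf12)
    (hf : Hit (mrel0 h.bs) (v6 W.z c W.z a b d) f3)
    (hq : ¬ FS (mrel0 h.bs) W.z fp1 a b c) : False :=
  c12_3_3_ref (pt_inj (o := W.z) nd rfl) (PHs.app (h.ph rfl _) (PHs.app (gf_ph hr (cr 4) (cr_pt (n := 4) (l := [a, b, c, d]) (l' := []) rfl)) (PHs.app (gf_ph hf (c6 3 0 1 2 4) (c6_v6 rfl rfl rfl rfl rfl rfl)) (nf_ph hq (ia := 1) (ib := 2) (ic := 3) rfl rfl rfl rfl))))

def c12_4_n_p0 : List Nat := [
0x26400300000009703ee000201,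
0x286003000000099045d000201,
0x48260070000000020000000990173000301,
0x4860030000000060460000201,
0x64280070000000040000000080454000301,
0x621500000009300000008f00000009f0012000401,
0x4a2800700000000a0000000af0260000301,
0x6a280070000000040000000af0296000301,
0x4a800300000000e052f000201,
0xa8600300000001005ef000201,
0xa608407000000006000000012029c000301,
0xa8260070000000990000000140221000301,
0xa8460070000000060000000140254000301,
0xa6841b00000001605c9000201,
0x84a310000000ab0000000950000000910000000b50033000501,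
0x6a845300000001c0000000ab0000000950000000930000000910000000b505ae000701,
0xa463500000002000000001a0000000ab00000009300000009100000000c00000001e01f8000801,
0xa8642230000000a10000000b70285000301,
0xabf0000000ab00000009300000009100000008f00000009b00000009f000000097000000022000000018000000024000b00]

def c12_4_n_pf : List Nat := c12_4_n_p0

theorem c12_4_n_ref {V : Type} {S : SRel V} {p : Nat → V} (hp : ∀ i j, i < 6 → j < 6 → p i = p j → i = j)
    (hts : PHs S p 6 (mA ++ (gf (fun x => 8 + cr 4 x) rf12 ++ (gf (fun x => 8 + c6 5 0 1 2 4 x) f4 ++ fp1.map (tren (n6 1 2 3)))))) : False :=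
  refuteS (k := 6) (n2 := 3) (n3 := 1) (n4 := 3) (o3 := 63) (o4 := 119) (M := 812) (mA ++ (gf (fun x => 8 + cr 4 x) rf12 ++ (gf (fun x => 8 + c6 5 0 1 2 4 x) f4 ++ fp1.map (tren (n6 1 2 3))))) c12_4_n_pf (by decide +kernel)
    (by decide +kernel) (by decide +kernel) (by decide +kernel) hp hts

theorem c12_4_n {V : Type} {W : Mw V} (h : W.Hy) {a b c d u : V} (nd : [W.z, a, b, c, d, u].Nodup)
    (hr : Hit (mrel0 h.bs) (pt [a, b, c, d] W.z) rf12)
    (hf : Hit (mrel0 h.bs) (v6 W.z u W.z a b d) f4)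
    (hq : ¬ FS (mrel0 h.bs) W.z fp1 a b c) : False :=
  c12_4_n_ref (pt_inj (o := W.z) nd rfl) (PHs.app (h.ph rfl _) (PHs.app (gf_ph hr (cr 4) (cr_pt (n := 4) (l := [a, b, c, d]) (l' := [u]) rfl)) (PHs.app (gf_ph hf (c6 5 0 1 2 4) (c6_v6 rfl rfl rfl rfl rfl rfl)) (nf_ph hq (ia := 1) (ib := 2) (ic := 3) rfl rfl rfl rfl))))

def c12_4_3_p0 : List Nat := [
0x28600300000009902c2000201,
0xaf000000002000200]

def c12_4_3_pf : List Nat := c12_4_3_p0

theorem c12_4_3_ref {V : Type} {S : SRel V} {p : Nat → V} (hp : ∀ i j, i < 5 → j < 5 → p i = p j → i = j)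
    (hts : PHs S p 5 (mA ++ (gf (fun x => 8 + cr 4 x) rf12 ++ (gf (fun x => 8 + c6 3 0 1 2 4 x) f4 ++ fp1.map (tren (n6 1 2 3)))))) : False :=
  refuteS (k := 5) (n2 := 3) (n3 := 1) (n4 := 3) (o3 := 45) (o4 := 80) (M := 440) (mA ++ (gf (fun x => 8 + cr 4 x) rf12 ++ (gf (fun x => 8 + c6 3 0 1 2 4 x) f4 ++ fp1.map (tren (n6 1 2 3))))) c12_4_3_pf (by decide +kernel)
    (by decide +kernel) (by decide +kernel) (by decide +kernel) hp hts

theorem c12_4_3 {V : Type} {W : Mw V} (h : W.Hy) {a b c d : V} (nd : [W.z, a, b, c, d].Nodup)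
    (hr : Hit (mrel0 h.bs) (pt [a, b, c, d] W.z) rf12)
    (hf : Hit (mrel0 h.bs) (v6 W.z c W.z a b d) f4)
    (hq : ¬ FS (mrel0 h.bs) W.z fp1 a b c) : False :=
  c12_4_3_ref (pt_inj (o := W.z) nd rfl) (PHs.app (h.ph rfl _) (PHs.app (gf_ph hr (cr 4) (cr_pt (n := 4) (l := [a, b, c, d]) (l' := []) rfl)) (PHs.app (gf_ph hf (c6 3 0 1 2 4) (c6_v6 rfl rfl rfl rfl rfl rfl)) (nf_ph hq (ia := 1) (ib := 2) (ic := 3) rfl rfl rfl rfl))))

def c12_5_n_p0 : List Nat := [
0x26400300000009703ee000201,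
0x48260070000000020000000990173000301,
0x621500000009300000008f00000009f0012000401,
0x68241d0000000a10024000201,
0x2a40030000000ad0517000201,
0xa6240050000000970000000ad05ad000301,
0xa84390000000a90000000950000000910000000b505e7000501,
0x8a241d0000000b70033000201,
0xa8642230000000a10000000b70285000301,
0x8bf00000009500000009300000009100000008f00000009b00000009f0000000970000000990000000a10461000a01,
0x846350000000080000000060000000950000000930000000910000000040000000140192000801,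
0x6a48490000000b50000000a90000000950000000930000000910000000140524000701,
0xa6843d00000000e0000000a900000009500000009300000009100000001605ae000701,
0x68a4530000000b50000000a9000000095000000093000000091000000016026a000701,
0xa463500000001a0000000100000000a90000000930000000910000000060000000180580000801,
0x68a4410000000b50000000a900000009500000009300000009100000001c0255000701,
0xa6400100000000c00000001e01f7000301,
0x264a00700000000a00000002201f4000301,
0xac10000000a900000009300000009100000008f00000009b00000009f0000000240000000ad000000020000000012000b00]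

def c12_5_n_pf : List Nat := c12_5_n_p0

theorem c12_5_n_ref {V : Type} {S : SRel V} {p : Nat → V} (hp : ∀ i j, i < 6 → j < 6 → p i = p j → i = j)
    (hts : PHs S p 6 (mA ++ (gf (fun x => 8 + cr 4 x) rf12 ++ (gf (fun x => 8 + c6 5 0 1 2 4 x) f5 ++ fp1.map (tren (n6 1 2 3)))))) : False :=
  refuteS (k := 6) (n2 := 3) (n3 := 1) (n4 := 3) (o3 := 63) (o4 := 119) (M := 812) (mA ++ (gf (fun x => 8 + cr 4 x) rf12 ++ (gf (fun x => 8 + c6 5 0 1 2 4 x) f5 ++ fp1.map (tren (n6 1 2 3))))) c12_5_n_pf (by decide +kernel)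
    (by decide +kernel) (by decide +kernel) (by decide +kernel) hp hts

theorem c12_5_n {V : Type} {W : Mw V} (h : W.Hy) {a b c d u : V} (nd : [W.z, a, b, c, d, u].Nodup)
    (hr : Hit (mrel0 h.bs) (pt [a, b, c, d] W.z) rf12)
    (hf : Hit (mrel0 h.bs) (v6 W.z u W.z a b d) f5)
    (hq : ¬ FS (mrel0 h.bs) W.z fp1 a b c) : False :=
  c12_5_n_ref (pt_inj (o := W.z) nd rfl) (PHs.app (h.ph rfl _) (PHs.app (gf_ph hr (cr 4) (cr_pt (n := 4) (l := [a, b, c, d]) (l' := [u]) rfl)) (PHs.app (gf_ph hf (c6 5 0 1 2 4) (c6_v6 rfl rfl rfl rfl rfl rfl)) (nf_ph hq (ia := 1) (ib := 2) (ic := 3) rfl rfl rfl rfl))))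

def c12_5_3_p0 : List Nat := [
0x8bf00000009500000009300000009100000008f00000009b00000009f0000000970000000b50000000990000000a1000b00]

def c12_5_3_pf : List Nat := c12_5_3_p0

theorem c12_5_3_ref {V : Type} {S : SRel V} {p : Nat → V} (hp : ∀ i j, i < 5 → j < 5 → p i = p j → i = j)
    (hts : PHs S p 5 (mA ++ (gf (fun x => 8 + cr 4 x) rf12 ++ (gf (fun x => 8 + c6 3 0 1 2 4 x) f5 ++ fp1.map (tren (n6 1 2 3)))))) : False :=
  refuteS (k := 5) (n2 := 3) (n3 := 1) (n4 := 3) (o3 := 45) (o4 := 80) (M := 440) (mA ++ (gf (fun x => 8 + cr 4 x) rf12 ++ (gf (fun x => 8 + c6 3 0 1 2 4 x) f5 ++ fp1.map (tren (n6 1 2 3))))) c12_5_3_pf (by decide +kernel)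
    (by decide +kernel) (by decide +kernel) (by decide +kernel) hp hts

theorem c12_5_3 {V : Type} {W : Mw V} (h : W.Hy) {a b c d : V} (nd : [W.z, a, b, c, d].Nodup)
    (hr : Hit (mrel0 h.bs) (pt [a, b, c, d] W.z) rf12)
    (hf : Hit (mrel0 h.bs) (v6 W.z c W.z a b d) f5)
    (hq : ¬ FS (mrel0 h.bs) W.z fp1 a b c) : False :=
  c12_5_3_ref (pt_inj (o := W.z) nd rfl) (PHs.app (h.ph rfl _) (PHs.app (gf_ph hr (cr 4) (cr_pt (n := 4) (l := [a, b, c, d]) (l' := []) rfl)) (PHs.app (gf_ph hf (c6 3 0 1 2 4) (c6_v6 rfl rfl rfl rfl rfl rfl)) (nf_ph hq (ia := 1) (ib := 2) (ic := 3) rfl rfl rfl rfl))))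

def c12_8_n_p0 : List Nat := [
0x8620b00000009300000008f00000009504b7000401,
0x26400300000009703ee000201,
0x48260070000000040000000990173000301,
0x621500000009300000008f00000009f0012000401,
0x68241d0000000a10024000201,
0xa240d00000009100000008f0000000a50544000401,
0xa260d00000009300000008f0000000a5054d000401,
0xa62400700000009700000000c0281000301,
0xa82600700000009900000000e02c3000301,
0x6a820070000000020000000ad027b000301,
0x8bf00000009500000009300000009100000008f00000009b00000009f0000000970000000990000000a10461000a01,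
0x8463500000000a0000000080000000950000000930000000910000000060000000160192000801,
0x864a630000000b70000000950000000930000000910000000120000000a50000000100000000180036000901,
0xac30000000b500000009300000009100000008f00000009b00000009f00000001a0000000a5000000014000000010000b00]

def c12_8_n_pf : List Nat := c12_8_n_p0

theorem c12_8_n_ref {V : Type} {S : SRel V} {p : Nat → V} (hp : ∀ i j, i < 6 → j < 6 → p i = p j → i = j)
    (hts : PHs S p 6 (mA ++ (gf (fun x => 8 + cr 4 x) rf12 ++ (gf (fun x => 8 + c6 5 0 1 2 4 x) f8 ++ fp1.map (tren (n6 1 2 3)))))) : False :=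
  refuteS (k := 6) (n2 := 3) (n3 := 1) (n4 := 3) (o3 := 63) (o4 := 119) (M := 812) (mA ++ (gf (fun x => 8 + cr 4 x) rf12 ++ (gf (fun x => 8 + c6 5 0 1 2 4 x) f8 ++ fp1.map (tren (n6 1 2 3))))) c12_8_n_pf (by decide +kernel)
    (by decide +kernel) (by decide +kernel) (by decide +kernel) hp hts

theorem c12_8_n {V : Type} {W : Mw V} (h : W.Hy) {a b c d u : V} (nd : [W.z, a, b, c, d, u].Nodup)
    (hr : Hit (mrel0 h.bs) (pt [a, b, c, d] W.z) rf12)
    (hf : Hit (mrel0 h.bs) (v6 W.z u W.z a b d) f8)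
    (hq : ¬ FS (mrel0 h.bs) W.z fp1 a b c) : False :=
  c12_8_n_ref (pt_inj (o := W.z) nd rfl) (PHs.app (h.ph rfl _) (PHs.app (gf_ph hr (cr 4) (cr_pt (n := 4) (l := [a, b, c, d]) (l' := [u]) rfl)) (PHs.app (gf_ph hf (c6 5 0 1 2 4) (c6_v6 rfl rfl rfl rfl rfl rfl)) (nf_ph hq (ia := 1) (ib := 2) (ic := 3) rfl rfl rfl rfl))))

def c12_8_3_p0 : List Nat := [
0xa5000000093000200]

def c12_8_3_pf : List Nat := c12_8_3_p0

theorem c12_8_3_ref {V : Type} {S : SRel V} {p : Nat → V} (hp : ∀ i j, i < 5 → j < 5 → p i = p j → i = j)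
    (hts : PHs S p 5 (mA ++ (gf (fun x => 8 + cr 4 x) rf12 ++ (gf (fun x => 8 + c6 3 0 1 2 4 x) f8 ++ fp1.map (tren (n6 1 2 3)))))) : False :=
  refuteS (k := 5) (n2 := 3) (n3 := 1) (n4 := 3) (o3 := 45) (o4 := 80) (M := 440) (mA ++ (gf (fun x => 8 + cr 4 x) rf12 ++ (gf (fun x => 8 + c6 3 0 1 2 4 x) f8 ++ fp1.map (tren (n6 1 2 3))))) c12_8_3_pf (by decide +kernel)
    (by decide +kernel) (by decide +kernel) (by decide +kernel) hp hts

theorem c12_8_3 {V : Type} {W : Mw V} (h : W.Hy) {a b c d : V} (nd : [W.z, a, b, c, d].Nodup)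
    (hr : Hit (mrel0 h.bs) (pt [a, b, c, d] W.z) rf12)
    (hf : Hit (mrel0 h.bs) (v6 W.z c W.z a b d) f8)
    (hq : ¬ FS (mrel0 h.bs) W.z fp1 a b c) : False :=
  c12_8_3_ref (pt_inj (o := W.z) nd rfl) (PHs.app (h.ph rfl _) (PHs.app (gf_ph hr (cr 4) (cr_pt (n := 4) (l := [a, b, c, d]) (l' := []) rfl)) (PHs.app (gf_ph hf (c6 3 0 1 2 4) (c6_v6 rfl rfl rfl rfl rfl rfl)) (nf_ph hq (ia := 1) (ib := 2) (ic := 3) rfl rfl rfl rfl))))

def c12_9_n_p0 : List Nat := [
0x8620b00000009300000008f00000009504b7000401,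
0xa240d00000009100000008f0000000a50544000401,
0xa6240070000000970000000040281000301,
0x6a820070000000020000000ad027b000301,
0xa8642230000000a10000000b50285000301,
0xac300000009300000009100000008f00000009b00000009f0000000a500000000800000000600000000a000a00]

def c12_9_n_pf : List Nat := c12_9_n_p0

theorem c12_9_n_ref {V : Type} {S : SRel V} {p : Nat → V} (hp : ∀ i j, i < 6 → j < 6 → p i = p j → i = j)
    (hts : PHs S p 6 (mA ++ (gf (fun x => 8 + cr 4 x) rf12 ++ (gf (fun x => 8 + c6 5 0 1 2 4 x) f9 ++ fp1.map (tren (n6 1 2 3)))))) : False :=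
  refuteS (k := 6) (n2 := 3) (n3 := 1) (n4 := 3) (o3 := 63) (o4 := 119) (M := 812) (mA ++ (gf (fun x => 8 + cr 4 x) rf12 ++ (gf (fun x => 8 + c6 5 0 1 2 4 x) f9 ++ fp1.map (tren (n6 1 2 3))))) c12_9_n_pf (by decide +kernel)
    (by decide +kernel) (by decide +kernel) (by decide +kernel) hp hts

theorem c12_9_n {V : Type} {W : Mw V} (h : W.Hy) {a b c d u : V} (nd : [W.z, a, b, c, d, u].Nodup)
    (hr : Hit (mrel0 h.bs) (pt [a, b, c, d] W.z) rf12)
    (hf : Hit (mrel0 h.bs) (v6 W.z u W.z a b d) f9)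
    (hq : ¬ FS (mrel0 h.bs) W.z fp1 a b c) : False :=
  c12_9_n_ref (pt_inj (o := W.z) nd rfl) (PHs.app (h.ph rfl _) (PHs.app (gf_ph hr (cr 4) (cr_pt (n := 4) (l := [a, b, c, d]) (l' := [u]) rfl)) (PHs.app (gf_ph hf (c6 5 0 1 2 4) (c6_v6 rfl rfl rfl rfl rfl rfl)) (nf_ph hq (ia := 1) (ib := 2) (ic := 3) rfl rfl rfl rfl))))

def c12_9_3_p0 : List Nat := [
0xa5000000093000200]

def c12_9_3_pf : List Nat := c12_9_3_p0

theorem c12_9_3_ref {V : Type} {S : SRel V} {p : Nat → V} (hp : ∀ i j, i < 5 → j < 5 → p i = p j → i = j)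
    (hts : PHs S p 5 (mA ++ (gf (fun x => 8 + cr 4 x) rf12 ++ (gf (fun x => 8 + c6 3 0 1 2 4 x) f9 ++ fp1.map (tren (n6 1 2 3)))))) : False :=
  refuteS (k := 5) (n2 := 3) (n3 := 1) (n4 := 3) (o3 := 45) (o4 := 80) (M := 440) (mA ++ (gf (fun x => 8 + cr 4 x) rf12 ++ (gf (fun x => 8 + c6 3 0 1 2 4 x) f9 ++ fp1.map (tren (n6 1 2 3))))) c12_9_3_pf (by decide +kernel)
    (by decide +kernel) (by decide +kernel) (by decide +kernel) hp hts

theorem c12_9_3 {V : Type} {W : Mw V} (h : W.Hy) {a b c d : V} (nd : [W.z, a, b, c, d].Nodup)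
    (hr : Hit (mrel0 h.bs) (pt [a, b, c, d] W.z) rf12)
    (hf : Hit (mrel0 h.bs) (v6 W.z c W.z a b d) f9)
    (hq : ¬ FS (mrel0 h.bs) W.z fp1 a b c) : False :=
  c12_9_3_ref (pt_inj (o := W.z) nd rfl) (PHs.app (h.ph rfl _) (PHs.app (gf_ph hr (cr 4) (cr_pt (n := 4) (l := [a, b, c, d]) (l' := []) rfl)) (PHs.app (gf_ph hf (c6 3 0 1 2 4) (c6_v6 rfl rfl rfl rfl rfl rfl)) (nf_ph hq (ia := 1) (ib := 2) (ic := 3) rfl rfl rfl rfl))))

theorem P12_0 {V : Type} {W : Mw V} (h : W.Hy) {a b c d u w : V} (nd : [W.z, a, b, c, d].Nodup)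
    (hr : Hit (mrel0 h.bs) (pt [a, b, c, d] W.z) rf12)
    (hf : Hit (mrel0 h.bs) (v6 W.z u w a b d) f0) (hq : ¬ FS (mrel0 h.bs) W.z fp1 a b c) : False := by
  exact c12_0 h nd hr (hit00 (by decide) hf) hq

theorem P12_2 {V : Type} {W : Mw V} (h : W.Hy) {a b c d u w : V} (nd : [W.z, a, b, c, d].Nodup)
    (hr : Hit (mrel0 h.bs) (pt [a, b, c, d] W.z) rf12)
    (hf : Hit (mrel0 h.bs) (v6 W.z u w a b d) f2) (hq : ¬ FS (mrel0 h.bs) W.z fp1 a b c) : False := by
  have hf := hit01 (by decide) hf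
  have hs := hn1 hf rfl
  by_cases ic : u = c
  · subst ic
    exact c12_2_3 h nd hr hf hq
  exact c12_2_n h (nd_snoc nd (nin5 hs.1 hs.2.1 hs.2.2.1 ic hs.2.2.2)) hr hf hq

theorem P12_3 {V : Type} {W : Mw V} (h : W.Hy) {a b c d u w : V} (nd : [W.z, a, b, c, d].Nodup)
    (hr : Hit (mrel0 h.bs) (pt [a, b, c, d] W.z) rf12)
    (hf : Hit (mrel0 h.bs) (v6 W.z u w a b d) f3) (hq : ¬ FS (mrel0 h.bs) W.z fp1 a b c) : False := by
  have hf := hit01 (by decide) hf
  have hs := hn1 hf rfl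
  by_cases ic : u = c
  · subst ic
    exact c12_3_3 h nd hr hf hq
  exact c12_3_n h (nd_snoc nd (nin5 hs.1 hs.2.1 hs.2.2.1 ic hs.2.2.2)) hr hf hq

theorem P12_4 {V : Type} {W : Mw V} (h : W.Hy) {a b c d u w : V} (nd : [W.z, a, b, c, d].Nodup)
    (hr : Hit (mrel0 h.bs) (pt [a, b, c, d] W.z) rf12)
    (hf : Hit (mrel0 h.bs) (v6 W.z u w a b d) f4) (hq : ¬ FS (mrel0 h.bs) W.z fp1 a b c) : False := by
  have hf := hit01 (by decide) hf
  have hs := hn1 hf rfl
  by_cases ic : u = c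
  · subst ic
    exact c12_4_3 h nd hr hf hq
  exact c12_4_n h (nd_snoc nd (nin5 hs.1 hs.2.1 hs.2.2.1 ic hs.2.2.2)) hr hf hq

theorem P12_5 {V : Type} {W : Mw V} (h : W.Hy) {a b c d u w : V} (nd : [W.z, a, b, c, d].Nodup)
    (hr : Hit (mrel0 h.bs) (pt [a, b, c, d] W.z) rf12)
    (hf : Hit (mrel0 h.bs) (v6 W.z u w a b d) f5) (hq : ¬ FS (mrel0 h.bs) W.z fp1 a b c) : False := by
  have hf := hit01 (by decide) hf
  have hs := hn1 hf rfl
  by_cases ic : u = c
  · subst ic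
    exact c12_5_3 h nd hr hf hq
  exact c12_5_n h (nd_snoc nd (nin5 hs.1 hs.2.1 hs.2.2.1 ic hs.2.2.2)) hr hf hq

theorem P12_8 {V : Type} {W : Mw V} (h : W.Hy) {a b c d u w : V} (nd : [W.z, a, b, c, d].Nodup)
    (hr : Hit (mrel0 h.bs) (pt [a, b, c, d] W.z) rf12)
    (hf : Hit (mrel0 h.bs) (v6 W.z u w a b d) f8) (hq : ¬ FS (mrel0 h.bs) W.z fp1 a b c) : False := by
  have hf := hit01 (by decide) hf
  have hs := hn1 hf rfl
  by_cases ic : u = c
  · subst ic
    exact c12_8_3 h nd hr hf hq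
  exact c12_8_n h (nd_snoc nd (nin5 hs.1 hs.2.1 hs.2.2.1 ic hs.2.2.2)) hr hf hq

theorem P12_9 {V : Type} {W : Mw V} (h : W.Hy) {a b c d u w : V} (nd : [W.z, a, b, c, d].Nodup)
    (hr : Hit (mrel0 h.bs) (pt [a, b, c, d] W.z) rf12)
    (hf : Hit (mrel0 h.bs) (v6 W.z u w a b d) f9) (hq : ¬ FS (mrel0 h.bs) W.z fp1 a b c) : False := by
  have hf := hit01 (by decide) hf
  have hs := hn1 hf rfl
  by_cases ic : u = c
  · subst ic
    exact c12_9_3 h nd hr hf hq
  exact c12_9_n h (nd_snoc nd (nin5 hs.1 hs.2.1 hs.2.2.1 ic hs.2.2.2)) hr hf hq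

theorem R12 {V : Type} {W : Mw V} (h : W.Hy) {a b c d : V} (nd : [W.z, a, b, c, d].Nodup)
    (hr : Hit (mrel0 h.bs) (pt [a, b, c, d] W.z) rf12)
    (hp : FS (mrel0 h.bs) W.z fp1 a b d) : FS (mrel0 h.bs) W.z fp1 a b c := by
  by_contra hq
  obtain ⟨t, ht, u, w, hf⟩ := hp
  simp only [fp1, List.mem_cons, List.not_mem_nil, or_false] at ht
  rcases ht with rfl | rfl | rfl | rfl | rfl | rfl | rfl
  · exact P12_0 h nd hr hf hq
  · exact P12_2 h nd hr hf hq
  · exact P12_3 h nd hr hf hq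
  · exact P12_4 h nd hr hf hq
  · exact P12_5 h nd hr hf hq
  · exact P12_8 h nd hr hf hq
  · exact P12_9 h nd hr hf hq

end Pool.Agent.SOU
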