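import Pool.Agent.SOU.TB

/-! Project SOU (MP_66ba69_lc, mixed insertion): rule 13 (generated). -/

set_option autoImplicit false
set_option maxRecDepth 100000
set_option linter.unusedVariables false

namespace Pool.Agent.SOU

open Pool.Agent.RUP Pool.Agent.SOQ

def c13_0_p0 : List Nat := [
0x64821d00000009f000c000201,
0xad000000002000200]

def c13_0_pf : List Nat := c13_0_p0

theorem c13_0_ref {V : Type} {S : SRel V} {p : Nat → V} (hp : ∀ i j, i < 5 → j < 5 → p i = p j → i = j)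
    (hts : PHs S p 5 (mA ++ (gf (fun x => 8 + cr 4 x) rf13 ++ (gf (fun x => 8 + c6 0 0 1 2 3 x) f0)))) : False :=
  refuteS (k := 5) (n2 := 3) (n3 := 1) (n4 := 3) (o3 := 45) (o4 := 80) (M := 440) (mA ++ (gf (fun x => 8 + cr 4 x) rf13 ++ (gf (fun x => 8 + c6 0 0 1 2 3 x) f0))) c13_0_pf (by decide +kernel)
    (by decide +kernel) (by decide +kernel) (by decide +kernel) hp hts

theorem c13_0 {V : Type} {W : Mw V} (h : W.Hy) {a b c d : V} (nd : [W.z, a, b, c, d].Nodup)
    (hr : Hit (mrel0 h.bs) (pt [a, b, c, d] W.z) rf13)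
    (hf : Hit (mrel0 h.bs) (v6 W.z W.z W.z a b c) f0) : False :=
  c13_0_ref (pt_inj (o := W.z) nd rfl) (PHs.app (h.ph rfl _) (PHs.app (gf_ph hr (cr 4) (cr_pt (n := 4) (l := [a, b, c, d]) (l' := []) rfl)) (gf_ph hf (c6 0 0 1 2 3) (c6_v6 rfl rfl rfl rfl rfl rfl))))

def c13_2_n_p0 : List Nat := [
0x26400300000009703ee000201,
0x48260070000000020000000990173000301,
0x2a40030000000a90544000201,
0xa6240070000000970000000060281000301,
0xa640030000000080580000201,
0xa84600700000000400000000a02c3000301,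
0xa86290000000a300000009500000009300000000c05f0000501,
0x84a64d00000000e0000000a30000000950000000930000000910000000b105f6000701,
0xa28642300000009f0000000100554000301,
0xb3000000012000200]

def c13_2_n_pf : List Nat := c13_2_n_p0

theorem c13_2_n_ref {V : Type} {S : SRel V} {p : Nat → V} (hp : ∀ i j, i < 6 → j < 6 → p i = p j → i = j)
    (hts : PHs S p 6 (mA ++ (gf (fun x => 8 + cr 4 x) rf13 ++ (gf (fun x => 8 + c6 5 0 1 2 3 x) f2)))) : False :=
  refuteS (k := 6) (n2 := 3) (n3 := 1) (n4 := 3) (o3 := 63) (o4 := 119) (M := 812) (mA ++ (gf (fun x => 8 + cr 4 x) rf13 ++ (gf (fun x => 8 + c6 5 0 1 2 3 x) f2))) c13_2_n_pf (by decide +kernel)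
    (by decide +kernel) (by decide +kernel) (by decide +kernel) hp hts

theorem c13_2_n {V : Type} {W : Mw V} (h : W.Hy) {a b c d u : V} (nd : [W.z, a, b, c, d, u].Nodup)
    (hr : Hit (mrel0 h.bs) (pt [a, b, c, d] W.z) rf13)
    (hf : Hit (mrel0 h.bs) (v6 W.z u W.z a b c) f2) : False :=
  c13_2_n_ref (pt_inj (o := W.z) nd rfl) (PHs.app (h.ph rfl _) (PHs.app (gf_ph hr (cr 4) (cr_pt (n := 4) (l := [a, b, c, d]) (l' := [u]) rfl)) (gf_ph hf (c6 5 0 1 2 3) (c6_v6 rfl rfl rfl rfl rfl rfl))))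

def c13_2_4_p0 : List Nat := [
0x2640030000000970253000201,
0x28600300000009902c2000201,
0x4826007000000002000000099014c000301,
0x48600300000000602c5000201,
0x642800700000000400000000802b9000301,
0xa900000000a000200]

def c13_2_4_pf : List Nat := c13_2_4_p0

theorem c13_2_4_ref {V : Type} {S : SRel V} {p : Nat → V} (hp : ∀ i j, i < 5 → j < 5 → p i = p j → i = j)
    (hts : PHs S p 5 (mA ++ (gf (fun x => 8 + cr 4 x) rf13 ++ (gf (fun x => 8 + c6 4 0 1 2 3 x) f2)))) : False :=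
  refuteS (k := 5) (n2 := 3) (n3 := 1) (n4 := 3) (o3 := 45) (o4 := 80) (M := 440) (mA ++ (gf (fun x => 8 + cr 4 x) rf13 ++ (gf (fun x => 8 + c6 4 0 1 2 3 x) f2))) c13_2_4_pf (by decide +kernel)
    (by decide +kernel) (by decide +kernel) (by decide +kernel) hp hts

theorem c13_2_4 {V : Type} {W : Mw V} (h : W.Hy) {a b c d : V} (nd : [W.z, a, b, c, d].Nodup)
    (hr : Hit (mrel0 h.bs) (pt [a, b, c, d] W.z) rf13)
    (hf : Hit (mrel0 h.bs) (v6 W.z d W.z a b c) f2) : False :=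
  c13_2_4_ref (pt_inj (o := W.z) nd rfl) (PHs.app (h.ph rfl _) (PHs.app (gf_ph hr (cr 4) (cr_pt (n := 4) (l := [a, b, c, d]) (l' := []) rfl)) (gf_ph hf (c6 4 0 1 2 3) (c6_v6 rfl rfl rfl rfl rfl rfl))))

def c13_3_n_p0 : List Nat := [
0x26400300000009703ee000201,
0x286003000000099045d000201,
0x48260070000000020000000990173000301,
0x86400300000000604bd000201,
0x86240070000000970000000080146000301,
0x621500000009300000008f00000009d0012000401,
0x28641d00000009f0024000201,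
0x26844f00000009500000009300000009100000008f00000000a00000009f04be000701,
0x8463500000001000000000c00000009500000009300000009100000000600000000e0135000801,
0x2a60030000000ab054d000201,
0x8a062070000000040000000ab02c6000301,
0x640a2070000000a90000000140227000301,
0x64a21b0000000180554000201,
0x486a22500000009f00000001a0563000301,
0x6a821d0000000b105c6000201,
0xa8621f00000001c00000001600000009d00000001e0365000501,
0x4a8310000000a5000000095000000091000000020058d000501,
0xa648490000000a50000000120000000950000000930000000910000000220581000701,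
0xb3000000024000200]

def c13_3_n_pf : List Nat := c13_3_n_p0

theorem c13_3_n_ref {V : Type} {S : SRel V} {p : Nat → V} (hp : ∀ i j, i < 6 → j < 6 → p i = p j → i = j)
    (hts : PHs S p 6 (mA ++ (gf (fun x => 8 + cr 4 x) rf13 ++ (gf (fun x => 8 + c6 5 0 1 2 3 x) f3)))) : False :=
  refuteS (k := 6) (n2 := 3) (n3 := 1) (n4 := 3) (o3 := 63) (o4 := 119) (M := 812) (mA ++ (gf (fun x => 8 + cr 4 x) rf13 ++ (gf (fun x => 8 + c6 5 0 1 2 3 x) f3))) c13_3_n_pf (by decide +kernel)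
    (by decide +kernel) (by decide +kernel) (by decide +kernel) hp hts

theorem c13_3_n {V : Type} {W : Mw V} (h : W.Hy) {a b c d u : V} (nd : [W.z, a, b, c, d, u].Nodup)
    (hr : Hit (mrel0 h.bs) (pt [a, b, c, d] W.z) rf13)
    (hf : Hit (mrel0 h.bs) (v6 W.z u W.z a b c) f3) : False :=
  c13_3_n_ref (pt_inj (o := W.z) nd rfl) (PHs.app (h.ph rfl _) (PHs.app (gf_ph hr (cr 4) (cr_pt (n := 4) (l := [a, b, c, d]) (l' := [u]) rfl)) (gf_ph hf (c6 5 0 1 2 3) (c6_v6 rfl rfl rfl rfl rfl rfl))))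

def c13_3_4_p0 : List Nat := [
0x28600300000009902c2000201,
0xab000000002000200]

def c13_3_4_pf : List Nat := c13_3_4_p0

theorem c13_3_4_ref {V : Type} {S : SRel V} {p : Nat → V} (hp : ∀ i j, i < 5 → j < 5 → p i = p j → i = j)
    (hts : PHs S p 5 (mA ++ (gf (fun x => 8 + cr 4 x) rf13 ++ (gf (fun x => 8 + c6 4 0 1 2 3 x) f3)))) : False :=
  refuteS (k := 5) (n2 := 3) (n3 := 1) (n4 := 3) (o3 := 45) (o4 := 80) (M := 440) (mA ++ (gf (fun x => 8 + cr 4 x) rf13 ++ (gf (fun x => 8 + c6 4 0 1 2 3 x) f3))) c13_3_4_pf (by decide +kernel)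
    (by decide +kernel) (by decide +kernel) (by decide +kernel) hp hts

theorem c13_3_4 {V : Type} {W : Mw V} (h : W.Hy) {a b c d : V} (nd : [W.z, a, b, c, d].Nodup)
    (hr : Hit (mrel0 h.bs) (pt [a, b, c, d] W.z) rf13)
    (hf : Hit (mrel0 h.bs) (v6 W.z d W.z a b c) f3) : False :=
  c13_3_4_ref (pt_inj (o := W.z) nd rfl) (PHs.app (h.ph rfl _) (PHs.app (gf_ph hr (cr 4) (cr_pt (n := 4) (l := [a, b, c, d]) (l' := []) rfl)) (gf_ph hf (c6 4 0 1 2 3) (c6_v6 rfl rfl rfl rfl rfl rfl))))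

def c13_4_n_p0 : List Nat := [
0x26400300000009703ee000201,
0x48260070000000020000000990173000301,
0x86400300000000404bd000201,
0x86240070000000970000000060146000301,
0x621500000009300000008f00000009d0012000401,
0x28641d00000009f0024000201,
0x26844f00000009500000009300000009100000008f00000000800000009f04be000701,
0x8463500000000e00000000a00000009500000009300000009100000000400000000c0135000801,
0xa864450000000a70000000100000000950000000930000000910000000b102ca000701,
0xa82642300000009f0000000120228000301,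
0x6a422100000001405b1000201,
0xb3000000016000200]

def c13_4_n_pf : List Nat := c13_4_n_p0

theorem c13_4_n_ref {V : Type} {S : SRel V} {p : Nat → V} (hp : ∀ i j, i < 6 → j < 6 → p i = p j → i = j)
    (hts : PHs S p 6 (mA ++ (gf (fun x => 8 + cr 4 x) rf13 ++ (gf (fun x => 8 + c6 5 0 1 2 3 x) f4)))) : False :=
  refuteS (k := 6) (n2 := 3) (n3 := 1) (n4 := 3) (o3 := 63) (o4 := 119) (M := 812) (mA ++ (gf (fun x => 8 + cr 4 x) rf13 ++ (gf (fun x => 8 + c6 5 0 1 2 3 x) f4))) c13_4_n_pf (by decide +kernel)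
    (by decide +kernel) (by decide +kernel) (by decide +kernel) hp hts

theorem c13_4_n {V : Type} {W : Mw V} (h : W.Hy) {a b c d u : V} (nd : [W.z, a, b, c, d, u].Nodup)
    (hr : Hit (mrel0 h.bs) (pt [a, b, c, d] W.z) rf13)
    (hf : Hit (mrel0 h.bs) (v6 W.z u W.z a b c) f4) : False :=
  c13_4_n_ref (pt_inj (o := W.z) nd rfl) (PHs.app (h.ph rfl _) (PHs.app (gf_ph hr (cr 4) (cr_pt (n := 4) (l := [a, b, c, d]) (l' := [u]) rfl)) (gf_ph hf (c6 5 0 1 2 3) (c6_v6 rfl rfl rfl rfl rfl rfl))))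

def c13_4_4_p0 : List Nat := [
0x68422100000009f0326000201,
0xb3000000002000200]

def c13_4_4_pf : List Nat := c13_4_4_p0

theorem c13_4_4_ref {V : Type} {S : SRel V} {p : Nat → V} (hp : ∀ i j, i < 5 → j < 5 → p i = p j → i = j)
    (hts : PHs S p 5 (mA ++ (gf (fun x => 8 + cr 4 x) rf13 ++ (gf (fun x => 8 + c6 4 0 1 2 3 x) f4)))) : False :=
  refuteS (k := 5) (n2 := 3) (n3 := 1) (n4 := 3) (o3 := 45) (o4 := 80) (M := 440) (mA ++ (gf (fun x => 8 + cr 4 x) rf13 ++ (gf (fun x => 8 + c6 4 0 1 2 3 x) f4))) c13_4_4_pf (by decide +kernel)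
    (by decide +kernel) (by decide +kernel) (by decide +kernel) hp hts

theorem c13_4_4 {V : Type} {W : Mw V} (h : W.Hy) {a b c d : V} (nd : [W.z, a, b, c, d].Nodup)
    (hr : Hit (mrel0 h.bs) (pt [a, b, c, d] W.z) rf13)
    (hf : Hit (mrel0 h.bs) (v6 W.z d W.z a b c) f4) : False :=
  c13_4_4_ref (pt_inj (o := W.z) nd rfl) (PHs.app (h.ph rfl _) (PHs.app (gf_ph hr (cr 4) (cr_pt (n := 4) (l := [a, b, c, d]) (l' := []) rfl)) (gf_ph hf (c6 4 0 1 2 3) (c6_v6 rfl rfl rfl rfl rfl rfl))))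

def c13_5_n_p0 : List Nat := [
0x26400300000009703ee000201,
0x48260070000000020000000990173000301,
0x86400300000000404bd000201,
0x86240070000000970000000060146000301,
0x621500000009300000008f00000009d0012000401,
0x28641d00000009f0024000201,
0x68422100000009f04c1000201,
0x26844f00000009500000009300000009100000008f00000000800000009f04be000701,
0x8463500000001000000000a00000009500000009300000009100000000400000000c0135000801,
0xa648490000000a50000000120000000950000000930000000910000000b10261000701,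
0x86a4450000000b10000000a5000000095000000093000000091000000014026a000701,
0x8a6242500000000e00000001605b1000301,
0xb3000000018000200]

def c13_5_n_pf : List Nat := c13_5_n_p0

theorem c13_5_n_ref {V : Type} {S : SRel V} {p : Nat → V} (hp : ∀ i j, i < 6 → j < 6 → p i = p j → i = j)
    (hts : PHs S p 6 (mA ++ (gf (fun x => 8 + cr 4 x) rf13 ++ (gf (fun x => 8 + c6 5 0 1 2 3 x) f5)))) : False :=
  refuteS (k := 6) (n2 := 3) (n3 := 1) (n4 := 3) (o3 := 63) (o4 := 119) (M := 812) (mA ++ (gf (fun x => 8 + cr 4 x) rf13 ++ (gf (fun x => 8 + c6 5 0 1 2 3 x) f5))) c13_5_n_pf (by decide +kernel)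
    (by decide +kernel) (by decide +kernel) (by decide +kernel) hp hts

theorem c13_5_n {V : Type} {W : Mw V} (h : W.Hy) {a b c d u : V} (nd : [W.z, a, b, c, d, u].Nodup)
    (hr : Hit (mrel0 h.bs) (pt [a, b, c, d] W.z) rf13)
    (hf : Hit (mrel0 h.bs) (v6 W.z u W.z a b c) f5) : False :=
  c13_5_n_ref (pt_inj (o := W.z) nd rfl) (PHs.app (h.ph rfl _) (PHs.app (gf_ph hr (cr 4) (cr_pt (n := 4) (l := [a, b, c, d]) (l' := [u]) rfl)) (gf_ph hf (c6 5 0 1 2 3) (c6_v6 rfl rfl rfl rfl rfl rfl))))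

def c13_5_4_p0 : List Nat := [
0x28600300000009902c2000201,
0xab000000002000200]

def c13_5_4_pf : List Nat := c13_5_4_p0

theorem c13_5_4_ref {V : Type} {S : SRel V} {p : Nat → V} (hp : ∀ i j, i < 5 → j < 5 → p i = p j → i = j)
    (hts : PHs S p 5 (mA ++ (gf (fun x => 8 + cr 4 x) rf13 ++ (gf (fun x => 8 + c6 4 0 1 2 3 x) f5)))) : False :=
  refuteS (k := 5) (n2 := 3) (n3 := 1) (n4 := 3) (o3 := 45) (o4 := 80) (M := 440) (mA ++ (gf (fun x => 8 + cr 4 x) rf13 ++ (gf (fun x => 8 + c6 4 0 1 2 3 x) f5))) c13_5_4_pf (by decide +kernel)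
    (by decide +kernel) (by decide +kernel) (by decide +kernel) hp hts

theorem c13_5_4 {V : Type} {W : Mw V} (h : W.Hy) {a b c d : V} (nd : [W.z, a, b, c, d].Nodup)
    (hr : Hit (mrel0 h.bs) (pt [a, b, c, d] W.z) rf13)
    (hf : Hit (mrel0 h.bs) (v6 W.z d W.z a b c) f5) : False :=
  c13_5_4_ref (pt_inj (o := W.z) nd rfl) (PHs.app (h.ph rfl _) (PHs.app (gf_ph hr (cr 4) (cr_pt (n := 4) (l := [a, b, c, d]) (l' := []) rfl)) (gf_ph hf (c6 4 0 1 2 3) (c6_v6 rfl rfl rfl rfl rfl rfl))))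

def c13_8_n_p0 : List Nat := [
0x6420b00000009100000008f0000000930412000401,
0x26400300000009703ee000201,
0x286003000000099045d000201,
0x48260070000000040000000990173000301,
0x84062070000000970000000060176000301,
0x4860030000000080460000201,
0x642800700000000600000000c0454000301,
0x28641d00000009f0024000201,
0x84a20900000009500000009100000008f0000000a1055f000501,
0xa280d00000009500000008f0000000a10559000401,
0xa62840700000000a000000012029c000301,
0x2a4800700000000e000000014058c000301,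
0x4a620070000000020000000a90245000301,
0x820a40700000001800000001a0263000301,
0xa4821b00000001c0590000201,
0x268a42500000009f00000001e0596000301,
0x8a641d0000000b105f6000201,
0xa6841f0000000200000000160000000100000000220362000501,
0xb3000000024000200]

def c13_8_n_pf : List Nat := c13_8_n_p0

theorem c13_8_n_ref {V : Type} {S : SRel V} {p : Nat → V} (hp : ∀ i j, i < 6 → j < 6 → p i = p j → i = j)
    (hts : PHs S p 6 (mA ++ (gf (fun x => 8 + cr 4 x) rf13 ++ (gf (fun x => 8 + c6 5 0 1 2 3 x) f8)))) : False :=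
  refuteS (k := 6) (n2 := 3) (n3 := 1) (n4 := 3) (o3 := 63) (o4 := 119) (M := 812) (mA ++ (gf (fun x => 8 + cr 4 x) rf13 ++ (gf (fun x => 8 + c6 5 0 1 2 3 x) f8))) c13_8_n_pf (by decide +kernel)
    (by decide +kernel) (by decide +kernel) (by decide +kernel) hp hts

theorem c13_8_n {V : Type} {W : Mw V} (h : W.Hy) {a b c d u : V} (nd : [W.z, a, b, c, d, u].Nodup)
    (hr : Hit (mrel0 h.bs) (pt [a, b, c, d] W.z) rf13)
    (hf : Hit (mrel0 h.bs) (v6 W.z u W.z a b c) f8) : False :=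
  c13_8_n_ref (pt_inj (o := W.z) nd rfl) (PHs.app (h.ph rfl _) (PHs.app (gf_ph hr (cr 4) (cr_pt (n := 4) (l := [a, b, c, d]) (l' := [u]) rfl)) (gf_ph hf (c6 5 0 1 2 3) (c6_v6 rfl rfl rfl rfl rfl rfl))))

def c13_8_4_p0 : List Nat := [
0xa1000000095000200]

def c13_8_4_pf : List Nat := c13_8_4_p0

theorem c13_8_4_ref {V : Type} {S : SRel V} {p : Nat → V} (hp : ∀ i j, i < 5 → j < 5 → p i = p j → i = j)
    (hts : PHs S p 5 (mA ++ (gf (fun x => 8 + cr 4 x) rf13 ++ (gf (fun x => 8 + c6 4 0 1 2 3 x) f8)))) : False :=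
  refuteS (k := 5) (n2 := 3) (n3 := 1) (n4 := 3) (o3 := 45) (o4 := 80) (M := 440) (mA ++ (gf (fun x => 8 + cr 4 x) rf13 ++ (gf (fun x => 8 + c6 4 0 1 2 3 x) f8))) c13_8_4_pf (by decide +kernel)
    (by decide +kernel) (by decide +kernel) (by decide +kernel) hp hts

theorem c13_8_4 {V : Type} {W : Mw V} (h : W.Hy) {a b c d : V} (nd : [W.z, a, b, c, d].Nodup)
    (hr : Hit (mrel0 h.bs) (pt [a, b, c, d] W.z) rf13)
    (hf : Hit (mrel0 h.bs) (v6 W.z d W.z a b c) f8) : False :=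
  c13_8_4_ref (pt_inj (o := W.z) nd rfl) (PHs.app (h.ph rfl _) (PHs.app (gf_ph hr (cr 4) (cr_pt (n := 4) (l := [a, b, c, d]) (l' := []) rfl)) (gf_ph hf (c6 4 0 1 2 3) (c6_v6 rfl rfl rfl rfl rfl rfl))))

def c13_9_n_p0 : List Nat := [
0x286003000000099045d000201,
0xa280d00000009500000008f0000000a10559000401,
0x2a6800700000000200000000405c2000301,
0x820a6070000000060000000a90299000301,
0xa6821b00000000805c6000201,
0xa46822500000009f00000000a05b1000301,
0xb100000000c000200]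

def c13_9_n_pf : List Nat := c13_9_n_p0

theorem c13_9_n_ref {V : Type} {S : SRel V} {p : Nat → V} (hp : ∀ i j, i < 6 → j < 6 → p i = p j → i = j)
    (hts : PHs S p 6 (mA ++ (gf (fun x => 8 + cr 4 x) rf13 ++ (gf (fun x => 8 + c6 5 0 1 2 3 x) f9)))) : False :=
  refuteS (k := 6) (n2 := 3) (n3 := 1) (n4 := 3) (o3 := 63) (o4 := 119) (M := 812) (mA ++ (gf (fun x => 8 + cr 4 x) rf13 ++ (gf (fun x => 8 + c6 5 0 1 2 3 x) f9))) c13_9_n_pf (by decide +kernel)
    (by decide +kernel) (by decide +kernel) (by decide +kernel) hp hts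

theorem c13_9_n {V : Type} {W : Mw V} (h : W.Hy) {a b c d u : V} (nd : [W.z, a, b, c, d, u].Nodup)
    (hr : Hit (mrel0 h.bs) (pt [a, b, c, d] W.z) rf13)
    (hf : Hit (mrel0 h.bs) (v6 W.z u W.z a b c) f9) : False :=
  c13_9_n_ref (pt_inj (o := W.z) nd rfl) (PHs.app (h.ph rfl _) (PHs.app (gf_ph hr (cr 4) (cr_pt (n := 4) (l := [a, b, c, d]) (l' := [u]) rfl)) (gf_ph hf (c6 5 0 1 2 3) (c6_v6 rfl rfl rfl rfl rfl rfl))))

def c13_9_4_p0 : List Nat := [
0xa1000000095000200]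

def c13_9_4_pf : List Nat := c13_9_4_p0

theorem c13_9_4_ref {V : Type} {S : SRel V} {p : Nat → V} (hp : ∀ i j, i < 5 → j < 5 → p i = p j → i = j)
    (hts : PHs S p 5 (mA ++ (gf (fun x => 8 + cr 4 x) rf13 ++ (gf (fun x => 8 + c6 4 0 1 2 3 x) f9)))) : False :=
  refuteS (k := 5) (n2 := 3) (n3 := 1) (n4 := 3) (o3 := 45) (o4 := 80) (M := 440) (mA ++ (gf (fun x => 8 + cr 4 x) rf13 ++ (gf (fun x => 8 + c6 4 0 1 2 3 x) f9))) c13_9_4_pf (by decide +kernel)
    (by decide +kernel) (by decide +kernel) (by decide +kernel) hp hts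

theorem c13_9_4 {V : Type} {W : Mw V} (h : W.Hy) {a b c d : V} (nd : [W.z, a, b, c, d].Nodup)
    (hr : Hit (mrel0 h.bs) (pt [a, b, c, d] W.z) rf13)
    (hf : Hit (mrel0 h.bs) (v6 W.z d W.z a b c) f9) : False :=
  c13_9_4_ref (pt_inj (o := W.z) nd rfl) (PHs.app (h.ph rfl _) (PHs.app (gf_ph hr (cr 4) (cr_pt (n := 4) (l := [a, b, c, d]) (l' := []) rfl)) (gf_ph hf (c6 4 0 1 2 3) (c6_v6 rfl rfl rfl rfl rfl rfl))))

theorem P13_0 {V : Type} {W : Mw V} (h : W.Hy) {a b c d u w : V} (nd : [W.z, a, b, c, d].Nodup)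
    (hr : Hit (mrel0 h.bs) (pt [a, b, c, d] W.z) rf13)
    (hf : Hit (mrel0 h.bs) (v6 W.z u w a b c) f0) : False := by
  exact c13_0 h nd hr (hit00 (by decide) hf)

theorem P13_2 {V : Type} {W : Mw V} (h : W.Hy) {a b c d u w : V} (nd : [W.z, a, b, c, d].Nodup)
    (hr : Hit (mrel0 h.bs) (pt [a, b, c, d] W.z) rf13)
    (hf : Hit (mrel0 h.bs) (v6 W.z u w a b c) f2) : False := by
  have hf := hit01 (by decide) hf
  have hs := hn1 hf rfl
  by_cases id : u = d
  · subst id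
    exact c13_2_4 h nd hr hf
  exact c13_2_n h (nd_snoc nd (nin5 hs.1 hs.2.1 hs.2.2.1 hs.2.2.2 id)) hr hf

theorem P13_3 {V : Type} {W : Mw V} (h : W.Hy) {a b c d u w : V} (nd : [W.z, a, b, c, d].Nodup)
    (hr : Hit (mrel0 h.bs) (pt [a, b, c, d] W.z) rf13)
    (hf : Hit (mrel0 h.bs) (v6 W.z u w a b c) f3) : False := by
  have hf := hit01 (by decide) hf
  have hs := hn1 hf rfl
  by_cases id : u = d
  · subst id
    exact c13_3_4 h nd hr hf
  exact c13_3_n h (nd_snoc nd (nin5 hs.1 hs.2.1 hs.2.2.1 hs.2.2.2 id)) hr hf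

theorem P13_4 {V : Type} {W : Mw V} (h : W.Hy) {a b c d u w : V} (nd : [W.z, a, b, c, d].Nodup)
    (hr : Hit (mrel0 h.bs) (pt [a, b, c, d] W.z) rf13)
    (hf : Hit (mrel0 h.bs) (v6 W.z u w a b c) f4) : False := by
  have hf := hit01 (by decide) hf
  have hs := hn1 hf rfl
  by_cases id : u = d
  · subst id
    exact c13_4_4 h nd hr hf
  exact c13_4_n h (nd_snoc nd (nin5 hs.1 hs.2.1 hs.2.2.1 hs.2.2.2 id)) hr hf

theorem P13_5 {V : Type} {W : Mw V} (h : W.Hy) {a b c d u w : V} (nd : [W.z, a, b, c, d].Nodup)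
    (hr : Hit (mrel0 h.bs) (pt [a, b, c, d] W.z) rf13)
    (hf : Hit (mrel0 h.bs) (v6 W.z u w a b c) f5) : False := by
  have hf := hit01 (by decide) hf
  have hs := hn1 hf rfl
  by_cases id : u = d
  · subst id
    exact c13_5_4 h nd hr hf
  exact c13_5_n h (nd_snoc nd (nin5 hs.1 hs.2.1 hs.2.2.1 hs.2.2.2 id)) hr hf

theorem P13_8 {V : Type} {W : Mw V} (h : W.Hy) {a b c d u w : V} (nd : [W.z, a, b, c, d].Nodup)
    (hr : Hit (mrel0 h.bs) (pt [a, b, c, d] W.z) rf13)
    (hf : Hit (mrel0 h.bs) (v6 W.z u w a b c) f8) : False := by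
  have hf := hit01 (by decide) hf
  have hs := hn1 hf rfl
  by_cases id : u = d
  · subst id
    exact c13_8_4 h nd hr hf
  exact c13_8_n h (nd_snoc nd (nin5 hs.1 hs.2.1 hs.2.2.1 hs.2.2.2 id)) hr hf

theorem P13_9 {V : Type} {W : Mw V} (h : W.Hy) {a b c d u w : V} (nd : [W.z, a, b, c, d].Nodup)
    (hr : Hit (mrel0 h.bs) (pt [a, b, c, d] W.z) rf13)
    (hf : Hit (mrel0 h.bs) (v6 W.z u w a b c) f9) : False := by
  have hf := hit01 (by decide) hf
  have hs := hn1 hf rfl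
  by_cases id : u = d
  · subst id
    exact c13_9_4 h nd hr hf
  exact c13_9_n h (nd_snoc nd (nin5 hs.1 hs.2.1 hs.2.2.1 hs.2.2.2 id)) hr hf

theorem R13 {V : Type} {W : Mw V} (h : W.Hy) {a b c d : V} (nd : [W.z, a, b, c, d].Nodup)
    (hr : Hit (mrel0 h.bs) (pt [a, b, c, d] W.z) rf13)
    (hp : FS (mrel0 h.bs) W.z fp1 a b c) : False := by
  obtain ⟨t, ht, u, w, hf⟩ := hp
  simp only [fp1, List.mem_cons, List.not_mem_nil, or_false] at ht
  rcases ht with rfl | rfl | rfl | rfl | rfl | rfl | rfl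
  · exact P13_0 h nd hr hf
  · exact P13_2 h nd hr hf
  · exact P13_3 h nd hr hf
  · exact P13_4 h nd hr hf
  · exact P13_5 h nd hr hf
  · exact P13_8 h nd hr hf
  · exact P13_9 h nd hr hf

end Pool.Agent.SOU
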