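import Pool.Agent.SOU.TB

/-! Project SOU (MP_66ba69_lc, mixed insertion): rule 16 (generated). -/

set_option autoImplicit false
set_option maxRecDepth 100000
set_option linter.unusedVariables false

namespace Pool.Agent.SOU

open Pool.Agent.RUP Pool.Agent.SOQ

def c16_0_p0 : List Nat := [
0x2bb0000000950000000930000000af00000008f00000009100000009b00000009d00000009f000000097000000099000b00]

def c16_0_pf : List Nat := c16_0_p0

theorem c16_0_ref {V : Type} {S : SRel V} {p : Nat → V} (hp : ∀ i j, i < 5 → j < 5 → p i = p j → i = j)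
    (hts : PHs S p 5 (mA ++ (gf (fun x => 8 + cr 4 x) rf16 ++ (gf (fun x => 8 + c6 0 0 1 3 4 x) f0 ++ fp1.map (tren (n6 2 3 4)))))) : False :=
  refuteS (k := 5) (n2 := 3) (n3 := 1) (n4 := 3) (o3 := 45) (o4 := 80) (M := 440) (mA ++ (gf (fun x => 8 + cr 4 x) rf16 ++ (gf (fun x => 8 + c6 0 0 1 3 4 x) f0 ++ fp1.map (tren (n6 2 3 4))))) c16_0_pf (by decide +kernel)
    (by decide +kernel) (by decide +kernel) (by decide +kernel) hp hts

theorem c16_0 {V : Type} {W : Mw V} (h : W.Hy) {a b c d : V} (nd : [W.z, a, b, c, d].Nodup)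
    (hr : Hit (mrel0 h.bs) (pt [a, b, c, d] W.z) rf16)
    (hf : Hit (mrel0 h.bs) (v6 W.z W.z W.z a c d) f0)
    (hq : ¬ FS (mrel0 h.bs) W.z fp1 b c d) : False :=
  c16_0_ref (pt_inj (o := W.z) nd rfl) (PHs.app (h.ph rfl _) (PHs.app (gf_ph hr (cr 4) (cr_pt (n := 4) (l := [a, b, c, d]) (l' := []) rfl)) (PHs.app (gf_ph hf (c6 0 0 1 3 4) (c6_v6 rfl rfl rfl rfl rfl rfl)) (nf_ph hq (ia := 2) (ib := 3) (ic := 4) rfl rfl rfl rfl))))

def c16_2_n_p0 : List Nat := [
0x4260d00000009100000008f00000009303ee000401,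
0x8640b00000009300000009100000009504bd000401,
0x682400700000000400000009700d4000301,
0x286003000000099045d000201,
0x48260070000000020000000990173000301,
0x84062070000000060000000080176000301,
0x42a0d00000009100000008f0000000a50517000401,
0xa640b0000000930000000910000000a505ad000401,
0xa6240070000000060000000100218000301,
0x2a60030000000ab054d000201,
0x462a00700000000e0000000ab01f7000301,
0x640a2070000000120000000140227000301,
0x64a21b0000000180554000201,
0x86a21d0000000b50015000201,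
0x486a22500000001a0000000b50482000301,
0x84621f00000001c00000009f00000000c00000001e0195000501,
0xa2486230000000b5000000020026a000301,
0xab90000000a500000009500000009300000009100000009b00000009f00000000a0000000160000000220000000b3000b00]

def c16_2_n_pf : List Nat := c16_2_n_p0

theorem c16_2_n_ref {V : Type} {S : SRel V} {p : Nat → V} (hp : ∀ i j, i < 6 → j < 6 → p i = p j → i = j)
    (hts : PHs S p 6 (mA ++ (gf (fun x => 8 + cr 4 x) rf16 ++ (gf (fun x => 8 + c6 5 0 1 3 4 x) f2 ++ fp1.map (tren (n6 2 3 4)))))) : False :=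
  refuteS (k := 6) (n2 := 3) (n3 := 1) (n4 := 3) (o3 := 63) (o4 := 119) (M := 812) (mA ++ (gf (fun x => 8 + cr 4 x) rf16 ++ (gf (fun x => 8 + c6 5 0 1 3 4 x) f2 ++ fp1.map (tren (n6 2 3 4))))) c16_2_n_pf (by decide +kernel)
    (by decide +kernel) (by decide +kernel) (by decide +kernel) hp hts

theorem c16_2_n {V : Type} {W : Mw V} (h : W.Hy) {a b c d u : V} (nd : [W.z, a, b, c, d, u].Nodup)
    (hr : Hit (mrel0 h.bs) (pt [a, b, c, d] W.z) rf16)
    (hf : Hit (mrel0 h.bs) (v6 W.z u W.z a c d) f2)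
    (hq : ¬ FS (mrel0 h.bs) W.z fp1 b c d) : False :=
  c16_2_n_ref (pt_inj (o := W.z) nd rfl) (PHs.app (h.ph rfl _) (PHs.app (gf_ph hr (cr 4) (cr_pt (n := 4) (l := [a, b, c, d]) (l' := [u]) rfl)) (PHs.app (gf_ph hf (c6 5 0 1 3 4) (c6_v6 rfl rfl rfl rfl rfl rfl)) (nf_ph hq (ia := 2) (ib := 3) (ic := 4) rfl rfl rfl rfl))))

def c16_2_2_p0 : List Nat := [
0xa5000000091000200]

def c16_2_2_pf : List Nat := c16_2_2_p0

theorem c16_2_2_ref {V : Type} {S : SRel V} {p : Nat → V} (hp : ∀ i j, i < 5 → j < 5 → p i = p j → i = j)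
    (hts : PHs S p 5 (mA ++ (gf (fun x => 8 + cr 4 x) rf16 ++ (gf (fun x => 8 + c6 2 0 1 3 4 x) f2 ++ fp1.map (tren (n6 2 3 4)))))) : False :=
  refuteS (k := 5) (n2 := 3) (n3 := 1) (n4 := 3) (o3 := 45) (o4 := 80) (M := 440) (mA ++ (gf (fun x => 8 + cr 4 x) rf16 ++ (gf (fun x => 8 + c6 2 0 1 3 4 x) f2 ++ fp1.map (tren (n6 2 3 4))))) c16_2_2_pf (by decide +kernel)
    (by decide +kernel) (by decide +kernel) (by decide +kernel) hp hts

theorem c16_2_2 {V : Type} {W : Mw V} (h : W.Hy) {a b c d : V} (nd : [W.z, a, b, c, d].Nodup)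
    (hr : Hit (mrel0 h.bs) (pt [a, b, c, d] W.z) rf16)
    (hf : Hit (mrel0 h.bs) (v6 W.z b W.z a c d) f2)
    (hq : ¬ FS (mrel0 h.bs) W.z fp1 b c d) : False :=
  c16_2_2_ref (pt_inj (o := W.z) nd rfl) (PHs.app (h.ph rfl _) (PHs.app (gf_ph hr (cr 4) (cr_pt (n := 4) (l := [a, b, c, d]) (l' := []) rfl)) (PHs.app (gf_ph hf (c6 2 0 1 3 4) (c6_v6 rfl rfl rfl rfl rfl rfl)) (nf_ph hq (ia := 2) (ib := 3) (ic := 4) rfl rfl rfl rfl))))

def c16_3_n_p0 : List Nat := [
0x4260d00000009100000008f00000009303ee000401,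
0x8640b00000009300000009100000009504bd000401,
0x682400700000000400000009700d4000301,
0x42a0d00000009100000008f0000000a70517000401,
0xa640b0000000930000000910000000a705ad000401,
0xa62400700000000600000000a0218000301,
0x2a60030000000ab0520000201,
0x4a260070000000020000000ab0254000301,
0xa40620700000000600000000e0257000301,
0x2a80030000000ad0559000201,
0xa4082050000000970000000ad058f000301,
0x482a0070000000080000000ad0203000301,
0x840a20700000000c0000000140233000301,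
0x862a4070000000120000000160269000301,
0x84a21b00000001a0560000201,
0x6a421d0000000b305b1000201,
0xa68310000000a70000000950000000930000000b50027000501,
0xabb0000000a700000009500000009300000009100000009b00000009f0000000180000000100000000b50033000a01,
0xabf0000000a700000009500000009300000009100000009b00000009f0000000180000000100000000b505f6000a01,
0x86a41f00000002400000002200000001c000000026029d000501,
0x26a842500000001e0000000280554000301,
0xa4621f00000002000000002400000001200000002a0341000501,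
0x2c100000009500000009300000002c00000008f00000009100000009b00000009d00000009f000000097000000099000b00]

def c16_3_n_pf : List Nat := c16_3_n_p0

theorem c16_3_n_ref {V : Type} {S : SRel V} {p : Nat → V} (hp : ∀ i j, i < 6 → j < 6 → p i = p j → i = j)
    (hts : PHs S p 6 (mA ++ (gf (fun x => 8 + cr 4 x) rf16 ++ (gf (fun x => 8 + c6 5 0 1 3 4 x) f3 ++ fp1.map (tren (n6 2 3 4)))))) : False :=
  refuteS (k := 6) (n2 := 3) (n3 := 1) (n4 := 3) (o3 := 63) (o4 := 119) (M := 812) (mA ++ (gf (fun x => 8 + cr 4 x) rf16 ++ (gf (fun x => 8 + c6 5 0 1 3 4 x) f3 ++ fp1.map (tren (n6 2 3 4))))) c16_3_n_pf (by decide +kernel)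
    (by decide +kernel) (by decide +kernel) (by decide +kernel) hp hts

theorem c16_3_n {V : Type} {W : Mw V} (h : W.Hy) {a b c d u : V} (nd : [W.z, a, b, c, d, u].Nodup)
    (hr : Hit (mrel0 h.bs) (pt [a, b, c, d] W.z) rf16)
    (hf : Hit (mrel0 h.bs) (v6 W.z u W.z a c d) f3)
    (hq : ¬ FS (mrel0 h.bs) W.z fp1 b c d) : False :=
  c16_3_n_ref (pt_inj (o := W.z) nd rfl) (PHs.app (h.ph rfl _) (PHs.app (gf_ph hr (cr 4) (cr_pt (n := 4) (l := [a, b, c, d]) (l' := [u]) rfl)) (PHs.app (gf_ph hf (c6 5 0 1 3 4) (c6_v6 rfl rfl rfl rfl rfl rfl)) (nf_ph hq (ia := 2) (ib := 3) (ic := 4) rfl rfl rfl rfl))))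

def c16_3_2_p0 : List Nat := [
0xa7000000091000200]

def c16_3_2_pf : List Nat := c16_3_2_p0

theorem c16_3_2_ref {V : Type} {S : SRel V} {p : Nat → V} (hp : ∀ i j, i < 5 → j < 5 → p i = p j → i = j)
    (hts : PHs S p 5 (mA ++ (gf (fun x => 8 + cr 4 x) rf16 ++ (gf (fun x => 8 + c6 2 0 1 3 4 x) f3 ++ fp1.map (tren (n6 2 3 4)))))) : False :=
  refuteS (k := 5) (n2 := 3) (n3 := 1) (n4 := 3) (o3 := 45) (o4 := 80) (M := 440) (mA ++ (gf (fun x => 8 + cr 4 x) rf16 ++ (gf (fun x => 8 + c6 2 0 1 3 4 x) f3 ++ fp1.map (tren (n6 2 3 4))))) c16_3_2_pf (by decide +kernel)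
    (by decide +kernel) (by decide +kernel) (by decide +kernel) hp hts

theorem c16_3_2 {V : Type} {W : Mw V} (h : W.Hy) {a b c d : V} (nd : [W.z, a, b, c, d].Nodup)
    (hr : Hit (mrel0 h.bs) (pt [a, b, c, d] W.z) rf16)
    (hf : Hit (mrel0 h.bs) (v6 W.z b W.z a c d) f3)
    (hq : ¬ FS (mrel0 h.bs) W.z fp1 b c d) : False :=
  c16_3_2_ref (pt_inj (o := W.z) nd rfl) (PHs.app (h.ph rfl _) (PHs.app (gf_ph hr (cr 4) (cr_pt (n := 4) (l := [a, b, c, d]) (l' := []) rfl)) (PHs.app (gf_ph hf (c6 2 0 1 3 4) (c6_v6 rfl rfl rfl rfl rfl rfl)) (nf_ph hq (ia := 2) (ib := 3) (ic := 4) rfl rfl rfl rfl))))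

def c16_4_n_p0 : List Nat := [
0x4260d00000009100000008f00000009303ee000401,
0x4280d00000009100000008f0000000950454000401,
0x8640b00000009300000009100000009504bd000401,
0x682400700000000600000009700d4000301,
0x286003000000099045d000201,
0x48260070000000020000000990173000301,
0x840620700000000800000000a0176000301,
0xa640b0000000930000000910000000a905ad000401,
0xa6240070000000080000000100218000301,
0x2a80030000000ad052c000201,
0x840a2050000000120000000ad055f000301,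
0x4a280070000000040000000ad0260000301,
0xa6082070000000990000000140299000301,
0xa62840700000000e000000016029c000301,
0xa8620300000001a05f2000201,
0xa84620700000000e00000001e0257000301,
0xa4621b0000000200584000201,
0x86a310000000a90000000950000000930000000b30036000501,
0x48a26250000000220000000b50596000301,
0xa6841f00000002400000001c00000009f00000002602ca000501,
0xabd0000000a900000009500000009300000009100000009b00000009f00000000c0000000b3000000018000000028000b00]

def c16_4_n_pf : List Nat := c16_4_n_p0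

theorem c16_4_n_ref {V : Type} {S : SRel V} {p : Nat → V} (hp : ∀ i j, i < 6 → j < 6 → p i = p j → i = j)
    (hts : PHs S p 6 (mA ++ (gf (fun x => 8 + cr 4 x) rf16 ++ (gf (fun x => 8 + c6 5 0 1 3 4 x) f4 ++ fp1.map (tren (n6 2 3 4)))))) : False :=
  refuteS (k := 6) (n2 := 3) (n3 := 1) (n4 := 3) (o3 := 63) (o4 := 119) (M := 812) (mA ++ (gf (fun x => 8 + cr 4 x) rf16 ++ (gf (fun x => 8 + c6 5 0 1 3 4 x) f4 ++ fp1.map (tren (n6 2 3 4))))) c16_4_n_pf (by decide +kernel)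
    (by decide +kernel) (by decide +kernel) (by decide +kernel) hp hts

theorem c16_4_n {V : Type} {W : Mw V} (h : W.Hy) {a b c d u : V} (nd : [W.z, a, b, c, d, u].Nodup)
    (hr : Hit (mrel0 h.bs) (pt [a, b, c, d] W.z) rf16)
    (hf : Hit (mrel0 h.bs) (v6 W.z u W.z a c d) f4)
    (hq : ¬ FS (mrel0 h.bs) W.z fp1 b c d) : False :=
  c16_4_n_ref (pt_inj (o := W.z) nd rfl) (PHs.app (h.ph rfl _) (PHs.app (gf_ph hr (cr 4) (cr_pt (n := 4) (l := [a, b, c, d]) (l' := [u]) rfl)) (PHs.app (gf_ph hf (c6 5 0 1 3 4) (c6_v6 rfl rfl rfl rfl rfl rfl)) (nf_ph hq (ia := 2) (ib := 3) (ic := 4) rfl rfl rfl rfl))))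

def c16_4_2_p0 : List Nat := [
0xa9000000091000200]

def c16_4_2_pf : List Nat := c16_4_2_p0

theorem c16_4_2_ref {V : Type} {S : SRel V} {p : Nat → V} (hp : ∀ i j, i < 5 → j < 5 → p i = p j → i = j)
    (hts : PHs S p 5 (mA ++ (gf (fun x => 8 + cr 4 x) rf16 ++ (gf (fun x => 8 + c6 2 0 1 3 4 x) f4 ++ fp1.map (tren (n6 2 3 4)))))) : False :=
  refuteS (k := 5) (n2 := 3) (n3 := 1) (n4 := 3) (o3 := 45) (o4 := 80) (M := 440) (mA ++ (gf (fun x => 8 + cr 4 x) rf16 ++ (gf (fun x => 8 + c6 2 0 1 3 4 x) f4 ++ fp1.map (tren (n6 2 3 4))))) c16_4_2_pf (by decide +kernel)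
    (by decide +kernel) (by decide +kernel) (by decide +kernel) hp hts

theorem c16_4_2 {V : Type} {W : Mw V} (h : W.Hy) {a b c d : V} (nd : [W.z, a, b, c, d].Nodup)
    (hr : Hit (mrel0 h.bs) (pt [a, b, c, d] W.z) rf16)
    (hf : Hit (mrel0 h.bs) (v6 W.z b W.z a c d) f4)
    (hq : ¬ FS (mrel0 h.bs) W.z fp1 b c d) : False :=
  c16_4_2_ref (pt_inj (o := W.z) nd rfl) (PHs.app (h.ph rfl _) (PHs.app (gf_ph hr (cr 4) (cr_pt (n := 4) (l := [a, b, c, d]) (l' := []) rfl)) (PHs.app (gf_ph hf (c6 2 0 1 3 4) (c6_v6 rfl rfl rfl rfl rfl rfl)) (nf_ph hq (ia := 2) (ib := 3) (ic := 4) rfl rfl rfl rfl))))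

def c16_5_n_p0 : List Nat := [
0x4260d00000009100000008f00000009303ee000401,
0x8640b00000009300000009100000009504bd000401,
0x682400700000000400000009700d4000301,
0x42a0d00000009100000008f0000000a70517000401,
0xa640b0000000930000000910000000a705ad000401,
0xa62400700000000600000000a0218000301,
0x2a60030000000ab0520000201,
0x4a260070000000020000000ab0254000301,
0xa40620700000000600000000e0257000301,
0xa4621b0000000120584000201,
0x2a80030000000ad0559000201,
0x482a0070000000080000000ad0203000301,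
0x840a20700000000c0000000160233000301,
0x8a621d0000000b50030000201,
0x48a62250000000140000000b50590000301,
0x84a21f00000001c00000001a00000009f00000001e02be000501,
0x624a8230000000b500000002002ca000301,
0xabf0000000a700000009500000009300000009100000009b00000009f0000000180000000100000000b3000000022000b00]

def c16_5_n_pf : List Nat := c16_5_n_p0

theorem c16_5_n_ref {V : Type} {S : SRel V} {p : Nat → V} (hp : ∀ i j, i < 6 → j < 6 → p i = p j → i = j)
    (hts : PHs S p 6 (mA ++ (gf (fun x => 8 + cr 4 x) rf16 ++ (gf (fun x => 8 + c6 5 0 1 3 4 x) f5 ++ fp1.map (tren (n6 2 3 4)))))) : False :=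
  refuteS (k := 6) (n2 := 3) (n3 := 1) (n4 := 3) (o3 := 63) (o4 := 119) (M := 812) (mA ++ (gf (fun x => 8 + cr 4 x) rf16 ++ (gf (fun x => 8 + c6 5 0 1 3 4 x) f5 ++ fp1.map (tren (n6 2 3 4))))) c16_5_n_pf (by decide +kernel)
    (by decide +kernel) (by decide +kernel) (by decide +kernel) hp hts

theorem c16_5_n {V : Type} {W : Mw V} (h : W.Hy) {a b c d u : V} (nd : [W.z, a, b, c, d, u].Nodup)
    (hr : Hit (mrel0 h.bs) (pt [a, b, c, d] W.z) rf16)
    (hf : Hit (mrel0 h.bs) (v6 W.z u W.z a c d) f5)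
    (hq : ¬ FS (mrel0 h.bs) W.z fp1 b c d) : False :=
  c16_5_n_ref (pt_inj (o := W.z) nd rfl) (PHs.app (h.ph rfl _) (PHs.app (gf_ph hr (cr 4) (cr_pt (n := 4) (l := [a, b, c, d]) (l' := [u]) rfl)) (PHs.app (gf_ph hf (c6 5 0 1 3 4) (c6_v6 rfl rfl rfl rfl rfl rfl)) (nf_ph hq (ia := 2) (ib := 3) (ic := 4) rfl rfl rfl rfl))))

def c16_5_2_p0 : List Nat := [
0xa7000000091000200]

def c16_5_2_pf : List Nat := c16_5_2_p0

theorem c16_5_2_ref {V : Type} {S : SRel V} {p : Nat → V} (hp : ∀ i j, i < 5 → j < 5 → p i = p j → i = j)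
    (hts : PHs S p 5 (mA ++ (gf (fun x => 8 + cr 4 x) rf16 ++ (gf (fun x => 8 + c6 2 0 1 3 4 x) f5 ++ fp1.map (tren (n6 2 3 4)))))) : False :=
  refuteS (k := 5) (n2 := 3) (n3 := 1) (n4 := 3) (o3 := 45) (o4 := 80) (M := 440) (mA ++ (gf (fun x => 8 + cr 4 x) rf16 ++ (gf (fun x => 8 + c6 2 0 1 3 4 x) f5 ++ fp1.map (tren (n6 2 3 4))))) c16_5_2_pf (by decide +kernel)
    (by decide +kernel) (by decide +kernel) (by decide +kernel) hp hts

theorem c16_5_2 {V : Type} {W : Mw V} (h : W.Hy) {a b c d : V} (nd : [W.z, a, b, c, d].Nodup)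
    (hr : Hit (mrel0 h.bs) (pt [a, b, c, d] W.z) rf16)
    (hf : Hit (mrel0 h.bs) (v6 W.z b W.z a c d) f5)
    (hq : ¬ FS (mrel0 h.bs) W.z fp1 b c d) : False :=
  c16_5_2_ref (pt_inj (o := W.z) nd rfl) (PHs.app (h.ph rfl _) (PHs.app (gf_ph hr (cr 4) (cr_pt (n := 4) (l := [a, b, c, d]) (l' := []) rfl)) (PHs.app (gf_ph hf (c6 2 0 1 3 4) (c6_v6 rfl rfl rfl rfl rfl rfl)) (nf_ph hq (ia := 2) (ib := 3) (ic := 4) rfl rfl rfl rfl))))

def c16_8_n_p0 : List Nat := [
0x8420030000000970490000201,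
0xa260d00000009300000008f0000000a3054d000401,
0xa82600700000009900000000402c3000301,
0x4a820070000000020000000ab0245000301,
0xa420030000000080544000201,
0xa82400700000009700000000a02ba000301,
0xac10000000b300000009500000009300000009100000009b00000009f0000000b50000000a300000000c000000006000b00]

def c16_8_n_pf : List Nat := c16_8_n_p0

theorem c16_8_n_ref {V : Type} {S : SRel V} {p : Nat → V} (hp : ∀ i j, i < 6 → j < 6 → p i = p j → i = j)
    (hts : PHs S p 6 (mA ++ (gf (fun x => 8 + cr 4 x) rf16 ++ (gf (fun x => 8 + c6 5 0 1 3 4 x) f8 ++ fp1.map (tren (n6 2 3 4)))))) : False :=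
  refuteS (k := 6) (n2 := 3) (n3 := 1) (n4 := 3) (o3 := 63) (o4 := 119) (M := 812) (mA ++ (gf (fun x => 8 + cr 4 x) rf16 ++ (gf (fun x => 8 + c6 5 0 1 3 4 x) f8 ++ fp1.map (tren (n6 2 3 4))))) c16_8_n_pf (by decide +kernel)
    (by decide +kernel) (by decide +kernel) (by decide +kernel) hp hts

theorem c16_8_n {V : Type} {W : Mw V} (h : W.Hy) {a b c d u : V} (nd : [W.z, a, b, c, d, u].Nodup)
    (hr : Hit (mrel0 h.bs) (pt [a, b, c, d] W.z) rf16)
    (hf : Hit (mrel0 h.bs) (v6 W.z u W.z a c d) f8)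
    (hq : ¬ FS (mrel0 h.bs) W.z fp1 b c d) : False :=
  c16_8_n_ref (pt_inj (o := W.z) nd rfl) (PHs.app (h.ph rfl _) (PHs.app (gf_ph hr (cr 4) (cr_pt (n := 4) (l := [a, b, c, d]) (l' := [u]) rfl)) (PHs.app (gf_ph hf (c6 5 0 1 3 4) (c6_v6 rfl rfl rfl rfl rfl rfl)) (nf_ph hq (ia := 2) (ib := 3) (ic := 4) rfl rfl rfl rfl))))

def c16_8_2_p0 : List Nat := [
0x84200300000009702f5000201,
0xab000000002000200]

def c16_8_2_pf : List Nat := c16_8_2_p0

theorem c16_8_2_ref {V : Type} {S : SRel V} {p : Nat → V} (hp : ∀ i j, i < 5 → j < 5 → p i = p j → i = j)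
    (hts : PHs S p 5 (mA ++ (gf (fun x => 8 + cr 4 x) rf16 ++ (gf (fun x => 8 + c6 2 0 1 3 4 x) f8 ++ fp1.map (tren (n6 2 3 4)))))) : False :=
  refuteS (k := 5) (n2 := 3) (n3 := 1) (n4 := 3) (o3 := 45) (o4 := 80) (M := 440) (mA ++ (gf (fun x => 8 + cr 4 x) rf16 ++ (gf (fun x => 8 + c6 2 0 1 3 4 x) f8 ++ fp1.map (tren (n6 2 3 4))))) c16_8_2_pf (by decide +kernel)
    (by decide +kernel) (by decide +kernel) (by decide +kernel) hp hts

theorem c16_8_2 {V : Type} {W : Mw V} (h : W.Hy) {a b c d : V} (nd : [W.z, a, b, c, d].Nodup)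
    (hr : Hit (mrel0 h.bs) (pt [a, b, c, d] W.z) rf16)
    (hf : Hit (mrel0 h.bs) (v6 W.z b W.z a c d) f8)
    (hq : ¬ FS (mrel0 h.bs) W.z fp1 b c d) : False :=
  c16_8_2_ref (pt_inj (o := W.z) nd rfl) (PHs.app (h.ph rfl _) (PHs.app (gf_ph hr (cr 4) (cr_pt (n := 4) (l := [a, b, c, d]) (l' := []) rfl)) (PHs.app (gf_ph hf (c6 2 0 1 3 4) (c6_v6 rfl rfl rfl rfl rfl rfl)) (nf_ph hq (ia := 2) (ib := 3) (ic := 4) rfl rfl rfl rfl))))

def c16_9_n_p0 : List Nat := [
0x8640b00000009300000009100000009504bd000401,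
0x8420030000000970490000201,
0x682400700000000200000009700d4000301,
0x286003000000099045d000201,
0x84062070000000060000000080176000301,
0xa260d00000009300000008f0000000a3054d000401,
0xa460d0000000930000000910000000a30580000401,
0xa82600700000009900000000c02c3000301,
0x8a20030000000ab052c000201,
0x4a820070000000040000000ab0245000301,
0xa4082070000000970000000120263000301,
0xa420030000000140544000201,
0x620a40700000000e0000000140257000301,
0x4a8203000000016055f000201,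
0xa82400700000009700000001802ba000301,
0xa4621b00000001a0584000201,
0xa62840700000000a00000001c029c000301,
0x8a261d0000000b30036000201,
0x48a26250000000200000000b30596000301,
0xa6841f00000002400000002200000009f00000002602ca000501,
0xac100000009500000009300000009100000009b00000009f0000000a300000001e000000010000000028000a00]

def c16_9_n_pf : List Nat := c16_9_n_p0

theorem c16_9_n_ref {V : Type} {S : SRel V} {p : Nat → V} (hp : ∀ i j, i < 6 → j < 6 → p i = p j → i = j)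
    (hts : PHs S p 6 (mA ++ (gf (fun x => 8 + cr 4 x) rf16 ++ (gf (fun x => 8 + c6 5 0 1 3 4 x) f9 ++ fp1.map (tren (n6 2 3 4)))))) : False :=
  refuteS (k := 6) (n2 := 3) (n3 := 1) (n4 := 3) (o3 := 63) (o4 := 119) (M := 812) (mA ++ (gf (fun x => 8 + cr 4 x) rf16 ++ (gf (fun x => 8 + c6 5 0 1 3 4 x) f9 ++ fp1.map (tren (n6 2 3 4))))) c16_9_n_pf (by decide +kernel)
    (by decide +kernel) (by decide +kernel) (by decide +kernel) hp hts

theorem c16_9_n {V : Type} {W : Mw V} (h : W.Hy) {a b c d u : V} (nd : [W.z, a, b, c, d, u].Nodup)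
    (hr : Hit (mrel0 h.bs) (pt [a, b, c, d] W.z) rf16)
    (hf : Hit (mrel0 h.bs) (v6 W.z u W.z a c d) f9)
    (hq : ¬ FS (mrel0 h.bs) W.z fp1 b c d) : False :=
  c16_9_n_ref (pt_inj (o := W.z) nd rfl) (PHs.app (h.ph rfl _) (PHs.app (gf_ph hr (cr 4) (cr_pt (n := 4) (l := [a, b, c, d]) (l' := [u]) rfl)) (PHs.app (gf_ph hf (c6 5 0 1 3 4) (c6_v6 rfl rfl rfl rfl rfl rfl)) (nf_ph hq (ia := 2) (ib := 3) (ic := 4) rfl rfl rfl rfl))))

def c16_9_2_p0 : List Nat := [
0x84200300000009702f5000201,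
0xab000000002000200]

def c16_9_2_pf : List Nat := c16_9_2_p0

theorem c16_9_2_ref {V : Type} {S : SRel V} {p : Nat → V} (hp : ∀ i j, i < 5 → j < 5 → p i = p j → i = j)
    (hts : PHs S p 5 (mA ++ (gf (fun x => 8 + cr 4 x) rf16 ++ (gf (fun x => 8 + c6 2 0 1 3 4 x) f9 ++ fp1.map (tren (n6 2 3 4)))))) : False :=
  refuteS (k := 5) (n2 := 3) (n3 := 1) (n4 := 3) (o3 := 45) (o4 := 80) (M := 440) (mA ++ (gf (fun x => 8 + cr 4 x) rf16 ++ (gf (fun x => 8 + c6 2 0 1 3 4 x) f9 ++ fp1.map (tren (n6 2 3 4))))) c16_9_2_pf (by decide +kernel)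
    (by decide +kernel) (by decide +kernel) (by decide +kernel) hp hts

theorem c16_9_2 {V : Type} {W : Mw V} (h : W.Hy) {a b c d : V} (nd : [W.z, a, b, c, d].Nodup)
    (hr : Hit (mrel0 h.bs) (pt [a, b, c, d] W.z) rf16)
    (hf : Hit (mrel0 h.bs) (v6 W.z b W.z a c d) f9)
    (hq : ¬ FS (mrel0 h.bs) W.z fp1 b c d) : False :=
  c16_9_2_ref (pt_inj (o := W.z) nd rfl) (PHs.app (h.ph rfl _) (PHs.app (gf_ph hr (cr 4) (cr_pt (n := 4) (l := [a, b, c, d]) (l' := []) rfl)) (PHs.app (gf_ph hf (c6 2 0 1 3 4) (c6_v6 rfl rfl rfl rfl rfl rfl)) (nf_ph hq (ia := 2) (ib := 3) (ic := 4) rfl rfl rfl rfl))))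

theorem P16_0 {V : Type} {W : Mw V} (h : W.Hy) {a b c d u w : V} (nd : [W.z, a, b, c, d].Nodup)
    (hr : Hit (mrel0 h.bs) (pt [a, b, c, d] W.z) rf16)
    (hf : Hit (mrel0 h.bs) (v6 W.z u w a c d) f0) (hq : ¬ FS (mrel0 h.bs) W.z fp1 b c d) : False := by
  exact c16_0 h nd hr (hit00 (by decide) hf) hq

theorem P16_2 {V : Type} {W : Mw V} (h : W.Hy) {a b c d u w : V} (nd : [W.z, a, b, c, d].Nodup)
    (hr : Hit (mrel0 h.bs) (pt [a, b, c, d] W.z) rf16)
    (hf : Hit (mrel0 h.bs) (v6 W.z u w a c d) f2) (hq : ¬ FS (mrel0 h.bs) W.z fp1 b c d) : False := by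
  have hf := hit01 (by decide) hf
  have hs := hn1 hf rfl
  by_cases ib : u = b
  · subst ib
    exact c16_2_2 h nd hr hf hq
  exact c16_2_n h (nd_snoc nd (nin5 hs.1 hs.2.1 ib hs.2.2.1 hs.2.2.2)) hr hf hq

theorem P16_3 {V : Type} {W : Mw V} (h : W.Hy) {a b c d u w : V} (nd : [W.z, a, b, c, d].Nodup)
    (hr : Hit (mrel0 h.bs) (pt [a, b, c, d] W.z) rf16)
    (hf : Hit (mrel0 h.bs) (v6 W.z u w a c d) f3) (hq : ¬ FS (mrel0 h.bs) W.z fp1 b c d) : False := by
  have hf := hit01 (by decide) hf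
  have hs := hn1 hf rfl
  by_cases ib : u = b
  · subst ib
    exact c16_3_2 h nd hr hf hq
  exact c16_3_n h (nd_snoc nd (nin5 hs.1 hs.2.1 ib hs.2.2.1 hs.2.2.2)) hr hf hq

theorem P16_4 {V : Type} {W : Mw V} (h : W.Hy) {a b c d u w : V} (nd : [W.z, a, b, c, d].Nodup)
    (hr : Hit (mrel0 h.bs) (pt [a, b, c, d] W.z) rf16)
    (hf : Hit (mrel0 h.bs) (v6 W.z u w a c d) f4) (hq : ¬ FS (mrel0 h.bs) W.z fp1 b c d) : False := by
  have hf := hit01 (by decide) hf
  have hs := hn1 hf rfl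
  by_cases ib : u = b
  · subst ib
    exact c16_4_2 h nd hr hf hq
  exact c16_4_n h (nd_snoc nd (nin5 hs.1 hs.2.1 ib hs.2.2.1 hs.2.2.2)) hr hf hq

theorem P16_5 {V : Type} {W : Mw V} (h : W.Hy) {a b c d u w : V} (nd : [W.z, a, b, c, d].Nodup)
    (hr : Hit (mrel0 h.bs) (pt [a, b, c, d] W.z) rf16)
    (hf : Hit (mrel0 h.bs) (v6 W.z u w a c d) f5) (hq : ¬ FS (mrel0 h.bs) W.z fp1 b c d) : False := by
  have hf := hit01 (by decide) hf
  have hs := hn1 hf rfl
  by_cases ib : u = b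
  · subst ib
    exact c16_5_2 h nd hr hf hq
  exact c16_5_n h (nd_snoc nd (nin5 hs.1 hs.2.1 ib hs.2.2.1 hs.2.2.2)) hr hf hq

theorem P16_8 {V : Type} {W : Mw V} (h : W.Hy) {a b c d u w : V} (nd : [W.z, a, b, c, d].Nodup)
    (hr : Hit (mrel0 h.bs) (pt [a, b, c, d] W.z) rf16)
    (hf : Hit (mrel0 h.bs) (v6 W.z u w a c d) f8) (hq : ¬ FS (mrel0 h.bs) W.z fp1 b c d) : False := by
  have hf := hit01 (by decide) hf
  have hs := hn1 hf rfl
  by_cases ib : u = b
  · subst ib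
    exact c16_8_2 h nd hr hf hq
  exact c16_8_n h (nd_snoc nd (nin5 hs.1 hs.2.1 ib hs.2.2.1 hs.2.2.2)) hr hf hq

theorem P16_9 {V : Type} {W : Mw V} (h : W.Hy) {a b c d u w : V} (nd : [W.z, a, b, c, d].Nodup)
    (hr : Hit (mrel0 h.bs) (pt [a, b, c, d] W.z) rf16)
    (hf : Hit (mrel0 h.bs) (v6 W.z u w a c d) f9) (hq : ¬ FS (mrel0 h.bs) W.z fp1 b c d) : False := by
  have hf := hit01 (by decide) hf
  have hs := hn1 hf rfl
  by_cases ib : u = b
  · subst ib
    exact c16_9_2 h nd hr hf hq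
  exact c16_9_n h (nd_snoc nd (nin5 hs.1 hs.2.1 ib hs.2.2.1 hs.2.2.2)) hr hf hq

theorem R16 {V : Type} {W : Mw V} (h : W.Hy) {a b c d : V} (nd : [W.z, a, b, c, d].Nodup)
    (hr : Hit (mrel0 h.bs) (pt [a, b, c, d] W.z) rf16)
    (hp : FS (mrel0 h.bs) W.z fp1 a c d) : FS (mrel0 h.bs) W.z fp1 b c d := by
  by_contra hq
  obtain ⟨t, ht, u, w, hf⟩ := hp
  simp only [fp1, List.mem_cons, List.not_mem_nil, or_false] at ht
  rcases ht with rfl | rfl | rfl | rfl | rfl | rfl | rfl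
  · exact P16_0 h nd hr hf hq
  · exact P16_2 h nd hr hf hq
  · exact P16_3 h nd hr hf hq
  · exact P16_4 h nd hr hf hq
  · exact P16_5 h nd hr hf hq
  · exact P16_8 h nd hr hf hq
  · exact P16_9 h nd hr hf hq

end Pool.Agent.SOU
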