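import Pool.Agent.SOU.TB

/-! Project SOU (MP_66ba69_lc, mixed insertion): rule 17 (generated). -/

set_option autoImplicit false
set_option maxRecDepth 100000
set_option linter.unusedVariables false

namespace Pool.Agent.SOU

open Pool.Agent.RUP Pool.Agent.SOQ

def c17_0_p0 : List Nat := [
0x86241d0000000a10018000201,
0xb1000000002000200]

def c17_0_pf : List Nat := c17_0_p0

theorem c17_0_ref {V : Type} {S : SRel V} {p : Nat → V} (hp : ∀ i j, i < 5 → j < 5 → p i = p j → i = j)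
    (hts : PHs S p 5 (mA ++ (gf (fun x => 8 + cr 4 x) rf17 ++ (gf (fun x => 8 + c6 0 0 2 3 4 x) f0 ++ fp1.map (tren (n6 1 3 4)))))) : False :=
  refuteS (k := 5) (n2 := 3) (n3 := 1) (n4 := 3) (o3 := 45) (o4 := 80) (M := 440) (mA ++ (gf (fun x => 8 + cr 4 x) rf17 ++ (gf (fun x => 8 + c6 0 0 2 3 4 x) f0 ++ fp1.map (tren (n6 1 3 4))))) c17_0_pf (by decide +kernel)
    (by decide +kernel) (by decide +kernel) (by decide +kernel) hp hts

theorem c17_0 {V : Type} {W : Mw V} (h : W.Hy) {a b c d : V} (nd : [W.z, a, b, c, d].Nodup)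
    (hr : Hit (mrel0 h.bs) (pt [a, b, c, d] W.z) rf17)
    (hf : Hit (mrel0 h.bs) (v6 W.z W.z W.z b c d) f0)
    (hq : ¬ FS (mrel0 h.bs) W.z fp1 a c d) : False :=
  c17_0_ref (pt_inj (o := W.z) nd rfl) (PHs.app (h.ph rfl _) (PHs.app (gf_ph hr (cr 4) (cr_pt (n := 4) (l := [a, b, c, d]) (l' := []) rfl)) (PHs.app (gf_ph hf (c6 0 0 2 3 4) (c6_v6 rfl rfl rfl rfl rfl rfl)) (nf_ph hq (ia := 1) (ib := 3) (ic := 4) rfl rfl rfl rfl))))

def c17_2_n_p0 : List Nat := [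
0x42a0d00000009100000008f0000000a70517000401,
0x264a0070000000020000000ad01f4000301,
0xa4286230000000a10000000b70237000301,
0xabb0000000a700000009500000009300000008f00000009b00000009f0000000990000000040000000060000000b5000b00]

def c17_2_n_pf : List Nat := c17_2_n_p0

theorem c17_2_n_ref {V : Type} {S : SRel V} {p : Nat → V} (hp : ∀ i j, i < 6 → j < 6 → p i = p j → i = j)
    (hts : PHs S p 6 (mA ++ (gf (fun x => 8 + cr 4 x) rf17 ++ (gf (fun x => 8 + c6 5 0 2 3 4 x) f2 ++ fp1.map (tren (n6 1 3 4)))))) : False :=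
  refuteS (k := 6) (n2 := 3) (n3 := 1) (n4 := 3) (o3 := 63) (o4 := 119) (M := 812) (mA ++ (gf (fun x => 8 + cr 4 x) rf17 ++ (gf (fun x => 8 + c6 5 0 2 3 4 x) f2 ++ fp1.map (tren (n6 1 3 4))))) c17_2_n_pf (by decide +kernel)
    (by decide +kernel) (by decide +kernel) (by decide +kernel) hp hts

theorem c17_2_n {V : Type} {W : Mw V} (h : W.Hy) {a b c d u : V} (nd : [W.z, a, b, c, d, u].Nodup)
    (hr : Hit (mrel0 h.bs) (pt [a, b, c, d] W.z) rf17)
    (hf : Hit (mrel0 h.bs) (v6 W.z u W.z b c d) f2)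
    (hq : ¬ FS (mrel0 h.bs) W.z fp1 a c d) : False :=
  c17_2_n_ref (pt_inj (o := W.z) nd rfl) (PHs.app (h.ph rfl _) (PHs.app (gf_ph hr (cr 4) (cr_pt (n := 4) (l := [a, b, c, d]) (l' := [u]) rfl)) (PHs.app (gf_ph hf (c6 5 0 2 3 4) (c6_v6 rfl rfl rfl rfl rfl rfl)) (nf_ph hq (ia := 1) (ib := 3) (ic := 4) rfl rfl rfl rfl))))

def c17_2_1_p0 : List Nat := [
0xa700000008f000200]

def c17_2_1_pf : List Nat := c17_2_1_p0

theorem c17_2_1_ref {V : Type} {S : SRel V} {p : Nat → V} (hp : ∀ i j, i < 5 → j < 5 → p i = p j → i = j)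
    (hts : PHs S p 5 (mA ++ (gf (fun x => 8 + cr 4 x) rf17 ++ (gf (fun x => 8 + c6 1 0 2 3 4 x) f2 ++ fp1.map (tren (n6 1 3 4)))))) : False :=
  refuteS (k := 5) (n2 := 3) (n3 := 1) (n4 := 3) (o3 := 45) (o4 := 80) (M := 440) (mA ++ (gf (fun x => 8 + cr 4 x) rf17 ++ (gf (fun x => 8 + c6 1 0 2 3 4 x) f2 ++ fp1.map (tren (n6 1 3 4))))) c17_2_1_pf (by decide +kernel)
    (by decide +kernel) (by decide +kernel) (by decide +kernel) hp hts

theorem c17_2_1 {V : Type} {W : Mw V} (h : W.Hy) {a b c d : V} (nd : [W.z, a, b, c, d].Nodup)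
    (hr : Hit (mrel0 h.bs) (pt [a, b, c, d] W.z) rf17)
    (hf : Hit (mrel0 h.bs) (v6 W.z a W.z b c d) f2)
    (hq : ¬ FS (mrel0 h.bs) W.z fp1 a c d) : False :=
  c17_2_1_ref (pt_inj (o := W.z) nd rfl) (PHs.app (h.ph rfl _) (PHs.app (gf_ph hr (cr 4) (cr_pt (n := 4) (l := [a, b, c, d]) (l' := []) rfl)) (PHs.app (gf_ph hf (c6 1 0 2 3 4) (c6_v6 rfl rfl rfl rfl rfl rfl)) (nf_ph hq (ia := 1) (ib := 3) (ic := 4) rfl rfl rfl rfl))))

def c17_3_n_p0 : List Nat := [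
0x4260d00000009100000008f00000009303ee000401,
0x8420030000000970490000201,
0x42a0d00000009100000008f0000000a90517000401,
0x2a460070000000020000000ad0221000301,
0x4a80030000000af058c000201,
0x284a0070000000060000000af0200000301,
0x2a084070000000040000000af0233000301,
0x860a4070000000ad00000000a0269000301,
0x86a41b0000000100596000201,
0x628a4250000000a10000000120590000301,
0x8a241d0000000b505ea000201,
0x84a21f00000001400000000e00000009d000000016035c000501,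
0xabd0000000a900000001800000009500000009300000008f00000009b00000009f00000000c0000000080000000b7000b00]

def c17_3_n_pf : List Nat := c17_3_n_p0

theorem c17_3_n_ref {V : Type} {S : SRel V} {p : Nat → V} (hp : ∀ i j, i < 6 → j < 6 → p i = p j → i = j)
    (hts : PHs S p 6 (mA ++ (gf (fun x => 8 + cr 4 x) rf17 ++ (gf (fun x => 8 + c6 5 0 2 3 4 x) f3 ++ fp1.map (tren (n6 1 3 4)))))) : False :=
  refuteS (k := 6) (n2 := 3) (n3 := 1) (n4 := 3) (o3 := 63) (o4 := 119) (M := 812) (mA ++ (gf (fun x => 8 + cr 4 x) rf17 ++ (gf (fun x => 8 + c6 5 0 2 3 4 x) f3 ++ fp1.map (tren (n6 1 3 4))))) c17_3_n_pf (by decide +kernel)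
    (by decide +kernel) (by decide +kernel) (by decide +kernel) hp hts

theorem c17_3_n {V : Type} {W : Mw V} (h : W.Hy) {a b c d u : V} (nd : [W.z, a, b, c, d, u].Nodup)
    (hr : Hit (mrel0 h.bs) (pt [a, b, c, d] W.z) rf17)
    (hf : Hit (mrel0 h.bs) (v6 W.z u W.z b c d) f3)
    (hq : ¬ FS (mrel0 h.bs) W.z fp1 a c d) : False :=
  c17_3_n_ref (pt_inj (o := W.z) nd rfl) (PHs.app (h.ph rfl _) (PHs.app (gf_ph hr (cr 4) (cr_pt (n := 4) (l := [a, b, c, d]) (l' := [u]) rfl)) (PHs.app (gf_ph hf (c6 5 0 2 3 4) (c6_v6 rfl rfl rfl rfl rfl rfl)) (nf_ph hq (ia := 1) (ib := 3) (ic := 4) rfl rfl rfl rfl))))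

def c17_3_1_p0 : List Nat := [
0xa900000008f000200]

def c17_3_1_pf : List Nat := c17_3_1_p0

theorem c17_3_1_ref {V : Type} {S : SRel V} {p : Nat → V} (hp : ∀ i j, i < 5 → j < 5 → p i = p j → i = j)
    (hts : PHs S p 5 (mA ++ (gf (fun x => 8 + cr 4 x) rf17 ++ (gf (fun x => 8 + c6 1 0 2 3 4 x) f3 ++ fp1.map (tren (n6 1 3 4)))))) : False :=
  refuteS (k := 5) (n2 := 3) (n3 := 1) (n4 := 3) (o3 := 45) (o4 := 80) (M := 440) (mA ++ (gf (fun x => 8 + cr 4 x) rf17 ++ (gf (fun x => 8 + c6 1 0 2 3 4 x) f3 ++ fp1.map (tren (n6 1 3 4))))) c17_3_1_pf (by decide +kernel)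
    (by decide +kernel) (by decide +kernel) (by decide +kernel) hp hts

theorem c17_3_1 {V : Type} {W : Mw V} (h : W.Hy) {a b c d : V} (nd : [W.z, a, b, c, d].Nodup)
    (hr : Hit (mrel0 h.bs) (pt [a, b, c, d] W.z) rf17)
    (hf : Hit (mrel0 h.bs) (v6 W.z a W.z b c d) f3)
    (hq : ¬ FS (mrel0 h.bs) W.z fp1 a c d) : False :=
  c17_3_1_ref (pt_inj (o := W.z) nd rfl) (PHs.app (h.ph rfl _) (PHs.app (gf_ph hr (cr 4) (cr_pt (n := 4) (l := [a, b, c, d]) (l' := []) rfl)) (PHs.app (gf_ph hf (c6 1 0 2 3 4) (c6_v6 rfl rfl rfl rfl rfl rfl)) (nf_ph hq (ia := 1) (ib := 3) (ic := 4) rfl rfl rfl rfl))))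

def c17_4_n_p0 : List Nat := [
0x4280d00000009100000008f0000000950454000401,
0x2a480070000000020000000af022d000301,
0xa6824250000000a10000000b702be000301,
0x642a8230000000b700000000602c7000301,
0xabf0000000ab00000009500000009300000008f00000009b00000009f0000000990000000b5000000004000000008000b00]

def c17_4_n_pf : List Nat := c17_4_n_p0

theorem c17_4_n_ref {V : Type} {S : SRel V} {p : Nat → V} (hp : ∀ i j, i < 6 → j < 6 → p i = p j → i = j)
    (hts : PHs S p 6 (mA ++ (gf (fun x => 8 + cr 4 x) rf17 ++ (gf (fun x => 8 + c6 5 0 2 3 4 x) f4 ++ fp1.map (tren (n6 1 3 4)))))) : False :=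
  refuteS (k := 6) (n2 := 3) (n3 := 1) (n4 := 3) (o3 := 63) (o4 := 119) (M := 812) (mA ++ (gf (fun x => 8 + cr 4 x) rf17 ++ (gf (fun x => 8 + c6 5 0 2 3 4 x) f4 ++ fp1.map (tren (n6 1 3 4))))) c17_4_n_pf (by decide +kernel)
    (by decide +kernel) (by decide +kernel) (by decide +kernel) hp hts

theorem c17_4_n {V : Type} {W : Mw V} (h : W.Hy) {a b c d u : V} (nd : [W.z, a, b, c, d, u].Nodup)
    (hr : Hit (mrel0 h.bs) (pt [a, b, c, d] W.z) rf17)
    (hf : Hit (mrel0 h.bs) (v6 W.z u W.z b c d) f4)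
    (hq : ¬ FS (mrel0 h.bs) W.z fp1 a c d) : False :=
  c17_4_n_ref (pt_inj (o := W.z) nd rfl) (PHs.app (h.ph rfl _) (PHs.app (gf_ph hr (cr 4) (cr_pt (n := 4) (l := [a, b, c, d]) (l' := [u]) rfl)) (PHs.app (gf_ph hf (c6 5 0 2 3 4) (c6_v6 rfl rfl rfl rfl rfl rfl)) (nf_ph hq (ia := 1) (ib := 3) (ic := 4) rfl rfl rfl rfl))))

def c17_4_1_p0 : List Nat := [
0xab00000008f000200]

def c17_4_1_pf : List Nat := c17_4_1_p0

theorem c17_4_1_ref {V : Type} {S : SRel V} {p : Nat → V} (hp : ∀ i j, i < 5 → j < 5 → p i = p j → i = j)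
    (hts : PHs S p 5 (mA ++ (gf (fun x => 8 + cr 4 x) rf17 ++ (gf (fun x => 8 + c6 1 0 2 3 4 x) f4 ++ fp1.map (tren (n6 1 3 4)))))) : False :=
  refuteS (k := 5) (n2 := 3) (n3 := 1) (n4 := 3) (o3 := 45) (o4 := 80) (M := 440) (mA ++ (gf (fun x => 8 + cr 4 x) rf17 ++ (gf (fun x => 8 + c6 1 0 2 3 4 x) f4 ++ fp1.map (tren (n6 1 3 4))))) c17_4_1_pf (by decide +kernel)
    (by decide +kernel) (by decide +kernel) (by decide +kernel) hp hts

theorem c17_4_1 {V : Type} {W : Mw V} (h : W.Hy) {a b c d : V} (nd : [W.z, a, b, c, d].Nodup)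
    (hr : Hit (mrel0 h.bs) (pt [a, b, c, d] W.z) rf17)
    (hf : Hit (mrel0 h.bs) (v6 W.z a W.z b c d) f4)
    (hq : ¬ FS (mrel0 h.bs) W.z fp1 a c d) : False :=
  c17_4_1_ref (pt_inj (o := W.z) nd rfl) (PHs.app (h.ph rfl _) (PHs.app (gf_ph hr (cr 4) (cr_pt (n := 4) (l := [a, b, c, d]) (l' := []) rfl)) (PHs.app (gf_ph hf (c6 1 0 2 3 4) (c6_v6 rfl rfl rfl rfl rfl rfl)) (nf_ph hq (ia := 1) (ib := 3) (ic := 4) rfl rfl rfl rfl))))

def c17_5_n_p0 : List Nat := [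
0x4260d00000009100000008f00000009303ee000401,
0x42a0d00000009100000008f0000000a90517000401,
0x2a460070000000020000000ad0221000301,
0x284a0070000000040000000af0200000301,
0xa6824250000000a10000000b702be000301,
0x642a8230000000b700000000a02c7000301,
0xac10000000a900000009500000009300000008f00000009b00000009f0000000080000000060000000b500000000c000b00]

def c17_5_n_pf : List Nat := c17_5_n_p0

theorem c17_5_n_ref {V : Type} {S : SRel V} {p : Nat → V} (hp : ∀ i j, i < 6 → j < 6 → p i = p j → i = j)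
    (hts : PHs S p 6 (mA ++ (gf (fun x => 8 + cr 4 x) rf17 ++ (gf (fun x => 8 + c6 5 0 2 3 4 x) f5 ++ fp1.map (tren (n6 1 3 4)))))) : False :=
  refuteS (k := 6) (n2 := 3) (n3 := 1) (n4 := 3) (o3 := 63) (o4 := 119) (M := 812) (mA ++ (gf (fun x => 8 + cr 4 x) rf17 ++ (gf (fun x => 8 + c6 5 0 2 3 4 x) f5 ++ fp1.map (tren (n6 1 3 4))))) c17_5_n_pf (by decide +kernel)
    (by decide +kernel) (by decide +kernel) (by decide +kernel) hp hts

theorem c17_5_n {V : Type} {W : Mw V} (h : W.Hy) {a b c d u : V} (nd : [W.z, a, b, c, d, u].Nodup)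
    (hr : Hit (mrel0 h.bs) (pt [a, b, c, d] W.z) rf17)
    (hf : Hit (mrel0 h.bs) (v6 W.z u W.z b c d) f5)
    (hq : ¬ FS (mrel0 h.bs) W.z fp1 a c d) : False :=
  c17_5_n_ref (pt_inj (o := W.z) nd rfl) (PHs.app (h.ph rfl _) (PHs.app (gf_ph hr (cr 4) (cr_pt (n := 4) (l := [a, b, c, d]) (l' := [u]) rfl)) (PHs.app (gf_ph hf (c6 5 0 2 3 4) (c6_v6 rfl rfl rfl rfl rfl rfl)) (nf_ph hq (ia := 1) (ib := 3) (ic := 4) rfl rfl rfl rfl))))

def c17_5_1_p0 : List Nat := [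
0xa900000008f000200]

def c17_5_1_pf : List Nat := c17_5_1_p0

theorem c17_5_1_ref {V : Type} {S : SRel V} {p : Nat → V} (hp : ∀ i j, i < 5 → j < 5 → p i = p j → i = j)
    (hts : PHs S p 5 (mA ++ (gf (fun x => 8 + cr 4 x) rf17 ++ (gf (fun x => 8 + c6 1 0 2 3 4 x) f5 ++ fp1.map (tren (n6 1 3 4)))))) : False :=
  refuteS (k := 5) (n2 := 3) (n3 := 1) (n4 := 3) (o3 := 45) (o4 := 80) (M := 440) (mA ++ (gf (fun x => 8 + cr 4 x) rf17 ++ (gf (fun x => 8 + c6 1 0 2 3 4 x) f5 ++ fp1.map (tren (n6 1 3 4))))) c17_5_1_pf (by decide +kernel)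
    (by decide +kernel) (by decide +kernel) (by decide +kernel) hp hts

theorem c17_5_1 {V : Type} {W : Mw V} (h : W.Hy) {a b c d : V} (nd : [W.z, a, b, c, d].Nodup)
    (hr : Hit (mrel0 h.bs) (pt [a, b, c, d] W.z) rf17)
    (hf : Hit (mrel0 h.bs) (v6 W.z a W.z b c d) f5)
    (hq : ¬ FS (mrel0 h.bs) W.z fp1 a c d) : False :=
  c17_5_1_ref (pt_inj (o := W.z) nd rfl) (PHs.app (h.ph rfl _) (PHs.app (gf_ph hr (cr 4) (cr_pt (n := 4) (l := [a, b, c, d]) (l' := []) rfl)) (PHs.app (gf_ph hf (c6 1 0 2 3 4) (c6_v6 rfl rfl rfl rfl rfl rfl)) (nf_ph hq (ia := 1) (ib := 3) (ic := 4) rfl rfl rfl rfl))))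

def c17_8_n_p0 : List Nat := [
0x8640b00000009300000009100000009504bd000401,
0x286003000000099045d000201,
0x86421d0000000a10015000201,
0x86241d0000000a10018000201,
0xa260d00000009300000008f0000000a5054d000401,
0xa82600700000009900000000a02c3000301,
0x6a840070000000020000000ad0281000301,
0x2a861d0000000b50563000201,
0x4a861d0000000b50596000201,
0x648a2250000000a10000000100560000301,
0x628a4250000000a10000000120590000301,
0x8a130000000a50000000950000000b7002d000401,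
0xac30000000b500000009500000009300000008f00000009b00000009f0000000b70000000a500000000c05e0000a01,
0x240a8070000000ad00000001a02bd000301,
0x260a80700000000c00000001a02c6000301,
0xa8421f0000000160000000140000000b700000001c0338000501,
0xa8620700000000400000001e01f4000301,
0x64a26b0000000b500000009300000001800000008f00000009100000000600000000800000000e0000000a5000000020000000022000c00]

def c17_8_n_pf : List Nat := c17_8_n_p0

theorem c17_8_n_ref {V : Type} {S : SRel V} {p : Nat → V} (hp : ∀ i j, i < 6 → j < 6 → p i = p j → i = j)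
    (hts : PHs S p 6 (mA ++ (gf (fun x => 8 + cr 4 x) rf17 ++ (gf (fun x => 8 + c6 5 0 2 3 4 x) f8 ++ fp1.map (tren (n6 1 3 4)))))) : False :=
  refuteS (k := 6) (n2 := 3) (n3 := 1) (n4 := 3) (o3 := 63) (o4 := 119) (M := 812) (mA ++ (gf (fun x => 8 + cr 4 x) rf17 ++ (gf (fun x => 8 + c6 5 0 2 3 4 x) f8 ++ fp1.map (tren (n6 1 3 4))))) c17_8_n_pf (by decide +kernel)
    (by decide +kernel) (by decide +kernel) (by decide +kernel) hp hts

theorem c17_8_n {V : Type} {W : Mw V} (h : W.Hy) {a b c d u : V} (nd : [W.z, a, b, c, d, u].Nodup)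
    (hr : Hit (mrel0 h.bs) (pt [a, b, c, d] W.z) rf17)
    (hf : Hit (mrel0 h.bs) (v6 W.z u W.z b c d) f8)
    (hq : ¬ FS (mrel0 h.bs) W.z fp1 a c d) : False :=
  c17_8_n_ref (pt_inj (o := W.z) nd rfl) (PHs.app (h.ph rfl _) (PHs.app (gf_ph hr (cr 4) (cr_pt (n := 4) (l := [a, b, c, d]) (l' := [u]) rfl)) (PHs.app (gf_ph hf (c6 5 0 2 3 4) (c6_v6 rfl rfl rfl rfl rfl rfl)) (nf_ph hq (ia := 1) (ib := 3) (ic := 4) rfl rfl rfl rfl))))

def c17_8_1_p0 : List Nat := [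
0x86421d0000000a10015000201,
0xb5000000002000200]

def c17_8_1_pf : List Nat := c17_8_1_p0

theorem c17_8_1_ref {V : Type} {S : SRel V} {p : Nat → V} (hp : ∀ i j, i < 5 → j < 5 → p i = p j → i = j)
    (hts : PHs S p 5 (mA ++ (gf (fun x => 8 + cr 4 x) rf17 ++ (gf (fun x => 8 + c6 1 0 2 3 4 x) f8 ++ fp1.map (tren (n6 1 3 4)))))) : False :=
  refuteS (k := 5) (n2 := 3) (n3 := 1) (n4 := 3) (o3 := 45) (o4 := 80) (M := 440) (mA ++ (gf (fun x => 8 + cr 4 x) rf17 ++ (gf (fun x => 8 + c6 1 0 2 3 4 x) f8 ++ fp1.map (tren (n6 1 3 4))))) c17_8_1_pf (by decide +kernel)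
    (by decide +kernel) (by decide +kernel) (by decide +kernel) hp hts

theorem c17_8_1 {V : Type} {W : Mw V} (h : W.Hy) {a b c d : V} (nd : [W.z, a, b, c, d].Nodup)
    (hr : Hit (mrel0 h.bs) (pt [a, b, c, d] W.z) rf17)
    (hf : Hit (mrel0 h.bs) (v6 W.z a W.z b c d) f8)
    (hq : ¬ FS (mrel0 h.bs) W.z fp1 a c d) : False :=
  c17_8_1_ref (pt_inj (o := W.z) nd rfl) (PHs.app (h.ph rfl _) (PHs.app (gf_ph hr (cr 4) (cr_pt (n := 4) (l := [a, b, c, d]) (l' := []) rfl)) (PHs.app (gf_ph hf (c6 1 0 2 3 4) (c6_v6 rfl rfl rfl rfl rfl rfl)) (nf_ph hq (ia := 1) (ib := 3) (ic := 4) rfl rfl rfl rfl))))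

def c17_9_n_p0 : List Nat := [
0xa260d00000009300000008f0000000a5054d000401,
0xa82600700000009900000000202c3000301,
0xa6824250000000a10000000b502be000301,
0xa8421b00000000605e9000201,
0x642a8230000000b500000000602c7000301,
0x240a8070000000ad00000000802b4000301,
0xac300000009500000009300000008f00000009b00000009f0000000a500000000c00000000400000000a000a00]

def c17_9_n_pf : List Nat := c17_9_n_p0

theorem c17_9_n_ref {V : Type} {S : SRel V} {p : Nat → V} (hp : ∀ i j, i < 6 → j < 6 → p i = p j → i = j)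
    (hts : PHs S p 6 (mA ++ (gf (fun x => 8 + cr 4 x) rf17 ++ (gf (fun x => 8 + c6 5 0 2 3 4 x) f9 ++ fp1.map (tren (n6 1 3 4)))))) : False :=
  refuteS (k := 6) (n2 := 3) (n3 := 1) (n4 := 3) (o3 := 63) (o4 := 119) (M := 812) (mA ++ (gf (fun x => 8 + cr 4 x) rf17 ++ (gf (fun x => 8 + c6 5 0 2 3 4 x) f9 ++ fp1.map (tren (n6 1 3 4))))) c17_9_n_pf (by decide +kernel)
    (by decide +kernel) (by decide +kernel) (by decide +kernel) hp hts

theorem c17_9_n {V : Type} {W : Mw V} (h : W.Hy) {a b c d u : V} (nd : [W.z, a, b, c, d, u].Nodup)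
    (hr : Hit (mrel0 h.bs) (pt [a, b, c, d] W.z) rf17)
    (hf : Hit (mrel0 h.bs) (v6 W.z u W.z b c d) f9)
    (hq : ¬ FS (mrel0 h.bs) W.z fp1 a c d) : False :=
  c17_9_n_ref (pt_inj (o := W.z) nd rfl) (PHs.app (h.ph rfl _) (PHs.app (gf_ph hr (cr 4) (cr_pt (n := 4) (l := [a, b, c, d]) (l' := [u]) rfl)) (PHs.app (gf_ph hf (c6 5 0 2 3 4) (c6_v6 rfl rfl rfl rfl rfl rfl)) (nf_ph hq (ia := 1) (ib := 3) (ic := 4) rfl rfl rfl rfl))))

def c17_9_1_p0 : List Nat := [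
0x6842210000000a102e7000201,
0xb5000000002000200]

def c17_9_1_pf : List Nat := c17_9_1_p0

theorem c17_9_1_ref {V : Type} {S : SRel V} {p : Nat → V} (hp : ∀ i j, i < 5 → j < 5 → p i = p j → i = j)
    (hts : PHs S p 5 (mA ++ (gf (fun x => 8 + cr 4 x) rf17 ++ (gf (fun x => 8 + c6 1 0 2 3 4 x) f9 ++ fp1.map (tren (n6 1 3 4)))))) : False :=
  refuteS (k := 5) (n2 := 3) (n3 := 1) (n4 := 3) (o3 := 45) (o4 := 80) (M := 440) (mA ++ (gf (fun x => 8 + cr 4 x) rf17 ++ (gf (fun x => 8 + c6 1 0 2 3 4 x) f9 ++ fp1.map (tren (n6 1 3 4))))) c17_9_1_pf (by decide +kernel)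
    (by decide +kernel) (by decide +kernel) (by decide +kernel) hp hts

theorem c17_9_1 {V : Type} {W : Mw V} (h : W.Hy) {a b c d : V} (nd : [W.z, a, b, c, d].Nodup)
    (hr : Hit (mrel0 h.bs) (pt [a, b, c, d] W.z) rf17)
    (hf : Hit (mrel0 h.bs) (v6 W.z a W.z b c d) f9)
    (hq : ¬ FS (mrel0 h.bs) W.z fp1 a c d) : False :=
  c17_9_1_ref (pt_inj (o := W.z) nd rfl) (PHs.app (h.ph rfl _) (PHs.app (gf_ph hr (cr 4) (cr_pt (n := 4) (l := [a, b, c, d]) (l' := []) rfl)) (PHs.app (gf_ph hf (c6 1 0 2 3 4) (c6_v6 rfl rfl rfl rfl rfl rfl)) (nf_ph hq (ia := 1) (ib := 3) (ic := 4) rfl rfl rfl rfl))))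

theorem P17_0 {V : Type} {W : Mw V} (h : W.Hy) {a b c d u w : V} (nd : [W.z, a, b, c, d].Nodup)
    (hr : Hit (mrel0 h.bs) (pt [a, b, c, d] W.z) rf17)
    (hf : Hit (mrel0 h.bs) (v6 W.z u w b c d) f0) (hq : ¬ FS (mrel0 h.bs) W.z fp1 a c d) : False := by
  exact c17_0 h nd hr (hit00 (by decide) hf) hq

theorem P17_2 {V : Type} {W : Mw V} (h : W.Hy) {a b c d u w : V} (nd : [W.z, a, b, c, d].Nodup)
    (hr : Hit (mrel0 h.bs) (pt [a, b, c, d] W.z) rf17)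
    (hf : Hit (mrel0 h.bs) (v6 W.z u w b c d) f2) (hq : ¬ FS (mrel0 h.bs) W.z fp1 a c d) : False := by
  have hf := hit01 (by decide) hf
  have hs := hn1 hf rfl
  by_cases ia : u = a
  · subst ia
    exact c17_2_1 h nd hr hf hq
  exact c17_2_n h (nd_snoc nd (nin5 hs.1 ia hs.2.1 hs.2.2.1 hs.2.2.2)) hr hf hq

theorem P17_3 {V : Type} {W : Mw V} (h : W.Hy) {a b c d u w : V} (nd : [W.z, a, b, c, d].Nodup)
    (hr : Hit (mrel0 h.bs) (pt [a, b, c, d] W.z) rf17)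
    (hf : Hit (mrel0 h.bs) (v6 W.z u w b c d) f3) (hq : ¬ FS (mrel0 h.bs) W.z fp1 a c d) : False := by
  have hf := hit01 (by decide) hf
  have hs := hn1 hf rfl
  by_cases ia : u = a
  · subst ia
    exact c17_3_1 h nd hr hf hq
  exact c17_3_n h (nd_snoc nd (nin5 hs.1 ia hs.2.1 hs.2.2.1 hs.2.2.2)) hr hf hq

theorem P17_4 {V : Type} {W : Mw V} (h : W.Hy) {a b c d u w : V} (nd : [W.z, a, b, c, d].Nodup)
    (hr : Hit (mrel0 h.bs) (pt [a, b, c, d] W.z) rf17)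
    (hf : Hit (mrel0 h.bs) (v6 W.z u w b c d) f4) (hq : ¬ FS (mrel0 h.bs) W.z fp1 a c d) : False := by
  have hf := hit01 (by decide) hf
  have hs := hn1 hf rfl
  by_cases ia : u = a
  · subst ia
    exact c17_4_1 h nd hr hf hq
  exact c17_4_n h (nd_snoc nd (nin5 hs.1 ia hs.2.1 hs.2.2.1 hs.2.2.2)) hr hf hq

theorem P17_5 {V : Type} {W : Mw V} (h : W.Hy) {a b c d u w : V} (nd : [W.z, a, b, c, d].Nodup)
    (hr : Hit (mrel0 h.bs) (pt [a, b, c, d] W.z) rf17)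
    (hf : Hit (mrel0 h.bs) (v6 W.z u w b c d) f5) (hq : ¬ FS (mrel0 h.bs) W.z fp1 a c d) : False := by
  have hf := hit01 (by decide) hf
  have hs := hn1 hf rfl
  by_cases ia : u = a
  · subst ia
    exact c17_5_1 h nd hr hf hq
  exact c17_5_n h (nd_snoc nd (nin5 hs.1 ia hs.2.1 hs.2.2.1 hs.2.2.2)) hr hf hq

theorem P17_8 {V : Type} {W : Mw V} (h : W.Hy) {a b c d u w : V} (nd : [W.z, a, b, c, d].Nodup)
    (hr : Hit (mrel0 h.bs) (pt [a, b, c, d] W.z) rf17)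
    (hf : Hit (mrel0 h.bs) (v6 W.z u w b c d) f8) (hq : ¬ FS (mrel0 h.bs) W.z fp1 a c d) : False := by
  have hf := hit01 (by decide) hf
  have hs := hn1 hf rfl
  by_cases ia : u = a
  · subst ia
    exact c17_8_1 h nd hr hf hq
  exact c17_8_n h (nd_snoc nd (nin5 hs.1 ia hs.2.1 hs.2.2.1 hs.2.2.2)) hr hf hq

theorem P17_9 {V : Type} {W : Mw V} (h : W.Hy) {a b c d u w : V} (nd : [W.z, a, b, c, d].Nodup)
    (hr : Hit (mrel0 h.bs) (pt [a, b, c, d] W.z) rf17)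
    (hf : Hit (mrel0 h.bs) (v6 W.z u w b c d) f9) (hq : ¬ FS (mrel0 h.bs) W.z fp1 a c d) : False := by
  have hf := hit01 (by decide) hf
  have hs := hn1 hf rfl
  by_cases ia : u = a
  · subst ia
    exact c17_9_1 h nd hr hf hq
  exact c17_9_n h (nd_snoc nd (nin5 hs.1 ia hs.2.1 hs.2.2.1 hs.2.2.2)) hr hf hq

theorem R17 {V : Type} {W : Mw V} (h : W.Hy) {a b c d : V} (nd : [W.z, a, b, c, d].Nodup)
    (hr : Hit (mrel0 h.bs) (pt [a, b, c, d] W.z) rf17)
    (hp : FS (mrel0 h.bs) W.z fp1 b c d) : FS (mrel0 h.bs) W.z fp1 a c d := by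
  by_contra hq
  obtain ⟨t, ht, u, w, hf⟩ := hp
  simp only [fp1, List.mem_cons, List.not_mem_nil, or_false] at ht
  rcases ht with rfl | rfl | rfl | rfl | rfl | rfl | rfl
  · exact P17_0 h nd hr hf hq
  · exact P17_2 h nd hr hf hq
  · exact P17_3 h nd hr hf hq
  · exact P17_4 h nd hr hf hq
  · exact P17_5 h nd hr hf hq
  · exact P17_8 h nd hr hf hq
  · exact P17_9 h nd hr hf hq

end Pool.Agent.SOU
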