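import Pool.Agent.SOU.TB

/-! Project SOU (MP_66ba69_lc, mixed insertion): rule 20 (generated). -/

set_option autoImplicit false
set_option maxRecDepth 100000
set_option linter.unusedVariables false

namespace Pool.Agent.SOU

open Pool.Agent.RUP Pool.Agent.SOQ

def c20_1_p0 : List Nat := [
0x64821d0000000a1000c000201,
0xaf000000002000200]

def c20_1_pf : List Nat := c20_1_p0

theorem c20_1_ref {V : Type} {S : SRel V} {p : Nat → V} (hp : ∀ i j, i < 5 → j < 5 → p i = p j → i = j)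
    (hts : PHs S p 5 (mA ++ (gf (fun x => 8 + cr 4 x) rf20 ++ (gf (fun x => 8 + c6 0 0 1 2 4 x) f1 ++ fp1.map (tren (n6 1 3 4)))))) : False :=
  refuteS (k := 5) (n2 := 3) (n3 := 1) (n4 := 3) (o3 := 45) (o4 := 80) (M := 440) (mA ++ (gf (fun x => 8 + cr 4 x) rf20 ++ (gf (fun x => 8 + c6 0 0 1 2 4 x) f1 ++ fp1.map (tren (n6 1 3 4))))) c20_1_pf (by decide +kernel)
    (by decide +kernel) (by decide +kernel) (by decide +kernel) hp hts

theorem c20_1 {V : Type} {W : Mw V} (h : W.Hy) {a b c d : V} (nd : [W.z, a, b, c, d].Nodup)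
    (hr : Hit (mrel0 h.bs) (pt [a, b, c, d] W.z) rf20)
    (hf : Hit (mrel0 h.bs) (v6 W.z W.z W.z a b d) f1)
    (hq : ¬ FS (mrel0 h.bs) W.z fp1 a c d) : False :=
  c20_1_ref (pt_inj (o := W.z) nd rfl) (PHs.app (h.ph rfl _) (PHs.app (gf_ph hr (cr 4) (cr_pt (n := 4) (l := [a, b, c, d]) (l' := []) rfl)) (PHs.app (gf_ph hf (c6 0 0 1 2 4) (c6_v6 rfl rfl rfl rfl rfl rfl)) (nf_ph hq (ia := 1) (ib := 3) (ic := 4) rfl rfl rfl rfl))))

def c20_6_n_p0 : List Nat := [
0x4280d00000009100000008f0000000950454000401,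
0x8640b00000009300000009100000009504bd000401,
0x682400700000000400000009700d4000301,
0x286003000000099045d000201,
0x64082050000000970000000990481000301,
0x26480070000000020000000080460000301,
0x46821d0000000a10015000201,
0x28461d0000000a10027000201,
0x42a0d00000009100000008f0000000a70517000401,
0xa640b0000000930000000910000000a705ad000401,
0xa6240070000000060000000140218000301,
0x482a0070000000120000000ad0203000301,
0x4a821d0000000b50590000201,
0x6a821d0000000b505c6000201,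
0x28a190000000a70000000b300000009d00000009500000008f0000000b50039000701,
0x268a4250000000a100000001a0596000301,
0x248a6250000000a100000001c05c9000301,
0xabb0000000a70000000b500000009500000009300000008f00000009f00000009d0000000ad054d05c3000902,
0x86a350000000240008a626300684a00700640a207008a06407008a264070000000100000000930000000950000000a70000000b30000000ad00000009d00000008f0000000b500000001800000001600000000c00000000a02c9001401,
0xa8640700000000c00000002601f7000301,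
0xa8641f00000002200000002000000001e0000000260344000501,
0x264a00700000001200000002801f4000301,
0x6a42670000000a70000000b50000000930000000b300000008f00000009b00000009100000000e00000000600000002a00000002c000c00]

def c20_6_n_pf : List Nat := c20_6_n_p0

theorem c20_6_n_ref {V : Type} {S : SRel V} {p : Nat → V} (hp : ∀ i j, i < 6 → j < 6 → p i = p j → i = j)
    (hts : PHs S p 6 (mA ++ (gf (fun x => 8 + cr 4 x) rf20 ++ (gf (fun x => 8 + c6 5 0 1 2 4 x) f6 ++ fp1.map (tren (n6 1 3 4)))))) : False :=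
  refuteS (k := 6) (n2 := 3) (n3 := 1) (n4 := 3) (o3 := 63) (o4 := 119) (M := 812) (mA ++ (gf (fun x => 8 + cr 4 x) rf20 ++ (gf (fun x => 8 + c6 5 0 1 2 4 x) f6 ++ fp1.map (tren (n6 1 3 4))))) c20_6_n_pf (by decide +kernel)
    (by decide +kernel) (by decide +kernel) (by decide +kernel) hp hts

theorem c20_6_n {V : Type} {W : Mw V} (h : W.Hy) {a b c d u : V} (nd : [W.z, a, b, c, d, u].Nodup)
    (hr : Hit (mrel0 h.bs) (pt [a, b, c, d] W.z) rf20)
    (hf : Hit (mrel0 h.bs) (v6 W.z u W.z a b d) f6)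
    (hq : ¬ FS (mrel0 h.bs) W.z fp1 a c d) : False :=
  c20_6_n_ref (pt_inj (o := W.z) nd rfl) (PHs.app (h.ph rfl _) (PHs.app (gf_ph hr (cr 4) (cr_pt (n := 4) (l := [a, b, c, d]) (l' := [u]) rfl)) (PHs.app (gf_ph hf (c6 5 0 1 2 4) (c6_v6 rfl rfl rfl rfl rfl rfl)) (nf_ph hq (ia := 1) (ib := 3) (ic := 4) rfl rfl rfl rfl))))

def c20_6_3_p0 : List Nat := [
0x46821d0000000a10015000201,
0xb5000000002000200]

def c20_6_3_pf : List Nat := c20_6_3_p0

theorem c20_6_3_ref {V : Type} {S : SRel V} {p : Nat → V} (hp : ∀ i j, i < 5 → j < 5 → p i = p j → i = j)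
    (hts : PHs S p 5 (mA ++ (gf (fun x => 8 + cr 4 x) rf20 ++ (gf (fun x => 8 + c6 3 0 1 2 4 x) f6 ++ fp1.map (tren (n6 1 3 4)))))) : False :=
  refuteS (k := 5) (n2 := 3) (n3 := 1) (n4 := 3) (o3 := 45) (o4 := 80) (M := 440) (mA ++ (gf (fun x => 8 + cr 4 x) rf20 ++ (gf (fun x => 8 + c6 3 0 1 2 4 x) f6 ++ fp1.map (tren (n6 1 3 4))))) c20_6_3_pf (by decide +kernel)
    (by decide +kernel) (by decide +kernel) (by decide +kernel) hp hts

theorem c20_6_3 {V : Type} {W : Mw V} (h : W.Hy) {a b c d : V} (nd : [W.z, a, b, c, d].Nodup)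
    (hr : Hit (mrel0 h.bs) (pt [a, b, c, d] W.z) rf20)
    (hf : Hit (mrel0 h.bs) (v6 W.z c W.z a b d) f6)
    (hq : ¬ FS (mrel0 h.bs) W.z fp1 a c d) : False :=
  c20_6_3_ref (pt_inj (o := W.z) nd rfl) (PHs.app (h.ph rfl _) (PHs.app (gf_ph hr (cr 4) (cr_pt (n := 4) (l := [a, b, c, d]) (l' := []) rfl)) (PHs.app (gf_ph hf (c6 3 0 1 2 4) (c6_v6 rfl rfl rfl rfl rfl rfl)) (nf_ph hq (ia := 1) (ib := 3) (ic := 4) rfl rfl rfl rfl))))

def c20_7_n_p0 : List Nat := [
0x4280d00000009100000008f0000000950454000401,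
0x8640b00000009300000009100000009504bd000401,
0x682400700000000400000009700d4000301,
0x286003000000099045d000201,
0x64082050000000970000000990481000301,
0x26480070000000020000000080460000301,
0x46821d0000000a10015000201,
0x28461d0000000a10027000201,
0x42a0d00000009100000008f0000000a70517000401,
0xa640b0000000930000000910000000a705ad000401,
0xa6240070000000060000000140218000301,
0x482a0070000000120000000ad0203000301,
0x4a821d0000000b30590000201,
0x6a821d0000000b305c6000201,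
0x268a4250000000a100000001a0596000301,
0x248a6250000000a100000001c05c9000301,
0xa842110000000a70000000b300000009d00000009500000008f0000000910000000b50039000801,
0xa4150000000a70000000910000000b5002d000401,
0xabb0000000a70000000b300000009500000009300000008f00000009f00000009d0000000ad054d05c3000902,
0x86a350000000260008a626300684a00700640a207008a06407008a264070000000100000000930000000950000000a70000000240000000ad00000009d00000008f0000000b300000001800000001600000000c00000000a02c9001401,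
0xa8640700000000c00000002801f7000301,
0xa8641f00000002000000001e0000000220000000280344000501,
0x264a00700000001200000002a01f4000301,
0x6a42690000000a70000000b30000000930000000b500000008f00000009100000000e00000000600000002c00000002e000b00]

def c20_7_n_pf : List Nat := c20_7_n_p0

theorem c20_7_n_ref {V : Type} {S : SRel V} {p : Nat → V} (hp : ∀ i j, i < 6 → j < 6 → p i = p j → i = j)
    (hts : PHs S p 6 (mA ++ (gf (fun x => 8 + cr 4 x) rf20 ++ (gf (fun x => 8 + c6 5 0 1 2 4 x) f7 ++ fp1.map (tren (n6 1 3 4)))))) : False :=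
  refuteS (k := 6) (n2 := 3) (n3 := 1) (n4 := 3) (o3 := 63) (o4 := 119) (M := 812) (mA ++ (gf (fun x => 8 + cr 4 x) rf20 ++ (gf (fun x => 8 + c6 5 0 1 2 4 x) f7 ++ fp1.map (tren (n6 1 3 4))))) c20_7_n_pf (by decide +kernel)
    (by decide +kernel) (by decide +kernel) (by decide +kernel) hp hts

theorem c20_7_n {V : Type} {W : Mw V} (h : W.Hy) {a b c d u : V} (nd : [W.z, a, b, c, d, u].Nodup)
    (hr : Hit (mrel0 h.bs) (pt [a, b, c, d] W.z) rf20)
    (hf : Hit (mrel0 h.bs) (v6 W.z u W.z a b d) f7)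
    (hq : ¬ FS (mrel0 h.bs) W.z fp1 a c d) : False :=
  c20_7_n_ref (pt_inj (o := W.z) nd rfl) (PHs.app (h.ph rfl _) (PHs.app (gf_ph hr (cr 4) (cr_pt (n := 4) (l := [a, b, c, d]) (l' := [u]) rfl)) (PHs.app (gf_ph hf (c6 5 0 1 2 4) (c6_v6 rfl rfl rfl rfl rfl rfl)) (nf_ph hq (ia := 1) (ib := 3) (ic := 4) rfl rfl rfl rfl))))

def c20_7_3_p0 : List Nat := [
0x46821d0000000a10015000201,
0xb3000000002000200]

def c20_7_3_pf : List Nat := c20_7_3_p0

theorem c20_7_3_ref {V : Type} {S : SRel V} {p : Nat → V} (hp : ∀ i j, i < 5 → j < 5 → p i = p j → i = j)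
    (hts : PHs S p 5 (mA ++ (gf (fun x => 8 + cr 4 x) rf20 ++ (gf (fun x => 8 + c6 3 0 1 2 4 x) f7 ++ fp1.map (tren (n6 1 3 4)))))) : False :=
  refuteS (k := 5) (n2 := 3) (n3 := 1) (n4 := 3) (o3 := 45) (o4 := 80) (M := 440) (mA ++ (gf (fun x => 8 + cr 4 x) rf20 ++ (gf (fun x => 8 + c6 3 0 1 2 4 x) f7 ++ fp1.map (tren (n6 1 3 4))))) c20_7_3_pf (by decide +kernel)
    (by decide +kernel) (by decide +kernel) (by decide +kernel) hp hts

theorem c20_7_3 {V : Type} {W : Mw V} (h : W.Hy) {a b c d : V} (nd : [W.z, a, b, c, d].Nodup)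
    (hr : Hit (mrel0 h.bs) (pt [a, b, c, d] W.z) rf20)
    (hf : Hit (mrel0 h.bs) (v6 W.z c W.z a b d) f7)
    (hq : ¬ FS (mrel0 h.bs) W.z fp1 a c d) : False :=
  c20_7_3_ref (pt_inj (o := W.z) nd rfl) (PHs.app (h.ph rfl _) (PHs.app (gf_ph hr (cr 4) (cr_pt (n := 4) (l := [a, b, c, d]) (l' := []) rfl)) (PHs.app (gf_ph hf (c6 3 0 1 2 4) (c6_v6 rfl rfl rfl rfl rfl rfl)) (nf_ph hq (ia := 1) (ib := 3) (ic := 4) rfl rfl rfl rfl))))

def c20_10_n_p0 : List Nat := [
0xa260d00000009300000008f0000000a3054d000401,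
0xa82600700000009900000000202c3000301,
0xa2864250000000a10000000b302ca000301,
0x642a8230000000b300000000602c7000301,
0xac100000009500000009300000008f00000009f00000009d0000000a30000000ab000000004000000008000a00]

def c20_10_n_pf : List Nat := c20_10_n_p0

theorem c20_10_n_ref {V : Type} {S : SRel V} {p : Nat → V} (hp : ∀ i j, i < 6 → j < 6 → p i = p j → i = j)
    (hts : PHs S p 6 (mA ++ (gf (fun x => 8 + cr 4 x) rf20 ++ (gf (fun x => 8 + c6 5 0 1 2 4 x) f10 ++ fp1.map (tren (n6 1 3 4)))))) : False :=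
  refuteS (k := 6) (n2 := 3) (n3 := 1) (n4 := 3) (o3 := 63) (o4 := 119) (M := 812) (mA ++ (gf (fun x => 8 + cr 4 x) rf20 ++ (gf (fun x => 8 + c6 5 0 1 2 4 x) f10 ++ fp1.map (tren (n6 1 3 4))))) c20_10_n_pf (by decide +kernel)
    (by decide +kernel) (by decide +kernel) (by decide +kernel) hp hts

theorem c20_10_n {V : Type} {W : Mw V} (h : W.Hy) {a b c d u : V} (nd : [W.z, a, b, c, d, u].Nodup)
    (hr : Hit (mrel0 h.bs) (pt [a, b, c, d] W.z) rf20)
    (hf : Hit (mrel0 h.bs) (v6 W.z u W.z a b d) f10)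
    (hq : ¬ FS (mrel0 h.bs) W.z fp1 a c d) : False :=
  c20_10_n_ref (pt_inj (o := W.z) nd rfl) (PHs.app (h.ph rfl _) (PHs.app (gf_ph hr (cr 4) (cr_pt (n := 4) (l := [a, b, c, d]) (l' := [u]) rfl)) (PHs.app (gf_ph hf (c6 5 0 1 2 4) (c6_v6 rfl rfl rfl rfl rfl rfl)) (nf_ph hq (ia := 1) (ib := 3) (ic := 4) rfl rfl rfl rfl))))

def c20_10_3_p0 : List Nat := [
0xa3000000093000200]

def c20_10_3_pf : List Nat := c20_10_3_p0

theorem c20_10_3_ref {V : Type} {S : SRel V} {p : Nat → V} (hp : ∀ i j, i < 5 → j < 5 → p i = p j → i = j)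
    (hts : PHs S p 5 (mA ++ (gf (fun x => 8 + cr 4 x) rf20 ++ (gf (fun x => 8 + c6 3 0 1 2 4 x) f10 ++ fp1.map (tren (n6 1 3 4)))))) : False :=
  refuteS (k := 5) (n2 := 3) (n3 := 1) (n4 := 3) (o3 := 45) (o4 := 80) (M := 440) (mA ++ (gf (fun x => 8 + cr 4 x) rf20 ++ (gf (fun x => 8 + c6 3 0 1 2 4 x) f10 ++ fp1.map (tren (n6 1 3 4))))) c20_10_3_pf (by decide +kernel)
    (by decide +kernel) (by decide +kernel) (by decide +kernel) hp hts

theorem c20_10_3 {V : Type} {W : Mw V} (h : W.Hy) {a b c d : V} (nd : [W.z, a, b, c, d].Nodup)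
    (hr : Hit (mrel0 h.bs) (pt [a, b, c, d] W.z) rf20)
    (hf : Hit (mrel0 h.bs) (v6 W.z c W.z a b d) f10)
    (hq : ¬ FS (mrel0 h.bs) W.z fp1 a c d) : False :=
  c20_10_3_ref (pt_inj (o := W.z) nd rfl) (PHs.app (h.ph rfl _) (PHs.app (gf_ph hr (cr 4) (cr_pt (n := 4) (l := [a, b, c, d]) (l' := []) rfl)) (PHs.app (gf_ph hf (c6 3 0 1 2 4) (c6_v6 rfl rfl rfl rfl rfl rfl)) (nf_ph hq (ia := 1) (ib := 3) (ic := 4) rfl rfl rfl rfl))))

def c20_11_n_p0 : List Nat := [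
0x8640b00000009300000009100000009504bd000401,
0x682400700000000200000009700d4000301,
0x286003000000099045d000201,
0x84062070000000040000000060176000301,
0x28641d0000000a10024000201,
0xa260d00000009300000008f0000000a3054d000401,
0xa82600700000009900000000c02c3000301,
0x8a20030000000ab052c000201,
0xa4082070000000970000000100263000301,
0x4a8203000000012055f000201,
0xa4821b0000000120590000201,
0xa628407000000008000000014029c000301,
0x268a4250000000a10000000160596000301,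
0x8a641d0000000b305f6000201,
0xa6841f00000001800000001a00000000a00000001c0362000501,
0xac100000001e00000009500000009300000008f00000009f00000009d0000000b50000000a30000000ab00000000e000b00]

def c20_11_n_pf : List Nat := c20_11_n_p0

theorem c20_11_n_ref {V : Type} {S : SRel V} {p : Nat → V} (hp : ∀ i j, i < 6 → j < 6 → p i = p j → i = j)
    (hts : PHs S p 6 (mA ++ (gf (fun x => 8 + cr 4 x) rf20 ++ (gf (fun x => 8 + c6 5 0 1 2 4 x) f11 ++ fp1.map (tren (n6 1 3 4)))))) : False :=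
  refuteS (k := 6) (n2 := 3) (n3 := 1) (n4 := 3) (o3 := 63) (o4 := 119) (M := 812) (mA ++ (gf (fun x => 8 + cr 4 x) rf20 ++ (gf (fun x => 8 + c6 5 0 1 2 4 x) f11 ++ fp1.map (tren (n6 1 3 4))))) c20_11_n_pf (by decide +kernel)
    (by decide +kernel) (by decide +kernel) (by decide +kernel) hp hts

theorem c20_11_n {V : Type} {W : Mw V} (h : W.Hy) {a b c d u : V} (nd : [W.z, a, b, c, d, u].Nodup)
    (hr : Hit (mrel0 h.bs) (pt [a, b, c, d] W.z) rf20)
    (hf : Hit (mrel0 h.bs) (v6 W.z u W.z a b d) f11)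
    (hq : ¬ FS (mrel0 h.bs) W.z fp1 a c d) : False :=
  c20_11_n_ref (pt_inj (o := W.z) nd rfl) (PHs.app (h.ph rfl _) (PHs.app (gf_ph hr (cr 4) (cr_pt (n := 4) (l := [a, b, c, d]) (l' := [u]) rfl)) (PHs.app (gf_ph hf (c6 5 0 1 2 4) (c6_v6 rfl rfl rfl rfl rfl rfl)) (nf_ph hq (ia := 1) (ib := 3) (ic := 4) rfl rfl rfl rfl))))

def c20_11_3_p0 : List Nat := [
0xa3000000093000200]

def c20_11_3_pf : List Nat := c20_11_3_p0

theorem c20_11_3_ref {V : Type} {S : SRel V} {p : Nat → V} (hp : ∀ i j, i < 5 → j < 5 → p i = p j → i = j)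
    (hts : PHs S p 5 (mA ++ (gf (fun x => 8 + cr 4 x) rf20 ++ (gf (fun x => 8 + c6 3 0 1 2 4 x) f11 ++ fp1.map (tren (n6 1 3 4)))))) : False :=
  refuteS (k := 5) (n2 := 3) (n3 := 1) (n4 := 3) (o3 := 45) (o4 := 80) (M := 440) (mA ++ (gf (fun x => 8 + cr 4 x) rf20 ++ (gf (fun x => 8 + c6 3 0 1 2 4 x) f11 ++ fp1.map (tren (n6 1 3 4))))) c20_11_3_pf (by decide +kernel)
    (by decide +kernel) (by decide +kernel) (by decide +kernel) hp hts

theorem c20_11_3 {V : Type} {W : Mw V} (h : W.Hy) {a b c d : V} (nd : [W.z, a, b, c, d].Nodup)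
    (hr : Hit (mrel0 h.bs) (pt [a, b, c, d] W.z) rf20)
    (hf : Hit (mrel0 h.bs) (v6 W.z c W.z a b d) f11)
    (hq : ¬ FS (mrel0 h.bs) W.z fp1 a c d) : False :=
  c20_11_3_ref (pt_inj (o := W.z) nd rfl) (PHs.app (h.ph rfl _) (PHs.app (gf_ph hr (cr 4) (cr_pt (n := 4) (l := [a, b, c, d]) (l' := []) rfl)) (PHs.app (gf_ph hf (c6 3 0 1 2 4) (c6_v6 rfl rfl rfl rfl rfl rfl)) (nf_ph hq (ia := 1) (ib := 3) (ic := 4) rfl rfl rfl rfl))))

def c20_12_n_p0 : List Nat := [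
0x8620b00000009300000008f00000009504b7000401,
0x8420030000000970490000201,
0x86420070000000020000000040412000301,
0x46821d0000000a10015000201,
0x86a0b0000000950000000930000000a70532000401,
0xa260d00000009300000008f0000000a7054d000401,
0xa82600700000009900000000c02c3000301,
0x8a40030000000ad05e6000201,
0x684a00700000000a0000000ad01f7000301,
0x2a084070000000040000000ad0233000301,
0x460a80700000000e00000001002c9000301,
0x2a064070000000060000000120227000301,
0x8a420300000001405e9000201,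
0x64a21b0000000180554000201,
0x264a80700000001600000001a02c6000301,
0x486a2250000000a100000001c0563000301,
0x6a821d0000000b305c6000201,
0xa8621f00000001e0000000200000000080000000220365000501,
0xb5000000024000200]

def c20_12_n_pf : List Nat := c20_12_n_p0

theorem c20_12_n_ref {V : Type} {S : SRel V} {p : Nat → V} (hp : ∀ i j, i < 6 → j < 6 → p i = p j → i = j)
    (hts : PHs S p 6 (mA ++ (gf (fun x => 8 + cr 4 x) rf20 ++ (gf (fun x => 8 + c6 5 0 1 2 4 x) f12 ++ fp1.map (tren (n6 1 3 4)))))) : False :=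
  refuteS (k := 6) (n2 := 3) (n3 := 1) (n4 := 3) (o3 := 63) (o4 := 119) (M := 812) (mA ++ (gf (fun x => 8 + cr 4 x) rf20 ++ (gf (fun x => 8 + c6 5 0 1 2 4 x) f12 ++ fp1.map (tren (n6 1 3 4))))) c20_12_n_pf (by decide +kernel)
    (by decide +kernel) (by decide +kernel) (by decide +kernel) hp hts

theorem c20_12_n {V : Type} {W : Mw V} (h : W.Hy) {a b c d u : V} (nd : [W.z, a, b, c, d, u].Nodup)
    (hr : Hit (mrel0 h.bs) (pt [a, b, c, d] W.z) rf20)
    (hf : Hit (mrel0 h.bs) (v6 W.z u W.z a b d) f12)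
    (hq : ¬ FS (mrel0 h.bs) W.z fp1 a c d) : False :=
  c20_12_n_ref (pt_inj (o := W.z) nd rfl) (PHs.app (h.ph rfl _) (PHs.app (gf_ph hr (cr 4) (cr_pt (n := 4) (l := [a, b, c, d]) (l' := [u]) rfl)) (PHs.app (gf_ph hf (c6 5 0 1 2 4) (c6_v6 rfl rfl rfl rfl rfl rfl)) (nf_ph hq (ia := 1) (ib := 3) (ic := 4) rfl rfl rfl rfl))))

def c20_12_3_p0 : List Nat := [
0xa7000000093000200]

def c20_12_3_pf : List Nat := c20_12_3_p0

theorem c20_12_3_ref {V : Type} {S : SRel V} {p : Nat → V} (hp : ∀ i j, i < 5 → j < 5 → p i = p j → i = j)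
    (hts : PHs S p 5 (mA ++ (gf (fun x => 8 + cr 4 x) rf20 ++ (gf (fun x => 8 + c6 3 0 1 2 4 x) f12 ++ fp1.map (tren (n6 1 3 4)))))) : False :=
  refuteS (k := 5) (n2 := 3) (n3 := 1) (n4 := 3) (o3 := 45) (o4 := 80) (M := 440) (mA ++ (gf (fun x => 8 + cr 4 x) rf20 ++ (gf (fun x => 8 + c6 3 0 1 2 4 x) f12 ++ fp1.map (tren (n6 1 3 4))))) c20_12_3_pf (by decide +kernel)
    (by decide +kernel) (by decide +kernel) (by decide +kernel) hp hts

theorem c20_12_3 {V : Type} {W : Mw V} (h : W.Hy) {a b c d : V} (nd : [W.z, a, b, c, d].Nodup)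
    (hr : Hit (mrel0 h.bs) (pt [a, b, c, d] W.z) rf20)
    (hf : Hit (mrel0 h.bs) (v6 W.z c W.z a b d) f12)
    (hq : ¬ FS (mrel0 h.bs) W.z fp1 a c d) : False :=
  c20_12_3_ref (pt_inj (o := W.z) nd rfl) (PHs.app (h.ph rfl _) (PHs.app (gf_ph hr (cr 4) (cr_pt (n := 4) (l := [a, b, c, d]) (l' := []) rfl)) (PHs.app (gf_ph hf (c6 3 0 1 2 4) (c6_v6 rfl rfl rfl rfl rfl rfl)) (nf_ph hq (ia := 1) (ib := 3) (ic := 4) rfl rfl rfl rfl))))

def c20_13_n_p0 : List Nat := [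
0x8420030000000970490000201,
0x28641d0000000a10024000201,
0xa260d00000009300000008f0000000a7054d000401,
0xa82600700000009900000000602c3000301,
0x8a40030000000ad05e6000201,
0x2a084070000000020000000ad0233000301,
0x460a80700000000800000000a02c9000301,
0x4a820300000000c058f000201,
0xa8641b00000000e05f6000201,
0xa4082070000000970000000100200000301,
0xa2864250000000a100000001205ea000301,
0x42a330000000a700000008f0000000910000000b30030000501,
0x842a5100000009500000008f0000000910000000a70000000140000000b30590000701,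
0x84a21f00000001600000000c00000000400000001a000000018000600]

def c20_13_n_pf : List Nat := c20_13_n_p0

theorem c20_13_n_ref {V : Type} {S : SRel V} {p : Nat → V} (hp : ∀ i j, i < 6 → j < 6 → p i = p j → i = j)
    (hts : PHs S p 6 (mA ++ (gf (fun x => 8 + cr 4 x) rf20 ++ (gf (fun x => 8 + c6 5 0 1 2 4 x) f13 ++ fp1.map (tren (n6 1 3 4)))))) : False :=
  refuteS (k := 6) (n2 := 3) (n3 := 1) (n4 := 3) (o3 := 63) (o4 := 119) (M := 812) (mA ++ (gf (fun x => 8 + cr 4 x) rf20 ++ (gf (fun x => 8 + c6 5 0 1 2 4 x) f13 ++ fp1.map (tren (n6 1 3 4))))) c20_13_n_pf (by decide +kernel)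
    (by decide +kernel) (by decide +kernel) (by decide +kernel) hp hts

theorem c20_13_n {V : Type} {W : Mw V} (h : W.Hy) {a b c d u : V} (nd : [W.z, a, b, c, d, u].Nodup)
    (hr : Hit (mrel0 h.bs) (pt [a, b, c, d] W.z) rf20)
    (hf : Hit (mrel0 h.bs) (v6 W.z u W.z a b d) f13)
    (hq : ¬ FS (mrel0 h.bs) W.z fp1 a c d) : False :=
  c20_13_n_ref (pt_inj (o := W.z) nd rfl) (PHs.app (h.ph rfl _) (PHs.app (gf_ph hr (cr 4) (cr_pt (n := 4) (l := [a, b, c, d]) (l' := [u]) rfl)) (PHs.app (gf_ph hf (c6 5 0 1 2 4) (c6_v6 rfl rfl rfl rfl rfl rfl)) (nf_ph hq (ia := 1) (ib := 3) (ic := 4) rfl rfl rfl rfl))))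

def c20_13_3_p0 : List Nat := [
0xa7000000093000200]

def c20_13_3_pf : List Nat := c20_13_3_p0

theorem c20_13_3_ref {V : Type} {S : SRel V} {p : Nat → V} (hp : ∀ i j, i < 5 → j < 5 → p i = p j → i = j)
    (hts : PHs S p 5 (mA ++ (gf (fun x => 8 + cr 4 x) rf20 ++ (gf (fun x => 8 + c6 3 0 1 2 4 x) f13 ++ fp1.map (tren (n6 1 3 4)))))) : False :=
  refuteS (k := 5) (n2 := 3) (n3 := 1) (n4 := 3) (o3 := 45) (o4 := 80) (M := 440) (mA ++ (gf (fun x => 8 + cr 4 x) rf20 ++ (gf (fun x => 8 + c6 3 0 1 2 4 x) f13 ++ fp1.map (tren (n6 1 3 4))))) c20_13_3_pf (by decide +kernel)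
    (by decide +kernel) (by decide +kernel) (by decide +kernel) hp hts

theorem c20_13_3 {V : Type} {W : Mw V} (h : W.Hy) {a b c d : V} (nd : [W.z, a, b, c, d].Nodup)
    (hr : Hit (mrel0 h.bs) (pt [a, b, c, d] W.z) rf20)
    (hf : Hit (mrel0 h.bs) (v6 W.z c W.z a b d) f13)
    (hq : ¬ FS (mrel0 h.bs) W.z fp1 a c d) : False :=
  c20_13_3_ref (pt_inj (o := W.z) nd rfl) (PHs.app (h.ph rfl _) (PHs.app (gf_ph hr (cr 4) (cr_pt (n := 4) (l := [a, b, c, d]) (l' := []) rfl)) (PHs.app (gf_ph hf (c6 3 0 1 2 4) (c6_v6 rfl rfl rfl rfl rfl rfl)) (nf_ph hq (ia := 1) (ib := 3) (ic := 4) rfl rfl rfl rfl))))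

def c20_14_n_n_p0 : List Nat := [
0x8640b000000093000000091000000095072c000401,
0x68240070000000020000000970105000301,
0x28600300000009906cc000201,
0x840620700000000400000000601a7000301,
0x821500000009500000008f00000009d001e000401,
0x46821d0000000a10015000201,
0x28641d0000000a10024000201,
0xa640b0000000930000000910000000a7081c000401,
0xa6240070000000040000000100249000301,
0xc640b0000000930000000910000000ab099f000401,
0xc62400700000000400000001403a8000301,
0x2a80030000000af07c8000201,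
0x840a2070000000120000000180264000301,
0x84a21b00000001a07cf000201,
0x2c80030000000b108e8000201,
0x840c2050000000160000000b1092d000301,
0x6c280070000000060000000b1044a000301,
0xc60820700000009900000001e044d000301,
0xca082070000000af00000001e04e6000301,
0xca2840700000001a00000002004e9000301,
0xc8620300000002409f6000201,
0xc6821b00000002409b8000201,
0xca82030000000260a11000201,
0xc84620700000000800000002a03f9000301,
0xc4682250000000a100000002c09a3000301,
0xc84a20700000001a00000002e0414000301,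
0xc4a21b000000034097f000201,
0x8ac310000000ab0000000a70000000950000000b7004e000501,
0x8ca390000000ab0000000a70000000950000000b70a0f000501,
0x4c8a22500000001c0000000b9092e000301,
0x48c2a250000000360000000b90988000301,
0xc8a42770000000ab0000000b70000000a700000009500000008f00000009b0000000910000000af0000000b10000000160000000b90045000c01,
0xca841f00000003800000002800000000e00000003e04ab000501,
0xc4621f00000003200000003000000000c00000004003b8000501,
0x2c461d0000000440048000201,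
0x864c22300000003c0000000440931000301,
0xc2864230000000a10000000440490000301,
0xc6821f00000004600000002400000009d000000048048d000501,
0xa46c82300000004200000004a04ae000301,
0xa6c84100000003a0000000ab0000000a700000009500000009300000004e09f4000701,
0xc68350000000460000000220000000ab00000009500000009300000000a0000000500385000801,
0xcc10000000ab00000009500000009300000008f00000009f00000009d0000000990000000520000000b100000004c000b00]

def c20_14_n_n_pf : List Nat := c20_14_n_n_p0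

theorem c20_14_n_n_ref {V : Type} {S : SRel V} {p : Nat → V} (hp : ∀ i j, i < 7 → j < 7 → p i = p j → i = j)
    (hts : PHs S p 7 (mA ++ (gf (fun x => 8 + cr 4 x) rf20 ++ (gf (fun x => 8 + c6 5 6 1 2 4 x) f14 ++ fp1.map (tren (n6 1 3 4)))))) : False :=
  refuteS (k := 7) (n2 := 3) (n3 := 1) (n4 := 3) (o3 := 84) (o4 := 168) (M := 1386) (mA ++ (gf (fun x => 8 + cr 4 x) rf20 ++ (gf (fun x => 8 + c6 5 6 1 2 4 x) f14 ++ fp1.map (tren (n6 1 3 4))))) c20_14_n_n_pf (by decide +kernel)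
    (by decide +kernel) (by decide +kernel) (by decide +kernel) hp hts

theorem c20_14_n_n {V : Type} {W : Mw V} (h : W.Hy) {a b c d u w : V} (nd : [W.z, a, b, c, d, u, w].Nodup)
    (hr : Hit (mrel0 h.bs) (pt [a, b, c, d] W.z) rf20)
    (hf : Hit (mrel0 h.bs) (v6 W.z u w a b d) f14)
    (hq : ¬ FS (mrel0 h.bs) W.z fp1 a c d) : False :=
  c20_14_n_n_ref (pt_inj (o := W.z) nd rfl) (PHs.app (h.ph rfl _) (PHs.app (gf_ph hr (cr 4) (cr_pt (n := 4) (l := [a, b, c, d]) (l' := [u, w]) rfl)) (PHs.app (gf_ph hf (c6 5 6 1 2 4) (c6_v6 rfl rfl rfl rfl rfl rfl)) (nf_ph hq (ia := 1) (ib := 3) (ic := 4) rfl rfl rfl rfl))))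

def c20_14_n_3_p0 : List Nat := [
0x286003000000099045d000201,
0xb1000000002000200]

def c20_14_n_3_pf : List Nat := c20_14_n_3_p0

theorem c20_14_n_3_ref {V : Type} {S : SRel V} {p : Nat → V} (hp : ∀ i j, i < 6 → j < 6 → p i = p j → i = j)
    (hts : PHs S p 6 (mA ++ (gf (fun x => 8 + cr 4 x) rf20 ++ (gf (fun x => 8 + c6 5 3 1 2 4 x) f14 ++ fp1.map (tren (n6 1 3 4)))))) : False :=
  refuteS (k := 6) (n2 := 3) (n3 := 1) (n4 := 3) (o3 := 63) (o4 := 119) (M := 812) (mA ++ (gf (fun x => 8 + cr 4 x) rf20 ++ (gf (fun x => 8 + c6 5 3 1 2 4 x) f14 ++ fp1.map (tren (n6 1 3 4))))) c20_14_n_3_pf (by decide +kernel)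
    (by decide +kernel) (by decide +kernel) (by decide +kernel) hp hts

theorem c20_14_n_3 {V : Type} {W : Mw V} (h : W.Hy) {a b c d u : V} (nd : [W.z, a, b, c, d, u].Nodup)
    (hr : Hit (mrel0 h.bs) (pt [a, b, c, d] W.z) rf20)
    (hf : Hit (mrel0 h.bs) (v6 W.z u c a b d) f14)
    (hq : ¬ FS (mrel0 h.bs) W.z fp1 a c d) : False :=
  c20_14_n_3_ref (pt_inj (o := W.z) nd rfl) (PHs.app (h.ph rfl _) (PHs.app (gf_ph hr (cr 4) (cr_pt (n := 4) (l := [a, b, c, d]) (l' := [u]) rfl)) (PHs.app (gf_ph hf (c6 5 3 1 2 4) (c6_v6 rfl rfl rfl rfl rfl rfl)) (nf_ph hq (ia := 1) (ib := 3) (ic := 4) rfl rfl rfl rfl))))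

def c20_14_3_n_p0 : List Nat := [
0xac10000000ab00000009500000009300000008f00000009f00000009d0000000990000000b70000000b10000000b9000b00]

def c20_14_3_n_pf : List Nat := c20_14_3_n_p0

theorem c20_14_3_n_ref {V : Type} {S : SRel V} {p : Nat → V} (hp : ∀ i j, i < 6 → j < 6 → p i = p j → i = j)
    (hts : PHs S p 6 (mA ++ (gf (fun x => 8 + cr 4 x) rf20 ++ (gf (fun x => 8 + c6 3 5 1 2 4 x) f14 ++ fp1.map (tren (n6 1 3 4)))))) : False :=
  refuteS (k := 6) (n2 := 3) (n3 := 1) (n4 := 3) (o3 := 63) (o4 := 119) (M := 812) (mA ++ (gf (fun x => 8 + cr 4 x) rf20 ++ (gf (fun x => 8 + c6 3 5 1 2 4 x) f14 ++ fp1.map (tren (n6 1 3 4))))) c20_14_3_n_pf (by decide +kernel)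
    (by decide +kernel) (by decide +kernel) (by decide +kernel) hp hts

theorem c20_14_3_n {V : Type} {W : Mw V} (h : W.Hy) {a b c d w : V} (nd : [W.z, a, b, c, d, w].Nodup)
    (hr : Hit (mrel0 h.bs) (pt [a, b, c, d] W.z) rf20)
    (hf : Hit (mrel0 h.bs) (v6 W.z c w a b d) f14)
    (hq : ¬ FS (mrel0 h.bs) W.z fp1 a c d) : False :=
  c20_14_3_n_ref (pt_inj (o := W.z) nd rfl) (PHs.app (h.ph rfl _) (PHs.app (gf_ph hr (cr 4) (cr_pt (n := 4) (l := [a, b, c, d]) (l' := [w]) rfl)) (PHs.app (gf_ph hf (c6 3 5 1 2 4) (c6_v6 rfl rfl rfl rfl rfl rfl)) (nf_ph hq (ia := 1) (ib := 3) (ic := 4) rfl rfl rfl rfl))))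

def c20_15_n_n_p0 : List Nat := [
0x8640b000000093000000091000000095072c000401,
0x68240070000000020000000970105000301,
0x28600300000009906cc000201,
0x46821d0000000a10015000201,
0x28641d0000000a10024000201,
0x6842210000000a10730000201,
0xa640b0000000930000000910000000a7081c000401,
0xa62400700000000400000000e0249000301,
0xc620b00000009300000008f0000000a90999000401,
0xc640b0000000930000000910000000a9099f000401,
0xc62400700000000400000001403a8000301,
0x2ca0030000000af08f7000201,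
0xc40a2070000000100000000180414000301,
0xc4a21b00000001a097f000201,
0x2c80030000000b10927000201,
0x840c20700000001600000001e03c3000301,
0xac8310000000a90000000a70000000950000000b7004b000501,
0x8ca21d0000000b90042000201,
0x48ca22500000001c0000000b90970000301,
0xc6482230000000a100000002609b8000301,
0x84c21f00000002400000002000000000a0000000260484000501,
0xa24c8230000000b900000002a04ab000301,
0x6c8422500000000c00000002a0931000301,
0xc2864250000000a100000002a0490000301,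
0xc8621f00000002800000002200000000800000002e09f6000501,
0x642c82300000002a000000030048d000301,
0xa46c82300000002c00000003004ae000301,
0x8c0620700000000600000003208dc000301,
0x6ca84d0000000b70000000a90000000a700000009500000009300000003602c8000701,
0xc6200100000001200000003803b1000301,
0xca683d0000000b70000000a90000000a700000009500000009300000003a044b000701,
0xcc30000000a900000009500000009300000008f00000009f00000009d0000000b100000003c00000003e000000034000b00]

def c20_15_n_n_pf : List Nat := c20_15_n_n_p0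

theorem c20_15_n_n_ref {V : Type} {S : SRel V} {p : Nat → V} (hp : ∀ i j, i < 7 → j < 7 → p i = p j → i = j)
    (hts : PHs S p 7 (mA ++ (gf (fun x => 8 + cr 4 x) rf20 ++ (gf (fun x => 8 + c6 5 6 1 2 4 x) f15 ++ fp1.map (tren (n6 1 3 4)))))) : False :=
  refuteS (k := 7) (n2 := 3) (n3 := 1) (n4 := 3) (o3 := 84) (o4 := 168) (M := 1386) (mA ++ (gf (fun x => 8 + cr 4 x) rf20 ++ (gf (fun x => 8 + c6 5 6 1 2 4 x) f15 ++ fp1.map (tren (n6 1 3 4))))) c20_15_n_n_pf (by decide +kernel)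
    (by decide +kernel) (by decide +kernel) (by decide +kernel) hp hts

theorem c20_15_n_n {V : Type} {W : Mw V} (h : W.Hy) {a b c d u w : V} (nd : [W.z, a, b, c, d, u, w].Nodup)
    (hr : Hit (mrel0 h.bs) (pt [a, b, c, d] W.z) rf20)
    (hf : Hit (mrel0 h.bs) (v6 W.z u w a b d) f15)
    (hq : ¬ FS (mrel0 h.bs) W.z fp1 a c d) : False :=
  c20_15_n_n_ref (pt_inj (o := W.z) nd rfl) (PHs.app (h.ph rfl _) (PHs.app (gf_ph hr (cr 4) (cr_pt (n := 4) (l := [a, b, c, d]) (l' := [u, w]) rfl)) (PHs.app (gf_ph hf (c6 5 6 1 2 4) (c6_v6 rfl rfl rfl rfl rfl rfl)) (nf_ph hq (ia := 1) (ib := 3) (ic := 4) rfl rfl rfl rfl))))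

def c20_15_n_3_p0 : List Nat := [
0x8640b00000009300000009100000009504bd000401,
0x682400700000000200000009700d4000301,
0xa640b0000000930000000910000000a705ad000401,
0xa6240070000000040000000060218000301,
0x2a60030000000af054d000201,
0x640a20700000000800000000a0227000301,
0x64a21b00000000c0554000201,
0x486a2250000000a100000000e0563000301,
0xb9000000010000200]

def c20_15_n_3_pf : List Nat := c20_15_n_3_p0

theorem c20_15_n_3_ref {V : Type} {S : SRel V} {p : Nat → V} (hp : ∀ i j, i < 6 → j < 6 → p i = p j → i = j)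
    (hts : PHs S p 6 (mA ++ (gf (fun x => 8 + cr 4 x) rf20 ++ (gf (fun x => 8 + c6 5 3 1 2 4 x) f15 ++ fp1.map (tren (n6 1 3 4)))))) : False :=
  refuteS (k := 6) (n2 := 3) (n3 := 1) (n4 := 3) (o3 := 63) (o4 := 119) (M := 812) (mA ++ (gf (fun x => 8 + cr 4 x) rf20 ++ (gf (fun x => 8 + c6 5 3 1 2 4 x) f15 ++ fp1.map (tren (n6 1 3 4))))) c20_15_n_3_pf (by decide +kernel)
    (by decide +kernel) (by decide +kernel) (by decide +kernel) hp hts

theorem c20_15_n_3 {V : Type} {W : Mw V} (h : W.Hy) {a b c d u : V} (nd : [W.z, a, b, c, d, u].Nodup)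
    (hr : Hit (mrel0 h.bs) (pt [a, b, c, d] W.z) rf20)
    (hf : Hit (mrel0 h.bs) (v6 W.z u c a b d) f15)
    (hq : ¬ FS (mrel0 h.bs) W.z fp1 a c d) : False :=
  c20_15_n_3_ref (pt_inj (o := W.z) nd rfl) (PHs.app (h.ph rfl _) (PHs.app (gf_ph hr (cr 4) (cr_pt (n := 4) (l := [a, b, c, d]) (l' := [u]) rfl)) (PHs.app (gf_ph hf (c6 5 3 1 2 4) (c6_v6 rfl rfl rfl rfl rfl rfl)) (nf_ph hq (ia := 1) (ib := 3) (ic := 4) rfl rfl rfl rfl))))

def c20_15_3_n_p0 : List Nat := [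
0xac30000000a900000009500000009300000008f00000009f00000009d0000000b10000000af0000000b70000000b9000b00]

def c20_15_3_n_pf : List Nat := c20_15_3_n_p0

theorem c20_15_3_n_ref {V : Type} {S : SRel V} {p : Nat → V} (hp : ∀ i j, i < 6 → j < 6 → p i = p j → i = j)
    (hts : PHs S p 6 (mA ++ (gf (fun x => 8 + cr 4 x) rf20 ++ (gf (fun x => 8 + c6 3 5 1 2 4 x) f15 ++ fp1.map (tren (n6 1 3 4)))))) : False :=
  refuteS (k := 6) (n2 := 3) (n3 := 1) (n4 := 3) (o3 := 63) (o4 := 119) (M := 812) (mA ++ (gf (fun x => 8 + cr 4 x) rf20 ++ (gf (fun x => 8 + c6 3 5 1 2 4 x) f15 ++ fp1.map (tren (n6 1 3 4))))) c20_15_3_n_pf (by decide +kernel)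
    (by decide +kernel) (by decide +kernel) (by decide +kernel) hp hts

theorem c20_15_3_n {V : Type} {W : Mw V} (h : W.Hy) {a b c d w : V} (nd : [W.z, a, b, c, d, w].Nodup)
    (hr : Hit (mrel0 h.bs) (pt [a, b, c, d] W.z) rf20)
    (hf : Hit (mrel0 h.bs) (v6 W.z c w a b d) f15)
    (hq : ¬ FS (mrel0 h.bs) W.z fp1 a c d) : False :=
  c20_15_3_n_ref (pt_inj (o := W.z) nd rfl) (PHs.app (h.ph rfl _) (PHs.app (gf_ph hr (cr 4) (cr_pt (n := 4) (l := [a, b, c, d]) (l' := [w]) rfl)) (PHs.app (gf_ph hf (c6 3 5 1 2 4) (c6_v6 rfl rfl rfl rfl rfl rfl)) (nf_ph hq (ia := 1) (ib := 3) (ic := 4) rfl rfl rfl rfl))))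

def c20_16_n_n_p0 : List Nat := [
0x4260d00000009100000008f000000093065d000401,
0x28600300000009906cc000201,
0x482600700000000200000009901a4000301,
0x46821d0000000a10015000201,
0x28641d0000000a10024000201,
0x42c0d00000009100000008f0000000ab08d3000401,
0x2a80030000000af079b000201,
0x6a280070000000040000000af02c7000301,
0xa40820700000009700000000e0294000301,
0xa60820700000009900000000e02ca000301,
0xa86003000000010085e000201,
0x6a800300000001007a1000201,
0xa8260070000000990000000160252000301,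
0x862a00700000000e000000018078f000301,
0x2ca0030000000b108f7000201,
0x6c2a00700000001c0000000b10459000301,
0x8c2a00700000000e0000000b104a4000301,
0xc60a20700000001a00000001e045c000301,
0xc80a2070000000af00000001e04a7000301,
0x2a4c00700000000c00000001e08fa000301,
0x6ca00300000002008fd000201,
0x8ca0030000000220900000201,
0xc6a21b00000002409c7000201,
0xca82030000000260a50000201,
0xa84c00700000002c00000002808eb000301,
0xc80a60700000001000000002a04ad000301,
0xca482070000000120000000300405000301,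
0xc6084070000000060000000320450000301,
0xc4821b0000000360970000201,
0x268c4250000000a100000003a0976000301,
0x8a621d0000000b70862000201,
0x8c641d0000000b909fa000201,
0xc6841f00000003c00000003800000000a00000004005b2000501,
0xac861d0000000420a57000201,
0x8ac2d0000000ab0000000a90000000950000000bb002d000501,
0xa8c310000000ab0000000a90000000950000000bb004b000501,
0x26a190000000a90000000b700000000800000009300000008f0000000460036000701,
0xa6821f00000003e00000001400000009d00000004a0268000501,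
0xc8a61f00000004400000004800000003400000004a0466000501,
0x28ac62500000002e00000004c00000004e000400]

def c20_16_n_n_pf : List Nat := c20_16_n_n_p0

theorem c20_16_n_n_ref {V : Type} {S : SRel V} {p : Nat → V} (hp : ∀ i j, i < 7 → j < 7 → p i = p j → i = j)
    (hts : PHs S p 7 (mA ++ (gf (fun x => 8 + cr 4 x) rf20 ++ (gf (fun x => 8 + c6 5 6 1 2 4 x) f16 ++ fp1.map (tren (n6 1 3 4)))))) : False :=
  refuteS (k := 7) (n2 := 3) (n3 := 1) (n4 := 3) (o3 := 84) (o4 := 168) (M := 1386) (mA ++ (gf (fun x => 8 + cr 4 x) rf20 ++ (gf (fun x => 8 + c6 5 6 1 2 4 x) f16 ++ fp1.map (tren (n6 1 3 4))))) c20_16_n_n_pf (by decide +kernel)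
    (by decide +kernel) (by decide +kernel) (by decide +kernel) hp hts

theorem c20_16_n_n {V : Type} {W : Mw V} (h : W.Hy) {a b c d u w : V} (nd : [W.z, a, b, c, d, u, w].Nodup)
    (hr : Hit (mrel0 h.bs) (pt [a, b, c, d] W.z) rf20)
    (hf : Hit (mrel0 h.bs) (v6 W.z u w a b d) f16)
    (hq : ¬ FS (mrel0 h.bs) W.z fp1 a c d) : False :=
  c20_16_n_n_ref (pt_inj (o := W.z) nd rfl) (PHs.app (h.ph rfl _) (PHs.app (gf_ph hr (cr 4) (cr_pt (n := 4) (l := [a, b, c, d]) (l' := [u, w]) rfl)) (PHs.app (gf_ph hf (c6 5 6 1 2 4) (c6_v6 rfl rfl rfl rfl rfl rfl)) (nf_ph hq (ia := 1) (ib := 3) (ic := 4) rfl rfl rfl rfl))))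

def c20_16_n_3_p0 : List Nat := [
0x286003000000099045d000201,
0x2a80030000000af052c000201,
0x6a280070000000020000000af0296000301,
0x6a80030000000060532000201,
0x862a0070000000040000000080520000301,
0xb100000000a000200]

def c20_16_n_3_pf : List Nat := c20_16_n_3_p0

theorem c20_16_n_3_ref {V : Type} {S : SRel V} {p : Nat → V} (hp : ∀ i j, i < 6 → j < 6 → p i = p j → i = j)
    (hts : PHs S p 6 (mA ++ (gf (fun x => 8 + cr 4 x) rf20 ++ (gf (fun x => 8 + c6 5 3 1 2 4 x) f16 ++ fp1.map (tren (n6 1 3 4)))))) : False :=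
  refuteS (k := 6) (n2 := 3) (n3 := 1) (n4 := 3) (o3 := 63) (o4 := 119) (M := 812) (mA ++ (gf (fun x => 8 + cr 4 x) rf20 ++ (gf (fun x => 8 + c6 5 3 1 2 4 x) f16 ++ fp1.map (tren (n6 1 3 4))))) c20_16_n_3_pf (by decide +kernel)
    (by decide +kernel) (by decide +kernel) (by decide +kernel) hp hts

theorem c20_16_n_3 {V : Type} {W : Mw V} (h : W.Hy) {a b c d u : V} (nd : [W.z, a, b, c, d, u].Nodup)
    (hr : Hit (mrel0 h.bs) (pt [a, b, c, d] W.z) rf20)
    (hf : Hit (mrel0 h.bs) (v6 W.z u c a b d) f16)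
    (hq : ¬ FS (mrel0 h.bs) W.z fp1 a c d) : False :=
  c20_16_n_3_ref (pt_inj (o := W.z) nd rfl) (PHs.app (h.ph rfl _) (PHs.app (gf_ph hr (cr 4) (cr_pt (n := 4) (l := [a, b, c, d]) (l' := [u]) rfl)) (PHs.app (gf_ph hf (c6 5 3 1 2 4) (c6_v6 rfl rfl rfl rfl rfl rfl)) (nf_ph hq (ia := 1) (ib := 3) (ic := 4) rfl rfl rfl rfl))))

def c20_16_3_n_p0 : List Nat := [
0x286003000000099045d000201,
0xaf000000002000200]

def c20_16_3_n_pf : List Nat := c20_16_3_n_p0

theorem c20_16_3_n_ref {V : Type} {S : SRel V} {p : Nat → V} (hp : ∀ i j, i < 6 → j < 6 → p i = p j → i = j)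
    (hts : PHs S p 6 (mA ++ (gf (fun x => 8 + cr 4 x) rf20 ++ (gf (fun x => 8 + c6 3 5 1 2 4 x) f16 ++ fp1.map (tren (n6 1 3 4)))))) : False :=
  refuteS (k := 6) (n2 := 3) (n3 := 1) (n4 := 3) (o3 := 63) (o4 := 119) (M := 812) (mA ++ (gf (fun x => 8 + cr 4 x) rf20 ++ (gf (fun x => 8 + c6 3 5 1 2 4 x) f16 ++ fp1.map (tren (n6 1 3 4))))) c20_16_3_n_pf (by decide +kernel)
    (by decide +kernel) (by decide +kernel) (by decide +kernel) hp hts

theorem c20_16_3_n {V : Type} {W : Mw V} (h : W.Hy) {a b c d w : V} (nd : [W.z, a, b, c, d, w].Nodup)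
    (hr : Hit (mrel0 h.bs) (pt [a, b, c, d] W.z) rf20)
    (hf : Hit (mrel0 h.bs) (v6 W.z c w a b d) f16)
    (hq : ¬ FS (mrel0 h.bs) W.z fp1 a c d) : False :=
  c20_16_3_n_ref (pt_inj (o := W.z) nd rfl) (PHs.app (h.ph rfl _) (PHs.app (gf_ph hr (cr 4) (cr_pt (n := 4) (l := [a, b, c, d]) (l' := [w]) rfl)) (PHs.app (gf_ph hf (c6 3 5 1 2 4) (c6_v6 rfl rfl rfl rfl rfl rfl)) (nf_ph hq (ia := 1) (ib := 3) (ic := 4) rfl rfl rfl rfl))))

def c20_17_n_n_p0 : List Nat := [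
0x8640b000000093000000091000000095072c000401,
0x68240070000000020000000970105000301,
0x28600300000009906cc000201,
0x840620700000000400000000601a7000301,
0x46821d0000000a10015000201,
0x28641d0000000a10024000201,
0xa640b0000000930000000910000000a9081c000401,
0xa62400700000000400000000e0249000301,
0xc640b0000000930000000910000000ab099f000401,
0xc62400700000000400000001203a8000301,
0x2a80030000000af079b000201,
0x840a2050000000100000000af07ce000301,
0xa4082070000000970000000160294000301,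
0xa62840700000000800000001802cd000301,
0xa4821b00000001a07ff000201,
0x268a4250000000a100000001e0805000301,
0x2ca0030000000b108f7000201,
0xa40c2050000000140000000b1093c000301,
0xc40a2070000000100000000220414000301,
0xc82a40700000001a00000002404aa000301,
0xc8a41b0000000280a15000201,
0xca241d0000000b70a3c000201,
0x8a641d0000000b70865000201,
0xa6841f00000002000000001c00000000c00000002e05a0000501,
0x8ac2d0000000ab0000000a90000000950000000b9002d000501,
0x26a190000000a900000003000000000a00000009300000008f0000000320030000701,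
0x8c241d0000000bb0045000201,
0x82ca42500000002a0000000bb093d000301,
0xc4a21f00000002c000000034000000026000000038000000036000600]

def c20_17_n_n_pf : List Nat := c20_17_n_n_p0

theorem c20_17_n_n_ref {V : Type} {S : SRel V} {p : Nat → V} (hp : ∀ i j, i < 7 → j < 7 → p i = p j → i = j)
    (hts : PHs S p 7 (mA ++ (gf (fun x => 8 + cr 4 x) rf20 ++ (gf (fun x => 8 + c6 5 6 1 2 4 x) f17 ++ fp1.map (tren (n6 1 3 4)))))) : False :=
  refuteS (k := 7) (n2 := 3) (n3 := 1) (n4 := 3) (o3 := 84) (o4 := 168) (M := 1386) (mA ++ (gf (fun x => 8 + cr 4 x) rf20 ++ (gf (fun x => 8 + c6 5 6 1 2 4 x) f17 ++ fp1.map (tren (n6 1 3 4))))) c20_17_n_n_pf (by decide +kernel)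
    (by decide +kernel) (by decide +kernel) (by decide +kernel) hp hts

theorem c20_17_n_n {V : Type} {W : Mw V} (h : W.Hy) {a b c d u w : V} (nd : [W.z, a, b, c, d, u, w].Nodup)
    (hr : Hit (mrel0 h.bs) (pt [a, b, c, d] W.z) rf20)
    (hf : Hit (mrel0 h.bs) (v6 W.z u w a b d) f17)
    (hq : ¬ FS (mrel0 h.bs) W.z fp1 a c d) : False :=
  c20_17_n_n_ref (pt_inj (o := W.z) nd rfl) (PHs.app (h.ph rfl _) (PHs.app (gf_ph hr (cr 4) (cr_pt (n := 4) (l := [a, b, c, d]) (l' := [u, w]) rfl)) (PHs.app (gf_ph hf (c6 5 6 1 2 4) (c6_v6 rfl rfl rfl rfl rfl rfl)) (nf_ph hq (ia := 1) (ib := 3) (ic := 4) rfl rfl rfl rfl))))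

def c20_17_n_3_p0 : List Nat := [
0x286003000000099045d000201,
0x2a80030000000af052c000201,
0x6a280070000000020000000af0296000301,
0x6a80030000000060532000201,
0x862a0070000000040000000080520000301,
0xb100000000a000200]

def c20_17_n_3_pf : List Nat := c20_17_n_3_p0

theorem c20_17_n_3_ref {V : Type} {S : SRel V} {p : Nat → V} (hp : ∀ i j, i < 6 → j < 6 → p i = p j → i = j)
    (hts : PHs S p 6 (mA ++ (gf (fun x => 8 + cr 4 x) rf20 ++ (gf (fun x => 8 + c6 5 3 1 2 4 x) f17 ++ fp1.map (tren (n6 1 3 4)))))) : False :=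
  refuteS (k := 6) (n2 := 3) (n3 := 1) (n4 := 3) (o3 := 63) (o4 := 119) (M := 812) (mA ++ (gf (fun x => 8 + cr 4 x) rf20 ++ (gf (fun x => 8 + c6 5 3 1 2 4 x) f17 ++ fp1.map (tren (n6 1 3 4))))) c20_17_n_3_pf (by decide +kernel)
    (by decide +kernel) (by decide +kernel) (by decide +kernel) hp hts

theorem c20_17_n_3 {V : Type} {W : Mw V} (h : W.Hy) {a b c d u : V} (nd : [W.z, a, b, c, d, u].Nodup)
    (hr : Hit (mrel0 h.bs) (pt [a, b, c, d] W.z) rf20)
    (hf : Hit (mrel0 h.bs) (v6 W.z u c a b d) f17)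
    (hq : ¬ FS (mrel0 h.bs) W.z fp1 a c d) : False :=
  c20_17_n_3_ref (pt_inj (o := W.z) nd rfl) (PHs.app (h.ph rfl _) (PHs.app (gf_ph hr (cr 4) (cr_pt (n := 4) (l := [a, b, c, d]) (l' := [u]) rfl)) (PHs.app (gf_ph hf (c6 5 3 1 2 4) (c6_v6 rfl rfl rfl rfl rfl rfl)) (nf_ph hq (ia := 1) (ib := 3) (ic := 4) rfl rfl rfl rfl))))

def c20_17_3_n_p0 : List Nat := [
0x286003000000099045d000201,
0xaf000000002000200]

def c20_17_3_n_pf : List Nat := c20_17_3_n_p0

theorem c20_17_3_n_ref {V : Type} {S : SRel V} {p : Nat → V} (hp : ∀ i j, i < 6 → j < 6 → p i = p j → i = j)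
    (hts : PHs S p 6 (mA ++ (gf (fun x => 8 + cr 4 x) rf20 ++ (gf (fun x => 8 + c6 3 5 1 2 4 x) f17 ++ fp1.map (tren (n6 1 3 4)))))) : False :=
  refuteS (k := 6) (n2 := 3) (n3 := 1) (n4 := 3) (o3 := 63) (o4 := 119) (M := 812) (mA ++ (gf (fun x => 8 + cr 4 x) rf20 ++ (gf (fun x => 8 + c6 3 5 1 2 4 x) f17 ++ fp1.map (tren (n6 1 3 4))))) c20_17_3_n_pf (by decide +kernel)
    (by decide +kernel) (by decide +kernel) (by decide +kernel) hp hts

theorem c20_17_3_n {V : Type} {W : Mw V} (h : W.Hy) {a b c d w : V} (nd : [W.z, a, b, c, d, w].Nodup)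
    (hr : Hit (mrel0 h.bs) (pt [a, b, c, d] W.z) rf20)
    (hf : Hit (mrel0 h.bs) (v6 W.z c w a b d) f17)
    (hq : ¬ FS (mrel0 h.bs) W.z fp1 a c d) : False :=
  c20_17_3_n_ref (pt_inj (o := W.z) nd rfl) (PHs.app (h.ph rfl _) (PHs.app (gf_ph hr (cr 4) (cr_pt (n := 4) (l := [a, b, c, d]) (l' := [w]) rfl)) (PHs.app (gf_ph hf (c6 3 5 1 2 4) (c6_v6 rfl rfl rfl rfl rfl rfl)) (nf_ph hq (ia := 1) (ib := 3) (ic := 4) rfl rfl rfl rfl))))

def c20_18_n_n_p0 : List Nat := [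
0x4260d00000009100000008f000000093065d000401,
0x28600300000009906cc000201,
0x482600700000000200000009901a4000301,
0x821500000009500000008f00000009d001e000401,
0x6842210000000a10730000201,
0x42c0d00000009100000008f0000000ab08d3000401,
0x2a80030000000af079b000201,
0x6a280070000000040000000af02c7000301,
0xa60820700000009900000000e02ca000301,
0x2ca0030000000b108f7000201,
0x8c2a00700000000e0000000b104a4000301,
0xc80a2070000000af00000001404a7000301,
0x2a4c00700000000c00000001408fa000301,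
0x8ca0030000000160900000201,
0xc8a21b0000000180a12000201,
0xa84c00700000001c00000001a08eb000301,
0xc6084070000000060000000200450000301,
0xc6841b00000002209bb000201,
0xc2864250000000a10000000b90490000301,
0x6ac8422700000001e00000000a0000000b907d2000401,
0xa8c64250000000260000000bb04de000301,
0x6ac48250000000240000000bb09d0000301,
0xca461d00000002a0036000201,
0xc6a8450000000b70000000ab0000000a900000009500000009300000002c085f000701,
0xa6821f00000002800000001200000009d00000002e02f8000501,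
0xa68350000000300000000100000000a900000009500000009300000000800000002e0238000801,
0xac30000000a900000009500000009300000008f00000009f00000009d0000000990000000340000000af000000032000b00]

def c20_18_n_n_pf : List Nat := c20_18_n_n_p0

theorem c20_18_n_n_ref {V : Type} {S : SRel V} {p : Nat → V} (hp : ∀ i j, i < 7 → j < 7 → p i = p j → i = j)
    (hts : PHs S p 7 (mA ++ (gf (fun x => 8 + cr 4 x) rf20 ++ (gf (fun x => 8 + c6 5 6 1 2 4 x) f18 ++ fp1.map (tren (n6 1 3 4)))))) : False :=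
  refuteS (k := 7) (n2 := 3) (n3 := 1) (n4 := 3) (o3 := 84) (o4 := 168) (M := 1386) (mA ++ (gf (fun x => 8 + cr 4 x) rf20 ++ (gf (fun x => 8 + c6 5 6 1 2 4 x) f18 ++ fp1.map (tren (n6 1 3 4))))) c20_18_n_n_pf (by decide +kernel)
    (by decide +kernel) (by decide +kernel) (by decide +kernel) hp hts

theorem c20_18_n_n {V : Type} {W : Mw V} (h : W.Hy) {a b c d u w : V} (nd : [W.z, a, b, c, d, u, w].Nodup)
    (hr : Hit (mrel0 h.bs) (pt [a, b, c, d] W.z) rf20)
    (hf : Hit (mrel0 h.bs) (v6 W.z u w a b d) f18)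
    (hq : ¬ FS (mrel0 h.bs) W.z fp1 a c d) : False :=
  c20_18_n_n_ref (pt_inj (o := W.z) nd rfl) (PHs.app (h.ph rfl _) (PHs.app (gf_ph hr (cr 4) (cr_pt (n := 4) (l := [a, b, c, d]) (l' := [u, w]) rfl)) (PHs.app (gf_ph hf (c6 5 6 1 2 4) (c6_v6 rfl rfl rfl rfl rfl rfl)) (nf_ph hq (ia := 1) (ib := 3) (ic := 4) rfl rfl rfl rfl))))

def c20_18_n_3_p0 : List Nat := [
0x286003000000099045d000201,
0x2a80030000000af052c000201,
0x6a280070000000020000000af0296000301,
0x6a80030000000060532000201,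
0x862a0070000000040000000080520000301,
0xb100000000a000200]

def c20_18_n_3_pf : List Nat := c20_18_n_3_p0

theorem c20_18_n_3_ref {V : Type} {S : SRel V} {p : Nat → V} (hp : ∀ i j, i < 6 → j < 6 → p i = p j → i = j)
    (hts : PHs S p 6 (mA ++ (gf (fun x => 8 + cr 4 x) rf20 ++ (gf (fun x => 8 + c6 5 3 1 2 4 x) f18 ++ fp1.map (tren (n6 1 3 4)))))) : False :=
  refuteS (k := 6) (n2 := 3) (n3 := 1) (n4 := 3) (o3 := 63) (o4 := 119) (M := 812) (mA ++ (gf (fun x => 8 + cr 4 x) rf20 ++ (gf (fun x => 8 + c6 5 3 1 2 4 x) f18 ++ fp1.map (tren (n6 1 3 4))))) c20_18_n_3_pf (by decide +kernel)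
    (by decide +kernel) (by decide +kernel) (by decide +kernel) hp hts

theorem c20_18_n_3 {V : Type} {W : Mw V} (h : W.Hy) {a b c d u : V} (nd : [W.z, a, b, c, d, u].Nodup)
    (hr : Hit (mrel0 h.bs) (pt [a, b, c, d] W.z) rf20)
    (hf : Hit (mrel0 h.bs) (v6 W.z u c a b d) f18)
    (hq : ¬ FS (mrel0 h.bs) W.z fp1 a c d) : False :=
  c20_18_n_3_ref (pt_inj (o := W.z) nd rfl) (PHs.app (h.ph rfl _) (PHs.app (gf_ph hr (cr 4) (cr_pt (n := 4) (l := [a, b, c, d]) (l' := [u]) rfl)) (PHs.app (gf_ph hf (c6 5 3 1 2 4) (c6_v6 rfl rfl rfl rfl rfl rfl)) (nf_ph hq (ia := 1) (ib := 3) (ic := 4) rfl rfl rfl rfl))))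

def c20_18_3_n_p0 : List Nat := [
0x286003000000099045d000201,
0xaf000000002000200]

def c20_18_3_n_pf : List Nat := c20_18_3_n_p0

theorem c20_18_3_n_ref {V : Type} {S : SRel V} {p : Nat → V} (hp : ∀ i j, i < 6 → j < 6 → p i = p j → i = j)
    (hts : PHs S p 6 (mA ++ (gf (fun x => 8 + cr 4 x) rf20 ++ (gf (fun x => 8 + c6 3 5 1 2 4 x) f18 ++ fp1.map (tren (n6 1 3 4)))))) : False :=
  refuteS (k := 6) (n2 := 3) (n3 := 1) (n4 := 3) (o3 := 63) (o4 := 119) (M := 812) (mA ++ (gf (fun x => 8 + cr 4 x) rf20 ++ (gf (fun x => 8 + c6 3 5 1 2 4 x) f18 ++ fp1.map (tren (n6 1 3 4))))) c20_18_3_n_pf (by decide +kernel)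
    (by decide +kernel) (by decide +kernel) (by decide +kernel) hp hts

theorem c20_18_3_n {V : Type} {W : Mw V} (h : W.Hy) {a b c d w : V} (nd : [W.z, a, b, c, d, w].Nodup)
    (hr : Hit (mrel0 h.bs) (pt [a, b, c, d] W.z) rf20)
    (hf : Hit (mrel0 h.bs) (v6 W.z c w a b d) f18)
    (hq : ¬ FS (mrel0 h.bs) W.z fp1 a c d) : False :=
  c20_18_3_n_ref (pt_inj (o := W.z) nd rfl) (PHs.app (h.ph rfl _) (PHs.app (gf_ph hr (cr 4) (cr_pt (n := 4) (l := [a, b, c, d]) (l' := [w]) rfl)) (PHs.app (gf_ph hf (c6 3 5 1 2 4) (c6_v6 rfl rfl rfl rfl rfl rfl)) (nf_ph hq (ia := 1) (ib := 3) (ic := 4) rfl rfl rfl rfl))))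

def c20_19_n_n_p0 : List Nat := [
0x28641d0000000a10024000201,
0x8ca0030000000af0a0e000201,
0xc82a0070000000ad00000000403cc000301,
0x8ca26d0000000af00000009500000008f00000009d0000000a50000000a70000000ad0000000b708f8000901,
0x4c281d0000000bb0970000201,
0x84c170000000b90000000a70000000950000000910000000020000000bb05a9000701,
0xac22f0000000a700000008f0000000a500000000c0a33000501,
0x4ca21d0000000bf0042000201,
0xca64822700000000a0000000a10000000bf0259000401,
0xc2a3700000000e00000000800000008f0000000060000000a50000000a70000000100597000801,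
0x2a461d0000000120036000201,
0x6a130000000a5000000093000000014000000016000500]

def c20_19_n_n_pf : List Nat := c20_19_n_n_p0

theorem c20_19_n_n_ref {V : Type} {S : SRel V} {p : Nat → V} (hp : ∀ i j, i < 7 → j < 7 → p i = p j → i = j)
    (hts : PHs S p 7 (mA ++ (gf (fun x => 8 + cr 4 x) rf20 ++ (gf (fun x => 8 + c6 5 6 1 2 4 x) f19 ++ fp1.map (tren (n6 1 3 4)))))) : False :=
  refuteS (k := 7) (n2 := 3) (n3 := 1) (n4 := 3) (o3 := 84) (o4 := 168) (M := 1386) (mA ++ (gf (fun x => 8 + cr 4 x) rf20 ++ (gf (fun x => 8 + c6 5 6 1 2 4 x) f19 ++ fp1.map (tren (n6 1 3 4))))) c20_19_n_n_pf (by decide +kernel)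
    (by decide +kernel) (by decide +kernel) (by decide +kernel) hp hts

theorem c20_19_n_n {V : Type} {W : Mw V} (h : W.Hy) {a b c d u w : V} (nd : [W.z, a, b, c, d, u, w].Nodup)
    (hr : Hit (mrel0 h.bs) (pt [a, b, c, d] W.z) rf20)
    (hf : Hit (mrel0 h.bs) (v6 W.z u w a b d) f19)
    (hq : ¬ FS (mrel0 h.bs) W.z fp1 a c d) : False :=
  c20_19_n_n_ref (pt_inj (o := W.z) nd rfl) (PHs.app (h.ph rfl _) (PHs.app (gf_ph hr (cr 4) (cr_pt (n := 4) (l := [a, b, c, d]) (l' := [u, w]) rfl)) (PHs.app (gf_ph hf (c6 5 6 1 2 4) (c6_v6 rfl rfl rfl rfl rfl rfl)) (nf_ph hq (ia := 1) (ib := 3) (ic := 4) rfl rfl rfl rfl))))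

def c20_19_n_3_p0 : List Nat := [
0xa7000000093000200]

def c20_19_n_3_pf : List Nat := c20_19_n_3_p0

theorem c20_19_n_3_ref {V : Type} {S : SRel V} {p : Nat → V} (hp : ∀ i j, i < 6 → j < 6 → p i = p j → i = j)
    (hts : PHs S p 6 (mA ++ (gf (fun x => 8 + cr 4 x) rf20 ++ (gf (fun x => 8 + c6 5 3 1 2 4 x) f19 ++ fp1.map (tren (n6 1 3 4)))))) : False :=
  refuteS (k := 6) (n2 := 3) (n3 := 1) (n4 := 3) (o3 := 63) (o4 := 119) (M := 812) (mA ++ (gf (fun x => 8 + cr 4 x) rf20 ++ (gf (fun x => 8 + c6 5 3 1 2 4 x) f19 ++ fp1.map (tren (n6 1 3 4))))) c20_19_n_3_pf (by decide +kernel)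
    (by decide +kernel) (by decide +kernel) (by decide +kernel) hp hts

theorem c20_19_n_3 {V : Type} {W : Mw V} (h : W.Hy) {a b c d u : V} (nd : [W.z, a, b, c, d, u].Nodup)
    (hr : Hit (mrel0 h.bs) (pt [a, b, c, d] W.z) rf20)
    (hf : Hit (mrel0 h.bs) (v6 W.z u c a b d) f19)
    (hq : ¬ FS (mrel0 h.bs) W.z fp1 a c d) : False :=
  c20_19_n_3_ref (pt_inj (o := W.z) nd rfl) (PHs.app (h.ph rfl _) (PHs.app (gf_ph hr (cr 4) (cr_pt (n := 4) (l := [a, b, c, d]) (l' := [u]) rfl)) (PHs.app (gf_ph hf (c6 5 3 1 2 4) (c6_v6 rfl rfl rfl rfl rfl rfl)) (nf_ph hq (ia := 1) (ib := 3) (ic := 4) rfl rfl rfl rfl))))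

def c20_19_3_n_p0 : List Nat := [
0xa5000000093000200]

def c20_19_3_n_pf : List Nat := c20_19_3_n_p0

theorem c20_19_3_n_ref {V : Type} {S : SRel V} {p : Nat → V} (hp : ∀ i j, i < 6 → j < 6 → p i = p j → i = j)
    (hts : PHs S p 6 (mA ++ (gf (fun x => 8 + cr 4 x) rf20 ++ (gf (fun x => 8 + c6 3 5 1 2 4 x) f19 ++ fp1.map (tren (n6 1 3 4)))))) : False :=
  refuteS (k := 6) (n2 := 3) (n3 := 1) (n4 := 3) (o3 := 63) (o4 := 119) (M := 812) (mA ++ (gf (fun x => 8 + cr 4 x) rf20 ++ (gf (fun x => 8 + c6 3 5 1 2 4 x) f19 ++ fp1.map (tren (n6 1 3 4))))) c20_19_3_n_pf (by decide +kernel)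
    (by decide +kernel) (by decide +kernel) (by decide +kernel) hp hts

theorem c20_19_3_n {V : Type} {W : Mw V} (h : W.Hy) {a b c d w : V} (nd : [W.z, a, b, c, d, w].Nodup)
    (hr : Hit (mrel0 h.bs) (pt [a, b, c, d] W.z) rf20)
    (hf : Hit (mrel0 h.bs) (v6 W.z c w a b d) f19)
    (hq : ¬ FS (mrel0 h.bs) W.z fp1 a c d) : False :=
  c20_19_3_n_ref (pt_inj (o := W.z) nd rfl) (PHs.app (h.ph rfl _) (PHs.app (gf_ph hr (cr 4) (cr_pt (n := 4) (l := [a, b, c, d]) (l' := [w]) rfl)) (PHs.app (gf_ph hf (c6 3 5 1 2 4) (c6_v6 rfl rfl rfl rfl rfl rfl)) (nf_ph hq (ia := 1) (ib := 3) (ic := 4) rfl rfl rfl rfl))))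

def c20_20_n_n_p0 : List Nat := [
0x8ca0030000000af0a0e000201,
0xc82a0070000000ad00000000203cc000301,
0x8c130000000a70000000950000000b705b5000401,
0xac22f0000000a700000008f0000000a50000000b70a33000501,
0x4c281d0000000060970000201,
0x8ca26d0000000af00000009500000008f00000009d0000000a50000000a70000000ad0000000b908f8000901,
0x4ca21d0000000bb0042000201,
0xca64822700000000a0000000a10000000bb0259000401,
0xc2a3700000000800000000c00000008f0000000040000000a50000000a700000000e0597000801,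
0x2a461d0000000100036000201,
0x6a130000000a5000000093000000012000000014000500]

def c20_20_n_n_pf : List Nat := c20_20_n_n_p0

theorem c20_20_n_n_ref {V : Type} {S : SRel V} {p : Nat → V} (hp : ∀ i j, i < 7 → j < 7 → p i = p j → i = j)
    (hts : PHs S p 7 (mA ++ (gf (fun x => 8 + cr 4 x) rf20 ++ (gf (fun x => 8 + c6 5 6 1 2 4 x) f20 ++ fp1.map (tren (n6 1 3 4)))))) : False :=
  refuteS (k := 7) (n2 := 3) (n3 := 1) (n4 := 3) (o3 := 84) (o4 := 168) (M := 1386) (mA ++ (gf (fun x => 8 + cr 4 x) rf20 ++ (gf (fun x => 8 + c6 5 6 1 2 4 x) f20 ++ fp1.map (tren (n6 1 3 4))))) c20_20_n_n_pf (by decide +kernel)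
    (by decide +kernel) (by decide +kernel) (by decide +kernel) hp hts

theorem c20_20_n_n {V : Type} {W : Mw V} (h : W.Hy) {a b c d u w : V} (nd : [W.z, a, b, c, d, u, w].Nodup)
    (hr : Hit (mrel0 h.bs) (pt [a, b, c, d] W.z) rf20)
    (hf : Hit (mrel0 h.bs) (v6 W.z u w a b d) f20)
    (hq : ¬ FS (mrel0 h.bs) W.z fp1 a c d) : False :=
  c20_20_n_n_ref (pt_inj (o := W.z) nd rfl) (PHs.app (h.ph rfl _) (PHs.app (gf_ph hr (cr 4) (cr_pt (n := 4) (l := [a, b, c, d]) (l' := [u, w]) rfl)) (PHs.app (gf_ph hf (c6 5 6 1 2 4) (c6_v6 rfl rfl rfl rfl rfl rfl)) (nf_ph hq (ia := 1) (ib := 3) (ic := 4) rfl rfl rfl rfl))))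

def c20_20_n_3_p0 : List Nat := [
0xa7000000093000200]

def c20_20_n_3_pf : List Nat := c20_20_n_3_p0

theorem c20_20_n_3_ref {V : Type} {S : SRel V} {p : Nat → V} (hp : ∀ i j, i < 6 → j < 6 → p i = p j → i = j)
    (hts : PHs S p 6 (mA ++ (gf (fun x => 8 + cr 4 x) rf20 ++ (gf (fun x => 8 + c6 5 3 1 2 4 x) f20 ++ fp1.map (tren (n6 1 3 4)))))) : False :=
  refuteS (k := 6) (n2 := 3) (n3 := 1) (n4 := 3) (o3 := 63) (o4 := 119) (M := 812) (mA ++ (gf (fun x => 8 + cr 4 x) rf20 ++ (gf (fun x => 8 + c6 5 3 1 2 4 x) f20 ++ fp1.map (tren (n6 1 3 4))))) c20_20_n_3_pf (by decide +kernel)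
    (by decide +kernel) (by decide +kernel) (by decide +kernel) hp hts

theorem c20_20_n_3 {V : Type} {W : Mw V} (h : W.Hy) {a b c d u : V} (nd : [W.z, a, b, c, d, u].Nodup)
    (hr : Hit (mrel0 h.bs) (pt [a, b, c, d] W.z) rf20)
    (hf : Hit (mrel0 h.bs) (v6 W.z u c a b d) f20)
    (hq : ¬ FS (mrel0 h.bs) W.z fp1 a c d) : False :=
  c20_20_n_3_ref (pt_inj (o := W.z) nd rfl) (PHs.app (h.ph rfl _) (PHs.app (gf_ph hr (cr 4) (cr_pt (n := 4) (l := [a, b, c, d]) (l' := [u]) rfl)) (PHs.app (gf_ph hf (c6 5 3 1 2 4) (c6_v6 rfl rfl rfl rfl rfl rfl)) (nf_ph hq (ia := 1) (ib := 3) (ic := 4) rfl rfl rfl rfl))))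

def c20_20_3_n_p0 : List Nat := [
0xa5000000093000200]

def c20_20_3_n_pf : List Nat := c20_20_3_n_p0

theorem c20_20_3_n_ref {V : Type} {S : SRel V} {p : Nat → V} (hp : ∀ i j, i < 6 → j < 6 → p i = p j → i = j)
    (hts : PHs S p 6 (mA ++ (gf (fun x => 8 + cr 4 x) rf20 ++ (gf (fun x => 8 + c6 3 5 1 2 4 x) f20 ++ fp1.map (tren (n6 1 3 4)))))) : False :=
  refuteS (k := 6) (n2 := 3) (n3 := 1) (n4 := 3) (o3 := 63) (o4 := 119) (M := 812) (mA ++ (gf (fun x => 8 + cr 4 x) rf20 ++ (gf (fun x => 8 + c6 3 5 1 2 4 x) f20 ++ fp1.map (tren (n6 1 3 4))))) c20_20_3_n_pf (by decide +kernel)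
    (by decide +kernel) (by decide +kernel) (by decide +kernel) hp hts

theorem c20_20_3_n {V : Type} {W : Mw V} (h : W.Hy) {a b c d w : V} (nd : [W.z, a, b, c, d, w].Nodup)
    (hr : Hit (mrel0 h.bs) (pt [a, b, c, d] W.z) rf20)
    (hf : Hit (mrel0 h.bs) (v6 W.z c w a b d) f20)
    (hq : ¬ FS (mrel0 h.bs) W.z fp1 a c d) : False :=
  c20_20_3_n_ref (pt_inj (o := W.z) nd rfl) (PHs.app (h.ph rfl _) (PHs.app (gf_ph hr (cr 4) (cr_pt (n := 4) (l := [a, b, c, d]) (l' := [w]) rfl)) (PHs.app (gf_ph hf (c6 3 5 1 2 4) (c6_v6 rfl rfl rfl rfl rfl rfl)) (nf_ph hq (ia := 1) (ib := 3) (ic := 4) rfl rfl rfl rfl))))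

theorem P20_1 {V : Type} {W : Mw V} (h : W.Hy) {a b c d u w : V} (nd : [W.z, a, b, c, d].Nodup)
    (hr : Hit (mrel0 h.bs) (pt [a, b, c, d] W.z) rf20)
    (hf : Hit (mrel0 h.bs) (v6 W.z u w a b d) f1) (hq : ¬ FS (mrel0 h.bs) W.z fp1 a c d) : False := by
  exact c20_1 h nd hr (hit00 (by decide) hf) hq

theorem P20_6 {V : Type} {W : Mw V} (h : W.Hy) {a b c d u w : V} (nd : [W.z, a, b, c, d].Nodup)
    (hr : Hit (mrel0 h.bs) (pt [a, b, c, d] W.z) rf20)
    (hf : Hit (mrel0 h.bs) (v6 W.z u w a b d) f6) (hq : ¬ FS (mrel0 h.bs) W.z fp1 a c d) : False := by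
  have hf := hit01 (by decide) hf
  have hs := hn1 hf rfl
  by_cases ic : u = c
  · subst ic
    exact c20_6_3 h nd hr hf hq
  exact c20_6_n h (nd_snoc nd (nin5 hs.1 hs.2.1 hs.2.2.1 ic hs.2.2.2)) hr hf hq

theorem P20_7 {V : Type} {W : Mw V} (h : W.Hy) {a b c d u w : V} (nd : [W.z, a, b, c, d].Nodup)
    (hr : Hit (mrel0 h.bs) (pt [a, b, c, d] W.z) rf20)
    (hf : Hit (mrel0 h.bs) (v6 W.z u w a b d) f7) (hq : ¬ FS (mrel0 h.bs) W.z fp1 a c d) : False := by
  have hf := hit01 (by decide) hf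
  have hs := hn1 hf rfl
  by_cases ic : u = c
  · subst ic
    exact c20_7_3 h nd hr hf hq
  exact c20_7_n h (nd_snoc nd (nin5 hs.1 hs.2.1 hs.2.2.1 ic hs.2.2.2)) hr hf hq

theorem P20_10 {V : Type} {W : Mw V} (h : W.Hy) {a b c d u w : V} (nd : [W.z, a, b, c, d].Nodup)
    (hr : Hit (mrel0 h.bs) (pt [a, b, c, d] W.z) rf20)
    (hf : Hit (mrel0 h.bs) (v6 W.z u w a b d) f10) (hq : ¬ FS (mrel0 h.bs) W.z fp1 a c d) : False := by
  have hf := hit01 (by decide) hf
  have hs := hn1 hf rfl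
  by_cases ic : u = c
  · subst ic
    exact c20_10_3 h nd hr hf hq
  exact c20_10_n h (nd_snoc nd (nin5 hs.1 hs.2.1 hs.2.2.1 ic hs.2.2.2)) hr hf hq

theorem P20_11 {V : Type} {W : Mw V} (h : W.Hy) {a b c d u w : V} (nd : [W.z, a, b, c, d].Nodup)
    (hr : Hit (mrel0 h.bs) (pt [a, b, c, d] W.z) rf20)
    (hf : Hit (mrel0 h.bs) (v6 W.z u w a b d) f11) (hq : ¬ FS (mrel0 h.bs) W.z fp1 a c d) : False := by
  have hf := hit01 (by decide) hf
  have hs := hn1 hf rfl
  by_cases ic : u = c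
  · subst ic
    exact c20_11_3 h nd hr hf hq
  exact c20_11_n h (nd_snoc nd (nin5 hs.1 hs.2.1 hs.2.2.1 ic hs.2.2.2)) hr hf hq

theorem P20_12 {V : Type} {W : Mw V} (h : W.Hy) {a b c d u w : V} (nd : [W.z, a, b, c, d].Nodup)
    (hr : Hit (mrel0 h.bs) (pt [a, b, c, d] W.z) rf20)
    (hf : Hit (mrel0 h.bs) (v6 W.z u w a b d) f12) (hq : ¬ FS (mrel0 h.bs) W.z fp1 a c d) : False := by
  have hf := hit01 (by decide) hf
  have hs := hn1 hf rfl
  by_cases ic : u = c
  · subst ic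
    exact c20_12_3 h nd hr hf hq
  exact c20_12_n h (nd_snoc nd (nin5 hs.1 hs.2.1 hs.2.2.1 ic hs.2.2.2)) hr hf hq

theorem P20_13 {V : Type} {W : Mw V} (h : W.Hy) {a b c d u w : V} (nd : [W.z, a, b, c, d].Nodup)
    (hr : Hit (mrel0 h.bs) (pt [a, b, c, d] W.z) rf20)
    (hf : Hit (mrel0 h.bs) (v6 W.z u w a b d) f13) (hq : ¬ FS (mrel0 h.bs) W.z fp1 a c d) : False := by
  have hf := hit01 (by decide) hf
  have hs := hn1 hf rfl
  by_cases ic : u = c
  · subst ic
    exact c20_13_3 h nd hr hf hq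
  exact c20_13_n h (nd_snoc nd (nin5 hs.1 hs.2.1 hs.2.2.1 ic hs.2.2.2)) hr hf hq

theorem P20_14 {V : Type} {W : Mw V} (h : W.Hy) {a b c d u w : V} (nd : [W.z, a, b, c, d].Nodup)
    (hr : Hit (mrel0 h.bs) (pt [a, b, c, d] W.z) rf20)
    (hf : Hit (mrel0 h.bs) (v6 W.z u w a b d) f14) (hq : ¬ FS (mrel0 h.bs) W.z fp1 a c d) : False := by
  have hs := hn2 hf rfl
  by_cases ic : u = c
  · subst ic
    exact c20_14_3_n h (nd_snoc nd (nin5 hs.2.2.1 hs.2.2.2.1 hs.2.2.2.2.1 hs.1.symm hs.2.2.2.2.2)) hr hf hq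
  by_cases jc : w = c
  · subst jc
    exact c20_14_n_3 h (nd_snoc nd (nin5 hs.2.1.1 hs.2.1.2.1 hs.2.1.2.2.1 hs.1 hs.2.1.2.2.2)) hr hf hq
  exact c20_14_n_n h (nd_snoc (nd_snoc nd (nin5 hs.2.1.1 hs.2.1.2.1 hs.2.1.2.2.1 ic hs.2.1.2.2.2)) (nin6 hs.2.2.1 hs.2.2.2.1 hs.2.2.2.2.1 jc hs.2.2.2.2.2 hs.1.symm)) hr hf hq

theorem P20_15 {V : Type} {W : Mw V} (h : W.Hy) {a b c d u w : V} (nd : [W.z, a, b, c, d].Nodup)
    (hr : Hit (mrel0 h.bs) (pt [a, b, c, d] W.z) rf20)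
    (hf : Hit (mrel0 h.bs) (v6 W.z u w a b d) f15) (hq : ¬ FS (mrel0 h.bs) W.z fp1 a c d) : False := by
  have hs := hn2 hf rfl
  by_cases ic : u = c
  · subst ic
    exact c20_15_3_n h (nd_snoc nd (nin5 hs.2.2.1 hs.2.2.2.1 hs.2.2.2.2.1 hs.1.symm hs.2.2.2.2.2)) hr hf hq
  by_cases jc : w = c
  · subst jc
    exact c20_15_n_3 h (nd_snoc nd (nin5 hs.2.1.1 hs.2.1.2.1 hs.2.1.2.2.1 hs.1 hs.2.1.2.2.2)) hr hf hq
  exact c20_15_n_n h (nd_snoc (nd_snoc nd (nin5 hs.2.1.1 hs.2.1.2.1 hs.2.1.2.2.1 ic hs.2.1.2.2.2)) (nin6 hs.2.2.1 hs.2.2.2.1 hs.2.2.2.2.1 jc hs.2.2.2.2.2 hs.1.symm)) hr hf hq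

theorem P20_16 {V : Type} {W : Mw V} (h : W.Hy) {a b c d u w : V} (nd : [W.z, a, b, c, d].Nodup)
    (hr : Hit (mrel0 h.bs) (pt [a, b, c, d] W.z) rf20)
    (hf : Hit (mrel0 h.bs) (v6 W.z u w a b d) f16) (hq : ¬ FS (mrel0 h.bs) W.z fp1 a c d) : False := by
  have hs := hn2 hf rfl
  by_cases ic : u = c
  · subst ic
    exact c20_16_3_n h (nd_snoc nd (nin5 hs.2.2.1 hs.2.2.2.1 hs.2.2.2.2.1 hs.1.symm hs.2.2.2.2.2)) hr hf hq
  by_cases jc : w = c
  · subst jc
    exact c20_16_n_3 h (nd_snoc nd (nin5 hs.2.1.1 hs.2.1.2.1 hs.2.1.2.2.1 hs.1 hs.2.1.2.2.2)) hr hf hq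
  exact c20_16_n_n h (nd_snoc (nd_snoc nd (nin5 hs.2.1.1 hs.2.1.2.1 hs.2.1.2.2.1 ic hs.2.1.2.2.2)) (nin6 hs.2.2.1 hs.2.2.2.1 hs.2.2.2.2.1 jc hs.2.2.2.2.2 hs.1.symm)) hr hf hq

theorem P20_17 {V : Type} {W : Mw V} (h : W.Hy) {a b c d u w : V} (nd : [W.z, a, b, c, d].Nodup)
    (hr : Hit (mrel0 h.bs) (pt [a, b, c, d] W.z) rf20)
    (hf : Hit (mrel0 h.bs) (v6 W.z u w a b d) f17) (hq : ¬ FS (mrel0 h.bs) W.z fp1 a c d) : False := by
  have hs := hn2 hf rfl
  by_cases ic : u = c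
  · subst ic
    exact c20_17_3_n h (nd_snoc nd (nin5 hs.2.2.1 hs.2.2.2.1 hs.2.2.2.2.1 hs.1.symm hs.2.2.2.2.2)) hr hf hq
  by_cases jc : w = c
  · subst jc
    exact c20_17_n_3 h (nd_snoc nd (nin5 hs.2.1.1 hs.2.1.2.1 hs.2.1.2.2.1 hs.1 hs.2.1.2.2.2)) hr hf hq
  exact c20_17_n_n h (nd_snoc (nd_snoc nd (nin5 hs.2.1.1 hs.2.1.2.1 hs.2.1.2.2.1 ic hs.2.1.2.2.2)) (nin6 hs.2.2.1 hs.2.2.2.1 hs.2.2.2.2.1 jc hs.2.2.2.2.2 hs.1.symm)) hr hf hq

theorem P20_18 {V : Type} {W : Mw V} (h : W.Hy) {a b c d u w : V} (nd : [W.z, a, b, c, d].Nodup)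
    (hr : Hit (mrel0 h.bs) (pt [a, b, c, d] W.z) rf20)
    (hf : Hit (mrel0 h.bs) (v6 W.z u w a b d) f18) (hq : ¬ FS (mrel0 h.bs) W.z fp1 a c d) : False := by
  have hs := hn2 hf rfl
  by_cases ic : u = c
  · subst ic
    exact c20_18_3_n h (nd_snoc nd (nin5 hs.2.2.1 hs.2.2.2.1 hs.2.2.2.2.1 hs.1.symm hs.2.2.2.2.2)) hr hf hq
  by_cases jc : w = c
  · subst jc
    exact c20_18_n_3 h (nd_snoc nd (nin5 hs.2.1.1 hs.2.1.2.1 hs.2.1.2.2.1 hs.1 hs.2.1.2.2.2)) hr hf hq
  exact c20_18_n_n h (nd_snoc (nd_snoc nd (nin5 hs.2.1.1 hs.2.1.2.1 hs.2.1.2.2.1 ic hs.2.1.2.2.2)) (nin6 hs.2.2.1 hs.2.2.2.1 hs.2.2.2.2.1 jc hs.2.2.2.2.2 hs.1.symm)) hr hf hq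

theorem P20_19 {V : Type} {W : Mw V} (h : W.Hy) {a b c d u w : V} (nd : [W.z, a, b, c, d].Nodup)
    (hr : Hit (mrel0 h.bs) (pt [a, b, c, d] W.z) rf20)
    (hf : Hit (mrel0 h.bs) (v6 W.z u w a b d) f19) (hq : ¬ FS (mrel0 h.bs) W.z fp1 a c d) : False := by
  have hs := hn2 hf rfl
  by_cases ic : u = c
  · subst ic
    exact c20_19_3_n h (nd_snoc nd (nin5 hs.2.2.1 hs.2.2.2.1 hs.2.2.2.2.1 hs.1.symm hs.2.2.2.2.2)) hr hf hq
  by_cases jc : w = c
  · subst jc
    exact c20_19_n_3 h (nd_snoc nd (nin5 hs.2.1.1 hs.2.1.2.1 hs.2.1.2.2.1 hs.1 hs.2.1.2.2.2)) hr hf hq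
  exact c20_19_n_n h (nd_snoc (nd_snoc nd (nin5 hs.2.1.1 hs.2.1.2.1 hs.2.1.2.2.1 ic hs.2.1.2.2.2)) (nin6 hs.2.2.1 hs.2.2.2.1 hs.2.2.2.2.1 jc hs.2.2.2.2.2 hs.1.symm)) hr hf hq

theorem P20_20 {V : Type} {W : Mw V} (h : W.Hy) {a b c d u w : V} (nd : [W.z, a, b, c, d].Nodup)
    (hr : Hit (mrel0 h.bs) (pt [a, b, c, d] W.z) rf20)
    (hf : Hit (mrel0 h.bs) (v6 W.z u w a b d) f20) (hq : ¬ FS (mrel0 h.bs) W.z fp1 a c d) : False := by
  have hs := hn2 hf rfl
  by_cases ic : u = c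
  · subst ic
    exact c20_20_3_n h (nd_snoc nd (nin5 hs.2.2.1 hs.2.2.2.1 hs.2.2.2.2.1 hs.1.symm hs.2.2.2.2.2)) hr hf hq
  by_cases jc : w = c
  · subst jc
    exact c20_20_n_3 h (nd_snoc nd (nin5 hs.2.1.1 hs.2.1.2.1 hs.2.1.2.2.1 hs.1 hs.2.1.2.2.2)) hr hf hq
  exact c20_20_n_n h (nd_snoc (nd_snoc nd (nin5 hs.2.1.1 hs.2.1.2.1 hs.2.1.2.2.1 ic hs.2.1.2.2.2)) (nin6 hs.2.2.1 hs.2.2.2.1 hs.2.2.2.2.1 jc hs.2.2.2.2.2 hs.1.symm)) hr hf hq

theorem R20 {V : Type} {W : Mw V} (h : W.Hy) {a b c d : V} (nd : [W.z, a, b, c, d].Nodup)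
    (hr : Hit (mrel0 h.bs) (pt [a, b, c, d] W.z) rf20)
    (hp : FS (mrel0 h.bs) W.z fp2 a b d) : FS (mrel0 h.bs) W.z fp1 a c d := by
  by_contra hq
  obtain ⟨t, ht, u, w, hf⟩ := hp
  simp only [fp2, List.mem_cons, List.not_mem_nil, or_false] at ht
  rcases ht with rfl | rfl | rfl | rfl | rfl | rfl | rfl | rfl | rfl | rfl | rfl | rfl | rfl | rfl
  · exact P20_1 h nd hr hf hq
  · exact P20_6 h nd hr hf hq
  · exact P20_7 h nd hr hf hq
  · exact P20_10 h nd hr hf hq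
  · exact P20_11 h nd hr hf hq
  · exact P20_12 h nd hr hf hq
  · exact P20_13 h nd hr hf hq
  · exact P20_14 h nd hr hf hq
  · exact P20_15 h nd hr hf hq
  · exact P20_16 h nd hr hf hq
  · exact P20_17 h nd hr hf hq
  · exact P20_18 h nd hr hf hq
  · exact P20_19 h nd hr hf hq
  · exact P20_20 h nd hr hf hq

end Pool.Agent.SOU
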