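import Pool.Agent.SOU.TB

/-! Project SOU (MP_66ba69_lc, mixed insertion): rule 21 (generated). -/

set_option autoImplicit false
set_option maxRecDepth 100000
set_option linter.unusedVariables false

namespace Pool.Agent.SOU

open Pool.Agent.RUP Pool.Agent.SOQ

def c21_0_p0 : List Nat := [
0x6b10000000950000000930000000ad00000008f00000009f00000009100000009b00000009d000000097000000099000b00]

def c21_0_pf : List Nat := c21_0_p0

theorem c21_0_ref {V : Type} {S : SRel V} {p : Nat → V} (hp : ∀ i j, i < 5 → j < 5 → p i = p j → i = j)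
    (hts : PHs S p 5 (mA ++ (gf (fun x => 8 + cr 4 x) rf21 ++ (gf (fun x => 8 + c6 0 0 1 3 4 x) f0 ++ fp2.map (tren (n6 1 2 4)))))) : False :=
  refuteS (k := 5) (n2 := 3) (n3 := 1) (n4 := 3) (o3 := 45) (o4 := 80) (M := 440) (mA ++ (gf (fun x => 8 + cr 4 x) rf21 ++ (gf (fun x => 8 + c6 0 0 1 3 4 x) f0 ++ fp2.map (tren (n6 1 2 4))))) c21_0_pf (by decide +kernel)
    (by decide +kernel) (by decide +kernel) (by decide +kernel) hp hts

theorem c21_0 {V : Type} {W : Mw V} (h : W.Hy) {a b c d : V} (nd : [W.z, a, b, c, d].Nodup)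
    (hr : Hit (mrel0 h.bs) (pt [a, b, c, d] W.z) rf21)
    (hf : Hit (mrel0 h.bs) (v6 W.z W.z W.z a c d) f0)
    (hq : ¬ FS (mrel0 h.bs) W.z fp2 a b d) : False :=
  c21_0_ref (pt_inj (o := W.z) nd rfl) (PHs.app (h.ph rfl _) (PHs.app (gf_ph hr (cr 4) (cr_pt (n := 4) (l := [a, b, c, d]) (l' := []) rfl)) (PHs.app (gf_ph hf (c6 0 0 1 3 4) (c6_v6 rfl rfl rfl rfl rfl rfl)) (nf_ph hq (ia := 1) (ib := 2) (ic := 4) rfl rfl rfl rfl))))

def c21_2_n_p0 : List Nat := [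
0x6ac50000000a300000009500000009300000008f00000009f00000009100000009d0000000970000000990000000a90000000b30000000b1000d00]

def c21_2_n_pf : List Nat := c21_2_n_p0

theorem c21_2_n_ref {V : Type} {S : SRel V} {p : Nat → V} (hp : ∀ i j, i < 6 → j < 6 → p i = p j → i = j)
    (hts : PHs S p 6 (mA ++ (gf (fun x => 8 + cr 4 x) rf21 ++ (gf (fun x => 8 + c6 5 0 1 3 4 x) f2 ++ fp2.map (tren (n6 1 2 4)))))) : False :=
  refuteS (k := 6) (n2 := 3) (n3 := 1) (n4 := 3) (o3 := 63) (o4 := 119) (M := 812) (mA ++ (gf (fun x => 8 + cr 4 x) rf21 ++ (gf (fun x => 8 + c6 5 0 1 3 4 x) f2 ++ fp2.map (tren (n6 1 2 4))))) c21_2_n_pf (by decide +kernel)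
    (by decide +kernel) (by decide +kernel) (by decide +kernel) hp hts

theorem c21_2_n {V : Type} {W : Mw V} (h : W.Hy) {a b c d u : V} (nd : [W.z, a, b, c, d, u].Nodup)
    (hr : Hit (mrel0 h.bs) (pt [a, b, c, d] W.z) rf21)
    (hf : Hit (mrel0 h.bs) (v6 W.z u W.z a c d) f2)
    (hq : ¬ FS (mrel0 h.bs) W.z fp2 a b d) : False :=
  c21_2_n_ref (pt_inj (o := W.z) nd rfl) (PHs.app (h.ph rfl _) (PHs.app (gf_ph hr (cr 4) (cr_pt (n := 4) (l := [a, b, c, d]) (l' := [u]) rfl)) (PHs.app (gf_ph hf (c6 5 0 1 3 4) (c6_v6 rfl rfl rfl rfl rfl rfl)) (nf_ph hq (ia := 1) (ib := 2) (ic := 4) rfl rfl rfl rfl))))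

def c21_2_2_p0 : List Nat := [
0xa3000000091000200]

def c21_2_2_pf : List Nat := c21_2_2_p0

theorem c21_2_2_ref {V : Type} {S : SRel V} {p : Nat → V} (hp : ∀ i j, i < 5 → j < 5 → p i = p j → i = j)
    (hts : PHs S p 5 (mA ++ (gf (fun x => 8 + cr 4 x) rf21 ++ (gf (fun x => 8 + c6 2 0 1 3 4 x) f2 ++ fp2.map (tren (n6 1 2 4)))))) : False :=
  refuteS (k := 5) (n2 := 3) (n3 := 1) (n4 := 3) (o3 := 45) (o4 := 80) (M := 440) (mA ++ (gf (fun x => 8 + cr 4 x) rf21 ++ (gf (fun x => 8 + c6 2 0 1 3 4 x) f2 ++ fp2.map (tren (n6 1 2 4))))) c21_2_2_pf (by decide +kernel)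
    (by decide +kernel) (by decide +kernel) (by decide +kernel) hp hts

theorem c21_2_2 {V : Type} {W : Mw V} (h : W.Hy) {a b c d : V} (nd : [W.z, a, b, c, d].Nodup)
    (hr : Hit (mrel0 h.bs) (pt [a, b, c, d] W.z) rf21)
    (hf : Hit (mrel0 h.bs) (v6 W.z b W.z a c d) f2)
    (hq : ¬ FS (mrel0 h.bs) W.z fp2 a b d) : False :=
  c21_2_2_ref (pt_inj (o := W.z) nd rfl) (PHs.app (h.ph rfl _) (PHs.app (gf_ph hr (cr 4) (cr_pt (n := 4) (l := [a, b, c, d]) (l' := []) rfl)) (PHs.app (gf_ph hf (c6 2 0 1 3 4) (c6_v6 rfl rfl rfl rfl rfl rfl)) (nf_ph hq (ia := 1) (ib := 2) (ic := 4) rfl rfl rfl rfl))))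

def c21_3_n_p0 : List Nat := [
0x6a82d0000000a50000000950000000930000000b3002d000501,
0xab70000000a50000000b100000009500000008f00000009f00000009100000009d0000000020000000970000000ab000b00]

def c21_3_n_pf : List Nat := c21_3_n_p0

theorem c21_3_n_ref {V : Type} {S : SRel V} {p : Nat → V} (hp : ∀ i j, i < 6 → j < 6 → p i = p j → i = j)
    (hts : PHs S p 6 (mA ++ (gf (fun x => 8 + cr 4 x) rf21 ++ (gf (fun x => 8 + c6 5 0 1 3 4 x) f3 ++ fp2.map (tren (n6 1 2 4)))))) : False :=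
  refuteS (k := 6) (n2 := 3) (n3 := 1) (n4 := 3) (o3 := 63) (o4 := 119) (M := 812) (mA ++ (gf (fun x => 8 + cr 4 x) rf21 ++ (gf (fun x => 8 + c6 5 0 1 3 4 x) f3 ++ fp2.map (tren (n6 1 2 4))))) c21_3_n_pf (by decide +kernel)
    (by decide +kernel) (by decide +kernel) (by decide +kernel) hp hts

theorem c21_3_n {V : Type} {W : Mw V} (h : W.Hy) {a b c d u : V} (nd : [W.z, a, b, c, d, u].Nodup)
    (hr : Hit (mrel0 h.bs) (pt [a, b, c, d] W.z) rf21)
    (hf : Hit (mrel0 h.bs) (v6 W.z u W.z a c d) f3)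
    (hq : ¬ FS (mrel0 h.bs) W.z fp2 a b d) : False :=
  c21_3_n_ref (pt_inj (o := W.z) nd rfl) (PHs.app (h.ph rfl _) (PHs.app (gf_ph hr (cr 4) (cr_pt (n := 4) (l := [a, b, c, d]) (l' := [u]) rfl)) (PHs.app (gf_ph hf (c6 5 0 1 3 4) (c6_v6 rfl rfl rfl rfl rfl rfl)) (nf_ph hq (ia := 1) (ib := 2) (ic := 4) rfl rfl rfl rfl))))

def c21_3_2_p0 : List Nat := [
0xa5000000091000200]

def c21_3_2_pf : List Nat := c21_3_2_p0

theorem c21_3_2_ref {V : Type} {S : SRel V} {p : Nat → V} (hp : ∀ i j, i < 5 → j < 5 → p i = p j → i = j)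
    (hts : PHs S p 5 (mA ++ (gf (fun x => 8 + cr 4 x) rf21 ++ (gf (fun x => 8 + c6 2 0 1 3 4 x) f3 ++ fp2.map (tren (n6 1 2 4)))))) : False :=
  refuteS (k := 5) (n2 := 3) (n3 := 1) (n4 := 3) (o3 := 45) (o4 := 80) (M := 440) (mA ++ (gf (fun x => 8 + cr 4 x) rf21 ++ (gf (fun x => 8 + c6 2 0 1 3 4 x) f3 ++ fp2.map (tren (n6 1 2 4))))) c21_3_2_pf (by decide +kernel)
    (by decide +kernel) (by decide +kernel) (by decide +kernel) hp hts

theorem c21_3_2 {V : Type} {W : Mw V} (h : W.Hy) {a b c d : V} (nd : [W.z, a, b, c, d].Nodup)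
    (hr : Hit (mrel0 h.bs) (pt [a, b, c, d] W.z) rf21)
    (hf : Hit (mrel0 h.bs) (v6 W.z b W.z a c d) f3)
    (hq : ¬ FS (mrel0 h.bs) W.z fp2 a b d) : False :=
  c21_3_2_ref (pt_inj (o := W.z) nd rfl) (PHs.app (h.ph rfl _) (PHs.app (gf_ph hr (cr 4) (cr_pt (n := 4) (l := [a, b, c, d]) (l' := []) rfl)) (PHs.app (gf_ph hf (c6 2 0 1 3 4) (c6_v6 rfl rfl rfl rfl rfl rfl)) (nf_ph hq (ia := 1) (ib := 2) (ic := 4) rfl rfl rfl rfl))))

def c21_4_n_p0 : List Nat := [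
0x8640b00000009300000009100000009504bd000401,
0x682400700000000200000009700d4000301,
0xa640b0000000930000000910000000a705ad000401,
0xa6240070000000040000000060218000301,
0xa6c30000000a700000009500000009300000008f00000009f00000009100000009d0000000990000000b10000000080000000ab0000000b3000d00]

def c21_4_n_pf : List Nat := c21_4_n_p0

theorem c21_4_n_ref {V : Type} {S : SRel V} {p : Nat → V} (hp : ∀ i j, i < 6 → j < 6 → p i = p j → i = j)
    (hts : PHs S p 6 (mA ++ (gf (fun x => 8 + cr 4 x) rf21 ++ (gf (fun x => 8 + c6 5 0 1 3 4 x) f4 ++ fp2.map (tren (n6 1 2 4)))))) : False :=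
  refuteS (k := 6) (n2 := 3) (n3 := 1) (n4 := 3) (o3 := 63) (o4 := 119) (M := 812) (mA ++ (gf (fun x => 8 + cr 4 x) rf21 ++ (gf (fun x => 8 + c6 5 0 1 3 4 x) f4 ++ fp2.map (tren (n6 1 2 4))))) c21_4_n_pf (by decide +kernel)
    (by decide +kernel) (by decide +kernel) (by decide +kernel) hp hts

theorem c21_4_n {V : Type} {W : Mw V} (h : W.Hy) {a b c d u : V} (nd : [W.z, a, b, c, d, u].Nodup)
    (hr : Hit (mrel0 h.bs) (pt [a, b, c, d] W.z) rf21)
    (hf : Hit (mrel0 h.bs) (v6 W.z u W.z a c d) f4)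
    (hq : ¬ FS (mrel0 h.bs) W.z fp2 a b d) : False :=
  c21_4_n_ref (pt_inj (o := W.z) nd rfl) (PHs.app (h.ph rfl _) (PHs.app (gf_ph hr (cr 4) (cr_pt (n := 4) (l := [a, b, c, d]) (l' := [u]) rfl)) (PHs.app (gf_ph hf (c6 5 0 1 3 4) (c6_v6 rfl rfl rfl rfl rfl rfl)) (nf_ph hq (ia := 1) (ib := 2) (ic := 4) rfl rfl rfl rfl))))

def c21_4_2_p0 : List Nat := [
0xa7000000091000200]

def c21_4_2_pf : List Nat := c21_4_2_p0

theorem c21_4_2_ref {V : Type} {S : SRel V} {p : Nat → V} (hp : ∀ i j, i < 5 → j < 5 → p i = p j → i = j)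
    (hts : PHs S p 5 (mA ++ (gf (fun x => 8 + cr 4 x) rf21 ++ (gf (fun x => 8 + c6 2 0 1 3 4 x) f4 ++ fp2.map (tren (n6 1 2 4)))))) : False :=
  refuteS (k := 5) (n2 := 3) (n3 := 1) (n4 := 3) (o3 := 45) (o4 := 80) (M := 440) (mA ++ (gf (fun x => 8 + cr 4 x) rf21 ++ (gf (fun x => 8 + c6 2 0 1 3 4 x) f4 ++ fp2.map (tren (n6 1 2 4))))) c21_4_2_pf (by decide +kernel)
    (by decide +kernel) (by decide +kernel) (by decide +kernel) hp hts

theorem c21_4_2 {V : Type} {W : Mw V} (h : W.Hy) {a b c d : V} (nd : [W.z, a, b, c, d].Nodup)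
    (hr : Hit (mrel0 h.bs) (pt [a, b, c, d] W.z) rf21)
    (hf : Hit (mrel0 h.bs) (v6 W.z b W.z a c d) f4)
    (hq : ¬ FS (mrel0 h.bs) W.z fp2 a b d) : False :=
  c21_4_2_ref (pt_inj (o := W.z) nd rfl) (PHs.app (h.ph rfl _) (PHs.app (gf_ph hr (cr 4) (cr_pt (n := 4) (l := [a, b, c, d]) (l' := []) rfl)) (PHs.app (gf_ph hf (c6 2 0 1 3 4) (c6_v6 rfl rfl rfl rfl rfl rfl)) (nf_ph hq (ia := 1) (ib := 2) (ic := 4) rfl rfl rfl rfl))))

def c21_5_n_p0 : List Nat := [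
0xa6c50000000a500000009500000009300000008f00000009f00000009100000009d0000000970000000ab0000000a90000000b10000000b3000d00]

def c21_5_n_pf : List Nat := c21_5_n_p0

theorem c21_5_n_ref {V : Type} {S : SRel V} {p : Nat → V} (hp : ∀ i j, i < 6 → j < 6 → p i = p j → i = j)
    (hts : PHs S p 6 (mA ++ (gf (fun x => 8 + cr 4 x) rf21 ++ (gf (fun x => 8 + c6 5 0 1 3 4 x) f5 ++ fp2.map (tren (n6 1 2 4)))))) : False :=
  refuteS (k := 6) (n2 := 3) (n3 := 1) (n4 := 3) (o3 := 63) (o4 := 119) (M := 812) (mA ++ (gf (fun x => 8 + cr 4 x) rf21 ++ (gf (fun x => 8 + c6 5 0 1 3 4 x) f5 ++ fp2.map (tren (n6 1 2 4))))) c21_5_n_pf (by decide +kernel)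
    (by decide +kernel) (by decide +kernel) (by decide +kernel) hp hts

theorem c21_5_n {V : Type} {W : Mw V} (h : W.Hy) {a b c d u : V} (nd : [W.z, a, b, c, d, u].Nodup)
    (hr : Hit (mrel0 h.bs) (pt [a, b, c, d] W.z) rf21)
    (hf : Hit (mrel0 h.bs) (v6 W.z u W.z a c d) f5)
    (hq : ¬ FS (mrel0 h.bs) W.z fp2 a b d) : False :=
  c21_5_n_ref (pt_inj (o := W.z) nd rfl) (PHs.app (h.ph rfl _) (PHs.app (gf_ph hr (cr 4) (cr_pt (n := 4) (l := [a, b, c, d]) (l' := [u]) rfl)) (PHs.app (gf_ph hf (c6 5 0 1 3 4) (c6_v6 rfl rfl rfl rfl rfl rfl)) (nf_ph hq (ia := 1) (ib := 2) (ic := 4) rfl rfl rfl rfl))))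

def c21_5_2_p0 : List Nat := [
0xa5000000091000200]

def c21_5_2_pf : List Nat := c21_5_2_p0

theorem c21_5_2_ref {V : Type} {S : SRel V} {p : Nat → V} (hp : ∀ i j, i < 5 → j < 5 → p i = p j → i = j)
    (hts : PHs S p 5 (mA ++ (gf (fun x => 8 + cr 4 x) rf21 ++ (gf (fun x => 8 + c6 2 0 1 3 4 x) f5 ++ fp2.map (tren (n6 1 2 4)))))) : False :=
  refuteS (k := 5) (n2 := 3) (n3 := 1) (n4 := 3) (o3 := 45) (o4 := 80) (M := 440) (mA ++ (gf (fun x => 8 + cr 4 x) rf21 ++ (gf (fun x => 8 + c6 2 0 1 3 4 x) f5 ++ fp2.map (tren (n6 1 2 4))))) c21_5_2_pf (by decide +kernel)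
    (by decide +kernel) (by decide +kernel) (by decide +kernel) hp hts

theorem c21_5_2 {V : Type} {W : Mw V} (h : W.Hy) {a b c d : V} (nd : [W.z, a, b, c, d].Nodup)
    (hr : Hit (mrel0 h.bs) (pt [a, b, c, d] W.z) rf21)
    (hf : Hit (mrel0 h.bs) (v6 W.z b W.z a c d) f5)
    (hq : ¬ FS (mrel0 h.bs) W.z fp2 a b d) : False :=
  c21_5_2_ref (pt_inj (o := W.z) nd rfl) (PHs.app (h.ph rfl _) (PHs.app (gf_ph hr (cr 4) (cr_pt (n := 4) (l := [a, b, c, d]) (l' := []) rfl)) (PHs.app (gf_ph hf (c6 2 0 1 3 4) (c6_v6 rfl rfl rfl rfl rfl rfl)) (nf_ph hq (ia := 1) (ib := 2) (ic := 4) rfl rfl rfl rfl))))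

def c21_8_n_p0 : List Nat := [
0x8640b00000009300000009100000009504bd000401,
0x8420030000000970490000201,
0x682400700000000200000009700d4000301,
0x286003000000099045d000201,
0x84062070000000060000000080176000301,
0xa460d0000000930000000910000000a10580000401,
0x8a20030000000a9052c000201,
0x4a820070000000040000000a90245000301,
0xa40820700000009700000000e0263000301,
0x620a40700000000c0000000100257000301,
0x4a8203000000012055f000201,
0xa62840700000000a000000016029c000301,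
0xa6841b00000001805c9000201,
0x2a461d0000000b10554000201,
0x6b700000009500000009300000008f00000009f00000009100000009b00000009d0000000970000000990015000a01,
0xabb00000009500000008f00000009f00000009100000009d0000000a10000000970000000a905ea000901,
0xabd00000009500000008f00000009f00000009100000009d0000000b30000000a10000000970000000a90033000a01,
0xa4621f00000001e00000001c0000000140000000220285000501,
0xa4821f00000002000000001200000009d0000000220234000501,
0x62a842500000001a000000026000000024000400]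

def c21_8_n_pf : List Nat := c21_8_n_p0

theorem c21_8_n_ref {V : Type} {S : SRel V} {p : Nat → V} (hp : ∀ i j, i < 6 → j < 6 → p i = p j → i = j)
    (hts : PHs S p 6 (mA ++ (gf (fun x => 8 + cr 4 x) rf21 ++ (gf (fun x => 8 + c6 5 0 1 3 4 x) f8 ++ fp2.map (tren (n6 1 2 4)))))) : False :=
  refuteS (k := 6) (n2 := 3) (n3 := 1) (n4 := 3) (o3 := 63) (o4 := 119) (M := 812) (mA ++ (gf (fun x => 8 + cr 4 x) rf21 ++ (gf (fun x => 8 + c6 5 0 1 3 4 x) f8 ++ fp2.map (tren (n6 1 2 4))))) c21_8_n_pf (by decide +kernel)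
    (by decide +kernel) (by decide +kernel) (by decide +kernel) hp hts

theorem c21_8_n {V : Type} {W : Mw V} (h : W.Hy) {a b c d u : V} (nd : [W.z, a, b, c, d, u].Nodup)
    (hr : Hit (mrel0 h.bs) (pt [a, b, c, d] W.z) rf21)
    (hf : Hit (mrel0 h.bs) (v6 W.z u W.z a c d) f8)
    (hq : ¬ FS (mrel0 h.bs) W.z fp2 a b d) : False :=
  c21_8_n_ref (pt_inj (o := W.z) nd rfl) (PHs.app (h.ph rfl _) (PHs.app (gf_ph hr (cr 4) (cr_pt (n := 4) (l := [a, b, c, d]) (l' := [u]) rfl)) (PHs.app (gf_ph hf (c6 5 0 1 3 4) (c6_v6 rfl rfl rfl rfl rfl rfl)) (nf_ph hq (ia := 1) (ib := 2) (ic := 4) rfl rfl rfl rfl))))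

def c21_8_2_p0 : List Nat := [
0x84200300000009702f5000201,
0xa9000000002000200]

def c21_8_2_pf : List Nat := c21_8_2_p0

theorem c21_8_2_ref {V : Type} {S : SRel V} {p : Nat → V} (hp : ∀ i j, i < 5 → j < 5 → p i = p j → i = j)
    (hts : PHs S p 5 (mA ++ (gf (fun x => 8 + cr 4 x) rf21 ++ (gf (fun x => 8 + c6 2 0 1 3 4 x) f8 ++ fp2.map (tren (n6 1 2 4)))))) : False :=
  refuteS (k := 5) (n2 := 3) (n3 := 1) (n4 := 3) (o3 := 45) (o4 := 80) (M := 440) (mA ++ (gf (fun x => 8 + cr 4 x) rf21 ++ (gf (fun x => 8 + c6 2 0 1 3 4 x) f8 ++ fp2.map (tren (n6 1 2 4))))) c21_8_2_pf (by decide +kernel)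
    (by decide +kernel) (by decide +kernel) (by decide +kernel) hp hts

theorem c21_8_2 {V : Type} {W : Mw V} (h : W.Hy) {a b c d : V} (nd : [W.z, a, b, c, d].Nodup)
    (hr : Hit (mrel0 h.bs) (pt [a, b, c, d] W.z) rf21)
    (hf : Hit (mrel0 h.bs) (v6 W.z b W.z a c d) f8)
    (hq : ¬ FS (mrel0 h.bs) W.z fp2 a b d) : False :=
  c21_8_2_ref (pt_inj (o := W.z) nd rfl) (PHs.app (h.ph rfl _) (PHs.app (gf_ph hr (cr 4) (cr_pt (n := 4) (l := [a, b, c, d]) (l' := []) rfl)) (PHs.app (gf_ph hf (c6 2 0 1 3 4) (c6_v6 rfl rfl rfl rfl rfl rfl)) (nf_ph hq (ia := 1) (ib := 2) (ic := 4) rfl rfl rfl rfl))))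

def c21_9_n_p0 : List Nat := [
0x8640b00000009300000009100000009504bd000401,
0x8420030000000970490000201,
0x682400700000000200000009700d4000301,
0x286003000000099045d000201,
0x84062070000000060000000080176000301,
0x84621b00000000a04a3000201,
0xa260d00000009300000008f0000000a1054d000401,
0xa460d0000000930000000910000000a10580000401,
0xa82600700000009900000000e02c3000301,
0x8a20030000000a9052c000201,
0x4a820070000000040000000a90245000301,
0xa4082070000000970000000140263000301,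
0x620a4070000000100000000160257000301,
0x4a8203000000018055f000201,
0xa4621b00000001a0584000201,
0xa62840700000000a00000001c029c000301,
0x8a261d0000000b10036000201,
0x4a8622500000000c0000000b10560000301,
0x48a262500000001e0000000b10596000301,
0xab900000009500000008f00000009f00000009100000009d0000000a10000000970000000a905ea000901,
0x462a8230000000b100000002805f6000301,
0xa4821f00000002400000001800000009d000000028035f000501,
0xa6841f00000002200000002600000002000000002a0350000501,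
0x6a4170000000220000000930000000a100000009f00000009100000002c0018000701,
0x8642a7d0000000950000000b100000009300000008f0000000910000000a90000000a100000009700000001200000002e000000030000c00]

def c21_9_n_pf : List Nat := c21_9_n_p0

theorem c21_9_n_ref {V : Type} {S : SRel V} {p : Nat → V} (hp : ∀ i j, i < 6 → j < 6 → p i = p j → i = j)
    (hts : PHs S p 6 (mA ++ (gf (fun x => 8 + cr 4 x) rf21 ++ (gf (fun x => 8 + c6 5 0 1 3 4 x) f9 ++ fp2.map (tren (n6 1 2 4)))))) : False :=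
  refuteS (k := 6) (n2 := 3) (n3 := 1) (n4 := 3) (o3 := 63) (o4 := 119) (M := 812) (mA ++ (gf (fun x => 8 + cr 4 x) rf21 ++ (gf (fun x => 8 + c6 5 0 1 3 4 x) f9 ++ fp2.map (tren (n6 1 2 4))))) c21_9_n_pf (by decide +kernel)
    (by decide +kernel) (by decide +kernel) (by decide +kernel) hp hts

theorem c21_9_n {V : Type} {W : Mw V} (h : W.Hy) {a b c d u : V} (nd : [W.z, a, b, c, d, u].Nodup)
    (hr : Hit (mrel0 h.bs) (pt [a, b, c, d] W.z) rf21)
    (hf : Hit (mrel0 h.bs) (v6 W.z u W.z a c d) f9)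
    (hq : ¬ FS (mrel0 h.bs) W.z fp2 a b d) : False :=
  c21_9_n_ref (pt_inj (o := W.z) nd rfl) (PHs.app (h.ph rfl _) (PHs.app (gf_ph hr (cr 4) (cr_pt (n := 4) (l := [a, b, c, d]) (l' := [u]) rfl)) (PHs.app (gf_ph hf (c6 5 0 1 3 4) (c6_v6 rfl rfl rfl rfl rfl rfl)) (nf_ph hq (ia := 1) (ib := 2) (ic := 4) rfl rfl rfl rfl))))

def c21_9_2_p0 : List Nat := [
0x84200300000009702f5000201,
0xa9000000002000200]

def c21_9_2_pf : List Nat := c21_9_2_p0

theorem c21_9_2_ref {V : Type} {S : SRel V} {p : Nat → V} (hp : ∀ i j, i < 5 → j < 5 → p i = p j → i = j)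
    (hts : PHs S p 5 (mA ++ (gf (fun x => 8 + cr 4 x) rf21 ++ (gf (fun x => 8 + c6 2 0 1 3 4 x) f9 ++ fp2.map (tren (n6 1 2 4)))))) : False :=
  refuteS (k := 5) (n2 := 3) (n3 := 1) (n4 := 3) (o3 := 45) (o4 := 80) (M := 440) (mA ++ (gf (fun x => 8 + cr 4 x) rf21 ++ (gf (fun x => 8 + c6 2 0 1 3 4 x) f9 ++ fp2.map (tren (n6 1 2 4))))) c21_9_2_pf (by decide +kernel)
    (by decide +kernel) (by decide +kernel) (by decide +kernel) hp hts

theorem c21_9_2 {V : Type} {W : Mw V} (h : W.Hy) {a b c d : V} (nd : [W.z, a, b, c, d].Nodup)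
    (hr : Hit (mrel0 h.bs) (pt [a, b, c, d] W.z) rf21)
    (hf : Hit (mrel0 h.bs) (v6 W.z b W.z a c d) f9)
    (hq : ¬ FS (mrel0 h.bs) W.z fp2 a b d) : False :=
  c21_9_2_ref (pt_inj (o := W.z) nd rfl) (PHs.app (h.ph rfl _) (PHs.app (gf_ph hr (cr 4) (cr_pt (n := 4) (l := [a, b, c, d]) (l' := []) rfl)) (PHs.app (gf_ph hf (c6 2 0 1 3 4) (c6_v6 rfl rfl rfl rfl rfl rfl)) (nf_ph hq (ia := 1) (ib := 2) (ic := 4) rfl rfl rfl rfl))))

theorem P21_0 {V : Type} {W : Mw V} (h : W.Hy) {a b c d u w : V} (nd : [W.z, a, b, c, d].Nodup)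
    (hr : Hit (mrel0 h.bs) (pt [a, b, c, d] W.z) rf21)
    (hf : Hit (mrel0 h.bs) (v6 W.z u w a c d) f0) (hq : ¬ FS (mrel0 h.bs) W.z fp2 a b d) : False := by
  exact c21_0 h nd hr (hit00 (by decide) hf) hq

theorem P21_2 {V : Type} {W : Mw V} (h : W.Hy) {a b c d u w : V} (nd : [W.z, a, b, c, d].Nodup)
    (hr : Hit (mrel0 h.bs) (pt [a, b, c, d] W.z) rf21)
    (hf : Hit (mrel0 h.bs) (v6 W.z u w a c d) f2) (hq : ¬ FS (mrel0 h.bs) W.z fp2 a b d) : False := by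
  have hf := hit01 (by decide) hf
  have hs := hn1 hf rfl
  by_cases ib : u = b
  · subst ib
    exact c21_2_2 h nd hr hf hq
  exact c21_2_n h (nd_snoc nd (nin5 hs.1 hs.2.1 ib hs.2.2.1 hs.2.2.2)) hr hf hq

theorem P21_3 {V : Type} {W : Mw V} (h : W.Hy) {a b c d u w : V} (nd : [W.z, a, b, c, d].Nodup)
    (hr : Hit (mrel0 h.bs) (pt [a, b, c, d] W.z) rf21)
    (hf : Hit (mrel0 h.bs) (v6 W.z u w a c d) f3) (hq : ¬ FS (mrel0 h.bs) W.z fp2 a b d) : False := by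
  have hf := hit01 (by decide) hf
  have hs := hn1 hf rfl
  by_cases ib : u = b
  · subst ib
    exact c21_3_2 h nd hr hf hq
  exact c21_3_n h (nd_snoc nd (nin5 hs.1 hs.2.1 ib hs.2.2.1 hs.2.2.2)) hr hf hq

theorem P21_4 {V : Type} {W : Mw V} (h : W.Hy) {a b c d u w : V} (nd : [W.z, a, b, c, d].Nodup)
    (hr : Hit (mrel0 h.bs) (pt [a, b, c, d] W.z) rf21)
    (hf : Hit (mrel0 h.bs) (v6 W.z u w a c d) f4) (hq : ¬ FS (mrel0 h.bs) W.z fp2 a b d) : False := by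
  have hf := hit01 (by decide) hf
  have hs := hn1 hf rfl
  by_cases ib : u = b
  · subst ib
    exact c21_4_2 h nd hr hf hq
  exact c21_4_n h (nd_snoc nd (nin5 hs.1 hs.2.1 ib hs.2.2.1 hs.2.2.2)) hr hf hq

theorem P21_5 {V : Type} {W : Mw V} (h : W.Hy) {a b c d u w : V} (nd : [W.z, a, b, c, d].Nodup)
    (hr : Hit (mrel0 h.bs) (pt [a, b, c, d] W.z) rf21)
    (hf : Hit (mrel0 h.bs) (v6 W.z u w a c d) f5) (hq : ¬ FS (mrel0 h.bs) W.z fp2 a b d) : False := by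
  have hf := hit01 (by decide) hf
  have hs := hn1 hf rfl
  by_cases ib : u = b
  · subst ib
    exact c21_5_2 h nd hr hf hq
  exact c21_5_n h (nd_snoc nd (nin5 hs.1 hs.2.1 ib hs.2.2.1 hs.2.2.2)) hr hf hq

theorem P21_8 {V : Type} {W : Mw V} (h : W.Hy) {a b c d u w : V} (nd : [W.z, a, b, c, d].Nodup)
    (hr : Hit (mrel0 h.bs) (pt [a, b, c, d] W.z) rf21)
    (hf : Hit (mrel0 h.bs) (v6 W.z u w a c d) f8) (hq : ¬ FS (mrel0 h.bs) W.z fp2 a b d) : False := by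
  have hf := hit01 (by decide) hf
  have hs := hn1 hf rfl
  by_cases ib : u = b
  · subst ib
    exact c21_8_2 h nd hr hf hq
  exact c21_8_n h (nd_snoc nd (nin5 hs.1 hs.2.1 ib hs.2.2.1 hs.2.2.2)) hr hf hq

theorem P21_9 {V : Type} {W : Mw V} (h : W.Hy) {a b c d u w : V} (nd : [W.z, a, b, c, d].Nodup)
    (hr : Hit (mrel0 h.bs) (pt [a, b, c, d] W.z) rf21)
    (hf : Hit (mrel0 h.bs) (v6 W.z u w a c d) f9) (hq : ¬ FS (mrel0 h.bs) W.z fp2 a b d) : False := by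
  have hf := hit01 (by decide) hf
  have hs := hn1 hf rfl
  by_cases ib : u = b
  · subst ib
    exact c21_9_2 h nd hr hf hq
  exact c21_9_n h (nd_snoc nd (nin5 hs.1 hs.2.1 ib hs.2.2.1 hs.2.2.2)) hr hf hq

theorem R21 {V : Type} {W : Mw V} (h : W.Hy) {a b c d : V} (nd : [W.z, a, b, c, d].Nodup)
    (hr : Hit (mrel0 h.bs) (pt [a, b, c, d] W.z) rf21)
    (hp : FS (mrel0 h.bs) W.z fp1 a c d) : FS (mrel0 h.bs) W.z fp2 a b d := by
  by_contra hq
  obtain ⟨t, ht, u, w, hf⟩ := hp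
  simp only [fp1, List.mem_cons, List.not_mem_nil, or_false] at ht
  rcases ht with rfl | rfl | rfl | rfl | rfl | rfl | rfl
  · exact P21_0 h nd hr hf hq
  · exact P21_2 h nd hr hf hq
  · exact P21_3 h nd hr hf hq
  · exact P21_4 h nd hr hf hq
  · exact P21_5 h nd hr hf hq
  · exact P21_8 h nd hr hf hq
  · exact P21_9 h nd hr hf hq

end Pool.Agent.SOU
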