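import Pool.Agent.SOU.TB

/-! Project SOU (MP_66ba69_lc, mixed insertion): rule 24 (generated). -/

set_option autoImplicit false
set_option maxRecDepth 100000
set_option linter.unusedVariables false

namespace Pool.Agent.SOU

open Pool.Agent.RUP Pool.Agent.SOQ

def c24_1_p0 : List Nat := [
0xb10000000950000000af00000008f00000009b00000009100000009f000000097000800]

def c24_1_pf : List Nat := c24_1_p0

theorem c24_1_ref {V : Type} {S : SRel V} {p : Nat → V} (hp : ∀ i j, i < 5 → j < 5 → p i = p j → i = j)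
    (hts : PHs S p 5 (mA ++ (gf (fun x => 8 + cr 4 x) rf24 ++ (gf (fun x => 8 + c6 0 0 1 2 3 x) f1 ++ fp2.map (tren (n6 1 2 4)))))) : False :=
  refuteS (k := 5) (n2 := 3) (n3 := 1) (n4 := 3) (o3 := 45) (o4 := 80) (M := 440) (mA ++ (gf (fun x => 8 + cr 4 x) rf24 ++ (gf (fun x => 8 + c6 0 0 1 2 3 x) f1 ++ fp2.map (tren (n6 1 2 4))))) c24_1_pf (by decide +kernel)
    (by decide +kernel) (by decide +kernel) (by decide +kernel) hp hts

theorem c24_1 {V : Type} {W : Mw V} (h : W.Hy) {a b c d : V} (nd : [W.z, a, b, c, d].Nodup)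
    (hr : Hit (mrel0 h.bs) (pt [a, b, c, d] W.z) rf24)
    (hf : Hit (mrel0 h.bs) (v6 W.z W.z W.z a b c) f1)
    (hq : ¬ FS (mrel0 h.bs) W.z fp2 a b d) : False :=
  c24_1_ref (pt_inj (o := W.z) nd rfl) (PHs.app (h.ph rfl _) (PHs.app (gf_ph hr (cr 4) (cr_pt (n := 4) (l := [a, b, c, d]) (l' := []) rfl)) (PHs.app (gf_ph hf (c6 0 0 1 2 3) (c6_v6 rfl rfl rfl rfl rfl rfl)) (nf_ph hq (ia := 1) (ib := 2) (ic := 4) rfl rfl rfl rfl))))

def c24_6_n_p0 : List Nat := [
0x286003000000099045d000201,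
0x8a062070000000020000000ad02c6000301,
0xa8620300000000405c5000201,
0xa6082070000000990000000060200000301,
0xab90000000a70000000b500000009500000008f00000009b00000009100000009f0000000b3000000097000000008000b00]

def c24_6_n_pf : List Nat := c24_6_n_p0

theorem c24_6_n_ref {V : Type} {S : SRel V} {p : Nat → V} (hp : ∀ i j, i < 6 → j < 6 → p i = p j → i = j)
    (hts : PHs S p 6 (mA ++ (gf (fun x => 8 + cr 4 x) rf24 ++ (gf (fun x => 8 + c6 5 0 1 2 3 x) f6 ++ fp2.map (tren (n6 1 2 4)))))) : False :=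
  refuteS (k := 6) (n2 := 3) (n3 := 1) (n4 := 3) (o3 := 63) (o4 := 119) (M := 812) (mA ++ (gf (fun x => 8 + cr 4 x) rf24 ++ (gf (fun x => 8 + c6 5 0 1 2 3 x) f6 ++ fp2.map (tren (n6 1 2 4))))) c24_6_n_pf (by decide +kernel)
    (by decide +kernel) (by decide +kernel) (by decide +kernel) hp hts

theorem c24_6_n {V : Type} {W : Mw V} (h : W.Hy) {a b c d u : V} (nd : [W.z, a, b, c, d, u].Nodup)
    (hr : Hit (mrel0 h.bs) (pt [a, b, c, d] W.z) rf24)
    (hf : Hit (mrel0 h.bs) (v6 W.z u W.z a b c) f6)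
    (hq : ¬ FS (mrel0 h.bs) W.z fp2 a b d) : False :=
  c24_6_n_ref (pt_inj (o := W.z) nd rfl) (PHs.app (h.ph rfl _) (PHs.app (gf_ph hr (cr 4) (cr_pt (n := 4) (l := [a, b, c, d]) (l' := [u]) rfl)) (PHs.app (gf_ph hf (c6 5 0 1 2 3) (c6_v6 rfl rfl rfl rfl rfl rfl)) (nf_ph hq (ia := 1) (ib := 2) (ic := 4) rfl rfl rfl rfl))))

def c24_6_4_p0 : List Nat := [
0x28600300000009902c2000201,
0xad000000002000200]

def c24_6_4_pf : List Nat := c24_6_4_p0

theorem c24_6_4_ref {V : Type} {S : SRel V} {p : Nat → V} (hp : ∀ i j, i < 5 → j < 5 → p i = p j → i = j)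
    (hts : PHs S p 5 (mA ++ (gf (fun x => 8 + cr 4 x) rf24 ++ (gf (fun x => 8 + c6 4 0 1 2 3 x) f6 ++ fp2.map (tren (n6 1 2 4)))))) : False :=
  refuteS (k := 5) (n2 := 3) (n3 := 1) (n4 := 3) (o3 := 45) (o4 := 80) (M := 440) (mA ++ (gf (fun x => 8 + cr 4 x) rf24 ++ (gf (fun x => 8 + c6 4 0 1 2 3 x) f6 ++ fp2.map (tren (n6 1 2 4))))) c24_6_4_pf (by decide +kernel)
    (by decide +kernel) (by decide +kernel) (by decide +kernel) hp hts

theorem c24_6_4 {V : Type} {W : Mw V} (h : W.Hy) {a b c d : V} (nd : [W.z, a, b, c, d].Nodup)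
    (hr : Hit (mrel0 h.bs) (pt [a, b, c, d] W.z) rf24)
    (hf : Hit (mrel0 h.bs) (v6 W.z d W.z a b c) f6)
    (hq : ¬ FS (mrel0 h.bs) W.z fp2 a b d) : False :=
  c24_6_4_ref (pt_inj (o := W.z) nd rfl) (PHs.app (h.ph rfl _) (PHs.app (gf_ph hr (cr 4) (cr_pt (n := 4) (l := [a, b, c, d]) (l' := []) rfl)) (PHs.app (gf_ph hf (c6 4 0 1 2 3) (c6_v6 rfl rfl rfl rfl rfl rfl)) (nf_ph hq (ia := 1) (ib := 2) (ic := 4) rfl rfl rfl rfl))))

def c24_7_n_p0 : List Nat := [
0x286003000000099045d000201,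
0x8a062070000000020000000ad02c6000301,
0xa8620300000000405c5000201,
0xa6082070000000990000000060200000301,
0xa4150000000a70000000910000000b5002d000401,
0xab90000000a70000000b300000009500000008f00000009b00000009100000009f00000000a000000097000000008000b00]

def c24_7_n_pf : List Nat := c24_7_n_p0

theorem c24_7_n_ref {V : Type} {S : SRel V} {p : Nat → V} (hp : ∀ i j, i < 6 → j < 6 → p i = p j → i = j)
    (hts : PHs S p 6 (mA ++ (gf (fun x => 8 + cr 4 x) rf24 ++ (gf (fun x => 8 + c6 5 0 1 2 3 x) f7 ++ fp2.map (tren (n6 1 2 4)))))) : False :=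
  refuteS (k := 6) (n2 := 3) (n3 := 1) (n4 := 3) (o3 := 63) (o4 := 119) (M := 812) (mA ++ (gf (fun x => 8 + cr 4 x) rf24 ++ (gf (fun x => 8 + c6 5 0 1 2 3 x) f7 ++ fp2.map (tren (n6 1 2 4))))) c24_7_n_pf (by decide +kernel)
    (by decide +kernel) (by decide +kernel) (by decide +kernel) hp hts

theorem c24_7_n {V : Type} {W : Mw V} (h : W.Hy) {a b c d u : V} (nd : [W.z, a, b, c, d, u].Nodup)
    (hr : Hit (mrel0 h.bs) (pt [a, b, c, d] W.z) rf24)
    (hf : Hit (mrel0 h.bs) (v6 W.z u W.z a b c) f7)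
    (hq : ¬ FS (mrel0 h.bs) W.z fp2 a b d) : False :=
  c24_7_n_ref (pt_inj (o := W.z) nd rfl) (PHs.app (h.ph rfl _) (PHs.app (gf_ph hr (cr 4) (cr_pt (n := 4) (l := [a, b, c, d]) (l' := [u]) rfl)) (PHs.app (gf_ph hf (c6 5 0 1 2 3) (c6_v6 rfl rfl rfl rfl rfl rfl)) (nf_ph hq (ia := 1) (ib := 2) (ic := 4) rfl rfl rfl rfl))))

def c24_7_4_p0 : List Nat := [
0x28600300000009902c2000201,
0xad000000002000200]

def c24_7_4_pf : List Nat := c24_7_4_p0

theorem c24_7_4_ref {V : Type} {S : SRel V} {p : Nat → V} (hp : ∀ i j, i < 5 → j < 5 → p i = p j → i = j)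
    (hts : PHs S p 5 (mA ++ (gf (fun x => 8 + cr 4 x) rf24 ++ (gf (fun x => 8 + c6 4 0 1 2 3 x) f7 ++ fp2.map (tren (n6 1 2 4)))))) : False :=
  refuteS (k := 5) (n2 := 3) (n3 := 1) (n4 := 3) (o3 := 45) (o4 := 80) (M := 440) (mA ++ (gf (fun x => 8 + cr 4 x) rf24 ++ (gf (fun x => 8 + c6 4 0 1 2 3 x) f7 ++ fp2.map (tren (n6 1 2 4))))) c24_7_4_pf (by decide +kernel)
    (by decide +kernel) (by decide +kernel) (by decide +kernel) hp hts

theorem c24_7_4 {V : Type} {W : Mw V} (h : W.Hy) {a b c d : V} (nd : [W.z, a, b, c, d].Nodup)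
    (hr : Hit (mrel0 h.bs) (pt [a, b, c, d] W.z) rf24)
    (hf : Hit (mrel0 h.bs) (v6 W.z d W.z a b c) f7)
    (hq : ¬ FS (mrel0 h.bs) W.z fp2 a b d) : False :=
  c24_7_4_ref (pt_inj (o := W.z) nd rfl) (PHs.app (h.ph rfl _) (PHs.app (gf_ph hr (cr 4) (cr_pt (n := 4) (l := [a, b, c, d]) (l' := []) rfl)) (PHs.app (gf_ph hf (c6 4 0 1 2 3) (c6_v6 rfl rfl rfl rfl rfl rfl)) (nf_ph hq (ia := 1) (ib := 2) (ic := 4) rfl rfl rfl rfl))))

def c24_10_n_p0 : List Nat := [
0x8620b00000009300000008f00000009504b7000401,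
0x8640b00000009300000009100000009504bd000401,
0x8420030000000970490000201,
0x682400700000000400000009700d4000301,
0x86420070000000020000000060412000301,
0x286003000000099045d000201,
0xa280d00000009500000008f0000000a30559000401,
0xa480d0000000950000000910000000a3058c000401,
0x2a6800700000000c00000000e05c2000301,
0x6a20030000000ab0520000201,
0x4a6200700000000a0000000ab0245000301,
0x8a620070000000020000000ab02b4000301,
0x820a6070000000120000000ab0299000301,
0xa4062070000000080000000140257000301,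
0x820a4070000000100000000160263000301,
0xa6420300000001c05b0000201,
0x482a60700000001a000000020029c000301,
0xa6841b00000002205c9000201,
0x6a241d0000000b30033000201,
0x62a84250000000240000000b30560000301,
0xa4821f00000002600000001e00000009f00000002802be000501,
0xabb00000009500000008f00000009b00000009100000009f0000000a300000009700000001800000002a000a00]

def c24_10_n_pf : List Nat := c24_10_n_p0

theorem c24_10_n_ref {V : Type} {S : SRel V} {p : Nat → V} (hp : ∀ i j, i < 6 → j < 6 → p i = p j → i = j)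
    (hts : PHs S p 6 (mA ++ (gf (fun x => 8 + cr 4 x) rf24 ++ (gf (fun x => 8 + c6 5 0 1 2 3 x) f10 ++ fp2.map (tren (n6 1 2 4)))))) : False :=
  refuteS (k := 6) (n2 := 3) (n3 := 1) (n4 := 3) (o3 := 63) (o4 := 119) (M := 812) (mA ++ (gf (fun x => 8 + cr 4 x) rf24 ++ (gf (fun x => 8 + c6 5 0 1 2 3 x) f10 ++ fp2.map (tren (n6 1 2 4))))) c24_10_n_pf (by decide +kernel)
    (by decide +kernel) (by decide +kernel) (by decide +kernel) hp hts

theorem c24_10_n {V : Type} {W : Mw V} (h : W.Hy) {a b c d u : V} (nd : [W.z, a, b, c, d, u].Nodup)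
    (hr : Hit (mrel0 h.bs) (pt [a, b, c, d] W.z) rf24)
    (hf : Hit (mrel0 h.bs) (v6 W.z u W.z a b c) f10)
    (hq : ¬ FS (mrel0 h.bs) W.z fp2 a b d) : False :=
  c24_10_n_ref (pt_inj (o := W.z) nd rfl) (PHs.app (h.ph rfl _) (PHs.app (gf_ph hr (cr 4) (cr_pt (n := 4) (l := [a, b, c, d]) (l' := [u]) rfl)) (PHs.app (gf_ph hf (c6 5 0 1 2 3) (c6_v6 rfl rfl rfl rfl rfl rfl)) (nf_ph hq (ia := 1) (ib := 2) (ic := 4) rfl rfl rfl rfl))))

def c24_10_4_p0 : List Nat := [
0xa3000000095000200]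

def c24_10_4_pf : List Nat := c24_10_4_p0

theorem c24_10_4_ref {V : Type} {S : SRel V} {p : Nat → V} (hp : ∀ i j, i < 5 → j < 5 → p i = p j → i = j)
    (hts : PHs S p 5 (mA ++ (gf (fun x => 8 + cr 4 x) rf24 ++ (gf (fun x => 8 + c6 4 0 1 2 3 x) f10 ++ fp2.map (tren (n6 1 2 4)))))) : False :=
  refuteS (k := 5) (n2 := 3) (n3 := 1) (n4 := 3) (o3 := 45) (o4 := 80) (M := 440) (mA ++ (gf (fun x => 8 + cr 4 x) rf24 ++ (gf (fun x => 8 + c6 4 0 1 2 3 x) f10 ++ fp2.map (tren (n6 1 2 4))))) c24_10_4_pf (by decide +kernel)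
    (by decide +kernel) (by decide +kernel) (by decide +kernel) hp hts

theorem c24_10_4 {V : Type} {W : Mw V} (h : W.Hy) {a b c d : V} (nd : [W.z, a, b, c, d].Nodup)
    (hr : Hit (mrel0 h.bs) (pt [a, b, c, d] W.z) rf24)
    (hf : Hit (mrel0 h.bs) (v6 W.z d W.z a b c) f10)
    (hq : ¬ FS (mrel0 h.bs) W.z fp2 a b d) : False :=
  c24_10_4_ref (pt_inj (o := W.z) nd rfl) (PHs.app (h.ph rfl _) (PHs.app (gf_ph hr (cr 4) (cr_pt (n := 4) (l := [a, b, c, d]) (l' := []) rfl)) (PHs.app (gf_ph hf (c6 4 0 1 2 3) (c6_v6 rfl rfl rfl rfl rfl rfl)) (nf_ph hq (ia := 1) (ib := 2) (ic := 4) rfl rfl rfl rfl))))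

def c24_11_n_p0 : List Nat := [
0x8620b00000009300000008f00000009504b7000401,
0x286003000000099045d000201,
0xa260d00000009300000008f0000000a3054d000401,
0xa280d00000009500000008f0000000a30559000401,
0xa82600700000009900000000602c3000301,
0x2a6800700000000400000000805c2000301,
0x8a620070000000020000000ab02b4000301,
0x820a60700000000c0000000ab0299000301,
0x6a4170000000b30000000930000000a300000009b0000000910000000b50018000701,
0xabf0000000b300000009500000008f00000009b00000009100000009f0000000a300000009700000000e0365000a01,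
0x2a681d0000000140563000201,
0x864a0f0000000b50000000b30000000950000000930000000910000000a30000000140350000801,
0xa6821f0000000b500000001000000009f00000001602c7000501,
0x8642a7d00000009500000001200000009300000008f00000009100000000e0000000a300000009700000000a00000001800000001a000c00]

def c24_11_n_pf : List Nat := c24_11_n_p0

theorem c24_11_n_ref {V : Type} {S : SRel V} {p : Nat → V} (hp : ∀ i j, i < 6 → j < 6 → p i = p j → i = j)
    (hts : PHs S p 6 (mA ++ (gf (fun x => 8 + cr 4 x) rf24 ++ (gf (fun x => 8 + c6 5 0 1 2 3 x) f11 ++ fp2.map (tren (n6 1 2 4)))))) : False :=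
  refuteS (k := 6) (n2 := 3) (n3 := 1) (n4 := 3) (o3 := 63) (o4 := 119) (M := 812) (mA ++ (gf (fun x => 8 + cr 4 x) rf24 ++ (gf (fun x => 8 + c6 5 0 1 2 3 x) f11 ++ fp2.map (tren (n6 1 2 4))))) c24_11_n_pf (by decide +kernel)
    (by decide +kernel) (by decide +kernel) (by decide +kernel) hp hts

theorem c24_11_n {V : Type} {W : Mw V} (h : W.Hy) {a b c d u : V} (nd : [W.z, a, b, c, d, u].Nodup)
    (hr : Hit (mrel0 h.bs) (pt [a, b, c, d] W.z) rf24)
    (hf : Hit (mrel0 h.bs) (v6 W.z u W.z a b c) f11)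
    (hq : ¬ FS (mrel0 h.bs) W.z fp2 a b d) : False :=
  c24_11_n_ref (pt_inj (o := W.z) nd rfl) (PHs.app (h.ph rfl _) (PHs.app (gf_ph hr (cr 4) (cr_pt (n := 4) (l := [a, b, c, d]) (l' := [u]) rfl)) (PHs.app (gf_ph hf (c6 5 0 1 2 3) (c6_v6 rfl rfl rfl rfl rfl rfl)) (nf_ph hq (ia := 1) (ib := 2) (ic := 4) rfl rfl rfl rfl))))

def c24_11_4_p0 : List Nat := [
0xa3000000095000200]

def c24_11_4_pf : List Nat := c24_11_4_p0

theorem c24_11_4_ref {V : Type} {S : SRel V} {p : Nat → V} (hp : ∀ i j, i < 5 → j < 5 → p i = p j → i = j)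
    (hts : PHs S p 5 (mA ++ (gf (fun x => 8 + cr 4 x) rf24 ++ (gf (fun x => 8 + c6 4 0 1 2 3 x) f11 ++ fp2.map (tren (n6 1 2 4)))))) : False :=
  refuteS (k := 5) (n2 := 3) (n3 := 1) (n4 := 3) (o3 := 45) (o4 := 80) (M := 440) (mA ++ (gf (fun x => 8 + cr 4 x) rf24 ++ (gf (fun x => 8 + c6 4 0 1 2 3 x) f11 ++ fp2.map (tren (n6 1 2 4))))) c24_11_4_pf (by decide +kernel)
    (by decide +kernel) (by decide +kernel) (by decide +kernel) hp hts

theorem c24_11_4 {V : Type} {W : Mw V} (h : W.Hy) {a b c d : V} (nd : [W.z, a, b, c, d].Nodup)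
    (hr : Hit (mrel0 h.bs) (pt [a, b, c, d] W.z) rf24)
    (hf : Hit (mrel0 h.bs) (v6 W.z d W.z a b c) f11)
    (hq : ¬ FS (mrel0 h.bs) W.z fp2 a b d) : False :=
  c24_11_4_ref (pt_inj (o := W.z) nd rfl) (PHs.app (h.ph rfl _) (PHs.app (gf_ph hr (cr 4) (cr_pt (n := 4) (l := [a, b, c, d]) (l' := []) rfl)) (PHs.app (gf_ph hf (c6 4 0 1 2 3) (c6_v6 rfl rfl rfl rfl rfl rfl)) (nf_ph hq (ia := 1) (ib := 2) (ic := 4) rfl rfl rfl rfl))))

def c24_12_n_p0 : List Nat := [
0x86a0b0000000950000000930000000a70532000401,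
0x864a0070000000020000000ad0203000301,
0x862a0f0000000b30000000a700000009500000009300000008f00000009f0000000b50039000801,
0xac10000000b300000009500000008f00000009b00000009100000009f0000000060000000a7000000097000000004000b00]

def c24_12_n_pf : List Nat := c24_12_n_p0

theorem c24_12_n_ref {V : Type} {S : SRel V} {p : Nat → V} (hp : ∀ i j, i < 6 → j < 6 → p i = p j → i = j)
    (hts : PHs S p 6 (mA ++ (gf (fun x => 8 + cr 4 x) rf24 ++ (gf (fun x => 8 + c6 5 0 1 2 3 x) f12 ++ fp2.map (tren (n6 1 2 4)))))) : False :=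
  refuteS (k := 6) (n2 := 3) (n3 := 1) (n4 := 3) (o3 := 63) (o4 := 119) (M := 812) (mA ++ (gf (fun x => 8 + cr 4 x) rf24 ++ (gf (fun x => 8 + c6 5 0 1 2 3 x) f12 ++ fp2.map (tren (n6 1 2 4))))) c24_12_n_pf (by decide +kernel)
    (by decide +kernel) (by decide +kernel) (by decide +kernel) hp hts

theorem c24_12_n {V : Type} {W : Mw V} (h : W.Hy) {a b c d u : V} (nd : [W.z, a, b, c, d, u].Nodup)
    (hr : Hit (mrel0 h.bs) (pt [a, b, c, d] W.z) rf24)
    (hf : Hit (mrel0 h.bs) (v6 W.z u W.z a b c) f12)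
    (hq : ¬ FS (mrel0 h.bs) W.z fp2 a b d) : False :=
  c24_12_n_ref (pt_inj (o := W.z) nd rfl) (PHs.app (h.ph rfl _) (PHs.app (gf_ph hr (cr 4) (cr_pt (n := 4) (l := [a, b, c, d]) (l' := [u]) rfl)) (PHs.app (gf_ph hf (c6 5 0 1 2 3) (c6_v6 rfl rfl rfl rfl rfl rfl)) (nf_ph hq (ia := 1) (ib := 2) (ic := 4) rfl rfl rfl rfl))))

def c24_12_4_p0 : List Nat := [
0xa7000000095000200]

def c24_12_4_pf : List Nat := c24_12_4_p0

theorem c24_12_4_ref {V : Type} {S : SRel V} {p : Nat → V} (hp : ∀ i j, i < 5 → j < 5 → p i = p j → i = j)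
    (hts : PHs S p 5 (mA ++ (gf (fun x => 8 + cr 4 x) rf24 ++ (gf (fun x => 8 + c6 4 0 1 2 3 x) f12 ++ fp2.map (tren (n6 1 2 4)))))) : False :=
  refuteS (k := 5) (n2 := 3) (n3 := 1) (n4 := 3) (o3 := 45) (o4 := 80) (M := 440) (mA ++ (gf (fun x => 8 + cr 4 x) rf24 ++ (gf (fun x => 8 + c6 4 0 1 2 3 x) f12 ++ fp2.map (tren (n6 1 2 4))))) c24_12_4_pf (by decide +kernel)
    (by decide +kernel) (by decide +kernel) (by decide +kernel) hp hts

theorem c24_12_4 {V : Type} {W : Mw V} (h : W.Hy) {a b c d : V} (nd : [W.z, a, b, c, d].Nodup)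
    (hr : Hit (mrel0 h.bs) (pt [a, b, c, d] W.z) rf24)
    (hf : Hit (mrel0 h.bs) (v6 W.z d W.z a b c) f12)
    (hq : ¬ FS (mrel0 h.bs) W.z fp2 a b d) : False :=
  c24_12_4_ref (pt_inj (o := W.z) nd rfl) (PHs.app (h.ph rfl _) (PHs.app (gf_ph hr (cr 4) (cr_pt (n := 4) (l := [a, b, c, d]) (l' := []) rfl)) (PHs.app (gf_ph hf (c6 4 0 1 2 3) (c6_v6 rfl rfl rfl rfl rfl rfl)) (nf_ph hq (ia := 1) (ib := 2) (ic := 4) rfl rfl rfl rfl))))

def c24_13_n_p0 : List Nat := [
0x86a0b0000000950000000930000000a70532000401,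
0x864a0070000000020000000ad0203000301,
0xac100000009500000008f00000009b00000009100000009f0000000a70000000970000000b3000000004000a00]

def c24_13_n_pf : List Nat := c24_13_n_p0

theorem c24_13_n_ref {V : Type} {S : SRel V} {p : Nat → V} (hp : ∀ i j, i < 6 → j < 6 → p i = p j → i = j)
    (hts : PHs S p 6 (mA ++ (gf (fun x => 8 + cr 4 x) rf24 ++ (gf (fun x => 8 + c6 5 0 1 2 3 x) f13 ++ fp2.map (tren (n6 1 2 4)))))) : False :=
  refuteS (k := 6) (n2 := 3) (n3 := 1) (n4 := 3) (o3 := 63) (o4 := 119) (M := 812) (mA ++ (gf (fun x => 8 + cr 4 x) rf24 ++ (gf (fun x => 8 + c6 5 0 1 2 3 x) f13 ++ fp2.map (tren (n6 1 2 4))))) c24_13_n_pf (by decide +kernel)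
    (by decide +kernel) (by decide +kernel) (by decide +kernel) hp hts

theorem c24_13_n {V : Type} {W : Mw V} (h : W.Hy) {a b c d u : V} (nd : [W.z, a, b, c, d, u].Nodup)
    (hr : Hit (mrel0 h.bs) (pt [a, b, c, d] W.z) rf24)
    (hf : Hit (mrel0 h.bs) (v6 W.z u W.z a b c) f13)
    (hq : ¬ FS (mrel0 h.bs) W.z fp2 a b d) : False :=
  c24_13_n_ref (pt_inj (o := W.z) nd rfl) (PHs.app (h.ph rfl _) (PHs.app (gf_ph hr (cr 4) (cr_pt (n := 4) (l := [a, b, c, d]) (l' := [u]) rfl)) (PHs.app (gf_ph hf (c6 5 0 1 2 3) (c6_v6 rfl rfl rfl rfl rfl rfl)) (nf_ph hq (ia := 1) (ib := 2) (ic := 4) rfl rfl rfl rfl))))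

def c24_13_4_p0 : List Nat := [
0xa7000000095000200]

def c24_13_4_pf : List Nat := c24_13_4_p0

theorem c24_13_4_ref {V : Type} {S : SRel V} {p : Nat → V} (hp : ∀ i j, i < 5 → j < 5 → p i = p j → i = j)
    (hts : PHs S p 5 (mA ++ (gf (fun x => 8 + cr 4 x) rf24 ++ (gf (fun x => 8 + c6 4 0 1 2 3 x) f13 ++ fp2.map (tren (n6 1 2 4)))))) : False :=
  refuteS (k := 5) (n2 := 3) (n3 := 1) (n4 := 3) (o3 := 45) (o4 := 80) (M := 440) (mA ++ (gf (fun x => 8 + cr 4 x) rf24 ++ (gf (fun x => 8 + c6 4 0 1 2 3 x) f13 ++ fp2.map (tren (n6 1 2 4))))) c24_13_4_pf (by decide +kernel)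
    (by decide +kernel) (by decide +kernel) (by decide +kernel) hp hts

theorem c24_13_4 {V : Type} {W : Mw V} (h : W.Hy) {a b c d : V} (nd : [W.z, a, b, c, d].Nodup)
    (hr : Hit (mrel0 h.bs) (pt [a, b, c, d] W.z) rf24)
    (hf : Hit (mrel0 h.bs) (v6 W.z d W.z a b c) f13)
    (hq : ¬ FS (mrel0 h.bs) W.z fp2 a b d) : False :=
  c24_13_4_ref (pt_inj (o := W.z) nd rfl) (PHs.app (h.ph rfl _) (PHs.app (gf_ph hr (cr 4) (cr_pt (n := 4) (l := [a, b, c, d]) (l' := []) rfl)) (PHs.app (gf_ph hf (c6 4 0 1 2 3) (c6_v6 rfl rfl rfl rfl rfl rfl)) (nf_ph hq (ia := 1) (ib := 2) (ic := 4) rfl rfl rfl rfl))))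

def c24_14_n_n_p0 : List Nat := [
0x8640b000000093000000091000000095072c000401,
0x68240070000000020000000970105000301,
0x28600300000009906cc000201,
0xc640b0000000930000000910000000ab099f000401,
0xc62400700000000400000000803a8000301,
0x2a60030000000af07bc000201,
0x8a062070000000060000000af02f7000301,
0xa82600700000009900000000c02f4000301,
0xa8620300000000e0834000201,
0x8a620300000000e07d1000201,
0xa860030000000100831000201,
0xa6082070000000990000000120231000301,
0x2c60030000000b108dc000201,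
0xac2600700000000c0000000b104d7000301,
0xca062070000000af00000001a04da000301,
0xac600300000001c08fd000201,
0xc8a6070000000160000000200a17000301,
0xa6c310000000ab0000000a70000000930000000b70048000501,
0x6ac310000000ab0000000a70000000930000000b7004e000501,
0xcac90000000ab0000000a700000009500000008f00000009b00000009100000009f00000001800000000a090109270a12000a03,
0x6acb0000000a700000009500000009300000008f00000009b00000009100000009f0000000970000000990000000af07d20832000b02,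
0x2800860c207000a68c3d00c68a22300ac286070008a6c4d002ca8625000ca861b0000000b10000000930000000950000000a70000000ab0000000b70000000b90000000140a57001001,
0x8ca64100000002a000a8c61f008c6a2230002ac81d000ca821f0062c8a25000a8c61b000ca860100862ca070000000930000000950000000a70000000ab0000000b700000002400000002c0000000b900000009f00000002600000002200000001e04ec001601,
0xac860300000002e09cf000201,
0x862ca0500000001e00000002e0a50000301,
0xc60a8070000000100000000300396000301,
0xca08207000000018000000032037e000301,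
0xa8c290000000ab0000000a70000000950000000340901000501,
0x8c6a2730000000ab0000000a70000000950000000b900000009300000008f00000009f0000000af0000000b70000000b10000000360027000c01,
0x86ac4d0000000b70000000ab0000000a700000009500000009300000003809d0000701,
0xa28c6230000000b900000003c09b8000301,
0xca861f00000002e00000003a00000002600000003c04ae000501,
0xca682250000000b900000003e0835000301,
0x6ac81d0000000400039000201,
0x8ca6410000000b70000000ab0000000a700000009500000009300000004002c8000701,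
0xa8621f00000004200000000e00000009d0000000440268000501,
0x2a000000048000000046000300]

def c24_14_n_n_pf : List Nat := c24_14_n_n_p0

theorem c24_14_n_n_ref {V : Type} {S : SRel V} {p : Nat → V} (hp : ∀ i j, i < 7 → j < 7 → p i = p j → i = j)
    (hts : PHs S p 7 (mA ++ (gf (fun x => 8 + cr 4 x) rf24 ++ (gf (fun x => 8 + c6 5 6 1 2 3 x) f14 ++ fp2.map (tren (n6 1 2 4)))))) : False :=
  refuteS (k := 7) (n2 := 3) (n3 := 1) (n4 := 3) (o3 := 84) (o4 := 168) (M := 1386) (mA ++ (gf (fun x => 8 + cr 4 x) rf24 ++ (gf (fun x => 8 + c6 5 6 1 2 3 x) f14 ++ fp2.map (tren (n6 1 2 4))))) c24_14_n_n_pf (by decide +kernel)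
    (by decide +kernel) (by decide +kernel) (by decide +kernel) hp hts

theorem c24_14_n_n {V : Type} {W : Mw V} (h : W.Hy) {a b c d u w : V} (nd : [W.z, a, b, c, d, u, w].Nodup)
    (hr : Hit (mrel0 h.bs) (pt [a, b, c, d] W.z) rf24)
    (hf : Hit (mrel0 h.bs) (v6 W.z u w a b c) f14)
    (hq : ¬ FS (mrel0 h.bs) W.z fp2 a b d) : False :=
  c24_14_n_n_ref (pt_inj (o := W.z) nd rfl) (PHs.app (h.ph rfl _) (PHs.app (gf_ph hr (cr 4) (cr_pt (n := 4) (l := [a, b, c, d]) (l' := [u, w]) rfl)) (PHs.app (gf_ph hf (c6 5 6 1 2 3) (c6_v6 rfl rfl rfl rfl rfl rfl)) (nf_ph hq (ia := 1) (ib := 2) (ic := 4) rfl rfl rfl rfl))))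

def c24_14_n_4_p0 : List Nat := [
0x6acb0000000a700000009500000009300000008f00000009b00000009100000009f0000000970000000990000000af0000000b90000000b7000d00]

def c24_14_n_4_pf : List Nat := c24_14_n_4_p0

theorem c24_14_n_4_ref {V : Type} {S : SRel V} {p : Nat → V} (hp : ∀ i j, i < 6 → j < 6 → p i = p j → i = j)
    (hts : PHs S p 6 (mA ++ (gf (fun x => 8 + cr 4 x) rf24 ++ (gf (fun x => 8 + c6 5 4 1 2 3 x) f14 ++ fp2.map (tren (n6 1 2 4)))))) : False :=
  refuteS (k := 6) (n2 := 3) (n3 := 1) (n4 := 3) (o3 := 63) (o4 := 119) (M := 812) (mA ++ (gf (fun x => 8 + cr 4 x) rf24 ++ (gf (fun x => 8 + c6 5 4 1 2 3 x) f14 ++ fp2.map (tren (n6 1 2 4))))) c24_14_n_4_pf (by decide +kernel)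
    (by decide +kernel) (by decide +kernel) (by decide +kernel) hp hts

theorem c24_14_n_4 {V : Type} {W : Mw V} (h : W.Hy) {a b c d u : V} (nd : [W.z, a, b, c, d, u].Nodup)
    (hr : Hit (mrel0 h.bs) (pt [a, b, c, d] W.z) rf24)
    (hf : Hit (mrel0 h.bs) (v6 W.z u d a b c) f14)
    (hq : ¬ FS (mrel0 h.bs) W.z fp2 a b d) : False :=
  c24_14_n_4_ref (pt_inj (o := W.z) nd rfl) (PHs.app (h.ph rfl _) (PHs.app (gf_ph hr (cr 4) (cr_pt (n := 4) (l := [a, b, c, d]) (l' := [u]) rfl)) (PHs.app (gf_ph hf (c6 5 4 1 2 3) (c6_v6 rfl rfl rfl rfl rfl rfl)) (nf_ph hq (ia := 1) (ib := 2) (ic := 4) rfl rfl rfl rfl))))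

def c24_14_4_n_p0 : List Nat := [
0x286003000000099045d000201,
0xaf000000002000200]

def c24_14_4_n_pf : List Nat := c24_14_4_n_p0

theorem c24_14_4_n_ref {V : Type} {S : SRel V} {p : Nat → V} (hp : ∀ i j, i < 6 → j < 6 → p i = p j → i = j)
    (hts : PHs S p 6 (mA ++ (gf (fun x => 8 + cr 4 x) rf24 ++ (gf (fun x => 8 + c6 4 5 1 2 3 x) f14 ++ fp2.map (tren (n6 1 2 4)))))) : False :=
  refuteS (k := 6) (n2 := 3) (n3 := 1) (n4 := 3) (o3 := 63) (o4 := 119) (M := 812) (mA ++ (gf (fun x => 8 + cr 4 x) rf24 ++ (gf (fun x => 8 + c6 4 5 1 2 3 x) f14 ++ fp2.map (tren (n6 1 2 4))))) c24_14_4_n_pf (by decide +kernel)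
    (by decide +kernel) (by decide +kernel) (by decide +kernel) hp hts

theorem c24_14_4_n {V : Type} {W : Mw V} (h : W.Hy) {a b c d w : V} (nd : [W.z, a, b, c, d, w].Nodup)
    (hr : Hit (mrel0 h.bs) (pt [a, b, c, d] W.z) rf24)
    (hf : Hit (mrel0 h.bs) (v6 W.z d w a b c) f14)
    (hq : ¬ FS (mrel0 h.bs) W.z fp2 a b d) : False :=
  c24_14_4_n_ref (pt_inj (o := W.z) nd rfl) (PHs.app (h.ph rfl _) (PHs.app (gf_ph hr (cr 4) (cr_pt (n := 4) (l := [a, b, c, d]) (l' := [w]) rfl)) (PHs.app (gf_ph hf (c6 4 5 1 2 3) (c6_v6 rfl rfl rfl rfl rfl rfl)) (nf_ph hq (ia := 1) (ib := 2) (ic := 4) rfl rfl rfl rfl))))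

def c24_15_n_n_p0 : List Nat := [
0x28600300000009906cc000201,
0x2ca0030000000af08f7000201,
0x2c60030000000b1091b000201,
0xa62c0070000000040000000b10393000301,
0x8c062070000000020000000b1048c000301,
0xc8260070000000990000000060489000301,
0xac60030000000080a41000201,
0xc8620300000000a09b7000201,
0xac8600700000000e00000000c02f4000301,
0xc608207000000099000000010037e000301,
0xa860030000000120831000201,
0xa86290000000a7000000095000000093000000012085f000501,
0x8c0a60700000000800000001604ad000301,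
0xca6310000000a90000000a70000000930000000b70036000501,
0x8ca64d0000000180000000a90000000a70000000950000000930000000b709d0000701,
0xa28c62300000001e0000000b909b8000301,
0x86ca2730000000a90000000b70000000a700000009500000009300000008f00000009f0000000990000000b10000000af0000000b9004b000c01,
0xc8621f00000002000000000a00000009d00000002203c7000501,
0xc8a61f00000001c00000001e00000001a00000002204ed000501,
0x8c6a2250000000b90000000240268000301,
0x86ca410000000b70000000a90000000a700000009500000009300000002604e4000701,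
0xc68a2230000000b900000002804a8000301,
0xcacb0000000a90000000a700000009500000008f00000009b00000009100000009f0000000970000000140000000af00000002c00000002a000d00]

def c24_15_n_n_pf : List Nat := c24_15_n_n_p0

theorem c24_15_n_n_ref {V : Type} {S : SRel V} {p : Nat → V} (hp : ∀ i j, i < 7 → j < 7 → p i = p j → i = j)
    (hts : PHs S p 7 (mA ++ (gf (fun x => 8 + cr 4 x) rf24 ++ (gf (fun x => 8 + c6 5 6 1 2 3 x) f15 ++ fp2.map (tren (n6 1 2 4)))))) : False :=
  refuteS (k := 7) (n2 := 3) (n3 := 1) (n4 := 3) (o3 := 84) (o4 := 168) (M := 1386) (mA ++ (gf (fun x => 8 + cr 4 x) rf24 ++ (gf (fun x => 8 + c6 5 6 1 2 3 x) f15 ++ fp2.map (tren (n6 1 2 4))))) c24_15_n_n_pf (by decide +kernel)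
    (by decide +kernel) (by decide +kernel) (by decide +kernel) hp hts

theorem c24_15_n_n {V : Type} {W : Mw V} (h : W.Hy) {a b c d u w : V} (nd : [W.z, a, b, c, d, u, w].Nodup)
    (hr : Hit (mrel0 h.bs) (pt [a, b, c, d] W.z) rf24)
    (hf : Hit (mrel0 h.bs) (v6 W.z u w a b c) f15)
    (hq : ¬ FS (mrel0 h.bs) W.z fp2 a b d) : False :=
  c24_15_n_n_ref (pt_inj (o := W.z) nd rfl) (PHs.app (h.ph rfl _) (PHs.app (gf_ph hr (cr 4) (cr_pt (n := 4) (l := [a, b, c, d]) (l' := [u, w]) rfl)) (PHs.app (gf_ph hf (c6 5 6 1 2 3) (c6_v6 rfl rfl rfl rfl rfl rfl)) (nf_ph hq (ia := 1) (ib := 2) (ic := 4) rfl rfl rfl rfl))))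

def c24_15_n_4_p0 : List Nat := [
0x286003000000099045d000201,
0xb1000000002000200]

def c24_15_n_4_pf : List Nat := c24_15_n_4_p0

theorem c24_15_n_4_ref {V : Type} {S : SRel V} {p : Nat → V} (hp : ∀ i j, i < 6 → j < 6 → p i = p j → i = j)
    (hts : PHs S p 6 (mA ++ (gf (fun x => 8 + cr 4 x) rf24 ++ (gf (fun x => 8 + c6 5 4 1 2 3 x) f15 ++ fp2.map (tren (n6 1 2 4)))))) : False :=
  refuteS (k := 6) (n2 := 3) (n3 := 1) (n4 := 3) (o3 := 63) (o4 := 119) (M := 812) (mA ++ (gf (fun x => 8 + cr 4 x) rf24 ++ (gf (fun x => 8 + c6 5 4 1 2 3 x) f15 ++ fp2.map (tren (n6 1 2 4))))) c24_15_n_4_pf (by decide +kernel)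
    (by decide +kernel) (by decide +kernel) (by decide +kernel) hp hts

theorem c24_15_n_4 {V : Type} {W : Mw V} (h : W.Hy) {a b c d u : V} (nd : [W.z, a, b, c, d, u].Nodup)
    (hr : Hit (mrel0 h.bs) (pt [a, b, c, d] W.z) rf24)
    (hf : Hit (mrel0 h.bs) (v6 W.z u d a b c) f15)
    (hq : ¬ FS (mrel0 h.bs) W.z fp2 a b d) : False :=
  c24_15_n_4_ref (pt_inj (o := W.z) nd rfl) (PHs.app (h.ph rfl _) (PHs.app (gf_ph hr (cr 4) (cr_pt (n := 4) (l := [a, b, c, d]) (l' := [u]) rfl)) (PHs.app (gf_ph hf (c6 5 4 1 2 3) (c6_v6 rfl rfl rfl rfl rfl rfl)) (nf_ph hq (ia := 1) (ib := 2) (ic := 4) rfl rfl rfl rfl))))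

def c24_15_4_n_p0 : List Nat := [
0x286003000000099045d000201,
0x2a80030000000af052c000201,
0x6a280070000000020000000af0296000301,
0x6a80030000000060532000201,
0x862a0070000000040000000080520000301,
0xb100000000a000200]

def c24_15_4_n_pf : List Nat := c24_15_4_n_p0

theorem c24_15_4_n_ref {V : Type} {S : SRel V} {p : Nat → V} (hp : ∀ i j, i < 6 → j < 6 → p i = p j → i = j)
    (hts : PHs S p 6 (mA ++ (gf (fun x => 8 + cr 4 x) rf24 ++ (gf (fun x => 8 + c6 4 5 1 2 3 x) f15 ++ fp2.map (tren (n6 1 2 4)))))) : False :=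
  refuteS (k := 6) (n2 := 3) (n3 := 1) (n4 := 3) (o3 := 63) (o4 := 119) (M := 812) (mA ++ (gf (fun x => 8 + cr 4 x) rf24 ++ (gf (fun x => 8 + c6 4 5 1 2 3 x) f15 ++ fp2.map (tren (n6 1 2 4))))) c24_15_4_n_pf (by decide +kernel)
    (by decide +kernel) (by decide +kernel) (by decide +kernel) hp hts

theorem c24_15_4_n {V : Type} {W : Mw V} (h : W.Hy) {a b c d w : V} (nd : [W.z, a, b, c, d, w].Nodup)
    (hr : Hit (mrel0 h.bs) (pt [a, b, c, d] W.z) rf24)
    (hf : Hit (mrel0 h.bs) (v6 W.z d w a b c) f15)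
    (hq : ¬ FS (mrel0 h.bs) W.z fp2 a b d) : False :=
  c24_15_4_n_ref (pt_inj (o := W.z) nd rfl) (PHs.app (h.ph rfl _) (PHs.app (gf_ph hr (cr 4) (cr_pt (n := 4) (l := [a, b, c, d]) (l' := [w]) rfl)) (PHs.app (gf_ph hf (c6 4 5 1 2 3) (c6_v6 rfl rfl rfl rfl rfl rfl)) (nf_ph hq (ia := 1) (ib := 2) (ic := 4) rfl rfl rfl rfl))))

def c24_16_n_n_p0 : List Nat := [
0x8640b000000093000000091000000095072c000401,
0x68240070000000020000000970105000301,
0x28600300000009906cc000201,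
0xa820b00000009500000008f0000000a9084f000401,
0xc640b0000000930000000910000000ab099f000401,
0xc62400700000000400000000a03a8000301,
0x8ac21d0000000b70943000201,
0x6ac2d0000000ab0000000a90000000930000000bb002d000501,
0xa6c310000000ab0000000a90000000930000000bb0048000501,
0x6ac310000000ab0000000a90000000930000000bb004e000501,
0xca42670000000ab0000000b90000000a90000000b700000008f00000009b0000000910000000b100000000c00000001005ac000b01,
0x8c621d00000001609f7000201,
0x8ca21d0000000160a12000201,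
0xca821f00000001400000000e00000009f00000001a0a50000501,
0xabf0000000a90000000b700000009500000008f00000009b00000009100000009f000000010000000097079b000a01,
0xa8200100000000800000001e025e000301,
0x8c2a0070000000b100000001e04a4000301,
0xa60820700000009900000001e02ca000301,
0x6a2800700000000600000002002c7000301,
0xca6820700000001c000000024044d000301,
0xa68290000000a90000000950000000930000000260832000501,
0xc6821f00000001800000001200000009f00000002803c7000501,
0x6ca8490000000bb0000000ab0000000a900000009500000009300000002a0a4e000701,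
0x2c681d00000002c004b000201,
0xc8a3500000002e0000000220000000ab0000000a90000000950000000100000000300397000801,
0xcacf0000000ab0000000b90000000a90000000b700000009500000008f00000009b00000009100000009f00000002000000003200000000c0000000b1000e00]

def c24_16_n_n_pf : List Nat := c24_16_n_n_p0

theorem c24_16_n_n_ref {V : Type} {S : SRel V} {p : Nat → V} (hp : ∀ i j, i < 7 → j < 7 → p i = p j → i = j)
    (hts : PHs S p 7 (mA ++ (gf (fun x => 8 + cr 4 x) rf24 ++ (gf (fun x => 8 + c6 5 6 1 2 3 x) f16 ++ fp2.map (tren (n6 1 2 4)))))) : False :=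
  refuteS (k := 7) (n2 := 3) (n3 := 1) (n4 := 3) (o3 := 84) (o4 := 168) (M := 1386) (mA ++ (gf (fun x => 8 + cr 4 x) rf24 ++ (gf (fun x => 8 + c6 5 6 1 2 3 x) f16 ++ fp2.map (tren (n6 1 2 4))))) c24_16_n_n_pf (by decide +kernel)
    (by decide +kernel) (by decide +kernel) (by decide +kernel) hp hts

theorem c24_16_n_n {V : Type} {W : Mw V} (h : W.Hy) {a b c d u w : V} (nd : [W.z, a, b, c, d, u, w].Nodup)
    (hr : Hit (mrel0 h.bs) (pt [a, b, c, d] W.z) rf24)
    (hf : Hit (mrel0 h.bs) (v6 W.z u w a b c) f16)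
    (hq : ¬ FS (mrel0 h.bs) W.z fp2 a b d) : False :=
  c24_16_n_n_ref (pt_inj (o := W.z) nd rfl) (PHs.app (h.ph rfl _) (PHs.app (gf_ph hr (cr 4) (cr_pt (n := 4) (l := [a, b, c, d]) (l' := [u, w]) rfl)) (PHs.app (gf_ph hf (c6 5 6 1 2 3) (c6_v6 rfl rfl rfl rfl rfl rfl)) (nf_ph hq (ia := 1) (ib := 2) (ic := 4) rfl rfl rfl rfl))))

def c24_16_n_4_p0 : List Nat := [
0x8a42670000000a90000000b70000000950000000b100000008f00000009b00000009100000009f0000000970000000b90359000b01,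
0x6a82d0000000a900000009500000009300000000205c3000501,
0xbb000000004000200]

def c24_16_n_4_pf : List Nat := c24_16_n_4_p0

theorem c24_16_n_4_ref {V : Type} {S : SRel V} {p : Nat → V} (hp : ∀ i j, i < 6 → j < 6 → p i = p j → i = j)
    (hts : PHs S p 6 (mA ++ (gf (fun x => 8 + cr 4 x) rf24 ++ (gf (fun x => 8 + c6 5 4 1 2 3 x) f16 ++ fp2.map (tren (n6 1 2 4)))))) : False :=
  refuteS (k := 6) (n2 := 3) (n3 := 1) (n4 := 3) (o3 := 63) (o4 := 119) (M := 812) (mA ++ (gf (fun x => 8 + cr 4 x) rf24 ++ (gf (fun x => 8 + c6 5 4 1 2 3 x) f16 ++ fp2.map (tren (n6 1 2 4))))) c24_16_n_4_pf (by decide +kernel)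
    (by decide +kernel) (by decide +kernel) (by decide +kernel) hp hts

theorem c24_16_n_4 {V : Type} {W : Mw V} (h : W.Hy) {a b c d u : V} (nd : [W.z, a, b, c, d, u].Nodup)
    (hr : Hit (mrel0 h.bs) (pt [a, b, c, d] W.z) rf24)
    (hf : Hit (mrel0 h.bs) (v6 W.z u d a b c) f16)
    (hq : ¬ FS (mrel0 h.bs) W.z fp2 a b d) : False :=
  c24_16_n_4_ref (pt_inj (o := W.z) nd rfl) (PHs.app (h.ph rfl _) (PHs.app (gf_ph hr (cr 4) (cr_pt (n := 4) (l := [a, b, c, d]) (l' := [u]) rfl)) (PHs.app (gf_ph hf (c6 5 4 1 2 3) (c6_v6 rfl rfl rfl rfl rfl rfl)) (nf_ph hq (ia := 1) (ib := 2) (ic := 4) rfl rfl rfl rfl))))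

def c24_16_4_n_p0 : List Nat := [
0xb700000009f000200]

def c24_16_4_n_pf : List Nat := c24_16_4_n_p0

theorem c24_16_4_n_ref {V : Type} {S : SRel V} {p : Nat → V} (hp : ∀ i j, i < 6 → j < 6 → p i = p j → i = j)
    (hts : PHs S p 6 (mA ++ (gf (fun x => 8 + cr 4 x) rf24 ++ (gf (fun x => 8 + c6 4 5 1 2 3 x) f16 ++ fp2.map (tren (n6 1 2 4)))))) : False :=
  refuteS (k := 6) (n2 := 3) (n3 := 1) (n4 := 3) (o3 := 63) (o4 := 119) (M := 812) (mA ++ (gf (fun x => 8 + cr 4 x) rf24 ++ (gf (fun x => 8 + c6 4 5 1 2 3 x) f16 ++ fp2.map (tren (n6 1 2 4))))) c24_16_4_n_pf (by decide +kernel)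
    (by decide +kernel) (by decide +kernel) (by decide +kernel) hp hts

theorem c24_16_4_n {V : Type} {W : Mw V} (h : W.Hy) {a b c d w : V} (nd : [W.z, a, b, c, d, w].Nodup)
    (hr : Hit (mrel0 h.bs) (pt [a, b, c, d] W.z) rf24)
    (hf : Hit (mrel0 h.bs) (v6 W.z d w a b c) f16)
    (hq : ¬ FS (mrel0 h.bs) W.z fp2 a b d) : False :=
  c24_16_4_n_ref (pt_inj (o := W.z) nd rfl) (PHs.app (h.ph rfl _) (PHs.app (gf_ph hr (cr 4) (cr_pt (n := 4) (l := [a, b, c, d]) (l' := [w]) rfl)) (PHs.app (gf_ph hf (c6 4 5 1 2 3) (c6_v6 rfl rfl rfl rfl rfl rfl)) (nf_ph hq (ia := 1) (ib := 2) (ic := 4) rfl rfl rfl rfl))))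

def c24_17_n_n_p0 : List Nat := [
0x8640b000000093000000091000000095072c000401,
0x68240070000000020000000970105000301,
0xa640b0000000930000000910000000a9081c000401,
0xa820b00000009500000008f0000000a9084f000401,
0xa6240070000000040000000060249000301,
0xc640b0000000930000000910000000ab099f000401,
0xc62400700000000400000000c03a8000301,
0x2a60030000000af078f000201,
0xa4062070000000040000000100288000301,
0x2ca0030000000b108f7000201,
0xa40c20500000000e0000000b1093c000301,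
0xc40a20700000000a0000000140414000301,
0xc60a2070000000af000000014045c000301,
0xc62a407000000012000000016045f000301,
0xc6a21b00000001a09c7000201,
0xc6a41b00000001c09ca000201,
0xca241d0000000b70a3c000201,
0x6ac2d0000000ab0000000a90000000930000000b9002d000501,
0x6c421d0000000bb0042000201,
0xc6241d0000000bb0018000201,
0x6c241d0000000bb0045000201,
0x62ca4250000000200000000bb093d000301,
0x46a190000000a90000000240000000b70000000930000000910000000280036000701,
0xc4a21f00000002200000002c00000001800000002a059a000501,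
0x8a621d0000000300862000201,
0xabf0000000a900000003000000009500000008f00000009b00000009100000009f000000024000000097079b000a01,
0xa82001000000008000000034025e000301,
0x8c2a0070000000b100000003404a4000301,
0xa60820700000009900000003402ca000301,
0xca82650000000ab0000000300000000a900000002600000009500000008f00000009f0000000240000000b1000000036004b000b01,
0xca82630000000ab0000000a900000003000000009500000008f0000000260000000b10000000360a4e000901,
0xa6821f00000003200000002e00000009f00000003a0268000501,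
0xc8a3500000003e0000000380000000ab0000000a900000009500000002400000003c0397000801,
0x8ac6422700000001e0000000bb00000004001c6000401,
0xc6842230000000bb0000000440484000301,
0xcad10000000ab0000000a90000000b700000009500000008f00000009b00000009100000009f00000003600000004200000000e0000000b1000000046000e00]

def c24_17_n_n_pf : List Nat := c24_17_n_n_p0

theorem c24_17_n_n_ref {V : Type} {S : SRel V} {p : Nat → V} (hp : ∀ i j, i < 7 → j < 7 → p i = p j → i = j)
    (hts : PHs S p 7 (mA ++ (gf (fun x => 8 + cr 4 x) rf24 ++ (gf (fun x => 8 + c6 5 6 1 2 3 x) f17 ++ fp2.map (tren (n6 1 2 4)))))) : False :=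
  refuteS (k := 7) (n2 := 3) (n3 := 1) (n4 := 3) (o3 := 84) (o4 := 168) (M := 1386) (mA ++ (gf (fun x => 8 + cr 4 x) rf24 ++ (gf (fun x => 8 + c6 5 6 1 2 3 x) f17 ++ fp2.map (tren (n6 1 2 4))))) c24_17_n_n_pf (by decide +kernel)
    (by decide +kernel) (by decide +kernel) (by decide +kernel) hp hts

theorem c24_17_n_n {V : Type} {W : Mw V} (h : W.Hy) {a b c d u w : V} (nd : [W.z, a, b, c, d, u, w].Nodup)
    (hr : Hit (mrel0 h.bs) (pt [a, b, c, d] W.z) rf24)
    (hf : Hit (mrel0 h.bs) (v6 W.z u w a b c) f17)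
    (hq : ¬ FS (mrel0 h.bs) W.z fp2 a b d) : False :=
  c24_17_n_n_ref (pt_inj (o := W.z) nd rfl) (PHs.app (h.ph rfl _) (PHs.app (gf_ph hr (cr 4) (cr_pt (n := 4) (l := [a, b, c, d]) (l' := [u, w]) rfl)) (PHs.app (gf_ph hf (c6 5 6 1 2 3) (c6_v6 rfl rfl rfl rfl rfl rfl)) (nf_ph hq (ia := 1) (ib := 2) (ic := 4) rfl rfl rfl rfl))))

def c24_17_n_4_p0 : List Nat := [
0x8640b00000009300000009100000009504bd000401,
0x682400700000000200000009700d4000301,
0xa640b0000000930000000910000000a905ad000401,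
0xa6240070000000040000000060218000301,
0x2a60030000000af0520000201,
0xa40620700000000400000000a0257000301,
0x2a80030000000b10559000201,
0xa4082050000000970000000b1058f000301,
0x840a20700000000800000000e0233000301,
0x862a40700000000c0000000100269000301,
0x86a41b0000000140596000201,
0x8a241d0000000b705ea000201,
0x6a82d0000000a90000000950000000930000000b9002d000501,
0x68241d0000000bb0024000201,
0x628a4250000000160000000bb0590000301,
0x84a21f00000001800000001e00000001200000001c035c000501,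
0xabf0000000a900000002000000009500000008f00000009b00000009100000009f00000001a0000000970000000b1000b00]

def c24_17_n_4_pf : List Nat := c24_17_n_4_p0

theorem c24_17_n_4_ref {V : Type} {S : SRel V} {p : Nat → V} (hp : ∀ i j, i < 6 → j < 6 → p i = p j → i = j)
    (hts : PHs S p 6 (mA ++ (gf (fun x => 8 + cr 4 x) rf24 ++ (gf (fun x => 8 + c6 5 4 1 2 3 x) f17 ++ fp2.map (tren (n6 1 2 4)))))) : False :=
  refuteS (k := 6) (n2 := 3) (n3 := 1) (n4 := 3) (o3 := 63) (o4 := 119) (M := 812) (mA ++ (gf (fun x => 8 + cr 4 x) rf24 ++ (gf (fun x => 8 + c6 5 4 1 2 3 x) f17 ++ fp2.map (tren (n6 1 2 4))))) c24_17_n_4_pf (by decide +kernel)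
    (by decide +kernel) (by decide +kernel) (by decide +kernel) hp hts

theorem c24_17_n_4 {V : Type} {W : Mw V} (h : W.Hy) {a b c d u : V} (nd : [W.z, a, b, c, d, u].Nodup)
    (hr : Hit (mrel0 h.bs) (pt [a, b, c, d] W.z) rf24)
    (hf : Hit (mrel0 h.bs) (v6 W.z u d a b c) f17)
    (hq : ¬ FS (mrel0 h.bs) W.z fp2 a b d) : False :=
  c24_17_n_4_ref (pt_inj (o := W.z) nd rfl) (PHs.app (h.ph rfl _) (PHs.app (gf_ph hr (cr 4) (cr_pt (n := 4) (l := [a, b, c, d]) (l' := [u]) rfl)) (PHs.app (gf_ph hf (c6 5 4 1 2 3) (c6_v6 rfl rfl rfl rfl rfl rfl)) (nf_ph hq (ia := 1) (ib := 2) (ic := 4) rfl rfl rfl rfl))))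

def c24_17_4_n_p0 : List Nat := [
0x8640b00000009300000009100000009504bd000401,
0x682400700000000200000009700d4000301,
0x286003000000099045d000201,
0x84062070000000040000000060176000301,
0xa640b0000000930000000910000000ab05ad000401,
0xa62400700000000400000000a0218000301,
0x2a80030000000b1052c000201,
0x840a20500000000c0000000b1055f000301,
0xa40820700000009700000000e0263000301,
0xa628407000000008000000010029c000301,
0xa6841b00000001405c9000201,
0xa8241d0000000b705ea000201,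
0x6a241d0000000bb0033000201,
0x62a84250000000160000000bb0560000301,
0xa4821f00000001800000001200000009f00000001c00000001a000600]

def c24_17_4_n_pf : List Nat := c24_17_4_n_p0

theorem c24_17_4_n_ref {V : Type} {S : SRel V} {p : Nat → V} (hp : ∀ i j, i < 6 → j < 6 → p i = p j → i = j)
    (hts : PHs S p 6 (mA ++ (gf (fun x => 8 + cr 4 x) rf24 ++ (gf (fun x => 8 + c6 4 5 1 2 3 x) f17 ++ fp2.map (tren (n6 1 2 4)))))) : False :=
  refuteS (k := 6) (n2 := 3) (n3 := 1) (n4 := 3) (o3 := 63) (o4 := 119) (M := 812) (mA ++ (gf (fun x => 8 + cr 4 x) rf24 ++ (gf (fun x => 8 + c6 4 5 1 2 3 x) f17 ++ fp2.map (tren (n6 1 2 4))))) c24_17_4_n_pf (by decide +kernel)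
    (by decide +kernel) (by decide +kernel) (by decide +kernel) hp hts

theorem c24_17_4_n {V : Type} {W : Mw V} (h : W.Hy) {a b c d w : V} (nd : [W.z, a, b, c, d, w].Nodup)
    (hr : Hit (mrel0 h.bs) (pt [a, b, c, d] W.z) rf24)
    (hf : Hit (mrel0 h.bs) (v6 W.z d w a b c) f17)
    (hq : ¬ FS (mrel0 h.bs) W.z fp2 a b d) : False :=
  c24_17_4_n_ref (pt_inj (o := W.z) nd rfl) (PHs.app (h.ph rfl _) (PHs.app (gf_ph hr (cr 4) (cr_pt (n := 4) (l := [a, b, c, d]) (l' := [w]) rfl)) (PHs.app (gf_ph hf (c6 4 5 1 2 3) (c6_v6 rfl rfl rfl rfl rfl rfl)) (nf_ph hq (ia := 1) (ib := 2) (ic := 4) rfl rfl rfl rfl))))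

def c24_18_n_n_p0 : List Nat := [
0x8640b000000093000000091000000095072c000401,
0x68240070000000020000000970105000301,
0x28600300000009906cc000201,
0x821500000009500000008f00000009f001e000401,
0xc640b0000000930000000910000000ab099f000401,
0xc62400700000000400000000a03a8000301,
0x2a60030000000af078f000201,
0xa8260050000000990000000af085e000301,
0xa40620700000000400000000e0288000301,
0xa8620700000000600000000e0861000301,
0x2ca0030000000b108f7000201,
0x6c2a00700000000e0000000b10459000301,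
0xc60a2070000000af000000016045c000301,
0xca60030000000180a41000201,
0xca620300000001a0a44000201,
0x6ca20300000001a093f000201,
0xac8600700000001000000001c09f3000301,
0xca4620700000001200000001e03f9000301,
0xa6c310000000ab0000000a90000000930000000b70048000501,
0x6c241d0000000b90045000201,
0x6c42210000000b90922000201,
0xa6c24250000000b90000000bb04d2000301,
0x642ca230000000bb00000002c04db000301,
0xc6cb0000000ab00000009500000009300000008f00000009b00000009100000009f00000009900000000c08ef092709f7000a03,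
0xa6cd0000000a900000009500000009300000008f00000009b00000009100000009f0000000970000000af079b08320862000a03,
0xcad30000000ab0000000a900000009500000008f00000009b00000009100000009f00000000c0000000b107c8090109ee0a54000a04,
0xc4821f0062c8425000000034000c6841b00ac2800700862c40700480c607002c68007000c48607000c86001000a68c3d000086c2900680ca070008a6c4d00864ca23000ca861b00000009f0000000280000000b900000002400000000a0000000060000000020000000220000000930000000950000000a90000000ab0000000b700000001c0000000bb0a57001f01,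
0x28ac46270000000bb00000002a0000000360931000401,
0x30000c6821f0000c6835008a0c207008a2c607008a0c607006c2a80700000009f0000000260000000380000000080000000930000000950000000ab0000000b100000001a000000018000000014048a0465001202,
0x8ca627300c608207000a8c61f00a82c60500000003a0008ca6530000000b10000000b70000000af00000009f00000008f00000009300000009500000002e0000000a90000000ab00000009900000002600000003600000001a04ae001401,
0xc8a61b00000003c0a17000201,
0x8ac262500000002e00000003c048d000301,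
0x8ca6410000000b70000000ab0000000a900000009500000009300000003c02c8000701,
0xc82a60700000002000000003e0834000301,
0xac8622300000002e00000004002f8000301,
0xa6082070000000990000000440231000301,
0x32000000042000000048000000046000400]

def c24_18_n_n_pf : List Nat := c24_18_n_n_p0

theorem c24_18_n_n_ref {V : Type} {S : SRel V} {p : Nat → V} (hp : ∀ i j, i < 7 → j < 7 → p i = p j → i = j)
    (hts : PHs S p 7 (mA ++ (gf (fun x => 8 + cr 4 x) rf24 ++ (gf (fun x => 8 + c6 5 6 1 2 3 x) f18 ++ fp2.map (tren (n6 1 2 4)))))) : False :=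
  refuteS (k := 7) (n2 := 3) (n3 := 1) (n4 := 3) (o3 := 84) (o4 := 168) (M := 1386) (mA ++ (gf (fun x => 8 + cr 4 x) rf24 ++ (gf (fun x => 8 + c6 5 6 1 2 3 x) f18 ++ fp2.map (tren (n6 1 2 4))))) c24_18_n_n_pf (by decide +kernel)
    (by decide +kernel) (by decide +kernel) (by decide +kernel) hp hts

theorem c24_18_n_n {V : Type} {W : Mw V} (h : W.Hy) {a b c d u w : V} (nd : [W.z, a, b, c, d, u, w].Nodup)
    (hr : Hit (mrel0 h.bs) (pt [a, b, c, d] W.z) rf24)
    (hf : Hit (mrel0 h.bs) (v6 W.z u w a b c) f18)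
    (hq : ¬ FS (mrel0 h.bs) W.z fp2 a b d) : False :=
  c24_18_n_n_ref (pt_inj (o := W.z) nd rfl) (PHs.app (h.ph rfl _) (PHs.app (gf_ph hr (cr 4) (cr_pt (n := 4) (l := [a, b, c, d]) (l' := [u, w]) rfl)) (PHs.app (gf_ph hf (c6 5 6 1 2 3) (c6_v6 rfl rfl rfl rfl rfl rfl)) (nf_ph hq (ia := 1) (ib := 2) (ic := 4) rfl rfl rfl rfl))))

def c24_18_n_4_p0 : List Nat := [
0xa6824250000000b90000000bb02be000301,
0x642a8230000000bb00000000202c7000301,
0xa6cd0000000a900000009500000009300000008f00000009b00000009100000009f0000000970000000b10000000af0000000b7000000004000d00]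

def c24_18_n_4_pf : List Nat := c24_18_n_4_p0

theorem c24_18_n_4_ref {V : Type} {S : SRel V} {p : Nat → V} (hp : ∀ i j, i < 6 → j < 6 → p i = p j → i = j)
    (hts : PHs S p 6 (mA ++ (gf (fun x => 8 + cr 4 x) rf24 ++ (gf (fun x => 8 + c6 5 4 1 2 3 x) f18 ++ fp2.map (tren (n6 1 2 4)))))) : False :=
  refuteS (k := 6) (n2 := 3) (n3 := 1) (n4 := 3) (o3 := 63) (o4 := 119) (M := 812) (mA ++ (gf (fun x => 8 + cr 4 x) rf24 ++ (gf (fun x => 8 + c6 5 4 1 2 3 x) f18 ++ fp2.map (tren (n6 1 2 4))))) c24_18_n_4_pf (by decide +kernel)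
    (by decide +kernel) (by decide +kernel) (by decide +kernel) hp hts

theorem c24_18_n_4 {V : Type} {W : Mw V} (h : W.Hy) {a b c d u : V} (nd : [W.z, a, b, c, d, u].Nodup)
    (hr : Hit (mrel0 h.bs) (pt [a, b, c, d] W.z) rf24)
    (hf : Hit (mrel0 h.bs) (v6 W.z u d a b c) f18)
    (hq : ¬ FS (mrel0 h.bs) W.z fp2 a b d) : False :=
  c24_18_n_4_ref (pt_inj (o := W.z) nd rfl) (PHs.app (h.ph rfl _) (PHs.app (gf_ph hr (cr 4) (cr_pt (n := 4) (l := [a, b, c, d]) (l' := [u]) rfl)) (PHs.app (gf_ph hf (c6 5 4 1 2 3) (c6_v6 rfl rfl rfl rfl rfl rfl)) (nf_ph hq (ia := 1) (ib := 2) (ic := 4) rfl rfl rfl rfl))))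

def c24_18_4_n_p0 : List Nat := [
0x8640b00000009300000009100000009504bd000401,
0x682400700000000200000009700d4000301,
0x286003000000099045d000201,
0x84062070000000040000000060176000301,
0xa640b0000000930000000910000000ab05ad000401,
0xa62400700000000400000000a0218000301,
0x2a80030000000b1052c000201,
0x840a20500000000c0000000b1055f000301,
0xa40820700000009700000000e0263000301,
0xa628407000000008000000010029c000301,
0xa6841b00000001405c9000201,
0x6a241d0000000b90033000201,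
0x62a84250000000160000000b90560000301,
0xa4821f00000001800000001200000009f00000001a02be000501,
0x642a82300000001c0000000bb02c7000301,
0xa6cb0000000ab00000009500000009300000008f00000009b00000009100000009f0000000990000000b700000000c0000000b100000001e000d00]

def c24_18_4_n_pf : List Nat := c24_18_4_n_p0

theorem c24_18_4_n_ref {V : Type} {S : SRel V} {p : Nat → V} (hp : ∀ i j, i < 6 → j < 6 → p i = p j → i = j)
    (hts : PHs S p 6 (mA ++ (gf (fun x => 8 + cr 4 x) rf24 ++ (gf (fun x => 8 + c6 4 5 1 2 3 x) f18 ++ fp2.map (tren (n6 1 2 4)))))) : False :=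
  refuteS (k := 6) (n2 := 3) (n3 := 1) (n4 := 3) (o3 := 63) (o4 := 119) (M := 812) (mA ++ (gf (fun x => 8 + cr 4 x) rf24 ++ (gf (fun x => 8 + c6 4 5 1 2 3 x) f18 ++ fp2.map (tren (n6 1 2 4))))) c24_18_4_n_pf (by decide +kernel)
    (by decide +kernel) (by decide +kernel) (by decide +kernel) hp hts

theorem c24_18_4_n {V : Type} {W : Mw V} (h : W.Hy) {a b c d w : V} (nd : [W.z, a, b, c, d, w].Nodup)
    (hr : Hit (mrel0 h.bs) (pt [a, b, c, d] W.z) rf24)
    (hf : Hit (mrel0 h.bs) (v6 W.z d w a b c) f18)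
    (hq : ¬ FS (mrel0 h.bs) W.z fp2 a b d) : False :=
  c24_18_4_n_ref (pt_inj (o := W.z) nd rfl) (PHs.app (h.ph rfl _) (PHs.app (gf_ph hr (cr 4) (cr_pt (n := 4) (l := [a, b, c, d]) (l' := [w]) rfl)) (PHs.app (gf_ph hf (c6 4 5 1 2 3) (c6_v6 rfl rfl rfl rfl rfl rfl)) (nf_ph hq (ia := 1) (ib := 2) (ic := 4) rfl rfl rfl rfl))))

def c24_19_n_n_p0 : List Nat := [
0x8640b000000093000000091000000095072c000401,
0x86a0b0000000950000000930000000a507a1000401,
0x86c0b0000000950000000930000000a708ee000401,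
0x862a0070000000040000000ad0231000301,
0x6ca0030000000af09c3000201,
0x8a6c0070000000060000000af0396000301,
0xc62a0070000000ad00000000a03cc000301,
0x6c40030000000b108df000201,
0x8c640070000000020000000b10480000301,
0xa40c60700000000a0000000b1045f000301,
0x4a6c0070000000af0000000100390000301,
0x6ca4030000000140984000201,
0x4ca003000000016097b000201,
0x4c0a6070000000af00000001802b2000301,
0x4c2a00700000000e00000001a021c000301,
0x64a26d00000001c00000009300000008f00000009100000009d0000000a50000000ad0000000b707b4000901,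
0x684c0f0000000bb0000000b90000000950000000930000000910000000a70000000bd05b5000801,
0x64c170000000bb0000000b90000000930000000910000000a70000000bd05a9000701,
0x4c22f0000000a700000008f0000000910000000240952000501,
0xc4a21d0000000bf000c000201,
0xa2c45700000002600000008f0000000910000000a50000000a70000000bf07e1000701,
0x42a3700000002a00000002000000008f00000001e0000000910000000a50000000280597000801,
0x8a130000000a500000009500000002c05a3000401,
0x84ca2830000000240000000bf00000009500000001200000008f00000009b00000009100000009f0000000a50000000a700000000800000000c00000002e0024000e01,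
0xcad90000000220000000b900000002e00000009500000008f00000009b00000009100000009f0000000300000000a50000000a700000000800000000c0000000bf000000012001000]

def c24_19_n_n_pf : List Nat := c24_19_n_n_p0

theorem c24_19_n_n_ref {V : Type} {S : SRel V} {p : Nat → V} (hp : ∀ i j, i < 7 → j < 7 → p i = p j → i = j)
    (hts : PHs S p 7 (mA ++ (gf (fun x => 8 + cr 4 x) rf24 ++ (gf (fun x => 8 + c6 5 6 1 2 3 x) f19 ++ fp2.map (tren (n6 1 2 4)))))) : False :=
  refuteS (k := 7) (n2 := 3) (n3 := 1) (n4 := 3) (o3 := 84) (o4 := 168) (M := 1386) (mA ++ (gf (fun x => 8 + cr 4 x) rf24 ++ (gf (fun x => 8 + c6 5 6 1 2 3 x) f19 ++ fp2.map (tren (n6 1 2 4))))) c24_19_n_n_pf (by decide +kernel)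
    (by decide +kernel) (by decide +kernel) (by decide +kernel) hp hts

theorem c24_19_n_n {V : Type} {W : Mw V} (h : W.Hy) {a b c d u w : V} (nd : [W.z, a, b, c, d, u, w].Nodup)
    (hr : Hit (mrel0 h.bs) (pt [a, b, c, d] W.z) rf24)
    (hf : Hit (mrel0 h.bs) (v6 W.z u w a b c) f19)
    (hq : ¬ FS (mrel0 h.bs) W.z fp2 a b d) : False :=
  c24_19_n_n_ref (pt_inj (o := W.z) nd rfl) (PHs.app (h.ph rfl _) (PHs.app (gf_ph hr (cr 4) (cr_pt (n := 4) (l := [a, b, c, d]) (l' := [u, w]) rfl)) (PHs.app (gf_ph hf (c6 5 6 1 2 3) (c6_v6 rfl rfl rfl rfl rfl rfl)) (nf_ph hq (ia := 1) (ib := 2) (ic := 4) rfl rfl rfl rfl))))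

def c24_19_n_4_p0 : List Nat := [
0xa7000000095000200]

def c24_19_n_4_pf : List Nat := c24_19_n_4_p0

theorem c24_19_n_4_ref {V : Type} {S : SRel V} {p : Nat → V} (hp : ∀ i j, i < 6 → j < 6 → p i = p j → i = j)
    (hts : PHs S p 6 (mA ++ (gf (fun x => 8 + cr 4 x) rf24 ++ (gf (fun x => 8 + c6 5 4 1 2 3 x) f19 ++ fp2.map (tren (n6 1 2 4)))))) : False :=
  refuteS (k := 6) (n2 := 3) (n3 := 1) (n4 := 3) (o3 := 63) (o4 := 119) (M := 812) (mA ++ (gf (fun x => 8 + cr 4 x) rf24 ++ (gf (fun x => 8 + c6 5 4 1 2 3 x) f19 ++ fp2.map (tren (n6 1 2 4))))) c24_19_n_4_pf (by decide +kernel)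
    (by decide +kernel) (by decide +kernel) (by decide +kernel) hp hts

theorem c24_19_n_4 {V : Type} {W : Mw V} (h : W.Hy) {a b c d u : V} (nd : [W.z, a, b, c, d, u].Nodup)
    (hr : Hit (mrel0 h.bs) (pt [a, b, c, d] W.z) rf24)
    (hf : Hit (mrel0 h.bs) (v6 W.z u d a b c) f19)
    (hq : ¬ FS (mrel0 h.bs) W.z fp2 a b d) : False :=
  c24_19_n_4_ref (pt_inj (o := W.z) nd rfl) (PHs.app (h.ph rfl _) (PHs.app (gf_ph hr (cr 4) (cr_pt (n := 4) (l := [a, b, c, d]) (l' := [u]) rfl)) (PHs.app (gf_ph hf (c6 5 4 1 2 3) (c6_v6 rfl rfl rfl rfl rfl rfl)) (nf_ph hq (ia := 1) (ib := 2) (ic := 4) rfl rfl rfl rfl))))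

def c24_19_4_n_p0 : List Nat := [
0xa5000000095000200]

def c24_19_4_n_pf : List Nat := c24_19_4_n_p0

theorem c24_19_4_n_ref {V : Type} {S : SRel V} {p : Nat → V} (hp : ∀ i j, i < 6 → j < 6 → p i = p j → i = j)
    (hts : PHs S p 6 (mA ++ (gf (fun x => 8 + cr 4 x) rf24 ++ (gf (fun x => 8 + c6 4 5 1 2 3 x) f19 ++ fp2.map (tren (n6 1 2 4)))))) : False :=
  refuteS (k := 6) (n2 := 3) (n3 := 1) (n4 := 3) (o3 := 63) (o4 := 119) (M := 812) (mA ++ (gf (fun x => 8 + cr 4 x) rf24 ++ (gf (fun x => 8 + c6 4 5 1 2 3 x) f19 ++ fp2.map (tren (n6 1 2 4))))) c24_19_4_n_pf (by decide +kernel)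
    (by decide +kernel) (by decide +kernel) (by decide +kernel) hp hts

theorem c24_19_4_n {V : Type} {W : Mw V} (h : W.Hy) {a b c d w : V} (nd : [W.z, a, b, c, d, w].Nodup)
    (hr : Hit (mrel0 h.bs) (pt [a, b, c, d] W.z) rf24)
    (hf : Hit (mrel0 h.bs) (v6 W.z d w a b c) f19)
    (hq : ¬ FS (mrel0 h.bs) W.z fp2 a b d) : False :=
  c24_19_4_n_ref (pt_inj (o := W.z) nd rfl) (PHs.app (h.ph rfl _) (PHs.app (gf_ph hr (cr 4) (cr_pt (n := 4) (l := [a, b, c, d]) (l' := [w]) rfl)) (PHs.app (gf_ph hf (c6 4 5 1 2 3) (c6_v6 rfl rfl rfl rfl rfl rfl)) (nf_ph hq (ia := 1) (ib := 2) (ic := 4) rfl rfl rfl rfl))))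

def c24_20_n_n_p0 : List Nat := [
0x8640b000000093000000091000000095072c000401,
0x86a0b0000000950000000930000000a507a1000401,
0x86c0b0000000950000000930000000a708ee000401,
0x862a0070000000040000000ad0231000301,
0x6ca0030000000af09c3000201,
0x8a6c0070000000060000000af0396000301,
0xc62a0070000000ad00000000a03cc000301,
0x6c40030000000b108df000201,
0x8c640070000000020000000b10480000301,
0xa40c60700000000a0000000b1045f000301,
0x4a6c0070000000af0000000100390000301,
0x6ca4030000000140984000201,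
0x4ca003000000016097b000201,
0x4c0a6070000000af00000001802b2000301,
0x4c2a00700000000e00000001a021c000301,
0x4c22f0000000a700000008f0000000910000000b70952000501,
0x64a26d00000001c00000009300000008f00000009100000009d0000000a50000000ad0000000b907b4000901,
0xc4a21d0000000bb000c000201,
0xa2c45700000002000000008f0000000910000000a50000000a70000000bb07e1000701,
0x42a3700000002600000002200000008f00000001e0000000910000000a50000000240597000801,
0x8a130000000a500000009500000002805a3000401,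
0xcad70000000b700000002a00000009500000008f00000009b00000009100000009f0000000a50000000a700000000800000000c0000000bb000000012000e00]

def c24_20_n_n_pf : List Nat := c24_20_n_n_p0

theorem c24_20_n_n_ref {V : Type} {S : SRel V} {p : Nat → V} (hp : ∀ i j, i < 7 → j < 7 → p i = p j → i = j)
    (hts : PHs S p 7 (mA ++ (gf (fun x => 8 + cr 4 x) rf24 ++ (gf (fun x => 8 + c6 5 6 1 2 3 x) f20 ++ fp2.map (tren (n6 1 2 4)))))) : False :=
  refuteS (k := 7) (n2 := 3) (n3 := 1) (n4 := 3) (o3 := 84) (o4 := 168) (M := 1386) (mA ++ (gf (fun x => 8 + cr 4 x) rf24 ++ (gf (fun x => 8 + c6 5 6 1 2 3 x) f20 ++ fp2.map (tren (n6 1 2 4))))) c24_20_n_n_pf (by decide +kernel)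
    (by decide +kernel) (by decide +kernel) (by decide +kernel) hp hts

theorem c24_20_n_n {V : Type} {W : Mw V} (h : W.Hy) {a b c d u w : V} (nd : [W.z, a, b, c, d, u, w].Nodup)
    (hr : Hit (mrel0 h.bs) (pt [a, b, c, d] W.z) rf24)
    (hf : Hit (mrel0 h.bs) (v6 W.z u w a b c) f20)
    (hq : ¬ FS (mrel0 h.bs) W.z fp2 a b d) : False :=
  c24_20_n_n_ref (pt_inj (o := W.z) nd rfl) (PHs.app (h.ph rfl _) (PHs.app (gf_ph hr (cr 4) (cr_pt (n := 4) (l := [a, b, c, d]) (l' := [u, w]) rfl)) (PHs.app (gf_ph hf (c6 5 6 1 2 3) (c6_v6 rfl rfl rfl rfl rfl rfl)) (nf_ph hq (ia := 1) (ib := 2) (ic := 4) rfl rfl rfl rfl))))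

def c24_20_n_4_p0 : List Nat := [
0xa7000000095000200]

def c24_20_n_4_pf : List Nat := c24_20_n_4_p0

theorem c24_20_n_4_ref {V : Type} {S : SRel V} {p : Nat → V} (hp : ∀ i j, i < 6 → j < 6 → p i = p j → i = j)
    (hts : PHs S p 6 (mA ++ (gf (fun x => 8 + cr 4 x) rf24 ++ (gf (fun x => 8 + c6 5 4 1 2 3 x) f20 ++ fp2.map (tren (n6 1 2 4)))))) : False :=
  refuteS (k := 6) (n2 := 3) (n3 := 1) (n4 := 3) (o3 := 63) (o4 := 119) (M := 812) (mA ++ (gf (fun x => 8 + cr 4 x) rf24 ++ (gf (fun x => 8 + c6 5 4 1 2 3 x) f20 ++ fp2.map (tren (n6 1 2 4))))) c24_20_n_4_pf (by decide +kernel)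
    (by decide +kernel) (by decide +kernel) (by decide +kernel) hp hts

theorem c24_20_n_4 {V : Type} {W : Mw V} (h : W.Hy) {a b c d u : V} (nd : [W.z, a, b, c, d, u].Nodup)
    (hr : Hit (mrel0 h.bs) (pt [a, b, c, d] W.z) rf24)
    (hf : Hit (mrel0 h.bs) (v6 W.z u d a b c) f20)
    (hq : ¬ FS (mrel0 h.bs) W.z fp2 a b d) : False :=
  c24_20_n_4_ref (pt_inj (o := W.z) nd rfl) (PHs.app (h.ph rfl _) (PHs.app (gf_ph hr (cr 4) (cr_pt (n := 4) (l := [a, b, c, d]) (l' := [u]) rfl)) (PHs.app (gf_ph hf (c6 5 4 1 2 3) (c6_v6 rfl rfl rfl rfl rfl rfl)) (nf_ph hq (ia := 1) (ib := 2) (ic := 4) rfl rfl rfl rfl))))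

def c24_20_4_n_p0 : List Nat := [
0xa5000000095000200]

def c24_20_4_n_pf : List Nat := c24_20_4_n_p0

theorem c24_20_4_n_ref {V : Type} {S : SRel V} {p : Nat → V} (hp : ∀ i j, i < 6 → j < 6 → p i = p j → i = j)
    (hts : PHs S p 6 (mA ++ (gf (fun x => 8 + cr 4 x) rf24 ++ (gf (fun x => 8 + c6 4 5 1 2 3 x) f20 ++ fp2.map (tren (n6 1 2 4)))))) : False :=
  refuteS (k := 6) (n2 := 3) (n3 := 1) (n4 := 3) (o3 := 63) (o4 := 119) (M := 812) (mA ++ (gf (fun x => 8 + cr 4 x) rf24 ++ (gf (fun x => 8 + c6 4 5 1 2 3 x) f20 ++ fp2.map (tren (n6 1 2 4))))) c24_20_4_n_pf (by decide +kernel)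
    (by decide +kernel) (by decide +kernel) (by decide +kernel) hp hts

theorem c24_20_4_n {V : Type} {W : Mw V} (h : W.Hy) {a b c d w : V} (nd : [W.z, a, b, c, d, w].Nodup)
    (hr : Hit (mrel0 h.bs) (pt [a, b, c, d] W.z) rf24)
    (hf : Hit (mrel0 h.bs) (v6 W.z d w a b c) f20)
    (hq : ¬ FS (mrel0 h.bs) W.z fp2 a b d) : False :=
  c24_20_4_n_ref (pt_inj (o := W.z) nd rfl) (PHs.app (h.ph rfl _) (PHs.app (gf_ph hr (cr 4) (cr_pt (n := 4) (l := [a, b, c, d]) (l' := [w]) rfl)) (PHs.app (gf_ph hf (c6 4 5 1 2 3) (c6_v6 rfl rfl rfl rfl rfl rfl)) (nf_ph hq (ia := 1) (ib := 2) (ic := 4) rfl rfl rfl rfl))))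

theorem P24_1 {V : Type} {W : Mw V} (h : W.Hy) {a b c d u w : V} (nd : [W.z, a, b, c, d].Nodup)
    (hr : Hit (mrel0 h.bs) (pt [a, b, c, d] W.z) rf24)
    (hf : Hit (mrel0 h.bs) (v6 W.z u w a b c) f1) (hq : ¬ FS (mrel0 h.bs) W.z fp2 a b d) : False := by
  exact c24_1 h nd hr (hit00 (by decide) hf) hq

theorem P24_6 {V : Type} {W : Mw V} (h : W.Hy) {a b c d u w : V} (nd : [W.z, a, b, c, d].Nodup)
    (hr : Hit (mrel0 h.bs) (pt [a, b, c, d] W.z) rf24)
    (hf : Hit (mrel0 h.bs) (v6 W.z u w a b c) f6) (hq : ¬ FS (mrel0 h.bs) W.z fp2 a b d) : False := by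
  have hf := hit01 (by decide) hf
  have hs := hn1 hf rfl
  by_cases id : u = d
  · subst id
    exact c24_6_4 h nd hr hf hq
  exact c24_6_n h (nd_snoc nd (nin5 hs.1 hs.2.1 hs.2.2.1 hs.2.2.2 id)) hr hf hq

theorem P24_7 {V : Type} {W : Mw V} (h : W.Hy) {a b c d u w : V} (nd : [W.z, a, b, c, d].Nodup)
    (hr : Hit (mrel0 h.bs) (pt [a, b, c, d] W.z) rf24)
    (hf : Hit (mrel0 h.bs) (v6 W.z u w a b c) f7) (hq : ¬ FS (mrel0 h.bs) W.z fp2 a b d) : False := by
  have hf := hit01 (by decide) hf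
  have hs := hn1 hf rfl
  by_cases id : u = d
  · subst id
    exact c24_7_4 h nd hr hf hq
  exact c24_7_n h (nd_snoc nd (nin5 hs.1 hs.2.1 hs.2.2.1 hs.2.2.2 id)) hr hf hq

theorem P24_10 {V : Type} {W : Mw V} (h : W.Hy) {a b c d u w : V} (nd : [W.z, a, b, c, d].Nodup)
    (hr : Hit (mrel0 h.bs) (pt [a, b, c, d] W.z) rf24)
    (hf : Hit (mrel0 h.bs) (v6 W.z u w a b c) f10) (hq : ¬ FS (mrel0 h.bs) W.z fp2 a b d) : False := by
  have hf := hit01 (by decide) hf
  have hs := hn1 hf rfl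
  by_cases id : u = d
  · subst id
    exact c24_10_4 h nd hr hf hq
  exact c24_10_n h (nd_snoc nd (nin5 hs.1 hs.2.1 hs.2.2.1 hs.2.2.2 id)) hr hf hq

theorem P24_11 {V : Type} {W : Mw V} (h : W.Hy) {a b c d u w : V} (nd : [W.z, a, b, c, d].Nodup)
    (hr : Hit (mrel0 h.bs) (pt [a, b, c, d] W.z) rf24)
    (hf : Hit (mrel0 h.bs) (v6 W.z u w a b c) f11) (hq : ¬ FS (mrel0 h.bs) W.z fp2 a b d) : False := by
  have hf := hit01 (by decide) hf
  have hs := hn1 hf rfl
  by_cases id : u = d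
  · subst id
    exact c24_11_4 h nd hr hf hq
  exact c24_11_n h (nd_snoc nd (nin5 hs.1 hs.2.1 hs.2.2.1 hs.2.2.2 id)) hr hf hq

theorem P24_12 {V : Type} {W : Mw V} (h : W.Hy) {a b c d u w : V} (nd : [W.z, a, b, c, d].Nodup)
    (hr : Hit (mrel0 h.bs) (pt [a, b, c, d] W.z) rf24)
    (hf : Hit (mrel0 h.bs) (v6 W.z u w a b c) f12) (hq : ¬ FS (mrel0 h.bs) W.z fp2 a b d) : False := by
  have hf := hit01 (by decide) hf
  have hs := hn1 hf rfl
  by_cases id : u = d
  · subst id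
    exact c24_12_4 h nd hr hf hq
  exact c24_12_n h (nd_snoc nd (nin5 hs.1 hs.2.1 hs.2.2.1 hs.2.2.2 id)) hr hf hq

theorem P24_13 {V : Type} {W : Mw V} (h : W.Hy) {a b c d u w : V} (nd : [W.z, a, b, c, d].Nodup)
    (hr : Hit (mrel0 h.bs) (pt [a, b, c, d] W.z) rf24)
    (hf : Hit (mrel0 h.bs) (v6 W.z u w a b c) f13) (hq : ¬ FS (mrel0 h.bs) W.z fp2 a b d) : False := by
  have hf := hit01 (by decide) hf
  have hs := hn1 hf rfl
  by_cases id : u = d
  · subst id
    exact c24_13_4 h nd hr hf hq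
  exact c24_13_n h (nd_snoc nd (nin5 hs.1 hs.2.1 hs.2.2.1 hs.2.2.2 id)) hr hf hq

theorem P24_14 {V : Type} {W : Mw V} (h : W.Hy) {a b c d u w : V} (nd : [W.z, a, b, c, d].Nodup)
    (hr : Hit (mrel0 h.bs) (pt [a, b, c, d] W.z) rf24)
    (hf : Hit (mrel0 h.bs) (v6 W.z u w a b c) f14) (hq : ¬ FS (mrel0 h.bs) W.z fp2 a b d) : False := by
  have hs := hn2 hf rfl
  by_cases id : u = d
  · subst id
    exact c24_14_4_n h (nd_snoc nd (nin5 hs.2.2.1 hs.2.2.2.1 hs.2.2.2.2.1 hs.2.2.2.2.2 hs.1.symm)) hr hf hq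
  by_cases jd : w = d
  · subst jd
    exact c24_14_n_4 h (nd_snoc nd (nin5 hs.2.1.1 hs.2.1.2.1 hs.2.1.2.2.1 hs.2.1.2.2.2 hs.1)) hr hf hq
  exact c24_14_n_n h (nd_snoc (nd_snoc nd (nin5 hs.2.1.1 hs.2.1.2.1 hs.2.1.2.2.1 hs.2.1.2.2.2 id)) (nin6 hs.2.2.1 hs.2.2.2.1 hs.2.2.2.2.1 hs.2.2.2.2.2 jd hs.1.symm)) hr hf hq

theorem P24_15 {V : Type} {W : Mw V} (h : W.Hy) {a b c d u w : V} (nd : [W.z, a, b, c, d].Nodup)
    (hr : Hit (mrel0 h.bs) (pt [a, b, c, d] W.z) rf24)
    (hf : Hit (mrel0 h.bs) (v6 W.z u w a b c) f15) (hq : ¬ FS (mrel0 h.bs) W.z fp2 a b d) : False := by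
  have hs := hn2 hf rfl
  by_cases id : u = d
  · subst id
    exact c24_15_4_n h (nd_snoc nd (nin5 hs.2.2.1 hs.2.2.2.1 hs.2.2.2.2.1 hs.2.2.2.2.2 hs.1.symm)) hr hf hq
  by_cases jd : w = d
  · subst jd
    exact c24_15_n_4 h (nd_snoc nd (nin5 hs.2.1.1 hs.2.1.2.1 hs.2.1.2.2.1 hs.2.1.2.2.2 hs.1)) hr hf hq
  exact c24_15_n_n h (nd_snoc (nd_snoc nd (nin5 hs.2.1.1 hs.2.1.2.1 hs.2.1.2.2.1 hs.2.1.2.2.2 id)) (nin6 hs.2.2.1 hs.2.2.2.1 hs.2.2.2.2.1 hs.2.2.2.2.2 jd hs.1.symm)) hr hf hq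

theorem P24_16 {V : Type} {W : Mw V} (h : W.Hy) {a b c d u w : V} (nd : [W.z, a, b, c, d].Nodup)
    (hr : Hit (mrel0 h.bs) (pt [a, b, c, d] W.z) rf24)
    (hf : Hit (mrel0 h.bs) (v6 W.z u w a b c) f16) (hq : ¬ FS (mrel0 h.bs) W.z fp2 a b d) : False := by
  have hs := hn2 hf rfl
  by_cases id : u = d
  · subst id
    exact c24_16_4_n h (nd_snoc nd (nin5 hs.2.2.1 hs.2.2.2.1 hs.2.2.2.2.1 hs.2.2.2.2.2 hs.1.symm)) hr hf hq
  by_cases jd : w = d
  · subst jd
    exact c24_16_n_4 h (nd_snoc nd (nin5 hs.2.1.1 hs.2.1.2.1 hs.2.1.2.2.1 hs.2.1.2.2.2 hs.1)) hr hf hq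
  exact c24_16_n_n h (nd_snoc (nd_snoc nd (nin5 hs.2.1.1 hs.2.1.2.1 hs.2.1.2.2.1 hs.2.1.2.2.2 id)) (nin6 hs.2.2.1 hs.2.2.2.1 hs.2.2.2.2.1 hs.2.2.2.2.2 jd hs.1.symm)) hr hf hq

theorem P24_17 {V : Type} {W : Mw V} (h : W.Hy) {a b c d u w : V} (nd : [W.z, a, b, c, d].Nodup)
    (hr : Hit (mrel0 h.bs) (pt [a, b, c, d] W.z) rf24)
    (hf : Hit (mrel0 h.bs) (v6 W.z u w a b c) f17) (hq : ¬ FS (mrel0 h.bs) W.z fp2 a b d) : False := by
  have hs := hn2 hf rfl
  by_cases id : u = d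
  · subst id
    exact c24_17_4_n h (nd_snoc nd (nin5 hs.2.2.1 hs.2.2.2.1 hs.2.2.2.2.1 hs.2.2.2.2.2 hs.1.symm)) hr hf hq
  by_cases jd : w = d
  · subst jd
    exact c24_17_n_4 h (nd_snoc nd (nin5 hs.2.1.1 hs.2.1.2.1 hs.2.1.2.2.1 hs.2.1.2.2.2 hs.1)) hr hf hq
  exact c24_17_n_n h (nd_snoc (nd_snoc nd (nin5 hs.2.1.1 hs.2.1.2.1 hs.2.1.2.2.1 hs.2.1.2.2.2 id)) (nin6 hs.2.2.1 hs.2.2.2.1 hs.2.2.2.2.1 hs.2.2.2.2.2 jd hs.1.symm)) hr hf hq

theorem P24_18 {V : Type} {W : Mw V} (h : W.Hy) {a b c d u w : V} (nd : [W.z, a, b, c, d].Nodup)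
    (hr : Hit (mrel0 h.bs) (pt [a, b, c, d] W.z) rf24)
    (hf : Hit (mrel0 h.bs) (v6 W.z u w a b c) f18) (hq : ¬ FS (mrel0 h.bs) W.z fp2 a b d) : False := by
  have hs := hn2 hf rfl
  by_cases id : u = d
  · subst id
    exact c24_18_4_n h (nd_snoc nd (nin5 hs.2.2.1 hs.2.2.2.1 hs.2.2.2.2.1 hs.2.2.2.2.2 hs.1.symm)) hr hf hq
  by_cases jd : w = d
  · subst jd
    exact c24_18_n_4 h (nd_snoc nd (nin5 hs.2.1.1 hs.2.1.2.1 hs.2.1.2.2.1 hs.2.1.2.2.2 hs.1)) hr hf hq
  exact c24_18_n_n h (nd_snoc (nd_snoc nd (nin5 hs.2.1.1 hs.2.1.2.1 hs.2.1.2.2.1 hs.2.1.2.2.2 id)) (nin6 hs.2.2.1 hs.2.2.2.1 hs.2.2.2.2.1 hs.2.2.2.2.2 jd hs.1.symm)) hr hf hq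

theorem P24_19 {V : Type} {W : Mw V} (h : W.Hy) {a b c d u w : V} (nd : [W.z, a, b, c, d].Nodup)
    (hr : Hit (mrel0 h.bs) (pt [a, b, c, d] W.z) rf24)
    (hf : Hit (mrel0 h.bs) (v6 W.z u w a b c) f19) (hq : ¬ FS (mrel0 h.bs) W.z fp2 a b d) : False := by
  have hs := hn2 hf rfl
  by_cases id : u = d
  · subst id
    exact c24_19_4_n h (nd_snoc nd (nin5 hs.2.2.1 hs.2.2.2.1 hs.2.2.2.2.1 hs.2.2.2.2.2 hs.1.symm)) hr hf hq
  by_cases jd : w = d
  · subst jd
    exact c24_19_n_4 h (nd_snoc nd (nin5 hs.2.1.1 hs.2.1.2.1 hs.2.1.2.2.1 hs.2.1.2.2.2 hs.1)) hr hf hq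
  exact c24_19_n_n h (nd_snoc (nd_snoc nd (nin5 hs.2.1.1 hs.2.1.2.1 hs.2.1.2.2.1 hs.2.1.2.2.2 id)) (nin6 hs.2.2.1 hs.2.2.2.1 hs.2.2.2.2.1 hs.2.2.2.2.2 jd hs.1.symm)) hr hf hq

theorem P24_20 {V : Type} {W : Mw V} (h : W.Hy) {a b c d u w : V} (nd : [W.z, a, b, c, d].Nodup)
    (hr : Hit (mrel0 h.bs) (pt [a, b, c, d] W.z) rf24)
    (hf : Hit (mrel0 h.bs) (v6 W.z u w a b c) f20) (hq : ¬ FS (mrel0 h.bs) W.z fp2 a b d) : False := by
  have hs := hn2 hf rfl
  by_cases id : u = d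
  · subst id
    exact c24_20_4_n h (nd_snoc nd (nin5 hs.2.2.1 hs.2.2.2.1 hs.2.2.2.2.1 hs.2.2.2.2.2 hs.1.symm)) hr hf hq
  by_cases jd : w = d
  · subst jd
    exact c24_20_n_4 h (nd_snoc nd (nin5 hs.2.1.1 hs.2.1.2.1 hs.2.1.2.2.1 hs.2.1.2.2.2 hs.1)) hr hf hq
  exact c24_20_n_n h (nd_snoc (nd_snoc nd (nin5 hs.2.1.1 hs.2.1.2.1 hs.2.1.2.2.1 hs.2.1.2.2.2 id)) (nin6 hs.2.2.1 hs.2.2.2.1 hs.2.2.2.2.1 hs.2.2.2.2.2 jd hs.1.symm)) hr hf hq

theorem R24 {V : Type} {W : Mw V} (h : W.Hy) {a b c d : V} (nd : [W.z, a, b, c, d].Nodup)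
    (hr : Hit (mrel0 h.bs) (pt [a, b, c, d] W.z) rf24)
    (hp : FS (mrel0 h.bs) W.z fp2 a b c) : FS (mrel0 h.bs) W.z fp2 a b d := by
  by_contra hq
  obtain ⟨t, ht, u, w, hf⟩ := hp
  simp only [fp2, List.mem_cons, List.not_mem_nil, or_false] at ht
  rcases ht with rfl | rfl | rfl | rfl | rfl | rfl | rfl | rfl | rfl | rfl | rfl | rfl | rfl | rfl
  · exact P24_1 h nd hr hf hq
  · exact P24_6 h nd hr hf hq
  · exact P24_7 h nd hr hf hq
  · exact P24_10 h nd hr hf hq
  · exact P24_11 h nd hr hf hq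
  · exact P24_12 h nd hr hf hq
  · exact P24_13 h nd hr hf hq
  · exact P24_14 h nd hr hf hq
  · exact P24_15 h nd hr hf hq
  · exact P24_16 h nd hr hf hq
  · exact P24_17 h nd hr hf hq
  · exact P24_18 h nd hr hf hq
  · exact P24_19 h nd hr hf hq
  · exact P24_20 h nd hr hf hq

end Pool.Agent.SOU
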