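import Pool.Agent.SOU.TB

/-! Project SOU (MP_66ba69_lc, mixed insertion): rule 25 (generated). -/

set_option autoImplicit false
set_option maxRecDepth 100000
set_option linter.unusedVariables false

namespace Pool.Agent.SOU

open Pool.Agent.RUP Pool.Agent.SOQ

def c25_1_p0 : List Nat := [
0x8640b0000000930000000910000000950322000401,
0x682400700000000200000009700ad000301,
0xb30000000930000000b100000008f00000009b00000009100000009f000000004000800]

def c25_1_pf : List Nat := c25_1_p0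

theorem c25_1_ref {V : Type} {S : SRel V} {p : Nat → V} (hp : ∀ i j, i < 5 → j < 5 → p i = p j → i = j)
    (hts : PHs S p 5 (mA ++ (gf (fun x => 8 + cr 4 x) rf25 ++ (gf (fun x => 8 + c6 0 0 1 2 4 x) f1 ++ fp2.map (tren (n6 1 2 3)))))) : False :=
  refuteS (k := 5) (n2 := 3) (n3 := 1) (n4 := 3) (o3 := 45) (o4 := 80) (M := 440) (mA ++ (gf (fun x => 8 + cr 4 x) rf25 ++ (gf (fun x => 8 + c6 0 0 1 2 4 x) f1 ++ fp2.map (tren (n6 1 2 3))))) c25_1_pf (by decide +kernel)
    (by decide +kernel) (by decide +kernel) (by decide +kernel) hp hts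

theorem c25_1 {V : Type} {W : Mw V} (h : W.Hy) {a b c d : V} (nd : [W.z, a, b, c, d].Nodup)
    (hr : Hit (mrel0 h.bs) (pt [a, b, c, d] W.z) rf25)
    (hf : Hit (mrel0 h.bs) (v6 W.z W.z W.z a b d) f1)
    (hq : ¬ FS (mrel0 h.bs) W.z fp2 a b c) : False :=
  c25_1_ref (pt_inj (o := W.z) nd rfl) (PHs.app (h.ph rfl _) (PHs.app (gf_ph hr (cr 4) (cr_pt (n := 4) (l := [a, b, c, d]) (l' := []) rfl)) (PHs.app (gf_ph hf (c6 0 0 1 2 4) (c6_v6 rfl rfl rfl rfl rfl rfl)) (nf_ph hq (ia := 1) (ib := 2) (ic := 3) rfl rfl rfl rfl))))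

def c25_6_n_p0 : List Nat := [
0x8640b00000009300000009100000009504bd000401,
0x682400700000000200000009700d4000301,
0xa620b00000009300000008f0000000a905a7000401,
0x6a421d0000000b705b1000201,
0x8a421d0000000b705ea000201,
0xa8624250000000a100000000805c9000301,
0xa6824250000000a100000000a05f6000301,
0xabb0000000a90000000b700000009300000008f00000009b00000009100000009f0000000b50000000040520000a01,
0xa620010000000060000000100221000301,
0x682a0070000000af0000000100206000301,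
0x8a62630000000a90000000b700000009500000009300000008f00000009d0000000af00000001205f0000901,
0x8a62650000000a90000000b70000000950000000b500000009300000008f00000009f00000009d0000000af0000000120027000b01,
0x4a086070000000020000000140269000301,
0x86a350000000160000000140000000a90000000950000000930000000b50000000180297000801,
0x86a41f00000000e00000000c00000001800000001a035f000501,
0x8acd0000000a900000001e00000009500000009300000008f00000009b00000009100000009f0000000970000000a10000000af00000001200000001c000e00]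

def c25_6_n_pf : List Nat := c25_6_n_p0

theorem c25_6_n_ref {V : Type} {S : SRel V} {p : Nat → V} (hp : ∀ i j, i < 6 → j < 6 → p i = p j → i = j)
    (hts : PHs S p 6 (mA ++ (gf (fun x => 8 + cr 4 x) rf25 ++ (gf (fun x => 8 + c6 5 0 1 2 4 x) f6 ++ fp2.map (tren (n6 1 2 3)))))) : False :=
  refuteS (k := 6) (n2 := 3) (n3 := 1) (n4 := 3) (o3 := 63) (o4 := 119) (M := 812) (mA ++ (gf (fun x => 8 + cr 4 x) rf25 ++ (gf (fun x => 8 + c6 5 0 1 2 4 x) f6 ++ fp2.map (tren (n6 1 2 3))))) c25_6_n_pf (by decide +kernel)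
    (by decide +kernel) (by decide +kernel) (by decide +kernel) hp hts

theorem c25_6_n {V : Type} {W : Mw V} (h : W.Hy) {a b c d u : V} (nd : [W.z, a, b, c, d, u].Nodup)
    (hr : Hit (mrel0 h.bs) (pt [a, b, c, d] W.z) rf25)
    (hf : Hit (mrel0 h.bs) (v6 W.z u W.z a b d) f6)
    (hq : ¬ FS (mrel0 h.bs) W.z fp2 a b c) : False :=
  c25_6_n_ref (pt_inj (o := W.z) nd rfl) (PHs.app (h.ph rfl _) (PHs.app (gf_ph hr (cr 4) (cr_pt (n := 4) (l := [a, b, c, d]) (l' := [u]) rfl)) (PHs.app (gf_ph hf (c6 5 0 1 2 4) (c6_v6 rfl rfl rfl rfl rfl rfl)) (nf_ph hq (ia := 1) (ib := 2) (ic := 3) rfl rfl rfl rfl))))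

def c25_6_3_p0 : List Nat := [
0xb700000009f000200]

def c25_6_3_pf : List Nat := c25_6_3_p0

theorem c25_6_3_ref {V : Type} {S : SRel V} {p : Nat → V} (hp : ∀ i j, i < 5 → j < 5 → p i = p j → i = j)
    (hts : PHs S p 5 (mA ++ (gf (fun x => 8 + cr 4 x) rf25 ++ (gf (fun x => 8 + c6 3 0 1 2 4 x) f6 ++ fp2.map (tren (n6 1 2 3)))))) : False :=
  refuteS (k := 5) (n2 := 3) (n3 := 1) (n4 := 3) (o3 := 45) (o4 := 80) (M := 440) (mA ++ (gf (fun x => 8 + cr 4 x) rf25 ++ (gf (fun x => 8 + c6 3 0 1 2 4 x) f6 ++ fp2.map (tren (n6 1 2 3))))) c25_6_3_pf (by decide +kernel)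
    (by decide +kernel) (by decide +kernel) (by decide +kernel) hp hts

theorem c25_6_3 {V : Type} {W : Mw V} (h : W.Hy) {a b c d : V} (nd : [W.z, a, b, c, d].Nodup)
    (hr : Hit (mrel0 h.bs) (pt [a, b, c, d] W.z) rf25)
    (hf : Hit (mrel0 h.bs) (v6 W.z c W.z a b d) f6)
    (hq : ¬ FS (mrel0 h.bs) W.z fp2 a b c) : False :=
  c25_6_3_ref (pt_inj (o := W.z) nd rfl) (PHs.app (h.ph rfl _) (PHs.app (gf_ph hr (cr 4) (cr_pt (n := 4) (l := [a, b, c, d]) (l' := []) rfl)) (PHs.app (gf_ph hf (c6 3 0 1 2 4) (c6_v6 rfl rfl rfl rfl rfl rfl)) (nf_ph hq (ia := 1) (ib := 2) (ic := 3) rfl rfl rfl rfl))))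

def c25_7_n_p0 : List Nat := [
0x8640b00000009300000009100000009504bd000401,
0x682400700000000200000009700d4000301,
0xa620b00000009300000008f0000000a905a7000401,
0x6a421d0000000b505b1000201,
0x8a421d0000000b505ea000201,
0xa8624250000000a100000000805c9000301,
0xa6824250000000a100000000a05f6000301,
0xa4150000000a90000000910000000b7002d000401,
0xabb0000000a90000000b500000009300000008f00000009b00000009100000009f0000000100000000040520000a01,
0xa620010000000060000000120221000301,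
0x682a0070000000af0000000120206000301,
0x8a62650000000a90000000b500000009500000001000000009300000008f00000009f00000009d0000000af0000000140027000b01,
0x4a086070000000020000000160269000301,
0x86a41f00000000e00000000c0000000b700000001800000001a000600]

def c25_7_n_pf : List Nat := c25_7_n_p0

theorem c25_7_n_ref {V : Type} {S : SRel V} {p : Nat → V} (hp : ∀ i j, i < 6 → j < 6 → p i = p j → i = j)
    (hts : PHs S p 6 (mA ++ (gf (fun x => 8 + cr 4 x) rf25 ++ (gf (fun x => 8 + c6 5 0 1 2 4 x) f7 ++ fp2.map (tren (n6 1 2 3)))))) : False :=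
  refuteS (k := 6) (n2 := 3) (n3 := 1) (n4 := 3) (o3 := 63) (o4 := 119) (M := 812) (mA ++ (gf (fun x => 8 + cr 4 x) rf25 ++ (gf (fun x => 8 + c6 5 0 1 2 4 x) f7 ++ fp2.map (tren (n6 1 2 3))))) c25_7_n_pf (by decide +kernel)
    (by decide +kernel) (by decide +kernel) (by decide +kernel) hp hts

theorem c25_7_n {V : Type} {W : Mw V} (h : W.Hy) {a b c d u : V} (nd : [W.z, a, b, c, d, u].Nodup)
    (hr : Hit (mrel0 h.bs) (pt [a, b, c, d] W.z) rf25)
    (hf : Hit (mrel0 h.bs) (v6 W.z u W.z a b d) f7)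
    (hq : ¬ FS (mrel0 h.bs) W.z fp2 a b c) : False :=
  c25_7_n_ref (pt_inj (o := W.z) nd rfl) (PHs.app (h.ph rfl _) (PHs.app (gf_ph hr (cr 4) (cr_pt (n := 4) (l := [a, b, c, d]) (l' := [u]) rfl)) (PHs.app (gf_ph hf (c6 5 0 1 2 4) (c6_v6 rfl rfl rfl rfl rfl rfl)) (nf_ph hq (ia := 1) (ib := 2) (ic := 3) rfl rfl rfl rfl))))

def c25_7_3_p0 : List Nat := [
0xb500000009f000200]

def c25_7_3_pf : List Nat := c25_7_3_p0

theorem c25_7_3_ref {V : Type} {S : SRel V} {p : Nat → V} (hp : ∀ i j, i < 5 → j < 5 → p i = p j → i = j)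
    (hts : PHs S p 5 (mA ++ (gf (fun x => 8 + cr 4 x) rf25 ++ (gf (fun x => 8 + c6 3 0 1 2 4 x) f7 ++ fp2.map (tren (n6 1 2 3)))))) : False :=
  refuteS (k := 5) (n2 := 3) (n3 := 1) (n4 := 3) (o3 := 45) (o4 := 80) (M := 440) (mA ++ (gf (fun x => 8 + cr 4 x) rf25 ++ (gf (fun x => 8 + c6 3 0 1 2 4 x) f7 ++ fp2.map (tren (n6 1 2 3))))) c25_7_3_pf (by decide +kernel)
    (by decide +kernel) (by decide +kernel) (by decide +kernel) hp hts

theorem c25_7_3 {V : Type} {W : Mw V} (h : W.Hy) {a b c d : V} (nd : [W.z, a, b, c, d].Nodup)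
    (hr : Hit (mrel0 h.bs) (pt [a, b, c, d] W.z) rf25)
    (hf : Hit (mrel0 h.bs) (v6 W.z c W.z a b d) f7)
    (hq : ¬ FS (mrel0 h.bs) W.z fp2 a b c) : False :=
  c25_7_3_ref (pt_inj (o := W.z) nd rfl) (PHs.app (h.ph rfl _) (PHs.app (gf_ph hr (cr 4) (cr_pt (n := 4) (l := [a, b, c, d]) (l' := []) rfl)) (PHs.app (gf_ph hf (c6 3 0 1 2 4) (c6_v6 rfl rfl rfl rfl rfl rfl)) (nf_ph hq (ia := 1) (ib := 2) (ic := 3) rfl rfl rfl rfl))))

def c25_10_n_p0 : List Nat := [
0x8620b00000009300000008f00000009504b7000401,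
0x8640b00000009300000009100000009504bd000401,
0x682400700000000400000009700d4000301,
0x6a820070000000020000000ad027b000301,
0xa8642230000000a10000000b50285000301,
0xabd00000009300000008f00000009b00000009100000009f0000000a500000000600000000800000000a000a00]

def c25_10_n_pf : List Nat := c25_10_n_p0

theorem c25_10_n_ref {V : Type} {S : SRel V} {p : Nat → V} (hp : ∀ i j, i < 6 → j < 6 → p i = p j → i = j)
    (hts : PHs S p 6 (mA ++ (gf (fun x => 8 + cr 4 x) rf25 ++ (gf (fun x => 8 + c6 5 0 1 2 4 x) f10 ++ fp2.map (tren (n6 1 2 3)))))) : False :=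
  refuteS (k := 6) (n2 := 3) (n3 := 1) (n4 := 3) (o3 := 63) (o4 := 119) (M := 812) (mA ++ (gf (fun x => 8 + cr 4 x) rf25 ++ (gf (fun x => 8 + c6 5 0 1 2 4 x) f10 ++ fp2.map (tren (n6 1 2 3))))) c25_10_n_pf (by decide +kernel)
    (by decide +kernel) (by decide +kernel) (by decide +kernel) hp hts

theorem c25_10_n {V : Type} {W : Mw V} (h : W.Hy) {a b c d u : V} (nd : [W.z, a, b, c, d, u].Nodup)
    (hr : Hit (mrel0 h.bs) (pt [a, b, c, d] W.z) rf25)
    (hf : Hit (mrel0 h.bs) (v6 W.z u W.z a b d) f10)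
    (hq : ¬ FS (mrel0 h.bs) W.z fp2 a b c) : False :=
  c25_10_n_ref (pt_inj (o := W.z) nd rfl) (PHs.app (h.ph rfl _) (PHs.app (gf_ph hr (cr 4) (cr_pt (n := 4) (l := [a, b, c, d]) (l' := [u]) rfl)) (PHs.app (gf_ph hf (c6 5 0 1 2 4) (c6_v6 rfl rfl rfl rfl rfl rfl)) (nf_ph hq (ia := 1) (ib := 2) (ic := 3) rfl rfl rfl rfl))))

def c25_10_3_p0 : List Nat := [
0xa5000000093000200]

def c25_10_3_pf : List Nat := c25_10_3_p0

theorem c25_10_3_ref {V : Type} {S : SRel V} {p : Nat → V} (hp : ∀ i j, i < 5 → j < 5 → p i = p j → i = j)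
    (hts : PHs S p 5 (mA ++ (gf (fun x => 8 + cr 4 x) rf25 ++ (gf (fun x => 8 + c6 3 0 1 2 4 x) f10 ++ fp2.map (tren (n6 1 2 3)))))) : False :=
  refuteS (k := 5) (n2 := 3) (n3 := 1) (n4 := 3) (o3 := 45) (o4 := 80) (M := 440) (mA ++ (gf (fun x => 8 + cr 4 x) rf25 ++ (gf (fun x => 8 + c6 3 0 1 2 4 x) f10 ++ fp2.map (tren (n6 1 2 3))))) c25_10_3_pf (by decide +kernel)
    (by decide +kernel) (by decide +kernel) (by decide +kernel) hp hts

theorem c25_10_3 {V : Type} {W : Mw V} (h : W.Hy) {a b c d : V} (nd : [W.z, a, b, c, d].Nodup)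
    (hr : Hit (mrel0 h.bs) (pt [a, b, c, d] W.z) rf25)
    (hf : Hit (mrel0 h.bs) (v6 W.z c W.z a b d) f10)
    (hq : ¬ FS (mrel0 h.bs) W.z fp2 a b c) : False :=
  c25_10_3_ref (pt_inj (o := W.z) nd rfl) (PHs.app (h.ph rfl _) (PHs.app (gf_ph hr (cr 4) (cr_pt (n := 4) (l := [a, b, c, d]) (l' := []) rfl)) (PHs.app (gf_ph hf (c6 3 0 1 2 4) (c6_v6 rfl rfl rfl rfl rfl rfl)) (nf_ph hq (ia := 1) (ib := 2) (ic := 3) rfl rfl rfl rfl))))

def c25_11_n_p0 : List Nat := [
0x8620b00000009300000008f00000009504b7000401,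
0x8640b00000009300000009100000009504bd000401,
0x682400700000000400000009700d4000301,
0x86241d0000000a10018000201,
0x6a820070000000020000000ad027b000301,
0x684a0f0000000b50000000a50000000950000000930000000910000000080000000b70036000801,
0xac10000000b500000009300000008f00000009b00000009100000009f00000000c0000000a500000000600000000a000b00]

def c25_11_n_pf : List Nat := c25_11_n_p0

theorem c25_11_n_ref {V : Type} {S : SRel V} {p : Nat → V} (hp : ∀ i j, i < 6 → j < 6 → p i = p j → i = j)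
    (hts : PHs S p 6 (mA ++ (gf (fun x => 8 + cr 4 x) rf25 ++ (gf (fun x => 8 + c6 5 0 1 2 4 x) f11 ++ fp2.map (tren (n6 1 2 3)))))) : False :=
  refuteS (k := 6) (n2 := 3) (n3 := 1) (n4 := 3) (o3 := 63) (o4 := 119) (M := 812) (mA ++ (gf (fun x => 8 + cr 4 x) rf25 ++ (gf (fun x => 8 + c6 5 0 1 2 4 x) f11 ++ fp2.map (tren (n6 1 2 3))))) c25_11_n_pf (by decide +kernel)
    (by decide +kernel) (by decide +kernel) (by decide +kernel) hp hts

theorem c25_11_n {V : Type} {W : Mw V} (h : W.Hy) {a b c d u : V} (nd : [W.z, a, b, c, d, u].Nodup)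
    (hr : Hit (mrel0 h.bs) (pt [a, b, c, d] W.z) rf25)
    (hf : Hit (mrel0 h.bs) (v6 W.z u W.z a b d) f11)
    (hq : ¬ FS (mrel0 h.bs) W.z fp2 a b c) : False :=
  c25_11_n_ref (pt_inj (o := W.z) nd rfl) (PHs.app (h.ph rfl _) (PHs.app (gf_ph hr (cr 4) (cr_pt (n := 4) (l := [a, b, c, d]) (l' := [u]) rfl)) (PHs.app (gf_ph hf (c6 5 0 1 2 4) (c6_v6 rfl rfl rfl rfl rfl rfl)) (nf_ph hq (ia := 1) (ib := 2) (ic := 3) rfl rfl rfl rfl))))

def c25_11_3_p0 : List Nat := [
0xa5000000093000200]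

def c25_11_3_pf : List Nat := c25_11_3_p0

theorem c25_11_3_ref {V : Type} {S : SRel V} {p : Nat → V} (hp : ∀ i j, i < 5 → j < 5 → p i = p j → i = j)
    (hts : PHs S p 5 (mA ++ (gf (fun x => 8 + cr 4 x) rf25 ++ (gf (fun x => 8 + c6 3 0 1 2 4 x) f11 ++ fp2.map (tren (n6 1 2 3)))))) : False :=
  refuteS (k := 5) (n2 := 3) (n3 := 1) (n4 := 3) (o3 := 45) (o4 := 80) (M := 440) (mA ++ (gf (fun x => 8 + cr 4 x) rf25 ++ (gf (fun x => 8 + c6 3 0 1 2 4 x) f11 ++ fp2.map (tren (n6 1 2 3))))) c25_11_3_pf (by decide +kernel)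
    (by decide +kernel) (by decide +kernel) (by decide +kernel) hp hts

theorem c25_11_3 {V : Type} {W : Mw V} (h : W.Hy) {a b c d : V} (nd : [W.z, a, b, c, d].Nodup)
    (hr : Hit (mrel0 h.bs) (pt [a, b, c, d] W.z) rf25)
    (hf : Hit (mrel0 h.bs) (v6 W.z c W.z a b d) f11)
    (hq : ¬ FS (mrel0 h.bs) W.z fp2 a b c) : False :=
  c25_11_3_ref (pt_inj (o := W.z) nd rfl) (PHs.app (h.ph rfl _) (PHs.app (gf_ph hr (cr 4) (cr_pt (n := 4) (l := [a, b, c, d]) (l' := []) rfl)) (PHs.app (gf_ph hf (c6 3 0 1 2 4) (c6_v6 rfl rfl rfl rfl rfl rfl)) (nf_ph hq (ia := 1) (ib := 2) (ic := 3) rfl rfl rfl rfl))))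

def c25_12_n_p0 : List Nat := [
0x8640b00000009300000009100000009504bd000401,
0x682400700000000200000009700d4000301,
0x86a0b0000000950000000930000000a90532000401,
0x684a0070000000060000000af01f7000301,
0x682a0f0000000b50000000a900000009500000009300000008f00000009f0000000b70036000801,
0xac30000000b500000009300000008f00000009b00000009100000009f00000000a0000000a9000000004000000008000b00]

def c25_12_n_pf : List Nat := c25_12_n_p0

theorem c25_12_n_ref {V : Type} {S : SRel V} {p : Nat → V} (hp : ∀ i j, i < 6 → j < 6 → p i = p j → i = j)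
    (hts : PHs S p 6 (mA ++ (gf (fun x => 8 + cr 4 x) rf25 ++ (gf (fun x => 8 + c6 5 0 1 2 4 x) f12 ++ fp2.map (tren (n6 1 2 3)))))) : False :=
  refuteS (k := 6) (n2 := 3) (n3 := 1) (n4 := 3) (o3 := 63) (o4 := 119) (M := 812) (mA ++ (gf (fun x => 8 + cr 4 x) rf25 ++ (gf (fun x => 8 + c6 5 0 1 2 4 x) f12 ++ fp2.map (tren (n6 1 2 3))))) c25_12_n_pf (by decide +kernel)
    (by decide +kernel) (by decide +kernel) (by decide +kernel) hp hts

theorem c25_12_n {V : Type} {W : Mw V} (h : W.Hy) {a b c d u : V} (nd : [W.z, a, b, c, d, u].Nodup)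
    (hr : Hit (mrel0 h.bs) (pt [a, b, c, d] W.z) rf25)
    (hf : Hit (mrel0 h.bs) (v6 W.z u W.z a b d) f12)
    (hq : ¬ FS (mrel0 h.bs) W.z fp2 a b c) : False :=
  c25_12_n_ref (pt_inj (o := W.z) nd rfl) (PHs.app (h.ph rfl _) (PHs.app (gf_ph hr (cr 4) (cr_pt (n := 4) (l := [a, b, c, d]) (l' := [u]) rfl)) (PHs.app (gf_ph hf (c6 5 0 1 2 4) (c6_v6 rfl rfl rfl rfl rfl rfl)) (nf_ph hq (ia := 1) (ib := 2) (ic := 3) rfl rfl rfl rfl))))

def c25_12_3_p0 : List Nat := [
0xa9000000093000200]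

def c25_12_3_pf : List Nat := c25_12_3_p0

theorem c25_12_3_ref {V : Type} {S : SRel V} {p : Nat → V} (hp : ∀ i j, i < 5 → j < 5 → p i = p j → i = j)
    (hts : PHs S p 5 (mA ++ (gf (fun x => 8 + cr 4 x) rf25 ++ (gf (fun x => 8 + c6 3 0 1 2 4 x) f12 ++ fp2.map (tren (n6 1 2 3)))))) : False :=
  refuteS (k := 5) (n2 := 3) (n3 := 1) (n4 := 3) (o3 := 45) (o4 := 80) (M := 440) (mA ++ (gf (fun x => 8 + cr 4 x) rf25 ++ (gf (fun x => 8 + c6 3 0 1 2 4 x) f12 ++ fp2.map (tren (n6 1 2 3))))) c25_12_3_pf (by decide +kernel)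
    (by decide +kernel) (by decide +kernel) (by decide +kernel) hp hts

theorem c25_12_3 {V : Type} {W : Mw V} (h : W.Hy) {a b c d : V} (nd : [W.z, a, b, c, d].Nodup)
    (hr : Hit (mrel0 h.bs) (pt [a, b, c, d] W.z) rf25)
    (hf : Hit (mrel0 h.bs) (v6 W.z c W.z a b d) f12)
    (hq : ¬ FS (mrel0 h.bs) W.z fp2 a b c) : False :=
  c25_12_3_ref (pt_inj (o := W.z) nd rfl) (PHs.app (h.ph rfl _) (PHs.app (gf_ph hr (cr 4) (cr_pt (n := 4) (l := [a, b, c, d]) (l' := []) rfl)) (PHs.app (gf_ph hf (c6 3 0 1 2 4) (c6_v6 rfl rfl rfl rfl rfl rfl)) (nf_ph hq (ia := 1) (ib := 2) (ic := 3) rfl rfl rfl rfl))))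

def c25_13_n_p0 : List Nat := [
0x8640b00000009300000009100000009504bd000401,
0x682400700000000200000009700d4000301,
0x86a0b0000000950000000930000000a90532000401,
0x684a0070000000060000000af01f7000301,
0xac300000009300000008f00000009b00000009100000009f0000000a90000000040000000b5000000008000a00]

def c25_13_n_pf : List Nat := c25_13_n_p0

theorem c25_13_n_ref {V : Type} {S : SRel V} {p : Nat → V} (hp : ∀ i j, i < 6 → j < 6 → p i = p j → i = j)
    (hts : PHs S p 6 (mA ++ (gf (fun x => 8 + cr 4 x) rf25 ++ (gf (fun x => 8 + c6 5 0 1 2 4 x) f13 ++ fp2.map (tren (n6 1 2 3)))))) : False :=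
  refuteS (k := 6) (n2 := 3) (n3 := 1) (n4 := 3) (o3 := 63) (o4 := 119) (M := 812) (mA ++ (gf (fun x => 8 + cr 4 x) rf25 ++ (gf (fun x => 8 + c6 5 0 1 2 4 x) f13 ++ fp2.map (tren (n6 1 2 3))))) c25_13_n_pf (by decide +kernel)
    (by decide +kernel) (by decide +kernel) (by decide +kernel) hp hts

theorem c25_13_n {V : Type} {W : Mw V} (h : W.Hy) {a b c d u : V} (nd : [W.z, a, b, c, d, u].Nodup)
    (hr : Hit (mrel0 h.bs) (pt [a, b, c, d] W.z) rf25)
    (hf : Hit (mrel0 h.bs) (v6 W.z u W.z a b d) f13)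
    (hq : ¬ FS (mrel0 h.bs) W.z fp2 a b c) : False :=
  c25_13_n_ref (pt_inj (o := W.z) nd rfl) (PHs.app (h.ph rfl _) (PHs.app (gf_ph hr (cr 4) (cr_pt (n := 4) (l := [a, b, c, d]) (l' := [u]) rfl)) (PHs.app (gf_ph hf (c6 5 0 1 2 4) (c6_v6 rfl rfl rfl rfl rfl rfl)) (nf_ph hq (ia := 1) (ib := 2) (ic := 3) rfl rfl rfl rfl))))

def c25_13_3_p0 : List Nat := [
0xa9000000093000200]

def c25_13_3_pf : List Nat := c25_13_3_p0

theorem c25_13_3_ref {V : Type} {S : SRel V} {p : Nat → V} (hp : ∀ i j, i < 5 → j < 5 → p i = p j → i = j)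
    (hts : PHs S p 5 (mA ++ (gf (fun x => 8 + cr 4 x) rf25 ++ (gf (fun x => 8 + c6 3 0 1 2 4 x) f13 ++ fp2.map (tren (n6 1 2 3)))))) : False :=
  refuteS (k := 5) (n2 := 3) (n3 := 1) (n4 := 3) (o3 := 45) (o4 := 80) (M := 440) (mA ++ (gf (fun x => 8 + cr 4 x) rf25 ++ (gf (fun x => 8 + c6 3 0 1 2 4 x) f13 ++ fp2.map (tren (n6 1 2 3))))) c25_13_3_pf (by decide +kernel)
    (by decide +kernel) (by decide +kernel) (by decide +kernel) hp hts

theorem c25_13_3 {V : Type} {W : Mw V} (h : W.Hy) {a b c d : V} (nd : [W.z, a, b, c, d].Nodup)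
    (hr : Hit (mrel0 h.bs) (pt [a, b, c, d] W.z) rf25)
    (hf : Hit (mrel0 h.bs) (v6 W.z c W.z a b d) f13)
    (hq : ¬ FS (mrel0 h.bs) W.z fp2 a b c) : False :=
  c25_13_3_ref (pt_inj (o := W.z) nd rfl) (PHs.app (h.ph rfl _) (PHs.app (gf_ph hr (cr 4) (cr_pt (n := 4) (l := [a, b, c, d]) (l' := []) rfl)) (PHs.app (gf_ph hf (c6 3 0 1 2 4) (c6_v6 rfl rfl rfl rfl rfl rfl)) (nf_ph hq (ia := 1) (ib := 2) (ic := 3) rfl rfl rfl rfl))))

def c25_14_n_n_p0 : List Nat := [
0x8640b000000093000000091000000095072c000401,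
0x68240070000000020000000970105000301,
0x28600300000009906cc000201,
0x840620700000000400000000601a7000301,
0x821500000009500000008f00000009d001e000401,
0x621500000009300000008f00000009f0012000401,
0x68241d0000000a10024000201,
0xa640b0000000930000000910000000a9081c000401,
0xa6240070000000040000000100249000301,
0xc640b0000000930000000910000000ad099f000401,
0xc62400700000000400000001403a8000301,
0x2a80030000000b107c8000201,
0x840a2070000000120000000180264000301,
0x84a21b00000001a07cf000201,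
0x2c80030000000b308e8000201,
0x840c2050000000160000000b3092d000301,
0x6c280070000000060000000b3044a000301,
0xac280070000000180000000b304e3000301,
0xc40820700000009700000001e0405000301,
0xc60820700000009900000001e044d000301,
0xca082070000000b100000001e04e6000301,
0xc6284070000000080000000200450000301,
0xca2840700000001a00000002004e9000301,
0xc8600300000002209f3000201,
0x6c800300000002208ee000201,
0xca80030000000240a0e000201,
0xca820300000002a0a11000201,
0x6c840300000002c0975000201,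
0xa6c8070000000340000000300a17000301,
0xc82600700000009900000003003b1000301,
0x862c00700000001e00000003208dc000301,
0xc84a20700000001a0000000360414000301,
0xc4a21b000000040097f000201,
0x8ac310000000ad0000000a90000000950000000b9004e000501,
0x2ac81d0000000bb0039000201,
0x4c8a22500000001c0000000bb092e000301,
0x48c2a250000000420000000bb0988000301,
0xc8a42770000000ad0000000b90000000a900000009500000008f00000009b0000000910000000b10000000b30000000160000000bb0045000c01,
0xca841f00000004400000002e00000000e00000004a04ab000501,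
0xc4821f00000004800000002600000009d00000004c0484000501,
0xc8642230000000a10000000500439000301,
0xcacb0000000ad0000000a900000009300000008f00000009b00000009100000009f00000001600000003c078f08fe09c7000a03,
0xc8d30000000ad00000009500000009300000008f00000009b00000009100000009f0000000990000000160000000b300000005208ef09fa000c02,
0x54000ca6207000a86c3d00c86a22300682ca070006a8c4d002ca6825000ca861b00000003e0000000930000000950000000a90000000ad0000000b90000000bb00000002a0a57001001,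
0x6a4c823000000056000a8c61f0008a6c3d0000a6c310000ca6350006c8a53000a8c61b000ca860100680ca0700000004e0000000460000000580000000930000000950000000a90000000ad0000000b900000000c00000004400000003a00000002404ec001601,
0xac860300000005a09cf000201,
0x860ca0500000002400000005a0a41000301,
0x4ca860700000003800000005a029a000301,
0xa82c60700000002800000005c045c000301,
0xac2600700000003c00000005e0252000301,
0x86a41b0000000600805000201,
0xc6a21b00000006209c7000201,
0xc8a62710000000ad0000000bb0000000a900000009500000009300000008f00000009f0000000b10000000b90000000b30000000640048000c01,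
0x6c8a42500000004e0000000660976000301,
0x68c2a250000000bb00000006809d0000301,
0xc6841f00000006a00000002c00000000e00000006c0490000501,
0xc6a8450000000b90000000ad0000000a900000009500000009300000006e085f000701,
0x5600000007008ef000201,
0xac86490000000b90000000ad0000000a900000009500000009300000007209f4000701,
0xc683500000006a0000000220000000ad00000009500000009300000000a000000076000000074000900]

def c25_14_n_n_pf : List Nat := c25_14_n_n_p0

theorem c25_14_n_n_ref {V : Type} {S : SRel V} {p : Nat → V} (hp : ∀ i j, i < 7 → j < 7 → p i = p j → i = j)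
    (hts : PHs S p 7 (mA ++ (gf (fun x => 8 + cr 4 x) rf25 ++ (gf (fun x => 8 + c6 5 6 1 2 4 x) f14 ++ fp2.map (tren (n6 1 2 3)))))) : False :=
  refuteS (k := 7) (n2 := 3) (n3 := 1) (n4 := 3) (o3 := 84) (o4 := 168) (M := 1386) (mA ++ (gf (fun x => 8 + cr 4 x) rf25 ++ (gf (fun x => 8 + c6 5 6 1 2 4 x) f14 ++ fp2.map (tren (n6 1 2 3))))) c25_14_n_n_pf (by decide +kernel)
    (by decide +kernel) (by decide +kernel) (by decide +kernel) hp hts

theorem c25_14_n_n {V : Type} {W : Mw V} (h : W.Hy) {a b c d u w : V} (nd : [W.z, a, b, c, d, u, w].Nodup)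
    (hr : Hit (mrel0 h.bs) (pt [a, b, c, d] W.z) rf25)
    (hf : Hit (mrel0 h.bs) (v6 W.z u w a b d) f14)
    (hq : ¬ FS (mrel0 h.bs) W.z fp2 a b c) : False :=
  c25_14_n_n_ref (pt_inj (o := W.z) nd rfl) (PHs.app (h.ph rfl _) (PHs.app (gf_ph hr (cr 4) (cr_pt (n := 4) (l := [a, b, c, d]) (l' := [u, w]) rfl)) (PHs.app (gf_ph hf (c6 5 6 1 2 4) (c6_v6 rfl rfl rfl rfl rfl rfl)) (nf_ph hq (ia := 1) (ib := 2) (ic := 3) rfl rfl rfl rfl))))

def c25_14_n_3_p0 : List Nat := [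
0x286003000000099045d000201,
0xb3000000002000200]

def c25_14_n_3_pf : List Nat := c25_14_n_3_p0

theorem c25_14_n_3_ref {V : Type} {S : SRel V} {p : Nat → V} (hp : ∀ i j, i < 6 → j < 6 → p i = p j → i = j)
    (hts : PHs S p 6 (mA ++ (gf (fun x => 8 + cr 4 x) rf25 ++ (gf (fun x => 8 + c6 5 3 1 2 4 x) f14 ++ fp2.map (tren (n6 1 2 3)))))) : False :=
  refuteS (k := 6) (n2 := 3) (n3 := 1) (n4 := 3) (o3 := 63) (o4 := 119) (M := 812) (mA ++ (gf (fun x => 8 + cr 4 x) rf25 ++ (gf (fun x => 8 + c6 5 3 1 2 4 x) f14 ++ fp2.map (tren (n6 1 2 3))))) c25_14_n_3_pf (by decide +kernel)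
    (by decide +kernel) (by decide +kernel) (by decide +kernel) hp hts

theorem c25_14_n_3 {V : Type} {W : Mw V} (h : W.Hy) {a b c d u : V} (nd : [W.z, a, b, c, d, u].Nodup)
    (hr : Hit (mrel0 h.bs) (pt [a, b, c, d] W.z) rf25)
    (hf : Hit (mrel0 h.bs) (v6 W.z u c a b d) f14)
    (hq : ¬ FS (mrel0 h.bs) W.z fp2 a b c) : False :=
  c25_14_n_3_ref (pt_inj (o := W.z) nd rfl) (PHs.app (h.ph rfl _) (PHs.app (gf_ph hr (cr 4) (cr_pt (n := 4) (l := [a, b, c, d]) (l' := [u]) rfl)) (PHs.app (gf_ph hf (c6 5 3 1 2 4) (c6_v6 rfl rfl rfl rfl rfl rfl)) (nf_ph hq (ia := 1) (ib := 2) (ic := 3) rfl rfl rfl rfl))))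

def c25_14_3_n_p0 : List Nat := [
0x8640b00000009300000009100000009504bd000401,
0x682400700000000200000009700d4000301,
0xa640b0000000930000000910000000ad05ad000401,
0xa6240070000000040000000060218000301,
0xa6842250000000a10000000bb02be000301,
0xa8642230000000a100000000a0285000301,
0x624a8230000000bb00000000a02ca000301,
0xa8d30000000ad00000009500000009300000008f00000009b00000009100000009f0000000990000000b90000000080000000b300000000c00000000e000e00]

def c25_14_3_n_pf : List Nat := c25_14_3_n_p0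

theorem c25_14_3_n_ref {V : Type} {S : SRel V} {p : Nat → V} (hp : ∀ i j, i < 6 → j < 6 → p i = p j → i = j)
    (hts : PHs S p 6 (mA ++ (gf (fun x => 8 + cr 4 x) rf25 ++ (gf (fun x => 8 + c6 3 5 1 2 4 x) f14 ++ fp2.map (tren (n6 1 2 3)))))) : False :=
  refuteS (k := 6) (n2 := 3) (n3 := 1) (n4 := 3) (o3 := 63) (o4 := 119) (M := 812) (mA ++ (gf (fun x => 8 + cr 4 x) rf25 ++ (gf (fun x => 8 + c6 3 5 1 2 4 x) f14 ++ fp2.map (tren (n6 1 2 3))))) c25_14_3_n_pf (by decide +kernel)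
    (by decide +kernel) (by decide +kernel) (by decide +kernel) hp hts

theorem c25_14_3_n {V : Type} {W : Mw V} (h : W.Hy) {a b c d w : V} (nd : [W.z, a, b, c, d, w].Nodup)
    (hr : Hit (mrel0 h.bs) (pt [a, b, c, d] W.z) rf25)
    (hf : Hit (mrel0 h.bs) (v6 W.z c w a b d) f14)
    (hq : ¬ FS (mrel0 h.bs) W.z fp2 a b c) : False :=
  c25_14_3_n_ref (pt_inj (o := W.z) nd rfl) (PHs.app (h.ph rfl _) (PHs.app (gf_ph hr (cr 4) (cr_pt (n := 4) (l := [a, b, c, d]) (l' := [w]) rfl)) (PHs.app (gf_ph hf (c6 3 5 1 2 4) (c6_v6 rfl rfl rfl rfl rfl rfl)) (nf_ph hq (ia := 1) (ib := 2) (ic := 3) rfl rfl rfl rfl))))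

def c25_15_n_n_p0 : List Nat := [
0x8640b000000093000000091000000095072c000401,
0x68240070000000020000000970105000301,
0x28600300000009906cc000201,
0x621500000009300000008f00000009f0012000401,
0x68241d0000000a10024000201,
0xa620b00000009300000008f0000000a90816000401,
0xa640b0000000930000000910000000a9081c000401,
0xa62400700000000400000000e0249000301,
0xc620b00000009300000008f0000000ab0999000401,
0xc640b0000000930000000910000000ab099f000401,
0xc62400700000000400000001403a8000301,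
0x2ca0030000000b108f7000201,
0xc40a2070000000100000000180414000301,
0xc4a21b00000001a097f000201,
0x2c80030000000b30927000201,
0xc6082050000000990000000b309b7000301,
0xa82c0070000000180000000b30396000301,
0x840c20700000001600000001e03c3000301,
0x8a0c2070000000b100000001e03d8000301,
0x8ca0030000000220a0e000201,
0xac82030000000260a50000201,
0xca6820700000002000000002a0834000301,
0xca82d0000000ab0000000a90000000950000000b9002d000501,
0xca8310000000ab0000000a90000000950000000b90039000501,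
0x8ca21d0000000bb0042000201,
0x48ca22500000001c0000000bb0970000301,
0x84c21f00000003200000002400000000a0000000340484000501,
0xa24c8230000000bb00000003604ab000301,
0xabf0000000a900000009300000008f00000009b00000009100000009f00000002e0000000040030078f000902,
0x8acb0000000a900000009500000009300000008f00000009b00000009100000009f000000097000000099078f07d20832000a03,
0xcacd0000000ab0000000a900000009300000008f00000009b00000009100000009f0000000040000000b108dc09c70a42000a03,
0x8cd30000000ab00000009500000009300000008f00000009b00000009100000009f0000000970000000a10000000b3091b09b509fa000b03,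
0xc6200100860c20700000003e00086c21b00c86a22300ca2862300068ca41002ca682500000001200000001e0000000bb0000000930000000950000000a90000000ab0000000b90a57001001,
0xca68530000000b90000000ab0000000a900000009500000009300000004207a2000701,
0x3c000a8621f000a862070000a8635006c2a807006c0a80700000009f0000000300000000060000000080000000930000000950000000a900000004400000002600000002202cb0465001002,
0x86a21f008ca6271000a8620100a82600700c62a80500c60a80500000004600ca862250062ac82500a26c8230000000b10000000b30000000b900000009f00000008f0000000930000000bb0000000950000000a90000000ab00000002c000000099000000026000000022059a04ae001802,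
0x4000c826007000ca683d00a60c8070006ca84d006a4c823000c8a61b0000000990000000930000000950000000a90000000ab0000000b90000000280000000380a18000f01,
0x62ac8250000000bb00000004a0835000301,
0x4800000004a059a000201,
0x4600000004c0465000201,
0x3a00000004e078f000201,
0xa8c61f00000004200000004a00000003000000005005b2000501,
0xa6200100000000c0000000520252000301,
0xca62650000000ab00000004e0000000a900000003200000009300000008f00000009f00000002e0000000b1000000054000000056000c00]

def c25_15_n_n_pf : List Nat := c25_15_n_n_p0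

theorem c25_15_n_n_ref {V : Type} {S : SRel V} {p : Nat → V} (hp : ∀ i j, i < 7 → j < 7 → p i = p j → i = j)
    (hts : PHs S p 7 (mA ++ (gf (fun x => 8 + cr 4 x) rf25 ++ (gf (fun x => 8 + c6 5 6 1 2 4 x) f15 ++ fp2.map (tren (n6 1 2 3)))))) : False :=
  refuteS (k := 7) (n2 := 3) (n3 := 1) (n4 := 3) (o3 := 84) (o4 := 168) (M := 1386) (mA ++ (gf (fun x => 8 + cr 4 x) rf25 ++ (gf (fun x => 8 + c6 5 6 1 2 4 x) f15 ++ fp2.map (tren (n6 1 2 3))))) c25_15_n_n_pf (by decide +kernel)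
    (by decide +kernel) (by decide +kernel) (by decide +kernel) hp hts

theorem c25_15_n_n {V : Type} {W : Mw V} (h : W.Hy) {a b c d u w : V} (nd : [W.z, a, b, c, d, u, w].Nodup)
    (hr : Hit (mrel0 h.bs) (pt [a, b, c, d] W.z) rf25)
    (hf : Hit (mrel0 h.bs) (v6 W.z u w a b d) f15)
    (hq : ¬ FS (mrel0 h.bs) W.z fp2 a b c) : False :=
  c25_15_n_n_ref (pt_inj (o := W.z) nd rfl) (PHs.app (h.ph rfl _) (PHs.app (gf_ph hr (cr 4) (cr_pt (n := 4) (l := [a, b, c, d]) (l' := [u, w]) rfl)) (PHs.app (gf_ph hf (c6 5 6 1 2 4) (c6_v6 rfl rfl rfl rfl rfl rfl)) (nf_ph hq (ia := 1) (ib := 2) (ic := 3) rfl rfl rfl rfl))))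

def c25_15_n_3_p0 : List Nat := [
0x8acb0000000a900000009500000009300000008f00000009b00000009100000009f0000000970000000990000000b10000000bb0000000b9000d00]

def c25_15_n_3_pf : List Nat := c25_15_n_3_p0

theorem c25_15_n_3_ref {V : Type} {S : SRel V} {p : Nat → V} (hp : ∀ i j, i < 6 → j < 6 → p i = p j → i = j)
    (hts : PHs S p 6 (mA ++ (gf (fun x => 8 + cr 4 x) rf25 ++ (gf (fun x => 8 + c6 5 3 1 2 4 x) f15 ++ fp2.map (tren (n6 1 2 3)))))) : False :=
  refuteS (k := 6) (n2 := 3) (n3 := 1) (n4 := 3) (o3 := 63) (o4 := 119) (M := 812) (mA ++ (gf (fun x => 8 + cr 4 x) rf25 ++ (gf (fun x => 8 + c6 5 3 1 2 4 x) f15 ++ fp2.map (tren (n6 1 2 3))))) c25_15_n_3_pf (by decide +kernel)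
    (by decide +kernel) (by decide +kernel) (by decide +kernel) hp hts

theorem c25_15_n_3 {V : Type} {W : Mw V} (h : W.Hy) {a b c d u : V} (nd : [W.z, a, b, c, d, u].Nodup)
    (hr : Hit (mrel0 h.bs) (pt [a, b, c, d] W.z) rf25)
    (hf : Hit (mrel0 h.bs) (v6 W.z u c a b d) f15)
    (hq : ¬ FS (mrel0 h.bs) W.z fp2 a b c) : False :=
  c25_15_n_3_ref (pt_inj (o := W.z) nd rfl) (PHs.app (h.ph rfl _) (PHs.app (gf_ph hr (cr 4) (cr_pt (n := 4) (l := [a, b, c, d]) (l' := [u]) rfl)) (PHs.app (gf_ph hf (c6 5 3 1 2 4) (c6_v6 rfl rfl rfl rfl rfl rfl)) (nf_ph hq (ia := 1) (ib := 2) (ic := 3) rfl rfl rfl rfl))))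

def c25_15_3_n_p0 : List Nat := [
0xa6842250000000a10000000bb02be000301,
0x624a8230000000bb00000000202ca000301,
0x8ad30000000ab00000009500000009300000008f00000009b00000009100000009f0000000970000000a10000000b30000000b10000000b9000000004000e00]

def c25_15_3_n_pf : List Nat := c25_15_3_n_p0

theorem c25_15_3_n_ref {V : Type} {S : SRel V} {p : Nat → V} (hp : ∀ i j, i < 6 → j < 6 → p i = p j → i = j)
    (hts : PHs S p 6 (mA ++ (gf (fun x => 8 + cr 4 x) rf25 ++ (gf (fun x => 8 + c6 3 5 1 2 4 x) f15 ++ fp2.map (tren (n6 1 2 3)))))) : False :=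
  refuteS (k := 6) (n2 := 3) (n3 := 1) (n4 := 3) (o3 := 63) (o4 := 119) (M := 812) (mA ++ (gf (fun x => 8 + cr 4 x) rf25 ++ (gf (fun x => 8 + c6 3 5 1 2 4 x) f15 ++ fp2.map (tren (n6 1 2 3))))) c25_15_3_n_pf (by decide +kernel)
    (by decide +kernel) (by decide +kernel) (by decide +kernel) hp hts

theorem c25_15_3_n {V : Type} {W : Mw V} (h : W.Hy) {a b c d w : V} (nd : [W.z, a, b, c, d, w].Nodup)
    (hr : Hit (mrel0 h.bs) (pt [a, b, c, d] W.z) rf25)
    (hf : Hit (mrel0 h.bs) (v6 W.z c w a b d) f15)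
    (hq : ¬ FS (mrel0 h.bs) W.z fp2 a b c) : False :=
  c25_15_3_n_ref (pt_inj (o := W.z) nd rfl) (PHs.app (h.ph rfl _) (PHs.app (gf_ph hr (cr 4) (cr_pt (n := 4) (l := [a, b, c, d]) (l' := [w]) rfl)) (PHs.app (gf_ph hf (c6 3 5 1 2 4) (c6_v6 rfl rfl rfl rfl rfl rfl)) (nf_ph hq (ia := 1) (ib := 2) (ic := 3) rfl rfl rfl rfl))))

def c25_16_n_n_p0 : List Nat := [
0x8640b000000093000000091000000095072c000401,
0x68240070000000020000000970105000301,
0x28600300000009906cc000201,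
0xc640b0000000930000000910000000ad099f000401,
0xc62400700000000400000000803a8000301,
0x2a80030000000b1079b000201,
0x6a280070000000060000000b102c7000301,
0xa60820700000009900000000c02ca000301,
0xa8600300000000e085e000201,
0x6a800300000000e07a1000201,
0xa8260070000000990000000120252000301,
0x862a00700000000c000000014078f000301,
0x2ca0030000000b308f7000201,
0x6c2a0070000000180000000b30459000301,
0xc60a20700000001600000001a045c000301,
0x6ca00300000001c08fd000201,
0xc6a21b00000001e09c7000201,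
0xc80a60700000000e00000002004ad000301,
0x8a621d0000000b90862000201,
0x8ac2d0000000ad0000000ab0000000950000000bd002d000501,
0xa8c310000000ad0000000ab0000000950000000bd004b000501,
0x26a190000000ab0000000b900000009f00000009300000008f0000000280036000701,
0xa6821f00000002600000001000000009d00000002c0268000501,
0x28ac62500000002200000002e09d0000301,
0x28a64f0000000ab00000009500000009300000008f00000001600000002e085f000701,
0xc8a61f00000002c00000002a00000002400000003004ed000501,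
0x8ca6490000000bd0000000ad0000000ab0000000950000000930000000320a42000701,
0xac861d0000000340048000201,
0xc6a350000000360000000280000000ad0000000ab00000009300000001c0000000380394000801,
0xcad10000000ad0000000bb0000000ab0000000b900000009300000008f00000009b00000009100000009f00000001600000003a00000000a0000000b3000e00]

def c25_16_n_n_pf : List Nat := c25_16_n_n_p0

theorem c25_16_n_n_ref {V : Type} {S : SRel V} {p : Nat → V} (hp : ∀ i j, i < 7 → j < 7 → p i = p j → i = j)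
    (hts : PHs S p 7 (mA ++ (gf (fun x => 8 + cr 4 x) rf25 ++ (gf (fun x => 8 + c6 5 6 1 2 4 x) f16 ++ fp2.map (tren (n6 1 2 3)))))) : False :=
  refuteS (k := 7) (n2 := 3) (n3 := 1) (n4 := 3) (o3 := 84) (o4 := 168) (M := 1386) (mA ++ (gf (fun x => 8 + cr 4 x) rf25 ++ (gf (fun x => 8 + c6 5 6 1 2 4 x) f16 ++ fp2.map (tren (n6 1 2 3))))) c25_16_n_n_pf (by decide +kernel)
    (by decide +kernel) (by decide +kernel) (by decide +kernel) hp hts

theorem c25_16_n_n {V : Type} {W : Mw V} (h : W.Hy) {a b c d u w : V} (nd : [W.z, a, b, c, d, u, w].Nodup)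
    (hr : Hit (mrel0 h.bs) (pt [a, b, c, d] W.z) rf25)
    (hf : Hit (mrel0 h.bs) (v6 W.z u w a b d) f16)
    (hq : ¬ FS (mrel0 h.bs) W.z fp2 a b c) : False :=
  c25_16_n_n_ref (pt_inj (o := W.z) nd rfl) (PHs.app (h.ph rfl _) (PHs.app (gf_ph hr (cr 4) (cr_pt (n := 4) (l := [a, b, c, d]) (l' := [u, w]) rfl)) (PHs.app (gf_ph hf (c6 5 6 1 2 4) (c6_v6 rfl rfl rfl rfl rfl rfl)) (nf_ph hq (ia := 1) (ib := 2) (ic := 3) rfl rfl rfl rfl))))

def c25_16_n_3_p0 : List Nat := [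
0x286003000000099045d000201,
0x2a80030000000b1052c000201,
0x6a280070000000020000000b10296000301,
0x6a80030000000060532000201,
0x862a0070000000040000000080520000301,
0xb300000000a000200]

def c25_16_n_3_pf : List Nat := c25_16_n_3_p0

theorem c25_16_n_3_ref {V : Type} {S : SRel V} {p : Nat → V} (hp : ∀ i j, i < 6 → j < 6 → p i = p j → i = j)
    (hts : PHs S p 6 (mA ++ (gf (fun x => 8 + cr 4 x) rf25 ++ (gf (fun x => 8 + c6 5 3 1 2 4 x) f16 ++ fp2.map (tren (n6 1 2 3)))))) : False :=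
  refuteS (k := 6) (n2 := 3) (n3 := 1) (n4 := 3) (o3 := 63) (o4 := 119) (M := 812) (mA ++ (gf (fun x => 8 + cr 4 x) rf25 ++ (gf (fun x => 8 + c6 5 3 1 2 4 x) f16 ++ fp2.map (tren (n6 1 2 3))))) c25_16_n_3_pf (by decide +kernel)
    (by decide +kernel) (by decide +kernel) (by decide +kernel) hp hts

theorem c25_16_n_3 {V : Type} {W : Mw V} (h : W.Hy) {a b c d u : V} (nd : [W.z, a, b, c, d, u].Nodup)
    (hr : Hit (mrel0 h.bs) (pt [a, b, c, d] W.z) rf25)
    (hf : Hit (mrel0 h.bs) (v6 W.z u c a b d) f16)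
    (hq : ¬ FS (mrel0 h.bs) W.z fp2 a b c) : False :=
  c25_16_n_3_ref (pt_inj (o := W.z) nd rfl) (PHs.app (h.ph rfl _) (PHs.app (gf_ph hr (cr 4) (cr_pt (n := 4) (l := [a, b, c, d]) (l' := [u]) rfl)) (PHs.app (gf_ph hf (c6 5 3 1 2 4) (c6_v6 rfl rfl rfl rfl rfl rfl)) (nf_ph hq (ia := 1) (ib := 2) (ic := 3) rfl rfl rfl rfl))))

def c25_16_3_n_p0 : List Nat := [
0x286003000000099045d000201,
0xb1000000002000200]

def c25_16_3_n_pf : List Nat := c25_16_3_n_p0

theorem c25_16_3_n_ref {V : Type} {S : SRel V} {p : Nat → V} (hp : ∀ i j, i < 6 → j < 6 → p i = p j → i = j)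
    (hts : PHs S p 6 (mA ++ (gf (fun x => 8 + cr 4 x) rf25 ++ (gf (fun x => 8 + c6 3 5 1 2 4 x) f16 ++ fp2.map (tren (n6 1 2 3)))))) : False :=
  refuteS (k := 6) (n2 := 3) (n3 := 1) (n4 := 3) (o3 := 63) (o4 := 119) (M := 812) (mA ++ (gf (fun x => 8 + cr 4 x) rf25 ++ (gf (fun x => 8 + c6 3 5 1 2 4 x) f16 ++ fp2.map (tren (n6 1 2 3))))) c25_16_3_n_pf (by decide +kernel)
    (by decide +kernel) (by decide +kernel) (by decide +kernel) hp hts

theorem c25_16_3_n {V : Type} {W : Mw V} (h : W.Hy) {a b c d w : V} (nd : [W.z, a, b, c, d, w].Nodup)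
    (hr : Hit (mrel0 h.bs) (pt [a, b, c, d] W.z) rf25)
    (hf : Hit (mrel0 h.bs) (v6 W.z c w a b d) f16)
    (hq : ¬ FS (mrel0 h.bs) W.z fp2 a b c) : False :=
  c25_16_3_n_ref (pt_inj (o := W.z) nd rfl) (PHs.app (h.ph rfl _) (PHs.app (gf_ph hr (cr 4) (cr_pt (n := 4) (l := [a, b, c, d]) (l' := [w]) rfl)) (PHs.app (gf_ph hf (c6 3 5 1 2 4) (c6_v6 rfl rfl rfl rfl rfl rfl)) (nf_ph hq (ia := 1) (ib := 2) (ic := 3) rfl rfl rfl rfl))))

def c25_17_n_n_p0 : List Nat := [
0x8640b000000093000000091000000095072c000401,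
0x68240070000000020000000970105000301,
0x28600300000009906cc000201,
0x86241d0000000a10018000201,
0xc640b0000000930000000910000000ad099f000401,
0xc62400700000000400000000a03a8000301,
0x2a80030000000b1079b000201,
0x6a280070000000060000000b102c7000301,
0xa60820700000009900000000e02ca000301,
0xa86003000000010085e000201,
0x6a800300000001007a1000201,
0xa8260070000000990000000140252000301,
0x862a00700000000e000000016078f000301,
0x2ca0030000000b308f7000201,
0x6c2a00700000001a0000000b30459000301,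
0xc60a20700000001800000001c045c000301,
0x6ca00300000001e08fd000201,
0xc6a21b00000002009c7000201,
0xc80a60700000001000000002204ad000301,
0x8a241d0000000b90859000201,
0xa6842250000000a10000000280862000301,
0x8ac2d0000000ad0000000ab0000000950000000bb002d000501,
0xa8c310000000ad0000000ab0000000950000000bb004b000501,
0x46a190000000ab0000000b900000000800000009300000009100000002c0036000701,
0xa6821f00000002a00000001200000009d0000000300268000501,
0x28ac62500000002400000003209d0000301,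
0x28a64f0000000ab00000009500000009300000008f000000018000000032085f000701,
0xc8a61f00000003000000002e00000002600000003404ed000501,
0x8ca6490000000bb0000000ad0000000ab0000000950000000930000000360a42000701,
0xac861d0000000380048000201,
0xc6a3500000003a00000002c0000000ad0000000ab00000009300000001e00000003c0394000801,
0xc8642230000000a10000000bd0439000301,
0xcad30000000ad0000000ab0000000b900000009300000008f00000009b00000009100000009f00000001800000003e00000000c0000000b3000000040000e00]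

def c25_17_n_n_pf : List Nat := c25_17_n_n_p0

theorem c25_17_n_n_ref {V : Type} {S : SRel V} {p : Nat → V} (hp : ∀ i j, i < 7 → j < 7 → p i = p j → i = j)
    (hts : PHs S p 7 (mA ++ (gf (fun x => 8 + cr 4 x) rf25 ++ (gf (fun x => 8 + c6 5 6 1 2 4 x) f17 ++ fp2.map (tren (n6 1 2 3)))))) : False :=
  refuteS (k := 7) (n2 := 3) (n3 := 1) (n4 := 3) (o3 := 84) (o4 := 168) (M := 1386) (mA ++ (gf (fun x => 8 + cr 4 x) rf25 ++ (gf (fun x => 8 + c6 5 6 1 2 4 x) f17 ++ fp2.map (tren (n6 1 2 3))))) c25_17_n_n_pf (by decide +kernel)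
    (by decide +kernel) (by decide +kernel) (by decide +kernel) hp hts

theorem c25_17_n_n {V : Type} {W : Mw V} (h : W.Hy) {a b c d u w : V} (nd : [W.z, a, b, c, d, u, w].Nodup)
    (hr : Hit (mrel0 h.bs) (pt [a, b, c, d] W.z) rf25)
    (hf : Hit (mrel0 h.bs) (v6 W.z u w a b d) f17)
    (hq : ¬ FS (mrel0 h.bs) W.z fp2 a b c) : False :=
  c25_17_n_n_ref (pt_inj (o := W.z) nd rfl) (PHs.app (h.ph rfl _) (PHs.app (gf_ph hr (cr 4) (cr_pt (n := 4) (l := [a, b, c, d]) (l' := [u, w]) rfl)) (PHs.app (gf_ph hf (c6 5 6 1 2 4) (c6_v6 rfl rfl rfl rfl rfl rfl)) (nf_ph hq (ia := 1) (ib := 2) (ic := 3) rfl rfl rfl rfl))))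

def c25_17_n_3_p0 : List Nat := [
0x286003000000099045d000201,
0x2a80030000000b1052c000201,
0x6a280070000000020000000b10296000301,
0x6a80030000000060532000201,
0x862a0070000000040000000080520000301,
0xb300000000a000200]

def c25_17_n_3_pf : List Nat := c25_17_n_3_p0

theorem c25_17_n_3_ref {V : Type} {S : SRel V} {p : Nat → V} (hp : ∀ i j, i < 6 → j < 6 → p i = p j → i = j)
    (hts : PHs S p 6 (mA ++ (gf (fun x => 8 + cr 4 x) rf25 ++ (gf (fun x => 8 + c6 5 3 1 2 4 x) f17 ++ fp2.map (tren (n6 1 2 3)))))) : False :=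
  refuteS (k := 6) (n2 := 3) (n3 := 1) (n4 := 3) (o3 := 63) (o4 := 119) (M := 812) (mA ++ (gf (fun x => 8 + cr 4 x) rf25 ++ (gf (fun x => 8 + c6 5 3 1 2 4 x) f17 ++ fp2.map (tren (n6 1 2 3))))) c25_17_n_3_pf (by decide +kernel)
    (by decide +kernel) (by decide +kernel) (by decide +kernel) hp hts

theorem c25_17_n_3 {V : Type} {W : Mw V} (h : W.Hy) {a b c d u : V} (nd : [W.z, a, b, c, d, u].Nodup)
    (hr : Hit (mrel0 h.bs) (pt [a, b, c, d] W.z) rf25)
    (hf : Hit (mrel0 h.bs) (v6 W.z u c a b d) f17)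
    (hq : ¬ FS (mrel0 h.bs) W.z fp2 a b c) : False :=
  c25_17_n_3_ref (pt_inj (o := W.z) nd rfl) (PHs.app (h.ph rfl _) (PHs.app (gf_ph hr (cr 4) (cr_pt (n := 4) (l := [a, b, c, d]) (l' := [u]) rfl)) (PHs.app (gf_ph hf (c6 5 3 1 2 4) (c6_v6 rfl rfl rfl rfl rfl rfl)) (nf_ph hq (ia := 1) (ib := 2) (ic := 3) rfl rfl rfl rfl))))

def c25_17_3_n_p0 : List Nat := [
0x286003000000099045d000201,
0xb1000000002000200]

def c25_17_3_n_pf : List Nat := c25_17_3_n_p0

theorem c25_17_3_n_ref {V : Type} {S : SRel V} {p : Nat → V} (hp : ∀ i j, i < 6 → j < 6 → p i = p j → i = j)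
    (hts : PHs S p 6 (mA ++ (gf (fun x => 8 + cr 4 x) rf25 ++ (gf (fun x => 8 + c6 3 5 1 2 4 x) f17 ++ fp2.map (tren (n6 1 2 3)))))) : False :=
  refuteS (k := 6) (n2 := 3) (n3 := 1) (n4 := 3) (o3 := 63) (o4 := 119) (M := 812) (mA ++ (gf (fun x => 8 + cr 4 x) rf25 ++ (gf (fun x => 8 + c6 3 5 1 2 4 x) f17 ++ fp2.map (tren (n6 1 2 3))))) c25_17_3_n_pf (by decide +kernel)
    (by decide +kernel) (by decide +kernel) (by decide +kernel) hp hts

theorem c25_17_3_n {V : Type} {W : Mw V} (h : W.Hy) {a b c d w : V} (nd : [W.z, a, b, c, d, w].Nodup)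
    (hr : Hit (mrel0 h.bs) (pt [a, b, c, d] W.z) rf25)
    (hf : Hit (mrel0 h.bs) (v6 W.z c w a b d) f17)
    (hq : ¬ FS (mrel0 h.bs) W.z fp2 a b c) : False :=
  c25_17_3_n_ref (pt_inj (o := W.z) nd rfl) (PHs.app (h.ph rfl _) (PHs.app (gf_ph hr (cr 4) (cr_pt (n := 4) (l := [a, b, c, d]) (l' := [w]) rfl)) (PHs.app (gf_ph hf (c6 3 5 1 2 4) (c6_v6 rfl rfl rfl rfl rfl rfl)) (nf_ph hq (ia := 1) (ib := 2) (ic := 3) rfl rfl rfl rfl))))

def c25_18_n_n_p0 : List Nat := [
0x4260d00000009100000008f000000093065d000401,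
0x4280d00000009100000008f00000009506c3000401,
0x8640b000000093000000091000000095072c000401,
0x68240070000000060000000970105000301,
0x28600300000009906cc000201,
0x482600700000000200000009901a4000301,
0x840620700000000800000000a01a7000301,
0x86241d0000000a10018000201,
0x42a0d00000009100000008f0000000ab0786000401,
0xa640b0000000930000000910000000ab081c000401,
0xa6240070000000080000000140249000301,
0x42c0d00000009100000008f0000000ad08d3000401,
0xc640b0000000930000000910000000ad099f000401,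
0xc62400700000000800000001a03a8000301,
0x2a80030000000b1079b000201,
0x840a2050000000160000000b107ce000301,
0x4a280070000000040000000b10291000301,
0x6a2800700000000a0000000b102c7000301,
0xa60820700000009900000001e02ca000301,
0xa62840700000000e00000002002cd000301,
0xa86003000000024085e000201,
0x6a800300000002407a1000201,
0xa862030000000260861000201,
0xa6841b0000000280838000201,
0xa82600700000009900000002a0252000301,
0x862a00700000001e00000002c078f000301,
0xa84620700000000e00000002e0288000301,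
0x2ca0030000000b308f7000201,
0xa40c20500000001c0000000b3093c000301,
0x4c2a0070000000120000000b30411000301,
0x6c2a0070000000340000000b30459000301,
0x8c2a00700000001e0000000b304a4000301,
0x2a4c00700000001800000003808fa000301,
0xc62a40700000003600000003a045f000301,
0x8ca0030000000400900000201,
0xa84c00700000004600000004208eb000301,
0xc60840700000000c0000000480450000301,
0xc6841b00000004a09bb000201,
0x8ac2d0000000ad0000000ab0000000950000000b9002d000501,
0xc8642230000000a10000000bb0439000301,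
0xca841d0000000bd0033000201,
0x6ca84250000000300000000bd0985000301,
0x6ac482500000004c0000000bd09d0000301,
0xca864710000000ad0000000b90000000ab00000009500000009300000009100000001000000000c00000002200000003c0000000bd0048000c01,
0xc6a8450000000b90000000ad0000000ab000000095000000093000000056085f000701,
0xc6a41f00000005200000005400000004400000005804de000501,
0x8ca6490000000b90000000ad0000000ab00000009500000009300000005a0a42000701,
0xc6a3500000005800000004e0000000ad0000000ab00000009300000003e00000005e0394000801,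
0xcad50000000ad0000000ab00000009300000008f00000009b00000009100000009f00000003200000006000000001c0000000b300000005000000005c000e00]

def c25_18_n_n_pf : List Nat := c25_18_n_n_p0

theorem c25_18_n_n_ref {V : Type} {S : SRel V} {p : Nat → V} (hp : ∀ i j, i < 7 → j < 7 → p i = p j → i = j)
    (hts : PHs S p 7 (mA ++ (gf (fun x => 8 + cr 4 x) rf25 ++ (gf (fun x => 8 + c6 5 6 1 2 4 x) f18 ++ fp2.map (tren (n6 1 2 3)))))) : False :=
  refuteS (k := 7) (n2 := 3) (n3 := 1) (n4 := 3) (o3 := 84) (o4 := 168) (M := 1386) (mA ++ (gf (fun x => 8 + cr 4 x) rf25 ++ (gf (fun x => 8 + c6 5 6 1 2 4 x) f18 ++ fp2.map (tren (n6 1 2 3))))) c25_18_n_n_pf (by decide +kernel)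
    (by decide +kernel) (by decide +kernel) (by decide +kernel) hp hts

theorem c25_18_n_n {V : Type} {W : Mw V} (h : W.Hy) {a b c d u w : V} (nd : [W.z, a, b, c, d, u, w].Nodup)
    (hr : Hit (mrel0 h.bs) (pt [a, b, c, d] W.z) rf25)
    (hf : Hit (mrel0 h.bs) (v6 W.z u w a b d) f18)
    (hq : ¬ FS (mrel0 h.bs) W.z fp2 a b c) : False :=
  c25_18_n_n_ref (pt_inj (o := W.z) nd rfl) (PHs.app (h.ph rfl _) (PHs.app (gf_ph hr (cr 4) (cr_pt (n := 4) (l := [a, b, c, d]) (l' := [u, w]) rfl)) (PHs.app (gf_ph hf (c6 5 6 1 2 4) (c6_v6 rfl rfl rfl rfl rfl rfl)) (nf_ph hq (ia := 1) (ib := 2) (ic := 3) rfl rfl rfl rfl))))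

def c25_18_n_3_p0 : List Nat := [
0x286003000000099045d000201,
0x2a80030000000b1052c000201,
0x6a280070000000020000000b10296000301,
0x6a80030000000060532000201,
0x862a0070000000040000000080520000301,
0xb300000000a000200]

def c25_18_n_3_pf : List Nat := c25_18_n_3_p0

theorem c25_18_n_3_ref {V : Type} {S : SRel V} {p : Nat → V} (hp : ∀ i j, i < 6 → j < 6 → p i = p j → i = j)
    (hts : PHs S p 6 (mA ++ (gf (fun x => 8 + cr 4 x) rf25 ++ (gf (fun x => 8 + c6 5 3 1 2 4 x) f18 ++ fp2.map (tren (n6 1 2 3)))))) : False :=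
  refuteS (k := 6) (n2 := 3) (n3 := 1) (n4 := 3) (o3 := 63) (o4 := 119) (M := 812) (mA ++ (gf (fun x => 8 + cr 4 x) rf25 ++ (gf (fun x => 8 + c6 5 3 1 2 4 x) f18 ++ fp2.map (tren (n6 1 2 3))))) c25_18_n_3_pf (by decide +kernel)
    (by decide +kernel) (by decide +kernel) (by decide +kernel) hp hts

theorem c25_18_n_3 {V : Type} {W : Mw V} (h : W.Hy) {a b c d u : V} (nd : [W.z, a, b, c, d, u].Nodup)
    (hr : Hit (mrel0 h.bs) (pt [a, b, c, d] W.z) rf25)
    (hf : Hit (mrel0 h.bs) (v6 W.z u c a b d) f18)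
    (hq : ¬ FS (mrel0 h.bs) W.z fp2 a b c) : False :=
  c25_18_n_3_ref (pt_inj (o := W.z) nd rfl) (PHs.app (h.ph rfl _) (PHs.app (gf_ph hr (cr 4) (cr_pt (n := 4) (l := [a, b, c, d]) (l' := [u]) rfl)) (PHs.app (gf_ph hf (c6 5 3 1 2 4) (c6_v6 rfl rfl rfl rfl rfl rfl)) (nf_ph hq (ia := 1) (ib := 2) (ic := 3) rfl rfl rfl rfl))))

def c25_18_3_n_p0 : List Nat := [
0x286003000000099045d000201,
0xb1000000002000200]

def c25_18_3_n_pf : List Nat := c25_18_3_n_p0

theorem c25_18_3_n_ref {V : Type} {S : SRel V} {p : Nat → V} (hp : ∀ i j, i < 6 → j < 6 → p i = p j → i = j)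
    (hts : PHs S p 6 (mA ++ (gf (fun x => 8 + cr 4 x) rf25 ++ (gf (fun x => 8 + c6 3 5 1 2 4 x) f18 ++ fp2.map (tren (n6 1 2 3)))))) : False :=
  refuteS (k := 6) (n2 := 3) (n3 := 1) (n4 := 3) (o3 := 63) (o4 := 119) (M := 812) (mA ++ (gf (fun x => 8 + cr 4 x) rf25 ++ (gf (fun x => 8 + c6 3 5 1 2 4 x) f18 ++ fp2.map (tren (n6 1 2 3))))) c25_18_3_n_pf (by decide +kernel)
    (by decide +kernel) (by decide +kernel) (by decide +kernel) hp hts

theorem c25_18_3_n {V : Type} {W : Mw V} (h : W.Hy) {a b c d w : V} (nd : [W.z, a, b, c, d, w].Nodup)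
    (hr : Hit (mrel0 h.bs) (pt [a, b, c, d] W.z) rf25)
    (hf : Hit (mrel0 h.bs) (v6 W.z c w a b d) f18)
    (hq : ¬ FS (mrel0 h.bs) W.z fp2 a b c) : False :=
  c25_18_3_n_ref (pt_inj (o := W.z) nd rfl) (PHs.app (h.ph rfl _) (PHs.app (gf_ph hr (cr 4) (cr_pt (n := 4) (l := [a, b, c, d]) (l' := [w]) rfl)) (PHs.app (gf_ph hf (c6 3 5 1 2 4) (c6_v6 rfl rfl rfl rfl rfl rfl)) (nf_ph hq (ia := 1) (ib := 2) (ic := 3) rfl rfl rfl rfl))))

def c25_19_n_n_p0 : List Nat := [
0x4260d00000009100000008f000000093065d000401,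
0x8640b000000093000000091000000095072c000401,
0x482600700000000200000009901a4000301,
0x86241d0000000a10018000201,
0x68241d0000000a10024000201,
0x86a0b0000000950000000930000000a707a1000401,
0x86c0b0000000950000000930000000a908ee000401,
0x8a20030000000af084f000201,
0x682a00700000000c0000000af0225000301,
0x8ca0030000000b10a0e000201,
0x6a8c00700000000e0000000b10393000301,
0x2c0a8070000000100000000b103d8000301,
0x8c40030000000b308eb000201,
0x6c840070000000040000000b30435000301,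
0xa40c8070000000140000000b304aa000301,
0xc60840700000000600000001a0450000301,
0xca840300000001e0a53000201,
0x8ca40300000001e0987000201,
0xac6840700000002200000002002cd000301,
0x4c2a80700000001800000002402ee000301,
0xa8421b0000000280859000201,
0xa6824250000000a100000002a0865000301,
0x4a681d0000000b90805000201,
0xa6841f00000002c00000002600000000a00000002e05a0000501,
0x864c0f0000000bb0000000a900000009500000009300000009100000000a0000000bd05b2000801,
0xcadb0000000320000000bb00000003000000009300000008f00000009b00000009100000009f0000000080000000a70000000a90000000120000000160000000c100000001c001000]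

def c25_19_n_n_pf : List Nat := c25_19_n_n_p0

theorem c25_19_n_n_ref {V : Type} {S : SRel V} {p : Nat → V} (hp : ∀ i j, i < 7 → j < 7 → p i = p j → i = j)
    (hts : PHs S p 7 (mA ++ (gf (fun x => 8 + cr 4 x) rf25 ++ (gf (fun x => 8 + c6 5 6 1 2 4 x) f19 ++ fp2.map (tren (n6 1 2 3)))))) : False :=
  refuteS (k := 7) (n2 := 3) (n3 := 1) (n4 := 3) (o3 := 84) (o4 := 168) (M := 1386) (mA ++ (gf (fun x => 8 + cr 4 x) rf25 ++ (gf (fun x => 8 + c6 5 6 1 2 4 x) f19 ++ fp2.map (tren (n6 1 2 3))))) c25_19_n_n_pf (by decide +kernel)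
    (by decide +kernel) (by decide +kernel) (by decide +kernel) hp hts

theorem c25_19_n_n {V : Type} {W : Mw V} (h : W.Hy) {a b c d u w : V} (nd : [W.z, a, b, c, d, u, w].Nodup)
    (hr : Hit (mrel0 h.bs) (pt [a, b, c, d] W.z) rf25)
    (hf : Hit (mrel0 h.bs) (v6 W.z u w a b d) f19)
    (hq : ¬ FS (mrel0 h.bs) W.z fp2 a b c) : False :=
  c25_19_n_n_ref (pt_inj (o := W.z) nd rfl) (PHs.app (h.ph rfl _) (PHs.app (gf_ph hr (cr 4) (cr_pt (n := 4) (l := [a, b, c, d]) (l' := [u, w]) rfl)) (PHs.app (gf_ph hf (c6 5 6 1 2 4) (c6_v6 rfl rfl rfl rfl rfl rfl)) (nf_ph hq (ia := 1) (ib := 2) (ic := 3) rfl rfl rfl rfl))))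

def c25_19_n_3_p0 : List Nat := [
0xa9000000093000200]

def c25_19_n_3_pf : List Nat := c25_19_n_3_p0

theorem c25_19_n_3_ref {V : Type} {S : SRel V} {p : Nat → V} (hp : ∀ i j, i < 6 → j < 6 → p i = p j → i = j)
    (hts : PHs S p 6 (mA ++ (gf (fun x => 8 + cr 4 x) rf25 ++ (gf (fun x => 8 + c6 5 3 1 2 4 x) f19 ++ fp2.map (tren (n6 1 2 3)))))) : False :=
  refuteS (k := 6) (n2 := 3) (n3 := 1) (n4 := 3) (o3 := 63) (o4 := 119) (M := 812) (mA ++ (gf (fun x => 8 + cr 4 x) rf25 ++ (gf (fun x => 8 + c6 5 3 1 2 4 x) f19 ++ fp2.map (tren (n6 1 2 3))))) c25_19_n_3_pf (by decide +kernel)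
    (by decide +kernel) (by decide +kernel) (by decide +kernel) hp hts

theorem c25_19_n_3 {V : Type} {W : Mw V} (h : W.Hy) {a b c d u : V} (nd : [W.z, a, b, c, d, u].Nodup)
    (hr : Hit (mrel0 h.bs) (pt [a, b, c, d] W.z) rf25)
    (hf : Hit (mrel0 h.bs) (v6 W.z u c a b d) f19)
    (hq : ¬ FS (mrel0 h.bs) W.z fp2 a b c) : False :=
  c25_19_n_3_ref (pt_inj (o := W.z) nd rfl) (PHs.app (h.ph rfl _) (PHs.app (gf_ph hr (cr 4) (cr_pt (n := 4) (l := [a, b, c, d]) (l' := [u]) rfl)) (PHs.app (gf_ph hf (c6 5 3 1 2 4) (c6_v6 rfl rfl rfl rfl rfl rfl)) (nf_ph hq (ia := 1) (ib := 2) (ic := 3) rfl rfl rfl rfl))))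

def c25_19_3_n_p0 : List Nat := [
0xa7000000093000200]

def c25_19_3_n_pf : List Nat := c25_19_3_n_p0

theorem c25_19_3_n_ref {V : Type} {S : SRel V} {p : Nat → V} (hp : ∀ i j, i < 6 → j < 6 → p i = p j → i = j)
    (hts : PHs S p 6 (mA ++ (gf (fun x => 8 + cr 4 x) rf25 ++ (gf (fun x => 8 + c6 3 5 1 2 4 x) f19 ++ fp2.map (tren (n6 1 2 3)))))) : False :=
  refuteS (k := 6) (n2 := 3) (n3 := 1) (n4 := 3) (o3 := 63) (o4 := 119) (M := 812) (mA ++ (gf (fun x => 8 + cr 4 x) rf25 ++ (gf (fun x => 8 + c6 3 5 1 2 4 x) f19 ++ fp2.map (tren (n6 1 2 3))))) c25_19_3_n_pf (by decide +kernel)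
    (by decide +kernel) (by decide +kernel) (by decide +kernel) hp hts

theorem c25_19_3_n {V : Type} {W : Mw V} (h : W.Hy) {a b c d w : V} (nd : [W.z, a, b, c, d, w].Nodup)
    (hr : Hit (mrel0 h.bs) (pt [a, b, c, d] W.z) rf25)
    (hf : Hit (mrel0 h.bs) (v6 W.z c w a b d) f19)
    (hq : ¬ FS (mrel0 h.bs) W.z fp2 a b c) : False :=
  c25_19_3_n_ref (pt_inj (o := W.z) nd rfl) (PHs.app (h.ph rfl _) (PHs.app (gf_ph hr (cr 4) (cr_pt (n := 4) (l := [a, b, c, d]) (l' := [w]) rfl)) (PHs.app (gf_ph hf (c6 3 5 1 2 4) (c6_v6 rfl rfl rfl rfl rfl rfl)) (nf_ph hq (ia := 1) (ib := 2) (ic := 3) rfl rfl rfl rfl))))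

def c25_20_n_n_p0 : List Nat := [
0x4260d00000009100000008f000000093065d000401,
0x8640b000000093000000091000000095072c000401,
0x482600700000000200000009901a4000301,
0x68241d0000000a10024000201,
0x86a0b0000000950000000930000000a707a1000401,
0x86c0b0000000950000000930000000a908ee000401,
0x8a20030000000af084f000201,
0x682a00700000000a0000000af0225000301,
0x8ca0030000000b10a0e000201,
0x6a8c00700000000c0000000b10393000301,
0x2c0a80700000000e0000000b103d8000301,
0x8c40030000000b308eb000201,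
0x6c840070000000040000000b30435000301,
0xa40c8070000000120000000b304aa000301,
0xc6084070000000060000000180450000301,
0xca840300000001c0a53000201,
0x8ca40300000001c0987000201,
0xac6840700000002000000001e02cd000301,
0x4c2a80700000001600000002202ee000301,
0xa8421b0000000260859000201,
0xa6824250000000a10000000280865000301,
0x4a681d0000000bb0805000201,
0xa6841f00000002a00000002400000000800000002c05a0000501,
0xcad90000000b900000002e00000009300000008f00000009b00000009100000009f0000000a70000000a90000000100000000140000000bd00000001a000e00]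

def c25_20_n_n_pf : List Nat := c25_20_n_n_p0

theorem c25_20_n_n_ref {V : Type} {S : SRel V} {p : Nat → V} (hp : ∀ i j, i < 7 → j < 7 → p i = p j → i = j)
    (hts : PHs S p 7 (mA ++ (gf (fun x => 8 + cr 4 x) rf25 ++ (gf (fun x => 8 + c6 5 6 1 2 4 x) f20 ++ fp2.map (tren (n6 1 2 3)))))) : False :=
  refuteS (k := 7) (n2 := 3) (n3 := 1) (n4 := 3) (o3 := 84) (o4 := 168) (M := 1386) (mA ++ (gf (fun x => 8 + cr 4 x) rf25 ++ (gf (fun x => 8 + c6 5 6 1 2 4 x) f20 ++ fp2.map (tren (n6 1 2 3))))) c25_20_n_n_pf (by decide +kernel)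
    (by decide +kernel) (by decide +kernel) (by decide +kernel) hp hts

theorem c25_20_n_n {V : Type} {W : Mw V} (h : W.Hy) {a b c d u w : V} (nd : [W.z, a, b, c, d, u, w].Nodup)
    (hr : Hit (mrel0 h.bs) (pt [a, b, c, d] W.z) rf25)
    (hf : Hit (mrel0 h.bs) (v6 W.z u w a b d) f20)
    (hq : ¬ FS (mrel0 h.bs) W.z fp2 a b c) : False :=
  c25_20_n_n_ref (pt_inj (o := W.z) nd rfl) (PHs.app (h.ph rfl _) (PHs.app (gf_ph hr (cr 4) (cr_pt (n := 4) (l := [a, b, c, d]) (l' := [u, w]) rfl)) (PHs.app (gf_ph hf (c6 5 6 1 2 4) (c6_v6 rfl rfl rfl rfl rfl rfl)) (nf_ph hq (ia := 1) (ib := 2) (ic := 3) rfl rfl rfl rfl))))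

def c25_20_n_3_p0 : List Nat := [
0xa9000000093000200]

def c25_20_n_3_pf : List Nat := c25_20_n_3_p0

theorem c25_20_n_3_ref {V : Type} {S : SRel V} {p : Nat → V} (hp : ∀ i j, i < 6 → j < 6 → p i = p j → i = j)
    (hts : PHs S p 6 (mA ++ (gf (fun x => 8 + cr 4 x) rf25 ++ (gf (fun x => 8 + c6 5 3 1 2 4 x) f20 ++ fp2.map (tren (n6 1 2 3)))))) : False :=
  refuteS (k := 6) (n2 := 3) (n3 := 1) (n4 := 3) (o3 := 63) (o4 := 119) (M := 812) (mA ++ (gf (fun x => 8 + cr 4 x) rf25 ++ (gf (fun x => 8 + c6 5 3 1 2 4 x) f20 ++ fp2.map (tren (n6 1 2 3))))) c25_20_n_3_pf (by decide +kernel)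
    (by decide +kernel) (by decide +kernel) (by decide +kernel) hp hts

theorem c25_20_n_3 {V : Type} {W : Mw V} (h : W.Hy) {a b c d u : V} (nd : [W.z, a, b, c, d, u].Nodup)
    (hr : Hit (mrel0 h.bs) (pt [a, b, c, d] W.z) rf25)
    (hf : Hit (mrel0 h.bs) (v6 W.z u c a b d) f20)
    (hq : ¬ FS (mrel0 h.bs) W.z fp2 a b c) : False :=
  c25_20_n_3_ref (pt_inj (o := W.z) nd rfl) (PHs.app (h.ph rfl _) (PHs.app (gf_ph hr (cr 4) (cr_pt (n := 4) (l := [a, b, c, d]) (l' := [u]) rfl)) (PHs.app (gf_ph hf (c6 5 3 1 2 4) (c6_v6 rfl rfl rfl rfl rfl rfl)) (nf_ph hq (ia := 1) (ib := 2) (ic := 3) rfl rfl rfl rfl))))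

def c25_20_3_n_p0 : List Nat := [
0xa7000000093000200]

def c25_20_3_n_pf : List Nat := c25_20_3_n_p0

theorem c25_20_3_n_ref {V : Type} {S : SRel V} {p : Nat → V} (hp : ∀ i j, i < 6 → j < 6 → p i = p j → i = j)
    (hts : PHs S p 6 (mA ++ (gf (fun x => 8 + cr 4 x) rf25 ++ (gf (fun x => 8 + c6 3 5 1 2 4 x) f20 ++ fp2.map (tren (n6 1 2 3)))))) : False :=
  refuteS (k := 6) (n2 := 3) (n3 := 1) (n4 := 3) (o3 := 63) (o4 := 119) (M := 812) (mA ++ (gf (fun x => 8 + cr 4 x) rf25 ++ (gf (fun x => 8 + c6 3 5 1 2 4 x) f20 ++ fp2.map (tren (n6 1 2 3))))) c25_20_3_n_pf (by decide +kernel)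
    (by decide +kernel) (by decide +kernel) (by decide +kernel) hp hts

theorem c25_20_3_n {V : Type} {W : Mw V} (h : W.Hy) {a b c d w : V} (nd : [W.z, a, b, c, d, w].Nodup)
    (hr : Hit (mrel0 h.bs) (pt [a, b, c, d] W.z) rf25)
    (hf : Hit (mrel0 h.bs) (v6 W.z c w a b d) f20)
    (hq : ¬ FS (mrel0 h.bs) W.z fp2 a b c) : False :=
  c25_20_3_n_ref (pt_inj (o := W.z) nd rfl) (PHs.app (h.ph rfl _) (PHs.app (gf_ph hr (cr 4) (cr_pt (n := 4) (l := [a, b, c, d]) (l' := [w]) rfl)) (PHs.app (gf_ph hf (c6 3 5 1 2 4) (c6_v6 rfl rfl rfl rfl rfl rfl)) (nf_ph hq (ia := 1) (ib := 2) (ic := 3) rfl rfl rfl rfl))))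

theorem P25_1 {V : Type} {W : Mw V} (h : W.Hy) {a b c d u w : V} (nd : [W.z, a, b, c, d].Nodup)
    (hr : Hit (mrel0 h.bs) (pt [a, b, c, d] W.z) rf25)
    (hf : Hit (mrel0 h.bs) (v6 W.z u w a b d) f1) (hq : ¬ FS (mrel0 h.bs) W.z fp2 a b c) : False := by
  exact c25_1 h nd hr (hit00 (by decide) hf) hq

theorem P25_6 {V : Type} {W : Mw V} (h : W.Hy) {a b c d u w : V} (nd : [W.z, a, b, c, d].Nodup)
    (hr : Hit (mrel0 h.bs) (pt [a, b, c, d] W.z) rf25)
    (hf : Hit (mrel0 h.bs) (v6 W.z u w a b d) f6) (hq : ¬ FS (mrel0 h.bs) W.z fp2 a b c) : False := by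
  have hf := hit01 (by decide) hf
  have hs := hn1 hf rfl
  by_cases ic : u = c
  · subst ic
    exact c25_6_3 h nd hr hf hq
  exact c25_6_n h (nd_snoc nd (nin5 hs.1 hs.2.1 hs.2.2.1 ic hs.2.2.2)) hr hf hq

theorem P25_7 {V : Type} {W : Mw V} (h : W.Hy) {a b c d u w : V} (nd : [W.z, a, b, c, d].Nodup)
    (hr : Hit (mrel0 h.bs) (pt [a, b, c, d] W.z) rf25)
    (hf : Hit (mrel0 h.bs) (v6 W.z u w a b d) f7) (hq : ¬ FS (mrel0 h.bs) W.z fp2 a b c) : False := by
  have hf := hit01 (by decide) hf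
  have hs := hn1 hf rfl
  by_cases ic : u = c
  · subst ic
    exact c25_7_3 h nd hr hf hq
  exact c25_7_n h (nd_snoc nd (nin5 hs.1 hs.2.1 hs.2.2.1 ic hs.2.2.2)) hr hf hq

theorem P25_10 {V : Type} {W : Mw V} (h : W.Hy) {a b c d u w : V} (nd : [W.z, a, b, c, d].Nodup)
    (hr : Hit (mrel0 h.bs) (pt [a, b, c, d] W.z) rf25)
    (hf : Hit (mrel0 h.bs) (v6 W.z u w a b d) f10) (hq : ¬ FS (mrel0 h.bs) W.z fp2 a b c) : False := by
  have hf := hit01 (by decide) hf
  have hs := hn1 hf rfl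
  by_cases ic : u = c
  · subst ic
    exact c25_10_3 h nd hr hf hq
  exact c25_10_n h (nd_snoc nd (nin5 hs.1 hs.2.1 hs.2.2.1 ic hs.2.2.2)) hr hf hq

theorem P25_11 {V : Type} {W : Mw V} (h : W.Hy) {a b c d u w : V} (nd : [W.z, a, b, c, d].Nodup)
    (hr : Hit (mrel0 h.bs) (pt [a, b, c, d] W.z) rf25)
    (hf : Hit (mrel0 h.bs) (v6 W.z u w a b d) f11) (hq : ¬ FS (mrel0 h.bs) W.z fp2 a b c) : False := by
  have hf := hit01 (by decide) hf
  have hs := hn1 hf rfl
  by_cases ic : u = c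
  · subst ic
    exact c25_11_3 h nd hr hf hq
  exact c25_11_n h (nd_snoc nd (nin5 hs.1 hs.2.1 hs.2.2.1 ic hs.2.2.2)) hr hf hq

theorem P25_12 {V : Type} {W : Mw V} (h : W.Hy) {a b c d u w : V} (nd : [W.z, a, b, c, d].Nodup)
    (hr : Hit (mrel0 h.bs) (pt [a, b, c, d] W.z) rf25)
    (hf : Hit (mrel0 h.bs) (v6 W.z u w a b d) f12) (hq : ¬ FS (mrel0 h.bs) W.z fp2 a b c) : False := by
  have hf := hit01 (by decide) hf
  have hs := hn1 hf rfl
  by_cases ic : u = c
  · subst ic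
    exact c25_12_3 h nd hr hf hq
  exact c25_12_n h (nd_snoc nd (nin5 hs.1 hs.2.1 hs.2.2.1 ic hs.2.2.2)) hr hf hq

theorem P25_13 {V : Type} {W : Mw V} (h : W.Hy) {a b c d u w : V} (nd : [W.z, a, b, c, d].Nodup)
    (hr : Hit (mrel0 h.bs) (pt [a, b, c, d] W.z) rf25)
    (hf : Hit (mrel0 h.bs) (v6 W.z u w a b d) f13) (hq : ¬ FS (mrel0 h.bs) W.z fp2 a b c) : False := by
  have hf := hit01 (by decide) hf
  have hs := hn1 hf rfl
  by_cases ic : u = c
  · subst ic
    exact c25_13_3 h nd hr hf hq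
  exact c25_13_n h (nd_snoc nd (nin5 hs.1 hs.2.1 hs.2.2.1 ic hs.2.2.2)) hr hf hq

theorem P25_14 {V : Type} {W : Mw V} (h : W.Hy) {a b c d u w : V} (nd : [W.z, a, b, c, d].Nodup)
    (hr : Hit (mrel0 h.bs) (pt [a, b, c, d] W.z) rf25)
    (hf : Hit (mrel0 h.bs) (v6 W.z u w a b d) f14) (hq : ¬ FS (mrel0 h.bs) W.z fp2 a b c) : False := by
  have hs := hn2 hf rfl
  by_cases ic : u = c
  · subst ic
    exact c25_14_3_n h (nd_snoc nd (nin5 hs.2.2.1 hs.2.2.2.1 hs.2.2.2.2.1 hs.1.symm hs.2.2.2.2.2)) hr hf hq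
  by_cases jc : w = c
  · subst jc
    exact c25_14_n_3 h (nd_snoc nd (nin5 hs.2.1.1 hs.2.1.2.1 hs.2.1.2.2.1 hs.1 hs.2.1.2.2.2)) hr hf hq
  exact c25_14_n_n h (nd_snoc (nd_snoc nd (nin5 hs.2.1.1 hs.2.1.2.1 hs.2.1.2.2.1 ic hs.2.1.2.2.2)) (nin6 hs.2.2.1 hs.2.2.2.1 hs.2.2.2.2.1 jc hs.2.2.2.2.2 hs.1.symm)) hr hf hq

theorem P25_15 {V : Type} {W : Mw V} (h : W.Hy) {a b c d u w : V} (nd : [W.z, a, b, c, d].Nodup)
    (hr : Hit (mrel0 h.bs) (pt [a, b, c, d] W.z) rf25)
    (hf : Hit (mrel0 h.bs) (v6 W.z u w a b d) f15) (hq : ¬ FS (mrel0 h.bs) W.z fp2 a b c) : False := by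
  have hs := hn2 hf rfl
  by_cases ic : u = c
  · subst ic
    exact c25_15_3_n h (nd_snoc nd (nin5 hs.2.2.1 hs.2.2.2.1 hs.2.2.2.2.1 hs.1.symm hs.2.2.2.2.2)) hr hf hq
  by_cases jc : w = c
  · subst jc
    exact c25_15_n_3 h (nd_snoc nd (nin5 hs.2.1.1 hs.2.1.2.1 hs.2.1.2.2.1 hs.1 hs.2.1.2.2.2)) hr hf hq
  exact c25_15_n_n h (nd_snoc (nd_snoc nd (nin5 hs.2.1.1 hs.2.1.2.1 hs.2.1.2.2.1 ic hs.2.1.2.2.2)) (nin6 hs.2.2.1 hs.2.2.2.1 hs.2.2.2.2.1 jc hs.2.2.2.2.2 hs.1.symm)) hr hf hq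

theorem P25_16 {V : Type} {W : Mw V} (h : W.Hy) {a b c d u w : V} (nd : [W.z, a, b, c, d].Nodup)
    (hr : Hit (mrel0 h.bs) (pt [a, b, c, d] W.z) rf25)
    (hf : Hit (mrel0 h.bs) (v6 W.z u w a b d) f16) (hq : ¬ FS (mrel0 h.bs) W.z fp2 a b c) : False := by
  have hs := hn2 hf rfl
  by_cases ic : u = c
  · subst ic
    exact c25_16_3_n h (nd_snoc nd (nin5 hs.2.2.1 hs.2.2.2.1 hs.2.2.2.2.1 hs.1.symm hs.2.2.2.2.2)) hr hf hq
  by_cases jc : w = c
  · subst jc
    exact c25_16_n_3 h (nd_snoc nd (nin5 hs.2.1.1 hs.2.1.2.1 hs.2.1.2.2.1 hs.1 hs.2.1.2.2.2)) hr hf hq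
  exact c25_16_n_n h (nd_snoc (nd_snoc nd (nin5 hs.2.1.1 hs.2.1.2.1 hs.2.1.2.2.1 ic hs.2.1.2.2.2)) (nin6 hs.2.2.1 hs.2.2.2.1 hs.2.2.2.2.1 jc hs.2.2.2.2.2 hs.1.symm)) hr hf hq

theorem P25_17 {V : Type} {W : Mw V} (h : W.Hy) {a b c d u w : V} (nd : [W.z, a, b, c, d].Nodup)
    (hr : Hit (mrel0 h.bs) (pt [a, b, c, d] W.z) rf25)
    (hf : Hit (mrel0 h.bs) (v6 W.z u w a b d) f17) (hq : ¬ FS (mrel0 h.bs) W.z fp2 a b c) : False := by
  have hs := hn2 hf rfl
  by_cases ic : u = c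
  · subst ic
    exact c25_17_3_n h (nd_snoc nd (nin5 hs.2.2.1 hs.2.2.2.1 hs.2.2.2.2.1 hs.1.symm hs.2.2.2.2.2)) hr hf hq
  by_cases jc : w = c
  · subst jc
    exact c25_17_n_3 h (nd_snoc nd (nin5 hs.2.1.1 hs.2.1.2.1 hs.2.1.2.2.1 hs.1 hs.2.1.2.2.2)) hr hf hq
  exact c25_17_n_n h (nd_snoc (nd_snoc nd (nin5 hs.2.1.1 hs.2.1.2.1 hs.2.1.2.2.1 ic hs.2.1.2.2.2)) (nin6 hs.2.2.1 hs.2.2.2.1 hs.2.2.2.2.1 jc hs.2.2.2.2.2 hs.1.symm)) hr hf hq

theorem P25_18 {V : Type} {W : Mw V} (h : W.Hy) {a b c d u w : V} (nd : [W.z, a, b, c, d].Nodup)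
    (hr : Hit (mrel0 h.bs) (pt [a, b, c, d] W.z) rf25)
    (hf : Hit (mrel0 h.bs) (v6 W.z u w a b d) f18) (hq : ¬ FS (mrel0 h.bs) W.z fp2 a b c) : False := by
  have hs := hn2 hf rfl
  by_cases ic : u = c
  · subst ic
    exact c25_18_3_n h (nd_snoc nd (nin5 hs.2.2.1 hs.2.2.2.1 hs.2.2.2.2.1 hs.1.symm hs.2.2.2.2.2)) hr hf hq
  by_cases jc : w = c
  · subst jc
    exact c25_18_n_3 h (nd_snoc nd (nin5 hs.2.1.1 hs.2.1.2.1 hs.2.1.2.2.1 hs.1 hs.2.1.2.2.2)) hr hf hq
  exact c25_18_n_n h (nd_snoc (nd_snoc nd (nin5 hs.2.1.1 hs.2.1.2.1 hs.2.1.2.2.1 ic hs.2.1.2.2.2)) (nin6 hs.2.2.1 hs.2.2.2.1 hs.2.2.2.2.1 jc hs.2.2.2.2.2 hs.1.symm)) hr hf hq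

theorem P25_19 {V : Type} {W : Mw V} (h : W.Hy) {a b c d u w : V} (nd : [W.z, a, b, c, d].Nodup)
    (hr : Hit (mrel0 h.bs) (pt [a, b, c, d] W.z) rf25)
    (hf : Hit (mrel0 h.bs) (v6 W.z u w a b d) f19) (hq : ¬ FS (mrel0 h.bs) W.z fp2 a b c) : False := by
  have hs := hn2 hf rfl
  by_cases ic : u = c
  · subst ic
    exact c25_19_3_n h (nd_snoc nd (nin5 hs.2.2.1 hs.2.2.2.1 hs.2.2.2.2.1 hs.1.symm hs.2.2.2.2.2)) hr hf hq
  by_cases jc : w = c
  · subst jc
    exact c25_19_n_3 h (nd_snoc nd (nin5 hs.2.1.1 hs.2.1.2.1 hs.2.1.2.2.1 hs.1 hs.2.1.2.2.2)) hr hf hq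
  exact c25_19_n_n h (nd_snoc (nd_snoc nd (nin5 hs.2.1.1 hs.2.1.2.1 hs.2.1.2.2.1 ic hs.2.1.2.2.2)) (nin6 hs.2.2.1 hs.2.2.2.1 hs.2.2.2.2.1 jc hs.2.2.2.2.2 hs.1.symm)) hr hf hq

theorem P25_20 {V : Type} {W : Mw V} (h : W.Hy) {a b c d u w : V} (nd : [W.z, a, b, c, d].Nodup)
    (hr : Hit (mrel0 h.bs) (pt [a, b, c, d] W.z) rf25)
    (hf : Hit (mrel0 h.bs) (v6 W.z u w a b d) f20) (hq : ¬ FS (mrel0 h.bs) W.z fp2 a b c) : False := by
  have hs := hn2 hf rfl
  by_cases ic : u = c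
  · subst ic
    exact c25_20_3_n h (nd_snoc nd (nin5 hs.2.2.1 hs.2.2.2.1 hs.2.2.2.2.1 hs.1.symm hs.2.2.2.2.2)) hr hf hq
  by_cases jc : w = c
  · subst jc
    exact c25_20_n_3 h (nd_snoc nd (nin5 hs.2.1.1 hs.2.1.2.1 hs.2.1.2.2.1 hs.1 hs.2.1.2.2.2)) hr hf hq
  exact c25_20_n_n h (nd_snoc (nd_snoc nd (nin5 hs.2.1.1 hs.2.1.2.1 hs.2.1.2.2.1 ic hs.2.1.2.2.2)) (nin6 hs.2.2.1 hs.2.2.2.1 hs.2.2.2.2.1 jc hs.2.2.2.2.2 hs.1.symm)) hr hf hq

theorem R25 {V : Type} {W : Mw V} (h : W.Hy) {a b c d : V} (nd : [W.z, a, b, c, d].Nodup)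
    (hr : Hit (mrel0 h.bs) (pt [a, b, c, d] W.z) rf25)
    (hp : FS (mrel0 h.bs) W.z fp2 a b d) : FS (mrel0 h.bs) W.z fp2 a b c := by
  by_contra hq
  obtain ⟨t, ht, u, w, hf⟩ := hp
  simp only [fp2, List.mem_cons, List.not_mem_nil, or_false] at ht
  rcases ht with rfl | rfl | rfl | rfl | rfl | rfl | rfl | rfl | rfl | rfl | rfl | rfl | rfl | rfl
  · exact P25_1 h nd hr hf hq
  · exact P25_6 h nd hr hf hq
  · exact P25_7 h nd hr hf hq
  · exact P25_10 h nd hr hf hq
  · exact P25_11 h nd hr hf hq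
  · exact P25_12 h nd hr hf hq
  · exact P25_13 h nd hr hf hq
  · exact P25_14 h nd hr hf hq
  · exact P25_15 h nd hr hf hq
  · exact P25_16 h nd hr hf hq
  · exact P25_17 h nd hr hf hq
  · exact P25_18 h nd hr hf hq
  · exact P25_19 h nd hr hf hq
  · exact P25_20 h nd hr hf hq

end Pool.Agent.SOU
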