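import Pool.Agent.SOU.TB

/-! Project SOU (MP_66ba69_lc, mixed insertion): rule 28 (generated). -/

set_option autoImplicit false
set_option maxRecDepth 100000
set_option linter.unusedVariables false

namespace Pool.Agent.SOU

open Pool.Agent.RUP Pool.Agent.SOQ

def c28_1_p0 : List Nat := [
0x64821d00000009f000c000201,
0xaf000000002000200]

def c28_1_pf : List Nat := c28_1_p0

theorem c28_1_ref {V : Type} {S : SRel V} {p : Nat → V} (hp : ∀ i j, i < 5 → j < 5 → p i = p j → i = j)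
    (hts : PHs S p 5 (mA ++ (gf (fun x => 8 + cr 4 x) rf28 ++ (gf (fun x => 8 + c6 0 0 1 2 3 x) f1)))) : False :=
  refuteS (k := 5) (n2 := 3) (n3 := 1) (n4 := 3) (o3 := 45) (o4 := 80) (M := 440) (mA ++ (gf (fun x => 8 + cr 4 x) rf28 ++ (gf (fun x => 8 + c6 0 0 1 2 3 x) f1))) c28_1_pf (by decide +kernel)
    (by decide +kernel) (by decide +kernel) (by decide +kernel) hp hts

theorem c28_1 {V : Type} {W : Mw V} (h : W.Hy) {a b c d : V} (nd : [W.z, a, b, c, d].Nodup)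
    (hr : Hit (mrel0 h.bs) (pt [a, b, c, d] W.z) rf28)
    (hf : Hit (mrel0 h.bs) (v6 W.z W.z W.z a b c) f1) : False :=
  c28_1_ref (pt_inj (o := W.z) nd rfl) (PHs.app (h.ph rfl _) (PHs.app (gf_ph hr (cr 4) (cr_pt (n := 4) (l := [a, b, c, d]) (l' := []) rfl)) (gf_ph hf (c6 0 0 1 2 3) (c6_v6 rfl rfl rfl rfl rfl rfl))))

def c28_6_n_p0 : List Nat := [
0x8640b00000009300000009100000009504bd000401,
0x682400700000000200000009700d4000301,
0x286003000000099045d000201,
0x28641d00000009f0024000201,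
0xa640b0000000930000000910000000a705ad000401,
0xa62400700000000400000000a0218000301,
0x2a60030000000ad054d000201,
0x8a062070000000060000000ad02c6000301,
0x640a20700000000c00000000e0227000301,
0x64a21b0000000120554000201,
0x486a22500000009f0000000140563000301,
0x6a821d0000000b505c6000201,
0xa8621f00000001600000001000000009d0000000180365000501,
0x86a42790000000a70000000ad00000009500000009300000008f00000009100000009f00000009700000009900000001a035f000b01,
0x48a190000000a70000000b300000000800000009500000009100000001a00000001c000800]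

def c28_6_n_pf : List Nat := c28_6_n_p0

theorem c28_6_n_ref {V : Type} {S : SRel V} {p : Nat → V} (hp : ∀ i j, i < 6 → j < 6 → p i = p j → i = j)
    (hts : PHs S p 6 (mA ++ (gf (fun x => 8 + cr 4 x) rf28 ++ (gf (fun x => 8 + c6 5 0 1 2 3 x) f6)))) : False :=
  refuteS (k := 6) (n2 := 3) (n3 := 1) (n4 := 3) (o3 := 63) (o4 := 119) (M := 812) (mA ++ (gf (fun x => 8 + cr 4 x) rf28 ++ (gf (fun x => 8 + c6 5 0 1 2 3 x) f6))) c28_6_n_pf (by decide +kernel)
    (by decide +kernel) (by decide +kernel) (by decide +kernel) hp hts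

theorem c28_6_n {V : Type} {W : Mw V} (h : W.Hy) {a b c d u : V} (nd : [W.z, a, b, c, d, u].Nodup)
    (hr : Hit (mrel0 h.bs) (pt [a, b, c, d] W.z) rf28)
    (hf : Hit (mrel0 h.bs) (v6 W.z u W.z a b c) f6) : False :=
  c28_6_n_ref (pt_inj (o := W.z) nd rfl) (PHs.app (h.ph rfl _) (PHs.app (gf_ph hr (cr 4) (cr_pt (n := 4) (l := [a, b, c, d]) (l' := [u]) rfl)) (gf_ph hf (c6 5 0 1 2 3) (c6_v6 rfl rfl rfl rfl rfl rfl))))

def c28_6_4_p0 : List Nat := [
0x28600300000009902c2000201,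
0xad000000002000200]

def c28_6_4_pf : List Nat := c28_6_4_p0

theorem c28_6_4_ref {V : Type} {S : SRel V} {p : Nat → V} (hp : ∀ i j, i < 5 → j < 5 → p i = p j → i = j)
    (hts : PHs S p 5 (mA ++ (gf (fun x => 8 + cr 4 x) rf28 ++ (gf (fun x => 8 + c6 4 0 1 2 3 x) f6)))) : False :=
  refuteS (k := 5) (n2 := 3) (n3 := 1) (n4 := 3) (o3 := 45) (o4 := 80) (M := 440) (mA ++ (gf (fun x => 8 + cr 4 x) rf28 ++ (gf (fun x => 8 + c6 4 0 1 2 3 x) f6))) c28_6_4_pf (by decide +kernel)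
    (by decide +kernel) (by decide +kernel) (by decide +kernel) hp hts

theorem c28_6_4 {V : Type} {W : Mw V} (h : W.Hy) {a b c d : V} (nd : [W.z, a, b, c, d].Nodup)
    (hr : Hit (mrel0 h.bs) (pt [a, b, c, d] W.z) rf28)
    (hf : Hit (mrel0 h.bs) (v6 W.z d W.z a b c) f6) : False :=
  c28_6_4_ref (pt_inj (o := W.z) nd rfl) (PHs.app (h.ph rfl _) (PHs.app (gf_ph hr (cr 4) (cr_pt (n := 4) (l := [a, b, c, d]) (l' := []) rfl)) (gf_ph hf (c6 4 0 1 2 3) (c6_v6 rfl rfl rfl rfl rfl rfl))))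

def c28_7_n_p0 : List Nat := [
0x8640b00000009300000009100000009504bd000401,
0x682400700000000200000009700d4000301,
0x286003000000099045d000201,
0xa640b0000000930000000910000000a705ad000401,
0xa6240070000000040000000080218000301,
0x2a60030000000ad054d000201,
0x8a062070000000060000000ad02c6000301,
0x640a20700000000a00000000c0227000301,
0x64a21b0000000100554000201,
0x486a22500000009f0000000120563000301,
0x6a821d0000000b305c6000201,
0xa8621f00000001400000000e00000009d0000000160365000501,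
0x86a42790000000a70000000ad00000009500000009300000008f00000009100000009f000000097000000099000000018035f000b01,
0xb500000001a000200]

def c28_7_n_pf : List Nat := c28_7_n_p0

theorem c28_7_n_ref {V : Type} {S : SRel V} {p : Nat → V} (hp : ∀ i j, i < 6 → j < 6 → p i = p j → i = j)
    (hts : PHs S p 6 (mA ++ (gf (fun x => 8 + cr 4 x) rf28 ++ (gf (fun x => 8 + c6 5 0 1 2 3 x) f7)))) : False :=
  refuteS (k := 6) (n2 := 3) (n3 := 1) (n4 := 3) (o3 := 63) (o4 := 119) (M := 812) (mA ++ (gf (fun x => 8 + cr 4 x) rf28 ++ (gf (fun x => 8 + c6 5 0 1 2 3 x) f7))) c28_7_n_pf (by decide +kernel)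
    (by decide +kernel) (by decide +kernel) (by decide +kernel) hp hts

theorem c28_7_n {V : Type} {W : Mw V} (h : W.Hy) {a b c d u : V} (nd : [W.z, a, b, c, d, u].Nodup)
    (hr : Hit (mrel0 h.bs) (pt [a, b, c, d] W.z) rf28)
    (hf : Hit (mrel0 h.bs) (v6 W.z u W.z a b c) f7) : False :=
  c28_7_n_ref (pt_inj (o := W.z) nd rfl) (PHs.app (h.ph rfl _) (PHs.app (gf_ph hr (cr 4) (cr_pt (n := 4) (l := [a, b, c, d]) (l' := [u]) rfl)) (gf_ph hf (c6 5 0 1 2 3) (c6_v6 rfl rfl rfl rfl rfl rfl))))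

def c28_7_4_p0 : List Nat := [
0x28600300000009902c2000201,
0xad000000002000200]

def c28_7_4_pf : List Nat := c28_7_4_p0

theorem c28_7_4_ref {V : Type} {S : SRel V} {p : Nat → V} (hp : ∀ i j, i < 5 → j < 5 → p i = p j → i = j)
    (hts : PHs S p 5 (mA ++ (gf (fun x => 8 + cr 4 x) rf28 ++ (gf (fun x => 8 + c6 4 0 1 2 3 x) f7)))) : False :=
  refuteS (k := 5) (n2 := 3) (n3 := 1) (n4 := 3) (o3 := 45) (o4 := 80) (M := 440) (mA ++ (gf (fun x => 8 + cr 4 x) rf28 ++ (gf (fun x => 8 + c6 4 0 1 2 3 x) f7))) c28_7_4_pf (by decide +kernel)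
    (by decide +kernel) (by decide +kernel) (by decide +kernel) hp hts

theorem c28_7_4 {V : Type} {W : Mw V} (h : W.Hy) {a b c d : V} (nd : [W.z, a, b, c, d].Nodup)
    (hr : Hit (mrel0 h.bs) (pt [a, b, c, d] W.z) rf28)
    (hf : Hit (mrel0 h.bs) (v6 W.z d W.z a b c) f7) : False :=
  c28_7_4_ref (pt_inj (o := W.z) nd rfl) (PHs.app (h.ph rfl _) (PHs.app (gf_ph hr (cr 4) (cr_pt (n := 4) (l := [a, b, c, d]) (l' := []) rfl)) (gf_ph hf (c6 4 0 1 2 3) (c6_v6 rfl rfl rfl rfl rfl rfl))))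

def c28_10_n_p0 : List Nat := [
0x286003000000099045d000201,
0xa280d00000009500000008f0000000a30559000401,
0x2a6800700000000200000000405c2000301,
0x820a6070000000060000000ab0299000301,
0xa6821b00000000805c6000201,
0xa46822500000009f00000000a05b1000301,
0xb300000000c000200]

def c28_10_n_pf : List Nat := c28_10_n_p0

theorem c28_10_n_ref {V : Type} {S : SRel V} {p : Nat → V} (hp : ∀ i j, i < 6 → j < 6 → p i = p j → i = j)
    (hts : PHs S p 6 (mA ++ (gf (fun x => 8 + cr 4 x) rf28 ++ (gf (fun x => 8 + c6 5 0 1 2 3 x) f10)))) : False :=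
  refuteS (k := 6) (n2 := 3) (n3 := 1) (n4 := 3) (o3 := 63) (o4 := 119) (M := 812) (mA ++ (gf (fun x => 8 + cr 4 x) rf28 ++ (gf (fun x => 8 + c6 5 0 1 2 3 x) f10))) c28_10_n_pf (by decide +kernel)
    (by decide +kernel) (by decide +kernel) (by decide +kernel) hp hts

theorem c28_10_n {V : Type} {W : Mw V} (h : W.Hy) {a b c d u : V} (nd : [W.z, a, b, c, d, u].Nodup)
    (hr : Hit (mrel0 h.bs) (pt [a, b, c, d] W.z) rf28)
    (hf : Hit (mrel0 h.bs) (v6 W.z u W.z a b c) f10) : False :=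
  c28_10_n_ref (pt_inj (o := W.z) nd rfl) (PHs.app (h.ph rfl _) (PHs.app (gf_ph hr (cr 4) (cr_pt (n := 4) (l := [a, b, c, d]) (l' := [u]) rfl)) (gf_ph hf (c6 5 0 1 2 3) (c6_v6 rfl rfl rfl rfl rfl rfl))))

def c28_10_4_p0 : List Nat := [
0xa3000000095000200]

def c28_10_4_pf : List Nat := c28_10_4_p0

theorem c28_10_4_ref {V : Type} {S : SRel V} {p : Nat → V} (hp : ∀ i j, i < 5 → j < 5 → p i = p j → i = j)
    (hts : PHs S p 5 (mA ++ (gf (fun x => 8 + cr 4 x) rf28 ++ (gf (fun x => 8 + c6 4 0 1 2 3 x) f10)))) : False :=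
  refuteS (k := 5) (n2 := 3) (n3 := 1) (n4 := 3) (o3 := 45) (o4 := 80) (M := 440) (mA ++ (gf (fun x => 8 + cr 4 x) rf28 ++ (gf (fun x => 8 + c6 4 0 1 2 3 x) f10))) c28_10_4_pf (by decide +kernel)
    (by decide +kernel) (by decide +kernel) (by decide +kernel) hp hts

theorem c28_10_4 {V : Type} {W : Mw V} (h : W.Hy) {a b c d : V} (nd : [W.z, a, b, c, d].Nodup)
    (hr : Hit (mrel0 h.bs) (pt [a, b, c, d] W.z) rf28)
    (hf : Hit (mrel0 h.bs) (v6 W.z d W.z a b c) f10) : False :=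
  c28_10_4_ref (pt_inj (o := W.z) nd rfl) (PHs.app (h.ph rfl _) (PHs.app (gf_ph hr (cr 4) (cr_pt (n := 4) (l := [a, b, c, d]) (l' := []) rfl)) (gf_ph hf (c6 4 0 1 2 3) (c6_v6 rfl rfl rfl rfl rfl rfl))))

def c28_11_n_p0 : List Nat := [
0x8620b00000009300000008f00000009504b7000401,
0x8640b00000009300000009100000009504bd000401,
0x8420030000000970490000201,
0x682400700000000400000009700d4000301,
0x86420070000000020000000060412000301,
0x286003000000099045d000201,
0x28641d00000009f0024000201,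
0xa280d00000009500000008f0000000a30559000401,
0xa480d0000000950000000910000000a3058c000401,
0x2a6800700000000c00000001005c2000301,
0x6a20030000000ab0520000201,
0x4a6200700000000a0000000ab0245000301,
0x820a6070000000140000000ab0299000301,
0xa4062070000000080000000160257000301,
0x820a4070000000120000000180263000301,
0xa6420300000001c05b0000201,
0xa4821b00000001e0590000201,
0x482a60700000001a000000020029c000301,
0x268a42500000009f0000000220596000301,
0x8a641d0000000b305f6000201,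
0xa6841f00000002400000002600000000e0000000280362000501,
0xb500000002a000200]

def c28_11_n_pf : List Nat := c28_11_n_p0

theorem c28_11_n_ref {V : Type} {S : SRel V} {p : Nat → V} (hp : ∀ i j, i < 6 → j < 6 → p i = p j → i = j)
    (hts : PHs S p 6 (mA ++ (gf (fun x => 8 + cr 4 x) rf28 ++ (gf (fun x => 8 + c6 5 0 1 2 3 x) f11)))) : False :=
  refuteS (k := 6) (n2 := 3) (n3 := 1) (n4 := 3) (o3 := 63) (o4 := 119) (M := 812) (mA ++ (gf (fun x => 8 + cr 4 x) rf28 ++ (gf (fun x => 8 + c6 5 0 1 2 3 x) f11))) c28_11_n_pf (by decide +kernel)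
    (by decide +kernel) (by decide +kernel) (by decide +kernel) hp hts

theorem c28_11_n {V : Type} {W : Mw V} (h : W.Hy) {a b c d u : V} (nd : [W.z, a, b, c, d, u].Nodup)
    (hr : Hit (mrel0 h.bs) (pt [a, b, c, d] W.z) rf28)
    (hf : Hit (mrel0 h.bs) (v6 W.z u W.z a b c) f11) : False :=
  c28_11_n_ref (pt_inj (o := W.z) nd rfl) (PHs.app (h.ph rfl _) (PHs.app (gf_ph hr (cr 4) (cr_pt (n := 4) (l := [a, b, c, d]) (l' := [u]) rfl)) (gf_ph hf (c6 5 0 1 2 3) (c6_v6 rfl rfl rfl rfl rfl rfl))))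

def c28_11_4_p0 : List Nat := [
0xa3000000095000200]

def c28_11_4_pf : List Nat := c28_11_4_p0

theorem c28_11_4_ref {V : Type} {S : SRel V} {p : Nat → V} (hp : ∀ i j, i < 5 → j < 5 → p i = p j → i = j)
    (hts : PHs S p 5 (mA ++ (gf (fun x => 8 + cr 4 x) rf28 ++ (gf (fun x => 8 + c6 4 0 1 2 3 x) f11)))) : False :=
  refuteS (k := 5) (n2 := 3) (n3 := 1) (n4 := 3) (o3 := 45) (o4 := 80) (M := 440) (mA ++ (gf (fun x => 8 + cr 4 x) rf28 ++ (gf (fun x => 8 + c6 4 0 1 2 3 x) f11))) c28_11_4_pf (by decide +kernel)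
    (by decide +kernel) (by decide +kernel) (by decide +kernel) hp hts

theorem c28_11_4 {V : Type} {W : Mw V} (h : W.Hy) {a b c d : V} (nd : [W.z, a, b, c, d].Nodup)
    (hr : Hit (mrel0 h.bs) (pt [a, b, c, d] W.z) rf28)
    (hf : Hit (mrel0 h.bs) (v6 W.z d W.z a b c) f11) : False :=
  c28_11_4_ref (pt_inj (o := W.z) nd rfl) (PHs.app (h.ph rfl _) (PHs.app (gf_ph hr (cr 4) (cr_pt (n := 4) (l := [a, b, c, d]) (l' := []) rfl)) (gf_ph hf (c6 4 0 1 2 3) (c6_v6 rfl rfl rfl rfl rfl rfl))))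

def c28_12_n_p0 : List Nat := [
0x8620b00000009300000008f00000009504b7000401,
0x8640b00000009300000009100000009504bd000401,
0x8420030000000970490000201,
0x682400700000000400000009700d4000301,
0x86420070000000020000000060412000301,
0x286003000000099045d000201,
0x840620700000000800000000c0176000301,
0x86a0b0000000950000000930000000a70532000401,
0x864a0070000000100000000ad0203000301,
0x2a0640700000000a0000000ad0227000301,
0x4a62030000000140583000201,
0x64a21b0000000140554000201,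
0xa84620700000000e00000001602c6000301,
0x486a22500000009f0000000180563000301,
0x6a821d0000000b305c6000201,
0xa8621f00000001a00000001c00000009d00000001e0365000501,
0x86a427d00000001200000009500000009300000008f0000000910000000a700000009f0000000970000000990000000200362000b01,
0xb5000000022000200]

def c28_12_n_pf : List Nat := c28_12_n_p0

theorem c28_12_n_ref {V : Type} {S : SRel V} {p : Nat → V} (hp : ∀ i j, i < 6 → j < 6 → p i = p j → i = j)
    (hts : PHs S p 6 (mA ++ (gf (fun x => 8 + cr 4 x) rf28 ++ (gf (fun x => 8 + c6 5 0 1 2 3 x) f12)))) : False :=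
  refuteS (k := 6) (n2 := 3) (n3 := 1) (n4 := 3) (o3 := 63) (o4 := 119) (M := 812) (mA ++ (gf (fun x => 8 + cr 4 x) rf28 ++ (gf (fun x => 8 + c6 5 0 1 2 3 x) f12))) c28_12_n_pf (by decide +kernel)
    (by decide +kernel) (by decide +kernel) (by decide +kernel) hp hts

theorem c28_12_n {V : Type} {W : Mw V} (h : W.Hy) {a b c d u : V} (nd : [W.z, a, b, c, d, u].Nodup)
    (hr : Hit (mrel0 h.bs) (pt [a, b, c, d] W.z) rf28)
    (hf : Hit (mrel0 h.bs) (v6 W.z u W.z a b c) f12) : False :=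
  c28_12_n_ref (pt_inj (o := W.z) nd rfl) (PHs.app (h.ph rfl _) (PHs.app (gf_ph hr (cr 4) (cr_pt (n := 4) (l := [a, b, c, d]) (l' := [u]) rfl)) (gf_ph hf (c6 5 0 1 2 3) (c6_v6 rfl rfl rfl rfl rfl rfl))))

def c28_12_4_p0 : List Nat := [
0xa7000000095000200]

def c28_12_4_pf : List Nat := c28_12_4_p0

theorem c28_12_4_ref {V : Type} {S : SRel V} {p : Nat → V} (hp : ∀ i j, i < 5 → j < 5 → p i = p j → i = j)
    (hts : PHs S p 5 (mA ++ (gf (fun x => 8 + cr 4 x) rf28 ++ (gf (fun x => 8 + c6 4 0 1 2 3 x) f12)))) : False :=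
  refuteS (k := 5) (n2 := 3) (n3 := 1) (n4 := 3) (o3 := 45) (o4 := 80) (M := 440) (mA ++ (gf (fun x => 8 + cr 4 x) rf28 ++ (gf (fun x => 8 + c6 4 0 1 2 3 x) f12))) c28_12_4_pf (by decide +kernel)
    (by decide +kernel) (by decide +kernel) (by decide +kernel) hp hts

theorem c28_12_4 {V : Type} {W : Mw V} (h : W.Hy) {a b c d : V} (nd : [W.z, a, b, c, d].Nodup)
    (hr : Hit (mrel0 h.bs) (pt [a, b, c, d] W.z) rf28)
    (hf : Hit (mrel0 h.bs) (v6 W.z d W.z a b c) f12) : False :=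
  c28_12_4_ref (pt_inj (o := W.z) nd rfl) (PHs.app (h.ph rfl _) (PHs.app (gf_ph hr (cr 4) (cr_pt (n := 4) (l := [a, b, c, d]) (l' := []) rfl)) (gf_ph hf (c6 4 0 1 2 3) (c6_v6 rfl rfl rfl rfl rfl rfl))))

def c28_13_n_p0 : List Nat := [
0x4280d00000009100000008f0000000950454000401,
0x8640b00000009300000009100000009504bd000401,
0x8420030000000970490000201,
0x682400700000000400000009700d4000301,
0x286003000000099045d000201,
0x264800700000000200000000a0460000301,
0x28641d00000009f0024000201,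
0x86a0b0000000950000000930000000a70532000401,
0x6a40030000000ad05ad000201,
0x864a0070000000100000000ad0203000301,
0x8a0640700000000c0000000ad02c9000301,
0xa6240070000000080000000120218000301,
0x2a084070000000060000000140233000301,
0xa8641b00000001605f6000201,
0x2a40030000000180517000201,
0xa28642500000009f00000001c05ea000301,
0x284a00700000001400000001e0200000301,
0x42a330000000a700000008f0000000910000000b30030000501,
0x842a5100000009500000008f0000000910000000a70000000220000000b30590000701,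
0x84a21f00000002000000001a00000000e000000026000000024000600]

def c28_13_n_pf : List Nat := c28_13_n_p0

theorem c28_13_n_ref {V : Type} {S : SRel V} {p : Nat → V} (hp : ∀ i j, i < 6 → j < 6 → p i = p j → i = j)
    (hts : PHs S p 6 (mA ++ (gf (fun x => 8 + cr 4 x) rf28 ++ (gf (fun x => 8 + c6 5 0 1 2 3 x) f13)))) : False :=
  refuteS (k := 6) (n2 := 3) (n3 := 1) (n4 := 3) (o3 := 63) (o4 := 119) (M := 812) (mA ++ (gf (fun x => 8 + cr 4 x) rf28 ++ (gf (fun x => 8 + c6 5 0 1 2 3 x) f13))) c28_13_n_pf (by decide +kernel)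
    (by decide +kernel) (by decide +kernel) (by decide +kernel) hp hts

theorem c28_13_n {V : Type} {W : Mw V} (h : W.Hy) {a b c d u : V} (nd : [W.z, a, b, c, d, u].Nodup)
    (hr : Hit (mrel0 h.bs) (pt [a, b, c, d] W.z) rf28)
    (hf : Hit (mrel0 h.bs) (v6 W.z u W.z a b c) f13) : False :=
  c28_13_n_ref (pt_inj (o := W.z) nd rfl) (PHs.app (h.ph rfl _) (PHs.app (gf_ph hr (cr 4) (cr_pt (n := 4) (l := [a, b, c, d]) (l' := [u]) rfl)) (gf_ph hf (c6 5 0 1 2 3) (c6_v6 rfl rfl rfl rfl rfl rfl))))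

def c28_13_4_p0 : List Nat := [
0xa7000000095000200]

def c28_13_4_pf : List Nat := c28_13_4_p0

theorem c28_13_4_ref {V : Type} {S : SRel V} {p : Nat → V} (hp : ∀ i j, i < 5 → j < 5 → p i = p j → i = j)
    (hts : PHs S p 5 (mA ++ (gf (fun x => 8 + cr 4 x) rf28 ++ (gf (fun x => 8 + c6 4 0 1 2 3 x) f13)))) : False :=
  refuteS (k := 5) (n2 := 3) (n3 := 1) (n4 := 3) (o3 := 45) (o4 := 80) (M := 440) (mA ++ (gf (fun x => 8 + cr 4 x) rf28 ++ (gf (fun x => 8 + c6 4 0 1 2 3 x) f13))) c28_13_4_pf (by decide +kernel)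
    (by decide +kernel) (by decide +kernel) (by decide +kernel) hp hts

theorem c28_13_4 {V : Type} {W : Mw V} (h : W.Hy) {a b c d : V} (nd : [W.z, a, b, c, d].Nodup)
    (hr : Hit (mrel0 h.bs) (pt [a, b, c, d] W.z) rf28)
    (hf : Hit (mrel0 h.bs) (v6 W.z d W.z a b c) f13) : False :=
  c28_13_4_ref (pt_inj (o := W.z) nd rfl) (PHs.app (h.ph rfl _) (PHs.app (gf_ph hr (cr 4) (cr_pt (n := 4) (l := [a, b, c, d]) (l' := []) rfl)) (gf_ph hf (c6 4 0 1 2 3) (c6_v6 rfl rfl rfl rfl rfl rfl))))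

def c28_14_n_n_p0 : List Nat := [
0x8640b000000093000000091000000095072c000401,
0x68240070000000020000000970105000301,
0xa640b0000000930000000910000000a7081c000401,
0xa6240070000000040000000060249000301,
0x2a60030000000af07bc000201,
0x640a20700000000800000000a0258000301,
0x64a21b00000000c07c3000201,
0x2c60030000000b108dc000201,
0xca062070000000af00000001004da000301,
0xca620300000001209c6000201,
0xc64a20700000000c0000000140414000301,
0xc4a21b000000016097f000201,
0xca46822700000000e00000009f0000000b9044e000401,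
0xc6821b00000001a09b7000201,
0xc64822300000009f00000001a0406000301,
0xa28c6230000000b900000001a0466000301,
0xc60820700000009900000001c037e000301,
0xa82c42300000001800000001e0988000301,
0x24a8c5f0000000240000000ab0000000a700000009500000008f00000002200000001e0901000801,
0x86ac4d0000000b70000000ab0000000a7000000095000000093000000026000000020000800]

def c28_14_n_n_pf : List Nat := c28_14_n_n_p0

theorem c28_14_n_n_ref {V : Type} {S : SRel V} {p : Nat → V} (hp : ∀ i j, i < 7 → j < 7 → p i = p j → i = j)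
    (hts : PHs S p 7 (mA ++ (gf (fun x => 8 + cr 4 x) rf28 ++ (gf (fun x => 8 + c6 5 6 1 2 3 x) f14)))) : False :=
  refuteS (k := 7) (n2 := 3) (n3 := 1) (n4 := 3) (o3 := 84) (o4 := 168) (M := 1386) (mA ++ (gf (fun x => 8 + cr 4 x) rf28 ++ (gf (fun x => 8 + c6 5 6 1 2 3 x) f14))) c28_14_n_n_pf (by decide +kernel)
    (by decide +kernel) (by decide +kernel) (by decide +kernel) hp hts

theorem c28_14_n_n {V : Type} {W : Mw V} (h : W.Hy) {a b c d u w : V} (nd : [W.z, a, b, c, d, u, w].Nodup)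
    (hr : Hit (mrel0 h.bs) (pt [a, b, c, d] W.z) rf28)
    (hf : Hit (mrel0 h.bs) (v6 W.z u w a b c) f14) : False :=
  c28_14_n_n_ref (pt_inj (o := W.z) nd rfl) (PHs.app (h.ph rfl _) (PHs.app (gf_ph hr (cr 4) (cr_pt (n := 4) (l := [a, b, c, d]) (l' := [u, w]) rfl)) (gf_ph hf (c6 5 6 1 2 3) (c6_v6 rfl rfl rfl rfl rfl rfl))))

def c28_14_n_4_p0 : List Nat := [
0x8640b00000009300000009100000009504bd000401,
0x682400700000000200000009700d4000301,
0xa640b0000000930000000910000000a705ad000401,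
0xa6240070000000040000000060218000301,
0x2a60030000000af054d000201,
0x640a20700000000800000000a0227000301,
0x64a21b00000000c0554000201,
0x486a22500000009f00000000e0563000301,
0xb9000000010000200]

def c28_14_n_4_pf : List Nat := c28_14_n_4_p0

theorem c28_14_n_4_ref {V : Type} {S : SRel V} {p : Nat → V} (hp : ∀ i j, i < 6 → j < 6 → p i = p j → i = j)
    (hts : PHs S p 6 (mA ++ (gf (fun x => 8 + cr 4 x) rf28 ++ (gf (fun x => 8 + c6 5 4 1 2 3 x) f14)))) : False :=
  refuteS (k := 6) (n2 := 3) (n3 := 1) (n4 := 3) (o3 := 63) (o4 := 119) (M := 812) (mA ++ (gf (fun x => 8 + cr 4 x) rf28 ++ (gf (fun x => 8 + c6 5 4 1 2 3 x) f14))) c28_14_n_4_pf (by decide +kernel)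
    (by decide +kernel) (by decide +kernel) (by decide +kernel) hp hts

theorem c28_14_n_4 {V : Type} {W : Mw V} (h : W.Hy) {a b c d u : V} (nd : [W.z, a, b, c, d, u].Nodup)
    (hr : Hit (mrel0 h.bs) (pt [a, b, c, d] W.z) rf28)
    (hf : Hit (mrel0 h.bs) (v6 W.z u d a b c) f14) : False :=
  c28_14_n_4_ref (pt_inj (o := W.z) nd rfl) (PHs.app (h.ph rfl _) (PHs.app (gf_ph hr (cr 4) (cr_pt (n := 4) (l := [a, b, c, d]) (l' := [u]) rfl)) (gf_ph hf (c6 5 4 1 2 3) (c6_v6 rfl rfl rfl rfl rfl rfl))))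

def c28_14_4_n_p0 : List Nat := [
0x286003000000099045d000201,
0xaf000000002000200]

def c28_14_4_n_pf : List Nat := c28_14_4_n_p0

theorem c28_14_4_n_ref {V : Type} {S : SRel V} {p : Nat → V} (hp : ∀ i j, i < 6 → j < 6 → p i = p j → i = j)
    (hts : PHs S p 6 (mA ++ (gf (fun x => 8 + cr 4 x) rf28 ++ (gf (fun x => 8 + c6 4 5 1 2 3 x) f14)))) : False :=
  refuteS (k := 6) (n2 := 3) (n3 := 1) (n4 := 3) (o3 := 63) (o4 := 119) (M := 812) (mA ++ (gf (fun x => 8 + cr 4 x) rf28 ++ (gf (fun x => 8 + c6 4 5 1 2 3 x) f14))) c28_14_4_n_pf (by decide +kernel)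
    (by decide +kernel) (by decide +kernel) (by decide +kernel) hp hts

theorem c28_14_4_n {V : Type} {W : Mw V} (h : W.Hy) {a b c d w : V} (nd : [W.z, a, b, c, d, w].Nodup)
    (hr : Hit (mrel0 h.bs) (pt [a, b, c, d] W.z) rf28)
    (hf : Hit (mrel0 h.bs) (v6 W.z d w a b c) f14) : False :=
  c28_14_4_n_ref (pt_inj (o := W.z) nd rfl) (PHs.app (h.ph rfl _) (PHs.app (gf_ph hr (cr 4) (cr_pt (n := 4) (l := [a, b, c, d]) (l' := [w]) rfl)) (gf_ph hf (c6 4 5 1 2 3) (c6_v6 rfl rfl rfl rfl rfl rfl))))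

def c28_15_n_n_p0 : List Nat := [
0x8640b000000093000000091000000095072c000401,
0x68240070000000020000000970105000301,
0xa640b0000000930000000910000000a7081c000401,
0xa6240070000000040000000060249000301,
0x2ca0030000000af08f7000201,
0xc40a20700000000800000000a0414000301,
0x2c60030000000b1091b000201,
0xa62c00700000000a0000000b10393000301,
0xc82600700000009900000000e0489000301,
0x6a0c2070000000af00000000e03d5000301,
0xac60030000000100a41000201,
0xac8600700000001600000001202f4000301,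
0x6ca20300000001409c6000201,
0xa86290000000a7000000095000000093000000018085f000501,
0x6c4a20700000000c00000001a0258000301,
0x64a21b00000001e07c3000201,
0x8ca64d00000001c0000000a90000000a70000000950000000930000000b709d0000701,
0xa28c6230000000220000000b909b8000301,
0xca46822700000002000000009f0000000240000000b9000500]

def c28_15_n_n_pf : List Nat := c28_15_n_n_p0

theorem c28_15_n_n_ref {V : Type} {S : SRel V} {p : Nat → V} (hp : ∀ i j, i < 7 → j < 7 → p i = p j → i = j)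
    (hts : PHs S p 7 (mA ++ (gf (fun x => 8 + cr 4 x) rf28 ++ (gf (fun x => 8 + c6 5 6 1 2 3 x) f15)))) : False :=
  refuteS (k := 7) (n2 := 3) (n3 := 1) (n4 := 3) (o3 := 84) (o4 := 168) (M := 1386) (mA ++ (gf (fun x => 8 + cr 4 x) rf28 ++ (gf (fun x => 8 + c6 5 6 1 2 3 x) f15))) c28_15_n_n_pf (by decide +kernel)
    (by decide +kernel) (by decide +kernel) (by decide +kernel) hp hts

theorem c28_15_n_n {V : Type} {W : Mw V} (h : W.Hy) {a b c d u w : V} (nd : [W.z, a, b, c, d, u, w].Nodup)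
    (hr : Hit (mrel0 h.bs) (pt [a, b, c, d] W.z) rf28)
    (hf : Hit (mrel0 h.bs) (v6 W.z u w a b c) f15) : False :=
  c28_15_n_n_ref (pt_inj (o := W.z) nd rfl) (PHs.app (h.ph rfl _) (PHs.app (gf_ph hr (cr 4) (cr_pt (n := 4) (l := [a, b, c, d]) (l' := [u, w]) rfl)) (gf_ph hf (c6 5 6 1 2 3) (c6_v6 rfl rfl rfl rfl rfl rfl))))

def c28_15_n_4_p0 : List Nat := [
0x286003000000099045d000201,
0xb1000000002000200]

def c28_15_n_4_pf : List Nat := c28_15_n_4_p0

theorem c28_15_n_4_ref {V : Type} {S : SRel V} {p : Nat → V} (hp : ∀ i j, i < 6 → j < 6 → p i = p j → i = j)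
    (hts : PHs S p 6 (mA ++ (gf (fun x => 8 + cr 4 x) rf28 ++ (gf (fun x => 8 + c6 5 4 1 2 3 x) f15)))) : False :=
  refuteS (k := 6) (n2 := 3) (n3 := 1) (n4 := 3) (o3 := 63) (o4 := 119) (M := 812) (mA ++ (gf (fun x => 8 + cr 4 x) rf28 ++ (gf (fun x => 8 + c6 5 4 1 2 3 x) f15))) c28_15_n_4_pf (by decide +kernel)
    (by decide +kernel) (by decide +kernel) (by decide +kernel) hp hts

theorem c28_15_n_4 {V : Type} {W : Mw V} (h : W.Hy) {a b c d u : V} (nd : [W.z, a, b, c, d, u].Nodup)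
    (hr : Hit (mrel0 h.bs) (pt [a, b, c, d] W.z) rf28)
    (hf : Hit (mrel0 h.bs) (v6 W.z u d a b c) f15) : False :=
  c28_15_n_4_ref (pt_inj (o := W.z) nd rfl) (PHs.app (h.ph rfl _) (PHs.app (gf_ph hr (cr 4) (cr_pt (n := 4) (l := [a, b, c, d]) (l' := [u]) rfl)) (gf_ph hf (c6 5 4 1 2 3) (c6_v6 rfl rfl rfl rfl rfl rfl))))

def c28_15_4_n_p0 : List Nat := [
0x286003000000099045d000201,
0x2a80030000000af052c000201,
0x6a280070000000020000000af0296000301,
0x6a80030000000060532000201,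
0x862a0070000000040000000080520000301,
0xb100000000a000200]

def c28_15_4_n_pf : List Nat := c28_15_4_n_p0

theorem c28_15_4_n_ref {V : Type} {S : SRel V} {p : Nat → V} (hp : ∀ i j, i < 6 → j < 6 → p i = p j → i = j)
    (hts : PHs S p 6 (mA ++ (gf (fun x => 8 + cr 4 x) rf28 ++ (gf (fun x => 8 + c6 4 5 1 2 3 x) f15)))) : False :=
  refuteS (k := 6) (n2 := 3) (n3 := 1) (n4 := 3) (o3 := 63) (o4 := 119) (M := 812) (mA ++ (gf (fun x => 8 + cr 4 x) rf28 ++ (gf (fun x => 8 + c6 4 5 1 2 3 x) f15))) c28_15_4_n_pf (by decide +kernel)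
    (by decide +kernel) (by decide +kernel) (by decide +kernel) hp hts

theorem c28_15_4_n {V : Type} {W : Mw V} (h : W.Hy) {a b c d w : V} (nd : [W.z, a, b, c, d, w].Nodup)
    (hr : Hit (mrel0 h.bs) (pt [a, b, c, d] W.z) rf28)
    (hf : Hit (mrel0 h.bs) (v6 W.z d w a b c) f15) : False :=
  c28_15_4_n_ref (pt_inj (o := W.z) nd rfl) (PHs.app (h.ph rfl _) (PHs.app (gf_ph hr (cr 4) (cr_pt (n := 4) (l := [a, b, c, d]) (l' := [w]) rfl)) (gf_ph hf (c6 4 5 1 2 3) (c6_v6 rfl rfl rfl rfl rfl rfl))))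

def c28_16_n_n_p0 : List Nat := [
0x4280d00000009100000008f00000009506c3000401,
0x8640b000000093000000091000000095072c000401,
0x68240070000000040000000970105000301,
0x28600300000009906cc000201,
0x264800700000000200000000806cf000301,
0x28641d00000009f0024000201,
0x28461d00000009f0027000201,
0x42c0d00000009100000008f0000000ab08d3000401,
0xc640b0000000930000000910000000ab099f000401,
0xc62400700000000600000001203a8000301,
0x2a60030000000af078f000201,
0xa8260050000000990000000af085e000301,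
0xa4062070000000060000000160288000301,
0x2ca0030000000b108f7000201,
0xa40c2050000000140000000b1093c000301,
0x6c2a0070000000160000000b10459000301,
0x2a4c00700000001000000001c08fa000301,
0xc62a40700000001a00000001e045f000301,
0x6ca00300000002008fd000201,
0xa64c00700000002600000002208df000301,
0xc8640700000000a00000002809f9000301,
0x6a821d0000000b70835000201,
0x8c641d0000000b909fa000201,
0xca28462700000002c00000009f00000002e0a18000401,
0x6ac2d0000000ab0000000a90000000930000000bb002d000501,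
0xa6c310000000ab0000000a90000000930000000bb0048000501,
0xc8a6450000000300000000ab0000000a90000000950000000930000000bb0832000701,
0xca42670000000ab0000000b90000000a90000000b700000008f00000009b0000000910000000b100000001400000003205ac000b01,
0x4c821d0000000380970000201,
0x268c42500000009f00000003a0976000301,
0xc6841f00000002e00000003400000000c00000003c09ba000501,
0xc8640100000002a00000003e040b000301,
0x8a4c60700000002400000003e0465000301,
0xc486070000000040000000400384000301,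
0xac86030000000420a56000201,
0xc6a8070000000180000000420396000301,
0xac086070000000460000000440237000301,
0xa8c290000000ab0000000a90000000950000000480901000501,
0x86a350000000320000000360000000a900000009500000009300000000e00000004a02f5000801,
0x86ac490000000bb0000000ab0000000a900000009500000009300000004c00000004e000800]

def c28_16_n_n_pf : List Nat := c28_16_n_n_p0

theorem c28_16_n_n_ref {V : Type} {S : SRel V} {p : Nat → V} (hp : ∀ i j, i < 7 → j < 7 → p i = p j → i = j)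
    (hts : PHs S p 7 (mA ++ (gf (fun x => 8 + cr 4 x) rf28 ++ (gf (fun x => 8 + c6 5 6 1 2 3 x) f16)))) : False :=
  refuteS (k := 7) (n2 := 3) (n3 := 1) (n4 := 3) (o3 := 84) (o4 := 168) (M := 1386) (mA ++ (gf (fun x => 8 + cr 4 x) rf28 ++ (gf (fun x => 8 + c6 5 6 1 2 3 x) f16))) c28_16_n_n_pf (by decide +kernel)
    (by decide +kernel) (by decide +kernel) (by decide +kernel) hp hts

theorem c28_16_n_n {V : Type} {W : Mw V} (h : W.Hy) {a b c d u w : V} (nd : [W.z, a, b, c, d, u, w].Nodup)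
    (hr : Hit (mrel0 h.bs) (pt [a, b, c, d] W.z) rf28)
    (hf : Hit (mrel0 h.bs) (v6 W.z u w a b c) f16) : False :=
  c28_16_n_n_ref (pt_inj (o := W.z) nd rfl) (PHs.app (h.ph rfl _) (PHs.app (gf_ph hr (cr 4) (cr_pt (n := 4) (l := [a, b, c, d]) (l' := [u, w]) rfl)) (gf_ph hf (c6 5 6 1 2 3) (c6_v6 rfl rfl rfl rfl rfl rfl))))

def c28_16_n_4_p0 : List Nat := [
0x28641d00000009f0024000201,
0xb9000000002000200]

def c28_16_n_4_pf : List Nat := c28_16_n_4_p0

theorem c28_16_n_4_ref {V : Type} {S : SRel V} {p : Nat → V} (hp : ∀ i j, i < 6 → j < 6 → p i = p j → i = j)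
    (hts : PHs S p 6 (mA ++ (gf (fun x => 8 + cr 4 x) rf28 ++ (gf (fun x => 8 + c6 5 4 1 2 3 x) f16)))) : False :=
  refuteS (k := 6) (n2 := 3) (n3 := 1) (n4 := 3) (o3 := 63) (o4 := 119) (M := 812) (mA ++ (gf (fun x => 8 + cr 4 x) rf28 ++ (gf (fun x => 8 + c6 5 4 1 2 3 x) f16))) c28_16_n_4_pf (by decide +kernel)
    (by decide +kernel) (by decide +kernel) (by decide +kernel) hp hts

theorem c28_16_n_4 {V : Type} {W : Mw V} (h : W.Hy) {a b c d u : V} (nd : [W.z, a, b, c, d, u].Nodup)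
    (hr : Hit (mrel0 h.bs) (pt [a, b, c, d] W.z) rf28)
    (hf : Hit (mrel0 h.bs) (v6 W.z u d a b c) f16) : False :=
  c28_16_n_4_ref (pt_inj (o := W.z) nd rfl) (PHs.app (h.ph rfl _) (PHs.app (gf_ph hr (cr 4) (cr_pt (n := 4) (l := [a, b, c, d]) (l' := [u]) rfl)) (gf_ph hf (c6 5 4 1 2 3) (c6_v6 rfl rfl rfl rfl rfl rfl))))

def c28_16_4_n_p0 : List Nat := [
0x8640b00000009300000009100000009504bd000401,
0x682400700000000200000009700d4000301,
0x286003000000099045d000201,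
0x84062070000000040000000060176000301,
0x28641d00000009f0024000201,
0xa640b0000000930000000910000000ab05ad000401,
0xa62400700000000400000000c0218000301,
0x2a80030000000b1052c000201,
0x840a20500000000e0000000b1055f000301,
0xa4082070000000970000000100263000301,
0xa628407000000008000000012029c000301,
0xa4821b0000000140590000201,
0x268a42500000009f0000000180596000301,
0x8a641d0000000b905f6000201,
0xa6841f00000001a00000001600000000a00000001c0362000501,
0x86a310000000ab00000009500000009300000001e0533000501,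
0xbb000000020000200]

def c28_16_4_n_pf : List Nat := c28_16_4_n_p0

theorem c28_16_4_n_ref {V : Type} {S : SRel V} {p : Nat → V} (hp : ∀ i j, i < 6 → j < 6 → p i = p j → i = j)
    (hts : PHs S p 6 (mA ++ (gf (fun x => 8 + cr 4 x) rf28 ++ (gf (fun x => 8 + c6 4 5 1 2 3 x) f16)))) : False :=
  refuteS (k := 6) (n2 := 3) (n3 := 1) (n4 := 3) (o3 := 63) (o4 := 119) (M := 812) (mA ++ (gf (fun x => 8 + cr 4 x) rf28 ++ (gf (fun x => 8 + c6 4 5 1 2 3 x) f16))) c28_16_4_n_pf (by decide +kernel)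
    (by decide +kernel) (by decide +kernel) (by decide +kernel) hp hts

theorem c28_16_4_n {V : Type} {W : Mw V} (h : W.Hy) {a b c d w : V} (nd : [W.z, a, b, c, d, w].Nodup)
    (hr : Hit (mrel0 h.bs) (pt [a, b, c, d] W.z) rf28)
    (hf : Hit (mrel0 h.bs) (v6 W.z d w a b c) f16) : False :=
  c28_16_4_n_ref (pt_inj (o := W.z) nd rfl) (PHs.app (h.ph rfl _) (PHs.app (gf_ph hr (cr 4) (cr_pt (n := 4) (l := [a, b, c, d]) (l' := [w]) rfl)) (gf_ph hf (c6 4 5 1 2 3) (c6_v6 rfl rfl rfl rfl rfl rfl))))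

def c28_17_n_n_p0 : List Nat := [
0x8640b000000093000000091000000095072c000401,
0x68240070000000020000000970105000301,
0x28641d00000009f0024000201,
0x68422100000009f0730000201,
0xa840b0000000950000000910000000a90855000401,
0xc640b0000000930000000910000000ab099f000401,
0xc62400700000000400000000c03a8000301,
0x2a60030000000af078f000201,
0xa8260050000000990000000af085e000301,
0xa4062070000000040000000100288000301,
0x64a80700000000a0000000120864000301,
0x2ca0030000000b108f7000201,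
0xa40c20500000000e0000000b1093c000301,
0xc60a2070000000af000000018045c000301,
0xc62a40700000001400000001a045f000301,
0xc6a41b00000001e09ca000201,
0xca841d0000000b70a54000201,
0x6ac2d0000000ab0000000a90000000930000000b9002d000501,
0x48a190000000a90000000b70000000060000000950000000910000000240039000701,
0x6c241d0000000bb0045000201,
0x8c642230000000080000000bb09ee000301,
0xc46822500000009f0000000bb044e000301,
0x8a6c242700000002a0000000200000000bb0a15000401,
0xa8c41f00000002200000002e0000000260000000280987000501,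
0xc6821b00000002c09b7000201,
0x4c6a80700000001600000003009cf000301,
0x8a2c60700000001c000000034000000032000400]

def c28_17_n_n_pf : List Nat := c28_17_n_n_p0

theorem c28_17_n_n_ref {V : Type} {S : SRel V} {p : Nat → V} (hp : ∀ i j, i < 7 → j < 7 → p i = p j → i = j)
    (hts : PHs S p 7 (mA ++ (gf (fun x => 8 + cr 4 x) rf28 ++ (gf (fun x => 8 + c6 5 6 1 2 3 x) f17)))) : False :=
  refuteS (k := 7) (n2 := 3) (n3 := 1) (n4 := 3) (o3 := 84) (o4 := 168) (M := 1386) (mA ++ (gf (fun x => 8 + cr 4 x) rf28 ++ (gf (fun x => 8 + c6 5 6 1 2 3 x) f17))) c28_17_n_n_pf (by decide +kernel)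
    (by decide +kernel) (by decide +kernel) (by decide +kernel) hp hts

theorem c28_17_n_n {V : Type} {W : Mw V} (h : W.Hy) {a b c d u w : V} (nd : [W.z, a, b, c, d, u, w].Nodup)
    (hr : Hit (mrel0 h.bs) (pt [a, b, c, d] W.z) rf28)
    (hf : Hit (mrel0 h.bs) (v6 W.z u w a b c) f17) : False :=
  c28_17_n_n_ref (pt_inj (o := W.z) nd rfl) (PHs.app (h.ph rfl _) (PHs.app (gf_ph hr (cr 4) (cr_pt (n := 4) (l := [a, b, c, d]) (l' := [u, w]) rfl)) (gf_ph hf (c6 5 6 1 2 3) (c6_v6 rfl rfl rfl rfl rfl rfl))))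

def c28_17_n_4_p0 : List Nat := [
0x68422100000009f04c1000201,
0xbb000000002000200]

def c28_17_n_4_pf : List Nat := c28_17_n_4_p0

theorem c28_17_n_4_ref {V : Type} {S : SRel V} {p : Nat → V} (hp : ∀ i j, i < 6 → j < 6 → p i = p j → i = j)
    (hts : PHs S p 6 (mA ++ (gf (fun x => 8 + cr 4 x) rf28 ++ (gf (fun x => 8 + c6 5 4 1 2 3 x) f17)))) : False :=
  refuteS (k := 6) (n2 := 3) (n3 := 1) (n4 := 3) (o3 := 63) (o4 := 119) (M := 812) (mA ++ (gf (fun x => 8 + cr 4 x) rf28 ++ (gf (fun x => 8 + c6 5 4 1 2 3 x) f17))) c28_17_n_4_pf (by decide +kernel)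
    (by decide +kernel) (by decide +kernel) (by decide +kernel) hp hts

theorem c28_17_n_4 {V : Type} {W : Mw V} (h : W.Hy) {a b c d u : V} (nd : [W.z, a, b, c, d, u].Nodup)
    (hr : Hit (mrel0 h.bs) (pt [a, b, c, d] W.z) rf28)
    (hf : Hit (mrel0 h.bs) (v6 W.z u d a b c) f17) : False :=
  c28_17_n_4_ref (pt_inj (o := W.z) nd rfl) (PHs.app (h.ph rfl _) (PHs.app (gf_ph hr (cr 4) (cr_pt (n := 4) (l := [a, b, c, d]) (l' := [u]) rfl)) (gf_ph hf (c6 5 4 1 2 3) (c6_v6 rfl rfl rfl rfl rfl rfl))))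

def c28_17_4_n_p0 : List Nat := [
0x28641d00000009f0024000201,
0xb7000000002000200]

def c28_17_4_n_pf : List Nat := c28_17_4_n_p0

theorem c28_17_4_n_ref {V : Type} {S : SRel V} {p : Nat → V} (hp : ∀ i j, i < 6 → j < 6 → p i = p j → i = j)
    (hts : PHs S p 6 (mA ++ (gf (fun x => 8 + cr 4 x) rf28 ++ (gf (fun x => 8 + c6 4 5 1 2 3 x) f17)))) : False :=
  refuteS (k := 6) (n2 := 3) (n3 := 1) (n4 := 3) (o3 := 63) (o4 := 119) (M := 812) (mA ++ (gf (fun x => 8 + cr 4 x) rf28 ++ (gf (fun x => 8 + c6 4 5 1 2 3 x) f17))) c28_17_4_n_pf (by decide +kernel)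
    (by decide +kernel) (by decide +kernel) (by decide +kernel) hp hts

theorem c28_17_4_n {V : Type} {W : Mw V} (h : W.Hy) {a b c d w : V} (nd : [W.z, a, b, c, d, w].Nodup)
    (hr : Hit (mrel0 h.bs) (pt [a, b, c, d] W.z) rf28)
    (hf : Hit (mrel0 h.bs) (v6 W.z d w a b c) f17) : False :=
  c28_17_4_n_ref (pt_inj (o := W.z) nd rfl) (PHs.app (h.ph rfl _) (PHs.app (gf_ph hr (cr 4) (cr_pt (n := 4) (l := [a, b, c, d]) (l' := [w]) rfl)) (gf_ph hf (c6 4 5 1 2 3) (c6_v6 rfl rfl rfl rfl rfl rfl))))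

def c28_18_n_n_p0 : List Nat := [
0x8620b00000009300000008f0000000950726000401,
0x28600300000009906cc000201,
0x28461d00000009f0027000201,
0x68422100000009f0730000201,
0x2a60030000000af078f000201,
0xa8620700000000400000000a0861000301,
0x2ca0030000000b108f7000201,
0xc60a2070000000af00000000e045c000301,
0xca62030000000100a44000201,
0xc6a21b00000001009c7000201,
0xac8620700000000c00000001209f6000301,
0x6ac2d0000000ab0000000a90000000930000000b7002d000501,
0x8c642230000000080000000b909ee000301,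
0xc46822500000009f0000000b9044e000301,
0x86c242500000001a0000000b909fa000301,
0xc6821b00000001c09b7000201,
0xa82c62300000001400000001c09d0000301,
0x2ca865f0000000220000000a900000009500000009300000008f00000009900000001c085f000801,
0xc8620100000001600000002003c6000301,
0x8a2c6070000000100000000200465000301,
0xc286070000000020000000260384000301,
0xac86030000000280a56000201,
0xac0860700000002c00000002a0237000301,
0x86a350000000240000000180000000a900000009500000009300000000600000002e02c8000801,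
0xc8a6450000000b70000000ab0000000a900000009500000009300000003004ae000701,
0x8ac462500000001e0000000320a48000301,
0xbb000000034000200]

def c28_18_n_n_pf : List Nat := c28_18_n_n_p0

theorem c28_18_n_n_ref {V : Type} {S : SRel V} {p : Nat → V} (hp : ∀ i j, i < 7 → j < 7 → p i = p j → i = j)
    (hts : PHs S p 7 (mA ++ (gf (fun x => 8 + cr 4 x) rf28 ++ (gf (fun x => 8 + c6 5 6 1 2 3 x) f18)))) : False :=
  refuteS (k := 7) (n2 := 3) (n3 := 1) (n4 := 3) (o3 := 84) (o4 := 168) (M := 1386) (mA ++ (gf (fun x => 8 + cr 4 x) rf28 ++ (gf (fun x => 8 + c6 5 6 1 2 3 x) f18))) c28_18_n_n_pf (by decide +kernel)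
    (by decide +kernel) (by decide +kernel) (by decide +kernel) hp hts

theorem c28_18_n_n {V : Type} {W : Mw V} (h : W.Hy) {a b c d u w : V} (nd : [W.z, a, b, c, d, u, w].Nodup)
    (hr : Hit (mrel0 h.bs) (pt [a, b, c, d] W.z) rf28)
    (hf : Hit (mrel0 h.bs) (v6 W.z u w a b c) f18) : False :=
  c28_18_n_n_ref (pt_inj (o := W.z) nd rfl) (PHs.app (h.ph rfl _) (PHs.app (gf_ph hr (cr 4) (cr_pt (n := 4) (l := [a, b, c, d]) (l' := [u, w]) rfl)) (gf_ph hf (c6 5 6 1 2 3) (c6_v6 rfl rfl rfl rfl rfl rfl))))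

def c28_18_n_4_p0 : List Nat := [
0x68422100000009f04c1000201,
0xb9000000002000200]

def c28_18_n_4_pf : List Nat := c28_18_n_4_p0

theorem c28_18_n_4_ref {V : Type} {S : SRel V} {p : Nat → V} (hp : ∀ i j, i < 6 → j < 6 → p i = p j → i = j)
    (hts : PHs S p 6 (mA ++ (gf (fun x => 8 + cr 4 x) rf28 ++ (gf (fun x => 8 + c6 5 4 1 2 3 x) f18)))) : False :=
  refuteS (k := 6) (n2 := 3) (n3 := 1) (n4 := 3) (o3 := 63) (o4 := 119) (M := 812) (mA ++ (gf (fun x => 8 + cr 4 x) rf28 ++ (gf (fun x => 8 + c6 5 4 1 2 3 x) f18))) c28_18_n_4_pf (by decide +kernel)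
    (by decide +kernel) (by decide +kernel) (by decide +kernel) hp hts

theorem c28_18_n_4 {V : Type} {W : Mw V} (h : W.Hy) {a b c d u : V} (nd : [W.z, a, b, c, d, u].Nodup)
    (hr : Hit (mrel0 h.bs) (pt [a, b, c, d] W.z) rf28)
    (hf : Hit (mrel0 h.bs) (v6 W.z u d a b c) f18) : False :=
  c28_18_n_4_ref (pt_inj (o := W.z) nd rfl) (PHs.app (h.ph rfl _) (PHs.app (gf_ph hr (cr 4) (cr_pt (n := 4) (l := [a, b, c, d]) (l' := [u]) rfl)) (gf_ph hf (c6 5 4 1 2 3) (c6_v6 rfl rfl rfl rfl rfl rfl))))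

def c28_18_4_n_p0 : List Nat := [
0x2a80030000000b1052c000201,
0xa6082070000000990000000020299000301,
0xa6821b00000000405c6000201,
0xa46822500000009f00000000605b1000301,
0xb9000000008000200]

def c28_18_4_n_pf : List Nat := c28_18_4_n_p0

theorem c28_18_4_n_ref {V : Type} {S : SRel V} {p : Nat → V} (hp : ∀ i j, i < 6 → j < 6 → p i = p j → i = j)
    (hts : PHs S p 6 (mA ++ (gf (fun x => 8 + cr 4 x) rf28 ++ (gf (fun x => 8 + c6 4 5 1 2 3 x) f18)))) : False :=
  refuteS (k := 6) (n2 := 3) (n3 := 1) (n4 := 3) (o3 := 63) (o4 := 119) (M := 812) (mA ++ (gf (fun x => 8 + cr 4 x) rf28 ++ (gf (fun x => 8 + c6 4 5 1 2 3 x) f18))) c28_18_4_n_pf (by decide +kernel)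
    (by decide +kernel) (by decide +kernel) (by decide +kernel) hp hts

theorem c28_18_4_n {V : Type} {W : Mw V} (h : W.Hy) {a b c d w : V} (nd : [W.z, a, b, c, d, w].Nodup)
    (hr : Hit (mrel0 h.bs) (pt [a, b, c, d] W.z) rf28)
    (hf : Hit (mrel0 h.bs) (v6 W.z d w a b c) f18) : False :=
  c28_18_4_n_ref (pt_inj (o := W.z) nd rfl) (PHs.app (h.ph rfl _) (PHs.app (gf_ph hr (cr 4) (cr_pt (n := 4) (l := [a, b, c, d]) (l' := [w]) rfl)) (gf_ph hf (c6 4 5 1 2 3) (c6_v6 rfl rfl rfl rfl rfl rfl))))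

def c28_19_n_n_p0 : List Nat := [
0x2a461d0000000b707c3000201,
0x684c0f0000000bb0000000b90000000950000000930000000910000000a70000000bd05b5000801,
0x4c281d0000000040970000201,
0xca64822700000000200000009f000000006097f000401,
0xbf000000008000200]

def c28_19_n_n_pf : List Nat := c28_19_n_n_p0

theorem c28_19_n_n_ref {V : Type} {S : SRel V} {p : Nat → V} (hp : ∀ i j, i < 7 → j < 7 → p i = p j → i = j)
    (hts : PHs S p 7 (mA ++ (gf (fun x => 8 + cr 4 x) rf28 ++ (gf (fun x => 8 + c6 5 6 1 2 3 x) f19)))) : False :=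
  refuteS (k := 7) (n2 := 3) (n3 := 1) (n4 := 3) (o3 := 84) (o4 := 168) (M := 1386) (mA ++ (gf (fun x => 8 + cr 4 x) rf28 ++ (gf (fun x => 8 + c6 5 6 1 2 3 x) f19))) c28_19_n_n_pf (by decide +kernel)
    (by decide +kernel) (by decide +kernel) (by decide +kernel) hp hts

theorem c28_19_n_n {V : Type} {W : Mw V} (h : W.Hy) {a b c d u w : V} (nd : [W.z, a, b, c, d, u, w].Nodup)
    (hr : Hit (mrel0 h.bs) (pt [a, b, c, d] W.z) rf28)
    (hf : Hit (mrel0 h.bs) (v6 W.z u w a b c) f19) : False :=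
  c28_19_n_n_ref (pt_inj (o := W.z) nd rfl) (PHs.app (h.ph rfl _) (PHs.app (gf_ph hr (cr 4) (cr_pt (n := 4) (l := [a, b, c, d]) (l' := [u, w]) rfl)) (gf_ph hf (c6 5 6 1 2 3) (c6_v6 rfl rfl rfl rfl rfl rfl))))

def c28_19_n_4_p0 : List Nat := [
0xa7000000095000200]

def c28_19_n_4_pf : List Nat := c28_19_n_4_p0

theorem c28_19_n_4_ref {V : Type} {S : SRel V} {p : Nat → V} (hp : ∀ i j, i < 6 → j < 6 → p i = p j → i = j)
    (hts : PHs S p 6 (mA ++ (gf (fun x => 8 + cr 4 x) rf28 ++ (gf (fun x => 8 + c6 5 4 1 2 3 x) f19)))) : False :=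
  refuteS (k := 6) (n2 := 3) (n3 := 1) (n4 := 3) (o3 := 63) (o4 := 119) (M := 812) (mA ++ (gf (fun x => 8 + cr 4 x) rf28 ++ (gf (fun x => 8 + c6 5 4 1 2 3 x) f19))) c28_19_n_4_pf (by decide +kernel)
    (by decide +kernel) (by decide +kernel) (by decide +kernel) hp hts

theorem c28_19_n_4 {V : Type} {W : Mw V} (h : W.Hy) {a b c d u : V} (nd : [W.z, a, b, c, d, u].Nodup)
    (hr : Hit (mrel0 h.bs) (pt [a, b, c, d] W.z) rf28)
    (hf : Hit (mrel0 h.bs) (v6 W.z u d a b c) f19) : False :=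
  c28_19_n_4_ref (pt_inj (o := W.z) nd rfl) (PHs.app (h.ph rfl _) (PHs.app (gf_ph hr (cr 4) (cr_pt (n := 4) (l := [a, b, c, d]) (l' := [u]) rfl)) (gf_ph hf (c6 5 4 1 2 3) (c6_v6 rfl rfl rfl rfl rfl rfl))))

def c28_19_4_n_p0 : List Nat := [
0xa5000000095000200]

def c28_19_4_n_pf : List Nat := c28_19_4_n_p0

theorem c28_19_4_n_ref {V : Type} {S : SRel V} {p : Nat → V} (hp : ∀ i j, i < 6 → j < 6 → p i = p j → i = j)
    (hts : PHs S p 6 (mA ++ (gf (fun x => 8 + cr 4 x) rf28 ++ (gf (fun x => 8 + c6 4 5 1 2 3 x) f19)))) : False :=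
  refuteS (k := 6) (n2 := 3) (n3 := 1) (n4 := 3) (o3 := 63) (o4 := 119) (M := 812) (mA ++ (gf (fun x => 8 + cr 4 x) rf28 ++ (gf (fun x => 8 + c6 4 5 1 2 3 x) f19))) c28_19_4_n_pf (by decide +kernel)
    (by decide +kernel) (by decide +kernel) (by decide +kernel) hp hts

theorem c28_19_4_n {V : Type} {W : Mw V} (h : W.Hy) {a b c d w : V} (nd : [W.z, a, b, c, d, w].Nodup)
    (hr : Hit (mrel0 h.bs) (pt [a, b, c, d] W.z) rf28)
    (hf : Hit (mrel0 h.bs) (v6 W.z d w a b c) f19) : False :=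
  c28_19_4_n_ref (pt_inj (o := W.z) nd rfl) (PHs.app (h.ph rfl _) (PHs.app (gf_ph hr (cr 4) (cr_pt (n := 4) (l := [a, b, c, d]) (l' := [w]) rfl)) (gf_ph hf (c6 4 5 1 2 3) (c6_v6 rfl rfl rfl rfl rfl rfl))))

def c28_20_n_n_p0 : List Nat := [
0x8c130000000a70000000950000000b705b5000401,
0x4c281d0000000020970000201,
0x2a461d0000000b907c3000201,
0xca64822700000000400000009f000000006097f000401,
0xbb000000008000200]

def c28_20_n_n_pf : List Nat := c28_20_n_n_p0

theorem c28_20_n_n_ref {V : Type} {S : SRel V} {p : Nat → V} (hp : ∀ i j, i < 7 → j < 7 → p i = p j → i = j)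
    (hts : PHs S p 7 (mA ++ (gf (fun x => 8 + cr 4 x) rf28 ++ (gf (fun x => 8 + c6 5 6 1 2 3 x) f20)))) : False :=
  refuteS (k := 7) (n2 := 3) (n3 := 1) (n4 := 3) (o3 := 84) (o4 := 168) (M := 1386) (mA ++ (gf (fun x => 8 + cr 4 x) rf28 ++ (gf (fun x => 8 + c6 5 6 1 2 3 x) f20))) c28_20_n_n_pf (by decide +kernel)
    (by decide +kernel) (by decide +kernel) (by decide +kernel) hp hts

theorem c28_20_n_n {V : Type} {W : Mw V} (h : W.Hy) {a b c d u w : V} (nd : [W.z, a, b, c, d, u, w].Nodup)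
    (hr : Hit (mrel0 h.bs) (pt [a, b, c, d] W.z) rf28)
    (hf : Hit (mrel0 h.bs) (v6 W.z u w a b c) f20) : False :=
  c28_20_n_n_ref (pt_inj (o := W.z) nd rfl) (PHs.app (h.ph rfl _) (PHs.app (gf_ph hr (cr 4) (cr_pt (n := 4) (l := [a, b, c, d]) (l' := [u, w]) rfl)) (gf_ph hf (c6 5 6 1 2 3) (c6_v6 rfl rfl rfl rfl rfl rfl))))

def c28_20_n_4_p0 : List Nat := [
0xa7000000095000200]

def c28_20_n_4_pf : List Nat := c28_20_n_4_p0

theorem c28_20_n_4_ref {V : Type} {S : SRel V} {p : Nat → V} (hp : ∀ i j, i < 6 → j < 6 → p i = p j → i = j)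
    (hts : PHs S p 6 (mA ++ (gf (fun x => 8 + cr 4 x) rf28 ++ (gf (fun x => 8 + c6 5 4 1 2 3 x) f20)))) : False :=
  refuteS (k := 6) (n2 := 3) (n3 := 1) (n4 := 3) (o3 := 63) (o4 := 119) (M := 812) (mA ++ (gf (fun x => 8 + cr 4 x) rf28 ++ (gf (fun x => 8 + c6 5 4 1 2 3 x) f20))) c28_20_n_4_pf (by decide +kernel)
    (by decide +kernel) (by decide +kernel) (by decide +kernel) hp hts

theorem c28_20_n_4 {V : Type} {W : Mw V} (h : W.Hy) {a b c d u : V} (nd : [W.z, a, b, c, d, u].Nodup)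
    (hr : Hit (mrel0 h.bs) (pt [a, b, c, d] W.z) rf28)
    (hf : Hit (mrel0 h.bs) (v6 W.z u d a b c) f20) : False :=
  c28_20_n_4_ref (pt_inj (o := W.z) nd rfl) (PHs.app (h.ph rfl _) (PHs.app (gf_ph hr (cr 4) (cr_pt (n := 4) (l := [a, b, c, d]) (l' := [u]) rfl)) (gf_ph hf (c6 5 4 1 2 3) (c6_v6 rfl rfl rfl rfl rfl rfl))))

def c28_20_4_n_p0 : List Nat := [
0xa5000000095000200]

def c28_20_4_n_pf : List Nat := c28_20_4_n_p0

theorem c28_20_4_n_ref {V : Type} {S : SRel V} {p : Nat → V} (hp : ∀ i j, i < 6 → j < 6 → p i = p j → i = j)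
    (hts : PHs S p 6 (mA ++ (gf (fun x => 8 + cr 4 x) rf28 ++ (gf (fun x => 8 + c6 4 5 1 2 3 x) f20)))) : False :=
  refuteS (k := 6) (n2 := 3) (n3 := 1) (n4 := 3) (o3 := 63) (o4 := 119) (M := 812) (mA ++ (gf (fun x => 8 + cr 4 x) rf28 ++ (gf (fun x => 8 + c6 4 5 1 2 3 x) f20))) c28_20_4_n_pf (by decide +kernel)
    (by decide +kernel) (by decide +kernel) (by decide +kernel) hp hts

theorem c28_20_4_n {V : Type} {W : Mw V} (h : W.Hy) {a b c d w : V} (nd : [W.z, a, b, c, d, w].Nodup)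
    (hr : Hit (mrel0 h.bs) (pt [a, b, c, d] W.z) rf28)
    (hf : Hit (mrel0 h.bs) (v6 W.z d w a b c) f20) : False :=
  c28_20_4_n_ref (pt_inj (o := W.z) nd rfl) (PHs.app (h.ph rfl _) (PHs.app (gf_ph hr (cr 4) (cr_pt (n := 4) (l := [a, b, c, d]) (l' := [w]) rfl)) (gf_ph hf (c6 4 5 1 2 3) (c6_v6 rfl rfl rfl rfl rfl rfl))))

theorem P28_1 {V : Type} {W : Mw V} (h : W.Hy) {a b c d u w : V} (nd : [W.z, a, b, c, d].Nodup)
    (hr : Hit (mrel0 h.bs) (pt [a, b, c, d] W.z) rf28)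
    (hf : Hit (mrel0 h.bs) (v6 W.z u w a b c) f1) : False := by
  exact c28_1 h nd hr (hit00 (by decide) hf)

theorem P28_6 {V : Type} {W : Mw V} (h : W.Hy) {a b c d u w : V} (nd : [W.z, a, b, c, d].Nodup)
    (hr : Hit (mrel0 h.bs) (pt [a, b, c, d] W.z) rf28)
    (hf : Hit (mrel0 h.bs) (v6 W.z u w a b c) f6) : False := by
  have hf := hit01 (by decide) hf
  have hs := hn1 hf rfl
  by_cases id : u = d
  · subst id
    exact c28_6_4 h nd hr hf
  exact c28_6_n h (nd_snoc nd (nin5 hs.1 hs.2.1 hs.2.2.1 hs.2.2.2 id)) hr hf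

theorem P28_7 {V : Type} {W : Mw V} (h : W.Hy) {a b c d u w : V} (nd : [W.z, a, b, c, d].Nodup)
    (hr : Hit (mrel0 h.bs) (pt [a, b, c, d] W.z) rf28)
    (hf : Hit (mrel0 h.bs) (v6 W.z u w a b c) f7) : False := by
  have hf := hit01 (by decide) hf
  have hs := hn1 hf rfl
  by_cases id : u = d
  · subst id
    exact c28_7_4 h nd hr hf
  exact c28_7_n h (nd_snoc nd (nin5 hs.1 hs.2.1 hs.2.2.1 hs.2.2.2 id)) hr hf

theorem P28_10 {V : Type} {W : Mw V} (h : W.Hy) {a b c d u w : V} (nd : [W.z, a, b, c, d].Nodup)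
    (hr : Hit (mrel0 h.bs) (pt [a, b, c, d] W.z) rf28)
    (hf : Hit (mrel0 h.bs) (v6 W.z u w a b c) f10) : False := by
  have hf := hit01 (by decide) hf
  have hs := hn1 hf rfl
  by_cases id : u = d
  · subst id
    exact c28_10_4 h nd hr hf
  exact c28_10_n h (nd_snoc nd (nin5 hs.1 hs.2.1 hs.2.2.1 hs.2.2.2 id)) hr hf

theorem P28_11 {V : Type} {W : Mw V} (h : W.Hy) {a b c d u w : V} (nd : [W.z, a, b, c, d].Nodup)
    (hr : Hit (mrel0 h.bs) (pt [a, b, c, d] W.z) rf28)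
    (hf : Hit (mrel0 h.bs) (v6 W.z u w a b c) f11) : False := by
  have hf := hit01 (by decide) hf
  have hs := hn1 hf rfl
  by_cases id : u = d
  · subst id
    exact c28_11_4 h nd hr hf
  exact c28_11_n h (nd_snoc nd (nin5 hs.1 hs.2.1 hs.2.2.1 hs.2.2.2 id)) hr hf

theorem P28_12 {V : Type} {W : Mw V} (h : W.Hy) {a b c d u w : V} (nd : [W.z, a, b, c, d].Nodup)
    (hr : Hit (mrel0 h.bs) (pt [a, b, c, d] W.z) rf28)
    (hf : Hit (mrel0 h.bs) (v6 W.z u w a b c) f12) : False := by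
  have hf := hit01 (by decide) hf
  have hs := hn1 hf rfl
  by_cases id : u = d
  · subst id
    exact c28_12_4 h nd hr hf
  exact c28_12_n h (nd_snoc nd (nin5 hs.1 hs.2.1 hs.2.2.1 hs.2.2.2 id)) hr hf

theorem P28_13 {V : Type} {W : Mw V} (h : W.Hy) {a b c d u w : V} (nd : [W.z, a, b, c, d].Nodup)
    (hr : Hit (mrel0 h.bs) (pt [a, b, c, d] W.z) rf28)
    (hf : Hit (mrel0 h.bs) (v6 W.z u w a b c) f13) : False := by
  have hf := hit01 (by decide) hf
  have hs := hn1 hf rfl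
  by_cases id : u = d
  · subst id
    exact c28_13_4 h nd hr hf
  exact c28_13_n h (nd_snoc nd (nin5 hs.1 hs.2.1 hs.2.2.1 hs.2.2.2 id)) hr hf

theorem P28_14 {V : Type} {W : Mw V} (h : W.Hy) {a b c d u w : V} (nd : [W.z, a, b, c, d].Nodup)
    (hr : Hit (mrel0 h.bs) (pt [a, b, c, d] W.z) rf28)
    (hf : Hit (mrel0 h.bs) (v6 W.z u w a b c) f14) : False := by
  have hs := hn2 hf rfl
  by_cases id : u = d
  · subst id
    exact c28_14_4_n h (nd_snoc nd (nin5 hs.2.2.1 hs.2.2.2.1 hs.2.2.2.2.1 hs.2.2.2.2.2 hs.1.symm)) hr hf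
  by_cases jd : w = d
  · subst jd
    exact c28_14_n_4 h (nd_snoc nd (nin5 hs.2.1.1 hs.2.1.2.1 hs.2.1.2.2.1 hs.2.1.2.2.2 hs.1)) hr hf
  exact c28_14_n_n h (nd_snoc (nd_snoc nd (nin5 hs.2.1.1 hs.2.1.2.1 hs.2.1.2.2.1 hs.2.1.2.2.2 id)) (nin6 hs.2.2.1 hs.2.2.2.1 hs.2.2.2.2.1 hs.2.2.2.2.2 jd hs.1.symm)) hr hf

theorem P28_15 {V : Type} {W : Mw V} (h : W.Hy) {a b c d u w : V} (nd : [W.z, a, b, c, d].Nodup)
    (hr : Hit (mrel0 h.bs) (pt [a, b, c, d] W.z) rf28)
    (hf : Hit (mrel0 h.bs) (v6 W.z u w a b c) f15) : False := by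
  have hs := hn2 hf rfl
  by_cases id : u = d
  · subst id
    exact c28_15_4_n h (nd_snoc nd (nin5 hs.2.2.1 hs.2.2.2.1 hs.2.2.2.2.1 hs.2.2.2.2.2 hs.1.symm)) hr hf
  by_cases jd : w = d
  · subst jd
    exact c28_15_n_4 h (nd_snoc nd (nin5 hs.2.1.1 hs.2.1.2.1 hs.2.1.2.2.1 hs.2.1.2.2.2 hs.1)) hr hf
  exact c28_15_n_n h (nd_snoc (nd_snoc nd (nin5 hs.2.1.1 hs.2.1.2.1 hs.2.1.2.2.1 hs.2.1.2.2.2 id)) (nin6 hs.2.2.1 hs.2.2.2.1 hs.2.2.2.2.1 hs.2.2.2.2.2 jd hs.1.symm)) hr hf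

theorem P28_16 {V : Type} {W : Mw V} (h : W.Hy) {a b c d u w : V} (nd : [W.z, a, b, c, d].Nodup)
    (hr : Hit (mrel0 h.bs) (pt [a, b, c, d] W.z) rf28)
    (hf : Hit (mrel0 h.bs) (v6 W.z u w a b c) f16) : False := by
  have hs := hn2 hf rfl
  by_cases id : u = d
  · subst id
    exact c28_16_4_n h (nd_snoc nd (nin5 hs.2.2.1 hs.2.2.2.1 hs.2.2.2.2.1 hs.2.2.2.2.2 hs.1.symm)) hr hf
  by_cases jd : w = d
  · subst jd
    exact c28_16_n_4 h (nd_snoc nd (nin5 hs.2.1.1 hs.2.1.2.1 hs.2.1.2.2.1 hs.2.1.2.2.2 hs.1)) hr hf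
  exact c28_16_n_n h (nd_snoc (nd_snoc nd (nin5 hs.2.1.1 hs.2.1.2.1 hs.2.1.2.2.1 hs.2.1.2.2.2 id)) (nin6 hs.2.2.1 hs.2.2.2.1 hs.2.2.2.2.1 hs.2.2.2.2.2 jd hs.1.symm)) hr hf

theorem P28_17 {V : Type} {W : Mw V} (h : W.Hy) {a b c d u w : V} (nd : [W.z, a, b, c, d].Nodup)
    (hr : Hit (mrel0 h.bs) (pt [a, b, c, d] W.z) rf28)
    (hf : Hit (mrel0 h.bs) (v6 W.z u w a b c) f17) : False := by
  have hs := hn2 hf rfl
  by_cases id : u = d
  · subst id
    exact c28_17_4_n h (nd_snoc nd (nin5 hs.2.2.1 hs.2.2.2.1 hs.2.2.2.2.1 hs.2.2.2.2.2 hs.1.symm)) hr hf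
  by_cases jd : w = d
  · subst jd
    exact c28_17_n_4 h (nd_snoc nd (nin5 hs.2.1.1 hs.2.1.2.1 hs.2.1.2.2.1 hs.2.1.2.2.2 hs.1)) hr hf
  exact c28_17_n_n h (nd_snoc (nd_snoc nd (nin5 hs.2.1.1 hs.2.1.2.1 hs.2.1.2.2.1 hs.2.1.2.2.2 id)) (nin6 hs.2.2.1 hs.2.2.2.1 hs.2.2.2.2.1 hs.2.2.2.2.2 jd hs.1.symm)) hr hf

theorem P28_18 {V : Type} {W : Mw V} (h : W.Hy) {a b c d u w : V} (nd : [W.z, a, b, c, d].Nodup)
    (hr : Hit (mrel0 h.bs) (pt [a, b, c, d] W.z) rf28)
    (hf : Hit (mrel0 h.bs) (v6 W.z u w a b c) f18) : False := by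
  have hs := hn2 hf rfl
  by_cases id : u = d
  · subst id
    exact c28_18_4_n h (nd_snoc nd (nin5 hs.2.2.1 hs.2.2.2.1 hs.2.2.2.2.1 hs.2.2.2.2.2 hs.1.symm)) hr hf
  by_cases jd : w = d
  · subst jd
    exact c28_18_n_4 h (nd_snoc nd (nin5 hs.2.1.1 hs.2.1.2.1 hs.2.1.2.2.1 hs.2.1.2.2.2 hs.1)) hr hf
  exact c28_18_n_n h (nd_snoc (nd_snoc nd (nin5 hs.2.1.1 hs.2.1.2.1 hs.2.1.2.2.1 hs.2.1.2.2.2 id)) (nin6 hs.2.2.1 hs.2.2.2.1 hs.2.2.2.2.1 hs.2.2.2.2.2 jd hs.1.symm)) hr hf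

theorem P28_19 {V : Type} {W : Mw V} (h : W.Hy) {a b c d u w : V} (nd : [W.z, a, b, c, d].Nodup)
    (hr : Hit (mrel0 h.bs) (pt [a, b, c, d] W.z) rf28)
    (hf : Hit (mrel0 h.bs) (v6 W.z u w a b c) f19) : False := by
  have hs := hn2 hf rfl
  by_cases id : u = d
  · subst id
    exact c28_19_4_n h (nd_snoc nd (nin5 hs.2.2.1 hs.2.2.2.1 hs.2.2.2.2.1 hs.2.2.2.2.2 hs.1.symm)) hr hf
  by_cases jd : w = d
  · subst jd
    exact c28_19_n_4 h (nd_snoc nd (nin5 hs.2.1.1 hs.2.1.2.1 hs.2.1.2.2.1 hs.2.1.2.2.2 hs.1)) hr hf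
  exact c28_19_n_n h (nd_snoc (nd_snoc nd (nin5 hs.2.1.1 hs.2.1.2.1 hs.2.1.2.2.1 hs.2.1.2.2.2 id)) (nin6 hs.2.2.1 hs.2.2.2.1 hs.2.2.2.2.1 hs.2.2.2.2.2 jd hs.1.symm)) hr hf

theorem P28_20 {V : Type} {W : Mw V} (h : W.Hy) {a b c d u w : V} (nd : [W.z, a, b, c, d].Nodup)
    (hr : Hit (mrel0 h.bs) (pt [a, b, c, d] W.z) rf28)
    (hf : Hit (mrel0 h.bs) (v6 W.z u w a b c) f20) : False := by
  have hs := hn2 hf rfl
  by_cases id : u = d
  · subst id
    exact c28_20_4_n h (nd_snoc nd (nin5 hs.2.2.1 hs.2.2.2.1 hs.2.2.2.2.1 hs.2.2.2.2.2 hs.1.symm)) hr hf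
  by_cases jd : w = d
  · subst jd
    exact c28_20_n_4 h (nd_snoc nd (nin5 hs.2.1.1 hs.2.1.2.1 hs.2.1.2.2.1 hs.2.1.2.2.2 hs.1)) hr hf
  exact c28_20_n_n h (nd_snoc (nd_snoc nd (nin5 hs.2.1.1 hs.2.1.2.1 hs.2.1.2.2.1 hs.2.1.2.2.2 id)) (nin6 hs.2.2.1 hs.2.2.2.1 hs.2.2.2.2.1 hs.2.2.2.2.2 jd hs.1.symm)) hr hf

theorem R28 {V : Type} {W : Mw V} (h : W.Hy) {a b c d : V} (nd : [W.z, a, b, c, d].Nodup)
    (hr : Hit (mrel0 h.bs) (pt [a, b, c, d] W.z) rf28)
    (hp : FS (mrel0 h.bs) W.z fp2 a b c) : False := by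
  obtain ⟨t, ht, u, w, hf⟩ := hp
  simp only [fp2, List.mem_cons, List.not_mem_nil, or_false] at ht
  rcases ht with rfl | rfl | rfl | rfl | rfl | rfl | rfl | rfl | rfl | rfl | rfl | rfl | rfl | rfl
  · exact P28_1 h nd hr hf
  · exact P28_6 h nd hr hf
  · exact P28_7 h nd hr hf
  · exact P28_10 h nd hr hf
  · exact P28_11 h nd hr hf
  · exact P28_12 h nd hr hf
  · exact P28_13 h nd hr hf
  · exact P28_14 h nd hr hf
  · exact P28_15 h nd hr hf
  · exact P28_16 h nd hr hf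
  · exact P28_17 h nd hr hf
  · exact P28_18 h nd hr hf
  · exact P28_19 h nd hr hf
  · exact P28_20 h nd hr hf

end Pool.Agent.SOU
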