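import Pool.Agent.SOU.TB

/-! Project SOU (MP_66ba69_lc, mixed insertion): rule 3 (generated). -/

set_option autoImplicit false
set_option maxRecDepth 100000
set_option linter.unusedVariables false

namespace Pool.Agent.SOU

open Pool.Agent.RUP Pool.Agent.SOQ

def c3_1_p0 : List Nat := [
0x6241700000009300000009900000009700000008f00000009100000009b000c000701,
0xa9000000002000200]

def c3_1_pf : List Nat := c3_1_p0

theorem c3_1_ref {V : Type} {S : SRel V} {p : Nat → V} (hp : ∀ i j, i < 4 → j < 4 → p i = p j → i = j)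
    (hts : PHs S p 4 (mA ++ (gf (fun x => 8 + cr 3 x) rf3 ++ (gf (fun x => 8 + c6 0 0 1 2 3 x) f1)))) : False :=
  refuteS (k := 4) (n2 := 3) (n3 := 1) (n4 := 3) (o3 := 30) (o4 := 50) (M := 215) (mA ++ (gf (fun x => 8 + cr 3 x) rf3 ++ (gf (fun x => 8 + c6 0 0 1 2 3 x) f1))) c3_1_pf (by decide +kernel)
    (by decide +kernel) (by decide +kernel) (by decide +kernel) hp hts

theorem c3_1 {V : Type} {W : Mw V} (h : W.Hy) {a b c : V} (nd : [W.z, a, b, c].Nodup)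
    (hr : Hit (mrel0 h.bs) (pt [a, b, c] W.z) rf3)
    (hf : Hit (mrel0 h.bs) (v6 W.z W.z W.z a b c) f1) : False :=
  c3_1_ref (pt_inj (o := W.z) nd rfl) (PHs.app (h.ph rfl _) (PHs.app (gf_ph hr (cr 3) (cr_pt (n := 3) (l := [a, b, c]) (l' := []) rfl)) (gf_ph hf (c6 0 0 1 2 3) (c6_v6 rfl rfl rfl rfl rfl rfl))))

def c3_6_n_p0 : List Nat := [
0x6842670000000a10000000a700000009300000009b00000008f0000000970000000910000000990000000950000000ad0021000b01,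
0xaf000000002000200]

def c3_6_n_pf : List Nat := c3_6_n_p0

theorem c3_6_n_ref {V : Type} {S : SRel V} {p : Nat → V} (hp : ∀ i j, i < 5 → j < 5 → p i = p j → i = j)
    (hts : PHs S p 5 (mA ++ (gf (fun x => 8 + cr 3 x) rf3 ++ (gf (fun x => 8 + c6 4 0 1 2 3 x) f6)))) : False :=
  refuteS (k := 5) (n2 := 3) (n3 := 1) (n4 := 3) (o3 := 45) (o4 := 80) (M := 440) (mA ++ (gf (fun x => 8 + cr 3 x) rf3 ++ (gf (fun x => 8 + c6 4 0 1 2 3 x) f6))) c3_6_n_pf (by decide +kernel)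
    (by decide +kernel) (by decide +kernel) (by decide +kernel) hp hts

theorem c3_6_n {V : Type} {W : Mw V} (h : W.Hy) {a b c u : V} (nd : [W.z, a, b, c, u].Nodup)
    (hr : Hit (mrel0 h.bs) (pt [a, b, c] W.z) rf3)
    (hf : Hit (mrel0 h.bs) (v6 W.z u W.z a b c) f6) : False :=
  c3_6_n_ref (pt_inj (o := W.z) nd rfl) (PHs.app (h.ph rfl _) (PHs.app (gf_ph hr (cr 3) (cr_pt (n := 3) (l := [a, b, c]) (l' := [u]) rfl)) (gf_ph hf (c6 4 0 1 2 3) (c6_v6 rfl rfl rfl rfl rfl rfl))))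

def c3_7_n_p0 : List Nat := [
0x6842690000000a10000000a700000009300000009b00000008f0000000910000000990000000950000000ad01dc000a01,
0xaf000000002000200]

def c3_7_n_pf : List Nat := c3_7_n_p0

theorem c3_7_n_ref {V : Type} {S : SRel V} {p : Nat → V} (hp : ∀ i j, i < 5 → j < 5 → p i = p j → i = j)
    (hts : PHs S p 5 (mA ++ (gf (fun x => 8 + cr 3 x) rf3 ++ (gf (fun x => 8 + c6 4 0 1 2 3 x) f7)))) : False :=
  refuteS (k := 5) (n2 := 3) (n3 := 1) (n4 := 3) (o3 := 45) (o4 := 80) (M := 440) (mA ++ (gf (fun x => 8 + cr 3 x) rf3 ++ (gf (fun x => 8 + c6 4 0 1 2 3 x) f7))) c3_7_n_pf (by decide +kernel)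
    (by decide +kernel) (by decide +kernel) (by decide +kernel) hp hts

theorem c3_7_n {V : Type} {W : Mw V} (h : W.Hy) {a b c u : V} (nd : [W.z, a, b, c, u].Nodup)
    (hr : Hit (mrel0 h.bs) (pt [a, b, c] W.z) rf3)
    (hf : Hit (mrel0 h.bs) (v6 W.z u W.z a b c) f7) : False :=
  c3_7_n_ref (pt_inj (o := W.z) nd rfl) (PHs.app (h.ph rfl _) (PHs.app (gf_ph hr (cr 3) (cr_pt (n := 3) (l := [a, b, c]) (l' := [u]) rfl)) (gf_ph hf (c6 4 0 1 2 3) (c6_v6 rfl rfl rfl rfl rfl rfl))))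

def c3_10_n_p0 : List Nat := [
0x86241d00000009b0326000201,
0xad000000002000200]

def c3_10_n_pf : List Nat := c3_10_n_p0

theorem c3_10_n_ref {V : Type} {S : SRel V} {p : Nat → V} (hp : ∀ i j, i < 5 → j < 5 → p i = p j → i = j)
    (hts : PHs S p 5 (mA ++ (gf (fun x => 8 + cr 3 x) rf3 ++ (gf (fun x => 8 + c6 4 0 1 2 3 x) f10)))) : False :=
  refuteS (k := 5) (n2 := 3) (n3 := 1) (n4 := 3) (o3 := 45) (o4 := 80) (M := 440) (mA ++ (gf (fun x => 8 + cr 3 x) rf3 ++ (gf (fun x => 8 + c6 4 0 1 2 3 x) f10))) c3_10_n_pf (by decide +kernel)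
    (by decide +kernel) (by decide +kernel) (by decide +kernel) hp hts

theorem c3_10_n {V : Type} {W : Mw V} (h : W.Hy) {a b c u : V} (nd : [W.z, a, b, c, u].Nodup)
    (hr : Hit (mrel0 h.bs) (pt [a, b, c] W.z) rf3)
    (hf : Hit (mrel0 h.bs) (v6 W.z u W.z a b c) f10) : False :=
  c3_10_n_ref (pt_inj (o := W.z) nd rfl) (PHs.app (h.ph rfl _) (PHs.app (gf_ph hr (cr 3) (cr_pt (n := 3) (l := [a, b, c]) (l' := [u]) rfl)) (gf_ph hf (c6 4 0 1 2 3) (c6_v6 rfl rfl rfl rfl rfl rfl))))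

def c3_11_n_p0 : List Nat := [
0x6841700000009d00000009300000009b0000000970000000910000000ad01df000701,
0xaf000000002000200]

def c3_11_n_pf : List Nat := c3_11_n_p0

theorem c3_11_n_ref {V : Type} {S : SRel V} {p : Nat → V} (hp : ∀ i j, i < 5 → j < 5 → p i = p j → i = j)
    (hts : PHs S p 5 (mA ++ (gf (fun x => 8 + cr 3 x) rf3 ++ (gf (fun x => 8 + c6 4 0 1 2 3 x) f11)))) : False :=
  refuteS (k := 5) (n2 := 3) (n3 := 1) (n4 := 3) (o3 := 45) (o4 := 80) (M := 440) (mA ++ (gf (fun x => 8 + cr 3 x) rf3 ++ (gf (fun x => 8 + c6 4 0 1 2 3 x) f11))) c3_11_n_pf (by decide +kernel)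
    (by decide +kernel) (by decide +kernel) (by decide +kernel) hp hts

theorem c3_11_n {V : Type} {W : Mw V} (h : W.Hy) {a b c u : V} (nd : [W.z, a, b, c, u].Nodup)
    (hr : Hit (mrel0 h.bs) (pt [a, b, c] W.z) rf3)
    (hf : Hit (mrel0 h.bs) (v6 W.z u W.z a b c) f11) : False :=
  c3_11_n_ref (pt_inj (o := W.z) nd rfl) (PHs.app (h.ph rfl _) (PHs.app (gf_ph hr (cr 3) (cr_pt (n := 3) (l := [a, b, c]) (l' := [u]) rfl)) (gf_ph hf (c6 4 0 1 2 3) (c6_v6 rfl rfl rfl rfl rfl rfl))))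

def c3_12_n_p0 : List Nat := [
0x68426b0000000a700000009300000009b00000008f0000000970000000910000000990000000a10000000950000000ad01df000b01,
0xaf000000002000200]

def c3_12_n_pf : List Nat := c3_12_n_p0

theorem c3_12_n_ref {V : Type} {S : SRel V} {p : Nat → V} (hp : ∀ i j, i < 5 → j < 5 → p i = p j → i = j)
    (hts : PHs S p 5 (mA ++ (gf (fun x => 8 + cr 3 x) rf3 ++ (gf (fun x => 8 + c6 4 0 1 2 3 x) f12)))) : False :=
  refuteS (k := 5) (n2 := 3) (n3 := 1) (n4 := 3) (o3 := 45) (o4 := 80) (M := 440) (mA ++ (gf (fun x => 8 + cr 3 x) rf3 ++ (gf (fun x => 8 + c6 4 0 1 2 3 x) f12))) c3_12_n_pf (by decide +kernel)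
    (by decide +kernel) (by decide +kernel) (by decide +kernel) hp hts

theorem c3_12_n {V : Type} {W : Mw V} (h : W.Hy) {a b c u : V} (nd : [W.z, a, b, c, u].Nodup)
    (hr : Hit (mrel0 h.bs) (pt [a, b, c] W.z) rf3)
    (hf : Hit (mrel0 h.bs) (v6 W.z u W.z a b c) f12) : False :=
  c3_12_n_ref (pt_inj (o := W.z) nd rfl) (PHs.app (h.ph rfl _) (PHs.app (gf_ph hr (cr 3) (cr_pt (n := 3) (l := [a, b, c]) (l' := [u]) rfl)) (gf_ph hf (c6 4 0 1 2 3) (c6_v6 rfl rfl rfl rfl rfl rfl))))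

def c3_13_n_p0 : List Nat := [
0x68426d00000009300000009b00000008f0000000910000000990000000a10000000950000000a702ba000901,
0xad000000002000200]

def c3_13_n_pf : List Nat := c3_13_n_p0

theorem c3_13_n_ref {V : Type} {S : SRel V} {p : Nat → V} (hp : ∀ i j, i < 5 → j < 5 → p i = p j → i = j)
    (hts : PHs S p 5 (mA ++ (gf (fun x => 8 + cr 3 x) rf3 ++ (gf (fun x => 8 + c6 4 0 1 2 3 x) f13)))) : False :=
  refuteS (k := 5) (n2 := 3) (n3 := 1) (n4 := 3) (o3 := 45) (o4 := 80) (M := 440) (mA ++ (gf (fun x => 8 + cr 3 x) rf3 ++ (gf (fun x => 8 + c6 4 0 1 2 3 x) f13))) c3_13_n_pf (by decide +kernel)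
    (by decide +kernel) (by decide +kernel) (by decide +kernel) hp hts

theorem c3_13_n {V : Type} {W : Mw V} (h : W.Hy) {a b c u : V} (nd : [W.z, a, b, c, u].Nodup)
    (hr : Hit (mrel0 h.bs) (pt [a, b, c] W.z) rf3)
    (hf : Hit (mrel0 h.bs) (v6 W.z u W.z a b c) f13) : False :=
  c3_13_n_ref (pt_inj (o := W.z) nd rfl) (PHs.app (h.ph rfl _) (PHs.app (gf_ph hr (cr 3) (cr_pt (n := 3) (l := [a, b, c]) (l' := [u]) rfl)) (gf_ph hf (c6 4 0 1 2 3) (c6_v6 rfl rfl rfl rfl rfl rfl))))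

def c3_14_n_n_p0 : List Nat := [
0xa6241d00000009b05b1000201,
0x8640b0000000930000000910000000a104bd000401,
0x86240070000000950000000040146000301,
0xa640b0000000930000000910000000a505ad000401,
0xa6240070000000950000000080218000301,
0x2860030000000a9047b000201,
0x640820700000000600000000c0155000301,
0x64821b00000000e0482000201,
0x2a60030000000ab0520000201,
0xa4062070000000950000000120257000301,
0x4a682250000000100000000b30554000301,
0xa6842770000000a50000000b10000000a100000009300000008f0000000970000000910000000a90000000ab00000000a0000000b30033000c01,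
0xa4621f000000002000000014000000099000000016000000018000600]

def c3_14_n_n_pf : List Nat := c3_14_n_n_p0

theorem c3_14_n_n_ref {V : Type} {S : SRel V} {p : Nat → V} (hp : ∀ i j, i < 6 → j < 6 → p i = p j → i = j)
    (hts : PHs S p 6 (mA ++ (gf (fun x => 8 + cr 3 x) rf3 ++ (gf (fun x => 8 + c6 4 5 1 2 3 x) f14)))) : False :=
  refuteS (k := 6) (n2 := 3) (n3 := 1) (n4 := 3) (o3 := 63) (o4 := 119) (M := 812) (mA ++ (gf (fun x => 8 + cr 3 x) rf3 ++ (gf (fun x => 8 + c6 4 5 1 2 3 x) f14))) c3_14_n_n_pf (by decide +kernel)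
    (by decide +kernel) (by decide +kernel) (by decide +kernel) hp hts

theorem c3_14_n_n {V : Type} {W : Mw V} (h : W.Hy) {a b c u w : V} (nd : [W.z, a, b, c, u, w].Nodup)
    (hr : Hit (mrel0 h.bs) (pt [a, b, c] W.z) rf3)
    (hf : Hit (mrel0 h.bs) (v6 W.z u w a b c) f14) : False :=
  c3_14_n_n_ref (pt_inj (o := W.z) nd rfl) (PHs.app (h.ph rfl _) (PHs.app (gf_ph hr (cr 3) (cr_pt (n := 3) (l := [a, b, c]) (l' := [u, w]) rfl)) (gf_ph hf (c6 4 5 1 2 3) (c6_v6 rfl rfl rfl rfl rfl rfl))))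

def c3_15_n_n_p0 : List Nat := [
0x6a842770000000a30000000a100000009300000009b00000008f0000000970000000910000000950000000ab0000000a90000000b105c6000c01,
0xb3000000002000200]

def c3_15_n_n_pf : List Nat := c3_15_n_n_p0

theorem c3_15_n_n_ref {V : Type} {S : SRel V} {p : Nat → V} (hp : ∀ i j, i < 6 → j < 6 → p i = p j → i = j)
    (hts : PHs S p 6 (mA ++ (gf (fun x => 8 + cr 3 x) rf3 ++ (gf (fun x => 8 + c6 4 5 1 2 3 x) f15)))) : False :=
  refuteS (k := 6) (n2 := 3) (n3 := 1) (n4 := 3) (o3 := 63) (o4 := 119) (M := 812) (mA ++ (gf (fun x => 8 + cr 3 x) rf3 ++ (gf (fun x => 8 + c6 4 5 1 2 3 x) f15))) c3_15_n_n_pf (by decide +kernel)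
    (by decide +kernel) (by decide +kernel) (by decide +kernel) hp hts

theorem c3_15_n_n {V : Type} {W : Mw V} (h : W.Hy) {a b c u w : V} (nd : [W.z, a, b, c, u, w].Nodup)
    (hr : Hit (mrel0 h.bs) (pt [a, b, c] W.z) rf3)
    (hf : Hit (mrel0 h.bs) (v6 W.z u w a b c) f15) : False :=
  c3_15_n_n_ref (pt_inj (o := W.z) nd rfl) (PHs.app (h.ph rfl _) (PHs.app (gf_ph hr (cr 3) (cr_pt (n := 3) (l := [a, b, c]) (l' := [u, w]) rfl)) (gf_ph hf (c6 4 5 1 2 3) (c6_v6 rfl rfl rfl rfl rfl rfl))))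

def c3_16_n_n_p0 : List Nat := [
0xa640b0000000930000000910000000a505ad000401,
0xa6240070000000950000000020218000301,
0xa8642750000000a50000000b10000000a30000000ab00000009300000009b00000008f0000000970000000910000000990000000a90000000040000000b30533000e01,
0xb5000000006000200]

def c3_16_n_n_pf : List Nat := c3_16_n_n_p0

theorem c3_16_n_n_ref {V : Type} {S : SRel V} {p : Nat → V} (hp : ∀ i j, i < 6 → j < 6 → p i = p j → i = j)
    (hts : PHs S p 6 (mA ++ (gf (fun x => 8 + cr 3 x) rf3 ++ (gf (fun x => 8 + c6 4 5 1 2 3 x) f16)))) : False :=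
  refuteS (k := 6) (n2 := 3) (n3 := 1) (n4 := 3) (o3 := 63) (o4 := 119) (M := 812) (mA ++ (gf (fun x => 8 + cr 3 x) rf3 ++ (gf (fun x => 8 + c6 4 5 1 2 3 x) f16))) c3_16_n_n_pf (by decide +kernel)
    (by decide +kernel) (by decide +kernel) (by decide +kernel) hp hts

theorem c3_16_n_n {V : Type} {W : Mw V} (h : W.Hy) {a b c u w : V} (nd : [W.z, a, b, c, u, w].Nodup)
    (hr : Hit (mrel0 h.bs) (pt [a, b, c] W.z) rf3)
    (hf : Hit (mrel0 h.bs) (v6 W.z u w a b c) f16) : False :=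
  c3_16_n_n_ref (pt_inj (o := W.z) nd rfl) (PHs.app (h.ph rfl _) (PHs.app (gf_ph hr (cr 3) (cr_pt (n := 3) (l := [a, b, c]) (l' := [u, w]) rfl)) (gf_ph hf (c6 4 5 1 2 3) (c6_v6 rfl rfl rfl rfl rfl rfl))))

def c3_17_n_n_p0 : List Nat := [
0xa6241d00000009b05b1000201,
0xb5000000002000200]

def c3_17_n_n_pf : List Nat := c3_17_n_n_p0

theorem c3_17_n_n_ref {V : Type} {S : SRel V} {p : Nat → V} (hp : ∀ i j, i < 6 → j < 6 → p i = p j → i = j)
    (hts : PHs S p 6 (mA ++ (gf (fun x => 8 + cr 3 x) rf3 ++ (gf (fun x => 8 + c6 4 5 1 2 3 x) f17)))) : False :=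
  refuteS (k := 6) (n2 := 3) (n3 := 1) (n4 := 3) (o3 := 63) (o4 := 119) (M := 812) (mA ++ (gf (fun x => 8 + cr 3 x) rf3 ++ (gf (fun x => 8 + c6 4 5 1 2 3 x) f17))) c3_17_n_n_pf (by decide +kernel)
    (by decide +kernel) (by decide +kernel) (by decide +kernel) hp hts

theorem c3_17_n_n {V : Type} {W : Mw V} (h : W.Hy) {a b c u w : V} (nd : [W.z, a, b, c, u, w].Nodup)
    (hr : Hit (mrel0 h.bs) (pt [a, b, c] W.z) rf3)
    (hf : Hit (mrel0 h.bs) (v6 W.z u w a b c) f17) : False :=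
  c3_17_n_n_ref (pt_inj (o := W.z) nd rfl) (PHs.app (h.ph rfl _) (PHs.app (gf_ph hr (cr 3) (cr_pt (n := 3) (l := [a, b, c]) (l' := [u, w]) rfl)) (gf_ph hf (c6 4 5 1 2 3) (c6_v6 rfl rfl rfl rfl rfl rfl))))

def c3_18_n_n_p0 : List Nat := [
0xa6241d00000009b05b1000201,
0xb3000000002000200]

def c3_18_n_n_pf : List Nat := c3_18_n_n_p0

theorem c3_18_n_n_ref {V : Type} {S : SRel V} {p : Nat → V} (hp : ∀ i j, i < 6 → j < 6 → p i = p j → i = j)
    (hts : PHs S p 6 (mA ++ (gf (fun x => 8 + cr 3 x) rf3 ++ (gf (fun x => 8 + c6 4 5 1 2 3 x) f18)))) : False :=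
  refuteS (k := 6) (n2 := 3) (n3 := 1) (n4 := 3) (o3 := 63) (o4 := 119) (M := 812) (mA ++ (gf (fun x => 8 + cr 3 x) rf3 ++ (gf (fun x => 8 + c6 4 5 1 2 3 x) f18))) c3_18_n_n_pf (by decide +kernel)
    (by decide +kernel) (by decide +kernel) (by decide +kernel) hp hts

theorem c3_18_n_n {V : Type} {W : Mw V} (h : W.Hy) {a b c u w : V} (nd : [W.z, a, b, c, u, w].Nodup)
    (hr : Hit (mrel0 h.bs) (pt [a, b, c] W.z) rf3)
    (hf : Hit (mrel0 h.bs) (v6 W.z u w a b c) f18) : False :=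
  c3_18_n_n_ref (pt_inj (o := W.z) nd rfl) (PHs.app (h.ph rfl _) (PHs.app (gf_ph hr (cr 3) (cr_pt (n := 3) (l := [a, b, c]) (l' := [u, w]) rfl)) (gf_ph hf (c6 4 5 1 2 3) (c6_v6 rfl rfl rfl rfl rfl rfl))))

def c3_19_n_n_p0 : List Nat := [
0xb700000009b000200]

def c3_19_n_n_pf : List Nat := c3_19_n_n_p0

theorem c3_19_n_n_ref {V : Type} {S : SRel V} {p : Nat → V} (hp : ∀ i j, i < 6 → j < 6 → p i = p j → i = j)
    (hts : PHs S p 6 (mA ++ (gf (fun x => 8 + cr 3 x) rf3 ++ (gf (fun x => 8 + c6 4 5 1 2 3 x) f19)))) : False :=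
  refuteS (k := 6) (n2 := 3) (n3 := 1) (n4 := 3) (o3 := 63) (o4 := 119) (M := 812) (mA ++ (gf (fun x => 8 + cr 3 x) rf3 ++ (gf (fun x => 8 + c6 4 5 1 2 3 x) f19))) c3_19_n_n_pf (by decide +kernel)
    (by decide +kernel) (by decide +kernel) (by decide +kernel) hp hts

theorem c3_19_n_n {V : Type} {W : Mw V} (h : W.Hy) {a b c u w : V} (nd : [W.z, a, b, c, u, w].Nodup)
    (hr : Hit (mrel0 h.bs) (pt [a, b, c] W.z) rf3)
    (hf : Hit (mrel0 h.bs) (v6 W.z u w a b c) f19) : False :=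
  c3_19_n_n_ref (pt_inj (o := W.z) nd rfl) (PHs.app (h.ph rfl _) (PHs.app (gf_ph hr (cr 3) (cr_pt (n := 3) (l := [a, b, c]) (l' := [u, w]) rfl)) (gf_ph hf (c6 4 5 1 2 3) (c6_v6 rfl rfl rfl rfl rfl rfl))))

def c3_20_n_n_p0 : List Nat := [
0x64a82830000000b10000000ab00000009300000009b00000008f00000009700000009100000009900000009f0000000a10000000a70000000a90000000b30590000e01,
0xb5000000002000200]

def c3_20_n_n_pf : List Nat := c3_20_n_n_p0

theorem c3_20_n_n_ref {V : Type} {S : SRel V} {p : Nat → V} (hp : ∀ i j, i < 6 → j < 6 → p i = p j → i = j)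
    (hts : PHs S p 6 (mA ++ (gf (fun x => 8 + cr 3 x) rf3 ++ (gf (fun x => 8 + c6 4 5 1 2 3 x) f20)))) : False :=
  refuteS (k := 6) (n2 := 3) (n3 := 1) (n4 := 3) (o3 := 63) (o4 := 119) (M := 812) (mA ++ (gf (fun x => 8 + cr 3 x) rf3 ++ (gf (fun x => 8 + c6 4 5 1 2 3 x) f20))) c3_20_n_n_pf (by decide +kernel)
    (by decide +kernel) (by decide +kernel) (by decide +kernel) hp hts

theorem c3_20_n_n {V : Type} {W : Mw V} (h : W.Hy) {a b c u w : V} (nd : [W.z, a, b, c, u, w].Nodup)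
    (hr : Hit (mrel0 h.bs) (pt [a, b, c] W.z) rf3)
    (hf : Hit (mrel0 h.bs) (v6 W.z u w a b c) f20) : False :=
  c3_20_n_n_ref (pt_inj (o := W.z) nd rfl) (PHs.app (h.ph rfl _) (PHs.app (gf_ph hr (cr 3) (cr_pt (n := 3) (l := [a, b, c]) (l' := [u, w]) rfl)) (gf_ph hf (c6 4 5 1 2 3) (c6_v6 rfl rfl rfl rfl rfl rfl))))

theorem P3_1 {V : Type} {W : Mw V} (h : W.Hy) {a b c u w : V} (nd : [W.z, a, b, c].Nodup)
    (hr : Hit (mrel0 h.bs) (pt [a, b, c] W.z) rf3)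
    (hf : Hit (mrel0 h.bs) (v6 W.z u w a b c) f1) : False := by
  exact c3_1 h nd hr (hit00 (by decide) hf)

theorem P3_6 {V : Type} {W : Mw V} (h : W.Hy) {a b c u w : V} (nd : [W.z, a, b, c].Nodup)
    (hr : Hit (mrel0 h.bs) (pt [a, b, c] W.z) rf3)
    (hf : Hit (mrel0 h.bs) (v6 W.z u w a b c) f6) : False := by
  have hf := hit01 (by decide) hf
  have hs := hn1 hf rfl
  exact c3_6_n h (nd_snoc nd (nin4 hs.1 hs.2.1 hs.2.2.1 hs.2.2.2)) hr hf

theorem P3_7 {V : Type} {W : Mw V} (h : W.Hy) {a b c u w : V} (nd : [W.z, a, b, c].Nodup)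
    (hr : Hit (mrel0 h.bs) (pt [a, b, c] W.z) rf3)
    (hf : Hit (mrel0 h.bs) (v6 W.z u w a b c) f7) : False := by
  have hf := hit01 (by decide) hf
  have hs := hn1 hf rfl
  exact c3_7_n h (nd_snoc nd (nin4 hs.1 hs.2.1 hs.2.2.1 hs.2.2.2)) hr hf

theorem P3_10 {V : Type} {W : Mw V} (h : W.Hy) {a b c u w : V} (nd : [W.z, a, b, c].Nodup)
    (hr : Hit (mrel0 h.bs) (pt [a, b, c] W.z) rf3)
    (hf : Hit (mrel0 h.bs) (v6 W.z u w a b c) f10) : False := by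
  have hf := hit01 (by decide) hf
  have hs := hn1 hf rfl
  exact c3_10_n h (nd_snoc nd (nin4 hs.1 hs.2.1 hs.2.2.1 hs.2.2.2)) hr hf

theorem P3_11 {V : Type} {W : Mw V} (h : W.Hy) {a b c u w : V} (nd : [W.z, a, b, c].Nodup)
    (hr : Hit (mrel0 h.bs) (pt [a, b, c] W.z) rf3)
    (hf : Hit (mrel0 h.bs) (v6 W.z u w a b c) f11) : False := by
  have hf := hit01 (by decide) hf
  have hs := hn1 hf rfl
  exact c3_11_n h (nd_snoc nd (nin4 hs.1 hs.2.1 hs.2.2.1 hs.2.2.2)) hr hf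

theorem P3_12 {V : Type} {W : Mw V} (h : W.Hy) {a b c u w : V} (nd : [W.z, a, b, c].Nodup)
    (hr : Hit (mrel0 h.bs) (pt [a, b, c] W.z) rf3)
    (hf : Hit (mrel0 h.bs) (v6 W.z u w a b c) f12) : False := by
  have hf := hit01 (by decide) hf
  have hs := hn1 hf rfl
  exact c3_12_n h (nd_snoc nd (nin4 hs.1 hs.2.1 hs.2.2.1 hs.2.2.2)) hr hf

theorem P3_13 {V : Type} {W : Mw V} (h : W.Hy) {a b c u w : V} (nd : [W.z, a, b, c].Nodup)
    (hr : Hit (mrel0 h.bs) (pt [a, b, c] W.z) rf3)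
    (hf : Hit (mrel0 h.bs) (v6 W.z u w a b c) f13) : False := by
  have hf := hit01 (by decide) hf
  have hs := hn1 hf rfl
  exact c3_13_n h (nd_snoc nd (nin4 hs.1 hs.2.1 hs.2.2.1 hs.2.2.2)) hr hf

theorem P3_14 {V : Type} {W : Mw V} (h : W.Hy) {a b c u w : V} (nd : [W.z, a, b, c].Nodup)
    (hr : Hit (mrel0 h.bs) (pt [a, b, c] W.z) rf3)
    (hf : Hit (mrel0 h.bs) (v6 W.z u w a b c) f14) : False := by
  have hs := hn2 hf rfl
  exact c3_14_n_n h (nd_snoc (nd_snoc nd (nin4 hs.2.1.1 hs.2.1.2.1 hs.2.1.2.2.1 hs.2.1.2.2.2)) (nin5 hs.2.2.1 hs.2.2.2.1 hs.2.2.2.2.1 hs.2.2.2.2.2 hs.1.symm)) hr hf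

theorem P3_15 {V : Type} {W : Mw V} (h : W.Hy) {a b c u w : V} (nd : [W.z, a, b, c].Nodup)
    (hr : Hit (mrel0 h.bs) (pt [a, b, c] W.z) rf3)
    (hf : Hit (mrel0 h.bs) (v6 W.z u w a b c) f15) : False := by
  have hs := hn2 hf rfl
  exact c3_15_n_n h (nd_snoc (nd_snoc nd (nin4 hs.2.1.1 hs.2.1.2.1 hs.2.1.2.2.1 hs.2.1.2.2.2)) (nin5 hs.2.2.1 hs.2.2.2.1 hs.2.2.2.2.1 hs.2.2.2.2.2 hs.1.symm)) hr hf

theorem P3_16 {V : Type} {W : Mw V} (h : W.Hy) {a b c u w : V} (nd : [W.z, a, b, c].Nodup)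
    (hr : Hit (mrel0 h.bs) (pt [a, b, c] W.z) rf3)
    (hf : Hit (mrel0 h.bs) (v6 W.z u w a b c) f16) : False := by
  have hs := hn2 hf rfl
  exact c3_16_n_n h (nd_snoc (nd_snoc nd (nin4 hs.2.1.1 hs.2.1.2.1 hs.2.1.2.2.1 hs.2.1.2.2.2)) (nin5 hs.2.2.1 hs.2.2.2.1 hs.2.2.2.2.1 hs.2.2.2.2.2 hs.1.symm)) hr hf

theorem P3_17 {V : Type} {W : Mw V} (h : W.Hy) {a b c u w : V} (nd : [W.z, a, b, c].Nodup)
    (hr : Hit (mrel0 h.bs) (pt [a, b, c] W.z) rf3)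
    (hf : Hit (mrel0 h.bs) (v6 W.z u w a b c) f17) : False := by
  have hs := hn2 hf rfl
  exact c3_17_n_n h (nd_snoc (nd_snoc nd (nin4 hs.2.1.1 hs.2.1.2.1 hs.2.1.2.2.1 hs.2.1.2.2.2)) (nin5 hs.2.2.1 hs.2.2.2.1 hs.2.2.2.2.1 hs.2.2.2.2.2 hs.1.symm)) hr hf

theorem P3_18 {V : Type} {W : Mw V} (h : W.Hy) {a b c u w : V} (nd : [W.z, a, b, c].Nodup)
    (hr : Hit (mrel0 h.bs) (pt [a, b, c] W.z) rf3)
    (hf : Hit (mrel0 h.bs) (v6 W.z u w a b c) f18) : False := by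
  have hs := hn2 hf rfl
  exact c3_18_n_n h (nd_snoc (nd_snoc nd (nin4 hs.2.1.1 hs.2.1.2.1 hs.2.1.2.2.1 hs.2.1.2.2.2)) (nin5 hs.2.2.1 hs.2.2.2.1 hs.2.2.2.2.1 hs.2.2.2.2.2 hs.1.symm)) hr hf

theorem P3_19 {V : Type} {W : Mw V} (h : W.Hy) {a b c u w : V} (nd : [W.z, a, b, c].Nodup)
    (hr : Hit (mrel0 h.bs) (pt [a, b, c] W.z) rf3)
    (hf : Hit (mrel0 h.bs) (v6 W.z u w a b c) f19) : False := by
  have hs := hn2 hf rfl
  exact c3_19_n_n h (nd_snoc (nd_snoc nd (nin4 hs.2.1.1 hs.2.1.2.1 hs.2.1.2.2.1 hs.2.1.2.2.2)) (nin5 hs.2.2.1 hs.2.2.2.1 hs.2.2.2.2.1 hs.2.2.2.2.2 hs.1.symm)) hr hf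

theorem P3_20 {V : Type} {W : Mw V} (h : W.Hy) {a b c u w : V} (nd : [W.z, a, b, c].Nodup)
    (hr : Hit (mrel0 h.bs) (pt [a, b, c] W.z) rf3)
    (hf : Hit (mrel0 h.bs) (v6 W.z u w a b c) f20) : False := by
  have hs := hn2 hf rfl
  exact c3_20_n_n h (nd_snoc (nd_snoc nd (nin4 hs.2.1.1 hs.2.1.2.1 hs.2.1.2.2.1 hs.2.1.2.2.2)) (nin5 hs.2.2.1 hs.2.2.2.1 hs.2.2.2.2.1 hs.2.2.2.2.2 hs.1.symm)) hr hf

theorem R3 {V : Type} {W : Mw V} (h : W.Hy) {a b c : V} (nd : [W.z, a, b, c].Nodup)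
    (hr : Hit (mrel0 h.bs) (pt [a, b, c] W.z) rf3)
    (hp : FS (mrel0 h.bs) W.z fp2 a b c) : False := by
  obtain ⟨t, ht, u, w, hf⟩ := hp
  simp only [fp2, List.mem_cons, List.not_mem_nil, or_false] at ht
  rcases ht with rfl | rfl | rfl | rfl | rfl | rfl | rfl | rfl | rfl | rfl | rfl | rfl | rfl | rfl
  · exact P3_1 h nd hr hf
  · exact P3_6 h nd hr hf
  · exact P3_7 h nd hr hf
  · exact P3_10 h nd hr hf
  · exact P3_11 h nd hr hf
  · exact P3_12 h nd hr hf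
  · exact P3_13 h nd hr hf
  · exact P3_14 h nd hr hf
  · exact P3_15 h nd hr hf
  · exact P3_16 h nd hr hf
  · exact P3_17 h nd hr hf
  · exact P3_18 h nd hr hf
  · exact P3_19 h nd hr hf
  · exact P3_20 h nd hr hf

end Pool.Agent.SOU
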