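import Pool.Agent.SOU.TB

/-! Project SOU (MP_66ba69_lc, mixed insertion): rule 35 (generated). -/

set_option autoImplicit false
set_option maxRecDepth 100000
set_option linter.unusedVariables false

namespace Pool.Agent.SOU

open Pool.Agent.RUP Pool.Agent.SOQ

def c35_1_p0 : List Nat := [
0x2b90000000950000000af00000008f00000009100000009b00000009300000009d00000009f000000097000000099000b00]

def c35_1_pf : List Nat := c35_1_p0

theorem c35_1_ref {V : Type} {S : SRel V} {p : Nat → V} (hp : ∀ i j, i < 5 → j < 5 → p i = p j → i = j)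
    (hts : PHs S p 5 (mA ++ (gf (fun x => 8 + cr 4 x) rf35 ++ (gf (fun x => 8 + c6 0 0 1 3 4 x) f1 ++ fp2.map (tren (n6 2 3 4)))))) : False :=
  refuteS (k := 5) (n2 := 3) (n3 := 1) (n4 := 3) (o3 := 45) (o4 := 80) (M := 440) (mA ++ (gf (fun x => 8 + cr 4 x) rf35 ++ (gf (fun x => 8 + c6 0 0 1 3 4 x) f1 ++ fp2.map (tren (n6 2 3 4))))) c35_1_pf (by decide +kernel)
    (by decide +kernel) (by decide +kernel) (by decide +kernel) hp hts

theorem c35_1 {V : Type} {W : Mw V} (h : W.Hy) {a b c d : V} (nd : [W.z, a, b, c, d].Nodup)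
    (hr : Hit (mrel0 h.bs) (pt [a, b, c, d] W.z) rf35)
    (hf : Hit (mrel0 h.bs) (v6 W.z W.z W.z a c d) f1)
    (hq : ¬ FS (mrel0 h.bs) W.z fp2 b c d) : False :=
  c35_1_ref (pt_inj (o := W.z) nd rfl) (PHs.app (h.ph rfl _) (PHs.app (gf_ph hr (cr 4) (cr_pt (n := 4) (l := [a, b, c, d]) (l' := []) rfl)) (PHs.app (gf_ph hf (c6 0 0 1 3 4) (c6_v6 rfl rfl rfl rfl rfl rfl)) (nf_ph hq (ia := 2) (ib := 3) (ic := 4) rfl rfl rfl rfl))))

def c35_6_n_p0 : List Nat := [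
0x8420030000000970490000201,
0x86400300000009904bd000201,
0x26084070000000020000000990176000301,
0x682400700000009700000000400d4000301,
0x4862030000000060481000201,
0x640820700000009700000000a014f000301,
0x42a0d00000009100000008f0000000a70517000401,
0x62a0d00000009300000008f0000000a70520000401,
0xa860b0000000950000000930000000a705ef000401,
0xa4062070000000080000000100257000301,
0xa82600700000000c0000000120221000301,
0x2a80030000000ad0559000201,
0x482a00700000000e0000000ad0203000301,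
0x860a2070000000160000000180236000301,
0x86a21b00000001c0563000201,
0x6a421d0000000b505b1000201,
0xab90000000a700000009500000009100000009b00000009300000009f0000000b300000009900000001a0033000a01,
0x2bd00000009500000008f00000009100000009b00000009300000009f0000000970000000990482000901,
0x2bf00000009500000008f00000009100000009b00000009300000009d00000009f0000000970000000990015000a01,
0x84621f00000002400000009f0000000060000000260195000501,
0xa4621f0000000200000000220000000140000000260228000501,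
0x846a22500000001e00000002800000002a000400]

def c35_6_n_pf : List Nat := c35_6_n_p0

theorem c35_6_n_ref {V : Type} {S : SRel V} {p : Nat → V} (hp : ∀ i j, i < 6 → j < 6 → p i = p j → i = j)
    (hts : PHs S p 6 (mA ++ (gf (fun x => 8 + cr 4 x) rf35 ++ (gf (fun x => 8 + c6 5 0 1 3 4 x) f6 ++ fp2.map (tren (n6 2 3 4)))))) : False :=
  refuteS (k := 6) (n2 := 3) (n3 := 1) (n4 := 3) (o3 := 63) (o4 := 119) (M := 812) (mA ++ (gf (fun x => 8 + cr 4 x) rf35 ++ (gf (fun x => 8 + c6 5 0 1 3 4 x) f6 ++ fp2.map (tren (n6 2 3 4))))) c35_6_n_pf (by decide +kernel)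
    (by decide +kernel) (by decide +kernel) (by decide +kernel) hp hts

theorem c35_6_n {V : Type} {W : Mw V} (h : W.Hy) {a b c d u : V} (nd : [W.z, a, b, c, d, u].Nodup)
    (hr : Hit (mrel0 h.bs) (pt [a, b, c, d] W.z) rf35)
    (hf : Hit (mrel0 h.bs) (v6 W.z u W.z a c d) f6)
    (hq : ¬ FS (mrel0 h.bs) W.z fp2 b c d) : False :=
  c35_6_n_ref (pt_inj (o := W.z) nd rfl) (PHs.app (h.ph rfl _) (PHs.app (gf_ph hr (cr 4) (cr_pt (n := 4) (l := [a, b, c, d]) (l' := [u]) rfl)) (PHs.app (gf_ph hf (c6 5 0 1 3 4) (c6_v6 rfl rfl rfl rfl rfl rfl)) (nf_ph hq (ia := 2) (ib := 3) (ic := 4) rfl rfl rfl rfl))))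

def c35_6_2_p0 : List Nat := [
0xa7000000091000200]

def c35_6_2_pf : List Nat := c35_6_2_p0

theorem c35_6_2_ref {V : Type} {S : SRel V} {p : Nat → V} (hp : ∀ i j, i < 5 → j < 5 → p i = p j → i = j)
    (hts : PHs S p 5 (mA ++ (gf (fun x => 8 + cr 4 x) rf35 ++ (gf (fun x => 8 + c6 2 0 1 3 4 x) f6 ++ fp2.map (tren (n6 2 3 4)))))) : False :=
  refuteS (k := 5) (n2 := 3) (n3 := 1) (n4 := 3) (o3 := 45) (o4 := 80) (M := 440) (mA ++ (gf (fun x => 8 + cr 4 x) rf35 ++ (gf (fun x => 8 + c6 2 0 1 3 4 x) f6 ++ fp2.map (tren (n6 2 3 4))))) c35_6_2_pf (by decide +kernel)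
    (by decide +kernel) (by decide +kernel) (by decide +kernel) hp hts

theorem c35_6_2 {V : Type} {W : Mw V} (h : W.Hy) {a b c d : V} (nd : [W.z, a, b, c, d].Nodup)
    (hr : Hit (mrel0 h.bs) (pt [a, b, c, d] W.z) rf35)
    (hf : Hit (mrel0 h.bs) (v6 W.z b W.z a c d) f6)
    (hq : ¬ FS (mrel0 h.bs) W.z fp2 b c d) : False :=
  c35_6_2_ref (pt_inj (o := W.z) nd rfl) (PHs.app (h.ph rfl _) (PHs.app (gf_ph hr (cr 4) (cr_pt (n := 4) (l := [a, b, c, d]) (l' := []) rfl)) (PHs.app (gf_ph hf (c6 2 0 1 3 4) (c6_v6 rfl rfl rfl rfl rfl rfl)) (nf_ph hq (ia := 2) (ib := 3) (ic := 4) rfl rfl rfl rfl))))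

def c35_7_n_p0 : List Nat := [
0x8420030000000970490000201,
0x86400300000009904bd000201,
0x26084070000000020000000990176000301,
0x682400700000009700000000400d4000301,
0x4862030000000060481000201,
0x640820700000009700000000a014f000301,
0x42a0d00000009100000008f0000000a70517000401,
0x62a0d00000009300000008f0000000a70520000401,
0xa860b0000000950000000930000000a705ef000401,
0xa4062070000000080000000100257000301,
0xa82600700000000c0000000120221000301,
0x2a80030000000ad0559000201,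
0x482a00700000000e0000000ad0203000301,
0x860a2070000000160000000180236000301,
0x86a21b00000001c0563000201,
0x6a421d0000000b305b1000201,
0xa8620f0000000a70000000b300000009500000009d00000008f0000000930000000b50015000801,
0xa6150000000a70000000930000000b5002d000401,
0xab90000000a700000009500000009100000009b00000009300000009f00000002400000009900000001a0033000a01,
0xa4621f0000000200000000220000000140000000260228000501,
0x846a22500000001e00000002804c1000301,
0x84621f00000002200000009f00000000600000002a0156000501,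
0x2bd00000009500000008f00000009100000009b00000009300000009f00000009700000002c000000099000a00]

def c35_7_n_pf : List Nat := c35_7_n_p0

theorem c35_7_n_ref {V : Type} {S : SRel V} {p : Nat → V} (hp : ∀ i j, i < 6 → j < 6 → p i = p j → i = j)
    (hts : PHs S p 6 (mA ++ (gf (fun x => 8 + cr 4 x) rf35 ++ (gf (fun x => 8 + c6 5 0 1 3 4 x) f7 ++ fp2.map (tren (n6 2 3 4)))))) : False :=
  refuteS (k := 6) (n2 := 3) (n3 := 1) (n4 := 3) (o3 := 63) (o4 := 119) (M := 812) (mA ++ (gf (fun x => 8 + cr 4 x) rf35 ++ (gf (fun x => 8 + c6 5 0 1 3 4 x) f7 ++ fp2.map (tren (n6 2 3 4))))) c35_7_n_pf (by decide +kernel)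
    (by decide +kernel) (by decide +kernel) (by decide +kernel) hp hts

theorem c35_7_n {V : Type} {W : Mw V} (h : W.Hy) {a b c d u : V} (nd : [W.z, a, b, c, d, u].Nodup)
    (hr : Hit (mrel0 h.bs) (pt [a, b, c, d] W.z) rf35)
    (hf : Hit (mrel0 h.bs) (v6 W.z u W.z a c d) f7)
    (hq : ¬ FS (mrel0 h.bs) W.z fp2 b c d) : False :=
  c35_7_n_ref (pt_inj (o := W.z) nd rfl) (PHs.app (h.ph rfl _) (PHs.app (gf_ph hr (cr 4) (cr_pt (n := 4) (l := [a, b, c, d]) (l' := [u]) rfl)) (PHs.app (gf_ph hf (c6 5 0 1 3 4) (c6_v6 rfl rfl rfl rfl rfl rfl)) (nf_ph hq (ia := 2) (ib := 3) (ic := 4) rfl rfl rfl rfl))))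

def c35_7_2_p0 : List Nat := [
0xa7000000091000200]

def c35_7_2_pf : List Nat := c35_7_2_p0

theorem c35_7_2_ref {V : Type} {S : SRel V} {p : Nat → V} (hp : ∀ i j, i < 5 → j < 5 → p i = p j → i = j)
    (hts : PHs S p 5 (mA ++ (gf (fun x => 8 + cr 4 x) rf35 ++ (gf (fun x => 8 + c6 2 0 1 3 4 x) f7 ++ fp2.map (tren (n6 2 3 4)))))) : False :=
  refuteS (k := 5) (n2 := 3) (n3 := 1) (n4 := 3) (o3 := 45) (o4 := 80) (M := 440) (mA ++ (gf (fun x => 8 + cr 4 x) rf35 ++ (gf (fun x => 8 + c6 2 0 1 3 4 x) f7 ++ fp2.map (tren (n6 2 3 4))))) c35_7_2_pf (by decide +kernel)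
    (by decide +kernel) (by decide +kernel) (by decide +kernel) hp hts

theorem c35_7_2 {V : Type} {W : Mw V} (h : W.Hy) {a b c d : V} (nd : [W.z, a, b, c, d].Nodup)
    (hr : Hit (mrel0 h.bs) (pt [a, b, c, d] W.z) rf35)
    (hf : Hit (mrel0 h.bs) (v6 W.z b W.z a c d) f7)
    (hq : ¬ FS (mrel0 h.bs) W.z fp2 b c d) : False :=
  c35_7_2_ref (pt_inj (o := W.z) nd rfl) (PHs.app (h.ph rfl _) (PHs.app (gf_ph hr (cr 4) (cr_pt (n := 4) (l := [a, b, c, d]) (l' := []) rfl)) (PHs.app (gf_ph hf (c6 2 0 1 3 4) (c6_v6 rfl rfl rfl rfl rfl rfl)) (nf_ph hq (ia := 2) (ib := 3) (ic := 4) rfl rfl rfl rfl))))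

def c35_10_n_p0 : List Nat := [
0x8420030000000970490000201,
0x86400300000009904bd000201,
0x26084070000000020000000990176000301,
0x682400700000009700000000400d4000301,
0x86420300000000604c0000201,
0x420860700000000400000000a04b7000301,
0x8a20030000000ab052c000201,
0x4a820070000000020000000ab0245000301,
0x6a8200700000000c0000000ab027b000301,
0xa40820700000009700000000e0263000301,
0xa420030000000100544000201,
0x6a20030000000120520000201,
0x4a8203000000014055f000201,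
0xa82400700000009700000001602ba000301,
0xa4062070000000080000000180257000301,
0xa62840700000000600000001a029c000301,
0xa4621b00000001e0584000201,
0x8a261d0000000b30036000201,
0x48a26250000000220000000b30596000301,
0xa6841f00000002400000002000000009f00000002602ca000501,
0xabb00000009500000009100000009b00000009300000009f0000000a300000009900000001c000000028000a00]

def c35_10_n_pf : List Nat := c35_10_n_p0

theorem c35_10_n_ref {V : Type} {S : SRel V} {p : Nat → V} (hp : ∀ i j, i < 6 → j < 6 → p i = p j → i = j)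
    (hts : PHs S p 6 (mA ++ (gf (fun x => 8 + cr 4 x) rf35 ++ (gf (fun x => 8 + c6 5 0 1 3 4 x) f10 ++ fp2.map (tren (n6 2 3 4)))))) : False :=
  refuteS (k := 6) (n2 := 3) (n3 := 1) (n4 := 3) (o3 := 63) (o4 := 119) (M := 812) (mA ++ (gf (fun x => 8 + cr 4 x) rf35 ++ (gf (fun x => 8 + c6 5 0 1 3 4 x) f10 ++ fp2.map (tren (n6 2 3 4))))) c35_10_n_pf (by decide +kernel)
    (by decide +kernel) (by decide +kernel) (by decide +kernel) hp hts

theorem c35_10_n {V : Type} {W : Mw V} (h : W.Hy) {a b c d u : V} (nd : [W.z, a, b, c, d, u].Nodup)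
    (hr : Hit (mrel0 h.bs) (pt [a, b, c, d] W.z) rf35)
    (hf : Hit (mrel0 h.bs) (v6 W.z u W.z a c d) f10)
    (hq : ¬ FS (mrel0 h.bs) W.z fp2 b c d) : False :=
  c35_10_n_ref (pt_inj (o := W.z) nd rfl) (PHs.app (h.ph rfl _) (PHs.app (gf_ph hr (cr 4) (cr_pt (n := 4) (l := [a, b, c, d]) (l' := [u]) rfl)) (PHs.app (gf_ph hf (c6 5 0 1 3 4) (c6_v6 rfl rfl rfl rfl rfl rfl)) (nf_ph hq (ia := 2) (ib := 3) (ic := 4) rfl rfl rfl rfl))))

def c35_10_2_p0 : List Nat := [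
0x84200300000009702f5000201,
0xab000000002000200]

def c35_10_2_pf : List Nat := c35_10_2_p0

theorem c35_10_2_ref {V : Type} {S : SRel V} {p : Nat → V} (hp : ∀ i j, i < 5 → j < 5 → p i = p j → i = j)
    (hts : PHs S p 5 (mA ++ (gf (fun x => 8 + cr 4 x) rf35 ++ (gf (fun x => 8 + c6 2 0 1 3 4 x) f10 ++ fp2.map (tren (n6 2 3 4)))))) : False :=
  refuteS (k := 5) (n2 := 3) (n3 := 1) (n4 := 3) (o3 := 45) (o4 := 80) (M := 440) (mA ++ (gf (fun x => 8 + cr 4 x) rf35 ++ (gf (fun x => 8 + c6 2 0 1 3 4 x) f10 ++ fp2.map (tren (n6 2 3 4))))) c35_10_2_pf (by decide +kernel)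
    (by decide +kernel) (by decide +kernel) (by decide +kernel) hp hts

theorem c35_10_2 {V : Type} {W : Mw V} (h : W.Hy) {a b c d : V} (nd : [W.z, a, b, c, d].Nodup)
    (hr : Hit (mrel0 h.bs) (pt [a, b, c, d] W.z) rf35)
    (hf : Hit (mrel0 h.bs) (v6 W.z b W.z a c d) f10)
    (hq : ¬ FS (mrel0 h.bs) W.z fp2 b c d) : False :=
  c35_10_2_ref (pt_inj (o := W.z) nd rfl) (PHs.app (h.ph rfl _) (PHs.app (gf_ph hr (cr 4) (cr_pt (n := 4) (l := [a, b, c, d]) (l' := []) rfl)) (PHs.app (gf_ph hf (c6 2 0 1 3 4) (c6_v6 rfl rfl rfl rfl rfl rfl)) (nf_ph hq (ia := 2) (ib := 3) (ic := 4) rfl rfl rfl rfl))))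

def c35_11_n_p0 : List Nat := [
0x8420030000000970490000201,
0x4a820070000000020000000ab0245000301,
0xa420030000000040544000201,
0xa82400700000009700000000602ba000301,
0xabf0000000b300000009500000009100000009b00000009300000009f0000000b50000000a3000000099000000008000b00]

def c35_11_n_pf : List Nat := c35_11_n_p0

theorem c35_11_n_ref {V : Type} {S : SRel V} {p : Nat → V} (hp : ∀ i j, i < 6 → j < 6 → p i = p j → i = j)
    (hts : PHs S p 6 (mA ++ (gf (fun x => 8 + cr 4 x) rf35 ++ (gf (fun x => 8 + c6 5 0 1 3 4 x) f11 ++ fp2.map (tren (n6 2 3 4)))))) : False :=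
  refuteS (k := 6) (n2 := 3) (n3 := 1) (n4 := 3) (o3 := 63) (o4 := 119) (M := 812) (mA ++ (gf (fun x => 8 + cr 4 x) rf35 ++ (gf (fun x => 8 + c6 5 0 1 3 4 x) f11 ++ fp2.map (tren (n6 2 3 4))))) c35_11_n_pf (by decide +kernel)
    (by decide +kernel) (by decide +kernel) (by decide +kernel) hp hts

theorem c35_11_n {V : Type} {W : Mw V} (h : W.Hy) {a b c d u : V} (nd : [W.z, a, b, c, d, u].Nodup)
    (hr : Hit (mrel0 h.bs) (pt [a, b, c, d] W.z) rf35)
    (hf : Hit (mrel0 h.bs) (v6 W.z u W.z a c d) f11)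
    (hq : ¬ FS (mrel0 h.bs) W.z fp2 b c d) : False :=
  c35_11_n_ref (pt_inj (o := W.z) nd rfl) (PHs.app (h.ph rfl _) (PHs.app (gf_ph hr (cr 4) (cr_pt (n := 4) (l := [a, b, c, d]) (l' := [u]) rfl)) (PHs.app (gf_ph hf (c6 5 0 1 3 4) (c6_v6 rfl rfl rfl rfl rfl rfl)) (nf_ph hq (ia := 2) (ib := 3) (ic := 4) rfl rfl rfl rfl))))

def c35_11_2_p0 : List Nat := [
0x84200300000009702f5000201,
0xab000000002000200]

def c35_11_2_pf : List Nat := c35_11_2_p0

theorem c35_11_2_ref {V : Type} {S : SRel V} {p : Nat → V} (hp : ∀ i j, i < 5 → j < 5 → p i = p j → i = j)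
    (hts : PHs S p 5 (mA ++ (gf (fun x => 8 + cr 4 x) rf35 ++ (gf (fun x => 8 + c6 2 0 1 3 4 x) f11 ++ fp2.map (tren (n6 2 3 4)))))) : False :=
  refuteS (k := 5) (n2 := 3) (n3 := 1) (n4 := 3) (o3 := 45) (o4 := 80) (M := 440) (mA ++ (gf (fun x => 8 + cr 4 x) rf35 ++ (gf (fun x => 8 + c6 2 0 1 3 4 x) f11 ++ fp2.map (tren (n6 2 3 4))))) c35_11_2_pf (by decide +kernel)
    (by decide +kernel) (by decide +kernel) (by decide +kernel) hp hts

theorem c35_11_2 {V : Type} {W : Mw V} (h : W.Hy) {a b c d : V} (nd : [W.z, a, b, c, d].Nodup)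
    (hr : Hit (mrel0 h.bs) (pt [a, b, c, d] W.z) rf35)
    (hf : Hit (mrel0 h.bs) (v6 W.z b W.z a c d) f11)
    (hq : ¬ FS (mrel0 h.bs) W.z fp2 b c d) : False :=
  c35_11_2_ref (pt_inj (o := W.z) nd rfl) (PHs.app (h.ph rfl _) (PHs.app (gf_ph hr (cr 4) (cr_pt (n := 4) (l := [a, b, c, d]) (l' := []) rfl)) (PHs.app (gf_ph hf (c6 2 0 1 3 4) (c6_v6 rfl rfl rfl rfl rfl rfl)) (nf_ph hq (ia := 2) (ib := 3) (ic := 4) rfl rfl rfl rfl))))

def c35_12_n_p0 : List Nat := [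
0x8420030000000970490000201,
0x86400300000009904bd000201,
0x26084070000000020000000990176000301,
0x86420300000000604c0000201,
0x420860700000000400000000804b7000301,
0x2a0860700000000a0000000ad0236000301,
0x8a620300000000c05f2000201,
0x86a21b00000000c0563000201,
0xa84620700000000600000000e0257000301,
0x6a421d0000000b305b1000201,
0x2bd00000009500000008f00000009100000009b00000009300000009f0000000970000000990482000901,
0x2bf00000009500000008f00000009100000009b00000009300000009d00000009f0000000970000000990015000a01,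
0x84621f00000001600000009f0000000060000000180195000501,
0x846a22500000001000000001a0554000301,
0xa4621f00000001400000001800000001200000001c035f000501,
0xac100000001e00000009500000009100000009b00000009300000009f0000000b50000000a70000000990000000ad000b00]

def c35_12_n_pf : List Nat := c35_12_n_p0

theorem c35_12_n_ref {V : Type} {S : SRel V} {p : Nat → V} (hp : ∀ i j, i < 6 → j < 6 → p i = p j → i = j)
    (hts : PHs S p 6 (mA ++ (gf (fun x => 8 + cr 4 x) rf35 ++ (gf (fun x => 8 + c6 5 0 1 3 4 x) f12 ++ fp2.map (tren (n6 2 3 4)))))) : False :=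
  refuteS (k := 6) (n2 := 3) (n3 := 1) (n4 := 3) (o3 := 63) (o4 := 119) (M := 812) (mA ++ (gf (fun x => 8 + cr 4 x) rf35 ++ (gf (fun x => 8 + c6 5 0 1 3 4 x) f12 ++ fp2.map (tren (n6 2 3 4))))) c35_12_n_pf (by decide +kernel)
    (by decide +kernel) (by decide +kernel) (by decide +kernel) hp hts

theorem c35_12_n {V : Type} {W : Mw V} (h : W.Hy) {a b c d u : V} (nd : [W.z, a, b, c, d, u].Nodup)
    (hr : Hit (mrel0 h.bs) (pt [a, b, c, d] W.z) rf35)
    (hf : Hit (mrel0 h.bs) (v6 W.z u W.z a c d) f12)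
    (hq : ¬ FS (mrel0 h.bs) W.z fp2 b c d) : False :=
  c35_12_n_ref (pt_inj (o := W.z) nd rfl) (PHs.app (h.ph rfl _) (PHs.app (gf_ph hr (cr 4) (cr_pt (n := 4) (l := [a, b, c, d]) (l' := [u]) rfl)) (PHs.app (gf_ph hf (c6 5 0 1 3 4) (c6_v6 rfl rfl rfl rfl rfl rfl)) (nf_ph hq (ia := 2) (ib := 3) (ic := 4) rfl rfl rfl rfl))))

def c35_12_2_p0 : List Nat := [
0x8640030000000990322000201,
0xad000000002000200]

def c35_12_2_pf : List Nat := c35_12_2_p0

theorem c35_12_2_ref {V : Type} {S : SRel V} {p : Nat → V} (hp : ∀ i j, i < 5 → j < 5 → p i = p j → i = j)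
    (hts : PHs S p 5 (mA ++ (gf (fun x => 8 + cr 4 x) rf35 ++ (gf (fun x => 8 + c6 2 0 1 3 4 x) f12 ++ fp2.map (tren (n6 2 3 4)))))) : False :=
  refuteS (k := 5) (n2 := 3) (n3 := 1) (n4 := 3) (o3 := 45) (o4 := 80) (M := 440) (mA ++ (gf (fun x => 8 + cr 4 x) rf35 ++ (gf (fun x => 8 + c6 2 0 1 3 4 x) f12 ++ fp2.map (tren (n6 2 3 4))))) c35_12_2_pf (by decide +kernel)
    (by decide +kernel) (by decide +kernel) (by decide +kernel) hp hts

theorem c35_12_2 {V : Type} {W : Mw V} (h : W.Hy) {a b c d : V} (nd : [W.z, a, b, c, d].Nodup)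
    (hr : Hit (mrel0 h.bs) (pt [a, b, c, d] W.z) rf35)
    (hf : Hit (mrel0 h.bs) (v6 W.z b W.z a c d) f12)
    (hq : ¬ FS (mrel0 h.bs) W.z fp2 b c d) : False :=
  c35_12_2_ref (pt_inj (o := W.z) nd rfl) (PHs.app (h.ph rfl _) (PHs.app (gf_ph hr (cr 4) (cr_pt (n := 4) (l := [a, b, c, d]) (l' := []) rfl)) (PHs.app (gf_ph hf (c6 2 0 1 3 4) (c6_v6 rfl rfl rfl rfl rfl rfl)) (nf_ph hq (ia := 2) (ib := 3) (ic := 4) rfl rfl rfl rfl))))

def c35_13_n_p0 : List Nat := [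
0x8420030000000970490000201,
0x86400300000009904bd000201,
0x26084070000000020000000990176000301,
0x682400700000009700000000400d4000301,
0x86420300000000604c0000201,
0x420860700000000400000000a04b7000301,
0x841300000009500000009100000009f0009000401,
0x8a60030000000ad05ef000201,
0x2a0860700000000c0000000ad0236000301,
0xa8460070000000990000000100254000301,
0x8a620300000001205f2000201,
0xa6400300000001405ad000201,
0xa8462070000000060000000160257000301,
0xa6240070000000080000000180218000301,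
0xa4621b00000001a0584000201,
0x62a330000000a700000008f0000000930000000b30030000501,
0x4a625500000001e00000008f0000000910000000930000000a70000000b30572000701,
0xa243700000002200000001c00000008f00000000e0000000910000000a700000002001ec000801,
0x624a3f0000000b300000008f0000000910000000930000000a700000002401f8000701,
0xac100000009500000009100000009b00000009300000009f0000000a70000000990000000260000000ad000a00]

def c35_13_n_pf : List Nat := c35_13_n_p0

theorem c35_13_n_ref {V : Type} {S : SRel V} {p : Nat → V} (hp : ∀ i j, i < 6 → j < 6 → p i = p j → i = j)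
    (hts : PHs S p 6 (mA ++ (gf (fun x => 8 + cr 4 x) rf35 ++ (gf (fun x => 8 + c6 5 0 1 3 4 x) f13 ++ fp2.map (tren (n6 2 3 4)))))) : False :=
  refuteS (k := 6) (n2 := 3) (n3 := 1) (n4 := 3) (o3 := 63) (o4 := 119) (M := 812) (mA ++ (gf (fun x => 8 + cr 4 x) rf35 ++ (gf (fun x => 8 + c6 5 0 1 3 4 x) f13 ++ fp2.map (tren (n6 2 3 4))))) c35_13_n_pf (by decide +kernel)
    (by decide +kernel) (by decide +kernel) (by decide +kernel) hp hts

theorem c35_13_n {V : Type} {W : Mw V} (h : W.Hy) {a b c d u : V} (nd : [W.z, a, b, c, d, u].Nodup)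
    (hr : Hit (mrel0 h.bs) (pt [a, b, c, d] W.z) rf35)
    (hf : Hit (mrel0 h.bs) (v6 W.z u W.z a c d) f13)
    (hq : ¬ FS (mrel0 h.bs) W.z fp2 b c d) : False :=
  c35_13_n_ref (pt_inj (o := W.z) nd rfl) (PHs.app (h.ph rfl _) (PHs.app (gf_ph hr (cr 4) (cr_pt (n := 4) (l := [a, b, c, d]) (l' := [u]) rfl)) (PHs.app (gf_ph hf (c6 5 0 1 3 4) (c6_v6 rfl rfl rfl rfl rfl rfl)) (nf_ph hq (ia := 2) (ib := 3) (ic := 4) rfl rfl rfl rfl))))

def c35_13_2_p0 : List Nat := [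
0x8640030000000990322000201,
0xad000000002000200]

def c35_13_2_pf : List Nat := c35_13_2_p0

theorem c35_13_2_ref {V : Type} {S : SRel V} {p : Nat → V} (hp : ∀ i j, i < 5 → j < 5 → p i = p j → i = j)
    (hts : PHs S p 5 (mA ++ (gf (fun x => 8 + cr 4 x) rf35 ++ (gf (fun x => 8 + c6 2 0 1 3 4 x) f13 ++ fp2.map (tren (n6 2 3 4)))))) : False :=
  refuteS (k := 5) (n2 := 3) (n3 := 1) (n4 := 3) (o3 := 45) (o4 := 80) (M := 440) (mA ++ (gf (fun x => 8 + cr 4 x) rf35 ++ (gf (fun x => 8 + c6 2 0 1 3 4 x) f13 ++ fp2.map (tren (n6 2 3 4))))) c35_13_2_pf (by decide +kernel)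
    (by decide +kernel) (by decide +kernel) (by decide +kernel) hp hts

theorem c35_13_2 {V : Type} {W : Mw V} (h : W.Hy) {a b c d : V} (nd : [W.z, a, b, c, d].Nodup)
    (hr : Hit (mrel0 h.bs) (pt [a, b, c, d] W.z) rf35)
    (hf : Hit (mrel0 h.bs) (v6 W.z b W.z a c d) f13)
    (hq : ¬ FS (mrel0 h.bs) W.z fp2 b c d) : False :=
  c35_13_2_ref (pt_inj (o := W.z) nd rfl) (PHs.app (h.ph rfl _) (PHs.app (gf_ph hr (cr 4) (cr_pt (n := 4) (l := [a, b, c, d]) (l' := []) rfl)) (PHs.app (gf_ph hf (c6 2 0 1 3 4) (c6_v6 rfl rfl rfl rfl rfl rfl)) (nf_ph hq (ia := 2) (ib := 3) (ic := 4) rfl rfl rfl rfl))))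

def c35_14_n_n_p0 : List Nat := [
0x4280d00000009100000008f00000009506c3000401,
0x42a0d00000009100000008f0000000a70786000401,
0xa840b0000000950000000910000000a70855000401,
0xa8240070000000970000000060249000301,
0xc840b0000000950000000910000000ab09ea000401,
0xc860b0000000950000000930000000ab09f3000401,
0xc82400700000009700000000a03a8000301,
0xc84600700000009900000000c03f6000301,
0x2a80030000000af07c8000201,
0x482a0070000000040000000af0234000301,
0x840a2070000000080000000120264000301,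
0x2c80030000000b108e8000201,
0x840c20500000000e0000000b1092d000301,
0x4c280070000000020000000b10402000301,
0xca082070000000af00000001804e6000301,
0xca2840700000001600000001a04e9000301,
0xca820300000001e0a11000201,
0xc84a2070000000160000000220414000301,
0xc4a21b000000024097f000201,
0x8ac310000000ab0000000a70000000950000000b7004e000501,
0x48c2a250000000260000000b90988000301,
0xca841f00000002800000002000000009f00000002a04ab000501,
0xcac90000000ab0000000a700000009500000009100000009b00000009300000009f0000000140000000b700000001000000001c00000002c000d00]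

def c35_14_n_n_pf : List Nat := c35_14_n_n_p0

theorem c35_14_n_n_ref {V : Type} {S : SRel V} {p : Nat → V} (hp : ∀ i j, i < 7 → j < 7 → p i = p j → i = j)
    (hts : PHs S p 7 (mA ++ (gf (fun x => 8 + cr 4 x) rf35 ++ (gf (fun x => 8 + c6 5 6 1 3 4 x) f14 ++ fp2.map (tren (n6 2 3 4)))))) : False :=
  refuteS (k := 7) (n2 := 3) (n3 := 1) (n4 := 3) (o3 := 84) (o4 := 168) (M := 1386) (mA ++ (gf (fun x => 8 + cr 4 x) rf35 ++ (gf (fun x => 8 + c6 5 6 1 3 4 x) f14 ++ fp2.map (tren (n6 2 3 4))))) c35_14_n_n_pf (by decide +kernel)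
    (by decide +kernel) (by decide +kernel) (by decide +kernel) hp hts

theorem c35_14_n_n {V : Type} {W : Mw V} (h : W.Hy) {a b c d u w : V} (nd : [W.z, a, b, c, d, u, w].Nodup)
    (hr : Hit (mrel0 h.bs) (pt [a, b, c, d] W.z) rf35)
    (hf : Hit (mrel0 h.bs) (v6 W.z u w a c d) f14)
    (hq : ¬ FS (mrel0 h.bs) W.z fp2 b c d) : False :=
  c35_14_n_n_ref (pt_inj (o := W.z) nd rfl) (PHs.app (h.ph rfl _) (PHs.app (gf_ph hr (cr 4) (cr_pt (n := 4) (l := [a, b, c, d]) (l' := [u, w]) rfl)) (PHs.app (gf_ph hf (c6 5 6 1 3 4) (c6_v6 rfl rfl rfl rfl rfl rfl)) (nf_ph hq (ia := 2) (ib := 3) (ic := 4) rfl rfl rfl rfl))))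

def c35_14_n_2_p0 : List Nat := [
0xab000000091000200]

def c35_14_n_2_pf : List Nat := c35_14_n_2_p0

theorem c35_14_n_2_ref {V : Type} {S : SRel V} {p : Nat → V} (hp : ∀ i j, i < 6 → j < 6 → p i = p j → i = j)
    (hts : PHs S p 6 (mA ++ (gf (fun x => 8 + cr 4 x) rf35 ++ (gf (fun x => 8 + c6 5 2 1 3 4 x) f14 ++ fp2.map (tren (n6 2 3 4)))))) : False :=
  refuteS (k := 6) (n2 := 3) (n3 := 1) (n4 := 3) (o3 := 63) (o4 := 119) (M := 812) (mA ++ (gf (fun x => 8 + cr 4 x) rf35 ++ (gf (fun x => 8 + c6 5 2 1 3 4 x) f14 ++ fp2.map (tren (n6 2 3 4))))) c35_14_n_2_pf (by decide +kernel)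
    (by decide +kernel) (by decide +kernel) (by decide +kernel) hp hts

theorem c35_14_n_2 {V : Type} {W : Mw V} (h : W.Hy) {a b c d u : V} (nd : [W.z, a, b, c, d, u].Nodup)
    (hr : Hit (mrel0 h.bs) (pt [a, b, c, d] W.z) rf35)
    (hf : Hit (mrel0 h.bs) (v6 W.z u b a c d) f14)
    (hq : ¬ FS (mrel0 h.bs) W.z fp2 b c d) : False :=
  c35_14_n_2_ref (pt_inj (o := W.z) nd rfl) (PHs.app (h.ph rfl _) (PHs.app (gf_ph hr (cr 4) (cr_pt (n := 4) (l := [a, b, c, d]) (l' := [u]) rfl)) (PHs.app (gf_ph hf (c6 5 2 1 3 4) (c6_v6 rfl rfl rfl rfl rfl rfl)) (nf_ph hq (ia := 2) (ib := 3) (ic := 4) rfl rfl rfl rfl))))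

def c35_14_2_n_p0 : List Nat := [
0xa7000000091000200]

def c35_14_2_n_pf : List Nat := c35_14_2_n_p0

theorem c35_14_2_n_ref {V : Type} {S : SRel V} {p : Nat → V} (hp : ∀ i j, i < 6 → j < 6 → p i = p j → i = j)
    (hts : PHs S p 6 (mA ++ (gf (fun x => 8 + cr 4 x) rf35 ++ (gf (fun x => 8 + c6 2 5 1 3 4 x) f14 ++ fp2.map (tren (n6 2 3 4)))))) : False :=
  refuteS (k := 6) (n2 := 3) (n3 := 1) (n4 := 3) (o3 := 63) (o4 := 119) (M := 812) (mA ++ (gf (fun x => 8 + cr 4 x) rf35 ++ (gf (fun x => 8 + c6 2 5 1 3 4 x) f14 ++ fp2.map (tren (n6 2 3 4))))) c35_14_2_n_pf (by decide +kernel)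
    (by decide +kernel) (by decide +kernel) (by decide +kernel) hp hts

theorem c35_14_2_n {V : Type} {W : Mw V} (h : W.Hy) {a b c d w : V} (nd : [W.z, a, b, c, d, w].Nodup)
    (hr : Hit (mrel0 h.bs) (pt [a, b, c, d] W.z) rf35)
    (hf : Hit (mrel0 h.bs) (v6 W.z b w a c d) f14)
    (hq : ¬ FS (mrel0 h.bs) W.z fp2 b c d) : False :=
  c35_14_2_n_ref (pt_inj (o := W.z) nd rfl) (PHs.app (h.ph rfl _) (PHs.app (gf_ph hr (cr 4) (cr_pt (n := 4) (l := [a, b, c, d]) (l' := [w]) rfl)) (PHs.app (gf_ph hf (c6 2 5 1 3 4) (c6_v6 rfl rfl rfl rfl rfl rfl)) (nf_ph hq (ia := 2) (ib := 3) (ic := 4) rfl rfl rfl rfl))))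

def c35_15_n_n_p0 : List Nat := [
0x42a0d00000009100000008f0000000a70786000401,
0xa840b0000000950000000910000000a70855000401,
0xa8240070000000970000000040249000301,
0x42c0d00000009100000008f0000000a908d3000401,
0xc840b0000000950000000910000000a909ea000401,
0xc82400700000009700000000a03a8000301,
0x2ca0030000000af08f7000201,
0x4c2a0070000000020000000af0411000301,
0xc40a20700000000600000000e0414000301,
0xc4a21b000000012097f000201,
0x2c80030000000b10927000201,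
0x482c0070000000080000000b10381000301,
0x840c20700000000c00000001603c3000301,
0x8ca21d0000000b90042000201,
0x48ca2250000000140000000b90970000301,
0x84c21f00000001c00000001a00000009f00000001e0484000501,
0xa24c8230000000b900000002004ab000301,
0xcacb0000000a90000000a700000009500000009100000009b00000009300000009f0000000990000000180000000100000000220000000b7000d00]

def c35_15_n_n_pf : List Nat := c35_15_n_n_p0

theorem c35_15_n_n_ref {V : Type} {S : SRel V} {p : Nat → V} (hp : ∀ i j, i < 7 → j < 7 → p i = p j → i = j)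
    (hts : PHs S p 7 (mA ++ (gf (fun x => 8 + cr 4 x) rf35 ++ (gf (fun x => 8 + c6 5 6 1 3 4 x) f15 ++ fp2.map (tren (n6 2 3 4)))))) : False :=
  refuteS (k := 7) (n2 := 3) (n3 := 1) (n4 := 3) (o3 := 84) (o4 := 168) (M := 1386) (mA ++ (gf (fun x => 8 + cr 4 x) rf35 ++ (gf (fun x => 8 + c6 5 6 1 3 4 x) f15 ++ fp2.map (tren (n6 2 3 4))))) c35_15_n_n_pf (by decide +kernel)
    (by decide +kernel) (by decide +kernel) (by decide +kernel) hp hts

theorem c35_15_n_n {V : Type} {W : Mw V} (h : W.Hy) {a b c d u w : V} (nd : [W.z, a, b, c, d, u, w].Nodup)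
    (hr : Hit (mrel0 h.bs) (pt [a, b, c, d] W.z) rf35)
    (hf : Hit (mrel0 h.bs) (v6 W.z u w a c d) f15)
    (hq : ¬ FS (mrel0 h.bs) W.z fp2 b c d) : False :=
  c35_15_n_n_ref (pt_inj (o := W.z) nd rfl) (PHs.app (h.ph rfl _) (PHs.app (gf_ph hr (cr 4) (cr_pt (n := 4) (l := [a, b, c, d]) (l' := [u, w]) rfl)) (PHs.app (gf_ph hf (c6 5 6 1 3 4) (c6_v6 rfl rfl rfl rfl rfl rfl)) (nf_ph hq (ia := 2) (ib := 3) (ic := 4) rfl rfl rfl rfl))))

def c35_15_n_2_p0 : List Nat := [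
0xa9000000091000200]

def c35_15_n_2_pf : List Nat := c35_15_n_2_p0

theorem c35_15_n_2_ref {V : Type} {S : SRel V} {p : Nat → V} (hp : ∀ i j, i < 6 → j < 6 → p i = p j → i = j)
    (hts : PHs S p 6 (mA ++ (gf (fun x => 8 + cr 4 x) rf35 ++ (gf (fun x => 8 + c6 5 2 1 3 4 x) f15 ++ fp2.map (tren (n6 2 3 4)))))) : False :=
  refuteS (k := 6) (n2 := 3) (n3 := 1) (n4 := 3) (o3 := 63) (o4 := 119) (M := 812) (mA ++ (gf (fun x => 8 + cr 4 x) rf35 ++ (gf (fun x => 8 + c6 5 2 1 3 4 x) f15 ++ fp2.map (tren (n6 2 3 4))))) c35_15_n_2_pf (by decide +kernel)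
    (by decide +kernel) (by decide +kernel) (by decide +kernel) hp hts

theorem c35_15_n_2 {V : Type} {W : Mw V} (h : W.Hy) {a b c d u : V} (nd : [W.z, a, b, c, d, u].Nodup)
    (hr : Hit (mrel0 h.bs) (pt [a, b, c, d] W.z) rf35)
    (hf : Hit (mrel0 h.bs) (v6 W.z u b a c d) f15)
    (hq : ¬ FS (mrel0 h.bs) W.z fp2 b c d) : False :=
  c35_15_n_2_ref (pt_inj (o := W.z) nd rfl) (PHs.app (h.ph rfl _) (PHs.app (gf_ph hr (cr 4) (cr_pt (n := 4) (l := [a, b, c, d]) (l' := [u]) rfl)) (PHs.app (gf_ph hf (c6 5 2 1 3 4) (c6_v6 rfl rfl rfl rfl rfl rfl)) (nf_ph hq (ia := 2) (ib := 3) (ic := 4) rfl rfl rfl rfl))))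

def c35_15_2_n_p0 : List Nat := [
0xa7000000091000200]

def c35_15_2_n_pf : List Nat := c35_15_2_n_p0

theorem c35_15_2_n_ref {V : Type} {S : SRel V} {p : Nat → V} (hp : ∀ i j, i < 6 → j < 6 → p i = p j → i = j)
    (hts : PHs S p 6 (mA ++ (gf (fun x => 8 + cr 4 x) rf35 ++ (gf (fun x => 8 + c6 2 5 1 3 4 x) f15 ++ fp2.map (tren (n6 2 3 4)))))) : False :=
  refuteS (k := 6) (n2 := 3) (n3 := 1) (n4 := 3) (o3 := 63) (o4 := 119) (M := 812) (mA ++ (gf (fun x => 8 + cr 4 x) rf35 ++ (gf (fun x => 8 + c6 2 5 1 3 4 x) f15 ++ fp2.map (tren (n6 2 3 4))))) c35_15_2_n_pf (by decide +kernel)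
    (by decide +kernel) (by decide +kernel) (by decide +kernel) hp hts

theorem c35_15_2_n {V : Type} {W : Mw V} (h : W.Hy) {a b c d w : V} (nd : [W.z, a, b, c, d, w].Nodup)
    (hr : Hit (mrel0 h.bs) (pt [a, b, c, d] W.z) rf35)
    (hf : Hit (mrel0 h.bs) (v6 W.z b w a c d) f15)
    (hq : ¬ FS (mrel0 h.bs) W.z fp2 b c d) : False :=
  c35_15_2_n_ref (pt_inj (o := W.z) nd rfl) (PHs.app (h.ph rfl _) (PHs.app (gf_ph hr (cr 4) (cr_pt (n := 4) (l := [a, b, c, d]) (l' := [w]) rfl)) (PHs.app (gf_ph hf (c6 2 5 1 3 4) (c6_v6 rfl rfl rfl rfl rfl rfl)) (nf_ph hq (ia := 2) (ib := 3) (ic := 4) rfl rfl rfl rfl))))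

def c35_16_n_n_p0 : List Nat := [
0x4280d00000009100000008f00000009506c3000401,
0x84200300000009706ff000201,
0x260840700000000400000009901a7000301,
0x42a0d00000009100000008f0000000a90786000401,
0xc840b0000000950000000910000000ab09ea000401,
0xc860b0000000950000000930000000ab09f3000401,
0xc82400700000009700000000a03a8000301,
0xc84600700000009900000000c03f6000301,
0x2a80030000000af079b000201,
0x4a280070000000020000000af0291000301,
0xa4082070000000970000000120294000301,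
0xa40c20500000000e0000000b1093c000301,
0x4c2a0070000000080000000b10411000301,
0xc82a40700000001600000001804aa000301,
0x8a421d0000000b70859000201,
0x4c861d0000000b90976000201,
0xa8c310000000ab0000000a90000000950000000bb004b000501,
0xca864770000000ab0000000b90000000a900000009500000009100000009b00000009300000001400000001a0000000100000000bb0a54000c01,
0x2c300000009500000008f00000009100000009b00000009300000009f00000009700000009906f1000901,
0x2c500000009500000008f00000009100000009b00000009300000009d00000009f0000000970000000990015000a01,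
0x84621f00000002600000009f00000000600000002801c6000501,
0xac68242700000002000000001e00000002a0988000401,
0xc8a41f00000002400000002200000001c00000002c059d000501,
0xcacf0000000ab0000000b90000000a900000002e00000009500000009100000009b00000009300000009f0000000140000000bb00000001000000001a000e00]

def c35_16_n_n_pf : List Nat := c35_16_n_n_p0

theorem c35_16_n_n_ref {V : Type} {S : SRel V} {p : Nat → V} (hp : ∀ i j, i < 7 → j < 7 → p i = p j → i = j)
    (hts : PHs S p 7 (mA ++ (gf (fun x => 8 + cr 4 x) rf35 ++ (gf (fun x => 8 + c6 5 6 1 3 4 x) f16 ++ fp2.map (tren (n6 2 3 4)))))) : False :=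
  refuteS (k := 7) (n2 := 3) (n3 := 1) (n4 := 3) (o3 := 84) (o4 := 168) (M := 1386) (mA ++ (gf (fun x => 8 + cr 4 x) rf35 ++ (gf (fun x => 8 + c6 5 6 1 3 4 x) f16 ++ fp2.map (tren (n6 2 3 4))))) c35_16_n_n_pf (by decide +kernel)
    (by decide +kernel) (by decide +kernel) (by decide +kernel) hp hts

theorem c35_16_n_n {V : Type} {W : Mw V} (h : W.Hy) {a b c d u w : V} (nd : [W.z, a, b, c, d, u, w].Nodup)
    (hr : Hit (mrel0 h.bs) (pt [a, b, c, d] W.z) rf35)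
    (hf : Hit (mrel0 h.bs) (v6 W.z u w a c d) f16)
    (hq : ¬ FS (mrel0 h.bs) W.z fp2 b c d) : False :=
  c35_16_n_n_ref (pt_inj (o := W.z) nd rfl) (PHs.app (h.ph rfl _) (PHs.app (gf_ph hr (cr 4) (cr_pt (n := 4) (l := [a, b, c, d]) (l' := [u, w]) rfl)) (PHs.app (gf_ph hf (c6 5 6 1 3 4) (c6_v6 rfl rfl rfl rfl rfl rfl)) (nf_ph hq (ia := 2) (ib := 3) (ic := 4) rfl rfl rfl rfl))))

def c35_16_n_2_p0 : List Nat := [
0xab000000091000200]

def c35_16_n_2_pf : List Nat := c35_16_n_2_p0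

theorem c35_16_n_2_ref {V : Type} {S : SRel V} {p : Nat → V} (hp : ∀ i j, i < 6 → j < 6 → p i = p j → i = j)
    (hts : PHs S p 6 (mA ++ (gf (fun x => 8 + cr 4 x) rf35 ++ (gf (fun x => 8 + c6 5 2 1 3 4 x) f16 ++ fp2.map (tren (n6 2 3 4)))))) : False :=
  refuteS (k := 6) (n2 := 3) (n3 := 1) (n4 := 3) (o3 := 63) (o4 := 119) (M := 812) (mA ++ (gf (fun x => 8 + cr 4 x) rf35 ++ (gf (fun x => 8 + c6 5 2 1 3 4 x) f16 ++ fp2.map (tren (n6 2 3 4))))) c35_16_n_2_pf (by decide +kernel)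
    (by decide +kernel) (by decide +kernel) (by decide +kernel) hp hts

theorem c35_16_n_2 {V : Type} {W : Mw V} (h : W.Hy) {a b c d u : V} (nd : [W.z, a, b, c, d, u].Nodup)
    (hr : Hit (mrel0 h.bs) (pt [a, b, c, d] W.z) rf35)
    (hf : Hit (mrel0 h.bs) (v6 W.z u b a c d) f16)
    (hq : ¬ FS (mrel0 h.bs) W.z fp2 b c d) : False :=
  c35_16_n_2_ref (pt_inj (o := W.z) nd rfl) (PHs.app (h.ph rfl _) (PHs.app (gf_ph hr (cr 4) (cr_pt (n := 4) (l := [a, b, c, d]) (l' := [u]) rfl)) (PHs.app (gf_ph hf (c6 5 2 1 3 4) (c6_v6 rfl rfl rfl rfl rfl rfl)) (nf_ph hq (ia := 2) (ib := 3) (ic := 4) rfl rfl rfl rfl))))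

def c35_16_2_n_p0 : List Nat := [
0xa9000000091000200]

def c35_16_2_n_pf : List Nat := c35_16_2_n_p0

theorem c35_16_2_n_ref {V : Type} {S : SRel V} {p : Nat → V} (hp : ∀ i j, i < 6 → j < 6 → p i = p j → i = j)
    (hts : PHs S p 6 (mA ++ (gf (fun x => 8 + cr 4 x) rf35 ++ (gf (fun x => 8 + c6 2 5 1 3 4 x) f16 ++ fp2.map (tren (n6 2 3 4)))))) : False :=
  refuteS (k := 6) (n2 := 3) (n3 := 1) (n4 := 3) (o3 := 63) (o4 := 119) (M := 812) (mA ++ (gf (fun x => 8 + cr 4 x) rf35 ++ (gf (fun x => 8 + c6 2 5 1 3 4 x) f16 ++ fp2.map (tren (n6 2 3 4))))) c35_16_2_n_pf (by decide +kernel)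
    (by decide +kernel) (by decide +kernel) (by decide +kernel) hp hts

theorem c35_16_2_n {V : Type} {W : Mw V} (h : W.Hy) {a b c d w : V} (nd : [W.z, a, b, c, d, w].Nodup)
    (hr : Hit (mrel0 h.bs) (pt [a, b, c, d] W.z) rf35)
    (hf : Hit (mrel0 h.bs) (v6 W.z b w a c d) f16)
    (hq : ¬ FS (mrel0 h.bs) W.z fp2 b c d) : False :=
  c35_16_2_n_ref (pt_inj (o := W.z) nd rfl) (PHs.app (h.ph rfl _) (PHs.app (gf_ph hr (cr 4) (cr_pt (n := 4) (l := [a, b, c, d]) (l' := [w]) rfl)) (PHs.app (gf_ph hf (c6 2 5 1 3 4) (c6_v6 rfl rfl rfl rfl rfl rfl)) (nf_ph hq (ia := 2) (ib := 3) (ic := 4) rfl rfl rfl rfl))))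

def c35_17_n_n_p0 : List Nat := [
0x4280d00000009100000008f00000009506c3000401,
0x864003000000099072c000201,
0x68240070000000970000000040105000301,
0x42a0d00000009100000008f0000000a90786000401,
0x42c0d00000009100000008f0000000ab08d3000401,
0x62c0d00000009300000008f0000000ab08dc000401,
0xc860b0000000950000000930000000ab09f3000401,
0xc40620700000000600000000c03f9000301,
0xc84600700000009900000000e03f6000301,
0xc4621b0000000100964000201,
0x2a80030000000af079b000201,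
0x4a280070000000020000000af0291000301,
0x2ca0030000000b108f7000201,
0x4c2a0070000000080000000b10411000301,
0x8c2a0070000000160000000b104a4000301,
0x2a4c00700000000a00000001a08fa000301,
0x8ca00300000001e0900000201,
0xa84c00700000002200000002008eb000301,
0xc6084070000000990000000240450000301,
0x8c261d0000000bb0048000201,
0x48c26250000000140000000bb0976000301,
0xc6841f00000002800000002600000009f00000002a0490000501,
0xcad10000000ab0000000a90000000b700000009500000009100000009b00000009300000009f0000000180000000b900000001200000001c00000002c000e00]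

def c35_17_n_n_pf : List Nat := c35_17_n_n_p0

theorem c35_17_n_n_ref {V : Type} {S : SRel V} {p : Nat → V} (hp : ∀ i j, i < 7 → j < 7 → p i = p j → i = j)
    (hts : PHs S p 7 (mA ++ (gf (fun x => 8 + cr 4 x) rf35 ++ (gf (fun x => 8 + c6 5 6 1 3 4 x) f17 ++ fp2.map (tren (n6 2 3 4)))))) : False :=
  refuteS (k := 7) (n2 := 3) (n3 := 1) (n4 := 3) (o3 := 84) (o4 := 168) (M := 1386) (mA ++ (gf (fun x => 8 + cr 4 x) rf35 ++ (gf (fun x => 8 + c6 5 6 1 3 4 x) f17 ++ fp2.map (tren (n6 2 3 4))))) c35_17_n_n_pf (by decide +kernel)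
    (by decide +kernel) (by decide +kernel) (by decide +kernel) hp hts

theorem c35_17_n_n {V : Type} {W : Mw V} (h : W.Hy) {a b c d u w : V} (nd : [W.z, a, b, c, d, u, w].Nodup)
    (hr : Hit (mrel0 h.bs) (pt [a, b, c, d] W.z) rf35)
    (hf : Hit (mrel0 h.bs) (v6 W.z u w a c d) f17)
    (hq : ¬ FS (mrel0 h.bs) W.z fp2 b c d) : False :=
  c35_17_n_n_ref (pt_inj (o := W.z) nd rfl) (PHs.app (h.ph rfl _) (PHs.app (gf_ph hr (cr 4) (cr_pt (n := 4) (l := [a, b, c, d]) (l' := [u, w]) rfl)) (PHs.app (gf_ph hf (c6 5 6 1 3 4) (c6_v6 rfl rfl rfl rfl rfl rfl)) (nf_ph hq (ia := 2) (ib := 3) (ic := 4) rfl rfl rfl rfl))))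

def c35_17_n_2_p0 : List Nat := [
0xab000000091000200]

def c35_17_n_2_pf : List Nat := c35_17_n_2_p0

theorem c35_17_n_2_ref {V : Type} {S : SRel V} {p : Nat → V} (hp : ∀ i j, i < 6 → j < 6 → p i = p j → i = j)
    (hts : PHs S p 6 (mA ++ (gf (fun x => 8 + cr 4 x) rf35 ++ (gf (fun x => 8 + c6 5 2 1 3 4 x) f17 ++ fp2.map (tren (n6 2 3 4)))))) : False :=
  refuteS (k := 6) (n2 := 3) (n3 := 1) (n4 := 3) (o3 := 63) (o4 := 119) (M := 812) (mA ++ (gf (fun x => 8 + cr 4 x) rf35 ++ (gf (fun x => 8 + c6 5 2 1 3 4 x) f17 ++ fp2.map (tren (n6 2 3 4))))) c35_17_n_2_pf (by decide +kernel)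
    (by decide +kernel) (by decide +kernel) (by decide +kernel) hp hts

theorem c35_17_n_2 {V : Type} {W : Mw V} (h : W.Hy) {a b c d u : V} (nd : [W.z, a, b, c, d, u].Nodup)
    (hr : Hit (mrel0 h.bs) (pt [a, b, c, d] W.z) rf35)
    (hf : Hit (mrel0 h.bs) (v6 W.z u b a c d) f17)
    (hq : ¬ FS (mrel0 h.bs) W.z fp2 b c d) : False :=
  c35_17_n_2_ref (pt_inj (o := W.z) nd rfl) (PHs.app (h.ph rfl _) (PHs.app (gf_ph hr (cr 4) (cr_pt (n := 4) (l := [a, b, c, d]) (l' := [u]) rfl)) (PHs.app (gf_ph hf (c6 5 2 1 3 4) (c6_v6 rfl rfl rfl rfl rfl rfl)) (nf_ph hq (ia := 2) (ib := 3) (ic := 4) rfl rfl rfl rfl))))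

def c35_17_2_n_p0 : List Nat := [
0xa9000000091000200]

def c35_17_2_n_pf : List Nat := c35_17_2_n_p0

theorem c35_17_2_n_ref {V : Type} {S : SRel V} {p : Nat → V} (hp : ∀ i j, i < 6 → j < 6 → p i = p j → i = j)
    (hts : PHs S p 6 (mA ++ (gf (fun x => 8 + cr 4 x) rf35 ++ (gf (fun x => 8 + c6 2 5 1 3 4 x) f17 ++ fp2.map (tren (n6 2 3 4)))))) : False :=
  refuteS (k := 6) (n2 := 3) (n3 := 1) (n4 := 3) (o3 := 63) (o4 := 119) (M := 812) (mA ++ (gf (fun x => 8 + cr 4 x) rf35 ++ (gf (fun x => 8 + c6 2 5 1 3 4 x) f17 ++ fp2.map (tren (n6 2 3 4))))) c35_17_2_n_pf (by decide +kernel)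
    (by decide +kernel) (by decide +kernel) (by decide +kernel) hp hts

theorem c35_17_2_n {V : Type} {W : Mw V} (h : W.Hy) {a b c d w : V} (nd : [W.z, a, b, c, d, w].Nodup)
    (hr : Hit (mrel0 h.bs) (pt [a, b, c, d] W.z) rf35)
    (hf : Hit (mrel0 h.bs) (v6 W.z b w a c d) f17)
    (hq : ¬ FS (mrel0 h.bs) W.z fp2 b c d) : False :=
  c35_17_2_n_ref (pt_inj (o := W.z) nd rfl) (PHs.app (h.ph rfl _) (PHs.app (gf_ph hr (cr 4) (cr_pt (n := 4) (l := [a, b, c, d]) (l' := [w]) rfl)) (PHs.app (gf_ph hf (c6 2 5 1 3 4) (c6_v6 rfl rfl rfl rfl rfl rfl)) (nf_ph hq (ia := 2) (ib := 3) (ic := 4) rfl rfl rfl rfl))))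

def c35_18_n_n_p0 : List Nat := [
0x4280d00000009100000008f00000009506c3000401,
0x864003000000099072c000201,
0x68240070000000970000000040105000301,
0x42a0d00000009100000008f0000000a90786000401,
0x42c0d00000009100000008f0000000ab08d3000401,
0x62c0d00000009300000008f0000000ab08dc000401,
0xc860b0000000950000000930000000ab09f3000401,
0xc40620700000000600000000c03f9000301,
0xc84600700000009900000000e03f6000301,
0xc4621b0000000100964000201,
0x2a80030000000af079b000201,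
0x4a280070000000020000000af0291000301,
0x2ca0030000000b108f7000201,
0x4c2a0070000000080000000b10411000301,
0x8c2a0070000000160000000b104a4000301,
0x2a4c00700000000a00000001a08fa000301,
0x8ca00300000001e0900000201,
0xa84c00700000002200000002008eb000301,
0xc6084070000000990000000240450000301,
0x8c261d0000000b90048000201,
0x48c26250000000140000000b90976000301,
0xc6841f00000002800000002600000009f00000002a0490000501,
0xcad30000000ab0000000a900000009500000009100000009b00000009300000009f0000000180000000b700000001200000001c00000002c0000000bb000e00]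

def c35_18_n_n_pf : List Nat := c35_18_n_n_p0

theorem c35_18_n_n_ref {V : Type} {S : SRel V} {p : Nat → V} (hp : ∀ i j, i < 7 → j < 7 → p i = p j → i = j)
    (hts : PHs S p 7 (mA ++ (gf (fun x => 8 + cr 4 x) rf35 ++ (gf (fun x => 8 + c6 5 6 1 3 4 x) f18 ++ fp2.map (tren (n6 2 3 4)))))) : False :=
  refuteS (k := 7) (n2 := 3) (n3 := 1) (n4 := 3) (o3 := 84) (o4 := 168) (M := 1386) (mA ++ (gf (fun x => 8 + cr 4 x) rf35 ++ (gf (fun x => 8 + c6 5 6 1 3 4 x) f18 ++ fp2.map (tren (n6 2 3 4))))) c35_18_n_n_pf (by decide +kernel)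
    (by decide +kernel) (by decide +kernel) (by decide +kernel) hp hts

theorem c35_18_n_n {V : Type} {W : Mw V} (h : W.Hy) {a b c d u w : V} (nd : [W.z, a, b, c, d, u, w].Nodup)
    (hr : Hit (mrel0 h.bs) (pt [a, b, c, d] W.z) rf35)
    (hf : Hit (mrel0 h.bs) (v6 W.z u w a c d) f18)
    (hq : ¬ FS (mrel0 h.bs) W.z fp2 b c d) : False :=
  c35_18_n_n_ref (pt_inj (o := W.z) nd rfl) (PHs.app (h.ph rfl _) (PHs.app (gf_ph hr (cr 4) (cr_pt (n := 4) (l := [a, b, c, d]) (l' := [u, w]) rfl)) (PHs.app (gf_ph hf (c6 5 6 1 3 4) (c6_v6 rfl rfl rfl rfl rfl rfl)) (nf_ph hq (ia := 2) (ib := 3) (ic := 4) rfl rfl rfl rfl))))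

def c35_18_n_2_p0 : List Nat := [
0xab000000091000200]

def c35_18_n_2_pf : List Nat := c35_18_n_2_p0

theorem c35_18_n_2_ref {V : Type} {S : SRel V} {p : Nat → V} (hp : ∀ i j, i < 6 → j < 6 → p i = p j → i = j)
    (hts : PHs S p 6 (mA ++ (gf (fun x => 8 + cr 4 x) rf35 ++ (gf (fun x => 8 + c6 5 2 1 3 4 x) f18 ++ fp2.map (tren (n6 2 3 4)))))) : False :=
  refuteS (k := 6) (n2 := 3) (n3 := 1) (n4 := 3) (o3 := 63) (o4 := 119) (M := 812) (mA ++ (gf (fun x => 8 + cr 4 x) rf35 ++ (gf (fun x => 8 + c6 5 2 1 3 4 x) f18 ++ fp2.map (tren (n6 2 3 4))))) c35_18_n_2_pf (by decide +kernel)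
    (by decide +kernel) (by decide +kernel) (by decide +kernel) hp hts

theorem c35_18_n_2 {V : Type} {W : Mw V} (h : W.Hy) {a b c d u : V} (nd : [W.z, a, b, c, d, u].Nodup)
    (hr : Hit (mrel0 h.bs) (pt [a, b, c, d] W.z) rf35)
    (hf : Hit (mrel0 h.bs) (v6 W.z u b a c d) f18)
    (hq : ¬ FS (mrel0 h.bs) W.z fp2 b c d) : False :=
  c35_18_n_2_ref (pt_inj (o := W.z) nd rfl) (PHs.app (h.ph rfl _) (PHs.app (gf_ph hr (cr 4) (cr_pt (n := 4) (l := [a, b, c, d]) (l' := [u]) rfl)) (PHs.app (gf_ph hf (c6 5 2 1 3 4) (c6_v6 rfl rfl rfl rfl rfl rfl)) (nf_ph hq (ia := 2) (ib := 3) (ic := 4) rfl rfl rfl rfl))))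

def c35_18_2_n_p0 : List Nat := [
0xa9000000091000200]

def c35_18_2_n_pf : List Nat := c35_18_2_n_p0

theorem c35_18_2_n_ref {V : Type} {S : SRel V} {p : Nat → V} (hp : ∀ i j, i < 6 → j < 6 → p i = p j → i = j)
    (hts : PHs S p 6 (mA ++ (gf (fun x => 8 + cr 4 x) rf35 ++ (gf (fun x => 8 + c6 2 5 1 3 4 x) f18 ++ fp2.map (tren (n6 2 3 4)))))) : False :=
  refuteS (k := 6) (n2 := 3) (n3 := 1) (n4 := 3) (o3 := 63) (o4 := 119) (M := 812) (mA ++ (gf (fun x => 8 + cr 4 x) rf35 ++ (gf (fun x => 8 + c6 2 5 1 3 4 x) f18 ++ fp2.map (tren (n6 2 3 4))))) c35_18_2_n_pf (by decide +kernel)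
    (by decide +kernel) (by decide +kernel) (by decide +kernel) hp hts

theorem c35_18_2_n {V : Type} {W : Mw V} (h : W.Hy) {a b c d w : V} (nd : [W.z, a, b, c, d, w].Nodup)
    (hr : Hit (mrel0 h.bs) (pt [a, b, c, d] W.z) rf35)
    (hf : Hit (mrel0 h.bs) (v6 W.z b w a c d) f18)
    (hq : ¬ FS (mrel0 h.bs) W.z fp2 b c d) : False :=
  c35_18_2_n_ref (pt_inj (o := W.z) nd rfl) (PHs.app (h.ph rfl _) (PHs.app (gf_ph hr (cr 4) (cr_pt (n := 4) (l := [a, b, c, d]) (l' := [w]) rfl)) (PHs.app (gf_ph hf (c6 2 5 1 3 4) (c6_v6 rfl rfl rfl rfl rfl rfl)) (nf_ph hq (ia := 2) (ib := 3) (ic := 4) rfl rfl rfl rfl))))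

def c35_19_n_n_p0 : List Nat := [
0x84200300000009706ff000201,
0x260840700000000200000009901a7000301,
0x2a681d0000000b707d2000201,
0x4a681d0000000b70805000201,
0x6ca81d0000000bb09d0000201,
0xc6a21d0000000bf0015000201,
0x2ac61d0000000bf0036000201,
0x2c700000009500000008f00000009100000009b00000009300000009f00000009700000009906f1000901,
0x84621f00000000c00000009f00000000400000001001c6000501,
0x846a22500000000600000001207c3000301,
0xca8642270000000bf0000000060000000120439000401,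
0x2c8a462700000000a0000000bf0000000140865000401,
0xa24c6230000000bf0000000160460000301,
0xa6841f00000000e00000000800000009f0000000180837000501,
0xa60840700000009900000001c0234000301,
0xcad90000000bb0000000b90000000b700000009500000009100000009b00000009300000009f0000000bd0000000a50000000a700000001e0000000af00000001a0000000b1001000]

def c35_19_n_n_pf : List Nat := c35_19_n_n_p0

theorem c35_19_n_n_ref {V : Type} {S : SRel V} {p : Nat → V} (hp : ∀ i j, i < 7 → j < 7 → p i = p j → i = j)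
    (hts : PHs S p 7 (mA ++ (gf (fun x => 8 + cr 4 x) rf35 ++ (gf (fun x => 8 + c6 5 6 1 3 4 x) f19 ++ fp2.map (tren (n6 2 3 4)))))) : False :=
  refuteS (k := 7) (n2 := 3) (n3 := 1) (n4 := 3) (o3 := 84) (o4 := 168) (M := 1386) (mA ++ (gf (fun x => 8 + cr 4 x) rf35 ++ (gf (fun x => 8 + c6 5 6 1 3 4 x) f19 ++ fp2.map (tren (n6 2 3 4))))) c35_19_n_n_pf (by decide +kernel)
    (by decide +kernel) (by decide +kernel) (by decide +kernel) hp hts

theorem c35_19_n_n {V : Type} {W : Mw V} (h : W.Hy) {a b c d u w : V} (nd : [W.z, a, b, c, d, u, w].Nodup)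
    (hr : Hit (mrel0 h.bs) (pt [a, b, c, d] W.z) rf35)
    (hf : Hit (mrel0 h.bs) (v6 W.z u w a c d) f19)
    (hq : ¬ FS (mrel0 h.bs) W.z fp2 b c d) : False :=
  c35_19_n_n_ref (pt_inj (o := W.z) nd rfl) (PHs.app (h.ph rfl _) (PHs.app (gf_ph hr (cr 4) (cr_pt (n := 4) (l := [a, b, c, d]) (l' := [u, w]) rfl)) (PHs.app (gf_ph hf (c6 5 6 1 3 4) (c6_v6 rfl rfl rfl rfl rfl rfl)) (nf_ph hq (ia := 2) (ib := 3) (ic := 4) rfl rfl rfl rfl))))

def c35_19_n_2_p0 : List Nat := [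
0xbb00000009f000200]

def c35_19_n_2_pf : List Nat := c35_19_n_2_p0

theorem c35_19_n_2_ref {V : Type} {S : SRel V} {p : Nat → V} (hp : ∀ i j, i < 6 → j < 6 → p i = p j → i = j)
    (hts : PHs S p 6 (mA ++ (gf (fun x => 8 + cr 4 x) rf35 ++ (gf (fun x => 8 + c6 5 2 1 3 4 x) f19 ++ fp2.map (tren (n6 2 3 4)))))) : False :=
  refuteS (k := 6) (n2 := 3) (n3 := 1) (n4 := 3) (o3 := 63) (o4 := 119) (M := 812) (mA ++ (gf (fun x => 8 + cr 4 x) rf35 ++ (gf (fun x => 8 + c6 5 2 1 3 4 x) f19 ++ fp2.map (tren (n6 2 3 4))))) c35_19_n_2_pf (by decide +kernel)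
    (by decide +kernel) (by decide +kernel) (by decide +kernel) hp hts

theorem c35_19_n_2 {V : Type} {W : Mw V} (h : W.Hy) {a b c d u : V} (nd : [W.z, a, b, c, d, u].Nodup)
    (hr : Hit (mrel0 h.bs) (pt [a, b, c, d] W.z) rf35)
    (hf : Hit (mrel0 h.bs) (v6 W.z u b a c d) f19)
    (hq : ¬ FS (mrel0 h.bs) W.z fp2 b c d) : False :=
  c35_19_n_2_ref (pt_inj (o := W.z) nd rfl) (PHs.app (h.ph rfl _) (PHs.app (gf_ph hr (cr 4) (cr_pt (n := 4) (l := [a, b, c, d]) (l' := [u]) rfl)) (PHs.app (gf_ph hf (c6 5 2 1 3 4) (c6_v6 rfl rfl rfl rfl rfl rfl)) (nf_ph hq (ia := 2) (ib := 3) (ic := 4) rfl rfl rfl rfl))))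

def c35_19_2_n_p0 : List Nat := [
0xb700000009f000200]

def c35_19_2_n_pf : List Nat := c35_19_2_n_p0

theorem c35_19_2_n_ref {V : Type} {S : SRel V} {p : Nat → V} (hp : ∀ i j, i < 6 → j < 6 → p i = p j → i = j)
    (hts : PHs S p 6 (mA ++ (gf (fun x => 8 + cr 4 x) rf35 ++ (gf (fun x => 8 + c6 2 5 1 3 4 x) f19 ++ fp2.map (tren (n6 2 3 4)))))) : False :=
  refuteS (k := 6) (n2 := 3) (n3 := 1) (n4 := 3) (o3 := 63) (o4 := 119) (M := 812) (mA ++ (gf (fun x => 8 + cr 4 x) rf35 ++ (gf (fun x => 8 + c6 2 5 1 3 4 x) f19 ++ fp2.map (tren (n6 2 3 4))))) c35_19_2_n_pf (by decide +kernel)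
    (by decide +kernel) (by decide +kernel) (by decide +kernel) hp hts

theorem c35_19_2_n {V : Type} {W : Mw V} (h : W.Hy) {a b c d w : V} (nd : [W.z, a, b, c, d, w].Nodup)
    (hr : Hit (mrel0 h.bs) (pt [a, b, c, d] W.z) rf35)
    (hf : Hit (mrel0 h.bs) (v6 W.z b w a c d) f19)
    (hq : ¬ FS (mrel0 h.bs) W.z fp2 b c d) : False :=
  c35_19_2_n_ref (pt_inj (o := W.z) nd rfl) (PHs.app (h.ph rfl _) (PHs.app (gf_ph hr (cr 4) (cr_pt (n := 4) (l := [a, b, c, d]) (l' := [w]) rfl)) (PHs.app (gf_ph hf (c6 2 5 1 3 4) (c6_v6 rfl rfl rfl rfl rfl rfl)) (nf_ph hq (ia := 2) (ib := 3) (ic := 4) rfl rfl rfl rfl))))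

def c35_20_n_n_p0 : List Nat := [
0x84200300000009706ff000201,
0x260840700000000200000009901a7000301,
0x8c130000000a70000000950000000b705b5000401,
0x6ca81d00000000609d0000201,
0x2a681d0000000b907d2000201,
0x4a681d0000000b90805000201,
0xc6a21d0000000bb0015000201,
0x2ac61d0000000bb0036000201,
0x2c300000009500000008f00000009100000009b00000009300000009f00000009700000009906f1000901,
0x84621f00000000e00000009f00000000400000001201c6000501,
0x846a22500000000a00000001407c3000301,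
0xca8642270000000bb00000000a0000000140439000401,
0x2c8a46270000000080000000bb0000000160865000401,
0xa24c6230000000bb0000000180460000301,
0xa6841f00000001000000000c00000009f00000001a0837000501,
0xa60840700000009900000001e0234000301,
0xcad70000000b70000000b900000009500000009100000009b00000009300000009f0000000a50000000a70000000200000000af00000001c0000000b1000e00]

def c35_20_n_n_pf : List Nat := c35_20_n_n_p0

theorem c35_20_n_n_ref {V : Type} {S : SRel V} {p : Nat → V} (hp : ∀ i j, i < 7 → j < 7 → p i = p j → i = j)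
    (hts : PHs S p 7 (mA ++ (gf (fun x => 8 + cr 4 x) rf35 ++ (gf (fun x => 8 + c6 5 6 1 3 4 x) f20 ++ fp2.map (tren (n6 2 3 4)))))) : False :=
  refuteS (k := 7) (n2 := 3) (n3 := 1) (n4 := 3) (o3 := 84) (o4 := 168) (M := 1386) (mA ++ (gf (fun x => 8 + cr 4 x) rf35 ++ (gf (fun x => 8 + c6 5 6 1 3 4 x) f20 ++ fp2.map (tren (n6 2 3 4))))) c35_20_n_n_pf (by decide +kernel)
    (by decide +kernel) (by decide +kernel) (by decide +kernel) hp hts

theorem c35_20_n_n {V : Type} {W : Mw V} (h : W.Hy) {a b c d u w : V} (nd : [W.z, a, b, c, d, u, w].Nodup)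
    (hr : Hit (mrel0 h.bs) (pt [a, b, c, d] W.z) rf35)
    (hf : Hit (mrel0 h.bs) (v6 W.z u w a c d) f20)
    (hq : ¬ FS (mrel0 h.bs) W.z fp2 b c d) : False :=
  c35_20_n_n_ref (pt_inj (o := W.z) nd rfl) (PHs.app (h.ph rfl _) (PHs.app (gf_ph hr (cr 4) (cr_pt (n := 4) (l := [a, b, c, d]) (l' := [u, w]) rfl)) (PHs.app (gf_ph hf (c6 5 6 1 3 4) (c6_v6 rfl rfl rfl rfl rfl rfl)) (nf_ph hq (ia := 2) (ib := 3) (ic := 4) rfl rfl rfl rfl))))

def c35_20_n_2_p0 : List Nat := [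
0x841300000009500000009100000009f0009000401,
0xb7000000002000200]

def c35_20_n_2_pf : List Nat := c35_20_n_2_p0

theorem c35_20_n_2_ref {V : Type} {S : SRel V} {p : Nat → V} (hp : ∀ i j, i < 6 → j < 6 → p i = p j → i = j)
    (hts : PHs S p 6 (mA ++ (gf (fun x => 8 + cr 4 x) rf35 ++ (gf (fun x => 8 + c6 5 2 1 3 4 x) f20 ++ fp2.map (tren (n6 2 3 4)))))) : False :=
  refuteS (k := 6) (n2 := 3) (n3 := 1) (n4 := 3) (o3 := 63) (o4 := 119) (M := 812) (mA ++ (gf (fun x => 8 + cr 4 x) rf35 ++ (gf (fun x => 8 + c6 5 2 1 3 4 x) f20 ++ fp2.map (tren (n6 2 3 4))))) c35_20_n_2_pf (by decide +kernel)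
    (by decide +kernel) (by decide +kernel) (by decide +kernel) hp hts

theorem c35_20_n_2 {V : Type} {W : Mw V} (h : W.Hy) {a b c d u : V} (nd : [W.z, a, b, c, d, u].Nodup)
    (hr : Hit (mrel0 h.bs) (pt [a, b, c, d] W.z) rf35)
    (hf : Hit (mrel0 h.bs) (v6 W.z u b a c d) f20)
    (hq : ¬ FS (mrel0 h.bs) W.z fp2 b c d) : False :=
  c35_20_n_2_ref (pt_inj (o := W.z) nd rfl) (PHs.app (h.ph rfl _) (PHs.app (gf_ph hr (cr 4) (cr_pt (n := 4) (l := [a, b, c, d]) (l' := [u]) rfl)) (PHs.app (gf_ph hf (c6 5 2 1 3 4) (c6_v6 rfl rfl rfl rfl rfl rfl)) (nf_ph hq (ia := 2) (ib := 3) (ic := 4) rfl rfl rfl rfl))))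

def c35_20_2_n_p0 : List Nat := [
0xb900000009f000200]

def c35_20_2_n_pf : List Nat := c35_20_2_n_p0

theorem c35_20_2_n_ref {V : Type} {S : SRel V} {p : Nat → V} (hp : ∀ i j, i < 6 → j < 6 → p i = p j → i = j)
    (hts : PHs S p 6 (mA ++ (gf (fun x => 8 + cr 4 x) rf35 ++ (gf (fun x => 8 + c6 2 5 1 3 4 x) f20 ++ fp2.map (tren (n6 2 3 4)))))) : False :=
  refuteS (k := 6) (n2 := 3) (n3 := 1) (n4 := 3) (o3 := 63) (o4 := 119) (M := 812) (mA ++ (gf (fun x => 8 + cr 4 x) rf35 ++ (gf (fun x => 8 + c6 2 5 1 3 4 x) f20 ++ fp2.map (tren (n6 2 3 4))))) c35_20_2_n_pf (by decide +kernel)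
    (by decide +kernel) (by decide +kernel) (by decide +kernel) hp hts

theorem c35_20_2_n {V : Type} {W : Mw V} (h : W.Hy) {a b c d w : V} (nd : [W.z, a, b, c, d, w].Nodup)
    (hr : Hit (mrel0 h.bs) (pt [a, b, c, d] W.z) rf35)
    (hf : Hit (mrel0 h.bs) (v6 W.z b w a c d) f20)
    (hq : ¬ FS (mrel0 h.bs) W.z fp2 b c d) : False :=
  c35_20_2_n_ref (pt_inj (o := W.z) nd rfl) (PHs.app (h.ph rfl _) (PHs.app (gf_ph hr (cr 4) (cr_pt (n := 4) (l := [a, b, c, d]) (l' := [w]) rfl)) (PHs.app (gf_ph hf (c6 2 5 1 3 4) (c6_v6 rfl rfl rfl rfl rfl rfl)) (nf_ph hq (ia := 2) (ib := 3) (ic := 4) rfl rfl rfl rfl))))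

theorem P35_1 {V : Type} {W : Mw V} (h : W.Hy) {a b c d u w : V} (nd : [W.z, a, b, c, d].Nodup)
    (hr : Hit (mrel0 h.bs) (pt [a, b, c, d] W.z) rf35)
    (hf : Hit (mrel0 h.bs) (v6 W.z u w a c d) f1) (hq : ¬ FS (mrel0 h.bs) W.z fp2 b c d) : False := by
  exact c35_1 h nd hr (hit00 (by decide) hf) hq

theorem P35_6 {V : Type} {W : Mw V} (h : W.Hy) {a b c d u w : V} (nd : [W.z, a, b, c, d].Nodup)
    (hr : Hit (mrel0 h.bs) (pt [a, b, c, d] W.z) rf35)
    (hf : Hit (mrel0 h.bs) (v6 W.z u w a c d) f6) (hq : ¬ FS (mrel0 h.bs) W.z fp2 b c d) : False := by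
  have hf := hit01 (by decide) hf
  have hs := hn1 hf rfl
  by_cases ib : u = b
  · subst ib
    exact c35_6_2 h nd hr hf hq
  exact c35_6_n h (nd_snoc nd (nin5 hs.1 hs.2.1 ib hs.2.2.1 hs.2.2.2)) hr hf hq

theorem P35_7 {V : Type} {W : Mw V} (h : W.Hy) {a b c d u w : V} (nd : [W.z, a, b, c, d].Nodup)
    (hr : Hit (mrel0 h.bs) (pt [a, b, c, d] W.z) rf35)
    (hf : Hit (mrel0 h.bs) (v6 W.z u w a c d) f7) (hq : ¬ FS (mrel0 h.bs) W.z fp2 b c d) : False := by
  have hf := hit01 (by decide) hf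
  have hs := hn1 hf rfl
  by_cases ib : u = b
  · subst ib
    exact c35_7_2 h nd hr hf hq
  exact c35_7_n h (nd_snoc nd (nin5 hs.1 hs.2.1 ib hs.2.2.1 hs.2.2.2)) hr hf hq

theorem P35_10 {V : Type} {W : Mw V} (h : W.Hy) {a b c d u w : V} (nd : [W.z, a, b, c, d].Nodup)
    (hr : Hit (mrel0 h.bs) (pt [a, b, c, d] W.z) rf35)
    (hf : Hit (mrel0 h.bs) (v6 W.z u w a c d) f10) (hq : ¬ FS (mrel0 h.bs) W.z fp2 b c d) : False := by
  have hf := hit01 (by decide) hf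
  have hs := hn1 hf rfl
  by_cases ib : u = b
  · subst ib
    exact c35_10_2 h nd hr hf hq
  exact c35_10_n h (nd_snoc nd (nin5 hs.1 hs.2.1 ib hs.2.2.1 hs.2.2.2)) hr hf hq

theorem P35_11 {V : Type} {W : Mw V} (h : W.Hy) {a b c d u w : V} (nd : [W.z, a, b, c, d].Nodup)
    (hr : Hit (mrel0 h.bs) (pt [a, b, c, d] W.z) rf35)
    (hf : Hit (mrel0 h.bs) (v6 W.z u w a c d) f11) (hq : ¬ FS (mrel0 h.bs) W.z fp2 b c d) : False := by
  have hf := hit01 (by decide) hf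
  have hs := hn1 hf rfl
  by_cases ib : u = b
  · subst ib
    exact c35_11_2 h nd hr hf hq
  exact c35_11_n h (nd_snoc nd (nin5 hs.1 hs.2.1 ib hs.2.2.1 hs.2.2.2)) hr hf hq

theorem P35_12 {V : Type} {W : Mw V} (h : W.Hy) {a b c d u w : V} (nd : [W.z, a, b, c, d].Nodup)
    (hr : Hit (mrel0 h.bs) (pt [a, b, c, d] W.z) rf35)
    (hf : Hit (mrel0 h.bs) (v6 W.z u w a c d) f12) (hq : ¬ FS (mrel0 h.bs) W.z fp2 b c d) : False := by
  have hf := hit01 (by decide) hf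
  have hs := hn1 hf rfl
  by_cases ib : u = b
  · subst ib
    exact c35_12_2 h nd hr hf hq
  exact c35_12_n h (nd_snoc nd (nin5 hs.1 hs.2.1 ib hs.2.2.1 hs.2.2.2)) hr hf hq

theorem P35_13 {V : Type} {W : Mw V} (h : W.Hy) {a b c d u w : V} (nd : [W.z, a, b, c, d].Nodup)
    (hr : Hit (mrel0 h.bs) (pt [a, b, c, d] W.z) rf35)
    (hf : Hit (mrel0 h.bs) (v6 W.z u w a c d) f13) (hq : ¬ FS (mrel0 h.bs) W.z fp2 b c d) : False := by
  have hf := hit01 (by decide) hf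
  have hs := hn1 hf rfl
  by_cases ib : u = b
  · subst ib
    exact c35_13_2 h nd hr hf hq
  exact c35_13_n h (nd_snoc nd (nin5 hs.1 hs.2.1 ib hs.2.2.1 hs.2.2.2)) hr hf hq

theorem P35_14 {V : Type} {W : Mw V} (h : W.Hy) {a b c d u w : V} (nd : [W.z, a, b, c, d].Nodup)
    (hr : Hit (mrel0 h.bs) (pt [a, b, c, d] W.z) rf35)
    (hf : Hit (mrel0 h.bs) (v6 W.z u w a c d) f14) (hq : ¬ FS (mrel0 h.bs) W.z fp2 b c d) : False := by
  have hs := hn2 hf rfl
  by_cases ib : u = b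
  · subst ib
    exact c35_14_2_n h (nd_snoc nd (nin5 hs.2.2.1 hs.2.2.2.1 hs.1.symm hs.2.2.2.2.1 hs.2.2.2.2.2)) hr hf hq
  by_cases jb : w = b
  · subst jb
    exact c35_14_n_2 h (nd_snoc nd (nin5 hs.2.1.1 hs.2.1.2.1 hs.1 hs.2.1.2.2.1 hs.2.1.2.2.2)) hr hf hq
  exact c35_14_n_n h (nd_snoc (nd_snoc nd (nin5 hs.2.1.1 hs.2.1.2.1 ib hs.2.1.2.2.1 hs.2.1.2.2.2)) (nin6 hs.2.2.1 hs.2.2.2.1 jb hs.2.2.2.2.1 hs.2.2.2.2.2 hs.1.symm)) hr hf hq

theorem P35_15 {V : Type} {W : Mw V} (h : W.Hy) {a b c d u w : V} (nd : [W.z, a, b, c, d].Nodup)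
    (hr : Hit (mrel0 h.bs) (pt [a, b, c, d] W.z) rf35)
    (hf : Hit (mrel0 h.bs) (v6 W.z u w a c d) f15) (hq : ¬ FS (mrel0 h.bs) W.z fp2 b c d) : False := by
  have hs := hn2 hf rfl
  by_cases ib : u = b
  · subst ib
    exact c35_15_2_n h (nd_snoc nd (nin5 hs.2.2.1 hs.2.2.2.1 hs.1.symm hs.2.2.2.2.1 hs.2.2.2.2.2)) hr hf hq
  by_cases jb : w = b
  · subst jb
    exact c35_15_n_2 h (nd_snoc nd (nin5 hs.2.1.1 hs.2.1.2.1 hs.1 hs.2.1.2.2.1 hs.2.1.2.2.2)) hr hf hq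
  exact c35_15_n_n h (nd_snoc (nd_snoc nd (nin5 hs.2.1.1 hs.2.1.2.1 ib hs.2.1.2.2.1 hs.2.1.2.2.2)) (nin6 hs.2.2.1 hs.2.2.2.1 jb hs.2.2.2.2.1 hs.2.2.2.2.2 hs.1.symm)) hr hf hq

theorem P35_16 {V : Type} {W : Mw V} (h : W.Hy) {a b c d u w : V} (nd : [W.z, a, b, c, d].Nodup)
    (hr : Hit (mrel0 h.bs) (pt [a, b, c, d] W.z) rf35)
    (hf : Hit (mrel0 h.bs) (v6 W.z u w a c d) f16) (hq : ¬ FS (mrel0 h.bs) W.z fp2 b c d) : False := by
  have hs := hn2 hf rfl
  by_cases ib : u = b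
  · subst ib
    exact c35_16_2_n h (nd_snoc nd (nin5 hs.2.2.1 hs.2.2.2.1 hs.1.symm hs.2.2.2.2.1 hs.2.2.2.2.2)) hr hf hq
  by_cases jb : w = b
  · subst jb
    exact c35_16_n_2 h (nd_snoc nd (nin5 hs.2.1.1 hs.2.1.2.1 hs.1 hs.2.1.2.2.1 hs.2.1.2.2.2)) hr hf hq
  exact c35_16_n_n h (nd_snoc (nd_snoc nd (nin5 hs.2.1.1 hs.2.1.2.1 ib hs.2.1.2.2.1 hs.2.1.2.2.2)) (nin6 hs.2.2.1 hs.2.2.2.1 jb hs.2.2.2.2.1 hs.2.2.2.2.2 hs.1.symm)) hr hf hq

theorem P35_17 {V : Type} {W : Mw V} (h : W.Hy) {a b c d u w : V} (nd : [W.z, a, b, c, d].Nodup)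
    (hr : Hit (mrel0 h.bs) (pt [a, b, c, d] W.z) rf35)
    (hf : Hit (mrel0 h.bs) (v6 W.z u w a c d) f17) (hq : ¬ FS (mrel0 h.bs) W.z fp2 b c d) : False := by
  have hs := hn2 hf rfl
  by_cases ib : u = b
  · subst ib
    exact c35_17_2_n h (nd_snoc nd (nin5 hs.2.2.1 hs.2.2.2.1 hs.1.symm hs.2.2.2.2.1 hs.2.2.2.2.2)) hr hf hq
  by_cases jb : w = b
  · subst jb
    exact c35_17_n_2 h (nd_snoc nd (nin5 hs.2.1.1 hs.2.1.2.1 hs.1 hs.2.1.2.2.1 hs.2.1.2.2.2)) hr hf hq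
  exact c35_17_n_n h (nd_snoc (nd_snoc nd (nin5 hs.2.1.1 hs.2.1.2.1 ib hs.2.1.2.2.1 hs.2.1.2.2.2)) (nin6 hs.2.2.1 hs.2.2.2.1 jb hs.2.2.2.2.1 hs.2.2.2.2.2 hs.1.symm)) hr hf hq

theorem P35_18 {V : Type} {W : Mw V} (h : W.Hy) {a b c d u w : V} (nd : [W.z, a, b, c, d].Nodup)
    (hr : Hit (mrel0 h.bs) (pt [a, b, c, d] W.z) rf35)
    (hf : Hit (mrel0 h.bs) (v6 W.z u w a c d) f18) (hq : ¬ FS (mrel0 h.bs) W.z fp2 b c d) : False := by
  have hs := hn2 hf rfl
  by_cases ib : u = b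
  · subst ib
    exact c35_18_2_n h (nd_snoc nd (nin5 hs.2.2.1 hs.2.2.2.1 hs.1.symm hs.2.2.2.2.1 hs.2.2.2.2.2)) hr hf hq
  by_cases jb : w = b
  · subst jb
    exact c35_18_n_2 h (nd_snoc nd (nin5 hs.2.1.1 hs.2.1.2.1 hs.1 hs.2.1.2.2.1 hs.2.1.2.2.2)) hr hf hq
  exact c35_18_n_n h (nd_snoc (nd_snoc nd (nin5 hs.2.1.1 hs.2.1.2.1 ib hs.2.1.2.2.1 hs.2.1.2.2.2)) (nin6 hs.2.2.1 hs.2.2.2.1 jb hs.2.2.2.2.1 hs.2.2.2.2.2 hs.1.symm)) hr hf hq

theorem P35_19 {V : Type} {W : Mw V} (h : W.Hy) {a b c d u w : V} (nd : [W.z, a, b, c, d].Nodup)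
    (hr : Hit (mrel0 h.bs) (pt [a, b, c, d] W.z) rf35)
    (hf : Hit (mrel0 h.bs) (v6 W.z u w a c d) f19) (hq : ¬ FS (mrel0 h.bs) W.z fp2 b c d) : False := by
  have hs := hn2 hf rfl
  by_cases ib : u = b
  · subst ib
    exact c35_19_2_n h (nd_snoc nd (nin5 hs.2.2.1 hs.2.2.2.1 hs.1.symm hs.2.2.2.2.1 hs.2.2.2.2.2)) hr hf hq
  by_cases jb : w = b
  · subst jb
    exact c35_19_n_2 h (nd_snoc nd (nin5 hs.2.1.1 hs.2.1.2.1 hs.1 hs.2.1.2.2.1 hs.2.1.2.2.2)) hr hf hq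
  exact c35_19_n_n h (nd_snoc (nd_snoc nd (nin5 hs.2.1.1 hs.2.1.2.1 ib hs.2.1.2.2.1 hs.2.1.2.2.2)) (nin6 hs.2.2.1 hs.2.2.2.1 jb hs.2.2.2.2.1 hs.2.2.2.2.2 hs.1.symm)) hr hf hq

theorem P35_20 {V : Type} {W : Mw V} (h : W.Hy) {a b c d u w : V} (nd : [W.z, a, b, c, d].Nodup)
    (hr : Hit (mrel0 h.bs) (pt [a, b, c, d] W.z) rf35)
    (hf : Hit (mrel0 h.bs) (v6 W.z u w a c d) f20) (hq : ¬ FS (mrel0 h.bs) W.z fp2 b c d) : False := by
  have hs := hn2 hf rfl
  by_cases ib : u = b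
  · subst ib
    exact c35_20_2_n h (nd_snoc nd (nin5 hs.2.2.1 hs.2.2.2.1 hs.1.symm hs.2.2.2.2.1 hs.2.2.2.2.2)) hr hf hq
  by_cases jb : w = b
  · subst jb
    exact c35_20_n_2 h (nd_snoc nd (nin5 hs.2.1.1 hs.2.1.2.1 hs.1 hs.2.1.2.2.1 hs.2.1.2.2.2)) hr hf hq
  exact c35_20_n_n h (nd_snoc (nd_snoc nd (nin5 hs.2.1.1 hs.2.1.2.1 ib hs.2.1.2.2.1 hs.2.1.2.2.2)) (nin6 hs.2.2.1 hs.2.2.2.1 jb hs.2.2.2.2.1 hs.2.2.2.2.2 hs.1.symm)) hr hf hq

theorem R35 {V : Type} {W : Mw V} (h : W.Hy) {a b c d : V} (nd : [W.z, a, b, c, d].Nodup)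
    (hr : Hit (mrel0 h.bs) (pt [a, b, c, d] W.z) rf35)
    (hp : FS (mrel0 h.bs) W.z fp2 a c d) : FS (mrel0 h.bs) W.z fp2 b c d := by
  by_contra hq
  obtain ⟨t, ht, u, w, hf⟩ := hp
  simp only [fp2, List.mem_cons, List.not_mem_nil, or_false] at ht
  rcases ht with rfl | rfl | rfl | rfl | rfl | rfl | rfl | rfl | rfl | rfl | rfl | rfl | rfl | rfl
  · exact P35_1 h nd hr hf hq
  · exact P35_6 h nd hr hf hq
  · exact P35_7 h nd hr hf hq
  · exact P35_10 h nd hr hf hq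
  · exact P35_11 h nd hr hf hq
  · exact P35_12 h nd hr hf hq
  · exact P35_13 h nd hr hf hq
  · exact P35_14 h nd hr hf hq
  · exact P35_15 h nd hr hf hq
  · exact P35_16 h nd hr hf hq
  · exact P35_17 h nd hr hf hq
  · exact P35_18 h nd hr hf hq
  · exact P35_19 h nd hr hf hq
  · exact P35_20 h nd hr hf hq

end Pool.Agent.SOU
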