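import Pool.Agent.SOU.TB

/-! Project SOU (MP_66ba69_lc, mixed insertion): rule 36 (generated). -/

set_option autoImplicit false
set_option maxRecDepth 100000
set_option linter.unusedVariables false

namespace Pool.Agent.SOU

open Pool.Agent.RUP Pool.Agent.SOQ

def c36_1_p0 : List Nat := [
0x86241d0000000a10018000201,
0xb1000000002000200]

def c36_1_pf : List Nat := c36_1_p0

theorem c36_1_ref {V : Type} {S : SRel V} {p : Nat → V} (hp : ∀ i j, i < 5 → j < 5 → p i = p j → i = j)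
    (hts : PHs S p 5 (mA ++ (gf (fun x => 8 + cr 4 x) rf36 ++ (gf (fun x => 8 + c6 0 0 2 3 4 x) f1 ++ fp2.map (tren (n6 1 3 4)))))) : False :=
  refuteS (k := 5) (n2 := 3) (n3 := 1) (n4 := 3) (o3 := 45) (o4 := 80) (M := 440) (mA ++ (gf (fun x => 8 + cr 4 x) rf36 ++ (gf (fun x => 8 + c6 0 0 2 3 4 x) f1 ++ fp2.map (tren (n6 1 3 4))))) c36_1_pf (by decide +kernel)
    (by decide +kernel) (by decide +kernel) (by decide +kernel) hp hts

theorem c36_1 {V : Type} {W : Mw V} (h : W.Hy) {a b c d : V} (nd : [W.z, a, b, c, d].Nodup)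
    (hr : Hit (mrel0 h.bs) (pt [a, b, c, d] W.z) rf36)
    (hf : Hit (mrel0 h.bs) (v6 W.z W.z W.z b c d) f1)
    (hq : ¬ FS (mrel0 h.bs) W.z fp2 a c d) : False :=
  c36_1_ref (pt_inj (o := W.z) nd rfl) (PHs.app (h.ph rfl _) (PHs.app (gf_ph hr (cr 4) (cr_pt (n := 4) (l := [a, b, c, d]) (l' := []) rfl)) (PHs.app (gf_ph hf (c6 0 0 2 3 4) (c6_v6 rfl rfl rfl rfl rfl rfl)) (nf_ph hq (ia := 1) (ib := 3) (ic := 4) rfl rfl rfl rfl))))

def c36_6_n_p0 : List Nat := [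
0x8420030000000970490000201,
0x26084070000000020000000990176000301,
0x4862030000000040481000201,
0x6408207000000097000000006014f000301,
0x42a0d00000009100000008f0000000a90517000401,
0xa860b0000000950000000930000000a905ef000401,
0xa84600700000009900000000c0254000301,
0x4a80030000000af058c000201,
0x284a00700000000a0000000af0200000301,
0x2a084070000000020000000af0233000301,
0x860a40700000000e0000000100269000301,
0x86a41b0000000160596000201,
0x628a4250000000a10000000180590000301,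
0x8a241d0000000b705ea000201,
0x84a21f00000001a00000001400000009d00000001c035c000501,
0xabb0000000a900000001e00000009500000008f00000009b00000009300000009f0000000b5000000008000000012000b00]

def c36_6_n_pf : List Nat := c36_6_n_p0

theorem c36_6_n_ref {V : Type} {S : SRel V} {p : Nat → V} (hp : ∀ i j, i < 6 → j < 6 → p i = p j → i = j)
    (hts : PHs S p 6 (mA ++ (gf (fun x => 8 + cr 4 x) rf36 ++ (gf (fun x => 8 + c6 5 0 2 3 4 x) f6 ++ fp2.map (tren (n6 1 3 4)))))) : False :=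
  refuteS (k := 6) (n2 := 3) (n3 := 1) (n4 := 3) (o3 := 63) (o4 := 119) (M := 812) (mA ++ (gf (fun x => 8 + cr 4 x) rf36 ++ (gf (fun x => 8 + c6 5 0 2 3 4 x) f6 ++ fp2.map (tren (n6 1 3 4))))) c36_6_n_pf (by decide +kernel)
    (by decide +kernel) (by decide +kernel) (by decide +kernel) hp hts

theorem c36_6_n {V : Type} {W : Mw V} (h : W.Hy) {a b c d u : V} (nd : [W.z, a, b, c, d, u].Nodup)
    (hr : Hit (mrel0 h.bs) (pt [a, b, c, d] W.z) rf36)
    (hf : Hit (mrel0 h.bs) (v6 W.z u W.z b c d) f6)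
    (hq : ¬ FS (mrel0 h.bs) W.z fp2 a c d) : False :=
  c36_6_n_ref (pt_inj (o := W.z) nd rfl) (PHs.app (h.ph rfl _) (PHs.app (gf_ph hr (cr 4) (cr_pt (n := 4) (l := [a, b, c, d]) (l' := [u]) rfl)) (PHs.app (gf_ph hf (c6 5 0 2 3 4) (c6_v6 rfl rfl rfl rfl rfl rfl)) (nf_ph hq (ia := 1) (ib := 3) (ic := 4) rfl rfl rfl rfl))))

def c36_6_1_p0 : List Nat := [
0xa900000008f000200]

def c36_6_1_pf : List Nat := c36_6_1_p0

theorem c36_6_1_ref {V : Type} {S : SRel V} {p : Nat → V} (hp : ∀ i j, i < 5 → j < 5 → p i = p j → i = j)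
    (hts : PHs S p 5 (mA ++ (gf (fun x => 8 + cr 4 x) rf36 ++ (gf (fun x => 8 + c6 1 0 2 3 4 x) f6 ++ fp2.map (tren (n6 1 3 4)))))) : False :=
  refuteS (k := 5) (n2 := 3) (n3 := 1) (n4 := 3) (o3 := 45) (o4 := 80) (M := 440) (mA ++ (gf (fun x => 8 + cr 4 x) rf36 ++ (gf (fun x => 8 + c6 1 0 2 3 4 x) f6 ++ fp2.map (tren (n6 1 3 4))))) c36_6_1_pf (by decide +kernel)
    (by decide +kernel) (by decide +kernel) (by decide +kernel) hp hts

theorem c36_6_1 {V : Type} {W : Mw V} (h : W.Hy) {a b c d : V} (nd : [W.z, a, b, c, d].Nodup)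
    (hr : Hit (mrel0 h.bs) (pt [a, b, c, d] W.z) rf36)
    (hf : Hit (mrel0 h.bs) (v6 W.z a W.z b c d) f6)
    (hq : ¬ FS (mrel0 h.bs) W.z fp2 a c d) : False :=
  c36_6_1_ref (pt_inj (o := W.z) nd rfl) (PHs.app (h.ph rfl _) (PHs.app (gf_ph hr (cr 4) (cr_pt (n := 4) (l := [a, b, c, d]) (l' := []) rfl)) (PHs.app (gf_ph hf (c6 1 0 2 3 4) (c6_v6 rfl rfl rfl rfl rfl rfl)) (nf_ph hq (ia := 1) (ib := 3) (ic := 4) rfl rfl rfl rfl))))

def c36_7_n_p0 : List Nat := [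
0x8420030000000970490000201,
0x26084070000000020000000990176000301,
0x4862030000000040481000201,
0x6408207000000097000000006014f000301,
0x42a0d00000009100000008f0000000a90517000401,
0xa860b0000000950000000930000000a905ef000401,
0xa84600700000009900000000c0254000301,
0x4a80030000000af058c000201,
0x284a00700000000a0000000af0200000301,
0x2a084070000000020000000af0233000301,
0x860a40700000000e0000000100269000301,
0x86a41b0000000160596000201,
0x628a4250000000a10000000180590000301,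
0x8a241d0000000b505ea000201,
0x84a21f00000001a00000001400000009d00000001c035c000501,
0xa6150000000a90000000930000000b7002d000401,
0xabb0000000a900000001e00000009500000008f00000009b00000009300000009f000000020000000008000000012000b00]

def c36_7_n_pf : List Nat := c36_7_n_p0

theorem c36_7_n_ref {V : Type} {S : SRel V} {p : Nat → V} (hp : ∀ i j, i < 6 → j < 6 → p i = p j → i = j)
    (hts : PHs S p 6 (mA ++ (gf (fun x => 8 + cr 4 x) rf36 ++ (gf (fun x => 8 + c6 5 0 2 3 4 x) f7 ++ fp2.map (tren (n6 1 3 4)))))) : False :=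
  refuteS (k := 6) (n2 := 3) (n3 := 1) (n4 := 3) (o3 := 63) (o4 := 119) (M := 812) (mA ++ (gf (fun x => 8 + cr 4 x) rf36 ++ (gf (fun x => 8 + c6 5 0 2 3 4 x) f7 ++ fp2.map (tren (n6 1 3 4))))) c36_7_n_pf (by decide +kernel)
    (by decide +kernel) (by decide +kernel) (by decide +kernel) hp hts

theorem c36_7_n {V : Type} {W : Mw V} (h : W.Hy) {a b c d u : V} (nd : [W.z, a, b, c, d, u].Nodup)
    (hr : Hit (mrel0 h.bs) (pt [a, b, c, d] W.z) rf36)
    (hf : Hit (mrel0 h.bs) (v6 W.z u W.z b c d) f7)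
    (hq : ¬ FS (mrel0 h.bs) W.z fp2 a c d) : False :=
  c36_7_n_ref (pt_inj (o := W.z) nd rfl) (PHs.app (h.ph rfl _) (PHs.app (gf_ph hr (cr 4) (cr_pt (n := 4) (l := [a, b, c, d]) (l' := [u]) rfl)) (PHs.app (gf_ph hf (c6 5 0 2 3 4) (c6_v6 rfl rfl rfl rfl rfl rfl)) (nf_ph hq (ia := 1) (ib := 3) (ic := 4) rfl rfl rfl rfl))))

def c36_7_1_p0 : List Nat := [
0xa900000008f000200]

def c36_7_1_pf : List Nat := c36_7_1_p0

theorem c36_7_1_ref {V : Type} {S : SRel V} {p : Nat → V} (hp : ∀ i j, i < 5 → j < 5 → p i = p j → i = j)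
    (hts : PHs S p 5 (mA ++ (gf (fun x => 8 + cr 4 x) rf36 ++ (gf (fun x => 8 + c6 1 0 2 3 4 x) f7 ++ fp2.map (tren (n6 1 3 4)))))) : False :=
  refuteS (k := 5) (n2 := 3) (n3 := 1) (n4 := 3) (o3 := 45) (o4 := 80) (M := 440) (mA ++ (gf (fun x => 8 + cr 4 x) rf36 ++ (gf (fun x => 8 + c6 1 0 2 3 4 x) f7 ++ fp2.map (tren (n6 1 3 4))))) c36_7_1_pf (by decide +kernel)
    (by decide +kernel) (by decide +kernel) (by decide +kernel) hp hts

theorem c36_7_1 {V : Type} {W : Mw V} (h : W.Hy) {a b c d : V} (nd : [W.z, a, b, c, d].Nodup)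
    (hr : Hit (mrel0 h.bs) (pt [a, b, c, d] W.z) rf36)
    (hf : Hit (mrel0 h.bs) (v6 W.z a W.z b c d) f7)
    (hq : ¬ FS (mrel0 h.bs) W.z fp2 a c d) : False :=
  c36_7_1_ref (pt_inj (o := W.z) nd rfl) (PHs.app (h.ph rfl _) (PHs.app (gf_ph hr (cr 4) (cr_pt (n := 4) (l := [a, b, c, d]) (l' := []) rfl)) (PHs.app (gf_ph hf (c6 1 0 2 3 4) (c6_v6 rfl rfl rfl rfl rfl rfl)) (nf_ph hq (ia := 1) (ib := 3) (ic := 4) rfl rfl rfl rfl))))

def c36_10_n_p0 : List Nat := [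
0x8420030000000970490000201,
0x26084070000000020000000990176000301,
0x4862030000000040481000201,
0x6408207000000097000000006014f000301,
0xa6824250000000a10000000b502be000301,
0xa8421b00000000a05e9000201,
0x642a8230000000b500000000a02c7000301,
0x240a8070000000ad00000000c02b4000301,
0xabd00000009500000008f00000009b00000009300000009f0000000a500000000800000001000000000e000a00]

def c36_10_n_pf : List Nat := c36_10_n_p0

theorem c36_10_n_ref {V : Type} {S : SRel V} {p : Nat → V} (hp : ∀ i j, i < 6 → j < 6 → p i = p j → i = j)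
    (hts : PHs S p 6 (mA ++ (gf (fun x => 8 + cr 4 x) rf36 ++ (gf (fun x => 8 + c6 5 0 2 3 4 x) f10 ++ fp2.map (tren (n6 1 3 4)))))) : False :=
  refuteS (k := 6) (n2 := 3) (n3 := 1) (n4 := 3) (o3 := 63) (o4 := 119) (M := 812) (mA ++ (gf (fun x => 8 + cr 4 x) rf36 ++ (gf (fun x => 8 + c6 5 0 2 3 4 x) f10 ++ fp2.map (tren (n6 1 3 4))))) c36_10_n_pf (by decide +kernel)
    (by decide +kernel) (by decide +kernel) (by decide +kernel) hp hts

theorem c36_10_n {V : Type} {W : Mw V} (h : W.Hy) {a b c d u : V} (nd : [W.z, a, b, c, d, u].Nodup)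
    (hr : Hit (mrel0 h.bs) (pt [a, b, c, d] W.z) rf36)
    (hf : Hit (mrel0 h.bs) (v6 W.z u W.z b c d) f10)
    (hq : ¬ FS (mrel0 h.bs) W.z fp2 a c d) : False :=
  c36_10_n_ref (pt_inj (o := W.z) nd rfl) (PHs.app (h.ph rfl _) (PHs.app (gf_ph hr (cr 4) (cr_pt (n := 4) (l := [a, b, c, d]) (l' := [u]) rfl)) (PHs.app (gf_ph hf (c6 5 0 2 3 4) (c6_v6 rfl rfl rfl rfl rfl rfl)) (nf_ph hq (ia := 1) (ib := 3) (ic := 4) rfl rfl rfl rfl))))

def c36_10_1_p0 : List Nat := [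
0x6842210000000a102e7000201,
0xb5000000002000200]

def c36_10_1_pf : List Nat := c36_10_1_p0

theorem c36_10_1_ref {V : Type} {S : SRel V} {p : Nat → V} (hp : ∀ i j, i < 5 → j < 5 → p i = p j → i = j)
    (hts : PHs S p 5 (mA ++ (gf (fun x => 8 + cr 4 x) rf36 ++ (gf (fun x => 8 + c6 1 0 2 3 4 x) f10 ++ fp2.map (tren (n6 1 3 4)))))) : False :=
  refuteS (k := 5) (n2 := 3) (n3 := 1) (n4 := 3) (o3 := 45) (o4 := 80) (M := 440) (mA ++ (gf (fun x => 8 + cr 4 x) rf36 ++ (gf (fun x => 8 + c6 1 0 2 3 4 x) f10 ++ fp2.map (tren (n6 1 3 4))))) c36_10_1_pf (by decide +kernel)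
    (by decide +kernel) (by decide +kernel) (by decide +kernel) hp hts

theorem c36_10_1 {V : Type} {W : Mw V} (h : W.Hy) {a b c d : V} (nd : [W.z, a, b, c, d].Nodup)
    (hr : Hit (mrel0 h.bs) (pt [a, b, c, d] W.z) rf36)
    (hf : Hit (mrel0 h.bs) (v6 W.z a W.z b c d) f10)
    (hq : ¬ FS (mrel0 h.bs) W.z fp2 a c d) : False :=
  c36_10_1_ref (pt_inj (o := W.z) nd rfl) (PHs.app (h.ph rfl _) (PHs.app (gf_ph hr (cr 4) (cr_pt (n := 4) (l := [a, b, c, d]) (l' := []) rfl)) (PHs.app (gf_ph hf (c6 1 0 2 3 4) (c6_v6 rfl rfl rfl rfl rfl rfl)) (nf_ph hq (ia := 1) (ib := 3) (ic := 4) rfl rfl rfl rfl))))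

def c36_11_n_p0 : List Nat := [
0x8420030000000970490000201,
0x86400300000009904bd000201,
0x26084070000000020000000990176000301,
0x86420300000000604c0000201,
0x4862030000000060481000201,
0x640820700000009700000000a014f000301,
0x86421d0000000a10015000201,
0x6a840070000000040000000ad0281000301,
0xa640030000000100580000201,
0xa84600700000009900000001202c3000301,
0x2a861d0000000b50563000201,
0xac10000000b500000009500000008f00000009b00000009300000009f0000000b70000000a500000000c05e0000a01,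
0x240a8070000000ad00000001802bd000301,
0x260a80700000001400000001802c6000301,
0x6a8420700000000800000001a0284000301,
0xa8621f0000000b700000001600000000e00000001c029a000501,
0xa6421b00000001e05b1000201,
0xa8642250000000a1000000022000000020000400]

def c36_11_n_pf : List Nat := c36_11_n_p0

theorem c36_11_n_ref {V : Type} {S : SRel V} {p : Nat → V} (hp : ∀ i j, i < 6 → j < 6 → p i = p j → i = j)
    (hts : PHs S p 6 (mA ++ (gf (fun x => 8 + cr 4 x) rf36 ++ (gf (fun x => 8 + c6 5 0 2 3 4 x) f11 ++ fp2.map (tren (n6 1 3 4)))))) : False :=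
  refuteS (k := 6) (n2 := 3) (n3 := 1) (n4 := 3) (o3 := 63) (o4 := 119) (M := 812) (mA ++ (gf (fun x => 8 + cr 4 x) rf36 ++ (gf (fun x => 8 + c6 5 0 2 3 4 x) f11 ++ fp2.map (tren (n6 1 3 4))))) c36_11_n_pf (by decide +kernel)
    (by decide +kernel) (by decide +kernel) (by decide +kernel) hp hts

theorem c36_11_n {V : Type} {W : Mw V} (h : W.Hy) {a b c d u : V} (nd : [W.z, a, b, c, d, u].Nodup)
    (hr : Hit (mrel0 h.bs) (pt [a, b, c, d] W.z) rf36)
    (hf : Hit (mrel0 h.bs) (v6 W.z u W.z b c d) f11)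
    (hq : ¬ FS (mrel0 h.bs) W.z fp2 a c d) : False :=
  c36_11_n_ref (pt_inj (o := W.z) nd rfl) (PHs.app (h.ph rfl _) (PHs.app (gf_ph hr (cr 4) (cr_pt (n := 4) (l := [a, b, c, d]) (l' := [u]) rfl)) (PHs.app (gf_ph hf (c6 5 0 2 3 4) (c6_v6 rfl rfl rfl rfl rfl rfl)) (nf_ph hq (ia := 1) (ib := 3) (ic := 4) rfl rfl rfl rfl))))

def c36_11_1_p0 : List Nat := [
0x86421d0000000a10015000201,
0xb5000000002000200]

def c36_11_1_pf : List Nat := c36_11_1_p0

theorem c36_11_1_ref {V : Type} {S : SRel V} {p : Nat → V} (hp : ∀ i j, i < 5 → j < 5 → p i = p j → i = j)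
    (hts : PHs S p 5 (mA ++ (gf (fun x => 8 + cr 4 x) rf36 ++ (gf (fun x => 8 + c6 1 0 2 3 4 x) f11 ++ fp2.map (tren (n6 1 3 4)))))) : False :=
  refuteS (k := 5) (n2 := 3) (n3 := 1) (n4 := 3) (o3 := 45) (o4 := 80) (M := 440) (mA ++ (gf (fun x => 8 + cr 4 x) rf36 ++ (gf (fun x => 8 + c6 1 0 2 3 4 x) f11 ++ fp2.map (tren (n6 1 3 4))))) c36_11_1_pf (by decide +kernel)
    (by decide +kernel) (by decide +kernel) (by decide +kernel) hp hts

theorem c36_11_1 {V : Type} {W : Mw V} (h : W.Hy) {a b c d : V} (nd : [W.z, a, b, c, d].Nodup)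
    (hr : Hit (mrel0 h.bs) (pt [a, b, c, d] W.z) rf36)
    (hf : Hit (mrel0 h.bs) (v6 W.z a W.z b c d) f11)
    (hq : ¬ FS (mrel0 h.bs) W.z fp2 a c d) : False :=
  c36_11_1_ref (pt_inj (o := W.z) nd rfl) (PHs.app (h.ph rfl _) (PHs.app (gf_ph hr (cr 4) (cr_pt (n := 4) (l := [a, b, c, d]) (l' := []) rfl)) (PHs.app (gf_ph hf (c6 1 0 2 3 4) (c6_v6 rfl rfl rfl rfl rfl rfl)) (nf_ph hq (ia := 1) (ib := 3) (ic := 4) rfl rfl rfl rfl))))

def c36_12_n_p0 : List Nat := [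
0x8420030000000970490000201,
0x86400300000009904bd000201,
0x26084070000000020000000990176000301,
0x4862030000000060481000201,
0x6408207000000097000000008014f000301,
0x4a086070000000040000000af0269000301,
0x6a840300000000c05c8000201,
0x86a41b00000000c0596000201,
0xa62840700000000600000000e0233000301,
0x628a4250000000a10000000100590000301,
0x8a241d0000000b505ea000201,
0x84a21f00000001200000001400000009d000000016035c000501,
0xac300000001800000009500000008f00000009b00000009300000009f0000000b70000000a900000000a0000000af000b00]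

def c36_12_n_pf : List Nat := c36_12_n_p0

theorem c36_12_n_ref {V : Type} {S : SRel V} {p : Nat → V} (hp : ∀ i j, i < 6 → j < 6 → p i = p j → i = j)
    (hts : PHs S p 6 (mA ++ (gf (fun x => 8 + cr 4 x) rf36 ++ (gf (fun x => 8 + c6 5 0 2 3 4 x) f12 ++ fp2.map (tren (n6 1 3 4)))))) : False :=
  refuteS (k := 6) (n2 := 3) (n3 := 1) (n4 := 3) (o3 := 63) (o4 := 119) (M := 812) (mA ++ (gf (fun x => 8 + cr 4 x) rf36 ++ (gf (fun x => 8 + c6 5 0 2 3 4 x) f12 ++ fp2.map (tren (n6 1 3 4))))) c36_12_n_pf (by decide +kernel)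
    (by decide +kernel) (by decide +kernel) (by decide +kernel) hp hts

theorem c36_12_n {V : Type} {W : Mw V} (h : W.Hy) {a b c d u : V} (nd : [W.z, a, b, c, d, u].Nodup)
    (hr : Hit (mrel0 h.bs) (pt [a, b, c, d] W.z) rf36)
    (hf : Hit (mrel0 h.bs) (v6 W.z u W.z b c d) f12)
    (hq : ¬ FS (mrel0 h.bs) W.z fp2 a c d) : False :=
  c36_12_n_ref (pt_inj (o := W.z) nd rfl) (PHs.app (h.ph rfl _) (PHs.app (gf_ph hr (cr 4) (cr_pt (n := 4) (l := [a, b, c, d]) (l' := [u]) rfl)) (PHs.app (gf_ph hf (c6 5 0 2 3 4) (c6_v6 rfl rfl rfl rfl rfl rfl)) (nf_ph hq (ia := 1) (ib := 3) (ic := 4) rfl rfl rfl rfl))))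

def c36_12_1_p0 : List Nat := [
0x84200300000009702f5000201,
0x8640030000000990322000201,
0x2608407000000002000000099014f000301,
0x8642030000000060325000201,
0x4208607000000004000000008031c000301,
0xaf00000000a000200]

def c36_12_1_pf : List Nat := c36_12_1_p0

theorem c36_12_1_ref {V : Type} {S : SRel V} {p : Nat → V} (hp : ∀ i j, i < 5 → j < 5 → p i = p j → i = j)
    (hts : PHs S p 5 (mA ++ (gf (fun x => 8 + cr 4 x) rf36 ++ (gf (fun x => 8 + c6 1 0 2 3 4 x) f12 ++ fp2.map (tren (n6 1 3 4)))))) : False :=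
  refuteS (k := 5) (n2 := 3) (n3 := 1) (n4 := 3) (o3 := 45) (o4 := 80) (M := 440) (mA ++ (gf (fun x => 8 + cr 4 x) rf36 ++ (gf (fun x => 8 + c6 1 0 2 3 4 x) f12 ++ fp2.map (tren (n6 1 3 4))))) c36_12_1_pf (by decide +kernel)
    (by decide +kernel) (by decide +kernel) (by decide +kernel) hp hts

theorem c36_12_1 {V : Type} {W : Mw V} (h : W.Hy) {a b c d : V} (nd : [W.z, a, b, c, d].Nodup)
    (hr : Hit (mrel0 h.bs) (pt [a, b, c, d] W.z) rf36)
    (hf : Hit (mrel0 h.bs) (v6 W.z a W.z b c d) f12)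
    (hq : ¬ FS (mrel0 h.bs) W.z fp2 a c d) : False :=
  c36_12_1_ref (pt_inj (o := W.z) nd rfl) (PHs.app (h.ph rfl _) (PHs.app (gf_ph hr (cr 4) (cr_pt (n := 4) (l := [a, b, c, d]) (l' := []) rfl)) (PHs.app (gf_ph hf (c6 1 0 2 3 4) (c6_v6 rfl rfl rfl rfl rfl rfl)) (nf_ph hq (ia := 1) (ib := 3) (ic := 4) rfl rfl rfl rfl))))

def c36_13_n_p0 : List Nat := [
0x8420030000000970490000201,
0x86400300000009904bd000201,
0x26084070000000020000000990176000301,
0x86420300000000604c0000201,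
0x4862030000000060481000201,
0x420860700000000400000000804b7000301,
0x640820700000009700000000a014f000301,
0x86421d0000000a10015000201,
0x8a60030000000af05ef000201,
0x2a0860700000000c0000000af0236000301,
0xa82600700000000e0000000120221000301,
0x8a620300000001405f2000201,
0x86a21b0000000140563000201,
0xa8462070000000060000000180257000301,
0x846a2250000000a100000001a0554000301,
0x64a330000000a90000000910000000930000000b50033000501,
0xa2644700000001e00000008f0000000910000000930000000a90000000b50413000701,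
0x4a624b00000002200000008f0000000910000000930000000a90000000b505a8000701,
0xa4621f00000001c00000001e0000000100000000200285000501,
0x6a421d0000000260030000201,
0xa263700000002400000001600000008f00000009b0000000930000000a900000002801f5000801,
0xac300000009500000008f00000009b00000009300000009f0000000a900000000e00000002a0000000af000a00]

def c36_13_n_pf : List Nat := c36_13_n_p0

theorem c36_13_n_ref {V : Type} {S : SRel V} {p : Nat → V} (hp : ∀ i j, i < 6 → j < 6 → p i = p j → i = j)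
    (hts : PHs S p 6 (mA ++ (gf (fun x => 8 + cr 4 x) rf36 ++ (gf (fun x => 8 + c6 5 0 2 3 4 x) f13 ++ fp2.map (tren (n6 1 3 4)))))) : False :=
  refuteS (k := 6) (n2 := 3) (n3 := 1) (n4 := 3) (o3 := 63) (o4 := 119) (M := 812) (mA ++ (gf (fun x => 8 + cr 4 x) rf36 ++ (gf (fun x => 8 + c6 5 0 2 3 4 x) f13 ++ fp2.map (tren (n6 1 3 4))))) c36_13_n_pf (by decide +kernel)
    (by decide +kernel) (by decide +kernel) (by decide +kernel) hp hts

theorem c36_13_n {V : Type} {W : Mw V} (h : W.Hy) {a b c d u : V} (nd : [W.z, a, b, c, d, u].Nodup)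
    (hr : Hit (mrel0 h.bs) (pt [a, b, c, d] W.z) rf36)
    (hf : Hit (mrel0 h.bs) (v6 W.z u W.z b c d) f13)
    (hq : ¬ FS (mrel0 h.bs) W.z fp2 a c d) : False :=
  c36_13_n_ref (pt_inj (o := W.z) nd rfl) (PHs.app (h.ph rfl _) (PHs.app (gf_ph hr (cr 4) (cr_pt (n := 4) (l := [a, b, c, d]) (l' := [u]) rfl)) (PHs.app (gf_ph hf (c6 5 0 2 3 4) (c6_v6 rfl rfl rfl rfl rfl rfl)) (nf_ph hq (ia := 1) (ib := 3) (ic := 4) rfl rfl rfl rfl))))

def c36_13_1_p0 : List Nat := [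
0x84200300000009702f5000201,
0x8640030000000990322000201,
0x2608407000000002000000099014f000301,
0x8642030000000060325000201,
0x4208607000000004000000008031c000301,
0xaf00000000a000200]

def c36_13_1_pf : List Nat := c36_13_1_p0

theorem c36_13_1_ref {V : Type} {S : SRel V} {p : Nat → V} (hp : ∀ i j, i < 5 → j < 5 → p i = p j → i = j)
    (hts : PHs S p 5 (mA ++ (gf (fun x => 8 + cr 4 x) rf36 ++ (gf (fun x => 8 + c6 1 0 2 3 4 x) f13 ++ fp2.map (tren (n6 1 3 4)))))) : False :=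
  refuteS (k := 5) (n2 := 3) (n3 := 1) (n4 := 3) (o3 := 45) (o4 := 80) (M := 440) (mA ++ (gf (fun x => 8 + cr 4 x) rf36 ++ (gf (fun x => 8 + c6 1 0 2 3 4 x) f13 ++ fp2.map (tren (n6 1 3 4))))) c36_13_1_pf (by decide +kernel)
    (by decide +kernel) (by decide +kernel) (by decide +kernel) hp hts

theorem c36_13_1 {V : Type} {W : Mw V} (h : W.Hy) {a b c d : V} (nd : [W.z, a, b, c, d].Nodup)
    (hr : Hit (mrel0 h.bs) (pt [a, b, c, d] W.z) rf36)
    (hf : Hit (mrel0 h.bs) (v6 W.z a W.z b c d) f13)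
    (hq : ¬ FS (mrel0 h.bs) W.z fp2 a c d) : False :=
  c36_13_1_ref (pt_inj (o := W.z) nd rfl) (PHs.app (h.ph rfl _) (PHs.app (gf_ph hr (cr 4) (cr_pt (n := 4) (l := [a, b, c, d]) (l' := []) rfl)) (PHs.app (gf_ph hf (c6 1 0 2 3 4) (c6_v6 rfl rfl rfl rfl rfl rfl)) (nf_ph hq (ia := 1) (ib := 3) (ic := 4) rfl rfl rfl rfl))))

def c36_14_n_n_p0 : List Nat := [
0x4280d00000009100000008f00000009506c3000401,
0x84200300000009706ff000201,
0x260840700000000400000009901a7000301,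
0x48620300000000606f0000201,
0x64082070000000970000000080180000301,
0x42a0d00000009100000008f0000000a90786000401,
0xa860b0000000950000000930000000a9085e000401,
0xa84600700000009900000000e0285000301,
0xc860b0000000950000000930000000ad09f3000401,
0xca20b0000000a900000008f0000000ad0a32000401,
0xc82600700000000a00000001203b1000301,
0x4a80030000000b107fb000201,
0x284a00700000000c0000000b10231000301,
0x860a407000000010000000018029a000301,
0x86a41b00000001c0805000201,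
0x628a4250000000a100000001e07ff000301,
0x2c480070000000020000000b303bd000301,
0xac480070000000180000000b304e3000301,
0x280ca0700000001400000002404e6000301,
0x8ac310000000ad0000000a90000000950000000b9004e000501,
0x8c2a4230000000200000000bb093d000301,
0x28c4a2500000002a0000000bb0943000301,
0xca821f00000002800000002600000009f00000002c04a8000501,
0xcacb0000000ad0000000a900000009500000008f00000009b00000009300000009f00000001a0000000b900000001600000002200000002e000d00]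

def c36_14_n_n_pf : List Nat := c36_14_n_n_p0

theorem c36_14_n_n_ref {V : Type} {S : SRel V} {p : Nat → V} (hp : ∀ i j, i < 7 → j < 7 → p i = p j → i = j)
    (hts : PHs S p 7 (mA ++ (gf (fun x => 8 + cr 4 x) rf36 ++ (gf (fun x => 8 + c6 5 6 2 3 4 x) f14 ++ fp2.map (tren (n6 1 3 4)))))) : False :=
  refuteS (k := 7) (n2 := 3) (n3 := 1) (n4 := 3) (o3 := 84) (o4 := 168) (M := 1386) (mA ++ (gf (fun x => 8 + cr 4 x) rf36 ++ (gf (fun x => 8 + c6 5 6 2 3 4 x) f14 ++ fp2.map (tren (n6 1 3 4))))) c36_14_n_n_pf (by decide +kernel)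
    (by decide +kernel) (by decide +kernel) (by decide +kernel) hp hts

theorem c36_14_n_n {V : Type} {W : Mw V} (h : W.Hy) {a b c d u w : V} (nd : [W.z, a, b, c, d, u, w].Nodup)
    (hr : Hit (mrel0 h.bs) (pt [a, b, c, d] W.z) rf36)
    (hf : Hit (mrel0 h.bs) (v6 W.z u w b c d) f14)
    (hq : ¬ FS (mrel0 h.bs) W.z fp2 a c d) : False :=
  c36_14_n_n_ref (pt_inj (o := W.z) nd rfl) (PHs.app (h.ph rfl _) (PHs.app (gf_ph hr (cr 4) (cr_pt (n := 4) (l := [a, b, c, d]) (l' := [u, w]) rfl)) (PHs.app (gf_ph hf (c6 5 6 2 3 4) (c6_v6 rfl rfl rfl rfl rfl rfl)) (nf_ph hq (ia := 1) (ib := 3) (ic := 4) rfl rfl rfl rfl))))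

def c36_14_n_1_p0 : List Nat := [
0xad00000008f000200]

def c36_14_n_1_pf : List Nat := c36_14_n_1_p0

theorem c36_14_n_1_ref {V : Type} {S : SRel V} {p : Nat → V} (hp : ∀ i j, i < 6 → j < 6 → p i = p j → i = j)
    (hts : PHs S p 6 (mA ++ (gf (fun x => 8 + cr 4 x) rf36 ++ (gf (fun x => 8 + c6 5 1 2 3 4 x) f14 ++ fp2.map (tren (n6 1 3 4)))))) : False :=
  refuteS (k := 6) (n2 := 3) (n3 := 1) (n4 := 3) (o3 := 63) (o4 := 119) (M := 812) (mA ++ (gf (fun x => 8 + cr 4 x) rf36 ++ (gf (fun x => 8 + c6 5 1 2 3 4 x) f14 ++ fp2.map (tren (n6 1 3 4))))) c36_14_n_1_pf (by decide +kernel)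
    (by decide +kernel) (by decide +kernel) (by decide +kernel) hp hts

theorem c36_14_n_1 {V : Type} {W : Mw V} (h : W.Hy) {a b c d u : V} (nd : [W.z, a, b, c, d, u].Nodup)
    (hr : Hit (mrel0 h.bs) (pt [a, b, c, d] W.z) rf36)
    (hf : Hit (mrel0 h.bs) (v6 W.z u a b c d) f14)
    (hq : ¬ FS (mrel0 h.bs) W.z fp2 a c d) : False :=
  c36_14_n_1_ref (pt_inj (o := W.z) nd rfl) (PHs.app (h.ph rfl _) (PHs.app (gf_ph hr (cr 4) (cr_pt (n := 4) (l := [a, b, c, d]) (l' := [u]) rfl)) (PHs.app (gf_ph hf (c6 5 1 2 3 4) (c6_v6 rfl rfl rfl rfl rfl rfl)) (nf_ph hq (ia := 1) (ib := 3) (ic := 4) rfl rfl rfl rfl))))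

def c36_14_1_n_p0 : List Nat := [
0xa900000008f000200]

def c36_14_1_n_pf : List Nat := c36_14_1_n_p0

theorem c36_14_1_n_ref {V : Type} {S : SRel V} {p : Nat → V} (hp : ∀ i j, i < 6 → j < 6 → p i = p j → i = j)
    (hts : PHs S p 6 (mA ++ (gf (fun x => 8 + cr 4 x) rf36 ++ (gf (fun x => 8 + c6 1 5 2 3 4 x) f14 ++ fp2.map (tren (n6 1 3 4)))))) : False :=
  refuteS (k := 6) (n2 := 3) (n3 := 1) (n4 := 3) (o3 := 63) (o4 := 119) (M := 812) (mA ++ (gf (fun x => 8 + cr 4 x) rf36 ++ (gf (fun x => 8 + c6 1 5 2 3 4 x) f14 ++ fp2.map (tren (n6 1 3 4))))) c36_14_1_n_pf (by decide +kernel)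
    (by decide +kernel) (by decide +kernel) (by decide +kernel) hp hts

theorem c36_14_1_n {V : Type} {W : Mw V} (h : W.Hy) {a b c d w : V} (nd : [W.z, a, b, c, d, w].Nodup)
    (hr : Hit (mrel0 h.bs) (pt [a, b, c, d] W.z) rf36)
    (hf : Hit (mrel0 h.bs) (v6 W.z a w b c d) f14)
    (hq : ¬ FS (mrel0 h.bs) W.z fp2 a c d) : False :=
  c36_14_1_n_ref (pt_inj (o := W.z) nd rfl) (PHs.app (h.ph rfl _) (PHs.app (gf_ph hr (cr 4) (cr_pt (n := 4) (l := [a, b, c, d]) (l' := [w]) rfl)) (PHs.app (gf_ph hf (c6 1 5 2 3 4) (c6_v6 rfl rfl rfl rfl rfl rfl)) (nf_ph hq (ia := 1) (ib := 3) (ic := 4) rfl rfl rfl rfl))))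

def c36_15_n_n_p0 : List Nat := [
0x84200300000009706ff000201,
0x260840700000000200000009901a7000301,
0x48620300000000406f0000201,
0x64082070000000970000000060180000301,
0x42a0d00000009100000008f0000000a90786000401,
0xa860b0000000950000000930000000a9085e000401,
0xa84600700000009900000000c0285000301,
0x42c0d00000009100000008f0000000ab08d3000401,
0x4ca0030000000b108fa000201,
0x2c4a00700000000a0000000b103cc000301,
0xc60a40700000000e000000012045f000301,
0x4c80030000000b3096c000201,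
0x284c0070000000100000000b3037e000301,
0x8a0c4070000000b1000000018041d000301,
0x8ca40300000001c0a14000201,
0x8c6a40700000001600000001e029a000301,
0x86a41b0000000200805000201,
0xca6824270000000220000000a10000000bb0484000401,
0xa42c8230000000bb00000002404a8000301,
0xcacd0000000ab0000000a900000009500000008f00000009b00000009300000009f00000000800000001a0000000140000000260000000b9000d00]

def c36_15_n_n_pf : List Nat := c36_15_n_n_p0

theorem c36_15_n_n_ref {V : Type} {S : SRel V} {p : Nat → V} (hp : ∀ i j, i < 7 → j < 7 → p i = p j → i = j)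
    (hts : PHs S p 7 (mA ++ (gf (fun x => 8 + cr 4 x) rf36 ++ (gf (fun x => 8 + c6 5 6 2 3 4 x) f15 ++ fp2.map (tren (n6 1 3 4)))))) : False :=
  refuteS (k := 7) (n2 := 3) (n3 := 1) (n4 := 3) (o3 := 84) (o4 := 168) (M := 1386) (mA ++ (gf (fun x => 8 + cr 4 x) rf36 ++ (gf (fun x => 8 + c6 5 6 2 3 4 x) f15 ++ fp2.map (tren (n6 1 3 4))))) c36_15_n_n_pf (by decide +kernel)
    (by decide +kernel) (by decide +kernel) (by decide +kernel) hp hts

theorem c36_15_n_n {V : Type} {W : Mw V} (h : W.Hy) {a b c d u w : V} (nd : [W.z, a, b, c, d, u, w].Nodup)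
    (hr : Hit (mrel0 h.bs) (pt [a, b, c, d] W.z) rf36)
    (hf : Hit (mrel0 h.bs) (v6 W.z u w b c d) f15)
    (hq : ¬ FS (mrel0 h.bs) W.z fp2 a c d) : False :=
  c36_15_n_n_ref (pt_inj (o := W.z) nd rfl) (PHs.app (h.ph rfl _) (PHs.app (gf_ph hr (cr 4) (cr_pt (n := 4) (l := [a, b, c, d]) (l' := [u, w]) rfl)) (PHs.app (gf_ph hf (c6 5 6 2 3 4) (c6_v6 rfl rfl rfl rfl rfl rfl)) (nf_ph hq (ia := 1) (ib := 3) (ic := 4) rfl rfl rfl rfl))))

def c36_15_n_1_p0 : List Nat := [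
0xab00000008f000200]

def c36_15_n_1_pf : List Nat := c36_15_n_1_p0

theorem c36_15_n_1_ref {V : Type} {S : SRel V} {p : Nat → V} (hp : ∀ i j, i < 6 → j < 6 → p i = p j → i = j)
    (hts : PHs S p 6 (mA ++ (gf (fun x => 8 + cr 4 x) rf36 ++ (gf (fun x => 8 + c6 5 1 2 3 4 x) f15 ++ fp2.map (tren (n6 1 3 4)))))) : False :=
  refuteS (k := 6) (n2 := 3) (n3 := 1) (n4 := 3) (o3 := 63) (o4 := 119) (M := 812) (mA ++ (gf (fun x => 8 + cr 4 x) rf36 ++ (gf (fun x => 8 + c6 5 1 2 3 4 x) f15 ++ fp2.map (tren (n6 1 3 4))))) c36_15_n_1_pf (by decide +kernel)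
    (by decide +kernel) (by decide +kernel) (by decide +kernel) hp hts

theorem c36_15_n_1 {V : Type} {W : Mw V} (h : W.Hy) {a b c d u : V} (nd : [W.z, a, b, c, d, u].Nodup)
    (hr : Hit (mrel0 h.bs) (pt [a, b, c, d] W.z) rf36)
    (hf : Hit (mrel0 h.bs) (v6 W.z u a b c d) f15)
    (hq : ¬ FS (mrel0 h.bs) W.z fp2 a c d) : False :=
  c36_15_n_1_ref (pt_inj (o := W.z) nd rfl) (PHs.app (h.ph rfl _) (PHs.app (gf_ph hr (cr 4) (cr_pt (n := 4) (l := [a, b, c, d]) (l' := [u]) rfl)) (PHs.app (gf_ph hf (c6 5 1 2 3 4) (c6_v6 rfl rfl rfl rfl rfl rfl)) (nf_ph hq (ia := 1) (ib := 3) (ic := 4) rfl rfl rfl rfl))))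

def c36_15_1_n_p0 : List Nat := [
0xa900000008f000200]

def c36_15_1_n_pf : List Nat := c36_15_1_n_p0

theorem c36_15_1_n_ref {V : Type} {S : SRel V} {p : Nat → V} (hp : ∀ i j, i < 6 → j < 6 → p i = p j → i = j)
    (hts : PHs S p 6 (mA ++ (gf (fun x => 8 + cr 4 x) rf36 ++ (gf (fun x => 8 + c6 1 5 2 3 4 x) f15 ++ fp2.map (tren (n6 1 3 4)))))) : False :=
  refuteS (k := 6) (n2 := 3) (n3 := 1) (n4 := 3) (o3 := 63) (o4 := 119) (M := 812) (mA ++ (gf (fun x => 8 + cr 4 x) rf36 ++ (gf (fun x => 8 + c6 1 5 2 3 4 x) f15 ++ fp2.map (tren (n6 1 3 4))))) c36_15_1_n_pf (by decide +kernel)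
    (by decide +kernel) (by decide +kernel) (by decide +kernel) hp hts

theorem c36_15_1_n {V : Type} {W : Mw V} (h : W.Hy) {a b c d w : V} (nd : [W.z, a, b, c, d, w].Nodup)
    (hr : Hit (mrel0 h.bs) (pt [a, b, c, d] W.z) rf36)
    (hf : Hit (mrel0 h.bs) (v6 W.z a w b c d) f15)
    (hq : ¬ FS (mrel0 h.bs) W.z fp2 a c d) : False :=
  c36_15_1_n_ref (pt_inj (o := W.z) nd rfl) (PHs.app (h.ph rfl _) (PHs.app (gf_ph hr (cr 4) (cr_pt (n := 4) (l := [a, b, c, d]) (l' := [w]) rfl)) (PHs.app (gf_ph hf (c6 1 5 2 3 4) (c6_v6 rfl rfl rfl rfl rfl rfl)) (nf_ph hq (ia := 1) (ib := 3) (ic := 4) rfl rfl rfl rfl))))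

def c36_16_n_n_p0 : List Nat := [
0x4280d00000009100000008f00000009506c3000401,
0x84200300000009706ff000201,
0x260840700000000400000009901a7000301,
0x48620300000000606f0000201,
0x64082070000000970000000080180000301,
0x42a0d00000009100000008f0000000ab0786000401,
0xc820b00000009500000008f0000000ad09e4000401,
0xc860b0000000950000000930000000ad09f3000401,
0xc82600700000000a00000001003b1000301,
0x4a80030000000b1079e000201,
0x2a480070000000020000000b1025e000301,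
0x2c4a00700000000c0000000b303cc000301,
0x8c4a0070000000140000000b304a4000301,
0x2a0c80700000000e00000001a04a7000301,
0x8a241d0000000b90859000201,
0x2c861d0000000bb0931000201,
0xac68422700000001e0000000a10000000200943000401,
0xa8c310000000ad0000000ab0000000950000000bd004b000501,
0xca862770000000ad0000000bb0000000ab00000009500000008f00000009b0000000930000000160000000180000000120000000bd0a51000c01,
0xc8a21f00000002600000002200000001c000000024059a000501,
0xcad10000000ad0000000bb0000000ab00000002800000009500000008f00000009b00000009300000009f0000000160000000bd000000012000000018000e00]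

def c36_16_n_n_pf : List Nat := c36_16_n_n_p0

theorem c36_16_n_n_ref {V : Type} {S : SRel V} {p : Nat → V} (hp : ∀ i j, i < 7 → j < 7 → p i = p j → i = j)
    (hts : PHs S p 7 (mA ++ (gf (fun x => 8 + cr 4 x) rf36 ++ (gf (fun x => 8 + c6 5 6 2 3 4 x) f16 ++ fp2.map (tren (n6 1 3 4)))))) : False :=
  refuteS (k := 7) (n2 := 3) (n3 := 1) (n4 := 3) (o3 := 84) (o4 := 168) (M := 1386) (mA ++ (gf (fun x => 8 + cr 4 x) rf36 ++ (gf (fun x => 8 + c6 5 6 2 3 4 x) f16 ++ fp2.map (tren (n6 1 3 4))))) c36_16_n_n_pf (by decide +kernel)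
    (by decide +kernel) (by decide +kernel) (by decide +kernel) hp hts

theorem c36_16_n_n {V : Type} {W : Mw V} (h : W.Hy) {a b c d u w : V} (nd : [W.z, a, b, c, d, u, w].Nodup)
    (hr : Hit (mrel0 h.bs) (pt [a, b, c, d] W.z) rf36)
    (hf : Hit (mrel0 h.bs) (v6 W.z u w b c d) f16)
    (hq : ¬ FS (mrel0 h.bs) W.z fp2 a c d) : False :=
  c36_16_n_n_ref (pt_inj (o := W.z) nd rfl) (PHs.app (h.ph rfl _) (PHs.app (gf_ph hr (cr 4) (cr_pt (n := 4) (l := [a, b, c, d]) (l' := [u, w]) rfl)) (PHs.app (gf_ph hf (c6 5 6 2 3 4) (c6_v6 rfl rfl rfl rfl rfl rfl)) (nf_ph hq (ia := 1) (ib := 3) (ic := 4) rfl rfl rfl rfl))))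

def c36_16_n_1_p0 : List Nat := [
0xad00000008f000200]

def c36_16_n_1_pf : List Nat := c36_16_n_1_p0

theorem c36_16_n_1_ref {V : Type} {S : SRel V} {p : Nat → V} (hp : ∀ i j, i < 6 → j < 6 → p i = p j → i = j)
    (hts : PHs S p 6 (mA ++ (gf (fun x => 8 + cr 4 x) rf36 ++ (gf (fun x => 8 + c6 5 1 2 3 4 x) f16 ++ fp2.map (tren (n6 1 3 4)))))) : False :=
  refuteS (k := 6) (n2 := 3) (n3 := 1) (n4 := 3) (o3 := 63) (o4 := 119) (M := 812) (mA ++ (gf (fun x => 8 + cr 4 x) rf36 ++ (gf (fun x => 8 + c6 5 1 2 3 4 x) f16 ++ fp2.map (tren (n6 1 3 4))))) c36_16_n_1_pf (by decide +kernel)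
    (by decide +kernel) (by decide +kernel) (by decide +kernel) hp hts

theorem c36_16_n_1 {V : Type} {W : Mw V} (h : W.Hy) {a b c d u : V} (nd : [W.z, a, b, c, d, u].Nodup)
    (hr : Hit (mrel0 h.bs) (pt [a, b, c, d] W.z) rf36)
    (hf : Hit (mrel0 h.bs) (v6 W.z u a b c d) f16)
    (hq : ¬ FS (mrel0 h.bs) W.z fp2 a c d) : False :=
  c36_16_n_1_ref (pt_inj (o := W.z) nd rfl) (PHs.app (h.ph rfl _) (PHs.app (gf_ph hr (cr 4) (cr_pt (n := 4) (l := [a, b, c, d]) (l' := [u]) rfl)) (PHs.app (gf_ph hf (c6 5 1 2 3 4) (c6_v6 rfl rfl rfl rfl rfl rfl)) (nf_ph hq (ia := 1) (ib := 3) (ic := 4) rfl rfl rfl rfl))))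

def c36_16_1_n_p0 : List Nat := [
0xab00000008f000200]

def c36_16_1_n_pf : List Nat := c36_16_1_n_p0

theorem c36_16_1_n_ref {V : Type} {S : SRel V} {p : Nat → V} (hp : ∀ i j, i < 6 → j < 6 → p i = p j → i = j)
    (hts : PHs S p 6 (mA ++ (gf (fun x => 8 + cr 4 x) rf36 ++ (gf (fun x => 8 + c6 1 5 2 3 4 x) f16 ++ fp2.map (tren (n6 1 3 4)))))) : False :=
  refuteS (k := 6) (n2 := 3) (n3 := 1) (n4 := 3) (o3 := 63) (o4 := 119) (M := 812) (mA ++ (gf (fun x => 8 + cr 4 x) rf36 ++ (gf (fun x => 8 + c6 1 5 2 3 4 x) f16 ++ fp2.map (tren (n6 1 3 4))))) c36_16_1_n_pf (by decide +kernel)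
    (by decide +kernel) (by decide +kernel) (by decide +kernel) hp hts

theorem c36_16_1_n {V : Type} {W : Mw V} (h : W.Hy) {a b c d w : V} (nd : [W.z, a, b, c, d, w].Nodup)
    (hr : Hit (mrel0 h.bs) (pt [a, b, c, d] W.z) rf36)
    (hf : Hit (mrel0 h.bs) (v6 W.z a w b c d) f16)
    (hq : ¬ FS (mrel0 h.bs) W.z fp2 a c d) : False :=
  c36_16_1_n_ref (pt_inj (o := W.z) nd rfl) (PHs.app (h.ph rfl _) (PHs.app (gf_ph hr (cr 4) (cr_pt (n := 4) (l := [a, b, c, d]) (l' := [w]) rfl)) (PHs.app (gf_ph hf (c6 1 5 2 3 4) (c6_v6 rfl rfl rfl rfl rfl rfl)) (nf_ph hq (ia := 1) (ib := 3) (ic := 4) rfl rfl rfl rfl))))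

def c36_17_n_n_p0 : List Nat := [
0x4280d00000009100000008f00000009506c3000401,
0x84200300000009706ff000201,
0x260840700000000400000009901a7000301,
0x48620300000000606f0000201,
0x64082070000000970000000080180000301,
0x42a0d00000009100000008f0000000ab0786000401,
0xc860b0000000950000000930000000ad09f3000401,
0xc82600700000000a00000000e03b1000301,
0x2a480070000000020000000b1025e000301,
0x2c4a00700000000c0000000b303cc000301,
0xc6824250000000a10000000bd0484000301,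
0x642c8230000000bd000000016048d000301,
0xcad30000000ad0000000ab0000000b900000009500000008f00000009b00000009300000009f0000000120000000bb000000010000000014000000018000e00]

def c36_17_n_n_pf : List Nat := c36_17_n_n_p0

theorem c36_17_n_n_ref {V : Type} {S : SRel V} {p : Nat → V} (hp : ∀ i j, i < 7 → j < 7 → p i = p j → i = j)
    (hts : PHs S p 7 (mA ++ (gf (fun x => 8 + cr 4 x) rf36 ++ (gf (fun x => 8 + c6 5 6 2 3 4 x) f17 ++ fp2.map (tren (n6 1 3 4)))))) : False :=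
  refuteS (k := 7) (n2 := 3) (n3 := 1) (n4 := 3) (o3 := 84) (o4 := 168) (M := 1386) (mA ++ (gf (fun x => 8 + cr 4 x) rf36 ++ (gf (fun x => 8 + c6 5 6 2 3 4 x) f17 ++ fp2.map (tren (n6 1 3 4))))) c36_17_n_n_pf (by decide +kernel)
    (by decide +kernel) (by decide +kernel) (by decide +kernel) hp hts

theorem c36_17_n_n {V : Type} {W : Mw V} (h : W.Hy) {a b c d u w : V} (nd : [W.z, a, b, c, d, u, w].Nodup)
    (hr : Hit (mrel0 h.bs) (pt [a, b, c, d] W.z) rf36)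
    (hf : Hit (mrel0 h.bs) (v6 W.z u w b c d) f17)
    (hq : ¬ FS (mrel0 h.bs) W.z fp2 a c d) : False :=
  c36_17_n_n_ref (pt_inj (o := W.z) nd rfl) (PHs.app (h.ph rfl _) (PHs.app (gf_ph hr (cr 4) (cr_pt (n := 4) (l := [a, b, c, d]) (l' := [u, w]) rfl)) (PHs.app (gf_ph hf (c6 5 6 2 3 4) (c6_v6 rfl rfl rfl rfl rfl rfl)) (nf_ph hq (ia := 1) (ib := 3) (ic := 4) rfl rfl rfl rfl))))

def c36_17_n_1_p0 : List Nat := [
0xad00000008f000200]

def c36_17_n_1_pf : List Nat := c36_17_n_1_p0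

theorem c36_17_n_1_ref {V : Type} {S : SRel V} {p : Nat → V} (hp : ∀ i j, i < 6 → j < 6 → p i = p j → i = j)
    (hts : PHs S p 6 (mA ++ (gf (fun x => 8 + cr 4 x) rf36 ++ (gf (fun x => 8 + c6 5 1 2 3 4 x) f17 ++ fp2.map (tren (n6 1 3 4)))))) : False :=
  refuteS (k := 6) (n2 := 3) (n3 := 1) (n4 := 3) (o3 := 63) (o4 := 119) (M := 812) (mA ++ (gf (fun x => 8 + cr 4 x) rf36 ++ (gf (fun x => 8 + c6 5 1 2 3 4 x) f17 ++ fp2.map (tren (n6 1 3 4))))) c36_17_n_1_pf (by decide +kernel)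
    (by decide +kernel) (by decide +kernel) (by decide +kernel) hp hts

theorem c36_17_n_1 {V : Type} {W : Mw V} (h : W.Hy) {a b c d u : V} (nd : [W.z, a, b, c, d, u].Nodup)
    (hr : Hit (mrel0 h.bs) (pt [a, b, c, d] W.z) rf36)
    (hf : Hit (mrel0 h.bs) (v6 W.z u a b c d) f17)
    (hq : ¬ FS (mrel0 h.bs) W.z fp2 a c d) : False :=
  c36_17_n_1_ref (pt_inj (o := W.z) nd rfl) (PHs.app (h.ph rfl _) (PHs.app (gf_ph hr (cr 4) (cr_pt (n := 4) (l := [a, b, c, d]) (l' := [u]) rfl)) (PHs.app (gf_ph hf (c6 5 1 2 3 4) (c6_v6 rfl rfl rfl rfl rfl rfl)) (nf_ph hq (ia := 1) (ib := 3) (ic := 4) rfl rfl rfl rfl))))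

def c36_17_1_n_p0 : List Nat := [
0xab00000008f000200]

def c36_17_1_n_pf : List Nat := c36_17_1_n_p0

theorem c36_17_1_n_ref {V : Type} {S : SRel V} {p : Nat → V} (hp : ∀ i j, i < 6 → j < 6 → p i = p j → i = j)
    (hts : PHs S p 6 (mA ++ (gf (fun x => 8 + cr 4 x) rf36 ++ (gf (fun x => 8 + c6 1 5 2 3 4 x) f17 ++ fp2.map (tren (n6 1 3 4)))))) : False :=
  refuteS (k := 6) (n2 := 3) (n3 := 1) (n4 := 3) (o3 := 63) (o4 := 119) (M := 812) (mA ++ (gf (fun x => 8 + cr 4 x) rf36 ++ (gf (fun x => 8 + c6 1 5 2 3 4 x) f17 ++ fp2.map (tren (n6 1 3 4))))) c36_17_1_n_pf (by decide +kernel)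
    (by decide +kernel) (by decide +kernel) (by decide +kernel) hp hts

theorem c36_17_1_n {V : Type} {W : Mw V} (h : W.Hy) {a b c d w : V} (nd : [W.z, a, b, c, d, w].Nodup)
    (hr : Hit (mrel0 h.bs) (pt [a, b, c, d] W.z) rf36)
    (hf : Hit (mrel0 h.bs) (v6 W.z a w b c d) f17)
    (hq : ¬ FS (mrel0 h.bs) W.z fp2 a c d) : False :=
  c36_17_1_n_ref (pt_inj (o := W.z) nd rfl) (PHs.app (h.ph rfl _) (PHs.app (gf_ph hr (cr 4) (cr_pt (n := 4) (l := [a, b, c, d]) (l' := [w]) rfl)) (PHs.app (gf_ph hf (c6 1 5 2 3 4) (c6_v6 rfl rfl rfl rfl rfl rfl)) (nf_ph hq (ia := 1) (ib := 3) (ic := 4) rfl rfl rfl rfl))))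

def c36_18_n_n_p0 : List Nat := [
0x4280d00000009100000008f00000009506c3000401,
0x84200300000009706ff000201,
0x260840700000000400000009901a7000301,
0x48620300000000606f0000201,
0x64082070000000970000000080180000301,
0x42a0d00000009100000008f0000000ab0786000401,
0xc860b0000000950000000930000000ad09f3000401,
0xc82600700000000a00000000e03b1000301,
0x2a480070000000020000000b1025e000301,
0x2c4a00700000000c0000000b303cc000301,
0xc6824250000000a10000000bb0484000301,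
0x642c8230000000bb000000016048d000301,
0xcad50000000ad0000000ab00000009500000008f00000009b00000009300000009f0000000120000000b90000000100000000140000000180000000bd000e00]

def c36_18_n_n_pf : List Nat := c36_18_n_n_p0

theorem c36_18_n_n_ref {V : Type} {S : SRel V} {p : Nat → V} (hp : ∀ i j, i < 7 → j < 7 → p i = p j → i = j)
    (hts : PHs S p 7 (mA ++ (gf (fun x => 8 + cr 4 x) rf36 ++ (gf (fun x => 8 + c6 5 6 2 3 4 x) f18 ++ fp2.map (tren (n6 1 3 4)))))) : False :=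
  refuteS (k := 7) (n2 := 3) (n3 := 1) (n4 := 3) (o3 := 84) (o4 := 168) (M := 1386) (mA ++ (gf (fun x => 8 + cr 4 x) rf36 ++ (gf (fun x => 8 + c6 5 6 2 3 4 x) f18 ++ fp2.map (tren (n6 1 3 4))))) c36_18_n_n_pf (by decide +kernel)
    (by decide +kernel) (by decide +kernel) (by decide +kernel) hp hts

theorem c36_18_n_n {V : Type} {W : Mw V} (h : W.Hy) {a b c d u w : V} (nd : [W.z, a, b, c, d, u, w].Nodup)
    (hr : Hit (mrel0 h.bs) (pt [a, b, c, d] W.z) rf36)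
    (hf : Hit (mrel0 h.bs) (v6 W.z u w b c d) f18)
    (hq : ¬ FS (mrel0 h.bs) W.z fp2 a c d) : False :=
  c36_18_n_n_ref (pt_inj (o := W.z) nd rfl) (PHs.app (h.ph rfl _) (PHs.app (gf_ph hr (cr 4) (cr_pt (n := 4) (l := [a, b, c, d]) (l' := [u, w]) rfl)) (PHs.app (gf_ph hf (c6 5 6 2 3 4) (c6_v6 rfl rfl rfl rfl rfl rfl)) (nf_ph hq (ia := 1) (ib := 3) (ic := 4) rfl rfl rfl rfl))))

def c36_18_n_1_p0 : List Nat := [
0xad00000008f000200]

def c36_18_n_1_pf : List Nat := c36_18_n_1_p0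

theorem c36_18_n_1_ref {V : Type} {S : SRel V} {p : Nat → V} (hp : ∀ i j, i < 6 → j < 6 → p i = p j → i = j)
    (hts : PHs S p 6 (mA ++ (gf (fun x => 8 + cr 4 x) rf36 ++ (gf (fun x => 8 + c6 5 1 2 3 4 x) f18 ++ fp2.map (tren (n6 1 3 4)))))) : False :=
  refuteS (k := 6) (n2 := 3) (n3 := 1) (n4 := 3) (o3 := 63) (o4 := 119) (M := 812) (mA ++ (gf (fun x => 8 + cr 4 x) rf36 ++ (gf (fun x => 8 + c6 5 1 2 3 4 x) f18 ++ fp2.map (tren (n6 1 3 4))))) c36_18_n_1_pf (by decide +kernel)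
    (by decide +kernel) (by decide +kernel) (by decide +kernel) hp hts

theorem c36_18_n_1 {V : Type} {W : Mw V} (h : W.Hy) {a b c d u : V} (nd : [W.z, a, b, c, d, u].Nodup)
    (hr : Hit (mrel0 h.bs) (pt [a, b, c, d] W.z) rf36)
    (hf : Hit (mrel0 h.bs) (v6 W.z u a b c d) f18)
    (hq : ¬ FS (mrel0 h.bs) W.z fp2 a c d) : False :=
  c36_18_n_1_ref (pt_inj (o := W.z) nd rfl) (PHs.app (h.ph rfl _) (PHs.app (gf_ph hr (cr 4) (cr_pt (n := 4) (l := [a, b, c, d]) (l' := [u]) rfl)) (PHs.app (gf_ph hf (c6 5 1 2 3 4) (c6_v6 rfl rfl rfl rfl rfl rfl)) (nf_ph hq (ia := 1) (ib := 3) (ic := 4) rfl rfl rfl rfl))))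

def c36_18_1_n_p0 : List Nat := [
0xab00000008f000200]

def c36_18_1_n_pf : List Nat := c36_18_1_n_p0

theorem c36_18_1_n_ref {V : Type} {S : SRel V} {p : Nat → V} (hp : ∀ i j, i < 6 → j < 6 → p i = p j → i = j)
    (hts : PHs S p 6 (mA ++ (gf (fun x => 8 + cr 4 x) rf36 ++ (gf (fun x => 8 + c6 1 5 2 3 4 x) f18 ++ fp2.map (tren (n6 1 3 4)))))) : False :=
  refuteS (k := 6) (n2 := 3) (n3 := 1) (n4 := 3) (o3 := 63) (o4 := 119) (M := 812) (mA ++ (gf (fun x => 8 + cr 4 x) rf36 ++ (gf (fun x => 8 + c6 1 5 2 3 4 x) f18 ++ fp2.map (tren (n6 1 3 4))))) c36_18_1_n_pf (by decide +kernel)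
    (by decide +kernel) (by decide +kernel) (by decide +kernel) hp hts

theorem c36_18_1_n {V : Type} {W : Mw V} (h : W.Hy) {a b c d w : V} (nd : [W.z, a, b, c, d, w].Nodup)
    (hr : Hit (mrel0 h.bs) (pt [a, b, c, d] W.z) rf36)
    (hf : Hit (mrel0 h.bs) (v6 W.z a w b c d) f18)
    (hq : ¬ FS (mrel0 h.bs) W.z fp2 a c d) : False :=
  c36_18_1_n_ref (pt_inj (o := W.z) nd rfl) (PHs.app (h.ph rfl _) (PHs.app (gf_ph hr (cr 4) (cr_pt (n := 4) (l := [a, b, c, d]) (l' := [w]) rfl)) (PHs.app (gf_ph hf (c6 1 5 2 3 4) (c6_v6 rfl rfl rfl rfl rfl rfl)) (nf_ph hq (ia := 1) (ib := 3) (ic := 4) rfl rfl rfl rfl))))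

def c36_19_n_n_p0 : List Nat := [
0x84200300000009706ff000201,
0x2a084070000000020000000af0264000301,
0x4a820300000000407fe000201,
0xa4082070000000970000000060231000301,
0x4a681d0000000b90805000201,
0xca86242700000000a0000000a10000000c10439000401,
0xa42c6230000000c100000000c045d000301,
0xcadb0000000bd0000000bb0000000b900000009500000008f00000009b00000009300000009f0000000bf0000000a70000000a90000000080000000b100000000e0000000b3001000]

def c36_19_n_n_pf : List Nat := c36_19_n_n_p0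

theorem c36_19_n_n_ref {V : Type} {S : SRel V} {p : Nat → V} (hp : ∀ i j, i < 7 → j < 7 → p i = p j → i = j)
    (hts : PHs S p 7 (mA ++ (gf (fun x => 8 + cr 4 x) rf36 ++ (gf (fun x => 8 + c6 5 6 2 3 4 x) f19 ++ fp2.map (tren (n6 1 3 4)))))) : False :=
  refuteS (k := 7) (n2 := 3) (n3 := 1) (n4 := 3) (o3 := 84) (o4 := 168) (M := 1386) (mA ++ (gf (fun x => 8 + cr 4 x) rf36 ++ (gf (fun x => 8 + c6 5 6 2 3 4 x) f19 ++ fp2.map (tren (n6 1 3 4))))) c36_19_n_n_pf (by decide +kernel)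
    (by decide +kernel) (by decide +kernel) (by decide +kernel) hp hts

theorem c36_19_n_n {V : Type} {W : Mw V} (h : W.Hy) {a b c d u w : V} (nd : [W.z, a, b, c, d, u, w].Nodup)
    (hr : Hit (mrel0 h.bs) (pt [a, b, c, d] W.z) rf36)
    (hf : Hit (mrel0 h.bs) (v6 W.z u w b c d) f19)
    (hq : ¬ FS (mrel0 h.bs) W.z fp2 a c d) : False :=
  c36_19_n_n_ref (pt_inj (o := W.z) nd rfl) (PHs.app (h.ph rfl _) (PHs.app (gf_ph hr (cr 4) (cr_pt (n := 4) (l := [a, b, c, d]) (l' := [u, w]) rfl)) (PHs.app (gf_ph hf (c6 5 6 2 3 4) (c6_v6 rfl rfl rfl rfl rfl rfl)) (nf_ph hq (ia := 1) (ib := 3) (ic := 4) rfl rfl rfl rfl))))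

def c36_19_n_1_p0 : List Nat := [
0x8420030000000970490000201,
0x8a40030000000af05e6000201,
0x2a084070000000020000000af0233000301,
0x8a420300000000605e9000201,
0x420a80700000000400000000805e0000301,
0xb100000000a000200]

def c36_19_n_1_pf : List Nat := c36_19_n_1_p0

theorem c36_19_n_1_ref {V : Type} {S : SRel V} {p : Nat → V} (hp : ∀ i j, i < 6 → j < 6 → p i = p j → i = j)
    (hts : PHs S p 6 (mA ++ (gf (fun x => 8 + cr 4 x) rf36 ++ (gf (fun x => 8 + c6 5 1 2 3 4 x) f19 ++ fp2.map (tren (n6 1 3 4)))))) : False :=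
  refuteS (k := 6) (n2 := 3) (n3 := 1) (n4 := 3) (o3 := 63) (o4 := 119) (M := 812) (mA ++ (gf (fun x => 8 + cr 4 x) rf36 ++ (gf (fun x => 8 + c6 5 1 2 3 4 x) f19 ++ fp2.map (tren (n6 1 3 4))))) c36_19_n_1_pf (by decide +kernel)
    (by decide +kernel) (by decide +kernel) (by decide +kernel) hp hts

theorem c36_19_n_1 {V : Type} {W : Mw V} (h : W.Hy) {a b c d u : V} (nd : [W.z, a, b, c, d, u].Nodup)
    (hr : Hit (mrel0 h.bs) (pt [a, b, c, d] W.z) rf36)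
    (hf : Hit (mrel0 h.bs) (v6 W.z u a b c d) f19)
    (hq : ¬ FS (mrel0 h.bs) W.z fp2 a c d) : False :=
  c36_19_n_1_ref (pt_inj (o := W.z) nd rfl) (PHs.app (h.ph rfl _) (PHs.app (gf_ph hr (cr 4) (cr_pt (n := 4) (l := [a, b, c, d]) (l' := [u]) rfl)) (PHs.app (gf_ph hf (c6 5 1 2 3 4) (c6_v6 rfl rfl rfl rfl rfl rfl)) (nf_ph hq (ia := 1) (ib := 3) (ic := 4) rfl rfl rfl rfl))))

def c36_19_1_n_p0 : List Nat := [
0x8420030000000970490000201,
0xaf000000002000200]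

def c36_19_1_n_pf : List Nat := c36_19_1_n_p0

theorem c36_19_1_n_ref {V : Type} {S : SRel V} {p : Nat → V} (hp : ∀ i j, i < 6 → j < 6 → p i = p j → i = j)
    (hts : PHs S p 6 (mA ++ (gf (fun x => 8 + cr 4 x) rf36 ++ (gf (fun x => 8 + c6 1 5 2 3 4 x) f19 ++ fp2.map (tren (n6 1 3 4)))))) : False :=
  refuteS (k := 6) (n2 := 3) (n3 := 1) (n4 := 3) (o3 := 63) (o4 := 119) (M := 812) (mA ++ (gf (fun x => 8 + cr 4 x) rf36 ++ (gf (fun x => 8 + c6 1 5 2 3 4 x) f19 ++ fp2.map (tren (n6 1 3 4))))) c36_19_1_n_pf (by decide +kernel)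
    (by decide +kernel) (by decide +kernel) (by decide +kernel) hp hts

theorem c36_19_1_n {V : Type} {W : Mw V} (h : W.Hy) {a b c d w : V} (nd : [W.z, a, b, c, d, w].Nodup)
    (hr : Hit (mrel0 h.bs) (pt [a, b, c, d] W.z) rf36)
    (hf : Hit (mrel0 h.bs) (v6 W.z a w b c d) f19)
    (hq : ¬ FS (mrel0 h.bs) W.z fp2 a c d) : False :=
  c36_19_1_n_ref (pt_inj (o := W.z) nd rfl) (PHs.app (h.ph rfl _) (PHs.app (gf_ph hr (cr 4) (cr_pt (n := 4) (l := [a, b, c, d]) (l' := [w]) rfl)) (PHs.app (gf_ph hf (c6 1 5 2 3 4) (c6_v6 rfl rfl rfl rfl rfl rfl)) (nf_ph hq (ia := 1) (ib := 3) (ic := 4) rfl rfl rfl rfl))))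

def c36_20_n_n_p0 : List Nat := [
0x84200300000009706ff000201,
0x2a084070000000020000000af0264000301,
0x4a820300000000407fe000201,
0xa4082070000000970000000060231000301,
0x4a681d0000000bb0805000201,
0xca86242700000000a0000000a10000000bd0439000401,
0xa42c6230000000bd00000000c045d000301,
0xcad90000000b90000000bb00000009500000008f00000009b00000009300000009f0000000a70000000a90000000080000000b100000000e0000000b3000e00]

def c36_20_n_n_pf : List Nat := c36_20_n_n_p0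

theorem c36_20_n_n_ref {V : Type} {S : SRel V} {p : Nat → V} (hp : ∀ i j, i < 7 → j < 7 → p i = p j → i = j)
    (hts : PHs S p 7 (mA ++ (gf (fun x => 8 + cr 4 x) rf36 ++ (gf (fun x => 8 + c6 5 6 2 3 4 x) f20 ++ fp2.map (tren (n6 1 3 4)))))) : False :=
  refuteS (k := 7) (n2 := 3) (n3 := 1) (n4 := 3) (o3 := 84) (o4 := 168) (M := 1386) (mA ++ (gf (fun x => 8 + cr 4 x) rf36 ++ (gf (fun x => 8 + c6 5 6 2 3 4 x) f20 ++ fp2.map (tren (n6 1 3 4))))) c36_20_n_n_pf (by decide +kernel)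
    (by decide +kernel) (by decide +kernel) (by decide +kernel) hp hts

theorem c36_20_n_n {V : Type} {W : Mw V} (h : W.Hy) {a b c d u w : V} (nd : [W.z, a, b, c, d, u, w].Nodup)
    (hr : Hit (mrel0 h.bs) (pt [a, b, c, d] W.z) rf36)
    (hf : Hit (mrel0 h.bs) (v6 W.z u w b c d) f20)
    (hq : ¬ FS (mrel0 h.bs) W.z fp2 a c d) : False :=
  c36_20_n_n_ref (pt_inj (o := W.z) nd rfl) (PHs.app (h.ph rfl _) (PHs.app (gf_ph hr (cr 4) (cr_pt (n := 4) (l := [a, b, c, d]) (l' := [u, w]) rfl)) (PHs.app (gf_ph hf (c6 5 6 2 3 4) (c6_v6 rfl rfl rfl rfl rfl rfl)) (nf_ph hq (ia := 1) (ib := 3) (ic := 4) rfl rfl rfl rfl))))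

def c36_20_n_1_p0 : List Nat := [
0x8420030000000970490000201,
0x8a40030000000af05e6000201,
0x2a084070000000020000000af0233000301,
0x8a420300000000605e9000201,
0x420a80700000000400000000805e0000301,
0xb100000000a000200]

def c36_20_n_1_pf : List Nat := c36_20_n_1_p0

theorem c36_20_n_1_ref {V : Type} {S : SRel V} {p : Nat → V} (hp : ∀ i j, i < 6 → j < 6 → p i = p j → i = j)
    (hts : PHs S p 6 (mA ++ (gf (fun x => 8 + cr 4 x) rf36 ++ (gf (fun x => 8 + c6 5 1 2 3 4 x) f20 ++ fp2.map (tren (n6 1 3 4)))))) : False :=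
  refuteS (k := 6) (n2 := 3) (n3 := 1) (n4 := 3) (o3 := 63) (o4 := 119) (M := 812) (mA ++ (gf (fun x => 8 + cr 4 x) rf36 ++ (gf (fun x => 8 + c6 5 1 2 3 4 x) f20 ++ fp2.map (tren (n6 1 3 4))))) c36_20_n_1_pf (by decide +kernel)
    (by decide +kernel) (by decide +kernel) (by decide +kernel) hp hts

theorem c36_20_n_1 {V : Type} {W : Mw V} (h : W.Hy) {a b c d u : V} (nd : [W.z, a, b, c, d, u].Nodup)
    (hr : Hit (mrel0 h.bs) (pt [a, b, c, d] W.z) rf36)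
    (hf : Hit (mrel0 h.bs) (v6 W.z u a b c d) f20)
    (hq : ¬ FS (mrel0 h.bs) W.z fp2 a c d) : False :=
  c36_20_n_1_ref (pt_inj (o := W.z) nd rfl) (PHs.app (h.ph rfl _) (PHs.app (gf_ph hr (cr 4) (cr_pt (n := 4) (l := [a, b, c, d]) (l' := [u]) rfl)) (PHs.app (gf_ph hf (c6 5 1 2 3 4) (c6_v6 rfl rfl rfl rfl rfl rfl)) (nf_ph hq (ia := 1) (ib := 3) (ic := 4) rfl rfl rfl rfl))))

def c36_20_1_n_p0 : List Nat := [
0x8420030000000970490000201,
0xaf000000002000200]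

def c36_20_1_n_pf : List Nat := c36_20_1_n_p0

theorem c36_20_1_n_ref {V : Type} {S : SRel V} {p : Nat → V} (hp : ∀ i j, i < 6 → j < 6 → p i = p j → i = j)
    (hts : PHs S p 6 (mA ++ (gf (fun x => 8 + cr 4 x) rf36 ++ (gf (fun x => 8 + c6 1 5 2 3 4 x) f20 ++ fp2.map (tren (n6 1 3 4)))))) : False :=
  refuteS (k := 6) (n2 := 3) (n3 := 1) (n4 := 3) (o3 := 63) (o4 := 119) (M := 812) (mA ++ (gf (fun x => 8 + cr 4 x) rf36 ++ (gf (fun x => 8 + c6 1 5 2 3 4 x) f20 ++ fp2.map (tren (n6 1 3 4))))) c36_20_1_n_pf (by decide +kernel)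
    (by decide +kernel) (by decide +kernel) (by decide +kernel) hp hts

theorem c36_20_1_n {V : Type} {W : Mw V} (h : W.Hy) {a b c d w : V} (nd : [W.z, a, b, c, d, w].Nodup)
    (hr : Hit (mrel0 h.bs) (pt [a, b, c, d] W.z) rf36)
    (hf : Hit (mrel0 h.bs) (v6 W.z a w b c d) f20)
    (hq : ¬ FS (mrel0 h.bs) W.z fp2 a c d) : False :=
  c36_20_1_n_ref (pt_inj (o := W.z) nd rfl) (PHs.app (h.ph rfl _) (PHs.app (gf_ph hr (cr 4) (cr_pt (n := 4) (l := [a, b, c, d]) (l' := [w]) rfl)) (PHs.app (gf_ph hf (c6 1 5 2 3 4) (c6_v6 rfl rfl rfl rfl rfl rfl)) (nf_ph hq (ia := 1) (ib := 3) (ic := 4) rfl rfl rfl rfl))))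

theorem P36_1 {V : Type} {W : Mw V} (h : W.Hy) {a b c d u w : V} (nd : [W.z, a, b, c, d].Nodup)
    (hr : Hit (mrel0 h.bs) (pt [a, b, c, d] W.z) rf36)
    (hf : Hit (mrel0 h.bs) (v6 W.z u w b c d) f1) (hq : ¬ FS (mrel0 h.bs) W.z fp2 a c d) : False := by
  exact c36_1 h nd hr (hit00 (by decide) hf) hq

theorem P36_6 {V : Type} {W : Mw V} (h : W.Hy) {a b c d u w : V} (nd : [W.z, a, b, c, d].Nodup)
    (hr : Hit (mrel0 h.bs) (pt [a, b, c, d] W.z) rf36)
    (hf : Hit (mrel0 h.bs) (v6 W.z u w b c d) f6) (hq : ¬ FS (mrel0 h.bs) W.z fp2 a c d) : False := by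
  have hf := hit01 (by decide) hf
  have hs := hn1 hf rfl
  by_cases ia : u = a
  · subst ia
    exact c36_6_1 h nd hr hf hq
  exact c36_6_n h (nd_snoc nd (nin5 hs.1 ia hs.2.1 hs.2.2.1 hs.2.2.2)) hr hf hq

theorem P36_7 {V : Type} {W : Mw V} (h : W.Hy) {a b c d u w : V} (nd : [W.z, a, b, c, d].Nodup)
    (hr : Hit (mrel0 h.bs) (pt [a, b, c, d] W.z) rf36)
    (hf : Hit (mrel0 h.bs) (v6 W.z u w b c d) f7) (hq : ¬ FS (mrel0 h.bs) W.z fp2 a c d) : False := by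
  have hf := hit01 (by decide) hf
  have hs := hn1 hf rfl
  by_cases ia : u = a
  · subst ia
    exact c36_7_1 h nd hr hf hq
  exact c36_7_n h (nd_snoc nd (nin5 hs.1 ia hs.2.1 hs.2.2.1 hs.2.2.2)) hr hf hq

theorem P36_10 {V : Type} {W : Mw V} (h : W.Hy) {a b c d u w : V} (nd : [W.z, a, b, c, d].Nodup)
    (hr : Hit (mrel0 h.bs) (pt [a, b, c, d] W.z) rf36)
    (hf : Hit (mrel0 h.bs) (v6 W.z u w b c d) f10) (hq : ¬ FS (mrel0 h.bs) W.z fp2 a c d) : False := by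
  have hf := hit01 (by decide) hf
  have hs := hn1 hf rfl
  by_cases ia : u = a
  · subst ia
    exact c36_10_1 h nd hr hf hq
  exact c36_10_n h (nd_snoc nd (nin5 hs.1 ia hs.2.1 hs.2.2.1 hs.2.2.2)) hr hf hq

theorem P36_11 {V : Type} {W : Mw V} (h : W.Hy) {a b c d u w : V} (nd : [W.z, a, b, c, d].Nodup)
    (hr : Hit (mrel0 h.bs) (pt [a, b, c, d] W.z) rf36)
    (hf : Hit (mrel0 h.bs) (v6 W.z u w b c d) f11) (hq : ¬ FS (mrel0 h.bs) W.z fp2 a c d) : False := by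
  have hf := hit01 (by decide) hf
  have hs := hn1 hf rfl
  by_cases ia : u = a
  · subst ia
    exact c36_11_1 h nd hr hf hq
  exact c36_11_n h (nd_snoc nd (nin5 hs.1 ia hs.2.1 hs.2.2.1 hs.2.2.2)) hr hf hq

theorem P36_12 {V : Type} {W : Mw V} (h : W.Hy) {a b c d u w : V} (nd : [W.z, a, b, c, d].Nodup)
    (hr : Hit (mrel0 h.bs) (pt [a, b, c, d] W.z) rf36)
    (hf : Hit (mrel0 h.bs) (v6 W.z u w b c d) f12) (hq : ¬ FS (mrel0 h.bs) W.z fp2 a c d) : False := by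
  have hf := hit01 (by decide) hf
  have hs := hn1 hf rfl
  by_cases ia : u = a
  · subst ia
    exact c36_12_1 h nd hr hf hq
  exact c36_12_n h (nd_snoc nd (nin5 hs.1 ia hs.2.1 hs.2.2.1 hs.2.2.2)) hr hf hq

theorem P36_13 {V : Type} {W : Mw V} (h : W.Hy) {a b c d u w : V} (nd : [W.z, a, b, c, d].Nodup)
    (hr : Hit (mrel0 h.bs) (pt [a, b, c, d] W.z) rf36)
    (hf : Hit (mrel0 h.bs) (v6 W.z u w b c d) f13) (hq : ¬ FS (mrel0 h.bs) W.z fp2 a c d) : False := by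
  have hf := hit01 (by decide) hf
  have hs := hn1 hf rfl
  by_cases ia : u = a
  · subst ia
    exact c36_13_1 h nd hr hf hq
  exact c36_13_n h (nd_snoc nd (nin5 hs.1 ia hs.2.1 hs.2.2.1 hs.2.2.2)) hr hf hq

theorem P36_14 {V : Type} {W : Mw V} (h : W.Hy) {a b c d u w : V} (nd : [W.z, a, b, c, d].Nodup)
    (hr : Hit (mrel0 h.bs) (pt [a, b, c, d] W.z) rf36)
    (hf : Hit (mrel0 h.bs) (v6 W.z u w b c d) f14) (hq : ¬ FS (mrel0 h.bs) W.z fp2 a c d) : False := by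
  have hs := hn2 hf rfl
  by_cases ia : u = a
  · subst ia
    exact c36_14_1_n h (nd_snoc nd (nin5 hs.2.2.1 hs.1.symm hs.2.2.2.1 hs.2.2.2.2.1 hs.2.2.2.2.2)) hr hf hq
  by_cases ja : w = a
  · subst ja
    exact c36_14_n_1 h (nd_snoc nd (nin5 hs.2.1.1 hs.1 hs.2.1.2.1 hs.2.1.2.2.1 hs.2.1.2.2.2)) hr hf hq
  exact c36_14_n_n h (nd_snoc (nd_snoc nd (nin5 hs.2.1.1 ia hs.2.1.2.1 hs.2.1.2.2.1 hs.2.1.2.2.2)) (nin6 hs.2.2.1 ja hs.2.2.2.1 hs.2.2.2.2.1 hs.2.2.2.2.2 hs.1.symm)) hr hf hq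

theorem P36_15 {V : Type} {W : Mw V} (h : W.Hy) {a b c d u w : V} (nd : [W.z, a, b, c, d].Nodup)
    (hr : Hit (mrel0 h.bs) (pt [a, b, c, d] W.z) rf36)
    (hf : Hit (mrel0 h.bs) (v6 W.z u w b c d) f15) (hq : ¬ FS (mrel0 h.bs) W.z fp2 a c d) : False := by
  have hs := hn2 hf rfl
  by_cases ia : u = a
  · subst ia
    exact c36_15_1_n h (nd_snoc nd (nin5 hs.2.2.1 hs.1.symm hs.2.2.2.1 hs.2.2.2.2.1 hs.2.2.2.2.2)) hr hf hq
  by_cases ja : w = a
  · subst ja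
    exact c36_15_n_1 h (nd_snoc nd (nin5 hs.2.1.1 hs.1 hs.2.1.2.1 hs.2.1.2.2.1 hs.2.1.2.2.2)) hr hf hq
  exact c36_15_n_n h (nd_snoc (nd_snoc nd (nin5 hs.2.1.1 ia hs.2.1.2.1 hs.2.1.2.2.1 hs.2.1.2.2.2)) (nin6 hs.2.2.1 ja hs.2.2.2.1 hs.2.2.2.2.1 hs.2.2.2.2.2 hs.1.symm)) hr hf hq

theorem P36_16 {V : Type} {W : Mw V} (h : W.Hy) {a b c d u w : V} (nd : [W.z, a, b, c, d].Nodup)
    (hr : Hit (mrel0 h.bs) (pt [a, b, c, d] W.z) rf36)
    (hf : Hit (mrel0 h.bs) (v6 W.z u w b c d) f16) (hq : ¬ FS (mrel0 h.bs) W.z fp2 a c d) : False := by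
  have hs := hn2 hf rfl
  by_cases ia : u = a
  · subst ia
    exact c36_16_1_n h (nd_snoc nd (nin5 hs.2.2.1 hs.1.symm hs.2.2.2.1 hs.2.2.2.2.1 hs.2.2.2.2.2)) hr hf hq
  by_cases ja : w = a
  · subst ja
    exact c36_16_n_1 h (nd_snoc nd (nin5 hs.2.1.1 hs.1 hs.2.1.2.1 hs.2.1.2.2.1 hs.2.1.2.2.2)) hr hf hq
  exact c36_16_n_n h (nd_snoc (nd_snoc nd (nin5 hs.2.1.1 ia hs.2.1.2.1 hs.2.1.2.2.1 hs.2.1.2.2.2)) (nin6 hs.2.2.1 ja hs.2.2.2.1 hs.2.2.2.2.1 hs.2.2.2.2.2 hs.1.symm)) hr hf hq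

theorem P36_17 {V : Type} {W : Mw V} (h : W.Hy) {a b c d u w : V} (nd : [W.z, a, b, c, d].Nodup)
    (hr : Hit (mrel0 h.bs) (pt [a, b, c, d] W.z) rf36)
    (hf : Hit (mrel0 h.bs) (v6 W.z u w b c d) f17) (hq : ¬ FS (mrel0 h.bs) W.z fp2 a c d) : False := by
  have hs := hn2 hf rfl
  by_cases ia : u = a
  · subst ia
    exact c36_17_1_n h (nd_snoc nd (nin5 hs.2.2.1 hs.1.symm hs.2.2.2.1 hs.2.2.2.2.1 hs.2.2.2.2.2)) hr hf hq
  by_cases ja : w = a
  · subst ja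
    exact c36_17_n_1 h (nd_snoc nd (nin5 hs.2.1.1 hs.1 hs.2.1.2.1 hs.2.1.2.2.1 hs.2.1.2.2.2)) hr hf hq
  exact c36_17_n_n h (nd_snoc (nd_snoc nd (nin5 hs.2.1.1 ia hs.2.1.2.1 hs.2.1.2.2.1 hs.2.1.2.2.2)) (nin6 hs.2.2.1 ja hs.2.2.2.1 hs.2.2.2.2.1 hs.2.2.2.2.2 hs.1.symm)) hr hf hq

theorem P36_18 {V : Type} {W : Mw V} (h : W.Hy) {a b c d u w : V} (nd : [W.z, a, b, c, d].Nodup)
    (hr : Hit (mrel0 h.bs) (pt [a, b, c, d] W.z) rf36)
    (hf : Hit (mrel0 h.bs) (v6 W.z u w b c d) f18) (hq : ¬ FS (mrel0 h.bs) W.z fp2 a c d) : False := by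
  have hs := hn2 hf rfl
  by_cases ia : u = a
  · subst ia
    exact c36_18_1_n h (nd_snoc nd (nin5 hs.2.2.1 hs.1.symm hs.2.2.2.1 hs.2.2.2.2.1 hs.2.2.2.2.2)) hr hf hq
  by_cases ja : w = a
  · subst ja
    exact c36_18_n_1 h (nd_snoc nd (nin5 hs.2.1.1 hs.1 hs.2.1.2.1 hs.2.1.2.2.1 hs.2.1.2.2.2)) hr hf hq
  exact c36_18_n_n h (nd_snoc (nd_snoc nd (nin5 hs.2.1.1 ia hs.2.1.2.1 hs.2.1.2.2.1 hs.2.1.2.2.2)) (nin6 hs.2.2.1 ja hs.2.2.2.1 hs.2.2.2.2.1 hs.2.2.2.2.2 hs.1.symm)) hr hf hq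

theorem P36_19 {V : Type} {W : Mw V} (h : W.Hy) {a b c d u w : V} (nd : [W.z, a, b, c, d].Nodup)
    (hr : Hit (mrel0 h.bs) (pt [a, b, c, d] W.z) rf36)
    (hf : Hit (mrel0 h.bs) (v6 W.z u w b c d) f19) (hq : ¬ FS (mrel0 h.bs) W.z fp2 a c d) : False := by
  have hs := hn2 hf rfl
  by_cases ia : u = a
  · subst ia
    exact c36_19_1_n h (nd_snoc nd (nin5 hs.2.2.1 hs.1.symm hs.2.2.2.1 hs.2.2.2.2.1 hs.2.2.2.2.2)) hr hf hq
  by_cases ja : w = a
  · subst ja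
    exact c36_19_n_1 h (nd_snoc nd (nin5 hs.2.1.1 hs.1 hs.2.1.2.1 hs.2.1.2.2.1 hs.2.1.2.2.2)) hr hf hq
  exact c36_19_n_n h (nd_snoc (nd_snoc nd (nin5 hs.2.1.1 ia hs.2.1.2.1 hs.2.1.2.2.1 hs.2.1.2.2.2)) (nin6 hs.2.2.1 ja hs.2.2.2.1 hs.2.2.2.2.1 hs.2.2.2.2.2 hs.1.symm)) hr hf hq

theorem P36_20 {V : Type} {W : Mw V} (h : W.Hy) {a b c d u w : V} (nd : [W.z, a, b, c, d].Nodup)
    (hr : Hit (mrel0 h.bs) (pt [a, b, c, d] W.z) rf36)
    (hf : Hit (mrel0 h.bs) (v6 W.z u w b c d) f20) (hq : ¬ FS (mrel0 h.bs) W.z fp2 a c d) : False := by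
  have hs := hn2 hf rfl
  by_cases ia : u = a
  · subst ia
    exact c36_20_1_n h (nd_snoc nd (nin5 hs.2.2.1 hs.1.symm hs.2.2.2.1 hs.2.2.2.2.1 hs.2.2.2.2.2)) hr hf hq
  by_cases ja : w = a
  · subst ja
    exact c36_20_n_1 h (nd_snoc nd (nin5 hs.2.1.1 hs.1 hs.2.1.2.1 hs.2.1.2.2.1 hs.2.1.2.2.2)) hr hf hq
  exact c36_20_n_n h (nd_snoc (nd_snoc nd (nin5 hs.2.1.1 ia hs.2.1.2.1 hs.2.1.2.2.1 hs.2.1.2.2.2)) (nin6 hs.2.2.1 ja hs.2.2.2.1 hs.2.2.2.2.1 hs.2.2.2.2.2 hs.1.symm)) hr hf hq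

theorem R36 {V : Type} {W : Mw V} (h : W.Hy) {a b c d : V} (nd : [W.z, a, b, c, d].Nodup)
    (hr : Hit (mrel0 h.bs) (pt [a, b, c, d] W.z) rf36)
    (hp : FS (mrel0 h.bs) W.z fp2 b c d) : FS (mrel0 h.bs) W.z fp2 a c d := by
  by_contra hq
  obtain ⟨t, ht, u, w, hf⟩ := hp
  simp only [fp2, List.mem_cons, List.not_mem_nil, or_false] at ht
  rcases ht with rfl | rfl | rfl | rfl | rfl | rfl | rfl | rfl | rfl | rfl | rfl | rfl | rfl | rfl
  · exact P36_1 h nd hr hf hq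
  · exact P36_6 h nd hr hf hq
  · exact P36_7 h nd hr hf hq
  · exact P36_10 h nd hr hf hq
  · exact P36_11 h nd hr hf hq
  · exact P36_12 h nd hr hf hq
  · exact P36_13 h nd hr hf hq
  · exact P36_14 h nd hr hf hq
  · exact P36_15 h nd hr hf hq
  · exact P36_16 h nd hr hf hq
  · exact P36_17 h nd hr hf hq
  · exact P36_18 h nd hr hf hq
  · exact P36_19 h nd hr hf hq
  · exact P36_20 h nd hr hf hq

end Pool.Agent.SOU
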