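import Pool.Agent.SOU.TB

/-! Project SOU (MP_66ba69_lc, mixed insertion): rule 38 (generated). -/

set_option autoImplicit false
set_option maxRecDepth 100000
set_option linter.unusedVariables false

namespace Pool.Agent.SOU

open Pool.Agent.RUP Pool.Agent.SOQ

def c38_1_p0 : List Nat := [
0x64821d0000000a1000c000201,
0xb1000000002000200]

def c38_1_pf : List Nat := c38_1_p0

theorem c38_1_ref {V : Type} {S : SRel V} {p : Nat → V} (hp : ∀ i j, i < 5 → j < 5 → p i = p j → i = j)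
    (hts : PHs S p 5 (mA ++ (gf (fun x => 8 + cr 4 x) rf38 ++ (gf (fun x => 8 + c6 0 0 1 2 4 x) f1 ++ fp2.map (tren (n6 1 3 4)))))) : False :=
  refuteS (k := 5) (n2 := 3) (n3 := 1) (n4 := 3) (o3 := 45) (o4 := 80) (M := 440) (mA ++ (gf (fun x => 8 + cr 4 x) rf38 ++ (gf (fun x => 8 + c6 0 0 1 2 4 x) f1 ++ fp2.map (tren (n6 1 3 4))))) c38_1_pf (by decide +kernel)
    (by decide +kernel) (by decide +kernel) (by decide +kernel) hp hts

theorem c38_1 {V : Type} {W : Mw V} (h : W.Hy) {a b c d : V} (nd : [W.z, a, b, c, d].Nodup)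
    (hr : Hit (mrel0 h.bs) (pt [a, b, c, d] W.z) rf38)
    (hf : Hit (mrel0 h.bs) (v6 W.z W.z W.z a b d) f1)
    (hq : ¬ FS (mrel0 h.bs) W.z fp2 a c d) : False :=
  c38_1_ref (pt_inj (o := W.z) nd rfl) (PHs.app (h.ph rfl _) (PHs.app (gf_ph hr (cr 4) (cr_pt (n := 4) (l := [a, b, c, d]) (l' := []) rfl)) (PHs.app (gf_ph hf (c6 0 0 1 2 4) (c6_v6 rfl rfl rfl rfl rfl rfl)) (nf_ph hq (ia := 1) (ib := 3) (ic := 4) rfl rfl rfl rfl))))

def c38_6_n_p0 : List Nat := [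
0x8420030000000970490000201,
0x26084070000000020000000990176000301,
0x4862030000000040481000201,
0x6408207000000097000000006014f000301,
0xabb0000000a90000000b700000009500000008f00000009f00000009300000009d0000000b50000000080000000af000b00]

def c38_6_n_pf : List Nat := c38_6_n_p0

theorem c38_6_n_ref {V : Type} {S : SRel V} {p : Nat → V} (hp : ∀ i j, i < 6 → j < 6 → p i = p j → i = j)
    (hts : PHs S p 6 (mA ++ (gf (fun x => 8 + cr 4 x) rf38 ++ (gf (fun x => 8 + c6 5 0 1 2 4 x) f6 ++ fp2.map (tren (n6 1 3 4)))))) : False :=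
  refuteS (k := 6) (n2 := 3) (n3 := 1) (n4 := 3) (o3 := 63) (o4 := 119) (M := 812) (mA ++ (gf (fun x => 8 + cr 4 x) rf38 ++ (gf (fun x => 8 + c6 5 0 1 2 4 x) f6 ++ fp2.map (tren (n6 1 3 4))))) c38_6_n_pf (by decide +kernel)
    (by decide +kernel) (by decide +kernel) (by decide +kernel) hp hts

theorem c38_6_n {V : Type} {W : Mw V} (h : W.Hy) {a b c d u : V} (nd : [W.z, a, b, c, d, u].Nodup)
    (hr : Hit (mrel0 h.bs) (pt [a, b, c, d] W.z) rf38)
    (hf : Hit (mrel0 h.bs) (v6 W.z u W.z a b d) f6)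
    (hq : ¬ FS (mrel0 h.bs) W.z fp2 a c d) : False :=
  c38_6_n_ref (pt_inj (o := W.z) nd rfl) (PHs.app (h.ph rfl _) (PHs.app (gf_ph hr (cr 4) (cr_pt (n := 4) (l := [a, b, c, d]) (l' := [u]) rfl)) (PHs.app (gf_ph hf (c6 5 0 1 2 4) (c6_v6 rfl rfl rfl rfl rfl rfl)) (nf_ph hq (ia := 1) (ib := 3) (ic := 4) rfl rfl rfl rfl))))

def c38_6_3_p0 : List Nat := [
0xa9000000093000200]

def c38_6_3_pf : List Nat := c38_6_3_p0

theorem c38_6_3_ref {V : Type} {S : SRel V} {p : Nat → V} (hp : ∀ i j, i < 5 → j < 5 → p i = p j → i = j)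
    (hts : PHs S p 5 (mA ++ (gf (fun x => 8 + cr 4 x) rf38 ++ (gf (fun x => 8 + c6 3 0 1 2 4 x) f6 ++ fp2.map (tren (n6 1 3 4)))))) : False :=
  refuteS (k := 5) (n2 := 3) (n3 := 1) (n4 := 3) (o3 := 45) (o4 := 80) (M := 440) (mA ++ (gf (fun x => 8 + cr 4 x) rf38 ++ (gf (fun x => 8 + c6 3 0 1 2 4 x) f6 ++ fp2.map (tren (n6 1 3 4))))) c38_6_3_pf (by decide +kernel)
    (by decide +kernel) (by decide +kernel) (by decide +kernel) hp hts

theorem c38_6_3 {V : Type} {W : Mw V} (h : W.Hy) {a b c d : V} (nd : [W.z, a, b, c, d].Nodup)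
    (hr : Hit (mrel0 h.bs) (pt [a, b, c, d] W.z) rf38)
    (hf : Hit (mrel0 h.bs) (v6 W.z c W.z a b d) f6)
    (hq : ¬ FS (mrel0 h.bs) W.z fp2 a c d) : False :=
  c38_6_3_ref (pt_inj (o := W.z) nd rfl) (PHs.app (h.ph rfl _) (PHs.app (gf_ph hr (cr 4) (cr_pt (n := 4) (l := [a, b, c, d]) (l' := []) rfl)) (PHs.app (gf_ph hf (c6 3 0 1 2 4) (c6_v6 rfl rfl rfl rfl rfl rfl)) (nf_ph hq (ia := 1) (ib := 3) (ic := 4) rfl rfl rfl rfl))))

def c38_7_n_p0 : List Nat := [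
0x8420030000000970490000201,
0x26084070000000020000000990176000301,
0x4862030000000040481000201,
0x6408207000000097000000006014f000301,
0xa4150000000a90000000910000000b7002d000401,
0xabb0000000a90000000b500000009500000008f00000009f00000009300000009d00000000a0000000080000000af000b00]

def c38_7_n_pf : List Nat := c38_7_n_p0

theorem c38_7_n_ref {V : Type} {S : SRel V} {p : Nat → V} (hp : ∀ i j, i < 6 → j < 6 → p i = p j → i = j)
    (hts : PHs S p 6 (mA ++ (gf (fun x => 8 + cr 4 x) rf38 ++ (gf (fun x => 8 + c6 5 0 1 2 4 x) f7 ++ fp2.map (tren (n6 1 3 4)))))) : False :=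
  refuteS (k := 6) (n2 := 3) (n3 := 1) (n4 := 3) (o3 := 63) (o4 := 119) (M := 812) (mA ++ (gf (fun x => 8 + cr 4 x) rf38 ++ (gf (fun x => 8 + c6 5 0 1 2 4 x) f7 ++ fp2.map (tren (n6 1 3 4))))) c38_7_n_pf (by decide +kernel)
    (by decide +kernel) (by decide +kernel) (by decide +kernel) hp hts

theorem c38_7_n {V : Type} {W : Mw V} (h : W.Hy) {a b c d u : V} (nd : [W.z, a, b, c, d, u].Nodup)
    (hr : Hit (mrel0 h.bs) (pt [a, b, c, d] W.z) rf38)
    (hf : Hit (mrel0 h.bs) (v6 W.z u W.z a b d) f7)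
    (hq : ¬ FS (mrel0 h.bs) W.z fp2 a c d) : False :=
  c38_7_n_ref (pt_inj (o := W.z) nd rfl) (PHs.app (h.ph rfl _) (PHs.app (gf_ph hr (cr 4) (cr_pt (n := 4) (l := [a, b, c, d]) (l' := [u]) rfl)) (PHs.app (gf_ph hf (c6 5 0 1 2 4) (c6_v6 rfl rfl rfl rfl rfl rfl)) (nf_ph hq (ia := 1) (ib := 3) (ic := 4) rfl rfl rfl rfl))))

def c38_7_3_p0 : List Nat := [
0xa9000000093000200]

def c38_7_3_pf : List Nat := c38_7_3_p0

theorem c38_7_3_ref {V : Type} {S : SRel V} {p : Nat → V} (hp : ∀ i j, i < 5 → j < 5 → p i = p j → i = j)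
    (hts : PHs S p 5 (mA ++ (gf (fun x => 8 + cr 4 x) rf38 ++ (gf (fun x => 8 + c6 3 0 1 2 4 x) f7 ++ fp2.map (tren (n6 1 3 4)))))) : False :=
  refuteS (k := 5) (n2 := 3) (n3 := 1) (n4 := 3) (o3 := 45) (o4 := 80) (M := 440) (mA ++ (gf (fun x => 8 + cr 4 x) rf38 ++ (gf (fun x => 8 + c6 3 0 1 2 4 x) f7 ++ fp2.map (tren (n6 1 3 4))))) c38_7_3_pf (by decide +kernel)
    (by decide +kernel) (by decide +kernel) (by decide +kernel) hp hts

theorem c38_7_3 {V : Type} {W : Mw V} (h : W.Hy) {a b c d : V} (nd : [W.z, a, b, c, d].Nodup)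
    (hr : Hit (mrel0 h.bs) (pt [a, b, c, d] W.z) rf38)
    (hf : Hit (mrel0 h.bs) (v6 W.z c W.z a b d) f7)
    (hq : ¬ FS (mrel0 h.bs) W.z fp2 a c d) : False :=
  c38_7_3_ref (pt_inj (o := W.z) nd rfl) (PHs.app (h.ph rfl _) (PHs.app (gf_ph hr (cr 4) (cr_pt (n := 4) (l := [a, b, c, d]) (l' := []) rfl)) (PHs.app (gf_ph hf (c6 3 0 1 2 4) (c6_v6 rfl rfl rfl rfl rfl rfl)) (nf_ph hq (ia := 1) (ib := 3) (ic := 4) rfl rfl rfl rfl))))

def c38_10_n_p0 : List Nat := [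
0x8420030000000970490000201,
0x26084070000000020000000990176000301,
0x4862030000000040481000201,
0x6408207000000097000000006014f000301,
0xa2864250000000a10000000b502ca000301,
0x642a8230000000b500000000a02c7000301,
0xabd00000009500000008f00000009f00000009300000009d0000000a50000000080000000ad00000000c000a00]

def c38_10_n_pf : List Nat := c38_10_n_p0

theorem c38_10_n_ref {V : Type} {S : SRel V} {p : Nat → V} (hp : ∀ i j, i < 6 → j < 6 → p i = p j → i = j)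
    (hts : PHs S p 6 (mA ++ (gf (fun x => 8 + cr 4 x) rf38 ++ (gf (fun x => 8 + c6 5 0 1 2 4 x) f10 ++ fp2.map (tren (n6 1 3 4)))))) : False :=
  refuteS (k := 6) (n2 := 3) (n3 := 1) (n4 := 3) (o3 := 63) (o4 := 119) (M := 812) (mA ++ (gf (fun x => 8 + cr 4 x) rf38 ++ (gf (fun x => 8 + c6 5 0 1 2 4 x) f10 ++ fp2.map (tren (n6 1 3 4))))) c38_10_n_pf (by decide +kernel)
    (by decide +kernel) (by decide +kernel) (by decide +kernel) hp hts

theorem c38_10_n {V : Type} {W : Mw V} (h : W.Hy) {a b c d u : V} (nd : [W.z, a, b, c, d, u].Nodup)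
    (hr : Hit (mrel0 h.bs) (pt [a, b, c, d] W.z) rf38)
    (hf : Hit (mrel0 h.bs) (v6 W.z u W.z a b d) f10)
    (hq : ¬ FS (mrel0 h.bs) W.z fp2 a c d) : False :=
  c38_10_n_ref (pt_inj (o := W.z) nd rfl) (PHs.app (h.ph rfl _) (PHs.app (gf_ph hr (cr 4) (cr_pt (n := 4) (l := [a, b, c, d]) (l' := [u]) rfl)) (PHs.app (gf_ph hf (c6 5 0 1 2 4) (c6_v6 rfl rfl rfl rfl rfl rfl)) (nf_ph hq (ia := 1) (ib := 3) (ic := 4) rfl rfl rfl rfl))))

def c38_10_3_p0 : List Nat := [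
0x84200300000009702f5000201,
0x8640030000000990322000201,
0x2608407000000002000000099014f000301,
0x8642030000000060325000201,
0x4208607000000004000000008031c000301,
0xad00000000a000200]

def c38_10_3_pf : List Nat := c38_10_3_p0

theorem c38_10_3_ref {V : Type} {S : SRel V} {p : Nat → V} (hp : ∀ i j, i < 5 → j < 5 → p i = p j → i = j)
    (hts : PHs S p 5 (mA ++ (gf (fun x => 8 + cr 4 x) rf38 ++ (gf (fun x => 8 + c6 3 0 1 2 4 x) f10 ++ fp2.map (tren (n6 1 3 4)))))) : False :=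
  refuteS (k := 5) (n2 := 3) (n3 := 1) (n4 := 3) (o3 := 45) (o4 := 80) (M := 440) (mA ++ (gf (fun x => 8 + cr 4 x) rf38 ++ (gf (fun x => 8 + c6 3 0 1 2 4 x) f10 ++ fp2.map (tren (n6 1 3 4))))) c38_10_3_pf (by decide +kernel)
    (by decide +kernel) (by decide +kernel) (by decide +kernel) hp hts

theorem c38_10_3 {V : Type} {W : Mw V} (h : W.Hy) {a b c d : V} (nd : [W.z, a, b, c, d].Nodup)
    (hr : Hit (mrel0 h.bs) (pt [a, b, c, d] W.z) rf38)
    (hf : Hit (mrel0 h.bs) (v6 W.z c W.z a b d) f10)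
    (hq : ¬ FS (mrel0 h.bs) W.z fp2 a c d) : False :=
  c38_10_3_ref (pt_inj (o := W.z) nd rfl) (PHs.app (h.ph rfl _) (PHs.app (gf_ph hr (cr 4) (cr_pt (n := 4) (l := [a, b, c, d]) (l' := []) rfl)) (PHs.app (gf_ph hf (c6 3 0 1 2 4) (c6_v6 rfl rfl rfl rfl rfl rfl)) (nf_ph hq (ia := 1) (ib := 3) (ic := 4) rfl rfl rfl rfl))))

def c38_11_n_p0 : List Nat := [
0x8420030000000970490000201,
0x26084070000000020000000990176000301,
0x4862030000000040481000201,
0x6408207000000097000000006014f000301,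
0x28641d0000000a10024000201,
0x8a20030000000ad052c000201,
0xa40820700000009700000000c0263000301,
0x4a820300000000e055f000201,
0xa4821b00000000e0590000201,
0xa628407000000004000000010029c000301,
0x268a4250000000a10000000120596000301,
0x8a641d0000000b505f6000201,
0xa6841f00000001400000001600000000a0000000180362000501,
0xac100000001a00000009500000008f00000009f00000009300000009d0000000b70000000a50000000080000000ad000b00]

def c38_11_n_pf : List Nat := c38_11_n_p0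

theorem c38_11_n_ref {V : Type} {S : SRel V} {p : Nat → V} (hp : ∀ i j, i < 6 → j < 6 → p i = p j → i = j)
    (hts : PHs S p 6 (mA ++ (gf (fun x => 8 + cr 4 x) rf38 ++ (gf (fun x => 8 + c6 5 0 1 2 4 x) f11 ++ fp2.map (tren (n6 1 3 4)))))) : False :=
  refuteS (k := 6) (n2 := 3) (n3 := 1) (n4 := 3) (o3 := 63) (o4 := 119) (M := 812) (mA ++ (gf (fun x => 8 + cr 4 x) rf38 ++ (gf (fun x => 8 + c6 5 0 1 2 4 x) f11 ++ fp2.map (tren (n6 1 3 4))))) c38_11_n_pf (by decide +kernel)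
    (by decide +kernel) (by decide +kernel) (by decide +kernel) hp hts

theorem c38_11_n {V : Type} {W : Mw V} (h : W.Hy) {a b c d u : V} (nd : [W.z, a, b, c, d, u].Nodup)
    (hr : Hit (mrel0 h.bs) (pt [a, b, c, d] W.z) rf38)
    (hf : Hit (mrel0 h.bs) (v6 W.z u W.z a b d) f11)
    (hq : ¬ FS (mrel0 h.bs) W.z fp2 a c d) : False :=
  c38_11_n_ref (pt_inj (o := W.z) nd rfl) (PHs.app (h.ph rfl _) (PHs.app (gf_ph hr (cr 4) (cr_pt (n := 4) (l := [a, b, c, d]) (l' := [u]) rfl)) (PHs.app (gf_ph hf (c6 5 0 1 2 4) (c6_v6 rfl rfl rfl rfl rfl rfl)) (nf_ph hq (ia := 1) (ib := 3) (ic := 4) rfl rfl rfl rfl))))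

def c38_11_3_p0 : List Nat := [
0x84200300000009702f5000201,
0x8640030000000990322000201,
0x2608407000000002000000099014f000301,
0x8642030000000060325000201,
0x4208607000000004000000008031c000301,
0xad00000000a000200]

def c38_11_3_pf : List Nat := c38_11_3_p0

theorem c38_11_3_ref {V : Type} {S : SRel V} {p : Nat → V} (hp : ∀ i j, i < 5 → j < 5 → p i = p j → i = j)
    (hts : PHs S p 5 (mA ++ (gf (fun x => 8 + cr 4 x) rf38 ++ (gf (fun x => 8 + c6 3 0 1 2 4 x) f11 ++ fp2.map (tren (n6 1 3 4)))))) : False :=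
  refuteS (k := 5) (n2 := 3) (n3 := 1) (n4 := 3) (o3 := 45) (o4 := 80) (M := 440) (mA ++ (gf (fun x => 8 + cr 4 x) rf38 ++ (gf (fun x => 8 + c6 3 0 1 2 4 x) f11 ++ fp2.map (tren (n6 1 3 4))))) c38_11_3_pf (by decide +kernel)
    (by decide +kernel) (by decide +kernel) (by decide +kernel) hp hts

theorem c38_11_3 {V : Type} {W : Mw V} (h : W.Hy) {a b c d : V} (nd : [W.z, a, b, c, d].Nodup)
    (hr : Hit (mrel0 h.bs) (pt [a, b, c, d] W.z) rf38)
    (hf : Hit (mrel0 h.bs) (v6 W.z c W.z a b d) f11)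
    (hq : ¬ FS (mrel0 h.bs) W.z fp2 a c d) : False :=
  c38_11_3_ref (pt_inj (o := W.z) nd rfl) (PHs.app (h.ph rfl _) (PHs.app (gf_ph hr (cr 4) (cr_pt (n := 4) (l := [a, b, c, d]) (l' := []) rfl)) (PHs.app (gf_ph hf (c6 3 0 1 2 4) (c6_v6 rfl rfl rfl rfl rfl rfl)) (nf_ph hq (ia := 1) (ib := 3) (ic := 4) rfl rfl rfl rfl))))

def c38_12_n_p0 : List Nat := [
0x8420030000000970490000201,
0x86400300000009904bd000201,
0x26084070000000020000000990176000301,
0x682400700000009700000000400d4000301,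
0x86420300000000604c0000201,
0x4862030000000060481000201,
0x420860700000000400000000a04b7000301,
0x640820700000009700000000c014f000301,
0x46821d0000000a10015000201,
0x84265100000009500000008f0000000910000000930000000100000000a103ef000701,
0x6243700000001200000009b00000008f00000000800000009100000009300000001400e7000801,
0x2a084070000000020000000af0233000301,
0x4a8203000000018058f000201,
0xa40820700000009700000001a0200000301,
0x6a2330000000a900000008f0000000930000000b505a8000501,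
0x8a130000000a90000000950000000b7002d000401,
0xac30000000b500000009500000008f00000009f00000009300000009d0000000b70000000a90000000100532000a01,
0xa2860700000000e0000000220562000301,
0x682a00700000001c00000002201f4000301,
0x684a2070000000180000000240227000301,
0x62a3700000001e00000002000000008f0000000120000000930000000a90000000260222000801,
0x64a21b0000000280554000201,
0x46a2550000000a900000008f00000009100000009300000001600000002c00000002a000800]

def c38_12_n_pf : List Nat := c38_12_n_p0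

theorem c38_12_n_ref {V : Type} {S : SRel V} {p : Nat → V} (hp : ∀ i j, i < 6 → j < 6 → p i = p j → i = j)
    (hts : PHs S p 6 (mA ++ (gf (fun x => 8 + cr 4 x) rf38 ++ (gf (fun x => 8 + c6 5 0 1 2 4 x) f12 ++ fp2.map (tren (n6 1 3 4)))))) : False :=
  refuteS (k := 6) (n2 := 3) (n3 := 1) (n4 := 3) (o3 := 63) (o4 := 119) (M := 812) (mA ++ (gf (fun x => 8 + cr 4 x) rf38 ++ (gf (fun x => 8 + c6 5 0 1 2 4 x) f12 ++ fp2.map (tren (n6 1 3 4))))) c38_12_n_pf (by decide +kernel)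
    (by decide +kernel) (by decide +kernel) (by decide +kernel) hp hts

theorem c38_12_n {V : Type} {W : Mw V} (h : W.Hy) {a b c d u : V} (nd : [W.z, a, b, c, d, u].Nodup)
    (hr : Hit (mrel0 h.bs) (pt [a, b, c, d] W.z) rf38)
    (hf : Hit (mrel0 h.bs) (v6 W.z u W.z a b d) f12)
    (hq : ¬ FS (mrel0 h.bs) W.z fp2 a c d) : False :=
  c38_12_n_ref (pt_inj (o := W.z) nd rfl) (PHs.app (h.ph rfl _) (PHs.app (gf_ph hr (cr 4) (cr_pt (n := 4) (l := [a, b, c, d]) (l' := [u]) rfl)) (PHs.app (gf_ph hf (c6 5 0 1 2 4) (c6_v6 rfl rfl rfl rfl rfl rfl)) (nf_ph hq (ia := 1) (ib := 3) (ic := 4) rfl rfl rfl rfl))))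

def c38_12_3_p0 : List Nat := [
0x46821d0000000a10015000201,
0xb5000000002000200]

def c38_12_3_pf : List Nat := c38_12_3_p0

theorem c38_12_3_ref {V : Type} {S : SRel V} {p : Nat → V} (hp : ∀ i j, i < 5 → j < 5 → p i = p j → i = j)
    (hts : PHs S p 5 (mA ++ (gf (fun x => 8 + cr 4 x) rf38 ++ (gf (fun x => 8 + c6 3 0 1 2 4 x) f12 ++ fp2.map (tren (n6 1 3 4)))))) : False :=
  refuteS (k := 5) (n2 := 3) (n3 := 1) (n4 := 3) (o3 := 45) (o4 := 80) (M := 440) (mA ++ (gf (fun x => 8 + cr 4 x) rf38 ++ (gf (fun x => 8 + c6 3 0 1 2 4 x) f12 ++ fp2.map (tren (n6 1 3 4))))) c38_12_3_pf (by decide +kernel)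
    (by decide +kernel) (by decide +kernel) (by decide +kernel) hp hts

theorem c38_12_3 {V : Type} {W : Mw V} (h : W.Hy) {a b c d : V} (nd : [W.z, a, b, c, d].Nodup)
    (hr : Hit (mrel0 h.bs) (pt [a, b, c, d] W.z) rf38)
    (hf : Hit (mrel0 h.bs) (v6 W.z c W.z a b d) f12)
    (hq : ¬ FS (mrel0 h.bs) W.z fp2 a c d) : False :=
  c38_12_3_ref (pt_inj (o := W.z) nd rfl) (PHs.app (h.ph rfl _) (PHs.app (gf_ph hr (cr 4) (cr_pt (n := 4) (l := [a, b, c, d]) (l' := []) rfl)) (PHs.app (gf_ph hf (c6 3 0 1 2 4) (c6_v6 rfl rfl rfl rfl rfl rfl)) (nf_ph hq (ia := 1) (ib := 3) (ic := 4) rfl rfl rfl rfl))))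

def c38_13_n_p0 : List Nat := [
0x8420030000000970490000201,
0x86400300000009904bd000201,
0x26084070000000020000000990176000301,
0x682400700000009700000000400d4000301,
0x4862030000000060481000201,
0x640820700000009700000000a014f000301,
0x46821d0000000a10015000201,
0x84265100000009500000008f00000009100000009300000000c0000000a103ef000701,
0x6243700000000e00000009b00000008f00000000800000009100000009300000001000e7000801,
0x624a4b0000000a900000008f0000000910000000930000000120000000b501f8000701,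
0x64a2b0000000910000000930000000a90000000140523000501,
0x642a3f0000000b500000008f0000000910000000930000000a900000001401f5000701,
0x684a0070000000af0000000160206000301,
0xac300000009500000008f00000009f00000009300000009d0000000a900000000c00000001800000001a000a00]

def c38_13_n_pf : List Nat := c38_13_n_p0

theorem c38_13_n_ref {V : Type} {S : SRel V} {p : Nat → V} (hp : ∀ i j, i < 6 → j < 6 → p i = p j → i = j)
    (hts : PHs S p 6 (mA ++ (gf (fun x => 8 + cr 4 x) rf38 ++ (gf (fun x => 8 + c6 5 0 1 2 4 x) f13 ++ fp2.map (tren (n6 1 3 4)))))) : False :=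
  refuteS (k := 6) (n2 := 3) (n3 := 1) (n4 := 3) (o3 := 63) (o4 := 119) (M := 812) (mA ++ (gf (fun x => 8 + cr 4 x) rf38 ++ (gf (fun x => 8 + c6 5 0 1 2 4 x) f13 ++ fp2.map (tren (n6 1 3 4))))) c38_13_n_pf (by decide +kernel)
    (by decide +kernel) (by decide +kernel) (by decide +kernel) hp hts

theorem c38_13_n {V : Type} {W : Mw V} (h : W.Hy) {a b c d u : V} (nd : [W.z, a, b, c, d, u].Nodup)
    (hr : Hit (mrel0 h.bs) (pt [a, b, c, d] W.z) rf38)
    (hf : Hit (mrel0 h.bs) (v6 W.z u W.z a b d) f13)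
    (hq : ¬ FS (mrel0 h.bs) W.z fp2 a c d) : False :=
  c38_13_n_ref (pt_inj (o := W.z) nd rfl) (PHs.app (h.ph rfl _) (PHs.app (gf_ph hr (cr 4) (cr_pt (n := 4) (l := [a, b, c, d]) (l' := [u]) rfl)) (PHs.app (gf_ph hf (c6 5 0 1 2 4) (c6_v6 rfl rfl rfl rfl rfl rfl)) (nf_ph hq (ia := 1) (ib := 3) (ic := 4) rfl rfl rfl rfl))))

def c38_13_3_p0 : List Nat := [
0x84200300000009702f5000201,
0x2608407000000002000000099014f000301,
0x48620300000000402e6000201,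
0x64082070000000970000000060128000301,
0x84265100000009500000008f0000000910000000930000000080000000a10254000701,
0xb500000000a000200]

def c38_13_3_pf : List Nat := c38_13_3_p0

theorem c38_13_3_ref {V : Type} {S : SRel V} {p : Nat → V} (hp : ∀ i j, i < 5 → j < 5 → p i = p j → i = j)
    (hts : PHs S p 5 (mA ++ (gf (fun x => 8 + cr 4 x) rf38 ++ (gf (fun x => 8 + c6 3 0 1 2 4 x) f13 ++ fp2.map (tren (n6 1 3 4)))))) : False :=
  refuteS (k := 5) (n2 := 3) (n3 := 1) (n4 := 3) (o3 := 45) (o4 := 80) (M := 440) (mA ++ (gf (fun x => 8 + cr 4 x) rf38 ++ (gf (fun x => 8 + c6 3 0 1 2 4 x) f13 ++ fp2.map (tren (n6 1 3 4))))) c38_13_3_pf (by decide +kernel)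
    (by decide +kernel) (by decide +kernel) (by decide +kernel) hp hts

theorem c38_13_3 {V : Type} {W : Mw V} (h : W.Hy) {a b c d : V} (nd : [W.z, a, b, c, d].Nodup)
    (hr : Hit (mrel0 h.bs) (pt [a, b, c, d] W.z) rf38)
    (hf : Hit (mrel0 h.bs) (v6 W.z c W.z a b d) f13)
    (hq : ¬ FS (mrel0 h.bs) W.z fp2 a c d) : False :=
  c38_13_3_ref (pt_inj (o := W.z) nd rfl) (PHs.app (h.ph rfl _) (PHs.app (gf_ph hr (cr 4) (cr_pt (n := 4) (l := [a, b, c, d]) (l' := []) rfl)) (PHs.app (gf_ph hf (c6 3 0 1 2 4) (c6_v6 rfl rfl rfl rfl rfl rfl)) (nf_ph hq (ia := 1) (ib := 3) (ic := 4) rfl rfl rfl rfl))))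

def c38_14_n_n_p0 : List Nat := [
0x84200300000009706ff000201,
0x260840700000000200000009901a7000301,
0x48620300000000406f0000201,
0x64082070000000970000000060180000301,
0xc860b0000000950000000930000000ad09f3000401,
0xc82600700000000800000000a03b1000301,
0xcacb0000000ad0000000a900000009500000008f00000009f00000009300000009d0000000b10000000b900000000c0000000b30000000bb000d00]

def c38_14_n_n_pf : List Nat := c38_14_n_n_p0

theorem c38_14_n_n_ref {V : Type} {S : SRel V} {p : Nat → V} (hp : ∀ i j, i < 7 → j < 7 → p i = p j → i = j)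
    (hts : PHs S p 7 (mA ++ (gf (fun x => 8 + cr 4 x) rf38 ++ (gf (fun x => 8 + c6 5 6 1 2 4 x) f14 ++ fp2.map (tren (n6 1 3 4)))))) : False :=
  refuteS (k := 7) (n2 := 3) (n3 := 1) (n4 := 3) (o3 := 84) (o4 := 168) (M := 1386) (mA ++ (gf (fun x => 8 + cr 4 x) rf38 ++ (gf (fun x => 8 + c6 5 6 1 2 4 x) f14 ++ fp2.map (tren (n6 1 3 4))))) c38_14_n_n_pf (by decide +kernel)
    (by decide +kernel) (by decide +kernel) (by decide +kernel) hp hts

theorem c38_14_n_n {V : Type} {W : Mw V} (h : W.Hy) {a b c d u w : V} (nd : [W.z, a, b, c, d, u, w].Nodup)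
    (hr : Hit (mrel0 h.bs) (pt [a, b, c, d] W.z) rf38)
    (hf : Hit (mrel0 h.bs) (v6 W.z u w a b d) f14)
    (hq : ¬ FS (mrel0 h.bs) W.z fp2 a c d) : False :=
  c38_14_n_n_ref (pt_inj (o := W.z) nd rfl) (PHs.app (h.ph rfl _) (PHs.app (gf_ph hr (cr 4) (cr_pt (n := 4) (l := [a, b, c, d]) (l' := [u, w]) rfl)) (PHs.app (gf_ph hf (c6 5 6 1 2 4) (c6_v6 rfl rfl rfl rfl rfl rfl)) (nf_ph hq (ia := 1) (ib := 3) (ic := 4) rfl rfl rfl rfl))))

def c38_14_n_3_p0 : List Nat := [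
0xad000000093000200]

def c38_14_n_3_pf : List Nat := c38_14_n_3_p0

theorem c38_14_n_3_ref {V : Type} {S : SRel V} {p : Nat → V} (hp : ∀ i j, i < 6 → j < 6 → p i = p j → i = j)
    (hts : PHs S p 6 (mA ++ (gf (fun x => 8 + cr 4 x) rf38 ++ (gf (fun x => 8 + c6 5 3 1 2 4 x) f14 ++ fp2.map (tren (n6 1 3 4)))))) : False :=
  refuteS (k := 6) (n2 := 3) (n3 := 1) (n4 := 3) (o3 := 63) (o4 := 119) (M := 812) (mA ++ (gf (fun x => 8 + cr 4 x) rf38 ++ (gf (fun x => 8 + c6 5 3 1 2 4 x) f14 ++ fp2.map (tren (n6 1 3 4))))) c38_14_n_3_pf (by decide +kernel)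
    (by decide +kernel) (by decide +kernel) (by decide +kernel) hp hts

theorem c38_14_n_3 {V : Type} {W : Mw V} (h : W.Hy) {a b c d u : V} (nd : [W.z, a, b, c, d, u].Nodup)
    (hr : Hit (mrel0 h.bs) (pt [a, b, c, d] W.z) rf38)
    (hf : Hit (mrel0 h.bs) (v6 W.z u c a b d) f14)
    (hq : ¬ FS (mrel0 h.bs) W.z fp2 a c d) : False :=
  c38_14_n_3_ref (pt_inj (o := W.z) nd rfl) (PHs.app (h.ph rfl _) (PHs.app (gf_ph hr (cr 4) (cr_pt (n := 4) (l := [a, b, c, d]) (l' := [u]) rfl)) (PHs.app (gf_ph hf (c6 5 3 1 2 4) (c6_v6 rfl rfl rfl rfl rfl rfl)) (nf_ph hq (ia := 1) (ib := 3) (ic := 4) rfl rfl rfl rfl))))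

def c38_14_3_n_p0 : List Nat := [
0xa9000000093000200]

def c38_14_3_n_pf : List Nat := c38_14_3_n_p0

theorem c38_14_3_n_ref {V : Type} {S : SRel V} {p : Nat → V} (hp : ∀ i j, i < 6 → j < 6 → p i = p j → i = j)
    (hts : PHs S p 6 (mA ++ (gf (fun x => 8 + cr 4 x) rf38 ++ (gf (fun x => 8 + c6 3 5 1 2 4 x) f14 ++ fp2.map (tren (n6 1 3 4)))))) : False :=
  refuteS (k := 6) (n2 := 3) (n3 := 1) (n4 := 3) (o3 := 63) (o4 := 119) (M := 812) (mA ++ (gf (fun x => 8 + cr 4 x) rf38 ++ (gf (fun x => 8 + c6 3 5 1 2 4 x) f14 ++ fp2.map (tren (n6 1 3 4))))) c38_14_3_n_pf (by decide +kernel)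
    (by decide +kernel) (by decide +kernel) (by decide +kernel) hp hts

theorem c38_14_3_n {V : Type} {W : Mw V} (h : W.Hy) {a b c d w : V} (nd : [W.z, a, b, c, d, w].Nodup)
    (hr : Hit (mrel0 h.bs) (pt [a, b, c, d] W.z) rf38)
    (hf : Hit (mrel0 h.bs) (v6 W.z c w a b d) f14)
    (hq : ¬ FS (mrel0 h.bs) W.z fp2 a c d) : False :=
  c38_14_3_n_ref (pt_inj (o := W.z) nd rfl) (PHs.app (h.ph rfl _) (PHs.app (gf_ph hr (cr 4) (cr_pt (n := 4) (l := [a, b, c, d]) (l' := [w]) rfl)) (PHs.app (gf_ph hf (c6 3 5 1 2 4) (c6_v6 rfl rfl rfl rfl rfl rfl)) (nf_ph hq (ia := 1) (ib := 3) (ic := 4) rfl rfl rfl rfl))))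

def c38_15_n_n_p0 : List Nat := [
0x84200300000009706ff000201,
0x260840700000000200000009901a7000301,
0x48620300000000406f0000201,
0x64082070000000970000000060180000301,
0xcacd0000000ab0000000a900000009500000008f00000009f00000009300000009d0000000080000000b30000000b10000000bb0000000b9000d00]

def c38_15_n_n_pf : List Nat := c38_15_n_n_p0

theorem c38_15_n_n_ref {V : Type} {S : SRel V} {p : Nat → V} (hp : ∀ i j, i < 7 → j < 7 → p i = p j → i = j)
    (hts : PHs S p 7 (mA ++ (gf (fun x => 8 + cr 4 x) rf38 ++ (gf (fun x => 8 + c6 5 6 1 2 4 x) f15 ++ fp2.map (tren (n6 1 3 4)))))) : False :=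
  refuteS (k := 7) (n2 := 3) (n3 := 1) (n4 := 3) (o3 := 84) (o4 := 168) (M := 1386) (mA ++ (gf (fun x => 8 + cr 4 x) rf38 ++ (gf (fun x => 8 + c6 5 6 1 2 4 x) f15 ++ fp2.map (tren (n6 1 3 4))))) c38_15_n_n_pf (by decide +kernel)
    (by decide +kernel) (by decide +kernel) (by decide +kernel) hp hts

theorem c38_15_n_n {V : Type} {W : Mw V} (h : W.Hy) {a b c d u w : V} (nd : [W.z, a, b, c, d, u, w].Nodup)
    (hr : Hit (mrel0 h.bs) (pt [a, b, c, d] W.z) rf38)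
    (hf : Hit (mrel0 h.bs) (v6 W.z u w a b d) f15)
    (hq : ¬ FS (mrel0 h.bs) W.z fp2 a c d) : False :=
  c38_15_n_n_ref (pt_inj (o := W.z) nd rfl) (PHs.app (h.ph rfl _) (PHs.app (gf_ph hr (cr 4) (cr_pt (n := 4) (l := [a, b, c, d]) (l' := [u, w]) rfl)) (PHs.app (gf_ph hf (c6 5 6 1 2 4) (c6_v6 rfl rfl rfl rfl rfl rfl)) (nf_ph hq (ia := 1) (ib := 3) (ic := 4) rfl rfl rfl rfl))))

def c38_15_n_3_p0 : List Nat := [
0xab000000093000200]

def c38_15_n_3_pf : List Nat := c38_15_n_3_p0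

theorem c38_15_n_3_ref {V : Type} {S : SRel V} {p : Nat → V} (hp : ∀ i j, i < 6 → j < 6 → p i = p j → i = j)
    (hts : PHs S p 6 (mA ++ (gf (fun x => 8 + cr 4 x) rf38 ++ (gf (fun x => 8 + c6 5 3 1 2 4 x) f15 ++ fp2.map (tren (n6 1 3 4)))))) : False :=
  refuteS (k := 6) (n2 := 3) (n3 := 1) (n4 := 3) (o3 := 63) (o4 := 119) (M := 812) (mA ++ (gf (fun x => 8 + cr 4 x) rf38 ++ (gf (fun x => 8 + c6 5 3 1 2 4 x) f15 ++ fp2.map (tren (n6 1 3 4))))) c38_15_n_3_pf (by decide +kernel)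
    (by decide +kernel) (by decide +kernel) (by decide +kernel) hp hts

theorem c38_15_n_3 {V : Type} {W : Mw V} (h : W.Hy) {a b c d u : V} (nd : [W.z, a, b, c, d, u].Nodup)
    (hr : Hit (mrel0 h.bs) (pt [a, b, c, d] W.z) rf38)
    (hf : Hit (mrel0 h.bs) (v6 W.z u c a b d) f15)
    (hq : ¬ FS (mrel0 h.bs) W.z fp2 a c d) : False :=
  c38_15_n_3_ref (pt_inj (o := W.z) nd rfl) (PHs.app (h.ph rfl _) (PHs.app (gf_ph hr (cr 4) (cr_pt (n := 4) (l := [a, b, c, d]) (l' := [u]) rfl)) (PHs.app (gf_ph hf (c6 5 3 1 2 4) (c6_v6 rfl rfl rfl rfl rfl rfl)) (nf_ph hq (ia := 1) (ib := 3) (ic := 4) rfl rfl rfl rfl))))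

def c38_15_3_n_p0 : List Nat := [
0xa9000000093000200]

def c38_15_3_n_pf : List Nat := c38_15_3_n_p0

theorem c38_15_3_n_ref {V : Type} {S : SRel V} {p : Nat → V} (hp : ∀ i j, i < 6 → j < 6 → p i = p j → i = j)
    (hts : PHs S p 6 (mA ++ (gf (fun x => 8 + cr 4 x) rf38 ++ (gf (fun x => 8 + c6 3 5 1 2 4 x) f15 ++ fp2.map (tren (n6 1 3 4)))))) : False :=
  refuteS (k := 6) (n2 := 3) (n3 := 1) (n4 := 3) (o3 := 63) (o4 := 119) (M := 812) (mA ++ (gf (fun x => 8 + cr 4 x) rf38 ++ (gf (fun x => 8 + c6 3 5 1 2 4 x) f15 ++ fp2.map (tren (n6 1 3 4))))) c38_15_3_n_pf (by decide +kernel)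
    (by decide +kernel) (by decide +kernel) (by decide +kernel) hp hts

theorem c38_15_3_n {V : Type} {W : Mw V} (h : W.Hy) {a b c d w : V} (nd : [W.z, a, b, c, d, w].Nodup)
    (hr : Hit (mrel0 h.bs) (pt [a, b, c, d] W.z) rf38)
    (hf : Hit (mrel0 h.bs) (v6 W.z c w a b d) f15)
    (hq : ¬ FS (mrel0 h.bs) W.z fp2 a c d) : False :=
  c38_15_3_n_ref (pt_inj (o := W.z) nd rfl) (PHs.app (h.ph rfl _) (PHs.app (gf_ph hr (cr 4) (cr_pt (n := 4) (l := [a, b, c, d]) (l' := [w]) rfl)) (PHs.app (gf_ph hf (c6 3 5 1 2 4) (c6_v6 rfl rfl rfl rfl rfl rfl)) (nf_ph hq (ia := 1) (ib := 3) (ic := 4) rfl rfl rfl rfl))))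

def c38_16_n_n_p0 : List Nat := [
0x84200300000009706ff000201,
0x260840700000000200000009901a7000301,
0x48620300000000406f0000201,
0x64082070000000970000000060180000301,
0x28641d0000000a10024000201,
0x42c0d00000009100000008f0000000ad08d3000401,
0xc860b0000000950000000930000000ad09f3000401,
0xc82600700000000800000000e03b1000301,
0x2a80030000000b1079b000201,
0xa4082070000000970000000120294000301,
0x2ca0030000000b308f7000201,
0x8c2a0070000000120000000b304a4000301,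
0xc80a2070000000b100000001604a7000301,
0x2a4c00700000000c00000001608fa000301,
0x8ca0030000000180900000201,
0xca820300000001a0a50000201,
0xa84c00700000001e00000001c08eb000301,
0xca482070000000140000000200405000301,
0xc6084070000000990000000220450000301,
0xc4821b0000000240970000201,
0x268c4250000000a10000000280976000301,
0x8c641d0000000bb09fa000201,
0xc6841f00000002a00000002600000000a00000002c05b2000501,
0xcad10000000ad00000002e0000000ab0000000b900000009500000008f00000009f00000009300000009d0000000b10000000bd0000000100000000b3000e00]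

def c38_16_n_n_pf : List Nat := c38_16_n_n_p0

theorem c38_16_n_n_ref {V : Type} {S : SRel V} {p : Nat → V} (hp : ∀ i j, i < 7 → j < 7 → p i = p j → i = j)
    (hts : PHs S p 7 (mA ++ (gf (fun x => 8 + cr 4 x) rf38 ++ (gf (fun x => 8 + c6 5 6 1 2 4 x) f16 ++ fp2.map (tren (n6 1 3 4)))))) : False :=
  refuteS (k := 7) (n2 := 3) (n3 := 1) (n4 := 3) (o3 := 84) (o4 := 168) (M := 1386) (mA ++ (gf (fun x => 8 + cr 4 x) rf38 ++ (gf (fun x => 8 + c6 5 6 1 2 4 x) f16 ++ fp2.map (tren (n6 1 3 4))))) c38_16_n_n_pf (by decide +kernel)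
    (by decide +kernel) (by decide +kernel) (by decide +kernel) hp hts

theorem c38_16_n_n {V : Type} {W : Mw V} (h : W.Hy) {a b c d u w : V} (nd : [W.z, a, b, c, d, u, w].Nodup)
    (hr : Hit (mrel0 h.bs) (pt [a, b, c, d] W.z) rf38)
    (hf : Hit (mrel0 h.bs) (v6 W.z u w a b d) f16)
    (hq : ¬ FS (mrel0 h.bs) W.z fp2 a c d) : False :=
  c38_16_n_n_ref (pt_inj (o := W.z) nd rfl) (PHs.app (h.ph rfl _) (PHs.app (gf_ph hr (cr 4) (cr_pt (n := 4) (l := [a, b, c, d]) (l' := [u, w]) rfl)) (PHs.app (gf_ph hf (c6 5 6 1 2 4) (c6_v6 rfl rfl rfl rfl rfl rfl)) (nf_ph hq (ia := 1) (ib := 3) (ic := 4) rfl rfl rfl rfl))))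

def c38_16_n_3_p0 : List Nat := [
0xad000000093000200]

def c38_16_n_3_pf : List Nat := c38_16_n_3_p0

theorem c38_16_n_3_ref {V : Type} {S : SRel V} {p : Nat → V} (hp : ∀ i j, i < 6 → j < 6 → p i = p j → i = j)
    (hts : PHs S p 6 (mA ++ (gf (fun x => 8 + cr 4 x) rf38 ++ (gf (fun x => 8 + c6 5 3 1 2 4 x) f16 ++ fp2.map (tren (n6 1 3 4)))))) : False :=
  refuteS (k := 6) (n2 := 3) (n3 := 1) (n4 := 3) (o3 := 63) (o4 := 119) (M := 812) (mA ++ (gf (fun x => 8 + cr 4 x) rf38 ++ (gf (fun x => 8 + c6 5 3 1 2 4 x) f16 ++ fp2.map (tren (n6 1 3 4))))) c38_16_n_3_pf (by decide +kernel)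
    (by decide +kernel) (by decide +kernel) (by decide +kernel) hp hts

theorem c38_16_n_3 {V : Type} {W : Mw V} (h : W.Hy) {a b c d u : V} (nd : [W.z, a, b, c, d, u].Nodup)
    (hr : Hit (mrel0 h.bs) (pt [a, b, c, d] W.z) rf38)
    (hf : Hit (mrel0 h.bs) (v6 W.z u c a b d) f16)
    (hq : ¬ FS (mrel0 h.bs) W.z fp2 a c d) : False :=
  c38_16_n_3_ref (pt_inj (o := W.z) nd rfl) (PHs.app (h.ph rfl _) (PHs.app (gf_ph hr (cr 4) (cr_pt (n := 4) (l := [a, b, c, d]) (l' := [u]) rfl)) (PHs.app (gf_ph hf (c6 5 3 1 2 4) (c6_v6 rfl rfl rfl rfl rfl rfl)) (nf_ph hq (ia := 1) (ib := 3) (ic := 4) rfl rfl rfl rfl))))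

def c38_16_3_n_p0 : List Nat := [
0xab000000093000200]

def c38_16_3_n_pf : List Nat := c38_16_3_n_p0

theorem c38_16_3_n_ref {V : Type} {S : SRel V} {p : Nat → V} (hp : ∀ i j, i < 6 → j < 6 → p i = p j → i = j)
    (hts : PHs S p 6 (mA ++ (gf (fun x => 8 + cr 4 x) rf38 ++ (gf (fun x => 8 + c6 3 5 1 2 4 x) f16 ++ fp2.map (tren (n6 1 3 4)))))) : False :=
  refuteS (k := 6) (n2 := 3) (n3 := 1) (n4 := 3) (o3 := 63) (o4 := 119) (M := 812) (mA ++ (gf (fun x => 8 + cr 4 x) rf38 ++ (gf (fun x => 8 + c6 3 5 1 2 4 x) f16 ++ fp2.map (tren (n6 1 3 4))))) c38_16_3_n_pf (by decide +kernel)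
    (by decide +kernel) (by decide +kernel) (by decide +kernel) hp hts

theorem c38_16_3_n {V : Type} {W : Mw V} (h : W.Hy) {a b c d w : V} (nd : [W.z, a, b, c, d, w].Nodup)
    (hr : Hit (mrel0 h.bs) (pt [a, b, c, d] W.z) rf38)
    (hf : Hit (mrel0 h.bs) (v6 W.z c w a b d) f16)
    (hq : ¬ FS (mrel0 h.bs) W.z fp2 a c d) : False :=
  c38_16_3_n_ref (pt_inj (o := W.z) nd rfl) (PHs.app (h.ph rfl _) (PHs.app (gf_ph hr (cr 4) (cr_pt (n := 4) (l := [a, b, c, d]) (l' := [w]) rfl)) (PHs.app (gf_ph hf (c6 3 5 1 2 4) (c6_v6 rfl rfl rfl rfl rfl rfl)) (nf_ph hq (ia := 1) (ib := 3) (ic := 4) rfl rfl rfl rfl))))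

def c38_17_n_n_p0 : List Nat := [
0x84200300000009706ff000201,
0x260840700000000200000009901a7000301,
0x48620300000000406f0000201,
0x64082070000000970000000060180000301,
0x28641d0000000a10024000201,
0xa840b0000000950000000910000000ab0855000401,
0xa82400700000009700000000c0249000301,
0xc860b0000000950000000930000000ad09f3000401,
0xc82600700000000800000001003b1000301,
0x2a80030000000b1079b000201,
0x840a20500000000e0000000b107ce000301,
0xa4082070000000970000000140294000301,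
0xa62840700000000400000001602cd000301,
0xa4821b00000001807ff000201,
0x268a4250000000a100000001c0805000301,
0x8a641d0000000b90865000201,
0xa6841f00000001e00000001a00000000a00000002005a0000501,
0xc2864250000000a10000000bd0490000301,
0x642c8230000000bd000000024048d000301,
0xcad30000000ad0000000ab00000002200000009500000008f00000009f00000009300000009d0000000b10000000bb0000000120000000b3000000026000e00]

def c38_17_n_n_pf : List Nat := c38_17_n_n_p0

theorem c38_17_n_n_ref {V : Type} {S : SRel V} {p : Nat → V} (hp : ∀ i j, i < 7 → j < 7 → p i = p j → i = j)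
    (hts : PHs S p 7 (mA ++ (gf (fun x => 8 + cr 4 x) rf38 ++ (gf (fun x => 8 + c6 5 6 1 2 4 x) f17 ++ fp2.map (tren (n6 1 3 4)))))) : False :=
  refuteS (k := 7) (n2 := 3) (n3 := 1) (n4 := 3) (o3 := 84) (o4 := 168) (M := 1386) (mA ++ (gf (fun x => 8 + cr 4 x) rf38 ++ (gf (fun x => 8 + c6 5 6 1 2 4 x) f17 ++ fp2.map (tren (n6 1 3 4))))) c38_17_n_n_pf (by decide +kernel)
    (by decide +kernel) (by decide +kernel) (by decide +kernel) hp hts

theorem c38_17_n_n {V : Type} {W : Mw V} (h : W.Hy) {a b c d u w : V} (nd : [W.z, a, b, c, d, u, w].Nodup)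
    (hr : Hit (mrel0 h.bs) (pt [a, b, c, d] W.z) rf38)
    (hf : Hit (mrel0 h.bs) (v6 W.z u w a b d) f17)
    (hq : ¬ FS (mrel0 h.bs) W.z fp2 a c d) : False :=
  c38_17_n_n_ref (pt_inj (o := W.z) nd rfl) (PHs.app (h.ph rfl _) (PHs.app (gf_ph hr (cr 4) (cr_pt (n := 4) (l := [a, b, c, d]) (l' := [u, w]) rfl)) (PHs.app (gf_ph hf (c6 5 6 1 2 4) (c6_v6 rfl rfl rfl rfl rfl rfl)) (nf_ph hq (ia := 1) (ib := 3) (ic := 4) rfl rfl rfl rfl))))

def c38_17_n_3_p0 : List Nat := [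
0xad000000093000200]

def c38_17_n_3_pf : List Nat := c38_17_n_3_p0

theorem c38_17_n_3_ref {V : Type} {S : SRel V} {p : Nat → V} (hp : ∀ i j, i < 6 → j < 6 → p i = p j → i = j)
    (hts : PHs S p 6 (mA ++ (gf (fun x => 8 + cr 4 x) rf38 ++ (gf (fun x => 8 + c6 5 3 1 2 4 x) f17 ++ fp2.map (tren (n6 1 3 4)))))) : False :=
  refuteS (k := 6) (n2 := 3) (n3 := 1) (n4 := 3) (o3 := 63) (o4 := 119) (M := 812) (mA ++ (gf (fun x => 8 + cr 4 x) rf38 ++ (gf (fun x => 8 + c6 5 3 1 2 4 x) f17 ++ fp2.map (tren (n6 1 3 4))))) c38_17_n_3_pf (by decide +kernel)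
    (by decide +kernel) (by decide +kernel) (by decide +kernel) hp hts

theorem c38_17_n_3 {V : Type} {W : Mw V} (h : W.Hy) {a b c d u : V} (nd : [W.z, a, b, c, d, u].Nodup)
    (hr : Hit (mrel0 h.bs) (pt [a, b, c, d] W.z) rf38)
    (hf : Hit (mrel0 h.bs) (v6 W.z u c a b d) f17)
    (hq : ¬ FS (mrel0 h.bs) W.z fp2 a c d) : False :=
  c38_17_n_3_ref (pt_inj (o := W.z) nd rfl) (PHs.app (h.ph rfl _) (PHs.app (gf_ph hr (cr 4) (cr_pt (n := 4) (l := [a, b, c, d]) (l' := [u]) rfl)) (PHs.app (gf_ph hf (c6 5 3 1 2 4) (c6_v6 rfl rfl rfl rfl rfl rfl)) (nf_ph hq (ia := 1) (ib := 3) (ic := 4) rfl rfl rfl rfl))))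

def c38_17_3_n_p0 : List Nat := [
0xab000000093000200]

def c38_17_3_n_pf : List Nat := c38_17_3_n_p0

theorem c38_17_3_n_ref {V : Type} {S : SRel V} {p : Nat → V} (hp : ∀ i j, i < 6 → j < 6 → p i = p j → i = j)
    (hts : PHs S p 6 (mA ++ (gf (fun x => 8 + cr 4 x) rf38 ++ (gf (fun x => 8 + c6 3 5 1 2 4 x) f17 ++ fp2.map (tren (n6 1 3 4)))))) : False :=
  refuteS (k := 6) (n2 := 3) (n3 := 1) (n4 := 3) (o3 := 63) (o4 := 119) (M := 812) (mA ++ (gf (fun x => 8 + cr 4 x) rf38 ++ (gf (fun x => 8 + c6 3 5 1 2 4 x) f17 ++ fp2.map (tren (n6 1 3 4))))) c38_17_3_n_pf (by decide +kernel)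
    (by decide +kernel) (by decide +kernel) (by decide +kernel) hp hts

theorem c38_17_3_n {V : Type} {W : Mw V} (h : W.Hy) {a b c d w : V} (nd : [W.z, a, b, c, d, w].Nodup)
    (hr : Hit (mrel0 h.bs) (pt [a, b, c, d] W.z) rf38)
    (hf : Hit (mrel0 h.bs) (v6 W.z c w a b d) f17)
    (hq : ¬ FS (mrel0 h.bs) W.z fp2 a c d) : False :=
  c38_17_3_n_ref (pt_inj (o := W.z) nd rfl) (PHs.app (h.ph rfl _) (PHs.app (gf_ph hr (cr 4) (cr_pt (n := 4) (l := [a, b, c, d]) (l' := [w]) rfl)) (PHs.app (gf_ph hf (c6 3 5 1 2 4) (c6_v6 rfl rfl rfl rfl rfl rfl)) (nf_ph hq (ia := 1) (ib := 3) (ic := 4) rfl rfl rfl rfl))))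

def c38_18_n_n_p0 : List Nat := [
0x84200300000009706ff000201,
0x260840700000000200000009901a7000301,
0x48620300000000406f0000201,
0x64082070000000970000000060180000301,
0xc860b0000000950000000930000000ad09f3000401,
0xc82600700000000800000000a03b1000301,
0xc2864250000000a10000000bb0490000301,
0x642c8230000000bb00000000e048d000301,
0xa8c642500000000e0000000bd04de000301,
0x846ca230000000bd00000001204ed000301,
0xcad50000000ad0000000ab00000009500000008f00000009f00000009300000009d0000000b10000000b900000000c0000000b3000000010000000014000e00]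

def c38_18_n_n_pf : List Nat := c38_18_n_n_p0

theorem c38_18_n_n_ref {V : Type} {S : SRel V} {p : Nat → V} (hp : ∀ i j, i < 7 → j < 7 → p i = p j → i = j)
    (hts : PHs S p 7 (mA ++ (gf (fun x => 8 + cr 4 x) rf38 ++ (gf (fun x => 8 + c6 5 6 1 2 4 x) f18 ++ fp2.map (tren (n6 1 3 4)))))) : False :=
  refuteS (k := 7) (n2 := 3) (n3 := 1) (n4 := 3) (o3 := 84) (o4 := 168) (M := 1386) (mA ++ (gf (fun x => 8 + cr 4 x) rf38 ++ (gf (fun x => 8 + c6 5 6 1 2 4 x) f18 ++ fp2.map (tren (n6 1 3 4))))) c38_18_n_n_pf (by decide +kernel)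
    (by decide +kernel) (by decide +kernel) (by decide +kernel) hp hts

theorem c38_18_n_n {V : Type} {W : Mw V} (h : W.Hy) {a b c d u w : V} (nd : [W.z, a, b, c, d, u, w].Nodup)
    (hr : Hit (mrel0 h.bs) (pt [a, b, c, d] W.z) rf38)
    (hf : Hit (mrel0 h.bs) (v6 W.z u w a b d) f18)
    (hq : ¬ FS (mrel0 h.bs) W.z fp2 a c d) : False :=
  c38_18_n_n_ref (pt_inj (o := W.z) nd rfl) (PHs.app (h.ph rfl _) (PHs.app (gf_ph hr (cr 4) (cr_pt (n := 4) (l := [a, b, c, d]) (l' := [u, w]) rfl)) (PHs.app (gf_ph hf (c6 5 6 1 2 4) (c6_v6 rfl rfl rfl rfl rfl rfl)) (nf_ph hq (ia := 1) (ib := 3) (ic := 4) rfl rfl rfl rfl))))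

def c38_18_n_3_p0 : List Nat := [
0xad000000093000200]

def c38_18_n_3_pf : List Nat := c38_18_n_3_p0

theorem c38_18_n_3_ref {V : Type} {S : SRel V} {p : Nat → V} (hp : ∀ i j, i < 6 → j < 6 → p i = p j → i = j)
    (hts : PHs S p 6 (mA ++ (gf (fun x => 8 + cr 4 x) rf38 ++ (gf (fun x => 8 + c6 5 3 1 2 4 x) f18 ++ fp2.map (tren (n6 1 3 4)))))) : False :=
  refuteS (k := 6) (n2 := 3) (n3 := 1) (n4 := 3) (o3 := 63) (o4 := 119) (M := 812) (mA ++ (gf (fun x => 8 + cr 4 x) rf38 ++ (gf (fun x => 8 + c6 5 3 1 2 4 x) f18 ++ fp2.map (tren (n6 1 3 4))))) c38_18_n_3_pf (by decide +kernel)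
    (by decide +kernel) (by decide +kernel) (by decide +kernel) hp hts

theorem c38_18_n_3 {V : Type} {W : Mw V} (h : W.Hy) {a b c d u : V} (nd : [W.z, a, b, c, d, u].Nodup)
    (hr : Hit (mrel0 h.bs) (pt [a, b, c, d] W.z) rf38)
    (hf : Hit (mrel0 h.bs) (v6 W.z u c a b d) f18)
    (hq : ¬ FS (mrel0 h.bs) W.z fp2 a c d) : False :=
  c38_18_n_3_ref (pt_inj (o := W.z) nd rfl) (PHs.app (h.ph rfl _) (PHs.app (gf_ph hr (cr 4) (cr_pt (n := 4) (l := [a, b, c, d]) (l' := [u]) rfl)) (PHs.app (gf_ph hf (c6 5 3 1 2 4) (c6_v6 rfl rfl rfl rfl rfl rfl)) (nf_ph hq (ia := 1) (ib := 3) (ic := 4) rfl rfl rfl rfl))))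

def c38_18_3_n_p0 : List Nat := [
0xab000000093000200]

def c38_18_3_n_pf : List Nat := c38_18_3_n_p0

theorem c38_18_3_n_ref {V : Type} {S : SRel V} {p : Nat → V} (hp : ∀ i j, i < 6 → j < 6 → p i = p j → i = j)
    (hts : PHs S p 6 (mA ++ (gf (fun x => 8 + cr 4 x) rf38 ++ (gf (fun x => 8 + c6 3 5 1 2 4 x) f18 ++ fp2.map (tren (n6 1 3 4)))))) : False :=
  refuteS (k := 6) (n2 := 3) (n3 := 1) (n4 := 3) (o3 := 63) (o4 := 119) (M := 812) (mA ++ (gf (fun x => 8 + cr 4 x) rf38 ++ (gf (fun x => 8 + c6 3 5 1 2 4 x) f18 ++ fp2.map (tren (n6 1 3 4))))) c38_18_3_n_pf (by decide +kernel)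
    (by decide +kernel) (by decide +kernel) (by decide +kernel) hp hts

theorem c38_18_3_n {V : Type} {W : Mw V} (h : W.Hy) {a b c d w : V} (nd : [W.z, a, b, c, d, w].Nodup)
    (hr : Hit (mrel0 h.bs) (pt [a, b, c, d] W.z) rf38)
    (hf : Hit (mrel0 h.bs) (v6 W.z c w a b d) f18)
    (hq : ¬ FS (mrel0 h.bs) W.z fp2 a c d) : False :=
  c38_18_3_n_ref (pt_inj (o := W.z) nd rfl) (PHs.app (h.ph rfl _) (PHs.app (gf_ph hr (cr 4) (cr_pt (n := 4) (l := [a, b, c, d]) (l' := [w]) rfl)) (PHs.app (gf_ph hf (c6 3 5 1 2 4) (c6_v6 rfl rfl rfl rfl rfl rfl)) (nf_ph hq (ia := 1) (ib := 3) (ic := 4) rfl rfl rfl rfl))))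

def c38_19_n_n_p0 : List Nat := [
0x864003000000099072c000201,
0x28641d0000000a10024000201,
0x28461d0000000a10027000201,
0x8c40030000000b308eb000201,
0x6c840070000000020000000b30435000301,
0xc6084070000000990000000080450000301,
0xc6400300000000a0960000201,
0xc84600700000009900000000e0489000301,
0x8c641d0000000bb09fa000201,
0x4c281d0000000bd0970000201,
0x4c681d0000000bd0976000201,
0xc6841f00000001200000000c00000000400000001605b2000501,
0xca6482270000000140000000a10000000c10259000401,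
0xc46a2230000000c100000001a045d000301,
0xcadb0000000bd0000000180000000b900000009500000008f00000009f00000009300000009d0000000060000000a70000000a90000000af0000000b100000001c000000010001000]

def c38_19_n_n_pf : List Nat := c38_19_n_n_p0

theorem c38_19_n_n_ref {V : Type} {S : SRel V} {p : Nat → V} (hp : ∀ i j, i < 7 → j < 7 → p i = p j → i = j)
    (hts : PHs S p 7 (mA ++ (gf (fun x => 8 + cr 4 x) rf38 ++ (gf (fun x => 8 + c6 5 6 1 2 4 x) f19 ++ fp2.map (tren (n6 1 3 4)))))) : False :=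
  refuteS (k := 7) (n2 := 3) (n3 := 1) (n4 := 3) (o3 := 84) (o4 := 168) (M := 1386) (mA ++ (gf (fun x => 8 + cr 4 x) rf38 ++ (gf (fun x => 8 + c6 5 6 1 2 4 x) f19 ++ fp2.map (tren (n6 1 3 4))))) c38_19_n_n_pf (by decide +kernel)
    (by decide +kernel) (by decide +kernel) (by decide +kernel) hp hts

theorem c38_19_n_n {V : Type} {W : Mw V} (h : W.Hy) {a b c d u w : V} (nd : [W.z, a, b, c, d, u, w].Nodup)
    (hr : Hit (mrel0 h.bs) (pt [a, b, c, d] W.z) rf38)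
    (hf : Hit (mrel0 h.bs) (v6 W.z u w a b d) f19)
    (hq : ¬ FS (mrel0 h.bs) W.z fp2 a c d) : False :=
  c38_19_n_n_ref (pt_inj (o := W.z) nd rfl) (PHs.app (h.ph rfl _) (PHs.app (gf_ph hr (cr 4) (cr_pt (n := 4) (l := [a, b, c, d]) (l' := [u, w]) rfl)) (PHs.app (gf_ph hf (c6 5 6 1 2 4) (c6_v6 rfl rfl rfl rfl rfl rfl)) (nf_ph hq (ia := 1) (ib := 3) (ic := 4) rfl rfl rfl rfl))))

def c38_19_n_3_p0 : List Nat := [
0x86400300000009904bd000201,
0xb3000000002000200]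

def c38_19_n_3_pf : List Nat := c38_19_n_3_p0

theorem c38_19_n_3_ref {V : Type} {S : SRel V} {p : Nat → V} (hp : ∀ i j, i < 6 → j < 6 → p i = p j → i = j)
    (hts : PHs S p 6 (mA ++ (gf (fun x => 8 + cr 4 x) rf38 ++ (gf (fun x => 8 + c6 5 3 1 2 4 x) f19 ++ fp2.map (tren (n6 1 3 4)))))) : False :=
  refuteS (k := 6) (n2 := 3) (n3 := 1) (n4 := 3) (o3 := 63) (o4 := 119) (M := 812) (mA ++ (gf (fun x => 8 + cr 4 x) rf38 ++ (gf (fun x => 8 + c6 5 3 1 2 4 x) f19 ++ fp2.map (tren (n6 1 3 4))))) c38_19_n_3_pf (by decide +kernel)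
    (by decide +kernel) (by decide +kernel) (by decide +kernel) hp hts

theorem c38_19_n_3 {V : Type} {W : Mw V} (h : W.Hy) {a b c d u : V} (nd : [W.z, a, b, c, d, u].Nodup)
    (hr : Hit (mrel0 h.bs) (pt [a, b, c, d] W.z) rf38)
    (hf : Hit (mrel0 h.bs) (v6 W.z u c a b d) f19)
    (hq : ¬ FS (mrel0 h.bs) W.z fp2 a c d) : False :=
  c38_19_n_3_ref (pt_inj (o := W.z) nd rfl) (PHs.app (h.ph rfl _) (PHs.app (gf_ph hr (cr 4) (cr_pt (n := 4) (l := [a, b, c, d]) (l' := [u]) rfl)) (PHs.app (gf_ph hf (c6 5 3 1 2 4) (c6_v6 rfl rfl rfl rfl rfl rfl)) (nf_ph hq (ia := 1) (ib := 3) (ic := 4) rfl rfl rfl rfl))))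

def c38_19_3_n_p0 : List Nat := [
0x86400300000009904bd000201,
0x8a60030000000b105ef000201,
0x4a086070000000020000000b10269000301,
0x8a640300000000605f5000201,
0x640a80700000000400000000805e6000301,
0xb300000000a000200]

def c38_19_3_n_pf : List Nat := c38_19_3_n_p0

theorem c38_19_3_n_ref {V : Type} {S : SRel V} {p : Nat → V} (hp : ∀ i j, i < 6 → j < 6 → p i = p j → i = j)
    (hts : PHs S p 6 (mA ++ (gf (fun x => 8 + cr 4 x) rf38 ++ (gf (fun x => 8 + c6 3 5 1 2 4 x) f19 ++ fp2.map (tren (n6 1 3 4)))))) : False :=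
  refuteS (k := 6) (n2 := 3) (n3 := 1) (n4 := 3) (o3 := 63) (o4 := 119) (M := 812) (mA ++ (gf (fun x => 8 + cr 4 x) rf38 ++ (gf (fun x => 8 + c6 3 5 1 2 4 x) f19 ++ fp2.map (tren (n6 1 3 4))))) c38_19_3_n_pf (by decide +kernel)
    (by decide +kernel) (by decide +kernel) (by decide +kernel) hp hts

theorem c38_19_3_n {V : Type} {W : Mw V} (h : W.Hy) {a b c d w : V} (nd : [W.z, a, b, c, d, w].Nodup)
    (hr : Hit (mrel0 h.bs) (pt [a, b, c, d] W.z) rf38)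
    (hf : Hit (mrel0 h.bs) (v6 W.z c w a b d) f19)
    (hq : ¬ FS (mrel0 h.bs) W.z fp2 a c d) : False :=
  c38_19_3_n_ref (pt_inj (o := W.z) nd rfl) (PHs.app (h.ph rfl _) (PHs.app (gf_ph hr (cr 4) (cr_pt (n := 4) (l := [a, b, c, d]) (l' := [w]) rfl)) (PHs.app (gf_ph hf (c6 3 5 1 2 4) (c6_v6 rfl rfl rfl rfl rfl rfl)) (nf_ph hq (ia := 1) (ib := 3) (ic := 4) rfl rfl rfl rfl))))

def c38_20_n_n_p0 : List Nat := [
0x864003000000099072c000201,
0x6c840070000000020000000b30435000301,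
0xc640030000000040960000201,
0xc8460070000000990000000060489000301,
0x8c130000000a90000000950000000b905b5000401,
0x4c281d00000000a0970000201,
0xca64822700000000c0000000a10000000bd0259000401,
0xc46a2230000000bd00000000e045d000301,
0xcad90000000b90000000bb00000009500000008f00000009f00000009300000009d0000000a70000000a90000000af0000000b1000000010000000008000e00]

def c38_20_n_n_pf : List Nat := c38_20_n_n_p0

theorem c38_20_n_n_ref {V : Type} {S : SRel V} {p : Nat → V} (hp : ∀ i j, i < 7 → j < 7 → p i = p j → i = j)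
    (hts : PHs S p 7 (mA ++ (gf (fun x => 8 + cr 4 x) rf38 ++ (gf (fun x => 8 + c6 5 6 1 2 4 x) f20 ++ fp2.map (tren (n6 1 3 4)))))) : False :=
  refuteS (k := 7) (n2 := 3) (n3 := 1) (n4 := 3) (o3 := 84) (o4 := 168) (M := 1386) (mA ++ (gf (fun x => 8 + cr 4 x) rf38 ++ (gf (fun x => 8 + c6 5 6 1 2 4 x) f20 ++ fp2.map (tren (n6 1 3 4))))) c38_20_n_n_pf (by decide +kernel)
    (by decide +kernel) (by decide +kernel) (by decide +kernel) hp hts

theorem c38_20_n_n {V : Type} {W : Mw V} (h : W.Hy) {a b c d u w : V} (nd : [W.z, a, b, c, d, u, w].Nodup)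
    (hr : Hit (mrel0 h.bs) (pt [a, b, c, d] W.z) rf38)
    (hf : Hit (mrel0 h.bs) (v6 W.z u w a b d) f20)
    (hq : ¬ FS (mrel0 h.bs) W.z fp2 a c d) : False :=
  c38_20_n_n_ref (pt_inj (o := W.z) nd rfl) (PHs.app (h.ph rfl _) (PHs.app (gf_ph hr (cr 4) (cr_pt (n := 4) (l := [a, b, c, d]) (l' := [u, w]) rfl)) (PHs.app (gf_ph hf (c6 5 6 1 2 4) (c6_v6 rfl rfl rfl rfl rfl rfl)) (nf_ph hq (ia := 1) (ib := 3) (ic := 4) rfl rfl rfl rfl))))

def c38_20_n_3_p0 : List Nat := [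
0x86400300000009904bd000201,
0xb3000000002000200]

def c38_20_n_3_pf : List Nat := c38_20_n_3_p0

theorem c38_20_n_3_ref {V : Type} {S : SRel V} {p : Nat → V} (hp : ∀ i j, i < 6 → j < 6 → p i = p j → i = j)
    (hts : PHs S p 6 (mA ++ (gf (fun x => 8 + cr 4 x) rf38 ++ (gf (fun x => 8 + c6 5 3 1 2 4 x) f20 ++ fp2.map (tren (n6 1 3 4)))))) : False :=
  refuteS (k := 6) (n2 := 3) (n3 := 1) (n4 := 3) (o3 := 63) (o4 := 119) (M := 812) (mA ++ (gf (fun x => 8 + cr 4 x) rf38 ++ (gf (fun x => 8 + c6 5 3 1 2 4 x) f20 ++ fp2.map (tren (n6 1 3 4))))) c38_20_n_3_pf (by decide +kernel)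
    (by decide +kernel) (by decide +kernel) (by decide +kernel) hp hts

theorem c38_20_n_3 {V : Type} {W : Mw V} (h : W.Hy) {a b c d u : V} (nd : [W.z, a, b, c, d, u].Nodup)
    (hr : Hit (mrel0 h.bs) (pt [a, b, c, d] W.z) rf38)
    (hf : Hit (mrel0 h.bs) (v6 W.z u c a b d) f20)
    (hq : ¬ FS (mrel0 h.bs) W.z fp2 a c d) : False :=
  c38_20_n_3_ref (pt_inj (o := W.z) nd rfl) (PHs.app (h.ph rfl _) (PHs.app (gf_ph hr (cr 4) (cr_pt (n := 4) (l := [a, b, c, d]) (l' := [u]) rfl)) (PHs.app (gf_ph hf (c6 5 3 1 2 4) (c6_v6 rfl rfl rfl rfl rfl rfl)) (nf_ph hq (ia := 1) (ib := 3) (ic := 4) rfl rfl rfl rfl))))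

def c38_20_3_n_p0 : List Nat := [
0x86400300000009904bd000201,
0x8a60030000000b105ef000201,
0x4a086070000000020000000b10269000301,
0x8a640300000000605f5000201,
0x640a80700000000400000000805e6000301,
0xb300000000a000200]

def c38_20_3_n_pf : List Nat := c38_20_3_n_p0

theorem c38_20_3_n_ref {V : Type} {S : SRel V} {p : Nat → V} (hp : ∀ i j, i < 6 → j < 6 → p i = p j → i = j)
    (hts : PHs S p 6 (mA ++ (gf (fun x => 8 + cr 4 x) rf38 ++ (gf (fun x => 8 + c6 3 5 1 2 4 x) f20 ++ fp2.map (tren (n6 1 3 4)))))) : False :=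
  refuteS (k := 6) (n2 := 3) (n3 := 1) (n4 := 3) (o3 := 63) (o4 := 119) (M := 812) (mA ++ (gf (fun x => 8 + cr 4 x) rf38 ++ (gf (fun x => 8 + c6 3 5 1 2 4 x) f20 ++ fp2.map (tren (n6 1 3 4))))) c38_20_3_n_pf (by decide +kernel)
    (by decide +kernel) (by decide +kernel) (by decide +kernel) hp hts

theorem c38_20_3_n {V : Type} {W : Mw V} (h : W.Hy) {a b c d w : V} (nd : [W.z, a, b, c, d, w].Nodup)
    (hr : Hit (mrel0 h.bs) (pt [a, b, c, d] W.z) rf38)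
    (hf : Hit (mrel0 h.bs) (v6 W.z c w a b d) f20)
    (hq : ¬ FS (mrel0 h.bs) W.z fp2 a c d) : False :=
  c38_20_3_n_ref (pt_inj (o := W.z) nd rfl) (PHs.app (h.ph rfl _) (PHs.app (gf_ph hr (cr 4) (cr_pt (n := 4) (l := [a, b, c, d]) (l' := [w]) rfl)) (PHs.app (gf_ph hf (c6 3 5 1 2 4) (c6_v6 rfl rfl rfl rfl rfl rfl)) (nf_ph hq (ia := 1) (ib := 3) (ic := 4) rfl rfl rfl rfl))))

theorem P38_1 {V : Type} {W : Mw V} (h : W.Hy) {a b c d u w : V} (nd : [W.z, a, b, c, d].Nodup)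
    (hr : Hit (mrel0 h.bs) (pt [a, b, c, d] W.z) rf38)
    (hf : Hit (mrel0 h.bs) (v6 W.z u w a b d) f1) (hq : ¬ FS (mrel0 h.bs) W.z fp2 a c d) : False := by
  exact c38_1 h nd hr (hit00 (by decide) hf) hq

theorem P38_6 {V : Type} {W : Mw V} (h : W.Hy) {a b c d u w : V} (nd : [W.z, a, b, c, d].Nodup)
    (hr : Hit (mrel0 h.bs) (pt [a, b, c, d] W.z) rf38)
    (hf : Hit (mrel0 h.bs) (v6 W.z u w a b d) f6) (hq : ¬ FS (mrel0 h.bs) W.z fp2 a c d) : False := by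
  have hf := hit01 (by decide) hf
  have hs := hn1 hf rfl
  by_cases ic : u = c
  · subst ic
    exact c38_6_3 h nd hr hf hq
  exact c38_6_n h (nd_snoc nd (nin5 hs.1 hs.2.1 hs.2.2.1 ic hs.2.2.2)) hr hf hq

theorem P38_7 {V : Type} {W : Mw V} (h : W.Hy) {a b c d u w : V} (nd : [W.z, a, b, c, d].Nodup)
    (hr : Hit (mrel0 h.bs) (pt [a, b, c, d] W.z) rf38)
    (hf : Hit (mrel0 h.bs) (v6 W.z u w a b d) f7) (hq : ¬ FS (mrel0 h.bs) W.z fp2 a c d) : False := by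
  have hf := hit01 (by decide) hf
  have hs := hn1 hf rfl
  by_cases ic : u = c
  · subst ic
    exact c38_7_3 h nd hr hf hq
  exact c38_7_n h (nd_snoc nd (nin5 hs.1 hs.2.1 hs.2.2.1 ic hs.2.2.2)) hr hf hq

theorem P38_10 {V : Type} {W : Mw V} (h : W.Hy) {a b c d u w : V} (nd : [W.z, a, b, c, d].Nodup)
    (hr : Hit (mrel0 h.bs) (pt [a, b, c, d] W.z) rf38)
    (hf : Hit (mrel0 h.bs) (v6 W.z u w a b d) f10) (hq : ¬ FS (mrel0 h.bs) W.z fp2 a c d) : False := by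
  have hf := hit01 (by decide) hf
  have hs := hn1 hf rfl
  by_cases ic : u = c
  · subst ic
    exact c38_10_3 h nd hr hf hq
  exact c38_10_n h (nd_snoc nd (nin5 hs.1 hs.2.1 hs.2.2.1 ic hs.2.2.2)) hr hf hq

theorem P38_11 {V : Type} {W : Mw V} (h : W.Hy) {a b c d u w : V} (nd : [W.z, a, b, c, d].Nodup)
    (hr : Hit (mrel0 h.bs) (pt [a, b, c, d] W.z) rf38)
    (hf : Hit (mrel0 h.bs) (v6 W.z u w a b d) f11) (hq : ¬ FS (mrel0 h.bs) W.z fp2 a c d) : False := by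
  have hf := hit01 (by decide) hf
  have hs := hn1 hf rfl
  by_cases ic : u = c
  · subst ic
    exact c38_11_3 h nd hr hf hq
  exact c38_11_n h (nd_snoc nd (nin5 hs.1 hs.2.1 hs.2.2.1 ic hs.2.2.2)) hr hf hq

theorem P38_12 {V : Type} {W : Mw V} (h : W.Hy) {a b c d u w : V} (nd : [W.z, a, b, c, d].Nodup)
    (hr : Hit (mrel0 h.bs) (pt [a, b, c, d] W.z) rf38)
    (hf : Hit (mrel0 h.bs) (v6 W.z u w a b d) f12) (hq : ¬ FS (mrel0 h.bs) W.z fp2 a c d) : False := by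
  have hf := hit01 (by decide) hf
  have hs := hn1 hf rfl
  by_cases ic : u = c
  · subst ic
    exact c38_12_3 h nd hr hf hq
  exact c38_12_n h (nd_snoc nd (nin5 hs.1 hs.2.1 hs.2.2.1 ic hs.2.2.2)) hr hf hq

theorem P38_13 {V : Type} {W : Mw V} (h : W.Hy) {a b c d u w : V} (nd : [W.z, a, b, c, d].Nodup)
    (hr : Hit (mrel0 h.bs) (pt [a, b, c, d] W.z) rf38)
    (hf : Hit (mrel0 h.bs) (v6 W.z u w a b d) f13) (hq : ¬ FS (mrel0 h.bs) W.z fp2 a c d) : False := by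
  have hf := hit01 (by decide) hf
  have hs := hn1 hf rfl
  by_cases ic : u = c
  · subst ic
    exact c38_13_3 h nd hr hf hq
  exact c38_13_n h (nd_snoc nd (nin5 hs.1 hs.2.1 hs.2.2.1 ic hs.2.2.2)) hr hf hq

theorem P38_14 {V : Type} {W : Mw V} (h : W.Hy) {a b c d u w : V} (nd : [W.z, a, b, c, d].Nodup)
    (hr : Hit (mrel0 h.bs) (pt [a, b, c, d] W.z) rf38)
    (hf : Hit (mrel0 h.bs) (v6 W.z u w a b d) f14) (hq : ¬ FS (mrel0 h.bs) W.z fp2 a c d) : False := by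
  have hs := hn2 hf rfl
  by_cases ic : u = c
  · subst ic
    exact c38_14_3_n h (nd_snoc nd (nin5 hs.2.2.1 hs.2.2.2.1 hs.2.2.2.2.1 hs.1.symm hs.2.2.2.2.2)) hr hf hq
  by_cases jc : w = c
  · subst jc
    exact c38_14_n_3 h (nd_snoc nd (nin5 hs.2.1.1 hs.2.1.2.1 hs.2.1.2.2.1 hs.1 hs.2.1.2.2.2)) hr hf hq
  exact c38_14_n_n h (nd_snoc (nd_snoc nd (nin5 hs.2.1.1 hs.2.1.2.1 hs.2.1.2.2.1 ic hs.2.1.2.2.2)) (nin6 hs.2.2.1 hs.2.2.2.1 hs.2.2.2.2.1 jc hs.2.2.2.2.2 hs.1.symm)) hr hf hq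

theorem P38_15 {V : Type} {W : Mw V} (h : W.Hy) {a b c d u w : V} (nd : [W.z, a, b, c, d].Nodup)
    (hr : Hit (mrel0 h.bs) (pt [a, b, c, d] W.z) rf38)
    (hf : Hit (mrel0 h.bs) (v6 W.z u w a b d) f15) (hq : ¬ FS (mrel0 h.bs) W.z fp2 a c d) : False := by
  have hs := hn2 hf rfl
  by_cases ic : u = c
  · subst ic
    exact c38_15_3_n h (nd_snoc nd (nin5 hs.2.2.1 hs.2.2.2.1 hs.2.2.2.2.1 hs.1.symm hs.2.2.2.2.2)) hr hf hq
  by_cases jc : w = c
  · subst jc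
    exact c38_15_n_3 h (nd_snoc nd (nin5 hs.2.1.1 hs.2.1.2.1 hs.2.1.2.2.1 hs.1 hs.2.1.2.2.2)) hr hf hq
  exact c38_15_n_n h (nd_snoc (nd_snoc nd (nin5 hs.2.1.1 hs.2.1.2.1 hs.2.1.2.2.1 ic hs.2.1.2.2.2)) (nin6 hs.2.2.1 hs.2.2.2.1 hs.2.2.2.2.1 jc hs.2.2.2.2.2 hs.1.symm)) hr hf hq

theorem P38_16 {V : Type} {W : Mw V} (h : W.Hy) {a b c d u w : V} (nd : [W.z, a, b, c, d].Nodup)
    (hr : Hit (mrel0 h.bs) (pt [a, b, c, d] W.z) rf38)
    (hf : Hit (mrel0 h.bs) (v6 W.z u w a b d) f16) (hq : ¬ FS (mrel0 h.bs) W.z fp2 a c d) : False := by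
  have hs := hn2 hf rfl
  by_cases ic : u = c
  · subst ic
    exact c38_16_3_n h (nd_snoc nd (nin5 hs.2.2.1 hs.2.2.2.1 hs.2.2.2.2.1 hs.1.symm hs.2.2.2.2.2)) hr hf hq
  by_cases jc : w = c
  · subst jc
    exact c38_16_n_3 h (nd_snoc nd (nin5 hs.2.1.1 hs.2.1.2.1 hs.2.1.2.2.1 hs.1 hs.2.1.2.2.2)) hr hf hq
  exact c38_16_n_n h (nd_snoc (nd_snoc nd (nin5 hs.2.1.1 hs.2.1.2.1 hs.2.1.2.2.1 ic hs.2.1.2.2.2)) (nin6 hs.2.2.1 hs.2.2.2.1 hs.2.2.2.2.1 jc hs.2.2.2.2.2 hs.1.symm)) hr hf hq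

theorem P38_17 {V : Type} {W : Mw V} (h : W.Hy) {a b c d u w : V} (nd : [W.z, a, b, c, d].Nodup)
    (hr : Hit (mrel0 h.bs) (pt [a, b, c, d] W.z) rf38)
    (hf : Hit (mrel0 h.bs) (v6 W.z u w a b d) f17) (hq : ¬ FS (mrel0 h.bs) W.z fp2 a c d) : False := by
  have hs := hn2 hf rfl
  by_cases ic : u = c
  · subst ic
    exact c38_17_3_n h (nd_snoc nd (nin5 hs.2.2.1 hs.2.2.2.1 hs.2.2.2.2.1 hs.1.symm hs.2.2.2.2.2)) hr hf hq
  by_cases jc : w = c
  · subst jc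
    exact c38_17_n_3 h (nd_snoc nd (nin5 hs.2.1.1 hs.2.1.2.1 hs.2.1.2.2.1 hs.1 hs.2.1.2.2.2)) hr hf hq
  exact c38_17_n_n h (nd_snoc (nd_snoc nd (nin5 hs.2.1.1 hs.2.1.2.1 hs.2.1.2.2.1 ic hs.2.1.2.2.2)) (nin6 hs.2.2.1 hs.2.2.2.1 hs.2.2.2.2.1 jc hs.2.2.2.2.2 hs.1.symm)) hr hf hq

theorem P38_18 {V : Type} {W : Mw V} (h : W.Hy) {a b c d u w : V} (nd : [W.z, a, b, c, d].Nodup)
    (hr : Hit (mrel0 h.bs) (pt [a, b, c, d] W.z) rf38)
    (hf : Hit (mrel0 h.bs) (v6 W.z u w a b d) f18) (hq : ¬ FS (mrel0 h.bs) W.z fp2 a c d) : False := by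
  have hs := hn2 hf rfl
  by_cases ic : u = c
  · subst ic
    exact c38_18_3_n h (nd_snoc nd (nin5 hs.2.2.1 hs.2.2.2.1 hs.2.2.2.2.1 hs.1.symm hs.2.2.2.2.2)) hr hf hq
  by_cases jc : w = c
  · subst jc
    exact c38_18_n_3 h (nd_snoc nd (nin5 hs.2.1.1 hs.2.1.2.1 hs.2.1.2.2.1 hs.1 hs.2.1.2.2.2)) hr hf hq
  exact c38_18_n_n h (nd_snoc (nd_snoc nd (nin5 hs.2.1.1 hs.2.1.2.1 hs.2.1.2.2.1 ic hs.2.1.2.2.2)) (nin6 hs.2.2.1 hs.2.2.2.1 hs.2.2.2.2.1 jc hs.2.2.2.2.2 hs.1.symm)) hr hf hq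

theorem P38_19 {V : Type} {W : Mw V} (h : W.Hy) {a b c d u w : V} (nd : [W.z, a, b, c, d].Nodup)
    (hr : Hit (mrel0 h.bs) (pt [a, b, c, d] W.z) rf38)
    (hf : Hit (mrel0 h.bs) (v6 W.z u w a b d) f19) (hq : ¬ FS (mrel0 h.bs) W.z fp2 a c d) : False := by
  have hs := hn2 hf rfl
  by_cases ic : u = c
  · subst ic
    exact c38_19_3_n h (nd_snoc nd (nin5 hs.2.2.1 hs.2.2.2.1 hs.2.2.2.2.1 hs.1.symm hs.2.2.2.2.2)) hr hf hq
  by_cases jc : w = c
  · subst jc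
    exact c38_19_n_3 h (nd_snoc nd (nin5 hs.2.1.1 hs.2.1.2.1 hs.2.1.2.2.1 hs.1 hs.2.1.2.2.2)) hr hf hq
  exact c38_19_n_n h (nd_snoc (nd_snoc nd (nin5 hs.2.1.1 hs.2.1.2.1 hs.2.1.2.2.1 ic hs.2.1.2.2.2)) (nin6 hs.2.2.1 hs.2.2.2.1 hs.2.2.2.2.1 jc hs.2.2.2.2.2 hs.1.symm)) hr hf hq

theorem P38_20 {V : Type} {W : Mw V} (h : W.Hy) {a b c d u w : V} (nd : [W.z, a, b, c, d].Nodup)
    (hr : Hit (mrel0 h.bs) (pt [a, b, c, d] W.z) rf38)
    (hf : Hit (mrel0 h.bs) (v6 W.z u w a b d) f20) (hq : ¬ FS (mrel0 h.bs) W.z fp2 a c d) : False := by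
  have hs := hn2 hf rfl
  by_cases ic : u = c
  · subst ic
    exact c38_20_3_n h (nd_snoc nd (nin5 hs.2.2.1 hs.2.2.2.1 hs.2.2.2.2.1 hs.1.symm hs.2.2.2.2.2)) hr hf hq
  by_cases jc : w = c
  · subst jc
    exact c38_20_n_3 h (nd_snoc nd (nin5 hs.2.1.1 hs.2.1.2.1 hs.2.1.2.2.1 hs.1 hs.2.1.2.2.2)) hr hf hq
  exact c38_20_n_n h (nd_snoc (nd_snoc nd (nin5 hs.2.1.1 hs.2.1.2.1 hs.2.1.2.2.1 ic hs.2.1.2.2.2)) (nin6 hs.2.2.1 hs.2.2.2.1 hs.2.2.2.2.1 jc hs.2.2.2.2.2 hs.1.symm)) hr hf hq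

theorem R38 {V : Type} {W : Mw V} (h : W.Hy) {a b c d : V} (nd : [W.z, a, b, c, d].Nodup)
    (hr : Hit (mrel0 h.bs) (pt [a, b, c, d] W.z) rf38)
    (hp : FS (mrel0 h.bs) W.z fp2 a b d) : FS (mrel0 h.bs) W.z fp2 a c d := by
  by_contra hq
  obtain ⟨t, ht, u, w, hf⟩ := hp
  simp only [fp2, List.mem_cons, List.not_mem_nil, or_false] at ht
  rcases ht with rfl | rfl | rfl | rfl | rfl | rfl | rfl | rfl | rfl | rfl | rfl | rfl | rfl | rfl
  · exact P38_1 h nd hr hf hq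
  · exact P38_6 h nd hr hf hq
  · exact P38_7 h nd hr hf hq
  · exact P38_10 h nd hr hf hq
  · exact P38_11 h nd hr hf hq
  · exact P38_12 h nd hr hf hq
  · exact P38_13 h nd hr hf hq
  · exact P38_14 h nd hr hf hq
  · exact P38_15 h nd hr hf hq
  · exact P38_16 h nd hr hf hq
  · exact P38_17 h nd hr hf hq
  · exact P38_18 h nd hr hf hq
  · exact P38_19 h nd hr hf hq
  · exact P38_20 h nd hr hf hq

end Pool.Agent.SOU
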