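import Pool.Agent.SOU.TB

/-! Project SOU (MP_66ba69_lc, mixed insertion): rule 39 (generated). -/

set_option autoImplicit false
set_option maxRecDepth 100000
set_option linter.unusedVariables false

namespace Pool.Agent.SOU

open Pool.Agent.RUP Pool.Agent.SOQ

def c39_1_p0 : List Nat := [
0x8261700000009500000009d00000009b00000008f0000000930000000af0027000701,
0x6bb0000000950000000af00000008f00000009f00000009100000009300000009d000000002000000097000000099000b00]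

def c39_1_pf : List Nat := c39_1_p0

theorem c39_1_ref {V : Type} {S : SRel V} {p : Nat → V} (hp : ∀ i j, i < 5 → j < 5 → p i = p j → i = j)
    (hts : PHs S p 5 (mA ++ (gf (fun x => 8 + cr 4 x) rf39 ++ (gf (fun x => 8 + c6 0 0 1 3 4 x) f1 ++ fp2.map (tren (n6 1 2 4)))))) : False :=
  refuteS (k := 5) (n2 := 3) (n3 := 1) (n4 := 3) (o3 := 45) (o4 := 80) (M := 440) (mA ++ (gf (fun x => 8 + cr 4 x) rf39 ++ (gf (fun x => 8 + c6 0 0 1 3 4 x) f1 ++ fp2.map (tren (n6 1 2 4))))) c39_1_pf (by decide +kernel)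
    (by decide +kernel) (by decide +kernel) (by decide +kernel) hp hts

theorem c39_1 {V : Type} {W : Mw V} (h : W.Hy) {a b c d : V} (nd : [W.z, a, b, c, d].Nodup)
    (hr : Hit (mrel0 h.bs) (pt [a, b, c, d] W.z) rf39)
    (hf : Hit (mrel0 h.bs) (v6 W.z W.z W.z a c d) f1)
    (hq : ¬ FS (mrel0 h.bs) W.z fp2 a b d) : False :=
  c39_1_ref (pt_inj (o := W.z) nd rfl) (PHs.app (h.ph rfl _) (PHs.app (gf_ph hr (cr 4) (cr_pt (n := 4) (l := [a, b, c, d]) (l' := []) rfl)) (PHs.app (gf_ph hf (c6 0 0 1 3 4) (c6_v6 rfl rfl rfl rfl rfl rfl)) (nf_ph hq (ia := 1) (ib := 2) (ic := 4) rfl rfl rfl rfl))))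

def c39_6_n_p0 : List Nat := [
0xab90000000a70000000b500000009500000008f00000009f00000009100000009d0000000b30000000970000000ad000b00]

def c39_6_n_pf : List Nat := c39_6_n_p0

theorem c39_6_n_ref {V : Type} {S : SRel V} {p : Nat → V} (hp : ∀ i j, i < 6 → j < 6 → p i = p j → i = j)
    (hts : PHs S p 6 (mA ++ (gf (fun x => 8 + cr 4 x) rf39 ++ (gf (fun x => 8 + c6 5 0 1 3 4 x) f6 ++ fp2.map (tren (n6 1 2 4)))))) : False :=
  refuteS (k := 6) (n2 := 3) (n3 := 1) (n4 := 3) (o3 := 63) (o4 := 119) (M := 812) (mA ++ (gf (fun x => 8 + cr 4 x) rf39 ++ (gf (fun x => 8 + c6 5 0 1 3 4 x) f6 ++ fp2.map (tren (n6 1 2 4))))) c39_6_n_pf (by decide +kernel)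
    (by decide +kernel) (by decide +kernel) (by decide +kernel) hp hts

theorem c39_6_n {V : Type} {W : Mw V} (h : W.Hy) {a b c d u : V} (nd : [W.z, a, b, c, d, u].Nodup)
    (hr : Hit (mrel0 h.bs) (pt [a, b, c, d] W.z) rf39)
    (hf : Hit (mrel0 h.bs) (v6 W.z u W.z a c d) f6)
    (hq : ¬ FS (mrel0 h.bs) W.z fp2 a b d) : False :=
  c39_6_n_ref (pt_inj (o := W.z) nd rfl) (PHs.app (h.ph rfl _) (PHs.app (gf_ph hr (cr 4) (cr_pt (n := 4) (l := [a, b, c, d]) (l' := [u]) rfl)) (PHs.app (gf_ph hf (c6 5 0 1 3 4) (c6_v6 rfl rfl rfl rfl rfl rfl)) (nf_ph hq (ia := 1) (ib := 2) (ic := 4) rfl rfl rfl rfl))))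

def c39_6_2_p0 : List Nat := [
0xa7000000091000200]

def c39_6_2_pf : List Nat := c39_6_2_p0

theorem c39_6_2_ref {V : Type} {S : SRel V} {p : Nat → V} (hp : ∀ i j, i < 5 → j < 5 → p i = p j → i = j)
    (hts : PHs S p 5 (mA ++ (gf (fun x => 8 + cr 4 x) rf39 ++ (gf (fun x => 8 + c6 2 0 1 3 4 x) f6 ++ fp2.map (tren (n6 1 2 4)))))) : False :=
  refuteS (k := 5) (n2 := 3) (n3 := 1) (n4 := 3) (o3 := 45) (o4 := 80) (M := 440) (mA ++ (gf (fun x => 8 + cr 4 x) rf39 ++ (gf (fun x => 8 + c6 2 0 1 3 4 x) f6 ++ fp2.map (tren (n6 1 2 4))))) c39_6_2_pf (by decide +kernel)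
    (by decide +kernel) (by decide +kernel) (by decide +kernel) hp hts

theorem c39_6_2 {V : Type} {W : Mw V} (h : W.Hy) {a b c d : V} (nd : [W.z, a, b, c, d].Nodup)
    (hr : Hit (mrel0 h.bs) (pt [a, b, c, d] W.z) rf39)
    (hf : Hit (mrel0 h.bs) (v6 W.z b W.z a c d) f6)
    (hq : ¬ FS (mrel0 h.bs) W.z fp2 a b d) : False :=
  c39_6_2_ref (pt_inj (o := W.z) nd rfl) (PHs.app (h.ph rfl _) (PHs.app (gf_ph hr (cr 4) (cr_pt (n := 4) (l := [a, b, c, d]) (l' := []) rfl)) (PHs.app (gf_ph hf (c6 2 0 1 3 4) (c6_v6 rfl rfl rfl rfl rfl rfl)) (nf_ph hq (ia := 1) (ib := 2) (ic := 4) rfl rfl rfl rfl))))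

def c39_7_n_p0 : List Nat := [
0xa6150000000a70000000930000000b5002d000401,
0xab90000000a70000000b300000009500000008f00000009f00000009100000009d0000000020000000970000000ad000b00]

def c39_7_n_pf : List Nat := c39_7_n_p0

theorem c39_7_n_ref {V : Type} {S : SRel V} {p : Nat → V} (hp : ∀ i j, i < 6 → j < 6 → p i = p j → i = j)
    (hts : PHs S p 6 (mA ++ (gf (fun x => 8 + cr 4 x) rf39 ++ (gf (fun x => 8 + c6 5 0 1 3 4 x) f7 ++ fp2.map (tren (n6 1 2 4)))))) : False :=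
  refuteS (k := 6) (n2 := 3) (n3 := 1) (n4 := 3) (o3 := 63) (o4 := 119) (M := 812) (mA ++ (gf (fun x => 8 + cr 4 x) rf39 ++ (gf (fun x => 8 + c6 5 0 1 3 4 x) f7 ++ fp2.map (tren (n6 1 2 4))))) c39_7_n_pf (by decide +kernel)
    (by decide +kernel) (by decide +kernel) (by decide +kernel) hp hts

theorem c39_7_n {V : Type} {W : Mw V} (h : W.Hy) {a b c d u : V} (nd : [W.z, a, b, c, d, u].Nodup)
    (hr : Hit (mrel0 h.bs) (pt [a, b, c, d] W.z) rf39)
    (hf : Hit (mrel0 h.bs) (v6 W.z u W.z a c d) f7)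
    (hq : ¬ FS (mrel0 h.bs) W.z fp2 a b d) : False :=
  c39_7_n_ref (pt_inj (o := W.z) nd rfl) (PHs.app (h.ph rfl _) (PHs.app (gf_ph hr (cr 4) (cr_pt (n := 4) (l := [a, b, c, d]) (l' := [u]) rfl)) (PHs.app (gf_ph hf (c6 5 0 1 3 4) (c6_v6 rfl rfl rfl rfl rfl rfl)) (nf_ph hq (ia := 1) (ib := 2) (ic := 4) rfl rfl rfl rfl))))

def c39_7_2_p0 : List Nat := [
0xa7000000091000200]

def c39_7_2_pf : List Nat := c39_7_2_p0

theorem c39_7_2_ref {V : Type} {S : SRel V} {p : Nat → V} (hp : ∀ i j, i < 5 → j < 5 → p i = p j → i = j)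
    (hts : PHs S p 5 (mA ++ (gf (fun x => 8 + cr 4 x) rf39 ++ (gf (fun x => 8 + c6 2 0 1 3 4 x) f7 ++ fp2.map (tren (n6 1 2 4)))))) : False :=
  refuteS (k := 5) (n2 := 3) (n3 := 1) (n4 := 3) (o3 := 45) (o4 := 80) (M := 440) (mA ++ (gf (fun x => 8 + cr 4 x) rf39 ++ (gf (fun x => 8 + c6 2 0 1 3 4 x) f7 ++ fp2.map (tren (n6 1 2 4))))) c39_7_2_pf (by decide +kernel)
    (by decide +kernel) (by decide +kernel) (by decide +kernel) hp hts

theorem c39_7_2 {V : Type} {W : Mw V} (h : W.Hy) {a b c d : V} (nd : [W.z, a, b, c, d].Nodup)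
    (hr : Hit (mrel0 h.bs) (pt [a, b, c, d] W.z) rf39)
    (hf : Hit (mrel0 h.bs) (v6 W.z b W.z a c d) f7)
    (hq : ¬ FS (mrel0 h.bs) W.z fp2 a b d) : False :=
  c39_7_2_ref (pt_inj (o := W.z) nd rfl) (PHs.app (h.ph rfl _) (PHs.app (gf_ph hr (cr 4) (cr_pt (n := 4) (l := [a, b, c, d]) (l' := []) rfl)) (PHs.app (gf_ph hf (c6 2 0 1 3 4) (c6_v6 rfl rfl rfl rfl rfl rfl)) (nf_ph hq (ia := 1) (ib := 2) (ic := 4) rfl rfl rfl rfl))))

def c39_10_n_p0 : List Nat := [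
0x8420030000000970490000201,
0x86400300000009904bd000201,
0x26084070000000020000000990176000301,
0x682400700000009700000000400d4000301,
0x86420300000000604c0000201,
0x4862030000000060481000201,
0x84621b00000000604a3000201,
0x420860700000000400000000a04b7000301,
0x640820700000009700000000c014f000301,
0x821300000009500000008f00000009d0003000401,
0x8a20030000000ab052c000201,
0x4a820070000000020000000ab0245000301,
0x6a820070000000100000000ab027b000301,
0xa4082070000000970000000160263000301,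
0xa420030000000180544000201,
0xa6200300000001a054d000201,
0x6a200300000001a0520000201,
0xa62400700000000800000001e0281000301,
0xa82600700000001200000002002c3000301,
0xa4062070000000080000000220257000301,
0xa4621b0000000280584000201,
0x8a261d0000000b30036000201,
0x4a8622500000000e0000000b30560000301,
0x82a65100000009500000008f0000000930000000a30000000260000000b3054e000701,
0xa623700000003000000001a00000001400000008f0000000930000000a300000002c01f5000801,
0x4a265500000002a00000008f0000000910000000930000000a30000000320581000701,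
0xa643700000002c00000002400000009f0000000910000000930000000a300000003401f8000801,
0x64a330000000a30000000910000000930000000360033000501,
0xa4821f00000002e00000001c00000009d00000003802be000501,
0xabb00000009500000008f00000009f00000009100000009d0000000a30000000970000000ab00000003a000a00]

def c39_10_n_pf : List Nat := c39_10_n_p0

theorem c39_10_n_ref {V : Type} {S : SRel V} {p : Nat → V} (hp : ∀ i j, i < 6 → j < 6 → p i = p j → i = j)
    (hts : PHs S p 6 (mA ++ (gf (fun x => 8 + cr 4 x) rf39 ++ (gf (fun x => 8 + c6 5 0 1 3 4 x) f10 ++ fp2.map (tren (n6 1 2 4)))))) : False :=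
  refuteS (k := 6) (n2 := 3) (n3 := 1) (n4 := 3) (o3 := 63) (o4 := 119) (M := 812) (mA ++ (gf (fun x => 8 + cr 4 x) rf39 ++ (gf (fun x => 8 + c6 5 0 1 3 4 x) f10 ++ fp2.map (tren (n6 1 2 4))))) c39_10_n_pf (by decide +kernel)
    (by decide +kernel) (by decide +kernel) (by decide +kernel) hp hts

theorem c39_10_n {V : Type} {W : Mw V} (h : W.Hy) {a b c d u : V} (nd : [W.z, a, b, c, d, u].Nodup)
    (hr : Hit (mrel0 h.bs) (pt [a, b, c, d] W.z) rf39)
    (hf : Hit (mrel0 h.bs) (v6 W.z u W.z a c d) f10)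
    (hq : ¬ FS (mrel0 h.bs) W.z fp2 a b d) : False :=
  c39_10_n_ref (pt_inj (o := W.z) nd rfl) (PHs.app (h.ph rfl _) (PHs.app (gf_ph hr (cr 4) (cr_pt (n := 4) (l := [a, b, c, d]) (l' := [u]) rfl)) (PHs.app (gf_ph hf (c6 5 0 1 3 4) (c6_v6 rfl rfl rfl rfl rfl rfl)) (nf_ph hq (ia := 1) (ib := 2) (ic := 4) rfl rfl rfl rfl))))

def c39_10_2_p0 : List Nat := [
0x84200300000009702f5000201,
0xab000000002000200]

def c39_10_2_pf : List Nat := c39_10_2_p0

theorem c39_10_2_ref {V : Type} {S : SRel V} {p : Nat → V} (hp : ∀ i j, i < 5 → j < 5 → p i = p j → i = j)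
    (hts : PHs S p 5 (mA ++ (gf (fun x => 8 + cr 4 x) rf39 ++ (gf (fun x => 8 + c6 2 0 1 3 4 x) f10 ++ fp2.map (tren (n6 1 2 4)))))) : False :=
  refuteS (k := 5) (n2 := 3) (n3 := 1) (n4 := 3) (o3 := 45) (o4 := 80) (M := 440) (mA ++ (gf (fun x => 8 + cr 4 x) rf39 ++ (gf (fun x => 8 + c6 2 0 1 3 4 x) f10 ++ fp2.map (tren (n6 1 2 4))))) c39_10_2_pf (by decide +kernel)
    (by decide +kernel) (by decide +kernel) (by decide +kernel) hp hts

theorem c39_10_2 {V : Type} {W : Mw V} (h : W.Hy) {a b c d : V} (nd : [W.z, a, b, c, d].Nodup)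
    (hr : Hit (mrel0 h.bs) (pt [a, b, c, d] W.z) rf39)
    (hf : Hit (mrel0 h.bs) (v6 W.z b W.z a c d) f10)
    (hq : ¬ FS (mrel0 h.bs) W.z fp2 a b d) : False :=
  c39_10_2_ref (pt_inj (o := W.z) nd rfl) (PHs.app (h.ph rfl _) (PHs.app (gf_ph hr (cr 4) (cr_pt (n := 4) (l := [a, b, c, d]) (l' := []) rfl)) (PHs.app (gf_ph hf (c6 2 0 1 3 4) (c6_v6 rfl rfl rfl rfl rfl rfl)) (nf_ph hq (ia := 1) (ib := 2) (ic := 4) rfl rfl rfl rfl))))

def c39_11_n_p0 : List Nat := [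
0x8420030000000970490000201,
0x26084070000000020000000990176000301,
0x8a20030000000ab052c000201,
0x4a820070000000020000000ab0245000301,
0xa4082070000000970000000060263000301,
0xa420030000000080544000201,
0xa82400700000009700000000c02ba000301,
0x2a461d0000000b30554000201,
0x2a861d0000000b30563000201,
0x8a6170000000b30000000950000000a300000009b0000000930000000b50027000701,
0x864a6b0000000b30000000950000000b500000009f00000009100000009300000000e0000000a30000000990000000140024000b01,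
0xabd00000009500000008f00000009f00000009100000009d0000000a30000000970000000ab05ea000901,
0xabf00000009500000008f00000009f00000009100000009d0000000b50000000a30000000970000000ab0033000a01,
0xa4821f00000001800000000a00000009d00000001a0234000501,
0x684a22500000001000000001c0482000301,
0x648a22500000001200000001c04c1000301,
0x84621f00000002000000001600000000400000001e0341000501,
0x6c100000009500000002200000008f00000009f00000009100000009300000009d000000014000000097000000099000b00]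

def c39_11_n_pf : List Nat := c39_11_n_p0

theorem c39_11_n_ref {V : Type} {S : SRel V} {p : Nat → V} (hp : ∀ i j, i < 6 → j < 6 → p i = p j → i = j)
    (hts : PHs S p 6 (mA ++ (gf (fun x => 8 + cr 4 x) rf39 ++ (gf (fun x => 8 + c6 5 0 1 3 4 x) f11 ++ fp2.map (tren (n6 1 2 4)))))) : False :=
  refuteS (k := 6) (n2 := 3) (n3 := 1) (n4 := 3) (o3 := 63) (o4 := 119) (M := 812) (mA ++ (gf (fun x => 8 + cr 4 x) rf39 ++ (gf (fun x => 8 + c6 5 0 1 3 4 x) f11 ++ fp2.map (tren (n6 1 2 4))))) c39_11_n_pf (by decide +kernel)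
    (by decide +kernel) (by decide +kernel) (by decide +kernel) hp hts

theorem c39_11_n {V : Type} {W : Mw V} (h : W.Hy) {a b c d u : V} (nd : [W.z, a, b, c, d, u].Nodup)
    (hr : Hit (mrel0 h.bs) (pt [a, b, c, d] W.z) rf39)
    (hf : Hit (mrel0 h.bs) (v6 W.z u W.z a c d) f11)
    (hq : ¬ FS (mrel0 h.bs) W.z fp2 a b d) : False :=
  c39_11_n_ref (pt_inj (o := W.z) nd rfl) (PHs.app (h.ph rfl _) (PHs.app (gf_ph hr (cr 4) (cr_pt (n := 4) (l := [a, b, c, d]) (l' := [u]) rfl)) (PHs.app (gf_ph hf (c6 5 0 1 3 4) (c6_v6 rfl rfl rfl rfl rfl rfl)) (nf_ph hq (ia := 1) (ib := 2) (ic := 4) rfl rfl rfl rfl))))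

def c39_11_2_p0 : List Nat := [
0x84200300000009702f5000201,
0xab000000002000200]

def c39_11_2_pf : List Nat := c39_11_2_p0

theorem c39_11_2_ref {V : Type} {S : SRel V} {p : Nat → V} (hp : ∀ i j, i < 5 → j < 5 → p i = p j → i = j)
    (hts : PHs S p 5 (mA ++ (gf (fun x => 8 + cr 4 x) rf39 ++ (gf (fun x => 8 + c6 2 0 1 3 4 x) f11 ++ fp2.map (tren (n6 1 2 4)))))) : False :=
  refuteS (k := 5) (n2 := 3) (n3 := 1) (n4 := 3) (o3 := 45) (o4 := 80) (M := 440) (mA ++ (gf (fun x => 8 + cr 4 x) rf39 ++ (gf (fun x => 8 + c6 2 0 1 3 4 x) f11 ++ fp2.map (tren (n6 1 2 4))))) c39_11_2_pf (by decide +kernel)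
    (by decide +kernel) (by decide +kernel) (by decide +kernel) hp hts

theorem c39_11_2 {V : Type} {W : Mw V} (h : W.Hy) {a b c d : V} (nd : [W.z, a, b, c, d].Nodup)
    (hr : Hit (mrel0 h.bs) (pt [a, b, c, d] W.z) rf39)
    (hf : Hit (mrel0 h.bs) (v6 W.z b W.z a c d) f11)
    (hq : ¬ FS (mrel0 h.bs) W.z fp2 a b d) : False :=
  c39_11_2_ref (pt_inj (o := W.z) nd rfl) (PHs.app (h.ph rfl _) (PHs.app (gf_ph hr (cr 4) (cr_pt (n := 4) (l := [a, b, c, d]) (l' := []) rfl)) (PHs.app (gf_ph hf (c6 2 0 1 3 4) (c6_v6 rfl rfl rfl rfl rfl rfl)) (nf_ph hq (ia := 1) (ib := 2) (ic := 4) rfl rfl rfl rfl))))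

def c39_12_n_p0 : List Nat := [
0x86400300000009904bd000201,
0x4a086070000000020000000ad0269000301,
0x6a840300000000405c8000201,
0xa6084070000000990000000060203000301,
0xac10000000b300000009500000008f00000009f00000009100000009d0000000b50000000a7000000097000000008000b00]

def c39_12_n_pf : List Nat := c39_12_n_p0

theorem c39_12_n_ref {V : Type} {S : SRel V} {p : Nat → V} (hp : ∀ i j, i < 6 → j < 6 → p i = p j → i = j)
    (hts : PHs S p 6 (mA ++ (gf (fun x => 8 + cr 4 x) rf39 ++ (gf (fun x => 8 + c6 5 0 1 3 4 x) f12 ++ fp2.map (tren (n6 1 2 4)))))) : False :=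
  refuteS (k := 6) (n2 := 3) (n3 := 1) (n4 := 3) (o3 := 63) (o4 := 119) (M := 812) (mA ++ (gf (fun x => 8 + cr 4 x) rf39 ++ (gf (fun x => 8 + c6 5 0 1 3 4 x) f12 ++ fp2.map (tren (n6 1 2 4))))) c39_12_n_pf (by decide +kernel)
    (by decide +kernel) (by decide +kernel) (by decide +kernel) hp hts

theorem c39_12_n {V : Type} {W : Mw V} (h : W.Hy) {a b c d u : V} (nd : [W.z, a, b, c, d, u].Nodup)
    (hr : Hit (mrel0 h.bs) (pt [a, b, c, d] W.z) rf39)
    (hf : Hit (mrel0 h.bs) (v6 W.z u W.z a c d) f12)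
    (hq : ¬ FS (mrel0 h.bs) W.z fp2 a b d) : False :=
  c39_12_n_ref (pt_inj (o := W.z) nd rfl) (PHs.app (h.ph rfl _) (PHs.app (gf_ph hr (cr 4) (cr_pt (n := 4) (l := [a, b, c, d]) (l' := [u]) rfl)) (PHs.app (gf_ph hf (c6 5 0 1 3 4) (c6_v6 rfl rfl rfl rfl rfl rfl)) (nf_ph hq (ia := 1) (ib := 2) (ic := 4) rfl rfl rfl rfl))))

def c39_12_2_p0 : List Nat := [
0x8640030000000990322000201,
0xad000000002000200]

def c39_12_2_pf : List Nat := c39_12_2_p0

theorem c39_12_2_ref {V : Type} {S : SRel V} {p : Nat → V} (hp : ∀ i j, i < 5 → j < 5 → p i = p j → i = j)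
    (hts : PHs S p 5 (mA ++ (gf (fun x => 8 + cr 4 x) rf39 ++ (gf (fun x => 8 + c6 2 0 1 3 4 x) f12 ++ fp2.map (tren (n6 1 2 4)))))) : False :=
  refuteS (k := 5) (n2 := 3) (n3 := 1) (n4 := 3) (o3 := 45) (o4 := 80) (M := 440) (mA ++ (gf (fun x => 8 + cr 4 x) rf39 ++ (gf (fun x => 8 + c6 2 0 1 3 4 x) f12 ++ fp2.map (tren (n6 1 2 4))))) c39_12_2_pf (by decide +kernel)
    (by decide +kernel) (by decide +kernel) (by decide +kernel) hp hts

theorem c39_12_2 {V : Type} {W : Mw V} (h : W.Hy) {a b c d : V} (nd : [W.z, a, b, c, d].Nodup)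
    (hr : Hit (mrel0 h.bs) (pt [a, b, c, d] W.z) rf39)
    (hf : Hit (mrel0 h.bs) (v6 W.z b W.z a c d) f12)
    (hq : ¬ FS (mrel0 h.bs) W.z fp2 a b d) : False :=
  c39_12_2_ref (pt_inj (o := W.z) nd rfl) (PHs.app (h.ph rfl _) (PHs.app (gf_ph hr (cr 4) (cr_pt (n := 4) (l := [a, b, c, d]) (l' := []) rfl)) (PHs.app (gf_ph hf (c6 2 0 1 3 4) (c6_v6 rfl rfl rfl rfl rfl rfl)) (nf_ph hq (ia := 1) (ib := 2) (ic := 4) rfl rfl rfl rfl))))

def c39_13_n_p0 : List Nat := [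
0x8420030000000970490000201,
0x86400300000009904bd000201,
0x26084070000000020000000990176000301,
0x682400700000009700000000400d4000301,
0x86420300000000604c0000201,
0x420860700000000400000000a04b7000301,
0x8a60030000000ad05ef000201,
0x2a0860700000000c0000000ad0236000301,
0x4a086070000000040000000ad0269000301,
0xa84600700000009900000000e0254000301,
0x8a620300000001005f2000201,
0x6a840300000001205c8000201,
0xa6400300000001405ad000201,
0xa8462070000000060000000160257000301,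
0xa6084070000000990000000180203000301,
0xa62400700000000800000001a0218000301,
0xa4621b00000001c0584000201,
0x62a330000000a700000008f0000000930000000b30030000501,
0x4a625500000002200000008f0000000910000000930000000a70000000b30572000701,
0xa243700000002600000002000000008f00000009f0000000910000000a700000002401ec000801,
0xac100000009500000008f00000009f00000009100000009d0000000a700000009700000002800000001e000a00]

def c39_13_n_pf : List Nat := c39_13_n_p0

theorem c39_13_n_ref {V : Type} {S : SRel V} {p : Nat → V} (hp : ∀ i j, i < 6 → j < 6 → p i = p j → i = j)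
    (hts : PHs S p 6 (mA ++ (gf (fun x => 8 + cr 4 x) rf39 ++ (gf (fun x => 8 + c6 5 0 1 3 4 x) f13 ++ fp2.map (tren (n6 1 2 4)))))) : False :=
  refuteS (k := 6) (n2 := 3) (n3 := 1) (n4 := 3) (o3 := 63) (o4 := 119) (M := 812) (mA ++ (gf (fun x => 8 + cr 4 x) rf39 ++ (gf (fun x => 8 + c6 5 0 1 3 4 x) f13 ++ fp2.map (tren (n6 1 2 4))))) c39_13_n_pf (by decide +kernel)
    (by decide +kernel) (by decide +kernel) (by decide +kernel) hp hts

theorem c39_13_n {V : Type} {W : Mw V} (h : W.Hy) {a b c d u : V} (nd : [W.z, a, b, c, d, u].Nodup)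
    (hr : Hit (mrel0 h.bs) (pt [a, b, c, d] W.z) rf39)
    (hf : Hit (mrel0 h.bs) (v6 W.z u W.z a c d) f13)
    (hq : ¬ FS (mrel0 h.bs) W.z fp2 a b d) : False :=
  c39_13_n_ref (pt_inj (o := W.z) nd rfl) (PHs.app (h.ph rfl _) (PHs.app (gf_ph hr (cr 4) (cr_pt (n := 4) (l := [a, b, c, d]) (l' := [u]) rfl)) (PHs.app (gf_ph hf (c6 5 0 1 3 4) (c6_v6 rfl rfl rfl rfl rfl rfl)) (nf_ph hq (ia := 1) (ib := 2) (ic := 4) rfl rfl rfl rfl))))

def c39_13_2_p0 : List Nat := [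
0x8640030000000990322000201,
0xad000000002000200]

def c39_13_2_pf : List Nat := c39_13_2_p0

theorem c39_13_2_ref {V : Type} {S : SRel V} {p : Nat → V} (hp : ∀ i j, i < 5 → j < 5 → p i = p j → i = j)
    (hts : PHs S p 5 (mA ++ (gf (fun x => 8 + cr 4 x) rf39 ++ (gf (fun x => 8 + c6 2 0 1 3 4 x) f13 ++ fp2.map (tren (n6 1 2 4)))))) : False :=
  refuteS (k := 5) (n2 := 3) (n3 := 1) (n4 := 3) (o3 := 45) (o4 := 80) (M := 440) (mA ++ (gf (fun x => 8 + cr 4 x) rf39 ++ (gf (fun x => 8 + c6 2 0 1 3 4 x) f13 ++ fp2.map (tren (n6 1 2 4))))) c39_13_2_pf (by decide +kernel)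
    (by decide +kernel) (by decide +kernel) (by decide +kernel) hp hts

theorem c39_13_2 {V : Type} {W : Mw V} (h : W.Hy) {a b c d : V} (nd : [W.z, a, b, c, d].Nodup)
    (hr : Hit (mrel0 h.bs) (pt [a, b, c, d] W.z) rf39)
    (hf : Hit (mrel0 h.bs) (v6 W.z b W.z a c d) f13)
    (hq : ¬ FS (mrel0 h.bs) W.z fp2 a b d) : False :=
  c39_13_2_ref (pt_inj (o := W.z) nd rfl) (PHs.app (h.ph rfl _) (PHs.app (gf_ph hr (cr 4) (cr_pt (n := 4) (l := [a, b, c, d]) (l' := []) rfl)) (PHs.app (gf_ph hf (c6 2 0 1 3 4) (c6_v6 rfl rfl rfl rfl rfl rfl)) (nf_ph hq (ia := 1) (ib := 2) (ic := 4) rfl rfl rfl rfl))))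

def c39_14_n_n_p0 : List Nat := [
0xc840b0000000950000000910000000ab09ea000401,
0xc82400700000009700000000203a8000301,
0xcac90000000ab0000000a700000009500000008f00000009f00000009100000009d0000000af0000000b70000000040000000b10000000b9000d00]

def c39_14_n_n_pf : List Nat := c39_14_n_n_p0

theorem c39_14_n_n_ref {V : Type} {S : SRel V} {p : Nat → V} (hp : ∀ i j, i < 7 → j < 7 → p i = p j → i = j)
    (hts : PHs S p 7 (mA ++ (gf (fun x => 8 + cr 4 x) rf39 ++ (gf (fun x => 8 + c6 5 6 1 3 4 x) f14 ++ fp2.map (tren (n6 1 2 4)))))) : False :=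
  refuteS (k := 7) (n2 := 3) (n3 := 1) (n4 := 3) (o3 := 84) (o4 := 168) (M := 1386) (mA ++ (gf (fun x => 8 + cr 4 x) rf39 ++ (gf (fun x => 8 + c6 5 6 1 3 4 x) f14 ++ fp2.map (tren (n6 1 2 4))))) c39_14_n_n_pf (by decide +kernel)
    (by decide +kernel) (by decide +kernel) (by decide +kernel) hp hts

theorem c39_14_n_n {V : Type} {W : Mw V} (h : W.Hy) {a b c d u w : V} (nd : [W.z, a, b, c, d, u, w].Nodup)
    (hr : Hit (mrel0 h.bs) (pt [a, b, c, d] W.z) rf39)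
    (hf : Hit (mrel0 h.bs) (v6 W.z u w a c d) f14)
    (hq : ¬ FS (mrel0 h.bs) W.z fp2 a b d) : False :=
  c39_14_n_n_ref (pt_inj (o := W.z) nd rfl) (PHs.app (h.ph rfl _) (PHs.app (gf_ph hr (cr 4) (cr_pt (n := 4) (l := [a, b, c, d]) (l' := [u, w]) rfl)) (PHs.app (gf_ph hf (c6 5 6 1 3 4) (c6_v6 rfl rfl rfl rfl rfl rfl)) (nf_ph hq (ia := 1) (ib := 2) (ic := 4) rfl rfl rfl rfl))))

def c39_14_n_2_p0 : List Nat := [
0xab000000091000200]

def c39_14_n_2_pf : List Nat := c39_14_n_2_p0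

theorem c39_14_n_2_ref {V : Type} {S : SRel V} {p : Nat → V} (hp : ∀ i j, i < 6 → j < 6 → p i = p j → i = j)
    (hts : PHs S p 6 (mA ++ (gf (fun x => 8 + cr 4 x) rf39 ++ (gf (fun x => 8 + c6 5 2 1 3 4 x) f14 ++ fp2.map (tren (n6 1 2 4)))))) : False :=
  refuteS (k := 6) (n2 := 3) (n3 := 1) (n4 := 3) (o3 := 63) (o4 := 119) (M := 812) (mA ++ (gf (fun x => 8 + cr 4 x) rf39 ++ (gf (fun x => 8 + c6 5 2 1 3 4 x) f14 ++ fp2.map (tren (n6 1 2 4))))) c39_14_n_2_pf (by decide +kernel)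
    (by decide +kernel) (by decide +kernel) (by decide +kernel) hp hts

theorem c39_14_n_2 {V : Type} {W : Mw V} (h : W.Hy) {a b c d u : V} (nd : [W.z, a, b, c, d, u].Nodup)
    (hr : Hit (mrel0 h.bs) (pt [a, b, c, d] W.z) rf39)
    (hf : Hit (mrel0 h.bs) (v6 W.z u b a c d) f14)
    (hq : ¬ FS (mrel0 h.bs) W.z fp2 a b d) : False :=
  c39_14_n_2_ref (pt_inj (o := W.z) nd rfl) (PHs.app (h.ph rfl _) (PHs.app (gf_ph hr (cr 4) (cr_pt (n := 4) (l := [a, b, c, d]) (l' := [u]) rfl)) (PHs.app (gf_ph hf (c6 5 2 1 3 4) (c6_v6 rfl rfl rfl rfl rfl rfl)) (nf_ph hq (ia := 1) (ib := 2) (ic := 4) rfl rfl rfl rfl))))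

def c39_14_2_n_p0 : List Nat := [
0xa7000000091000200]

def c39_14_2_n_pf : List Nat := c39_14_2_n_p0

theorem c39_14_2_n_ref {V : Type} {S : SRel V} {p : Nat → V} (hp : ∀ i j, i < 6 → j < 6 → p i = p j → i = j)
    (hts : PHs S p 6 (mA ++ (gf (fun x => 8 + cr 4 x) rf39 ++ (gf (fun x => 8 + c6 2 5 1 3 4 x) f14 ++ fp2.map (tren (n6 1 2 4)))))) : False :=
  refuteS (k := 6) (n2 := 3) (n3 := 1) (n4 := 3) (o3 := 63) (o4 := 119) (M := 812) (mA ++ (gf (fun x => 8 + cr 4 x) rf39 ++ (gf (fun x => 8 + c6 2 5 1 3 4 x) f14 ++ fp2.map (tren (n6 1 2 4))))) c39_14_2_n_pf (by decide +kernel)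
    (by decide +kernel) (by decide +kernel) (by decide +kernel) hp hts

theorem c39_14_2_n {V : Type} {W : Mw V} (h : W.Hy) {a b c d w : V} (nd : [W.z, a, b, c, d, w].Nodup)
    (hr : Hit (mrel0 h.bs) (pt [a, b, c, d] W.z) rf39)
    (hf : Hit (mrel0 h.bs) (v6 W.z b w a c d) f14)
    (hq : ¬ FS (mrel0 h.bs) W.z fp2 a b d) : False :=
  c39_14_2_n_ref (pt_inj (o := W.z) nd rfl) (PHs.app (h.ph rfl _) (PHs.app (gf_ph hr (cr 4) (cr_pt (n := 4) (l := [a, b, c, d]) (l' := [w]) rfl)) (PHs.app (gf_ph hf (c6 2 5 1 3 4) (c6_v6 rfl rfl rfl rfl rfl rfl)) (nf_ph hq (ia := 1) (ib := 2) (ic := 4) rfl rfl rfl rfl))))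

def c39_15_n_n_p0 : List Nat := [
0xcacb0000000a90000000a700000009500000008f00000009f00000009100000009d0000000970000000b10000000af0000000b90000000b7000d00]

def c39_15_n_n_pf : List Nat := c39_15_n_n_p0

theorem c39_15_n_n_ref {V : Type} {S : SRel V} {p : Nat → V} (hp : ∀ i j, i < 7 → j < 7 → p i = p j → i = j)
    (hts : PHs S p 7 (mA ++ (gf (fun x => 8 + cr 4 x) rf39 ++ (gf (fun x => 8 + c6 5 6 1 3 4 x) f15 ++ fp2.map (tren (n6 1 2 4)))))) : False :=
  refuteS (k := 7) (n2 := 3) (n3 := 1) (n4 := 3) (o3 := 84) (o4 := 168) (M := 1386) (mA ++ (gf (fun x => 8 + cr 4 x) rf39 ++ (gf (fun x => 8 + c6 5 6 1 3 4 x) f15 ++ fp2.map (tren (n6 1 2 4))))) c39_15_n_n_pf (by decide +kernel)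
    (by decide +kernel) (by decide +kernel) (by decide +kernel) hp hts

theorem c39_15_n_n {V : Type} {W : Mw V} (h : W.Hy) {a b c d u w : V} (nd : [W.z, a, b, c, d, u, w].Nodup)
    (hr : Hit (mrel0 h.bs) (pt [a, b, c, d] W.z) rf39)
    (hf : Hit (mrel0 h.bs) (v6 W.z u w a c d) f15)
    (hq : ¬ FS (mrel0 h.bs) W.z fp2 a b d) : False :=
  c39_15_n_n_ref (pt_inj (o := W.z) nd rfl) (PHs.app (h.ph rfl _) (PHs.app (gf_ph hr (cr 4) (cr_pt (n := 4) (l := [a, b, c, d]) (l' := [u, w]) rfl)) (PHs.app (gf_ph hf (c6 5 6 1 3 4) (c6_v6 rfl rfl rfl rfl rfl rfl)) (nf_ph hq (ia := 1) (ib := 2) (ic := 4) rfl rfl rfl rfl))))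

def c39_15_n_2_p0 : List Nat := [
0xa9000000091000200]

def c39_15_n_2_pf : List Nat := c39_15_n_2_p0

theorem c39_15_n_2_ref {V : Type} {S : SRel V} {p : Nat → V} (hp : ∀ i j, i < 6 → j < 6 → p i = p j → i = j)
    (hts : PHs S p 6 (mA ++ (gf (fun x => 8 + cr 4 x) rf39 ++ (gf (fun x => 8 + c6 5 2 1 3 4 x) f15 ++ fp2.map (tren (n6 1 2 4)))))) : False :=
  refuteS (k := 6) (n2 := 3) (n3 := 1) (n4 := 3) (o3 := 63) (o4 := 119) (M := 812) (mA ++ (gf (fun x => 8 + cr 4 x) rf39 ++ (gf (fun x => 8 + c6 5 2 1 3 4 x) f15 ++ fp2.map (tren (n6 1 2 4))))) c39_15_n_2_pf (by decide +kernel)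
    (by decide +kernel) (by decide +kernel) (by decide +kernel) hp hts

theorem c39_15_n_2 {V : Type} {W : Mw V} (h : W.Hy) {a b c d u : V} (nd : [W.z, a, b, c, d, u].Nodup)
    (hr : Hit (mrel0 h.bs) (pt [a, b, c, d] W.z) rf39)
    (hf : Hit (mrel0 h.bs) (v6 W.z u b a c d) f15)
    (hq : ¬ FS (mrel0 h.bs) W.z fp2 a b d) : False :=
  c39_15_n_2_ref (pt_inj (o := W.z) nd rfl) (PHs.app (h.ph rfl _) (PHs.app (gf_ph hr (cr 4) (cr_pt (n := 4) (l := [a, b, c, d]) (l' := [u]) rfl)) (PHs.app (gf_ph hf (c6 5 2 1 3 4) (c6_v6 rfl rfl rfl rfl rfl rfl)) (nf_ph hq (ia := 1) (ib := 2) (ic := 4) rfl rfl rfl rfl))))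

def c39_15_2_n_p0 : List Nat := [
0xa7000000091000200]

def c39_15_2_n_pf : List Nat := c39_15_2_n_p0

theorem c39_15_2_n_ref {V : Type} {S : SRel V} {p : Nat → V} (hp : ∀ i j, i < 6 → j < 6 → p i = p j → i = j)
    (hts : PHs S p 6 (mA ++ (gf (fun x => 8 + cr 4 x) rf39 ++ (gf (fun x => 8 + c6 2 5 1 3 4 x) f15 ++ fp2.map (tren (n6 1 2 4)))))) : False :=
  refuteS (k := 6) (n2 := 3) (n3 := 1) (n4 := 3) (o3 := 63) (o4 := 119) (M := 812) (mA ++ (gf (fun x => 8 + cr 4 x) rf39 ++ (gf (fun x => 8 + c6 2 5 1 3 4 x) f15 ++ fp2.map (tren (n6 1 2 4))))) c39_15_2_n_pf (by decide +kernel)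
    (by decide +kernel) (by decide +kernel) (by decide +kernel) hp hts

theorem c39_15_2_n {V : Type} {W : Mw V} (h : W.Hy) {a b c d w : V} (nd : [W.z, a, b, c, d, w].Nodup)
    (hr : Hit (mrel0 h.bs) (pt [a, b, c, d] W.z) rf39)
    (hf : Hit (mrel0 h.bs) (v6 W.z b w a c d) f15)
    (hq : ¬ FS (mrel0 h.bs) W.z fp2 a b d) : False :=
  c39_15_2_n_ref (pt_inj (o := W.z) nd rfl) (PHs.app (h.ph rfl _) (PHs.app (gf_ph hr (cr 4) (cr_pt (n := 4) (l := [a, b, c, d]) (l' := [w]) rfl)) (PHs.app (gf_ph hf (c6 2 5 1 3 4) (c6_v6 rfl rfl rfl rfl rfl rfl)) (nf_ph hq (ia := 1) (ib := 2) (ic := 4) rfl rfl rfl rfl))))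

def c39_16_n_n_p0 : List Nat := [
0x84200300000009706ff000201,
0x260840700000000200000009901a7000301,
0x48620300000000406f0000201,
0x64082070000000970000000060180000301,
0xc840b0000000950000000910000000ab09ea000401,
0xc860b0000000950000000930000000ab09f3000401,
0xc82400700000009700000000a03a8000301,
0xc84600700000009900000000c03f6000301,
0xc82600700000000800000000c03b1000301,
0x2a80030000000af079b000201,
0xa4082070000000970000000140294000301,
0x2ca0030000000b108f7000201,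
0x8c2a0070000000140000000b104a4000301,
0xc80a2070000000af00000001804a7000301,
0xca800300000001a0a4d000201,
0xca820300000001c0a50000201,
0xca280070000000af00000001e03bd000301,
0xca482070000000160000000200405000301,
0x8ac2d0000000ab0000000a90000000950000000bb002d000501,
0xca862750000000ab0000000b90000000a90000000b70000000950000000b100000008f00000009b00000009300000009d0000000af0000000120000000bb0027000e01,
0xca62670000000ab0000000b90000000a90000000b700000008f00000009b0000000930000000b100000001200000002605ac000b01,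
0xc86427d0000000ab0000000b900000009500000008f00000009100000009300000002200000000e000000010000000028092e000b01,
0x8c421d00000002a09ee000201,
0xc4821f00000002e00000002400000009d00000002c05af000501,
0xcacf0000000ab0000000300000000a90000000b700000009500000008f00000009f00000009100000009d0000000af0000000bb00000000e0000000b1000e00]

def c39_16_n_n_pf : List Nat := c39_16_n_n_p0

theorem c39_16_n_n_ref {V : Type} {S : SRel V} {p : Nat → V} (hp : ∀ i j, i < 7 → j < 7 → p i = p j → i = j)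
    (hts : PHs S p 7 (mA ++ (gf (fun x => 8 + cr 4 x) rf39 ++ (gf (fun x => 8 + c6 5 6 1 3 4 x) f16 ++ fp2.map (tren (n6 1 2 4)))))) : False :=
  refuteS (k := 7) (n2 := 3) (n3 := 1) (n4 := 3) (o3 := 84) (o4 := 168) (M := 1386) (mA ++ (gf (fun x => 8 + cr 4 x) rf39 ++ (gf (fun x => 8 + c6 5 6 1 3 4 x) f16 ++ fp2.map (tren (n6 1 2 4))))) c39_16_n_n_pf (by decide +kernel)
    (by decide +kernel) (by decide +kernel) (by decide +kernel) hp hts

theorem c39_16_n_n {V : Type} {W : Mw V} (h : W.Hy) {a b c d u w : V} (nd : [W.z, a, b, c, d, u, w].Nodup)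
    (hr : Hit (mrel0 h.bs) (pt [a, b, c, d] W.z) rf39)
    (hf : Hit (mrel0 h.bs) (v6 W.z u w a c d) f16)
    (hq : ¬ FS (mrel0 h.bs) W.z fp2 a b d) : False :=
  c39_16_n_n_ref (pt_inj (o := W.z) nd rfl) (PHs.app (h.ph rfl _) (PHs.app (gf_ph hr (cr 4) (cr_pt (n := 4) (l := [a, b, c, d]) (l' := [u, w]) rfl)) (PHs.app (gf_ph hf (c6 5 6 1 3 4) (c6_v6 rfl rfl rfl rfl rfl rfl)) (nf_ph hq (ia := 1) (ib := 2) (ic := 4) rfl rfl rfl rfl))))

def c39_16_n_2_p0 : List Nat := [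
0xab000000091000200]

def c39_16_n_2_pf : List Nat := c39_16_n_2_p0

theorem c39_16_n_2_ref {V : Type} {S : SRel V} {p : Nat → V} (hp : ∀ i j, i < 6 → j < 6 → p i = p j → i = j)
    (hts : PHs S p 6 (mA ++ (gf (fun x => 8 + cr 4 x) rf39 ++ (gf (fun x => 8 + c6 5 2 1 3 4 x) f16 ++ fp2.map (tren (n6 1 2 4)))))) : False :=
  refuteS (k := 6) (n2 := 3) (n3 := 1) (n4 := 3) (o3 := 63) (o4 := 119) (M := 812) (mA ++ (gf (fun x => 8 + cr 4 x) rf39 ++ (gf (fun x => 8 + c6 5 2 1 3 4 x) f16 ++ fp2.map (tren (n6 1 2 4))))) c39_16_n_2_pf (by decide +kernel)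
    (by decide +kernel) (by decide +kernel) (by decide +kernel) hp hts

theorem c39_16_n_2 {V : Type} {W : Mw V} (h : W.Hy) {a b c d u : V} (nd : [W.z, a, b, c, d, u].Nodup)
    (hr : Hit (mrel0 h.bs) (pt [a, b, c, d] W.z) rf39)
    (hf : Hit (mrel0 h.bs) (v6 W.z u b a c d) f16)
    (hq : ¬ FS (mrel0 h.bs) W.z fp2 a b d) : False :=
  c39_16_n_2_ref (pt_inj (o := W.z) nd rfl) (PHs.app (h.ph rfl _) (PHs.app (gf_ph hr (cr 4) (cr_pt (n := 4) (l := [a, b, c, d]) (l' := [u]) rfl)) (PHs.app (gf_ph hf (c6 5 2 1 3 4) (c6_v6 rfl rfl rfl rfl rfl rfl)) (nf_ph hq (ia := 1) (ib := 2) (ic := 4) rfl rfl rfl rfl))))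

def c39_16_2_n_p0 : List Nat := [
0xa9000000091000200]

def c39_16_2_n_pf : List Nat := c39_16_2_n_p0

theorem c39_16_2_n_ref {V : Type} {S : SRel V} {p : Nat → V} (hp : ∀ i j, i < 6 → j < 6 → p i = p j → i = j)
    (hts : PHs S p 6 (mA ++ (gf (fun x => 8 + cr 4 x) rf39 ++ (gf (fun x => 8 + c6 2 5 1 3 4 x) f16 ++ fp2.map (tren (n6 1 2 4)))))) : False :=
  refuteS (k := 6) (n2 := 3) (n3 := 1) (n4 := 3) (o3 := 63) (o4 := 119) (M := 812) (mA ++ (gf (fun x => 8 + cr 4 x) rf39 ++ (gf (fun x => 8 + c6 2 5 1 3 4 x) f16 ++ fp2.map (tren (n6 1 2 4))))) c39_16_2_n_pf (by decide +kernel)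
    (by decide +kernel) (by decide +kernel) (by decide +kernel) hp hts

theorem c39_16_2_n {V : Type} {W : Mw V} (h : W.Hy) {a b c d w : V} (nd : [W.z, a, b, c, d, w].Nodup)
    (hr : Hit (mrel0 h.bs) (pt [a, b, c, d] W.z) rf39)
    (hf : Hit (mrel0 h.bs) (v6 W.z b w a c d) f16)
    (hq : ¬ FS (mrel0 h.bs) W.z fp2 a b d) : False :=
  c39_16_2_n_ref (pt_inj (o := W.z) nd rfl) (PHs.app (h.ph rfl _) (PHs.app (gf_ph hr (cr 4) (cr_pt (n := 4) (l := [a, b, c, d]) (l' := [w]) rfl)) (PHs.app (gf_ph hf (c6 2 5 1 3 4) (c6_v6 rfl rfl rfl rfl rfl rfl)) (nf_ph hq (ia := 1) (ib := 2) (ic := 4) rfl rfl rfl rfl))))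

def c39_17_n_n_p0 : List Nat := [
0x84200300000009706ff000201,
0x864003000000099072c000201,
0x260840700000000200000009901a7000301,
0x68240070000000970000000040105000301,
0x48620300000000606f0000201,
0x84621b0000000060712000201,
0x640820700000009700000000a0180000301,
0x62a0d00000009300000008f0000000a9078f000401,
0xa860b0000000950000000930000000a9085e000401,
0xa4062070000000080000000100288000301,
0xa82600700000000e0000000120252000301,
0x62c0d00000009300000008f0000000ab08dc000401,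
0xc840b0000000950000000910000000ab09ea000401,
0xc860b0000000950000000930000000ab09f3000401,
0xc40620700000000800000001803f9000301,
0xc82400700000009700000001a03a8000301,
0xc82600700000000e00000001c03b1000301,
0xc4621b00000001e0964000201,
0x2a80030000000af079b000201,
0xa4082070000000970000000260294000301,
0xa60820700000000e00000002602ca000301,
0x2ca0030000000b108f7000201,
0xa40c2050000000200000000b1093c000301,
0xa60c2050000000220000000b1093f000301,
0xc60a20700000001600000002c045c000301,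
0xc80a2070000000af00000002c04a7000301,
0xc62a40700000001400000002e045f000301,
0xc82a60700000002a00000003004ad000301,
0xca82030000000340a50000201,
0xc8a61b0000000380a18000201,
0xca4820700000002800000003a0405000301,
0xca261d0000000b70a45000201,
0xca461d0000000b70a48000201,
0x8ac2d0000000ab0000000a90000000950000000b9002d000501,
0x8c621d0000000bb0042000201,
0x8c261d0000000bb0048000201,
0x4c8622500000000c0000000bb092e000301,
0x82ca62500000003c0000000bb0940000301,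
0x4a8c262700000003c0000000240000000bb0985000401,
0xc6a21f00000004000000004c000000032000000048059a000501,
0xc6a41f00000004200000004e000000036000000048059d000501,
0xca42670000000ab0000000460000000a900000004400000008f00000009f0000000910000000b10000000200000000500045000b01,
0xc4821f00000004a00000003e00000009d0000000540484000501,
0xcad10000000ab0000000a900000005200000009500000008f00000009f00000009100000009d0000000af0000000b90000000200000000b1000000056000e00]

def c39_17_n_n_pf : List Nat := c39_17_n_n_p0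

theorem c39_17_n_n_ref {V : Type} {S : SRel V} {p : Nat → V} (hp : ∀ i j, i < 7 → j < 7 → p i = p j → i = j)
    (hts : PHs S p 7 (mA ++ (gf (fun x => 8 + cr 4 x) rf39 ++ (gf (fun x => 8 + c6 5 6 1 3 4 x) f17 ++ fp2.map (tren (n6 1 2 4)))))) : False :=
  refuteS (k := 7) (n2 := 3) (n3 := 1) (n4 := 3) (o3 := 84) (o4 := 168) (M := 1386) (mA ++ (gf (fun x => 8 + cr 4 x) rf39 ++ (gf (fun x => 8 + c6 5 6 1 3 4 x) f17 ++ fp2.map (tren (n6 1 2 4))))) c39_17_n_n_pf (by decide +kernel)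
    (by decide +kernel) (by decide +kernel) (by decide +kernel) hp hts

theorem c39_17_n_n {V : Type} {W : Mw V} (h : W.Hy) {a b c d u w : V} (nd : [W.z, a, b, c, d, u, w].Nodup)
    (hr : Hit (mrel0 h.bs) (pt [a, b, c, d] W.z) rf39)
    (hf : Hit (mrel0 h.bs) (v6 W.z u w a c d) f17)
    (hq : ¬ FS (mrel0 h.bs) W.z fp2 a b d) : False :=
  c39_17_n_n_ref (pt_inj (o := W.z) nd rfl) (PHs.app (h.ph rfl _) (PHs.app (gf_ph hr (cr 4) (cr_pt (n := 4) (l := [a, b, c, d]) (l' := [u, w]) rfl)) (PHs.app (gf_ph hf (c6 5 6 1 3 4) (c6_v6 rfl rfl rfl rfl rfl rfl)) (nf_ph hq (ia := 1) (ib := 2) (ic := 4) rfl rfl rfl rfl))))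

def c39_17_n_2_p0 : List Nat := [
0xab000000091000200]

def c39_17_n_2_pf : List Nat := c39_17_n_2_p0

theorem c39_17_n_2_ref {V : Type} {S : SRel V} {p : Nat → V} (hp : ∀ i j, i < 6 → j < 6 → p i = p j → i = j)
    (hts : PHs S p 6 (mA ++ (gf (fun x => 8 + cr 4 x) rf39 ++ (gf (fun x => 8 + c6 5 2 1 3 4 x) f17 ++ fp2.map (tren (n6 1 2 4)))))) : False :=
  refuteS (k := 6) (n2 := 3) (n3 := 1) (n4 := 3) (o3 := 63) (o4 := 119) (M := 812) (mA ++ (gf (fun x => 8 + cr 4 x) rf39 ++ (gf (fun x => 8 + c6 5 2 1 3 4 x) f17 ++ fp2.map (tren (n6 1 2 4))))) c39_17_n_2_pf (by decide +kernel)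
    (by decide +kernel) (by decide +kernel) (by decide +kernel) hp hts

theorem c39_17_n_2 {V : Type} {W : Mw V} (h : W.Hy) {a b c d u : V} (nd : [W.z, a, b, c, d, u].Nodup)
    (hr : Hit (mrel0 h.bs) (pt [a, b, c, d] W.z) rf39)
    (hf : Hit (mrel0 h.bs) (v6 W.z u b a c d) f17)
    (hq : ¬ FS (mrel0 h.bs) W.z fp2 a b d) : False :=
  c39_17_n_2_ref (pt_inj (o := W.z) nd rfl) (PHs.app (h.ph rfl _) (PHs.app (gf_ph hr (cr 4) (cr_pt (n := 4) (l := [a, b, c, d]) (l' := [u]) rfl)) (PHs.app (gf_ph hf (c6 5 2 1 3 4) (c6_v6 rfl rfl rfl rfl rfl rfl)) (nf_ph hq (ia := 1) (ib := 2) (ic := 4) rfl rfl rfl rfl))))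

def c39_17_2_n_p0 : List Nat := [
0xa9000000091000200]

def c39_17_2_n_pf : List Nat := c39_17_2_n_p0

theorem c39_17_2_n_ref {V : Type} {S : SRel V} {p : Nat → V} (hp : ∀ i j, i < 6 → j < 6 → p i = p j → i = j)
    (hts : PHs S p 6 (mA ++ (gf (fun x => 8 + cr 4 x) rf39 ++ (gf (fun x => 8 + c6 2 5 1 3 4 x) f17 ++ fp2.map (tren (n6 1 2 4)))))) : False :=
  refuteS (k := 6) (n2 := 3) (n3 := 1) (n4 := 3) (o3 := 63) (o4 := 119) (M := 812) (mA ++ (gf (fun x => 8 + cr 4 x) rf39 ++ (gf (fun x => 8 + c6 2 5 1 3 4 x) f17 ++ fp2.map (tren (n6 1 2 4))))) c39_17_2_n_pf (by decide +kernel)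
    (by decide +kernel) (by decide +kernel) (by decide +kernel) hp hts

theorem c39_17_2_n {V : Type} {W : Mw V} (h : W.Hy) {a b c d w : V} (nd : [W.z, a, b, c, d, w].Nodup)
    (hr : Hit (mrel0 h.bs) (pt [a, b, c, d] W.z) rf39)
    (hf : Hit (mrel0 h.bs) (v6 W.z b w a c d) f17)
    (hq : ¬ FS (mrel0 h.bs) W.z fp2 a b d) : False :=
  c39_17_2_n_ref (pt_inj (o := W.z) nd rfl) (PHs.app (h.ph rfl _) (PHs.app (gf_ph hr (cr 4) (cr_pt (n := 4) (l := [a, b, c, d]) (l' := [w]) rfl)) (PHs.app (gf_ph hf (c6 2 5 1 3 4) (c6_v6 rfl rfl rfl rfl rfl rfl)) (nf_ph hq (ia := 1) (ib := 2) (ic := 4) rfl rfl rfl rfl))))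

def c39_18_n_n_p0 : List Nat := [
0x84200300000009706ff000201,
0x864003000000099072c000201,
0x260840700000000200000009901a7000301,
0x68240070000000970000000040105000301,
0x84621b0000000060712000201,
0x62a0d00000009300000008f0000000a9078f000401,
0xa840b0000000950000000910000000a90855000401,
0xa40620700000000800000000c0288000301,
0xa82400700000009700000000e0249000301,
0xa4621b00000001007f3000201,
0xc840b0000000950000000910000000ab09ea000401,
0xc82400700000009700000001603a8000301,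
0x2a80030000000af079b000201,
0xa40820700000009700000001a0294000301,
0x2ca0030000000b108f7000201,
0xc40a20700000001200000001e0414000301,
0xc80a2070000000af00000001e04a7000301,
0xca82030000000220a50000201,
0xca4820700000001c0000000240405000301,
0x4c8622500000000a0000000b9092e000301,
0xa8c26250000000b90000000bb04db000301,
0xca621d00000002a0030000201,
0x862ca230000000bb00000002a04e7000301,
0x4ca622500000001400000002a093d000301,
0xca842770000000ab0000000b70000000a900000009500000008f00000009f0000000910000000af0000000b100000001800000002e0045000c01,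
0xc4821f00000002800000002600000009d0000000320484000501,
0xc4a21f00000002c00000003000000002000000003204d2000501,
0x824ca2300000002e00000003604ea000301,
0xcad30000000ab0000000a900000009500000008f00000009f00000009100000009d0000000af0000000b70000000180000000b1000000034000000038000e00]

def c39_18_n_n_pf : List Nat := c39_18_n_n_p0

theorem c39_18_n_n_ref {V : Type} {S : SRel V} {p : Nat → V} (hp : ∀ i j, i < 7 → j < 7 → p i = p j → i = j)
    (hts : PHs S p 7 (mA ++ (gf (fun x => 8 + cr 4 x) rf39 ++ (gf (fun x => 8 + c6 5 6 1 3 4 x) f18 ++ fp2.map (tren (n6 1 2 4)))))) : False :=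
  refuteS (k := 7) (n2 := 3) (n3 := 1) (n4 := 3) (o3 := 84) (o4 := 168) (M := 1386) (mA ++ (gf (fun x => 8 + cr 4 x) rf39 ++ (gf (fun x => 8 + c6 5 6 1 3 4 x) f18 ++ fp2.map (tren (n6 1 2 4))))) c39_18_n_n_pf (by decide +kernel)
    (by decide +kernel) (by decide +kernel) (by decide +kernel) hp hts

theorem c39_18_n_n {V : Type} {W : Mw V} (h : W.Hy) {a b c d u w : V} (nd : [W.z, a, b, c, d, u, w].Nodup)
    (hr : Hit (mrel0 h.bs) (pt [a, b, c, d] W.z) rf39)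
    (hf : Hit (mrel0 h.bs) (v6 W.z u w a c d) f18)
    (hq : ¬ FS (mrel0 h.bs) W.z fp2 a b d) : False :=
  c39_18_n_n_ref (pt_inj (o := W.z) nd rfl) (PHs.app (h.ph rfl _) (PHs.app (gf_ph hr (cr 4) (cr_pt (n := 4) (l := [a, b, c, d]) (l' := [u, w]) rfl)) (PHs.app (gf_ph hf (c6 5 6 1 3 4) (c6_v6 rfl rfl rfl rfl rfl rfl)) (nf_ph hq (ia := 1) (ib := 2) (ic := 4) rfl rfl rfl rfl))))

def c39_18_n_2_p0 : List Nat := [
0xab000000091000200]

def c39_18_n_2_pf : List Nat := c39_18_n_2_p0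

theorem c39_18_n_2_ref {V : Type} {S : SRel V} {p : Nat → V} (hp : ∀ i j, i < 6 → j < 6 → p i = p j → i = j)
    (hts : PHs S p 6 (mA ++ (gf (fun x => 8 + cr 4 x) rf39 ++ (gf (fun x => 8 + c6 5 2 1 3 4 x) f18 ++ fp2.map (tren (n6 1 2 4)))))) : False :=
  refuteS (k := 6) (n2 := 3) (n3 := 1) (n4 := 3) (o3 := 63) (o4 := 119) (M := 812) (mA ++ (gf (fun x => 8 + cr 4 x) rf39 ++ (gf (fun x => 8 + c6 5 2 1 3 4 x) f18 ++ fp2.map (tren (n6 1 2 4))))) c39_18_n_2_pf (by decide +kernel)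
    (by decide +kernel) (by decide +kernel) (by decide +kernel) hp hts

theorem c39_18_n_2 {V : Type} {W : Mw V} (h : W.Hy) {a b c d u : V} (nd : [W.z, a, b, c, d, u].Nodup)
    (hr : Hit (mrel0 h.bs) (pt [a, b, c, d] W.z) rf39)
    (hf : Hit (mrel0 h.bs) (v6 W.z u b a c d) f18)
    (hq : ¬ FS (mrel0 h.bs) W.z fp2 a b d) : False :=
  c39_18_n_2_ref (pt_inj (o := W.z) nd rfl) (PHs.app (h.ph rfl _) (PHs.app (gf_ph hr (cr 4) (cr_pt (n := 4) (l := [a, b, c, d]) (l' := [u]) rfl)) (PHs.app (gf_ph hf (c6 5 2 1 3 4) (c6_v6 rfl rfl rfl rfl rfl rfl)) (nf_ph hq (ia := 1) (ib := 2) (ic := 4) rfl rfl rfl rfl))))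

def c39_18_2_n_p0 : List Nat := [
0xa9000000091000200]

def c39_18_2_n_pf : List Nat := c39_18_2_n_p0

theorem c39_18_2_n_ref {V : Type} {S : SRel V} {p : Nat → V} (hp : ∀ i j, i < 6 → j < 6 → p i = p j → i = j)
    (hts : PHs S p 6 (mA ++ (gf (fun x => 8 + cr 4 x) rf39 ++ (gf (fun x => 8 + c6 2 5 1 3 4 x) f18 ++ fp2.map (tren (n6 1 2 4)))))) : False :=
  refuteS (k := 6) (n2 := 3) (n3 := 1) (n4 := 3) (o3 := 63) (o4 := 119) (M := 812) (mA ++ (gf (fun x => 8 + cr 4 x) rf39 ++ (gf (fun x => 8 + c6 2 5 1 3 4 x) f18 ++ fp2.map (tren (n6 1 2 4))))) c39_18_2_n_pf (by decide +kernel)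
    (by decide +kernel) (by decide +kernel) (by decide +kernel) hp hts

theorem c39_18_2_n {V : Type} {W : Mw V} (h : W.Hy) {a b c d w : V} (nd : [W.z, a, b, c, d, w].Nodup)
    (hr : Hit (mrel0 h.bs) (pt [a, b, c, d] W.z) rf39)
    (hf : Hit (mrel0 h.bs) (v6 W.z b w a c d) f18)
    (hq : ¬ FS (mrel0 h.bs) W.z fp2 a b d) : False :=
  c39_18_2_n_ref (pt_inj (o := W.z) nd rfl) (PHs.app (h.ph rfl _) (PHs.app (gf_ph hr (cr 4) (cr_pt (n := 4) (l := [a, b, c, d]) (l' := [w]) rfl)) (PHs.app (gf_ph hf (c6 2 5 1 3 4) (c6_v6 rfl rfl rfl rfl rfl rfl)) (nf_ph hq (ia := 1) (ib := 2) (ic := 4) rfl rfl rfl rfl))))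

def c39_19_n_n_p0 : List Nat := [
0x864003000000099072c000201,
0x68240070000000970000000020105000301,
0x46c330000000a70000000910000000930000000b908e0000501,
0x86c170000000bb0000000b90000000950000000930000000a70000000bd05a9000701,
0x4c22f0000000a700000008f0000000910000000080952000501,
0x6c22f0000000a700000008f000000093000000008099a000501,
0xc6a21d0000000bf0015000201,
0x6ca21d0000000bf0042000201,
0x6cd00000009500000008f00000009f00000009100000009300000009d000000097000000099065e000901,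
0x6243700000000e00000009f00000008f0000000040000000910000000930000000120118000801,
0x624c4b00000000600000008f0000000910000000930000000a700000001408d4000701,
0xca4626100000000c0000000bf00000008f0000000910000000930000000a70000000140259000801,
0xc243700000000a00000001000000008f00000009f0000000910000000a70000000160912000801,
0xc64a2230000000bf0000000180415000301,
0xc82400700000009700000001a0480000301,
0xcadb0000000080000000b700000009500000008f00000009f00000009100000009d0000000a50000000a70000000ad0000000af00000001c00000001e000e00]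

def c39_19_n_n_pf : List Nat := c39_19_n_n_p0

theorem c39_19_n_n_ref {V : Type} {S : SRel V} {p : Nat → V} (hp : ∀ i j, i < 7 → j < 7 → p i = p j → i = j)
    (hts : PHs S p 7 (mA ++ (gf (fun x => 8 + cr 4 x) rf39 ++ (gf (fun x => 8 + c6 5 6 1 3 4 x) f19 ++ fp2.map (tren (n6 1 2 4)))))) : False :=
  refuteS (k := 7) (n2 := 3) (n3 := 1) (n4 := 3) (o3 := 84) (o4 := 168) (M := 1386) (mA ++ (gf (fun x => 8 + cr 4 x) rf39 ++ (gf (fun x => 8 + c6 5 6 1 3 4 x) f19 ++ fp2.map (tren (n6 1 2 4))))) c39_19_n_n_pf (by decide +kernel)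
    (by decide +kernel) (by decide +kernel) (by decide +kernel) hp hts

theorem c39_19_n_n {V : Type} {W : Mw V} (h : W.Hy) {a b c d u w : V} (nd : [W.z, a, b, c, d, u, w].Nodup)
    (hr : Hit (mrel0 h.bs) (pt [a, b, c, d] W.z) rf39)
    (hf : Hit (mrel0 h.bs) (v6 W.z u w a c d) f19)
    (hq : ¬ FS (mrel0 h.bs) W.z fp2 a b d) : False :=
  c39_19_n_n_ref (pt_inj (o := W.z) nd rfl) (PHs.app (h.ph rfl _) (PHs.app (gf_ph hr (cr 4) (cr_pt (n := 4) (l := [a, b, c, d]) (l' := [u, w]) rfl)) (PHs.app (gf_ph hf (c6 5 6 1 3 4) (c6_v6 rfl rfl rfl rfl rfl rfl)) (nf_ph hq (ia := 1) (ib := 2) (ic := 4) rfl rfl rfl rfl))))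

def c39_19_n_2_p0 : List Nat := [
0x864170000000950000000b900000009f0000000930000000910000000bb0353000701,
0xbd000000002000200]

def c39_19_n_2_pf : List Nat := c39_19_n_2_p0

theorem c39_19_n_2_ref {V : Type} {S : SRel V} {p : Nat → V} (hp : ∀ i j, i < 6 → j < 6 → p i = p j → i = j)
    (hts : PHs S p 6 (mA ++ (gf (fun x => 8 + cr 4 x) rf39 ++ (gf (fun x => 8 + c6 5 2 1 3 4 x) f19 ++ fp2.map (tren (n6 1 2 4)))))) : False :=
  refuteS (k := 6) (n2 := 3) (n3 := 1) (n4 := 3) (o3 := 63) (o4 := 119) (M := 812) (mA ++ (gf (fun x => 8 + cr 4 x) rf39 ++ (gf (fun x => 8 + c6 5 2 1 3 4 x) f19 ++ fp2.map (tren (n6 1 2 4))))) c39_19_n_2_pf (by decide +kernel)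
    (by decide +kernel) (by decide +kernel) (by decide +kernel) hp hts

theorem c39_19_n_2 {V : Type} {W : Mw V} (h : W.Hy) {a b c d u : V} (nd : [W.z, a, b, c, d, u].Nodup)
    (hr : Hit (mrel0 h.bs) (pt [a, b, c, d] W.z) rf39)
    (hf : Hit (mrel0 h.bs) (v6 W.z u b a c d) f19)
    (hq : ¬ FS (mrel0 h.bs) W.z fp2 a b d) : False :=
  c39_19_n_2_ref (pt_inj (o := W.z) nd rfl) (PHs.app (h.ph rfl _) (PHs.app (gf_ph hr (cr 4) (cr_pt (n := 4) (l := [a, b, c, d]) (l' := [u]) rfl)) (PHs.app (gf_ph hf (c6 5 2 1 3 4) (c6_v6 rfl rfl rfl rfl rfl rfl)) (nf_ph hq (ia := 1) (ib := 2) (ic := 4) rfl rfl rfl rfl))))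

def c39_19_2_n_p0 : List Nat := [
0x86400300000009904bd000201,
0x682400700000009700000000200d4000301,
0x86426d00000009500000009d00000008f0000000910000000930000000990000000970000000b703ef000901,
0x86426b0000000950000000b700000009f00000008f00000009d0000000910000000930000000990000000970000000bd0015000b01,
0x86a170000000bb0000000b90000000950000000930000000a70000000bd0359000701,
0x6243700000000600000009f00000008f00000000400000009100000009300000000800e7000801,
0x6a22f0000000a700000008f00000009300000000a05a8000501,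
0x42a65700000000e00000008f0000000910000000930000000a700000000c05b1000701,
0xbf000000010000200]

def c39_19_2_n_pf : List Nat := c39_19_2_n_p0

theorem c39_19_2_n_ref {V : Type} {S : SRel V} {p : Nat → V} (hp : ∀ i j, i < 6 → j < 6 → p i = p j → i = j)
    (hts : PHs S p 6 (mA ++ (gf (fun x => 8 + cr 4 x) rf39 ++ (gf (fun x => 8 + c6 2 5 1 3 4 x) f19 ++ fp2.map (tren (n6 1 2 4)))))) : False :=
  refuteS (k := 6) (n2 := 3) (n3 := 1) (n4 := 3) (o3 := 63) (o4 := 119) (M := 812) (mA ++ (gf (fun x => 8 + cr 4 x) rf39 ++ (gf (fun x => 8 + c6 2 5 1 3 4 x) f19 ++ fp2.map (tren (n6 1 2 4))))) c39_19_2_n_pf (by decide +kernel)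
    (by decide +kernel) (by decide +kernel) (by decide +kernel) hp hts

theorem c39_19_2_n {V : Type} {W : Mw V} (h : W.Hy) {a b c d w : V} (nd : [W.z, a, b, c, d, w].Nodup)
    (hr : Hit (mrel0 h.bs) (pt [a, b, c, d] W.z) rf39)
    (hf : Hit (mrel0 h.bs) (v6 W.z b w a c d) f19)
    (hq : ¬ FS (mrel0 h.bs) W.z fp2 a b d) : False :=
  c39_19_2_n_ref (pt_inj (o := W.z) nd rfl) (PHs.app (h.ph rfl _) (PHs.app (gf_ph hr (cr 4) (cr_pt (n := 4) (l := [a, b, c, d]) (l' := [w]) rfl)) (PHs.app (gf_ph hf (c6 2 5 1 3 4) (c6_v6 rfl rfl rfl rfl rfl rfl)) (nf_ph hq (ia := 1) (ib := 2) (ic := 4) rfl rfl rfl rfl))))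

def c39_20_n_n_p0 : List Nat := [
0x864003000000099072c000201,
0x68240070000000970000000020105000301,
0x4c22f0000000a700000008f0000000910000000b70952000501,
0x6c22f0000000a700000008f0000000930000000b7099a000501,
0x8ca26d0000000af00000009500000008f00000009d0000000a50000000a70000000ad0000000b908f8000901,
0xc6a21d0000000bb0015000201,
0x6ca21d0000000bb0042000201,
0x6c900000009500000008f00000009f00000009100000009300000009d000000097000000099065e000901,
0x6243700000000c00000009f00000008f0000000040000000910000000930000000100118000801,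
0x42c65700000000800000008f0000000910000000930000000a700000001209a3000701,
0xca462610000000080000000bb00000008f0000000910000000930000000a70000000120259000801,
0xa642c610000000bb00000000a00000008f0000000910000000a50000000a700000001408d4000801,
0xc64a2230000000bb0000000160415000301,
0xc243700000000600000000e00000008f00000009f0000000910000000a70000000180912000801,
0xc82400700000009700000001c0480000301,
0xcad70000000b70000000b900000009500000008f00000009f00000009100000009d0000000a50000000a70000000ad0000000af00000001a00000001e000e00]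

def c39_20_n_n_pf : List Nat := c39_20_n_n_p0

theorem c39_20_n_n_ref {V : Type} {S : SRel V} {p : Nat → V} (hp : ∀ i j, i < 7 → j < 7 → p i = p j → i = j)
    (hts : PHs S p 7 (mA ++ (gf (fun x => 8 + cr 4 x) rf39 ++ (gf (fun x => 8 + c6 5 6 1 3 4 x) f20 ++ fp2.map (tren (n6 1 2 4)))))) : False :=
  refuteS (k := 7) (n2 := 3) (n3 := 1) (n4 := 3) (o3 := 84) (o4 := 168) (M := 1386) (mA ++ (gf (fun x => 8 + cr 4 x) rf39 ++ (gf (fun x => 8 + c6 5 6 1 3 4 x) f20 ++ fp2.map (tren (n6 1 2 4))))) c39_20_n_n_pf (by decide +kernel)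
    (by decide +kernel) (by decide +kernel) (by decide +kernel) hp hts

theorem c39_20_n_n {V : Type} {W : Mw V} (h : W.Hy) {a b c d u w : V} (nd : [W.z, a, b, c, d, u, w].Nodup)
    (hr : Hit (mrel0 h.bs) (pt [a, b, c, d] W.z) rf39)
    (hf : Hit (mrel0 h.bs) (v6 W.z u w a c d) f20)
    (hq : ¬ FS (mrel0 h.bs) W.z fp2 a b d) : False :=
  c39_20_n_n_ref (pt_inj (o := W.z) nd rfl) (PHs.app (h.ph rfl _) (PHs.app (gf_ph hr (cr 4) (cr_pt (n := 4) (l := [a, b, c, d]) (l' := [u, w]) rfl)) (PHs.app (gf_ph hf (c6 5 6 1 3 4) (c6_v6 rfl rfl rfl rfl rfl rfl)) (nf_ph hq (ia := 1) (ib := 2) (ic := 4) rfl rfl rfl rfl))))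

def c39_20_n_2_p0 : List Nat := [
0xb700000009f000200]

def c39_20_n_2_pf : List Nat := c39_20_n_2_p0

theorem c39_20_n_2_ref {V : Type} {S : SRel V} {p : Nat → V} (hp : ∀ i j, i < 6 → j < 6 → p i = p j → i = j)
    (hts : PHs S p 6 (mA ++ (gf (fun x => 8 + cr 4 x) rf39 ++ (gf (fun x => 8 + c6 5 2 1 3 4 x) f20 ++ fp2.map (tren (n6 1 2 4)))))) : False :=
  refuteS (k := 6) (n2 := 3) (n3 := 1) (n4 := 3) (o3 := 63) (o4 := 119) (M := 812) (mA ++ (gf (fun x => 8 + cr 4 x) rf39 ++ (gf (fun x => 8 + c6 5 2 1 3 4 x) f20 ++ fp2.map (tren (n6 1 2 4))))) c39_20_n_2_pf (by decide +kernel)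
    (by decide +kernel) (by decide +kernel) (by decide +kernel) hp hts

theorem c39_20_n_2 {V : Type} {W : Mw V} (h : W.Hy) {a b c d u : V} (nd : [W.z, a, b, c, d, u].Nodup)
    (hr : Hit (mrel0 h.bs) (pt [a, b, c, d] W.z) rf39)
    (hf : Hit (mrel0 h.bs) (v6 W.z u b a c d) f20)
    (hq : ¬ FS (mrel0 h.bs) W.z fp2 a b d) : False :=
  c39_20_n_2_ref (pt_inj (o := W.z) nd rfl) (PHs.app (h.ph rfl _) (PHs.app (gf_ph hr (cr 4) (cr_pt (n := 4) (l := [a, b, c, d]) (l' := [u]) rfl)) (PHs.app (gf_ph hf (c6 5 2 1 3 4) (c6_v6 rfl rfl rfl rfl rfl rfl)) (nf_ph hq (ia := 1) (ib := 2) (ic := 4) rfl rfl rfl rfl))))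

def c39_20_2_n_p0 : List Nat := [
0x8a40030000000af05e6000201,
0xa8240070000000970000000020218000301,
0x4a22f0000000a700000008f0000000910000000b70572000501,
0x8a426d0000000950000000af00000008f00000009100000009d0000000a70000000970000000b90518000901,
0xa243700000000600000000400000008f00000009f0000000910000000a7000000008035c000801,
0x6a421d00000000a05b1000201,
0xbb00000000c000200]

def c39_20_2_n_pf : List Nat := c39_20_2_n_p0

theorem c39_20_2_n_ref {V : Type} {S : SRel V} {p : Nat → V} (hp : ∀ i j, i < 6 → j < 6 → p i = p j → i = j)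
    (hts : PHs S p 6 (mA ++ (gf (fun x => 8 + cr 4 x) rf39 ++ (gf (fun x => 8 + c6 2 5 1 3 4 x) f20 ++ fp2.map (tren (n6 1 2 4)))))) : False :=
  refuteS (k := 6) (n2 := 3) (n3 := 1) (n4 := 3) (o3 := 63) (o4 := 119) (M := 812) (mA ++ (gf (fun x => 8 + cr 4 x) rf39 ++ (gf (fun x => 8 + c6 2 5 1 3 4 x) f20 ++ fp2.map (tren (n6 1 2 4))))) c39_20_2_n_pf (by decide +kernel)
    (by decide +kernel) (by decide +kernel) (by decide +kernel) hp hts

theorem c39_20_2_n {V : Type} {W : Mw V} (h : W.Hy) {a b c d w : V} (nd : [W.z, a, b, c, d, w].Nodup)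
    (hr : Hit (mrel0 h.bs) (pt [a, b, c, d] W.z) rf39)
    (hf : Hit (mrel0 h.bs) (v6 W.z b w a c d) f20)
    (hq : ¬ FS (mrel0 h.bs) W.z fp2 a b d) : False :=
  c39_20_2_n_ref (pt_inj (o := W.z) nd rfl) (PHs.app (h.ph rfl _) (PHs.app (gf_ph hr (cr 4) (cr_pt (n := 4) (l := [a, b, c, d]) (l' := [w]) rfl)) (PHs.app (gf_ph hf (c6 2 5 1 3 4) (c6_v6 rfl rfl rfl rfl rfl rfl)) (nf_ph hq (ia := 1) (ib := 2) (ic := 4) rfl rfl rfl rfl))))

theorem P39_1 {V : Type} {W : Mw V} (h : W.Hy) {a b c d u w : V} (nd : [W.z, a, b, c, d].Nodup)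
    (hr : Hit (mrel0 h.bs) (pt [a, b, c, d] W.z) rf39)
    (hf : Hit (mrel0 h.bs) (v6 W.z u w a c d) f1) (hq : ¬ FS (mrel0 h.bs) W.z fp2 a b d) : False := by
  exact c39_1 h nd hr (hit00 (by decide) hf) hq

theorem P39_6 {V : Type} {W : Mw V} (h : W.Hy) {a b c d u w : V} (nd : [W.z, a, b, c, d].Nodup)
    (hr : Hit (mrel0 h.bs) (pt [a, b, c, d] W.z) rf39)
    (hf : Hit (mrel0 h.bs) (v6 W.z u w a c d) f6) (hq : ¬ FS (mrel0 h.bs) W.z fp2 a b d) : False := by
  have hf := hit01 (by decide) hf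
  have hs := hn1 hf rfl
  by_cases ib : u = b
  · subst ib
    exact c39_6_2 h nd hr hf hq
  exact c39_6_n h (nd_snoc nd (nin5 hs.1 hs.2.1 ib hs.2.2.1 hs.2.2.2)) hr hf hq

theorem P39_7 {V : Type} {W : Mw V} (h : W.Hy) {a b c d u w : V} (nd : [W.z, a, b, c, d].Nodup)
    (hr : Hit (mrel0 h.bs) (pt [a, b, c, d] W.z) rf39)
    (hf : Hit (mrel0 h.bs) (v6 W.z u w a c d) f7) (hq : ¬ FS (mrel0 h.bs) W.z fp2 a b d) : False := by
  have hf := hit01 (by decide) hf
  have hs := hn1 hf rfl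
  by_cases ib : u = b
  · subst ib
    exact c39_7_2 h nd hr hf hq
  exact c39_7_n h (nd_snoc nd (nin5 hs.1 hs.2.1 ib hs.2.2.1 hs.2.2.2)) hr hf hq

theorem P39_10 {V : Type} {W : Mw V} (h : W.Hy) {a b c d u w : V} (nd : [W.z, a, b, c, d].Nodup)
    (hr : Hit (mrel0 h.bs) (pt [a, b, c, d] W.z) rf39)
    (hf : Hit (mrel0 h.bs) (v6 W.z u w a c d) f10) (hq : ¬ FS (mrel0 h.bs) W.z fp2 a b d) : False := by
  have hf := hit01 (by decide) hf
  have hs := hn1 hf rfl
  by_cases ib : u = b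
  · subst ib
    exact c39_10_2 h nd hr hf hq
  exact c39_10_n h (nd_snoc nd (nin5 hs.1 hs.2.1 ib hs.2.2.1 hs.2.2.2)) hr hf hq

theorem P39_11 {V : Type} {W : Mw V} (h : W.Hy) {a b c d u w : V} (nd : [W.z, a, b, c, d].Nodup)
    (hr : Hit (mrel0 h.bs) (pt [a, b, c, d] W.z) rf39)
    (hf : Hit (mrel0 h.bs) (v6 W.z u w a c d) f11) (hq : ¬ FS (mrel0 h.bs) W.z fp2 a b d) : False := by
  have hf := hit01 (by decide) hf
  have hs := hn1 hf rfl
  by_cases ib : u = b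
  · subst ib
    exact c39_11_2 h nd hr hf hq
  exact c39_11_n h (nd_snoc nd (nin5 hs.1 hs.2.1 ib hs.2.2.1 hs.2.2.2)) hr hf hq

theorem P39_12 {V : Type} {W : Mw V} (h : W.Hy) {a b c d u w : V} (nd : [W.z, a, b, c, d].Nodup)
    (hr : Hit (mrel0 h.bs) (pt [a, b, c, d] W.z) rf39)
    (hf : Hit (mrel0 h.bs) (v6 W.z u w a c d) f12) (hq : ¬ FS (mrel0 h.bs) W.z fp2 a b d) : False := by
  have hf := hit01 (by decide) hf
  have hs := hn1 hf rfl
  by_cases ib : u = b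
  · subst ib
    exact c39_12_2 h nd hr hf hq
  exact c39_12_n h (nd_snoc nd (nin5 hs.1 hs.2.1 ib hs.2.2.1 hs.2.2.2)) hr hf hq

theorem P39_13 {V : Type} {W : Mw V} (h : W.Hy) {a b c d u w : V} (nd : [W.z, a, b, c, d].Nodup)
    (hr : Hit (mrel0 h.bs) (pt [a, b, c, d] W.z) rf39)
    (hf : Hit (mrel0 h.bs) (v6 W.z u w a c d) f13) (hq : ¬ FS (mrel0 h.bs) W.z fp2 a b d) : False := by
  have hf := hit01 (by decide) hf
  have hs := hn1 hf rfl
  by_cases ib : u = b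
  · subst ib
    exact c39_13_2 h nd hr hf hq
  exact c39_13_n h (nd_snoc nd (nin5 hs.1 hs.2.1 ib hs.2.2.1 hs.2.2.2)) hr hf hq

theorem P39_14 {V : Type} {W : Mw V} (h : W.Hy) {a b c d u w : V} (nd : [W.z, a, b, c, d].Nodup)
    (hr : Hit (mrel0 h.bs) (pt [a, b, c, d] W.z) rf39)
    (hf : Hit (mrel0 h.bs) (v6 W.z u w a c d) f14) (hq : ¬ FS (mrel0 h.bs) W.z fp2 a b d) : False := by
  have hs := hn2 hf rfl
  by_cases ib : u = b
  · subst ib
    exact c39_14_2_n h (nd_snoc nd (nin5 hs.2.2.1 hs.2.2.2.1 hs.1.symm hs.2.2.2.2.1 hs.2.2.2.2.2)) hr hf hq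
  by_cases jb : w = b
  · subst jb
    exact c39_14_n_2 h (nd_snoc nd (nin5 hs.2.1.1 hs.2.1.2.1 hs.1 hs.2.1.2.2.1 hs.2.1.2.2.2)) hr hf hq
  exact c39_14_n_n h (nd_snoc (nd_snoc nd (nin5 hs.2.1.1 hs.2.1.2.1 ib hs.2.1.2.2.1 hs.2.1.2.2.2)) (nin6 hs.2.2.1 hs.2.2.2.1 jb hs.2.2.2.2.1 hs.2.2.2.2.2 hs.1.symm)) hr hf hq

theorem P39_15 {V : Type} {W : Mw V} (h : W.Hy) {a b c d u w : V} (nd : [W.z, a, b, c, d].Nodup)
    (hr : Hit (mrel0 h.bs) (pt [a, b, c, d] W.z) rf39)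
    (hf : Hit (mrel0 h.bs) (v6 W.z u w a c d) f15) (hq : ¬ FS (mrel0 h.bs) W.z fp2 a b d) : False := by
  have hs := hn2 hf rfl
  by_cases ib : u = b
  · subst ib
    exact c39_15_2_n h (nd_snoc nd (nin5 hs.2.2.1 hs.2.2.2.1 hs.1.symm hs.2.2.2.2.1 hs.2.2.2.2.2)) hr hf hq
  by_cases jb : w = b
  · subst jb
    exact c39_15_n_2 h (nd_snoc nd (nin5 hs.2.1.1 hs.2.1.2.1 hs.1 hs.2.1.2.2.1 hs.2.1.2.2.2)) hr hf hq
  exact c39_15_n_n h (nd_snoc (nd_snoc nd (nin5 hs.2.1.1 hs.2.1.2.1 ib hs.2.1.2.2.1 hs.2.1.2.2.2)) (nin6 hs.2.2.1 hs.2.2.2.1 jb hs.2.2.2.2.1 hs.2.2.2.2.2 hs.1.symm)) hr hf hq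

theorem P39_16 {V : Type} {W : Mw V} (h : W.Hy) {a b c d u w : V} (nd : [W.z, a, b, c, d].Nodup)
    (hr : Hit (mrel0 h.bs) (pt [a, b, c, d] W.z) rf39)
    (hf : Hit (mrel0 h.bs) (v6 W.z u w a c d) f16) (hq : ¬ FS (mrel0 h.bs) W.z fp2 a b d) : False := by
  have hs := hn2 hf rfl
  by_cases ib : u = b
  · subst ib
    exact c39_16_2_n h (nd_snoc nd (nin5 hs.2.2.1 hs.2.2.2.1 hs.1.symm hs.2.2.2.2.1 hs.2.2.2.2.2)) hr hf hq
  by_cases jb : w = b
  · subst jb
    exact c39_16_n_2 h (nd_snoc nd (nin5 hs.2.1.1 hs.2.1.2.1 hs.1 hs.2.1.2.2.1 hs.2.1.2.2.2)) hr hf hq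
  exact c39_16_n_n h (nd_snoc (nd_snoc nd (nin5 hs.2.1.1 hs.2.1.2.1 ib hs.2.1.2.2.1 hs.2.1.2.2.2)) (nin6 hs.2.2.1 hs.2.2.2.1 jb hs.2.2.2.2.1 hs.2.2.2.2.2 hs.1.symm)) hr hf hq

theorem P39_17 {V : Type} {W : Mw V} (h : W.Hy) {a b c d u w : V} (nd : [W.z, a, b, c, d].Nodup)
    (hr : Hit (mrel0 h.bs) (pt [a, b, c, d] W.z) rf39)
    (hf : Hit (mrel0 h.bs) (v6 W.z u w a c d) f17) (hq : ¬ FS (mrel0 h.bs) W.z fp2 a b d) : False := by
  have hs := hn2 hf rfl
  by_cases ib : u = b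
  · subst ib
    exact c39_17_2_n h (nd_snoc nd (nin5 hs.2.2.1 hs.2.2.2.1 hs.1.symm hs.2.2.2.2.1 hs.2.2.2.2.2)) hr hf hq
  by_cases jb : w = b
  · subst jb
    exact c39_17_n_2 h (nd_snoc nd (nin5 hs.2.1.1 hs.2.1.2.1 hs.1 hs.2.1.2.2.1 hs.2.1.2.2.2)) hr hf hq
  exact c39_17_n_n h (nd_snoc (nd_snoc nd (nin5 hs.2.1.1 hs.2.1.2.1 ib hs.2.1.2.2.1 hs.2.1.2.2.2)) (nin6 hs.2.2.1 hs.2.2.2.1 jb hs.2.2.2.2.1 hs.2.2.2.2.2 hs.1.symm)) hr hf hq

theorem P39_18 {V : Type} {W : Mw V} (h : W.Hy) {a b c d u w : V} (nd : [W.z, a, b, c, d].Nodup)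
    (hr : Hit (mrel0 h.bs) (pt [a, b, c, d] W.z) rf39)
    (hf : Hit (mrel0 h.bs) (v6 W.z u w a c d) f18) (hq : ¬ FS (mrel0 h.bs) W.z fp2 a b d) : False := by
  have hs := hn2 hf rfl
  by_cases ib : u = b
  · subst ib
    exact c39_18_2_n h (nd_snoc nd (nin5 hs.2.2.1 hs.2.2.2.1 hs.1.symm hs.2.2.2.2.1 hs.2.2.2.2.2)) hr hf hq
  by_cases jb : w = b
  · subst jb
    exact c39_18_n_2 h (nd_snoc nd (nin5 hs.2.1.1 hs.2.1.2.1 hs.1 hs.2.1.2.2.1 hs.2.1.2.2.2)) hr hf hq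
  exact c39_18_n_n h (nd_snoc (nd_snoc nd (nin5 hs.2.1.1 hs.2.1.2.1 ib hs.2.1.2.2.1 hs.2.1.2.2.2)) (nin6 hs.2.2.1 hs.2.2.2.1 jb hs.2.2.2.2.1 hs.2.2.2.2.2 hs.1.symm)) hr hf hq

theorem P39_19 {V : Type} {W : Mw V} (h : W.Hy) {a b c d u w : V} (nd : [W.z, a, b, c, d].Nodup)
    (hr : Hit (mrel0 h.bs) (pt [a, b, c, d] W.z) rf39)
    (hf : Hit (mrel0 h.bs) (v6 W.z u w a c d) f19) (hq : ¬ FS (mrel0 h.bs) W.z fp2 a b d) : False := by
  have hs := hn2 hf rfl
  by_cases ib : u = b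
  · subst ib
    exact c39_19_2_n h (nd_snoc nd (nin5 hs.2.2.1 hs.2.2.2.1 hs.1.symm hs.2.2.2.2.1 hs.2.2.2.2.2)) hr hf hq
  by_cases jb : w = b
  · subst jb
    exact c39_19_n_2 h (nd_snoc nd (nin5 hs.2.1.1 hs.2.1.2.1 hs.1 hs.2.1.2.2.1 hs.2.1.2.2.2)) hr hf hq
  exact c39_19_n_n h (nd_snoc (nd_snoc nd (nin5 hs.2.1.1 hs.2.1.2.1 ib hs.2.1.2.2.1 hs.2.1.2.2.2)) (nin6 hs.2.2.1 hs.2.2.2.1 jb hs.2.2.2.2.1 hs.2.2.2.2.2 hs.1.symm)) hr hf hq

theorem P39_20 {V : Type} {W : Mw V} (h : W.Hy) {a b c d u w : V} (nd : [W.z, a, b, c, d].Nodup)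
    (hr : Hit (mrel0 h.bs) (pt [a, b, c, d] W.z) rf39)
    (hf : Hit (mrel0 h.bs) (v6 W.z u w a c d) f20) (hq : ¬ FS (mrel0 h.bs) W.z fp2 a b d) : False := by
  have hs := hn2 hf rfl
  by_cases ib : u = b
  · subst ib
    exact c39_20_2_n h (nd_snoc nd (nin5 hs.2.2.1 hs.2.2.2.1 hs.1.symm hs.2.2.2.2.1 hs.2.2.2.2.2)) hr hf hq
  by_cases jb : w = b
  · subst jb
    exact c39_20_n_2 h (nd_snoc nd (nin5 hs.2.1.1 hs.2.1.2.1 hs.1 hs.2.1.2.2.1 hs.2.1.2.2.2)) hr hf hq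
  exact c39_20_n_n h (nd_snoc (nd_snoc nd (nin5 hs.2.1.1 hs.2.1.2.1 ib hs.2.1.2.2.1 hs.2.1.2.2.2)) (nin6 hs.2.2.1 hs.2.2.2.1 jb hs.2.2.2.2.1 hs.2.2.2.2.2 hs.1.symm)) hr hf hq

theorem R39 {V : Type} {W : Mw V} (h : W.Hy) {a b c d : V} (nd : [W.z, a, b, c, d].Nodup)
    (hr : Hit (mrel0 h.bs) (pt [a, b, c, d] W.z) rf39)
    (hp : FS (mrel0 h.bs) W.z fp2 a c d) : FS (mrel0 h.bs) W.z fp2 a b d := by
  by_contra hq
  obtain ⟨t, ht, u, w, hf⟩ := hp
  simp only [fp2, List.mem_cons, List.not_mem_nil, or_false] at ht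
  rcases ht with rfl | rfl | rfl | rfl | rfl | rfl | rfl | rfl | rfl | rfl | rfl | rfl | rfl | rfl
  · exact P39_1 h nd hr hf hq
  · exact P39_6 h nd hr hf hq
  · exact P39_7 h nd hr hf hq
  · exact P39_10 h nd hr hf hq
  · exact P39_11 h nd hr hf hq
  · exact P39_12 h nd hr hf hq
  · exact P39_13 h nd hr hf hq
  · exact P39_14 h nd hr hf hq
  · exact P39_15 h nd hr hf hq
  · exact P39_16 h nd hr hf hq
  · exact P39_17 h nd hr hf hq
  · exact P39_18 h nd hr hf hq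
  · exact P39_19 h nd hr hf hq
  · exact P39_20 h nd hr hf hq

end Pool.Agent.SOU
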