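import Pool.Agent.SOU.TB

/-! Project SOU (MP_66ba69_lc, mixed insertion): rule 4 (generated). -/

set_option autoImplicit false
set_option maxRecDepth 100000
set_option linter.unusedVariables false

namespace Pool.Agent.SOU

open Pool.Agent.RUP Pool.Agent.SOQ

def c4_0_p0 : List Nat := [
0x86426300000009500000009300000009d00000009100000008f00000009900000009700000009f0015000901,
0xad000000002000200]

def c4_0_pf : List Nat := c4_0_p0

theorem c4_0_ref {V : Type} {S : SRel V} {p : Nat → V} (hp : ∀ i j, i < 5 → j < 5 → p i = p j → i = j)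
    (hts : PHs S p 5 (mA ++ (gf (fun x => 8 + cr 4 x) rf4 ++ (gf (fun x => 8 + c6 0 0 1 3 4 x) f0)))) : False :=
  refuteS (k := 5) (n2 := 3) (n3 := 1) (n4 := 3) (o3 := 45) (o4 := 80) (M := 440) (mA ++ (gf (fun x => 8 + cr 4 x) rf4 ++ (gf (fun x => 8 + c6 0 0 1 3 4 x) f0))) c4_0_pf (by decide +kernel)
    (by decide +kernel) (by decide +kernel) (by decide +kernel) hp hts

theorem c4_0 {V : Type} {W : Mw V} (h : W.Hy) {a b c d : V} (nd : [W.z, a, b, c, d].Nodup)
    (hr : Hit (mrel0 h.bs) (pt [a, b, c, d] W.z) rf4)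
    (hf : Hit (mrel0 h.bs) (v6 W.z W.z W.z a c d) f0) : False :=
  c4_0_ref (pt_inj (o := W.z) nd rfl) (PHs.app (h.ph rfl _) (PHs.app (gf_ph hr (cr 4) (cr_pt (n := 4) (l := [a, b, c, d]) (l' := []) rfl)) (gf_ph hf (c6 0 0 1 3 4) (c6_v6 rfl rfl rfl rfl rfl rfl))))

def c4_2_n_p0 : List Nat := [
0x26400300000009703ee000201,
0x286003000000099045d000201,
0x48260070000000020000000990173000301,
0x84062070000000970000000040176000301,
0x86400300000000604bd000201,
0x862400700000009700000000a0146000301,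
0x6843100000009500000009300000009100000009f0024000501,
0x6843900000009500000009300000009100000009f0461000501,
0x26844f00000009500000009300000009100000008f00000000c00000009f0482000701,
0x86426300000009500000009300000009d00000009100000008f00000009900000009700000009f0015000901,
0x84621f00000000e0000000120000000080000000140195000501,
0x6a483d0000000100000000a30000000950000000930000000910000000b1058d000701,
0x46a84d0000000180000000a30000000950000000930000000910000000b10596000701,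
0xa24862300000001600000001a0563000301,
0xb300000001c000200]

def c4_2_n_pf : List Nat := c4_2_n_p0

theorem c4_2_n_ref {V : Type} {S : SRel V} {p : Nat → V} (hp : ∀ i j, i < 6 → j < 6 → p i = p j → i = j)
    (hts : PHs S p 6 (mA ++ (gf (fun x => 8 + cr 4 x) rf4 ++ (gf (fun x => 8 + c6 5 0 1 3 4 x) f2)))) : False :=
  refuteS (k := 6) (n2 := 3) (n3 := 1) (n4 := 3) (o3 := 63) (o4 := 119) (M := 812) (mA ++ (gf (fun x => 8 + cr 4 x) rf4 ++ (gf (fun x => 8 + c6 5 0 1 3 4 x) f2))) c4_2_n_pf (by decide +kernel)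
    (by decide +kernel) (by decide +kernel) (by decide +kernel) hp hts

theorem c4_2_n {V : Type} {W : Mw V} (h : W.Hy) {a b c d u : V} (nd : [W.z, a, b, c, d, u].Nodup)
    (hr : Hit (mrel0 h.bs) (pt [a, b, c, d] W.z) rf4)
    (hf : Hit (mrel0 h.bs) (v6 W.z u W.z a c d) f2) : False :=
  c4_2_n_ref (pt_inj (o := W.z) nd rfl) (PHs.app (h.ph rfl _) (PHs.app (gf_ph hr (cr 4) (cr_pt (n := 4) (l := [a, b, c, d]) (l' := [u]) rfl)) (gf_ph hf (c6 5 0 1 3 4) (c6_v6 rfl rfl rfl rfl rfl rfl))))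

def c4_2_2_p0 : List Nat := [
0x6843900000009500000009300000009100000009f02c6000501,
0xb1000000002000200]

def c4_2_2_pf : List Nat := c4_2_2_p0

theorem c4_2_2_ref {V : Type} {S : SRel V} {p : Nat → V} (hp : ∀ i j, i < 5 → j < 5 → p i = p j → i = j)
    (hts : PHs S p 5 (mA ++ (gf (fun x => 8 + cr 4 x) rf4 ++ (gf (fun x => 8 + c6 2 0 1 3 4 x) f2)))) : False :=
  refuteS (k := 5) (n2 := 3) (n3 := 1) (n4 := 3) (o3 := 45) (o4 := 80) (M := 440) (mA ++ (gf (fun x => 8 + cr 4 x) rf4 ++ (gf (fun x => 8 + c6 2 0 1 3 4 x) f2))) c4_2_2_pf (by decide +kernel)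
    (by decide +kernel) (by decide +kernel) (by decide +kernel) hp hts

theorem c4_2_2 {V : Type} {W : Mw V} (h : W.Hy) {a b c d : V} (nd : [W.z, a, b, c, d].Nodup)
    (hr : Hit (mrel0 h.bs) (pt [a, b, c, d] W.z) rf4)
    (hf : Hit (mrel0 h.bs) (v6 W.z b W.z a c d) f2) : False :=
  c4_2_2_ref (pt_inj (o := W.z) nd rfl) (PHs.app (h.ph rfl _) (PHs.app (gf_ph hr (cr 4) (cr_pt (n := 4) (l := [a, b, c, d]) (l' := []) rfl)) (gf_ph hf (c6 2 0 1 3 4) (c6_v6 rfl rfl rfl rfl rfl rfl))))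

def c4_3_n_p0 : List Nat := [
0x26400300000009703ee000201,
0x4a260070000000020000000a90254000301,
0xa6400300000000405ad000201,
0xa6240070000000970000000060218000301,
0x8a42630000000a50000000ab00000009500000009100000008f00000009d0000000080000000b105e7000901,
0xa6843d0000000a500000009f00000009500000009300000009100000000a05ae000701,
0xa864490000000a500000009f00000009500000009300000009100000000c05c3000701,
0xb300000000e000200]

def c4_3_n_pf : List Nat := c4_3_n_p0

theorem c4_3_n_ref {V : Type} {S : SRel V} {p : Nat → V} (hp : ∀ i j, i < 6 → j < 6 → p i = p j → i = j)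
    (hts : PHs S p 6 (mA ++ (gf (fun x => 8 + cr 4 x) rf4 ++ (gf (fun x => 8 + c6 5 0 1 3 4 x) f3)))) : False :=
  refuteS (k := 6) (n2 := 3) (n3 := 1) (n4 := 3) (o3 := 63) (o4 := 119) (M := 812) (mA ++ (gf (fun x => 8 + cr 4 x) rf4 ++ (gf (fun x => 8 + c6 5 0 1 3 4 x) f3))) c4_3_n_pf (by decide +kernel)
    (by decide +kernel) (by decide +kernel) (by decide +kernel) hp hts

theorem c4_3_n {V : Type} {W : Mw V} (h : W.Hy) {a b c d u : V} (nd : [W.z, a, b, c, d, u].Nodup)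
    (hr : Hit (mrel0 h.bs) (pt [a, b, c, d] W.z) rf4)
    (hf : Hit (mrel0 h.bs) (v6 W.z u W.z a c d) f3) : False :=
  c4_3_n_ref (pt_inj (o := W.z) nd rfl) (PHs.app (h.ph rfl _) (PHs.app (gf_ph hr (cr 4) (cr_pt (n := 4) (l := [a, b, c, d]) (l' := [u]) rfl)) (gf_ph hf (c6 5 0 1 3 4) (c6_v6 rfl rfl rfl rfl rfl rfl))))

def c4_3_2_p0 : List Nat := [
0x2640030000000970253000201,
0xa9000000002000200]

def c4_3_2_pf : List Nat := c4_3_2_p0

theorem c4_3_2_ref {V : Type} {S : SRel V} {p : Nat → V} (hp : ∀ i j, i < 5 → j < 5 → p i = p j → i = j)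
    (hts : PHs S p 5 (mA ++ (gf (fun x => 8 + cr 4 x) rf4 ++ (gf (fun x => 8 + c6 2 0 1 3 4 x) f3)))) : False :=
  refuteS (k := 5) (n2 := 3) (n3 := 1) (n4 := 3) (o3 := 45) (o4 := 80) (M := 440) (mA ++ (gf (fun x => 8 + cr 4 x) rf4 ++ (gf (fun x => 8 + c6 2 0 1 3 4 x) f3))) c4_3_2_pf (by decide +kernel)
    (by decide +kernel) (by decide +kernel) (by decide +kernel) hp hts

theorem c4_3_2 {V : Type} {W : Mw V} (h : W.Hy) {a b c d : V} (nd : [W.z, a, b, c, d].Nodup)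
    (hr : Hit (mrel0 h.bs) (pt [a, b, c, d] W.z) rf4)
    (hf : Hit (mrel0 h.bs) (v6 W.z b W.z a c d) f3) : False :=
  c4_3_2_ref (pt_inj (o := W.z) nd rfl) (PHs.app (h.ph rfl _) (PHs.app (gf_ph hr (cr 4) (cr_pt (n := 4) (l := [a, b, c, d]) (l' := []) rfl)) (gf_ph hf (c6 2 0 1 3 4) (c6_v6 rfl rfl rfl rfl rfl rfl))))

def c4_4_n_p0 : List Nat := [
0x286003000000099045d000201,
0x84062070000000970000000020176000301,
0x2a80030000000ab052c000201,
0xa6082070000000990000000060299000301,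
0xa8620300000000805f2000201,
0xa84620700000000400000000a0257000301,
0xa4621b00000000c0584000201,
0xa486450000000a700000009f0000000950000000930000000910000000b1026a000701,
0x48a262500000000e00000001005f3000301,
0xb3000000012000200]

def c4_4_n_pf : List Nat := c4_4_n_p0

theorem c4_4_n_ref {V : Type} {S : SRel V} {p : Nat → V} (hp : ∀ i j, i < 6 → j < 6 → p i = p j → i = j)
    (hts : PHs S p 6 (mA ++ (gf (fun x => 8 + cr 4 x) rf4 ++ (gf (fun x => 8 + c6 5 0 1 3 4 x) f4)))) : False :=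
  refuteS (k := 6) (n2 := 3) (n3 := 1) (n4 := 3) (o3 := 63) (o4 := 119) (M := 812) (mA ++ (gf (fun x => 8 + cr 4 x) rf4 ++ (gf (fun x => 8 + c6 5 0 1 3 4 x) f4))) c4_4_n_pf (by decide +kernel)
    (by decide +kernel) (by decide +kernel) (by decide +kernel) hp hts

theorem c4_4_n {V : Type} {W : Mw V} (h : W.Hy) {a b c d u : V} (nd : [W.z, a, b, c, d, u].Nodup)
    (hr : Hit (mrel0 h.bs) (pt [a, b, c, d] W.z) rf4)
    (hf : Hit (mrel0 h.bs) (v6 W.z u W.z a c d) f4) : False :=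
  c4_4_n_ref (pt_inj (o := W.z) nd rfl) (PHs.app (h.ph rfl _) (PHs.app (gf_ph hr (cr 4) (cr_pt (n := 4) (l := [a, b, c, d]) (l' := [u]) rfl)) (gf_ph hf (c6 5 0 1 3 4) (c6_v6 rfl rfl rfl rfl rfl rfl))))

def c4_4_2_p0 : List Nat := [
0x2640030000000970253000201,
0x28600300000009902c2000201,
0x4826007000000002000000099014c000301,
0x48600300000000602c5000201,
0x642800700000000400000000802b9000301,
0xab00000000a000200]

def c4_4_2_pf : List Nat := c4_4_2_p0

theorem c4_4_2_ref {V : Type} {S : SRel V} {p : Nat → V} (hp : ∀ i j, i < 5 → j < 5 → p i = p j → i = j)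
    (hts : PHs S p 5 (mA ++ (gf (fun x => 8 + cr 4 x) rf4 ++ (gf (fun x => 8 + c6 2 0 1 3 4 x) f4)))) : False :=
  refuteS (k := 5) (n2 := 3) (n3 := 1) (n4 := 3) (o3 := 45) (o4 := 80) (M := 440) (mA ++ (gf (fun x => 8 + cr 4 x) rf4 ++ (gf (fun x => 8 + c6 2 0 1 3 4 x) f4))) c4_4_2_pf (by decide +kernel)
    (by decide +kernel) (by decide +kernel) (by decide +kernel) hp hts

theorem c4_4_2 {V : Type} {W : Mw V} (h : W.Hy) {a b c d : V} (nd : [W.z, a, b, c, d].Nodup)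
    (hr : Hit (mrel0 h.bs) (pt [a, b, c, d] W.z) rf4)
    (hf : Hit (mrel0 h.bs) (v6 W.z b W.z a c d) f4) : False :=
  c4_4_2_ref (pt_inj (o := W.z) nd rfl) (PHs.app (h.ph rfl _) (PHs.app (gf_ph hr (cr 4) (cr_pt (n := 4) (l := [a, b, c, d]) (l' := []) rfl)) (gf_ph hf (c6 2 0 1 3 4) (c6_v6 rfl rfl rfl rfl rfl rfl))))

def c4_5_n_p0 : List Nat := [
0x286003000000099045d000201,
0x84062070000000970000000020176000301,
0x84621b00000000404a3000201,
0xa864490000000a500000009f0000000950000000930000000910000000b10282000701,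
0x84a6450000000b10000000a5000000095000000093000000091000000008029d000701,
0x4a8262500000000600000000a05f3000301,
0xb300000000c000200]

def c4_5_n_pf : List Nat := c4_5_n_p0

theorem c4_5_n_ref {V : Type} {S : SRel V} {p : Nat → V} (hp : ∀ i j, i < 6 → j < 6 → p i = p j → i = j)
    (hts : PHs S p 6 (mA ++ (gf (fun x => 8 + cr 4 x) rf4 ++ (gf (fun x => 8 + c6 5 0 1 3 4 x) f5)))) : False :=
  refuteS (k := 6) (n2 := 3) (n3 := 1) (n4 := 3) (o3 := 63) (o4 := 119) (M := 812) (mA ++ (gf (fun x => 8 + cr 4 x) rf4 ++ (gf (fun x => 8 + c6 5 0 1 3 4 x) f5))) c4_5_n_pf (by decide +kernel)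
    (by decide +kernel) (by decide +kernel) (by decide +kernel) hp hts

theorem c4_5_n {V : Type} {W : Mw V} (h : W.Hy) {a b c d u : V} (nd : [W.z, a, b, c, d, u].Nodup)
    (hr : Hit (mrel0 h.bs) (pt [a, b, c, d] W.z) rf4)
    (hf : Hit (mrel0 h.bs) (v6 W.z u W.z a c d) f5) : False :=
  c4_5_n_ref (pt_inj (o := W.z) nd rfl) (PHs.app (h.ph rfl _) (PHs.app (gf_ph hr (cr 4) (cr_pt (n := 4) (l := [a, b, c, d]) (l' := [u]) rfl)) (gf_ph hf (c6 5 0 1 3 4) (c6_v6 rfl rfl rfl rfl rfl rfl))))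

def c4_5_2_p0 : List Nat := [
0x2640030000000970253000201,
0xa9000000002000200]

def c4_5_2_pf : List Nat := c4_5_2_p0

theorem c4_5_2_ref {V : Type} {S : SRel V} {p : Nat → V} (hp : ∀ i j, i < 5 → j < 5 → p i = p j → i = j)
    (hts : PHs S p 5 (mA ++ (gf (fun x => 8 + cr 4 x) rf4 ++ (gf (fun x => 8 + c6 2 0 1 3 4 x) f5)))) : False :=
  refuteS (k := 5) (n2 := 3) (n3 := 1) (n4 := 3) (o3 := 45) (o4 := 80) (M := 440) (mA ++ (gf (fun x => 8 + cr 4 x) rf4 ++ (gf (fun x => 8 + c6 2 0 1 3 4 x) f5))) c4_5_2_pf (by decide +kernel)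
    (by decide +kernel) (by decide +kernel) (by decide +kernel) hp hts

theorem c4_5_2 {V : Type} {W : Mw V} (h : W.Hy) {a b c d : V} (nd : [W.z, a, b, c, d].Nodup)
    (hr : Hit (mrel0 h.bs) (pt [a, b, c, d] W.z) rf4)
    (hf : Hit (mrel0 h.bs) (v6 W.z b W.z a c d) f5) : False :=
  c4_5_2_ref (pt_inj (o := W.z) nd rfl) (PHs.app (h.ph rfl _) (PHs.app (gf_ph hr (cr 4) (cr_pt (n := 4) (l := [a, b, c, d]) (l' := []) rfl)) (gf_ph hf (c6 2 0 1 3 4) (c6_v6 rfl rfl rfl rfl rfl rfl))))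

def c4_8_n_p0 : List Nat := [
0xa240d00000009100000008f0000000a10544000401,
0xa260d00000009300000008f0000000a1054d000401,
0xa6240070000000970000000020281000301,
0xa82600700000009900000000402c3000301,
0x864a630000000080000000950000000930000000910000000060000000a100000009f0000000b10365000901,
0xb300000000a000200]

def c4_8_n_pf : List Nat := c4_8_n_p0

theorem c4_8_n_ref {V : Type} {S : SRel V} {p : Nat → V} (hp : ∀ i j, i < 6 → j < 6 → p i = p j → i = j)
    (hts : PHs S p 6 (mA ++ (gf (fun x => 8 + cr 4 x) rf4 ++ (gf (fun x => 8 + c6 5 0 1 3 4 x) f8)))) : False :=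
  refuteS (k := 6) (n2 := 3) (n3 := 1) (n4 := 3) (o3 := 63) (o4 := 119) (M := 812) (mA ++ (gf (fun x => 8 + cr 4 x) rf4 ++ (gf (fun x => 8 + c6 5 0 1 3 4 x) f8))) c4_8_n_pf (by decide +kernel)
    (by decide +kernel) (by decide +kernel) (by decide +kernel) hp hts

theorem c4_8_n {V : Type} {W : Mw V} (h : W.Hy) {a b c d u : V} (nd : [W.z, a, b, c, d, u].Nodup)
    (hr : Hit (mrel0 h.bs) (pt [a, b, c, d] W.z) rf4)
    (hf : Hit (mrel0 h.bs) (v6 W.z u W.z a c d) f8) : False :=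
  c4_8_n_ref (pt_inj (o := W.z) nd rfl) (PHs.app (h.ph rfl _) (PHs.app (gf_ph hr (cr 4) (cr_pt (n := 4) (l := [a, b, c, d]) (l' := [u]) rfl)) (gf_ph hf (c6 5 0 1 3 4) (c6_v6 rfl rfl rfl rfl rfl rfl))))

def c4_8_2_p0 : List Nat := [
0xa1000000091000200]

def c4_8_2_pf : List Nat := c4_8_2_p0

theorem c4_8_2_ref {V : Type} {S : SRel V} {p : Nat → V} (hp : ∀ i j, i < 5 → j < 5 → p i = p j → i = j)
    (hts : PHs S p 5 (mA ++ (gf (fun x => 8 + cr 4 x) rf4 ++ (gf (fun x => 8 + c6 2 0 1 3 4 x) f8)))) : False :=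
  refuteS (k := 5) (n2 := 3) (n3 := 1) (n4 := 3) (o3 := 45) (o4 := 80) (M := 440) (mA ++ (gf (fun x => 8 + cr 4 x) rf4 ++ (gf (fun x => 8 + c6 2 0 1 3 4 x) f8))) c4_8_2_pf (by decide +kernel)
    (by decide +kernel) (by decide +kernel) (by decide +kernel) hp hts

theorem c4_8_2 {V : Type} {W : Mw V} (h : W.Hy) {a b c d : V} (nd : [W.z, a, b, c, d].Nodup)
    (hr : Hit (mrel0 h.bs) (pt [a, b, c, d] W.z) rf4)
    (hf : Hit (mrel0 h.bs) (v6 W.z b W.z a c d) f8) : False :=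
  c4_8_2_ref (pt_inj (o := W.z) nd rfl) (PHs.app (h.ph rfl _) (PHs.app (gf_ph hr (cr 4) (cr_pt (n := 4) (l := [a, b, c, d]) (l' := []) rfl)) (gf_ph hf (c6 2 0 1 3 4) (c6_v6 rfl rfl rfl rfl rfl rfl))))

def c4_9_n_p0 : List Nat := [
0x26400300000009703ee000201,
0x286003000000099045d000201,
0x48260070000000020000000990173000301,
0x84062070000000970000000040176000301,
0x86400300000000604bd000201,
0x862400700000009700000000a0146000301,
0x6843100000009500000009300000009100000009f0024000501,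
0x26844f00000009500000009300000009100000008f00000000c00000009f0482000701,
0x86426300000009500000009300000009d00000009100000008f00000009900000009700000009f0015000901,
0x84621f00000000e0000000100000000080000000120195000501,
0xa240d00000009100000008f0000000a10544000401,
0xa82400700000000c00000001602ba000301,
0xa6844f0000000950000000930000000910000000a100000009f00000001805f6000701,
0x624a82300000001a0000000b105ea000301,
0xa68422500000001400000001c0000000b1000400]

def c4_9_n_pf : List Nat := c4_9_n_p0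

theorem c4_9_n_ref {V : Type} {S : SRel V} {p : Nat → V} (hp : ∀ i j, i < 6 → j < 6 → p i = p j → i = j)
    (hts : PHs S p 6 (mA ++ (gf (fun x => 8 + cr 4 x) rf4 ++ (gf (fun x => 8 + c6 5 0 1 3 4 x) f9)))) : False :=
  refuteS (k := 6) (n2 := 3) (n3 := 1) (n4 := 3) (o3 := 63) (o4 := 119) (M := 812) (mA ++ (gf (fun x => 8 + cr 4 x) rf4 ++ (gf (fun x => 8 + c6 5 0 1 3 4 x) f9))) c4_9_n_pf (by decide +kernel)
    (by decide +kernel) (by decide +kernel) (by decide +kernel) hp hts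

theorem c4_9_n {V : Type} {W : Mw V} (h : W.Hy) {a b c d u : V} (nd : [W.z, a, b, c, d, u].Nodup)
    (hr : Hit (mrel0 h.bs) (pt [a, b, c, d] W.z) rf4)
    (hf : Hit (mrel0 h.bs) (v6 W.z u W.z a c d) f9) : False :=
  c4_9_n_ref (pt_inj (o := W.z) nd rfl) (PHs.app (h.ph rfl _) (PHs.app (gf_ph hr (cr 4) (cr_pt (n := 4) (l := [a, b, c, d]) (l' := [u]) rfl)) (gf_ph hf (c6 5 0 1 3 4) (c6_v6 rfl rfl rfl rfl rfl rfl))))

def c4_9_2_p0 : List Nat := [
0xa1000000091000200]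

def c4_9_2_pf : List Nat := c4_9_2_p0

theorem c4_9_2_ref {V : Type} {S : SRel V} {p : Nat → V} (hp : ∀ i j, i < 5 → j < 5 → p i = p j → i = j)
    (hts : PHs S p 5 (mA ++ (gf (fun x => 8 + cr 4 x) rf4 ++ (gf (fun x => 8 + c6 2 0 1 3 4 x) f9)))) : False :=
  refuteS (k := 5) (n2 := 3) (n3 := 1) (n4 := 3) (o3 := 45) (o4 := 80) (M := 440) (mA ++ (gf (fun x => 8 + cr 4 x) rf4 ++ (gf (fun x => 8 + c6 2 0 1 3 4 x) f9))) c4_9_2_pf (by decide +kernel)
    (by decide +kernel) (by decide +kernel) (by decide +kernel) hp hts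

theorem c4_9_2 {V : Type} {W : Mw V} (h : W.Hy) {a b c d : V} (nd : [W.z, a, b, c, d].Nodup)
    (hr : Hit (mrel0 h.bs) (pt [a, b, c, d] W.z) rf4)
    (hf : Hit (mrel0 h.bs) (v6 W.z b W.z a c d) f9) : False :=
  c4_9_2_ref (pt_inj (o := W.z) nd rfl) (PHs.app (h.ph rfl _) (PHs.app (gf_ph hr (cr 4) (cr_pt (n := 4) (l := [a, b, c, d]) (l' := []) rfl)) (gf_ph hf (c6 2 0 1 3 4) (c6_v6 rfl rfl rfl rfl rfl rfl))))

theorem P4_0 {V : Type} {W : Mw V} (h : W.Hy) {a b c d u w : V} (nd : [W.z, a, b, c, d].Nodup)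
    (hr : Hit (mrel0 h.bs) (pt [a, b, c, d] W.z) rf4)
    (hf : Hit (mrel0 h.bs) (v6 W.z u w a c d) f0) : False := by
  exact c4_0 h nd hr (hit00 (by decide) hf)

theorem P4_2 {V : Type} {W : Mw V} (h : W.Hy) {a b c d u w : V} (nd : [W.z, a, b, c, d].Nodup)
    (hr : Hit (mrel0 h.bs) (pt [a, b, c, d] W.z) rf4)
    (hf : Hit (mrel0 h.bs) (v6 W.z u w a c d) f2) : False := by
  have hf := hit01 (by decide) hf
  have hs := hn1 hf rfl
  by_cases ib : u = b
  · subst ib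
    exact c4_2_2 h nd hr hf
  exact c4_2_n h (nd_snoc nd (nin5 hs.1 hs.2.1 ib hs.2.2.1 hs.2.2.2)) hr hf

theorem P4_3 {V : Type} {W : Mw V} (h : W.Hy) {a b c d u w : V} (nd : [W.z, a, b, c, d].Nodup)
    (hr : Hit (mrel0 h.bs) (pt [a, b, c, d] W.z) rf4)
    (hf : Hit (mrel0 h.bs) (v6 W.z u w a c d) f3) : False := by
  have hf := hit01 (by decide) hf
  have hs := hn1 hf rfl
  by_cases ib : u = b
  · subst ib
    exact c4_3_2 h nd hr hf
  exact c4_3_n h (nd_snoc nd (nin5 hs.1 hs.2.1 ib hs.2.2.1 hs.2.2.2)) hr hf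

theorem P4_4 {V : Type} {W : Mw V} (h : W.Hy) {a b c d u w : V} (nd : [W.z, a, b, c, d].Nodup)
    (hr : Hit (mrel0 h.bs) (pt [a, b, c, d] W.z) rf4)
    (hf : Hit (mrel0 h.bs) (v6 W.z u w a c d) f4) : False := by
  have hf := hit01 (by decide) hf
  have hs := hn1 hf rfl
  by_cases ib : u = b
  · subst ib
    exact c4_4_2 h nd hr hf
  exact c4_4_n h (nd_snoc nd (nin5 hs.1 hs.2.1 ib hs.2.2.1 hs.2.2.2)) hr hf

theorem P4_5 {V : Type} {W : Mw V} (h : W.Hy) {a b c d u w : V} (nd : [W.z, a, b, c, d].Nodup)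
    (hr : Hit (mrel0 h.bs) (pt [a, b, c, d] W.z) rf4)
    (hf : Hit (mrel0 h.bs) (v6 W.z u w a c d) f5) : False := by
  have hf := hit01 (by decide) hf
  have hs := hn1 hf rfl
  by_cases ib : u = b
  · subst ib
    exact c4_5_2 h nd hr hf
  exact c4_5_n h (nd_snoc nd (nin5 hs.1 hs.2.1 ib hs.2.2.1 hs.2.2.2)) hr hf

theorem P4_8 {V : Type} {W : Mw V} (h : W.Hy) {a b c d u w : V} (nd : [W.z, a, b, c, d].Nodup)
    (hr : Hit (mrel0 h.bs) (pt [a, b, c, d] W.z) rf4)
    (hf : Hit (mrel0 h.bs) (v6 W.z u w a c d) f8) : False := by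
  have hf := hit01 (by decide) hf
  have hs := hn1 hf rfl
  by_cases ib : u = b
  · subst ib
    exact c4_8_2 h nd hr hf
  exact c4_8_n h (nd_snoc nd (nin5 hs.1 hs.2.1 ib hs.2.2.1 hs.2.2.2)) hr hf

theorem P4_9 {V : Type} {W : Mw V} (h : W.Hy) {a b c d u w : V} (nd : [W.z, a, b, c, d].Nodup)
    (hr : Hit (mrel0 h.bs) (pt [a, b, c, d] W.z) rf4)
    (hf : Hit (mrel0 h.bs) (v6 W.z u w a c d) f9) : False := by
  have hf := hit01 (by decide) hf
  have hs := hn1 hf rfl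
  by_cases ib : u = b
  · subst ib
    exact c4_9_2 h nd hr hf
  exact c4_9_n h (nd_snoc nd (nin5 hs.1 hs.2.1 ib hs.2.2.1 hs.2.2.2)) hr hf

theorem R4 {V : Type} {W : Mw V} (h : W.Hy) {a b c d : V} (nd : [W.z, a, b, c, d].Nodup)
    (hr : Hit (mrel0 h.bs) (pt [a, b, c, d] W.z) rf4)
    (hp : FS (mrel0 h.bs) W.z fp1 a c d) : False := by
  obtain ⟨t, ht, u, w, hf⟩ := hp
  simp only [fp1, List.mem_cons, List.not_mem_nil, or_false] at ht
  rcases ht with rfl | rfl | rfl | rfl | rfl | rfl | rfl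
  · exact P4_0 h nd hr hf
  · exact P4_2 h nd hr hf
  · exact P4_3 h nd hr hf
  · exact P4_4 h nd hr hf
  · exact P4_5 h nd hr hf
  · exact P4_8 h nd hr hf
  · exact P4_9 h nd hr hf

end Pool.Agent.SOU
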