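import Pool.Agent.SOU.TB

/-! Project SOU (MP_66ba69_lc, mixed insertion): rule 41 (generated). -/

set_option autoImplicit false
set_option maxRecDepth 100000
set_option linter.unusedVariables false

namespace Pool.Agent.SOU

open Pool.Agent.RUP Pool.Agent.SOQ

def c41_1_p0 : List Nat := [
0x6423300000009300000008f00000009100000009f000c000501,
0xaf000000002000200]

def c41_1_pf : List Nat := c41_1_p0

theorem c41_1_ref {V : Type} {S : SRel V} {p : Nat → V} (hp : ∀ i j, i < 5 → j < 5 → p i = p j → i = j)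
    (hts : PHs S p 5 (mA ++ (gf (fun x => 8 + cr 4 x) rf41 ++ (gf (fun x => 8 + c6 0 0 1 2 4 x) f1)))) : False :=
  refuteS (k := 5) (n2 := 3) (n3 := 1) (n4 := 3) (o3 := 45) (o4 := 80) (M := 440) (mA ++ (gf (fun x => 8 + cr 4 x) rf41 ++ (gf (fun x => 8 + c6 0 0 1 2 4 x) f1))) c41_1_pf (by decide +kernel)
    (by decide +kernel) (by decide +kernel) (by decide +kernel) hp hts

theorem c41_1 {V : Type} {W : Mw V} (h : W.Hy) {a b c d : V} (nd : [W.z, a, b, c, d].Nodup)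
    (hr : Hit (mrel0 h.bs) (pt [a, b, c, d] W.z) rf41)
    (hf : Hit (mrel0 h.bs) (v6 W.z W.z W.z a b d) f1) : False :=
  c41_1_ref (pt_inj (o := W.z) nd rfl) (PHs.app (h.ph rfl _) (PHs.app (gf_ph hr (cr 4) (cr_pt (n := 4) (l := [a, b, c, d]) (l' := []) rfl)) (gf_ph hf (c6 0 0 1 2 4) (c6_v6 rfl rfl rfl rfl rfl rfl))))

def c41_6_n_p0 : List Nat := [
0x8420030000000970490000201,
0x86400300000009904bd000201,
0x26084070000000020000000990176000301,
0x682400700000009700000000400d4000301,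
0x4862030000000060481000201,
0x640820700000009700000000a014f000301,
0x4623300000009300000008f00000009100000009f0015000501,
0x62a0d00000009300000008f0000000a70520000401,
0xa860b0000000950000000930000000a705ef000401,
0xa4062070000000080000000100257000301,
0xa82600700000000c0000000120221000301,
0x2a80030000000ad0559000201,
0x860a2070000000160000000180236000301,
0x86a21b00000001a0563000201,
0x846a2250000000a100000001c0554000301,
0x8a6427f0000000a70000000ad00000009500000008f0000000910000000930000000a100000009f0000000970000000990000000b30033000c01,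
0xa4621f00000001e00000001400000000e0000000200285000501,
0x6a421d0000000220030000201,
0xb5000000024000200]

def c41_6_n_pf : List Nat := c41_6_n_p0

theorem c41_6_n_ref {V : Type} {S : SRel V} {p : Nat → V} (hp : ∀ i j, i < 6 → j < 6 → p i = p j → i = j)
    (hts : PHs S p 6 (mA ++ (gf (fun x => 8 + cr 4 x) rf41 ++ (gf (fun x => 8 + c6 5 0 1 2 4 x) f6)))) : False :=
  refuteS (k := 6) (n2 := 3) (n3 := 1) (n4 := 3) (o3 := 63) (o4 := 119) (M := 812) (mA ++ (gf (fun x => 8 + cr 4 x) rf41 ++ (gf (fun x => 8 + c6 5 0 1 2 4 x) f6))) c41_6_n_pf (by decide +kernel)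
    (by decide +kernel) (by decide +kernel) (by decide +kernel) hp hts

theorem c41_6_n {V : Type} {W : Mw V} (h : W.Hy) {a b c d u : V} (nd : [W.z, a, b, c, d, u].Nodup)
    (hr : Hit (mrel0 h.bs) (pt [a, b, c, d] W.z) rf41)
    (hf : Hit (mrel0 h.bs) (v6 W.z u W.z a b d) f6) : False :=
  c41_6_n_ref (pt_inj (o := W.z) nd rfl) (PHs.app (h.ph rfl _) (PHs.app (gf_ph hr (cr 4) (cr_pt (n := 4) (l := [a, b, c, d]) (l' := [u]) rfl)) (gf_ph hf (c6 5 0 1 2 4) (c6_v6 rfl rfl rfl rfl rfl rfl))))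

def c41_6_3_p0 : List Nat := [
0xa7000000093000200]

def c41_6_3_pf : List Nat := c41_6_3_p0

theorem c41_6_3_ref {V : Type} {S : SRel V} {p : Nat → V} (hp : ∀ i j, i < 5 → j < 5 → p i = p j → i = j)
    (hts : PHs S p 5 (mA ++ (gf (fun x => 8 + cr 4 x) rf41 ++ (gf (fun x => 8 + c6 3 0 1 2 4 x) f6)))) : False :=
  refuteS (k := 5) (n2 := 3) (n3 := 1) (n4 := 3) (o3 := 45) (o4 := 80) (M := 440) (mA ++ (gf (fun x => 8 + cr 4 x) rf41 ++ (gf (fun x => 8 + c6 3 0 1 2 4 x) f6))) c41_6_3_pf (by decide +kernel)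
    (by decide +kernel) (by decide +kernel) (by decide +kernel) hp hts

theorem c41_6_3 {V : Type} {W : Mw V} (h : W.Hy) {a b c d : V} (nd : [W.z, a, b, c, d].Nodup)
    (hr : Hit (mrel0 h.bs) (pt [a, b, c, d] W.z) rf41)
    (hf : Hit (mrel0 h.bs) (v6 W.z c W.z a b d) f6) : False :=
  c41_6_3_ref (pt_inj (o := W.z) nd rfl) (PHs.app (h.ph rfl _) (PHs.app (gf_ph hr (cr 4) (cr_pt (n := 4) (l := [a, b, c, d]) (l' := []) rfl)) (gf_ph hf (c6 3 0 1 2 4) (c6_v6 rfl rfl rfl rfl rfl rfl))))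

def c41_7_n_p0 : List Nat := [
0x8420030000000970490000201,
0x86400300000009904bd000201,
0x26084070000000020000000990176000301,
0x682400700000009700000000400d4000301,
0x4862030000000060481000201,
0x640820700000009700000000a014f000301,
0x4623300000009300000008f00000009100000009f0015000501,
0x62a0d00000009300000008f0000000a70520000401,
0xa860b0000000950000000930000000a705ef000401,
0xa4062070000000080000000100257000301,
0xa82600700000000c0000000120221000301,
0x2a80030000000ad0559000201,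
0x860a2070000000160000000180236000301,
0x86a21b00000001a0563000201,
0x846a2250000000a100000001c0554000301,
0x6a421d0000000b305b1000201,
0xa4621f00000001e00000001400000000e000000020035f000501,
0xb5000000022000200]

def c41_7_n_pf : List Nat := c41_7_n_p0

theorem c41_7_n_ref {V : Type} {S : SRel V} {p : Nat → V} (hp : ∀ i j, i < 6 → j < 6 → p i = p j → i = j)
    (hts : PHs S p 6 (mA ++ (gf (fun x => 8 + cr 4 x) rf41 ++ (gf (fun x => 8 + c6 5 0 1 2 4 x) f7)))) : False :=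
  refuteS (k := 6) (n2 := 3) (n3 := 1) (n4 := 3) (o3 := 63) (o4 := 119) (M := 812) (mA ++ (gf (fun x => 8 + cr 4 x) rf41 ++ (gf (fun x => 8 + c6 5 0 1 2 4 x) f7))) c41_7_n_pf (by decide +kernel)
    (by decide +kernel) (by decide +kernel) (by decide +kernel) hp hts

theorem c41_7_n {V : Type} {W : Mw V} (h : W.Hy) {a b c d u : V} (nd : [W.z, a, b, c, d, u].Nodup)
    (hr : Hit (mrel0 h.bs) (pt [a, b, c, d] W.z) rf41)
    (hf : Hit (mrel0 h.bs) (v6 W.z u W.z a b d) f7) : False :=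
  c41_7_n_ref (pt_inj (o := W.z) nd rfl) (PHs.app (h.ph rfl _) (PHs.app (gf_ph hr (cr 4) (cr_pt (n := 4) (l := [a, b, c, d]) (l' := [u]) rfl)) (gf_ph hf (c6 5 0 1 2 4) (c6_v6 rfl rfl rfl rfl rfl rfl))))

def c41_7_3_p0 : List Nat := [
0xa7000000093000200]

def c41_7_3_pf : List Nat := c41_7_3_p0

theorem c41_7_3_ref {V : Type} {S : SRel V} {p : Nat → V} (hp : ∀ i j, i < 5 → j < 5 → p i = p j → i = j)
    (hts : PHs S p 5 (mA ++ (gf (fun x => 8 + cr 4 x) rf41 ++ (gf (fun x => 8 + c6 3 0 1 2 4 x) f7)))) : False :=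
  refuteS (k := 5) (n2 := 3) (n3 := 1) (n4 := 3) (o3 := 45) (o4 := 80) (M := 440) (mA ++ (gf (fun x => 8 + cr 4 x) rf41 ++ (gf (fun x => 8 + c6 3 0 1 2 4 x) f7))) c41_7_3_pf (by decide +kernel)
    (by decide +kernel) (by decide +kernel) (by decide +kernel) hp hts

theorem c41_7_3 {V : Type} {W : Mw V} (h : W.Hy) {a b c d : V} (nd : [W.z, a, b, c, d].Nodup)
    (hr : Hit (mrel0 h.bs) (pt [a, b, c, d] W.z) rf41)
    (hf : Hit (mrel0 h.bs) (v6 W.z c W.z a b d) f7) : False :=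
  c41_7_3_ref (pt_inj (o := W.z) nd rfl) (PHs.app (h.ph rfl _) (PHs.app (gf_ph hr (cr 4) (cr_pt (n := 4) (l := [a, b, c, d]) (l' := []) rfl)) (gf_ph hf (c6 3 0 1 2 4) (c6_v6 rfl rfl rfl rfl rfl rfl))))

def c41_10_n_p0 : List Nat := [
0x8420030000000970490000201,
0x86400300000009904bd000201,
0x26084070000000020000000990176000301,
0x86420300000000604c0000201,
0x420860700000000400000000804b7000301,
0x6a8200700000000a0000000ab027b000301,
0xa622b00000008f0000000930000000a300000000c05a8000501,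
0x42a6570000000a300000008f00000009100000009300000009f00000000e05b1000701,
0xa8642230000000a100000001005ea000301,
0xb3000000012000200]

def c41_10_n_pf : List Nat := c41_10_n_p0

theorem c41_10_n_ref {V : Type} {S : SRel V} {p : Nat → V} (hp : ∀ i j, i < 6 → j < 6 → p i = p j → i = j)
    (hts : PHs S p 6 (mA ++ (gf (fun x => 8 + cr 4 x) rf41 ++ (gf (fun x => 8 + c6 5 0 1 2 4 x) f10)))) : False :=
  refuteS (k := 6) (n2 := 3) (n3 := 1) (n4 := 3) (o3 := 63) (o4 := 119) (M := 812) (mA ++ (gf (fun x => 8 + cr 4 x) rf41 ++ (gf (fun x => 8 + c6 5 0 1 2 4 x) f10))) c41_10_n_pf (by decide +kernel)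
    (by decide +kernel) (by decide +kernel) (by decide +kernel) hp hts

theorem c41_10_n {V : Type} {W : Mw V} (h : W.Hy) {a b c d u : V} (nd : [W.z, a, b, c, d, u].Nodup)
    (hr : Hit (mrel0 h.bs) (pt [a, b, c, d] W.z) rf41)
    (hf : Hit (mrel0 h.bs) (v6 W.z u W.z a b d) f10) : False :=
  c41_10_n_ref (pt_inj (o := W.z) nd rfl) (PHs.app (h.ph rfl _) (PHs.app (gf_ph hr (cr 4) (cr_pt (n := 4) (l := [a, b, c, d]) (l' := [u]) rfl)) (gf_ph hf (c6 5 0 1 2 4) (c6_v6 rfl rfl rfl rfl rfl rfl))))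

def c41_10_3_p0 : List Nat := [
0x84200300000009702f5000201,
0x8640030000000990322000201,
0x2608407000000002000000099014f000301,
0x8642030000000060325000201,
0x4208607000000004000000008031c000301,
0xab00000000a000200]

def c41_10_3_pf : List Nat := c41_10_3_p0

theorem c41_10_3_ref {V : Type} {S : SRel V} {p : Nat → V} (hp : ∀ i j, i < 5 → j < 5 → p i = p j → i = j)
    (hts : PHs S p 5 (mA ++ (gf (fun x => 8 + cr 4 x) rf41 ++ (gf (fun x => 8 + c6 3 0 1 2 4 x) f10)))) : False :=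
  refuteS (k := 5) (n2 := 3) (n3 := 1) (n4 := 3) (o3 := 45) (o4 := 80) (M := 440) (mA ++ (gf (fun x => 8 + cr 4 x) rf41 ++ (gf (fun x => 8 + c6 3 0 1 2 4 x) f10))) c41_10_3_pf (by decide +kernel)
    (by decide +kernel) (by decide +kernel) (by decide +kernel) hp hts

theorem c41_10_3 {V : Type} {W : Mw V} (h : W.Hy) {a b c d : V} (nd : [W.z, a, b, c, d].Nodup)
    (hr : Hit (mrel0 h.bs) (pt [a, b, c, d] W.z) rf41)
    (hf : Hit (mrel0 h.bs) (v6 W.z c W.z a b d) f10) : False :=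
  c41_10_3_ref (pt_inj (o := W.z) nd rfl) (PHs.app (h.ph rfl _) (PHs.app (gf_ph hr (cr 4) (cr_pt (n := 4) (l := [a, b, c, d]) (l' := []) rfl)) (gf_ph hf (c6 3 0 1 2 4) (c6_v6 rfl rfl rfl rfl rfl rfl))))

def c41_11_n_p0 : List Nat := [
0x8420030000000970490000201,
0x86400300000009904bd000201,
0x682400700000009700000000400d4000301,
0x4a820070000000020000000ab0245000301,
0xa420030000000080544000201,
0xa422b00000008f0000000910000000a30000000080572000501,
0xa62400700000000600000000a0281000301,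
0xa6424b0000000a300000008f00000009100000009300000009f00000000c0581000701,
0x64a330000000a30000000910000000930000000b30524000501,
0xa643700000001000000000e00000009b0000000910000000930000000a30000000120362000801,
0x8642a850000000ab00000009500000008f0000000910000000930000000a30000000a100000009f0000000970000000990000000140365000c01,
0xb5000000016000200]

def c41_11_n_pf : List Nat := c41_11_n_p0

theorem c41_11_n_ref {V : Type} {S : SRel V} {p : Nat → V} (hp : ∀ i j, i < 6 → j < 6 → p i = p j → i = j)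
    (hts : PHs S p 6 (mA ++ (gf (fun x => 8 + cr 4 x) rf41 ++ (gf (fun x => 8 + c6 5 0 1 2 4 x) f11)))) : False :=
  refuteS (k := 6) (n2 := 3) (n3 := 1) (n4 := 3) (o3 := 63) (o4 := 119) (M := 812) (mA ++ (gf (fun x => 8 + cr 4 x) rf41 ++ (gf (fun x => 8 + c6 5 0 1 2 4 x) f11))) c41_11_n_pf (by decide +kernel)
    (by decide +kernel) (by decide +kernel) (by decide +kernel) hp hts

theorem c41_11_n {V : Type} {W : Mw V} (h : W.Hy) {a b c d u : V} (nd : [W.z, a, b, c, d, u].Nodup)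
    (hr : Hit (mrel0 h.bs) (pt [a, b, c, d] W.z) rf41)
    (hf : Hit (mrel0 h.bs) (v6 W.z u W.z a b d) f11) : False :=
  c41_11_n_ref (pt_inj (o := W.z) nd rfl) (PHs.app (h.ph rfl _) (PHs.app (gf_ph hr (cr 4) (cr_pt (n := 4) (l := [a, b, c, d]) (l' := [u]) rfl)) (gf_ph hf (c6 5 0 1 2 4) (c6_v6 rfl rfl rfl rfl rfl rfl))))

def c41_11_3_p0 : List Nat := [
0x84200300000009702f5000201,
0x8640030000000990322000201,
0x2608407000000002000000099014f000301,
0x8642030000000060325000201,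
0x4208607000000004000000008031c000301,
0xab00000000a000200]

def c41_11_3_pf : List Nat := c41_11_3_p0

theorem c41_11_3_ref {V : Type} {S : SRel V} {p : Nat → V} (hp : ∀ i j, i < 5 → j < 5 → p i = p j → i = j)
    (hts : PHs S p 5 (mA ++ (gf (fun x => 8 + cr 4 x) rf41 ++ (gf (fun x => 8 + c6 3 0 1 2 4 x) f11)))) : False :=
  refuteS (k := 5) (n2 := 3) (n3 := 1) (n4 := 3) (o3 := 45) (o4 := 80) (M := 440) (mA ++ (gf (fun x => 8 + cr 4 x) rf41 ++ (gf (fun x => 8 + c6 3 0 1 2 4 x) f11))) c41_11_3_pf (by decide +kernel)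
    (by decide +kernel) (by decide +kernel) (by decide +kernel) hp hts

theorem c41_11_3 {V : Type} {W : Mw V} (h : W.Hy) {a b c d : V} (nd : [W.z, a, b, c, d].Nodup)
    (hr : Hit (mrel0 h.bs) (pt [a, b, c, d] W.z) rf41)
    (hf : Hit (mrel0 h.bs) (v6 W.z c W.z a b d) f11) : False :=
  c41_11_3_ref (pt_inj (o := W.z) nd rfl) (PHs.app (h.ph rfl _) (PHs.app (gf_ph hr (cr 4) (cr_pt (n := 4) (l := [a, b, c, d]) (l' := []) rfl)) (gf_ph hf (c6 3 0 1 2 4) (c6_v6 rfl rfl rfl rfl rfl rfl))))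

def c41_12_n_p0 : List Nat := [
0x8420030000000970490000201,
0x86400300000009904bd000201,
0x26084070000000020000000990176000301,
0x4862030000000060481000201,
0x6408207000000097000000008014f000301,
0x4622f00000009300000008f00000009100000009f0012000501,
0x86241d0000000a10018000201,
0xa480d0000000950000000910000000a7058c000401,
0x8a40030000000ad05e6000201,
0x8a6400700000000400000001205ad000301,
0x6a421d0000000b305b1000201,
0x8a421d0000000b305ea000201,
0x4a2330000000a700000008f0000000910000000b30572000501,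
0x6a2330000000a700000008f0000000930000000b305a8000501,
0xa8624250000000a100000001605c9000301,
0xa6824250000000a100000001805f6000301,
0xa6424b0000000a700000008f00000009100000009300000009f00000001a0581000701,
0xa4624b0000000a700000008f00000009100000009300000009f00000001c05ae000701,
0x8a130000000a70000000950000000b5002d000401,
0x64a3700000002400000002200000009100000000e0000000930000000a70000000260523000801,
0xa640010000000140000000280254000301,
0x684a0070000000ad0000000280206000301,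
0x860a40700000001000000002a0269000301,
0x8a626b0000000b30000000950000000b500000008f00000000c00000009300000009d0000000a700000000a00000002c0027000b01,
0x8a642870000000b500000009500000008f0000000910000000930000000a70000000a100000009f00000009700000009900000002c0033000c01,
0x86a41f00000002000000001e00000003000000003200000002e000600]

def c41_12_n_pf : List Nat := c41_12_n_p0

theorem c41_12_n_ref {V : Type} {S : SRel V} {p : Nat → V} (hp : ∀ i j, i < 6 → j < 6 → p i = p j → i = j)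
    (hts : PHs S p 6 (mA ++ (gf (fun x => 8 + cr 4 x) rf41 ++ (gf (fun x => 8 + c6 5 0 1 2 4 x) f12)))) : False :=
  refuteS (k := 6) (n2 := 3) (n3 := 1) (n4 := 3) (o3 := 63) (o4 := 119) (M := 812) (mA ++ (gf (fun x => 8 + cr 4 x) rf41 ++ (gf (fun x => 8 + c6 5 0 1 2 4 x) f12))) c41_12_n_pf (by decide +kernel)
    (by decide +kernel) (by decide +kernel) (by decide +kernel) hp hts

theorem c41_12_n {V : Type} {W : Mw V} (h : W.Hy) {a b c d u : V} (nd : [W.z, a, b, c, d, u].Nodup)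
    (hr : Hit (mrel0 h.bs) (pt [a, b, c, d] W.z) rf41)
    (hf : Hit (mrel0 h.bs) (v6 W.z u W.z a b d) f12) : False :=
  c41_12_n_ref (pt_inj (o := W.z) nd rfl) (PHs.app (h.ph rfl _) (PHs.app (gf_ph hr (cr 4) (cr_pt (n := 4) (l := [a, b, c, d]) (l' := [u]) rfl)) (gf_ph hf (c6 5 0 1 2 4) (c6_v6 rfl rfl rfl rfl rfl rfl))))

def c41_12_3_p0 : List Nat := [
0x4623300000009300000008f00000009100000009f0015000501,
0xb3000000002000200]

def c41_12_3_pf : List Nat := c41_12_3_p0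

theorem c41_12_3_ref {V : Type} {S : SRel V} {p : Nat → V} (hp : ∀ i j, i < 5 → j < 5 → p i = p j → i = j)
    (hts : PHs S p 5 (mA ++ (gf (fun x => 8 + cr 4 x) rf41 ++ (gf (fun x => 8 + c6 3 0 1 2 4 x) f12)))) : False :=
  refuteS (k := 5) (n2 := 3) (n3 := 1) (n4 := 3) (o3 := 45) (o4 := 80) (M := 440) (mA ++ (gf (fun x => 8 + cr 4 x) rf41 ++ (gf (fun x => 8 + c6 3 0 1 2 4 x) f12))) c41_12_3_pf (by decide +kernel)
    (by decide +kernel) (by decide +kernel) (by decide +kernel) hp hts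

theorem c41_12_3 {V : Type} {W : Mw V} (h : W.Hy) {a b c d : V} (nd : [W.z, a, b, c, d].Nodup)
    (hr : Hit (mrel0 h.bs) (pt [a, b, c, d] W.z) rf41)
    (hf : Hit (mrel0 h.bs) (v6 W.z c W.z a b d) f12) : False :=
  c41_12_3_ref (pt_inj (o := W.z) nd rfl) (PHs.app (h.ph rfl _) (PHs.app (gf_ph hr (cr 4) (cr_pt (n := 4) (l := [a, b, c, d]) (l' := []) rfl)) (gf_ph hf (c6 3 0 1 2 4) (c6_v6 rfl rfl rfl rfl rfl rfl))))

def c41_13_n_p0 : List Nat := [
0x8420030000000970490000201,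
0x4623b00000008f00000009100000009300000009f03ef000501,
0x68241d0000000a10024000201,
0x2a084070000000020000000ad0233000301,
0x4a8203000000008058f000201,
0xa40820700000009700000000a0200000301,
0x42a330000000a700000008f0000000910000000b30030000501,
0x6a424300000000400000008f0000000910000000930000000a70000000b305b1000701,
0x842a5100000009500000008f0000000910000000a700000000c0000000b30590000701,
0xa8642230000000a100000001005ea000301,
0x84a21f00000000e000000008000000006000000014000000012000600]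

def c41_13_n_pf : List Nat := c41_13_n_p0

theorem c41_13_n_ref {V : Type} {S : SRel V} {p : Nat → V} (hp : ∀ i j, i < 6 → j < 6 → p i = p j → i = j)
    (hts : PHs S p 6 (mA ++ (gf (fun x => 8 + cr 4 x) rf41 ++ (gf (fun x => 8 + c6 5 0 1 2 4 x) f13)))) : False :=
  refuteS (k := 6) (n2 := 3) (n3 := 1) (n4 := 3) (o3 := 63) (o4 := 119) (M := 812) (mA ++ (gf (fun x => 8 + cr 4 x) rf41 ++ (gf (fun x => 8 + c6 5 0 1 2 4 x) f13))) c41_13_n_pf (by decide +kernel)
    (by decide +kernel) (by decide +kernel) (by decide +kernel) hp hts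

theorem c41_13_n {V : Type} {W : Mw V} (h : W.Hy) {a b c d u : V} (nd : [W.z, a, b, c, d, u].Nodup)
    (hr : Hit (mrel0 h.bs) (pt [a, b, c, d] W.z) rf41)
    (hf : Hit (mrel0 h.bs) (v6 W.z u W.z a b d) f13) : False :=
  c41_13_n_ref (pt_inj (o := W.z) nd rfl) (PHs.app (h.ph rfl _) (PHs.app (gf_ph hr (cr 4) (cr_pt (n := 4) (l := [a, b, c, d]) (l' := [u]) rfl)) (gf_ph hf (c6 5 0 1 2 4) (c6_v6 rfl rfl rfl rfl rfl rfl))))

def c41_13_3_p0 : List Nat := [
0x4623b00000008f00000009100000009300000009f0254000501,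
0xb3000000002000200]

def c41_13_3_pf : List Nat := c41_13_3_p0

theorem c41_13_3_ref {V : Type} {S : SRel V} {p : Nat → V} (hp : ∀ i j, i < 5 → j < 5 → p i = p j → i = j)
    (hts : PHs S p 5 (mA ++ (gf (fun x => 8 + cr 4 x) rf41 ++ (gf (fun x => 8 + c6 3 0 1 2 4 x) f13)))) : False :=
  refuteS (k := 5) (n2 := 3) (n3 := 1) (n4 := 3) (o3 := 45) (o4 := 80) (M := 440) (mA ++ (gf (fun x => 8 + cr 4 x) rf41 ++ (gf (fun x => 8 + c6 3 0 1 2 4 x) f13))) c41_13_3_pf (by decide +kernel)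
    (by decide +kernel) (by decide +kernel) (by decide +kernel) hp hts

theorem c41_13_3 {V : Type} {W : Mw V} (h : W.Hy) {a b c d : V} (nd : [W.z, a, b, c, d].Nodup)
    (hr : Hit (mrel0 h.bs) (pt [a, b, c, d] W.z) rf41)
    (hf : Hit (mrel0 h.bs) (v6 W.z c W.z a b d) f13) : False :=
  c41_13_3_ref (pt_inj (o := W.z) nd rfl) (PHs.app (h.ph rfl _) (PHs.app (gf_ph hr (cr 4) (cr_pt (n := 4) (l := [a, b, c, d]) (l' := []) rfl)) (gf_ph hf (c6 3 0 1 2 4) (c6_v6 rfl rfl rfl rfl rfl rfl))))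

def c41_14_n_n_p0 : List Nat := [
0x84200300000009706ff000201,
0x864003000000099072c000201,
0x260840700000000200000009901a7000301,
0x68240070000000970000000040105000301,
0x48620300000000606f0000201,
0x640820700000009700000000a0180000301,
0x4623300000009300000008f00000009100000009f0015000501,
0x62a0d00000009300000008f0000000a7078f000401,
0xa860b0000000950000000930000000a7085e000401,
0xa4062070000000080000000100288000301,
0xa82600700000000c0000000120252000301,
0xc840b0000000950000000910000000ab09ea000401,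
0xc860b0000000950000000930000000ab09f3000401,
0xc82400700000009700000001803a8000301,
0xc84600700000009900000001a03f6000301,
0x2a80030000000af07c8000201,
0x860a2070000000160000000200267000301,
0x86a21b00000002207d2000201,
0x846a2250000000a100000002407c3000301,
0x8ac2d0000000ab0000000a70000000950000000b7002d000501,
0x8a6427f0000000a70000000af00000009500000008f0000000910000000930000000a100000009f0000000970000000990000000280033000c01,
0xa4621f00000002600000001400000000e00000002a02b6000501,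
0xa6842230000000a100000002c02ef000301,
0xca8422500000002e0000000b90484000301,
0xc8642230000000a10000000300439000301,
0xa24c8230000000b900000003004ab000301,
0xc8a6428d0000000ab0000000a700000009500000008f00000009100000009300000009f0000000af0000000b700000001c0000000b100000001e000000032000000034000f00]

def c41_14_n_n_pf : List Nat := c41_14_n_n_p0

theorem c41_14_n_n_ref {V : Type} {S : SRel V} {p : Nat → V} (hp : ∀ i j, i < 7 → j < 7 → p i = p j → i = j)
    (hts : PHs S p 7 (mA ++ (gf (fun x => 8 + cr 4 x) rf41 ++ (gf (fun x => 8 + c6 5 6 1 2 4 x) f14)))) : False :=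
  refuteS (k := 7) (n2 := 3) (n3 := 1) (n4 := 3) (o3 := 84) (o4 := 168) (M := 1386) (mA ++ (gf (fun x => 8 + cr 4 x) rf41 ++ (gf (fun x => 8 + c6 5 6 1 2 4 x) f14))) c41_14_n_n_pf (by decide +kernel)
    (by decide +kernel) (by decide +kernel) (by decide +kernel) hp hts

theorem c41_14_n_n {V : Type} {W : Mw V} (h : W.Hy) {a b c d u w : V} (nd : [W.z, a, b, c, d, u, w].Nodup)
    (hr : Hit (mrel0 h.bs) (pt [a, b, c, d] W.z) rf41)
    (hf : Hit (mrel0 h.bs) (v6 W.z u w a b d) f14) : False :=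
  c41_14_n_n_ref (pt_inj (o := W.z) nd rfl) (PHs.app (h.ph rfl _) (PHs.app (gf_ph hr (cr 4) (cr_pt (n := 4) (l := [a, b, c, d]) (l' := [u, w]) rfl)) (gf_ph hf (c6 5 6 1 2 4) (c6_v6 rfl rfl rfl rfl rfl rfl))))

def c41_14_n_3_p0 : List Nat := [
0xab000000093000200]

def c41_14_n_3_pf : List Nat := c41_14_n_3_p0

theorem c41_14_n_3_ref {V : Type} {S : SRel V} {p : Nat → V} (hp : ∀ i j, i < 6 → j < 6 → p i = p j → i = j)
    (hts : PHs S p 6 (mA ++ (gf (fun x => 8 + cr 4 x) rf41 ++ (gf (fun x => 8 + c6 5 3 1 2 4 x) f14)))) : False :=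
  refuteS (k := 6) (n2 := 3) (n3 := 1) (n4 := 3) (o3 := 63) (o4 := 119) (M := 812) (mA ++ (gf (fun x => 8 + cr 4 x) rf41 ++ (gf (fun x => 8 + c6 5 3 1 2 4 x) f14))) c41_14_n_3_pf (by decide +kernel)
    (by decide +kernel) (by decide +kernel) (by decide +kernel) hp hts

theorem c41_14_n_3 {V : Type} {W : Mw V} (h : W.Hy) {a b c d u : V} (nd : [W.z, a, b, c, d, u].Nodup)
    (hr : Hit (mrel0 h.bs) (pt [a, b, c, d] W.z) rf41)
    (hf : Hit (mrel0 h.bs) (v6 W.z u c a b d) f14) : False :=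
  c41_14_n_3_ref (pt_inj (o := W.z) nd rfl) (PHs.app (h.ph rfl _) (PHs.app (gf_ph hr (cr 4) (cr_pt (n := 4) (l := [a, b, c, d]) (l' := [u]) rfl)) (gf_ph hf (c6 5 3 1 2 4) (c6_v6 rfl rfl rfl rfl rfl rfl))))

def c41_14_3_n_p0 : List Nat := [
0xa7000000093000200]

def c41_14_3_n_pf : List Nat := c41_14_3_n_p0

theorem c41_14_3_n_ref {V : Type} {S : SRel V} {p : Nat → V} (hp : ∀ i j, i < 6 → j < 6 → p i = p j → i = j)
    (hts : PHs S p 6 (mA ++ (gf (fun x => 8 + cr 4 x) rf41 ++ (gf (fun x => 8 + c6 3 5 1 2 4 x) f14)))) : False :=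
  refuteS (k := 6) (n2 := 3) (n3 := 1) (n4 := 3) (o3 := 63) (o4 := 119) (M := 812) (mA ++ (gf (fun x => 8 + cr 4 x) rf41 ++ (gf (fun x => 8 + c6 3 5 1 2 4 x) f14))) c41_14_3_n_pf (by decide +kernel)
    (by decide +kernel) (by decide +kernel) (by decide +kernel) hp hts

theorem c41_14_3_n {V : Type} {W : Mw V} (h : W.Hy) {a b c d w : V} (nd : [W.z, a, b, c, d, w].Nodup)
    (hr : Hit (mrel0 h.bs) (pt [a, b, c, d] W.z) rf41)
    (hf : Hit (mrel0 h.bs) (v6 W.z c w a b d) f14) : False :=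
  c41_14_3_n_ref (pt_inj (o := W.z) nd rfl) (PHs.app (h.ph rfl _) (PHs.app (gf_ph hr (cr 4) (cr_pt (n := 4) (l := [a, b, c, d]) (l' := [w]) rfl)) (gf_ph hf (c6 3 5 1 2 4) (c6_v6 rfl rfl rfl rfl rfl rfl))))

def c41_15_n_n_p0 : List Nat := [
0xa840b0000000950000000910000000a70855000401,
0xa8240070000000970000000020249000301,
0x2ca0030000000af08f7000201,
0xc40a2070000000040000000060414000301,
0x2c80030000000b10927000201,
0xc4082050000000970000000b1096f000301,
0x8a0c2070000000af00000000a03d8000301,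
0x8a2c40700000000800000000c041d000301,
0x8ca20300000000e0a11000201,
0x8c4a2070000000080000000120264000301,
0x84a21b00000001407cf000201,
0xac82d0000000a90000000a70000000950000000b7003f000501,
0xca8310000000a90000000a70000000950000000b70039000501,
0x8ca6428d0000000a90000000a700000009500000008f00000009100000009300000009f0000000970000000990000000a10000000b10000000af0000000b70a15000e01,
0x8c6427f0000000a90000000b100000009500000008f0000000910000000930000000a100000009f0000000970000000990000000180045000c01,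
0xa8c41f00000001a00000001c00000001000000001e04ea000501,
0x2ca48250000000160000000200a12000301,
0xb9000000022000200]

def c41_15_n_n_pf : List Nat := c41_15_n_n_p0

theorem c41_15_n_n_ref {V : Type} {S : SRel V} {p : Nat → V} (hp : ∀ i j, i < 7 → j < 7 → p i = p j → i = j)
    (hts : PHs S p 7 (mA ++ (gf (fun x => 8 + cr 4 x) rf41 ++ (gf (fun x => 8 + c6 5 6 1 2 4 x) f15)))) : False :=
  refuteS (k := 7) (n2 := 3) (n3 := 1) (n4 := 3) (o3 := 84) (o4 := 168) (M := 1386) (mA ++ (gf (fun x => 8 + cr 4 x) rf41 ++ (gf (fun x => 8 + c6 5 6 1 2 4 x) f15))) c41_15_n_n_pf (by decide +kernel)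
    (by decide +kernel) (by decide +kernel) (by decide +kernel) hp hts

theorem c41_15_n_n {V : Type} {W : Mw V} (h : W.Hy) {a b c d u w : V} (nd : [W.z, a, b, c, d, u, w].Nodup)
    (hr : Hit (mrel0 h.bs) (pt [a, b, c, d] W.z) rf41)
    (hf : Hit (mrel0 h.bs) (v6 W.z u w a b d) f15) : False :=
  c41_15_n_n_ref (pt_inj (o := W.z) nd rfl) (PHs.app (h.ph rfl _) (PHs.app (gf_ph hr (cr 4) (cr_pt (n := 4) (l := [a, b, c, d]) (l' := [u, w]) rfl)) (gf_ph hf (c6 5 6 1 2 4) (c6_v6 rfl rfl rfl rfl rfl rfl))))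

def c41_15_n_3_p0 : List Nat := [
0xa9000000093000200]

def c41_15_n_3_pf : List Nat := c41_15_n_3_p0

theorem c41_15_n_3_ref {V : Type} {S : SRel V} {p : Nat → V} (hp : ∀ i j, i < 6 → j < 6 → p i = p j → i = j)
    (hts : PHs S p 6 (mA ++ (gf (fun x => 8 + cr 4 x) rf41 ++ (gf (fun x => 8 + c6 5 3 1 2 4 x) f15)))) : False :=
  refuteS (k := 6) (n2 := 3) (n3 := 1) (n4 := 3) (o3 := 63) (o4 := 119) (M := 812) (mA ++ (gf (fun x => 8 + cr 4 x) rf41 ++ (gf (fun x => 8 + c6 5 3 1 2 4 x) f15))) c41_15_n_3_pf (by decide +kernel)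
    (by decide +kernel) (by decide +kernel) (by decide +kernel) hp hts

theorem c41_15_n_3 {V : Type} {W : Mw V} (h : W.Hy) {a b c d u : V} (nd : [W.z, a, b, c, d, u].Nodup)
    (hr : Hit (mrel0 h.bs) (pt [a, b, c, d] W.z) rf41)
    (hf : Hit (mrel0 h.bs) (v6 W.z u c a b d) f15) : False :=
  c41_15_n_3_ref (pt_inj (o := W.z) nd rfl) (PHs.app (h.ph rfl _) (PHs.app (gf_ph hr (cr 4) (cr_pt (n := 4) (l := [a, b, c, d]) (l' := [u]) rfl)) (gf_ph hf (c6 5 3 1 2 4) (c6_v6 rfl rfl rfl rfl rfl rfl))))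

def c41_15_3_n_p0 : List Nat := [
0xa7000000093000200]

def c41_15_3_n_pf : List Nat := c41_15_3_n_p0

theorem c41_15_3_n_ref {V : Type} {S : SRel V} {p : Nat → V} (hp : ∀ i j, i < 6 → j < 6 → p i = p j → i = j)
    (hts : PHs S p 6 (mA ++ (gf (fun x => 8 + cr 4 x) rf41 ++ (gf (fun x => 8 + c6 3 5 1 2 4 x) f15)))) : False :=
  refuteS (k := 6) (n2 := 3) (n3 := 1) (n4 := 3) (o3 := 63) (o4 := 119) (M := 812) (mA ++ (gf (fun x => 8 + cr 4 x) rf41 ++ (gf (fun x => 8 + c6 3 5 1 2 4 x) f15))) c41_15_3_n_pf (by decide +kernel)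
    (by decide +kernel) (by decide +kernel) (by decide +kernel) hp hts

theorem c41_15_3_n {V : Type} {W : Mw V} (h : W.Hy) {a b c d w : V} (nd : [W.z, a, b, c, d, w].Nodup)
    (hr : Hit (mrel0 h.bs) (pt [a, b, c, d] W.z) rf41)
    (hf : Hit (mrel0 h.bs) (v6 W.z c w a b d) f15) : False :=
  c41_15_3_n_ref (pt_inj (o := W.z) nd rfl) (PHs.app (h.ph rfl _) (PHs.app (gf_ph hr (cr 4) (cr_pt (n := 4) (l := [a, b, c, d]) (l' := [w]) rfl)) (gf_ph hf (c6 3 5 1 2 4) (c6_v6 rfl rfl rfl rfl rfl rfl))))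

def c41_16_n_n_p0 : List Nat := [
0x84200300000009706ff000201,
0x864003000000099072c000201,
0x260840700000000200000009901a7000301,
0x68240070000000970000000040105000301,
0x48620300000000606f0000201,
0x640820700000009700000000a0180000301,
0x4623300000009300000008f00000009100000009f0015000501,
0x62a0d00000009300000008f0000000a9078f000401,
0xa860b0000000950000000930000000a9085e000401,
0xa4062070000000080000000100288000301,
0xa82600700000000c0000000120252000301,
0xc840b0000000950000000910000000ab09ea000401,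
0xc860b0000000950000000930000000ab09f3000401,
0xc82400700000009700000001803a8000301,
0xc84600700000009900000001a03f6000301,
0xc82600700000000c00000001a03b1000301,
0x2a80030000000af079b000201,
0xa60820700000000c00000002202ca000301,
0x2ca0030000000b108f7000201,
0xa60c2050000000200000000b1093f000301,
0xc60a207000000016000000026045c000301,
0xc82a60700000002400000002804ad000301,
0xc6a21b00000002a09c7000201,
0x6a421d0000000b70820000201,
0x8a621d0000000b70862000201,
0x8ac2d0000000ab0000000a90000000950000000bb002d000501,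
0xa8c310000000ab0000000a90000000950000000bb004b000501,
0xca8642890000000ab0000000b90000000a90000000b700000009500000008f00000009100000009300000009f0000000af0000000b100000001c00000001e0000000bb0a57000f01,
0xa6821f0028ac6250008ac61d00000009d00000002400000003200000002e09d0000701,
0xc8a61f00000003800000003600000002c00000003a05a0000501,
0x2a461d00000003c07c3000201,
0xca6427b0000000ab0000000b90000000a90000000340000000b700000008f0000000910000000930000000b100000001e00000009f00000001c00000003c05b2000e01,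
0xa4621f00000003000000001400000000e00000003e059d000501,
0xca86428b0000000ab0000000bb0000000a90000000b100000009500000008f00000009100000009300000009f0000000a10000000af00000001e00000001c000000040000000042001000]

def c41_16_n_n_pf : List Nat := c41_16_n_n_p0

theorem c41_16_n_n_ref {V : Type} {S : SRel V} {p : Nat → V} (hp : ∀ i j, i < 7 → j < 7 → p i = p j → i = j)
    (hts : PHs S p 7 (mA ++ (gf (fun x => 8 + cr 4 x) rf41 ++ (gf (fun x => 8 + c6 5 6 1 2 4 x) f16)))) : False :=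
  refuteS (k := 7) (n2 := 3) (n3 := 1) (n4 := 3) (o3 := 84) (o4 := 168) (M := 1386) (mA ++ (gf (fun x => 8 + cr 4 x) rf41 ++ (gf (fun x => 8 + c6 5 6 1 2 4 x) f16))) c41_16_n_n_pf (by decide +kernel)
    (by decide +kernel) (by decide +kernel) (by decide +kernel) hp hts

theorem c41_16_n_n {V : Type} {W : Mw V} (h : W.Hy) {a b c d u w : V} (nd : [W.z, a, b, c, d, u, w].Nodup)
    (hr : Hit (mrel0 h.bs) (pt [a, b, c, d] W.z) rf41)
    (hf : Hit (mrel0 h.bs) (v6 W.z u w a b d) f16) : False :=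
  c41_16_n_n_ref (pt_inj (o := W.z) nd rfl) (PHs.app (h.ph rfl _) (PHs.app (gf_ph hr (cr 4) (cr_pt (n := 4) (l := [a, b, c, d]) (l' := [u, w]) rfl)) (gf_ph hf (c6 5 6 1 2 4) (c6_v6 rfl rfl rfl rfl rfl rfl))))

def c41_16_n_3_p0 : List Nat := [
0xab000000093000200]

def c41_16_n_3_pf : List Nat := c41_16_n_3_p0

theorem c41_16_n_3_ref {V : Type} {S : SRel V} {p : Nat → V} (hp : ∀ i j, i < 6 → j < 6 → p i = p j → i = j)
    (hts : PHs S p 6 (mA ++ (gf (fun x => 8 + cr 4 x) rf41 ++ (gf (fun x => 8 + c6 5 3 1 2 4 x) f16)))) : False :=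
  refuteS (k := 6) (n2 := 3) (n3 := 1) (n4 := 3) (o3 := 63) (o4 := 119) (M := 812) (mA ++ (gf (fun x => 8 + cr 4 x) rf41 ++ (gf (fun x => 8 + c6 5 3 1 2 4 x) f16))) c41_16_n_3_pf (by decide +kernel)
    (by decide +kernel) (by decide +kernel) (by decide +kernel) hp hts

theorem c41_16_n_3 {V : Type} {W : Mw V} (h : W.Hy) {a b c d u : V} (nd : [W.z, a, b, c, d, u].Nodup)
    (hr : Hit (mrel0 h.bs) (pt [a, b, c, d] W.z) rf41)
    (hf : Hit (mrel0 h.bs) (v6 W.z u c a b d) f16) : False :=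
  c41_16_n_3_ref (pt_inj (o := W.z) nd rfl) (PHs.app (h.ph rfl _) (PHs.app (gf_ph hr (cr 4) (cr_pt (n := 4) (l := [a, b, c, d]) (l' := [u]) rfl)) (gf_ph hf (c6 5 3 1 2 4) (c6_v6 rfl rfl rfl rfl rfl rfl))))

def c41_16_3_n_p0 : List Nat := [
0xa9000000093000200]

def c41_16_3_n_pf : List Nat := c41_16_3_n_p0

theorem c41_16_3_n_ref {V : Type} {S : SRel V} {p : Nat → V} (hp : ∀ i j, i < 6 → j < 6 → p i = p j → i = j)
    (hts : PHs S p 6 (mA ++ (gf (fun x => 8 + cr 4 x) rf41 ++ (gf (fun x => 8 + c6 3 5 1 2 4 x) f16)))) : False :=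
  refuteS (k := 6) (n2 := 3) (n3 := 1) (n4 := 3) (o3 := 63) (o4 := 119) (M := 812) (mA ++ (gf (fun x => 8 + cr 4 x) rf41 ++ (gf (fun x => 8 + c6 3 5 1 2 4 x) f16))) c41_16_3_n_pf (by decide +kernel)
    (by decide +kernel) (by decide +kernel) (by decide +kernel) hp hts

theorem c41_16_3_n {V : Type} {W : Mw V} (h : W.Hy) {a b c d w : V} (nd : [W.z, a, b, c, d, w].Nodup)
    (hr : Hit (mrel0 h.bs) (pt [a, b, c, d] W.z) rf41)
    (hf : Hit (mrel0 h.bs) (v6 W.z c w a b d) f16) : False :=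
  c41_16_3_n_ref (pt_inj (o := W.z) nd rfl) (PHs.app (h.ph rfl _) (PHs.app (gf_ph hr (cr 4) (cr_pt (n := 4) (l := [a, b, c, d]) (l' := [w]) rfl)) (gf_ph hf (c6 3 5 1 2 4) (c6_v6 rfl rfl rfl rfl rfl rfl))))

def c41_17_n_n_p0 : List Nat := [
0xc840b0000000950000000910000000ab09ea000401,
0xc860b0000000950000000930000000ab09f3000401,
0xc82400700000009700000000203a8000301,
0xc84600700000009900000000403f6000301,
0x8ac2d0000000ab0000000a90000000950000000b9002d000501,
0xca6427f0000000ab0000000a90000000b700000008f0000000910000000930000000b100000009f00000000600000000800000000a09a3000c01,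
0xc8642230000000a100000000c09ee000301,
0xbb00000000e000200]

def c41_17_n_n_pf : List Nat := c41_17_n_n_p0

theorem c41_17_n_n_ref {V : Type} {S : SRel V} {p : Nat → V} (hp : ∀ i j, i < 7 → j < 7 → p i = p j → i = j)
    (hts : PHs S p 7 (mA ++ (gf (fun x => 8 + cr 4 x) rf41 ++ (gf (fun x => 8 + c6 5 6 1 2 4 x) f17)))) : False :=
  refuteS (k := 7) (n2 := 3) (n3 := 1) (n4 := 3) (o3 := 84) (o4 := 168) (M := 1386) (mA ++ (gf (fun x => 8 + cr 4 x) rf41 ++ (gf (fun x => 8 + c6 5 6 1 2 4 x) f17))) c41_17_n_n_pf (by decide +kernel)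
    (by decide +kernel) (by decide +kernel) (by decide +kernel) hp hts

theorem c41_17_n_n {V : Type} {W : Mw V} (h : W.Hy) {a b c d u w : V} (nd : [W.z, a, b, c, d, u, w].Nodup)
    (hr : Hit (mrel0 h.bs) (pt [a, b, c, d] W.z) rf41)
    (hf : Hit (mrel0 h.bs) (v6 W.z u w a b d) f17) : False :=
  c41_17_n_n_ref (pt_inj (o := W.z) nd rfl) (PHs.app (h.ph rfl _) (PHs.app (gf_ph hr (cr 4) (cr_pt (n := 4) (l := [a, b, c, d]) (l' := [u, w]) rfl)) (gf_ph hf (c6 5 6 1 2 4) (c6_v6 rfl rfl rfl rfl rfl rfl))))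

def c41_17_n_3_p0 : List Nat := [
0xab000000093000200]

def c41_17_n_3_pf : List Nat := c41_17_n_3_p0

theorem c41_17_n_3_ref {V : Type} {S : SRel V} {p : Nat → V} (hp : ∀ i j, i < 6 → j < 6 → p i = p j → i = j)
    (hts : PHs S p 6 (mA ++ (gf (fun x => 8 + cr 4 x) rf41 ++ (gf (fun x => 8 + c6 5 3 1 2 4 x) f17)))) : False :=
  refuteS (k := 6) (n2 := 3) (n3 := 1) (n4 := 3) (o3 := 63) (o4 := 119) (M := 812) (mA ++ (gf (fun x => 8 + cr 4 x) rf41 ++ (gf (fun x => 8 + c6 5 3 1 2 4 x) f17))) c41_17_n_3_pf (by decide +kernel)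
    (by decide +kernel) (by decide +kernel) (by decide +kernel) hp hts

theorem c41_17_n_3 {V : Type} {W : Mw V} (h : W.Hy) {a b c d u : V} (nd : [W.z, a, b, c, d, u].Nodup)
    (hr : Hit (mrel0 h.bs) (pt [a, b, c, d] W.z) rf41)
    (hf : Hit (mrel0 h.bs) (v6 W.z u c a b d) f17) : False :=
  c41_17_n_3_ref (pt_inj (o := W.z) nd rfl) (PHs.app (h.ph rfl _) (PHs.app (gf_ph hr (cr 4) (cr_pt (n := 4) (l := [a, b, c, d]) (l' := [u]) rfl)) (gf_ph hf (c6 5 3 1 2 4) (c6_v6 rfl rfl rfl rfl rfl rfl))))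

def c41_17_3_n_p0 : List Nat := [
0xa9000000093000200]

def c41_17_3_n_pf : List Nat := c41_17_3_n_p0

theorem c41_17_3_n_ref {V : Type} {S : SRel V} {p : Nat → V} (hp : ∀ i j, i < 6 → j < 6 → p i = p j → i = j)
    (hts : PHs S p 6 (mA ++ (gf (fun x => 8 + cr 4 x) rf41 ++ (gf (fun x => 8 + c6 3 5 1 2 4 x) f17)))) : False :=
  refuteS (k := 6) (n2 := 3) (n3 := 1) (n4 := 3) (o3 := 63) (o4 := 119) (M := 812) (mA ++ (gf (fun x => 8 + cr 4 x) rf41 ++ (gf (fun x => 8 + c6 3 5 1 2 4 x) f17))) c41_17_3_n_pf (by decide +kernel)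
    (by decide +kernel) (by decide +kernel) (by decide +kernel) hp hts

theorem c41_17_3_n {V : Type} {W : Mw V} (h : W.Hy) {a b c d w : V} (nd : [W.z, a, b, c, d, w].Nodup)
    (hr : Hit (mrel0 h.bs) (pt [a, b, c, d] W.z) rf41)
    (hf : Hit (mrel0 h.bs) (v6 W.z c w a b d) f17) : False :=
  c41_17_3_n_ref (pt_inj (o := W.z) nd rfl) (PHs.app (h.ph rfl _) (PHs.app (gf_ph hr (cr 4) (cr_pt (n := 4) (l := [a, b, c, d]) (l' := [w]) rfl)) (gf_ph hf (c6 3 5 1 2 4) (c6_v6 rfl rfl rfl rfl rfl rfl))))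

def c41_18_n_n_p0 : List Nat := [
0xc840b0000000950000000910000000ab09ea000401,
0xc860b0000000950000000930000000ab09f3000401,
0xc82400700000009700000000203a8000301,
0xc84600700000009900000000403f6000301,
0xc8642230000000a10000000b90439000301,
0xca86428d0000000ab0000000a900000009500000008f00000009100000009300000009f0000000af0000000b70000000060000000b100000000800000000a0a54000e01,
0xbb00000000c000200]

def c41_18_n_n_pf : List Nat := c41_18_n_n_p0

theorem c41_18_n_n_ref {V : Type} {S : SRel V} {p : Nat → V} (hp : ∀ i j, i < 7 → j < 7 → p i = p j → i = j)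
    (hts : PHs S p 7 (mA ++ (gf (fun x => 8 + cr 4 x) rf41 ++ (gf (fun x => 8 + c6 5 6 1 2 4 x) f18)))) : False :=
  refuteS (k := 7) (n2 := 3) (n3 := 1) (n4 := 3) (o3 := 84) (o4 := 168) (M := 1386) (mA ++ (gf (fun x => 8 + cr 4 x) rf41 ++ (gf (fun x => 8 + c6 5 6 1 2 4 x) f18))) c41_18_n_n_pf (by decide +kernel)
    (by decide +kernel) (by decide +kernel) (by decide +kernel) hp hts

theorem c41_18_n_n {V : Type} {W : Mw V} (h : W.Hy) {a b c d u w : V} (nd : [W.z, a, b, c, d, u, w].Nodup)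
    (hr : Hit (mrel0 h.bs) (pt [a, b, c, d] W.z) rf41)
    (hf : Hit (mrel0 h.bs) (v6 W.z u w a b d) f18) : False :=
  c41_18_n_n_ref (pt_inj (o := W.z) nd rfl) (PHs.app (h.ph rfl _) (PHs.app (gf_ph hr (cr 4) (cr_pt (n := 4) (l := [a, b, c, d]) (l' := [u, w]) rfl)) (gf_ph hf (c6 5 6 1 2 4) (c6_v6 rfl rfl rfl rfl rfl rfl))))

def c41_18_n_3_p0 : List Nat := [
0xab000000093000200]

def c41_18_n_3_pf : List Nat := c41_18_n_3_p0

theorem c41_18_n_3_ref {V : Type} {S : SRel V} {p : Nat → V} (hp : ∀ i j, i < 6 → j < 6 → p i = p j → i = j)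
    (hts : PHs S p 6 (mA ++ (gf (fun x => 8 + cr 4 x) rf41 ++ (gf (fun x => 8 + c6 5 3 1 2 4 x) f18)))) : False :=
  refuteS (k := 6) (n2 := 3) (n3 := 1) (n4 := 3) (o3 := 63) (o4 := 119) (M := 812) (mA ++ (gf (fun x => 8 + cr 4 x) rf41 ++ (gf (fun x => 8 + c6 5 3 1 2 4 x) f18))) c41_18_n_3_pf (by decide +kernel)
    (by decide +kernel) (by decide +kernel) (by decide +kernel) hp hts

theorem c41_18_n_3 {V : Type} {W : Mw V} (h : W.Hy) {a b c d u : V} (nd : [W.z, a, b, c, d, u].Nodup)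
    (hr : Hit (mrel0 h.bs) (pt [a, b, c, d] W.z) rf41)
    (hf : Hit (mrel0 h.bs) (v6 W.z u c a b d) f18) : False :=
  c41_18_n_3_ref (pt_inj (o := W.z) nd rfl) (PHs.app (h.ph rfl _) (PHs.app (gf_ph hr (cr 4) (cr_pt (n := 4) (l := [a, b, c, d]) (l' := [u]) rfl)) (gf_ph hf (c6 5 3 1 2 4) (c6_v6 rfl rfl rfl rfl rfl rfl))))

def c41_18_3_n_p0 : List Nat := [
0xa9000000093000200]

def c41_18_3_n_pf : List Nat := c41_18_3_n_p0

theorem c41_18_3_n_ref {V : Type} {S : SRel V} {p : Nat → V} (hp : ∀ i j, i < 6 → j < 6 → p i = p j → i = j)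
    (hts : PHs S p 6 (mA ++ (gf (fun x => 8 + cr 4 x) rf41 ++ (gf (fun x => 8 + c6 3 5 1 2 4 x) f18)))) : False :=
  refuteS (k := 6) (n2 := 3) (n3 := 1) (n4 := 3) (o3 := 63) (o4 := 119) (M := 812) (mA ++ (gf (fun x => 8 + cr 4 x) rf41 ++ (gf (fun x => 8 + c6 3 5 1 2 4 x) f18))) c41_18_3_n_pf (by decide +kernel)
    (by decide +kernel) (by decide +kernel) (by decide +kernel) hp hts

theorem c41_18_3_n {V : Type} {W : Mw V} (h : W.Hy) {a b c d w : V} (nd : [W.z, a, b, c, d, w].Nodup)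
    (hr : Hit (mrel0 h.bs) (pt [a, b, c, d] W.z) rf41)
    (hf : Hit (mrel0 h.bs) (v6 W.z c w a b d) f18) : False :=
  c41_18_3_n_ref (pt_inj (o := W.z) nd rfl) (PHs.app (h.ph rfl _) (PHs.app (gf_ph hr (cr 4) (cr_pt (n := 4) (l := [a, b, c, d]) (l' := [w]) rfl)) (gf_ph hf (c6 3 5 1 2 4) (c6_v6 rfl rfl rfl rfl rfl rfl))))

def c41_19_n_n_p0 : List Nat := [
0x68241d0000000a10024000201,
0x2a681d0000000b707d2000201,
0x846a2250000000a100000000407c3000301,
0x84c170000000b90000000a70000000950000000910000000020000000bb05a9000701,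
0x4c22f0000000a700000008f0000000910000000080952000501,
0xca642610000000060000000a700000008f00000009100000009300000009f00000000a097f000801,
0xbf00000000c000200]

def c41_19_n_n_pf : List Nat := c41_19_n_n_p0

theorem c41_19_n_n_ref {V : Type} {S : SRel V} {p : Nat → V} (hp : ∀ i j, i < 7 → j < 7 → p i = p j → i = j)
    (hts : PHs S p 7 (mA ++ (gf (fun x => 8 + cr 4 x) rf41 ++ (gf (fun x => 8 + c6 5 6 1 2 4 x) f19)))) : False :=
  refuteS (k := 7) (n2 := 3) (n3 := 1) (n4 := 3) (o3 := 84) (o4 := 168) (M := 1386) (mA ++ (gf (fun x => 8 + cr 4 x) rf41 ++ (gf (fun x => 8 + c6 5 6 1 2 4 x) f19))) c41_19_n_n_pf (by decide +kernel)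
    (by decide +kernel) (by decide +kernel) (by decide +kernel) hp hts

theorem c41_19_n_n {V : Type} {W : Mw V} (h : W.Hy) {a b c d u w : V} (nd : [W.z, a, b, c, d, u, w].Nodup)
    (hr : Hit (mrel0 h.bs) (pt [a, b, c, d] W.z) rf41)
    (hf : Hit (mrel0 h.bs) (v6 W.z u w a b d) f19) : False :=
  c41_19_n_n_ref (pt_inj (o := W.z) nd rfl) (PHs.app (h.ph rfl _) (PHs.app (gf_ph hr (cr 4) (cr_pt (n := 4) (l := [a, b, c, d]) (l' := [u, w]) rfl)) (gf_ph hf (c6 5 6 1 2 4) (c6_v6 rfl rfl rfl rfl rfl rfl))))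

def c41_19_n_3_p0 : List Nat := [
0x86400300000009904bd000201,
0xb1000000002000200]

def c41_19_n_3_pf : List Nat := c41_19_n_3_p0

theorem c41_19_n_3_ref {V : Type} {S : SRel V} {p : Nat → V} (hp : ∀ i j, i < 6 → j < 6 → p i = p j → i = j)
    (hts : PHs S p 6 (mA ++ (gf (fun x => 8 + cr 4 x) rf41 ++ (gf (fun x => 8 + c6 5 3 1 2 4 x) f19)))) : False :=
  refuteS (k := 6) (n2 := 3) (n3 := 1) (n4 := 3) (o3 := 63) (o4 := 119) (M := 812) (mA ++ (gf (fun x => 8 + cr 4 x) rf41 ++ (gf (fun x => 8 + c6 5 3 1 2 4 x) f19))) c41_19_n_3_pf (by decide +kernel)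
    (by decide +kernel) (by decide +kernel) (by decide +kernel) hp hts

theorem c41_19_n_3 {V : Type} {W : Mw V} (h : W.Hy) {a b c d u : V} (nd : [W.z, a, b, c, d, u].Nodup)
    (hr : Hit (mrel0 h.bs) (pt [a, b, c, d] W.z) rf41)
    (hf : Hit (mrel0 h.bs) (v6 W.z u c a b d) f19) : False :=
  c41_19_n_3_ref (pt_inj (o := W.z) nd rfl) (PHs.app (h.ph rfl _) (PHs.app (gf_ph hr (cr 4) (cr_pt (n := 4) (l := [a, b, c, d]) (l' := [u]) rfl)) (gf_ph hf (c6 5 3 1 2 4) (c6_v6 rfl rfl rfl rfl rfl rfl))))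

def c41_19_3_n_p0 : List Nat := [
0x86400300000009904bd000201,
0x8a60030000000af05ef000201,
0x4a086070000000020000000af0269000301,
0x8a640300000000605f5000201,
0x640a80700000000400000000805e6000301,
0xb100000000a000200]

def c41_19_3_n_pf : List Nat := c41_19_3_n_p0

theorem c41_19_3_n_ref {V : Type} {S : SRel V} {p : Nat → V} (hp : ∀ i j, i < 6 → j < 6 → p i = p j → i = j)
    (hts : PHs S p 6 (mA ++ (gf (fun x => 8 + cr 4 x) rf41 ++ (gf (fun x => 8 + c6 3 5 1 2 4 x) f19)))) : False :=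
  refuteS (k := 6) (n2 := 3) (n3 := 1) (n4 := 3) (o3 := 63) (o4 := 119) (M := 812) (mA ++ (gf (fun x => 8 + cr 4 x) rf41 ++ (gf (fun x => 8 + c6 3 5 1 2 4 x) f19))) c41_19_3_n_pf (by decide +kernel)
    (by decide +kernel) (by decide +kernel) (by decide +kernel) hp hts

theorem c41_19_3_n {V : Type} {W : Mw V} (h : W.Hy) {a b c d w : V} (nd : [W.z, a, b, c, d, w].Nodup)
    (hr : Hit (mrel0 h.bs) (pt [a, b, c, d] W.z) rf41)
    (hf : Hit (mrel0 h.bs) (v6 W.z c w a b d) f19) : False :=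
  c41_19_3_n_ref (pt_inj (o := W.z) nd rfl) (PHs.app (h.ph rfl _) (PHs.app (gf_ph hr (cr 4) (cr_pt (n := 4) (l := [a, b, c, d]) (l' := [w]) rfl)) (gf_ph hf (c6 3 5 1 2 4) (c6_v6 rfl rfl rfl rfl rfl rfl))))

def c41_20_n_n_p0 : List Nat := [
0x4c22f0000000a700000008f0000000910000000b70952000501,
0x2a681d0000000b907d2000201,
0x846a2250000000a100000000407c3000301,
0xca642610000000020000000a700000008f00000009100000009300000009f000000006097f000801,
0xbb000000008000200]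

def c41_20_n_n_pf : List Nat := c41_20_n_n_p0

theorem c41_20_n_n_ref {V : Type} {S : SRel V} {p : Nat → V} (hp : ∀ i j, i < 7 → j < 7 → p i = p j → i = j)
    (hts : PHs S p 7 (mA ++ (gf (fun x => 8 + cr 4 x) rf41 ++ (gf (fun x => 8 + c6 5 6 1 2 4 x) f20)))) : False :=
  refuteS (k := 7) (n2 := 3) (n3 := 1) (n4 := 3) (o3 := 84) (o4 := 168) (M := 1386) (mA ++ (gf (fun x => 8 + cr 4 x) rf41 ++ (gf (fun x => 8 + c6 5 6 1 2 4 x) f20))) c41_20_n_n_pf (by decide +kernel)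
    (by decide +kernel) (by decide +kernel) (by decide +kernel) hp hts

theorem c41_20_n_n {V : Type} {W : Mw V} (h : W.Hy) {a b c d u w : V} (nd : [W.z, a, b, c, d, u, w].Nodup)
    (hr : Hit (mrel0 h.bs) (pt [a, b, c, d] W.z) rf41)
    (hf : Hit (mrel0 h.bs) (v6 W.z u w a b d) f20) : False :=
  c41_20_n_n_ref (pt_inj (o := W.z) nd rfl) (PHs.app (h.ph rfl _) (PHs.app (gf_ph hr (cr 4) (cr_pt (n := 4) (l := [a, b, c, d]) (l' := [u, w]) rfl)) (gf_ph hf (c6 5 6 1 2 4) (c6_v6 rfl rfl rfl rfl rfl rfl))))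

def c41_20_n_3_p0 : List Nat := [
0x86400300000009904bd000201,
0xb1000000002000200]

def c41_20_n_3_pf : List Nat := c41_20_n_3_p0

theorem c41_20_n_3_ref {V : Type} {S : SRel V} {p : Nat → V} (hp : ∀ i j, i < 6 → j < 6 → p i = p j → i = j)
    (hts : PHs S p 6 (mA ++ (gf (fun x => 8 + cr 4 x) rf41 ++ (gf (fun x => 8 + c6 5 3 1 2 4 x) f20)))) : False :=
  refuteS (k := 6) (n2 := 3) (n3 := 1) (n4 := 3) (o3 := 63) (o4 := 119) (M := 812) (mA ++ (gf (fun x => 8 + cr 4 x) rf41 ++ (gf (fun x => 8 + c6 5 3 1 2 4 x) f20))) c41_20_n_3_pf (by decide +kernel)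
    (by decide +kernel) (by decide +kernel) (by decide +kernel) hp hts

theorem c41_20_n_3 {V : Type} {W : Mw V} (h : W.Hy) {a b c d u : V} (nd : [W.z, a, b, c, d, u].Nodup)
    (hr : Hit (mrel0 h.bs) (pt [a, b, c, d] W.z) rf41)
    (hf : Hit (mrel0 h.bs) (v6 W.z u c a b d) f20) : False :=
  c41_20_n_3_ref (pt_inj (o := W.z) nd rfl) (PHs.app (h.ph rfl _) (PHs.app (gf_ph hr (cr 4) (cr_pt (n := 4) (l := [a, b, c, d]) (l' := [u]) rfl)) (gf_ph hf (c6 5 3 1 2 4) (c6_v6 rfl rfl rfl rfl rfl rfl))))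

def c41_20_3_n_p0 : List Nat := [
0x86400300000009904bd000201,
0x8a60030000000af05ef000201,
0x4a086070000000020000000af0269000301,
0x8a640300000000605f5000201,
0x640a80700000000400000000805e6000301,
0xb100000000a000200]

def c41_20_3_n_pf : List Nat := c41_20_3_n_p0

theorem c41_20_3_n_ref {V : Type} {S : SRel V} {p : Nat → V} (hp : ∀ i j, i < 6 → j < 6 → p i = p j → i = j)
    (hts : PHs S p 6 (mA ++ (gf (fun x => 8 + cr 4 x) rf41 ++ (gf (fun x => 8 + c6 3 5 1 2 4 x) f20)))) : False :=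
  refuteS (k := 6) (n2 := 3) (n3 := 1) (n4 := 3) (o3 := 63) (o4 := 119) (M := 812) (mA ++ (gf (fun x => 8 + cr 4 x) rf41 ++ (gf (fun x => 8 + c6 3 5 1 2 4 x) f20))) c41_20_3_n_pf (by decide +kernel)
    (by decide +kernel) (by decide +kernel) (by decide +kernel) hp hts

theorem c41_20_3_n {V : Type} {W : Mw V} (h : W.Hy) {a b c d w : V} (nd : [W.z, a, b, c, d, w].Nodup)
    (hr : Hit (mrel0 h.bs) (pt [a, b, c, d] W.z) rf41)
    (hf : Hit (mrel0 h.bs) (v6 W.z c w a b d) f20) : False :=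
  c41_20_3_n_ref (pt_inj (o := W.z) nd rfl) (PHs.app (h.ph rfl _) (PHs.app (gf_ph hr (cr 4) (cr_pt (n := 4) (l := [a, b, c, d]) (l' := [w]) rfl)) (gf_ph hf (c6 3 5 1 2 4) (c6_v6 rfl rfl rfl rfl rfl rfl))))

theorem P41_1 {V : Type} {W : Mw V} (h : W.Hy) {a b c d u w : V} (nd : [W.z, a, b, c, d].Nodup)
    (hr : Hit (mrel0 h.bs) (pt [a, b, c, d] W.z) rf41)
    (hf : Hit (mrel0 h.bs) (v6 W.z u w a b d) f1) : False := by
  exact c41_1 h nd hr (hit00 (by decide) hf)

theorem P41_6 {V : Type} {W : Mw V} (h : W.Hy) {a b c d u w : V} (nd : [W.z, a, b, c, d].Nodup)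
    (hr : Hit (mrel0 h.bs) (pt [a, b, c, d] W.z) rf41)
    (hf : Hit (mrel0 h.bs) (v6 W.z u w a b d) f6) : False := by
  have hf := hit01 (by decide) hf
  have hs := hn1 hf rfl
  by_cases ic : u = c
  · subst ic
    exact c41_6_3 h nd hr hf
  exact c41_6_n h (nd_snoc nd (nin5 hs.1 hs.2.1 hs.2.2.1 ic hs.2.2.2)) hr hf

theorem P41_7 {V : Type} {W : Mw V} (h : W.Hy) {a b c d u w : V} (nd : [W.z, a, b, c, d].Nodup)
    (hr : Hit (mrel0 h.bs) (pt [a, b, c, d] W.z) rf41)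
    (hf : Hit (mrel0 h.bs) (v6 W.z u w a b d) f7) : False := by
  have hf := hit01 (by decide) hf
  have hs := hn1 hf rfl
  by_cases ic : u = c
  · subst ic
    exact c41_7_3 h nd hr hf
  exact c41_7_n h (nd_snoc nd (nin5 hs.1 hs.2.1 hs.2.2.1 ic hs.2.2.2)) hr hf

theorem P41_10 {V : Type} {W : Mw V} (h : W.Hy) {a b c d u w : V} (nd : [W.z, a, b, c, d].Nodup)
    (hr : Hit (mrel0 h.bs) (pt [a, b, c, d] W.z) rf41)
    (hf : Hit (mrel0 h.bs) (v6 W.z u w a b d) f10) : False := by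
  have hf := hit01 (by decide) hf
  have hs := hn1 hf rfl
  by_cases ic : u = c
  · subst ic
    exact c41_10_3 h nd hr hf
  exact c41_10_n h (nd_snoc nd (nin5 hs.1 hs.2.1 hs.2.2.1 ic hs.2.2.2)) hr hf

theorem P41_11 {V : Type} {W : Mw V} (h : W.Hy) {a b c d u w : V} (nd : [W.z, a, b, c, d].Nodup)
    (hr : Hit (mrel0 h.bs) (pt [a, b, c, d] W.z) rf41)
    (hf : Hit (mrel0 h.bs) (v6 W.z u w a b d) f11) : False := by
  have hf := hit01 (by decide) hf
  have hs := hn1 hf rfl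
  by_cases ic : u = c
  · subst ic
    exact c41_11_3 h nd hr hf
  exact c41_11_n h (nd_snoc nd (nin5 hs.1 hs.2.1 hs.2.2.1 ic hs.2.2.2)) hr hf

theorem P41_12 {V : Type} {W : Mw V} (h : W.Hy) {a b c d u w : V} (nd : [W.z, a, b, c, d].Nodup)
    (hr : Hit (mrel0 h.bs) (pt [a, b, c, d] W.z) rf41)
    (hf : Hit (mrel0 h.bs) (v6 W.z u w a b d) f12) : False := by
  have hf := hit01 (by decide) hf
  have hs := hn1 hf rfl
  by_cases ic : u = c
  · subst ic
    exact c41_12_3 h nd hr hf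
  exact c41_12_n h (nd_snoc nd (nin5 hs.1 hs.2.1 hs.2.2.1 ic hs.2.2.2)) hr hf

theorem P41_13 {V : Type} {W : Mw V} (h : W.Hy) {a b c d u w : V} (nd : [W.z, a, b, c, d].Nodup)
    (hr : Hit (mrel0 h.bs) (pt [a, b, c, d] W.z) rf41)
    (hf : Hit (mrel0 h.bs) (v6 W.z u w a b d) f13) : False := by
  have hf := hit01 (by decide) hf
  have hs := hn1 hf rfl
  by_cases ic : u = c
  · subst ic
    exact c41_13_3 h nd hr hf
  exact c41_13_n h (nd_snoc nd (nin5 hs.1 hs.2.1 hs.2.2.1 ic hs.2.2.2)) hr hf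

theorem P41_14 {V : Type} {W : Mw V} (h : W.Hy) {a b c d u w : V} (nd : [W.z, a, b, c, d].Nodup)
    (hr : Hit (mrel0 h.bs) (pt [a, b, c, d] W.z) rf41)
    (hf : Hit (mrel0 h.bs) (v6 W.z u w a b d) f14) : False := by
  have hs := hn2 hf rfl
  by_cases ic : u = c
  · subst ic
    exact c41_14_3_n h (nd_snoc nd (nin5 hs.2.2.1 hs.2.2.2.1 hs.2.2.2.2.1 hs.1.symm hs.2.2.2.2.2)) hr hf
  by_cases jc : w = c
  · subst jc
    exact c41_14_n_3 h (nd_snoc nd (nin5 hs.2.1.1 hs.2.1.2.1 hs.2.1.2.2.1 hs.1 hs.2.1.2.2.2)) hr hf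
  exact c41_14_n_n h (nd_snoc (nd_snoc nd (nin5 hs.2.1.1 hs.2.1.2.1 hs.2.1.2.2.1 ic hs.2.1.2.2.2)) (nin6 hs.2.2.1 hs.2.2.2.1 hs.2.2.2.2.1 jc hs.2.2.2.2.2 hs.1.symm)) hr hf

theorem P41_15 {V : Type} {W : Mw V} (h : W.Hy) {a b c d u w : V} (nd : [W.z, a, b, c, d].Nodup)
    (hr : Hit (mrel0 h.bs) (pt [a, b, c, d] W.z) rf41)
    (hf : Hit (mrel0 h.bs) (v6 W.z u w a b d) f15) : False := by
  have hs := hn2 hf rfl
  by_cases ic : u = c
  · subst ic
    exact c41_15_3_n h (nd_snoc nd (nin5 hs.2.2.1 hs.2.2.2.1 hs.2.2.2.2.1 hs.1.symm hs.2.2.2.2.2)) hr hf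
  by_cases jc : w = c
  · subst jc
    exact c41_15_n_3 h (nd_snoc nd (nin5 hs.2.1.1 hs.2.1.2.1 hs.2.1.2.2.1 hs.1 hs.2.1.2.2.2)) hr hf
  exact c41_15_n_n h (nd_snoc (nd_snoc nd (nin5 hs.2.1.1 hs.2.1.2.1 hs.2.1.2.2.1 ic hs.2.1.2.2.2)) (nin6 hs.2.2.1 hs.2.2.2.1 hs.2.2.2.2.1 jc hs.2.2.2.2.2 hs.1.symm)) hr hf

theorem P41_16 {V : Type} {W : Mw V} (h : W.Hy) {a b c d u w : V} (nd : [W.z, a, b, c, d].Nodup)
    (hr : Hit (mrel0 h.bs) (pt [a, b, c, d] W.z) rf41)
    (hf : Hit (mrel0 h.bs) (v6 W.z u w a b d) f16) : False := by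
  have hs := hn2 hf rfl
  by_cases ic : u = c
  · subst ic
    exact c41_16_3_n h (nd_snoc nd (nin5 hs.2.2.1 hs.2.2.2.1 hs.2.2.2.2.1 hs.1.symm hs.2.2.2.2.2)) hr hf
  by_cases jc : w = c
  · subst jc
    exact c41_16_n_3 h (nd_snoc nd (nin5 hs.2.1.1 hs.2.1.2.1 hs.2.1.2.2.1 hs.1 hs.2.1.2.2.2)) hr hf
  exact c41_16_n_n h (nd_snoc (nd_snoc nd (nin5 hs.2.1.1 hs.2.1.2.1 hs.2.1.2.2.1 ic hs.2.1.2.2.2)) (nin6 hs.2.2.1 hs.2.2.2.1 hs.2.2.2.2.1 jc hs.2.2.2.2.2 hs.1.symm)) hr hf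

theorem P41_17 {V : Type} {W : Mw V} (h : W.Hy) {a b c d u w : V} (nd : [W.z, a, b, c, d].Nodup)
    (hr : Hit (mrel0 h.bs) (pt [a, b, c, d] W.z) rf41)
    (hf : Hit (mrel0 h.bs) (v6 W.z u w a b d) f17) : False := by
  have hs := hn2 hf rfl
  by_cases ic : u = c
  · subst ic
    exact c41_17_3_n h (nd_snoc nd (nin5 hs.2.2.1 hs.2.2.2.1 hs.2.2.2.2.1 hs.1.symm hs.2.2.2.2.2)) hr hf
  by_cases jc : w = c
  · subst jc
    exact c41_17_n_3 h (nd_snoc nd (nin5 hs.2.1.1 hs.2.1.2.1 hs.2.1.2.2.1 hs.1 hs.2.1.2.2.2)) hr hf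
  exact c41_17_n_n h (nd_snoc (nd_snoc nd (nin5 hs.2.1.1 hs.2.1.2.1 hs.2.1.2.2.1 ic hs.2.1.2.2.2)) (nin6 hs.2.2.1 hs.2.2.2.1 hs.2.2.2.2.1 jc hs.2.2.2.2.2 hs.1.symm)) hr hf

theorem P41_18 {V : Type} {W : Mw V} (h : W.Hy) {a b c d u w : V} (nd : [W.z, a, b, c, d].Nodup)
    (hr : Hit (mrel0 h.bs) (pt [a, b, c, d] W.z) rf41)
    (hf : Hit (mrel0 h.bs) (v6 W.z u w a b d) f18) : False := by
  have hs := hn2 hf rfl
  by_cases ic : u = c
  · subst ic
    exact c41_18_3_n h (nd_snoc nd (nin5 hs.2.2.1 hs.2.2.2.1 hs.2.2.2.2.1 hs.1.symm hs.2.2.2.2.2)) hr hf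
  by_cases jc : w = c
  · subst jc
    exact c41_18_n_3 h (nd_snoc nd (nin5 hs.2.1.1 hs.2.1.2.1 hs.2.1.2.2.1 hs.1 hs.2.1.2.2.2)) hr hf
  exact c41_18_n_n h (nd_snoc (nd_snoc nd (nin5 hs.2.1.1 hs.2.1.2.1 hs.2.1.2.2.1 ic hs.2.1.2.2.2)) (nin6 hs.2.2.1 hs.2.2.2.1 hs.2.2.2.2.1 jc hs.2.2.2.2.2 hs.1.symm)) hr hf

theorem P41_19 {V : Type} {W : Mw V} (h : W.Hy) {a b c d u w : V} (nd : [W.z, a, b, c, d].Nodup)
    (hr : Hit (mrel0 h.bs) (pt [a, b, c, d] W.z) rf41)
    (hf : Hit (mrel0 h.bs) (v6 W.z u w a b d) f19) : False := by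
  have hs := hn2 hf rfl
  by_cases ic : u = c
  · subst ic
    exact c41_19_3_n h (nd_snoc nd (nin5 hs.2.2.1 hs.2.2.2.1 hs.2.2.2.2.1 hs.1.symm hs.2.2.2.2.2)) hr hf
  by_cases jc : w = c
  · subst jc
    exact c41_19_n_3 h (nd_snoc nd (nin5 hs.2.1.1 hs.2.1.2.1 hs.2.1.2.2.1 hs.1 hs.2.1.2.2.2)) hr hf
  exact c41_19_n_n h (nd_snoc (nd_snoc nd (nin5 hs.2.1.1 hs.2.1.2.1 hs.2.1.2.2.1 ic hs.2.1.2.2.2)) (nin6 hs.2.2.1 hs.2.2.2.1 hs.2.2.2.2.1 jc hs.2.2.2.2.2 hs.1.symm)) hr hf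

theorem P41_20 {V : Type} {W : Mw V} (h : W.Hy) {a b c d u w : V} (nd : [W.z, a, b, c, d].Nodup)
    (hr : Hit (mrel0 h.bs) (pt [a, b, c, d] W.z) rf41)
    (hf : Hit (mrel0 h.bs) (v6 W.z u w a b d) f20) : False := by
  have hs := hn2 hf rfl
  by_cases ic : u = c
  · subst ic
    exact c41_20_3_n h (nd_snoc nd (nin5 hs.2.2.1 hs.2.2.2.1 hs.2.2.2.2.1 hs.1.symm hs.2.2.2.2.2)) hr hf
  by_cases jc : w = c
  · subst jc
    exact c41_20_n_3 h (nd_snoc nd (nin5 hs.2.1.1 hs.2.1.2.1 hs.2.1.2.2.1 hs.1 hs.2.1.2.2.2)) hr hf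
  exact c41_20_n_n h (nd_snoc (nd_snoc nd (nin5 hs.2.1.1 hs.2.1.2.1 hs.2.1.2.2.1 ic hs.2.1.2.2.2)) (nin6 hs.2.2.1 hs.2.2.2.1 hs.2.2.2.2.1 jc hs.2.2.2.2.2 hs.1.symm)) hr hf

theorem R41 {V : Type} {W : Mw V} (h : W.Hy) {a b c d : V} (nd : [W.z, a, b, c, d].Nodup)
    (hr : Hit (mrel0 h.bs) (pt [a, b, c, d] W.z) rf41)
    (hp : FS (mrel0 h.bs) W.z fp2 a b d) : False := by
  obtain ⟨t, ht, u, w, hf⟩ := hp
  simp only [fp2, List.mem_cons, List.not_mem_nil, or_false] at ht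
  rcases ht with rfl | rfl | rfl | rfl | rfl | rfl | rfl | rfl | rfl | rfl | rfl | rfl | rfl | rfl
  · exact P41_1 h nd hr hf
  · exact P41_6 h nd hr hf
  · exact P41_7 h nd hr hf
  · exact P41_10 h nd hr hf
  · exact P41_11 h nd hr hf
  · exact P41_12 h nd hr hf
  · exact P41_13 h nd hr hf
  · exact P41_14 h nd hr hf
  · exact P41_15 h nd hr hf
  · exact P41_16 h nd hr hf
  · exact P41_17 h nd hr hf
  · exact P41_18 h nd hr hf
  · exact P41_19 h nd hr hf
  · exact P41_20 h nd hr hf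

end Pool.Agent.SOU
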