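import Pool.Agent.SOU.TB

/-! Project SOU (MP_66ba69_lc, mixed insertion): rule 46 (generated). -/

set_option autoImplicit false
set_option maxRecDepth 100000
set_option linter.unusedVariables false

namespace Pool.Agent.SOU

open Pool.Agent.RUP Pool.Agent.SOQ

def c46_0_p0 : List Nat := [
0xa86426f0000000970000000950000000a50000000930000000a30000000910000000a100000008f00000009f00000009d00000009900000009b0000000a7000c000e01,
0xb7000000002000200]

def c46_0_pf : List Nat := c46_0_p0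

theorem c46_0_ref {V : Type} {S : SRel V} {p : Nat → V} (hp : ∀ i j, i < 6 → j < 6 → p i = p j → i = j)
    (hts : PHs S p 6 (mA ++ (gf (fun x => 8 + cr 5 x) rf46 ++ (gf (fun x => 8 + c6 0 0 1 2 5 x) f0)))) : False :=
  refuteS (k := 6) (n2 := 3) (n3 := 1) (n4 := 3) (o3 := 63) (o4 := 119) (M := 812) (mA ++ (gf (fun x => 8 + cr 5 x) rf46 ++ (gf (fun x => 8 + c6 0 0 1 2 5 x) f0))) c46_0_pf (by decide +kernel)
    (by decide +kernel) (by decide +kernel) (by decide +kernel) hp hts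

theorem c46_0 {V : Type} {W : Mw V} (h : W.Hy) {a b c d e : V} (nd : [W.z, a, b, c, d, e].Nodup)
    (hr : Hit (mrel0 h.bs) (pt [a, b, c, d, e] W.z) rf46)
    (hf : Hit (mrel0 h.bs) (v6 W.z W.z W.z a b e) f0) : False :=
  c46_0_ref (pt_inj (o := W.z) nd rfl) (PHs.app (h.ph rfl _) (PHs.app (gf_ph hr (cr 5) (cr_pt (n := 5) (l := [a, b, c, d, e]) (l' := []) rfl)) (gf_ph hf (c6 0 0 1 2 5) (c6_v6 rfl rfl rfl rfl rfl rfl))))

def c46_2_n_p0 : List Nat := [
0x46a2d0000000970000000930000000910000000a30793000501,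
0xa8c21d0000000a50943000201,
0x68c4a5d0000000ad0000000020000000a70000000970000000930000000910000000bb041e000801,
0x24c8a25000000004000000006093d000301,
0xbd000000008000200]

def c46_2_n_pf : List Nat := c46_2_n_p0

theorem c46_2_n_ref {V : Type} {S : SRel V} {p : Nat → V} (hp : ∀ i j, i < 7 → j < 7 → p i = p j → i = j)
    (hts : PHs S p 7 (mA ++ (gf (fun x => 8 + cr 5 x) rf46 ++ (gf (fun x => 8 + c6 6 0 1 2 5 x) f2)))) : False :=
  refuteS (k := 7) (n2 := 3) (n3 := 1) (n4 := 3) (o3 := 84) (o4 := 168) (M := 1386) (mA ++ (gf (fun x => 8 + cr 5 x) rf46 ++ (gf (fun x => 8 + c6 6 0 1 2 5 x) f2))) c46_2_n_pf (by decide +kernel)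
    (by decide +kernel) (by decide +kernel) (by decide +kernel) hp hts

theorem c46_2_n {V : Type} {W : Mw V} (h : W.Hy) {a b c d e u : V} (nd : [W.z, a, b, c, d, e, u].Nodup)
    (hr : Hit (mrel0 h.bs) (pt [a, b, c, d, e] W.z) rf46)
    (hf : Hit (mrel0 h.bs) (v6 W.z u W.z a b e) f2) : False :=
  c46_2_n_ref (pt_inj (o := W.z) nd rfl) (PHs.app (h.ph rfl _) (PHs.app (gf_ph hr (cr 5) (cr_pt (n := 5) (l := [a, b, c, d, e]) (l' := [u]) rfl)) (gf_ph hf (c6 6 0 1 2 5) (c6_v6 rfl rfl rfl rfl rfl rfl))))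

def c46_2_3_p0 : List Nat := [
0x26400300000009903ee000201,
0xb3000000002000200]

def c46_2_3_pf : List Nat := c46_2_3_p0

theorem c46_2_3_ref {V : Type} {S : SRel V} {p : Nat → V} (hp : ∀ i j, i < 6 → j < 6 → p i = p j → i = j)
    (hts : PHs S p 6 (mA ++ (gf (fun x => 8 + cr 5 x) rf46 ++ (gf (fun x => 8 + c6 3 0 1 2 5 x) f2)))) : False :=
  refuteS (k := 6) (n2 := 3) (n3 := 1) (n4 := 3) (o3 := 63) (o4 := 119) (M := 812) (mA ++ (gf (fun x => 8 + cr 5 x) rf46 ++ (gf (fun x => 8 + c6 3 0 1 2 5 x) f2))) c46_2_3_pf (by decide +kernel)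
    (by decide +kernel) (by decide +kernel) (by decide +kernel) hp hts

theorem c46_2_3 {V : Type} {W : Mw V} (h : W.Hy) {a b c d e : V} (nd : [W.z, a, b, c, d, e].Nodup)
    (hr : Hit (mrel0 h.bs) (pt [a, b, c, d, e] W.z) rf46)
    (hf : Hit (mrel0 h.bs) (v6 W.z c W.z a b e) f2) : False :=
  c46_2_3_ref (pt_inj (o := W.z) nd rfl) (PHs.app (h.ph rfl _) (PHs.app (gf_ph hr (cr 5) (cr_pt (n := 5) (l := [a, b, c, d, e]) (l' := []) rfl)) (gf_ph hf (c6 3 0 1 2 5) (c6_v6 rfl rfl rfl rfl rfl rfl))))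

def c46_2_4_p0 : List Nat := [
0x26400300000009903ee000201,
0x28600300000009b045d000201,
0x482600700000000200000009b0173000301,
0x4860030000000060460000201,
0x64280070000000040000000080454000301,
0xb300000000a000200]

def c46_2_4_pf : List Nat := c46_2_4_p0

theorem c46_2_4_ref {V : Type} {S : SRel V} {p : Nat → V} (hp : ∀ i j, i < 6 → j < 6 → p i = p j → i = j)
    (hts : PHs S p 6 (mA ++ (gf (fun x => 8 + cr 5 x) rf46 ++ (gf (fun x => 8 + c6 4 0 1 2 5 x) f2)))) : False :=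
  refuteS (k := 6) (n2 := 3) (n3 := 1) (n4 := 3) (o3 := 63) (o4 := 119) (M := 812) (mA ++ (gf (fun x => 8 + cr 5 x) rf46 ++ (gf (fun x => 8 + c6 4 0 1 2 5 x) f2))) c46_2_4_pf (by decide +kernel)
    (by decide +kernel) (by decide +kernel) (by decide +kernel) hp hts

theorem c46_2_4 {V : Type} {W : Mw V} (h : W.Hy) {a b c d e : V} (nd : [W.z, a, b, c, d, e].Nodup)
    (hr : Hit (mrel0 h.bs) (pt [a, b, c, d, e] W.z) rf46)
    (hf : Hit (mrel0 h.bs) (v6 W.z d W.z a b e) f2) : False :=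
  c46_2_4_ref (pt_inj (o := W.z) nd rfl) (PHs.app (h.ph rfl _) (PHs.app (gf_ph hr (cr 5) (cr_pt (n := 5) (l := [a, b, c, d, e]) (l' := []) rfl)) (gf_ph hf (c6 4 0 1 2 5) (c6_v6 rfl rfl rfl rfl rfl rfl))))

def c46_3_n_p0 : List Nat := [
0x46a2d0000000970000000930000000910000000a30793000501,
0xa862630000000970000000950000000a100000009300000008f00000009d00000009b0000000a5085f000901,
0x8a461d0000000a70036000201,
0xc6a2d0000000a30000000970000000930000000af09c4000501,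
0x4ca2d0000000af0000000970000000910000000bd003f000501,
0x6c4a4d0000000020000000af0000000970000000930000000910000000bd0a48000701,
0x68c4a5d0000000af0000000020000000a70000000970000000930000000910000000bd041e000801,
0x84ca65d0000000af0000000040000000a700000009700000009500000009300000000c0a42000801,
0xc46a8230000000a700000000e0466000301,
0xa6c3500000000a0000000080000000af00000009700000009300000000600000001008fd000801,
0xa86c26f0000000af0000000bb0000000970000000950000000a50000000930000000a300000008f0000000a100000000a00000009b00000009d00000001208dc000e01,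
0x6a2c0070000000b5000000014000000016000400]

def c46_3_n_pf : List Nat := c46_3_n_p0

theorem c46_3_n_ref {V : Type} {S : SRel V} {p : Nat → V} (hp : ∀ i j, i < 7 → j < 7 → p i = p j → i = j)
    (hts : PHs S p 7 (mA ++ (gf (fun x => 8 + cr 5 x) rf46 ++ (gf (fun x => 8 + c6 6 0 1 2 5 x) f3)))) : False :=
  refuteS (k := 7) (n2 := 3) (n3 := 1) (n4 := 3) (o3 := 84) (o4 := 168) (M := 1386) (mA ++ (gf (fun x => 8 + cr 5 x) rf46 ++ (gf (fun x => 8 + c6 6 0 1 2 5 x) f3))) c46_3_n_pf (by decide +kernel)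
    (by decide +kernel) (by decide +kernel) (by decide +kernel) hp hts

theorem c46_3_n {V : Type} {W : Mw V} (h : W.Hy) {a b c d e u : V} (nd : [W.z, a, b, c, d, e, u].Nodup)
    (hr : Hit (mrel0 h.bs) (pt [a, b, c, d, e] W.z) rf46)
    (hf : Hit (mrel0 h.bs) (v6 W.z u W.z a b e) f3) : False :=
  c46_3_n_ref (pt_inj (o := W.z) nd rfl) (PHs.app (h.ph rfl _) (PHs.app (gf_ph hr (cr 5) (cr_pt (n := 5) (l := [a, b, c, d, e]) (l' := [u]) rfl)) (gf_ph hf (c6 6 0 1 2 5) (c6_v6 rfl rfl rfl rfl rfl rfl))))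

def c46_3_3_p0 : List Nat := [
0x46a2d0000000970000000930000000910000000a30524000501,
0xbd000000002000200]

def c46_3_3_pf : List Nat := c46_3_3_p0

theorem c46_3_3_ref {V : Type} {S : SRel V} {p : Nat → V} (hp : ∀ i j, i < 6 → j < 6 → p i = p j → i = j)
    (hts : PHs S p 6 (mA ++ (gf (fun x => 8 + cr 5 x) rf46 ++ (gf (fun x => 8 + c6 3 0 1 2 5 x) f3)))) : False :=
  refuteS (k := 6) (n2 := 3) (n3 := 1) (n4 := 3) (o3 := 63) (o4 := 119) (M := 812) (mA ++ (gf (fun x => 8 + cr 5 x) rf46 ++ (gf (fun x => 8 + c6 3 0 1 2 5 x) f3))) c46_3_3_pf (by decide +kernel)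
    (by decide +kernel) (by decide +kernel) (by decide +kernel) hp hts

theorem c46_3_3 {V : Type} {W : Mw V} (h : W.Hy) {a b c d e : V} (nd : [W.z, a, b, c, d, e].Nodup)
    (hr : Hit (mrel0 h.bs) (pt [a, b, c, d, e] W.z) rf46)
    (hf : Hit (mrel0 h.bs) (v6 W.z c W.z a b e) f3) : False :=
  c46_3_3_ref (pt_inj (o := W.z) nd rfl) (PHs.app (h.ph rfl _) (PHs.app (gf_ph hr (cr 5) (cr_pt (n := 5) (l := [a, b, c, d, e]) (l' := []) rfl)) (gf_ph hf (c6 3 0 1 2 5) (c6_v6 rfl rfl rfl rfl rfl rfl))))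

def c46_3_4_p0 : List Nat := [
0x46a2d0000000970000000930000000910000000a30524000501,
0x684a4d0000000020000000970000000950000000930000000910000000a70530000701,
0xbd000000004000200]

def c46_3_4_pf : List Nat := c46_3_4_p0

theorem c46_3_4_ref {V : Type} {S : SRel V} {p : Nat → V} (hp : ∀ i j, i < 6 → j < 6 → p i = p j → i = j)
    (hts : PHs S p 6 (mA ++ (gf (fun x => 8 + cr 5 x) rf46 ++ (gf (fun x => 8 + c6 4 0 1 2 5 x) f3)))) : False :=
  refuteS (k := 6) (n2 := 3) (n3 := 1) (n4 := 3) (o3 := 63) (o4 := 119) (M := 812) (mA ++ (gf (fun x => 8 + cr 5 x) rf46 ++ (gf (fun x => 8 + c6 4 0 1 2 5 x) f3))) c46_3_4_pf (by decide +kernel)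
    (by decide +kernel) (by decide +kernel) (by decide +kernel) hp hts

theorem c46_3_4 {V : Type} {W : Mw V} (h : W.Hy) {a b c d e : V} (nd : [W.z, a, b, c, d, e].Nodup)
    (hr : Hit (mrel0 h.bs) (pt [a, b, c, d, e] W.z) rf46)
    (hf : Hit (mrel0 h.bs) (v6 W.z d W.z a b e) f3) : False :=
  c46_3_4_ref (pt_inj (o := W.z) nd rfl) (PHs.app (h.ph rfl _) (PHs.app (gf_ph hr (cr 5) (cr_pt (n := 5) (l := [a, b, c, d, e]) (l' := []) rfl)) (gf_ph hf (c6 4 0 1 2 5) (c6_v6 rfl rfl rfl rfl rfl rfl))))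

def c46_4_n_p0 : List Nat := [
0xa8421d0000000a50859000201,
0x46c2d0000000a30000000930000000910000000b108e0000501,
0x6a4c4d0000000040000000b10000000970000000930000000910000000bb0a48000701,
0x86ca24270000000a70000000020000000060a3c000401,
0xbd000000008000200]

def c46_4_n_pf : List Nat := c46_4_n_p0

theorem c46_4_n_ref {V : Type} {S : SRel V} {p : Nat → V} (hp : ∀ i j, i < 7 → j < 7 → p i = p j → i = j)
    (hts : PHs S p 7 (mA ++ (gf (fun x => 8 + cr 5 x) rf46 ++ (gf (fun x => 8 + c6 6 0 1 2 5 x) f4)))) : False :=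
  refuteS (k := 7) (n2 := 3) (n3 := 1) (n4 := 3) (o3 := 84) (o4 := 168) (M := 1386) (mA ++ (gf (fun x => 8 + cr 5 x) rf46 ++ (gf (fun x => 8 + c6 6 0 1 2 5 x) f4))) c46_4_n_pf (by decide +kernel)
    (by decide +kernel) (by decide +kernel) (by decide +kernel) hp hts

theorem c46_4_n {V : Type} {W : Mw V} (h : W.Hy) {a b c d e u : V} (nd : [W.z, a, b, c, d, e, u].Nodup)
    (hr : Hit (mrel0 h.bs) (pt [a, b, c, d, e] W.z) rf46)
    (hf : Hit (mrel0 h.bs) (v6 W.z u W.z a b e) f4) : False :=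
  c46_4_n_ref (pt_inj (o := W.z) nd rfl) (PHs.app (h.ph rfl _) (PHs.app (gf_ph hr (cr 5) (cr_pt (n := 5) (l := [a, b, c, d, e]) (l' := [u]) rfl)) (gf_ph hf (c6 6 0 1 2 5) (c6_v6 rfl rfl rfl rfl rfl rfl))))

def c46_4_3_p0 : List Nat := [
0x28600300000009b045d000201,
0x2a800300000009d052c000201,
0x6a2800700000000200000009d0296000301,
0x6a80030000000060532000201,
0x862a0070000000040000000080520000301,
0xb500000000a000200]

def c46_4_3_pf : List Nat := c46_4_3_p0

theorem c46_4_3_ref {V : Type} {S : SRel V} {p : Nat → V} (hp : ∀ i j, i < 6 → j < 6 → p i = p j → i = j)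
    (hts : PHs S p 6 (mA ++ (gf (fun x => 8 + cr 5 x) rf46 ++ (gf (fun x => 8 + c6 3 0 1 2 5 x) f4)))) : False :=
  refuteS (k := 6) (n2 := 3) (n3 := 1) (n4 := 3) (o3 := 63) (o4 := 119) (M := 812) (mA ++ (gf (fun x => 8 + cr 5 x) rf46 ++ (gf (fun x => 8 + c6 3 0 1 2 5 x) f4))) c46_4_3_pf (by decide +kernel)
    (by decide +kernel) (by decide +kernel) (by decide +kernel) hp hts

theorem c46_4_3 {V : Type} {W : Mw V} (h : W.Hy) {a b c d e : V} (nd : [W.z, a, b, c, d, e].Nodup)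
    (hr : Hit (mrel0 h.bs) (pt [a, b, c, d, e] W.z) rf46)
    (hf : Hit (mrel0 h.bs) (v6 W.z c W.z a b e) f4) : False :=
  c46_4_3_ref (pt_inj (o := W.z) nd rfl) (PHs.app (h.ph rfl _) (PHs.app (gf_ph hr (cr 5) (cr_pt (n := 5) (l := [a, b, c, d, e]) (l' := []) rfl)) (gf_ph hf (c6 3 0 1 2 5) (c6_v6 rfl rfl rfl rfl rfl rfl))))

def c46_4_4_p0 : List Nat := [
0x2a800300000009d052c000201,
0xb5000000002000200]

def c46_4_4_pf : List Nat := c46_4_4_p0

theorem c46_4_4_ref {V : Type} {S : SRel V} {p : Nat → V} (hp : ∀ i j, i < 6 → j < 6 → p i = p j → i = j)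
    (hts : PHs S p 6 (mA ++ (gf (fun x => 8 + cr 5 x) rf46 ++ (gf (fun x => 8 + c6 4 0 1 2 5 x) f4)))) : False :=
  refuteS (k := 6) (n2 := 3) (n3 := 1) (n4 := 3) (o3 := 63) (o4 := 119) (M := 812) (mA ++ (gf (fun x => 8 + cr 5 x) rf46 ++ (gf (fun x => 8 + c6 4 0 1 2 5 x) f4))) c46_4_4_pf (by decide +kernel)
    (by decide +kernel) (by decide +kernel) (by decide +kernel) hp hts

theorem c46_4_4 {V : Type} {W : Mw V} (h : W.Hy) {a b c d e : V} (nd : [W.z, a, b, c, d, e].Nodup)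
    (hr : Hit (mrel0 h.bs) (pt [a, b, c, d, e] W.z) rf46)
    (hf : Hit (mrel0 h.bs) (v6 W.z d W.z a b e) f4) : False :=
  c46_4_4_ref (pt_inj (o := W.z) nd rfl) (PHs.app (h.ph rfl _) (PHs.app (gf_ph hr (cr 5) (cr_pt (n := 5) (l := [a, b, c, d, e]) (l' := []) rfl)) (gf_ph hf (c6 4 0 1 2 5) (c6_v6 rfl rfl rfl rfl rfl rfl))))

def c46_5_n_p0 : List Nat := [
0x46a2d0000000970000000930000000910000000a30793000501,
0xa8421d0000000a50859000201,
0x6c4a4d0000000020000000af0000000970000000930000000910000000bb0a48000701,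
0x86ca24270000000a70000000040000000060a3c000401,
0xbd000000008000200]

def c46_5_n_pf : List Nat := c46_5_n_p0

theorem c46_5_n_ref {V : Type} {S : SRel V} {p : Nat → V} (hp : ∀ i j, i < 7 → j < 7 → p i = p j → i = j)
    (hts : PHs S p 7 (mA ++ (gf (fun x => 8 + cr 5 x) rf46 ++ (gf (fun x => 8 + c6 6 0 1 2 5 x) f5)))) : False :=
  refuteS (k := 7) (n2 := 3) (n3 := 1) (n4 := 3) (o3 := 84) (o4 := 168) (M := 1386) (mA ++ (gf (fun x => 8 + cr 5 x) rf46 ++ (gf (fun x => 8 + c6 6 0 1 2 5 x) f5))) c46_5_n_pf (by decide +kernel)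
    (by decide +kernel) (by decide +kernel) (by decide +kernel) hp hts

theorem c46_5_n {V : Type} {W : Mw V} (h : W.Hy) {a b c d e u : V} (nd : [W.z, a, b, c, d, e, u].Nodup)
    (hr : Hit (mrel0 h.bs) (pt [a, b, c, d, e] W.z) rf46)
    (hf : Hit (mrel0 h.bs) (v6 W.z u W.z a b e) f5) : False :=
  c46_5_n_ref (pt_inj (o := W.z) nd rfl) (PHs.app (h.ph rfl _) (PHs.app (gf_ph hr (cr 5) (cr_pt (n := 5) (l := [a, b, c, d, e]) (l' := [u]) rfl)) (gf_ph hf (c6 6 0 1 2 5) (c6_v6 rfl rfl rfl rfl rfl rfl))))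

def c46_5_3_p0 : List Nat := [
0x46a2d0000000970000000930000000910000000a30524000501,
0xbb000000002000200]

def c46_5_3_pf : List Nat := c46_5_3_p0

theorem c46_5_3_ref {V : Type} {S : SRel V} {p : Nat → V} (hp : ∀ i j, i < 6 → j < 6 → p i = p j → i = j)
    (hts : PHs S p 6 (mA ++ (gf (fun x => 8 + cr 5 x) rf46 ++ (gf (fun x => 8 + c6 3 0 1 2 5 x) f5)))) : False :=
  refuteS (k := 6) (n2 := 3) (n3 := 1) (n4 := 3) (o3 := 63) (o4 := 119) (M := 812) (mA ++ (gf (fun x => 8 + cr 5 x) rf46 ++ (gf (fun x => 8 + c6 3 0 1 2 5 x) f5))) c46_5_3_pf (by decide +kernel)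
    (by decide +kernel) (by decide +kernel) (by decide +kernel) hp hts

theorem c46_5_3 {V : Type} {W : Mw V} (h : W.Hy) {a b c d e : V} (nd : [W.z, a, b, c, d, e].Nodup)
    (hr : Hit (mrel0 h.bs) (pt [a, b, c, d, e] W.z) rf46)
    (hf : Hit (mrel0 h.bs) (v6 W.z c W.z a b e) f5) : False :=
  c46_5_3_ref (pt_inj (o := W.z) nd rfl) (PHs.app (h.ph rfl _) (PHs.app (gf_ph hr (cr 5) (cr_pt (n := 5) (l := [a, b, c, d, e]) (l' := []) rfl)) (gf_ph hf (c6 3 0 1 2 5) (c6_v6 rfl rfl rfl rfl rfl rfl))))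

def c46_5_4_p0 : List Nat := [
0x46a2d0000000970000000930000000910000000a30524000501,
0x684a4d0000000020000000970000000950000000930000000910000000a70530000701,
0xbb000000004000200]

def c46_5_4_pf : List Nat := c46_5_4_p0

theorem c46_5_4_ref {V : Type} {S : SRel V} {p : Nat → V} (hp : ∀ i j, i < 6 → j < 6 → p i = p j → i = j)
    (hts : PHs S p 6 (mA ++ (gf (fun x => 8 + cr 5 x) rf46 ++ (gf (fun x => 8 + c6 4 0 1 2 5 x) f5)))) : False :=
  refuteS (k := 6) (n2 := 3) (n3 := 1) (n4 := 3) (o3 := 63) (o4 := 119) (M := 812) (mA ++ (gf (fun x => 8 + cr 5 x) rf46 ++ (gf (fun x => 8 + c6 4 0 1 2 5 x) f5))) c46_5_4_pf (by decide +kernel)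
    (by decide +kernel) (by decide +kernel) (by decide +kernel) hp hts

theorem c46_5_4 {V : Type} {W : Mw V} (h : W.Hy) {a b c d e : V} (nd : [W.z, a, b, c, d, e].Nodup)
    (hr : Hit (mrel0 h.bs) (pt [a, b, c, d, e] W.z) rf46)
    (hf : Hit (mrel0 h.bs) (v6 W.z d W.z a b e) f5) : False :=
  c46_5_4_ref (pt_inj (o := W.z) nd rfl) (PHs.app (h.ph rfl _) (PHs.app (gf_ph hr (cr 5) (cr_pt (n := 5) (l := [a, b, c, d, e]) (l' := []) rfl)) (gf_ph hf (c6 4 0 1 2 5) (c6_v6 rfl rfl rfl rfl rfl rfl))))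

def c46_8_n_p0 : List Nat := [
0x264003000000099065d000201,
0x28600300000009b06cc000201,
0x482600700000000200000009b01a4000301,
0x864003000000006072c000201,
0x48600300000000606cf000201,
0x86240070000000990000000080177000301,
0x642800700000000400000000a06c3000301,
0x4a2800700000000e00000009d0291000301,
0x46a2d0000000970000000930000000910000000a30793000501,
0xa842630000000970000000950000000a100000009100000008f00000009d00000000c0000000a50856000901,
0x8a641d0000000a70033000201,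
0x684a4d0000000120000000970000000950000000930000000910000000a7079f000701,
0xa48350000000140000000180000000970000000950000000910000000100000000160588000801,
0xc240d00000009100000008f0000000ab0912000401,
0xc260d00000009300000008f0000000ab091b000401,
0xc280d00000009500000008f0000000ab0927000401,
0x8c1500000009500000001a0000000ab05b5000401,
0xc62400700000009900000001c0435000301,
0xc82600700000009b00000001e0489000301,
0xca2800700000009d00000002004e3000301,
0xa864c6f0000000220000000280000000970000000950000000930000000a300000009100000009f0000000260000000ab0000000a70000000240000000bb05b8000e01,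
0xbd00000002a000200]

def c46_8_n_pf : List Nat := c46_8_n_p0

theorem c46_8_n_ref {V : Type} {S : SRel V} {p : Nat → V} (hp : ∀ i j, i < 7 → j < 7 → p i = p j → i = j)
    (hts : PHs S p 7 (mA ++ (gf (fun x => 8 + cr 5 x) rf46 ++ (gf (fun x => 8 + c6 6 0 1 2 5 x) f8)))) : False :=
  refuteS (k := 7) (n2 := 3) (n3 := 1) (n4 := 3) (o3 := 84) (o4 := 168) (M := 1386) (mA ++ (gf (fun x => 8 + cr 5 x) rf46 ++ (gf (fun x => 8 + c6 6 0 1 2 5 x) f8))) c46_8_n_pf (by decide +kernel)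
    (by decide +kernel) (by decide +kernel) (by decide +kernel) hp hts

theorem c46_8_n {V : Type} {W : Mw V} (h : W.Hy) {a b c d e u : V} (nd : [W.z, a, b, c, d, e, u].Nodup)
    (hr : Hit (mrel0 h.bs) (pt [a, b, c, d, e] W.z) rf46)
    (hf : Hit (mrel0 h.bs) (v6 W.z u W.z a b e) f8) : False :=
  c46_8_n_ref (pt_inj (o := W.z) nd rfl) (PHs.app (h.ph rfl _) (PHs.app (gf_ph hr (cr 5) (cr_pt (n := 5) (l := [a, b, c, d, e]) (l' := [u]) rfl)) (gf_ph hf (c6 6 0 1 2 5) (c6_v6 rfl rfl rfl rfl rfl rfl))))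

def c46_8_3_p0 : List Nat := [
0xab000000093000200]

def c46_8_3_pf : List Nat := c46_8_3_p0

theorem c46_8_3_ref {V : Type} {S : SRel V} {p : Nat → V} (hp : ∀ i j, i < 6 → j < 6 → p i = p j → i = j)
    (hts : PHs S p 6 (mA ++ (gf (fun x => 8 + cr 5 x) rf46 ++ (gf (fun x => 8 + c6 3 0 1 2 5 x) f8)))) : False :=
  refuteS (k := 6) (n2 := 3) (n3 := 1) (n4 := 3) (o3 := 63) (o4 := 119) (M := 812) (mA ++ (gf (fun x => 8 + cr 5 x) rf46 ++ (gf (fun x => 8 + c6 3 0 1 2 5 x) f8))) c46_8_3_pf (by decide +kernel)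
    (by decide +kernel) (by decide +kernel) (by decide +kernel) hp hts

theorem c46_8_3 {V : Type} {W : Mw V} (h : W.Hy) {a b c d e : V} (nd : [W.z, a, b, c, d, e].Nodup)
    (hr : Hit (mrel0 h.bs) (pt [a, b, c, d, e] W.z) rf46)
    (hf : Hit (mrel0 h.bs) (v6 W.z c W.z a b e) f8) : False :=
  c46_8_3_ref (pt_inj (o := W.z) nd rfl) (PHs.app (h.ph rfl _) (PHs.app (gf_ph hr (cr 5) (cr_pt (n := 5) (l := [a, b, c, d, e]) (l' := []) rfl)) (gf_ph hf (c6 3 0 1 2 5) (c6_v6 rfl rfl rfl rfl rfl rfl))))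

def c46_8_4_p0 : List Nat := [
0xab000000095000200]

def c46_8_4_pf : List Nat := c46_8_4_p0

theorem c46_8_4_ref {V : Type} {S : SRel V} {p : Nat → V} (hp : ∀ i j, i < 6 → j < 6 → p i = p j → i = j)
    (hts : PHs S p 6 (mA ++ (gf (fun x => 8 + cr 5 x) rf46 ++ (gf (fun x => 8 + c6 4 0 1 2 5 x) f8)))) : False :=
  refuteS (k := 6) (n2 := 3) (n3 := 1) (n4 := 3) (o3 := 63) (o4 := 119) (M := 812) (mA ++ (gf (fun x => 8 + cr 5 x) rf46 ++ (gf (fun x => 8 + c6 4 0 1 2 5 x) f8))) c46_8_4_pf (by decide +kernel)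
    (by decide +kernel) (by decide +kernel) (by decide +kernel) hp hts

theorem c46_8_4 {V : Type} {W : Mw V} (h : W.Hy) {a b c d e : V} (nd : [W.z, a, b, c, d, e].Nodup)
    (hr : Hit (mrel0 h.bs) (pt [a, b, c, d, e] W.z) rf46)
    (hf : Hit (mrel0 h.bs) (v6 W.z d W.z a b e) f8) : False :=
  c46_8_4_ref (pt_inj (o := W.z) nd rfl) (PHs.app (h.ph rfl _) (PHs.app (gf_ph hr (cr 5) (cr_pt (n := 5) (l := [a, b, c, d, e]) (l' := []) rfl)) (gf_ph hf (c6 4 0 1 2 5) (c6_v6 rfl rfl rfl rfl rfl rfl))))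

def c46_9_n_p0 : List Nat := [
0xa8421d0000000a50859000201,
0x6c150000000930000000a30000000ab05b2000401,
0xac461d0000000040a48000201,
0x86ca24270000000a70000000020000000060a3c000401,
0xbb000000008000200]

def c46_9_n_pf : List Nat := c46_9_n_p0

theorem c46_9_n_ref {V : Type} {S : SRel V} {p : Nat → V} (hp : ∀ i j, i < 7 → j < 7 → p i = p j → i = j)
    (hts : PHs S p 7 (mA ++ (gf (fun x => 8 + cr 5 x) rf46 ++ (gf (fun x => 8 + c6 6 0 1 2 5 x) f9)))) : False :=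
  refuteS (k := 7) (n2 := 3) (n3 := 1) (n4 := 3) (o3 := 84) (o4 := 168) (M := 1386) (mA ++ (gf (fun x => 8 + cr 5 x) rf46 ++ (gf (fun x => 8 + c6 6 0 1 2 5 x) f9))) c46_9_n_pf (by decide +kernel)
    (by decide +kernel) (by decide +kernel) (by decide +kernel) hp hts

theorem c46_9_n {V : Type} {W : Mw V} (h : W.Hy) {a b c d e u : V} (nd : [W.z, a, b, c, d, e, u].Nodup)
    (hr : Hit (mrel0 h.bs) (pt [a, b, c, d, e] W.z) rf46)
    (hf : Hit (mrel0 h.bs) (v6 W.z u W.z a b e) f9) : False :=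
  c46_9_n_ref (pt_inj (o := W.z) nd rfl) (PHs.app (h.ph rfl _) (PHs.app (gf_ph hr (cr 5) (cr_pt (n := 5) (l := [a, b, c, d, e]) (l' := [u]) rfl)) (gf_ph hf (c6 6 0 1 2 5) (c6_v6 rfl rfl rfl rfl rfl rfl))))

def c46_9_3_p0 : List Nat := [
0xab000000093000200]

def c46_9_3_pf : List Nat := c46_9_3_p0

theorem c46_9_3_ref {V : Type} {S : SRel V} {p : Nat → V} (hp : ∀ i j, i < 6 → j < 6 → p i = p j → i = j)
    (hts : PHs S p 6 (mA ++ (gf (fun x => 8 + cr 5 x) rf46 ++ (gf (fun x => 8 + c6 3 0 1 2 5 x) f9)))) : False :=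
  refuteS (k := 6) (n2 := 3) (n3 := 1) (n4 := 3) (o3 := 63) (o4 := 119) (M := 812) (mA ++ (gf (fun x => 8 + cr 5 x) rf46 ++ (gf (fun x => 8 + c6 3 0 1 2 5 x) f9))) c46_9_3_pf (by decide +kernel)
    (by decide +kernel) (by decide +kernel) (by decide +kernel) hp hts

theorem c46_9_3 {V : Type} {W : Mw V} (h : W.Hy) {a b c d e : V} (nd : [W.z, a, b, c, d, e].Nodup)
    (hr : Hit (mrel0 h.bs) (pt [a, b, c, d, e] W.z) rf46)
    (hf : Hit (mrel0 h.bs) (v6 W.z c W.z a b e) f9) : False :=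
  c46_9_3_ref (pt_inj (o := W.z) nd rfl) (PHs.app (h.ph rfl _) (PHs.app (gf_ph hr (cr 5) (cr_pt (n := 5) (l := [a, b, c, d, e]) (l' := []) rfl)) (gf_ph hf (c6 3 0 1 2 5) (c6_v6 rfl rfl rfl rfl rfl rfl))))

def c46_9_4_p0 : List Nat := [
0xab000000095000200]

def c46_9_4_pf : List Nat := c46_9_4_p0

theorem c46_9_4_ref {V : Type} {S : SRel V} {p : Nat → V} (hp : ∀ i j, i < 6 → j < 6 → p i = p j → i = j)
    (hts : PHs S p 6 (mA ++ (gf (fun x => 8 + cr 5 x) rf46 ++ (gf (fun x => 8 + c6 4 0 1 2 5 x) f9)))) : False :=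
  refuteS (k := 6) (n2 := 3) (n3 := 1) (n4 := 3) (o3 := 63) (o4 := 119) (M := 812) (mA ++ (gf (fun x => 8 + cr 5 x) rf46 ++ (gf (fun x => 8 + c6 4 0 1 2 5 x) f9))) c46_9_4_pf (by decide +kernel)
    (by decide +kernel) (by decide +kernel) (by decide +kernel) hp hts

theorem c46_9_4 {V : Type} {W : Mw V} (h : W.Hy) {a b c d e : V} (nd : [W.z, a, b, c, d, e].Nodup)
    (hr : Hit (mrel0 h.bs) (pt [a, b, c, d, e] W.z) rf46)
    (hf : Hit (mrel0 h.bs) (v6 W.z d W.z a b e) f9) : False :=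
  c46_9_4_ref (pt_inj (o := W.z) nd rfl) (PHs.app (h.ph rfl _) (PHs.app (gf_ph hr (cr 5) (cr_pt (n := 5) (l := [a, b, c, d, e]) (l' := []) rfl)) (gf_ph hf (c6 4 0 1 2 5) (c6_v6 rfl rfl rfl rfl rfl rfl))))

theorem P46_0 {V : Type} {W : Mw V} (h : W.Hy) {a b c d e u w : V} (nd : [W.z, a, b, c, d, e].Nodup)
    (hr : Hit (mrel0 h.bs) (pt [a, b, c, d, e] W.z) rf46)
    (hf : Hit (mrel0 h.bs) (v6 W.z u w a b e) f0) : False := by
  exact c46_0 h nd hr (hit00 (by decide) hf)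

theorem P46_2 {V : Type} {W : Mw V} (h : W.Hy) {a b c d e u w : V} (nd : [W.z, a, b, c, d, e].Nodup)
    (hr : Hit (mrel0 h.bs) (pt [a, b, c, d, e] W.z) rf46)
    (hf : Hit (mrel0 h.bs) (v6 W.z u w a b e) f2) : False := by
  have hf := hit01 (by decide) hf
  have hs := hn1 hf rfl
  by_cases ic : u = c
  · subst ic
    exact c46_2_3 h nd hr hf
  by_cases id : u = d
  · subst id
    exact c46_2_4 h nd hr hf
  exact c46_2_n h (nd_snoc nd (nin6 hs.1 hs.2.1 hs.2.2.1 ic id hs.2.2.2)) hr hf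

theorem P46_3 {V : Type} {W : Mw V} (h : W.Hy) {a b c d e u w : V} (nd : [W.z, a, b, c, d, e].Nodup)
    (hr : Hit (mrel0 h.bs) (pt [a, b, c, d, e] W.z) rf46)
    (hf : Hit (mrel0 h.bs) (v6 W.z u w a b e) f3) : False := by
  have hf := hit01 (by decide) hf
  have hs := hn1 hf rfl
  by_cases ic : u = c
  · subst ic
    exact c46_3_3 h nd hr hf
  by_cases id : u = d
  · subst id
    exact c46_3_4 h nd hr hf
  exact c46_3_n h (nd_snoc nd (nin6 hs.1 hs.2.1 hs.2.2.1 ic id hs.2.2.2)) hr hf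

theorem P46_4 {V : Type} {W : Mw V} (h : W.Hy) {a b c d e u w : V} (nd : [W.z, a, b, c, d, e].Nodup)
    (hr : Hit (mrel0 h.bs) (pt [a, b, c, d, e] W.z) rf46)
    (hf : Hit (mrel0 h.bs) (v6 W.z u w a b e) f4) : False := by
  have hf := hit01 (by decide) hf
  have hs := hn1 hf rfl
  by_cases ic : u = c
  · subst ic
    exact c46_4_3 h nd hr hf
  by_cases id : u = d
  · subst id
    exact c46_4_4 h nd hr hf
  exact c46_4_n h (nd_snoc nd (nin6 hs.1 hs.2.1 hs.2.2.1 ic id hs.2.2.2)) hr hf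

theorem P46_5 {V : Type} {W : Mw V} (h : W.Hy) {a b c d e u w : V} (nd : [W.z, a, b, c, d, e].Nodup)
    (hr : Hit (mrel0 h.bs) (pt [a, b, c, d, e] W.z) rf46)
    (hf : Hit (mrel0 h.bs) (v6 W.z u w a b e) f5) : False := by
  have hf := hit01 (by decide) hf
  have hs := hn1 hf rfl
  by_cases ic : u = c
  · subst ic
    exact c46_5_3 h nd hr hf
  by_cases id : u = d
  · subst id
    exact c46_5_4 h nd hr hf
  exact c46_5_n h (nd_snoc nd (nin6 hs.1 hs.2.1 hs.2.2.1 ic id hs.2.2.2)) hr hf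

theorem P46_8 {V : Type} {W : Mw V} (h : W.Hy) {a b c d e u w : V} (nd : [W.z, a, b, c, d, e].Nodup)
    (hr : Hit (mrel0 h.bs) (pt [a, b, c, d, e] W.z) rf46)
    (hf : Hit (mrel0 h.bs) (v6 W.z u w a b e) f8) : False := by
  have hf := hit01 (by decide) hf
  have hs := hn1 hf rfl
  by_cases ic : u = c
  · subst ic
    exact c46_8_3 h nd hr hf
  by_cases id : u = d
  · subst id
    exact c46_8_4 h nd hr hf
  exact c46_8_n h (nd_snoc nd (nin6 hs.1 hs.2.1 hs.2.2.1 ic id hs.2.2.2)) hr hf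

theorem P46_9 {V : Type} {W : Mw V} (h : W.Hy) {a b c d e u w : V} (nd : [W.z, a, b, c, d, e].Nodup)
    (hr : Hit (mrel0 h.bs) (pt [a, b, c, d, e] W.z) rf46)
    (hf : Hit (mrel0 h.bs) (v6 W.z u w a b e) f9) : False := by
  have hf := hit01 (by decide) hf
  have hs := hn1 hf rfl
  by_cases ic : u = c
  · subst ic
    exact c46_9_3 h nd hr hf
  by_cases id : u = d
  · subst id
    exact c46_9_4 h nd hr hf
  exact c46_9_n h (nd_snoc nd (nin6 hs.1 hs.2.1 hs.2.2.1 ic id hs.2.2.2)) hr hf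

theorem R46 {V : Type} {W : Mw V} (h : W.Hy) {a b c d e : V} (nd : [W.z, a, b, c, d, e].Nodup)
    (hr : Hit (mrel0 h.bs) (pt [a, b, c, d, e] W.z) rf46)
    (hp : FS (mrel0 h.bs) W.z fp1 a b e) : False := by
  obtain ⟨t, ht, u, w, hf⟩ := hp
  simp only [fp1, List.mem_cons, List.not_mem_nil, or_false] at ht
  rcases ht with rfl | rfl | rfl | rfl | rfl | rfl | rfl
  · exact P46_0 h nd hr hf
  · exact P46_2 h nd hr hf
  · exact P46_3 h nd hr hf
  · exact P46_4 h nd hr hf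
  · exact P46_5 h nd hr hf
  · exact P46_8 h nd hr hf
  · exact P46_9 h nd hr hf

end Pool.Agent.SOU
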