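import Pool.Agent.SOU.TB

/-! Project SOU (MP_66ba69_lc, mixed insertion): rule 48 (generated). -/

set_option autoImplicit false
set_option maxRecDepth 100000
set_option linter.unusedVariables false

namespace Pool.Agent.SOU

open Pool.Agent.RUP Pool.Agent.SOQ

def c48_0_p0 : List Nat := [
0xa86427b0000000970000000a50000000950000000a30000000a100000008f00000009100000009300000009f00000009d00000009b0000000990000000a70027000e01,
0xb7000000002000200]

def c48_0_pf : List Nat := c48_0_p0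

theorem c48_0_ref {V : Type} {S : SRel V} {p : Nat → V} (hp : ∀ i j, i < 6 → j < 6 → p i = p j → i = j)
    (hts : PHs S p 6 (mA ++ (gf (fun x => 8 + cr 5 x) rf48 ++ (gf (fun x => 8 + c6 0 0 3 4 5 x) f0)))) : False :=
  refuteS (k := 6) (n2 := 3) (n3 := 1) (n4 := 3) (o3 := 63) (o4 := 119) (M := 812) (mA ++ (gf (fun x => 8 + cr 5 x) rf48 ++ (gf (fun x => 8 + c6 0 0 3 4 5 x) f0))) c48_0_pf (by decide +kernel)
    (by decide +kernel) (by decide +kernel) (by decide +kernel) hp hts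

theorem c48_0 {V : Type} {W : Mw V} (h : W.Hy) {a b c d e : V} (nd : [W.z, a, b, c, d, e].Nodup)
    (hr : Hit (mrel0 h.bs) (pt [a, b, c, d, e] W.z) rf48)
    (hf : Hit (mrel0 h.bs) (v6 W.z W.z W.z c d e) f0) : False :=
  c48_0_ref (pt_inj (o := W.z) nd rfl) (PHs.app (h.ph rfl _) (PHs.app (gf_ph hr (cr 5) (cr_pt (n := 5) (l := [a, b, c, d, e]) (l' := []) rfl)) (gf_ph hf (c6 0 0 3 4 5) (c6_v6 rfl rfl rfl rfl rfl rfl))))

def c48_2_n_p0 : List Nat := [
0x62c0d00000009300000008f0000000ad08dc000401,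
0x286c0070000000020000000b3037e000301,
0xa8c642890000000ad0000000970000000a50000000950000000a300000008f0000000910000000930000000a700000009900000009d00000009b0000000040000000bb09d0000f01,
0xbd000000006000200]

def c48_2_n_pf : List Nat := c48_2_n_p0

theorem c48_2_n_ref {V : Type} {S : SRel V} {p : Nat → V} (hp : ∀ i j, i < 7 → j < 7 → p i = p j → i = j)
    (hts : PHs S p 7 (mA ++ (gf (fun x => 8 + cr 5 x) rf48 ++ (gf (fun x => 8 + c6 6 0 3 4 5 x) f2)))) : False :=
  refuteS (k := 7) (n2 := 3) (n3 := 1) (n4 := 3) (o3 := 84) (o4 := 168) (M := 1386) (mA ++ (gf (fun x => 8 + cr 5 x) rf48 ++ (gf (fun x => 8 + c6 6 0 3 4 5 x) f2))) c48_2_n_pf (by decide +kernel)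
    (by decide +kernel) (by decide +kernel) (by decide +kernel) hp hts

theorem c48_2_n {V : Type} {W : Mw V} (h : W.Hy) {a b c d e u : V} (nd : [W.z, a, b, c, d, e, u].Nodup)
    (hr : Hit (mrel0 h.bs) (pt [a, b, c, d, e] W.z) rf48)
    (hf : Hit (mrel0 h.bs) (v6 W.z u W.z c d e) f2) : False :=
  c48_2_n_ref (pt_inj (o := W.z) nd rfl) (PHs.app (h.ph rfl _) (PHs.app (gf_ph hr (cr 5) (cr_pt (n := 5) (l := [a, b, c, d, e]) (l' := [u]) rfl)) (gf_ph hf (c6 6 0 3 4 5) (c6_v6 rfl rfl rfl rfl rfl rfl))))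

def c48_2_1_p0 : List Nat := [
0xad00000008f000200]

def c48_2_1_pf : List Nat := c48_2_1_p0

theorem c48_2_1_ref {V : Type} {S : SRel V} {p : Nat → V} (hp : ∀ i j, i < 6 → j < 6 → p i = p j → i = j)
    (hts : PHs S p 6 (mA ++ (gf (fun x => 8 + cr 5 x) rf48 ++ (gf (fun x => 8 + c6 1 0 3 4 5 x) f2)))) : False :=
  refuteS (k := 6) (n2 := 3) (n3 := 1) (n4 := 3) (o3 := 63) (o4 := 119) (M := 812) (mA ++ (gf (fun x => 8 + cr 5 x) rf48 ++ (gf (fun x => 8 + c6 1 0 3 4 5 x) f2))) c48_2_1_pf (by decide +kernel)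
    (by decide +kernel) (by decide +kernel) (by decide +kernel) hp hts

theorem c48_2_1 {V : Type} {W : Mw V} (h : W.Hy) {a b c d e : V} (nd : [W.z, a, b, c, d, e].Nodup)
    (hr : Hit (mrel0 h.bs) (pt [a, b, c, d, e] W.z) rf48)
    (hf : Hit (mrel0 h.bs) (v6 W.z a W.z c d e) f2) : False :=
  c48_2_1_ref (pt_inj (o := W.z) nd rfl) (PHs.app (h.ph rfl _) (PHs.app (gf_ph hr (cr 5) (cr_pt (n := 5) (l := [a, b, c, d, e]) (l' := []) rfl)) (gf_ph hf (c6 1 0 3 4 5) (c6_v6 rfl rfl rfl rfl rfl rfl))))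

def c48_2_2_p0 : List Nat := [
0xad000000091000200]

def c48_2_2_pf : List Nat := c48_2_2_p0

theorem c48_2_2_ref {V : Type} {S : SRel V} {p : Nat → V} (hp : ∀ i j, i < 6 → j < 6 → p i = p j → i = j)
    (hts : PHs S p 6 (mA ++ (gf (fun x => 8 + cr 5 x) rf48 ++ (gf (fun x => 8 + c6 2 0 3 4 5 x) f2)))) : False :=
  refuteS (k := 6) (n2 := 3) (n3 := 1) (n4 := 3) (o3 := 63) (o4 := 119) (M := 812) (mA ++ (gf (fun x => 8 + cr 5 x) rf48 ++ (gf (fun x => 8 + c6 2 0 3 4 5 x) f2))) c48_2_2_pf (by decide +kernel)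
    (by decide +kernel) (by decide +kernel) (by decide +kernel) hp hts

theorem c48_2_2 {V : Type} {W : Mw V} (h : W.Hy) {a b c d e : V} (nd : [W.z, a, b, c, d, e].Nodup)
    (hr : Hit (mrel0 h.bs) (pt [a, b, c, d, e] W.z) rf48)
    (hf : Hit (mrel0 h.bs) (v6 W.z b W.z c d e) f2) : False :=
  c48_2_2_ref (pt_inj (o := W.z) nd rfl) (PHs.app (h.ph rfl _) (PHs.app (gf_ph hr (cr 5) (cr_pt (n := 5) (l := [a, b, c, d, e]) (l' := []) rfl)) (gf_ph hf (c6 2 0 3 4 5) (c6_v6 rfl rfl rfl rfl rfl rfl))))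

def c48_3_n_p0 : List Nat := [
0x6280d00000009300000008f00000009506cc000401,
0xa860b000000095000000093000000097085e000401,
0xa6400300000009b081c000201,
0x8a4600700000000400000009b01a4000301,
0x6a240070000000990000000060105000301,
0x26400300000000a065d000201,
0x284600700000000800000000c0180000301,
0xa6130000000970000000930000000a10012000401,
0x62c0d00000009300000008f0000000af08dc000401,
0xc860b0000000950000000930000000af09f3000401,
0xc82600700000000e00000001403b1000301,
0x2c680070000000020000000b303bd000301,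
0x2a6c0070000000120000000b5038d000301,
0xc862670000000af0000000180000000950000000a300000008f00000001000000009300000009f0000000160000000bb05ac000b01,
0xac6427b0000000af0000000bb00000001a0000000970000000a500000008f0000000910000000930000000a10000000a700000009b00000009900000001c05a9000e01,
0x8ca2d0000000af00000009700000009500000001e0a0f000501,
0xbd000000020000200]

def c48_3_n_pf : List Nat := c48_3_n_p0

theorem c48_3_n_ref {V : Type} {S : SRel V} {p : Nat → V} (hp : ∀ i j, i < 7 → j < 7 → p i = p j → i = j)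
    (hts : PHs S p 7 (mA ++ (gf (fun x => 8 + cr 5 x) rf48 ++ (gf (fun x => 8 + c6 6 0 3 4 5 x) f3)))) : False :=
  refuteS (k := 7) (n2 := 3) (n3 := 1) (n4 := 3) (o3 := 84) (o4 := 168) (M := 1386) (mA ++ (gf (fun x => 8 + cr 5 x) rf48 ++ (gf (fun x => 8 + c6 6 0 3 4 5 x) f3))) c48_3_n_pf (by decide +kernel)
    (by decide +kernel) (by decide +kernel) (by decide +kernel) hp hts

theorem c48_3_n {V : Type} {W : Mw V} (h : W.Hy) {a b c d e u : V} (nd : [W.z, a, b, c, d, e, u].Nodup)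
    (hr : Hit (mrel0 h.bs) (pt [a, b, c, d, e] W.z) rf48)
    (hf : Hit (mrel0 h.bs) (v6 W.z u W.z c d e) f3) : False :=
  c48_3_n_ref (pt_inj (o := W.z) nd rfl) (PHs.app (h.ph rfl _) (PHs.app (gf_ph hr (cr 5) (cr_pt (n := 5) (l := [a, b, c, d, e]) (l' := [u]) rfl)) (gf_ph hf (c6 6 0 3 4 5) (c6_v6 rfl rfl rfl rfl rfl rfl))))

def c48_3_1_p0 : List Nat := [
0xaf00000008f000200]

def c48_3_1_pf : List Nat := c48_3_1_p0

theorem c48_3_1_ref {V : Type} {S : SRel V} {p : Nat → V} (hp : ∀ i j, i < 6 → j < 6 → p i = p j → i = j)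
    (hts : PHs S p 6 (mA ++ (gf (fun x => 8 + cr 5 x) rf48 ++ (gf (fun x => 8 + c6 1 0 3 4 5 x) f3)))) : False :=
  refuteS (k := 6) (n2 := 3) (n3 := 1) (n4 := 3) (o3 := 63) (o4 := 119) (M := 812) (mA ++ (gf (fun x => 8 + cr 5 x) rf48 ++ (gf (fun x => 8 + c6 1 0 3 4 5 x) f3))) c48_3_1_pf (by decide +kernel)
    (by decide +kernel) (by decide +kernel) (by decide +kernel) hp hts

theorem c48_3_1 {V : Type} {W : Mw V} (h : W.Hy) {a b c d e : V} (nd : [W.z, a, b, c, d, e].Nodup)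
    (hr : Hit (mrel0 h.bs) (pt [a, b, c, d, e] W.z) rf48)
    (hf : Hit (mrel0 h.bs) (v6 W.z a W.z c d e) f3) : False :=
  c48_3_1_ref (pt_inj (o := W.z) nd rfl) (PHs.app (h.ph rfl _) (PHs.app (gf_ph hr (cr 5) (cr_pt (n := 5) (l := [a, b, c, d, e]) (l' := []) rfl)) (gf_ph hf (c6 1 0 3 4 5) (c6_v6 rfl rfl rfl rfl rfl rfl))))

def c48_3_2_p0 : List Nat := [
0xaf000000091000200]

def c48_3_2_pf : List Nat := c48_3_2_p0

theorem c48_3_2_ref {V : Type} {S : SRel V} {p : Nat → V} (hp : ∀ i j, i < 6 → j < 6 → p i = p j → i = j)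
    (hts : PHs S p 6 (mA ++ (gf (fun x => 8 + cr 5 x) rf48 ++ (gf (fun x => 8 + c6 2 0 3 4 5 x) f3)))) : False :=
  refuteS (k := 6) (n2 := 3) (n3 := 1) (n4 := 3) (o3 := 63) (o4 := 119) (M := 812) (mA ++ (gf (fun x => 8 + cr 5 x) rf48 ++ (gf (fun x => 8 + c6 2 0 3 4 5 x) f3))) c48_3_2_pf (by decide +kernel)
    (by decide +kernel) (by decide +kernel) (by decide +kernel) hp hts

theorem c48_3_2 {V : Type} {W : Mw V} (h : W.Hy) {a b c d e : V} (nd : [W.z, a, b, c, d, e].Nodup)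
    (hr : Hit (mrel0 h.bs) (pt [a, b, c, d, e] W.z) rf48)
    (hf : Hit (mrel0 h.bs) (v6 W.z b W.z c d e) f3) : False :=
  c48_3_2_ref (pt_inj (o := W.z) nd rfl) (PHs.app (h.ph rfl _) (PHs.app (gf_ph hr (cr 5) (cr_pt (n := 5) (l := [a, b, c, d, e]) (l' := []) rfl)) (gf_ph hf (c6 2 0 3 4 5) (c6_v6 rfl rfl rfl rfl rfl rfl))))

def c48_4_n_p0 : List Nat := [
0x62a0d00000009300000008f000000097078f000401,
0xa840b0000000950000000910000000970855000401,
0xa860b000000095000000093000000097085e000401,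
0x8a240070000000040000000990177000301,
0xa6400300000009b081c000201,
0x8a4600700000000600000009b01a4000301,
0x6a2400700000009900000000a0105000301,
0xa6150000000970000000930000000a1002d000401,
0x68c21d0000000a30931000201,
0xca641d0000000a50a48000201,
0x6422f00000009300000008f0000000910000000a70009000501,
0x4623300000009300000008f0000000910000000a70015000501,
0xa842670000000970000000a50000000950000000a300000008f00000009f00000009100000009d000000099000000016059a000b01,
0x62c0d00000009300000008f0000000b108dc000401,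
0xc840b0000000950000000910000000b109ea000401,
0xc860b0000000950000000930000000b109f3000401,
0xc40620700000000e00000001c03f9000301,
0xc82400700000000800000001e03a8000301,
0xc84600700000000c00000002003f6000301,
0x2c6a0070000000020000000b503cc000301,
0xca6427f0000000b10000000970000000a500000008f0000000910000000930000000100000000a700000002400000002600000002809a3000c01,
0xa82c46270000000140000000120000000bd0922000401,
0xca8642890000000b10000000bb00000009700000001a00000009500000008f0000000910000000930000000a700000009d0000000280000000240000000260000000bd0045000f01,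
0xc4621f00000002a00000002200000001800000002c00000002e000600]

def c48_4_n_pf : List Nat := c48_4_n_p0

theorem c48_4_n_ref {V : Type} {S : SRel V} {p : Nat → V} (hp : ∀ i j, i < 7 → j < 7 → p i = p j → i = j)
    (hts : PHs S p 7 (mA ++ (gf (fun x => 8 + cr 5 x) rf48 ++ (gf (fun x => 8 + c6 6 0 3 4 5 x) f4)))) : False :=
  refuteS (k := 7) (n2 := 3) (n3 := 1) (n4 := 3) (o3 := 84) (o4 := 168) (M := 1386) (mA ++ (gf (fun x => 8 + cr 5 x) rf48 ++ (gf (fun x => 8 + c6 6 0 3 4 5 x) f4))) c48_4_n_pf (by decide +kernel)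
    (by decide +kernel) (by decide +kernel) (by decide +kernel) hp hts

theorem c48_4_n {V : Type} {W : Mw V} (h : W.Hy) {a b c d e u : V} (nd : [W.z, a, b, c, d, e, u].Nodup)
    (hr : Hit (mrel0 h.bs) (pt [a, b, c, d, e] W.z) rf48)
    (hf : Hit (mrel0 h.bs) (v6 W.z u W.z c d e) f4) : False :=
  c48_4_n_ref (pt_inj (o := W.z) nd rfl) (PHs.app (h.ph rfl _) (PHs.app (gf_ph hr (cr 5) (cr_pt (n := 5) (l := [a, b, c, d, e]) (l' := [u]) rfl)) (gf_ph hf (c6 6 0 3 4 5) (c6_v6 rfl rfl rfl rfl rfl rfl))))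

def c48_4_1_p0 : List Nat := [
0xb100000008f000200]

def c48_4_1_pf : List Nat := c48_4_1_p0

theorem c48_4_1_ref {V : Type} {S : SRel V} {p : Nat → V} (hp : ∀ i j, i < 6 → j < 6 → p i = p j → i = j)
    (hts : PHs S p 6 (mA ++ (gf (fun x => 8 + cr 5 x) rf48 ++ (gf (fun x => 8 + c6 1 0 3 4 5 x) f4)))) : False :=
  refuteS (k := 6) (n2 := 3) (n3 := 1) (n4 := 3) (o3 := 63) (o4 := 119) (M := 812) (mA ++ (gf (fun x => 8 + cr 5 x) rf48 ++ (gf (fun x => 8 + c6 1 0 3 4 5 x) f4))) c48_4_1_pf (by decide +kernel)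
    (by decide +kernel) (by decide +kernel) (by decide +kernel) hp hts

theorem c48_4_1 {V : Type} {W : Mw V} (h : W.Hy) {a b c d e : V} (nd : [W.z, a, b, c, d, e].Nodup)
    (hr : Hit (mrel0 h.bs) (pt [a, b, c, d, e] W.z) rf48)
    (hf : Hit (mrel0 h.bs) (v6 W.z a W.z c d e) f4) : False :=
  c48_4_1_ref (pt_inj (o := W.z) nd rfl) (PHs.app (h.ph rfl _) (PHs.app (gf_ph hr (cr 5) (cr_pt (n := 5) (l := [a, b, c, d, e]) (l' := []) rfl)) (gf_ph hf (c6 1 0 3 4 5) (c6_v6 rfl rfl rfl rfl rfl rfl))))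

def c48_4_2_p0 : List Nat := [
0xb1000000091000200]

def c48_4_2_pf : List Nat := c48_4_2_p0

theorem c48_4_2_ref {V : Type} {S : SRel V} {p : Nat → V} (hp : ∀ i j, i < 6 → j < 6 → p i = p j → i = j)
    (hts : PHs S p 6 (mA ++ (gf (fun x => 8 + cr 5 x) rf48 ++ (gf (fun x => 8 + c6 2 0 3 4 5 x) f4)))) : False :=
  refuteS (k := 6) (n2 := 3) (n3 := 1) (n4 := 3) (o3 := 63) (o4 := 119) (M := 812) (mA ++ (gf (fun x => 8 + cr 5 x) rf48 ++ (gf (fun x => 8 + c6 2 0 3 4 5 x) f4))) c48_4_2_pf (by decide +kernel)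
    (by decide +kernel) (by decide +kernel) (by decide +kernel) hp hts

theorem c48_4_2 {V : Type} {W : Mw V} (h : W.Hy) {a b c d e : V} (nd : [W.z, a, b, c, d, e].Nodup)
    (hr : Hit (mrel0 h.bs) (pt [a, b, c, d, e] W.z) rf48)
    (hf : Hit (mrel0 h.bs) (v6 W.z b W.z c d e) f4) : False :=
  c48_4_2_ref (pt_inj (o := W.z) nd rfl) (PHs.app (h.ph rfl _) (PHs.app (gf_ph hr (cr 5) (cr_pt (n := 5) (l := [a, b, c, d, e]) (l' := []) rfl)) (gf_ph hf (c6 2 0 3 4 5) (c6_v6 rfl rfl rfl rfl rfl rfl))))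

def c48_5_n_p0 : List Nat := [
0x6280d00000009300000008f00000009506cc000401,
0xa820b00000009500000008f000000097084f000401,
0xc8a21d0000000a30a12000201,
0x6422f00000009300000008f0000000910000000a70009000501,
0xa842670000000970000000a50000000950000000a300000008f00000009f00000009100000009d000000099000000008059a000b01,
0xca821d00000000a0a51000201,
0x62c0d00000009300000008f0000000af08dc000401,
0x6c80030000000b308ee000201,
0x2c680070000000020000000b303bd000301,
0x2a6c00700000000e0000000b5038d000301,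
0x8a6c0070000000100000000b50396000301,
0x2c0a80700000000400000001603d8000301,
0xc8a310000000af0000000970000000950000000bb0039000501,
0xa8c21f00000000c00000000600000001800000001a05ac000501,
0xac8642890000000af0000000bb0000000970000000a500000009500000008f0000000910000000930000000a700000009900000009b00000001400000001200000001c0a57000f01,
0xbd00000001e000200]

def c48_5_n_pf : List Nat := c48_5_n_p0

theorem c48_5_n_ref {V : Type} {S : SRel V} {p : Nat → V} (hp : ∀ i j, i < 7 → j < 7 → p i = p j → i = j)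
    (hts : PHs S p 7 (mA ++ (gf (fun x => 8 + cr 5 x) rf48 ++ (gf (fun x => 8 + c6 6 0 3 4 5 x) f5)))) : False :=
  refuteS (k := 7) (n2 := 3) (n3 := 1) (n4 := 3) (o3 := 84) (o4 := 168) (M := 1386) (mA ++ (gf (fun x => 8 + cr 5 x) rf48 ++ (gf (fun x => 8 + c6 6 0 3 4 5 x) f5))) c48_5_n_pf (by decide +kernel)
    (by decide +kernel) (by decide +kernel) (by decide +kernel) hp hts

theorem c48_5_n {V : Type} {W : Mw V} (h : W.Hy) {a b c d e u : V} (nd : [W.z, a, b, c, d, e, u].Nodup)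
    (hr : Hit (mrel0 h.bs) (pt [a, b, c, d, e] W.z) rf48)
    (hf : Hit (mrel0 h.bs) (v6 W.z u W.z c d e) f5) : False :=
  c48_5_n_ref (pt_inj (o := W.z) nd rfl) (PHs.app (h.ph rfl _) (PHs.app (gf_ph hr (cr 5) (cr_pt (n := 5) (l := [a, b, c, d, e]) (l' := [u]) rfl)) (gf_ph hf (c6 6 0 3 4 5) (c6_v6 rfl rfl rfl rfl rfl rfl))))

def c48_5_1_p0 : List Nat := [
0xaf00000008f000200]

def c48_5_1_pf : List Nat := c48_5_1_p0

theorem c48_5_1_ref {V : Type} {S : SRel V} {p : Nat → V} (hp : ∀ i j, i < 6 → j < 6 → p i = p j → i = j)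
    (hts : PHs S p 6 (mA ++ (gf (fun x => 8 + cr 5 x) rf48 ++ (gf (fun x => 8 + c6 1 0 3 4 5 x) f5)))) : False :=
  refuteS (k := 6) (n2 := 3) (n3 := 1) (n4 := 3) (o3 := 63) (o4 := 119) (M := 812) (mA ++ (gf (fun x => 8 + cr 5 x) rf48 ++ (gf (fun x => 8 + c6 1 0 3 4 5 x) f5))) c48_5_1_pf (by decide +kernel)
    (by decide +kernel) (by decide +kernel) (by decide +kernel) hp hts

theorem c48_5_1 {V : Type} {W : Mw V} (h : W.Hy) {a b c d e : V} (nd : [W.z, a, b, c, d, e].Nodup)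
    (hr : Hit (mrel0 h.bs) (pt [a, b, c, d, e] W.z) rf48)
    (hf : Hit (mrel0 h.bs) (v6 W.z a W.z c d e) f5) : False :=
  c48_5_1_ref (pt_inj (o := W.z) nd rfl) (PHs.app (h.ph rfl _) (PHs.app (gf_ph hr (cr 5) (cr_pt (n := 5) (l := [a, b, c, d, e]) (l' := []) rfl)) (gf_ph hf (c6 1 0 3 4 5) (c6_v6 rfl rfl rfl rfl rfl rfl))))

def c48_5_2_p0 : List Nat := [
0xaf000000091000200]

def c48_5_2_pf : List Nat := c48_5_2_p0

theorem c48_5_2_ref {V : Type} {S : SRel V} {p : Nat → V} (hp : ∀ i j, i < 6 → j < 6 → p i = p j → i = j)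
    (hts : PHs S p 6 (mA ++ (gf (fun x => 8 + cr 5 x) rf48 ++ (gf (fun x => 8 + c6 2 0 3 4 5 x) f5)))) : False :=
  refuteS (k := 6) (n2 := 3) (n3 := 1) (n4 := 3) (o3 := 63) (o4 := 119) (M := 812) (mA ++ (gf (fun x => 8 + cr 5 x) rf48 ++ (gf (fun x => 8 + c6 2 0 3 4 5 x) f5))) c48_5_2_pf (by decide +kernel)
    (by decide +kernel) (by decide +kernel) (by decide +kernel) hp hts

theorem c48_5_2 {V : Type} {W : Mw V} (h : W.Hy) {a b c d e : V} (nd : [W.z, a, b, c, d, e].Nodup)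
    (hr : Hit (mrel0 h.bs) (pt [a, b, c, d, e] W.z) rf48)
    (hf : Hit (mrel0 h.bs) (v6 W.z b W.z c d e) f5) : False :=
  c48_5_2_ref (pt_inj (o := W.z) nd rfl) (PHs.app (h.ph rfl _) (PHs.app (gf_ph hr (cr 5) (cr_pt (n := 5) (l := [a, b, c, d, e]) (l' := []) rfl)) (gf_ph hf (c6 2 0 3 4 5) (c6_v6 rfl rfl rfl rfl rfl rfl))))

def c48_8_n_p0 : List Nat := [
0x62a0d00000009300000008f000000097078f000401,
0xa4200300000009907e0000201,
0x260a40700000000400000009b0288000301,
0x4a620300000000607c2000201,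
0x640a2070000000990000000080252000301,
0x2ac41d0000000a5097f000201,
0x6422f00000009300000008f0000000910000000a70009000501,
0x6423300000009300000008f0000000910000000a7000c000501,
0x4623300000009300000008f0000000910000000a70015000501,
0xa842670000000970000000a50000000950000000a300000008f00000009f00000009100000009d00000009900000000e059a000b01,
0x4ac21d000000014093d000201,
0x6ac21d0000000140940000201,
0xc280d00000009500000008f0000000ab0927000401,
0xc4a0d0000000970000000910000000ab097b000401,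
0xca2800700000009d00000001a04e3000301,
0xac130000000ab0000000970000000bd003f000401,
0xca421f00000000c0000000160000000100000000bd0a3b000501,
0xa84c670000000bb0000000970000000a500000009500000000e00000009100000009f00000001e0000000ab0000000bd0a38000b01,
0x420ca070000000220000000240a32000301,
0xca400100000001c0000000240390000301,
0x260ca070000000b300000002604da000301,
0xa8c427b0000000bb0000000970000000a50000000950000000a300000008f00000009100000009f0000000bd0000000ab00000009900000009d0000000280952000e01,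
0xca620700000000200000002a0372000301,
0xca621f0000000bd00000001800000001200000002a045d000501,
0xc6423f0000000ab00000008f0000000910000000930000000a700000002c099a000701,
0x62c3700000003200000002000000008f0000000120000000930000000ab00000002e03b2000801,
0xac265100000009700000008f0000000930000000ab00000000a000000034000000030000800]

def c48_8_n_pf : List Nat := c48_8_n_p0

theorem c48_8_n_ref {V : Type} {S : SRel V} {p : Nat → V} (hp : ∀ i j, i < 7 → j < 7 → p i = p j → i = j)
    (hts : PHs S p 7 (mA ++ (gf (fun x => 8 + cr 5 x) rf48 ++ (gf (fun x => 8 + c6 6 0 3 4 5 x) f8)))) : False :=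
  refuteS (k := 7) (n2 := 3) (n3 := 1) (n4 := 3) (o3 := 84) (o4 := 168) (M := 1386) (mA ++ (gf (fun x => 8 + cr 5 x) rf48 ++ (gf (fun x => 8 + c6 6 0 3 4 5 x) f8))) c48_8_n_pf (by decide +kernel)
    (by decide +kernel) (by decide +kernel) (by decide +kernel) hp hts

theorem c48_8_n {V : Type} {W : Mw V} (h : W.Hy) {a b c d e u : V} (nd : [W.z, a, b, c, d, e, u].Nodup)
    (hr : Hit (mrel0 h.bs) (pt [a, b, c, d, e] W.z) rf48)
    (hf : Hit (mrel0 h.bs) (v6 W.z u W.z c d e) f8) : False :=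
  c48_8_n_ref (pt_inj (o := W.z) nd rfl) (PHs.app (h.ph rfl _) (PHs.app (gf_ph hr (cr 5) (cr_pt (n := 5) (l := [a, b, c, d, e]) (l' := [u]) rfl)) (gf_ph hf (c6 6 0 3 4 5) (c6_v6 rfl rfl rfl rfl rfl rfl))))

def c48_8_1_p0 : List Nat := [
0x6422f00000009300000008f0000000910000000a70009000501,
0xa842670000000970000000a50000000950000000a300000008f00000009f00000009100000009d000000099000000002035c000b01,
0xbd000000004000200]

def c48_8_1_pf : List Nat := c48_8_1_p0

theorem c48_8_1_ref {V : Type} {S : SRel V} {p : Nat → V} (hp : ∀ i j, i < 6 → j < 6 → p i = p j → i = j)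
    (hts : PHs S p 6 (mA ++ (gf (fun x => 8 + cr 5 x) rf48 ++ (gf (fun x => 8 + c6 1 0 3 4 5 x) f8)))) : False :=
  refuteS (k := 6) (n2 := 3) (n3 := 1) (n4 := 3) (o3 := 63) (o4 := 119) (M := 812) (mA ++ (gf (fun x => 8 + cr 5 x) rf48 ++ (gf (fun x => 8 + c6 1 0 3 4 5 x) f8))) c48_8_1_pf (by decide +kernel)
    (by decide +kernel) (by decide +kernel) (by decide +kernel) hp hts

theorem c48_8_1 {V : Type} {W : Mw V} (h : W.Hy) {a b c d e : V} (nd : [W.z, a, b, c, d, e].Nodup)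
    (hr : Hit (mrel0 h.bs) (pt [a, b, c, d, e] W.z) rf48)
    (hf : Hit (mrel0 h.bs) (v6 W.z a W.z c d e) f8) : False :=
  c48_8_1_ref (pt_inj (o := W.z) nd rfl) (PHs.app (h.ph rfl _) (PHs.app (gf_ph hr (cr 5) (cr_pt (n := 5) (l := [a, b, c, d, e]) (l' := []) rfl)) (gf_ph hf (c6 1 0 3 4 5) (c6_v6 rfl rfl rfl rfl rfl rfl))))

def c48_8_2_p0 : List Nat := [
0xbd0000000a5000200]

def c48_8_2_pf : List Nat := c48_8_2_p0

theorem c48_8_2_ref {V : Type} {S : SRel V} {p : Nat → V} (hp : ∀ i j, i < 6 → j < 6 → p i = p j → i = j)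
    (hts : PHs S p 6 (mA ++ (gf (fun x => 8 + cr 5 x) rf48 ++ (gf (fun x => 8 + c6 2 0 3 4 5 x) f8)))) : False :=
  refuteS (k := 6) (n2 := 3) (n3 := 1) (n4 := 3) (o3 := 63) (o4 := 119) (M := 812) (mA ++ (gf (fun x => 8 + cr 5 x) rf48 ++ (gf (fun x => 8 + c6 2 0 3 4 5 x) f8))) c48_8_2_pf (by decide +kernel)
    (by decide +kernel) (by decide +kernel) (by decide +kernel) hp hts

theorem c48_8_2 {V : Type} {W : Mw V} (h : W.Hy) {a b c d e : V} (nd : [W.z, a, b, c, d, e].Nodup)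
    (hr : Hit (mrel0 h.bs) (pt [a, b, c, d, e] W.z) rf48)
    (hf : Hit (mrel0 h.bs) (v6 W.z b W.z c d e) f8) : False :=
  c48_8_2_ref (pt_inj (o := W.z) nd rfl) (PHs.app (h.ph rfl _) (PHs.app (gf_ph hr (cr 5) (cr_pt (n := 5) (l := [a, b, c, d, e]) (l' := []) rfl)) (gf_ph hf (c6 2 0 3 4 5) (c6_v6 rfl rfl rfl rfl rfl rfl))))

def c48_9_n_p0 : List Nat := [
0x6280d00000009300000008f00000009506cc000401,
0xa820b00000009500000008f000000097084f000401,
0xa860b000000095000000093000000097085e000401,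
0xa4200300000009907e0000201,
0xa84200700000000400000000806ff000301,
0x8a4600700000000600000009b01a4000301,
0x260a40700000000800000009b0288000301,
0x260840700000000a00000000c01a7000301,
0x4a620300000000e07c2000201,
0x640a2070000000990000000120252000301,
0x68c21d0000000a30931000201,
0xca641d0000000a50a48000201,
0x6422f00000009300000008f0000000910000000a70009000501,
0x4623300000009300000008f0000000910000000a70015000501,
0xa842670000000970000000a50000000950000000a300000008f00000009f00000009100000009d00000009900000001a059a000b01,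
0xca821d00000001e0a51000201,
0xca260050000000140000000b3091b000301,
0xca4600500000009b0000000b30960000301,
0xac861d0000000bb0048000201,
0xac681d0000000bb004b000201,
0xa6c28250000000200000000bb09b8000301,
0xa82c46270000000180000000160000000bb0922000401,
0xc8621f00000002a00000001600000001c00000002809f6000501,
0xc264470000000ab00000008f0000000910000000930000000a700000002c08e0000701,
0x8c0620700000000200000002e08dc000301,
0xc84620700000001000000002e03f9000301,
0xc62001000000022000000032042f000301,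
0xc6420300000003409a2000201,
0x62c40700000002400000003403e7000301,
0x420c6070000000380000000360435000301,
0xc422b00000008f0000000910000000ab00000003a0952000501,
0xc643700000003000000002600000001a0000000910000000930000000ab00000003c03f7000801,
0xc6424b0000000ab00000008f0000000910000000930000000a700000003e000000040000800]

def c48_9_n_pf : List Nat := c48_9_n_p0

theorem c48_9_n_ref {V : Type} {S : SRel V} {p : Nat → V} (hp : ∀ i j, i < 7 → j < 7 → p i = p j → i = j)
    (hts : PHs S p 7 (mA ++ (gf (fun x => 8 + cr 5 x) rf48 ++ (gf (fun x => 8 + c6 6 0 3 4 5 x) f9)))) : False :=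
  refuteS (k := 7) (n2 := 3) (n3 := 1) (n4 := 3) (o3 := 84) (o4 := 168) (M := 1386) (mA ++ (gf (fun x => 8 + cr 5 x) rf48 ++ (gf (fun x => 8 + c6 6 0 3 4 5 x) f9))) c48_9_n_pf (by decide +kernel)
    (by decide +kernel) (by decide +kernel) (by decide +kernel) hp hts

theorem c48_9_n {V : Type} {W : Mw V} (h : W.Hy) {a b c d e u : V} (nd : [W.z, a, b, c, d, e, u].Nodup)
    (hr : Hit (mrel0 h.bs) (pt [a, b, c, d, e] W.z) rf48)
    (hf : Hit (mrel0 h.bs) (v6 W.z u W.z c d e) f9) : False :=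
  c48_9_n_ref (pt_inj (o := W.z) nd rfl) (PHs.app (h.ph rfl _) (PHs.app (gf_ph hr (cr 5) (cr_pt (n := 5) (l := [a, b, c, d, e]) (l' := [u]) rfl)) (gf_ph hf (c6 6 0 3 4 5) (c6_v6 rfl rfl rfl rfl rfl rfl))))

def c48_9_1_p0 : List Nat := [
0x68a21d0000000a30563000201,
0xbb000000002000200]

def c48_9_1_pf : List Nat := c48_9_1_p0

theorem c48_9_1_ref {V : Type} {S : SRel V} {p : Nat → V} (hp : ∀ i j, i < 6 → j < 6 → p i = p j → i = j)
    (hts : PHs S p 6 (mA ++ (gf (fun x => 8 + cr 5 x) rf48 ++ (gf (fun x => 8 + c6 1 0 3 4 5 x) f9)))) : False :=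
  refuteS (k := 6) (n2 := 3) (n3 := 1) (n4 := 3) (o3 := 63) (o4 := 119) (M := 812) (mA ++ (gf (fun x => 8 + cr 5 x) rf48 ++ (gf (fun x => 8 + c6 1 0 3 4 5 x) f9))) c48_9_1_pf (by decide +kernel)
    (by decide +kernel) (by decide +kernel) (by decide +kernel) hp hts

theorem c48_9_1 {V : Type} {W : Mw V} (h : W.Hy) {a b c d e : V} (nd : [W.z, a, b, c, d, e].Nodup)
    (hr : Hit (mrel0 h.bs) (pt [a, b, c, d, e] W.z) rf48)
    (hf : Hit (mrel0 h.bs) (v6 W.z a W.z c d e) f9) : False :=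
  c48_9_1_ref (pt_inj (o := W.z) nd rfl) (PHs.app (h.ph rfl _) (PHs.app (gf_ph hr (cr 5) (cr_pt (n := 5) (l := [a, b, c, d, e]) (l' := []) rfl)) (gf_ph hf (c6 1 0 3 4 5) (c6_v6 rfl rfl rfl rfl rfl rfl))))

def c48_9_2_p0 : List Nat := [
0xa820b00000009500000008f00000009705e0000401,
0xa840b00000009500000009100000009705e6000401,
0xa860b00000009500000009300000009705ef000401,
0xa420030000000990571000201,
0x8a240070000000040000000990146000301,
0xa8420070000000020000000080490000301,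
0x8a4600700000000600000009b0173000301,
0x260840700000000c00000000e0176000301,
0x2a800300000009d052c000201,
0xa40820700000000a0000000120263000301,
0xa4821b0000000140590000201,
0x68421d0000000a304c1000201,
0x4623300000009300000008f0000000910000000a70015000501,
0x68a41d0000000bb0024000201,
0x268a4250000000160000000bb0482000301,
0x84621f00000001800000001a00000001000000001e00000001c000600]

def c48_9_2_pf : List Nat := c48_9_2_p0

theorem c48_9_2_ref {V : Type} {S : SRel V} {p : Nat → V} (hp : ∀ i j, i < 6 → j < 6 → p i = p j → i = j)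
    (hts : PHs S p 6 (mA ++ (gf (fun x => 8 + cr 5 x) rf48 ++ (gf (fun x => 8 + c6 2 0 3 4 5 x) f9)))) : False :=
  refuteS (k := 6) (n2 := 3) (n3 := 1) (n4 := 3) (o3 := 63) (o4 := 119) (M := 812) (mA ++ (gf (fun x => 8 + cr 5 x) rf48 ++ (gf (fun x => 8 + c6 2 0 3 4 5 x) f9))) c48_9_2_pf (by decide +kernel)
    (by decide +kernel) (by decide +kernel) (by decide +kernel) hp hts

theorem c48_9_2 {V : Type} {W : Mw V} (h : W.Hy) {a b c d e : V} (nd : [W.z, a, b, c, d, e].Nodup)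
    (hr : Hit (mrel0 h.bs) (pt [a, b, c, d, e] W.z) rf48)
    (hf : Hit (mrel0 h.bs) (v6 W.z b W.z c d e) f9) : False :=
  c48_9_2_ref (pt_inj (o := W.z) nd rfl) (PHs.app (h.ph rfl _) (PHs.app (gf_ph hr (cr 5) (cr_pt (n := 5) (l := [a, b, c, d, e]) (l' := []) rfl)) (gf_ph hf (c6 2 0 3 4 5) (c6_v6 rfl rfl rfl rfl rfl rfl))))

theorem P48_0 {V : Type} {W : Mw V} (h : W.Hy) {a b c d e u w : V} (nd : [W.z, a, b, c, d, e].Nodup)
    (hr : Hit (mrel0 h.bs) (pt [a, b, c, d, e] W.z) rf48)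
    (hf : Hit (mrel0 h.bs) (v6 W.z u w c d e) f0) : False := by
  exact c48_0 h nd hr (hit00 (by decide) hf)

theorem P48_2 {V : Type} {W : Mw V} (h : W.Hy) {a b c d e u w : V} (nd : [W.z, a, b, c, d, e].Nodup)
    (hr : Hit (mrel0 h.bs) (pt [a, b, c, d, e] W.z) rf48)
    (hf : Hit (mrel0 h.bs) (v6 W.z u w c d e) f2) : False := by
  have hf := hit01 (by decide) hf
  have hs := hn1 hf rfl
  by_cases ia : u = a
  · subst ia
    exact c48_2_1 h nd hr hf
  by_cases ib : u = b
  · subst ib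
    exact c48_2_2 h nd hr hf
  exact c48_2_n h (nd_snoc nd (nin6 hs.1 ia ib hs.2.1 hs.2.2.1 hs.2.2.2)) hr hf

theorem P48_3 {V : Type} {W : Mw V} (h : W.Hy) {a b c d e u w : V} (nd : [W.z, a, b, c, d, e].Nodup)
    (hr : Hit (mrel0 h.bs) (pt [a, b, c, d, e] W.z) rf48)
    (hf : Hit (mrel0 h.bs) (v6 W.z u w c d e) f3) : False := by
  have hf := hit01 (by decide) hf
  have hs := hn1 hf rfl
  by_cases ia : u = a
  · subst ia
    exact c48_3_1 h nd hr hf
  by_cases ib : u = b
  · subst ib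
    exact c48_3_2 h nd hr hf
  exact c48_3_n h (nd_snoc nd (nin6 hs.1 ia ib hs.2.1 hs.2.2.1 hs.2.2.2)) hr hf

theorem P48_4 {V : Type} {W : Mw V} (h : W.Hy) {a b c d e u w : V} (nd : [W.z, a, b, c, d, e].Nodup)
    (hr : Hit (mrel0 h.bs) (pt [a, b, c, d, e] W.z) rf48)
    (hf : Hit (mrel0 h.bs) (v6 W.z u w c d e) f4) : False := by
  have hf := hit01 (by decide) hf
  have hs := hn1 hf rfl
  by_cases ia : u = a
  · subst ia
    exact c48_4_1 h nd hr hf
  by_cases ib : u = b
  · subst ib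
    exact c48_4_2 h nd hr hf
  exact c48_4_n h (nd_snoc nd (nin6 hs.1 ia ib hs.2.1 hs.2.2.1 hs.2.2.2)) hr hf

theorem P48_5 {V : Type} {W : Mw V} (h : W.Hy) {a b c d e u w : V} (nd : [W.z, a, b, c, d, e].Nodup)
    (hr : Hit (mrel0 h.bs) (pt [a, b, c, d, e] W.z) rf48)
    (hf : Hit (mrel0 h.bs) (v6 W.z u w c d e) f5) : False := by
  have hf := hit01 (by decide) hf
  have hs := hn1 hf rfl
  by_cases ia : u = a
  · subst ia
    exact c48_5_1 h nd hr hf
  by_cases ib : u = b
  · subst ib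
    exact c48_5_2 h nd hr hf
  exact c48_5_n h (nd_snoc nd (nin6 hs.1 ia ib hs.2.1 hs.2.2.1 hs.2.2.2)) hr hf

theorem P48_8 {V : Type} {W : Mw V} (h : W.Hy) {a b c d e u w : V} (nd : [W.z, a, b, c, d, e].Nodup)
    (hr : Hit (mrel0 h.bs) (pt [a, b, c, d, e] W.z) rf48)
    (hf : Hit (mrel0 h.bs) (v6 W.z u w c d e) f8) : False := by
  have hf := hit01 (by decide) hf
  have hs := hn1 hf rfl
  by_cases ia : u = a
  · subst ia
    exact c48_8_1 h nd hr hf
  by_cases ib : u = b
  · subst ib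
    exact c48_8_2 h nd hr hf
  exact c48_8_n h (nd_snoc nd (nin6 hs.1 ia ib hs.2.1 hs.2.2.1 hs.2.2.2)) hr hf

theorem P48_9 {V : Type} {W : Mw V} (h : W.Hy) {a b c d e u w : V} (nd : [W.z, a, b, c, d, e].Nodup)
    (hr : Hit (mrel0 h.bs) (pt [a, b, c, d, e] W.z) rf48)
    (hf : Hit (mrel0 h.bs) (v6 W.z u w c d e) f9) : False := by
  have hf := hit01 (by decide) hf
  have hs := hn1 hf rfl
  by_cases ia : u = a
  · subst ia
    exact c48_9_1 h nd hr hf
  by_cases ib : u = b
  · subst ib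
    exact c48_9_2 h nd hr hf
  exact c48_9_n h (nd_snoc nd (nin6 hs.1 ia ib hs.2.1 hs.2.2.1 hs.2.2.2)) hr hf

theorem R48 {V : Type} {W : Mw V} (h : W.Hy) {a b c d e : V} (nd : [W.z, a, b, c, d, e].Nodup)
    (hr : Hit (mrel0 h.bs) (pt [a, b, c, d, e] W.z) rf48)
    (hp : FS (mrel0 h.bs) W.z fp1 c d e) : False := by
  obtain ⟨t, ht, u, w, hf⟩ := hp
  simp only [fp1, List.mem_cons, List.not_mem_nil, or_false] at ht
  rcases ht with rfl | rfl | rfl | rfl | rfl | rfl | rfl
  · exact P48_0 h nd hr hf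
  · exact P48_2 h nd hr hf
  · exact P48_3 h nd hr hf
  · exact P48_4 h nd hr hf
  · exact P48_5 h nd hr hf
  · exact P48_8 h nd hr hf
  · exact P48_9 h nd hr hf

end Pool.Agent.SOU
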