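import Pool.Agent.SOU.TB

/-! Project SOU (MP_66ba69_lc, mixed insertion): rule 5 (generated). -/

set_option autoImplicit false
set_option maxRecDepth 100000
set_option linter.unusedVariables false

namespace Pool.Agent.SOU

open Pool.Agent.RUP Pool.Agent.SOQ

def d5_p0 : List Nat := [
0x4a500000009500000009300000009100000008f00000009b00000009d00000009700000009f0000000990000000a1000b00]

def d5_pf : List Nat := d5_p0

theorem d5_ref {V : Type} {S : SRel V} {p : Nat → V} (hp : ∀ i j, i < 5 → j < 5 → p i = p j → i = j)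
    (hts : PHs S p 5 (mA ++ (gf (fun x => 8 + cr 4 x) rf5 ++ fp1.map (tren (n6 1 3 4))))) : False :=
  refuteS (k := 5) (n2 := 3) (n3 := 1) (n4 := 3) (o3 := 45) (o4 := 80) (M := 440) (mA ++ (gf (fun x => 8 + cr 4 x) rf5 ++ fp1.map (tren (n6 1 3 4)))) d5_pf (by decide +kernel)
    (by decide +kernel) (by decide +kernel) (by decide +kernel) hp hts

theorem d5 {V : Type} {W : Mw V} (h : W.Hy) {a b c d : V} (nd : [W.z, a, b, c, d].Nodup)
    (hr : Hit (mrel0 h.bs) (pt [a, b, c, d] W.z) rf5)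
    (hq : ¬ FS (mrel0 h.bs) W.z fp1 a c d) : False :=
  d5_ref (pt_inj (o := W.z) nd rfl) (PHs.app (h.ph rfl _) (PHs.app (gf_ph hr (cr 4) (cr_pt (n := 4) (l := [a, b, c, d]) (l' := []) rfl)) (nf_ph hq (ia := 1) (ib := 3) (ic := 4) rfl rfl rfl rfl)))

theorem R5 {V : Type} {W : Mw V} (h : W.Hy) {a b c d : V} (nd : [W.z, a, b, c, d].Nodup)
    (hr : Hit (mrel0 h.bs) (pt [a, b, c, d] W.z) rf5) : FS (mrel0 h.bs) W.z fp1 a c d :=
  Classical.byContradiction fun hq => d5 h nd hr hq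

end Pool.Agent.SOU
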