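import Pool.Agent.SOU.TB

/-! Project SOU (MP_66ba69_lc, mixed insertion): rule 7 (generated). -/

set_option autoImplicit false
set_option maxRecDepth 100000
set_option linter.unusedVariables false

namespace Pool.Agent.SOU

open Pool.Agent.RUP Pool.Agent.SOQ

def c7_0_p0 : List Nat := [
0x64821d0000000a1000c000201,
0xb1000000002000200]

def c7_0_pf : List Nat := c7_0_p0

theorem c7_0_ref {V : Type} {S : SRel V} {p : Nat → V} (hp : ∀ i j, i < 5 → j < 5 → p i = p j → i = j)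
    (hts : PHs S p 5 (mA ++ (gf (fun x => 8 + cr 4 x) rf7 ++ (gf (fun x => 8 + c6 0 0 1 2 4 x) f0 ++ fp1.map (tren (n6 1 3 4)))))) : False :=
  refuteS (k := 5) (n2 := 3) (n3 := 1) (n4 := 3) (o3 := 45) (o4 := 80) (M := 440) (mA ++ (gf (fun x => 8 + cr 4 x) rf7 ++ (gf (fun x => 8 + c6 0 0 1 2 4 x) f0 ++ fp1.map (tren (n6 1 3 4))))) c7_0_pf (by decide +kernel)
    (by decide +kernel) (by decide +kernel) (by decide +kernel) hp hts

theorem c7_0 {V : Type} {W : Mw V} (h : W.Hy) {a b c d : V} (nd : [W.z, a, b, c, d].Nodup)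
    (hr : Hit (mrel0 h.bs) (pt [a, b, c, d] W.z) rf7)
    (hf : Hit (mrel0 h.bs) (v6 W.z W.z W.z a b d) f0)
    (hq : ¬ FS (mrel0 h.bs) W.z fp1 a c d) : False :=
  c7_0_ref (pt_inj (o := W.z) nd rfl) (PHs.app (h.ph rfl _) (PHs.app (gf_ph hr (cr 4) (cr_pt (n := 4) (l := [a, b, c, d]) (l' := []) rfl)) (PHs.app (gf_ph hf (c6 0 0 1 2 4) (c6_v6 rfl rfl rfl rfl rfl rfl)) (nf_ph hq (ia := 1) (ib := 3) (ic := 4) rfl rfl rfl rfl))))

def c7_2_n_p0 : List Nat := [
0x26400300000009703ee000201,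
0x48260070000000020000000990173000301,
0x86400300000000404bd000201,
0x86240070000000970000000060146000301,
0x28641d0000000a10024000201,
0x26844f00000009500000009300000009100000008f0000000080000000a104be000701,
0x8463500000000c00000009f00000009500000009300000009100000000400000000a0135000801,
0x6a042070000000020000000ad0284000301,
0xa642030000000100583000201,
0xa40620700000009700000001201f4000301,
0xa4683d0000000a700000000e0000000950000000930000000910000000b50297000701,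
0x684a2250000000a10000000b70228000301,
0x846a2230000000b70000000180237000301,
0xabb0000000a700000009500000009300000008f00000009f00000009d00000009900000001400000001a000000016000b00]

def c7_2_n_pf : List Nat := c7_2_n_p0

theorem c7_2_n_ref {V : Type} {S : SRel V} {p : Nat → V} (hp : ∀ i j, i < 6 → j < 6 → p i = p j → i = j)
    (hts : PHs S p 6 (mA ++ (gf (fun x => 8 + cr 4 x) rf7 ++ (gf (fun x => 8 + c6 5 0 1 2 4 x) f2 ++ fp1.map (tren (n6 1 3 4)))))) : False :=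
  refuteS (k := 6) (n2 := 3) (n3 := 1) (n4 := 3) (o3 := 63) (o4 := 119) (M := 812) (mA ++ (gf (fun x => 8 + cr 4 x) rf7 ++ (gf (fun x => 8 + c6 5 0 1 2 4 x) f2 ++ fp1.map (tren (n6 1 3 4))))) c7_2_n_pf (by decide +kernel)
    (by decide +kernel) (by decide +kernel) (by decide +kernel) hp hts

theorem c7_2_n {V : Type} {W : Mw V} (h : W.Hy) {a b c d u : V} (nd : [W.z, a, b, c, d, u].Nodup)
    (hr : Hit (mrel0 h.bs) (pt [a, b, c, d] W.z) rf7)
    (hf : Hit (mrel0 h.bs) (v6 W.z u W.z a b d) f2)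
    (hq : ¬ FS (mrel0 h.bs) W.z fp1 a c d) : False :=
  c7_2_n_ref (pt_inj (o := W.z) nd rfl) (PHs.app (h.ph rfl _) (PHs.app (gf_ph hr (cr 4) (cr_pt (n := 4) (l := [a, b, c, d]) (l' := [u]) rfl)) (PHs.app (gf_ph hf (c6 5 0 1 2 4) (c6_v6 rfl rfl rfl rfl rfl rfl)) (nf_ph hq (ia := 1) (ib := 3) (ic := 4) rfl rfl rfl rfl))))

def c7_2_3_p0 : List Nat := [
0x2640030000000970253000201,
0xad000000002000200]

def c7_2_3_pf : List Nat := c7_2_3_p0

theorem c7_2_3_ref {V : Type} {S : SRel V} {p : Nat → V} (hp : ∀ i j, i < 5 → j < 5 → p i = p j → i = j)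
    (hts : PHs S p 5 (mA ++ (gf (fun x => 8 + cr 4 x) rf7 ++ (gf (fun x => 8 + c6 3 0 1 2 4 x) f2 ++ fp1.map (tren (n6 1 3 4)))))) : False :=
  refuteS (k := 5) (n2 := 3) (n3 := 1) (n4 := 3) (o3 := 45) (o4 := 80) (M := 440) (mA ++ (gf (fun x => 8 + cr 4 x) rf7 ++ (gf (fun x => 8 + c6 3 0 1 2 4 x) f2 ++ fp1.map (tren (n6 1 3 4))))) c7_2_3_pf (by decide +kernel)
    (by decide +kernel) (by decide +kernel) (by decide +kernel) hp hts

theorem c7_2_3 {V : Type} {W : Mw V} (h : W.Hy) {a b c d : V} (nd : [W.z, a, b, c, d].Nodup)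
    (hr : Hit (mrel0 h.bs) (pt [a, b, c, d] W.z) rf7)
    (hf : Hit (mrel0 h.bs) (v6 W.z c W.z a b d) f2)
    (hq : ¬ FS (mrel0 h.bs) W.z fp1 a c d) : False :=
  c7_2_3_ref (pt_inj (o := W.z) nd rfl) (PHs.app (h.ph rfl _) (PHs.app (gf_ph hr (cr 4) (cr_pt (n := 4) (l := [a, b, c, d]) (l' := []) rfl)) (PHs.app (gf_ph hf (c6 3 0 1 2 4) (c6_v6 rfl rfl rfl rfl rfl rfl)) (nf_ph hq (ia := 1) (ib := 3) (ic := 4) rfl rfl rfl rfl))))

def c7_3_n_p0 : List Nat := [
0x26400300000009703ee000201,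
0x48260070000000020000000990173000301,
0x86400300000000404bd000201,
0x86240070000000970000000060146000301,
0x64821d0000000a1000c000201,
0x46821d0000000a10015000201,
0x28641d0000000a10024000201,
0x26844f00000009500000009300000009100000008f0000000080000000a104be000701,
0x8463500000001000000009f00000009500000009300000009100000000400000000e0135000801,
0xa620b00000009300000008f0000000a905a7000401,
0x2a40030000000ad0517000201,
0x4a821d0000000b50590000201,
0x6a821d0000000b505c6000201,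
0x268a4250000000a10000000180596000301,
0x248a6250000000a100000001a05c9000301,
0x4a82d0000000a90000000950000000910000000b7002d000501,
0xa4683d0000000a90000000120000000950000000930000000910000000b70297000701,
0x86a44500000001c0000000a90000000950000000930000000910000000b70581000701,
0x84a64500000001e0000000a900000009500000009300000009100000002205ae000701,
0xabd0000000a90000000b500000009500000009300000008f00000009f00000009d0000000af000000022054d000a01,
0xa6200100000001400000002801f4000301,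
0x462a00700000001600000002a01f7000301,
0x6a42650000000a90000000b500000009300000002000000009100000008f00000000a00000000c0000000ad00000002a0018000b01,
0x64a350000000260000000240000000a900000009300000009100000002000000002e00000002c000900]

def c7_3_n_pf : List Nat := c7_3_n_p0

theorem c7_3_n_ref {V : Type} {S : SRel V} {p : Nat → V} (hp : ∀ i j, i < 6 → j < 6 → p i = p j → i = j)
    (hts : PHs S p 6 (mA ++ (gf (fun x => 8 + cr 4 x) rf7 ++ (gf (fun x => 8 + c6 5 0 1 2 4 x) f3 ++ fp1.map (tren (n6 1 3 4)))))) : False :=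
  refuteS (k := 6) (n2 := 3) (n3 := 1) (n4 := 3) (o3 := 63) (o4 := 119) (M := 812) (mA ++ (gf (fun x => 8 + cr 4 x) rf7 ++ (gf (fun x => 8 + c6 5 0 1 2 4 x) f3 ++ fp1.map (tren (n6 1 3 4))))) c7_3_n_pf (by decide +kernel)
    (by decide +kernel) (by decide +kernel) (by decide +kernel) hp hts

theorem c7_3_n {V : Type} {W : Mw V} (h : W.Hy) {a b c d u : V} (nd : [W.z, a, b, c, d, u].Nodup)
    (hr : Hit (mrel0 h.bs) (pt [a, b, c, d] W.z) rf7)
    (hf : Hit (mrel0 h.bs) (v6 W.z u W.z a b d) f3)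
    (hq : ¬ FS (mrel0 h.bs) W.z fp1 a c d) : False :=
  c7_3_n_ref (pt_inj (o := W.z) nd rfl) (PHs.app (h.ph rfl _) (PHs.app (gf_ph hr (cr 4) (cr_pt (n := 4) (l := [a, b, c, d]) (l' := [u]) rfl)) (PHs.app (gf_ph hf (c6 5 0 1 2 4) (c6_v6 rfl rfl rfl rfl rfl rfl)) (nf_ph hq (ia := 1) (ib := 3) (ic := 4) rfl rfl rfl rfl))))

def c7_3_3_p0 : List Nat := [
0x46821d0000000a10015000201,
0xb5000000002000200]

def c7_3_3_pf : List Nat := c7_3_3_p0

theorem c7_3_3_ref {V : Type} {S : SRel V} {p : Nat → V} (hp : ∀ i j, i < 5 → j < 5 → p i = p j → i = j)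
    (hts : PHs S p 5 (mA ++ (gf (fun x => 8 + cr 4 x) rf7 ++ (gf (fun x => 8 + c6 3 0 1 2 4 x) f3 ++ fp1.map (tren (n6 1 3 4)))))) : False :=
  refuteS (k := 5) (n2 := 3) (n3 := 1) (n4 := 3) (o3 := 45) (o4 := 80) (M := 440) (mA ++ (gf (fun x => 8 + cr 4 x) rf7 ++ (gf (fun x => 8 + c6 3 0 1 2 4 x) f3 ++ fp1.map (tren (n6 1 3 4))))) c7_3_3_pf (by decide +kernel)
    (by decide +kernel) (by decide +kernel) (by decide +kernel) hp hts

theorem c7_3_3 {V : Type} {W : Mw V} (h : W.Hy) {a b c d : V} (nd : [W.z, a, b, c, d].Nodup)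
    (hr : Hit (mrel0 h.bs) (pt [a, b, c, d] W.z) rf7)
    (hf : Hit (mrel0 h.bs) (v6 W.z c W.z a b d) f3)
    (hq : ¬ FS (mrel0 h.bs) W.z fp1 a c d) : False :=
  c7_3_3_ref (pt_inj (o := W.z) nd rfl) (PHs.app (h.ph rfl _) (PHs.app (gf_ph hr (cr 4) (cr_pt (n := 4) (l := [a, b, c, d]) (l' := []) rfl)) (PHs.app (gf_ph hf (c6 3 0 1 2 4) (c6_v6 rfl rfl rfl rfl rfl rfl)) (nf_ph hq (ia := 1) (ib := 3) (ic := 4) rfl rfl rfl rfl))))

def c7_4_n_p0 : List Nat := [
0x26400300000009703ee000201,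
0x48260070000000020000000990173000301,
0x86400300000000404bd000201,
0x86240070000000970000000060146000301,
0x28641d0000000a10024000201,
0x26844f00000009500000009300000009100000008f0000000080000000a104be000701,
0x8463500000000c00000009f00000009500000009300000009100000000400000000a0135000801,
0x684a490000000ab00000000e0000000950000000930000000910000000b501f8000701,
0x846a3d0000000b50000000ab0000000950000000930000000910000000100207000701,
0xa864450000000ab00000000e00000009500000009300000009100000001002ca000701,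
0x642a8230000000140000000b702c7000301,
0xabf0000000ab00000009500000009300000008f00000009f00000009d0000000990000000120000000af000000016000b00]

def c7_4_n_pf : List Nat := c7_4_n_p0

theorem c7_4_n_ref {V : Type} {S : SRel V} {p : Nat → V} (hp : ∀ i j, i < 6 → j < 6 → p i = p j → i = j)
    (hts : PHs S p 6 (mA ++ (gf (fun x => 8 + cr 4 x) rf7 ++ (gf (fun x => 8 + c6 5 0 1 2 4 x) f4 ++ fp1.map (tren (n6 1 3 4)))))) : False :=
  refuteS (k := 6) (n2 := 3) (n3 := 1) (n4 := 3) (o3 := 63) (o4 := 119) (M := 812) (mA ++ (gf (fun x => 8 + cr 4 x) rf7 ++ (gf (fun x => 8 + c6 5 0 1 2 4 x) f4 ++ fp1.map (tren (n6 1 3 4))))) c7_4_n_pf (by decide +kernel)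
    (by decide +kernel) (by decide +kernel) (by decide +kernel) hp hts

theorem c7_4_n {V : Type} {W : Mw V} (h : W.Hy) {a b c d u : V} (nd : [W.z, a, b, c, d, u].Nodup)
    (hr : Hit (mrel0 h.bs) (pt [a, b, c, d] W.z) rf7)
    (hf : Hit (mrel0 h.bs) (v6 W.z u W.z a b d) f4)
    (hq : ¬ FS (mrel0 h.bs) W.z fp1 a c d) : False :=
  c7_4_n_ref (pt_inj (o := W.z) nd rfl) (PHs.app (h.ph rfl _) (PHs.app (gf_ph hr (cr 4) (cr_pt (n := 4) (l := [a, b, c, d]) (l' := [u]) rfl)) (PHs.app (gf_ph hf (c6 5 0 1 2 4) (c6_v6 rfl rfl rfl rfl rfl rfl)) (nf_ph hq (ia := 1) (ib := 3) (ic := 4) rfl rfl rfl rfl))))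

def c7_4_3_p0 : List Nat := [
0x28600300000009902c2000201,
0xaf000000002000200]

def c7_4_3_pf : List Nat := c7_4_3_p0

theorem c7_4_3_ref {V : Type} {S : SRel V} {p : Nat → V} (hp : ∀ i j, i < 5 → j < 5 → p i = p j → i = j)
    (hts : PHs S p 5 (mA ++ (gf (fun x => 8 + cr 4 x) rf7 ++ (gf (fun x => 8 + c6 3 0 1 2 4 x) f4 ++ fp1.map (tren (n6 1 3 4)))))) : False :=
  refuteS (k := 5) (n2 := 3) (n3 := 1) (n4 := 3) (o3 := 45) (o4 := 80) (M := 440) (mA ++ (gf (fun x => 8 + cr 4 x) rf7 ++ (gf (fun x => 8 + c6 3 0 1 2 4 x) f4 ++ fp1.map (tren (n6 1 3 4))))) c7_4_3_pf (by decide +kernel)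
    (by decide +kernel) (by decide +kernel) (by decide +kernel) hp hts

theorem c7_4_3 {V : Type} {W : Mw V} (h : W.Hy) {a b c d : V} (nd : [W.z, a, b, c, d].Nodup)
    (hr : Hit (mrel0 h.bs) (pt [a, b, c, d] W.z) rf7)
    (hf : Hit (mrel0 h.bs) (v6 W.z c W.z a b d) f4)
    (hq : ¬ FS (mrel0 h.bs) W.z fp1 a c d) : False :=
  c7_4_3_ref (pt_inj (o := W.z) nd rfl) (PHs.app (h.ph rfl _) (PHs.app (gf_ph hr (cr 4) (cr_pt (n := 4) (l := [a, b, c, d]) (l' := []) rfl)) (PHs.app (gf_ph hf (c6 3 0 1 2 4) (c6_v6 rfl rfl rfl rfl rfl rfl)) (nf_ph hq (ia := 1) (ib := 3) (ic := 4) rfl rfl rfl rfl))))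

def c7_5_n_p0 : List Nat := [
0x26400300000009703ee000201,
0x286003000000099045d000201,
0x48260070000000020000000990173000301,
0x86400300000000604bd000201,
0x86240070000000970000000080146000301,
0x46821d0000000a10015000201,
0x28641d0000000a10024000201,
0x6842210000000a104c1000201,
0x26844f00000009500000009300000009100000008f00000000a0000000a104be000701,
0x8463500000001200000009f00000009500000009300000009100000000600000000e0135000801,
0xa620b00000009300000008f0000000a905a7000401,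
0x4a8310000000a90000000950000000910000000b50039000501,
0xa4683d0000000a90000000140000000950000000930000000910000000b50297000701,
0x8a642230000000100000000b705b1000301,
0x6a842250000000100000000b70563000301,
0x68a422500000001c0000000b705c6000301,
0xa2864250000000a10000000b702ca000301,
0xa8621f00000002000000001800000000c00000001e05f2000501,
0x642a8230000000b700000002202c7000301,
0x8a062070000000040000000240520000301,
0xa620010000000160000000280221000301,
0xac10000000a900000009500000009300000008f00000009f00000009d0000000af00000002a00000001a000000026000b00]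

def c7_5_n_pf : List Nat := c7_5_n_p0

theorem c7_5_n_ref {V : Type} {S : SRel V} {p : Nat → V} (hp : ∀ i j, i < 6 → j < 6 → p i = p j → i = j)
    (hts : PHs S p 6 (mA ++ (gf (fun x => 8 + cr 4 x) rf7 ++ (gf (fun x => 8 + c6 5 0 1 2 4 x) f5 ++ fp1.map (tren (n6 1 3 4)))))) : False :=
  refuteS (k := 6) (n2 := 3) (n3 := 1) (n4 := 3) (o3 := 63) (o4 := 119) (M := 812) (mA ++ (gf (fun x => 8 + cr 4 x) rf7 ++ (gf (fun x => 8 + c6 5 0 1 2 4 x) f5 ++ fp1.map (tren (n6 1 3 4))))) c7_5_n_pf (by decide +kernel)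
    (by decide +kernel) (by decide +kernel) (by decide +kernel) hp hts

theorem c7_5_n {V : Type} {W : Mw V} (h : W.Hy) {a b c d u : V} (nd : [W.z, a, b, c, d, u].Nodup)
    (hr : Hit (mrel0 h.bs) (pt [a, b, c, d] W.z) rf7)
    (hf : Hit (mrel0 h.bs) (v6 W.z u W.z a b d) f5)
    (hq : ¬ FS (mrel0 h.bs) W.z fp1 a c d) : False :=
  c7_5_n_ref (pt_inj (o := W.z) nd rfl) (PHs.app (h.ph rfl _) (PHs.app (gf_ph hr (cr 4) (cr_pt (n := 4) (l := [a, b, c, d]) (l' := [u]) rfl)) (PHs.app (gf_ph hf (c6 5 0 1 2 4) (c6_v6 rfl rfl rfl rfl rfl rfl)) (nf_ph hq (ia := 1) (ib := 3) (ic := 4) rfl rfl rfl rfl))))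

def c7_5_3_p0 : List Nat := [
0x6842210000000a10326000201,
0xb7000000002000200]

def c7_5_3_pf : List Nat := c7_5_3_p0

theorem c7_5_3_ref {V : Type} {S : SRel V} {p : Nat → V} (hp : ∀ i j, i < 5 → j < 5 → p i = p j → i = j)
    (hts : PHs S p 5 (mA ++ (gf (fun x => 8 + cr 4 x) rf7 ++ (gf (fun x => 8 + c6 3 0 1 2 4 x) f5 ++ fp1.map (tren (n6 1 3 4)))))) : False :=
  refuteS (k := 5) (n2 := 3) (n3 := 1) (n4 := 3) (o3 := 45) (o4 := 80) (M := 440) (mA ++ (gf (fun x => 8 + cr 4 x) rf7 ++ (gf (fun x => 8 + c6 3 0 1 2 4 x) f5 ++ fp1.map (tren (n6 1 3 4))))) c7_5_3_pf (by decide +kernel)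
    (by decide +kernel) (by decide +kernel) (by decide +kernel) hp hts

theorem c7_5_3 {V : Type} {W : Mw V} (h : W.Hy) {a b c d : V} (nd : [W.z, a, b, c, d].Nodup)
    (hr : Hit (mrel0 h.bs) (pt [a, b, c, d] W.z) rf7)
    (hf : Hit (mrel0 h.bs) (v6 W.z c W.z a b d) f5)
    (hq : ¬ FS (mrel0 h.bs) W.z fp1 a c d) : False :=
  c7_5_3_ref (pt_inj (o := W.z) nd rfl) (PHs.app (h.ph rfl _) (PHs.app (gf_ph hr (cr 4) (cr_pt (n := 4) (l := [a, b, c, d]) (l' := []) rfl)) (PHs.app (gf_ph hf (c6 3 0 1 2 4) (c6_v6 rfl rfl rfl rfl rfl rfl)) (nf_ph hq (ia := 1) (ib := 3) (ic := 4) rfl rfl rfl rfl))))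

def c7_8_n_p0 : List Nat := [
0x26400300000009703ee000201,
0x286003000000099045d000201,
0x48260070000000020000000990173000301,
0x84062070000000970000000040176000301,
0x86400300000000604bd000201,
0x862400700000009700000000a0146000301,
0x28641d0000000a10024000201,
0x84a20900000009500000009100000008f0000000a5055f000501,
0xa260d00000009300000008f0000000a5054d000401,
0xa628407000000008000000010029c000301,
0xa82600700000009900000001202c3000301,
0x8a20030000000ad052c000201,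
0xa40820700000000c0000000180263000301,
0xa4821b00000001a0590000201,
0x268a4250000000a100000001c0596000301,
0x8a641d0000000b505f6000201,
0xa6841f00000001e00000001400000000e0000000200362000501,
0xac300000002200000009500000009300000008f00000009f00000009d0000000b70000000a50000000ad000000016000b00]

def c7_8_n_pf : List Nat := c7_8_n_p0

theorem c7_8_n_ref {V : Type} {S : SRel V} {p : Nat → V} (hp : ∀ i j, i < 6 → j < 6 → p i = p j → i = j)
    (hts : PHs S p 6 (mA ++ (gf (fun x => 8 + cr 4 x) rf7 ++ (gf (fun x => 8 + c6 5 0 1 2 4 x) f8 ++ fp1.map (tren (n6 1 3 4)))))) : False :=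
  refuteS (k := 6) (n2 := 3) (n3 := 1) (n4 := 3) (o3 := 63) (o4 := 119) (M := 812) (mA ++ (gf (fun x => 8 + cr 4 x) rf7 ++ (gf (fun x => 8 + c6 5 0 1 2 4 x) f8 ++ fp1.map (tren (n6 1 3 4))))) c7_8_n_pf (by decide +kernel)
    (by decide +kernel) (by decide +kernel) (by decide +kernel) hp hts

theorem c7_8_n {V : Type} {W : Mw V} (h : W.Hy) {a b c d u : V} (nd : [W.z, a, b, c, d, u].Nodup)
    (hr : Hit (mrel0 h.bs) (pt [a, b, c, d] W.z) rf7)
    (hf : Hit (mrel0 h.bs) (v6 W.z u W.z a b d) f8)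
    (hq : ¬ FS (mrel0 h.bs) W.z fp1 a c d) : False :=
  c7_8_n_ref (pt_inj (o := W.z) nd rfl) (PHs.app (h.ph rfl _) (PHs.app (gf_ph hr (cr 4) (cr_pt (n := 4) (l := [a, b, c, d]) (l' := [u]) rfl)) (PHs.app (gf_ph hf (c6 5 0 1 2 4) (c6_v6 rfl rfl rfl rfl rfl rfl)) (nf_ph hq (ia := 1) (ib := 3) (ic := 4) rfl rfl rfl rfl))))

def c7_8_3_p0 : List Nat := [
0xa5000000093000200]

def c7_8_3_pf : List Nat := c7_8_3_p0

theorem c7_8_3_ref {V : Type} {S : SRel V} {p : Nat → V} (hp : ∀ i j, i < 5 → j < 5 → p i = p j → i = j)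
    (hts : PHs S p 5 (mA ++ (gf (fun x => 8 + cr 4 x) rf7 ++ (gf (fun x => 8 + c6 3 0 1 2 4 x) f8 ++ fp1.map (tren (n6 1 3 4)))))) : False :=
  refuteS (k := 5) (n2 := 3) (n3 := 1) (n4 := 3) (o3 := 45) (o4 := 80) (M := 440) (mA ++ (gf (fun x => 8 + cr 4 x) rf7 ++ (gf (fun x => 8 + c6 3 0 1 2 4 x) f8 ++ fp1.map (tren (n6 1 3 4))))) c7_8_3_pf (by decide +kernel)
    (by decide +kernel) (by decide +kernel) (by decide +kernel) hp hts

theorem c7_8_3 {V : Type} {W : Mw V} (h : W.Hy) {a b c d : V} (nd : [W.z, a, b, c, d].Nodup)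
    (hr : Hit (mrel0 h.bs) (pt [a, b, c, d] W.z) rf7)
    (hf : Hit (mrel0 h.bs) (v6 W.z c W.z a b d) f8)
    (hq : ¬ FS (mrel0 h.bs) W.z fp1 a c d) : False :=
  c7_8_3_ref (pt_inj (o := W.z) nd rfl) (PHs.app (h.ph rfl _) (PHs.app (gf_ph hr (cr 4) (cr_pt (n := 4) (l := [a, b, c, d]) (l' := []) rfl)) (PHs.app (gf_ph hf (c6 3 0 1 2 4) (c6_v6 rfl rfl rfl rfl rfl rfl)) (nf_ph hq (ia := 1) (ib := 3) (ic := 4) rfl rfl rfl rfl))))

def c7_9_n_p0 : List Nat := [
0xa260d00000009300000008f0000000a5054d000401,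
0xa82600700000009900000000202c3000301,
0xa2864250000000a10000000b502ca000301,
0x642a8230000000b500000000602c7000301,
0xac300000009500000009300000008f00000009f00000009d0000000a50000000ad000000004000000008000a00]

def c7_9_n_pf : List Nat := c7_9_n_p0

theorem c7_9_n_ref {V : Type} {S : SRel V} {p : Nat → V} (hp : ∀ i j, i < 6 → j < 6 → p i = p j → i = j)
    (hts : PHs S p 6 (mA ++ (gf (fun x => 8 + cr 4 x) rf7 ++ (gf (fun x => 8 + c6 5 0 1 2 4 x) f9 ++ fp1.map (tren (n6 1 3 4)))))) : False :=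
  refuteS (k := 6) (n2 := 3) (n3 := 1) (n4 := 3) (o3 := 63) (o4 := 119) (M := 812) (mA ++ (gf (fun x => 8 + cr 4 x) rf7 ++ (gf (fun x => 8 + c6 5 0 1 2 4 x) f9 ++ fp1.map (tren (n6 1 3 4))))) c7_9_n_pf (by decide +kernel)
    (by decide +kernel) (by decide +kernel) (by decide +kernel) hp hts

theorem c7_9_n {V : Type} {W : Mw V} (h : W.Hy) {a b c d u : V} (nd : [W.z, a, b, c, d, u].Nodup)
    (hr : Hit (mrel0 h.bs) (pt [a, b, c, d] W.z) rf7)
    (hf : Hit (mrel0 h.bs) (v6 W.z u W.z a b d) f9)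
    (hq : ¬ FS (mrel0 h.bs) W.z fp1 a c d) : False :=
  c7_9_n_ref (pt_inj (o := W.z) nd rfl) (PHs.app (h.ph rfl _) (PHs.app (gf_ph hr (cr 4) (cr_pt (n := 4) (l := [a, b, c, d]) (l' := [u]) rfl)) (PHs.app (gf_ph hf (c6 5 0 1 2 4) (c6_v6 rfl rfl rfl rfl rfl rfl)) (nf_ph hq (ia := 1) (ib := 3) (ic := 4) rfl rfl rfl rfl))))

def c7_9_3_p0 : List Nat := [
0xa5000000093000200]

def c7_9_3_pf : List Nat := c7_9_3_p0

theorem c7_9_3_ref {V : Type} {S : SRel V} {p : Nat → V} (hp : ∀ i j, i < 5 → j < 5 → p i = p j → i = j)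
    (hts : PHs S p 5 (mA ++ (gf (fun x => 8 + cr 4 x) rf7 ++ (gf (fun x => 8 + c6 3 0 1 2 4 x) f9 ++ fp1.map (tren (n6 1 3 4)))))) : False :=
  refuteS (k := 5) (n2 := 3) (n3 := 1) (n4 := 3) (o3 := 45) (o4 := 80) (M := 440) (mA ++ (gf (fun x => 8 + cr 4 x) rf7 ++ (gf (fun x => 8 + c6 3 0 1 2 4 x) f9 ++ fp1.map (tren (n6 1 3 4))))) c7_9_3_pf (by decide +kernel)
    (by decide +kernel) (by decide +kernel) (by decide +kernel) hp hts

theorem c7_9_3 {V : Type} {W : Mw V} (h : W.Hy) {a b c d : V} (nd : [W.z, a, b, c, d].Nodup)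
    (hr : Hit (mrel0 h.bs) (pt [a, b, c, d] W.z) rf7)
    (hf : Hit (mrel0 h.bs) (v6 W.z c W.z a b d) f9)
    (hq : ¬ FS (mrel0 h.bs) W.z fp1 a c d) : False :=
  c7_9_3_ref (pt_inj (o := W.z) nd rfl) (PHs.app (h.ph rfl _) (PHs.app (gf_ph hr (cr 4) (cr_pt (n := 4) (l := [a, b, c, d]) (l' := []) rfl)) (PHs.app (gf_ph hf (c6 3 0 1 2 4) (c6_v6 rfl rfl rfl rfl rfl rfl)) (nf_ph hq (ia := 1) (ib := 3) (ic := 4) rfl rfl rfl rfl))))

theorem P7_0 {V : Type} {W : Mw V} (h : W.Hy) {a b c d u w : V} (nd : [W.z, a, b, c, d].Nodup)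
    (hr : Hit (mrel0 h.bs) (pt [a, b, c, d] W.z) rf7)
    (hf : Hit (mrel0 h.bs) (v6 W.z u w a b d) f0) (hq : ¬ FS (mrel0 h.bs) W.z fp1 a c d) : False := by
  exact c7_0 h nd hr (hit00 (by decide) hf) hq

theorem P7_2 {V : Type} {W : Mw V} (h : W.Hy) {a b c d u w : V} (nd : [W.z, a, b, c, d].Nodup)
    (hr : Hit (mrel0 h.bs) (pt [a, b, c, d] W.z) rf7)
    (hf : Hit (mrel0 h.bs) (v6 W.z u w a b d) f2) (hq : ¬ FS (mrel0 h.bs) W.z fp1 a c d) : False := by
  have hf := hit01 (by decide) hf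
  have hs := hn1 hf rfl
  by_cases ic : u = c
  · subst ic
    exact c7_2_3 h nd hr hf hq
  exact c7_2_n h (nd_snoc nd (nin5 hs.1 hs.2.1 hs.2.2.1 ic hs.2.2.2)) hr hf hq

theorem P7_3 {V : Type} {W : Mw V} (h : W.Hy) {a b c d u w : V} (nd : [W.z, a, b, c, d].Nodup)
    (hr : Hit (mrel0 h.bs) (pt [a, b, c, d] W.z) rf7)
    (hf : Hit (mrel0 h.bs) (v6 W.z u w a b d) f3) (hq : ¬ FS (mrel0 h.bs) W.z fp1 a c d) : False := by
  have hf := hit01 (by decide) hf
  have hs := hn1 hf rfl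
  by_cases ic : u = c
  · subst ic
    exact c7_3_3 h nd hr hf hq
  exact c7_3_n h (nd_snoc nd (nin5 hs.1 hs.2.1 hs.2.2.1 ic hs.2.2.2)) hr hf hq

theorem P7_4 {V : Type} {W : Mw V} (h : W.Hy) {a b c d u w : V} (nd : [W.z, a, b, c, d].Nodup)
    (hr : Hit (mrel0 h.bs) (pt [a, b, c, d] W.z) rf7)
    (hf : Hit (mrel0 h.bs) (v6 W.z u w a b d) f4) (hq : ¬ FS (mrel0 h.bs) W.z fp1 a c d) : False := by
  have hf := hit01 (by decide) hf
  have hs := hn1 hf rfl
  by_cases ic : u = c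
  · subst ic
    exact c7_4_3 h nd hr hf hq
  exact c7_4_n h (nd_snoc nd (nin5 hs.1 hs.2.1 hs.2.2.1 ic hs.2.2.2)) hr hf hq

theorem P7_5 {V : Type} {W : Mw V} (h : W.Hy) {a b c d u w : V} (nd : [W.z, a, b, c, d].Nodup)
    (hr : Hit (mrel0 h.bs) (pt [a, b, c, d] W.z) rf7)
    (hf : Hit (mrel0 h.bs) (v6 W.z u w a b d) f5) (hq : ¬ FS (mrel0 h.bs) W.z fp1 a c d) : False := by
  have hf := hit01 (by decide) hf
  have hs := hn1 hf rfl
  by_cases ic : u = c
  · subst ic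
    exact c7_5_3 h nd hr hf hq
  exact c7_5_n h (nd_snoc nd (nin5 hs.1 hs.2.1 hs.2.2.1 ic hs.2.2.2)) hr hf hq

theorem P7_8 {V : Type} {W : Mw V} (h : W.Hy) {a b c d u w : V} (nd : [W.z, a, b, c, d].Nodup)
    (hr : Hit (mrel0 h.bs) (pt [a, b, c, d] W.z) rf7)
    (hf : Hit (mrel0 h.bs) (v6 W.z u w a b d) f8) (hq : ¬ FS (mrel0 h.bs) W.z fp1 a c d) : False := by
  have hf := hit01 (by decide) hf
  have hs := hn1 hf rfl
  by_cases ic : u = c
  · subst ic
    exact c7_8_3 h nd hr hf hq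
  exact c7_8_n h (nd_snoc nd (nin5 hs.1 hs.2.1 hs.2.2.1 ic hs.2.2.2)) hr hf hq

theorem P7_9 {V : Type} {W : Mw V} (h : W.Hy) {a b c d u w : V} (nd : [W.z, a, b, c, d].Nodup)
    (hr : Hit (mrel0 h.bs) (pt [a, b, c, d] W.z) rf7)
    (hf : Hit (mrel0 h.bs) (v6 W.z u w a b d) f9) (hq : ¬ FS (mrel0 h.bs) W.z fp1 a c d) : False := by
  have hf := hit01 (by decide) hf
  have hs := hn1 hf rfl
  by_cases ic : u = c
  · subst ic
    exact c7_9_3 h nd hr hf hq
  exact c7_9_n h (nd_snoc nd (nin5 hs.1 hs.2.1 hs.2.2.1 ic hs.2.2.2)) hr hf hq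

theorem R7 {V : Type} {W : Mw V} (h : W.Hy) {a b c d : V} (nd : [W.z, a, b, c, d].Nodup)
    (hr : Hit (mrel0 h.bs) (pt [a, b, c, d] W.z) rf7)
    (hp : FS (mrel0 h.bs) W.z fp1 a b d) : FS (mrel0 h.bs) W.z fp1 a c d := by
  by_contra hq
  obtain ⟨t, ht, u, w, hf⟩ := hp
  simp only [fp1, List.mem_cons, List.not_mem_nil, or_false] at ht
  rcases ht with rfl | rfl | rfl | rfl | rfl | rfl | rfl
  · exact P7_0 h nd hr hf hq
  · exact P7_2 h nd hr hf hq
  · exact P7_3 h nd hr hf hq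
  · exact P7_4 h nd hr hf hq
  · exact P7_5 h nd hr hf hq
  · exact P7_8 h nd hr hf hq
  · exact P7_9 h nd hr hf hq

end Pool.Agent.SOU
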