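import Pool.Agent.SOU.TB

/-! Project SOU (MP_66ba69_lc, mixed insertion): rule 8 (generated). -/

set_option autoImplicit false
set_option maxRecDepth 100000
set_option linter.unusedVariables false

namespace Pool.Agent.SOU

open Pool.Agent.RUP Pool.Agent.SOQ

def c8_0_p0 : List Nat := [
0x2640030000000970253000201,
0x4826007000000002000000099014c000301,
0x8640030000000040322000201,
0x8624007000000097000000006011f000301,
0x86426300000009500000009300000009d00000009100000008f0000000990000000970000000af0323000901,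
0xb100000009500000009100000008f00000009f00000009d000000008000c000701,
0x8642650000000950000000af00000009300000009d00000009100000008f00000009b00000009900000009700000000c0024000b01,
0x8463500000000a00000009b00000009500000009300000009100000000400000000e010e000801,
0x6b50000000950000000930000000af00000009100000008f00000009f00000009d000000097000000010000000099000b00]

def c8_0_pf : List Nat := c8_0_p0

theorem c8_0_ref {V : Type} {S : SRel V} {p : Nat → V} (hp : ∀ i j, i < 5 → j < 5 → p i = p j → i = j)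
    (hts : PHs S p 5 (mA ++ (gf (fun x => 8 + cr 4 x) rf8 ++ (gf (fun x => 8 + c6 0 0 1 3 4 x) f0 ++ fp1.map (tren (n6 1 2 4)))))) : False :=
  refuteS (k := 5) (n2 := 3) (n3 := 1) (n4 := 3) (o3 := 45) (o4 := 80) (M := 440) (mA ++ (gf (fun x => 8 + cr 4 x) rf8 ++ (gf (fun x => 8 + c6 0 0 1 3 4 x) f0 ++ fp1.map (tren (n6 1 2 4))))) c8_0_pf (by decide +kernel)
    (by decide +kernel) (by decide +kernel) (by decide +kernel) hp hts

theorem c8_0 {V : Type} {W : Mw V} (h : W.Hy) {a b c d : V} (nd : [W.z, a, b, c, d].Nodup)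
    (hr : Hit (mrel0 h.bs) (pt [a, b, c, d] W.z) rf8)
    (hf : Hit (mrel0 h.bs) (v6 W.z W.z W.z a c d) f0)
    (hq : ¬ FS (mrel0 h.bs) W.z fp1 a b d) : False :=
  c8_0_ref (pt_inj (o := W.z) nd rfl) (PHs.app (h.ph rfl _) (PHs.app (gf_ph hr (cr 4) (cr_pt (n := 4) (l := [a, b, c, d]) (l' := []) rfl)) (PHs.app (gf_ph hf (c6 0 0 1 3 4) (c6_v6 rfl rfl rfl rfl rfl rfl)) (nf_ph hq (ia := 1) (ib := 2) (ic := 4) rfl rfl rfl rfl))))

def c8_2_n_p0 : List Nat := [
0x26400300000009703ee000201,
0x286003000000099045d000201,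
0x48260070000000020000000990173000301,
0x84062070000000970000000040176000301,
0x86400300000000604bd000201,
0x4860030000000060460000201,
0x86420300000000804c0000201,
0x4862030000000080481000201,
0x862400700000009700000000a0146000301,
0x2a60030000000ab054d000201,
0x8a062070000000040000000ab02c6000301,
0xa82600700000009900000001402c3000301,
0x8a62030000000160562000201,
0x2a4860700000000e00000001a0595000301,
0x6a8310000000a50000000950000000930000000b30039000501,
0x86a21d0000000b50015000201,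
0x2a861d0000000b50036000201,
0xb700000009500000009100000008f00000009f00000009d000000012000c000701,
0xab90000000a500000009500000009100000008f00000009f00000009d00000001205170560058d000803,
0x6bf00000009500000009300000009100000008f00000009f00000009d000000097000000099046104c1000902,
0x2600462a007000a6483d00864a223008a064070004a684d0028a4625000a8641b0000000ab0000000910000000930000000950000000a50000000b30000000b500000000c05f6001001,
0x4a28623000000028000a6841f0006a483d0000a48310000a84350006a4853000a6841b000a8640100460a8070000000b500000002200000002a0000000910000000930000000950000000a50000000b300000009f00000001e00000001c00000001802c9001601,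
0xa8640300000002c05c8000201,
0x640a80500000001800000002c05e6000301,
0x2a8640700000001000000002c0227000301,
0xa62840700000000800000002e0233000301,
0xa8240070000000120000000300218000301,
0x64a21b0000000320554000201,
0x84a21b0000000340560000201,
0x86a42710000000a500000009500000002400000009300000009100000008f0000000b50000000990000000ab0000000b30000000360024000c01,
0x486a2250000000b50000000380482000301,
0x26a48250000000b500000003a05c9000301,
0x84621f00000003c00000002000000000800000003e0195000501,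
0x84a6450000000b30000000a500000009500000009300000009100000004005ae000701,
0x280000000420461000201,
0xa864490000000b30000000a500000009500000009300000009100000004404be000701,
0x8463500000003c00000009b000000095000000093000000091000000006000000048000000046000900]

def c8_2_n_pf : List Nat := c8_2_n_p0

theorem c8_2_n_ref {V : Type} {S : SRel V} {p : Nat → V} (hp : ∀ i j, i < 6 → j < 6 → p i = p j → i = j)
    (hts : PHs S p 6 (mA ++ (gf (fun x => 8 + cr 4 x) rf8 ++ (gf (fun x => 8 + c6 5 0 1 3 4 x) f2 ++ fp1.map (tren (n6 1 2 4)))))) : False :=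
  refuteS (k := 6) (n2 := 3) (n3 := 1) (n4 := 3) (o3 := 63) (o4 := 119) (M := 812) (mA ++ (gf (fun x => 8 + cr 4 x) rf8 ++ (gf (fun x => 8 + c6 5 0 1 3 4 x) f2 ++ fp1.map (tren (n6 1 2 4))))) c8_2_n_pf (by decide +kernel)
    (by decide +kernel) (by decide +kernel) (by decide +kernel) hp hts

theorem c8_2_n {V : Type} {W : Mw V} (h : W.Hy) {a b c d u : V} (nd : [W.z, a, b, c, d, u].Nodup)
    (hr : Hit (mrel0 h.bs) (pt [a, b, c, d] W.z) rf8)
    (hf : Hit (mrel0 h.bs) (v6 W.z u W.z a c d) f2)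
    (hq : ¬ FS (mrel0 h.bs) W.z fp1 a b d) : False :=
  c8_2_n_ref (pt_inj (o := W.z) nd rfl) (PHs.app (h.ph rfl _) (PHs.app (gf_ph hr (cr 4) (cr_pt (n := 4) (l := [a, b, c, d]) (l' := [u]) rfl)) (PHs.app (gf_ph hf (c6 5 0 1 3 4) (c6_v6 rfl rfl rfl rfl rfl rfl)) (nf_ph hq (ia := 1) (ib := 2) (ic := 4) rfl rfl rfl rfl))))

def c8_2_2_p0 : List Nat := [
0x6bf00000009500000009300000009100000008f00000009f00000009d0000000970000000b30000000990000000b5000b00]

def c8_2_2_pf : List Nat := c8_2_2_p0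

theorem c8_2_2_ref {V : Type} {S : SRel V} {p : Nat → V} (hp : ∀ i j, i < 5 → j < 5 → p i = p j → i = j)
    (hts : PHs S p 5 (mA ++ (gf (fun x => 8 + cr 4 x) rf8 ++ (gf (fun x => 8 + c6 2 0 1 3 4 x) f2 ++ fp1.map (tren (n6 1 2 4)))))) : False :=
  refuteS (k := 5) (n2 := 3) (n3 := 1) (n4 := 3) (o3 := 45) (o4 := 80) (M := 440) (mA ++ (gf (fun x => 8 + cr 4 x) rf8 ++ (gf (fun x => 8 + c6 2 0 1 3 4 x) f2 ++ fp1.map (tren (n6 1 2 4))))) c8_2_2_pf (by decide +kernel)
    (by decide +kernel) (by decide +kernel) (by decide +kernel) hp hts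

theorem c8_2_2 {V : Type} {W : Mw V} (h : W.Hy) {a b c d : V} (nd : [W.z, a, b, c, d].Nodup)
    (hr : Hit (mrel0 h.bs) (pt [a, b, c, d] W.z) rf8)
    (hf : Hit (mrel0 h.bs) (v6 W.z b W.z a c d) f2)
    (hq : ¬ FS (mrel0 h.bs) W.z fp1 a b d) : False :=
  c8_2_2_ref (pt_inj (o := W.z) nd rfl) (PHs.app (h.ph rfl _) (PHs.app (gf_ph hr (cr 4) (cr_pt (n := 4) (l := [a, b, c, d]) (l' := []) rfl)) (PHs.app (gf_ph hf (c6 2 0 1 3 4) (c6_v6 rfl rfl rfl rfl rfl rfl)) (nf_ph hq (ia := 1) (ib := 2) (ic := 4) rfl rfl rfl rfl))))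

def c8_3_n_p0 : List Nat := [
0x26400300000009703ee000201,
0x48260070000000020000000990173000301,
0x86400300000000404bd000201,
0x86240070000000970000000060146000301,
0x2a60030000000ab0520000201,
0x4a260070000000020000000ab0254000301,
0xa6400300000000c05ad000201,
0x4a600300000000c0523000201,
0xa62400700000009700000000e0218000301,
0x642a00700000000a0000000100517000301,
0x482a0070000000140000000ad0203000301,
0x8a42630000000a70000000ad00000009500000009100000008f00000009d0000000120000000b305e7000901,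
0x6a82d0000000a70000000950000000930000000b5002d000501,
0xb700000009500000009100000008f00000009f00000009d000000008000c000701,
0x8a42650000000a70000000b300000009500000001a00000009100000008f0000000ad00000009d00000001200000001c0024000b01,
0x84a3500000001800000001a0000000a700000009500000009100000001600000001e0261000801,
0xabb0000000a70000000b300000009500000009100000008f00000009f00000009d0000000ad000000012000000020000b00]

def c8_3_n_pf : List Nat := c8_3_n_p0

theorem c8_3_n_ref {V : Type} {S : SRel V} {p : Nat → V} (hp : ∀ i j, i < 6 → j < 6 → p i = p j → i = j)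
    (hts : PHs S p 6 (mA ++ (gf (fun x => 8 + cr 4 x) rf8 ++ (gf (fun x => 8 + c6 5 0 1 3 4 x) f3 ++ fp1.map (tren (n6 1 2 4)))))) : False :=
  refuteS (k := 6) (n2 := 3) (n3 := 1) (n4 := 3) (o3 := 63) (o4 := 119) (M := 812) (mA ++ (gf (fun x => 8 + cr 4 x) rf8 ++ (gf (fun x => 8 + c6 5 0 1 3 4 x) f3 ++ fp1.map (tren (n6 1 2 4))))) c8_3_n_pf (by decide +kernel)
    (by decide +kernel) (by decide +kernel) (by decide +kernel) hp hts

theorem c8_3_n {V : Type} {W : Mw V} (h : W.Hy) {a b c d u : V} (nd : [W.z, a, b, c, d, u].Nodup)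
    (hr : Hit (mrel0 h.bs) (pt [a, b, c, d] W.z) rf8)
    (hf : Hit (mrel0 h.bs) (v6 W.z u W.z a c d) f3)
    (hq : ¬ FS (mrel0 h.bs) W.z fp1 a b d) : False :=
  c8_3_n_ref (pt_inj (o := W.z) nd rfl) (PHs.app (h.ph rfl _) (PHs.app (gf_ph hr (cr 4) (cr_pt (n := 4) (l := [a, b, c, d]) (l' := [u]) rfl)) (PHs.app (gf_ph hf (c6 5 0 1 3 4) (c6_v6 rfl rfl rfl rfl rfl rfl)) (nf_ph hq (ia := 1) (ib := 2) (ic := 4) rfl rfl rfl rfl))))

def c8_3_2_p0 : List Nat := [
0x2640030000000970253000201,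
0xab000000002000200]

def c8_3_2_pf : List Nat := c8_3_2_p0

theorem c8_3_2_ref {V : Type} {S : SRel V} {p : Nat → V} (hp : ∀ i j, i < 5 → j < 5 → p i = p j → i = j)
    (hts : PHs S p 5 (mA ++ (gf (fun x => 8 + cr 4 x) rf8 ++ (gf (fun x => 8 + c6 2 0 1 3 4 x) f3 ++ fp1.map (tren (n6 1 2 4)))))) : False :=
  refuteS (k := 5) (n2 := 3) (n3 := 1) (n4 := 3) (o3 := 45) (o4 := 80) (M := 440) (mA ++ (gf (fun x => 8 + cr 4 x) rf8 ++ (gf (fun x => 8 + c6 2 0 1 3 4 x) f3 ++ fp1.map (tren (n6 1 2 4))))) c8_3_2_pf (by decide +kernel)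
    (by decide +kernel) (by decide +kernel) (by decide +kernel) hp hts

theorem c8_3_2 {V : Type} {W : Mw V} (h : W.Hy) {a b c d : V} (nd : [W.z, a, b, c, d].Nodup)
    (hr : Hit (mrel0 h.bs) (pt [a, b, c, d] W.z) rf8)
    (hf : Hit (mrel0 h.bs) (v6 W.z b W.z a c d) f3)
    (hq : ¬ FS (mrel0 h.bs) W.z fp1 a b d) : False :=
  c8_3_2_ref (pt_inj (o := W.z) nd rfl) (PHs.app (h.ph rfl _) (PHs.app (gf_ph hr (cr 4) (cr_pt (n := 4) (l := [a, b, c, d]) (l' := []) rfl)) (PHs.app (gf_ph hf (c6 2 0 1 3 4) (c6_v6 rfl rfl rfl rfl rfl rfl)) (nf_ph hq (ia := 1) (ib := 2) (ic := 4) rfl rfl rfl rfl))))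

def c8_4_n_p0 : List Nat := [
0x26400300000009703ee000201,
0x286003000000099045d000201,
0x48260070000000020000000990173000301,
0x84062070000000970000000040176000301,
0x86400300000000604bd000201,
0x4860030000000060460000201,
0x84621b00000000804a3000201,
0x862400700000009700000000a0146000301,
0x642800700000000400000000c0454000301,
0x821500000009500000008f00000009d001e000401,
0x2a80030000000ad052c000201,
0x4a280070000000120000000ad0260000301,
0xa4082070000000100000000160263000301,
0xa6082070000000990000000160299000301,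
0xa8620300000001c05f2000201,
0xa84620700000000800000001e0257000301,
0xa4621b0000000200584000201,
0x4a8622500000000e0000000b50560000301,
0x48a26250000000220000000b50596000301,
0xa486450000000b30000000a900000009500000009300000009100000002604be000701,
0x6a84490000000b30000000a900000009500000009300000009100000002805e7000701,
0xb700000009500000009100000008f00000009f00000009d000000010000c000701,
0xa8642710000000a90000000b500000009500000009300000009100000008f0000000b30000000970000000990000000ad00000002c0033000c01,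
0xa4821f00000002400000001a00000009d00000002e02be000501,
0xa483500000002a0000000180000000a900000009500000009100000001400000002e0204000801,
0xabd0000000a900000009500000009100000008f00000009f00000009d0000000100000000320000000ad000000030000b00]

def c8_4_n_pf : List Nat := c8_4_n_p0

theorem c8_4_n_ref {V : Type} {S : SRel V} {p : Nat → V} (hp : ∀ i j, i < 6 → j < 6 → p i = p j → i = j)
    (hts : PHs S p 6 (mA ++ (gf (fun x => 8 + cr 4 x) rf8 ++ (gf (fun x => 8 + c6 5 0 1 3 4 x) f4 ++ fp1.map (tren (n6 1 2 4)))))) : False :=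
  refuteS (k := 6) (n2 := 3) (n3 := 1) (n4 := 3) (o3 := 63) (o4 := 119) (M := 812) (mA ++ (gf (fun x => 8 + cr 4 x) rf8 ++ (gf (fun x => 8 + c6 5 0 1 3 4 x) f4 ++ fp1.map (tren (n6 1 2 4))))) c8_4_n_pf (by decide +kernel)
    (by decide +kernel) (by decide +kernel) (by decide +kernel) hp hts

theorem c8_4_n {V : Type} {W : Mw V} (h : W.Hy) {a b c d u : V} (nd : [W.z, a, b, c, d, u].Nodup)
    (hr : Hit (mrel0 h.bs) (pt [a, b, c, d] W.z) rf8)
    (hf : Hit (mrel0 h.bs) (v6 W.z u W.z a c d) f4)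
    (hq : ¬ FS (mrel0 h.bs) W.z fp1 a b d) : False :=
  c8_4_n_ref (pt_inj (o := W.z) nd rfl) (PHs.app (h.ph rfl _) (PHs.app (gf_ph hr (cr 4) (cr_pt (n := 4) (l := [a, b, c, d]) (l' := [u]) rfl)) (PHs.app (gf_ph hf (c6 5 0 1 3 4) (c6_v6 rfl rfl rfl rfl rfl rfl)) (nf_ph hq (ia := 1) (ib := 2) (ic := 4) rfl rfl rfl rfl))))

def c8_4_2_p0 : List Nat := [
0x2640030000000970253000201,
0x28600300000009902c2000201,
0x4826007000000002000000099014c000301,
0x48600300000000602c5000201,
0x642800700000000400000000802b9000301,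
0xad00000000a000200]

def c8_4_2_pf : List Nat := c8_4_2_p0

theorem c8_4_2_ref {V : Type} {S : SRel V} {p : Nat → V} (hp : ∀ i j, i < 5 → j < 5 → p i = p j → i = j)
    (hts : PHs S p 5 (mA ++ (gf (fun x => 8 + cr 4 x) rf8 ++ (gf (fun x => 8 + c6 2 0 1 3 4 x) f4 ++ fp1.map (tren (n6 1 2 4)))))) : False :=
  refuteS (k := 5) (n2 := 3) (n3 := 1) (n4 := 3) (o3 := 45) (o4 := 80) (M := 440) (mA ++ (gf (fun x => 8 + cr 4 x) rf8 ++ (gf (fun x => 8 + c6 2 0 1 3 4 x) f4 ++ fp1.map (tren (n6 1 2 4))))) c8_4_2_pf (by decide +kernel)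
    (by decide +kernel) (by decide +kernel) (by decide +kernel) hp hts

theorem c8_4_2 {V : Type} {W : Mw V} (h : W.Hy) {a b c d : V} (nd : [W.z, a, b, c, d].Nodup)
    (hr : Hit (mrel0 h.bs) (pt [a, b, c, d] W.z) rf8)
    (hf : Hit (mrel0 h.bs) (v6 W.z b W.z a c d) f4)
    (hq : ¬ FS (mrel0 h.bs) W.z fp1 a b d) : False :=
  c8_4_2_ref (pt_inj (o := W.z) nd rfl) (PHs.app (h.ph rfl _) (PHs.app (gf_ph hr (cr 4) (cr_pt (n := 4) (l := [a, b, c, d]) (l' := []) rfl)) (PHs.app (gf_ph hf (c6 2 0 1 3 4) (c6_v6 rfl rfl rfl rfl rfl rfl)) (nf_ph hq (ia := 1) (ib := 2) (ic := 4) rfl rfl rfl rfl))))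

def c8_5_n_p0 : List Nat := [
0x26400300000009703ee000201,
0x286003000000099045d000201,
0x48260070000000020000000990173000301,
0x84062070000000970000000040176000301,
0x86400300000000604bd000201,
0x84621b00000000804a3000201,
0x862400700000009700000000a0146000301,
0x2a60030000000ab0520000201,
0x4a260070000000020000000ab0254000301,
0xa4062070000000970000000100257000301,
0xa6400300000001205ad000201,
0x4a60030000000120523000201,
0xa4621b0000000140584000201,
0xa6240070000000970000000160218000301,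
0x642a0070000000100000000180517000301,
0x2a80030000000ad0559000201,
0x482a00700000001e0000000ad0203000301,
0x840a20700000001c0000000200233000301,
0x6a82d0000000a70000000950000000930000000b3002d000501,
0x8a621d0000000b50030000201,
0x48a622500000001a0000000b50590000301,
0x4a8262500000000c0000000b505c9000301,
0x84a6450000000b30000000a700000009500000009300000009100000002c05ae000701,
0x68a4490000000b30000000a700000009500000009300000009100000002e05e7000701,
0xb700000009500000009100000008f00000009f00000009d00000000e000c000701,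
0x8a642710000000a70000000950000000b500000009300000009100000008f0000000b30000000970000000ad0000000ab0000000320024000c01,
0x84a350000000300000000260000000a70000000950000000910000000220000000340261000801,
0x84a21f00000002800000002a00000002400000003402be000501,
0xabf0000000a700000009500000009100000008f00000009f00000009d0000000ad00000001c000000036000000038000b00]

def c8_5_n_pf : List Nat := c8_5_n_p0

theorem c8_5_n_ref {V : Type} {S : SRel V} {p : Nat → V} (hp : ∀ i j, i < 6 → j < 6 → p i = p j → i = j)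
    (hts : PHs S p 6 (mA ++ (gf (fun x => 8 + cr 4 x) rf8 ++ (gf (fun x => 8 + c6 5 0 1 3 4 x) f5 ++ fp1.map (tren (n6 1 2 4)))))) : False :=
  refuteS (k := 6) (n2 := 3) (n3 := 1) (n4 := 3) (o3 := 63) (o4 := 119) (M := 812) (mA ++ (gf (fun x => 8 + cr 4 x) rf8 ++ (gf (fun x => 8 + c6 5 0 1 3 4 x) f5 ++ fp1.map (tren (n6 1 2 4))))) c8_5_n_pf (by decide +kernel)
    (by decide +kernel) (by decide +kernel) (by decide +kernel) hp hts

theorem c8_5_n {V : Type} {W : Mw V} (h : W.Hy) {a b c d u : V} (nd : [W.z, a, b, c, d, u].Nodup)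
    (hr : Hit (mrel0 h.bs) (pt [a, b, c, d] W.z) rf8)
    (hf : Hit (mrel0 h.bs) (v6 W.z u W.z a c d) f5)
    (hq : ¬ FS (mrel0 h.bs) W.z fp1 a b d) : False :=
  c8_5_n_ref (pt_inj (o := W.z) nd rfl) (PHs.app (h.ph rfl _) (PHs.app (gf_ph hr (cr 4) (cr_pt (n := 4) (l := [a, b, c, d]) (l' := [u]) rfl)) (PHs.app (gf_ph hf (c6 5 0 1 3 4) (c6_v6 rfl rfl rfl rfl rfl rfl)) (nf_ph hq (ia := 1) (ib := 2) (ic := 4) rfl rfl rfl rfl))))

def c8_5_2_p0 : List Nat := [
0x2640030000000970253000201,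
0xab000000002000200]

def c8_5_2_pf : List Nat := c8_5_2_p0

theorem c8_5_2_ref {V : Type} {S : SRel V} {p : Nat → V} (hp : ∀ i j, i < 5 → j < 5 → p i = p j → i = j)
    (hts : PHs S p 5 (mA ++ (gf (fun x => 8 + cr 4 x) rf8 ++ (gf (fun x => 8 + c6 2 0 1 3 4 x) f5 ++ fp1.map (tren (n6 1 2 4)))))) : False :=
  refuteS (k := 5) (n2 := 3) (n3 := 1) (n4 := 3) (o3 := 45) (o4 := 80) (M := 440) (mA ++ (gf (fun x => 8 + cr 4 x) rf8 ++ (gf (fun x => 8 + c6 2 0 1 3 4 x) f5 ++ fp1.map (tren (n6 1 2 4))))) c8_5_2_pf (by decide +kernel)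
    (by decide +kernel) (by decide +kernel) (by decide +kernel) hp hts

theorem c8_5_2 {V : Type} {W : Mw V} (h : W.Hy) {a b c d : V} (nd : [W.z, a, b, c, d].Nodup)
    (hr : Hit (mrel0 h.bs) (pt [a, b, c, d] W.z) rf8)
    (hf : Hit (mrel0 h.bs) (v6 W.z b W.z a c d) f5)
    (hq : ¬ FS (mrel0 h.bs) W.z fp1 a b d) : False :=
  c8_5_2_ref (pt_inj (o := W.z) nd rfl) (PHs.app (h.ph rfl _) (PHs.app (gf_ph hr (cr 4) (cr_pt (n := 4) (l := [a, b, c, d]) (l' := []) rfl)) (PHs.app (gf_ph hf (c6 2 0 1 3 4) (c6_v6 rfl rfl rfl rfl rfl rfl)) (nf_ph hq (ia := 1) (ib := 2) (ic := 4) rfl rfl rfl rfl))))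

def c8_8_n_p0 : List Nat := [
0x8420b00000009100000008f0000000950490000401,
0x26400300000009703ee000201,
0x286003000000099045d000201,
0x48260070000000040000000990173000301,
0x84062070000000970000000060176000301,
0x86400300000000804bd000201,
0x862400700000009700000000c0146000301,
0xa240d00000009100000008f0000000a30544000401,
0xa260d00000009300000008f0000000a3054d000401,
0xa6240070000000970000000100281000301,
0xa82400700000000e00000001002ba000301,
0xa82600700000009900000001202c3000301,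
0x2a460070000000040000000120580000301,
0x8a20030000000ab052c000201,
0x4a820070000000020000000ab0245000301,
0xa60820700000009900000001c0299000301,
0x620a40700000001a00000001e0257000301,
0xa6821b00000002005c6000201,
0x2a461d0000000b30554000201,
0x864a630000000b30000000950000000930000000910000000180000000a30000000140000000b504be000901,
0x6bb00000009500000009300000009100000008f00000009f00000009d00000009700000009900150461000902,
0x6bf00000009500000009300000009100000008f00000009f00000009d000000097000000099046104c1000902,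
0xac100000009500000009100000008f00000009f00000009d0000000b50000000a30000000ab0000000160033000a01,
0x864a650000000b30000000950000000b500000009300000009100000009b0000000180000000140000000a300000002e0024000b01,
0x8463500000002800000009b0000000950000000930000000910000000080000000300135000801,
0x2a0000000320015000201,
0x2c00000003204c1000201,
0x84621f00000003600000003000000000a0000000340156000501,
0xa4621f00000002e0000000260000000220000000340285000501,
0xa46822500000002400000003800000003a000400]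

def c8_8_n_pf : List Nat := c8_8_n_p0

theorem c8_8_n_ref {V : Type} {S : SRel V} {p : Nat → V} (hp : ∀ i j, i < 6 → j < 6 → p i = p j → i = j)
    (hts : PHs S p 6 (mA ++ (gf (fun x => 8 + cr 4 x) rf8 ++ (gf (fun x => 8 + c6 5 0 1 3 4 x) f8 ++ fp1.map (tren (n6 1 2 4)))))) : False :=
  refuteS (k := 6) (n2 := 3) (n3 := 1) (n4 := 3) (o3 := 63) (o4 := 119) (M := 812) (mA ++ (gf (fun x => 8 + cr 4 x) rf8 ++ (gf (fun x => 8 + c6 5 0 1 3 4 x) f8 ++ fp1.map (tren (n6 1 2 4))))) c8_8_n_pf (by decide +kernel)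
    (by decide +kernel) (by decide +kernel) (by decide +kernel) hp hts

theorem c8_8_n {V : Type} {W : Mw V} (h : W.Hy) {a b c d u : V} (nd : [W.z, a, b, c, d, u].Nodup)
    (hr : Hit (mrel0 h.bs) (pt [a, b, c, d] W.z) rf8)
    (hf : Hit (mrel0 h.bs) (v6 W.z u W.z a c d) f8)
    (hq : ¬ FS (mrel0 h.bs) W.z fp1 a b d) : False :=
  c8_8_n_ref (pt_inj (o := W.z) nd rfl) (PHs.app (h.ph rfl _) (PHs.app (gf_ph hr (cr 4) (cr_pt (n := 4) (l := [a, b, c, d]) (l' := [u]) rfl)) (PHs.app (gf_ph hf (c6 5 0 1 3 4) (c6_v6 rfl rfl rfl rfl rfl rfl)) (nf_ph hq (ia := 1) (ib := 2) (ic := 4) rfl rfl rfl rfl))))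

def c8_8_2_p0 : List Nat := [
0xa3000000091000200]

def c8_8_2_pf : List Nat := c8_8_2_p0

theorem c8_8_2_ref {V : Type} {S : SRel V} {p : Nat → V} (hp : ∀ i j, i < 5 → j < 5 → p i = p j → i = j)
    (hts : PHs S p 5 (mA ++ (gf (fun x => 8 + cr 4 x) rf8 ++ (gf (fun x => 8 + c6 2 0 1 3 4 x) f8 ++ fp1.map (tren (n6 1 2 4)))))) : False :=
  refuteS (k := 5) (n2 := 3) (n3 := 1) (n4 := 3) (o3 := 45) (o4 := 80) (M := 440) (mA ++ (gf (fun x => 8 + cr 4 x) rf8 ++ (gf (fun x => 8 + c6 2 0 1 3 4 x) f8 ++ fp1.map (tren (n6 1 2 4))))) c8_8_2_pf (by decide +kernel)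
    (by decide +kernel) (by decide +kernel) (by decide +kernel) hp hts

theorem c8_8_2 {V : Type} {W : Mw V} (h : W.Hy) {a b c d : V} (nd : [W.z, a, b, c, d].Nodup)
    (hr : Hit (mrel0 h.bs) (pt [a, b, c, d] W.z) rf8)
    (hf : Hit (mrel0 h.bs) (v6 W.z b W.z a c d) f8)
    (hq : ¬ FS (mrel0 h.bs) W.z fp1 a b d) : False :=
  c8_8_2_ref (pt_inj (o := W.z) nd rfl) (PHs.app (h.ph rfl _) (PHs.app (gf_ph hr (cr 4) (cr_pt (n := 4) (l := [a, b, c, d]) (l' := []) rfl)) (PHs.app (gf_ph hf (c6 2 0 1 3 4) (c6_v6 rfl rfl rfl rfl rfl rfl)) (nf_ph hq (ia := 1) (ib := 2) (ic := 4) rfl rfl rfl rfl))))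

def c8_9_n_p0 : List Nat := [
0x8420b00000009100000008f0000000950490000401,
0x26400300000009703ee000201,
0x286003000000099045d000201,
0x48260070000000040000000990173000301,
0x84062070000000970000000060176000301,
0x86400300000000804bd000201,
0x862400700000009700000000c0146000301,
0x84a20900000009500000009100000008f0000000a3055f000501,
0xa240d00000009100000008f0000000a30544000401,
0xa260d00000009300000008f0000000a3054d000401,
0xa62840700000000a000000010029c000301,
0xa6240070000000970000000120281000301,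
0xa82400700000000e00000001202ba000301,
0xa82600700000009900000001402c3000301,
0x2a460070000000040000000140580000301,
0x4a820070000000020000000ab0245000301,
0x620a40700000001e0000000200257000301,
0xa4621b0000000220584000201,
0x8a261d0000000b30036000201,
0x48a26250000000240000000b30596000301,
0xb500000009500000009100000008f00000009f00000009d00000000e000c000701,
0x8642a790000000950000000b300000009300000009100000008f0000000ab0000000a300000001800000001c00000002a0024000b01,
0xa6841f00000002600000002800000001600000002c02ca000501,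
0x462a8230000000b300000002e02be000301,
0xac100000009500000009100000008f00000009f00000009d0000000a30000000ab00000001a000000030000a00]

def c8_9_n_pf : List Nat := c8_9_n_p0

theorem c8_9_n_ref {V : Type} {S : SRel V} {p : Nat → V} (hp : ∀ i j, i < 6 → j < 6 → p i = p j → i = j)
    (hts : PHs S p 6 (mA ++ (gf (fun x => 8 + cr 4 x) rf8 ++ (gf (fun x => 8 + c6 5 0 1 3 4 x) f9 ++ fp1.map (tren (n6 1 2 4)))))) : False :=
  refuteS (k := 6) (n2 := 3) (n3 := 1) (n4 := 3) (o3 := 63) (o4 := 119) (M := 812) (mA ++ (gf (fun x => 8 + cr 4 x) rf8 ++ (gf (fun x => 8 + c6 5 0 1 3 4 x) f9 ++ fp1.map (tren (n6 1 2 4))))) c8_9_n_pf (by decide +kernel)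
    (by decide +kernel) (by decide +kernel) (by decide +kernel) hp hts

theorem c8_9_n {V : Type} {W : Mw V} (h : W.Hy) {a b c d u : V} (nd : [W.z, a, b, c, d, u].Nodup)
    (hr : Hit (mrel0 h.bs) (pt [a, b, c, d] W.z) rf8)
    (hf : Hit (mrel0 h.bs) (v6 W.z u W.z a c d) f9)
    (hq : ¬ FS (mrel0 h.bs) W.z fp1 a b d) : False :=
  c8_9_n_ref (pt_inj (o := W.z) nd rfl) (PHs.app (h.ph rfl _) (PHs.app (gf_ph hr (cr 4) (cr_pt (n := 4) (l := [a, b, c, d]) (l' := [u]) rfl)) (PHs.app (gf_ph hf (c6 5 0 1 3 4) (c6_v6 rfl rfl rfl rfl rfl rfl)) (nf_ph hq (ia := 1) (ib := 2) (ic := 4) rfl rfl rfl rfl))))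

def c8_9_2_p0 : List Nat := [
0xa3000000091000200]

def c8_9_2_pf : List Nat := c8_9_2_p0

theorem c8_9_2_ref {V : Type} {S : SRel V} {p : Nat → V} (hp : ∀ i j, i < 5 → j < 5 → p i = p j → i = j)
    (hts : PHs S p 5 (mA ++ (gf (fun x => 8 + cr 4 x) rf8 ++ (gf (fun x => 8 + c6 2 0 1 3 4 x) f9 ++ fp1.map (tren (n6 1 2 4)))))) : False :=
  refuteS (k := 5) (n2 := 3) (n3 := 1) (n4 := 3) (o3 := 45) (o4 := 80) (M := 440) (mA ++ (gf (fun x => 8 + cr 4 x) rf8 ++ (gf (fun x => 8 + c6 2 0 1 3 4 x) f9 ++ fp1.map (tren (n6 1 2 4))))) c8_9_2_pf (by decide +kernel)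
    (by decide +kernel) (by decide +kernel) (by decide +kernel) hp hts

theorem c8_9_2 {V : Type} {W : Mw V} (h : W.Hy) {a b c d : V} (nd : [W.z, a, b, c, d].Nodup)
    (hr : Hit (mrel0 h.bs) (pt [a, b, c, d] W.z) rf8)
    (hf : Hit (mrel0 h.bs) (v6 W.z b W.z a c d) f9)
    (hq : ¬ FS (mrel0 h.bs) W.z fp1 a b d) : False :=
  c8_9_2_ref (pt_inj (o := W.z) nd rfl) (PHs.app (h.ph rfl _) (PHs.app (gf_ph hr (cr 4) (cr_pt (n := 4) (l := [a, b, c, d]) (l' := []) rfl)) (PHs.app (gf_ph hf (c6 2 0 1 3 4) (c6_v6 rfl rfl rfl rfl rfl rfl)) (nf_ph hq (ia := 1) (ib := 2) (ic := 4) rfl rfl rfl rfl))))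

theorem P8_0 {V : Type} {W : Mw V} (h : W.Hy) {a b c d u w : V} (nd : [W.z, a, b, c, d].Nodup)
    (hr : Hit (mrel0 h.bs) (pt [a, b, c, d] W.z) rf8)
    (hf : Hit (mrel0 h.bs) (v6 W.z u w a c d) f0) (hq : ¬ FS (mrel0 h.bs) W.z fp1 a b d) : False := by
  exact c8_0 h nd hr (hit00 (by decide) hf) hq

theorem P8_2 {V : Type} {W : Mw V} (h : W.Hy) {a b c d u w : V} (nd : [W.z, a, b, c, d].Nodup)
    (hr : Hit (mrel0 h.bs) (pt [a, b, c, d] W.z) rf8)
    (hf : Hit (mrel0 h.bs) (v6 W.z u w a c d) f2) (hq : ¬ FS (mrel0 h.bs) W.z fp1 a b d) : False := by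
  have hf := hit01 (by decide) hf
  have hs := hn1 hf rfl
  by_cases ib : u = b
  · subst ib
    exact c8_2_2 h nd hr hf hq
  exact c8_2_n h (nd_snoc nd (nin5 hs.1 hs.2.1 ib hs.2.2.1 hs.2.2.2)) hr hf hq

theorem P8_3 {V : Type} {W : Mw V} (h : W.Hy) {a b c d u w : V} (nd : [W.z, a, b, c, d].Nodup)
    (hr : Hit (mrel0 h.bs) (pt [a, b, c, d] W.z) rf8)
    (hf : Hit (mrel0 h.bs) (v6 W.z u w a c d) f3) (hq : ¬ FS (mrel0 h.bs) W.z fp1 a b d) : False := by
  have hf := hit01 (by decide) hf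
  have hs := hn1 hf rfl
  by_cases ib : u = b
  · subst ib
    exact c8_3_2 h nd hr hf hq
  exact c8_3_n h (nd_snoc nd (nin5 hs.1 hs.2.1 ib hs.2.2.1 hs.2.2.2)) hr hf hq

theorem P8_4 {V : Type} {W : Mw V} (h : W.Hy) {a b c d u w : V} (nd : [W.z, a, b, c, d].Nodup)
    (hr : Hit (mrel0 h.bs) (pt [a, b, c, d] W.z) rf8)
    (hf : Hit (mrel0 h.bs) (v6 W.z u w a c d) f4) (hq : ¬ FS (mrel0 h.bs) W.z fp1 a b d) : False := by
  have hf := hit01 (by decide) hf
  have hs := hn1 hf rfl
  by_cases ib : u = b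
  · subst ib
    exact c8_4_2 h nd hr hf hq
  exact c8_4_n h (nd_snoc nd (nin5 hs.1 hs.2.1 ib hs.2.2.1 hs.2.2.2)) hr hf hq

theorem P8_5 {V : Type} {W : Mw V} (h : W.Hy) {a b c d u w : V} (nd : [W.z, a, b, c, d].Nodup)
    (hr : Hit (mrel0 h.bs) (pt [a, b, c, d] W.z) rf8)
    (hf : Hit (mrel0 h.bs) (v6 W.z u w a c d) f5) (hq : ¬ FS (mrel0 h.bs) W.z fp1 a b d) : False := by
  have hf := hit01 (by decide) hf
  have hs := hn1 hf rfl
  by_cases ib : u = b
  · subst ib
    exact c8_5_2 h nd hr hf hq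
  exact c8_5_n h (nd_snoc nd (nin5 hs.1 hs.2.1 ib hs.2.2.1 hs.2.2.2)) hr hf hq

theorem P8_8 {V : Type} {W : Mw V} (h : W.Hy) {a b c d u w : V} (nd : [W.z, a, b, c, d].Nodup)
    (hr : Hit (mrel0 h.bs) (pt [a, b, c, d] W.z) rf8)
    (hf : Hit (mrel0 h.bs) (v6 W.z u w a c d) f8) (hq : ¬ FS (mrel0 h.bs) W.z fp1 a b d) : False := by
  have hf := hit01 (by decide) hf
  have hs := hn1 hf rfl
  by_cases ib : u = b
  · subst ib
    exact c8_8_2 h nd hr hf hq
  exact c8_8_n h (nd_snoc nd (nin5 hs.1 hs.2.1 ib hs.2.2.1 hs.2.2.2)) hr hf hq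

theorem P8_9 {V : Type} {W : Mw V} (h : W.Hy) {a b c d u w : V} (nd : [W.z, a, b, c, d].Nodup)
    (hr : Hit (mrel0 h.bs) (pt [a, b, c, d] W.z) rf8)
    (hf : Hit (mrel0 h.bs) (v6 W.z u w a c d) f9) (hq : ¬ FS (mrel0 h.bs) W.z fp1 a b d) : False := by
  have hf := hit01 (by decide) hf
  have hs := hn1 hf rfl
  by_cases ib : u = b
  · subst ib
    exact c8_9_2 h nd hr hf hq
  exact c8_9_n h (nd_snoc nd (nin5 hs.1 hs.2.1 ib hs.2.2.1 hs.2.2.2)) hr hf hq

theorem R8 {V : Type} {W : Mw V} (h : W.Hy) {a b c d : V} (nd : [W.z, a, b, c, d].Nodup)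
    (hr : Hit (mrel0 h.bs) (pt [a, b, c, d] W.z) rf8)
    (hp : FS (mrel0 h.bs) W.z fp1 a c d) : FS (mrel0 h.bs) W.z fp1 a b d := by
  by_contra hq
  obtain ⟨t, ht, u, w, hf⟩ := hp
  simp only [fp1, List.mem_cons, List.not_mem_nil, or_false] at ht
  rcases ht with rfl | rfl | rfl | rfl | rfl | rfl | rfl
  · exact P8_0 h nd hr hf hq
  · exact P8_2 h nd hr hf hq
  · exact P8_3 h nd hr hf hq
  · exact P8_4 h nd hr hf hq
  · exact P8_5 h nd hr hf hq
  · exact P8_8 h nd hr hf hq
  · exact P8_9 h nd hr hf hq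

end Pool.Agent.SOU
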