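import Pool.Agent.RUP.Gen

/-! Project SOU (MP_66ba69_lc, mixed insertion of a centre), module Gen: patterns as templates, renaming of arguments,
facts of a pattern as templates. -/

set_option autoImplicit false

namespace Pool.Agent.SOU

open Pool.Agent.RUP

/-- rename the arguments -/
def lren (r : Nat → Nat) : Lt → Lt
  | Lt.b s i x y => Lt.b s i (r x) (r y)
  | Lt.t s i x y z => Lt.t s i (r x) (r y) (r z)
  | Lt.q s i x y z w => Lt.q s i (r x) (r y) (r z) (r w)

/-- change the sign -/
def lfl : Lt → Lt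
  | Lt.b s i x y => Lt.b (!s) i x y
  | Lt.t s i x y z => Lt.t (!s) i x y z
  | Lt.q s i x y z w => Lt.q (!s) i x y z w

/-- rename the arguments of a template -/
def tren (r : Nat → Nat) (t : Tm) : Tm := ⟨t.nd, t.lt, t.ne.map (fun q => (r q.1, r q.2)), t.ls.map (lren r)⟩

/-- the facts of a failing template -/
def gf (r : Nat → Nat) (t : Tm) : List Tm := t.ls.map (fun l => ⟨0, [], [], [lfl (lren r l)]⟩)

section
variable {V : Type} {S : SRel V}

theorem ns_ren (r : Nat → Nat) (v : Nat → V) (l : Lt) : (lren r l).ns S v = l.ns S (fun x => v (r x)) := by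
  cases l with
  | b s i x y => cases s <;> rfl
  | t s i x y z => cases s <;> rfl
  | q s i x y z w => cases s <;> rfl

theorem negs_ren (r : Nat → Nat) (v : Nat → V) : ∀ ls : List Lt, negs S v (ls.map (lren r)) = negs S (fun x => v (r x)) ls
  | [] => rfl
  | l :: ls => by
    show ((lren r l).ns S v → negs S v (ls.map (lren r))) = _
    rw [ns_ren, negs_ren r v ls]
    rfl

theorem neq_ren (r : Nat → Nat) (v : Nat → V) (P : Prop) : ∀ ne : List (Nat × Nat),
    neq v (ne.map (fun q => (r q.1, r q.2))) P = neq (fun x => v (r x)) ne P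
  | [] => rfl
  | q :: ne => by
    show (v (r q.1) ≠ v (r q.2) → neq v (ne.map (fun q => (r q.1, r q.2))) P) = _
    rw [neq_ren r v P ne]
    rfl

/-- the template fails -/
def Hit (S : SRel V) (v : Nat → V) (t : Tm) : Prop := (∀ q ∈ t.ne, v q.1 ≠ v q.2) ∧ ∀ l ∈ t.ls, l.ns S v

theorem neq_in {v : Nat → V} {P : Prop} : ∀ {ne : List (Nat × Nat)}, ((∀ q ∈ ne, v q.1 ≠ v q.2) → P) → neq v ne P
  | [], h => h (fun _ h => absurd h List.not_mem_nil)
  | q :: ne, h => fun h1 => neq_in (ne := ne) fun h2 => h fun r hr => by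
    rcases List.mem_cons.1 hr with rfl | h3
    · exact h1
    · exact h2 r h3

theorem negs_in {v : Nat → V} : ∀ {ls : List Lt}, ((∀ l ∈ ls, l.ns S v) → False) → negs S v ls
  | [], h => h (fun _ h => absurd h List.not_mem_nil)
  | l :: ls, h => fun h1 => negs_in (ls := ls) fun h2 => h fun r hr => by
    rcases List.mem_cons.1 hr with rfl | h3
    · exact h1
    · exact h2 r h3

theorem negs_out {v : Nat → V} : ∀ {ls : List Lt}, negs S v ls → (∀ l ∈ ls, l.ns S v) → False
  | [], h, _ => h
  | l :: ls, h, h2 => negs_out (ls := ls) (h (h2 l (List.mem_cons_self ..))) fun m hm => h2 m (List.mem_cons_of_mem _ hm)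

theorem of_not_hit {v : Nat → V} {t : Tm} (h : ¬ Hit S v t) : neq v t.ne (negs S v t.ls) :=
  neq_in fun h1 => negs_in fun h2 => h ⟨h1, h2⟩

theorem not_hit {v : Nat → V} {t : Tm} (h : neq v t.ne (negs S v t.ls)) : ¬ Hit S v t :=
  fun h1 => negs_out (neq_elim h h1.1) h1.2

theorem fl_ns {v : Nat → V} {l : Lt} (h : l.ns S v) : ¬ (lfl l).ns S v := by
  cases l with
  | b s i x y =>
    cases s
    · exact fun h1 => h1 h
    · exact fun h1 => h h1
  | t s i x y z =>
    cases s
    · exact fun h1 => h1 h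
    · exact fun h1 => h h1
  | q s i x y z w =>
    cases s
    · exact fun h1 => h1 h
    · exact fun h1 => h h1

/-- the facts of a failing template, as templates -/
theorem gf_ph {p : Nat → V} {k : Nat} {v : Nat → V} {t : Tm} (h : Hit S v t) (c : Nat → Nat)
    (hc : ∀ x, p (c x) = v x) : PHs S p k (gf (fun x => 8 + c x) t) := by
  have key : ∀ ls : List Lt, (∀ l ∈ ls, l.ns S v) →
      PHs S p k (ls.map (fun l => ⟨0, [], [], [lfl (lren (fun x => 8 + c x) l)]⟩)) := by
    intro ls
    induction ls with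
    | nil => exact fun _ => trivial
    | cons l ls ih =>
      intro h1
      refine ⟨?_, ih fun m hm => h1 m (List.mem_cons_of_mem _ hm)⟩
      intro d _ h2
      refine fl_ns ?_ h2
      rw [ns_ren]
      have h3 : (fun x => vl d p (8 + c x)) = v := by
        funext x
        have h4 : Nat.ble 8 (8 + c x) = true := Nat.ble_eq_true_of_le (by omega)
        unfold vl
        rw [h4]
        show p (8 + c x - 8) = v x
        rw [Nat.add_sub_cancel_left]
        exact hc x
      rw [h3]
      exact h1 l (List.mem_cons_self ..)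
  exact key t.ls h.2

/-- the template holds for all points, the constant is `z` -/
def TH (S : SRel V) (z : V) (t : Tm) : Prop := ∀ d : Nat → V, neq (vl d fun _ => z) t.ne (negs S (vl d fun _ => z) t.ls)

/-- all templates hold -/
def THs (S : SRel V) (z : V) : List Tm → Prop
  | [] => True
  | t :: ts => TH S z t ∧ THs S z ts

theorem THs.nil {z : V} : THs S z [] := trivial

theorem THs.cons {z : V} {t : Tm} {ts : List Tm} (h : TH S z t) (hs : THs S z ts) : THs S z (t :: ts) := ⟨h, hs⟩

theorem THs.app {z : V} : ∀ {ts ts' : List Tm}, THs S z ts → THs S z ts' → THs S z (ts ++ ts')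
  | [], _, _, h' => h'
  | _ :: _, _, h, h' => ⟨h.1, THs.app h.2 h'⟩

theorem THs.mem {z : V} : ∀ {ts : List Tm}, THs S z ts → ∀ t ∈ ts, TH S z t
  | [], _, _, ht => absurd ht List.not_mem_nil
  | s :: ts, h, t, ht => by
    rcases List.mem_cons.1 ht with rfl | h1
    · exact h.1
    · exact THs.mem h.2 t h1

theorem THs.of_mem {z : V} : ∀ {ts : List Tm}, (∀ t ∈ ts, TH S z t) → THs S z ts
  | [], _ => trivial
  | _ :: _, h => ⟨h _ (List.mem_cons_self ..), THs.of_mem fun t ht => h t (List.mem_cons_of_mem _ ht)⟩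

/-- digits remain, constants become the constant 8 -/
def zr (x : Nat) : Nat := match Nat.ble 8 x with
  | true => 8
  | false => x

theorem vl_zr {z : V} {p : Nat → V} (h0 : p 0 = z) (d : Nat → V) :
    (fun x => vl d p (zr x)) = vl d fun _ => z := by
  funext x
  unfold zr
  cases h : Nat.ble 8 x with
  | true =>
    show vl d p 8 = vl d (fun _ => z) x
    unfold vl
    rw [h]
    exact h0
  | false =>
    show vl d p x = vl d (fun _ => z) x
    unfold vl
    rw [h]

theorem TH.ph {z : V} {t : Tm} (h : TH S z t) {p : Nat → V} (h0 : p 0 = z) (k : Nat) : PH S p k (tren zr t) := by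
  intro d _
  show neq (vl d p) (t.ne.map (fun q => (zr q.1, zr q.2))) (negs S (vl d p) (t.ls.map (lren zr)))
  rw [neq_ren, negs_ren, vl_zr h0]
  exact h d

theorem THs.ph {z : V} : ∀ {ts : List Tm}, THs S z ts → ∀ {p : Nat → V}, p 0 = z → ∀ k : Nat,
    PHs S p k (ts.map (tren zr))
  | [], _, _, _, _ => trivial
  | _ :: _, h, _, h0, k => ⟨h.1.ph h0 k, THs.ph h.2 h0 k⟩

/-- the valuation of the patterns: two witnesses, three points -/
def v6 (z u w a b c : V) : Nat → V
  | 0 => u
  | 1 => w
  | 9 => a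
  | 10 => b
  | 11 => c
  | _ => z

/-- the indices of the points of a pattern -/
def c6 (u w a b c : Nat) : Nat → Nat
  | 0 => u
  | 1 => w
  | 9 => a
  | 10 => b
  | 11 => c
  | _ => 0

/-- the new arguments for the negation of a pattern -/
def n6 (a b c : Nat) : Nat → Nat
  | 0 => 0
  | 1 => 1
  | 9 => 8 + a
  | 10 => 8 + b
  | 11 => 8 + c
  | _ => 8

theorem c6_v6 {p : Nat → V} {z u w a b c : V} {iu iw ia ib ic : Nat} (h0 : p 0 = z) (hu : p iu = u) (hw : p iw = w)
    (ha : p ia = a) (hb : p ib = b) (hc : p ic = c) : ∀ x, p (c6 iu iw ia ib ic x) = v6 z u w a b c x := by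
  intro x
  unfold c6 v6
  split <;> assumption

/-- some pattern of the list holds for the triple -/
def FS (S : SRel V) (z : V) (L : List Tm) (a b c : V) : Prop := ∃ t ∈ L, ∃ u w, Hit S (v6 z u w a b c) t

theorem vl_n6 {p : Nat → V} {z a b c : V} {ia ib ic : Nat} (h0 : p 0 = z) (ha : p ia = a) (hb : p ib = b)
    (hc : p ic = c) (d : Nat → V) : (fun x => vl d p (n6 ia ib ic x)) = v6 z (d 0) (d 1) a b c := by
  have key : ∀ n, vl d p (8 + n) = p n := by
    intro n
    have h4 : Nat.ble 8 (8 + n) = true := Nat.ble_eq_true_of_le (by omega)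
    unfold vl
    rw [h4]
    show p (8 + n - 8) = _
    rw [Nat.add_sub_cancel_left]
  funext x
  unfold n6 v6
  split
  · rfl
  · rfl
  · rw [key, ha]
  · rw [key, hb]
  · rw [key, hc]
  · exact h0

theorem nf_ph {z a b c : V} : ∀ {L : List Tm}, ¬ FS S z L a b c → ∀ {p : Nat → V} {k ia ib ic : Nat}, p 0 = z → p ia = a →
    p ib = b → p ic = c → PHs S p k (L.map (tren (n6 ia ib ic)))
  | [], _, _, _, _, _, _, _, _, _, _ => trivial
  | t :: L, h, p, k, ia, ib, ic, h0, ha, hb, hc => by
    refine ⟨?_, nf_ph (L := L) (fun h1 => h ?_) h0 ha hb hc⟩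
    · intro d _
      show neq (vl d p) (t.ne.map (fun q => (n6 ia ib ic q.1, n6 ia ib ic q.2)))
        (negs S (vl d p) (t.ls.map (lren (n6 ia ib ic))))
      rw [neq_ren, negs_ren, vl_n6 h0 ha hb hc]
      exact of_not_hit fun h1 => h ⟨t, List.mem_cons_self .., d 0, d 1, h1⟩
    · obtain ⟨s, h2, h3⟩ := h1
      exact ⟨s, List.mem_cons_of_mem _ h2, h3⟩

/-- the valuation of the rules: five points -/
def v5 (z a b c d e : V) : Nat → V
  | 0 => a
  | 1 => b
  | 2 => c
  | 3 => d
  | 4 => e
  | _ => z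

/-- the indices of the points of a rule -/
def c5 (x : Nat) : Nat := match Nat.ble x 4 with
  | true => x + 1
  | false => 0

theorem nd_snoc : ∀ {l : List V} {x : V}, l.Nodup → x ∉ l → (l ++ [x]).Nodup := by
  intro l x h1 h2
  rw [List.nodup_append]
  refine ⟨h1, List.nodup_singleton x, ?_⟩
  intro a ha b hb hab
  rw [List.mem_singleton] at hb
  subst hb
  subst hab
  exact h2 ha

end

end Pool.Agent.SOU
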