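import Pool.Agent.SOQ.Defs
import Pool.Agent.SOU.Gen

/-! Project SOU (MP_66ba69_lc, mixed insertion of a centre), module Defs.

`z` is a vertex between the two sides `R` and `L` (all other vertices); both `R | L + z` and `R + z | L` are cuts of the
cyclic order and P-cuts. `T` is a structure on all quartets except the MIXED ones (`z` and three vertices which are not
all on one side). -/

set_option autoImplicit false

namespace Pool.Agent.SOU

open Pool.Agent.RUP Pool.Agent.SOQ

/-- the data -/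
structure Mw (V : Type) where
  G : SimpleGraph V
  f : V → ℕ
  z : V
  R : V → Prop
  T : V → V → V → V → Prop

variable {V : Type}

/-- the basic hypotheses -/
structure Mw.Bs (W : Mw V) : Prop where
  inj : Function.Injective W.f
  zR : ¬ W.R W.z
  t1 : ∀ {a b c d}, W.T a b c d → W.T b a c d
  t2 : ∀ {a b c d}, W.T a b c d → W.T c d a b
  cut1 : ∀ {a b c d}, W.R a → W.R b → ¬ W.R c → ¬ W.R d → ¬ CrF W.f a b c d
  cut2 : ∀ {a b c}, W.R a → ¬ W.R b → ¬ W.R c → b ≠ W.z → c ≠ W.z → ¬ CrF W.f W.z a b c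
  pc1 : ∀ {a b c d}, W.R a → W.R b → ¬ W.R c → ¬ W.R d → W.G.Adj a c → W.G.Adj b d →
    (W.G.Adj a b ∧ W.G.Adj c d) ∨ (W.G.Adj a d ∧ W.G.Adj b c)
  pc2 : ∀ {a b c}, ¬ W.R a → a ≠ W.z → ¬ W.R b → b ≠ W.z → W.R c → W.G.Adj W.z a → W.G.Adj b c →
    (W.G.Adj W.z c ∧ W.G.Adj a b) ∨ (W.G.Adj W.z b ∧ W.G.Adj a c)
  zl : ∀ {a b}, W.R a → ¬ W.R b → b ≠ W.z → W.G.Adj a b → W.G.Adj W.z a ∧ W.G.Adj W.z b

/-- binary relations -/
def mu2 (W : Mw V) : Nat → V → V → Prop
  | 0 => W.G.Adj
  | 2 => fun a b => a = b ∧ W.R a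
  | _ => fun _ _ => False

/-- quaternary relations -/
def mu4 (W : Mw V) (U : V → V → V → V → Prop) : Nat → V → V → V → V → Prop
  | 0 => CrF W.f
  | 1 => W.T
  | 2 => U
  | _ => fun _ _ _ _ => False

/-- a relation with the symmetries of a quartet -/
structure Sy4 (U : V → V → V → V → Prop) : Prop where
  u1 : ∀ {a b c d}, U a b c d → U b a c d
  u2 : ∀ {a b c d}, U a b c d → U c d a b

/-- the empty relation -/
def no4 : V → V → V → V → Prop := fun _ _ _ _ => False

theorem no4_sy : Sy4 (no4 (V := V)) := ⟨fun h => h, fun h => h⟩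

/-- the relations for the refutations -/
def mrel {W : Mw V} (h : W.Bs) {U : V → V → V → V → Prop} (hu : Sy4 U) : SRel V where
  r2 := mu2 W
  r3 := fun _ _ _ _ => False
  r4 := mu4 W U
  s2 := by
    intro r a b e
    unfold mu2 at e ⊢
    split at e
    · exact SimpleGraph.Adj.symm e
    · exact ⟨e.1.symm, e.1 ▸ e.2⟩
    · exact e
  s3 := fun e => e
  s3' := fun e => e
  s4 := by
    intro r a b c d e
    unfold mu4 at e ⊢
    split at e
    · exact (crF_sepr h.inj).swap e
    · exact h.t1 e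
    · exact hu.u1 e
    · exact e
  s4' := by
    intro r a b c d e
    unfold mu4 at e ⊢
    split at e
    · exact (crF_sepr h.inj).comm e
    · exact h.t2 e
    · exact hu.u2 e
    · exact e

/-- the relations without the new structure -/
def mrel0 {W : Mw V} (h : W.Bs) : SRel V := mrel h no4_sy

/-- the arguments of a literal -/
def largs : Lt → List Nat
  | Lt.b _ _ x y => [x, y]
  | Lt.t _ _ x y z => [x, y, z]
  | Lt.q _ _ x y z w => [x, y, z, w]

/-- the arguments of a template -/
def targs (t : Tm) : List Nat := t.ne.flatMap (fun q => [q.1, q.2]) ++ t.ls.flatMap largs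

/-- the literal does not use the new structure -/
def lnu : Lt → Bool
  | Lt.q _ i _ _ _ _ => Nat.ble i 1
  | _ => true

theorem ns_congr {S : SRel V} {v v' : Nat → V} {l : Lt} (h : ∀ x ∈ largs l, v x = v' x) : l.ns S v → l.ns S v' := by
  cases l with
  | b s i x y =>
    have h1 := h x (by simp [largs])
    have h2 := h y (by simp [largs])
    cases s <;> simp only [Lt.ns, h1, h2] <;> exact id
  | t s i x y z =>
    have h1 := h x (by simp [largs])
    have h2 := h y (by simp [largs])
    have h3 := h z (by simp [largs])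
    cases s <;> simp only [Lt.ns, h1, h2, h3] <;> exact id
  | q s i x y z w =>
    have h1 := h x (by simp [largs])
    have h2 := h y (by simp [largs])
    have h3 := h z (by simp [largs])
    have h4 := h w (by simp [largs])
    cases s <;> simp only [Lt.ns, h1, h2, h3, h4] <;> exact id

theorem hit_congr {S : SRel V} {v v' : Nat → V} {t : Tm} (h : ∀ x ∈ targs t, v x = v' x) (hh : Hit S v t) : Hit S v' t := by
  constructor
  · intro q hq
    rw [← h q.1 ?_, ← h q.2 ?_]
    · exact hh.1 q hq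
    · exact List.mem_append_left _ (List.mem_flatMap.2 ⟨q, hq, by simp⟩)
    · exact List.mem_append_left _ (List.mem_flatMap.2 ⟨q, hq, by simp⟩)
  · intro l hl
    exact ns_congr (fun x hx => h x (List.mem_append_right _ (List.mem_flatMap.2 ⟨l, hl, hx⟩))) (hh.2 l hl)

theorem ns_nu {W : Mw V} {h : W.Bs} {U U' : V → V → V → V → Prop} {hu : Sy4 U} {hu' : Sy4 U'} {v : Nat → V} {l : Lt}
    (hl : lnu l = true) : l.ns (mrel h hu) v → l.ns (mrel h hu') v := by
  cases l with
  | b s i x y => cases s <;> exact id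
  | t s i x y z => cases s <;> exact id
  | q s i x y z w =>
    have h1 : i ≤ 1 := Nat.le_of_ble_eq_true hl
    match i, h1 with
    | 0, _ => cases s <;> exact id
    | 1, _ => cases s <;> exact id

theorem hit_nu {W : Mw V} {h : W.Bs} {U U' : V → V → V → V → Prop} {hu : Sy4 U} {hu' : Sy4 U'} {v : Nat → V} {t : Tm}
    (ht : t.ls.all lnu = true) (hh : Hit (mrel h hu) v t) : Hit (mrel h hu') v t :=
  ⟨hh.1, fun l hl => ns_nu (List.all_eq_true.1 ht l hl) (hh.2 l hl)⟩

theorem th_nu {W : Mw V} {h : W.Bs} {U U' : V → V → V → V → Prop} {hu : Sy4 U} {hu' : Sy4 U'} {z : V} {t : Tm}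
    (ht : t.ls.all lnu = true) (hh : TH (mrel h hu) z t) : TH (mrel h hu') z t :=
  fun d => of_not_hit fun h1 => not_hit (hh d) (hit_nu ht h1)

theorem ths_nu {W : Mw V} {h : W.Bs} {U U' : V → V → V → V → Prop} {hu : Sy4 U} {hu' : Sy4 U'} {z : V} {ts : List Tm}
    (ht : (ts.all fun t => t.ls.all lnu) = true) (hh : THs (mrel h hu) z ts) : THs (mrel h hu') z ts :=
  THs.of_mem fun t hm => th_nu (List.all_eq_true.1 ht t hm) (hh.mem t hm)

/-- unused witnesses -/
theorem hit00 {S : SRel V} {z u w a b c : V} {t : Tm} (ht : ((targs t).all fun x => x != 0 && x != 1) = true)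
    (hh : Hit S (v6 z u w a b c) t) : Hit S (v6 z z z a b c) t := by
  refine hit_congr ?_ hh
  intro x hx
  have h1 := List.all_eq_true.1 ht x hx
  simp only [Bool.and_eq_true, bne_iff_ne, ne_eq] at h1
  unfold v6
  split
  · exact absurd rfl h1.1
  · exact absurd rfl h1.2
  all_goals rfl

theorem hit01 {S : SRel V} {z u w a b c : V} {t : Tm} (ht : ((targs t).all fun x => x != 1) = true)
    (hh : Hit S (v6 z u w a b c) t) : Hit S (v6 z u z a b c) t := by
  refine hit_congr ?_ hh
  intro x hx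
  have h1 := List.all_eq_true.1 ht x hx
  simp only [bne_iff_ne, ne_eq] at h1
  unfold v6
  split
  · rfl
  · exact absurd rfl h1
  all_goals rfl

/-- the indices of the points of a rule with `n` points -/
def cr (n : Nat) (x : Nat) : Nat := match Nat.blt x n with
  | true => x + 1
  | false => 0

theorem cr_pt {n : Nat} {z : V} {l l' : List V} (hl : l.length = n) (x : Nat) :
    pt (z :: (l ++ l')) z (cr n x) = pt l z x := by
  unfold cr
  cases h : Nat.blt x n with
  | true =>
    have h1 : x < n := by rwa [Nat.blt_eq] at h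
    show pt (l ++ l') z x = pt l z x
    rw [pt_eq, pt_eq, List.getD_append _ _ _ _ (by omega)]
  | false =>
    have h1 : ¬ x < n := by
      intro h2
      rw [← Nat.blt_eq, h] at h2
      exact absurd h2 (by decide)
    show z = pt l z x
    rw [pt_eq, List.getD_eq_default _ _ (by omega)]

theorem TH.nh {S : SRel V} {z : V} {t : Tm} (h : TH S z t) (d : Nat → V) : ¬ Hit S (vl d fun _ => z) t := not_hit (h d)

/-- valuation of a rule -/
theorem hit_pt {S : SRel V} {z : V} {t : Tm} {d : Nat → V} {n : Nat} {l : List V} (hl : l.length = n)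
    (hd : ∀ x, x < n → pt l z x = d x) (hn : n ≤ 8) (ht : ((targs t).all fun x => Nat.blt x n || Nat.ble 8 x) = true) :
    Hit S (vl d fun _ => z) t ↔ Hit S (pt l z) t := by
  have key : ∀ x ∈ targs t, vl d (fun _ => z) x = pt l z x := by
    intro x hx
    have h1 := List.all_eq_true.1 ht x hx
    rw [Bool.or_eq_true] at h1
    rcases h1 with h1 | h1
    · have h2 : x < n := by rwa [Nat.blt_eq] at h1
      have h3 : Nat.ble 8 x = false := by
        cases hh : Nat.ble 8 x with
        | false => rfl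
        | true =>
          have := Nat.le_of_ble_eq_true hh
          omega
      rw [hd x h2]
      unfold vl
      rw [h3]
    · have h2 := Nat.le_of_ble_eq_true h1
      rw [pt_eq, List.getD_eq_default _ _ (by omega)]
      unfold vl
      rw [h1]
  exact ⟨hit_congr key, hit_congr fun x hx => (key x hx).symm⟩

/-- inequalities of the witnesses -/
def ne1 : List (Nat × Nat) := [(0, 8), (0, 9), (0, 10), (0, 11)]

/-- inequalities of the witnesses -/
def ne2 : List (Nat × Nat) := [(0, 1), (0, 8), (1, 8), (0, 9), (0, 10), (0, 11), (1, 9), (1, 10), (1, 11)]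

theorem hn1 {S : SRel V} {z u w a b c : V} {t : Tm} (hh : Hit S (v6 z u w a b c) t) (ht : t.ne = ne1) :
    u ≠ z ∧ u ≠ a ∧ u ≠ b ∧ u ≠ c := by
  have h := hh.1
  rw [ht] at h
  exact ⟨h (0, 8) (by decide), h (0, 9) (by decide), h (0, 10) (by decide), h (0, 11) (by decide)⟩

theorem hn2 {S : SRel V} {z u w a b c : V} {t : Tm} (hh : Hit S (v6 z u w a b c) t) (ht : t.ne = ne2) :
    u ≠ w ∧ (u ≠ z ∧ u ≠ a ∧ u ≠ b ∧ u ≠ c) ∧ (w ≠ z ∧ w ≠ a ∧ w ≠ b ∧ w ≠ c) := by
  have h := hh.1
  rw [ht] at h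
  exact ⟨h (0, 1) (by decide), ⟨h (0, 8) (by decide), h (0, 9) (by decide), h (0, 10) (by decide), h (0, 11) (by decide)⟩,
    ⟨h (1, 8) (by decide), h (1, 9) (by decide), h (1, 10) (by decide), h (1, 11) (by decide)⟩⟩

theorem nin4 {a b c d x : V} (h1 : x ≠ a) (h2 : x ≠ b) (h3 : x ≠ c) (h4 : x ≠ d) : x ∉ [a, b, c, d] := by
  simp only [List.mem_cons, List.not_mem_nil, or_false, not_or]
  exact ⟨h1, h2, h3, h4⟩

theorem nin5 {a b c d e x : V} (h1 : x ≠ a) (h2 : x ≠ b) (h3 : x ≠ c) (h4 : x ≠ d) (h5 : x ≠ e) : x ∉ [a, b, c, d, e] := by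
  simp only [List.mem_cons, List.not_mem_nil, or_false, not_or]
  exact ⟨h1, h2, h3, h4, h5⟩

theorem nin6 {a b c d e f x : V} (h1 : x ≠ a) (h2 : x ≠ b) (h3 : x ≠ c) (h4 : x ≠ d) (h5 : x ≠ e) (h6 : x ≠ f) :
    x ∉ [a, b, c, d, e, f] := by
  simp only [List.mem_cons, List.not_mem_nil, or_false, not_or]
  exact ⟨h1, h2, h3, h4, h5, h6⟩

theorem nin7 {a b c d e f g x : V} (h1 : x ≠ a) (h2 : x ≠ b) (h3 : x ≠ c) (h4 : x ≠ d) (h5 : x ≠ e) (h6 : x ≠ f)
    (h7 : x ≠ g) : x ∉ [a, b, c, d, e, f, g] := by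
  simp only [List.mem_cons, List.not_mem_nil, or_false, not_or]
  exact ⟨h1, h2, h3, h4, h5, h6, h7⟩

end Pool.Agent.SOU
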