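import Pool.Agent.SOU.Nt

/-! Project SOU (MP_66ba69_lc, mixed insertion): extensions (generated). -/

set_option autoImplicit false
set_option maxRecDepth 100000
set_option linter.unusedVariables false

namespace Pool.Agent.SOU

open Pool.Agent.RUP Pool.Agent.SOQ

variable {V : Type}

/-- the extension `U` to the quartets of `D` -/
structure Ext (W : Mw V) (U : V → V → V → V → Prop) (D : V → Prop) : Prop where
  pq : PQ W.G (CrF W.f) U D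
  ag : ∀ {p q r s}, D p → D q → D r → D s → D4 p q r s → ¬ Mq W p q r s → (U p q r s ↔ W.T p q r s)

theorem Ext.sy {W : Mw V} {U : V → V → V → V → Prop} {D : V → Prop} (h : Ext W U D) : Sy4 U := ⟨h.pq.sw1, h.pq.sw2⟩

theorem nmq0 {W : Mw V} {a b c d : V} (h1 : a ≠ W.z) (h2 : b ≠ W.z) (h3 : c ≠ W.z) (h4 : d ≠ W.z) : ¬ Mq W a b c d := by
  rintro (k | k | k | k)
  · exact h1 k.1
  · exact h2 k.1
  · exact h3 k.1
  · exact h4 k.1

theorem nmqr {W : Mw V} {a b c : V} (n1 : a ≠ W.z) (n2 : b ≠ W.z) (n3 : c ≠ W.z) (h1 : W.R a) (h2 : W.R b) (h3 : W.R c) :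
    ¬ Mq W W.z a b c := by
  rintro (k | k | k | k)
  · exact k.2.2.elim (fun k => k h1) (fun k => k.elim (fun k => k h2) (fun k => k h3))
  · exact n1 k.1
  · exact n2 k.1
  · exact n3 k.1

theorem nmql {W : Mw V} {a b c : V} (n1 : a ≠ W.z) (n2 : b ≠ W.z) (n3 : c ≠ W.z) (h1 : ¬ W.R a) (h2 : ¬ W.R b)
    (h3 : ¬ W.R c) : ¬ Mq W W.z a b c := by
  rintro (k | k | k | k)
  · exact k.2.1.elim h1 (fun k => k.elim h2 h3)
  · exact n1 k.1
  · exact n2 k.1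
  · exact n3 k.1

/-- rules of the extension -/
def pU : List Tm := [
  ⟨4, [], [(0, 1), (0, 2), (0, 3), (1, 2), (1, 3), (2, 3)], [.q false 2 0 1 2 3, .q false 0 0 1 2 3]⟩,
  ⟨4, [], [(0, 1), (0, 2), (0, 3), (1, 2), (1, 3), (2, 3)], [.q false 2 0 1 2 3, .b true 0 0 2]⟩,
  ⟨4, [], [(0, 1), (0, 2), (0, 3), (1, 2), (1, 3), (2, 3)], [.b false 0 0 1, .b false 0 2 3, .q false 0 0 1 2 3, .q true 2 0 2 1 3, .q true 2 0 3 1 2]⟩,
  ⟨4, [], [(0, 1), (0, 2), (0, 3), (1, 2), (1, 3), (2, 3)], [.q false 2 0 1 2 3, .q false 2 0 2 1 3]⟩,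
  ⟨5, [], [(0, 1), (0, 2), (0, 3), (0, 4), (1, 2), (1, 3), (1, 4), (2, 3), (2, 4), (3, 4)], [.q false 2 0 1 2 3, .q false 2 0 1 3 4, .q true 2 0 1 2 4]⟩,
  ⟨5, [], [(0, 1), (0, 2), (0, 3), (0, 4), (1, 2), (1, 3), (1, 4), (2, 3), (2, 4), (3, 4)], [.q false 2 0 1 2 3, .q false 2 0 3 2 4, .q true 2 0 1 2 4]⟩,
  ⟨6, [], [(0, 1), (0, 2), (0, 3), (0, 4), (0, 5), (1, 2), (1, 3), (1, 4), (1, 5), (2, 3), (2, 4), (2, 5), (3, 4), (3, 5), (4, 5)], [.q false 2 0 1 2 3, .q false 2 0 4 2 5, .q true 2 0 1 2 5, .q true 2 0 4 2 3]⟩]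

/-- agreement -/
def lU : List Tm := [
  ⟨4, [], [(0, 1), (0, 2), (0, 3), (1, 2), (1, 3), (2, 3), (0, 8), (1, 8), (2, 8), (3, 8)], [.q false 1 0 1 2 3, .q true 2 0 1 2 3]⟩,
  ⟨4, [], [(0, 1), (0, 2), (0, 3), (1, 2), (1, 3), (2, 3), (0, 8), (1, 8), (2, 8), (3, 8)], [.q true 1 0 1 2 3, .q false 2 0 1 2 3]⟩,
  ⟨3, [], [(0, 1), (0, 2), (1, 2), (0, 8), (1, 8), (2, 8)], [.b false 2 0 0, .b false 2 1 1, .b false 2 2 2, .q false 1 8 0 1 2, .q true 2 8 0 1 2]⟩,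
  ⟨3, [], [(0, 1), (0, 2), (1, 2), (0, 8), (1, 8), (2, 8)], [.b false 2 0 0, .b false 2 1 1, .b false 2 2 2, .q true 1 8 0 1 2, .q false 2 8 0 1 2]⟩,
  ⟨3, [], [(0, 1), (0, 2), (1, 2), (0, 8), (1, 8), (2, 8)], [.b true 2 0 0, .b true 2 1 1, .b true 2 2 2, .q false 1 8 0 1 2, .q true 2 8 0 1 2]⟩,
  ⟨3, [], [(0, 1), (0, 2), (1, 2), (0, 8), (1, 8), (2, 8)], [.b true 2 0 0, .b true 2 1 1, .b true 2 2 2, .q true 1 8 0 1 2, .q false 2 8 0 1 2]⟩]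

theorem lU_z : lU.map (tren zr) = lU := rfl

theorem mB_z : mB.map (tren zr) = mB := rfl

/-- the templates for the extension -/
theorem pU_ph {W : Mw V} (hb : W.Bs) {U : V → V → V → V → Prop} {D : V → Prop} (h : Ext W U D) {p : Nat → V} {k : Nat}
    (hD : ∀ j, j < k → D (p j)) : PHs (mrel hb h.sy) p k pU := by
  have q := h.pq
  refine .cons (fun d hd n01 n02 n03 n12 n13 n23 h0 h1 => q.nc h0 h1)
    (.cons (fun d hd n01 n02 n03 n12 n13 n23 h0 h1 => h1 (q.adj h0))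
    (.cons (fun d hd n01 n02 n03 n12 n13 n23 h0 h1 h2 h3 h4 => ?_)
    (.cons (fun d hd n01 n02 n03 n12 n13 n23 h0 h1 => q.nb h0 h1)
    (.cons (fun d hd n01 n02 n03 n04 n12 n13 n14 n23 n24 n34 h0 h1 h2 => h2 (q.trans h0 h1 n24))
    (.cons (fun d hd n01 n02 n03 n04 n12 n13 n14 n23 n24 n34 h0 h1 h2 => (q.ferrers h0 h1).elim h2 (fun k => (q.sq k).2.2.2.ne rfl))
    (.cons (fun d hd n01 n02 n03 n04 n05 n12 n13 n14 n15 n23 n24 n25 n34 n35 n45 h0 h1 h2 h3 => (q.ferrers h0 h1).elim h2 h3)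
    .nil))))))
  have key : ∀ i, i < 4 → D (d i) := by
    intro i hi
    obtain ⟨j, hj, e⟩ := hd i hi
    rw [e]
    exact hD j hj
  exact (q.some h0 h1 h2 (key 0 (by decide)) (key 2 (by decide)) (key 1 (by decide)) (key 3 (by decide))).elim h3
    (fun k => h4 (q.sw3 k))

theorem lU_ph {W : Mw V} (hb : W.Bs) {U : V → V → V → V → Prop} {D : V → Prop} (h : Ext W U D) {p : Nat → V} {k : Nat}
    (hk : 0 < k) (h0 : p 0 = W.z) (hD : ∀ j, j < k → D (p j)) : PHs (mrel hb h.sy) p k lU := by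
  have hz : D W.z := by
    rw [← h0]
    exact hD 0 hk
  have zz : ∀ d : Nat → V, vl d p 8 = W.z := fun d => h0
  have key : ∀ {n : Nat} {d : Nat → V}, (∀ i, i < n → ∃ j, j < k ∧ d i = p j) → ∀ i, i < n → D (d i) := by
    intro n d hd i hi
    obtain ⟨j, hj, e⟩ := hd i hi
    rw [e]
    exact hD j hj
  refine .cons ?_ (.cons ?_ (.cons ?_ (.cons ?_ (.cons ?_ (.cons ?_ .nil)))))
  · intro d hd n01 n02 n03 n12 n13 n23 n08 n18 n28 n38 h0' h1'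
    rw [zz] at n08 n18 n28 n38
    have kk := key hd
    exact h1' ((h.ag (kk 0 (by decide)) (kk 1 (by decide)) (kk 2 (by decide)) (kk 3 (by decide)) ⟨n01, n02, n03, n12, n13, n23⟩
      (nmq0 n08 n18 n28 n38)).2 h0')
  · intro d hd n01 n02 n03 n12 n13 n23 n08 n18 n28 n38 h0' h1'
    rw [zz] at n08 n18 n28 n38
    have kk := key hd
    exact h0' ((h.ag (kk 0 (by decide)) (kk 1 (by decide)) (kk 2 (by decide)) (kk 3 (by decide)) ⟨n01, n02, n03, n12, n13, n23⟩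
      (nmq0 n08 n18 n28 n38)).1 h1')
  all_goals
    intro d hd n01 n02 n12 n08 n18 n28 h0' h1' h2' h3' h4'
    have kk := key hd
    change _ at h3'
    simp only [Lt.ns, zz] at n08 n18 n28 h3' h4'
  · exact h4' ((h.ag hz (kk 0 (by decide)) (kk 1 (by decide)) (kk 2 (by decide)) ⟨n08.symm, n18.symm, n28.symm, n01, n02, n12⟩
      (nmqr n08 n18 n28 h0'.2 h1'.2 h2'.2)).2 h3')
  · exact h3' ((h.ag hz (kk 0 (by decide)) (kk 1 (by decide)) (kk 2 (by decide)) ⟨n08.symm, n18.symm, n28.symm, n01, n02, n12⟩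
      (nmqr n08 n18 n28 h0'.2 h1'.2 h2'.2)).1 h4')
  · exact h4' ((h.ag hz (kk 0 (by decide)) (kk 1 (by decide)) (kk 2 (by decide)) ⟨n08.symm, n18.symm, n28.symm, n01, n02, n12⟩
      (nmql n08 n18 n28 (ngR h0') (ngR h1') (ngR h2'))).2 h3')
  · exact h3' ((h.ag hz (kk 0 (by decide)) (kk 1 (by decide)) (kk 2 (by decide)) ⟨n08.symm, n18.symm, n28.symm, n01, n02, n12⟩
      (nmql n08 n18 n28 (ngR h0') (ngR h1') (ngR h2'))).1 h4')

end Pool.Agent.SOU
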