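import Pool.Agent.SOU.ExtD

/-! Project SOU (MP_66ba69_lc, mixed insertion): refutations for the extensions (generated). -/

set_option autoImplicit false
set_option maxRecDepth 100000
set_option linter.unusedVariables false

namespace Pool.Agent.SOU

open Pool.Agent.RUP Pool.Agent.SOQ

/-- T_nc_0 -/
def e0_t : Tm :=
  ⟨4, [], [(0, 1), (0, 2), (0, 3), (1, 2), (1, 3), (2, 3), (0, 8), (1, 8), (2, 8), (3, 8)], [.q false 1 0 1 2 3, .q false 0 0 1 2 3]⟩

def e0_p0 : List Nat := [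
0x864229000000035016f000201,
0x86421b0000000020325000201,
0x37000000004000200]

def e0_pf : List Nat := e0_p0

theorem e0_ref {V : Type} {S : SRel V} {p : Nat → V} (hp : ∀ i j, i < 5 → j < 5 → p i = p j → i = j)
    (hts : PHs S p 5 (mB ++ (pU ++ (lU ++ gf (fun x => 8 + cr 4 x) e0_t)))) : False :=
  refuteS (k := 5) (n2 := 3) (n3 := 1) (n4 := 3) (o3 := 45) (o4 := 80) (M := 440) (mB ++ (pU ++ (lU ++ gf (fun x => 8 + cr 4 x) e0_t))) e0_pf (by decide +kernel)
    (by decide +kernel) (by decide +kernel) (by decide +kernel) hp hts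

theorem e0 {V : Type} {W : Mw V} (hb : W.Bs) {U : V → V → V → V → Prop} {D : V → Prop} (h : Ext W U D) {a b c d : V}
    (nd : [W.z, a, b, c, d].Nodup) (hD : ∀ j, j < 5 → D (pt [W.z, a, b, c, d] W.z j)) (hr : Hit (mrel0 hb) (pt [a, b, c, d] W.z) e0_t) : False :=
  e0_ref (pt_inj (o := W.z) nd rfl) (PHs.app (by rw [← mB_z]; exact (mB_h hb h.sy).ph rfl _) (PHs.app (pU_ph hb h hD) (PHs.app (lU_ph hb h (by decide) rfl hD)
    (gf_ph (hit_nu (by decide) hr) (cr 4) (cr_pt (n := 4) (l := [a, b, c, d]) (l' := []) rfl)))))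

/-- T_sq_1 -/
def e1_t : Tm :=
  ⟨4, [], [(0, 1), (0, 2), (0, 3), (1, 2), (1, 3), (2, 3), (0, 8), (1, 8), (2, 8), (3, 8)], [.q false 1 0 1 2 3, .b true 0 0 2]⟩

def e1_p0 : List Nat := [
0x864229000000035016f000201,
0x86421d0000000020015000201,
0x37000000004000200]

def e1_pf : List Nat := e1_p0

theorem e1_ref {V : Type} {S : SRel V} {p : Nat → V} (hp : ∀ i j, i < 5 → j < 5 → p i = p j → i = j)
    (hts : PHs S p 5 (mB ++ (pU ++ (lU ++ gf (fun x => 8 + cr 4 x) e1_t)))) : False :=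
  refuteS (k := 5) (n2 := 3) (n3 := 1) (n4 := 3) (o3 := 45) (o4 := 80) (M := 440) (mB ++ (pU ++ (lU ++ gf (fun x => 8 + cr 4 x) e1_t))) e1_pf (by decide +kernel)
    (by decide +kernel) (by decide +kernel) (by decide +kernel) hp hts

theorem e1 {V : Type} {W : Mw V} (hb : W.Bs) {U : V → V → V → V → Prop} {D : V → Prop} (h : Ext W U D) {a b c d : V}
    (nd : [W.z, a, b, c, d].Nodup) (hD : ∀ j, j < 5 → D (pt [W.z, a, b, c, d] W.z j)) (hr : Hit (mrel0 hb) (pt [a, b, c, d] W.z) e1_t) : False :=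
  e1_ref (pt_inj (o := W.z) nd rfl) (PHs.app (by rw [← mB_z]; exact (mB_h hb h.sy).ph rfl _) (PHs.app (pU_ph hb h hD) (PHs.app (lU_ph hb h (by decide) rfl hD)
    (gf_ph (hit_nu (by decide) hr) (cr 4) (cr_pt (n := 4) (l := [a, b, c, d]) (l' := []) rfl)))))

/-- T_some_2 -/
def e2_t : Tm :=
  ⟨4, [], [(0, 1), (0, 2), (0, 3), (1, 2), (1, 3), (2, 3), (0, 8), (1, 8), (2, 8), (3, 8)], [.b false 0 0 1, .b false 0 2 3, .q false 0 0 1 2 3, .q true 1 0 2 1 3, .q true 1 0 3 1 2]⟩

def e2_p0 : List Nat := [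
0x84622b00000003b0309000201,
0x86421f0000000390000000370000000350000000020130000501,
0x64822b000000004012f000201,
0x3d000000006000200]

def e2_pf : List Nat := e2_p0

theorem e2_ref {V : Type} {S : SRel V} {p : Nat → V} (hp : ∀ i j, i < 5 → j < 5 → p i = p j → i = j)
    (hts : PHs S p 5 (mB ++ (pU ++ (lU ++ gf (fun x => 8 + cr 4 x) e2_t)))) : False :=
  refuteS (k := 5) (n2 := 3) (n3 := 1) (n4 := 3) (o3 := 45) (o4 := 80) (M := 440) (mB ++ (pU ++ (lU ++ gf (fun x => 8 + cr 4 x) e2_t))) e2_pf (by decide +kernel)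
    (by decide +kernel) (by decide +kernel) (by decide +kernel) hp hts

theorem e2 {V : Type} {W : Mw V} (hb : W.Bs) {U : V → V → V → V → Prop} {D : V → Prop} (h : Ext W U D) {a b c d : V}
    (nd : [W.z, a, b, c, d].Nodup) (hD : ∀ j, j < 5 → D (pt [W.z, a, b, c, d] W.z j)) (hr : Hit (mrel0 hb) (pt [a, b, c, d] W.z) e2_t) : False :=
  e2_ref (pt_inj (o := W.z) nd rfl) (PHs.app (by rw [← mB_z]; exact (mB_h hb h.sy).ph rfl _) (PHs.app (pU_ph hb h hD) (PHs.app (lU_ph hb h (by decide) rfl hD)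
    (gf_ph (hit_nu (by decide) hr) (cr 4) (cr_pt (n := 4) (l := [a, b, c, d]) (l' := []) rfl)))))

/-- T_nb_3 -/
def e3_t : Tm :=
  ⟨4, [], [(0, 1), (0, 2), (0, 3), (1, 2), (1, 3), (2, 3), (0, 8), (1, 8), (2, 8), (3, 8)], [.q false 1 0 1 2 3, .q false 1 0 2 1 3]⟩

def e3_p0 : List Nat := [
0x864229000000035016f000201,
0x8642210000000020309000201,
0x8462290000000040308000201,
0x37000000006000200]

def e3_pf : List Nat := e3_p0

theorem e3_ref {V : Type} {S : SRel V} {p : Nat → V} (hp : ∀ i j, i < 5 → j < 5 → p i = p j → i = j)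
    (hts : PHs S p 5 (mB ++ (pU ++ (lU ++ gf (fun x => 8 + cr 4 x) e3_t)))) : False :=
  refuteS (k := 5) (n2 := 3) (n3 := 1) (n4 := 3) (o3 := 45) (o4 := 80) (M := 440) (mB ++ (pU ++ (lU ++ gf (fun x => 8 + cr 4 x) e3_t))) e3_pf (by decide +kernel)
    (by decide +kernel) (by decide +kernel) (by decide +kernel) hp hts

theorem e3 {V : Type} {W : Mw V} (hb : W.Bs) {U : V → V → V → V → Prop} {D : V → Prop} (h : Ext W U D) {a b c d : V}
    (nd : [W.z, a, b, c, d].Nodup) (hD : ∀ j, j < 5 → D (pt [W.z, a, b, c, d] W.z j)) (hr : Hit (mrel0 hb) (pt [a, b, c, d] W.z) e3_t) : False :=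
  e3_ref (pt_inj (o := W.z) nd rfl) (PHs.app (by rw [← mB_z]; exact (mB_h hb h.sy).ph rfl _) (PHs.app (pU_ph hb h hD) (PHs.app (lU_ph hb h (by decide) rfl hD)
    (gf_ph (hit_nu (by decide) hr) (cr 4) (cr_pt (n := 4) (l := [a, b, c, d]) (l' := []) rfl)))))

/-- T_trans_4 -/
def e4_t : Tm :=
  ⟨5, [], [(0, 1), (0, 2), (0, 3), (0, 4), (1, 2), (1, 3), (1, 4), (2, 3), (2, 4), (3, 4), (0, 8), (1, 8), (2, 8), (3, 8), (4, 8)], [.q false 1 0 1 2 3, .q false 1 0 1 3 4, .q true 1 0 1 2 4]⟩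

def e4_p0 : List Nat := [
0x8642290000000350196000201,
0xa8422900000003702bf000201,
0xa8642230000000020000000040286000301,
0xa6422b0000000060285000201,
0x39000000008000200]

def e4_pf : List Nat := e4_p0

theorem e4_ref {V : Type} {S : SRel V} {p : Nat → V} (hp : ∀ i j, i < 6 → j < 6 → p i = p j → i = j)
    (hts : PHs S p 6 (mB ++ (pU ++ (lU ++ gf (fun x => 8 + cr 5 x) e4_t)))) : False :=
  refuteS (k := 6) (n2 := 3) (n3 := 1) (n4 := 3) (o3 := 63) (o4 := 119) (M := 812) (mB ++ (pU ++ (lU ++ gf (fun x => 8 + cr 5 x) e4_t))) e4_pf (by decide +kernel)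
    (by decide +kernel) (by decide +kernel) (by decide +kernel) hp hts

theorem e4 {V : Type} {W : Mw V} (hb : W.Bs) {U : V → V → V → V → Prop} {D : V → Prop} (h : Ext W U D) {a b c d e : V}
    (nd : [W.z, a, b, c, d, e].Nodup) (hD : ∀ j, j < 6 → D (pt [W.z, a, b, c, d, e] W.z j)) (hr : Hit (mrel0 hb) (pt [a, b, c, d, e] W.z) e4_t) : False :=
  e4_ref (pt_inj (o := W.z) nd rfl) (PHs.app (by rw [← mB_z]; exact (mB_h hb h.sy).ph rfl _) (PHs.app (pU_ph hb h hD) (PHs.app (lU_ph hb h (by decide) rfl hD)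
    (gf_ph (hit_nu (by decide) hr) (cr 5) (cr_pt (n := 5) (l := [a, b, c, d, e]) (l' := []) rfl)))))

/-- T_f5_5 -/
def e5_t : Tm :=
  ⟨5, [], [(0, 1), (0, 2), (0, 3), (0, 4), (1, 2), (1, 3), (1, 4), (2, 3), (2, 4), (3, 4), (0, 8), (1, 8), (2, 8), (3, 8), (4, 8)], [.q false 1 0 1 2 3, .q false 1 0 3 2 4, .q true 1 0 1 2 4]⟩

def e5_p0 : List Nat := [
0x8642290000000350196000201,
0xa68229000000037029b000201,
0xa8642250000000020000000040286000301,
0xa6422b0000000060285000201,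
0x39000000008000200]

def e5_pf : List Nat := e5_p0

theorem e5_ref {V : Type} {S : SRel V} {p : Nat → V} (hp : ∀ i j, i < 6 → j < 6 → p i = p j → i = j)
    (hts : PHs S p 6 (mB ++ (pU ++ (lU ++ gf (fun x => 8 + cr 5 x) e5_t)))) : False :=
  refuteS (k := 6) (n2 := 3) (n3 := 1) (n4 := 3) (o3 := 63) (o4 := 119) (M := 812) (mB ++ (pU ++ (lU ++ gf (fun x => 8 + cr 5 x) e5_t))) e5_pf (by decide +kernel)
    (by decide +kernel) (by decide +kernel) (by decide +kernel) hp hts

theorem e5 {V : Type} {W : Mw V} (hb : W.Bs) {U : V → V → V → V → Prop} {D : V → Prop} (h : Ext W U D) {a b c d e : V}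
    (nd : [W.z, a, b, c, d, e].Nodup) (hD : ∀ j, j < 6 → D (pt [W.z, a, b, c, d, e] W.z j)) (hr : Hit (mrel0 hb) (pt [a, b, c, d, e] W.z) e5_t) : False :=
  e5_ref (pt_inj (o := W.z) nd rfl) (PHs.app (by rw [← mB_z]; exact (mB_h hb h.sy).ph rfl _) (PHs.app (pU_ph hb h hD) (PHs.app (lU_ph hb h (by decide) rfl hD)
    (gf_ph (hit_nu (by decide) hr) (cr 5) (cr_pt (n := 5) (l := [a, b, c, d, e]) (l' := []) rfl)))))

/-- T_f6_6 -/
def e6_t : Tm :=
  ⟨6, [], [(0, 1), (0, 2), (0, 3), (0, 4), (0, 5), (1, 2), (1, 3), (1, 4), (1, 5), (2, 3), (2, 4), (2, 5), (3, 4), (3, 5), (4, 5), (0, 8), (1, 8), (2, 8), (3, 8), (4, 8), (5, 8)], [.q false 1 0 1 2 3, .q false 1 0 4 2 5, .q true 1 0 1 2 5, .q true 1 0 4 2 3]⟩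

def e6_p0 : List Nat := [
0x86422900000003501c7000201,
0xc6a229000000037045e000201,
0xc6422b00000003909a4000201,
0xca8642270000000040000000020000000060269000401,
0x86a22b0000000080268000201,
0x3b00000000a000200]

def e6_pf : List Nat := e6_p0

theorem e6_ref {V : Type} {S : SRel V} {p : Nat → V} (hp : ∀ i j, i < 7 → j < 7 → p i = p j → i = j)
    (hts : PHs S p 7 (mB ++ (pU ++ (lU ++ gf (fun x => 8 + cr 6 x) e6_t)))) : False :=
  refuteS (k := 7) (n2 := 3) (n3 := 1) (n4 := 3) (o3 := 84) (o4 := 168) (M := 1386) (mB ++ (pU ++ (lU ++ gf (fun x => 8 + cr 6 x) e6_t))) e6_pf (by decide +kernel)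
    (by decide +kernel) (by decide +kernel) (by decide +kernel) hp hts

theorem e6 {V : Type} {W : Mw V} (hb : W.Bs) {U : V → V → V → V → Prop} {D : V → Prop} (h : Ext W U D) {a b c d e f : V}
    (nd : [W.z, a, b, c, d, e, f].Nodup) (hD : ∀ j, j < 7 → D (pt [W.z, a, b, c, d, e, f] W.z j)) (hr : Hit (mrel0 hb) (pt [a, b, c, d, e, f] W.z) e6_t) : False :=
  e6_ref (pt_inj (o := W.z) nd rfl) (PHs.app (by rw [← mB_z]; exact (mB_h hb h.sy).ph rfl _) (PHs.app (pU_ph hb h hD) (PHs.app (lU_ph hb h (by decide) rfl hD)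
    (gf_ph (hit_nu (by decide) hr) (cr 6) (cr_pt (n := 6) (l := [a, b, c, d, e, f]) (l' := []) rfl)))))

/-- T_nc_z_7 -/
def e7_t : Tm :=
  ⟨3, [], [(0, 1), (0, 2), (1, 2), (0, 8), (1, 8), (2, 8)], [.b true 2 0 0, .b true 2 1 1, .b true 2 2 2, .q false 1 8 0 1 2, .q false 0 8 0 1 2]⟩

def e7_p0 : List Nat := [
0x6423100000003900000003700000003500000003b00a3000501,
0x64201b0000000020178000201,
0x3d000000004000200]

def e7_pf : List Nat := e7_p0

theorem e7_ref {V : Type} {S : SRel V} {p : Nat → V} (hp : ∀ i j, i < 4 → j < 4 → p i = p j → i = j)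
    (hts : PHs S p 4 (mB ++ (pU ++ (lU ++ gf (fun x => 8 + cr 3 x) e7_t)))) : False :=
  refuteS (k := 4) (n2 := 3) (n3 := 1) (n4 := 3) (o3 := 30) (o4 := 50) (M := 215) (mB ++ (pU ++ (lU ++ gf (fun x => 8 + cr 3 x) e7_t))) e7_pf (by decide +kernel)
    (by decide +kernel) (by decide +kernel) (by decide +kernel) hp hts

theorem e7 {V : Type} {W : Mw V} (hb : W.Bs) {U : V → V → V → V → Prop} {D : V → Prop} (h : Ext W U D) {a b c : V}
    (nd : [W.z, a, b, c].Nodup) (hD : ∀ j, j < 4 → D (pt [W.z, a, b, c] W.z j)) (hr : Hit (mrel0 hb) (pt [a, b, c] W.z) e7_t) : False :=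
  e7_ref (pt_inj (o := W.z) nd rfl) (PHs.app (by rw [← mB_z]; exact (mB_h hb h.sy).ph rfl _) (PHs.app (pU_ph hb h hD) (PHs.app (lU_ph hb h (by decide) rfl hD)
    (gf_ph (hit_nu (by decide) hr) (cr 3) (cr_pt (n := 3) (l := [a, b, c]) (l' := []) rfl)))))

/-- T_nc_z_8 -/
def e8_t : Tm :=
  ⟨3, [], [(0, 1), (0, 2), (1, 2), (0, 8), (1, 8), (2, 8)], [.b false 2 0 0, .b false 2 1 1, .b false 2 2 2, .q false 1 8 0 1 2, .q false 0 8 0 1 2]⟩

def e8_p0 : List Nat := [
0x6422d00000003900000003500000003700000003b00a3000501,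
0x64201b0000000020178000201,
0x3d000000004000200]

def e8_pf : List Nat := e8_p0

theorem e8_ref {V : Type} {S : SRel V} {p : Nat → V} (hp : ∀ i j, i < 4 → j < 4 → p i = p j → i = j)
    (hts : PHs S p 4 (mB ++ (pU ++ (lU ++ gf (fun x => 8 + cr 3 x) e8_t)))) : False :=
  refuteS (k := 4) (n2 := 3) (n3 := 1) (n4 := 3) (o3 := 30) (o4 := 50) (M := 215) (mB ++ (pU ++ (lU ++ gf (fun x => 8 + cr 3 x) e8_t))) e8_pf (by decide +kernel)
    (by decide +kernel) (by decide +kernel) (by decide +kernel) hp hts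

theorem e8 {V : Type} {W : Mw V} (hb : W.Bs) {U : V → V → V → V → Prop} {D : V → Prop} (h : Ext W U D) {a b c : V}
    (nd : [W.z, a, b, c].Nodup) (hD : ∀ j, j < 4 → D (pt [W.z, a, b, c] W.z j)) (hr : Hit (mrel0 hb) (pt [a, b, c] W.z) e8_t) : False :=
  e8_ref (pt_inj (o := W.z) nd rfl) (PHs.app (by rw [← mB_z]; exact (mB_h hb h.sy).ph rfl _) (PHs.app (pU_ph hb h hD) (PHs.app (lU_ph hb h (by decide) rfl hD)
    (gf_ph (hit_nu (by decide) hr) (cr 3) (cr_pt (n := 3) (l := [a, b, c]) (l' := []) rfl)))))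

/-- T_sq_z_9 -/
def e9_t : Tm :=
  ⟨3, [], [(0, 1), (0, 2), (1, 2), (0, 8), (1, 8), (2, 8)], [.b true 2 0 0, .b true 2 1 1, .b true 2 2 2, .q false 1 8 0 1 2, .b true 0 8 1]⟩

def e9_p0 : List Nat := [
0x6423100000003900000003700000003500000003b00a3000501,
0x64201d0000000020009000201,
0x3d000000004000200]

def e9_pf : List Nat := e9_p0

theorem e9_ref {V : Type} {S : SRel V} {p : Nat → V} (hp : ∀ i j, i < 4 → j < 4 → p i = p j → i = j)
    (hts : PHs S p 4 (mB ++ (pU ++ (lU ++ gf (fun x => 8 + cr 3 x) e9_t)))) : False :=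
  refuteS (k := 4) (n2 := 3) (n3 := 1) (n4 := 3) (o3 := 30) (o4 := 50) (M := 215) (mB ++ (pU ++ (lU ++ gf (fun x => 8 + cr 3 x) e9_t))) e9_pf (by decide +kernel)
    (by decide +kernel) (by decide +kernel) (by decide +kernel) hp hts

theorem e9 {V : Type} {W : Mw V} (hb : W.Bs) {U : V → V → V → V → Prop} {D : V → Prop} (h : Ext W U D) {a b c : V}
    (nd : [W.z, a, b, c].Nodup) (hD : ∀ j, j < 4 → D (pt [W.z, a, b, c] W.z j)) (hr : Hit (mrel0 hb) (pt [a, b, c] W.z) e9_t) : False :=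
  e9_ref (pt_inj (o := W.z) nd rfl) (PHs.app (by rw [← mB_z]; exact (mB_h hb h.sy).ph rfl _) (PHs.app (pU_ph hb h hD) (PHs.app (lU_ph hb h (by decide) rfl hD)
    (gf_ph (hit_nu (by decide) hr) (cr 3) (cr_pt (n := 3) (l := [a, b, c]) (l' := []) rfl)))))

/-- T_sq_z_10 -/
def e10_t : Tm :=
  ⟨3, [], [(0, 1), (0, 2), (1, 2), (0, 8), (1, 8), (2, 8)], [.b false 2 0 0, .b false 2 1 1, .b false 2 2 2, .q false 1 8 0 1 2, .b true 0 8 1]⟩

def e10_p0 : List Nat := [
0x6422d00000003900000003500000003700000003b00a3000501,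
0x64201d0000000020009000201,
0x3d000000004000200]

def e10_pf : List Nat := e10_p0

theorem e10_ref {V : Type} {S : SRel V} {p : Nat → V} (hp : ∀ i j, i < 4 → j < 4 → p i = p j → i = j)
    (hts : PHs S p 4 (mB ++ (pU ++ (lU ++ gf (fun x => 8 + cr 3 x) e10_t)))) : False :=
  refuteS (k := 4) (n2 := 3) (n3 := 1) (n4 := 3) (o3 := 30) (o4 := 50) (M := 215) (mB ++ (pU ++ (lU ++ gf (fun x => 8 + cr 3 x) e10_t))) e10_pf (by decide +kernel)
    (by decide +kernel) (by decide +kernel) (by decide +kernel) hp hts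

theorem e10 {V : Type} {W : Mw V} (hb : W.Bs) {U : V → V → V → V → Prop} {D : V → Prop} (h : Ext W U D) {a b c : V}
    (nd : [W.z, a, b, c].Nodup) (hD : ∀ j, j < 4 → D (pt [W.z, a, b, c] W.z j)) (hr : Hit (mrel0 hb) (pt [a, b, c] W.z) e10_t) : False :=
  e10_ref (pt_inj (o := W.z) nd rfl) (PHs.app (by rw [← mB_z]; exact (mB_h hb h.sy).ph rfl _) (PHs.app (pU_ph hb h hD) (PHs.app (lU_ph hb h (by decide) rfl hD)
    (gf_ph (hit_nu (by decide) hr) (cr 3) (cr_pt (n := 3) (l := [a, b, c]) (l' := []) rfl)))))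

/-- T_sq_z2_11 -/
def e11_t : Tm :=
  ⟨3, [], [(0, 1), (0, 2), (1, 2), (0, 8), (1, 8), (2, 8)], [.b true 2 0 0, .b true 2 1 1, .b true 2 2 2, .q false 1 8 0 1 2, .b true 0 0 1]⟩

def e11_p0 : List Nat := [
0x6423100000003900000003700000003500000003b00a3000501,
0x64021d000000002000c000201,
0x3d000000004000200]

def e11_pf : List Nat := e11_p0

theorem e11_ref {V : Type} {S : SRel V} {p : Nat → V} (hp : ∀ i j, i < 4 → j < 4 → p i = p j → i = j)
    (hts : PHs S p 4 (mB ++ (pU ++ (lU ++ gf (fun x => 8 + cr 3 x) e11_t)))) : False :=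
  refuteS (k := 4) (n2 := 3) (n3 := 1) (n4 := 3) (o3 := 30) (o4 := 50) (M := 215) (mB ++ (pU ++ (lU ++ gf (fun x => 8 + cr 3 x) e11_t))) e11_pf (by decide +kernel)
    (by decide +kernel) (by decide +kernel) (by decide +kernel) hp hts

theorem e11 {V : Type} {W : Mw V} (hb : W.Bs) {U : V → V → V → V → Prop} {D : V → Prop} (h : Ext W U D) {a b c : V}
    (nd : [W.z, a, b, c].Nodup) (hD : ∀ j, j < 4 → D (pt [W.z, a, b, c] W.z j)) (hr : Hit (mrel0 hb) (pt [a, b, c] W.z) e11_t) : False :=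
  e11_ref (pt_inj (o := W.z) nd rfl) (PHs.app (by rw [← mB_z]; exact (mB_h hb h.sy).ph rfl _) (PHs.app (pU_ph hb h hD) (PHs.app (lU_ph hb h (by decide) rfl hD)
    (gf_ph (hit_nu (by decide) hr) (cr 3) (cr_pt (n := 3) (l := [a, b, c]) (l' := []) rfl)))))

/-- T_sq_z2_12 -/
def e12_t : Tm :=
  ⟨3, [], [(0, 1), (0, 2), (1, 2), (0, 8), (1, 8), (2, 8)], [.b false 2 0 0, .b false 2 1 1, .b false 2 2 2, .q false 1 8 0 1 2, .b true 0 0 1]⟩

def e12_p0 : List Nat := [
0x6422d00000003900000003500000003700000003b00a3000501,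
0x64021d000000002000c000201,
0x3d000000004000200]

def e12_pf : List Nat := e12_p0

theorem e12_ref {V : Type} {S : SRel V} {p : Nat → V} (hp : ∀ i j, i < 4 → j < 4 → p i = p j → i = j)
    (hts : PHs S p 4 (mB ++ (pU ++ (lU ++ gf (fun x => 8 + cr 3 x) e12_t)))) : False :=
  refuteS (k := 4) (n2 := 3) (n3 := 1) (n4 := 3) (o3 := 30) (o4 := 50) (M := 215) (mB ++ (pU ++ (lU ++ gf (fun x => 8 + cr 3 x) e12_t))) e12_pf (by decide +kernel)
    (by decide +kernel) (by decide +kernel) (by decide +kernel) hp hts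

theorem e12 {V : Type} {W : Mw V} (hb : W.Bs) {U : V → V → V → V → Prop} {D : V → Prop} (h : Ext W U D) {a b c : V}
    (nd : [W.z, a, b, c].Nodup) (hD : ∀ j, j < 4 → D (pt [W.z, a, b, c] W.z j)) (hr : Hit (mrel0 hb) (pt [a, b, c] W.z) e12_t) : False :=
  e12_ref (pt_inj (o := W.z) nd rfl) (PHs.app (by rw [← mB_z]; exact (mB_h hb h.sy).ph rfl _) (PHs.app (pU_ph hb h hD) (PHs.app (lU_ph hb h (by decide) rfl hD)
    (gf_ph (hit_nu (by decide) hr) (cr 3) (cr_pt (n := 3) (l := [a, b, c]) (l' := []) rfl)))))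

/-- T_some_z_13 -/
def e13_t : Tm :=
  ⟨3, [], [(0, 1), (0, 2), (1, 2), (0, 8), (1, 8), (2, 8)], [.b true 2 0 0, .b true 2 1 1, .b true 2 2 2, .b false 0 8 0, .b false 0 1 2, .q false 0 8 0 1 2, .q true 1 8 1 0 2, .q true 1 8 2 0 1]⟩

def e13_p0 : List Nat := [
0x624330000000390000000370000000350000000410168000501,
0x64201f00000003f00000003d00000003b000000002007f000501,
0x42633000000039000000037000000035000000004007e000501,
0x43000000006000200]

def e13_pf : List Nat := e13_p0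

theorem e13_ref {V : Type} {S : SRel V} {p : Nat → V} (hp : ∀ i j, i < 4 → j < 4 → p i = p j → i = j)
    (hts : PHs S p 4 (mB ++ (pU ++ (lU ++ gf (fun x => 8 + cr 3 x) e13_t)))) : False :=
  refuteS (k := 4) (n2 := 3) (n3 := 1) (n4 := 3) (o3 := 30) (o4 := 50) (M := 215) (mB ++ (pU ++ (lU ++ gf (fun x => 8 + cr 3 x) e13_t))) e13_pf (by decide +kernel)
    (by decide +kernel) (by decide +kernel) (by decide +kernel) hp hts

theorem e13 {V : Type} {W : Mw V} (hb : W.Bs) {U : V → V → V → V → Prop} {D : V → Prop} (h : Ext W U D) {a b c : V}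
    (nd : [W.z, a, b, c].Nodup) (hD : ∀ j, j < 4 → D (pt [W.z, a, b, c] W.z j)) (hr : Hit (mrel0 hb) (pt [a, b, c] W.z) e13_t) : False :=
  e13_ref (pt_inj (o := W.z) nd rfl) (PHs.app (by rw [← mB_z]; exact (mB_h hb h.sy).ph rfl _) (PHs.app (pU_ph hb h hD) (PHs.app (lU_ph hb h (by decide) rfl hD)
    (gf_ph (hit_nu (by decide) hr) (cr 3) (cr_pt (n := 3) (l := [a, b, c]) (l' := []) rfl)))))

/-- T_some_z_14 -/
def e14_t : Tm :=
  ⟨3, [], [(0, 1), (0, 2), (1, 2), (0, 8), (1, 8), (2, 8)], [.b false 2 0 0, .b false 2 1 1, .b false 2 2 2, .b false 0 8 0, .b false 0 1 2, .q false 0 8 0 1 2, .q true 1 8 1 0 2, .q true 1 8 2 0 1]⟩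

def e14_p0 : List Nat := [
0x6242f0000000390000000350000000370000000410168000501,
0x64201f00000003f00000003d00000003b000000002007f000501,
0x4262f000000039000000035000000037000000004007e000501,
0x43000000006000200]

def e14_pf : List Nat := e14_p0

theorem e14_ref {V : Type} {S : SRel V} {p : Nat → V} (hp : ∀ i j, i < 4 → j < 4 → p i = p j → i = j)
    (hts : PHs S p 4 (mB ++ (pU ++ (lU ++ gf (fun x => 8 + cr 3 x) e14_t)))) : False :=
  refuteS (k := 4) (n2 := 3) (n3 := 1) (n4 := 3) (o3 := 30) (o4 := 50) (M := 215) (mB ++ (pU ++ (lU ++ gf (fun x => 8 + cr 3 x) e14_t))) e14_pf (by decide +kernel)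
    (by decide +kernel) (by decide +kernel) (by decide +kernel) hp hts

theorem e14 {V : Type} {W : Mw V} (hb : W.Bs) {U : V → V → V → V → Prop} {D : V → Prop} (h : Ext W U D) {a b c : V}
    (nd : [W.z, a, b, c].Nodup) (hD : ∀ j, j < 4 → D (pt [W.z, a, b, c] W.z j)) (hr : Hit (mrel0 hb) (pt [a, b, c] W.z) e14_t) : False :=
  e14_ref (pt_inj (o := W.z) nd rfl) (PHs.app (by rw [← mB_z]; exact (mB_h hb h.sy).ph rfl _) (PHs.app (pU_ph hb h hD) (PHs.app (lU_ph hb h (by decide) rfl hD)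
    (gf_ph (hit_nu (by decide) hr) (cr 3) (cr_pt (n := 3) (l := [a, b, c]) (l' := []) rfl)))))

/-- T_nb_z_15 -/
def e15_t : Tm :=
  ⟨3, [], [(0, 1), (0, 2), (1, 2), (0, 8), (1, 8), (2, 8)], [.b true 2 0 0, .b true 2 1 1, .b true 2 2 2, .q false 1 8 0 1 2, .q false 1 8 1 0 2]⟩

def e15_p0 : List Nat := [
0x6423100000003900000003700000003500000003b00a3000501,
0x6420210000000020168000201,
0x624310000000390000000370000000350000000040167000501,
0x3d000000006000200]

def e15_pf : List Nat := e15_p0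

theorem e15_ref {V : Type} {S : SRel V} {p : Nat → V} (hp : ∀ i j, i < 4 → j < 4 → p i = p j → i = j)
    (hts : PHs S p 4 (mB ++ (pU ++ (lU ++ gf (fun x => 8 + cr 3 x) e15_t)))) : False :=
  refuteS (k := 4) (n2 := 3) (n3 := 1) (n4 := 3) (o3 := 30) (o4 := 50) (M := 215) (mB ++ (pU ++ (lU ++ gf (fun x => 8 + cr 3 x) e15_t))) e15_pf (by decide +kernel)
    (by decide +kernel) (by decide +kernel) (by decide +kernel) hp hts

theorem e15 {V : Type} {W : Mw V} (hb : W.Bs) {U : V → V → V → V → Prop} {D : V → Prop} (h : Ext W U D) {a b c : V}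
    (nd : [W.z, a, b, c].Nodup) (hD : ∀ j, j < 4 → D (pt [W.z, a, b, c] W.z j)) (hr : Hit (mrel0 hb) (pt [a, b, c] W.z) e15_t) : False :=
  e15_ref (pt_inj (o := W.z) nd rfl) (PHs.app (by rw [← mB_z]; exact (mB_h hb h.sy).ph rfl _) (PHs.app (pU_ph hb h hD) (PHs.app (lU_ph hb h (by decide) rfl hD)
    (gf_ph (hit_nu (by decide) hr) (cr 3) (cr_pt (n := 3) (l := [a, b, c]) (l' := []) rfl)))))

/-- T_nb_z_16 -/
def e16_t : Tm :=
  ⟨3, [], [(0, 1), (0, 2), (1, 2), (0, 8), (1, 8), (2, 8)], [.b false 2 0 0, .b false 2 1 1, .b false 2 2 2, .q false 1 8 0 1 2, .q false 1 8 1 0 2]⟩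

def e16_p0 : List Nat := [
0x6422d00000003900000003500000003700000003b00a3000501,
0x6420210000000020168000201,
0x6242d0000000390000000350000000370000000040167000501,
0x3d000000006000200]

def e16_pf : List Nat := e16_p0

theorem e16_ref {V : Type} {S : SRel V} {p : Nat → V} (hp : ∀ i j, i < 4 → j < 4 → p i = p j → i = j)
    (hts : PHs S p 4 (mB ++ (pU ++ (lU ++ gf (fun x => 8 + cr 3 x) e16_t)))) : False :=
  refuteS (k := 4) (n2 := 3) (n3 := 1) (n4 := 3) (o3 := 30) (o4 := 50) (M := 215) (mB ++ (pU ++ (lU ++ gf (fun x => 8 + cr 3 x) e16_t))) e16_pf (by decide +kernel)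
    (by decide +kernel) (by decide +kernel) (by decide +kernel) hp hts

theorem e16 {V : Type} {W : Mw V} (hb : W.Bs) {U : V → V → V → V → Prop} {D : V → Prop} (h : Ext W U D) {a b c : V}
    (nd : [W.z, a, b, c].Nodup) (hD : ∀ j, j < 4 → D (pt [W.z, a, b, c] W.z j)) (hr : Hit (mrel0 hb) (pt [a, b, c] W.z) e16_t) : False :=
  e16_ref (pt_inj (o := W.z) nd rfl) (PHs.app (by rw [← mB_z]; exact (mB_h hb h.sy).ph rfl _) (PHs.app (pU_ph hb h hD) (PHs.app (lU_ph hb h (by decide) rfl hD)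
    (gf_ph (hit_nu (by decide) hr) (cr 3) (cr_pt (n := 3) (l := [a, b, c]) (l' := []) rfl)))))

/-- T_tr_u_17 -/
def e17_t : Tm :=
  ⟨4, [], [(0, 1), (0, 2), (0, 3), (1, 2), (1, 3), (2, 3), (0, 8), (1, 8), (2, 8), (3, 8)], [.b true 2 0 0, .b true 2 1 1, .b true 2 2 2, .b true 2 3 3, .q false 1 8 0 1 2, .q false 1 8 0 2 3, .q true 1 8 0 1 3]⟩

def e17_p0 : List Nat := [
0x6423100000003900000003700000003500000003d00c1000501,
0x8623100000003b00000003900000003500000003f0166000501,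
0x8642023000000002000000004013f000301,
0x8423300000003b000000037000000035000000006013e000501,
0x41000000008000200]

def e17_pf : List Nat := e17_p0

theorem e17_ref {V : Type} {S : SRel V} {p : Nat → V} (hp : ∀ i j, i < 5 → j < 5 → p i = p j → i = j)
    (hts : PHs S p 5 (mB ++ (pU ++ (lU ++ gf (fun x => 8 + cr 4 x) e17_t)))) : False :=
  refuteS (k := 5) (n2 := 3) (n3 := 1) (n4 := 3) (o3 := 45) (o4 := 80) (M := 440) (mB ++ (pU ++ (lU ++ gf (fun x => 8 + cr 4 x) e17_t))) e17_pf (by decide +kernel)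
    (by decide +kernel) (by decide +kernel) (by decide +kernel) hp hts

theorem e17 {V : Type} {W : Mw V} (hb : W.Bs) {U : V → V → V → V → Prop} {D : V → Prop} (h : Ext W U D) {a b c d : V}
    (nd : [W.z, a, b, c, d].Nodup) (hD : ∀ j, j < 5 → D (pt [W.z, a, b, c, d] W.z j)) (hr : Hit (mrel0 hb) (pt [a, b, c, d] W.z) e17_t) : False :=
  e17_ref (pt_inj (o := W.z) nd rfl) (PHs.app (by rw [← mB_z]; exact (mB_h hb h.sy).ph rfl _) (PHs.app (pU_ph hb h hD) (PHs.app (lU_ph hb h (by decide) rfl hD)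
    (gf_ph (hit_nu (by decide) hr) (cr 4) (cr_pt (n := 4) (l := [a, b, c, d]) (l' := []) rfl)))))

/-- T_tr_u_18 -/
def e18_t : Tm :=
  ⟨4, [], [(0, 1), (0, 2), (0, 3), (1, 2), (1, 3), (2, 3), (0, 8), (1, 8), (2, 8), (3, 8)], [.b false 2 0 0, .b false 2 1 1, .b false 2 2 2, .b false 2 3 3, .q false 1 8 0 1 2, .q false 1 8 0 2 3, .q true 1 8 0 1 3]⟩

def e18_p0 : List Nat := [
0x6422d00000003900000003500000003700000003d00c1000501,
0x8622d00000003b00000003500000003900000003f0166000501,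
0x8642023000000002000000004013f000301,
0x8422f00000003b000000035000000037000000006013e000501,
0x41000000008000200]

def e18_pf : List Nat := e18_p0

theorem e18_ref {V : Type} {S : SRel V} {p : Nat → V} (hp : ∀ i j, i < 5 → j < 5 → p i = p j → i = j)
    (hts : PHs S p 5 (mB ++ (pU ++ (lU ++ gf (fun x => 8 + cr 4 x) e18_t)))) : False :=
  refuteS (k := 5) (n2 := 3) (n3 := 1) (n4 := 3) (o3 := 45) (o4 := 80) (M := 440) (mB ++ (pU ++ (lU ++ gf (fun x => 8 + cr 4 x) e18_t))) e18_pf (by decide +kernel)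
    (by decide +kernel) (by decide +kernel) (by decide +kernel) hp hts

theorem e18 {V : Type} {W : Mw V} (hb : W.Bs) {U : V → V → V → V → Prop} {D : V → Prop} (h : Ext W U D) {a b c d : V}
    (nd : [W.z, a, b, c, d].Nodup) (hD : ∀ j, j < 5 → D (pt [W.z, a, b, c, d] W.z j)) (hr : Hit (mrel0 hb) (pt [a, b, c, d] W.z) e18_t) : False :=
  e18_ref (pt_inj (o := W.z) nd rfl) (PHs.app (by rw [← mB_z]; exact (mB_h hb h.sy).ph rfl _) (PHs.app (pU_ph hb h hD) (PHs.app (lU_ph hb h (by decide) rfl hD)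
    (gf_ph (hit_nu (by decide) hr) (cr 4) (cr_pt (n := 4) (l := [a, b, c, d]) (l' := []) rfl)))))

/-- T_tr_x_19 -/
def e19_t : Tm :=
  ⟨4, [], [(0, 1), (0, 2), (0, 3), (1, 2), (1, 3), (2, 3), (0, 8), (1, 8), (2, 8), (3, 8)], [.b true 2 0 0, .b true 2 1 1, .b true 2 2 2, .b true 2 3 3, .q false 1 0 1 8 2, .q false 1 0 1 2 3, .q true 1 0 1 8 3]⟩

def e19_p0 : List Nat := [
0x4263100000003900000003700000003500000003d009d000501,
0x86422900000003f016f000201,
0x86042230000000020000000040103000301,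
0x4283300000003b0000000370000000350000000060102000501,
0x41000000008000200]

def e19_pf : List Nat := e19_p0

theorem e19_ref {V : Type} {S : SRel V} {p : Nat → V} (hp : ∀ i j, i < 5 → j < 5 → p i = p j → i = j)
    (hts : PHs S p 5 (mB ++ (pU ++ (lU ++ gf (fun x => 8 + cr 4 x) e19_t)))) : False :=
  refuteS (k := 5) (n2 := 3) (n3 := 1) (n4 := 3) (o3 := 45) (o4 := 80) (M := 440) (mB ++ (pU ++ (lU ++ gf (fun x => 8 + cr 4 x) e19_t))) e19_pf (by decide +kernel)
    (by decide +kernel) (by decide +kernel) (by decide +kernel) hp hts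

theorem e19 {V : Type} {W : Mw V} (hb : W.Bs) {U : V → V → V → V → Prop} {D : V → Prop} (h : Ext W U D) {a b c d : V}
    (nd : [W.z, a, b, c, d].Nodup) (hD : ∀ j, j < 5 → D (pt [W.z, a, b, c, d] W.z j)) (hr : Hit (mrel0 hb) (pt [a, b, c, d] W.z) e19_t) : False :=
  e19_ref (pt_inj (o := W.z) nd rfl) (PHs.app (by rw [← mB_z]; exact (mB_h hb h.sy).ph rfl _) (PHs.app (pU_ph hb h hD) (PHs.app (lU_ph hb h (by decide) rfl hD)
    (gf_ph (hit_nu (by decide) hr) (cr 4) (cr_pt (n := 4) (l := [a, b, c, d]) (l' := []) rfl)))))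

/-- T_tr_x_30 -/
def e20_t : Tm :=
  ⟨4, [], [(0, 1), (0, 2), (0, 3), (1, 2), (1, 3), (2, 3), (0, 8), (1, 8), (2, 8), (3, 8)], [.b false 2 0 0, .b false 2 1 1, .b false 2 2 2, .b false 2 3 3, .q false 1 0 1 8 2, .q false 1 0 1 2 3, .q true 1 0 1 8 3]⟩

def e20_p0 : List Nat := [
0x4262d00000003900000003500000003700000003d009d000501,
0x86422900000003f016f000201,
0x86042230000000020000000040103000301,
0x4282f00000003b0000000350000000370000000060102000501,
0x41000000008000200]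

def e20_pf : List Nat := e20_p0

theorem e20_ref {V : Type} {S : SRel V} {p : Nat → V} (hp : ∀ i j, i < 5 → j < 5 → p i = p j → i = j)
    (hts : PHs S p 5 (mB ++ (pU ++ (lU ++ gf (fun x => 8 + cr 4 x) e20_t)))) : False :=
  refuteS (k := 5) (n2 := 3) (n3 := 1) (n4 := 3) (o3 := 45) (o4 := 80) (M := 440) (mB ++ (pU ++ (lU ++ gf (fun x => 8 + cr 4 x) e20_t))) e20_pf (by decide +kernel)
    (by decide +kernel) (by decide +kernel) (by decide +kernel) hp hts

theorem e20 {V : Type} {W : Mw V} (hb : W.Bs) {U : V → V → V → V → Prop} {D : V → Prop} (h : Ext W U D) {a b c d : V}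
    (nd : [W.z, a, b, c, d].Nodup) (hD : ∀ j, j < 5 → D (pt [W.z, a, b, c, d] W.z j)) (hr : Hit (mrel0 hb) (pt [a, b, c, d] W.z) e20_t) : False :=
  e20_ref (pt_inj (o := W.z) nd rfl) (PHs.app (by rw [← mB_z]; exact (mB_h hb h.sy).ph rfl _) (PHs.app (pU_ph hb h hD) (PHs.app (lU_ph hb h (by decide) rfl hD)
    (gf_ph (hit_nu (by decide) hr) (cr 4) (cr_pt (n := 4) (l := [a, b, c, d]) (l' := []) rfl)))))

/-- T_tr_y_31 -/
def e21_t : Tm :=
  ⟨4, [], [(0, 1), (0, 2), (0, 3), (1, 2), (1, 3), (2, 3), (0, 8), (1, 8), (2, 8), (3, 8)], [.b true 2 0 0, .b true 2 1 1, .b true 2 2 2, .b true 2 3 3, .q false 1 0 1 2 8, .q false 1 0 1 8 3, .q true 1 0 1 2 3]⟩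

def e21_p0 : List Nat := [
0x4263100000003900000003700000003500000003d009d000501,
0x4283100000003b00000003700000003500000003f0103000501,
0x8064223000000002000000004016f000301,
0x86422b000000006016e000201,
0x41000000008000200]

def e21_pf : List Nat := e21_p0

theorem e21_ref {V : Type} {S : SRel V} {p : Nat → V} (hp : ∀ i j, i < 5 → j < 5 → p i = p j → i = j)
    (hts : PHs S p 5 (mB ++ (pU ++ (lU ++ gf (fun x => 8 + cr 4 x) e21_t)))) : False :=
  refuteS (k := 5) (n2 := 3) (n3 := 1) (n4 := 3) (o3 := 45) (o4 := 80) (M := 440) (mB ++ (pU ++ (lU ++ gf (fun x => 8 + cr 4 x) e21_t))) e21_pf (by decide +kernel)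
    (by decide +kernel) (by decide +kernel) (by decide +kernel) hp hts

theorem e21 {V : Type} {W : Mw V} (hb : W.Bs) {U : V → V → V → V → Prop} {D : V → Prop} (h : Ext W U D) {a b c d : V}
    (nd : [W.z, a, b, c, d].Nodup) (hD : ∀ j, j < 5 → D (pt [W.z, a, b, c, d] W.z j)) (hr : Hit (mrel0 hb) (pt [a, b, c, d] W.z) e21_t) : False :=
  e21_ref (pt_inj (o := W.z) nd rfl) (PHs.app (by rw [← mB_z]; exact (mB_h hb h.sy).ph rfl _) (PHs.app (pU_ph hb h hD) (PHs.app (lU_ph hb h (by decide) rfl hD)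
    (gf_ph (hit_nu (by decide) hr) (cr 4) (cr_pt (n := 4) (l := [a, b, c, d]) (l' := []) rfl)))))

/-- T_tr_y_32 -/
def e22_t : Tm :=
  ⟨4, [], [(0, 1), (0, 2), (0, 3), (1, 2), (1, 3), (2, 3), (0, 8), (1, 8), (2, 8), (3, 8)], [.b false 2 0 0, .b false 2 1 1, .b false 2 2 2, .b false 2 3 3, .q false 1 0 1 2 8, .q false 1 0 1 8 3, .q true 1 0 1 2 3]⟩

def e22_p0 : List Nat := [
0x4262d00000003900000003500000003700000003d009d000501,
0x4282d00000003b00000003500000003700000003f0103000501,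
0x8064223000000002000000004016f000301,
0x86422b000000006016e000201,
0x41000000008000200]

def e22_pf : List Nat := e22_p0

theorem e22_ref {V : Type} {S : SRel V} {p : Nat → V} (hp : ∀ i j, i < 5 → j < 5 → p i = p j → i = j)
    (hts : PHs S p 5 (mB ++ (pU ++ (lU ++ gf (fun x => 8 + cr 4 x) e22_t)))) : False :=
  refuteS (k := 5) (n2 := 3) (n3 := 1) (n4 := 3) (o3 := 45) (o4 := 80) (M := 440) (mB ++ (pU ++ (lU ++ gf (fun x => 8 + cr 4 x) e22_t))) e22_pf (by decide +kernel)
    (by decide +kernel) (by decide +kernel) (by decide +kernel) hp hts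

theorem e22 {V : Type} {W : Mw V} (hb : W.Bs) {U : V → V → V → V → Prop} {D : V → Prop} (h : Ext W U D) {a b c d : V}
    (nd : [W.z, a, b, c, d].Nodup) (hD : ∀ j, j < 5 → D (pt [W.z, a, b, c, d] W.z j)) (hr : Hit (mrel0 hb) (pt [a, b, c, d] W.z) e22_t) : False :=
  e22_ref (pt_inj (o := W.z) nd rfl) (PHs.app (by rw [← mB_z]; exact (mB_h hb h.sy).ph rfl _) (PHs.app (pU_ph hb h hD) (PHs.app (lU_ph hb h (by decide) rfl hD)
    (gf_ph (hit_nu (by decide) hr) (cr 4) (cr_pt (n := 4) (l := [a, b, c, d]) (l' := []) rfl)))))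

/-- T_f5_0_33 -/
def e23_t : Tm :=
  ⟨4, [], [(0, 1), (0, 2), (0, 3), (1, 2), (1, 3), (2, 3), (0, 8), (1, 8), (2, 8), (3, 8)], [.b true 2 0 0, .b true 2 1 1, .b true 2 2 2, .b true 2 3 3, .q false 1 8 0 1 2, .q false 1 8 2 1 3, .q true 1 8 0 1 3]⟩

def e23_p0 : List Nat := [
0x6423100000003900000003700000003500000003d00c1000501,
0x8463100000003b00000003900000003700000003f014e000501,
0x8642025000000002000000004013f000301,
0x8423300000003b000000037000000035000000006013e000501,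
0x41000000008000200]

def e23_pf : List Nat := e23_p0

theorem e23_ref {V : Type} {S : SRel V} {p : Nat → V} (hp : ∀ i j, i < 5 → j < 5 → p i = p j → i = j)
    (hts : PHs S p 5 (mB ++ (pU ++ (lU ++ gf (fun x => 8 + cr 4 x) e23_t)))) : False :=
  refuteS (k := 5) (n2 := 3) (n3 := 1) (n4 := 3) (o3 := 45) (o4 := 80) (M := 440) (mB ++ (pU ++ (lU ++ gf (fun x => 8 + cr 4 x) e23_t))) e23_pf (by decide +kernel)
    (by decide +kernel) (by decide +kernel) (by decide +kernel) hp hts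

theorem e23 {V : Type} {W : Mw V} (hb : W.Bs) {U : V → V → V → V → Prop} {D : V → Prop} (h : Ext W U D) {a b c d : V}
    (nd : [W.z, a, b, c, d].Nodup) (hD : ∀ j, j < 5 → D (pt [W.z, a, b, c, d] W.z j)) (hr : Hit (mrel0 hb) (pt [a, b, c, d] W.z) e23_t) : False :=
  e23_ref (pt_inj (o := W.z) nd rfl) (PHs.app (by rw [← mB_z]; exact (mB_h hb h.sy).ph rfl _) (PHs.app (pU_ph hb h hD) (PHs.app (lU_ph hb h (by decide) rfl hD)
    (gf_ph (hit_nu (by decide) hr) (cr 4) (cr_pt (n := 4) (l := [a, b, c, d]) (l' := []) rfl)))))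

/-- T_f5_0_34 -/
def e24_t : Tm :=
  ⟨4, [], [(0, 1), (0, 2), (0, 3), (1, 2), (1, 3), (2, 3), (0, 8), (1, 8), (2, 8), (3, 8)], [.b false 2 0 0, .b false 2 1 1, .b false 2 2 2, .b false 2 3 3, .q false 1 8 0 1 2, .q false 1 8 2 1 3, .q true 1 8 0 1 3]⟩

def e24_p0 : List Nat := [
0x6422d00000003900000003500000003700000003d00c1000501,
0x8462d00000003b00000003700000003900000003f014e000501,
0x8642025000000002000000004013f000301,
0x8422f00000003b000000035000000037000000006013e000501,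
0x41000000008000200]

def e24_pf : List Nat := e24_p0

theorem e24_ref {V : Type} {S : SRel V} {p : Nat → V} (hp : ∀ i j, i < 5 → j < 5 → p i = p j → i = j)
    (hts : PHs S p 5 (mB ++ (pU ++ (lU ++ gf (fun x => 8 + cr 4 x) e24_t)))) : False :=
  refuteS (k := 5) (n2 := 3) (n3 := 1) (n4 := 3) (o3 := 45) (o4 := 80) (M := 440) (mB ++ (pU ++ (lU ++ gf (fun x => 8 + cr 4 x) e24_t))) e24_pf (by decide +kernel)
    (by decide +kernel) (by decide +kernel) (by decide +kernel) hp hts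

theorem e24 {V : Type} {W : Mw V} (hb : W.Bs) {U : V → V → V → V → Prop} {D : V → Prop} (h : Ext W U D) {a b c d : V}
    (nd : [W.z, a, b, c, d].Nodup) (hD : ∀ j, j < 5 → D (pt [W.z, a, b, c, d] W.z j)) (hr : Hit (mrel0 hb) (pt [a, b, c, d] W.z) e24_t) : False :=
  e24_ref (pt_inj (o := W.z) nd rfl) (PHs.app (by rw [← mB_z]; exact (mB_h hb h.sy).ph rfl _) (PHs.app (pU_ph hb h hD) (PHs.app (lU_ph hb h (by decide) rfl hD)
    (gf_ph (hit_nu (by decide) hr) (cr 4) (cr_pt (n := 4) (l := [a, b, c, d]) (l' := []) rfl)))))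

/-- T_f5_1_35 -/
def e25_t : Tm :=
  ⟨4, [], [(0, 1), (0, 2), (0, 3), (1, 2), (1, 3), (2, 3), (0, 8), (1, 8), (2, 8), (3, 8)], [.b true 2 0 0, .b true 2 1 1, .b true 2 2 2, .b true 2 3 3, .q false 1 0 8 1 2, .q false 1 0 2 1 3, .q true 1 0 8 1 3]⟩

def e25_p0 : List Nat := [
0x6423100000003900000003700000003500000003d00c1000501,
0x84622900000003f0151000201,
0x8640225000000002000000004013f000301,
0x8423300000003b000000037000000035000000006013e000501,
0x41000000008000200]

def e25_pf : List Nat := e25_p0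

theorem e25_ref {V : Type} {S : SRel V} {p : Nat → V} (hp : ∀ i j, i < 5 → j < 5 → p i = p j → i = j)
    (hts : PHs S p 5 (mB ++ (pU ++ (lU ++ gf (fun x => 8 + cr 4 x) e25_t)))) : False :=
  refuteS (k := 5) (n2 := 3) (n3 := 1) (n4 := 3) (o3 := 45) (o4 := 80) (M := 440) (mB ++ (pU ++ (lU ++ gf (fun x => 8 + cr 4 x) e25_t))) e25_pf (by decide +kernel)
    (by decide +kernel) (by decide +kernel) (by decide +kernel) hp hts

theorem e25 {V : Type} {W : Mw V} (hb : W.Bs) {U : V → V → V → V → Prop} {D : V → Prop} (h : Ext W U D) {a b c d : V}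
    (nd : [W.z, a, b, c, d].Nodup) (hD : ∀ j, j < 5 → D (pt [W.z, a, b, c, d] W.z j)) (hr : Hit (mrel0 hb) (pt [a, b, c, d] W.z) e25_t) : False :=
  e25_ref (pt_inj (o := W.z) nd rfl) (PHs.app (by rw [← mB_z]; exact (mB_h hb h.sy).ph rfl _) (PHs.app (pU_ph hb h hD) (PHs.app (lU_ph hb h (by decide) rfl hD)
    (gf_ph (hit_nu (by decide) hr) (cr 4) (cr_pt (n := 4) (l := [a, b, c, d]) (l' := []) rfl)))))

/-- T_f5_1_36 -/
def e26_t : Tm :=
  ⟨4, [], [(0, 1), (0, 2), (0, 3), (1, 2), (1, 3), (2, 3), (0, 8), (1, 8), (2, 8), (3, 8)], [.b true 2 0 0, .b true 2 1 1, .b true 2 2 2, .b false 2 3 3, .q false 1 0 8 1 2, .q false 1 0 2 1 3, .q false 0 0 8 1 3]⟩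

def e26_p0 : List Nat := [
0x6423100000003900000003700000003500000003d00c1000501,
0x84622900000003f0151000201,
0x8640225000000002000000004013f000301,
0x84201b00000000602f5000201,
0x41000000008000200]

def e26_pf : List Nat := e26_p0

theorem e26_ref {V : Type} {S : SRel V} {p : Nat → V} (hp : ∀ i j, i < 5 → j < 5 → p i = p j → i = j)
    (hts : PHs S p 5 (mB ++ (pU ++ (lU ++ gf (fun x => 8 + cr 4 x) e26_t)))) : False :=
  refuteS (k := 5) (n2 := 3) (n3 := 1) (n4 := 3) (o3 := 45) (o4 := 80) (M := 440) (mB ++ (pU ++ (lU ++ gf (fun x => 8 + cr 4 x) e26_t))) e26_pf (by decide +kernel)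
    (by decide +kernel) (by decide +kernel) (by decide +kernel) hp hts

theorem e26 {V : Type} {W : Mw V} (hb : W.Bs) {U : V → V → V → V → Prop} {D : V → Prop} (h : Ext W U D) {a b c d : V}
    (nd : [W.z, a, b, c, d].Nodup) (hD : ∀ j, j < 5 → D (pt [W.z, a, b, c, d] W.z j)) (hr : Hit (mrel0 hb) (pt [a, b, c, d] W.z) e26_t) : False :=
  e26_ref (pt_inj (o := W.z) nd rfl) (PHs.app (by rw [← mB_z]; exact (mB_h hb h.sy).ph rfl _) (PHs.app (pU_ph hb h hD) (PHs.app (lU_ph hb h (by decide) rfl hD)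
    (gf_ph (hit_nu (by decide) hr) (cr 4) (cr_pt (n := 4) (l := [a, b, c, d]) (l' := []) rfl)))))

/-- T_f5_1_41 -/
def e27_t : Tm :=
  ⟨4, [], [(0, 1), (0, 2), (0, 3), (1, 2), (1, 3), (2, 3), (0, 8), (1, 8), (2, 8), (3, 8)], [.b false 2 0 0, .b false 2 1 1, .b false 2 2 2, .b true 2 3 3, .q false 1 0 8 1 2, .q false 1 0 2 1 3, .q false 0 0 8 1 3]⟩

def e27_p0 : List Nat := [
0x6422d00000003900000003500000003700000003d00c1000501,
0x84622900000003f0151000201,
0x8640225000000002000000004013f000301,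
0x84201b00000000602f5000201,
0x41000000008000200]

def e27_pf : List Nat := e27_p0

theorem e27_ref {V : Type} {S : SRel V} {p : Nat → V} (hp : ∀ i j, i < 5 → j < 5 → p i = p j → i = j)
    (hts : PHs S p 5 (mB ++ (pU ++ (lU ++ gf (fun x => 8 + cr 4 x) e27_t)))) : False :=
  refuteS (k := 5) (n2 := 3) (n3 := 1) (n4 := 3) (o3 := 45) (o4 := 80) (M := 440) (mB ++ (pU ++ (lU ++ gf (fun x => 8 + cr 4 x) e27_t))) e27_pf (by decide +kernel)
    (by decide +kernel) (by decide +kernel) (by decide +kernel) hp hts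

theorem e27 {V : Type} {W : Mw V} (hb : W.Bs) {U : V → V → V → V → Prop} {D : V → Prop} (h : Ext W U D) {a b c d : V}
    (nd : [W.z, a, b, c, d].Nodup) (hD : ∀ j, j < 5 → D (pt [W.z, a, b, c, d] W.z j)) (hr : Hit (mrel0 hb) (pt [a, b, c, d] W.z) e27_t) : False :=
  e27_ref (pt_inj (o := W.z) nd rfl) (PHs.app (by rw [← mB_z]; exact (mB_h hb h.sy).ph rfl _) (PHs.app (pU_ph hb h hD) (PHs.app (lU_ph hb h (by decide) rfl hD)
    (gf_ph (hit_nu (by decide) hr) (cr 4) (cr_pt (n := 4) (l := [a, b, c, d]) (l' := []) rfl)))))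

/-- T_f5_3_49 -/
def e28_t : Tm :=
  ⟨4, [], [(0, 1), (0, 2), (0, 3), (1, 2), (1, 3), (2, 3), (0, 8), (1, 8), (2, 8), (3, 8)], [.b true 2 0 0, .b true 2 1 1, .b true 2 2 2, .b true 2 3 3, .q false 1 0 1 2 8, .q false 1 0 8 2 3, .q true 1 0 1 2 3]⟩

def e28_p0 : List Nat := [
0x4263100000003900000003700000003500000003d009d000501,
0x8623100000003b00000003900000003500000003f0166000501,
0x8064225000000002000000004016f000301,
0x86422b000000006016e000201,
0x41000000008000200]

def e28_pf : List Nat := e28_p0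

theorem e28_ref {V : Type} {S : SRel V} {p : Nat → V} (hp : ∀ i j, i < 5 → j < 5 → p i = p j → i = j)
    (hts : PHs S p 5 (mB ++ (pU ++ (lU ++ gf (fun x => 8 + cr 4 x) e28_t)))) : False :=
  refuteS (k := 5) (n2 := 3) (n3 := 1) (n4 := 3) (o3 := 45) (o4 := 80) (M := 440) (mB ++ (pU ++ (lU ++ gf (fun x => 8 + cr 4 x) e28_t))) e28_pf (by decide +kernel)
    (by decide +kernel) (by decide +kernel) (by decide +kernel) hp hts

theorem e28 {V : Type} {W : Mw V} (hb : W.Bs) {U : V → V → V → V → Prop} {D : V → Prop} (h : Ext W U D) {a b c d : V}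
    (nd : [W.z, a, b, c, d].Nodup) (hD : ∀ j, j < 5 → D (pt [W.z, a, b, c, d] W.z j)) (hr : Hit (mrel0 hb) (pt [a, b, c, d] W.z) e28_t) : False :=
  e28_ref (pt_inj (o := W.z) nd rfl) (PHs.app (by rw [← mB_z]; exact (mB_h hb h.sy).ph rfl _) (PHs.app (pU_ph hb h hD) (PHs.app (lU_ph hb h (by decide) rfl hD)
    (gf_ph (hit_nu (by decide) hr) (cr 4) (cr_pt (n := 4) (l := [a, b, c, d]) (l' := []) rfl)))))

/-- T_f5_3_50 -/
def e29_t : Tm :=
  ⟨4, [], [(0, 1), (0, 2), (0, 3), (1, 2), (1, 3), (2, 3), (0, 8), (1, 8), (2, 8), (3, 8)], [.b false 2 0 0, .b false 2 1 1, .b false 2 2 2, .b false 2 3 3, .q false 1 0 1 2 8, .q false 1 0 8 2 3, .q true 1 0 1 2 3]⟩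

def e29_p0 : List Nat := [
0x4262d00000003900000003500000003700000003d009d000501,
0x8622d00000003b00000003500000003900000003f0166000501,
0x8064225000000002000000004016f000301,
0x86422b000000006016e000201,
0x41000000008000200]

def e29_pf : List Nat := e29_p0

theorem e29_ref {V : Type} {S : SRel V} {p : Nat → V} (hp : ∀ i j, i < 5 → j < 5 → p i = p j → i = j)
    (hts : PHs S p 5 (mB ++ (pU ++ (lU ++ gf (fun x => 8 + cr 4 x) e29_t)))) : False :=
  refuteS (k := 5) (n2 := 3) (n3 := 1) (n4 := 3) (o3 := 45) (o4 := 80) (M := 440) (mB ++ (pU ++ (lU ++ gf (fun x => 8 + cr 4 x) e29_t))) e29_pf (by decide +kernel)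
    (by decide +kernel) (by decide +kernel) (by decide +kernel) hp hts

theorem e29 {V : Type} {W : Mw V} (hb : W.Bs) {U : V → V → V → V → Prop} {D : V → Prop} (h : Ext W U D) {a b c d : V}
    (nd : [W.z, a, b, c, d].Nodup) (hD : ∀ j, j < 5 → D (pt [W.z, a, b, c, d] W.z j)) (hr : Hit (mrel0 hb) (pt [a, b, c, d] W.z) e29_t) : False :=
  e29_ref (pt_inj (o := W.z) nd rfl) (PHs.app (by rw [← mB_z]; exact (mB_h hb h.sy).ph rfl _) (PHs.app (pU_ph hb h hD) (PHs.app (lU_ph hb h (by decide) rfl hD)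
    (gf_ph (hit_nu (by decide) hr) (cr 4) (cr_pt (n := 4) (l := [a, b, c, d]) (l' := []) rfl)))))

/-- T_f5_4_62 -/
def e30_t : Tm :=
  ⟨4, [], [(0, 1), (0, 2), (0, 3), (1, 2), (1, 3), (2, 3), (0, 8), (1, 8), (2, 8), (3, 8)], [.b false 2 0 0, .b false 2 1 1, .b false 2 2 2, .b false 2 3 3, .q false 1 0 1 2 3, .q false 1 0 3 2 8, .q true 1 0 1 2 8]⟩

def e30_p0 : List Nat := [
0x86422900000003d016f000201,
0x8262d00000003b00000003500000003900000003f012a000501,
0x864225000000002000000004009d000301,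
0x4262f000000039000000035000000037000000006009c000501,
0x41000000008000200]

def e30_pf : List Nat := e30_p0

theorem e30_ref {V : Type} {S : SRel V} {p : Nat → V} (hp : ∀ i j, i < 5 → j < 5 → p i = p j → i = j)
    (hts : PHs S p 5 (mB ++ (pU ++ (lU ++ gf (fun x => 8 + cr 4 x) e30_t)))) : False :=
  refuteS (k := 5) (n2 := 3) (n3 := 1) (n4 := 3) (o3 := 45) (o4 := 80) (M := 440) (mB ++ (pU ++ (lU ++ gf (fun x => 8 + cr 4 x) e30_t))) e30_pf (by decide +kernel)
    (by decide +kernel) (by decide +kernel) (by decide +kernel) hp hts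

theorem e30 {V : Type} {W : Mw V} (hb : W.Bs) {U : V → V → V → V → Prop} {D : V → Prop} (h : Ext W U D) {a b c d : V}
    (nd : [W.z, a, b, c, d].Nodup) (hD : ∀ j, j < 5 → D (pt [W.z, a, b, c, d] W.z j)) (hr : Hit (mrel0 hb) (pt [a, b, c, d] W.z) e30_t) : False :=
  e30_ref (pt_inj (o := W.z) nd rfl) (PHs.app (by rw [← mB_z]; exact (mB_h hb h.sy).ph rfl _) (PHs.app (pU_ph hb h hD) (PHs.app (lU_ph hb h (by decide) rfl hD)
    (gf_ph (hit_nu (by decide) hr) (cr 4) (cr_pt (n := 4) (l := [a, b, c, d]) (l' := []) rfl)))))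

/-- T_fe_a_63 -/
def e31_t : Tm :=
  ⟨5, [], [(0, 1), (0, 2), (0, 3), (0, 4), (1, 2), (1, 3), (1, 4), (2, 3), (2, 4), (3, 4), (0, 8), (1, 8), (2, 8), (3, 8), (4, 8)], [.b true 2 0 0, .b true 2 1 1, .b true 2 2 2, .b true 2 3 3, .b true 2 4 4, .q false 1 8 0 1 2, .q false 1 8 3 1 4, .q true 1 8 0 1 4, .q true 1 8 3 1 2]⟩

def e31_p0 : List Nat := [
0x6423100000003900000003700000003500000003f00e8000501,
0xa483100000003d00000003b0000000370000000410262000501,
0xa423300000003d0000000370000000350000000430573000501,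
0xa86420270000000040000000020000000060136000401,
0x6483300000003b0000000390000000370000000080135000501,
0x4500000000a000200]

def e31_pf : List Nat := e31_p0

theorem e31_ref {V : Type} {S : SRel V} {p : Nat → V} (hp : ∀ i j, i < 6 → j < 6 → p i = p j → i = j)
    (hts : PHs S p 6 (mB ++ (pU ++ (lU ++ gf (fun x => 8 + cr 5 x) e31_t)))) : False :=
  refuteS (k := 6) (n2 := 3) (n3 := 1) (n4 := 3) (o3 := 63) (o4 := 119) (M := 812) (mB ++ (pU ++ (lU ++ gf (fun x => 8 + cr 5 x) e31_t))) e31_pf (by decide +kernel)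
    (by decide +kernel) (by decide +kernel) (by decide +kernel) hp hts

theorem e31 {V : Type} {W : Mw V} (hb : W.Bs) {U : V → V → V → V → Prop} {D : V → Prop} (h : Ext W U D) {a b c d e : V}
    (nd : [W.z, a, b, c, d, e].Nodup) (hD : ∀ j, j < 6 → D (pt [W.z, a, b, c, d, e] W.z j)) (hr : Hit (mrel0 hb) (pt [a, b, c, d, e] W.z) e31_t) : False :=
  e31_ref (pt_inj (o := W.z) nd rfl) (PHs.app (by rw [← mB_z]; exact (mB_h hb h.sy).ph rfl _) (PHs.app (pU_ph hb h hD) (PHs.app (lU_ph hb h (by decide) rfl hD)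
    (gf_ph (hit_nu (by decide) hr) (cr 5) (cr_pt (n := 5) (l := [a, b, c, d, e]) (l' := []) rfl)))))

/-- T_fe_a_64 -/
def e32_t : Tm :=
  ⟨5, [], [(0, 1), (0, 2), (0, 3), (0, 4), (1, 2), (1, 3), (1, 4), (2, 3), (2, 4), (3, 4), (0, 8), (1, 8), (2, 8), (3, 8), (4, 8)], [.b false 2 0 0, .b false 2 1 1, .b false 2 2 2, .b false 2 3 3, .b false 2 4 4, .q false 1 8 0 1 2, .q false 1 8 3 1 4, .q true 1 8 0 1 4, .q true 1 8 3 1 2]⟩

def e32_p0 : List Nat := [
0x6422d00000003900000003500000003700000003f00e8000501,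
0xa482d00000003d00000003700000003b0000000410262000501,
0xa422f00000003d0000000350000000370000000430573000501,
0xa86420270000000040000000020000000060136000401,
0x6482f00000003b0000000370000000390000000080135000501,
0x4500000000a000200]

def e32_pf : List Nat := e32_p0

theorem e32_ref {V : Type} {S : SRel V} {p : Nat → V} (hp : ∀ i j, i < 6 → j < 6 → p i = p j → i = j)
    (hts : PHs S p 6 (mB ++ (pU ++ (lU ++ gf (fun x => 8 + cr 5 x) e32_t)))) : False :=
  refuteS (k := 6) (n2 := 3) (n3 := 1) (n4 := 3) (o3 := 63) (o4 := 119) (M := 812) (mB ++ (pU ++ (lU ++ gf (fun x => 8 + cr 5 x) e32_t))) e32_pf (by decide +kernel)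
    (by decide +kernel) (by decide +kernel) (by decide +kernel) hp hts

theorem e32 {V : Type} {W : Mw V} (hb : W.Bs) {U : V → V → V → V → Prop} {D : V → Prop} (h : Ext W U D) {a b c d e : V}
    (nd : [W.z, a, b, c, d, e].Nodup) (hD : ∀ j, j < 6 → D (pt [W.z, a, b, c, d, e] W.z j)) (hr : Hit (mrel0 hb) (pt [a, b, c, d, e] W.z) e32_t) : False :=
  e32_ref (pt_inj (o := W.z) nd rfl) (PHs.app (by rw [← mB_z]; exact (mB_h hb h.sy).ph rfl _) (PHs.app (pU_ph hb h hD) (PHs.app (lU_ph hb h (by decide) rfl hD)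
    (gf_ph (hit_nu (by decide) hr) (cr 5) (cr_pt (n := 5) (l := [a, b, c, d, e]) (l' := []) rfl)))))

/-- T_fe_x_65 -/
def e33_t : Tm :=
  ⟨5, [], [(0, 1), (0, 2), (0, 3), (0, 4), (1, 2), (1, 3), (1, 4), (2, 3), (2, 4), (3, 4), (0, 8), (1, 8), (2, 8), (3, 8), (4, 8)], [.b true 2 0 0, .b true 2 1 1, .b true 2 2 2, .b true 2 4 4, .q false 1 0 8 1 2, .q false 1 0 3 1 4, .q true 1 0 8 1 4, .q true 1 0 3 1 2]⟩

def e33_p0 : List Nat := [
0x6423100000003900000003700000003500000003d00e8000501,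
0xa4822900000003f0265000201,
0xa423300000003b0000000370000000350000000410573000501,
0xa86402270000000040000000020000000060157000401,
0x64822b0000000080156000201,
0x4300000000a000200]

def e33_pf : List Nat := e33_p0

theorem e33_ref {V : Type} {S : SRel V} {p : Nat → V} (hp : ∀ i j, i < 6 → j < 6 → p i = p j → i = j)
    (hts : PHs S p 6 (mB ++ (pU ++ (lU ++ gf (fun x => 8 + cr 5 x) e33_t)))) : False :=
  refuteS (k := 6) (n2 := 3) (n3 := 1) (n4 := 3) (o3 := 63) (o4 := 119) (M := 812) (mB ++ (pU ++ (lU ++ gf (fun x => 8 + cr 5 x) e33_t))) e33_pf (by decide +kernel)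
    (by decide +kernel) (by decide +kernel) (by decide +kernel) hp hts

theorem e33 {V : Type} {W : Mw V} (hb : W.Bs) {U : V → V → V → V → Prop} {D : V → Prop} (h : Ext W U D) {a b c d e : V}
    (nd : [W.z, a, b, c, d, e].Nodup) (hD : ∀ j, j < 6 → D (pt [W.z, a, b, c, d, e] W.z j)) (hr : Hit (mrel0 hb) (pt [a, b, c, d, e] W.z) e33_t) : False :=
  e33_ref (pt_inj (o := W.z) nd rfl) (PHs.app (by rw [← mB_z]; exact (mB_h hb h.sy).ph rfl _) (PHs.app (pU_ph hb h hD) (PHs.app (lU_ph hb h (by decide) rfl hD)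
    (gf_ph (hit_nu (by decide) hr) (cr 5) (cr_pt (n := 5) (l := [a, b, c, d, e]) (l' := []) rfl)))))

/-- T_fe_x_66 -/
def e34_t : Tm :=
  ⟨5, [], [(0, 1), (0, 2), (0, 3), (0, 4), (1, 2), (1, 3), (1, 4), (2, 3), (2, 4), (3, 4), (0, 8), (1, 8), (2, 8), (3, 8), (4, 8)], [.b true 2 0 0, .b true 2 1 1, .b true 2 2 2, .b false 2 4 4, .q false 1 0 8 1 2, .q false 1 0 3 1 4, .q false 0 0 8 1 4, .q true 1 0 3 1 2]⟩

def e34_p0 : List Nat := [
0x6423100000003900000003700000003500000003d00e8000501,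
0xa4822900000003f0265000201,
0xa4201b0000000410573000201,
0xa86402270000000040000000020000000060157000401,
0x64822b0000000080156000201,
0x4300000000a000200]

def e34_pf : List Nat := e34_p0

theorem e34_ref {V : Type} {S : SRel V} {p : Nat → V} (hp : ∀ i j, i < 6 → j < 6 → p i = p j → i = j)
    (hts : PHs S p 6 (mB ++ (pU ++ (lU ++ gf (fun x => 8 + cr 5 x) e34_t)))) : False :=
  refuteS (k := 6) (n2 := 3) (n3 := 1) (n4 := 3) (o3 := 63) (o4 := 119) (M := 812) (mB ++ (pU ++ (lU ++ gf (fun x => 8 + cr 5 x) e34_t))) e34_pf (by decide +kernel)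
    (by decide +kernel) (by decide +kernel) (by decide +kernel) hp hts

theorem e34 {V : Type} {W : Mw V} (hb : W.Bs) {U : V → V → V → V → Prop} {D : V → Prop} (h : Ext W U D) {a b c d e : V}
    (nd : [W.z, a, b, c, d, e].Nodup) (hD : ∀ j, j < 6 → D (pt [W.z, a, b, c, d, e] W.z j)) (hr : Hit (mrel0 hb) (pt [a, b, c, d, e] W.z) e34_t) : False :=
  e34_ref (pt_inj (o := W.z) nd rfl) (PHs.app (by rw [← mB_z]; exact (mB_h hb h.sy).ph rfl _) (PHs.app (pU_ph hb h hD) (PHs.app (lU_ph hb h (by decide) rfl hD)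
    (gf_ph (hit_nu (by decide) hr) (cr 5) (cr_pt (n := 5) (l := [a, b, c, d, e]) (l' := []) rfl)))))

/-- T_fe_x_76 -/
def e35_t : Tm :=
  ⟨5, [], [(0, 1), (0, 2), (0, 3), (0, 4), (1, 2), (1, 3), (1, 4), (2, 3), (2, 4), (3, 4), (0, 8), (1, 8), (2, 8), (3, 8), (4, 8)], [.b false 2 0 0, .b false 2 1 1, .b false 2 2 2, .b false 2 4 4, .q false 1 0 8 1 2, .q false 1 0 3 1 4, .q true 1 0 8 1 4, .q true 1 0 3 1 2]⟩

def e35_p0 : List Nat := [
0x6422d00000003900000003500000003700000003d00e8000501,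
0xa4822900000003f0265000201,
0xa422f00000003b0000000350000000370000000410573000501,
0xa86402270000000040000000020000000060157000401,
0x64822b0000000080156000201,
0x4300000000a000200]

def e35_pf : List Nat := e35_p0

theorem e35_ref {V : Type} {S : SRel V} {p : Nat → V} (hp : ∀ i j, i < 6 → j < 6 → p i = p j → i = j)
    (hts : PHs S p 6 (mB ++ (pU ++ (lU ++ gf (fun x => 8 + cr 5 x) e35_t)))) : False :=
  refuteS (k := 6) (n2 := 3) (n3 := 1) (n4 := 3) (o3 := 63) (o4 := 119) (M := 812) (mB ++ (pU ++ (lU ++ gf (fun x => 8 + cr 5 x) e35_t))) e35_pf (by decide +kernel)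
    (by decide +kernel) (by decide +kernel) (by decide +kernel) hp hts

theorem e35 {V : Type} {W : Mw V} (hb : W.Bs) {U : V → V → V → V → Prop} {D : V → Prop} (h : Ext W U D) {a b c d e : V}
    (nd : [W.z, a, b, c, d, e].Nodup) (hD : ∀ j, j < 6 → D (pt [W.z, a, b, c, d, e] W.z j)) (hr : Hit (mrel0 hb) (pt [a, b, c, d, e] W.z) e35_t) : False :=
  e35_ref (pt_inj (o := W.z) nd rfl) (PHs.app (by rw [← mB_z]; exact (mB_h hb h.sy).ph rfl _) (PHs.app (pU_ph hb h hD) (PHs.app (lU_ph hb h (by decide) rfl hD)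
    (gf_ph (hit_nu (by decide) hr) (cr 5) (cr_pt (n := 5) (l := [a, b, c, d, e]) (l' := []) rfl)))))

/-- O_5_1_0 -/
def e36_t : Tm :=
  ⟨4, [], [(0, 1), (0, 2), (0, 3), (1, 2), (1, 3), (2, 3), (0, 8), (1, 8), (2, 8), (3, 8)], [.b false 2 0 0, .b true 2 1 1, .b true 2 2 2, .b true 2 3 3, .q false 0 8 1 0 2, .q false 0 8 2 0 3, .b true 0 0 2, .b false 0 0 3, .q false 1 8 1 2 3]⟩

def e36_p0 : List Nat := [
0x62401b00000003d0267000201,
0x86021d000000041031e000201,
0x8643100000003b000000039000000037000000045016c000501,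
0x86401d0000000060012000201,
0x286402500000000200000000602c4000301,
0x82601f00000000400000004300000003f00000000a000000008000600]

def e36_pf : List Nat := e36_p0

theorem e36_ref {V : Type} {S : SRel V} {p : Nat → V} (hp : ∀ i j, i < 5 → j < 5 → p i = p j → i = j)
    (hts : PHs S p 5 (mB ++ (pU ++ (lU ++ gf (fun x => 8 + cr 4 x) e36_t)))) : False :=
  refuteS (k := 5) (n2 := 3) (n3 := 1) (n4 := 3) (o3 := 45) (o4 := 80) (M := 440) (mB ++ (pU ++ (lU ++ gf (fun x => 8 + cr 4 x) e36_t))) e36_pf (by decide +kernel)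
    (by decide +kernel) (by decide +kernel) (by decide +kernel) hp hts

theorem e36 {V : Type} {W : Mw V} (hb : W.Bs) {U : V → V → V → V → Prop} {D : V → Prop} (h : Ext W U D) {a b c d : V}
    (nd : [W.z, a, b, c, d].Nodup) (hD : ∀ j, j < 5 → D (pt [W.z, a, b, c, d] W.z j)) (hr : Hit (mrel0 hb) (pt [a, b, c, d] W.z) e36_t) : False :=
  e36_ref (pt_inj (o := W.z) nd rfl) (PHs.app (by rw [← mB_z]; exact (mB_h hb h.sy).ph rfl _) (PHs.app (pU_ph hb h hD) (PHs.app (lU_ph hb h (by decide) rfl hD)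
    (gf_ph (hit_nu (by decide) hr) (cr 4) (cr_pt (n := 4) (l := [a, b, c, d]) (l' := []) rfl)))))

/-- O_5_1_1 -/
def e37_t : Tm :=
  ⟨4, [], [(0, 1), (0, 2), (0, 3), (1, 2), (1, 3), (2, 3), (0, 8), (1, 8), (2, 8), (3, 8)], [.b false 2 0 0, .b true 2 1 1, .b true 2 2 2, .b true 2 3 3, .q false 0 8 1 0 2, .q false 0 8 2 0 3, .b false 0 8 2, .b false 0 0 1, .b true 0 0 2, .b false 0 0 3, .b true 0 1 3]⟩

def e37_p0 : List Nat := [
0x26400300000003d0253000201,
0x28600300000003f02c2000201,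
0x482600700000000200000003f014c000301,
0x840620700000003d000000004014f000301,
0x8640030000000060322000201,
0x84621b0000000080309000201,
0x862400700000003d00000000a011f000301,
0x42150000000370000000350000000430009000401,
0x86021d000000045031e000201,
0x82601f00000001200000004100000003f000000047010c000501,
0x408622500000000c00000001402f7000301,
0x82401f00000004700000001000000000e0000000160103000501,
0x8241d0000000180024000201,
0x4900000001a000200]

def e37_pf : List Nat := e37_p0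

theorem e37_ref {V : Type} {S : SRel V} {p : Nat → V} (hp : ∀ i j, i < 5 → j < 5 → p i = p j → i = j)
    (hts : PHs S p 5 (mB ++ (pU ++ (lU ++ gf (fun x => 8 + cr 4 x) e37_t)))) : False :=
  refuteS (k := 5) (n2 := 3) (n3 := 1) (n4 := 3) (o3 := 45) (o4 := 80) (M := 440) (mB ++ (pU ++ (lU ++ gf (fun x => 8 + cr 4 x) e37_t))) e37_pf (by decide +kernel)
    (by decide +kernel) (by decide +kernel) (by decide +kernel) hp hts

theorem e37 {V : Type} {W : Mw V} (hb : W.Bs) {U : V → V → V → V → Prop} {D : V → Prop} (h : Ext W U D) {a b c d : V}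
    (nd : [W.z, a, b, c, d].Nodup) (hD : ∀ j, j < 5 → D (pt [W.z, a, b, c, d] W.z j)) (hr : Hit (mrel0 hb) (pt [a, b, c, d] W.z) e37_t) : False :=
  e37_ref (pt_inj (o := W.z) nd rfl) (PHs.app (by rw [← mB_z]; exact (mB_h hb h.sy).ph rfl _) (PHs.app (pU_ph hb h hD) (PHs.app (lU_ph hb h (by decide) rfl hD)
    (gf_ph (hit_nu (by decide) hr) (cr 4) (cr_pt (n := 4) (l := [a, b, c, d]) (l' := []) rfl)))))

/-- O_5_2_2 -/
def e38_t : Tm :=
  ⟨4, [], [(0, 1), (0, 2), (0, 3), (1, 2), (1, 3), (2, 3), (0, 8), (1, 8), (2, 8), (3, 8)], [.b false 2 0 0, .b false 2 1 1, .b true 2 2 2, .b true 2 3 3, .q false 0 8 1 0 3, .q false 0 8 2 0 3, .b false 0 8 1, .b false 0 8 2, .b true 0 0 2, .b false 0 0 3, .b true 0 1 3]⟩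

def e38_p0 : List Nat := [
0x8640b00000003900000003700000003b0322000401,
0x682400700000000200000003d00ad000301,
0x28600300000003f02c2000201,
0x8406207000000004000000006014f000301,
0x84621b0000000080309000201,
0x86021d000000045031e000201,
0x82601f00000000c00000004300000003f000000047010c000501,
0x408622500000000a00000000e02f7000301,
0x82401f00000004700000004100000003d0000000100103000501,
0x8241d0000000120024000201,
0x49000000014000200]

def e38_pf : List Nat := e38_p0

theorem e38_ref {V : Type} {S : SRel V} {p : Nat → V} (hp : ∀ i j, i < 5 → j < 5 → p i = p j → i = j)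
    (hts : PHs S p 5 (mB ++ (pU ++ (lU ++ gf (fun x => 8 + cr 4 x) e38_t)))) : False :=
  refuteS (k := 5) (n2 := 3) (n3 := 1) (n4 := 3) (o3 := 45) (o4 := 80) (M := 440) (mB ++ (pU ++ (lU ++ gf (fun x => 8 + cr 4 x) e38_t))) e38_pf (by decide +kernel)
    (by decide +kernel) (by decide +kernel) (by decide +kernel) hp hts

theorem e38 {V : Type} {W : Mw V} (hb : W.Bs) {U : V → V → V → V → Prop} {D : V → Prop} (h : Ext W U D) {a b c d : V}
    (nd : [W.z, a, b, c, d].Nodup) (hD : ∀ j, j < 5 → D (pt [W.z, a, b, c, d] W.z j)) (hr : Hit (mrel0 hb) (pt [a, b, c, d] W.z) e38_t) : False :=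
  e38_ref (pt_inj (o := W.z) nd rfl) (PHs.app (by rw [← mB_z]; exact (mB_h hb h.sy).ph rfl _) (PHs.app (pU_ph hb h hD) (PHs.app (lU_ph hb h (by decide) rfl hD)
    (gf_ph (hit_nu (by decide) hr) (cr 4) (cr_pt (n := 4) (l := [a, b, c, d]) (l' := []) rfl)))))

/-- O_5_2_3 -/
def e39_t : Tm :=
  ⟨4, [], [(0, 1), (0, 2), (0, 3), (1, 2), (1, 3), (2, 3), (0, 8), (1, 8), (2, 8), (3, 8)], [.b false 2 0 0, .b false 2 1 1, .b true 2 2 2, .b true 2 3 3, .q false 0 8 1 0 3, .q false 0 8 2 0 3, .b true 0 0 2, .b false 0 0 3, .b false 0 1 2, .b true 0 1 3]⟩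

def e39_p0 : List Nat := [
0x8640b00000003900000003700000003b0322000401,
0x682400700000000200000003d00ad000301,
0x28600300000003f02c2000201,
0x8406207000000004000000006014f000301,
0x84621b0000000080309000201,
0x86021d000000041031e000201,
0x64130000000390000000370000000450009000401,
0x64150000000390000000370000000450012000401,
0x82601f00000000c00000004300000003f000000010010c000501,
0x408622500000000a00000001202f7000301,
0x82401f00000000e00000004300000003d0000000140103000501,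
0x8241d0000000160024000201,
0x47000000018000200]

def e39_pf : List Nat := e39_p0

theorem e39_ref {V : Type} {S : SRel V} {p : Nat → V} (hp : ∀ i j, i < 5 → j < 5 → p i = p j → i = j)
    (hts : PHs S p 5 (mB ++ (pU ++ (lU ++ gf (fun x => 8 + cr 4 x) e39_t)))) : False :=
  refuteS (k := 5) (n2 := 3) (n3 := 1) (n4 := 3) (o3 := 45) (o4 := 80) (M := 440) (mB ++ (pU ++ (lU ++ gf (fun x => 8 + cr 4 x) e39_t))) e39_pf (by decide +kernel)
    (by decide +kernel) (by decide +kernel) (by decide +kernel) hp hts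

theorem e39 {V : Type} {W : Mw V} (hb : W.Bs) {U : V → V → V → V → Prop} {D : V → Prop} (h : Ext W U D) {a b c d : V}
    (nd : [W.z, a, b, c, d].Nodup) (hD : ∀ j, j < 5 → D (pt [W.z, a, b, c, d] W.z j)) (hr : Hit (mrel0 hb) (pt [a, b, c, d] W.z) e39_t) : False :=
  e39_ref (pt_inj (o := W.z) nd rfl) (PHs.app (by rw [← mB_z]; exact (mB_h hb h.sy).ph rfl _) (PHs.app (pU_ph hb h hD) (PHs.app (lU_ph hb h (by decide) rfl hD)
    (gf_ph (hit_nu (by decide) hr) (cr 4) (cr_pt (n := 4) (l := [a, b, c, d]) (l' := []) rfl)))))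

/-- O_5_3_4 -/
def e40_t : Tm :=
  ⟨4, [], [(0, 1), (0, 2), (0, 3), (1, 2), (1, 3), (2, 3), (0, 8), (1, 8), (2, 8), (3, 8)], [.b false 2 0 0, .b false 2 1 1, .b false 2 2 2, .b true 2 3 3, .q false 0 8 1 0 3, .q false 0 8 2 1 3, .b false 0 8 1, .b true 0 0 2, .b false 0 0 3, .b true 0 1 3, .b false 0 2 3]⟩

def e40_p0 : List Nat := [
0x84200300000003d02f5000201,
0x260840700000000200000003f014f000301,
0x48620300000000402e6000201,
0x84621b0000000040309000201,
0x640820700000003d0000000060128000301,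
0x86021d000000043031e000201,
0x8241d00000004702bb000201,
0x82401f00000004500000004100000003d00000000e013f000501,
0x408622500000000800000001002c4000301,
0x82601f00000000c00000004500000000a00000001201ca000501,
0x861300000003b00000003900000001401df000401,
0x49000000016000200]

def e40_pf : List Nat := e40_p0

theorem e40_ref {V : Type} {S : SRel V} {p : Nat → V} (hp : ∀ i j, i < 5 → j < 5 → p i = p j → i = j)
    (hts : PHs S p 5 (mB ++ (pU ++ (lU ++ gf (fun x => 8 + cr 4 x) e40_t)))) : False :=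
  refuteS (k := 5) (n2 := 3) (n3 := 1) (n4 := 3) (o3 := 45) (o4 := 80) (M := 440) (mB ++ (pU ++ (lU ++ gf (fun x => 8 + cr 4 x) e40_t))) e40_pf (by decide +kernel)
    (by decide +kernel) (by decide +kernel) (by decide +kernel) hp hts

theorem e40 {V : Type} {W : Mw V} (hb : W.Bs) {U : V → V → V → V → Prop} {D : V → Prop} (h : Ext W U D) {a b c d : V}
    (nd : [W.z, a, b, c, d].Nodup) (hD : ∀ j, j < 5 → D (pt [W.z, a, b, c, d] W.z j)) (hr : Hit (mrel0 hb) (pt [a, b, c, d] W.z) e40_t) : False :=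
  e40_ref (pt_inj (o := W.z) nd rfl) (PHs.app (by rw [← mB_z]; exact (mB_h hb h.sy).ph rfl _) (PHs.app (pU_ph hb h hD) (PHs.app (lU_ph hb h (by decide) rfl hD)
    (gf_ph (hit_nu (by decide) hr) (cr 4) (cr_pt (n := 4) (l := [a, b, c, d]) (l' := []) rfl)))))

/-- O_5_3_5 -/
def e41_t : Tm :=
  ⟨4, [], [(0, 1), (0, 2), (0, 3), (1, 2), (1, 3), (2, 3), (0, 8), (1, 8), (2, 8), (3, 8)], [.b false 2 0 0, .b false 2 1 1, .b false 2 2 2, .b true 2 3 3, .q false 0 8 1 0 3, .q false 0 8 2 1 3, .b false 0 0 3, .b true 0 1 3, .q false 1 8 2 0 1]⟩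

def e41_p0 : List Nat := [
0x84601b00000003f0306000201,
0x8241d00000004302bb000201,
0x4262d000000039000000035000000037000000045009d000501,
0x24601d0000000060009000201,
0x824602500000000200000000602f7000301,
0x82401f00000000400000004100000003d00000000a000000008000600]

def e41_pf : List Nat := e41_p0

theorem e41_ref {V : Type} {S : SRel V} {p : Nat → V} (hp : ∀ i j, i < 5 → j < 5 → p i = p j → i = j)
    (hts : PHs S p 5 (mB ++ (pU ++ (lU ++ gf (fun x => 8 + cr 4 x) e41_t)))) : False :=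
  refuteS (k := 5) (n2 := 3) (n3 := 1) (n4 := 3) (o3 := 45) (o4 := 80) (M := 440) (mB ++ (pU ++ (lU ++ gf (fun x => 8 + cr 4 x) e41_t))) e41_pf (by decide +kernel)
    (by decide +kernel) (by decide +kernel) (by decide +kernel) hp hts

theorem e41 {V : Type} {W : Mw V} (hb : W.Bs) {U : V → V → V → V → Prop} {D : V → Prop} (h : Ext W U D) {a b c d : V}
    (nd : [W.z, a, b, c, d].Nodup) (hD : ∀ j, j < 5 → D (pt [W.z, a, b, c, d] W.z j)) (hr : Hit (mrel0 hb) (pt [a, b, c, d] W.z) e41_t) : False :=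
  e41_ref (pt_inj (o := W.z) nd rfl) (PHs.app (by rw [← mB_z]; exact (mB_h hb h.sy).ph rfl _) (PHs.app (pU_ph hb h hD) (PHs.app (lU_ph hb h (by decide) rfl hD)
    (gf_ph (hit_nu (by decide) hr) (cr 4) (cr_pt (n := 4) (l := [a, b, c, d]) (l' := []) rfl)))))

/-- O_6_1_6 -/
def e42_t : Tm :=
  ⟨5, [], [(0, 1), (0, 2), (0, 3), (0, 4), (1, 2), (1, 3), (1, 4), (2, 3), (2, 4), (3, 4), (0, 8), (1, 8), (2, 8), (3, 8), (4, 8)], [.b false 2 0 0, .b true 2 1 1, .b true 2 2 2, .b true 2 3 3, .b true 2 4 4, .q false 0 8 1 0 2, .q false 0 8 2 0 3, .q false 0 8 3 0 4, .b false 0 8 1, .b true 0 8 2, .b true 0 0 1, .b true 0 0 3, .b false 0 0 4, .q false 1 1 2 3 4]⟩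

def e42_p0 : List Nat := [
0x26400300000003f03ee000201,
0x286003000000041045d000201,
0x48260070000000020000000410173000301,
0x86400300000000604bd000201,
0x4860030000000060460000201,
0x862400700000003f0000000080146000301,
0x642800700000000400000000a0454000301,
0x4a2800700000000e0000000430260000301,
0xa8400300000001005e6000201,
0xa82400700000000c0000000120218000301,
0x46a01d0000000470525000201,
0xa4021d0000000490573000201,
0xa8421d00000004b05eb000201,
0xa2401f00000001800000004500000001400000004d01ed000501,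
0x860a242700000001a00000001600000001c05f7000401,
0xa8642900000001e05f6000201,
0x4f000000020000200]

def e42_pf : List Nat := e42_p0

theorem e42_ref {V : Type} {S : SRel V} {p : Nat → V} (hp : ∀ i j, i < 6 → j < 6 → p i = p j → i = j)
    (hts : PHs S p 6 (mB ++ (pU ++ (lU ++ gf (fun x => 8 + cr 5 x) e42_t)))) : False :=
  refuteS (k := 6) (n2 := 3) (n3 := 1) (n4 := 3) (o3 := 63) (o4 := 119) (M := 812) (mB ++ (pU ++ (lU ++ gf (fun x => 8 + cr 5 x) e42_t))) e42_pf (by decide +kernel)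
    (by decide +kernel) (by decide +kernel) (by decide +kernel) hp hts

theorem e42 {V : Type} {W : Mw V} (hb : W.Bs) {U : V → V → V → V → Prop} {D : V → Prop} (h : Ext W U D) {a b c d e : V}
    (nd : [W.z, a, b, c, d, e].Nodup) (hD : ∀ j, j < 6 → D (pt [W.z, a, b, c, d, e] W.z j)) (hr : Hit (mrel0 hb) (pt [a, b, c, d, e] W.z) e42_t) : False :=
  e42_ref (pt_inj (o := W.z) nd rfl) (PHs.app (by rw [← mB_z]; exact (mB_h hb h.sy).ph rfl _) (PHs.app (pU_ph hb h hD) (PHs.app (lU_ph hb h (by decide) rfl hD)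
    (gf_ph (hit_nu (by decide) hr) (cr 5) (cr_pt (n := 5) (l := [a, b, c, d, e]) (l' := []) rfl)))))

/-- O_6_1_7 -/
def e43_t : Tm :=
  ⟨5, [], [(0, 1), (0, 2), (0, 3), (0, 4), (1, 2), (1, 3), (1, 4), (2, 3), (2, 4), (3, 4), (0, 8), (1, 8), (2, 8), (3, 8), (4, 8)], [.b false 2 0 0, .b true 2 1 1, .b true 2 2 2, .b true 2 3 3, .b true 2 4 4, .q false 0 8 1 0 2, .q false 0 8 2 0 3, .q false 0 8 3 0 4, .b false 0 0 1, .b true 0 1 4, .q false 1 8 4 2 3, .q false 1 0 2 3 4]⟩

def e43_p0 : List Nat := [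
0x26400300000003f03ee000201,
0x286003000000041045d000201,
0x48260070000000020000000410173000301,
0x840620700000003f0000000040176000301,
0x86400300000000604bd000201,
0x4860030000000060460000201,
0x862400700000003f00000000a0146000301,
0x642800700000000400000000c0454000301,
0x2a8003000000043052c000201,
0x4a280070000000100000000430260000301,
0xa6082070000000410000000120299000301,
0xa8400300000001405e6000201,
0xa8620300000001605f2000201,
0xa82400700000000e0000000180218000301,
0xa84620700000000800000001a0257000301,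
0xa4621b00000001e0585000201,
0x42150000000370000000350000000450009000401,
0xa241d0000000470519000201,
0x86a3100000003d00000003b0000000390000000490208000501,
0x8a602100000002605f1000201,
0xa8622900000004b02c8000201,
0x8a621d00000002a0030000201,
0x620a82300000002800000002a05e2000301,
0x864a022700000002e00000002000000002a0573000401,
0xa2401f00000002400000002200000001c00000003000000002c000600]

def e43_pf : List Nat := e43_p0

theorem e43_ref {V : Type} {S : SRel V} {p : Nat → V} (hp : ∀ i j, i < 6 → j < 6 → p i = p j → i = j)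
    (hts : PHs S p 6 (mB ++ (pU ++ (lU ++ gf (fun x => 8 + cr 5 x) e43_t)))) : False :=
  refuteS (k := 6) (n2 := 3) (n3 := 1) (n4 := 3) (o3 := 63) (o4 := 119) (M := 812) (mB ++ (pU ++ (lU ++ gf (fun x => 8 + cr 5 x) e43_t))) e43_pf (by decide +kernel)
    (by decide +kernel) (by decide +kernel) (by decide +kernel) hp hts

theorem e43 {V : Type} {W : Mw V} (hb : W.Bs) {U : V → V → V → V → Prop} {D : V → Prop} (h : Ext W U D) {a b c d e : V}
    (nd : [W.z, a, b, c, d, e].Nodup) (hD : ∀ j, j < 6 → D (pt [W.z, a, b, c, d, e] W.z j)) (hr : Hit (mrel0 hb) (pt [a, b, c, d, e] W.z) e43_t) : False :=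
  e43_ref (pt_inj (o := W.z) nd rfl) (PHs.app (by rw [← mB_z]; exact (mB_h hb h.sy).ph rfl _) (PHs.app (pU_ph hb h hD) (PHs.app (lU_ph hb h (by decide) rfl hD)
    (gf_ph (hit_nu (by decide) hr) (cr 5) (cr_pt (n := 5) (l := [a, b, c, d, e]) (l' := []) rfl)))))

/-- O_6_1_8 -/
def e44_t : Tm :=
  ⟨5, [], [(0, 1), (0, 2), (0, 3), (0, 4), (1, 2), (1, 3), (1, 4), (2, 3), (2, 4), (3, 4), (0, 8), (1, 8), (2, 8), (3, 8), (4, 8)], [.b false 2 0 0, .b true 2 1 1, .b true 2 2 2, .b true 2 3 3, .b true 2 4 4, .q false 0 8 1 0 2, .q false 0 8 2 0 3, .q false 0 8 3 0 4, .b false 0 0 4, .b true 0 2 4, .q false 1 8 3 1 2, .q false 1 0 1 2 3]⟩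

def e44_p0 : List Nat := [
0x286003000000041045d000201,
0x6a280070000000020000000430296000301,
0xa8600300000000405ef000201,
0xa6801b00000000405c4000201,
0xa8260070000000410000000060221000301,
0xa261d0000000470522000201,
0x6483100000003b0000000390000000370000000490136000501,
0x46801d00000000e0012000201,
0xa2601f00000000c00000004500000000a000000010027d000501,
0xa268025000000008000000012045f000301,
0x642802300000000e0000000140456000301,
0x68242500000000e00000001604c2000301,
0x86422900000001804c1000201,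
0x4b00000001a000200]

def e44_pf : List Nat := e44_p0

theorem e44_ref {V : Type} {S : SRel V} {p : Nat → V} (hp : ∀ i j, i < 6 → j < 6 → p i = p j → i = j)
    (hts : PHs S p 6 (mB ++ (pU ++ (lU ++ gf (fun x => 8 + cr 5 x) e44_t)))) : False :=
  refuteS (k := 6) (n2 := 3) (n3 := 1) (n4 := 3) (o3 := 63) (o4 := 119) (M := 812) (mB ++ (pU ++ (lU ++ gf (fun x => 8 + cr 5 x) e44_t))) e44_pf (by decide +kernel)
    (by decide +kernel) (by decide +kernel) (by decide +kernel) hp hts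

theorem e44 {V : Type} {W : Mw V} (hb : W.Bs) {U : V → V → V → V → Prop} {D : V → Prop} (h : Ext W U D) {a b c d e : V}
    (nd : [W.z, a, b, c, d, e].Nodup) (hD : ∀ j, j < 6 → D (pt [W.z, a, b, c, d, e] W.z j)) (hr : Hit (mrel0 hb) (pt [a, b, c, d, e] W.z) e44_t) : False :=
  e44_ref (pt_inj (o := W.z) nd rfl) (PHs.app (by rw [← mB_z]; exact (mB_h hb h.sy).ph rfl _) (PHs.app (pU_ph hb h hD) (PHs.app (lU_ph hb h (by decide) rfl hD)
    (gf_ph (hit_nu (by decide) hr) (cr 5) (cr_pt (n := 5) (l := [a, b, c, d, e]) (l' := []) rfl)))))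

/-- O_6_2_9 -/
def e45_t : Tm :=
  ⟨5, [], [(0, 1), (0, 2), (0, 3), (0, 4), (1, 2), (1, 3), (1, 4), (2, 3), (2, 4), (3, 4), (0, 8), (1, 8), (2, 8), (3, 8), (4, 8)], [.b false 2 0 0, .b false 2 1 1, .b true 2 2 2, .b true 2 3 3, .b true 2 4 4, .q false 0 8 1 0 4, .q false 0 8 2 0 3, .q false 0 8 3 0 4, .b false 0 8 1, .b false 0 0 2, .b true 0 0 3, .b true 0 1 2, .b true 0 1 4, .q false 1 8 4 2 3]⟩

def e45_p0 : List Nat := [
0xa640b00000003900000003700000003d05ad000401,
0x6a2400700000000200000003f00d4000301,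
0x68021d00000004904b9000201,
0x6241d00000004b03f0000201,
0x62401f00000004700000004500000000400000000800e8000501,
0xa641d00000004d0525000201,
0x8a46202700000000a00000000600000000c0534000401,
0x86a3100000003d00000003b00000003900000000e0533000501,
0x4f000000010000200]

def e45_pf : List Nat := e45_p0

theorem e45_ref {V : Type} {S : SRel V} {p : Nat → V} (hp : ∀ i j, i < 6 → j < 6 → p i = p j → i = j)
    (hts : PHs S p 6 (mB ++ (pU ++ (lU ++ gf (fun x => 8 + cr 5 x) e45_t)))) : False :=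
  refuteS (k := 6) (n2 := 3) (n3 := 1) (n4 := 3) (o3 := 63) (o4 := 119) (M := 812) (mB ++ (pU ++ (lU ++ gf (fun x => 8 + cr 5 x) e45_t))) e45_pf (by decide +kernel)
    (by decide +kernel) (by decide +kernel) (by decide +kernel) hp hts

theorem e45 {V : Type} {W : Mw V} (hb : W.Bs) {U : V → V → V → V → Prop} {D : V → Prop} (h : Ext W U D) {a b c d e : V}
    (nd : [W.z, a, b, c, d, e].Nodup) (hD : ∀ j, j < 6 → D (pt [W.z, a, b, c, d, e] W.z j)) (hr : Hit (mrel0 hb) (pt [a, b, c, d, e] W.z) e45_t) : False :=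
  e45_ref (pt_inj (o := W.z) nd rfl) (PHs.app (by rw [← mB_z]; exact (mB_h hb h.sy).ph rfl _) (PHs.app (pU_ph hb h hD) (PHs.app (lU_ph hb h (by decide) rfl hD)
    (gf_ph (hit_nu (by decide) hr) (cr 5) (cr_pt (n := 5) (l := [a, b, c, d, e]) (l' := []) rfl)))))

/-- O_6_2_10 -/
def e46_t : Tm :=
  ⟨5, [], [(0, 1), (0, 2), (0, 3), (0, 4), (1, 2), (1, 3), (1, 4), (2, 3), (2, 4), (3, 4), (0, 8), (1, 8), (2, 8), (3, 8), (4, 8)], [.b false 2 0 0, .b false 2 1 1, .b true 2 2 2, .b true 2 3 3, .b true 2 4 4, .q false 0 8 1 0 4, .q false 0 8 2 0 3, .q false 0 8 3 0 4, .b false 0 8 1, .b true 0 1 4, .q false 1 8 4 2 3, .q false 1 0 2 3 4]⟩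

def e46_p0 : List Nat := [
0xa640b00000003900000003700000003d05ad000401,
0x6a2400700000000200000003f00d4000301,
0x286003000000041045d000201,
0x84062070000000040000000060176000301,
0x2a8003000000043052c000201,
0xa60820700000004100000000a0299000301,
0xa8620300000000c05f2000201,
0xa84620700000000800000000e0257000301,
0xa4621b0000000100585000201,
0xa241d0000000470519000201,
0x86a3100000003d00000003b0000000390000000490208000501,
0x8a602100000001605f1000201,
0xa8622900000004b02c8000201,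
0x8a621d00000001a0030000201,
0x620a82300000001800000001a05e2000301,
0x864a022700000001e00000001200000001a0573000401,
0xa2401f00000001400000004500000003f00000002000000001c000600]

def e46_pf : List Nat := e46_p0

theorem e46_ref {V : Type} {S : SRel V} {p : Nat → V} (hp : ∀ i j, i < 6 → j < 6 → p i = p j → i = j)
    (hts : PHs S p 6 (mB ++ (pU ++ (lU ++ gf (fun x => 8 + cr 5 x) e46_t)))) : False :=
  refuteS (k := 6) (n2 := 3) (n3 := 1) (n4 := 3) (o3 := 63) (o4 := 119) (M := 812) (mB ++ (pU ++ (lU ++ gf (fun x => 8 + cr 5 x) e46_t))) e46_pf (by decide +kernel)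
    (by decide +kernel) (by decide +kernel) (by decide +kernel) hp hts

theorem e46 {V : Type} {W : Mw V} (hb : W.Bs) {U : V → V → V → V → Prop} {D : V → Prop} (h : Ext W U D) {a b c d e : V}
    (nd : [W.z, a, b, c, d, e].Nodup) (hD : ∀ j, j < 6 → D (pt [W.z, a, b, c, d, e] W.z j)) (hr : Hit (mrel0 hb) (pt [a, b, c, d, e] W.z) e46_t) : False :=
  e46_ref (pt_inj (o := W.z) nd rfl) (PHs.app (by rw [← mB_z]; exact (mB_h hb h.sy).ph rfl _) (PHs.app (pU_ph hb h hD) (PHs.app (lU_ph hb h (by decide) rfl hD)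
    (gf_ph (hit_nu (by decide) hr) (cr 5) (cr_pt (n := 5) (l := [a, b, c, d, e]) (l' := []) rfl)))))

/-- O_6_2_11 -/
def e47_t : Tm :=
  ⟨5, [], [(0, 1), (0, 2), (0, 3), (0, 4), (1, 2), (1, 3), (1, 4), (2, 3), (2, 4), (3, 4), (0, 8), (1, 8), (2, 8), (3, 8), (4, 8)], [.b false 2 0 0, .b false 2 1 1, .b true 2 2 2, .b true 2 3 3, .b true 2 4 4, .q false 0 8 1 0 4, .q false 0 8 2 0 3, .q false 0 8 3 0 4, .b false 0 1 2, .b true 0 2 4, .q false 1 0 4 1 3]⟩

def e47_p0 : List Nat := [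
0x4260d00000003700000003500000003903ee000401,
0xa640b00000003900000003700000003d05ad000401,
0x6a2400700000000400000003f00d4000301,
0xa2401b00000003f0546000201,
0x286003000000041045d000201,
0x48260070000000020000000410173000301,
0x840620700000000600000000a0176000301,
0x840a20500000003f000000043055f000301,
0x6a2800700000000a0000000430296000301,
0xa62840700000000e000000010029c000301,
0xa8600300000001205ef000201,
0xa6841b00000001405ca000201,
0xa84600700000000c0000000160254000301,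
0x64150000000390000000370000000450012000401,
0xa461d0000000470525000201,
0x84a2290000000490235000201,
0x2a841d0000000200033000201,
0x286a042700000001800000000800000002005af000401,
0xa4601f00000001e00000001c00000001a000000024000000022000600]

def e47_pf : List Nat := e47_p0

theorem e47_ref {V : Type} {S : SRel V} {p : Nat → V} (hp : ∀ i j, i < 6 → j < 6 → p i = p j → i = j)
    (hts : PHs S p 6 (mB ++ (pU ++ (lU ++ gf (fun x => 8 + cr 5 x) e47_t)))) : False :=
  refuteS (k := 6) (n2 := 3) (n3 := 1) (n4 := 3) (o3 := 63) (o4 := 119) (M := 812) (mB ++ (pU ++ (lU ++ gf (fun x => 8 + cr 5 x) e47_t))) e47_pf (by decide +kernel)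
    (by decide +kernel) (by decide +kernel) (by decide +kernel) hp hts

theorem e47 {V : Type} {W : Mw V} (hb : W.Bs) {U : V → V → V → V → Prop} {D : V → Prop} (h : Ext W U D) {a b c d e : V}
    (nd : [W.z, a, b, c, d, e].Nodup) (hD : ∀ j, j < 6 → D (pt [W.z, a, b, c, d, e] W.z j)) (hr : Hit (mrel0 hb) (pt [a, b, c, d, e] W.z) e47_t) : False :=
  e47_ref (pt_inj (o := W.z) nd rfl) (PHs.app (by rw [← mB_z]; exact (mB_h hb h.sy).ph rfl _) (PHs.app (pU_ph hb h hD) (PHs.app (lU_ph hb h (by decide) rfl hD)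
    (gf_ph (hit_nu (by decide) hr) (cr 5) (cr_pt (n := 5) (l := [a, b, c, d, e]) (l' := []) rfl)))))

/-- O_6_3_13 -/
def e48_t : Tm :=
  ⟨5, [], [(0, 1), (0, 2), (0, 3), (0, 4), (1, 2), (1, 3), (1, 4), (2, 3), (2, 4), (3, 4), (0, 8), (1, 8), (2, 8), (3, 8), (4, 8)], [.b false 2 0 0, .b false 2 1 1, .b false 2 2 2, .b true 2 3 3, .b true 2 4 4, .q false 0 8 1 0 4, .q false 0 8 2 1 4, .q false 0 8 3 0 4, .b false 0 8 3, .b true 0 0 3, .b true 0 1 4, .b true 0 2 3, .b false 0 2 4, .q false 1 8 0 1 2]⟩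

def e48_p0 : List Nat := [
0x6280d00000003900000003500000003b045d000401,
0x6a280070000000020000000430296000301,
0x68021d00000004704b9000201,
0xa641d0000000490525000201,
0xa8061d00000004b05f1000201,
0xa6801f00000000a00000004500000000400000004d0208000501,
0x8a46202700000000800000000600000000c0414000401,
0x6422d00000003900000003500000003700000000e0413000501,
0x4f000000010000200]

def e48_pf : List Nat := e48_p0

theorem e48_ref {V : Type} {S : SRel V} {p : Nat → V} (hp : ∀ i j, i < 6 → j < 6 → p i = p j → i = j)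
    (hts : PHs S p 6 (mB ++ (pU ++ (lU ++ gf (fun x => 8 + cr 5 x) e48_t)))) : False :=
  refuteS (k := 6) (n2 := 3) (n3 := 1) (n4 := 3) (o3 := 63) (o4 := 119) (M := 812) (mB ++ (pU ++ (lU ++ gf (fun x => 8 + cr 5 x) e48_t))) e48_pf (by decide +kernel)
    (by decide +kernel) (by decide +kernel) (by decide +kernel) hp hts

theorem e48 {V : Type} {W : Mw V} (hb : W.Bs) {U : V → V → V → V → Prop} {D : V → Prop} (h : Ext W U D) {a b c d e : V}
    (nd : [W.z, a, b, c, d, e].Nodup) (hD : ∀ j, j < 6 → D (pt [W.z, a, b, c, d, e] W.z j)) (hr : Hit (mrel0 hb) (pt [a, b, c, d, e] W.z) e48_t) : False :=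
  e48_ref (pt_inj (o := W.z) nd rfl) (PHs.app (by rw [← mB_z]; exact (mB_h hb h.sy).ph rfl _) (PHs.app (pU_ph hb h hD) (PHs.app (lU_ph hb h (by decide) rfl hD)
    (gf_ph (hit_nu (by decide) hr) (cr 5) (cr_pt (n := 5) (l := [a, b, c, d, e]) (l' := []) rfl)))))

/-- O_6_3_14 -/
def e49_t : Tm :=
  ⟨5, [], [(0, 1), (0, 2), (0, 3), (0, 4), (1, 2), (1, 3), (1, 4), (2, 3), (2, 4), (3, 4), (0, 8), (1, 8), (2, 8), (3, 8), (4, 8)], [.b false 2 0 0, .b false 2 1 1, .b false 2 2 2, .b true 2 3 3, .b true 2 4 4, .q false 0 8 1 0 4, .q false 0 8 2 1 4, .q false 0 8 3 0 4, .b false 0 2 3, .b true 0 2 4, .q false 1 0 4 1 3]⟩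

def e49_p0 : List Nat := [
0xa820b00000003b00000003500000003d05e0000401,
0xa860b00000003b00000003900000003d05ef000401,
0xa4200300000003f0571000201,
0xa2401b00000003f0546000201,
0xa8420070000000020000000060490000301,
0x8a460070000000040000000410173000301,
0x260840700000000a00000000c0176000301,
0x840a20500000003f000000043055f000301,
0xa62840700000000e000000010029c000301,
0xa6841b00000001205ca000201,
0x861300000003b0000000390000000450012000401,
0xa461d0000000470525000201,
0x84a2290000000490235000201,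
0x2a841d00000001a0033000201,
0x286a042700000001400000000800000001a05af000401,
0xa4601f00000001800000001600000004100000001e00000001c000600]

def e49_pf : List Nat := e49_p0

theorem e49_ref {V : Type} {S : SRel V} {p : Nat → V} (hp : ∀ i j, i < 6 → j < 6 → p i = p j → i = j)
    (hts : PHs S p 6 (mB ++ (pU ++ (lU ++ gf (fun x => 8 + cr 5 x) e49_t)))) : False :=
  refuteS (k := 6) (n2 := 3) (n3 := 1) (n4 := 3) (o3 := 63) (o4 := 119) (M := 812) (mB ++ (pU ++ (lU ++ gf (fun x => 8 + cr 5 x) e49_t))) e49_pf (by decide +kernel)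
    (by decide +kernel) (by decide +kernel) (by decide +kernel) hp hts

theorem e49 {V : Type} {W : Mw V} (hb : W.Bs) {U : V → V → V → V → Prop} {D : V → Prop} (h : Ext W U D) {a b c d e : V}
    (nd : [W.z, a, b, c, d, e].Nodup) (hD : ∀ j, j < 6 → D (pt [W.z, a, b, c, d, e] W.z j)) (hr : Hit (mrel0 hb) (pt [a, b, c, d, e] W.z) e49_t) : False :=
  e49_ref (pt_inj (o := W.z) nd rfl) (PHs.app (by rw [← mB_z]; exact (mB_h hb h.sy).ph rfl _) (PHs.app (pU_ph hb h hD) (PHs.app (lU_ph hb h (by decide) rfl hD)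
    (gf_ph (hit_nu (by decide) hr) (cr 5) (cr_pt (n := 5) (l := [a, b, c, d, e]) (l' := []) rfl)))))

/-- O_6_3_15 -/
def e50_t : Tm :=
  ⟨5, [], [(0, 1), (0, 2), (0, 3), (0, 4), (1, 2), (1, 3), (1, 4), (2, 3), (2, 4), (3, 4), (0, 8), (1, 8), (2, 8), (3, 8), (4, 8)], [.b false 2 0 0, .b false 2 1 1, .b false 2 2 2, .b true 2 3 3, .b true 2 4 4, .q false 0 8 1 0 4, .q false 0 8 2 1 4, .q false 0 8 3 0 4, .b false 0 8 3, .b true 0 1 3, .q false 1 8 0 1 2, .q false 1 0 1 2 4]⟩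

def e50_p0 : List Nat := [
0x4280d00000003700000003500000003b0454000401,
0xa820b00000003b00000003500000003d05e0000401,
0xa860b00000003b00000003900000003d05ef000401,
0xa4200300000003f0571000201,
0xa8420070000000040000000080490000301,
0x8a460070000000060000000410173000301,
0x260840700000000a00000000c0176000301,
0x840a20500000003f000000043055f000301,
0x4a280070000000020000000430260000301,
0xa62840700000000e000000010029c000301,
0xa6841b00000001405ca000201,
0xa8041d00000004705e8000201,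
0x6422d00000003900000003500000003700000004900e8000501,
0x46202100000001a03f0000201,
0xa6422900000004b0286000201,
0x6a241d00000001e0033000201,
0x6a0422300000001c00000001e0519000301,
0x86a242700000001600000002200000001e0531000401,
0xa4801f000000018000000045000000012000000024000000020000600]

def e50_pf : List Nat := e50_p0

theorem e50_ref {V : Type} {S : SRel V} {p : Nat → V} (hp : ∀ i j, i < 6 → j < 6 → p i = p j → i = j)
    (hts : PHs S p 6 (mB ++ (pU ++ (lU ++ gf (fun x => 8 + cr 5 x) e50_t)))) : False :=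
  refuteS (k := 6) (n2 := 3) (n3 := 1) (n4 := 3) (o3 := 63) (o4 := 119) (M := 812) (mB ++ (pU ++ (lU ++ gf (fun x => 8 + cr 5 x) e50_t))) e50_pf (by decide +kernel)
    (by decide +kernel) (by decide +kernel) (by decide +kernel) hp hts

theorem e50 {V : Type} {W : Mw V} (hb : W.Bs) {U : V → V → V → V → Prop} {D : V → Prop} (h : Ext W U D) {a b c d e : V}
    (nd : [W.z, a, b, c, d, e].Nodup) (hD : ∀ j, j < 6 → D (pt [W.z, a, b, c, d, e] W.z j)) (hr : Hit (mrel0 hb) (pt [a, b, c, d, e] W.z) e50_t) : False :=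
  e50_ref (pt_inj (o := W.z) nd rfl) (PHs.app (by rw [← mB_z]; exact (mB_h hb h.sy).ph rfl _) (PHs.app (pU_ph hb h hD) (PHs.app (lU_ph hb h (by decide) rfl hD)
    (gf_ph (hit_nu (by decide) hr) (cr 5) (cr_pt (n := 5) (l := [a, b, c, d, e]) (l' := []) rfl)))))

/-- O_6_3_16 -/
def e51_t : Tm :=
  ⟨5, [], [(0, 1), (0, 2), (0, 3), (0, 4), (1, 2), (1, 3), (1, 4), (2, 3), (2, 4), (3, 4), (0, 8), (1, 8), (2, 8), (3, 8), (4, 8)], [.b false 2 0 0, .b false 2 1 1, .b false 2 2 2, .b true 2 3 3, .b true 2 4 4, .q false 0 8 1 0 4, .q false 0 8 2 1 4, .q false 0 8 3 0 4, .b true 0 1 3, .b false 0 2 3, .q false 1 8 0 1 2, .q false 1 0 1 2 4]⟩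

def e51_p0 : List Nat := [
0x4280d00000003700000003500000003b0454000401,
0xa820b00000003b00000003500000003d05e0000401,
0xa860b00000003b00000003900000003d05ef000401,
0xa4200300000003f0571000201,
0xa8420070000000040000000080490000301,
0x8a460070000000060000000410173000301,
0x260840700000000a00000000c0176000301,
0x840a20500000003f000000043055f000301,
0x4a280070000000020000000430260000301,
0xa62840700000000e000000010029c000301,
0xa6841b00000001405ca000201,
0xa8041d00000004505e8000201,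
0x861500000003b000000039000000047001e000401,
0x6422d00000003900000003500000003700000004900e8000501,
0x46202100000001c03f0000201,
0xa6422900000004b0286000201,
0x6a241d0000000200033000201,
0x6a0422300000001e0000000200519000301,
0x86a24270000000160000000240000000200531000401,
0xa4801f00000001800000001a000000012000000026000000022000600]

def e51_pf : List Nat := e51_p0

theorem e51_ref {V : Type} {S : SRel V} {p : Nat → V} (hp : ∀ i j, i < 6 → j < 6 → p i = p j → i = j)
    (hts : PHs S p 6 (mB ++ (pU ++ (lU ++ gf (fun x => 8 + cr 5 x) e51_t)))) : False :=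
  refuteS (k := 6) (n2 := 3) (n3 := 1) (n4 := 3) (o3 := 63) (o4 := 119) (M := 812) (mB ++ (pU ++ (lU ++ gf (fun x => 8 + cr 5 x) e51_t))) e51_pf (by decide +kernel)
    (by decide +kernel) (by decide +kernel) (by decide +kernel) hp hts

theorem e51 {V : Type} {W : Mw V} (hb : W.Bs) {U : V → V → V → V → Prop} {D : V → Prop} (h : Ext W U D) {a b c d e : V}
    (nd : [W.z, a, b, c, d, e].Nodup) (hD : ∀ j, j < 6 → D (pt [W.z, a, b, c, d, e] W.z j)) (hr : Hit (mrel0 hb) (pt [a, b, c, d, e] W.z) e51_t) : False :=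
  e51_ref (pt_inj (o := W.z) nd rfl) (PHs.app (by rw [← mB_z]; exact (mB_h hb h.sy).ph rfl _) (PHs.app (pU_ph hb h hD) (PHs.app (lU_ph hb h (by decide) rfl hD)
    (gf_ph (hit_nu (by decide) hr) (cr 5) (cr_pt (n := 5) (l := [a, b, c, d, e]) (l' := []) rfl)))))

/-- O_6_4_17 -/
def e52_t : Tm :=
  ⟨5, [], [(0, 1), (0, 2), (0, 3), (0, 4), (1, 2), (1, 3), (1, 4), (2, 3), (2, 4), (3, 4), (0, 8), (1, 8), (2, 8), (3, 8), (4, 8)], [.b false 2 0 0, .b false 2 1 1, .b false 2 2 2, .b false 2 3 3, .b true 2 4 4, .q false 0 8 1 0 4, .q false 0 8 2 1 4, .q false 0 8 3 2 4, .b true 0 8 2, .b false 0 8 3, .b false 0 0 4, .b true 0 1 4, .b true 0 3 4, .q false 1 0 1 2 3]⟩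

def e52_p0 : List Nat := [
0xa4200300000003f0571000201,
0xa6400300000004105ad000201,
0x260a4070000000020000000410257000301,
0xa6420300000000605b0000201,
0x4a62030000000060553000201,
0x420a60700000000400000000805a7000301,
0x640a20700000003f00000000a0221000301,
0x280a60700000000c0000000430299000301,
0x6a82030000000100562000201,
0x860a20700000000e000000012022d000301,
0x86201d00000004504b9000201,
0x8a241d00000004b05eb000201,
0xa281d00000004d052e000201,
0xa2801f00000004900000004700000001400000001a02b6000501,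
0x64a8022700000001800000001600000001c04c2000401,
0x86422900000001e04c1000201,
0x4f000000020000200]

def e52_pf : List Nat := e52_p0

theorem e52_ref {V : Type} {S : SRel V} {p : Nat → V} (hp : ∀ i j, i < 6 → j < 6 → p i = p j → i = j)
    (hts : PHs S p 6 (mB ++ (pU ++ (lU ++ gf (fun x => 8 + cr 5 x) e52_t)))) : False :=
  refuteS (k := 6) (n2 := 3) (n3 := 1) (n4 := 3) (o3 := 63) (o4 := 119) (M := 812) (mB ++ (pU ++ (lU ++ gf (fun x => 8 + cr 5 x) e52_t))) e52_pf (by decide +kernel)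
    (by decide +kernel) (by decide +kernel) (by decide +kernel) hp hts

theorem e52 {V : Type} {W : Mw V} (hb : W.Bs) {U : V → V → V → V → Prop} {D : V → Prop} (h : Ext W U D) {a b c d e : V}
    (nd : [W.z, a, b, c, d, e].Nodup) (hD : ∀ j, j < 6 → D (pt [W.z, a, b, c, d, e] W.z j)) (hr : Hit (mrel0 hb) (pt [a, b, c, d, e] W.z) e52_t) : False :=
  e52_ref (pt_inj (o := W.z) nd rfl) (PHs.app (by rw [← mB_z]; exact (mB_h hb h.sy).ph rfl _) (PHs.app (pU_ph hb h hD) (PHs.app (lU_ph hb h (by decide) rfl hD)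
    (gf_ph (hit_nu (by decide) hr) (cr 5) (cr_pt (n := 5) (l := [a, b, c, d, e]) (l' := []) rfl)))))

/-- O_6_4_18 -/
def e53_t : Tm :=
  ⟨5, [], [(0, 1), (0, 2), (0, 3), (0, 4), (1, 2), (1, 3), (1, 4), (2, 3), (2, 4), (3, 4), (0, 8), (1, 8), (2, 8), (3, 8), (4, 8)], [.b false 2 0 0, .b false 2 1 1, .b false 2 2 2, .b false 2 3 3, .b true 2 4 4, .q false 0 8 1 0 4, .q false 0 8 2 1 4, .q false 0 8 3 2 4, .b true 0 0 3, .b false 0 0 4, .q false 1 8 1 2 3, .q false 1 1 2 3 4]⟩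

def e53_p0 : List Nat := [
0xa4200300000003f0571000201,
0xa6400300000004105ad000201,
0x260a4070000000020000000410257000301,
0x6a2400700000003f00000000400d4000301,
0xa6420300000000605b0000201,
0x4a62030000000060553000201,
0x420a60700000000400000000a05a7000301,
0x640a20700000003f00000000c0221000301,
0xa8600300000004305ef000201,
0x280a60700000000e0000000430299000301,
0x8a460070000000410000000120173000301,
0x6a82030000000140562000201,
0x86400300000001604bd000201,
0x860a207000000010000000018022d000301,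
0x862400700000000800000001a0146000301,
0x82401b00000001e0474000201,
0xa8021d00000004505e2000201,
0x8642d00000003b0000000370000000390000000490193000501,
0x68401d000000024001e000201,
0xa2801f00000002200000004700000001c0000000260202000501,
0x2a8402500000002000000002805e8000301,
0xa68042500000002400000002a05f7000301,
0xa8642900000002c05f6000201,
0x4b00000002e000200]

def e53_pf : List Nat := e53_p0

theorem e53_ref {V : Type} {S : SRel V} {p : Nat → V} (hp : ∀ i j, i < 6 → j < 6 → p i = p j → i = j)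
    (hts : PHs S p 6 (mB ++ (pU ++ (lU ++ gf (fun x => 8 + cr 5 x) e53_t)))) : False :=
  refuteS (k := 6) (n2 := 3) (n3 := 1) (n4 := 3) (o3 := 63) (o4 := 119) (M := 812) (mB ++ (pU ++ (lU ++ gf (fun x => 8 + cr 5 x) e53_t))) e53_pf (by decide +kernel)
    (by decide +kernel) (by decide +kernel) (by decide +kernel) hp hts

theorem e53 {V : Type} {W : Mw V} (hb : W.Bs) {U : V → V → V → V → Prop} {D : V → Prop} (h : Ext W U D) {a b c d e : V}
    (nd : [W.z, a, b, c, d, e].Nodup) (hD : ∀ j, j < 6 → D (pt [W.z, a, b, c, d, e] W.z j)) (hr : Hit (mrel0 hb) (pt [a, b, c, d, e] W.z) e53_t) : False :=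
  e53_ref (pt_inj (o := W.z) nd rfl) (PHs.app (by rw [← mB_z]; exact (mB_h hb h.sy).ph rfl _) (PHs.app (pU_ph hb h hD) (PHs.app (lU_ph hb h (by decide) rfl hD)
    (gf_ph (hit_nu (by decide) hr) (cr 5) (cr_pt (n := 5) (l := [a, b, c, d, e]) (l' := []) rfl)))))

/-- O_6_4_19 -/
def e54_t : Tm :=
  ⟨5, [], [(0, 1), (0, 2), (0, 3), (0, 4), (1, 2), (1, 3), (1, 4), (2, 3), (2, 4), (3, 4), (0, 8), (1, 8), (2, 8), (3, 8), (4, 8)], [.b false 2 0 0, .b false 2 1 1, .b false 2 2 2, .b false 2 3 3, .b true 2 4 4, .q false 0 8 1 0 4, .q false 0 8 2 1 4, .q false 0 8 3 2 4, .b true 0 1 3, .b false 0 3 4, .q false 1 8 0 1 2, .q false 1 0 1 2 4]⟩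

def e54_p0 : List Nat := [
0xa6400300000004105ad000201,
0x480a607000000002000000043029c000301,
0x6a84030000000040595000201,
0xa6841b00000000405ca000201,
0x860a4070000000410000000060260000301,
0xa8041d00000004505e8000201,
0xa81300000003d00000003b000000047001e000401,
0x6422d00000003900000003500000003700000004900e8000501,
0x64201d0000000100009000201,
0x46201d0000000100012000201,
0xa841700000003d00000004700000004500000003b0000000370000000120033000701,
0xa4801f00000000c00000000e00000000a0000000160205000501,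
0x60a842500000000800000001805af000301,
0xa4601f00000001600000001400000004100000001a01f9000501,
0xa02642300000001000000001c0229000301,
0x6a422100000001e05b2000201,
0xa6422900000002005b1000201,
0x4b000000022000200]

def e54_pf : List Nat := e54_p0

theorem e54_ref {V : Type} {S : SRel V} {p : Nat → V} (hp : ∀ i j, i < 6 → j < 6 → p i = p j → i = j)
    (hts : PHs S p 6 (mB ++ (pU ++ (lU ++ gf (fun x => 8 + cr 5 x) e54_t)))) : False :=
  refuteS (k := 6) (n2 := 3) (n3 := 1) (n4 := 3) (o3 := 63) (o4 := 119) (M := 812) (mB ++ (pU ++ (lU ++ gf (fun x => 8 + cr 5 x) e54_t))) e54_pf (by decide +kernel)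
    (by decide +kernel) (by decide +kernel) (by decide +kernel) hp hts

theorem e54 {V : Type} {W : Mw V} (hb : W.Bs) {U : V → V → V → V → Prop} {D : V → Prop} (h : Ext W U D) {a b c d e : V}
    (nd : [W.z, a, b, c, d, e].Nodup) (hD : ∀ j, j < 6 → D (pt [W.z, a, b, c, d, e] W.z j)) (hr : Hit (mrel0 hb) (pt [a, b, c, d, e] W.z) e54_t) : False :=
  e54_ref (pt_inj (o := W.z) nd rfl) (PHs.app (by rw [← mB_z]; exact (mB_h hb h.sy).ph rfl _) (PHs.app (pU_ph hb h hD) (PHs.app (lU_ph hb h (by decide) rfl hD)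
    (gf_ph (hit_nu (by decide) hr) (cr 5) (cr_pt (n := 5) (l := [a, b, c, d, e]) (l' := []) rfl)))))

/-- O_7_3_20 -/
def e55_t : Tm :=
  ⟨6, [], [(0, 1), (0, 2), (0, 3), (0, 4), (0, 5), (1, 2), (1, 3), (1, 4), (1, 5), (2, 3), (2, 4), (2, 5), (3, 4), (3, 5), (4, 5), (0, 8), (1, 8), (2, 8), (3, 8), (4, 8), (5, 8)], [.b false 2 0 0, .b false 2 1 1, .b false 2 2 2, .b true 2 3 3, .b true 2 4 4, .b true 2 5 5, .q false 0 8 1 0 5, .q false 0 8 2 1 5, .q false 0 8 3 0 4, .q false 0 8 4 0 5, .b true 0 0 4, .b true 0 1 5, .q false 1 8 0 1 2, .q false 1 8 5 3 4, .q false 1 2 3 4 5]⟩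

def e55_p0 : List Nat := [
0x6a021d0000000490818000201,
0xc641d00000004b08e1000201,
0x6422d00000003900000003500000003700000004d0119000501,
0xac46202700000000400000000200000000608ff000401,
0xa8c3100000003f00000003d00000003b00000004f0398000501,
0xa86c02300000000800000000a08f0000301,
0xac682500000000c00000000a0a58000301,
0xca862900000000e0a57000201,
0x51000000010000200]

def e55_pf : List Nat := e55_p0

theorem e55_ref {V : Type} {S : SRel V} {p : Nat → V} (hp : ∀ i j, i < 7 → j < 7 → p i = p j → i = j)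
    (hts : PHs S p 7 (mB ++ (pU ++ (lU ++ gf (fun x => 8 + cr 6 x) e55_t)))) : False :=
  refuteS (k := 7) (n2 := 3) (n3 := 1) (n4 := 3) (o3 := 84) (o4 := 168) (M := 1386) (mB ++ (pU ++ (lU ++ gf (fun x => 8 + cr 6 x) e55_t))) e55_pf (by decide +kernel)
    (by decide +kernel) (by decide +kernel) (by decide +kernel) hp hts

theorem e55 {V : Type} {W : Mw V} (hb : W.Bs) {U : V → V → V → V → Prop} {D : V → Prop} (h : Ext W U D) {a b c d e f : V}
    (nd : [W.z, a, b, c, d, e, f].Nodup) (hD : ∀ j, j < 7 → D (pt [W.z, a, b, c, d, e, f] W.z j)) (hr : Hit (mrel0 hb) (pt [a, b, c, d, e, f] W.z) e55_t) : False :=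
  e55_ref (pt_inj (o := W.z) nd rfl) (PHs.app (by rw [← mB_z]; exact (mB_h hb h.sy).ph rfl _) (PHs.app (pU_ph hb h hD) (PHs.app (lU_ph hb h (by decide) rfl hD)
    (gf_ph (hit_nu (by decide) hr) (cr 6) (cr_pt (n := 6) (l := [a, b, c, d, e, f]) (l' := []) rfl)))))

/-- O_7_3_22 -/
def e56_t : Tm :=
  ⟨6, [], [(0, 1), (0, 2), (0, 3), (0, 4), (0, 5), (1, 2), (1, 3), (1, 4), (1, 5), (2, 3), (2, 4), (2, 5), (3, 4), (3, 5), (4, 5), (0, 8), (1, 8), (2, 8), (3, 8), (4, 8), (5, 8)], [.b false 2 0 0, .b false 2 1 1, .b false 2 2 2, .b true 2 3 3, .b true 2 4 4, .b true 2 5 5, .q false 0 8 1 0 5, .q false 0 8 2 1 5, .q false 0 8 3 0 4, .q false 0 8 4 0 5, .b true 0 1 4, .b true 0 2 5, .q false 1 8 0 1 2, .q false 1 8 5 3 4, .q false 1 0 1 2 3]⟩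

def e56_p0 : List Nat := [
0x8a041d0000000490857000201,
0xc861d00000004b08f0000201,
0x6422d00000003900000003500000003700000004d0119000501,
0xa8c3100000003f00000003d00000003b00000004f0398000501,
0xac684027000000004000000002000000008072e000401,
0x86422900000005101c7000201,
0x420862300000000a00000000c0728000301,
0x846022500000000600000000e00000000c000400]

def e56_pf : List Nat := e56_p0

theorem e56_ref {V : Type} {S : SRel V} {p : Nat → V} (hp : ∀ i j, i < 7 → j < 7 → p i = p j → i = j)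
    (hts : PHs S p 7 (mB ++ (pU ++ (lU ++ gf (fun x => 8 + cr 6 x) e56_t)))) : False :=
  refuteS (k := 7) (n2 := 3) (n3 := 1) (n4 := 3) (o3 := 84) (o4 := 168) (M := 1386) (mB ++ (pU ++ (lU ++ gf (fun x => 8 + cr 6 x) e56_t))) e56_pf (by decide +kernel)
    (by decide +kernel) (by decide +kernel) (by decide +kernel) hp hts

theorem e56 {V : Type} {W : Mw V} (hb : W.Bs) {U : V → V → V → V → Prop} {D : V → Prop} (h : Ext W U D) {a b c d e f : V}
    (nd : [W.z, a, b, c, d, e, f].Nodup) (hD : ∀ j, j < 7 → D (pt [W.z, a, b, c, d, e, f] W.z j)) (hr : Hit (mrel0 hb) (pt [a, b, c, d, e, f] W.z) e56_t) : False :=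
  e56_ref (pt_inj (o := W.z) nd rfl) (PHs.app (by rw [← mB_z]; exact (mB_h hb h.sy).ph rfl _) (PHs.app (pU_ph hb h hD) (PHs.app (lU_ph hb h (by decide) rfl hD)
    (gf_ph (hit_nu (by decide) hr) (cr 6) (cr_pt (n := 6) (l := [a, b, c, d, e, f]) (l' := []) rfl)))))

/-- O_7_3_23 -/
def e57_t : Tm :=
  ⟨6, [], [(0, 1), (0, 2), (0, 3), (0, 4), (0, 5), (1, 2), (1, 3), (1, 4), (1, 5), (2, 3), (2, 4), (2, 5), (3, 4), (3, 5), (4, 5), (0, 8), (1, 8), (2, 8), (3, 8), (4, 8), (5, 8)], [.b false 2 0 0, .b false 2 1 1, .b false 2 2 2, .b true 2 3 3, .b true 2 4 4, .b true 2 5 5, .q false 0 8 1 0 5, .q false 0 8 2 1 5, .q false 0 8 3 0 4, .q false 0 8 4 0 5, .q false 1 8 0 1 2, .q false 1 8 5 3 4, .q false 1 0 1 2 5, .q false 1 1 3 4 5]⟩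

def e57_p0 : List Nat := [
0x42c0d00000003700000003500000003f08d3000401,
0xc860b00000003b00000003900000003f09f3000401,
0x8c4600700000000400000004301a4000301,
0x2a8003000000045079b000201,
0x2ca00300000004708f7000201,
0x8c2a00700000000800000004704a4000301,
0x2a4c00700000000200000000a08fa000301,
0x8ca00300000000c0900000201,
0xa84c00700000001000000000e08eb000301,
0xc6084070000000060000000120450000301,
0xc6841b00000001409bc000201,
0x6422d0000000390000000350000000370000000490119000501,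
0x462021000000018065f000201,
0xa8c3100000003f00000003d00000003b00000004b0398000501,
0xc6422900000004d043a000201,
0x6c0422300000001a00000001e08d5000301,
0x86c242700000001600000002000000001e08ed000401,
0xac482500000001c0000000220a55000301,
0xca84290000000240a54000201,
0x4f000000026000200]

def e57_pf : List Nat := e57_p0

theorem e57_ref {V : Type} {S : SRel V} {p : Nat → V} (hp : ∀ i j, i < 7 → j < 7 → p i = p j → i = j)
    (hts : PHs S p 7 (mB ++ (pU ++ (lU ++ gf (fun x => 8 + cr 6 x) e57_t)))) : False :=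
  refuteS (k := 7) (n2 := 3) (n3 := 1) (n4 := 3) (o3 := 84) (o4 := 168) (M := 1386) (mB ++ (pU ++ (lU ++ gf (fun x => 8 + cr 6 x) e57_t))) e57_pf (by decide +kernel)
    (by decide +kernel) (by decide +kernel) (by decide +kernel) hp hts

theorem e57 {V : Type} {W : Mw V} (hb : W.Bs) {U : V → V → V → V → Prop} {D : V → Prop} (h : Ext W U D) {a b c d e f : V}
    (nd : [W.z, a, b, c, d, e, f].Nodup) (hD : ∀ j, j < 7 → D (pt [W.z, a, b, c, d, e, f] W.z j)) (hr : Hit (mrel0 hb) (pt [a, b, c, d, e, f] W.z) e57_t) : False :=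
  e57_ref (pt_inj (o := W.z) nd rfl) (PHs.app (by rw [← mB_z]; exact (mB_h hb h.sy).ph rfl _) (PHs.app (pU_ph hb h hD) (PHs.app (lU_ph hb h (by decide) rfl hD)
    (gf_ph (hit_nu (by decide) hr) (cr 6) (cr_pt (n := 6) (l := [a, b, c, d, e, f]) (l' := []) rfl)))))

end Pool.Agent.SOU
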