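import Pool.Agent.SOU.C

/-! Project SOU (MP_66ba69_lc, mixed insertion of a centre), module Main: the new structure is a structure. -/

set_option autoImplicit false

namespace Pool.Agent.SOU

open Pool.Agent.RUP Pool.Agent.SOQ Pool.Agent.SOD

variable {V : Type} {W : Mw V} {a b c d e p q r s u w x y x' y' : V}

/-- adjacency of a quartet -/
theorem tn_adj (h : W.Hy) (ht : Tn h.bs p q r s) : W.G.Adj p r := by
  have hd := ht.1
  have hT := nT_h h
  have sq1 : ∀ {x y w : V}, D4 W.z x y w → Tn h.bs W.z x y w → W.G.Adj W.z y := by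
    intro x y w hd ht
    by_contra hn
    exact (hT.2.1 (pt [x, y, w] W.z)) hd.2.2.2.1 hd.2.2.2.2.1 hd.2.2.2.2.2 hd.1.symm hd.2.1.symm hd.2.2.1.symm ht hn
  have sq2 : ∀ {x y w : V}, D4 W.z x y w → Tn h.bs W.z x y w → W.G.Adj x y := by
    intro x y w hd ht
    by_contra hn
    exact (hT.2.2.1 (pt [x, y, w] W.z)) hd.2.2.2.1 hd.2.2.2.2.1 hd.2.2.2.2.2 hd.1.symm hd.2.1.symm hd.2.2.1.symm ht hn
  by_cases hp : p = W.z
  · rw [hp] at ht ⊢
    exact sq1 ht.1 ht
  · by_cases hq : q = W.z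
    · have h1 := ht.s1
      rw [hq] at h1
      exact sq2 h1.1 h1
    · by_cases hr : r = W.z
      · have h1 := ht.s2
        rw [hr] at h1 ⊢
        exact (sq1 h1.1 h1).symm
      · by_cases hs : s = W.z
        · have h1 := ht.s2.s1
          rw [hs] at h1
          exact (sq2 h1.1 h1).symm
        · by_contra hn
          exact h.pl.x_sq_1 hd.1 hd.2.1 hd.2.2.1 hd.2.2.2.1 hd.2.2.2.2.1 hd.2.2.2.2.2 hp hq hr hs
            ((tn_off hp hq hr hs hd).1 ht) hn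

theorem tn_nc (h : W.Hy) (ht : Tn h.bs p q r s) : ¬ CrF W.f p q r s := by
  intro hx
  have hX := crF_sepr h.bs.inj
  have hT := nT_h h
  have nc : ∀ {x y w : V}, Tn h.bs W.z x y w → CrF W.f W.z x y w → False := by
    intro x y w ht hx
    have hd := ht.1
    exact (hT.1 (pt [x, y, w] W.z)) hd.2.2.2.1 hd.2.2.2.2.1 hd.2.2.2.2.2 hd.1.symm hd.2.1.symm hd.2.2.1.symm ht hx
  by_cases hp : p = W.z
  · rw [hp] at ht hx
    exact nc ht hx
  · by_cases hq : q = W.z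
    · have h1 := ht.s1
      have h2 := hX.swap hx
      rw [hq] at h1 h2
      exact nc h1 h2
    · by_cases hr : r = W.z
      · have h1 := ht.s2
        have h2 := hX.comm hx
        rw [hr] at h1 h2
        exact nc h1 h2
      · by_cases hs : s = W.z
        · have h1 := ht.s2.s1
          have h2 := hX.swap (hX.comm hx)
          rw [hs] at h1 h2
          exact nc h1 h2
        · have hd := ht.1
          exact h.pl.x_nc_0 hd.1 hd.2.1 hd.2.2.1 hd.2.2.2.1 hd.2.2.2.2.1 hd.2.2.2.2.2 hp hq hr hs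
            ((tn_off hp hq hr hs hd).1 ht) hx

theorem tn_nb (h : W.Hy) (ht : Tn h.bs p q r s) (ht' : Tn h.bs p r q s) : False := by
  have hT := nT_h h
  have nb : ∀ {x y w : V}, Tn h.bs W.z x y w → Tn h.bs W.z y x w → False := by
    intro x y w ht ht'
    have hd := ht.1
    exact (hT.2.2.2.2.1 (pt [x, y, w] W.z)) hd.2.2.2.1 hd.2.2.2.2.1 hd.2.2.2.2.2 hd.1.symm hd.2.1.symm hd.2.2.1.symm ht ht'
  by_cases hp : p = W.z
  · rw [hp] at ht ht'
    exact nb ht ht'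
  · by_cases hq : q = W.z
    · -- z p | r s and p r | z s = z s | p r
      have h1 := ht.s1
      have h2 := ht'.s2
      rw [hq] at h1 h2
      -- z p | r s ; z s | p r ; need form x y w : z x | y w, z y | x w with x = p, y = s
      exact nb (Tn.s3 h1) h2
    · by_cases hr : r = W.z
      · have h1 := ht.s2
        have h2 := ht'.s1
        rw [hr] at h1 h2
        -- z s | p q ; z p | q s
        exact nb (Tn.s3 h2) h1
      · by_cases hs : s = W.z
        · have h1 := ht.s2.s1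
          have h2 := ht'.s2.s1
          rw [hs] at h1 h2
          -- z r | p q ; z q | p r
          exact nb (Tn.s3 h1) (Tn.s3 h2)
        · have hd := ht.1
          exact h.pl.x_nb_3 hd.1 hd.2.1 hd.2.2.1 hd.2.2.2.1 hd.2.2.2.2.1 hd.2.2.2.2.2 hp hq hr hs
            ((tn_off hp hq hr hs hd).1 ht) ((tn_off hp hr hq hs ht'.1).1 ht')

/-- `X p q | r s`: crossing chords of adjacent points -/
theorem tn_some (h : W.Hy) (e1 : W.G.Adj p q) (e2 : W.G.Adj r s) (hx : CrF W.f p q r s) :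
    Tn h.bs p r q s ∨ Tn h.bs p s q r := by
  have hX := crF_sepr h.bs.inj
  have hT := nT_h h
  have som : ∀ {x y w : V}, W.G.Adj W.z x → W.G.Adj y w → CrF W.f W.z x y w →
      Tn h.bs W.z y x w ∨ Tn h.bs W.z w x y := by
    intro x y w e1 e2 hx
    by_contra hn
    rw [not_or] at hn
    obtain ⟨n1, n2, n3, n4, n5, n6⟩ := hx.1
    exact (hT.2.2.2.1 (pt [x, y, w] W.z)) n4 n5 n6 n1.symm n2.symm n3.symm e1 e2 hx hn.1 hn.2
  obtain ⟨n1, n2, n3, n4, n5, n6⟩ := hx.1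
  by_cases hp : p = W.z
  · rw [hp] at e1 hx ⊢
    exact som e1 e2 hx
  · by_cases hq : q = W.z
    · rw [hq] at e1 hx ⊢
      rcases som e1.symm e2 (hX.swap hx) with k | k
      · -- z r | p s
        exact Or.inr k.s2
      · exact Or.inl k.s2
    · by_cases hr : r = W.z
      · rw [hr] at e2 hx ⊢
        rcases som e2 e1 (hX.comm hx) with k | k
        · -- z p | s q
          exact Or.inl (k.s1.s3)
        · -- z q | s p
          exact Or.inr k.s2.s1.s3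
      · by_cases hs : s = W.z
        · rw [hs] at e2 hx ⊢
          rcases som e2.symm e1 (hX.swap (hX.comm hx)) with k | k
          · -- z p | r q
            exact Or.inr (k.s1.s3)
          · -- z q | r p
            exact Or.inl k.s2.s1.s3
        · by_contra hn
          rw [not_or] at hn
          have d1 : D4 p r q s := ⟨n2, n1, n3, n4.symm, n6, n5⟩
          have d2 : D4 p s q r := ⟨n3, n1, n2, n5.symm, n6.symm, n4⟩
          exact h.pl.x_some_2 n1 n2 n3 n4 n5 n6 hp hq hr hs e1 e2 hx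
            (fun k => hn.1 ((tn_off hp hr hq hs d1).2 k)) (fun k => hn.2 ((tn_off hp hs hq hr d2).2 k))


theorem nd5 {z a b c d : V} (h : D4 a b c d) (h1 : z ≠ a) (h2 : z ≠ b) (h3 : z ≠ c) (h4 : z ≠ d) : [z, a, b, c, d].Nodup :=
  mk4 h.1 h.2.1 h.2.2.1 h.2.2.2.1 h.2.2.2.2.1 h.2.2.2.2.2 h1.symm h2.symm h3.symm h4.symm

/-- transitivity -/
theorem tn_tr (h : W.Hy) (h1 : Tn h.bs u w x y) (h2 : Tn h.bs u w y s) (hn : x ≠ s) : Tn h.bs u w x s := by
  by_contra hc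
  have d1 := h1.1
  have d2 := h2.1
  -- distinctness: u w x y s
  have n1 := d1.1
  have n2 := d1.2.1
  have n3 := d1.2.2.1
  have n4 := d1.2.2.2.1
  have n5 := d1.2.2.2.2.1
  have n6 := d1.2.2.2.2.2
  have m1 := d2.2.2.1
  have m2 := d2.2.2.2.2.1
  have m3 := d2.2.2.2.2.2
  have du : D4 u w x s := ⟨n1, n2, m1, n4, m2, hn⟩
  by_cases hu : u = W.z
  · subst hu
    exact C_tr_u h (nd5 ⟨n4, n5, m2, n6, hn, m3⟩ n1 n2 n3 m1) h1 h2 hc
  by_cases hw : w = W.z
  · have g1 := h1.s1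
    have g2 := h2.s1
    have g3 : ¬ Tn h.bs w u x s := fun k => hc k.s1
    subst hw
    exact C_tr_u h (nd5 ⟨n2, n3, m1, n6, hn, m3⟩ n1.symm n4 n5 m2) g1 g2 g3
  by_cases hx : x = W.z
  · subst hx
    -- Tn u w z y, T u w y s, ¬ Tn u w z s
    exact C_tr_x h (a := u) (b := w) (c := y) (d := s) (nd5 ⟨n1, n3, m1, n5, m2, m3⟩ n2.symm n4.symm n6 hn) h1
      ((tn_off hu hw (Ne.symm n6) (Ne.symm hn) d2).1 h2) hc
  by_cases hs : s = W.z
  · subst hs
    have g2 := h2.s3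
    have g3 : ¬ Tn h.bs u w W.z x := fun k => hc k.s3
    exact C_tr_x h (a := u) (b := w) (c := y) (d := x) (nd5 ⟨n1, n3, n2, n5, n4, n6.symm⟩ m1.symm m2.symm m3.symm hn.symm)
      g2 ((tn_off hu hw m3 hx ⟨n1, n3, n2, n5, n4, n6.symm⟩).1 h1.s3) g3
  by_cases hy : y = W.z
  · subst hy
    exact C_tr_y h (a := u) (b := w) (c := x) (d := s) (nd5 ⟨n1, n2, m1, n4, m2, hn⟩ n3.symm n5.symm n6.symm m3) h1 h2
      (fun k => hc ((tn_off hu hw hx hs du).2 k))
  exact h.pl.x_trans_4 n1 n2 n3 m1 n4 n5 m2 n6 hn m3 hu hw hx hy hs ((tn_off hu hw hx hy d1).1 h1)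
    ((tn_off hu hw hy hs d2).1 h2) (fun k => hc ((tn_off hu hw hx hs du).2 k))

/-- Ferrers, five points: `T(ab|cd)`, `T(ad|ce)` give `T(ab|ce)` -/
theorem tn_f5 (h : W.Hy) (h1 : Tn h.bs a b c d) (h2 : Tn h.bs a d c e) (hn : b ≠ e) : Tn h.bs a b c e := by
  by_contra hc
  have d1 := h1.1
  have d2 := h2.1
  have n1 := d1.1
  have n2 := d1.2.1
  have n3 := d1.2.2.1
  have n4 := d1.2.2.2.1
  have n5 := d1.2.2.2.2.1
  have n6 := d1.2.2.2.2.2
  have m1 := d2.2.2.1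
  have m2 := d2.2.2.2.2.1
  have m3 := d2.2.2.2.2.2
  have du : D4 a b c e := ⟨n1, n2, m1, n4, hn, m3⟩
  by_cases ha : a = W.z
  · subst ha
    exact C_f5_0 h (a := b) (b := c) (c := d) (d := e) (nd5 ⟨n4, n5, hn, n6, m3, m2⟩ n1 n2 n3 m1) h1 h2 hc
  by_cases hb : b = W.z
  · subst hb
    exact C_f5_1 h (a := a) (b := c) (c := d) (d := e) (nd5 ⟨n2, n3, m1, n6, m3, m2⟩ n1.symm n4 n5 hn) h1
      ((tn_off ha n5.symm n4.symm hn.symm d2).1 h2) hc
  by_cases hcz : c = W.z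
  · subst hcz
    exact C_f5_2 h (a := a) (b := b) (c := d) (d := e) (nd5 ⟨n1, n3, m1, n5, hn, m2⟩ n2.symm n4.symm n6 m3) h1 h2 hc
  by_cases hd : d = W.z
  · subst hd
    exact C_f5_3 h (a := a) (b := b) (c := c) (d := e) (nd5 ⟨n1, n2, m1, n4, hn, m3⟩ n3.symm n5.symm n6.symm m2) h1 h2
      (fun k => hc ((tn_off ha hb hcz m2.symm du).2 k))
  by_cases he : e = W.z
  · subst he
    exact C_f5_4 h (a := a) (b := b) (c := c) (d := d) (nd5 ⟨n1, n2, n3, n4, n5, n6⟩ m1.symm hn.symm m3.symm m2.symm)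
      ((tn_off ha hb hcz hd d1).1 h1) h2 hc
  exact h.pl.x_f5_5 n1 n2 n3 m1 n4 n5 hn n6 m3 m2 ha hb hcz hd he ((tn_off ha hb hcz hd d1).1 h1)
    ((tn_off ha hd hcz he d2).1 h2) (fun k => hc ((tn_off ha hb hcz he du).2 k))

/-- Ferrers, six points -/
theorem tn_f6 (h : W.Hy) (h1 : Tn h.bs a x b y) (h2 : Tn h.bs a x' b y') (n1 : x ≠ x') (n2 : y ≠ y') (n3 : x ≠ y')
    (n4 : x' ≠ y) : Tn h.bs a x b y' ∨ Tn h.bs a x' b y := by
  by_contra hc
  rw [not_or] at hc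
  obtain ⟨hc1, hc2⟩ := hc
  obtain ⟨a1, a2, a3, a4, a5, a6⟩ := h1.1
  obtain ⟨b1, b2, b3, b4, b5, b6⟩ := h2.1
  have key : ∀ {a x b y x' y' : V}, Tn h.bs a x b y → Tn h.bs a x' b y' → x ≠ x' → y ≠ y' → x ≠ y' → x' ≠ y →
      ¬ Tn h.bs a x b y' → ¬ Tn h.bs a x' b y → a = W.z → False := by
    intro a x b y x' y' h1 h2 n1 n2 n3 n4 hc1 hc2 ha
    obtain ⟨a1, a2, a3, a4, a5, a6⟩ := h1.1
    obtain ⟨b1, b2, b3, b4, b5, b6⟩ := h2.1
    subst ha
    -- fe_a : U z a b c, U z d b e, ¬ U z a b e, ¬ U z d b c with a = x, b = b, c = y, d = x', e = y'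
    exact C_fe_a h (a := x) (b := b) (c := y) (d := x') (e := y')
      (mk5 a4 a5 n1 n3 a6 b4.symm b6 (Ne.symm n4) n2 b5 a1.symm a2.symm a3.symm b1.symm b3.symm) h1 h2 hc1 hc2
  have key2 : ∀ {a x b y x' y' : V}, Tn h.bs a x b y → Tn h.bs a x' b y' → x ≠ x' → y ≠ y' → x ≠ y' → x' ≠ y →
      ¬ Tn h.bs a x b y' → ¬ Tn h.bs a x' b y → a ≠ W.z → b ≠ W.z → x = W.z → False := by
    intro a x b y x' y' h1 h2 n1 n2 n3 n4 hc1 hc2 ha hb hx
    obtain ⟨a1, a2, a3, a4, a5, a6⟩ := h1.1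
    obtain ⟨b1, b2, b3, b4, b5, b6⟩ := h2.1
    subst hx
    -- fe_x : U a z b c, T a d b e, ¬ U a z b e, ¬ T a d b c
    exact C_fe_x h (a := a) (b := b) (c := y) (d := x') (e := y')
      (mk5 a2 a3 b1 b3 a6 b4.symm b6 (Ne.symm n4) n2 b5 a1 a4.symm a5.symm n1.symm n3.symm) h1
      ((tn_off ha n1.symm hb n3.symm h2.1).1 h2) hc1
      (fun k => hc2 ((tn_off ha n1.symm hb a5.symm ⟨b1, a2, a3, b4, n4, a6⟩).2 k))
  by_cases ha : a = W.z
  · exact key h1 h2 n1 n2 n3 n4 hc1 hc2 ha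
  by_cases hb : b = W.z
  · exact key h1.s2 h2.s2 n2 n1 n4.symm n3.symm (fun k => hc2 k.s2) (fun k => hc1 k.s2) hb
  by_cases hx : x = W.z
  · exact key2 h1 h2 n1 n2 n3 n4 hc1 hc2 ha hb hx
  by_cases hy : y = W.z
  · exact key2 h1.s2 h2.s2 n2 n1 n4.symm n3.symm (fun k => hc2 k.s2) (fun k => hc1 k.s2) hb ha hy
  by_cases hx' : x' = W.z
  · exact key2 h2 h1 n1.symm n2.symm n4 n3 hc2 hc1 ha hb hx'
  by_cases hy' : y' = W.z
  · exact key2 h2.s2 h1.s2 n2.symm n1.symm n3.symm n4.symm (fun k => hc1 k.s2) (fun k => hc2 k.s2) hb ha hy'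
  exact h.pl.x_f6_6 (a := a) (b := x) (c := b) (d := y) (e := x') (f := y') a1 a2 a3 b1 b3 a4 a5 n1 n3 a6 b4.symm b6
    (Ne.symm n4) n2 b5 ha hx hb hy hx' hy' ((tn_off ha hx hb hy h1.1).1 h1) ((tn_off ha hx' hb hy' h2.1).1 h2)
    (fun k => hc1 ((tn_off ha hx hb hy' ⟨a1, a2, b3, a4, n3, b6⟩).2 k))
    (fun k => hc2 ((tn_off ha hx' hb hy ⟨b1, a2, a3, b4, n4, a6⟩).2 k))

/-- MIXED INSERTION: the new structure is a structure -/
theorem muit (h : W.Hy) : QT W.G (CrF W.f) (Tn h.bs) where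
  swap₁ := Tn.s1
  swap₂ := Tn.s2
  ne := fun h => h.1.1
  adj := tn_adj h
  nocross := tn_nc h
  some := by
    intro a b c d e1 e2 n1 n2 n3 n4 hx
    -- X a c | b d
    rcases tn_some h e1 e2 hx with k | k
    · exact Or.inl k
    · exact Or.inr k.s3
  notboth := by
    intro a b c d h1 h2
    exact tn_nb h (Tn.s3 h1) h2
  trans := tn_tr h
  ferrers := by
    intro a b x y x' y' h1 h2
    by_cases xx : x = x'
    · subst xx
      exact Or.inl h2
    · by_cases yy : y = y'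
      · subst yy
        exact Or.inr h2
      · by_cases xy : x = y'
        · subst xy
          by_cases yx : y = x'
          · subst yx
            exact (tn_nb h (Tn.s3 h1) (Tn.s3 h2)).elim
          · exact Or.inr (tn_f5 h h2 h1 (fun k => yx k.symm))
        · by_cases yx : y = x'
          · subst yx
            exact Or.inl (tn_f5 h h1 h2 xy)
          · exact tn_f6 h h1 h2 xx yy xy (fun k => yx k.symm)

/-- it agrees with the given structure on all quartets which are not mixed -/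
theorem muit_agree (hd : D4 p q r s) (hm : ¬ Mq W p q r s) (hb : W.Bs) : Tn hb p q r s ↔ W.T p q r s := by
  constructor
  · rintro ⟨_, k | k | k | k | k⟩
    · exact k.2
    · exact absurd (Or.inl ⟨k.1, k.2.1⟩) hm
    · exact absurd (Or.inr (Or.inl ⟨k.1, k.2.1⟩)) hm
    · exact absurd (Or.inr (Or.inr (Or.inl ⟨k.1, k.2.1⟩))) hm
    · exact absurd (Or.inr (Or.inr (Or.inr ⟨k.1, k.2.1⟩))) hm
  · exact fun k => ⟨hd, Or.inl ⟨hm, k⟩⟩

end Pool.Agent.SOU
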