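import Pool.Agent.SOU.ExtR
import Pool.Agent.SOU.Main

/-! Project SOU (MP_66ba69_lc, mixed insertion): local form (generated). -/

set_option autoImplicit false
set_option maxRecDepth 100000
set_option linter.unusedVariables false

namespace Pool.Agent.SOU

open Pool.Agent.RUP Pool.Agent.SOQ

variable {V : Type}

/-- every six points: the given structure extends to the mixed quartets of `z` and these points -/
def Loc (W : Mw V) : Prop := ∀ l : List V, l.length ≤ 6 → ∃ U, Ext W U (fun v => v = W.z ∨ v ∈ l)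

theorem dom_pt {z : V} {l : List V} {k : Nat} (hk : l.length + 1 = k) : ∀ j, j < k → pt (z :: l) z j = z ∨ pt (z :: l) z j ∈ l := by
  intro j hj
  have h1 := mem_pt (l := z :: l) (o := z) (j := j) (by rw [List.length_cons, hk]; exact hj)
  rcases List.mem_cons.1 h1 with h2 | h2
  · exact Or.inl h2
  · exact Or.inr h2

theorem th0 {W : Mw V} (hb : W.Bs) (hl : Loc W) : TH (mrel0 hb) W.z e0_t := by
  intro d
  refine of_not_hit fun hh => ?_
  obtain ⟨U, hU⟩ := hl [d 0, d 1, d 2, d 3] (by simp)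
  have hn := hh.1
  exact e0 hb hU (mk4 (hn (0, 1) (by decide)) (hn (0, 2) (by decide)) (hn (0, 3) (by decide)) (hn (1, 2) (by decide)) (hn (1, 3) (by decide)) (hn (2, 3) (by decide)) (hn (0, 8) (by decide)) (hn (1, 8) (by decide)) (hn (2, 8) (by decide)) (hn (3, 8) (by decide))) (dom_pt rfl)
    ((hit_pt (n := 4) (l := [d 0, d 1, d 2, d 3]) rfl (by intro x hx; interval_cases x <;> rfl) (by decide) (by decide)).1 hh)

theorem th1 {W : Mw V} (hb : W.Bs) (hl : Loc W) : TH (mrel0 hb) W.z e1_t := by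
  intro d
  refine of_not_hit fun hh => ?_
  obtain ⟨U, hU⟩ := hl [d 0, d 1, d 2, d 3] (by simp)
  have hn := hh.1
  exact e1 hb hU (mk4 (hn (0, 1) (by decide)) (hn (0, 2) (by decide)) (hn (0, 3) (by decide)) (hn (1, 2) (by decide)) (hn (1, 3) (by decide)) (hn (2, 3) (by decide)) (hn (0, 8) (by decide)) (hn (1, 8) (by decide)) (hn (2, 8) (by decide)) (hn (3, 8) (by decide))) (dom_pt rfl)
    ((hit_pt (n := 4) (l := [d 0, d 1, d 2, d 3]) rfl (by intro x hx; interval_cases x <;> rfl) (by decide) (by decide)).1 hh)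

theorem th2 {W : Mw V} (hb : W.Bs) (hl : Loc W) : TH (mrel0 hb) W.z e2_t := by
  intro d
  refine of_not_hit fun hh => ?_
  obtain ⟨U, hU⟩ := hl [d 0, d 1, d 2, d 3] (by simp)
  have hn := hh.1
  exact e2 hb hU (mk4 (hn (0, 1) (by decide)) (hn (0, 2) (by decide)) (hn (0, 3) (by decide)) (hn (1, 2) (by decide)) (hn (1, 3) (by decide)) (hn (2, 3) (by decide)) (hn (0, 8) (by decide)) (hn (1, 8) (by decide)) (hn (2, 8) (by decide)) (hn (3, 8) (by decide))) (dom_pt rfl)
    ((hit_pt (n := 4) (l := [d 0, d 1, d 2, d 3]) rfl (by intro x hx; interval_cases x <;> rfl) (by decide) (by decide)).1 hh)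

theorem th3 {W : Mw V} (hb : W.Bs) (hl : Loc W) : TH (mrel0 hb) W.z e3_t := by
  intro d
  refine of_not_hit fun hh => ?_
  obtain ⟨U, hU⟩ := hl [d 0, d 1, d 2, d 3] (by simp)
  have hn := hh.1
  exact e3 hb hU (mk4 (hn (0, 1) (by decide)) (hn (0, 2) (by decide)) (hn (0, 3) (by decide)) (hn (1, 2) (by decide)) (hn (1, 3) (by decide)) (hn (2, 3) (by decide)) (hn (0, 8) (by decide)) (hn (1, 8) (by decide)) (hn (2, 8) (by decide)) (hn (3, 8) (by decide))) (dom_pt rfl)
    ((hit_pt (n := 4) (l := [d 0, d 1, d 2, d 3]) rfl (by intro x hx; interval_cases x <;> rfl) (by decide) (by decide)).1 hh)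

theorem th4 {W : Mw V} (hb : W.Bs) (hl : Loc W) : TH (mrel0 hb) W.z e4_t := by
  intro d
  refine of_not_hit fun hh => ?_
  obtain ⟨U, hU⟩ := hl [d 0, d 1, d 2, d 3, d 4] (by simp)
  have hn := hh.1
  exact e4 hb hU (mk5 (hn (0, 1) (by decide)) (hn (0, 2) (by decide)) (hn (0, 3) (by decide)) (hn (0, 4) (by decide)) (hn (1, 2) (by decide)) (hn (1, 3) (by decide)) (hn (1, 4) (by decide)) (hn (2, 3) (by decide)) (hn (2, 4) (by decide)) (hn (3, 4) (by decide)) (hn (0, 8) (by decide)) (hn (1, 8) (by decide)) (hn (2, 8) (by decide)) (hn (3, 8) (by decide)) (hn (4, 8) (by decide))) (dom_pt rfl)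
    ((hit_pt (n := 5) (l := [d 0, d 1, d 2, d 3, d 4]) rfl (by intro x hx; interval_cases x <;> rfl) (by decide) (by decide)).1 hh)

theorem th5 {W : Mw V} (hb : W.Bs) (hl : Loc W) : TH (mrel0 hb) W.z e5_t := by
  intro d
  refine of_not_hit fun hh => ?_
  obtain ⟨U, hU⟩ := hl [d 0, d 1, d 2, d 3, d 4] (by simp)
  have hn := hh.1
  exact e5 hb hU (mk5 (hn (0, 1) (by decide)) (hn (0, 2) (by decide)) (hn (0, 3) (by decide)) (hn (0, 4) (by decide)) (hn (1, 2) (by decide)) (hn (1, 3) (by decide)) (hn (1, 4) (by decide)) (hn (2, 3) (by decide)) (hn (2, 4) (by decide)) (hn (3, 4) (by decide)) (hn (0, 8) (by decide)) (hn (1, 8) (by decide)) (hn (2, 8) (by decide)) (hn (3, 8) (by decide)) (hn (4, 8) (by decide))) (dom_pt rfl)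
    ((hit_pt (n := 5) (l := [d 0, d 1, d 2, d 3, d 4]) rfl (by intro x hx; interval_cases x <;> rfl) (by decide) (by decide)).1 hh)

theorem th6 {W : Mw V} (hb : W.Bs) (hl : Loc W) : TH (mrel0 hb) W.z e6_t := by
  intro d
  refine of_not_hit fun hh => ?_
  obtain ⟨U, hU⟩ := hl [d 0, d 1, d 2, d 3, d 4, d 5] (by simp)
  have hn := hh.1
  exact e6 hb hU (mk6 (hn (0, 1) (by decide)) (hn (0, 2) (by decide)) (hn (0, 3) (by decide)) (hn (0, 4) (by decide)) (hn (0, 5) (by decide)) (hn (1, 2) (by decide)) (hn (1, 3) (by decide)) (hn (1, 4) (by decide)) (hn (1, 5) (by decide)) (hn (2, 3) (by decide)) (hn (2, 4) (by decide)) (hn (2, 5) (by decide)) (hn (3, 4) (by decide)) (hn (3, 5) (by decide)) (hn (4, 5) (by decide)) (hn (0, 8) (by decide)) (hn (1, 8) (by decide)) (hn (2, 8) (by decide)) (hn (3, 8) (by decide)) (hn (4, 8) (by decide)) (hn (5, 8) (by decide))) (dom_pt rfl)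
    ((hit_pt (n := 6) (l := [d 0, d 1, d 2, d 3, d 4, d 5]) rfl (by intro x hx; interval_cases x <;> rfl) (by decide) (by decide)).1 hh)

theorem th7 {W : Mw V} (hb : W.Bs) (hl : Loc W) : TH (mrel0 hb) W.z e7_t := by
  intro d
  refine of_not_hit fun hh => ?_
  obtain ⟨U, hU⟩ := hl [d 0, d 1, d 2] (by simp)
  have hn := hh.1
  exact e7 hb hU (mk3 (hn (0, 1) (by decide)) (hn (0, 2) (by decide)) (hn (1, 2) (by decide)) (hn (0, 8) (by decide)) (hn (1, 8) (by decide)) (hn (2, 8) (by decide))) (dom_pt rfl)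
    ((hit_pt (n := 3) (l := [d 0, d 1, d 2]) rfl (by intro x hx; interval_cases x <;> rfl) (by decide) (by decide)).1 hh)

theorem th8 {W : Mw V} (hb : W.Bs) (hl : Loc W) : TH (mrel0 hb) W.z e8_t := by
  intro d
  refine of_not_hit fun hh => ?_
  obtain ⟨U, hU⟩ := hl [d 0, d 1, d 2] (by simp)
  have hn := hh.1
  exact e8 hb hU (mk3 (hn (0, 1) (by decide)) (hn (0, 2) (by decide)) (hn (1, 2) (by decide)) (hn (0, 8) (by decide)) (hn (1, 8) (by decide)) (hn (2, 8) (by decide))) (dom_pt rfl)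
    ((hit_pt (n := 3) (l := [d 0, d 1, d 2]) rfl (by intro x hx; interval_cases x <;> rfl) (by decide) (by decide)).1 hh)

theorem th9 {W : Mw V} (hb : W.Bs) (hl : Loc W) : TH (mrel0 hb) W.z e9_t := by
  intro d
  refine of_not_hit fun hh => ?_
  obtain ⟨U, hU⟩ := hl [d 0, d 1, d 2] (by simp)
  have hn := hh.1
  exact e9 hb hU (mk3 (hn (0, 1) (by decide)) (hn (0, 2) (by decide)) (hn (1, 2) (by decide)) (hn (0, 8) (by decide)) (hn (1, 8) (by decide)) (hn (2, 8) (by decide))) (dom_pt rfl)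
    ((hit_pt (n := 3) (l := [d 0, d 1, d 2]) rfl (by intro x hx; interval_cases x <;> rfl) (by decide) (by decide)).1 hh)

theorem th10 {W : Mw V} (hb : W.Bs) (hl : Loc W) : TH (mrel0 hb) W.z e10_t := by
  intro d
  refine of_not_hit fun hh => ?_
  obtain ⟨U, hU⟩ := hl [d 0, d 1, d 2] (by simp)
  have hn := hh.1
  exact e10 hb hU (mk3 (hn (0, 1) (by decide)) (hn (0, 2) (by decide)) (hn (1, 2) (by decide)) (hn (0, 8) (by decide)) (hn (1, 8) (by decide)) (hn (2, 8) (by decide))) (dom_pt rfl)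
    ((hit_pt (n := 3) (l := [d 0, d 1, d 2]) rfl (by intro x hx; interval_cases x <;> rfl) (by decide) (by decide)).1 hh)

theorem th11 {W : Mw V} (hb : W.Bs) (hl : Loc W) : TH (mrel0 hb) W.z e11_t := by
  intro d
  refine of_not_hit fun hh => ?_
  obtain ⟨U, hU⟩ := hl [d 0, d 1, d 2] (by simp)
  have hn := hh.1
  exact e11 hb hU (mk3 (hn (0, 1) (by decide)) (hn (0, 2) (by decide)) (hn (1, 2) (by decide)) (hn (0, 8) (by decide)) (hn (1, 8) (by decide)) (hn (2, 8) (by decide))) (dom_pt rfl)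
    ((hit_pt (n := 3) (l := [d 0, d 1, d 2]) rfl (by intro x hx; interval_cases x <;> rfl) (by decide) (by decide)).1 hh)

theorem th12 {W : Mw V} (hb : W.Bs) (hl : Loc W) : TH (mrel0 hb) W.z e12_t := by
  intro d
  refine of_not_hit fun hh => ?_
  obtain ⟨U, hU⟩ := hl [d 0, d 1, d 2] (by simp)
  have hn := hh.1
  exact e12 hb hU (mk3 (hn (0, 1) (by decide)) (hn (0, 2) (by decide)) (hn (1, 2) (by decide)) (hn (0, 8) (by decide)) (hn (1, 8) (by decide)) (hn (2, 8) (by decide))) (dom_pt rfl)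
    ((hit_pt (n := 3) (l := [d 0, d 1, d 2]) rfl (by intro x hx; interval_cases x <;> rfl) (by decide) (by decide)).1 hh)

theorem th13 {W : Mw V} (hb : W.Bs) (hl : Loc W) : TH (mrel0 hb) W.z e13_t := by
  intro d
  refine of_not_hit fun hh => ?_
  obtain ⟨U, hU⟩ := hl [d 0, d 1, d 2] (by simp)
  have hn := hh.1
  exact e13 hb hU (mk3 (hn (0, 1) (by decide)) (hn (0, 2) (by decide)) (hn (1, 2) (by decide)) (hn (0, 8) (by decide)) (hn (1, 8) (by decide)) (hn (2, 8) (by decide))) (dom_pt rfl)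
    ((hit_pt (n := 3) (l := [d 0, d 1, d 2]) rfl (by intro x hx; interval_cases x <;> rfl) (by decide) (by decide)).1 hh)

theorem th14 {W : Mw V} (hb : W.Bs) (hl : Loc W) : TH (mrel0 hb) W.z e14_t := by
  intro d
  refine of_not_hit fun hh => ?_
  obtain ⟨U, hU⟩ := hl [d 0, d 1, d 2] (by simp)
  have hn := hh.1
  exact e14 hb hU (mk3 (hn (0, 1) (by decide)) (hn (0, 2) (by decide)) (hn (1, 2) (by decide)) (hn (0, 8) (by decide)) (hn (1, 8) (by decide)) (hn (2, 8) (by decide))) (dom_pt rfl)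
    ((hit_pt (n := 3) (l := [d 0, d 1, d 2]) rfl (by intro x hx; interval_cases x <;> rfl) (by decide) (by decide)).1 hh)

theorem th15 {W : Mw V} (hb : W.Bs) (hl : Loc W) : TH (mrel0 hb) W.z e15_t := by
  intro d
  refine of_not_hit fun hh => ?_
  obtain ⟨U, hU⟩ := hl [d 0, d 1, d 2] (by simp)
  have hn := hh.1
  exact e15 hb hU (mk3 (hn (0, 1) (by decide)) (hn (0, 2) (by decide)) (hn (1, 2) (by decide)) (hn (0, 8) (by decide)) (hn (1, 8) (by decide)) (hn (2, 8) (by decide))) (dom_pt rfl)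
    ((hit_pt (n := 3) (l := [d 0, d 1, d 2]) rfl (by intro x hx; interval_cases x <;> rfl) (by decide) (by decide)).1 hh)

theorem th16 {W : Mw V} (hb : W.Bs) (hl : Loc W) : TH (mrel0 hb) W.z e16_t := by
  intro d
  refine of_not_hit fun hh => ?_
  obtain ⟨U, hU⟩ := hl [d 0, d 1, d 2] (by simp)
  have hn := hh.1
  exact e16 hb hU (mk3 (hn (0, 1) (by decide)) (hn (0, 2) (by decide)) (hn (1, 2) (by decide)) (hn (0, 8) (by decide)) (hn (1, 8) (by decide)) (hn (2, 8) (by decide))) (dom_pt rfl)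
    ((hit_pt (n := 3) (l := [d 0, d 1, d 2]) rfl (by intro x hx; interval_cases x <;> rfl) (by decide) (by decide)).1 hh)

theorem th17 {W : Mw V} (hb : W.Bs) (hl : Loc W) : TH (mrel0 hb) W.z e17_t := by
  intro d
  refine of_not_hit fun hh => ?_
  obtain ⟨U, hU⟩ := hl [d 0, d 1, d 2, d 3] (by simp)
  have hn := hh.1
  exact e17 hb hU (mk4 (hn (0, 1) (by decide)) (hn (0, 2) (by decide)) (hn (0, 3) (by decide)) (hn (1, 2) (by decide)) (hn (1, 3) (by decide)) (hn (2, 3) (by decide)) (hn (0, 8) (by decide)) (hn (1, 8) (by decide)) (hn (2, 8) (by decide)) (hn (3, 8) (by decide))) (dom_pt rfl)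
    ((hit_pt (n := 4) (l := [d 0, d 1, d 2, d 3]) rfl (by intro x hx; interval_cases x <;> rfl) (by decide) (by decide)).1 hh)

theorem th18 {W : Mw V} (hb : W.Bs) (hl : Loc W) : TH (mrel0 hb) W.z e18_t := by
  intro d
  refine of_not_hit fun hh => ?_
  obtain ⟨U, hU⟩ := hl [d 0, d 1, d 2, d 3] (by simp)
  have hn := hh.1
  exact e18 hb hU (mk4 (hn (0, 1) (by decide)) (hn (0, 2) (by decide)) (hn (0, 3) (by decide)) (hn (1, 2) (by decide)) (hn (1, 3) (by decide)) (hn (2, 3) (by decide)) (hn (0, 8) (by decide)) (hn (1, 8) (by decide)) (hn (2, 8) (by decide)) (hn (3, 8) (by decide))) (dom_pt rfl)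
    ((hit_pt (n := 4) (l := [d 0, d 1, d 2, d 3]) rfl (by intro x hx; interval_cases x <;> rfl) (by decide) (by decide)).1 hh)

theorem th19 {W : Mw V} (hb : W.Bs) (hl : Loc W) : TH (mrel0 hb) W.z e19_t := by
  intro d
  refine of_not_hit fun hh => ?_
  obtain ⟨U, hU⟩ := hl [d 0, d 1, d 2, d 3] (by simp)
  have hn := hh.1
  exact e19 hb hU (mk4 (hn (0, 1) (by decide)) (hn (0, 2) (by decide)) (hn (0, 3) (by decide)) (hn (1, 2) (by decide)) (hn (1, 3) (by decide)) (hn (2, 3) (by decide)) (hn (0, 8) (by decide)) (hn (1, 8) (by decide)) (hn (2, 8) (by decide)) (hn (3, 8) (by decide))) (dom_pt rfl)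
    ((hit_pt (n := 4) (l := [d 0, d 1, d 2, d 3]) rfl (by intro x hx; interval_cases x <;> rfl) (by decide) (by decide)).1 hh)

theorem th20 {W : Mw V} (hb : W.Bs) (hl : Loc W) : TH (mrel0 hb) W.z e20_t := by
  intro d
  refine of_not_hit fun hh => ?_
  obtain ⟨U, hU⟩ := hl [d 0, d 1, d 2, d 3] (by simp)
  have hn := hh.1
  exact e20 hb hU (mk4 (hn (0, 1) (by decide)) (hn (0, 2) (by decide)) (hn (0, 3) (by decide)) (hn (1, 2) (by decide)) (hn (1, 3) (by decide)) (hn (2, 3) (by decide)) (hn (0, 8) (by decide)) (hn (1, 8) (by decide)) (hn (2, 8) (by decide)) (hn (3, 8) (by decide))) (dom_pt rfl)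
    ((hit_pt (n := 4) (l := [d 0, d 1, d 2, d 3]) rfl (by intro x hx; interval_cases x <;> rfl) (by decide) (by decide)).1 hh)

theorem th21 {W : Mw V} (hb : W.Bs) (hl : Loc W) : TH (mrel0 hb) W.z e21_t := by
  intro d
  refine of_not_hit fun hh => ?_
  obtain ⟨U, hU⟩ := hl [d 0, d 1, d 2, d 3] (by simp)
  have hn := hh.1
  exact e21 hb hU (mk4 (hn (0, 1) (by decide)) (hn (0, 2) (by decide)) (hn (0, 3) (by decide)) (hn (1, 2) (by decide)) (hn (1, 3) (by decide)) (hn (2, 3) (by decide)) (hn (0, 8) (by decide)) (hn (1, 8) (by decide)) (hn (2, 8) (by decide)) (hn (3, 8) (by decide))) (dom_pt rfl)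
    ((hit_pt (n := 4) (l := [d 0, d 1, d 2, d 3]) rfl (by intro x hx; interval_cases x <;> rfl) (by decide) (by decide)).1 hh)

theorem th22 {W : Mw V} (hb : W.Bs) (hl : Loc W) : TH (mrel0 hb) W.z e22_t := by
  intro d
  refine of_not_hit fun hh => ?_
  obtain ⟨U, hU⟩ := hl [d 0, d 1, d 2, d 3] (by simp)
  have hn := hh.1
  exact e22 hb hU (mk4 (hn (0, 1) (by decide)) (hn (0, 2) (by decide)) (hn (0, 3) (by decide)) (hn (1, 2) (by decide)) (hn (1, 3) (by decide)) (hn (2, 3) (by decide)) (hn (0, 8) (by decide)) (hn (1, 8) (by decide)) (hn (2, 8) (by decide)) (hn (3, 8) (by decide))) (dom_pt rfl)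
    ((hit_pt (n := 4) (l := [d 0, d 1, d 2, d 3]) rfl (by intro x hx; interval_cases x <;> rfl) (by decide) (by decide)).1 hh)

theorem th23 {W : Mw V} (hb : W.Bs) (hl : Loc W) : TH (mrel0 hb) W.z e23_t := by
  intro d
  refine of_not_hit fun hh => ?_
  obtain ⟨U, hU⟩ := hl [d 0, d 1, d 2, d 3] (by simp)
  have hn := hh.1
  exact e23 hb hU (mk4 (hn (0, 1) (by decide)) (hn (0, 2) (by decide)) (hn (0, 3) (by decide)) (hn (1, 2) (by decide)) (hn (1, 3) (by decide)) (hn (2, 3) (by decide)) (hn (0, 8) (by decide)) (hn (1, 8) (by decide)) (hn (2, 8) (by decide)) (hn (3, 8) (by decide))) (dom_pt rfl)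
    ((hit_pt (n := 4) (l := [d 0, d 1, d 2, d 3]) rfl (by intro x hx; interval_cases x <;> rfl) (by decide) (by decide)).1 hh)

theorem th24 {W : Mw V} (hb : W.Bs) (hl : Loc W) : TH (mrel0 hb) W.z e24_t := by
  intro d
  refine of_not_hit fun hh => ?_
  obtain ⟨U, hU⟩ := hl [d 0, d 1, d 2, d 3] (by simp)
  have hn := hh.1
  exact e24 hb hU (mk4 (hn (0, 1) (by decide)) (hn (0, 2) (by decide)) (hn (0, 3) (by decide)) (hn (1, 2) (by decide)) (hn (1, 3) (by decide)) (hn (2, 3) (by decide)) (hn (0, 8) (by decide)) (hn (1, 8) (by decide)) (hn (2, 8) (by decide)) (hn (3, 8) (by decide))) (dom_pt rfl)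
    ((hit_pt (n := 4) (l := [d 0, d 1, d 2, d 3]) rfl (by intro x hx; interval_cases x <;> rfl) (by decide) (by decide)).1 hh)

theorem th25 {W : Mw V} (hb : W.Bs) (hl : Loc W) : TH (mrel0 hb) W.z e25_t := by
  intro d
  refine of_not_hit fun hh => ?_
  obtain ⟨U, hU⟩ := hl [d 0, d 1, d 2, d 3] (by simp)
  have hn := hh.1
  exact e25 hb hU (mk4 (hn (0, 1) (by decide)) (hn (0, 2) (by decide)) (hn (0, 3) (by decide)) (hn (1, 2) (by decide)) (hn (1, 3) (by decide)) (hn (2, 3) (by decide)) (hn (0, 8) (by decide)) (hn (1, 8) (by decide)) (hn (2, 8) (by decide)) (hn (3, 8) (by decide))) (dom_pt rfl)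
    ((hit_pt (n := 4) (l := [d 0, d 1, d 2, d 3]) rfl (by intro x hx; interval_cases x <;> rfl) (by decide) (by decide)).1 hh)

theorem th26 {W : Mw V} (hb : W.Bs) (hl : Loc W) : TH (mrel0 hb) W.z e26_t := by
  intro d
  refine of_not_hit fun hh => ?_
  obtain ⟨U, hU⟩ := hl [d 0, d 1, d 2, d 3] (by simp)
  have hn := hh.1
  exact e26 hb hU (mk4 (hn (0, 1) (by decide)) (hn (0, 2) (by decide)) (hn (0, 3) (by decide)) (hn (1, 2) (by decide)) (hn (1, 3) (by decide)) (hn (2, 3) (by decide)) (hn (0, 8) (by decide)) (hn (1, 8) (by decide)) (hn (2, 8) (by decide)) (hn (3, 8) (by decide))) (dom_pt rfl)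
    ((hit_pt (n := 4) (l := [d 0, d 1, d 2, d 3]) rfl (by intro x hx; interval_cases x <;> rfl) (by decide) (by decide)).1 hh)

theorem th27 {W : Mw V} (hb : W.Bs) (hl : Loc W) : TH (mrel0 hb) W.z e27_t := by
  intro d
  refine of_not_hit fun hh => ?_
  obtain ⟨U, hU⟩ := hl [d 0, d 1, d 2, d 3] (by simp)
  have hn := hh.1
  exact e27 hb hU (mk4 (hn (0, 1) (by decide)) (hn (0, 2) (by decide)) (hn (0, 3) (by decide)) (hn (1, 2) (by decide)) (hn (1, 3) (by decide)) (hn (2, 3) (by decide)) (hn (0, 8) (by decide)) (hn (1, 8) (by decide)) (hn (2, 8) (by decide)) (hn (3, 8) (by decide))) (dom_pt rfl)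
    ((hit_pt (n := 4) (l := [d 0, d 1, d 2, d 3]) rfl (by intro x hx; interval_cases x <;> rfl) (by decide) (by decide)).1 hh)

theorem th28 {W : Mw V} (hb : W.Bs) (hl : Loc W) : TH (mrel0 hb) W.z e28_t := by
  intro d
  refine of_not_hit fun hh => ?_
  obtain ⟨U, hU⟩ := hl [d 0, d 1, d 2, d 3] (by simp)
  have hn := hh.1
  exact e28 hb hU (mk4 (hn (0, 1) (by decide)) (hn (0, 2) (by decide)) (hn (0, 3) (by decide)) (hn (1, 2) (by decide)) (hn (1, 3) (by decide)) (hn (2, 3) (by decide)) (hn (0, 8) (by decide)) (hn (1, 8) (by decide)) (hn (2, 8) (by decide)) (hn (3, 8) (by decide))) (dom_pt rfl)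
    ((hit_pt (n := 4) (l := [d 0, d 1, d 2, d 3]) rfl (by intro x hx; interval_cases x <;> rfl) (by decide) (by decide)).1 hh)

theorem th29 {W : Mw V} (hb : W.Bs) (hl : Loc W) : TH (mrel0 hb) W.z e29_t := by
  intro d
  refine of_not_hit fun hh => ?_
  obtain ⟨U, hU⟩ := hl [d 0, d 1, d 2, d 3] (by simp)
  have hn := hh.1
  exact e29 hb hU (mk4 (hn (0, 1) (by decide)) (hn (0, 2) (by decide)) (hn (0, 3) (by decide)) (hn (1, 2) (by decide)) (hn (1, 3) (by decide)) (hn (2, 3) (by decide)) (hn (0, 8) (by decide)) (hn (1, 8) (by decide)) (hn (2, 8) (by decide)) (hn (3, 8) (by decide))) (dom_pt rfl)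
    ((hit_pt (n := 4) (l := [d 0, d 1, d 2, d 3]) rfl (by intro x hx; interval_cases x <;> rfl) (by decide) (by decide)).1 hh)

theorem th30 {W : Mw V} (hb : W.Bs) (hl : Loc W) : TH (mrel0 hb) W.z e30_t := by
  intro d
  refine of_not_hit fun hh => ?_
  obtain ⟨U, hU⟩ := hl [d 0, d 1, d 2, d 3] (by simp)
  have hn := hh.1
  exact e30 hb hU (mk4 (hn (0, 1) (by decide)) (hn (0, 2) (by decide)) (hn (0, 3) (by decide)) (hn (1, 2) (by decide)) (hn (1, 3) (by decide)) (hn (2, 3) (by decide)) (hn (0, 8) (by decide)) (hn (1, 8) (by decide)) (hn (2, 8) (by decide)) (hn (3, 8) (by decide))) (dom_pt rfl)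
    ((hit_pt (n := 4) (l := [d 0, d 1, d 2, d 3]) rfl (by intro x hx; interval_cases x <;> rfl) (by decide) (by decide)).1 hh)

theorem th31 {W : Mw V} (hb : W.Bs) (hl : Loc W) : TH (mrel0 hb) W.z e31_t := by
  intro d
  refine of_not_hit fun hh => ?_
  obtain ⟨U, hU⟩ := hl [d 0, d 1, d 2, d 3, d 4] (by simp)
  have hn := hh.1
  exact e31 hb hU (mk5 (hn (0, 1) (by decide)) (hn (0, 2) (by decide)) (hn (0, 3) (by decide)) (hn (0, 4) (by decide)) (hn (1, 2) (by decide)) (hn (1, 3) (by decide)) (hn (1, 4) (by decide)) (hn (2, 3) (by decide)) (hn (2, 4) (by decide)) (hn (3, 4) (by decide)) (hn (0, 8) (by decide)) (hn (1, 8) (by decide)) (hn (2, 8) (by decide)) (hn (3, 8) (by decide)) (hn (4, 8) (by decide))) (dom_pt rfl)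
    ((hit_pt (n := 5) (l := [d 0, d 1, d 2, d 3, d 4]) rfl (by intro x hx; interval_cases x <;> rfl) (by decide) (by decide)).1 hh)

theorem th32 {W : Mw V} (hb : W.Bs) (hl : Loc W) : TH (mrel0 hb) W.z e32_t := by
  intro d
  refine of_not_hit fun hh => ?_
  obtain ⟨U, hU⟩ := hl [d 0, d 1, d 2, d 3, d 4] (by simp)
  have hn := hh.1
  exact e32 hb hU (mk5 (hn (0, 1) (by decide)) (hn (0, 2) (by decide)) (hn (0, 3) (by decide)) (hn (0, 4) (by decide)) (hn (1, 2) (by decide)) (hn (1, 3) (by decide)) (hn (1, 4) (by decide)) (hn (2, 3) (by decide)) (hn (2, 4) (by decide)) (hn (3, 4) (by decide)) (hn (0, 8) (by decide)) (hn (1, 8) (by decide)) (hn (2, 8) (by decide)) (hn (3, 8) (by decide)) (hn (4, 8) (by decide))) (dom_pt rfl)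
    ((hit_pt (n := 5) (l := [d 0, d 1, d 2, d 3, d 4]) rfl (by intro x hx; interval_cases x <;> rfl) (by decide) (by decide)).1 hh)

theorem th33 {W : Mw V} (hb : W.Bs) (hl : Loc W) : TH (mrel0 hb) W.z e33_t := by
  intro d
  refine of_not_hit fun hh => ?_
  obtain ⟨U, hU⟩ := hl [d 0, d 1, d 2, d 3, d 4] (by simp)
  have hn := hh.1
  exact e33 hb hU (mk5 (hn (0, 1) (by decide)) (hn (0, 2) (by decide)) (hn (0, 3) (by decide)) (hn (0, 4) (by decide)) (hn (1, 2) (by decide)) (hn (1, 3) (by decide)) (hn (1, 4) (by decide)) (hn (2, 3) (by decide)) (hn (2, 4) (by decide)) (hn (3, 4) (by decide)) (hn (0, 8) (by decide)) (hn (1, 8) (by decide)) (hn (2, 8) (by decide)) (hn (3, 8) (by decide)) (hn (4, 8) (by decide))) (dom_pt rfl)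
    ((hit_pt (n := 5) (l := [d 0, d 1, d 2, d 3, d 4]) rfl (by intro x hx; interval_cases x <;> rfl) (by decide) (by decide)).1 hh)

theorem th34 {W : Mw V} (hb : W.Bs) (hl : Loc W) : TH (mrel0 hb) W.z e34_t := by
  intro d
  refine of_not_hit fun hh => ?_
  obtain ⟨U, hU⟩ := hl [d 0, d 1, d 2, d 3, d 4] (by simp)
  have hn := hh.1
  exact e34 hb hU (mk5 (hn (0, 1) (by decide)) (hn (0, 2) (by decide)) (hn (0, 3) (by decide)) (hn (0, 4) (by decide)) (hn (1, 2) (by decide)) (hn (1, 3) (by decide)) (hn (1, 4) (by decide)) (hn (2, 3) (by decide)) (hn (2, 4) (by decide)) (hn (3, 4) (by decide)) (hn (0, 8) (by decide)) (hn (1, 8) (by decide)) (hn (2, 8) (by decide)) (hn (3, 8) (by decide)) (hn (4, 8) (by decide))) (dom_pt rfl)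
    ((hit_pt (n := 5) (l := [d 0, d 1, d 2, d 3, d 4]) rfl (by intro x hx; interval_cases x <;> rfl) (by decide) (by decide)).1 hh)

theorem th35 {W : Mw V} (hb : W.Bs) (hl : Loc W) : TH (mrel0 hb) W.z e35_t := by
  intro d
  refine of_not_hit fun hh => ?_
  obtain ⟨U, hU⟩ := hl [d 0, d 1, d 2, d 3, d 4] (by simp)
  have hn := hh.1
  exact e35 hb hU (mk5 (hn (0, 1) (by decide)) (hn (0, 2) (by decide)) (hn (0, 3) (by decide)) (hn (0, 4) (by decide)) (hn (1, 2) (by decide)) (hn (1, 3) (by decide)) (hn (1, 4) (by decide)) (hn (2, 3) (by decide)) (hn (2, 4) (by decide)) (hn (3, 4) (by decide)) (hn (0, 8) (by decide)) (hn (1, 8) (by decide)) (hn (2, 8) (by decide)) (hn (3, 8) (by decide)) (hn (4, 8) (by decide))) (dom_pt rfl)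
    ((hit_pt (n := 5) (l := [d 0, d 1, d 2, d 3, d 4]) rfl (by intro x hx; interval_cases x <;> rfl) (by decide) (by decide)).1 hh)

theorem th36 {W : Mw V} (hb : W.Bs) (hl : Loc W) : TH (mrel0 hb) W.z e36_t := by
  intro d
  refine of_not_hit fun hh => ?_
  obtain ⟨U, hU⟩ := hl [d 0, d 1, d 2, d 3] (by simp)
  have hn := hh.1
  exact e36 hb hU (mk4 (hn (0, 1) (by decide)) (hn (0, 2) (by decide)) (hn (0, 3) (by decide)) (hn (1, 2) (by decide)) (hn (1, 3) (by decide)) (hn (2, 3) (by decide)) (hn (0, 8) (by decide)) (hn (1, 8) (by decide)) (hn (2, 8) (by decide)) (hn (3, 8) (by decide))) (dom_pt rfl)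
    ((hit_pt (n := 4) (l := [d 0, d 1, d 2, d 3]) rfl (by intro x hx; interval_cases x <;> rfl) (by decide) (by decide)).1 hh)

theorem th37 {W : Mw V} (hb : W.Bs) (hl : Loc W) : TH (mrel0 hb) W.z e37_t := by
  intro d
  refine of_not_hit fun hh => ?_
  obtain ⟨U, hU⟩ := hl [d 0, d 1, d 2, d 3] (by simp)
  have hn := hh.1
  exact e37 hb hU (mk4 (hn (0, 1) (by decide)) (hn (0, 2) (by decide)) (hn (0, 3) (by decide)) (hn (1, 2) (by decide)) (hn (1, 3) (by decide)) (hn (2, 3) (by decide)) (hn (0, 8) (by decide)) (hn (1, 8) (by decide)) (hn (2, 8) (by decide)) (hn (3, 8) (by decide))) (dom_pt rfl)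
    ((hit_pt (n := 4) (l := [d 0, d 1, d 2, d 3]) rfl (by intro x hx; interval_cases x <;> rfl) (by decide) (by decide)).1 hh)

theorem th38 {W : Mw V} (hb : W.Bs) (hl : Loc W) : TH (mrel0 hb) W.z e38_t := by
  intro d
  refine of_not_hit fun hh => ?_
  obtain ⟨U, hU⟩ := hl [d 0, d 1, d 2, d 3] (by simp)
  have hn := hh.1
  exact e38 hb hU (mk4 (hn (0, 1) (by decide)) (hn (0, 2) (by decide)) (hn (0, 3) (by decide)) (hn (1, 2) (by decide)) (hn (1, 3) (by decide)) (hn (2, 3) (by decide)) (hn (0, 8) (by decide)) (hn (1, 8) (by decide)) (hn (2, 8) (by decide)) (hn (3, 8) (by decide))) (dom_pt rfl)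
    ((hit_pt (n := 4) (l := [d 0, d 1, d 2, d 3]) rfl (by intro x hx; interval_cases x <;> rfl) (by decide) (by decide)).1 hh)

theorem th39 {W : Mw V} (hb : W.Bs) (hl : Loc W) : TH (mrel0 hb) W.z e39_t := by
  intro d
  refine of_not_hit fun hh => ?_
  obtain ⟨U, hU⟩ := hl [d 0, d 1, d 2, d 3] (by simp)
  have hn := hh.1
  exact e39 hb hU (mk4 (hn (0, 1) (by decide)) (hn (0, 2) (by decide)) (hn (0, 3) (by decide)) (hn (1, 2) (by decide)) (hn (1, 3) (by decide)) (hn (2, 3) (by decide)) (hn (0, 8) (by decide)) (hn (1, 8) (by decide)) (hn (2, 8) (by decide)) (hn (3, 8) (by decide))) (dom_pt rfl)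
    ((hit_pt (n := 4) (l := [d 0, d 1, d 2, d 3]) rfl (by intro x hx; interval_cases x <;> rfl) (by decide) (by decide)).1 hh)

theorem th40 {W : Mw V} (hb : W.Bs) (hl : Loc W) : TH (mrel0 hb) W.z e40_t := by
  intro d
  refine of_not_hit fun hh => ?_
  obtain ⟨U, hU⟩ := hl [d 0, d 1, d 2, d 3] (by simp)
  have hn := hh.1
  exact e40 hb hU (mk4 (hn (0, 1) (by decide)) (hn (0, 2) (by decide)) (hn (0, 3) (by decide)) (hn (1, 2) (by decide)) (hn (1, 3) (by decide)) (hn (2, 3) (by decide)) (hn (0, 8) (by decide)) (hn (1, 8) (by decide)) (hn (2, 8) (by decide)) (hn (3, 8) (by decide))) (dom_pt rfl)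
    ((hit_pt (n := 4) (l := [d 0, d 1, d 2, d 3]) rfl (by intro x hx; interval_cases x <;> rfl) (by decide) (by decide)).1 hh)

theorem th41 {W : Mw V} (hb : W.Bs) (hl : Loc W) : TH (mrel0 hb) W.z e41_t := by
  intro d
  refine of_not_hit fun hh => ?_
  obtain ⟨U, hU⟩ := hl [d 0, d 1, d 2, d 3] (by simp)
  have hn := hh.1
  exact e41 hb hU (mk4 (hn (0, 1) (by decide)) (hn (0, 2) (by decide)) (hn (0, 3) (by decide)) (hn (1, 2) (by decide)) (hn (1, 3) (by decide)) (hn (2, 3) (by decide)) (hn (0, 8) (by decide)) (hn (1, 8) (by decide)) (hn (2, 8) (by decide)) (hn (3, 8) (by decide))) (dom_pt rfl)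
    ((hit_pt (n := 4) (l := [d 0, d 1, d 2, d 3]) rfl (by intro x hx; interval_cases x <;> rfl) (by decide) (by decide)).1 hh)

theorem th42 {W : Mw V} (hb : W.Bs) (hl : Loc W) : TH (mrel0 hb) W.z e42_t := by
  intro d
  refine of_not_hit fun hh => ?_
  obtain ⟨U, hU⟩ := hl [d 0, d 1, d 2, d 3, d 4] (by simp)
  have hn := hh.1
  exact e42 hb hU (mk5 (hn (0, 1) (by decide)) (hn (0, 2) (by decide)) (hn (0, 3) (by decide)) (hn (0, 4) (by decide)) (hn (1, 2) (by decide)) (hn (1, 3) (by decide)) (hn (1, 4) (by decide)) (hn (2, 3) (by decide)) (hn (2, 4) (by decide)) (hn (3, 4) (by decide)) (hn (0, 8) (by decide)) (hn (1, 8) (by decide)) (hn (2, 8) (by decide)) (hn (3, 8) (by decide)) (hn (4, 8) (by decide))) (dom_pt rfl)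
    ((hit_pt (n := 5) (l := [d 0, d 1, d 2, d 3, d 4]) rfl (by intro x hx; interval_cases x <;> rfl) (by decide) (by decide)).1 hh)

theorem th43 {W : Mw V} (hb : W.Bs) (hl : Loc W) : TH (mrel0 hb) W.z e43_t := by
  intro d
  refine of_not_hit fun hh => ?_
  obtain ⟨U, hU⟩ := hl [d 0, d 1, d 2, d 3, d 4] (by simp)
  have hn := hh.1
  exact e43 hb hU (mk5 (hn (0, 1) (by decide)) (hn (0, 2) (by decide)) (hn (0, 3) (by decide)) (hn (0, 4) (by decide)) (hn (1, 2) (by decide)) (hn (1, 3) (by decide)) (hn (1, 4) (by decide)) (hn (2, 3) (by decide)) (hn (2, 4) (by decide)) (hn (3, 4) (by decide)) (hn (0, 8) (by decide)) (hn (1, 8) (by decide)) (hn (2, 8) (by decide)) (hn (3, 8) (by decide)) (hn (4, 8) (by decide))) (dom_pt rfl)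
    ((hit_pt (n := 5) (l := [d 0, d 1, d 2, d 3, d 4]) rfl (by intro x hx; interval_cases x <;> rfl) (by decide) (by decide)).1 hh)

theorem th44 {W : Mw V} (hb : W.Bs) (hl : Loc W) : TH (mrel0 hb) W.z e44_t := by
  intro d
  refine of_not_hit fun hh => ?_
  obtain ⟨U, hU⟩ := hl [d 0, d 1, d 2, d 3, d 4] (by simp)
  have hn := hh.1
  exact e44 hb hU (mk5 (hn (0, 1) (by decide)) (hn (0, 2) (by decide)) (hn (0, 3) (by decide)) (hn (0, 4) (by decide)) (hn (1, 2) (by decide)) (hn (1, 3) (by decide)) (hn (1, 4) (by decide)) (hn (2, 3) (by decide)) (hn (2, 4) (by decide)) (hn (3, 4) (by decide)) (hn (0, 8) (by decide)) (hn (1, 8) (by decide)) (hn (2, 8) (by decide)) (hn (3, 8) (by decide)) (hn (4, 8) (by decide))) (dom_pt rfl)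
    ((hit_pt (n := 5) (l := [d 0, d 1, d 2, d 3, d 4]) rfl (by intro x hx; interval_cases x <;> rfl) (by decide) (by decide)).1 hh)

theorem th45 {W : Mw V} (hb : W.Bs) (hl : Loc W) : TH (mrel0 hb) W.z e45_t := by
  intro d
  refine of_not_hit fun hh => ?_
  obtain ⟨U, hU⟩ := hl [d 0, d 1, d 2, d 3, d 4] (by simp)
  have hn := hh.1
  exact e45 hb hU (mk5 (hn (0, 1) (by decide)) (hn (0, 2) (by decide)) (hn (0, 3) (by decide)) (hn (0, 4) (by decide)) (hn (1, 2) (by decide)) (hn (1, 3) (by decide)) (hn (1, 4) (by decide)) (hn (2, 3) (by decide)) (hn (2, 4) (by decide)) (hn (3, 4) (by decide)) (hn (0, 8) (by decide)) (hn (1, 8) (by decide)) (hn (2, 8) (by decide)) (hn (3, 8) (by decide)) (hn (4, 8) (by decide))) (dom_pt rfl)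
    ((hit_pt (n := 5) (l := [d 0, d 1, d 2, d 3, d 4]) rfl (by intro x hx; interval_cases x <;> rfl) (by decide) (by decide)).1 hh)

theorem th46 {W : Mw V} (hb : W.Bs) (hl : Loc W) : TH (mrel0 hb) W.z e46_t := by
  intro d
  refine of_not_hit fun hh => ?_
  obtain ⟨U, hU⟩ := hl [d 0, d 1, d 2, d 3, d 4] (by simp)
  have hn := hh.1
  exact e46 hb hU (mk5 (hn (0, 1) (by decide)) (hn (0, 2) (by decide)) (hn (0, 3) (by decide)) (hn (0, 4) (by decide)) (hn (1, 2) (by decide)) (hn (1, 3) (by decide)) (hn (1, 4) (by decide)) (hn (2, 3) (by decide)) (hn (2, 4) (by decide)) (hn (3, 4) (by decide)) (hn (0, 8) (by decide)) (hn (1, 8) (by decide)) (hn (2, 8) (by decide)) (hn (3, 8) (by decide)) (hn (4, 8) (by decide))) (dom_pt rfl)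
    ((hit_pt (n := 5) (l := [d 0, d 1, d 2, d 3, d 4]) rfl (by intro x hx; interval_cases x <;> rfl) (by decide) (by decide)).1 hh)

theorem th47 {W : Mw V} (hb : W.Bs) (hl : Loc W) : TH (mrel0 hb) W.z e47_t := by
  intro d
  refine of_not_hit fun hh => ?_
  obtain ⟨U, hU⟩ := hl [d 0, d 1, d 2, d 3, d 4] (by simp)
  have hn := hh.1
  exact e47 hb hU (mk5 (hn (0, 1) (by decide)) (hn (0, 2) (by decide)) (hn (0, 3) (by decide)) (hn (0, 4) (by decide)) (hn (1, 2) (by decide)) (hn (1, 3) (by decide)) (hn (1, 4) (by decide)) (hn (2, 3) (by decide)) (hn (2, 4) (by decide)) (hn (3, 4) (by decide)) (hn (0, 8) (by decide)) (hn (1, 8) (by decide)) (hn (2, 8) (by decide)) (hn (3, 8) (by decide)) (hn (4, 8) (by decide))) (dom_pt rfl)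
    ((hit_pt (n := 5) (l := [d 0, d 1, d 2, d 3, d 4]) rfl (by intro x hx; interval_cases x <;> rfl) (by decide) (by decide)).1 hh)

theorem th48 {W : Mw V} (hb : W.Bs) (hl : Loc W) : TH (mrel0 hb) W.z e48_t := by
  intro d
  refine of_not_hit fun hh => ?_
  obtain ⟨U, hU⟩ := hl [d 0, d 1, d 2, d 3, d 4] (by simp)
  have hn := hh.1
  exact e48 hb hU (mk5 (hn (0, 1) (by decide)) (hn (0, 2) (by decide)) (hn (0, 3) (by decide)) (hn (0, 4) (by decide)) (hn (1, 2) (by decide)) (hn (1, 3) (by decide)) (hn (1, 4) (by decide)) (hn (2, 3) (by decide)) (hn (2, 4) (by decide)) (hn (3, 4) (by decide)) (hn (0, 8) (by decide)) (hn (1, 8) (by decide)) (hn (2, 8) (by decide)) (hn (3, 8) (by decide)) (hn (4, 8) (by decide))) (dom_pt rfl)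
    ((hit_pt (n := 5) (l := [d 0, d 1, d 2, d 3, d 4]) rfl (by intro x hx; interval_cases x <;> rfl) (by decide) (by decide)).1 hh)

theorem th49 {W : Mw V} (hb : W.Bs) (hl : Loc W) : TH (mrel0 hb) W.z e49_t := by
  intro d
  refine of_not_hit fun hh => ?_
  obtain ⟨U, hU⟩ := hl [d 0, d 1, d 2, d 3, d 4] (by simp)
  have hn := hh.1
  exact e49 hb hU (mk5 (hn (0, 1) (by decide)) (hn (0, 2) (by decide)) (hn (0, 3) (by decide)) (hn (0, 4) (by decide)) (hn (1, 2) (by decide)) (hn (1, 3) (by decide)) (hn (1, 4) (by decide)) (hn (2, 3) (by decide)) (hn (2, 4) (by decide)) (hn (3, 4) (by decide)) (hn (0, 8) (by decide)) (hn (1, 8) (by decide)) (hn (2, 8) (by decide)) (hn (3, 8) (by decide)) (hn (4, 8) (by decide))) (dom_pt rfl)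
    ((hit_pt (n := 5) (l := [d 0, d 1, d 2, d 3, d 4]) rfl (by intro x hx; interval_cases x <;> rfl) (by decide) (by decide)).1 hh)

theorem th50 {W : Mw V} (hb : W.Bs) (hl : Loc W) : TH (mrel0 hb) W.z e50_t := by
  intro d
  refine of_not_hit fun hh => ?_
  obtain ⟨U, hU⟩ := hl [d 0, d 1, d 2, d 3, d 4] (by simp)
  have hn := hh.1
  exact e50 hb hU (mk5 (hn (0, 1) (by decide)) (hn (0, 2) (by decide)) (hn (0, 3) (by decide)) (hn (0, 4) (by decide)) (hn (1, 2) (by decide)) (hn (1, 3) (by decide)) (hn (1, 4) (by decide)) (hn (2, 3) (by decide)) (hn (2, 4) (by decide)) (hn (3, 4) (by decide)) (hn (0, 8) (by decide)) (hn (1, 8) (by decide)) (hn (2, 8) (by decide)) (hn (3, 8) (by decide)) (hn (4, 8) (by decide))) (dom_pt rfl)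
    ((hit_pt (n := 5) (l := [d 0, d 1, d 2, d 3, d 4]) rfl (by intro x hx; interval_cases x <;> rfl) (by decide) (by decide)).1 hh)

theorem th51 {W : Mw V} (hb : W.Bs) (hl : Loc W) : TH (mrel0 hb) W.z e51_t := by
  intro d
  refine of_not_hit fun hh => ?_
  obtain ⟨U, hU⟩ := hl [d 0, d 1, d 2, d 3, d 4] (by simp)
  have hn := hh.1
  exact e51 hb hU (mk5 (hn (0, 1) (by decide)) (hn (0, 2) (by decide)) (hn (0, 3) (by decide)) (hn (0, 4) (by decide)) (hn (1, 2) (by decide)) (hn (1, 3) (by decide)) (hn (1, 4) (by decide)) (hn (2, 3) (by decide)) (hn (2, 4) (by decide)) (hn (3, 4) (by decide)) (hn (0, 8) (by decide)) (hn (1, 8) (by decide)) (hn (2, 8) (by decide)) (hn (3, 8) (by decide)) (hn (4, 8) (by decide))) (dom_pt rfl)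
    ((hit_pt (n := 5) (l := [d 0, d 1, d 2, d 3, d 4]) rfl (by intro x hx; interval_cases x <;> rfl) (by decide) (by decide)).1 hh)

theorem th52 {W : Mw V} (hb : W.Bs) (hl : Loc W) : TH (mrel0 hb) W.z e52_t := by
  intro d
  refine of_not_hit fun hh => ?_
  obtain ⟨U, hU⟩ := hl [d 0, d 1, d 2, d 3, d 4] (by simp)
  have hn := hh.1
  exact e52 hb hU (mk5 (hn (0, 1) (by decide)) (hn (0, 2) (by decide)) (hn (0, 3) (by decide)) (hn (0, 4) (by decide)) (hn (1, 2) (by decide)) (hn (1, 3) (by decide)) (hn (1, 4) (by decide)) (hn (2, 3) (by decide)) (hn (2, 4) (by decide)) (hn (3, 4) (by decide)) (hn (0, 8) (by decide)) (hn (1, 8) (by decide)) (hn (2, 8) (by decide)) (hn (3, 8) (by decide)) (hn (4, 8) (by decide))) (dom_pt rfl)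
    ((hit_pt (n := 5) (l := [d 0, d 1, d 2, d 3, d 4]) rfl (by intro x hx; interval_cases x <;> rfl) (by decide) (by decide)).1 hh)

theorem th53 {W : Mw V} (hb : W.Bs) (hl : Loc W) : TH (mrel0 hb) W.z e53_t := by
  intro d
  refine of_not_hit fun hh => ?_
  obtain ⟨U, hU⟩ := hl [d 0, d 1, d 2, d 3, d 4] (by simp)
  have hn := hh.1
  exact e53 hb hU (mk5 (hn (0, 1) (by decide)) (hn (0, 2) (by decide)) (hn (0, 3) (by decide)) (hn (0, 4) (by decide)) (hn (1, 2) (by decide)) (hn (1, 3) (by decide)) (hn (1, 4) (by decide)) (hn (2, 3) (by decide)) (hn (2, 4) (by decide)) (hn (3, 4) (by decide)) (hn (0, 8) (by decide)) (hn (1, 8) (by decide)) (hn (2, 8) (by decide)) (hn (3, 8) (by decide)) (hn (4, 8) (by decide))) (dom_pt rfl)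
    ((hit_pt (n := 5) (l := [d 0, d 1, d 2, d 3, d 4]) rfl (by intro x hx; interval_cases x <;> rfl) (by decide) (by decide)).1 hh)

theorem th54 {W : Mw V} (hb : W.Bs) (hl : Loc W) : TH (mrel0 hb) W.z e54_t := by
  intro d
  refine of_not_hit fun hh => ?_
  obtain ⟨U, hU⟩ := hl [d 0, d 1, d 2, d 3, d 4] (by simp)
  have hn := hh.1
  exact e54 hb hU (mk5 (hn (0, 1) (by decide)) (hn (0, 2) (by decide)) (hn (0, 3) (by decide)) (hn (0, 4) (by decide)) (hn (1, 2) (by decide)) (hn (1, 3) (by decide)) (hn (1, 4) (by decide)) (hn (2, 3) (by decide)) (hn (2, 4) (by decide)) (hn (3, 4) (by decide)) (hn (0, 8) (by decide)) (hn (1, 8) (by decide)) (hn (2, 8) (by decide)) (hn (3, 8) (by decide)) (hn (4, 8) (by decide))) (dom_pt rfl)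
    ((hit_pt (n := 5) (l := [d 0, d 1, d 2, d 3, d 4]) rfl (by intro x hx; interval_cases x <;> rfl) (by decide) (by decide)).1 hh)

theorem th55 {W : Mw V} (hb : W.Bs) (hl : Loc W) : TH (mrel0 hb) W.z e55_t := by
  intro d
  refine of_not_hit fun hh => ?_
  obtain ⟨U, hU⟩ := hl [d 0, d 1, d 2, d 3, d 4, d 5] (by simp)
  have hn := hh.1
  exact e55 hb hU (mk6 (hn (0, 1) (by decide)) (hn (0, 2) (by decide)) (hn (0, 3) (by decide)) (hn (0, 4) (by decide)) (hn (0, 5) (by decide)) (hn (1, 2) (by decide)) (hn (1, 3) (by decide)) (hn (1, 4) (by decide)) (hn (1, 5) (by decide)) (hn (2, 3) (by decide)) (hn (2, 4) (by decide)) (hn (2, 5) (by decide)) (hn (3, 4) (by decide)) (hn (3, 5) (by decide)) (hn (4, 5) (by decide)) (hn (0, 8) (by decide)) (hn (1, 8) (by decide)) (hn (2, 8) (by decide)) (hn (3, 8) (by decide)) (hn (4, 8) (by decide)) (hn (5, 8) (by decide))) (dom_pt rfl)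
    ((hit_pt (n := 6) (l := [d 0, d 1, d 2, d 3, d 4, d 5]) rfl (by intro x hx; interval_cases x <;> rfl) (by decide) (by decide)).1 hh)

theorem th56 {W : Mw V} (hb : W.Bs) (hl : Loc W) : TH (mrel0 hb) W.z e56_t := by
  intro d
  refine of_not_hit fun hh => ?_
  obtain ⟨U, hU⟩ := hl [d 0, d 1, d 2, d 3, d 4, d 5] (by simp)
  have hn := hh.1
  exact e56 hb hU (mk6 (hn (0, 1) (by decide)) (hn (0, 2) (by decide)) (hn (0, 3) (by decide)) (hn (0, 4) (by decide)) (hn (0, 5) (by decide)) (hn (1, 2) (by decide)) (hn (1, 3) (by decide)) (hn (1, 4) (by decide)) (hn (1, 5) (by decide)) (hn (2, 3) (by decide)) (hn (2, 4) (by decide)) (hn (2, 5) (by decide)) (hn (3, 4) (by decide)) (hn (3, 5) (by decide)) (hn (4, 5) (by decide)) (hn (0, 8) (by decide)) (hn (1, 8) (by decide)) (hn (2, 8) (by decide)) (hn (3, 8) (by decide)) (hn (4, 8) (by decide)) (hn (5, 8) (by decide))) (dom_pt rfl)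
    ((hit_pt (n := 6) (l := [d 0, d 1, d 2, d 3, d 4, d 5]) rfl (by intro x hx; interval_cases x <;> rfl) (by decide) (by decide)).1 hh)

theorem th57 {W : Mw V} (hb : W.Bs) (hl : Loc W) : TH (mrel0 hb) W.z e57_t := by
  intro d
  refine of_not_hit fun hh => ?_
  obtain ⟨U, hU⟩ := hl [d 0, d 1, d 2, d 3, d 4, d 5] (by simp)
  have hn := hh.1
  exact e57 hb hU (mk6 (hn (0, 1) (by decide)) (hn (0, 2) (by decide)) (hn (0, 3) (by decide)) (hn (0, 4) (by decide)) (hn (0, 5) (by decide)) (hn (1, 2) (by decide)) (hn (1, 3) (by decide)) (hn (1, 4) (by decide)) (hn (1, 5) (by decide)) (hn (2, 3) (by decide)) (hn (2, 4) (by decide)) (hn (2, 5) (by decide)) (hn (3, 4) (by decide)) (hn (3, 5) (by decide)) (hn (4, 5) (by decide)) (hn (0, 8) (by decide)) (hn (1, 8) (by decide)) (hn (2, 8) (by decide)) (hn (3, 8) (by decide)) (hn (4, 8) (by decide)) (hn (5, 8) (by decide))) (dom_pt rfl)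
    ((hit_pt (n := 6) (l := [d 0, d 1, d 2, d 3, d 4, d 5]) rfl (by intro x hx; interval_cases x <;> rfl) (by decide) (by decide)).1 hh)

theorem loc_hy {W : Mw V} (hb : W.Bs) (hl : Loc W) : W.Hy := by
  refine ⟨hb, ?_⟩
  have e : mT ++ mO = [e0_t, e1_t, e2_t, e3_t, e4_t, e5_t, e6_t, e7_t, e8_t, e9_t, e10_t, e11_t, e12_t, e13_t, e14_t, e15_t, e16_t, e17_t, e18_t, e19_t, e20_t, e21_t, e22_t, e23_t, e24_t, e25_t, e26_t, e27_t, e28_t, e29_t, e30_t, e31_t, e32_t, e33_t, e34_t, e35_t, e36_t, e37_t, e38_t, e39_t, e40_t, e41_t, e42_t, e43_t, e44_t, e45_t, e46_t, e47_t, e48_t, e49_t, e50_t, e51_t, e52_t, e53_t, e54_t, e55_t, e56_t, e57_t] := rfl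
  rw [e]
  exact .cons (th0 hb hl) (.cons (th1 hb hl) (.cons (th2 hb hl) (.cons (th3 hb hl) (.cons (th4 hb hl) (.cons (th5 hb hl) (.cons (th6 hb hl) (.cons (th7 hb hl) (.cons (th8 hb hl) (.cons (th9 hb hl) (.cons (th10 hb hl) (.cons (th11 hb hl) (.cons (th12 hb hl) (.cons (th13 hb hl) (.cons (th14 hb hl) (.cons (th15 hb hl) (.cons (th16 hb hl) (.cons (th17 hb hl) (.cons (th18 hb hl) (.cons (th19 hb hl) (.cons (th20 hb hl) (.cons (th21 hb hl) (.cons (th22 hb hl) (.cons (th23 hb hl) (.cons (th24 hb hl) (.cons (th25 hb hl) (.cons (th26 hb hl) (.cons (th27 hb hl) (.cons (th28 hb hl) (.cons (th29 hb hl) (.cons (th30 hb hl) (.cons (th31 hb hl) (.cons (th32 hb hl) (.cons (th33 hb hl) (.cons (th34 hb hl) (.cons (th35 hb hl) (.cons (th36 hb hl) (.cons (th37 hb hl) (.cons (th38 hb hl) (.cons (th39 hb hl) (.cons (th40 hb hl) (.cons (th41 hb hl) (.cons (th42 hb hl) (.cons (th43 hb hl) (.cons (th44 hb hl) (.cons (th45 hb hl) (.cons (th46 hb hl)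 (.cons (th47 hb hl) (.cons (th48 hb hl) (.cons (th49 hb hl) (.cons (th50 hb hl) (.cons (th51 hb hl) (.cons (th52 hb hl) (.cons (th53 hb hl) (.cons (th54 hb hl) (.cons (th55 hb hl) (.cons (th56 hb hl) (.cons (th57 hb hl) .nil)))))))))))))))))))))))))))))))))))))))))))))))))))))))))

/-- MIXED INSERTION, local form -/
theorem muit_local {W : Mw V} (hb : W.Bs) (hl : Loc W) : ∃ T, SOD.QT W.G (CrF W.f) T ∧
    ∀ {p q r s}, D4 p q r s → ¬ Mq W p q r s → (T p q r s ↔ W.T p q r s) :=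
  ⟨Tn hb, muit (loc_hy hb hl), fun hd hm => muit_agree hd hm hb⟩

end Pool.Agent.SOU
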