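import Pool.Agent.SOU.TB

/-! Project SOU (MP_66ba69_lc, mixed insertion of a centre), module Nt: the new structure. -/

set_option autoImplicit false

namespace Pool.Agent.SOU

open Pool.Agent.RUP Pool.Agent.SOQ

variable {V : Type}

/-- an ordered mixed triple with a variable -/
def Or3 (W : Mw V) (a b c : V) : Prop :=
  W.R a ∧ ¬ W.R c ∧ b ≠ W.z ∧ c ≠ W.z ∧ CrF W.f W.z b a c ∧ W.G.Adj W.z b ∧ W.G.Adj a c

/-- the value is two: some pattern -/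
def FF {W : Mw V} (h : W.Bs) (a b c : V) : Prop :=
  (¬ W.R b ∧ FS (mrel0 h) W.z fp1 a b c) ∨ (W.R b ∧ FS (mrel0 h) W.z fp2 a b c)

/-- the new quartets, `z x | y w` -/
def TM {W : Mw V} (h : W.Bs) (x y w : V) : Prop :=
  (Or3 W y w x ∧ FF h y w x) ∨ (Or3 W w y x ∧ FF h w y x) ∨ (Or3 W x y w ∧ ¬ FF h x y w) ∨ (Or3 W x w y ∧ ¬ FF h x w y)

/-- not all on one side -/
def Mx (W : Mw V) (a b c : V) : Prop := (W.R a ∨ W.R b ∨ W.R c) ∧ (¬ W.R a ∨ ¬ W.R b ∨ ¬ W.R c)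

/-- a mixed quartet -/
def Mq (W : Mw V) (p q r s : V) : Prop :=
  (p = W.z ∧ Mx W q r s) ∨ (q = W.z ∧ Mx W p r s) ∨ (r = W.z ∧ Mx W s p q) ∨ (s = W.z ∧ Mx W r p q)

/-- four different points -/
def D4 (p q r s : V) : Prop := p ≠ q ∧ p ≠ r ∧ p ≠ s ∧ q ≠ r ∧ q ≠ s ∧ r ≠ s

/-- the new structure -/
def Tn {W : Mw V} (h : W.Bs) (p q r s : V) : Prop :=
  D4 p q r s ∧ ((¬ Mq W p q r s ∧ W.T p q r s) ∨ (p = W.z ∧ Mx W q r s ∧ TM h q r s) ∨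
    (q = W.z ∧ Mx W p r s ∧ TM h p r s) ∨ (r = W.z ∧ Mx W s p q ∧ TM h s p q) ∨ (s = W.z ∧ Mx W r p q ∧ TM h r p q))

section
variable {W : Mw V} {h : W.Bs} {a b c d p q r s x y w : V}

theorem TM_comm : TM h x y w → TM h x w y := by
  unfold TM
  tauto

theorem Mx.s12 (hm : Mx W a b c) : Mx W b a c := by unfold Mx at *; tauto

theorem Mx.s23 (hm : Mx W a b c) : Mx W a c b := by unfold Mx at *; tauto

theorem D4.s1 (hd : D4 p q r s) : D4 q p r s := ⟨hd.1.symm, hd.2.2.2.1, hd.2.2.2.2.1, hd.2.1, hd.2.2.1, hd.2.2.2.2.2⟩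

theorem D4.s2 (hd : D4 p q r s) : D4 r s p q :=
  ⟨hd.2.2.2.2.2, hd.2.1.symm, hd.2.2.2.1.symm, hd.2.2.1.symm, hd.2.2.2.2.1.symm, hd.1⟩

theorem Mq.s1 (hm : Mq W p q r s) : Mq W q p r s := by
  rcases hm with ⟨h1, h2⟩ | ⟨h1, h2⟩ | ⟨h1, h2⟩ | ⟨h1, h2⟩
  · exact Or.inr (Or.inl ⟨h1, h2⟩)
  · exact Or.inl ⟨h1, h2⟩
  · exact Or.inr (Or.inr (Or.inl ⟨h1, h2.s23⟩))
  · exact Or.inr (Or.inr (Or.inr ⟨h1, h2.s23⟩))

theorem Mq.s2 (hm : Mq W p q r s) : Mq W r s p q := by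
  rcases hm with ⟨h1, h2⟩ | ⟨h1, h2⟩ | ⟨h1, h2⟩ | ⟨h1, h2⟩
  · exact Or.inr (Or.inr (Or.inl ⟨h1, h2⟩))
  · exact Or.inr (Or.inr (Or.inr ⟨h1, h2⟩))
  · exact Or.inl ⟨h1, h2⟩
  · exact Or.inr (Or.inl ⟨h1, h2⟩)

theorem Tn.s1 (ht : Tn h p q r s) : Tn h q p r s := by
  refine ⟨ht.1.s1, ?_⟩
  rcases ht.2 with ⟨h1, h2⟩ | ⟨h1, h2, h3⟩ | ⟨h1, h2, h3⟩ | ⟨h1, h2, h3⟩ | ⟨h1, h2, h3⟩
  · exact Or.inl ⟨fun k => h1 k.s1, h.t1 h2⟩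
  · exact Or.inr (Or.inr (Or.inl ⟨h1, h2, h3⟩))
  · exact Or.inr (Or.inl ⟨h1, h2, h3⟩)
  · exact Or.inr (Or.inr (Or.inr (Or.inl ⟨h1, h2.s23, TM_comm h3⟩)))
  · exact Or.inr (Or.inr (Or.inr (Or.inr ⟨h1, h2.s23, TM_comm h3⟩)))

theorem Tn.s2 (ht : Tn h p q r s) : Tn h r s p q := by
  refine ⟨ht.1.s2, ?_⟩
  rcases ht.2 with ⟨h1, h2⟩ | ⟨h1, h2, h3⟩ | ⟨h1, h2, h3⟩ | ⟨h1, h2, h3⟩ | ⟨h1, h2, h3⟩
  · exact Or.inl ⟨fun k => h1 k.s2, h.t2 h2⟩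
  · exact Or.inr (Or.inr (Or.inr (Or.inl ⟨h1, h2, h3⟩)))
  · exact Or.inr (Or.inr (Or.inr (Or.inr ⟨h1, h2, h3⟩)))
  · exact Or.inr (Or.inl ⟨h1, h2, h3⟩)
  · exact Or.inr (Or.inr (Or.inl ⟨h1, h2, h3⟩))

theorem Tn_sy (h : W.Bs) : Sy4 (Tn h) := ⟨Tn.s1, Tn.s2⟩

theorem Tn.s3 (ht : Tn h p q r s) : Tn h p q s r := ht.s2.s1.s2

/-- no `z` -/
theorem tn_off (hp : p ≠ W.z) (hq : q ≠ W.z) (hr : r ≠ W.z) (hs : s ≠ W.z) (hd : D4 p q r s) :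
    Tn h p q r s ↔ W.T p q r s := by
  have hm : ¬ Mq W p q r s := by
    rintro (k | k | k | k)
    · exact hp k.1
    · exact hq k.1
    · exact hr k.1
    · exact hs k.1
  constructor
  · rintro ⟨_, k | k | k | k | k⟩
    · exact k.2
    · exact absurd k.1 hp
    · exact absurd k.1 hq
    · exact absurd k.1 hr
    · exact absurd k.1 hs
  · exact fun k => ⟨hd, Or.inl ⟨hm, k⟩⟩

theorem mq_z (hd : D4 W.z x y w) : Mq W W.z x y w ↔ Mx W x y w := by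
  constructor
  · rintro (k | k | k | k)
    · exact k.2
    · exact absurd k.1 hd.1.symm
    · exact absurd k.1 hd.2.1.symm
    · exact absurd k.1 hd.2.2.1.symm
  · exact fun k => Or.inl ⟨rfl, k⟩

theorem tn_mix (hd : D4 W.z x y w) (hm : Mx W x y w) : Tn h W.z x y w ↔ TM h x y w := by
  constructor
  · rintro ⟨_, k | k | k | k | k⟩
    · exact absurd ((mq_z hd).2 hm) k.1
    · exact k.2.2
    · exact absurd k.1 hd.1.symm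
    · exact absurd k.1 hd.2.1.symm
    · exact absurd k.1 hd.2.2.1.symm
  · exact fun k => ⟨hd, Or.inr (Or.inl ⟨rfl, hm, k⟩)⟩

theorem tn_one (hd : D4 W.z x y w) (hm : ¬ Mx W x y w) : Tn h W.z x y w ↔ W.T W.z x y w := by
  constructor
  · rintro ⟨_, k | k | k | k | k⟩
    · exact k.2
    · exact absurd k.2.1 hm
    · exact absurd k.1 hd.1.symm
    · exact absurd k.1 hd.2.1.symm
    · exact absurd k.1 hd.2.2.1.symm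
  · exact fun k => ⟨hd, Or.inl ⟨fun k' => hm ((mq_z hd).1 k'), k⟩⟩

theorem Or3.mx (o : Or3 W a b c) : Mx W c a b := ⟨Or.inr (Or.inl o.1), Or.inl o.2.1⟩

theorem Or3.d4 (o : Or3 W a b c) : D4 W.z a b c :=
  ⟨o.2.2.2.2.1.1.2.1, o.2.2.2.2.1.1.1, o.2.2.2.2.1.1.2.2.1, o.2.2.2.2.1.1.2.2.2.1.symm, o.2.2.2.2.1.1.2.2.2.2.2,
    o.2.2.2.2.1.1.2.2.2.2.1⟩

theorem D4.rot (hd : D4 p a b c) : D4 p c a b :=
  ⟨hd.2.2.1, hd.1, hd.2.1, hd.2.2.2.2.1.symm, hd.2.2.2.2.2.symm, hd.2.2.2.1⟩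

/-- value two -/
theorem tnF (o : Or3 W a b c) : Tn h W.z c a b ↔ FF h a b c := by
  rw [tn_mix o.d4.rot o.mx]
  constructor
  · rintro (k | k | k | k)
    · exact k.2
    · exact ((crF_sepr h.inj).amo o.2.2.2.2.1 k.1.2.2.2.2.1).elim
    · exact absurd k.1.1 o.2.1
    · exact absurd k.1.1 o.2.1
  · exact fun k => Or.inl ⟨o, k⟩

/-- value one -/
theorem tnG (o : Or3 W a b c) : Tn h W.z a b c ↔ ¬ FF h a b c := by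
  rw [tn_mix o.d4 o.mx.s12.s23]
  have hX := crF_sepr h.inj
  constructor
  · rintro (k | k | k | k)
    · exact absurd o.1 k.1.2.1
    · exact absurd k.1.1 o.2.1
    · exact k.2
    · refine (hX.amo (a := W.z) (b := b) (c := c) (d := a) ?_ ?_).elim
      · exact hX.comm (hX.swap (hX.comm o.2.2.2.2.1))
      · exact hX.comm (hX.swap (hX.comm k.1.2.2.2.2.1))
  · exact fun k => Or.inr (Or.inr (Or.inl ⟨o, k⟩))

theorem ff1 (hb : ¬ W.R b) : FF h a b c ↔ FS (mrel0 h) W.z fp1 a b c := by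
  unfold FF
  tauto

theorem ff2 (hb : W.R b) : FF h a b c ↔ FS (mrel0 h) W.z fp2 a b c := by
  unfold FF
  tauto

theorem mk3 {a b c z : V} (n1 : a ≠ b) (n2 : a ≠ c) (n3 : b ≠ c) (m1 : a ≠ z) (m2 : b ≠ z) (m3 : c ≠ z) :
    [z, a, b, c].Nodup := by
  simp only [List.nodup_cons, List.mem_cons, List.not_mem_nil, or_false, not_or, not_false_eq_true, List.nodup_nil,
    and_true]
  exact ⟨⟨m1.symm, m2.symm, m3.symm⟩, ⟨n1, n2⟩, n3⟩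

theorem mk4 {a b c d z : V} (n1 : a ≠ b) (n2 : a ≠ c) (n3 : a ≠ d) (n4 : b ≠ c) (n5 : b ≠ d) (n6 : c ≠ d) (m1 : a ≠ z)
    (m2 : b ≠ z) (m3 : c ≠ z) (m4 : d ≠ z) : [z, a, b, c, d].Nodup := by
  simp only [List.nodup_cons, List.mem_cons, List.not_mem_nil, or_false, not_or, not_false_eq_true, List.nodup_nil,
    and_true]
  exact ⟨⟨m1.symm, m2.symm, m3.symm, m4.symm⟩, ⟨n1, n2, n3⟩, ⟨n4, n5⟩, n6⟩

theorem mk5 {a b c d e z : V} (n1 : a ≠ b) (n2 : a ≠ c) (n3 : a ≠ d) (n4 : a ≠ e) (n5 : b ≠ c) (n6 : b ≠ d) (n7 : b ≠ e)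
    (n8 : c ≠ d) (n9 : c ≠ e) (n0 : d ≠ e) (m1 : a ≠ z) (m2 : b ≠ z) (m3 : c ≠ z) (m4 : d ≠ z) (m5 : e ≠ z) :
    [z, a, b, c, d, e].Nodup := by
  simp only [List.nodup_cons, List.mem_cons, List.not_mem_nil, or_false, not_or, not_false_eq_true, List.nodup_nil,
    and_true]
  exact ⟨⟨m1.symm, m2.symm, m3.symm, m4.symm, m5.symm⟩, ⟨n1, n2, n3, n4⟩, ⟨n5, n6, n7⟩, ⟨n8, n9⟩, n0⟩

theorem mk6 {a b c d e f z : V} (n1 : a ≠ b) (n2 : a ≠ c) (n3 : a ≠ d) (n4 : a ≠ e) (o1 : a ≠ f) (n5 : b ≠ c) (n6 : b ≠ d)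
    (n7 : b ≠ e) (o2 : b ≠ f) (n8 : c ≠ d) (n9 : c ≠ e) (o3 : c ≠ f) (n0 : d ≠ e) (o4 : d ≠ f) (o5 : e ≠ f) (m1 : a ≠ z)
    (m2 : b ≠ z) (m3 : c ≠ z) (m4 : d ≠ z) (m5 : e ≠ z) (m6 : f ≠ z) : [z, a, b, c, d, e, f].Nodup := by
  simp only [List.nodup_cons, List.mem_cons, List.not_mem_nil, or_false, not_or, not_false_eq_true, List.nodup_nil,
    and_true]
  exact ⟨⟨m1.symm, m2.symm, m3.symm, m4.symm, m5.symm, m6.symm⟩, ⟨n1, n2, n3, n4, o1⟩, ⟨n5, n6, n7, o2⟩, ⟨n8, n9, o3⟩,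
    ⟨n0, o4⟩, o5⟩

end

end Pool.Agent.SOU
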