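import Pool.Agent.SOU.TB

/-! Project SOU (MP_66ba69_lc, mixed insertion): the hypotheses in plain form (generated). -/

set_option autoImplicit false
set_option maxRecDepth 100000
set_option linter.unusedVariables false

namespace Pool.Agent.SOU

open Pool.Agent.RUP Pool.Agent.SOQ

variable {V : Type}

/-- the templates as plain statements -/
structure Mw.Pl (W : Mw V) : Prop where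
  x_nc_0 : ∀ {a b c d}, a ≠ b → a ≠ c → a ≠ d → b ≠ c → b ≠ d → c ≠ d → a ≠ W.z → b ≠ W.z → c ≠ W.z → d ≠ W.z → W.T a b c d → CrF W.f a b c d → False
  x_sq_1 : ∀ {a b c d}, a ≠ b → a ≠ c → a ≠ d → b ≠ c → b ≠ d → c ≠ d → a ≠ W.z → b ≠ W.z → c ≠ W.z → d ≠ W.z → W.T a b c d → ¬ W.G.Adj a c → False
  x_some_2 : ∀ {a b c d}, a ≠ b → a ≠ c → a ≠ d → b ≠ c → b ≠ d → c ≠ d → a ≠ W.z → b ≠ W.z → c ≠ W.z → d ≠ W.z → W.G.Adj a b → W.G.Adj c d → CrF W.f a b c d → ¬ W.T a c b d → ¬ W.T a d b c → False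
  x_nb_3 : ∀ {a b c d}, a ≠ b → a ≠ c → a ≠ d → b ≠ c → b ≠ d → c ≠ d → a ≠ W.z → b ≠ W.z → c ≠ W.z → d ≠ W.z → W.T a b c d → W.T a c b d → False
  x_trans_4 : ∀ {a b c d e}, a ≠ b → a ≠ c → a ≠ d → a ≠ e → b ≠ c → b ≠ d → b ≠ e → c ≠ d → c ≠ e → d ≠ e → a ≠ W.z → b ≠ W.z → c ≠ W.z → d ≠ W.z → e ≠ W.z → W.T a b c d → W.T a b d e → ¬ W.T a b c e → False
  x_f5_5 : ∀ {a b c d e}, a ≠ b → a ≠ c → a ≠ d → a ≠ e → b ≠ c → b ≠ d → b ≠ e → c ≠ d → c ≠ e → d ≠ e → a ≠ W.z → b ≠ W.z → c ≠ W.z → d ≠ W.z → e ≠ W.z → W.T a b c d → W.T a d c e → ¬ W.T a b c e → False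
  x_f6_6 : ∀ {a b c d e f}, a ≠ b → a ≠ c → a ≠ d → a ≠ e → a ≠ f → b ≠ c → b ≠ d → b ≠ e → b ≠ f → c ≠ d → c ≠ e → c ≠ f → d ≠ e → d ≠ f → e ≠ f → a ≠ W.z → b ≠ W.z → c ≠ W.z → d ≠ W.z → e ≠ W.z → f ≠ W.z → W.T a b c d → W.T a e c f → ¬ W.T a b c f → ¬ W.T a e c d → False
  x_nc_z_7 : ∀ {a b c}, a ≠ b → a ≠ c → b ≠ c → a ≠ W.z → b ≠ W.z → c ≠ W.z → ¬ W.R a → ¬ W.R b → ¬ W.R c → W.T W.z a b c → CrF W.f W.z a b c → False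
  x_nc_z_8 : ∀ {a b c}, a ≠ b → a ≠ c → b ≠ c → a ≠ W.z → b ≠ W.z → c ≠ W.z → W.R a → W.R b → W.R c → W.T W.z a b c → CrF W.f W.z a b c → False
  x_sq_z_9 : ∀ {a b c}, a ≠ b → a ≠ c → b ≠ c → a ≠ W.z → b ≠ W.z → c ≠ W.z → ¬ W.R a → ¬ W.R b → ¬ W.R c → W.T W.z a b c → ¬ W.G.Adj W.z b → False
  x_sq_z_10 : ∀ {a b c}, a ≠ b → a ≠ c → b ≠ c → a ≠ W.z → b ≠ W.z → c ≠ W.z → W.R a → W.R b → W.R c → W.T W.z a b c → ¬ W.G.Adj W.z b → False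
  x_sq_z2_11 : ∀ {a b c}, a ≠ b → a ≠ c → b ≠ c → a ≠ W.z → b ≠ W.z → c ≠ W.z → ¬ W.R a → ¬ W.R b → ¬ W.R c → W.T W.z a b c → ¬ W.G.Adj a b → False
  x_sq_z2_12 : ∀ {a b c}, a ≠ b → a ≠ c → b ≠ c → a ≠ W.z → b ≠ W.z → c ≠ W.z → W.R a → W.R b → W.R c → W.T W.z a b c → ¬ W.G.Adj a b → False
  x_some_z_13 : ∀ {a b c}, a ≠ b → a ≠ c → b ≠ c → a ≠ W.z → b ≠ W.z → c ≠ W.z → ¬ W.R a → ¬ W.R b → ¬ W.R c → W.G.Adj W.z a → W.G.Adj b c → CrF W.f W.z a b c → ¬ W.T W.z b a c → ¬ W.T W.z c a b → False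
  x_some_z_14 : ∀ {a b c}, a ≠ b → a ≠ c → b ≠ c → a ≠ W.z → b ≠ W.z → c ≠ W.z → W.R a → W.R b → W.R c → W.G.Adj W.z a → W.G.Adj b c → CrF W.f W.z a b c → ¬ W.T W.z b a c → ¬ W.T W.z c a b → False
  x_nb_z_15 : ∀ {a b c}, a ≠ b → a ≠ c → b ≠ c → a ≠ W.z → b ≠ W.z → c ≠ W.z → ¬ W.R a → ¬ W.R b → ¬ W.R c → W.T W.z a b c → W.T W.z b a c → False
  x_nb_z_16 : ∀ {a b c}, a ≠ b → a ≠ c → b ≠ c → a ≠ W.z → b ≠ W.z → c ≠ W.z → W.R a → W.R b → W.R c → W.T W.z a b c → W.T W.z b a c → False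
  x_tr_u_17 : ∀ {a b c d}, a ≠ b → a ≠ c → a ≠ d → b ≠ c → b ≠ d → c ≠ d → a ≠ W.z → b ≠ W.z → c ≠ W.z → d ≠ W.z → ¬ W.R a → ¬ W.R b → ¬ W.R c → ¬ W.R d → W.T W.z a b c → W.T W.z a c d → ¬ W.T W.z a b d → False
  x_tr_u_18 : ∀ {a b c d}, a ≠ b → a ≠ c → a ≠ d → b ≠ c → b ≠ d → c ≠ d → a ≠ W.z → b ≠ W.z → c ≠ W.z → d ≠ W.z → W.R a → W.R b → W.R c → W.R d → W.T W.z a b c → W.T W.z a c d → ¬ W.T W.z a b d → False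
  x_tr_x_19 : ∀ {a b c d}, a ≠ b → a ≠ c → a ≠ d → b ≠ c → b ≠ d → c ≠ d → a ≠ W.z → b ≠ W.z → c ≠ W.z → d ≠ W.z → ¬ W.R a → ¬ W.R b → ¬ W.R c → ¬ W.R d → W.T a b W.z c → W.T a b c d → ¬ W.T a b W.z d → False
  x_tr_x_30 : ∀ {a b c d}, a ≠ b → a ≠ c → a ≠ d → b ≠ c → b ≠ d → c ≠ d → a ≠ W.z → b ≠ W.z → c ≠ W.z → d ≠ W.z → W.R a → W.R b → W.R c → W.R d → W.T a b W.z c → W.T a b c d → ¬ W.T a b W.z d → False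
  x_tr_y_31 : ∀ {a b c d}, a ≠ b → a ≠ c → a ≠ d → b ≠ c → b ≠ d → c ≠ d → a ≠ W.z → b ≠ W.z → c ≠ W.z → d ≠ W.z → ¬ W.R a → ¬ W.R b → ¬ W.R c → ¬ W.R d → W.T a b c W.z → W.T a b W.z d → ¬ W.T a b c d → False
  x_tr_y_32 : ∀ {a b c d}, a ≠ b → a ≠ c → a ≠ d → b ≠ c → b ≠ d → c ≠ d → a ≠ W.z → b ≠ W.z → c ≠ W.z → d ≠ W.z → W.R a → W.R b → W.R c → W.R d → W.T a b c W.z → W.T a b W.z d → ¬ W.T a b c d → False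
  x_f5_0_33 : ∀ {a b c d}, a ≠ b → a ≠ c → a ≠ d → b ≠ c → b ≠ d → c ≠ d → a ≠ W.z → b ≠ W.z → c ≠ W.z → d ≠ W.z → ¬ W.R a → ¬ W.R b → ¬ W.R c → ¬ W.R d → W.T W.z a b c → W.T W.z c b d → ¬ W.T W.z a b d → False
  x_f5_0_34 : ∀ {a b c d}, a ≠ b → a ≠ c → a ≠ d → b ≠ c → b ≠ d → c ≠ d → a ≠ W.z → b ≠ W.z → c ≠ W.z → d ≠ W.z → W.R a → W.R b → W.R c → W.R d → W.T W.z a b c → W.T W.z c b d → ¬ W.T W.z a b d → False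
  x_f5_1_35 : ∀ {a b c d}, a ≠ b → a ≠ c → a ≠ d → b ≠ c → b ≠ d → c ≠ d → a ≠ W.z → b ≠ W.z → c ≠ W.z → d ≠ W.z → ¬ W.R a → ¬ W.R b → ¬ W.R c → ¬ W.R d → W.T a W.z b c → W.T a c b d → ¬ W.T a W.z b d → False
  x_f5_1_36 : ∀ {a b c d}, a ≠ b → a ≠ c → a ≠ d → b ≠ c → b ≠ d → c ≠ d → a ≠ W.z → b ≠ W.z → c ≠ W.z → d ≠ W.z → ¬ W.R a → ¬ W.R b → ¬ W.R c → W.R d → W.T a W.z b c → W.T a c b d → CrF W.f a W.z b d → False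
  x_f5_1_41 : ∀ {a b c d}, a ≠ b → a ≠ c → a ≠ d → b ≠ c → b ≠ d → c ≠ d → a ≠ W.z → b ≠ W.z → c ≠ W.z → d ≠ W.z → W.R a → W.R b → W.R c → ¬ W.R d → W.T a W.z b c → W.T a c b d → CrF W.f a W.z b d → False
  x_f5_3_49 : ∀ {a b c d}, a ≠ b → a ≠ c → a ≠ d → b ≠ c → b ≠ d → c ≠ d → a ≠ W.z → b ≠ W.z → c ≠ W.z → d ≠ W.z → ¬ W.R a → ¬ W.R b → ¬ W.R c → ¬ W.R d → W.T a b c W.z → W.T a W.z c d → ¬ W.T a b c d → False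
  x_f5_3_50 : ∀ {a b c d}, a ≠ b → a ≠ c → a ≠ d → b ≠ c → b ≠ d → c ≠ d → a ≠ W.z → b ≠ W.z → c ≠ W.z → d ≠ W.z → W.R a → W.R b → W.R c → W.R d → W.T a b c W.z → W.T a W.z c d → ¬ W.T a b c d → False
  x_f5_4_62 : ∀ {a b c d}, a ≠ b → a ≠ c → a ≠ d → b ≠ c → b ≠ d → c ≠ d → a ≠ W.z → b ≠ W.z → c ≠ W.z → d ≠ W.z → W.R a → W.R b → W.R c → W.R d → W.T a b c d → W.T a d c W.z → ¬ W.T a b c W.z → False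
  x_fe_a_63 : ∀ {a b c d e}, a ≠ b → a ≠ c → a ≠ d → a ≠ e → b ≠ c → b ≠ d → b ≠ e → c ≠ d → c ≠ e → d ≠ e → a ≠ W.z → b ≠ W.z → c ≠ W.z → d ≠ W.z → e ≠ W.z → ¬ W.R a → ¬ W.R b → ¬ W.R c → ¬ W.R d → ¬ W.R e → W.T W.z a b c → W.T W.z d b e → ¬ W.T W.z a b e → ¬ W.T W.z d b c → False
  x_fe_a_64 : ∀ {a b c d e}, a ≠ b → a ≠ c → a ≠ d → a ≠ e → b ≠ c → b ≠ d → b ≠ e → c ≠ d → c ≠ e → d ≠ e → a ≠ W.z → b ≠ W.z → c ≠ W.z → d ≠ W.z → e ≠ W.z → W.R a → W.R b → W.R c → W.R d → W.R e → W.T W.z a b c → W.T W.z d b e → ¬ W.T W.z a b e → ¬ W.T W.z d b c → False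
  x_fe_x_65 : ∀ {a b c d e}, a ≠ b → a ≠ c → a ≠ d → a ≠ e → b ≠ c → b ≠ d → b ≠ e → c ≠ d → c ≠ e → d ≠ e → a ≠ W.z → b ≠ W.z → c ≠ W.z → d ≠ W.z → e ≠ W.z → ¬ W.R a → ¬ W.R b → ¬ W.R c → ¬ W.R e → W.T a W.z b c → W.T a d b e → ¬ W.T a W.z b e → ¬ W.T a d b c → False
  x_fe_x_66 : ∀ {a b c d e}, a ≠ b → a ≠ c → a ≠ d → a ≠ e → b ≠ c → b ≠ d → b ≠ e → c ≠ d → c ≠ e → d ≠ e → a ≠ W.z → b ≠ W.z → c ≠ W.z → d ≠ W.z → e ≠ W.z → ¬ W.R a → ¬ W.R b → ¬ W.R c → W.R e → W.T a W.z b c → W.T a d b e → CrF W.f a W.z b e → ¬ W.T a d b c → False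
  x_fe_x_76 : ∀ {a b c d e}, a ≠ b → a ≠ c → a ≠ d → a ≠ e → b ≠ c → b ≠ d → b ≠ e → c ≠ d → c ≠ e → d ≠ e → a ≠ W.z → b ≠ W.z → c ≠ W.z → d ≠ W.z → e ≠ W.z → W.R a → W.R b → W.R c → W.R e → W.T a W.z b c → W.T a d b e → ¬ W.T a W.z b e → ¬ W.T a d b c → False
  o_5_1_0 : ∀ {a b c d}, a ≠ b → a ≠ c → a ≠ d → b ≠ c → b ≠ d → c ≠ d → a ≠ W.z → b ≠ W.z → c ≠ W.z → d ≠ W.z → W.R a → ¬ W.R b → ¬ W.R c → ¬ W.R d → CrF W.f W.z b a c → CrF W.f W.z c a d → ¬ W.G.Adj a c → W.G.Adj a d → W.T W.z b c d → False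
  o_5_1_1 : ∀ {a b c d}, a ≠ b → a ≠ c → a ≠ d → b ≠ c → b ≠ d → c ≠ d → a ≠ W.z → b ≠ W.z → c ≠ W.z → d ≠ W.z → W.R a → ¬ W.R b → ¬ W.R c → ¬ W.R d → CrF W.f W.z b a c → CrF W.f W.z c a d → W.G.Adj W.z c → W.G.Adj a b → ¬ W.G.Adj a c → W.G.Adj a d → ¬ W.G.Adj b d → False
  o_5_2_2 : ∀ {a b c d}, a ≠ b → a ≠ c → a ≠ d → b ≠ c → b ≠ d → c ≠ d → a ≠ W.z → b ≠ W.z → c ≠ W.z → d ≠ W.z → W.R a → W.R b → ¬ W.R c → ¬ W.R d → CrF W.f W.z b a d → CrF W.f W.z c a d → W.G.Adj W.z b → W.G.Adj W.z c → ¬ W.G.Adj a c → W.G.Adj a d → ¬ W.G.Adj b d → False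
  o_5_2_3 : ∀ {a b c d}, a ≠ b → a ≠ c → a ≠ d → b ≠ c → b ≠ d → c ≠ d → a ≠ W.z → b ≠ W.z → c ≠ W.z → d ≠ W.z → W.R a → W.R b → ¬ W.R c → ¬ W.R d → CrF W.f W.z b a d → CrF W.f W.z c a d → ¬ W.G.Adj a c → W.G.Adj a d → W.G.Adj b c → ¬ W.G.Adj b d → False
  o_5_3_4 : ∀ {a b c d}, a ≠ b → a ≠ c → a ≠ d → b ≠ c → b ≠ d → c ≠ d → a ≠ W.z → b ≠ W.z → c ≠ W.z → d ≠ W.z → W.R a → W.R b → W.R c → ¬ W.R d → CrF W.f W.z b a d → CrF W.f W.z c b d → W.G.Adj W.z b → ¬ W.G.Adj a c → W.G.Adj a d → ¬ W.G.Adj b d → W.G.Adj c d → False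
  o_5_3_5 : ∀ {a b c d}, a ≠ b → a ≠ c → a ≠ d → b ≠ c → b ≠ d → c ≠ d → a ≠ W.z → b ≠ W.z → c ≠ W.z → d ≠ W.z → W.R a → W.R b → W.R c → ¬ W.R d → CrF W.f W.z b a d → CrF W.f W.z c b d → W.G.Adj a d → ¬ W.G.Adj b d → W.T W.z c a b → False
  o_6_1_6 : ∀ {a b c d e}, a ≠ b → a ≠ c → a ≠ d → a ≠ e → b ≠ c → b ≠ d → b ≠ e → c ≠ d → c ≠ e → d ≠ e → a ≠ W.z → b ≠ W.z → c ≠ W.z → d ≠ W.z → e ≠ W.z → W.R a → ¬ W.R b → ¬ W.R c → ¬ W.R d → ¬ W.R e → CrF W.f W.z b a c → CrF W.f W.z c a d → CrF W.f W.z d a e → W.G.Adj W.z b → ¬ W.G.Adj W.z c → ¬ W.G.Adj a b → ¬ W.G.Adj a d → W.G.Adj a e → W.T b c d e → False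
  o_6_1_7 : ∀ {a b c d e}, a ≠ b → a ≠ c → a ≠ d → a ≠ e → b ≠ c → b ≠ d → b ≠ e → c ≠ d → c ≠ e → d ≠ e → a ≠ W.z → b ≠ W.z → c ≠ W.z → d ≠ W.z → e ≠ W.z → W.R a → ¬ W.R b → ¬ W.R c → ¬ W.R d → ¬ W.R e → CrF W.f W.z b a c → CrF W.f W.z c a d → CrF W.f W.z d a e → W.G.Adj a b → ¬ W.G.Adj b e → W.T W.z e c d → W.T a c d e → False
  o_6_1_8 : ∀ {a b c d e}, a ≠ b → a ≠ c → a ≠ d → a ≠ e → b ≠ c → b ≠ d → b ≠ e → c ≠ d → c ≠ e → d ≠ e → a ≠ W.z → b ≠ W.z → c ≠ W.z → d ≠ W.z → e ≠ W.z → W.R a → ¬ W.R b → ¬ W.R c → ¬ W.R d → ¬ W.R e → CrF W.f W.z b a c → CrF W.f W.z c a d → CrF W.f W.z d a e → W.G.Adj a e → ¬ W.G.Adj c e → W.T W.z d b c → W.T a b c d → False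
  o_6_2_9 : ∀ {a b c d e}, a ≠ b → a ≠ c → a ≠ d → a ≠ e → b ≠ c → b ≠ d → b ≠ e → c ≠ d → c ≠ e → d ≠ e → a ≠ W.z → b ≠ W.z → c ≠ W.z → d ≠ W.z → e ≠ W.z → W.R a → W.R b → ¬ W.R c → ¬ W.R d → ¬ W.R e → CrF W.f W.z b a e → CrF W.f W.z c a d → CrF W.f W.z d a e → W.G.Adj W.z b → W.G.Adj a c → ¬ W.G.Adj a d → ¬ W.G.Adj b c → ¬ W.G.Adj b e → W.T W.z e c d → False
  o_6_2_10 : ∀ {a b c d e}, a ≠ b → a ≠ c → a ≠ d → a ≠ e → b ≠ c → b ≠ d → b ≠ e → c ≠ d → c ≠ e → d ≠ e → a ≠ W.z → b ≠ W.z → c ≠ W.z → d ≠ W.z → e ≠ W.z → W.R a → W.R b → ¬ W.R c → ¬ W.R d → ¬ W.R e → CrF W.f W.z b a e → CrF W.f W.z c a d → CrF W.f W.z d a e → W.G.Adj W.z b → ¬ W.G.Adj b e → W.T W.z e c d → W.T a c d e → False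
  o_6_2_11 : ∀ {a b c d e}, a ≠ b → a ≠ c → a ≠ d → a ≠ e → b ≠ c → b ≠ d → b ≠ e → c ≠ d → c ≠ e → d ≠ e → a ≠ W.z → b ≠ W.z → c ≠ W.z → d ≠ W.z → e ≠ W.z → W.R a → W.R b → ¬ W.R c → ¬ W.R d → ¬ W.R e → CrF W.f W.z b a e → CrF W.f W.z c a d → CrF W.f W.z d a e → W.G.Adj b c → ¬ W.G.Adj c e → W.T a e b d → False
  o_6_3_13 : ∀ {a b c d e}, a ≠ b → a ≠ c → a ≠ d → a ≠ e → b ≠ c → b ≠ d → b ≠ e → c ≠ d → c ≠ e → d ≠ e → a ≠ W.z → b ≠ W.z → c ≠ W.z → d ≠ W.z → e ≠ W.z → W.R a → W.R b → W.R c → ¬ W.R d → ¬ W.R e → CrF W.f W.z b a e → CrF W.f W.z c b e → CrF W.f W.z d a e → W.G.Adj W.z d → ¬ W.G.Adj a d → ¬ W.G.Adj b e → ¬ W.G.Adj c d → W.G.Adj c e → W.T W.z a b c → False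
  o_6_3_14 : ∀ {a b c d e}, a ≠ b → a ≠ c → a ≠ d → a ≠ e → b ≠ c → b ≠ d → b ≠ e → c ≠ d → c ≠ e → d ≠ e → a ≠ W.z → b ≠ W.z → c ≠ W.z → d ≠ W.z → e ≠ W.z → W.R a → W.R b → W.R c → ¬ W.R d → ¬ W.R e → CrF W.f W.z b a e → CrF W.f W.z c b e → CrF W.f W.z d a e → W.G.Adj c d → ¬ W.G.Adj c e → W.T a e b d → False
  o_6_3_15 : ∀ {a b c d e}, a ≠ b → a ≠ c → a ≠ d → a ≠ e → b ≠ c → b ≠ d → b ≠ e → c ≠ d → c ≠ e → d ≠ e → a ≠ W.z → b ≠ W.z → c ≠ W.z → d ≠ W.z → e ≠ W.z → W.R a → W.R b → W.R c → ¬ W.R d → ¬ W.R e → CrF W.f W.z b a e → CrF W.f W.z c b e → CrF W.f W.z d a e → W.G.Adj W.z d → ¬ W.G.Adj b d → W.T W.z a b c → W.T a b c e → False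
  o_6_3_16 : ∀ {a b c d e}, a ≠ b → a ≠ c → a ≠ d → a ≠ e → b ≠ c → b ≠ d → b ≠ e → c ≠ d → c ≠ e → d ≠ e → a ≠ W.z → b ≠ W.z → c ≠ W.z → d ≠ W.z → e ≠ W.z → W.R a → W.R b → W.R c → ¬ W.R d → ¬ W.R e → CrF W.f W.z b a e → CrF W.f W.z c b e → CrF W.f W.z d a e → ¬ W.G.Adj b d → W.G.Adj c d → W.T W.z a b c → W.T a b c e → False
  o_6_4_17 : ∀ {a b c d e}, a ≠ b → a ≠ c → a ≠ d → a ≠ e → b ≠ c → b ≠ d → b ≠ e → c ≠ d → c ≠ e → d ≠ e → a ≠ W.z → b ≠ W.z → c ≠ W.z → d ≠ W.z → e ≠ W.z → W.R a → W.R b → W.R c → W.R d → ¬ W.R e → CrF W.f W.z b a e → CrF W.f W.z c b e → CrF W.f W.z d c e → ¬ W.G.Adj W.z c → W.G.Adj W.z d → W.G.Adj a e → ¬ W.G.Adj b e → ¬ W.G.Adj d e → W.T a b c d → False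
  o_6_4_18 : ∀ {a b c d e}, a ≠ b → a ≠ c → a ≠ d → a ≠ e → b ≠ c → b ≠ d → b ≠ e → c ≠ d → c ≠ e → d ≠ e → a ≠ W.z → b ≠ W.z → c ≠ W.z → d ≠ W.z → e ≠ W.z → W.R a → W.R b → W.R c → W.R d → ¬ W.R e → CrF W.f W.z b a e → CrF W.f W.z c b e → CrF W.f W.z d c e → ¬ W.G.Adj a d → W.G.Adj a e → W.T W.z b c d → W.T b c d e → False
  o_6_4_19 : ∀ {a b c d e}, a ≠ b → a ≠ c → a ≠ d → a ≠ e → b ≠ c → b ≠ d → b ≠ e → c ≠ d → c ≠ e → d ≠ e → a ≠ W.z → b ≠ W.z → c ≠ W.z → d ≠ W.z → e ≠ W.z → W.R a → W.R b → W.R c → W.R d → ¬ W.R e → CrF W.f W.z b a e → CrF W.f W.z c b e → CrF W.f W.z d c e → ¬ W.G.Adj b d → W.G.Adj d e → W.T W.z a b c → W.T a b c e → False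
  o_7_3_20 : ∀ {a b c d e f}, a ≠ b → a ≠ c → a ≠ d → a ≠ e → a ≠ f → b ≠ c → b ≠ d → b ≠ e → b ≠ f → c ≠ d → c ≠ e → c ≠ f → d ≠ e → d ≠ f → e ≠ f → a ≠ W.z → b ≠ W.z → c ≠ W.z → d ≠ W.z → e ≠ W.z → f ≠ W.z → W.R a → W.R b → W.R c → ¬ W.R d → ¬ W.R e → ¬ W.R f → CrF W.f W.z b a f → CrF W.f W.z c b f → CrF W.f W.z d a e → CrF W.f W.z e a f → ¬ W.G.Adj a e → ¬ W.G.Adj b f → W.T W.z a b c → W.T W.z f d e → W.T c d e f → False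
  o_7_3_22 : ∀ {a b c d e f}, a ≠ b → a ≠ c → a ≠ d → a ≠ e → a ≠ f → b ≠ c → b ≠ d → b ≠ e → b ≠ f → c ≠ d → c ≠ e → c ≠ f → d ≠ e → d ≠ f → e ≠ f → a ≠ W.z → b ≠ W.z → c ≠ W.z → d ≠ W.z → e ≠ W.z → f ≠ W.z → W.R a → W.R b → W.R c → ¬ W.R d → ¬ W.R e → ¬ W.R f → CrF W.f W.z b a f → CrF W.f W.z c b f → CrF W.f W.z d a e → CrF W.f W.z e a f → ¬ W.G.Adj b e → ¬ W.G.Adj c f → W.T W.z a b c → W.T W.z f d e → W.T a b c d → False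
  o_7_3_23 : ∀ {a b c d e f}, a ≠ b → a ≠ c → a ≠ d → a ≠ e → a ≠ f → b ≠ c → b ≠ d → b ≠ e → b ≠ f → c ≠ d → c ≠ e → c ≠ f → d ≠ e → d ≠ f → e ≠ f → a ≠ W.z → b ≠ W.z → c ≠ W.z → d ≠ W.z → e ≠ W.z → f ≠ W.z → W.R a → W.R b → W.R c → ¬ W.R d → ¬ W.R e → ¬ W.R f → CrF W.f W.z b a f → CrF W.f W.z c b f → CrF W.f W.z d a e → CrF W.f W.z e a f → W.T W.z a b c → W.T W.z f d e → W.T a b c f → W.T b d e f → False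

theorem Mw.Pl.hy {W : Mw V} (hb : W.Bs) (hp : W.Pl) : W.Hy := ⟨hb,
  .cons (fun v n01 n02 n03 n12 n13 n23 n08 n18 n28 n38 h0 h1 => hp.x_nc_0 n01 n02 n03 n12 n13 n23 n08 n18 n28 n38 h0 h1) (
  .cons (fun v n01 n02 n03 n12 n13 n23 n08 n18 n28 n38 h0 h1 => hp.x_sq_1 n01 n02 n03 n12 n13 n23 n08 n18 n28 n38 h0 h1) (
  .cons (fun v n01 n02 n03 n12 n13 n23 n08 n18 n28 n38 h0 h1 h2 h3 h4 => hp.x_some_2 n01 n02 n03 n12 n13 n23 n08 n18 n28 n38 h0 h1 h2 h3 h4) (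
  .cons (fun v n01 n02 n03 n12 n13 n23 n08 n18 n28 n38 h0 h1 => hp.x_nb_3 n01 n02 n03 n12 n13 n23 n08 n18 n28 n38 h0 h1) (
  .cons (fun v n01 n02 n03 n04 n12 n13 n14 n23 n24 n34 n08 n18 n28 n38 n48 h0 h1 h2 => hp.x_trans_4 n01 n02 n03 n04 n12 n13 n14 n23 n24 n34 n08 n18 n28 n38 n48 h0 h1 h2) (
  .cons (fun v n01 n02 n03 n04 n12 n13 n14 n23 n24 n34 n08 n18 n28 n38 n48 h0 h1 h2 => hp.x_f5_5 n01 n02 n03 n04 n12 n13 n14 n23 n24 n34 n08 n18 n28 n38 n48 h0 h1 h2) (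
  .cons (fun v n01 n02 n03 n04 n05 n12 n13 n14 n15 n23 n24 n25 n34 n35 n45 n08 n18 n28 n38 n48 n58 h0 h1 h2 h3 => hp.x_f6_6 n01 n02 n03 n04 n05 n12 n13 n14 n15 n23 n24 n25 n34 n35 n45 n08 n18 n28 n38 n48 n58 h0 h1 h2 h3) (
  .cons (fun v n01 n02 n12 n08 n18 n28 h0 h1 h2 h3 h4 => hp.x_nc_z_7 n01 n02 n12 n08 n18 n28 (ngR h0) (ngR h1) (ngR h2) h3 h4) (
  .cons (fun v n01 n02 n12 n08 n18 n28 h0 h1 h2 h3 h4 => hp.x_nc_z_8 n01 n02 n12 n08 n18 n28 h0.2 h1.2 h2.2 h3 h4) (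
  .cons (fun v n01 n02 n12 n08 n18 n28 h0 h1 h2 h3 h4 => hp.x_sq_z_9 n01 n02 n12 n08 n18 n28 (ngR h0) (ngR h1) (ngR h2) h3 h4) (
  .cons (fun v n01 n02 n12 n08 n18 n28 h0 h1 h2 h3 h4 => hp.x_sq_z_10 n01 n02 n12 n08 n18 n28 h0.2 h1.2 h2.2 h3 h4) (
  .cons (fun v n01 n02 n12 n08 n18 n28 h0 h1 h2 h3 h4 => hp.x_sq_z2_11 n01 n02 n12 n08 n18 n28 (ngR h0) (ngR h1) (ngR h2) h3 h4) (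
  .cons (fun v n01 n02 n12 n08 n18 n28 h0 h1 h2 h3 h4 => hp.x_sq_z2_12 n01 n02 n12 n08 n18 n28 h0.2 h1.2 h2.2 h3 h4) (
  .cons (fun v n01 n02 n12 n08 n18 n28 h0 h1 h2 h3 h4 h5 h6 h7 => hp.x_some_z_13 n01 n02 n12 n08 n18 n28 (ngR h0) (ngR h1) (ngR h2) h3 h4 h5 h6 h7) (
  .cons (fun v n01 n02 n12 n08 n18 n28 h0 h1 h2 h3 h4 h5 h6 h7 => hp.x_some_z_14 n01 n02 n12 n08 n18 n28 h0.2 h1.2 h2.2 h3 h4 h5 h6 h7) (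
  .cons (fun v n01 n02 n12 n08 n18 n28 h0 h1 h2 h3 h4 => hp.x_nb_z_15 n01 n02 n12 n08 n18 n28 (ngR h0) (ngR h1) (ngR h2) h3 h4) (
  .cons (fun v n01 n02 n12 n08 n18 n28 h0 h1 h2 h3 h4 => hp.x_nb_z_16 n01 n02 n12 n08 n18 n28 h0.2 h1.2 h2.2 h3 h4) (
  .cons (fun v n01 n02 n03 n12 n13 n23 n08 n18 n28 n38 h0 h1 h2 h3 h4 h5 h6 => hp.x_tr_u_17 n01 n02 n03 n12 n13 n23 n08 n18 n28 n38 (ngR h0) (ngR h1) (ngR h2) (ngR h3) h4 h5 h6) (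
  .cons (fun v n01 n02 n03 n12 n13 n23 n08 n18 n28 n38 h0 h1 h2 h3 h4 h5 h6 => hp.x_tr_u_18 n01 n02 n03 n12 n13 n23 n08 n18 n28 n38 h0.2 h1.2 h2.2 h3.2 h4 h5 h6) (
  .cons (fun v n01 n02 n03 n12 n13 n23 n08 n18 n28 n38 h0 h1 h2 h3 h4 h5 h6 => hp.x_tr_x_19 n01 n02 n03 n12 n13 n23 n08 n18 n28 n38 (ngR h0) (ngR h1) (ngR h2) (ngR h3) h4 h5 h6) (
  .cons (fun v n01 n02 n03 n12 n13 n23 n08 n18 n28 n38 h0 h1 h2 h3 h4 h5 h6 => hp.x_tr_x_30 n01 n02 n03 n12 n13 n23 n08 n18 n28 n38 h0.2 h1.2 h2.2 h3.2 h4 h5 h6) (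
  .cons (fun v n01 n02 n03 n12 n13 n23 n08 n18 n28 n38 h0 h1 h2 h3 h4 h5 h6 => hp.x_tr_y_31 n01 n02 n03 n12 n13 n23 n08 n18 n28 n38 (ngR h0) (ngR h1) (ngR h2) (ngR h3) h4 h5 h6) (
  .cons (fun v n01 n02 n03 n12 n13 n23 n08 n18 n28 n38 h0 h1 h2 h3 h4 h5 h6 => hp.x_tr_y_32 n01 n02 n03 n12 n13 n23 n08 n18 n28 n38 h0.2 h1.2 h2.2 h3.2 h4 h5 h6) (
  .cons (fun v n01 n02 n03 n12 n13 n23 n08 n18 n28 n38 h0 h1 h2 h3 h4 h5 h6 => hp.x_f5_0_33 n01 n02 n03 n12 n13 n23 n08 n18 n28 n38 (ngR h0) (ngR h1) (ngR h2) (ngR h3) h4 h5 h6) (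
  .cons (fun v n01 n02 n03 n12 n13 n23 n08 n18 n28 n38 h0 h1 h2 h3 h4 h5 h6 => hp.x_f5_0_34 n01 n02 n03 n12 n13 n23 n08 n18 n28 n38 h0.2 h1.2 h2.2 h3.2 h4 h5 h6) (
  .cons (fun v n01 n02 n03 n12 n13 n23 n08 n18 n28 n38 h0 h1 h2 h3 h4 h5 h6 => hp.x_f5_1_35 n01 n02 n03 n12 n13 n23 n08 n18 n28 n38 (ngR h0) (ngR h1) (ngR h2) (ngR h3) h4 h5 h6) (
  .cons (fun v n01 n02 n03 n12 n13 n23 n08 n18 n28 n38 h0 h1 h2 h3 h4 h5 h6 => hp.x_f5_1_36 n01 n02 n03 n12 n13 n23 n08 n18 n28 n38 (ngR h0) (ngR h1) (ngR h2) h3.2 h4 h5 h6) (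
  .cons (fun v n01 n02 n03 n12 n13 n23 n08 n18 n28 n38 h0 h1 h2 h3 h4 h5 h6 => hp.x_f5_1_41 n01 n02 n03 n12 n13 n23 n08 n18 n28 n38 h0.2 h1.2 h2.2 (ngR h3) h4 h5 h6) (
  .cons (fun v n01 n02 n03 n12 n13 n23 n08 n18 n28 n38 h0 h1 h2 h3 h4 h5 h6 => hp.x_f5_3_49 n01 n02 n03 n12 n13 n23 n08 n18 n28 n38 (ngR h0) (ngR h1) (ngR h2) (ngR h3) h4 h5 h6) (
  .cons (fun v n01 n02 n03 n12 n13 n23 n08 n18 n28 n38 h0 h1 h2 h3 h4 h5 h6 => hp.x_f5_3_50 n01 n02 n03 n12 n13 n23 n08 n18 n28 n38 h0.2 h1.2 h2.2 h3.2 h4 h5 h6) (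
  .cons (fun v n01 n02 n03 n12 n13 n23 n08 n18 n28 n38 h0 h1 h2 h3 h4 h5 h6 => hp.x_f5_4_62 n01 n02 n03 n12 n13 n23 n08 n18 n28 n38 h0.2 h1.2 h2.2 h3.2 h4 h5 h6) (
  .cons (fun v n01 n02 n03 n04 n12 n13 n14 n23 n24 n34 n08 n18 n28 n38 n48 h0 h1 h2 h3 h4 h5 h6 h7 h8 => hp.x_fe_a_63 n01 n02 n03 n04 n12 n13 n14 n23 n24 n34 n08 n18 n28 n38 n48 (ngR h0) (ngR h1) (ngR h2) (ngR h3) (ngR h4) h5 h6 h7 h8) (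
  .cons (fun v n01 n02 n03 n04 n12 n13 n14 n23 n24 n34 n08 n18 n28 n38 n48 h0 h1 h2 h3 h4 h5 h6 h7 h8 => hp.x_fe_a_64 n01 n02 n03 n04 n12 n13 n14 n23 n24 n34 n08 n18 n28 n38 n48 h0.2 h1.2 h2.2 h3.2 h4.2 h5 h6 h7 h8) (
  .cons (fun v n01 n02 n03 n04 n12 n13 n14 n23 n24 n34 n08 n18 n28 n38 n48 h0 h1 h2 h3 h4 h5 h6 h7 => hp.x_fe_x_65 n01 n02 n03 n04 n12 n13 n14 n23 n24 n34 n08 n18 n28 n38 n48 (ngR h0) (ngR h1) (ngR h2) (ngR h3) h4 h5 h6 h7) (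
  .cons (fun v n01 n02 n03 n04 n12 n13 n14 n23 n24 n34 n08 n18 n28 n38 n48 h0 h1 h2 h3 h4 h5 h6 h7 => hp.x_fe_x_66 n01 n02 n03 n04 n12 n13 n14 n23 n24 n34 n08 n18 n28 n38 n48 (ngR h0) (ngR h1) (ngR h2) h3.2 h4 h5 h6 h7) (
  .cons (fun v n01 n02 n03 n04 n12 n13 n14 n23 n24 n34 n08 n18 n28 n38 n48 h0 h1 h2 h3 h4 h5 h6 h7 => hp.x_fe_x_76 n01 n02 n03 n04 n12 n13 n14 n23 n24 n34 n08 n18 n28 n38 n48 h0.2 h1.2 h2.2 h3.2 h4 h5 h6 h7) (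
  .cons (fun v n01 n02 n03 n12 n13 n23 n08 n18 n28 n38 h0 h1 h2 h3 h4 h5 h6 h7 h8 => hp.o_5_1_0 n01 n02 n03 n12 n13 n23 n08 n18 n28 n38 h0.2 (ngR h1) (ngR h2) (ngR h3) h4 h5 h6 h7 h8) (
  .cons (fun v n01 n02 n03 n12 n13 n23 n08 n18 n28 n38 h0 h1 h2 h3 h4 h5 h6 h7 h8 h9 h10 => hp.o_5_1_1 n01 n02 n03 n12 n13 n23 n08 n18 n28 n38 h0.2 (ngR h1) (ngR h2) (ngR h3) h4 h5 h6 h7 h8 h9 h10) (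
  .cons (fun v n01 n02 n03 n12 n13 n23 n08 n18 n28 n38 h0 h1 h2 h3 h4 h5 h6 h7 h8 h9 h10 => hp.o_5_2_2 n01 n02 n03 n12 n13 n23 n08 n18 n28 n38 h0.2 h1.2 (ngR h2) (ngR h3) h4 h5 h6 h7 h8 h9 h10) (
  .cons (fun v n01 n02 n03 n12 n13 n23 n08 n18 n28 n38 h0 h1 h2 h3 h4 h5 h6 h7 h8 h9 => hp.o_5_2_3 n01 n02 n03 n12 n13 n23 n08 n18 n28 n38 h0.2 h1.2 (ngR h2) (ngR h3) h4 h5 h6 h7 h8 h9) (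
  .cons (fun v n01 n02 n03 n12 n13 n23 n08 n18 n28 n38 h0 h1 h2 h3 h4 h5 h6 h7 h8 h9 h10 => hp.o_5_3_4 n01 n02 n03 n12 n13 n23 n08 n18 n28 n38 h0.2 h1.2 h2.2 (ngR h3) h4 h5 h6 h7 h8 h9 h10) (
  .cons (fun v n01 n02 n03 n12 n13 n23 n08 n18 n28 n38 h0 h1 h2 h3 h4 h5 h6 h7 h8 => hp.o_5_3_5 n01 n02 n03 n12 n13 n23 n08 n18 n28 n38 h0.2 h1.2 h2.2 (ngR h3) h4 h5 h6 h7 h8) (
  .cons (fun v n01 n02 n03 n04 n12 n13 n14 n23 n24 n34 n08 n18 n28 n38 n48 h0 h1 h2 h3 h4 h5 h6 h7 h8 h9 h10 h11 h12 h13 => hp.o_6_1_6 n01 n02 n03 n04 n12 n13 n14 n23 n24 n34 n08 n18 n28 n38 n48 h0.2 (ngR h1) (ngR h2) (ngR h3) (ngR h4) h5 h6 h7 h8 h9 h10 h11 h12 h13) (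
  .cons (fun v n01 n02 n03 n04 n12 n13 n14 n23 n24 n34 n08 n18 n28 n38 n48 h0 h1 h2 h3 h4 h5 h6 h7 h8 h9 h10 h11 => hp.o_6_1_7 n01 n02 n03 n04 n12 n13 n14 n23 n24 n34 n08 n18 n28 n38 n48 h0.2 (ngR h1) (ngR h2) (ngR h3) (ngR h4) h5 h6 h7 h8 h9 h10 h11) (
  .cons (fun v n01 n02 n03 n04 n12 n13 n14 n23 n24 n34 n08 n18 n28 n38 n48 h0 h1 h2 h3 h4 h5 h6 h7 h8 h9 h10 h11 => hp.o_6_1_8 n01 n02 n03 n04 n12 n13 n14 n23 n24 n34 n08 n18 n28 n38 n48 h0.2 (ngR h1) (ngR h2) (ngR h3) (ngR h4) h5 h6 h7 h8 h9 h10 h11) (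
  .cons (fun v n01 n02 n03 n04 n12 n13 n14 n23 n24 n34 n08 n18 n28 n38 n48 h0 h1 h2 h3 h4 h5 h6 h7 h8 h9 h10 h11 h12 h13 => hp.o_6_2_9 n01 n02 n03 n04 n12 n13 n14 n23 n24 n34 n08 n18 n28 n38 n48 h0.2 h1.2 (ngR h2) (ngR h3) (ngR h4) h5 h6 h7 h8 h9 h10 h11 h12 h13) (
  .cons (fun v n01 n02 n03 n04 n12 n13 n14 n23 n24 n34 n08 n18 n28 n38 n48 h0 h1 h2 h3 h4 h5 h6 h7 h8 h9 h10 h11 => hp.o_6_2_10 n01 n02 n03 n04 n12 n13 n14 n23 n24 n34 n08 n18 n28 n38 n48 h0.2 h1.2 (ngR h2) (ngR h3) (ngR h4) h5 h6 h7 h8 h9 h10 h11) (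
  .cons (fun v n01 n02 n03 n04 n12 n13 n14 n23 n24 n34 n08 n18 n28 n38 n48 h0 h1 h2 h3 h4 h5 h6 h7 h8 h9 h10 => hp.o_6_2_11 n01 n02 n03 n04 n12 n13 n14 n23 n24 n34 n08 n18 n28 n38 n48 h0.2 h1.2 (ngR h2) (ngR h3) (ngR h4) h5 h6 h7 h8 h9 h10) (
  .cons (fun v n01 n02 n03 n04 n12 n13 n14 n23 n24 n34 n08 n18 n28 n38 n48 h0 h1 h2 h3 h4 h5 h6 h7 h8 h9 h10 h11 h12 h13 => hp.o_6_3_13 n01 n02 n03 n04 n12 n13 n14 n23 n24 n34 n08 n18 n28 n38 n48 h0.2 h1.2 h2.2 (ngR h3) (ngR h4) h5 h6 h7 h8 h9 h10 h11 h12 h13) (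
  .cons (fun v n01 n02 n03 n04 n12 n13 n14 n23 n24 n34 n08 n18 n28 n38 n48 h0 h1 h2 h3 h4 h5 h6 h7 h8 h9 h10 => hp.o_6_3_14 n01 n02 n03 n04 n12 n13 n14 n23 n24 n34 n08 n18 n28 n38 n48 h0.2 h1.2 h2.2 (ngR h3) (ngR h4) h5 h6 h7 h8 h9 h10) (
  .cons (fun v n01 n02 n03 n04 n12 n13 n14 n23 n24 n34 n08 n18 n28 n38 n48 h0 h1 h2 h3 h4 h5 h6 h7 h8 h9 h10 h11 => hp.o_6_3_15 n01 n02 n03 n04 n12 n13 n14 n23 n24 n34 n08 n18 n28 n38 n48 h0.2 h1.2 h2.2 (ngR h3) (ngR h4) h5 h6 h7 h8 h9 h10 h11) (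
  .cons (fun v n01 n02 n03 n04 n12 n13 n14 n23 n24 n34 n08 n18 n28 n38 n48 h0 h1 h2 h3 h4 h5 h6 h7 h8 h9 h10 h11 => hp.o_6_3_16 n01 n02 n03 n04 n12 n13 n14 n23 n24 n34 n08 n18 n28 n38 n48 h0.2 h1.2 h2.2 (ngR h3) (ngR h4) h5 h6 h7 h8 h9 h10 h11) (
  .cons (fun v n01 n02 n03 n04 n12 n13 n14 n23 n24 n34 n08 n18 n28 n38 n48 h0 h1 h2 h3 h4 h5 h6 h7 h8 h9 h10 h11 h12 h13 => hp.o_6_4_17 n01 n02 n03 n04 n12 n13 n14 n23 n24 n34 n08 n18 n28 n38 n48 h0.2 h1.2 h2.2 h3.2 (ngR h4) h5 h6 h7 h8 h9 h10 h11 h12 h13) (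
  .cons (fun v n01 n02 n03 n04 n12 n13 n14 n23 n24 n34 n08 n18 n28 n38 n48 h0 h1 h2 h3 h4 h5 h6 h7 h8 h9 h10 h11 => hp.o_6_4_18 n01 n02 n03 n04 n12 n13 n14 n23 n24 n34 n08 n18 n28 n38 n48 h0.2 h1.2 h2.2 h3.2 (ngR h4) h5 h6 h7 h8 h9 h10 h11) (
  .cons (fun v n01 n02 n03 n04 n12 n13 n14 n23 n24 n34 n08 n18 n28 n38 n48 h0 h1 h2 h3 h4 h5 h6 h7 h8 h9 h10 h11 => hp.o_6_4_19 n01 n02 n03 n04 n12 n13 n14 n23 n24 n34 n08 n18 n28 n38 n48 h0.2 h1.2 h2.2 h3.2 (ngR h4) h5 h6 h7 h8 h9 h10 h11) (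
  .cons (fun v n01 n02 n03 n04 n05 n12 n13 n14 n15 n23 n24 n25 n34 n35 n45 n08 n18 n28 n38 n48 n58 h0 h1 h2 h3 h4 h5 h6 h7 h8 h9 h10 h11 h12 h13 h14 => hp.o_7_3_20 n01 n02 n03 n04 n05 n12 n13 n14 n15 n23 n24 n25 n34 n35 n45 n08 n18 n28 n38 n48 n58 h0.2 h1.2 h2.2 (ngR h3) (ngR h4) (ngR h5) h6 h7 h8 h9 h10 h11 h12 h13 h14) (
  .cons (fun v n01 n02 n03 n04 n05 n12 n13 n14 n15 n23 n24 n25 n34 n35 n45 n08 n18 n28 n38 n48 n58 h0 h1 h2 h3 h4 h5 h6 h7 h8 h9 h10 h11 h12 h13 h14 => hp.o_7_3_22 n01 n02 n03 n04 n05 n12 n13 n14 n15 n23 n24 n25 n34 n35 n45 n08 n18 n28 n38 n48 n58 h0.2 h1.2 h2.2 (ngR h3) (ngR h4) (ngR h5) h6 h7 h8 h9 h10 h11 h12 h13 h14) (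
  .cons (fun v n01 n02 n03 n04 n05 n12 n13 n14 n15 n23 n24 n25 n34 n35 n45 n08 n18 n28 n38 n48 n58 h0 h1 h2 h3 h4 h5 h6 h7 h8 h9 h10 h11 h12 h13 => hp.o_7_3_23 n01 n02 n03 n04 n05 n12 n13 n14 n15 n23 n24 n25 n34 n35 n45 n08 n18 n28 n38 n48 n58 h0.2 h1.2 h2.2 (ngR h3) (ngR h4) (ngR h5) h6 h7 h8 h9 h10 h11 h12 h13) (
  .nil))))))))))))))))))))))))))))))))))))))))))))))))))))))))))⟩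

theorem Mw.Hy.pl {W : Mw V} (h : W.Hy) : W.Pl where
  x_nc_0 := fun {a b c d} n01 n02 n03 n12 n13 n23 n08 n18 n28 n38 h0 h1 => h.t.1 (pt [a, b, c, d] W.z) n01 n02 n03 n12 n13 n23 n08 n18 n28 n38 h0 h1
  x_sq_1 := fun {a b c d} n01 n02 n03 n12 n13 n23 n08 n18 n28 n38 h0 h1 => h.t.2.1 (pt [a, b, c, d] W.z) n01 n02 n03 n12 n13 n23 n08 n18 n28 n38 h0 h1
  x_some_2 := fun {a b c d} n01 n02 n03 n12 n13 n23 n08 n18 n28 n38 h0 h1 h2 h3 h4 => h.t.2.2.1 (pt [a, b, c, d] W.z) n01 n02 n03 n12 n13 n23 n08 n18 n28 n38 h0 h1 h2 h3 h4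
  x_nb_3 := fun {a b c d} n01 n02 n03 n12 n13 n23 n08 n18 n28 n38 h0 h1 => h.t.2.2.2.1 (pt [a, b, c, d] W.z) n01 n02 n03 n12 n13 n23 n08 n18 n28 n38 h0 h1
  x_trans_4 := fun {a b c d e} n01 n02 n03 n04 n12 n13 n14 n23 n24 n34 n08 n18 n28 n38 n48 h0 h1 h2 => h.t.2.2.2.2.1 (pt [a, b, c, d, e] W.z) n01 n02 n03 n04 n12 n13 n14 n23 n24 n34 n08 n18 n28 n38 n48 h0 h1 h2
  x_f5_5 := fun {a b c d e} n01 n02 n03 n04 n12 n13 n14 n23 n24 n34 n08 n18 n28 n38 n48 h0 h1 h2 => h.t.2.2.2.2.2.1 (pt [a, b, c, d, e] W.z) n01 n02 n03 n04 n12 n13 n14 n23 n24 n34 n08 n18 n28 n38 n48 h0 h1 h2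
  x_f6_6 := fun {a b c d e f} n01 n02 n03 n04 n05 n12 n13 n14 n15 n23 n24 n25 n34 n35 n45 n08 n18 n28 n38 n48 n58 h0 h1 h2 h3 => h.t.2.2.2.2.2.2.1 (pt [a, b, c, d, e, f] W.z) n01 n02 n03 n04 n05 n12 n13 n14 n15 n23 n24 n25 n34 n35 n45 n08 n18 n28 n38 n48 n58 h0 h1 h2 h3
  x_nc_z_7 := fun {a b c} n01 n02 n12 n08 n18 n28 h0 h1 h2 h3 h4 => h.t.2.2.2.2.2.2.2.1 (pt [a, b, c] W.z) n01 n02 n12 n08 n18 n28 (fun k => h0 k.2) (fun k => h1 k.2) (fun k => h2 k.2) h3 h4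
  x_nc_z_8 := fun {a b c} n01 n02 n12 n08 n18 n28 h0 h1 h2 h3 h4 => h.t.2.2.2.2.2.2.2.2.1 (pt [a, b, c] W.z) n01 n02 n12 n08 n18 n28 ⟨rfl, h0⟩ ⟨rfl, h1⟩ ⟨rfl, h2⟩ h3 h4
  x_sq_z_9 := fun {a b c} n01 n02 n12 n08 n18 n28 h0 h1 h2 h3 h4 => h.t.2.2.2.2.2.2.2.2.2.1 (pt [a, b, c] W.z) n01 n02 n12 n08 n18 n28 (fun k => h0 k.2) (fun k => h1 k.2) (fun k => h2 k.2) h3 h4
  x_sq_z_10 := fun {a b c} n01 n02 n12 n08 n18 n28 h0 h1 h2 h3 h4 => h.t.2.2.2.2.2.2.2.2.2.2.1 (pt [a, b, c] W.z) n01 n02 n12 n08 n18 n28 ⟨rfl, h0⟩ ⟨rfl, h1⟩ ⟨rfl, h2⟩ h3 h4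
  x_sq_z2_11 := fun {a b c} n01 n02 n12 n08 n18 n28 h0 h1 h2 h3 h4 => h.t.2.2.2.2.2.2.2.2.2.2.2.1 (pt [a, b, c] W.z) n01 n02 n12 n08 n18 n28 (fun k => h0 k.2) (fun k => h1 k.2) (fun k => h2 k.2) h3 h4
  x_sq_z2_12 := fun {a b c} n01 n02 n12 n08 n18 n28 h0 h1 h2 h3 h4 => h.t.2.2.2.2.2.2.2.2.2.2.2.2.1 (pt [a, b, c] W.z) n01 n02 n12 n08 n18 n28 ⟨rfl, h0⟩ ⟨rfl, h1⟩ ⟨rfl, h2⟩ h3 h4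
  x_some_z_13 := fun {a b c} n01 n02 n12 n08 n18 n28 h0 h1 h2 h3 h4 h5 h6 h7 => h.t.2.2.2.2.2.2.2.2.2.2.2.2.2.1 (pt [a, b, c] W.z) n01 n02 n12 n08 n18 n28 (fun k => h0 k.2) (fun k => h1 k.2) (fun k => h2 k.2) h3 h4 h5 h6 h7
  x_some_z_14 := fun {a b c} n01 n02 n12 n08 n18 n28 h0 h1 h2 h3 h4 h5 h6 h7 => h.t.2.2.2.2.2.2.2.2.2.2.2.2.2.2.1 (pt [a, b, c] W.z) n01 n02 n12 n08 n18 n28 ⟨rfl, h0⟩ ⟨rfl, h1⟩ ⟨rfl, h2⟩ h3 h4 h5 h6 h7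
  x_nb_z_15 := fun {a b c} n01 n02 n12 n08 n18 n28 h0 h1 h2 h3 h4 => h.t.2.2.2.2.2.2.2.2.2.2.2.2.2.2.2.1 (pt [a, b, c] W.z) n01 n02 n12 n08 n18 n28 (fun k => h0 k.2) (fun k => h1 k.2) (fun k => h2 k.2) h3 h4
  x_nb_z_16 := fun {a b c} n01 n02 n12 n08 n18 n28 h0 h1 h2 h3 h4 => h.t.2.2.2.2.2.2.2.2.2.2.2.2.2.2.2.2.1 (pt [a, b, c] W.z) n01 n02 n12 n08 n18 n28 ⟨rfl, h0⟩ ⟨rfl, h1⟩ ⟨rfl, h2⟩ h3 h4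
  x_tr_u_17 := fun {a b c d} n01 n02 n03 n12 n13 n23 n08 n18 n28 n38 h0 h1 h2 h3 h4 h5 h6 => h.t.2.2.2.2.2.2.2.2.2.2.2.2.2.2.2.2.2.1 (pt [a, b, c, d] W.z) n01 n02 n03 n12 n13 n23 n08 n18 n28 n38 (fun k => h0 k.2) (fun k => h1 k.2) (fun k => h2 k.2) (fun k => h3 k.2) h4 h5 h6
  x_tr_u_18 := fun {a b c d} n01 n02 n03 n12 n13 n23 n08 n18 n28 n38 h0 h1 h2 h3 h4 h5 h6 => h.t.2.2.2.2.2.2.2.2.2.2.2.2.2.2.2.2.2.2.1 (pt [a, b, c, d] W.z) n01 n02 n03 n12 n13 n23 n08 n18 n28 n38 ⟨rfl, h0⟩ ⟨rfl, h1⟩ ⟨rfl, h2⟩ ⟨rfl, h3⟩ h4 h5 h6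
  x_tr_x_19 := fun {a b c d} n01 n02 n03 n12 n13 n23 n08 n18 n28 n38 h0 h1 h2 h3 h4 h5 h6 => h.t.2.2.2.2.2.2.2.2.2.2.2.2.2.2.2.2.2.2.2.1 (pt [a, b, c, d] W.z) n01 n02 n03 n12 n13 n23 n08 n18 n28 n38 (fun k => h0 k.2) (fun k => h1 k.2) (fun k => h2 k.2) (fun k => h3 k.2) h4 h5 h6
  x_tr_x_30 := fun {a b c d} n01 n02 n03 n12 n13 n23 n08 n18 n28 n38 h0 h1 h2 h3 h4 h5 h6 => h.t.2.2.2.2.2.2.2.2.2.2.2.2.2.2.2.2.2.2.2.2.1 (pt [a, b, c, d] W.z) n01 n02 n03 n12 n13 n23 n08 n18 n28 n38 ⟨rfl, h0⟩ ⟨rfl, h1⟩ ⟨rfl, h2⟩ ⟨rfl, h3⟩ h4 h5 h6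
  x_tr_y_31 := fun {a b c d} n01 n02 n03 n12 n13 n23 n08 n18 n28 n38 h0 h1 h2 h3 h4 h5 h6 => h.t.2.2.2.2.2.2.2.2.2.2.2.2.2.2.2.2.2.2.2.2.2.1 (pt [a, b, c, d] W.z) n01 n02 n03 n12 n13 n23 n08 n18 n28 n38 (fun k => h0 k.2) (fun k => h1 k.2) (fun k => h2 k.2) (fun k => h3 k.2) h4 h5 h6
  x_tr_y_32 := fun {a b c d} n01 n02 n03 n12 n13 n23 n08 n18 n28 n38 h0 h1 h2 h3 h4 h5 h6 => h.t.2.2.2.2.2.2.2.2.2.2.2.2.2.2.2.2.2.2.2.2.2.2.1 (pt [a, b, c, d] W.z) n01 n02 n03 n12 n13 n23 n08 n18 n28 n38 ⟨rfl, h0⟩ ⟨rfl, h1⟩ ⟨rfl, h2⟩ ⟨rfl, h3⟩ h4 h5 h6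
  x_f5_0_33 := fun {a b c d} n01 n02 n03 n12 n13 n23 n08 n18 n28 n38 h0 h1 h2 h3 h4 h5 h6 => h.t.2.2.2.2.2.2.2.2.2.2.2.2.2.2.2.2.2.2.2.2.2.2.2.1 (pt [a, b, c, d] W.z) n01 n02 n03 n12 n13 n23 n08 n18 n28 n38 (fun k => h0 k.2) (fun k => h1 k.2) (fun k => h2 k.2) (fun k => h3 k.2) h4 h5 h6
  x_f5_0_34 := fun {a b c d} n01 n02 n03 n12 n13 n23 n08 n18 n28 n38 h0 h1 h2 h3 h4 h5 h6 => h.t.2.2.2.2.2.2.2.2.2.2.2.2.2.2.2.2.2.2.2.2.2.2.2.2.1 (pt [a, b, c, d] W.z) n01 n02 n03 n12 n13 n23 n08 n18 n28 n38 ⟨rfl, h0⟩ ⟨rfl, h1⟩ ⟨rfl, h2⟩ ⟨rfl, h3⟩ h4 h5 h6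
  x_f5_1_35 := fun {a b c d} n01 n02 n03 n12 n13 n23 n08 n18 n28 n38 h0 h1 h2 h3 h4 h5 h6 => h.t.2.2.2.2.2.2.2.2.2.2.2.2.2.2.2.2.2.2.2.2.2.2.2.2.2.1 (pt [a, b, c, d] W.z) n01 n02 n03 n12 n13 n23 n08 n18 n28 n38 (fun k => h0 k.2) (fun k => h1 k.2) (fun k => h2 k.2) (fun k => h3 k.2) h4 h5 h6
  x_f5_1_36 := fun {a b c d} n01 n02 n03 n12 n13 n23 n08 n18 n28 n38 h0 h1 h2 h3 h4 h5 h6 => h.t.2.2.2.2.2.2.2.2.2.2.2.2.2.2.2.2.2.2.2.2.2.2.2.2.2.2.1 (pt [a, b, c, d] W.z) n01 n02 n03 n12 n13 n23 n08 n18 n28 n38 (fun k => h0 k.2) (fun k => h1 k.2) (fun k => h2 k.2) ⟨rfl, h3⟩ h4 h5 h6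
  x_f5_1_41 := fun {a b c d} n01 n02 n03 n12 n13 n23 n08 n18 n28 n38 h0 h1 h2 h3 h4 h5 h6 => h.t.2.2.2.2.2.2.2.2.2.2.2.2.2.2.2.2.2.2.2.2.2.2.2.2.2.2.2.1 (pt [a, b, c, d] W.z) n01 n02 n03 n12 n13 n23 n08 n18 n28 n38 ⟨rfl, h0⟩ ⟨rfl, h1⟩ ⟨rfl, h2⟩ (fun k => h3 k.2) h4 h5 h6
  x_f5_3_49 := fun {a b c d} n01 n02 n03 n12 n13 n23 n08 n18 n28 n38 h0 h1 h2 h3 h4 h5 h6 => h.t.2.2.2.2.2.2.2.2.2.2.2.2.2.2.2.2.2.2.2.2.2.2.2.2.2.2.2.2.1 (pt [a, b, c, d] W.z) n01 n02 n03 n12 n13 n23 n08 n18 n28 n38 (fun k => h0 k.2) (fun k => h1 k.2) (fun k => h2 k.2) (fun k => h3 k.2) h4 h5 h6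
  x_f5_3_50 := fun {a b c d} n01 n02 n03 n12 n13 n23 n08 n18 n28 n38 h0 h1 h2 h3 h4 h5 h6 => h.t.2.2.2.2.2.2.2.2.2.2.2.2.2.2.2.2.2.2.2.2.2.2.2.2.2.2.2.2.2.1 (pt [a, b, c, d] W.z) n01 n02 n03 n12 n13 n23 n08 n18 n28 n38 ⟨rfl, h0⟩ ⟨rfl, h1⟩ ⟨rfl, h2⟩ ⟨rfl, h3⟩ h4 h5 h6
  x_f5_4_62 := fun {a b c d} n01 n02 n03 n12 n13 n23 n08 n18 n28 n38 h0 h1 h2 h3 h4 h5 h6 => h.t.2.2.2.2.2.2.2.2.2.2.2.2.2.2.2.2.2.2.2.2.2.2.2.2.2.2.2.2.2.2.1 (pt [a, b, c, d] W.z) n01 n02 n03 n12 n13 n23 n08 n18 n28 n38 ⟨rfl, h0⟩ ⟨rfl, h1⟩ ⟨rfl, h2⟩ ⟨rfl, h3⟩ h4 h5 h6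
  x_fe_a_63 := fun {a b c d e} n01 n02 n03 n04 n12 n13 n14 n23 n24 n34 n08 n18 n28 n38 n48 h0 h1 h2 h3 h4 h5 h6 h7 h8 => h.t.2.2.2.2.2.2.2.2.2.2.2.2.2.2.2.2.2.2.2.2.2.2.2.2.2.2.2.2.2.2.2.1 (pt [a, b, c, d, e] W.z) n01 n02 n03 n04 n12 n13 n14 n23 n24 n34 n08 n18 n28 n38 n48 (fun k => h0 k.2) (fun k => h1 k.2) (fun k => h2 k.2) (fun k => h3 k.2) (fun k => h4 k.2) h5 h6 h7 h8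
  x_fe_a_64 := fun {a b c d e} n01 n02 n03 n04 n12 n13 n14 n23 n24 n34 n08 n18 n28 n38 n48 h0 h1 h2 h3 h4 h5 h6 h7 h8 => h.t.2.2.2.2.2.2.2.2.2.2.2.2.2.2.2.2.2.2.2.2.2.2.2.2.2.2.2.2.2.2.2.2.1 (pt [a, b, c, d, e] W.z) n01 n02 n03 n04 n12 n13 n14 n23 n24 n34 n08 n18 n28 n38 n48 ⟨rfl, h0⟩ ⟨rfl, h1⟩ ⟨rfl, h2⟩ ⟨rfl, h3⟩ ⟨rfl, h4⟩ h5 h6 h7 h8
  x_fe_x_65 := fun {a b c d e} n01 n02 n03 n04 n12 n13 n14 n23 n24 n34 n08 n18 n28 n38 n48 h0 h1 h2 h3 h4 h5 h6 h7 => h.t.2.2.2.2.2.2.2.2.2.2.2.2.2.2.2.2.2.2.2.2.2.2.2.2.2.2.2.2.2.2.2.2.2.1 (pt [a, b, c, d, e] W.z) n01 n02 n03 n04 n12 n13 n14 n23 n24 n34 n08 n18 n28 n38 n48 (fun k => h0 k.2) (fun k => h1 k.2) (fun k => h2 k.2) (fun k => h3 k.2) h4 h5 h6 h7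
  x_fe_x_66 := fun {a b c d e} n01 n02 n03 n04 n12 n13 n14 n23 n24 n34 n08 n18 n28 n38 n48 h0 h1 h2 h3 h4 h5 h6 h7 => h.t.2.2.2.2.2.2.2.2.2.2.2.2.2.2.2.2.2.2.2.2.2.2.2.2.2.2.2.2.2.2.2.2.2.2.1 (pt [a, b, c, d, e] W.z) n01 n02 n03 n04 n12 n13 n14 n23 n24 n34 n08 n18 n28 n38 n48 (fun k => h0 k.2) (fun k => h1 k.2) (fun k => h2 k.2) ⟨rfl, h3⟩ h4 h5 h6 h7
  x_fe_x_76 := fun {a b c d e} n01 n02 n03 n04 n12 n13 n14 n23 n24 n34 n08 n18 n28 n38 n48 h0 h1 h2 h3 h4 h5 h6 h7 => h.t.2.2.2.2.2.2.2.2.2.2.2.2.2.2.2.2.2.2.2.2.2.2.2.2.2.2.2.2.2.2.2.2.2.2.2.1 (pt [a, b, c, d, e] W.z) n01 n02 n03 n04 n12 n13 n14 n23 n24 n34 n08 n18 n28 n38 n48 ⟨rfl, h0⟩ ⟨rfl, h1⟩ ⟨rfl, h2⟩ ⟨rfl, h3⟩ h4 h5 h6 h7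
  o_5_1_0 := fun {a b c d} n01 n02 n03 n12 n13 n23 n08 n18 n28 n38 h0 h1 h2 h3 h4 h5 h6 h7 h8 => h.t.2.2.2.2.2.2.2.2.2.2.2.2.2.2.2.2.2.2.2.2.2.2.2.2.2.2.2.2.2.2.2.2.2.2.2.2.1 (pt [a, b, c, d] W.z) n01 n02 n03 n12 n13 n23 n08 n18 n28 n38 ⟨rfl, h0⟩ (fun k => h1 k.2) (fun k => h2 k.2) (fun k => h3 k.2) h4 h5 h6 h7 h8
  o_5_1_1 := fun {a b c d} n01 n02 n03 n12 n13 n23 n08 n18 n28 n38 h0 h1 h2 h3 h4 h5 h6 h7 h8 h9 h10 => h.t.2.2.2.2.2.2.2.2.2.2.2.2.2.2.2.2.2.2.2.2.2.2.2.2.2.2.2.2.2.2.2.2.2.2.2.2.2.1 (pt [a, b, c, d] W.z) n01 n02 n03 n12 n13 n23 n08 n18 n28 n38 ⟨rfl, h0⟩ (fun k => h1 k.2) (fun k => h2 k.2) (fun k => h3 k.2) h4 h5 h6 h7 h8 h9 h10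
  o_5_2_2 := fun {a b c d} n01 n02 n03 n12 n13 n23 n08 n18 n28 n38 h0 h1 h2 h3 h4 h5 h6 h7 h8 h9 h10 => h.t.2.2.2.2.2.2.2.2.2.2.2.2.2.2.2.2.2.2.2.2.2.2.2.2.2.2.2.2.2.2.2.2.2.2.2.2.2.2.1 (pt [a, b, c, d] W.z) n01 n02 n03 n12 n13 n23 n08 n18 n28 n38 ⟨rfl, h0⟩ ⟨rfl, h1⟩ (fun k => h2 k.2) (fun k => h3 k.2) h4 h5 h6 h7 h8 h9 h10
  o_5_2_3 := fun {a b c d} n01 n02 n03 n12 n13 n23 n08 n18 n28 n38 h0 h1 h2 h3 h4 h5 h6 h7 h8 h9 => h.t.2.2.2.2.2.2.2.2.2.2.2.2.2.2.2.2.2.2.2.2.2.2.2.2.2.2.2.2.2.2.2.2.2.2.2.2.2.2.2.1 (pt [a, b, c, d] W.z) n01 n02 n03 n12 n13 n23 n08 n18 n28 n38 ⟨rfl, h0⟩ ⟨rfl, h1⟩ (fun k => h2 k.2) (fun k => h3 k.2) h4 h5 h6 h7 h8 h9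
  o_5_3_4 := fun {a b c d} n01 n02 n03 n12 n13 n23 n08 n18 n28 n38 h0 h1 h2 h3 h4 h5 h6 h7 h8 h9 h10 => h.t.2.2.2.2.2.2.2.2.2.2.2.2.2.2.2.2.2.2.2.2.2.2.2.2.2.2.2.2.2.2.2.2.2.2.2.2.2.2.2.2.1 (pt [a, b, c, d] W.z) n01 n02 n03 n12 n13 n23 n08 n18 n28 n38 ⟨rfl, h0⟩ ⟨rfl, h1⟩ ⟨rfl, h2⟩ (fun k => h3 k.2) h4 h5 h6 h7 h8 h9 h10
  o_5_3_5 := fun {a b c d} n01 n02 n03 n12 n13 n23 n08 n18 n28 n38 h0 h1 h2 h3 h4 h5 h6 h7 h8 => h.t.2.2.2.2.2.2.2.2.2.2.2.2.2.2.2.2.2.2.2.2.2.2.2.2.2.2.2.2.2.2.2.2.2.2.2.2.2.2.2.2.2.1 (pt [a, b, c, d] W.z) n01 n02 n03 n12 n13 n23 n08 n18 n28 n38 ⟨rfl, h0⟩ ⟨rfl, h1⟩ ⟨rfl, h2⟩ (fun k => h3 k.2) h4 h5 h6 h7 h8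
  o_6_1_6 := fun {a b c d e} n01 n02 n03 n04 n12 n13 n14 n23 n24 n34 n08 n18 n28 n38 n48 h0 h1 h2 h3 h4 h5 h6 h7 h8 h9 h10 h11 h12 h13 => h.t.2.2.2.2.2.2.2.2.2.2.2.2.2.2.2.2.2.2.2.2.2.2.2.2.2.2.2.2.2.2.2.2.2.2.2.2.2.2.2.2.2.2.1 (pt [a, b, c, d, e] W.z) n01 n02 n03 n04 n12 n13 n14 n23 n24 n34 n08 n18 n28 n38 n48 ⟨rfl, h0⟩ (fun k => h1 k.2) (fun k => h2 k.2) (fun k => h3 k.2) (fun k => h4 k.2) h5 h6 h7 h8 h9 h10 h11 h12 h13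
  o_6_1_7 := fun {a b c d e} n01 n02 n03 n04 n12 n13 n14 n23 n24 n34 n08 n18 n28 n38 n48 h0 h1 h2 h3 h4 h5 h6 h7 h8 h9 h10 h11 => h.t.2.2.2.2.2.2.2.2.2.2.2.2.2.2.2.2.2.2.2.2.2.2.2.2.2.2.2.2.2.2.2.2.2.2.2.2.2.2.2.2.2.2.2.1 (pt [a, b, c, d, e] W.z) n01 n02 n03 n04 n12 n13 n14 n23 n24 n34 n08 n18 n28 n38 n48 ⟨rfl, h0⟩ (fun k => h1 k.2) (fun k => h2 k.2) (fun k => h3 k.2) (fun k => h4 k.2) h5 h6 h7 h8 h9 h10 h11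
  o_6_1_8 := fun {a b c d e} n01 n02 n03 n04 n12 n13 n14 n23 n24 n34 n08 n18 n28 n38 n48 h0 h1 h2 h3 h4 h5 h6 h7 h8 h9 h10 h11 => h.t.2.2.2.2.2.2.2.2.2.2.2.2.2.2.2.2.2.2.2.2.2.2.2.2.2.2.2.2.2.2.2.2.2.2.2.2.2.2.2.2.2.2.2.2.1 (pt [a, b, c, d, e] W.z) n01 n02 n03 n04 n12 n13 n14 n23 n24 n34 n08 n18 n28 n38 n48 ⟨rfl, h0⟩ (fun k => h1 k.2) (fun k => h2 k.2) (fun k => h3 k.2) (fun k => h4 k.2) h5 h6 h7 h8 h9 h10 h11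
  o_6_2_9 := fun {a b c d e} n01 n02 n03 n04 n12 n13 n14 n23 n24 n34 n08 n18 n28 n38 n48 h0 h1 h2 h3 h4 h5 h6 h7 h8 h9 h10 h11 h12 h13 => h.t.2.2.2.2.2.2.2.2.2.2.2.2.2.2.2.2.2.2.2.2.2.2.2.2.2.2.2.2.2.2.2.2.2.2.2.2.2.2.2.2.2.2.2.2.2.1 (pt [a, b, c, d, e] W.z) n01 n02 n03 n04 n12 n13 n14 n23 n24 n34 n08 n18 n28 n38 n48 ⟨rfl, h0⟩ ⟨rfl, h1⟩ (fun k => h2 k.2) (fun k => h3 k.2) (fun k => h4 k.2) h5 h6 h7 h8 h9 h10 h11 h12 h13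
  o_6_2_10 := fun {a b c d e} n01 n02 n03 n04 n12 n13 n14 n23 n24 n34 n08 n18 n28 n38 n48 h0 h1 h2 h3 h4 h5 h6 h7 h8 h9 h10 h11 => h.t.2.2.2.2.2.2.2.2.2.2.2.2.2.2.2.2.2.2.2.2.2.2.2.2.2.2.2.2.2.2.2.2.2.2.2.2.2.2.2.2.2.2.2.2.2.2.1 (pt [a, b, c, d, e] W.z) n01 n02 n03 n04 n12 n13 n14 n23 n24 n34 n08 n18 n28 n38 n48 ⟨rfl, h0⟩ ⟨rfl, h1⟩ (fun k => h2 k.2) (fun k => h3 k.2) (fun k => h4 k.2) h5 h6 h7 h8 h9 h10 h11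
  o_6_2_11 := fun {a b c d e} n01 n02 n03 n04 n12 n13 n14 n23 n24 n34 n08 n18 n28 n38 n48 h0 h1 h2 h3 h4 h5 h6 h7 h8 h9 h10 => h.t.2.2.2.2.2.2.2.2.2.2.2.2.2.2.2.2.2.2.2.2.2.2.2.2.2.2.2.2.2.2.2.2.2.2.2.2.2.2.2.2.2.2.2.2.2.2.2.1 (pt [a, b, c, d, e] W.z) n01 n02 n03 n04 n12 n13 n14 n23 n24 n34 n08 n18 n28 n38 n48 ⟨rfl, h0⟩ ⟨rfl, h1⟩ (fun k => h2 k.2) (fun k => h3 k.2) (fun k => h4 k.2) h5 h6 h7 h8 h9 h10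
  o_6_3_13 := fun {a b c d e} n01 n02 n03 n04 n12 n13 n14 n23 n24 n34 n08 n18 n28 n38 n48 h0 h1 h2 h3 h4 h5 h6 h7 h8 h9 h10 h11 h12 h13 => h.t.2.2.2.2.2.2.2.2.2.2.2.2.2.2.2.2.2.2.2.2.2.2.2.2.2.2.2.2.2.2.2.2.2.2.2.2.2.2.2.2.2.2.2.2.2.2.2.2.1 (pt [a, b, c, d, e] W.z) n01 n02 n03 n04 n12 n13 n14 n23 n24 n34 n08 n18 n28 n38 n48 ⟨rfl, h0⟩ ⟨rfl, h1⟩ ⟨rfl, h2⟩ (fun k => h3 k.2) (fun k => h4 k.2) h5 h6 h7 h8 h9 h10 h11 h12 h13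
  o_6_3_14 := fun {a b c d e} n01 n02 n03 n04 n12 n13 n14 n23 n24 n34 n08 n18 n28 n38 n48 h0 h1 h2 h3 h4 h5 h6 h7 h8 h9 h10 => h.t.2.2.2.2.2.2.2.2.2.2.2.2.2.2.2.2.2.2.2.2.2.2.2.2.2.2.2.2.2.2.2.2.2.2.2.2.2.2.2.2.2.2.2.2.2.2.2.2.2.1 (pt [a, b, c, d, e] W.z) n01 n02 n03 n04 n12 n13 n14 n23 n24 n34 n08 n18 n28 n38 n48 ⟨rfl, h0⟩ ⟨rfl, h1⟩ ⟨rfl, h2⟩ (fun k => h3 k.2) (fun k => h4 k.2) h5 h6 h7 h8 h9 h10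
  o_6_3_15 := fun {a b c d e} n01 n02 n03 n04 n12 n13 n14 n23 n24 n34 n08 n18 n28 n38 n48 h0 h1 h2 h3 h4 h5 h6 h7 h8 h9 h10 h11 => h.t.2.2.2.2.2.2.2.2.2.2.2.2.2.2.2.2.2.2.2.2.2.2.2.2.2.2.2.2.2.2.2.2.2.2.2.2.2.2.2.2.2.2.2.2.2.2.2.2.2.2.1 (pt [a, b, c, d, e] W.z) n01 n02 n03 n04 n12 n13 n14 n23 n24 n34 n08 n18 n28 n38 n48 ⟨rfl, h0⟩ ⟨rfl, h1⟩ ⟨rfl, h2⟩ (fun k => h3 k.2) (fun k => h4 k.2) h5 h6 h7 h8 h9 h10 h11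
  o_6_3_16 := fun {a b c d e} n01 n02 n03 n04 n12 n13 n14 n23 n24 n34 n08 n18 n28 n38 n48 h0 h1 h2 h3 h4 h5 h6 h7 h8 h9 h10 h11 => h.t.2.2.2.2.2.2.2.2.2.2.2.2.2.2.2.2.2.2.2.2.2.2.2.2.2.2.2.2.2.2.2.2.2.2.2.2.2.2.2.2.2.2.2.2.2.2.2.2.2.2.2.1 (pt [a, b, c, d, e] W.z) n01 n02 n03 n04 n12 n13 n14 n23 n24 n34 n08 n18 n28 n38 n48 ⟨rfl, h0⟩ ⟨rfl, h1⟩ ⟨rfl, h2⟩ (fun k => h3 k.2) (fun k => h4 k.2) h5 h6 h7 h8 h9 h10 h11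
  o_6_4_17 := fun {a b c d e} n01 n02 n03 n04 n12 n13 n14 n23 n24 n34 n08 n18 n28 n38 n48 h0 h1 h2 h3 h4 h5 h6 h7 h8 h9 h10 h11 h12 h13 => h.t.2.2.2.2.2.2.2.2.2.2.2.2.2.2.2.2.2.2.2.2.2.2.2.2.2.2.2.2.2.2.2.2.2.2.2.2.2.2.2.2.2.2.2.2.2.2.2.2.2.2.2.2.1 (pt [a, b, c, d, e] W.z) n01 n02 n03 n04 n12 n13 n14 n23 n24 n34 n08 n18 n28 n38 n48 ⟨rfl, h0⟩ ⟨rfl, h1⟩ ⟨rfl, h2⟩ ⟨rfl, h3⟩ (fun k => h4 k.2) h5 h6 h7 h8 h9 h10 h11 h12 h13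
  o_6_4_18 := fun {a b c d e} n01 n02 n03 n04 n12 n13 n14 n23 n24 n34 n08 n18 n28 n38 n48 h0 h1 h2 h3 h4 h5 h6 h7 h8 h9 h10 h11 => h.t.2.2.2.2.2.2.2.2.2.2.2.2.2.2.2.2.2.2.2.2.2.2.2.2.2.2.2.2.2.2.2.2.2.2.2.2.2.2.2.2.2.2.2.2.2.2.2.2.2.2.2.2.2.1 (pt [a, b, c, d, e] W.z) n01 n02 n03 n04 n12 n13 n14 n23 n24 n34 n08 n18 n28 n38 n48 ⟨rfl, h0⟩ ⟨rfl, h1⟩ ⟨rfl, h2⟩ ⟨rfl, h3⟩ (fun k => h4 k.2) h5 h6 h7 h8 h9 h10 h11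
  o_6_4_19 := fun {a b c d e} n01 n02 n03 n04 n12 n13 n14 n23 n24 n34 n08 n18 n28 n38 n48 h0 h1 h2 h3 h4 h5 h6 h7 h8 h9 h10 h11 => h.t.2.2.2.2.2.2.2.2.2.2.2.2.2.2.2.2.2.2.2.2.2.2.2.2.2.2.2.2.2.2.2.2.2.2.2.2.2.2.2.2.2.2.2.2.2.2.2.2.2.2.2.2.2.2.1 (pt [a, b, c, d, e] W.z) n01 n02 n03 n04 n12 n13 n14 n23 n24 n34 n08 n18 n28 n38 n48 ⟨rfl, h0⟩ ⟨rfl, h1⟩ ⟨rfl, h2⟩ ⟨rfl, h3⟩ (fun k => h4 k.2) h5 h6 h7 h8 h9 h10 h11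
  o_7_3_20 := fun {a b c d e f} n01 n02 n03 n04 n05 n12 n13 n14 n15 n23 n24 n25 n34 n35 n45 n08 n18 n28 n38 n48 n58 h0 h1 h2 h3 h4 h5 h6 h7 h8 h9 h10 h11 h12 h13 h14 => h.t.2.2.2.2.2.2.2.2.2.2.2.2.2.2.2.2.2.2.2.2.2.2.2.2.2.2.2.2.2.2.2.2.2.2.2.2.2.2.2.2.2.2.2.2.2.2.2.2.2.2.2.2.2.2.2.1 (pt [a, b, c, d, e, f] W.z) n01 n02 n03 n04 n05 n12 n13 n14 n15 n23 n24 n25 n34 n35 n45 n08 n18 n28 n38 n48 n58 ⟨rfl, h0⟩ ⟨rfl, h1⟩ ⟨rfl, h2⟩ (fun k => h3 k.2) (fun k => h4 k.2) (fun k => h5 k.2) h6 h7 h8 h9 h10 h11 h12 h13 h14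
  o_7_3_22 := fun {a b c d e f} n01 n02 n03 n04 n05 n12 n13 n14 n15 n23 n24 n25 n34 n35 n45 n08 n18 n28 n38 n48 n58 h0 h1 h2 h3 h4 h5 h6 h7 h8 h9 h10 h11 h12 h13 h14 => h.t.2.2.2.2.2.2.2.2.2.2.2.2.2.2.2.2.2.2.2.2.2.2.2.2.2.2.2.2.2.2.2.2.2.2.2.2.2.2.2.2.2.2.2.2.2.2.2.2.2.2.2.2.2.2.2.2.1 (pt [a, b, c, d, e, f] W.z) n01 n02 n03 n04 n05 n12 n13 n14 n15 n23 n24 n25 n34 n35 n45 n08 n18 n28 n38 n48 n58 ⟨rfl, h0⟩ ⟨rfl, h1⟩ ⟨rfl, h2⟩ (fun k => h3 k.2) (fun k => h4 k.2) (fun k => h5 k.2) h6 h7 h8 h9 h10 h11 h12 h13 h14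
  o_7_3_23 := fun {a b c d e f} n01 n02 n03 n04 n05 n12 n13 n14 n15 n23 n24 n25 n34 n35 n45 n08 n18 n28 n38 n48 n58 h0 h1 h2 h3 h4 h5 h6 h7 h8 h9 h10 h11 h12 h13 => h.t.2.2.2.2.2.2.2.2.2.2.2.2.2.2.2.2.2.2.2.2.2.2.2.2.2.2.2.2.2.2.2.2.2.2.2.2.2.2.2.2.2.2.2.2.2.2.2.2.2.2.2.2.2.2.2.2.2.1 (pt [a, b, c, d, e, f] W.z) n01 n02 n03 n04 n05 n12 n13 n14 n15 n23 n24 n25 n34 n35 n45 n08 n18 n28 n38 n48 n58 ⟨rfl, h0⟩ ⟨rfl, h1⟩ ⟨rfl, h2⟩ (fun k => h3 k.2) (fun k => h4 k.2) (fun k => h5 k.2) h6 h7 h8 h9 h10 h11 h12 h13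

end Pool.Agent.SOU
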