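import Pool.Agent.SOU.TC
import Pool.Agent.SOU.Pl

/-! Project SOU (MP_66ba69_lc, mixed insertion of a centre), module Sq: simple properties of the new quartets. -/

set_option autoImplicit false

namespace Pool.Agent.SOU

open Pool.Agent.RUP Pool.Agent.SOQ

variable {V : Type} {W : Mw V} {a b c x y w : V}

/-- X z b | a c and its other forms -/
theorem Or3.hx (o : Or3 W a b c) : CrF W.f W.z b a c := o.2.2.2.2.1

theorem Or3.zb (o : Or3 W a b c) : W.G.Adj W.z b := o.2.2.2.2.2.1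

theorem Or3.ac (o : Or3 W a b c) : W.G.Adj a c := o.2.2.2.2.2.2

theorem Or3.za (o : Or3 W a b c) (h : W.Bs) : W.G.Adj W.z a := (h.zl o.1 o.2.1 o.2.2.2.1 o.ac).1

theorem Or3.zc (o : Or3 W a b c) (h : W.Bs) : W.G.Adj W.z c := (h.zl o.1 o.2.1 o.2.2.2.1 o.ac).2

theorem Or3.anz (o : Or3 W a b c) : a ≠ W.z := o.d4.2.1 |> fun _ => o.d4.1.symm

/-- value two: the points `b`, `c` are adjacent -/
theorem ff_bc (h : W.Hy) (o : Or3 W a b c) (hf : FF h.bs a b c) : W.G.Adj b c := by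
  by_contra hn
  have hd := o.d4
  have nd : [W.z, a, b, c].Nodup := mk3 hd.2.2.2.1 hd.2.2.2.2.1 hd.2.2.2.2.2 hd.1.symm hd.2.1.symm hd.2.2.1.symm
  rcases hf with ⟨hb, k⟩ | ⟨hb, k⟩
  · have hr : Hit (mrel0 h.bs) (pt [a, b, c] W.z) rf1 := Classical.byContradiction fun hn1 =>
      of_not_hit hn1 hd.2.2.2.1 hd.2.2.2.2.1 hd.2.2.2.2.2 hd.1.symm hd.2.1.symm hd.2.2.1.symm ⟨rfl, o.1⟩ (fun k => hb k.2)
        (fun k => o.2.1 k.2) o.hx o.zb o.ac hn
    exact R1 h nd hr k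
  · have hr : Hit (mrel0 h.bs) (pt [a, b, c] W.z) rf3 := Classical.byContradiction fun hn1 =>
      of_not_hit hn1 hd.2.2.2.1 hd.2.2.2.2.1 hd.2.2.2.2.2 hd.1.symm hd.2.1.symm hd.2.2.1.symm ⟨rfl, o.1⟩ ⟨rfl, hb⟩
        (fun k => o.2.1 k.2) o.hx o.zb o.ac hn
    exact R3 h nd hr k

/-- value one: the points `a`, `b` are adjacent -/
theorem ff_ab (h : W.Hy) (o : Or3 W a b c) (hf : ¬ FF h.bs a b c) : W.G.Adj a b := by
  by_contra hn
  have hd := o.d4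
  have nd : [W.z, a, b, c].Nodup := mk3 hd.2.2.2.1 hd.2.2.2.2.1 hd.2.2.2.2.2 hd.1.symm hd.2.1.symm hd.2.2.1.symm
  refine hf ?_
  by_cases hb : W.R b
  · have hr : Hit (mrel0 h.bs) (pt [a, b, c] W.z) rf2 := Classical.byContradiction fun hn1 =>
      of_not_hit hn1 hd.2.2.2.1 hd.2.2.2.2.1 hd.2.2.2.2.2 hd.1.symm hd.2.1.symm hd.2.2.1.symm ⟨rfl, o.1⟩ ⟨rfl, hb⟩
        (fun k => o.2.1 k.2) o.hx o.zb o.ac hn
    exact (ff2 hb).2 (R2 h nd hr)
  · have hr : Hit (mrel0 h.bs) (pt [a, b, c] W.z) rf0 := Classical.byContradiction fun hn1 =>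
      of_not_hit hn1 hd.2.2.2.1 hd.2.2.2.2.1 hd.2.2.2.2.2 hd.1.symm hd.2.1.symm hd.2.2.1.symm ⟨rfl, o.1⟩ (fun k => hb k.2)
        (fun k => o.2.1 k.2) o.hx o.zb o.ac hn
    exact (ff1 hb).2 (R0 h nd hr)

theorem tm_sq (h : W.Hy) (ht : TM h.bs x y w) : W.G.Adj W.z y ∧ W.G.Adj x y := by
  rcases ht with ⟨o, k⟩ | ⟨o, k⟩ | ⟨o, k⟩ | ⟨o, k⟩
  · exact ⟨o.za h.bs, o.ac.symm⟩
  · exact ⟨o.zb, (ff_bc h o k).symm⟩
  · exact ⟨o.zb, ff_ab h o k⟩
  · exact ⟨o.zc h.bs, o.ac⟩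

theorem tm_nc (h : W.Bs) (ht : TM h x y w) : ¬ CrF W.f W.z x y w := by
  have hX := crF_sepr h.inj
  intro hx
  rcases ht with ⟨o, k⟩ | ⟨o, k⟩ | ⟨o, k⟩ | ⟨o, k⟩
  · -- o.hx : z w | y x
    exact hX.amo (hX.comm (hX.swap (hX.comm o.hx))) (hX.comm (hX.swap (hX.comm hx)))
  · exact hX.amo (hX.comm (hX.swap (hX.comm o.hx))) hx
  · exact hX.amo hx o.hx
  · exact hX.amo (hX.comm (hX.swap (hX.comm hx))) o.hx

/-- the order of a mixed crossing triple -/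
theorem or3_of (h : W.Bs) (hm : Mx W x y w) (hd : D4 W.z x y w) (e1 : W.G.Adj W.z x) (e2 : W.G.Adj y w)
    (hx : CrF W.f W.z x y w) : Or3 W y x w ∨ Or3 W w x y := by
  have hX := crF_sepr h.inj
  by_cases hy : W.R y
  · by_cases hw : W.R w
    · have hnx : ¬ W.R x := by unfold Mx at hm; tauto
      exact (h.cut1 hy hw h.zR hnx (hX.comm hx)).elim
    · exact Or.inl ⟨hy, hw, hd.1.symm, hd.2.2.1.symm, hx, e1, e2⟩
  · by_cases hw : W.R w
    · exact Or.inr ⟨hw, hy, hd.1.symm, hd.2.1.symm, hX.comm (hX.swap (hX.comm hx)), e1, e2.symm⟩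
    · have hrx : W.R x := by unfold Mx at hm; tauto
      exact (h.cut2 hrx hy hw hd.2.1.symm hd.2.2.1.symm hx).elim

theorem nT_h (h : W.Hy) : THs (mrel h.bs (Tn_sy h.bs)) W.z nT := by
  have hX := crF_sepr h.bs.inj
  have hp := h.pl
  refine .cons (fun d n01 n02 n12 n08 n18 n28 h0 h1 => ?_) (.cons (fun d n01 n02 n12 n08 n18 n28 h0 h1 => ?_)
    (.cons (fun d n01 n02 n12 n08 n18 n28 h0 h1 => ?_) (.cons (fun d n01 n02 n12 n08 n18 n28 h0 h1 h2 h3 h4 => ?_)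
    (.cons (fun d n01 n02 n12 n08 n18 n28 h0 h1 => ?_) (.cons (fun d n01 n02 n12 n08 n18 n28 h0 h1 h2 h3 h4 => ?_)
    (.cons (fun d n01 n02 n12 n08 n18 n28 h0 h1 h2 h3 h4 => ?_) (.cons (fun d n01 n02 n12 n08 n18 n28 h0 h1 h2 h3 h4 => ?_)
    (.cons (fun d n01 n02 n12 n08 n18 n28 h0 h1 h2 h3 h4 => ?_) .nil))))))))
  all_goals have hd : D4 W.z (d 0) (d 1) (d 2) := ⟨n08.symm, n18.symm, n28.symm, n01, n02, n12⟩
  · change Tn h.bs W.z (d 0) (d 1) (d 2) at h0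
    change CrF W.f W.z (d 0) (d 1) (d 2) at h1
    by_cases hm : Mx W (d 0) (d 1) (d 2)
    · exact tm_nc h.bs ((tn_mix hd hm).1 h0) h1
    · have h2 := (tn_one hd hm).1 h0
      by_cases hr : W.R (d 0)
      · exact hp.x_nc_z_8 n01 n02 n12 n08 n18 n28 hr (by unfold Mx at hm; tauto) (by unfold Mx at hm; tauto) h2 h1
      · exact hp.x_nc_z_7 n01 n02 n12 n08 n18 n28 hr (by unfold Mx at hm; tauto) (by unfold Mx at hm; tauto) h2 h1
  · change Tn h.bs W.z (d 0) (d 1) (d 2) at h0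
    change ¬ W.G.Adj W.z (d 1) at h1
    by_cases hm : Mx W (d 0) (d 1) (d 2)
    · exact h1 (tm_sq h ((tn_mix hd hm).1 h0)).1
    · have h2 := (tn_one hd hm).1 h0
      by_cases hr : W.R (d 0)
      · exact hp.x_sq_z_10 n01 n02 n12 n08 n18 n28 hr (by unfold Mx at hm; tauto) (by unfold Mx at hm; tauto) h2 h1
      · exact hp.x_sq_z_9 n01 n02 n12 n08 n18 n28 hr (by unfold Mx at hm; tauto) (by unfold Mx at hm; tauto) h2 h1
  · change Tn h.bs W.z (d 0) (d 1) (d 2) at h0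
    change ¬ W.G.Adj (d 0) (d 1) at h1
    by_cases hm : Mx W (d 0) (d 1) (d 2)
    · exact h1 (tm_sq h ((tn_mix hd hm).1 h0)).2
    · have h2 := (tn_one hd hm).1 h0
      by_cases hr : W.R (d 0)
      · exact hp.x_sq_z2_12 n01 n02 n12 n08 n18 n28 hr (by unfold Mx at hm; tauto) (by unfold Mx at hm; tauto) h2 h1
      · exact hp.x_sq_z2_11 n01 n02 n12 n08 n18 n28 hr (by unfold Mx at hm; tauto) (by unfold Mx at hm; tauto) h2 h1
  · change W.G.Adj W.z (d 0) at h0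
    change W.G.Adj (d 1) (d 2) at h1
    change CrF W.f W.z (d 0) (d 1) (d 2) at h2
    change ¬ Tn h.bs W.z (d 1) (d 0) (d 2) at h3
    change ¬ Tn h.bs W.z (d 2) (d 0) (d 1) at h4
    have hd1 : D4 W.z (d 1) (d 0) (d 2) := ⟨n18.symm, n08.symm, n28.symm, n01.symm, n12, n02⟩
    have hd2 : D4 W.z (d 2) (d 0) (d 1) := ⟨n28.symm, n08.symm, n18.symm, n02.symm, n12.symm, n01⟩
    by_cases hm : Mx W (d 0) (d 1) (d 2)
    · rcases or3_of h.bs hm hd h0 h1 h2 with o | o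
      · by_cases k : FF h.bs (d 1) (d 0) (d 2)
        · exact h4 (Tn.s3 ((tnF o).2 k))
        · exact h3 ((tnG o).2 k)
      · by_cases k : FF h.bs (d 2) (d 0) (d 1)
        · exact h3 (Tn.s3 ((tnF o).2 k))
        · exact h4 ((tnG o).2 k)
    · have g3 := fun k => h3 ((tn_one hd1 (fun k' => hm k'.s12)).2 k)
      have g4 := fun k => h4 ((tn_one hd2 (fun k' => hm (k'.s12.s23))).2 k)
      by_cases hr : W.R (d 0)
      · exact hp.x_some_z_14 n01 n02 n12 n08 n18 n28 hr (by unfold Mx at hm; tauto) (by unfold Mx at hm; tauto) h0 h1 h2 g3 g4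
      · exact hp.x_some_z_13 n01 n02 n12 n08 n18 n28 hr (by unfold Mx at hm; tauto) (by unfold Mx at hm; tauto) h0 h1 h2 g3 g4
  · change Tn h.bs W.z (d 0) (d 1) (d 2) at h0
    change Tn h.bs W.z (d 1) (d 0) (d 2) at h1
    have hd1 : D4 W.z (d 1) (d 0) (d 2) := ⟨n18.symm, n08.symm, n28.symm, n01.symm, n12, n02⟩
    by_cases hm : Mx W (d 0) (d 1) (d 2)
    · have k0 := (tn_mix hd hm).1 h0
      have k1 := (tn_mix hd1 hm.s12).1 h1
      -- both orders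
      have am : ∀ {a b c : V}, Or3 W a b c → Or3 W b a c → False := fun o o' => hX.amo o.hx o'.hx
      have am2 : ∀ {a b c : V}, Or3 W a b c → Or3 W a c b → False := fun o o' =>
        hX.amo (hX.comm (hX.swap (hX.comm o.hx))) (hX.comm (hX.swap (hX.comm o'.hx)))
      have as : ∀ {a b c : V}, Or3 W a b c → ∀ {b' a' : V}, Or3 W c a' b' → False := fun o _ _ o' => o.2.1 o'.1
      have as2 : ∀ {a b c : V}, Or3 W a b c → ∀ {b' c' : V}, Or3 W c' b' a → False := fun o _ _ o' => o'.2.1 o.1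
      rcases k0 with ⟨o, k⟩ | ⟨o, k⟩ | ⟨o, k⟩ | ⟨o, k⟩ <;> rcases k1 with ⟨o', k'⟩ | ⟨o', k'⟩ | ⟨o', k'⟩ | ⟨o', k'⟩ <;>
        first
        | exact am o o'
        | exact am o' o
        | exact am2 o o'
        | exact am2 o' o
        | exact as o o'
        | exact as o' o
        | exact as2 o o'
        | exact as2 o' o
        | exact k' k
        | exact k k'
    · have k0 := (tn_one hd hm).1 h0
      have k1 := (tn_one hd1 (fun k' => hm k'.s12)).1 h1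
      by_cases hr : W.R (d 0)
      · exact hp.x_nb_z_16 n01 n02 n12 n08 n18 n28 hr (by unfold Mx at hm; tauto) (by unfold Mx at hm; tauto) k0 k1
      · exact hp.x_nb_z_15 n01 n02 n12 n08 n18 n28 hr (by unfold Mx at hm; tauto) (by unfold Mx at hm; tauto) k0 k1
  · have hm : ¬ Mx W (d 0) (d 1) (d 2) := fun k => k.2.elim (fun k => k h0.2) (fun k => k.elim (fun k => k h1.2) (fun k => k h2.2))
    exact h4 ((tn_one hd hm).2 h3)
  · have hm : ¬ Mx W (d 0) (d 1) (d 2) := fun k => k.2.elim (fun k => k h0.2) (fun k => k.elim (fun k => k h1.2) (fun k => k h2.2))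
    exact h3 ((tn_one hd hm).1 h4)
  · have hm : ¬ Mx W (d 0) (d 1) (d 2) := fun k => k.1.elim (ngR h0) (fun k => k.elim (ngR h1) (ngR h2))
    exact h4 ((tn_one hd hm).2 h3)
  · have hm : ¬ Mx W (d 0) (d 1) (d 2) := fun k => k.1.elim (ngR h0) (fun k => k.elim (ngR h1) (ngR h2))
    exact h3 ((tn_one hd hm).1 h4)

theorem nT_ph (h : W.Hy) {p : Nat → V} (h0 : p 0 = W.z) (k : Nat) : PHs (mrel h.bs (Tn_sy h.bs)) p k nT := by
  rw [← nT_z]
  exact (nT_h h).ph h0 k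

theorem kA_ph (h : W.Hy) {p : Nat → V} (h0 : p 0 = W.z) (k : Nat) : PHs (mrel h.bs (Tn_sy h.bs)) p k kA := by
  rw [← kA_z]
  exact (kA_h h).ph h0 k

end Pool.Agent.SOU
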