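import Pool.Agent.SOU.Defs

/-! Project SOU (MP_66ba69_lc, mixed insertion): templates (generated). -/

set_option autoImplicit false
set_option maxRecDepth 100000
set_option linter.unusedVariables false

namespace Pool.Agent.SOU

open Pool.Agent.RUP Pool.Agent.SOQ

section
variable {V : Type}

theorem ngR {P : Prop} {a : V} (h : ¬ (a = a ∧ P)) : ¬ P := fun k => h ⟨rfl, k⟩

/-- order, cuts, P-cuts -/
def mB : List Tm := [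
  ⟨4, [], [(0, 1), (0, 2), (0, 3), (1, 2), (1, 3), (2, 3)], [.q true 0 0 1 2 3, .q true 0 0 2 1 3, .q true 0 0 3 1 2]⟩,
  ⟨4, [], [(0, 1), (0, 2), (0, 3), (1, 2), (1, 3), (2, 3)], [.q false 0 0 1 2 3, .q false 0 0 2 1 3]⟩,
  ⟨5, [], [(0, 1), (0, 2), (0, 3), (0, 4), (1, 2), (1, 3), (1, 4), (2, 3), (2, 4), (3, 4)], [.q false 0 0 1 2 3, .q false 0 0 1 3 4, .q false 0 0 1 2 4]⟩,
  ⟨5, [], [(0, 1), (0, 2), (0, 3), (0, 4), (1, 2), (1, 3), (1, 4), (2, 3), (2, 4), (3, 4)], [.q false 0 0 1 2 3, .q true 0 0 1 3 4, .q true 0 0 1 2 4]⟩,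
  ⟨4, [], [(0, 1), (0, 2), (0, 3), (1, 2), (1, 3), (2, 3), (0, 8), (1, 8), (2, 8), (3, 8)], [.b false 2 0 0, .b false 2 1 1, .b true 2 2 2, .b true 2 3 3, .q false 0 0 1 2 3]⟩,
  ⟨3, [], [(0, 1), (0, 2), (1, 2), (0, 8), (1, 8), (2, 8)], [.b false 2 0 0, .b true 2 1 1, .b true 2 2 2, .q false 0 8 0 1 2]⟩,
  ⟨3, [], [(0, 1), (0, 2), (1, 2), (0, 8), (1, 8), (2, 8)], [.b true 2 0 0, .b false 2 1 1, .b false 2 2 2, .q false 0 8 0 1 2]⟩,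
  ⟨4, [], [(0, 1), (0, 2), (0, 3), (1, 2), (1, 3), (2, 3), (0, 8), (1, 8), (2, 8), (3, 8)], [.b false 2 0 0, .b false 2 1 1, .b true 2 2 2, .b true 2 3 3, .b false 0 0 2, .b false 0 1 3, .b true 0 0 1, .b true 0 0 3]⟩,
  ⟨4, [], [(0, 1), (0, 2), (0, 3), (1, 2), (1, 3), (2, 3), (0, 8), (1, 8), (2, 8), (3, 8)], [.b false 2 0 0, .b false 2 1 1, .b true 2 2 2, .b true 2 3 3, .b false 0 0 2, .b false 0 1 3, .b true 0 2 3, .b true 0 0 3]⟩,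
  ⟨2, [], [(0, 1), (0, 8), (1, 8)], [.b false 2 0 0, .b true 2 1 1, .b false 0 0 1, .b true 0 8 0]⟩,
  ⟨2, [], [(0, 1), (0, 8), (1, 8)], [.b false 2 0 0, .b true 2 1 1, .b false 0 0 1, .b true 0 8 1]⟩,
  ⟨3, [], [(0, 1), (0, 2), (1, 2), (0, 8), (1, 8), (2, 8)], [.b false 2 0 0, .b false 2 1 1, .b true 2 2 2, .b false 0 8 0, .b false 0 1 2, .b true 0 0 1, .b true 0 0 2]⟩,
  ⟨3, [], [(0, 1), (0, 2), (1, 2), (0, 8), (1, 8), (2, 8)], [.b true 2 0 0, .b true 2 1 1, .b false 2 2 2, .b false 0 8 0, .b false 0 1 2, .b true 0 0 1, .b true 0 0 2]⟩]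

/-- rules for the given structure -/
def mT : List Tm := [
  ⟨4, [], [(0, 1), (0, 2), (0, 3), (1, 2), (1, 3), (2, 3), (0, 8), (1, 8), (2, 8), (3, 8)], [.q false 1 0 1 2 3, .q false 0 0 1 2 3]⟩,
  ⟨4, [], [(0, 1), (0, 2), (0, 3), (1, 2), (1, 3), (2, 3), (0, 8), (1, 8), (2, 8), (3, 8)], [.q false 1 0 1 2 3, .b true 0 0 2]⟩,
  ⟨4, [], [(0, 1), (0, 2), (0, 3), (1, 2), (1, 3), (2, 3), (0, 8), (1, 8), (2, 8), (3, 8)], [.b false 0 0 1, .b false 0 2 3, .q false 0 0 1 2 3, .q true 1 0 2 1 3, .q true 1 0 3 1 2]⟩,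
  ⟨4, [], [(0, 1), (0, 2), (0, 3), (1, 2), (1, 3), (2, 3), (0, 8), (1, 8), (2, 8), (3, 8)], [.q false 1 0 1 2 3, .q false 1 0 2 1 3]⟩,
  ⟨5, [], [(0, 1), (0, 2), (0, 3), (0, 4), (1, 2), (1, 3), (1, 4), (2, 3), (2, 4), (3, 4), (0, 8), (1, 8), (2, 8), (3, 8), (4, 8)], [.q false 1 0 1 2 3, .q false 1 0 1 3 4, .q true 1 0 1 2 4]⟩,
  ⟨5, [], [(0, 1), (0, 2), (0, 3), (0, 4), (1, 2), (1, 3), (1, 4), (2, 3), (2, 4), (3, 4), (0, 8), (1, 8), (2, 8), (3, 8), (4, 8)], [.q false 1 0 1 2 3, .q false 1 0 3 2 4, .q true 1 0 1 2 4]⟩,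
  ⟨6, [], [(0, 1), (0, 2), (0, 3), (0, 4), (0, 5), (1, 2), (1, 3), (1, 4), (1, 5), (2, 3), (2, 4), (2, 5), (3, 4), (3, 5), (4, 5), (0, 8), (1, 8), (2, 8), (3, 8), (4, 8), (5, 8)], [.q false 1 0 1 2 3, .q false 1 0 4 2 5, .q true 1 0 1 2 5, .q true 1 0 4 2 3]⟩,
  ⟨3, [], [(0, 1), (0, 2), (1, 2), (0, 8), (1, 8), (2, 8)], [.b true 2 0 0, .b true 2 1 1, .b true 2 2 2, .q false 1 8 0 1 2, .q false 0 8 0 1 2]⟩,
  ⟨3, [], [(0, 1), (0, 2), (1, 2), (0, 8), (1, 8), (2, 8)], [.b false 2 0 0, .b false 2 1 1, .b false 2 2 2, .q false 1 8 0 1 2, .q false 0 8 0 1 2]⟩,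
  ⟨3, [], [(0, 1), (0, 2), (1, 2), (0, 8), (1, 8), (2, 8)], [.b true 2 0 0, .b true 2 1 1, .b true 2 2 2, .q false 1 8 0 1 2, .b true 0 8 1]⟩,
  ⟨3, [], [(0, 1), (0, 2), (1, 2), (0, 8), (1, 8), (2, 8)], [.b false 2 0 0, .b false 2 1 1, .b false 2 2 2, .q false 1 8 0 1 2, .b true 0 8 1]⟩,
  ⟨3, [], [(0, 1), (0, 2), (1, 2), (0, 8), (1, 8), (2, 8)], [.b true 2 0 0, .b true 2 1 1, .b true 2 2 2, .q false 1 8 0 1 2, .b true 0 0 1]⟩,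
  ⟨3, [], [(0, 1), (0, 2), (1, 2), (0, 8), (1, 8), (2, 8)], [.b false 2 0 0, .b false 2 1 1, .b false 2 2 2, .q false 1 8 0 1 2, .b true 0 0 1]⟩,
  ⟨3, [], [(0, 1), (0, 2), (1, 2), (0, 8), (1, 8), (2, 8)], [.b true 2 0 0, .b true 2 1 1, .b true 2 2 2, .b false 0 8 0, .b false 0 1 2, .q false 0 8 0 1 2, .q true 1 8 1 0 2, .q true 1 8 2 0 1]⟩,
  ⟨3, [], [(0, 1), (0, 2), (1, 2), (0, 8), (1, 8), (2, 8)], [.b false 2 0 0, .b false 2 1 1, .b false 2 2 2, .b false 0 8 0, .b false 0 1 2, .q false 0 8 0 1 2, .q true 1 8 1 0 2, .q true 1 8 2 0 1]⟩,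
  ⟨3, [], [(0, 1), (0, 2), (1, 2), (0, 8), (1, 8), (2, 8)], [.b true 2 0 0, .b true 2 1 1, .b true 2 2 2, .q false 1 8 0 1 2, .q false 1 8 1 0 2]⟩,
  ⟨3, [], [(0, 1), (0, 2), (1, 2), (0, 8), (1, 8), (2, 8)], [.b false 2 0 0, .b false 2 1 1, .b false 2 2 2, .q false 1 8 0 1 2, .q false 1 8 1 0 2]⟩,
  ⟨4, [], [(0, 1), (0, 2), (0, 3), (1, 2), (1, 3), (2, 3), (0, 8), (1, 8), (2, 8), (3, 8)], [.b true 2 0 0, .b true 2 1 1, .b true 2 2 2, .b true 2 3 3, .q false 1 8 0 1 2, .q false 1 8 0 2 3, .q true 1 8 0 1 3]⟩,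
  ⟨4, [], [(0, 1), (0, 2), (0, 3), (1, 2), (1, 3), (2, 3), (0, 8), (1, 8), (2, 8), (3, 8)], [.b false 2 0 0, .b false 2 1 1, .b false 2 2 2, .b false 2 3 3, .q false 1 8 0 1 2, .q false 1 8 0 2 3, .q true 1 8 0 1 3]⟩,
  ⟨4, [], [(0, 1), (0, 2), (0, 3), (1, 2), (1, 3), (2, 3), (0, 8), (1, 8), (2, 8), (3, 8)], [.b true 2 0 0, .b true 2 1 1, .b true 2 2 2, .b true 2 3 3, .q false 1 0 1 8 2, .q false 1 0 1 2 3, .q true 1 0 1 8 3]⟩,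
  ⟨4, [], [(0, 1), (0, 2), (0, 3), (1, 2), (1, 3), (2, 3), (0, 8), (1, 8), (2, 8), (3, 8)], [.b false 2 0 0, .b false 2 1 1, .b false 2 2 2, .b false 2 3 3, .q false 1 0 1 8 2, .q false 1 0 1 2 3, .q true 1 0 1 8 3]⟩,
  ⟨4, [], [(0, 1), (0, 2), (0, 3), (1, 2), (1, 3), (2, 3), (0, 8), (1, 8), (2, 8), (3, 8)], [.b true 2 0 0, .b true 2 1 1, .b true 2 2 2, .b true 2 3 3, .q false 1 0 1 2 8, .q false 1 0 1 8 3, .q true 1 0 1 2 3]⟩,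
  ⟨4, [], [(0, 1), (0, 2), (0, 3), (1, 2), (1, 3), (2, 3), (0, 8), (1, 8), (2, 8), (3, 8)], [.b false 2 0 0, .b false 2 1 1, .b false 2 2 2, .b false 2 3 3, .q false 1 0 1 2 8, .q false 1 0 1 8 3, .q true 1 0 1 2 3]⟩,
  ⟨4, [], [(0, 1), (0, 2), (0, 3), (1, 2), (1, 3), (2, 3), (0, 8), (1, 8), (2, 8), (3, 8)], [.b true 2 0 0, .b true 2 1 1, .b true 2 2 2, .b true 2 3 3, .q false 1 8 0 1 2, .q false 1 8 2 1 3, .q true 1 8 0 1 3]⟩,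
  ⟨4, [], [(0, 1), (0, 2), (0, 3), (1, 2), (1, 3), (2, 3), (0, 8), (1, 8), (2, 8), (3, 8)], [.b false 2 0 0, .b false 2 1 1, .b false 2 2 2, .b false 2 3 3, .q false 1 8 0 1 2, .q false 1 8 2 1 3, .q true 1 8 0 1 3]⟩,
  ⟨4, [], [(0, 1), (0, 2), (0, 3), (1, 2), (1, 3), (2, 3), (0, 8), (1, 8), (2, 8), (3, 8)], [.b true 2 0 0, .b true 2 1 1, .b true 2 2 2, .b true 2 3 3, .q false 1 0 8 1 2, .q false 1 0 2 1 3, .q true 1 0 8 1 3]⟩,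
  ⟨4, [], [(0, 1), (0, 2), (0, 3), (1, 2), (1, 3), (2, 3), (0, 8), (1, 8), (2, 8), (3, 8)], [.b true 2 0 0, .b true 2 1 1, .b true 2 2 2, .b false 2 3 3, .q false 1 0 8 1 2, .q false 1 0 2 1 3, .q false 0 0 8 1 3]⟩,
  ⟨4, [], [(0, 1), (0, 2), (0, 3), (1, 2), (1, 3), (2, 3), (0, 8), (1, 8), (2, 8), (3, 8)], [.b false 2 0 0, .b false 2 1 1, .b false 2 2 2, .b true 2 3 3, .q false 1 0 8 1 2, .q false 1 0 2 1 3, .q false 0 0 8 1 3]⟩,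
  ⟨4, [], [(0, 1), (0, 2), (0, 3), (1, 2), (1, 3), (2, 3), (0, 8), (1, 8), (2, 8), (3, 8)], [.b true 2 0 0, .b true 2 1 1, .b true 2 2 2, .b true 2 3 3, .q false 1 0 1 2 8, .q false 1 0 8 2 3, .q true 1 0 1 2 3]⟩,
  ⟨4, [], [(0, 1), (0, 2), (0, 3), (1, 2), (1, 3), (2, 3), (0, 8), (1, 8), (2, 8), (3, 8)], [.b false 2 0 0, .b false 2 1 1, .b false 2 2 2, .b false 2 3 3, .q false 1 0 1 2 8, .q false 1 0 8 2 3, .q true 1 0 1 2 3]⟩,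
  ⟨4, [], [(0, 1), (0, 2), (0, 3), (1, 2), (1, 3), (2, 3), (0, 8), (1, 8), (2, 8), (3, 8)], [.b false 2 0 0, .b false 2 1 1, .b false 2 2 2, .b false 2 3 3, .q false 1 0 1 2 3, .q false 1 0 3 2 8, .q true 1 0 1 2 8]⟩,
  ⟨5, [], [(0, 1), (0, 2), (0, 3), (0, 4), (1, 2), (1, 3), (1, 4), (2, 3), (2, 4), (3, 4), (0, 8), (1, 8), (2, 8), (3, 8), (4, 8)], [.b true 2 0 0, .b true 2 1 1, .b true 2 2 2, .b true 2 3 3, .b true 2 4 4, .q false 1 8 0 1 2, .q false 1 8 3 1 4, .q true 1 8 0 1 4, .q true 1 8 3 1 2]⟩,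
  ⟨5, [], [(0, 1), (0, 2), (0, 3), (0, 4), (1, 2), (1, 3), (1, 4), (2, 3), (2, 4), (3, 4), (0, 8), (1, 8), (2, 8), (3, 8), (4, 8)], [.b false 2 0 0, .b false 2 1 1, .b false 2 2 2, .b false 2 3 3, .b false 2 4 4, .q false 1 8 0 1 2, .q false 1 8 3 1 4, .q true 1 8 0 1 4, .q true 1 8 3 1 2]⟩,
  ⟨5, [], [(0, 1), (0, 2), (0, 3), (0, 4), (1, 2), (1, 3), (1, 4), (2, 3), (2, 4), (3, 4), (0, 8), (1, 8), (2, 8), (3, 8), (4, 8)], [.b true 2 0 0, .b true 2 1 1, .b true 2 2 2, .b true 2 4 4, .q false 1 0 8 1 2, .q false 1 0 3 1 4, .q true 1 0 8 1 4, .q true 1 0 3 1 2]⟩,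
  ⟨5, [], [(0, 1), (0, 2), (0, 3), (0, 4), (1, 2), (1, 3), (1, 4), (2, 3), (2, 4), (3, 4), (0, 8), (1, 8), (2, 8), (3, 8), (4, 8)], [.b true 2 0 0, .b true 2 1 1, .b true 2 2 2, .b false 2 4 4, .q false 1 0 8 1 2, .q false 1 0 3 1 4, .q false 0 0 8 1 4, .q true 1 0 3 1 2]⟩,
  ⟨5, [], [(0, 1), (0, 2), (0, 3), (0, 4), (1, 2), (1, 3), (1, 4), (2, 3), (2, 4), (3, 4), (0, 8), (1, 8), (2, 8), (3, 8), (4, 8)], [.b false 2 0 0, .b false 2 1 1, .b false 2 2 2, .b false 2 4 4, .q false 1 0 8 1 2, .q false 1 0 3 1 4, .q true 1 0 8 1 4, .q true 1 0 3 1 2]⟩]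

/-- obstructions -/
def mO : List Tm := [
  ⟨4, [], [(0, 1), (0, 2), (0, 3), (1, 2), (1, 3), (2, 3), (0, 8), (1, 8), (2, 8), (3, 8)], [.b false 2 0 0, .b true 2 1 1, .b true 2 2 2, .b true 2 3 3, .q false 0 8 1 0 2, .q false 0 8 2 0 3, .b true 0 0 2, .b false 0 0 3, .q false 1 8 1 2 3]⟩,
  ⟨4, [], [(0, 1), (0, 2), (0, 3), (1, 2), (1, 3), (2, 3), (0, 8), (1, 8), (2, 8), (3, 8)], [.b false 2 0 0, .b true 2 1 1, .b true 2 2 2, .b true 2 3 3, .q false 0 8 1 0 2, .q false 0 8 2 0 3, .b false 0 8 2, .b false 0 0 1, .b true 0 0 2, .b false 0 0 3, .b true 0 1 3]⟩,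
  ⟨4, [], [(0, 1), (0, 2), (0, 3), (1, 2), (1, 3), (2, 3), (0, 8), (1, 8), (2, 8), (3, 8)], [.b false 2 0 0, .b false 2 1 1, .b true 2 2 2, .b true 2 3 3, .q false 0 8 1 0 3, .q false 0 8 2 0 3, .b false 0 8 1, .b false 0 8 2, .b true 0 0 2, .b false 0 0 3, .b true 0 1 3]⟩,
  ⟨4, [], [(0, 1), (0, 2), (0, 3), (1, 2), (1, 3), (2, 3), (0, 8), (1, 8), (2, 8), (3, 8)], [.b false 2 0 0, .b false 2 1 1, .b true 2 2 2, .b true 2 3 3, .q false 0 8 1 0 3, .q false 0 8 2 0 3, .b true 0 0 2, .b false 0 0 3, .b false 0 1 2, .b true 0 1 3]⟩,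
  ⟨4, [], [(0, 1), (0, 2), (0, 3), (1, 2), (1, 3), (2, 3), (0, 8), (1, 8), (2, 8), (3, 8)], [.b false 2 0 0, .b false 2 1 1, .b false 2 2 2, .b true 2 3 3, .q false 0 8 1 0 3, .q false 0 8 2 1 3, .b false 0 8 1, .b true 0 0 2, .b false 0 0 3, .b true 0 1 3, .b false 0 2 3]⟩,
  ⟨4, [], [(0, 1), (0, 2), (0, 3), (1, 2), (1, 3), (2, 3), (0, 8), (1, 8), (2, 8), (3, 8)], [.b false 2 0 0, .b false 2 1 1, .b false 2 2 2, .b true 2 3 3, .q false 0 8 1 0 3, .q false 0 8 2 1 3, .b false 0 0 3, .b true 0 1 3, .q false 1 8 2 0 1]⟩,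
  ⟨5, [], [(0, 1), (0, 2), (0, 3), (0, 4), (1, 2), (1, 3), (1, 4), (2, 3), (2, 4), (3, 4), (0, 8), (1, 8), (2, 8), (3, 8), (4, 8)], [.b false 2 0 0, .b true 2 1 1, .b true 2 2 2, .b true 2 3 3, .b true 2 4 4, .q false 0 8 1 0 2, .q false 0 8 2 0 3, .q false 0 8 3 0 4, .b false 0 8 1, .b true 0 8 2, .b true 0 0 1, .b true 0 0 3, .b false 0 0 4, .q false 1 1 2 3 4]⟩,
  ⟨5, [], [(0, 1), (0, 2), (0, 3), (0, 4), (1, 2), (1, 3), (1, 4), (2, 3), (2, 4), (3, 4), (0, 8), (1, 8), (2, 8), (3, 8), (4, 8)], [.b false 2 0 0, .b true 2 1 1, .b true 2 2 2, .b true 2 3 3, .b true 2 4 4, .q false 0 8 1 0 2, .q false 0 8 2 0 3, .q false 0 8 3 0 4, .b false 0 0 1, .b true 0 1 4, .q false 1 8 4 2 3, .q false 1 0 2 3 4]⟩,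
  ⟨5, [], [(0, 1), (0, 2), (0, 3), (0, 4), (1, 2), (1, 3), (1, 4), (2, 3), (2, 4), (3, 4), (0, 8), (1, 8), (2, 8), (3, 8), (4, 8)], [.b false 2 0 0, .b true 2 1 1, .b true 2 2 2, .b true 2 3 3, .b true 2 4 4, .q false 0 8 1 0 2, .q false 0 8 2 0 3, .q false 0 8 3 0 4, .b false 0 0 4, .b true 0 2 4, .q false 1 8 3 1 2, .q false 1 0 1 2 3]⟩,
  ⟨5, [], [(0, 1), (0, 2), (0, 3), (0, 4), (1, 2), (1, 3), (1, 4), (2, 3), (2, 4), (3, 4), (0, 8), (1, 8), (2, 8), (3, 8), (4, 8)], [.b false 2 0 0, .b false 2 1 1, .b true 2 2 2, .b true 2 3 3, .b true 2 4 4, .q false 0 8 1 0 4, .q false 0 8 2 0 3, .q false 0 8 3 0 4, .b false 0 8 1, .b false 0 0 2, .b true 0 0 3, .b true 0 1 2, .b true 0 1 4, .q false 1 8 4 2 3]⟩,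
  ⟨5, [], [(0, 1), (0, 2), (0, 3), (0, 4), (1, 2), (1, 3), (1, 4), (2, 3), (2, 4), (3, 4), (0, 8), (1, 8), (2, 8), (3, 8), (4, 8)], [.b false 2 0 0, .b false 2 1 1, .b true 2 2 2, .b true 2 3 3, .b true 2 4 4, .q false 0 8 1 0 4, .q false 0 8 2 0 3, .q false 0 8 3 0 4, .b false 0 8 1, .b true 0 1 4, .q false 1 8 4 2 3, .q false 1 0 2 3 4]⟩,
  ⟨5, [], [(0, 1), (0, 2), (0, 3), (0, 4), (1, 2), (1, 3), (1, 4), (2, 3), (2, 4), (3, 4), (0, 8), (1, 8), (2, 8), (3, 8), (4, 8)], [.b false 2 0 0, .b false 2 1 1, .b true 2 2 2, .b true 2 3 3, .b true 2 4 4, .q false 0 8 1 0 4, .q false 0 8 2 0 3, .q false 0 8 3 0 4, .b false 0 1 2, .b true 0 2 4, .q false 1 0 4 1 3]⟩,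
  ⟨5, [], [(0, 1), (0, 2), (0, 3), (0, 4), (1, 2), (1, 3), (1, 4), (2, 3), (2, 4), (3, 4), (0, 8), (1, 8), (2, 8), (3, 8), (4, 8)], [.b false 2 0 0, .b false 2 1 1, .b false 2 2 2, .b true 2 3 3, .b true 2 4 4, .q false 0 8 1 0 4, .q false 0 8 2 1 4, .q false 0 8 3 0 4, .b false 0 8 3, .b true 0 0 3, .b true 0 1 4, .b true 0 2 3, .b false 0 2 4, .q false 1 8 0 1 2]⟩,
  ⟨5, [], [(0, 1), (0, 2), (0, 3), (0, 4), (1, 2), (1, 3), (1, 4), (2, 3), (2, 4), (3, 4), (0, 8), (1, 8), (2, 8), (3, 8), (4, 8)], [.b false 2 0 0, .b false 2 1 1, .b false 2 2 2, .b true 2 3 3, .b true 2 4 4, .q false 0 8 1 0 4, .q false 0 8 2 1 4, .q false 0 8 3 0 4, .b false 0 2 3, .b true 0 2 4, .q false 1 0 4 1 3]⟩,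
  ⟨5, [], [(0, 1), (0, 2), (0, 3), (0, 4), (1, 2), (1, 3), (1, 4), (2, 3), (2, 4), (3, 4), (0, 8), (1, 8), (2, 8), (3, 8), (4, 8)], [.b false 2 0 0, .b false 2 1 1, .b false 2 2 2, .b true 2 3 3, .b true 2 4 4, .q false 0 8 1 0 4, .q false 0 8 2 1 4, .q false 0 8 3 0 4, .b false 0 8 3, .b true 0 1 3, .q false 1 8 0 1 2, .q false 1 0 1 2 4]⟩,
  ⟨5, [], [(0, 1), (0, 2), (0, 3), (0, 4), (1, 2), (1, 3), (1, 4), (2, 3), (2, 4), (3, 4), (0, 8), (1, 8), (2, 8), (3, 8), (4, 8)], [.b false 2 0 0, .b false 2 1 1, .b false 2 2 2, .b true 2 3 3, .b true 2 4 4, .q false 0 8 1 0 4, .q false 0 8 2 1 4, .q false 0 8 3 0 4, .b true 0 1 3, .b false 0 2 3, .q false 1 8 0 1 2, .q false 1 0 1 2 4]⟩,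
  ⟨5, [], [(0, 1), (0, 2), (0, 3), (0, 4), (1, 2), (1, 3), (1, 4), (2, 3), (2, 4), (3, 4), (0, 8), (1, 8), (2, 8), (3, 8), (4, 8)], [.b false 2 0 0, .b false 2 1 1, .b false 2 2 2, .b false 2 3 3, .b true 2 4 4, .q false 0 8 1 0 4, .q false 0 8 2 1 4, .q false 0 8 3 2 4, .b true 0 8 2, .b false 0 8 3, .b false 0 0 4, .b true 0 1 4, .b true 0 3 4, .q false 1 0 1 2 3]⟩,
  ⟨5, [], [(0, 1), (0, 2), (0, 3), (0, 4), (1, 2), (1, 3), (1, 4), (2, 3), (2, 4), (3, 4), (0, 8), (1, 8), (2, 8), (3, 8), (4, 8)], [.b false 2 0 0, .b false 2 1 1, .b false 2 2 2, .b false 2 3 3, .b true 2 4 4, .q false 0 8 1 0 4, .q false 0 8 2 1 4, .q false 0 8 3 2 4, .b true 0 0 3, .b false 0 0 4, .q false 1 8 1 2 3, .q false 1 1 2 3 4]⟩,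
  ⟨5, [], [(0, 1), (0, 2), (0, 3), (0, 4), (1, 2), (1, 3), (1, 4), (2, 3), (2, 4), (3, 4), (0, 8), (1, 8), (2, 8), (3, 8), (4, 8)], [.b false 2 0 0, .b false 2 1 1, .b false 2 2 2, .b false 2 3 3, .b true 2 4 4, .q false 0 8 1 0 4, .q false 0 8 2 1 4, .q false 0 8 3 2 4, .b true 0 1 3, .b false 0 3 4, .q false 1 8 0 1 2, .q false 1 0 1 2 4]⟩,
  ⟨6, [], [(0, 1), (0, 2), (0, 3), (0, 4), (0, 5), (1, 2), (1, 3), (1, 4), (1, 5), (2, 3), (2, 4), (2, 5), (3, 4), (3, 5), (4, 5), (0, 8), (1, 8), (2, 8), (3, 8), (4, 8), (5, 8)], [.b false 2 0 0, .b false 2 1 1, .b false 2 2 2, .b true 2 3 3, .b true 2 4 4, .b true 2 5 5, .q false 0 8 1 0 5, .q false 0 8 2 1 5, .q false 0 8 3 0 4, .q false 0 8 4 0 5, .b true 0 0 4, .b true 0 1 5, .q false 1 8 0 1 2, .q false 1 8 5 3 4, .q false 1 2 3 4 5]⟩,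
  ⟨6, [], [(0, 1), (0, 2), (0, 3), (0, 4), (0, 5), (1, 2), (1, 3), (1, 4), (1, 5), (2, 3), (2, 4), (2, 5), (3, 4), (3, 5), (4, 5), (0, 8), (1, 8), (2, 8), (3, 8), (4, 8), (5, 8)], [.b false 2 0 0, .b false 2 1 1, .b false 2 2 2, .b true 2 3 3, .b true 2 4 4, .b true 2 5 5, .q false 0 8 1 0 5, .q false 0 8 2 1 5, .q false 0 8 3 0 4, .q false 0 8 4 0 5, .b true 0 1 4, .b true 0 2 5, .q false 1 8 0 1 2, .q false 1 8 5 3 4, .q false 1 0 1 2 3]⟩,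
  ⟨6, [], [(0, 1), (0, 2), (0, 3), (0, 4), (0, 5), (1, 2), (1, 3), (1, 4), (1, 5), (2, 3), (2, 4), (2, 5), (3, 4), (3, 5), (4, 5), (0, 8), (1, 8), (2, 8), (3, 8), (4, 8), (5, 8)], [.b false 2 0 0, .b false 2 1 1, .b false 2 2 2, .b true 2 3 3, .b true 2 4 4, .b true 2 5 5, .q false 0 8 1 0 5, .q false 0 8 2 1 5, .q false 0 8 3 0 4, .q false 0 8 4 0 5, .q false 1 8 0 1 2, .q false 1 8 5 3 4, .q false 1 0 1 2 5, .q false 1 1 3 4 5]⟩]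

/-- all basic templates -/
def mA : List Tm := mB ++ (mT ++ mO)

theorem mB_h {W : Mw V} (h : W.Bs) {U : V → V → V → V → Prop} (hu : Sy4 U) : THs (mrel h hu) W.z mB :=
  .cons (fun v n01 n02 n03 n12 n13 n23 h0 h1 h2 => ((crF_sepr h.inj).one n01 n02 n03 n12 n13 n23).elim h0 (fun k => k.elim h1 h2)) (
  .cons (fun v n01 n02 n03 n12 n13 n23 h0 h1 => (crF_sepr h.inj).amo h0 h1) (
  .cons (fun v n01 n02 n03 n04 n12 n13 n14 n23 n24 n34 h0 h1 h2 => (crF_sepr h.inj).add h0 h1 h2) (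
  .cons (fun v n01 n02 n03 n04 n12 n13 n14 n23 n24 n34 h0 h1 h2 => ((crF_sepr h.inj).add2 h0 n34 n24 n04 n14).elim h1 h2) (
  .cons (fun v n01 n02 n03 n12 n13 n23 n08 n18 n28 n38 h0 h1 h2 h3 h4 => h.cut1 h0.2 h1.2 (ngR h2) (ngR h3) h4) (
  .cons (fun v n01 n02 n12 n08 n18 n28 h0 h1 h2 h3 => h.cut2 h0.2 (ngR h1) (ngR h2) n18 n28 h3) (
  .cons (fun v n01 n02 n12 n08 n18 n28 h0 h1 h2 h3 => h.cut1 h1.2 h2.2 h.zR (ngR h0) ((crF_sepr h.inj).comm h3)) (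
  .cons (fun v n01 n02 n03 n12 n13 n23 n08 n18 n28 n38 h0 h1 h2 h3 h4 h5 h6 h7 => (h.pc1 h0.2 h1.2 (ngR h2) (ngR h3) h4 h5).elim (fun k => h6 k.1) (fun k => h7 k.1)) (
  .cons (fun v n01 n02 n03 n12 n13 n23 n08 n18 n28 n38 h0 h1 h2 h3 h4 h5 h6 h7 => (h.pc1 h0.2 h1.2 (ngR h2) (ngR h3) h4 h5).elim (fun k => h6 k.2) (fun k => h7 k.1)) (
  .cons (fun v n01 n08 n18 h0 h1 h2 h3 => h3 (h.zl h0.2 (ngR h1) n18 h2).1) (
  .cons (fun v n01 n08 n18 h0 h1 h2 h3 => h3 (h.zl h0.2 (ngR h1) n18 h2).2) (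
  .cons (fun v n01 n02 n12 n08 n18 n28 h0 h1 h2 h3 h4 h5 h6 => (h.pc1 h0.2 h1.2 h.zR (ngR h2) h3.symm h4).elim (fun k => h5 k.1) (fun k => h6 k.1)) (
  .cons (fun v n01 n02 n12 n08 n18 n28 h0 h1 h2 h3 h4 h5 h6 => (h.pc2 (ngR h0) n08 (ngR h1) n18 h2.2 h3 h4).elim (fun k => h5 k.2) (fun k => h6 k.2)) (
  .nil)))))))))))))

/-- pattern -/
def f0 : Tm :=
  ⟨0, [], [], [.b false 2 9 9, .b true 2 10 10, .b true 2 11 11, .q false 0 8 10 9 11, .b false 0 8 10, .b false 0 9 11, .b true 0 9 10]⟩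

/-- pattern -/
def f1 : Tm :=
  ⟨0, [], [], [.b false 2 9 9, .b false 2 10 10, .b true 2 11 11, .q false 0 8 10 9 11, .b false 0 8 10, .b false 0 9 11, .b true 0 9 10]⟩

/-- pattern -/
def f2 : Tm :=
  ⟨1, [], [(0, 8), (0, 9), (0, 10), (0, 11)], [.b false 2 9 9, .b true 2 0 0, .b true 2 10 10, .b true 2 11 11, .q false 0 8 0 9 10, .q false 0 8 10 9 11, .b false 0 8 10, .b false 0 9 11, .q false 1 8 11 0 10, .q false 1 9 0 10 11]⟩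

/-- pattern -/
def f3 : Tm :=
  ⟨1, [], [(0, 8), (0, 9), (0, 10), (0, 11)], [.b false 2 9 9, .b true 2 10 10, .b true 2 0 0, .b true 2 11 11, .q false 0 8 10 9 0, .q false 0 8 0 9 11, .b false 0 8 10, .b false 0 9 11, .b true 0 9 0, .q false 1 8 11 10 0]⟩

/-- pattern -/
def f4 : Tm :=
  ⟨1, [], [(0, 8), (0, 9), (0, 10), (0, 11)], [.b false 2 9 9, .b true 2 10 10, .b true 2 11 11, .b true 2 0 0, .q false 0 8 10 9 11, .q false 0 8 11 9 0, .b false 0 8 10, .b false 0 9 11, .q false 1 8 0 10 11, .q false 1 9 10 11 0]⟩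

/-- pattern -/
def f5 : Tm :=
  ⟨1, [], [(0, 8), (0, 9), (0, 10), (0, 11)], [.b false 2 9 9, .b true 2 10 10, .b true 2 0 0, .b true 2 11 11, .q false 0 8 10 9 0, .q false 0 8 0 9 11, .b false 0 8 10, .b false 0 9 11, .q false 1 8 11 10 0, .q false 1 9 10 0 11]⟩

/-- pattern -/
def f6 : Tm :=
  ⟨1, [], [(0, 8), (0, 9), (0, 10), (0, 11)], [.b false 2 9 9, .b false 2 10 10, .b true 2 0 0, .b true 2 11 11, .q false 0 8 10 9 11, .q false 0 8 0 9 11, .b false 0 8 10, .b false 0 9 11, .b false 0 8 0, .b true 0 9 0]⟩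

/-- pattern -/
def f7 : Tm :=
  ⟨1, [], [(0, 8), (0, 9), (0, 10), (0, 11)], [.b false 2 9 9, .b false 2 10 10, .b true 2 0 0, .b true 2 11 11, .q false 0 8 10 9 11, .q false 0 8 0 9 11, .b false 0 8 10, .b false 0 9 11, .b true 0 9 0, .b false 0 10 0]⟩

/-- pattern -/
def f8 : Tm :=
  ⟨1, [], [(0, 8), (0, 9), (0, 10), (0, 11)], [.b false 2 0 0, .b false 2 9 9, .b true 2 10 10, .b true 2 11 11, .q false 0 8 9 0 11, .q false 0 8 10 0 11, .b false 0 8 10, .b false 0 9 11, .b true 0 0 10, .b false 0 0 11]⟩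

/-- pattern -/
def f9 : Tm :=
  ⟨1, [], [(0, 8), (0, 9), (0, 10), (0, 11)], [.b false 2 0 0, .b false 2 9 9, .b true 2 10 10, .b true 2 11 11, .q false 0 8 9 0 11, .q false 0 8 10 0 11, .b false 0 8 10, .b false 0 9 11, .q false 1 0 11 9 10]⟩

/-- pattern -/
def f10 : Tm :=
  ⟨1, [], [(0, 8), (0, 9), (0, 10), (0, 11)], [.b false 2 0 0, .b false 2 9 9, .b false 2 10 10, .b true 2 11 11, .q false 0 8 9 0 11, .q false 0 8 10 9 11, .b false 0 8 10, .b false 0 9 11, .q false 1 0 11 9 10]⟩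

/-- pattern -/
def f11 : Tm :=
  ⟨1, [], [(0, 8), (0, 9), (0, 10), (0, 11)], [.b false 2 0 0, .b false 2 9 9, .b false 2 10 10, .b true 2 11 11, .q false 0 8 9 0 11, .q false 0 8 10 9 11, .b false 0 8 10, .b false 0 9 11, .b true 0 0 10, .b false 0 0 11]⟩

/-- pattern -/
def f12 : Tm :=
  ⟨1, [], [(0, 8), (0, 9), (0, 10), (0, 11)], [.b false 2 9 9, .b false 2 10 10, .b false 2 0 0, .b true 2 11 11, .q false 0 8 10 9 11, .q false 0 8 0 10 11, .b false 0 8 10, .b false 0 9 11, .b true 0 9 0, .b false 0 0 11]⟩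

/-- pattern -/
def f13 : Tm :=
  ⟨1, [], [(0, 8), (0, 9), (0, 10), (0, 11)], [.b false 2 9 9, .b false 2 10 10, .b false 2 0 0, .b true 2 11 11, .q false 0 8 10 9 11, .q false 0 8 0 10 11, .b false 0 8 10, .b false 0 9 11, .q false 1 8 0 9 10]⟩

/-- pattern -/
def f14 : Tm :=
  ⟨2, [], [(0, 1), (0, 8), (1, 8), (0, 9), (0, 10), (0, 11), (1, 9), (1, 10), (1, 11)], [.b false 2 9 9, .b false 2 10 10, .b true 2 0 0, .b true 2 11 11, .b true 2 1 1, .q false 0 8 10 9 1, .q false 0 8 0 9 11, .q false 0 8 11 9 1, .b false 0 8 10, .b false 0 9 11, .q false 1 8 1 0 11, .q false 1 9 0 11 1]⟩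

/-- pattern -/
def f15 : Tm :=
  ⟨2, [], [(0, 1), (0, 8), (1, 8), (0, 9), (0, 10), (0, 11), (1, 9), (1, 10), (1, 11)], [.b false 2 9 9, .b false 2 10 10, .b true 2 0 0, .b true 2 1 1, .b true 2 11 11, .q false 0 8 10 9 11, .q false 0 8 0 9 1, .q false 0 8 1 9 11, .b false 0 8 10, .b false 0 9 11, .q false 1 8 11 0 1, .q false 1 9 0 1 11]⟩

/-- pattern -/
def f16 : Tm :=
  ⟨2, [], [(0, 1), (0, 8), (1, 8), (0, 9), (0, 10), (0, 11), (1, 9), (1, 10), (1, 11)], [.b false 2 9 9, .b false 2 10 10, .b true 2 11 11, .b true 2 0 0, .b true 2 1 1, .q false 0 8 10 9 1, .q false 0 8 11 9 0, .q false 0 8 0 9 1, .b false 0 8 10, .b false 0 9 11, .b true 0 9 0, .b true 0 10 1, .q false 1 8 1 11 0]⟩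

/-- pattern -/
def f17 : Tm :=
  ⟨2, [], [(0, 1), (0, 8), (1, 8), (0, 9), (0, 10), (0, 11), (1, 9), (1, 10), (1, 11)], [.b false 2 9 9, .b false 2 10 10, .b true 2 11 11, .b true 2 0 0, .b true 2 1 1, .q false 0 8 10 9 1, .q false 0 8 11 9 0, .q false 0 8 0 9 1, .b false 0 8 10, .b false 0 9 11, .b true 0 10 0, .q false 1 8 1 11 0, .q false 1 9 10 11 1]⟩

/-- pattern -/
def f18 : Tm :=
  ⟨2, [], [(0, 1), (0, 8), (1, 8), (0, 9), (0, 10), (0, 11), (1, 9), (1, 10), (1, 11)], [.b false 2 9 9, .b false 2 10 10, .b true 2 11 11, .b true 2 0 0, .b true 2 1 1, .q false 0 8 10 9 1, .q false 0 8 11 9 0, .q false 0 8 0 9 1, .b false 0 8 10, .b false 0 9 11, .q false 1 8 1 11 0, .q false 1 9 10 11 1, .q false 1 10 11 0 1]⟩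

/-- pattern -/
def f19 : Tm :=
  ⟨2, [], [(0, 1), (0, 8), (1, 8), (0, 9), (0, 10), (0, 11), (1, 9), (1, 10), (1, 11)], [.b false 2 9 9, .b false 2 0 0, .b false 2 1 1, .b false 2 10 10, .b true 2 11 11, .q false 0 8 0 9 11, .q false 0 8 1 0 11, .q false 0 8 10 1 11, .b false 0 8 10, .b false 0 9 11, .b true 0 0 11, .b true 0 1 10, .b true 0 1 11, .b false 0 10 11, .q false 1 9 0 1 10]⟩

/-- pattern -/
def f20 : Tm :=
  ⟨2, [], [(0, 1), (0, 8), (1, 8), (0, 9), (0, 10), (0, 11), (1, 9), (1, 10), (1, 11)], [.b false 2 9 9, .b false 2 0 0, .b false 2 1 1, .b false 2 10 10, .b true 2 11 11, .q false 0 8 0 9 11, .q false 0 8 1 0 11, .q false 0 8 10 1 11, .b false 0 8 10, .b false 0 9 11, .b true 0 8 1, .b true 0 0 11, .q false 1 9 0 1 10]⟩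

/-- patterns, side type 1 -/
def fp1 : List Tm := [f0, f2, f3, f4, f5, f8, f9]

/-- patterns, side type 2 -/
def fp2 : List Tm := [f1, f6, f7, f10, f11, f12, f13, f14, f15, f16, f17, f18, f19, f20]

/-- facts of rule 0 -/
def rf0 : Tm :=
  ⟨3, [], [(0, 1), (0, 2), (1, 2), (0, 8), (1, 8), (2, 8)], [.b false 2 0 0, .b true 2 1 1, .b true 2 2 2, .q false 0 8 1 0 2, .b false 0 8 1, .b false 0 0 2, .b true 0 0 1]⟩

/-- facts of rule 1 -/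
def rf1 : Tm :=
  ⟨3, [], [(0, 1), (0, 2), (1, 2), (0, 8), (1, 8), (2, 8)], [.b false 2 0 0, .b true 2 1 1, .b true 2 2 2, .q false 0 8 1 0 2, .b false 0 8 1, .b false 0 0 2, .b true 0 1 2]⟩

/-- facts of rule 2 -/
def rf2 : Tm :=
  ⟨3, [], [(0, 1), (0, 2), (1, 2), (0, 8), (1, 8), (2, 8)], [.b false 2 0 0, .b false 2 1 1, .b true 2 2 2, .q false 0 8 1 0 2, .b false 0 8 1, .b false 0 0 2, .b true 0 0 1]⟩

/-- facts of rule 3 -/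
def rf3 : Tm :=
  ⟨3, [], [(0, 1), (0, 2), (1, 2), (0, 8), (1, 8), (2, 8)], [.b false 2 0 0, .b false 2 1 1, .b true 2 2 2, .q false 0 8 1 0 2, .b false 0 8 1, .b false 0 0 2, .b true 0 1 2]⟩

/-- facts of rule 4 -/
def rf4 : Tm :=
  ⟨4, [], [(0, 1), (0, 2), (0, 3), (1, 2), (1, 3), (2, 3), (0, 8), (1, 8), (2, 8), (3, 8)], [.b false 2 0 0, .b true 2 1 1, .b true 2 2 2, .b true 2 3 3, .q false 0 8 1 0 2, .q false 0 8 2 0 3, .b false 0 8 2, .b false 0 0 3, .q false 1 8 1 2 3]⟩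

/-- facts of rule 5 -/
def rf5 : Tm :=
  ⟨4, [], [(0, 1), (0, 2), (0, 3), (1, 2), (1, 3), (2, 3), (0, 8), (1, 8), (2, 8), (3, 8)], [.b false 2 0 0, .b true 2 1 1, .b true 2 2 2, .b true 2 3 3, .q false 0 8 1 0 2, .q false 0 8 2 0 3, .b false 0 8 2, .b false 0 0 3, .q false 1 8 3 1 2, .q false 1 0 1 2 3]⟩

/-- facts of rule 7 -/
def rf7 : Tm :=
  ⟨4, [], [(0, 1), (0, 2), (0, 3), (1, 2), (1, 3), (2, 3), (0, 8), (1, 8), (2, 8), (3, 8)], [.b false 2 0 0, .b true 2 1 1, .b true 2 2 2, .b true 2 3 3, .q false 0 8 1 0 2, .q false 0 8 2 0 3, .b false 0 8 1, .b false 0 0 3, .b false 0 8 2, .q false 1 0 3 1 2, .q false 0 8 1 0 3]⟩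

/-- facts of rule 8 -/
def rf8 : Tm :=
  ⟨4, [], [(0, 1), (0, 2), (0, 3), (1, 2), (1, 3), (2, 3), (0, 8), (1, 8), (2, 8), (3, 8)], [.b false 2 0 0, .b true 2 1 1, .b true 2 2 2, .b true 2 3 3, .q false 0 8 1 0 2, .q false 0 8 2 0 3, .b false 0 8 2, .b false 0 0 3, .b false 0 8 1, .q false 0 8 1 0 3]⟩

/-- facts of rule 11 -/
def rf11 : Tm :=
  ⟨4, [], [(0, 1), (0, 2), (0, 3), (1, 2), (1, 3), (2, 3), (0, 8), (1, 8), (2, 8), (3, 8)], [.b false 2 0 0, .b true 2 1 1, .b true 2 2 2, .b true 2 3 3, .q false 0 8 1 0 2, .q false 0 8 2 0 3, .b false 0 8 1, .b false 0 0 2, .b false 0 0 3, .q false 0 8 1 0 3]⟩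

/-- facts of rule 12 -/
def rf12 : Tm :=
  ⟨4, [], [(0, 1), (0, 2), (0, 3), (1, 2), (1, 3), (2, 3), (0, 8), (1, 8), (2, 8), (3, 8)], [.b false 2 0 0, .b true 2 1 1, .b true 2 2 2, .b true 2 3 3, .q false 0 8 1 0 2, .q false 0 8 2 0 3, .b false 0 8 1, .b false 0 0 3, .b false 0 0 2, .q false 1 0 1 2 3, .q false 0 8 1 0 3]⟩

/-- facts of rule 13 -/
def rf13 : Tm :=
  ⟨4, [], [(0, 1), (0, 2), (0, 3), (1, 2), (1, 3), (2, 3), (0, 8), (1, 8), (2, 8), (3, 8)], [.b false 2 0 0, .b true 2 1 1, .b true 2 2 2, .b true 2 3 3, .q false 0 8 1 0 2, .q false 0 8 2 0 3, .b false 0 8 1, .b false 0 0 2, .q false 1 0 3 1 2]⟩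

/-- facts of rule 16 -/
def rf16 : Tm :=
  ⟨4, [], [(0, 1), (0, 2), (0, 3), (1, 2), (1, 3), (2, 3), (0, 8), (1, 8), (2, 8), (3, 8)], [.b false 2 0 0, .b false 2 1 1, .b true 2 2 2, .b true 2 3 3, .q false 0 8 1 0 3, .q false 0 8 2 0 3, .b false 0 8 2, .b false 0 0 3, .b false 0 1 3, .q false 0 8 2 1 3]⟩

/-- facts of rule 17 -/
def rf17 : Tm :=
  ⟨4, [], [(0, 1), (0, 2), (0, 3), (1, 2), (1, 3), (2, 3), (0, 8), (1, 8), (2, 8), (3, 8)], [.b false 2 0 0, .b false 2 1 1, .b true 2 2 2, .b true 2 3 3, .q false 0 8 1 0 3, .q false 0 8 2 0 3, .b false 0 8 2, .b false 0 1 3, .b false 0 0 3, .q false 1 0 1 2 3, .q false 0 8 2 1 3]⟩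

/-- facts of rule 20 -/
def rf20 : Tm :=
  ⟨4, [], [(0, 1), (0, 2), (0, 3), (1, 2), (1, 3), (2, 3), (0, 8), (1, 8), (2, 8), (3, 8)], [.b false 2 0 0, .b false 2 1 1, .b true 2 2 2, .b true 2 3 3, .q false 0 8 1 0 3, .q false 0 8 2 0 3, .b false 0 8 1, .b false 0 0 3, .b false 0 8 2, .q false 1 0 3 1 2]⟩

/-- facts of rule 21 -/
def rf21 : Tm :=
  ⟨4, [], [(0, 1), (0, 2), (0, 3), (1, 2), (1, 3), (2, 3), (0, 8), (1, 8), (2, 8), (3, 8)], [.b false 2 0 0, .b false 2 1 1, .b true 2 2 2, .b true 2 3 3, .q false 0 8 1 0 3, .q false 0 8 2 0 3, .b false 0 8 2, .b false 0 0 3, .b false 0 8 1]⟩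

/-- facts of rule 24 -/
def rf24 : Tm :=
  ⟨4, [], [(0, 1), (0, 2), (0, 3), (1, 2), (1, 3), (2, 3), (0, 8), (1, 8), (2, 8), (3, 8)], [.b false 2 0 0, .b false 2 1 1, .b true 2 2 2, .b true 2 3 3, .q false 0 8 1 0 3, .q false 0 8 2 0 3, .b false 0 8 1, .b false 0 0 2, .b false 0 0 3, .q false 0 8 1 0 2]⟩

/-- facts of rule 25 -/
def rf25 : Tm :=
  ⟨4, [], [(0, 1), (0, 2), (0, 3), (1, 2), (1, 3), (2, 3), (0, 8), (1, 8), (2, 8), (3, 8)], [.b false 2 0 0, .b false 2 1 1, .b true 2 2 2, .b true 2 3 3, .q false 0 8 1 0 3, .q false 0 8 2 0 3, .b false 0 8 1, .b false 0 0 3, .b false 0 0 2, .q false 1 0 1 2 3, .q false 0 8 1 0 2]⟩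

/-- facts of rule 28 -/
def rf28 : Tm :=
  ⟨4, [], [(0, 1), (0, 2), (0, 3), (1, 2), (1, 3), (2, 3), (0, 8), (1, 8), (2, 8), (3, 8)], [.b false 2 0 0, .b false 2 1 1, .b true 2 2 2, .b true 2 3 3, .q false 0 8 1 0 3, .q false 0 8 2 0 3, .b false 0 8 1, .b false 0 0 2, .q false 1 0 3 1 2, .q false 0 8 1 0 2]⟩

/-- facts of rule 29 -/
def rf29 : Tm :=
  ⟨4, [], [(0, 1), (0, 2), (0, 3), (1, 2), (1, 3), (2, 3), (0, 8), (1, 8), (2, 8), (3, 8)], [.b false 2 0 0, .b false 2 1 1, .b true 2 2 2, .b true 2 3 3, .q false 0 8 1 0 3, .q false 0 8 2 0 3, .b false 0 8 2, .b false 0 1 3, .q false 1 0 3 1 2, .q false 0 8 2 1 3]⟩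

/-- facts of rule 33 -/
def rf33 : Tm :=
  ⟨4, [], [(0, 1), (0, 2), (0, 3), (1, 2), (1, 3), (2, 3), (0, 8), (1, 8), (2, 8), (3, 8)], [.b false 2 0 0, .b false 2 1 1, .b false 2 2 2, .b true 2 3 3, .q false 0 8 1 0 3, .q false 0 8 2 1 3, .b false 0 8 2, .b false 0 1 3, .q false 1 0 3 1 2]⟩

/-- facts of rule 35 -/
def rf35 : Tm :=
  ⟨4, [], [(0, 1), (0, 2), (0, 3), (1, 2), (1, 3), (2, 3), (0, 8), (1, 8), (2, 8), (3, 8)], [.b false 2 0 0, .b false 2 1 1, .b false 2 2 2, .b true 2 3 3, .q false 0 8 1 0 3, .q false 0 8 2 1 3, .b false 0 8 2, .b false 0 0 3, .b false 0 1 3, .q false 0 8 2 0 3]⟩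

/-- facts of rule 36 -/
def rf36 : Tm :=
  ⟨4, [], [(0, 1), (0, 2), (0, 3), (1, 2), (1, 3), (2, 3), (0, 8), (1, 8), (2, 8), (3, 8)], [.b false 2 0 0, .b false 2 1 1, .b false 2 2 2, .b true 2 3 3, .q false 0 8 1 0 3, .q false 0 8 2 1 3, .b false 0 8 2, .b false 0 1 3, .b false 0 0 3, .q false 1 0 1 2 3, .q false 0 8 2 0 3]⟩

/-- facts of rule 38 -/
def rf38 : Tm :=
  ⟨4, [], [(0, 1), (0, 2), (0, 3), (1, 2), (1, 3), (2, 3), (0, 8), (1, 8), (2, 8), (3, 8)], [.b false 2 0 0, .b false 2 1 1, .b false 2 2 2, .b true 2 3 3, .q false 0 8 1 0 3, .q false 0 8 2 1 3, .b false 0 8 1, .b false 0 0 3, .b false 0 8 2, .q false 1 0 3 1 2, .q false 0 8 2 0 3]⟩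

/-- facts of rule 39 -/
def rf39 : Tm :=
  ⟨4, [], [(0, 1), (0, 2), (0, 3), (1, 2), (1, 3), (2, 3), (0, 8), (1, 8), (2, 8), (3, 8)], [.b false 2 0 0, .b false 2 1 1, .b false 2 2 2, .b true 2 3 3, .q false 0 8 1 0 3, .q false 0 8 2 1 3, .b false 0 8 2, .b false 0 0 3, .b false 0 8 1, .q false 0 8 2 0 3]⟩

/-- facts of rule 40 -/
def rf40 : Tm :=
  ⟨4, [], [(0, 1), (0, 2), (0, 3), (1, 2), (1, 3), (2, 3), (0, 8), (1, 8), (2, 8), (3, 8)], [.b false 2 0 0, .b false 2 1 1, .b false 2 2 2, .b true 2 3 3, .q false 0 8 1 0 3, .q false 0 8 2 1 3, .b false 0 8 1, .b false 0 0 3, .q false 1 8 2 0 1]⟩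

/-- facts of rule 41 -/
def rf41 : Tm :=
  ⟨4, [], [(0, 1), (0, 2), (0, 3), (1, 2), (1, 3), (2, 3), (0, 8), (1, 8), (2, 8), (3, 8)], [.b false 2 0 0, .b false 2 1 1, .b false 2 2 2, .b true 2 3 3, .q false 0 8 1 0 3, .q false 0 8 2 1 3, .b false 0 8 1, .b false 0 0 3, .q false 1 8 0 1 2, .q false 1 0 1 2 3]⟩

/-- facts of rule 46 -/
def rf46 : Tm :=
  ⟨5, [], [(0, 1), (0, 2), (0, 3), (0, 4), (1, 2), (1, 3), (1, 4), (2, 3), (2, 4), (3, 4), (0, 8), (1, 8), (2, 8), (3, 8), (4, 8)], [.b false 2 0 0, .b true 2 1 1, .b true 2 2 2, .b true 2 3 3, .b true 2 4 4, .q false 0 8 1 0 2, .q false 0 8 2 0 3, .q false 0 8 3 0 4, .b false 0 8 1, .b false 0 0 4, .b true 0 8 2, .b true 0 0 3, .q false 1 1 2 3 4, .q false 0 8 1 0 4]⟩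

/-- facts of rule 47 -/
def rf47 : Tm :=
  ⟨5, [], [(0, 1), (0, 2), (0, 3), (0, 4), (1, 2), (1, 3), (1, 4), (2, 3), (2, 4), (3, 4), (0, 8), (1, 8), (2, 8), (3, 8), (4, 8)], [.b false 2 0 0, .b false 2 1 1, .b true 2 2 2, .b true 2 3 3, .b true 2 4 4, .q false 0 8 1 0 4, .q false 0 8 2 0 3, .q false 0 8 3 0 4, .b false 0 8 1, .b false 0 0 2, .b true 0 0 3, .b true 0 1 4, .q false 1 8 4 2 3, .q false 0 8 1 0 2]⟩

/-- facts of rule 48 -/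
def rf48 : Tm :=
  ⟨5, [], [(0, 1), (0, 2), (0, 3), (0, 4), (1, 2), (1, 3), (1, 4), (2, 3), (2, 4), (3, 4), (0, 8), (1, 8), (2, 8), (3, 8), (4, 8)], [.b false 2 0 0, .b false 2 1 1, .b false 2 2 2, .b true 2 3 3, .b true 2 4 4, .q false 0 8 1 0 4, .q false 0 8 2 1 4, .q false 0 8 3 0 4, .b false 0 8 3, .b false 0 2 4, .b true 0 0 3, .b true 0 1 4, .q false 1 8 0 1 2, .q false 0 8 3 2 4]⟩

/-- facts of rule 50 -/
def rf50 : Tm :=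
  ⟨5, [], [(0, 1), (0, 2), (0, 3), (0, 4), (1, 2), (1, 3), (1, 4), (2, 3), (2, 4), (3, 4), (0, 8), (1, 8), (2, 8), (3, 8), (4, 8)], [.b false 2 0 0, .b false 2 1 1, .b false 2 2 2, .b false 2 3 3, .b true 2 4 4, .q false 0 8 1 0 4, .q false 0 8 2 1 4, .q false 0 8 3 2 4, .b false 0 8 3, .b false 0 0 4, .b true 0 8 2, .b true 0 1 4, .q false 1 0 1 2 3, .q false 0 8 3 0 4]⟩

/-- the hypotheses -/
structure Mw.Hy (W : Mw V) : Prop where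
  bs : W.Bs
  t : THs (mrel0 bs) W.z (mT ++ mO)

theorem mA_nu : (mA.all fun t => t.ls.all lnu) = true := by decide +kernel

theorem Mw.Hy.ths {W : Mw V} (h : W.Hy) : THs (mrel0 h.bs) W.z mA := (mB_h h.bs no4_sy).app h.t

theorem mA_z : mA.map (tren zr) = mA := rfl

theorem Mw.Hy.ph {W : Mw V} (h : W.Hy) {p : Nat → V} (h0 : p 0 = W.z) (k : Nat) : PHs (mrel0 h.bs) p k mA := by
  rw [← mA_z]
  exact h.ths.ph h0 k

theorem Mw.Hy.phU {W : Mw V} (h : W.Hy) {U : V → V → V → V → Prop} (hu : Sy4 U) {p : Nat → V} (h0 : p 0 = W.z)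
    (k : Nat) : PHs (mrel h.bs hu) p k mA := by
  rw [← mA_z]
  exact (ths_nu mA_nu h.ths).ph h0 k

end

end Pool.Agent.SOU
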