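import Pool.Agent.SOU.Nt
import Pool.Agent.SOU.A0
import Pool.Agent.SOU.A1
import Pool.Agent.SOU.A2
import Pool.Agent.SOU.A3
import Pool.Agent.SOU.A4
import Pool.Agent.SOU.A5
import Pool.Agent.SOU.A7
import Pool.Agent.SOU.A8
import Pool.Agent.SOU.A11
import Pool.Agent.SOU.A12
import Pool.Agent.SOU.A13
import Pool.Agent.SOU.A16
import Pool.Agent.SOU.A17
import Pool.Agent.SOU.A20
import Pool.Agent.SOU.A21
import Pool.Agent.SOU.A24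
import Pool.Agent.SOU.A25
import Pool.Agent.SOU.A28
import Pool.Agent.SOU.A29
import Pool.Agent.SOU.A33
import Pool.Agent.SOU.A35
import Pool.Agent.SOU.A36
import Pool.Agent.SOU.A38
import Pool.Agent.SOU.A39
import Pool.Agent.SOU.A40
import Pool.Agent.SOU.A41
import Pool.Agent.SOU.A46
import Pool.Agent.SOU.A47
import Pool.Agent.SOU.A48
import Pool.Agent.SOU.A50

/-! Project SOU (MP_66ba69_lc, mixed insertion): the rules for the new structure (generated). -/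

set_option autoImplicit false
set_option maxRecDepth 100000
set_option linter.unusedVariables false

namespace Pool.Agent.SOU

open Pool.Agent.RUP Pool.Agent.SOQ

/-- rule 0 -/
def k0 : Tm := ⟨3, [], rf0.ne, rf0.ls ++ [.q true 2 8 2 0 1]⟩

/-- rule 1 -/
def k1 : Tm := ⟨3, [], rf1.ne, rf1.ls ++ [.q true 2 8 0 1 2]⟩

/-- rule 2 -/
def k2 : Tm := ⟨3, [], rf2.ne, rf2.ls ++ [.q true 2 8 2 0 1]⟩

/-- rule 3 -/
def k3 : Tm := ⟨3, [], rf3.ne, rf3.ls ++ [.q true 2 8 0 1 2]⟩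

/-- rule 4 -/
def k4 : Tm := ⟨4, [], rf4.ne, rf4.ls ++ [.q true 2 8 0 2 3]⟩

/-- rule 5 -/
def k5 : Tm := ⟨4, [], rf5.ne, rf5.ls ++ [.q true 2 8 3 0 2]⟩

/-- rule 7 -/
def k7 : Tm := ⟨4, [], rf7.ne, rf7.ls ++ [.q false 2 8 3 0 1, .q true 2 8 3 0 2]⟩

/-- rule 8 -/
def k8 : Tm := ⟨4, [], rf8.ne, rf8.ls ++ [.q false 2 8 3 0 2, .q true 2 8 3 0 1]⟩

/-- rule 11 -/
def k11 : Tm := ⟨4, [], rf11.ne, rf11.ls ++ [.q false 2 8 2 0 1, .q true 2 8 3 0 1]⟩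

/-- rule 12 -/
def k12 : Tm := ⟨4, [], rf12.ne, rf12.ls ++ [.q false 2 8 3 0 1, .q true 2 8 2 0 1]⟩

/-- rule 13 -/
def k13 : Tm := ⟨4, [], rf13.ne, rf13.ls ++ [.q true 2 8 0 1 2]⟩

/-- rule 16 -/
def k16 : Tm := ⟨4, [], rf16.ne, rf16.ls ++ [.q false 2 8 3 0 2, .q true 2 8 3 1 2]⟩

/-- rule 17 -/
def k17 : Tm := ⟨4, [], rf17.ne, rf17.ls ++ [.q false 2 8 3 1 2, .q true 2 8 3 0 2]⟩

/-- rule 20 -/
def k20 : Tm := ⟨4, [], rf20.ne, rf20.ls ++ [.q false 2 8 3 0 1, .q true 2 8 3 0 2]⟩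

/-- rule 21 -/
def k21 : Tm := ⟨4, [], rf21.ne, rf21.ls ++ [.q false 2 8 3 0 2, .q true 2 8 3 0 1]⟩

/-- rule 24 -/
def k24 : Tm := ⟨4, [], rf24.ne, rf24.ls ++ [.q false 2 8 2 0 1, .q true 2 8 3 0 1]⟩

/-- rule 25 -/
def k25 : Tm := ⟨4, [], rf25.ne, rf25.ls ++ [.q false 2 8 3 0 1, .q true 2 8 2 0 1]⟩

/-- rule 28 -/
def k28 : Tm := ⟨4, [], rf28.ne, rf28.ls ++ [.q true 2 8 0 1 2]⟩

/-- rule 29 -/
def k29 : Tm := ⟨4, [], rf29.ne, rf29.ls ++ [.q true 2 8 3 1 2]⟩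

/-- rule 33 -/
def k33 : Tm := ⟨4, [], rf33.ne, rf33.ls ++ [.q true 2 8 3 1 2]⟩

/-- rule 35 -/
def k35 : Tm := ⟨4, [], rf35.ne, rf35.ls ++ [.q false 2 8 3 0 2, .q true 2 8 3 1 2]⟩

/-- rule 36 -/
def k36 : Tm := ⟨4, [], rf36.ne, rf36.ls ++ [.q false 2 8 3 1 2, .q true 2 8 3 0 2]⟩

/-- rule 38 -/
def k38 : Tm := ⟨4, [], rf38.ne, rf38.ls ++ [.q false 2 8 3 0 1, .q true 2 8 3 0 2]⟩

/-- rule 39 -/
def k39 : Tm := ⟨4, [], rf39.ne, rf39.ls ++ [.q false 2 8 3 0 2, .q true 2 8 3 0 1]⟩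

/-- rule 40 -/
def k40 : Tm := ⟨4, [], rf40.ne, rf40.ls ++ [.q true 2 8 3 0 1]⟩

/-- rule 41 -/
def k41 : Tm := ⟨4, [], rf41.ne, rf41.ls ++ [.q true 2 8 0 1 3]⟩

/-- rule 46 -/
def k46 : Tm := ⟨5, [], rf46.ne, rf46.ls ++ [.q true 2 8 0 1 4]⟩

/-- rule 47 -/
def k47 : Tm := ⟨5, [], rf47.ne, rf47.ls ++ [.q true 2 8 2 0 1]⟩

/-- rule 48 -/
def k48 : Tm := ⟨5, [], rf48.ne, rf48.ls ++ [.q true 2 8 2 3 4]⟩

/-- rule 50 -/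
def k50 : Tm := ⟨5, [], rf50.ne, rf50.ls ++ [.q true 2 8 4 0 3]⟩

theorem k0_h {V : Type} {W : Mw V} (h : W.Hy) : TH (mrel h.bs (Tn_sy h.bs)) W.z k0 := by
  intro d n01 n02 n12 n08 n18 n28 h0 h1 h2 h3 h4 h5 h6 h7
  have hr : Hit (mrel0 h.bs) (pt [d 0, d 1, d 2] W.z) rf0 := Classical.byContradiction fun hn => of_not_hit hn n01 n02 n12 n08 n18 n28 h0 h1 h2 h3 h4 h5 h6
  have nd : [W.z, d 0, d 1, d 2].Nodup := mk3 n01 n02 n12 n08 n18 n28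
  have op := (⟨h0.2, ngR h2, n18, n28, h3, h4, h5⟩ : Or3 W (d 0) (d 1) (d 2))
  have fp := (ff1 (h := h.bs) (a := d 0) (c := d 2) (ngR h1))
  exact h7 ((tnF op).2 (fp.2 (R0 h nd hr)))

theorem k1_h {V : Type} {W : Mw V} (h : W.Hy) : TH (mrel h.bs (Tn_sy h.bs)) W.z k1 := by
  intro d n01 n02 n12 n08 n18 n28 h0 h1 h2 h3 h4 h5 h6 h7
  have hr : Hit (mrel0 h.bs) (pt [d 0, d 1, d 2] W.z) rf1 := Classical.byContradiction fun hn => of_not_hit hn n01 n02 n12 n08 n18 n28 h0 h1 h2 h3 h4 h5 h6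
  have nd : [W.z, d 0, d 1, d 2].Nodup := mk3 n01 n02 n12 n08 n18 n28
  have op := (⟨h0.2, ngR h2, n18, n28, h3, h4, h5⟩ : Or3 W (d 0) (d 1) (d 2))
  have fp := (ff1 (h := h.bs) (a := d 0) (c := d 2) (ngR h1))
  exact h7 ((tnG op).2 fun k => R1 h nd hr (fp.1 k))

theorem k2_h {V : Type} {W : Mw V} (h : W.Hy) : TH (mrel h.bs (Tn_sy h.bs)) W.z k2 := by
  intro d n01 n02 n12 n08 n18 n28 h0 h1 h2 h3 h4 h5 h6 h7
  have hr : Hit (mrel0 h.bs) (pt [d 0, d 1, d 2] W.z) rf2 := Classical.byContradiction fun hn => of_not_hit hn n01 n02 n12 n08 n18 n28 h0 h1 h2 h3 h4 h5 h6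
  have nd : [W.z, d 0, d 1, d 2].Nodup := mk3 n01 n02 n12 n08 n18 n28
  have op := (⟨h0.2, ngR h2, n18, n28, h3, h4, h5⟩ : Or3 W (d 0) (d 1) (d 2))
  have fp := (ff2 (h := h.bs) (a := d 0) (c := d 2) h1.2)
  exact h7 ((tnF op).2 (fp.2 (R2 h nd hr)))

theorem k3_h {V : Type} {W : Mw V} (h : W.Hy) : TH (mrel h.bs (Tn_sy h.bs)) W.z k3 := by
  intro d n01 n02 n12 n08 n18 n28 h0 h1 h2 h3 h4 h5 h6 h7
  have hr : Hit (mrel0 h.bs) (pt [d 0, d 1, d 2] W.z) rf3 := Classical.byContradiction fun hn => of_not_hit hn n01 n02 n12 n08 n18 n28 h0 h1 h2 h3 h4 h5 h6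
  have nd : [W.z, d 0, d 1, d 2].Nodup := mk3 n01 n02 n12 n08 n18 n28
  have op := (⟨h0.2, ngR h2, n18, n28, h3, h4, h5⟩ : Or3 W (d 0) (d 1) (d 2))
  have fp := (ff2 (h := h.bs) (a := d 0) (c := d 2) h1.2)
  exact h7 ((tnG op).2 fun k => R3 h nd hr (fp.1 k))

theorem k4_h {V : Type} {W : Mw V} (h : W.Hy) : TH (mrel h.bs (Tn_sy h.bs)) W.z k4 := by
  intro d n01 n02 n03 n12 n13 n23 n08 n18 n28 n38 h0 h1 h2 h3 h4 h5 h6 h7 h8 h9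
  have hr : Hit (mrel0 h.bs) (pt [d 0, d 1, d 2, d 3] W.z) rf4 := Classical.byContradiction fun hn => of_not_hit hn n01 n02 n03 n12 n13 n23 n08 n18 n28 n38 h0 h1 h2 h3 h4 h5 h6 h7 h8
  have nd : [W.z, d 0, d 1, d 2, d 3].Nodup := mk4 n01 n02 n03 n12 n13 n23 n08 n18 n28 n38
  have op := (⟨h0.2, ngR h3, n28, n38, h5, h6, h7⟩ : Or3 W (d 0) (d 2) (d 3))
  have fp := (ff1 (h := h.bs) (a := d 0) (c := d 3) (ngR h2))
  exact h9 ((tnG op).2 fun k => R4 h nd hr (fp.1 k))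

theorem k5_h {V : Type} {W : Mw V} (h : W.Hy) : TH (mrel h.bs (Tn_sy h.bs)) W.z k5 := by
  intro d n01 n02 n03 n12 n13 n23 n08 n18 n28 n38 h0 h1 h2 h3 h4 h5 h6 h7 h8 h9 h10
  have hr : Hit (mrel0 h.bs) (pt [d 0, d 1, d 2, d 3] W.z) rf5 := Classical.byContradiction fun hn => of_not_hit hn n01 n02 n03 n12 n13 n23 n08 n18 n28 n38 h0 h1 h2 h3 h4 h5 h6 h7 h8 h9
  have nd : [W.z, d 0, d 1, d 2, d 3].Nodup := mk4 n01 n02 n03 n12 n13 n23 n08 n18 n28 n38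
  have op := (⟨h0.2, ngR h3, n28, n38, h5, h6, h7⟩ : Or3 W (d 0) (d 2) (d 3))
  have fp := (ff1 (h := h.bs) (a := d 0) (c := d 3) (ngR h2))
  exact h10 ((tnF op).2 (fp.2 (R5 h nd hr)))

theorem k7_h {V : Type} {W : Mw V} (h : W.Hy) : TH (mrel h.bs (Tn_sy h.bs)) W.z k7 := by
  intro d n01 n02 n03 n12 n13 n23 n08 n18 n28 n38 h0 h1 h2 h3 h4 h5 h6 h7 h8 h9 h10 h11 h12
  have hr : Hit (mrel0 h.bs) (pt [d 0, d 1, d 2, d 3] W.z) rf7 := Classical.byContradiction fun hn => of_not_hit hn n01 n02 n03 n12 n13 n23 n08 n18 n28 n38 h0 h1 h2 h3 h4 h5 h6 h7 h8 h9 h10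
  have nd : [W.z, d 0, d 1, d 2, d 3].Nodup := mk4 n01 n02 n03 n12 n13 n23 n08 n18 n28 n38
  have op := (⟨h0.2, ngR h3, n18, n38, h10, h6, h7⟩ : Or3 W (d 0) (d 1) (d 3))
  have fp := (ff1 (h := h.bs) (a := d 0) (c := d 3) (ngR h1))
  have oq := (⟨h0.2, ngR h3, n28, n38, h5, h8, h7⟩ : Or3 W (d 0) (d 2) (d 3))
  have fq := (ff1 (h := h.bs) (a := d 0) (c := d 3) (ngR h2))
  exact h12 ((tnF oq).2 (fq.2 (R7 h nd hr (fp.1 ((tnF op).1 h11)))))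

theorem k8_h {V : Type} {W : Mw V} (h : W.Hy) : TH (mrel h.bs (Tn_sy h.bs)) W.z k8 := by
  intro d n01 n02 n03 n12 n13 n23 n08 n18 n28 n38 h0 h1 h2 h3 h4 h5 h6 h7 h8 h9 h10 h11
  have hr : Hit (mrel0 h.bs) (pt [d 0, d 1, d 2, d 3] W.z) rf8 := Classical.byContradiction fun hn => of_not_hit hn n01 n02 n03 n12 n13 n23 n08 n18 n28 n38 h0 h1 h2 h3 h4 h5 h6 h7 h8 h9
  have nd : [W.z, d 0, d 1, d 2, d 3].Nodup := mk4 n01 n02 n03 n12 n13 n23 n08 n18 n28 n38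
  have op := (⟨h0.2, ngR h3, n28, n38, h5, h6, h7⟩ : Or3 W (d 0) (d 2) (d 3))
  have fp := (ff1 (h := h.bs) (a := d 0) (c := d 3) (ngR h2))
  have oq := (⟨h0.2, ngR h3, n18, n38, h9, h8, h7⟩ : Or3 W (d 0) (d 1) (d 3))
  have fq := (ff1 (h := h.bs) (a := d 0) (c := d 3) (ngR h1))
  exact h11 ((tnF oq).2 (fq.2 (R8 h nd hr (fp.1 ((tnF op).1 h10)))))

theorem k11_h {V : Type} {W : Mw V} (h : W.Hy) : TH (mrel h.bs (Tn_sy h.bs)) W.z k11 := by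
  intro d n01 n02 n03 n12 n13 n23 n08 n18 n28 n38 h0 h1 h2 h3 h4 h5 h6 h7 h8 h9 h10 h11
  have hr : Hit (mrel0 h.bs) (pt [d 0, d 1, d 2, d 3] W.z) rf11 := Classical.byContradiction fun hn => of_not_hit hn n01 n02 n03 n12 n13 n23 n08 n18 n28 n38 h0 h1 h2 h3 h4 h5 h6 h7 h8 h9
  have nd : [W.z, d 0, d 1, d 2, d 3].Nodup := mk4 n01 n02 n03 n12 n13 n23 n08 n18 n28 n38
  have op := (⟨h0.2, ngR h2, n18, n28, h4, h6, h7⟩ : Or3 W (d 0) (d 1) (d 2))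
  have fp := (ff1 (h := h.bs) (a := d 0) (c := d 2) (ngR h1))
  have oq := (⟨h0.2, ngR h3, n18, n38, h9, h6, h8⟩ : Or3 W (d 0) (d 1) (d 3))
  have fq := (ff1 (h := h.bs) (a := d 0) (c := d 3) (ngR h1))
  exact h11 ((tnF oq).2 (fq.2 (R11 h nd hr (fp.1 ((tnF op).1 h10)))))

theorem k12_h {V : Type} {W : Mw V} (h : W.Hy) : TH (mrel h.bs (Tn_sy h.bs)) W.z k12 := by
  intro d n01 n02 n03 n12 n13 n23 n08 n18 n28 n38 h0 h1 h2 h3 h4 h5 h6 h7 h8 h9 h10 h11 h12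
  have hr : Hit (mrel0 h.bs) (pt [d 0, d 1, d 2, d 3] W.z) rf12 := Classical.byContradiction fun hn => of_not_hit hn n01 n02 n03 n12 n13 n23 n08 n18 n28 n38 h0 h1 h2 h3 h4 h5 h6 h7 h8 h9 h10
  have nd : [W.z, d 0, d 1, d 2, d 3].Nodup := mk4 n01 n02 n03 n12 n13 n23 n08 n18 n28 n38
  have op := (⟨h0.2, ngR h3, n18, n38, h10, h6, h7⟩ : Or3 W (d 0) (d 1) (d 3))
  have fp := (ff1 (h := h.bs) (a := d 0) (c := d 3) (ngR h1))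
  have oq := (⟨h0.2, ngR h2, n18, n28, h4, h6, h8⟩ : Or3 W (d 0) (d 1) (d 2))
  have fq := (ff1 (h := h.bs) (a := d 0) (c := d 2) (ngR h1))
  exact h12 ((tnF oq).2 (fq.2 (R12 h nd hr (fp.1 ((tnF op).1 h11)))))

theorem k13_h {V : Type} {W : Mw V} (h : W.Hy) : TH (mrel h.bs (Tn_sy h.bs)) W.z k13 := by
  intro d n01 n02 n03 n12 n13 n23 n08 n18 n28 n38 h0 h1 h2 h3 h4 h5 h6 h7 h8 h9
  have hr : Hit (mrel0 h.bs) (pt [d 0, d 1, d 2, d 3] W.z) rf13 := Classical.byContradiction fun hn => of_not_hit hn n01 n02 n03 n12 n13 n23 n08 n18 n28 n38 h0 h1 h2 h3 h4 h5 h6 h7 h8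
  have nd : [W.z, d 0, d 1, d 2, d 3].Nodup := mk4 n01 n02 n03 n12 n13 n23 n08 n18 n28 n38
  have op := (⟨h0.2, ngR h2, n18, n28, h4, h6, h7⟩ : Or3 W (d 0) (d 1) (d 2))
  have fp := (ff1 (h := h.bs) (a := d 0) (c := d 2) (ngR h1))
  exact h9 ((tnG op).2 fun k => R13 h nd hr (fp.1 k))

theorem k16_h {V : Type} {W : Mw V} (h : W.Hy) : TH (mrel h.bs (Tn_sy h.bs)) W.z k16 := by
  intro d n01 n02 n03 n12 n13 n23 n08 n18 n28 n38 h0 h1 h2 h3 h4 h5 h6 h7 h8 h9 h10 h11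
  have hr : Hit (mrel0 h.bs) (pt [d 0, d 1, d 2, d 3] W.z) rf16 := Classical.byContradiction fun hn => of_not_hit hn n01 n02 n03 n12 n13 n23 n08 n18 n28 n38 h0 h1 h2 h3 h4 h5 h6 h7 h8 h9
  have nd : [W.z, d 0, d 1, d 2, d 3].Nodup := mk4 n01 n02 n03 n12 n13 n23 n08 n18 n28 n38
  have op := (⟨h0.2, ngR h3, n28, n38, h5, h6, h7⟩ : Or3 W (d 0) (d 2) (d 3))
  have fp := (ff1 (h := h.bs) (a := d 0) (c := d 3) (ngR h2))
  have oq := (⟨h1.2, ngR h3, n28, n38, h9, h6, h8⟩ : Or3 W (d 1) (d 2) (d 3))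
  have fq := (ff1 (h := h.bs) (a := d 1) (c := d 3) (ngR h2))
  exact h11 ((tnF oq).2 (fq.2 (R16 h nd hr (fp.1 ((tnF op).1 h10)))))

theorem k17_h {V : Type} {W : Mw V} (h : W.Hy) : TH (mrel h.bs (Tn_sy h.bs)) W.z k17 := by
  intro d n01 n02 n03 n12 n13 n23 n08 n18 n28 n38 h0 h1 h2 h3 h4 h5 h6 h7 h8 h9 h10 h11 h12
  have hr : Hit (mrel0 h.bs) (pt [d 0, d 1, d 2, d 3] W.z) rf17 := Classical.byContradiction fun hn => of_not_hit hn n01 n02 n03 n12 n13 n23 n08 n18 n28 n38 h0 h1 h2 h3 h4 h5 h6 h7 h8 h9 h10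
  have nd : [W.z, d 0, d 1, d 2, d 3].Nodup := mk4 n01 n02 n03 n12 n13 n23 n08 n18 n28 n38
  have op := (⟨h1.2, ngR h3, n28, n38, h10, h6, h7⟩ : Or3 W (d 1) (d 2) (d 3))
  have fp := (ff1 (h := h.bs) (a := d 1) (c := d 3) (ngR h2))
  have oq := (⟨h0.2, ngR h3, n28, n38, h5, h6, h8⟩ : Or3 W (d 0) (d 2) (d 3))
  have fq := (ff1 (h := h.bs) (a := d 0) (c := d 3) (ngR h2))
  exact h12 ((tnF oq).2 (fq.2 (R17 h nd hr (fp.1 ((tnF op).1 h11)))))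

theorem k20_h {V : Type} {W : Mw V} (h : W.Hy) : TH (mrel h.bs (Tn_sy h.bs)) W.z k20 := by
  intro d n01 n02 n03 n12 n13 n23 n08 n18 n28 n38 h0 h1 h2 h3 h4 h5 h6 h7 h8 h9 h10 h11
  have hr : Hit (mrel0 h.bs) (pt [d 0, d 1, d 2, d 3] W.z) rf20 := Classical.byContradiction fun hn => of_not_hit hn n01 n02 n03 n12 n13 n23 n08 n18 n28 n38 h0 h1 h2 h3 h4 h5 h6 h7 h8 h9
  have nd : [W.z, d 0, d 1, d 2, d 3].Nodup := mk4 n01 n02 n03 n12 n13 n23 n08 n18 n28 n38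
  have op := (⟨h0.2, ngR h3, n18, n38, h4, h6, h7⟩ : Or3 W (d 0) (d 1) (d 3))
  have fp := (ff2 (h := h.bs) (a := d 0) (c := d 3) h1.2)
  have oq := (⟨h0.2, ngR h3, n28, n38, h5, h8, h7⟩ : Or3 W (d 0) (d 2) (d 3))
  have fq := (ff1 (h := h.bs) (a := d 0) (c := d 3) (ngR h2))
  exact h11 ((tnF oq).2 (fq.2 (R20 h nd hr (fp.1 ((tnF op).1 h10)))))

theorem k21_h {V : Type} {W : Mw V} (h : W.Hy) : TH (mrel h.bs (Tn_sy h.bs)) W.z k21 := by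
  intro d n01 n02 n03 n12 n13 n23 n08 n18 n28 n38 h0 h1 h2 h3 h4 h5 h6 h7 h8 h9 h10
  have hr : Hit (mrel0 h.bs) (pt [d 0, d 1, d 2, d 3] W.z) rf21 := Classical.byContradiction fun hn => of_not_hit hn n01 n02 n03 n12 n13 n23 n08 n18 n28 n38 h0 h1 h2 h3 h4 h5 h6 h7 h8
  have nd : [W.z, d 0, d 1, d 2, d 3].Nodup := mk4 n01 n02 n03 n12 n13 n23 n08 n18 n28 n38
  have op := (⟨h0.2, ngR h3, n28, n38, h5, h6, h7⟩ : Or3 W (d 0) (d 2) (d 3))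
  have fp := (ff1 (h := h.bs) (a := d 0) (c := d 3) (ngR h2))
  have oq := (⟨h0.2, ngR h3, n18, n38, h4, h8, h7⟩ : Or3 W (d 0) (d 1) (d 3))
  have fq := (ff2 (h := h.bs) (a := d 0) (c := d 3) h1.2)
  exact h10 ((tnF oq).2 (fq.2 (R21 h nd hr (fp.1 ((tnF op).1 h9)))))

theorem k24_h {V : Type} {W : Mw V} (h : W.Hy) : TH (mrel h.bs (Tn_sy h.bs)) W.z k24 := by
  intro d n01 n02 n03 n12 n13 n23 n08 n18 n28 n38 h0 h1 h2 h3 h4 h5 h6 h7 h8 h9 h10 h11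
  have hr : Hit (mrel0 h.bs) (pt [d 0, d 1, d 2, d 3] W.z) rf24 := Classical.byContradiction fun hn => of_not_hit hn n01 n02 n03 n12 n13 n23 n08 n18 n28 n38 h0 h1 h2 h3 h4 h5 h6 h7 h8 h9
  have nd : [W.z, d 0, d 1, d 2, d 3].Nodup := mk4 n01 n02 n03 n12 n13 n23 n08 n18 n28 n38
  have op := (⟨h0.2, ngR h2, n18, n28, h9, h6, h7⟩ : Or3 W (d 0) (d 1) (d 2))
  have fp := (ff2 (h := h.bs) (a := d 0) (c := d 2) h1.2)
  have oq := (⟨h0.2, ngR h3, n18, n38, h4, h6, h8⟩ : Or3 W (d 0) (d 1) (d 3))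
  have fq := (ff2 (h := h.bs) (a := d 0) (c := d 3) h1.2)
  exact h11 ((tnF oq).2 (fq.2 (R24 h nd hr (fp.1 ((tnF op).1 h10)))))

theorem k25_h {V : Type} {W : Mw V} (h : W.Hy) : TH (mrel h.bs (Tn_sy h.bs)) W.z k25 := by
  intro d n01 n02 n03 n12 n13 n23 n08 n18 n28 n38 h0 h1 h2 h3 h4 h5 h6 h7 h8 h9 h10 h11 h12
  have hr : Hit (mrel0 h.bs) (pt [d 0, d 1, d 2, d 3] W.z) rf25 := Classical.byContradiction fun hn => of_not_hit hn n01 n02 n03 n12 n13 n23 n08 n18 n28 n38 h0 h1 h2 h3 h4 h5 h6 h7 h8 h9 h10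
  have nd : [W.z, d 0, d 1, d 2, d 3].Nodup := mk4 n01 n02 n03 n12 n13 n23 n08 n18 n28 n38
  have op := (⟨h0.2, ngR h3, n18, n38, h4, h6, h7⟩ : Or3 W (d 0) (d 1) (d 3))
  have fp := (ff2 (h := h.bs) (a := d 0) (c := d 3) h1.2)
  have oq := (⟨h0.2, ngR h2, n18, n28, h10, h6, h8⟩ : Or3 W (d 0) (d 1) (d 2))
  have fq := (ff2 (h := h.bs) (a := d 0) (c := d 2) h1.2)
  exact h12 ((tnF oq).2 (fq.2 (R25 h nd hr (fp.1 ((tnF op).1 h11)))))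

theorem k28_h {V : Type} {W : Mw V} (h : W.Hy) : TH (mrel h.bs (Tn_sy h.bs)) W.z k28 := by
  intro d n01 n02 n03 n12 n13 n23 n08 n18 n28 n38 h0 h1 h2 h3 h4 h5 h6 h7 h8 h9 h10
  have hr : Hit (mrel0 h.bs) (pt [d 0, d 1, d 2, d 3] W.z) rf28 := Classical.byContradiction fun hn => of_not_hit hn n01 n02 n03 n12 n13 n23 n08 n18 n28 n38 h0 h1 h2 h3 h4 h5 h6 h7 h8 h9
  have nd : [W.z, d 0, d 1, d 2, d 3].Nodup := mk4 n01 n02 n03 n12 n13 n23 n08 n18 n28 n38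
  have op := (⟨h0.2, ngR h2, n18, n28, h9, h6, h7⟩ : Or3 W (d 0) (d 1) (d 2))
  have fp := (ff2 (h := h.bs) (a := d 0) (c := d 2) h1.2)
  exact h10 ((tnG op).2 fun k => R28 h nd hr (fp.1 k))

theorem k29_h {V : Type} {W : Mw V} (h : W.Hy) : TH (mrel h.bs (Tn_sy h.bs)) W.z k29 := by
  intro d n01 n02 n03 n12 n13 n23 n08 n18 n28 n38 h0 h1 h2 h3 h4 h5 h6 h7 h8 h9 h10
  have hr : Hit (mrel0 h.bs) (pt [d 0, d 1, d 2, d 3] W.z) rf29 := Classical.byContradiction fun hn => of_not_hit hn n01 n02 n03 n12 n13 n23 n08 n18 n28 n38 h0 h1 h2 h3 h4 h5 h6 h7 h8 h9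
  have nd : [W.z, d 0, d 1, d 2, d 3].Nodup := mk4 n01 n02 n03 n12 n13 n23 n08 n18 n28 n38
  have op := (⟨h1.2, ngR h3, n28, n38, h9, h6, h7⟩ : Or3 W (d 1) (d 2) (d 3))
  have fp := (ff1 (h := h.bs) (a := d 1) (c := d 3) (ngR h2))
  exact h10 ((tnF op).2 (fp.2 (R29 h nd hr)))

theorem k33_h {V : Type} {W : Mw V} (h : W.Hy) : TH (mrel h.bs (Tn_sy h.bs)) W.z k33 := by
  intro d n01 n02 n03 n12 n13 n23 n08 n18 n28 n38 h0 h1 h2 h3 h4 h5 h6 h7 h8 h9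
  have hr : Hit (mrel0 h.bs) (pt [d 0, d 1, d 2, d 3] W.z) rf33 := Classical.byContradiction fun hn => of_not_hit hn n01 n02 n03 n12 n13 n23 n08 n18 n28 n38 h0 h1 h2 h3 h4 h5 h6 h7 h8
  have nd : [W.z, d 0, d 1, d 2, d 3].Nodup := mk4 n01 n02 n03 n12 n13 n23 n08 n18 n28 n38
  have op := (⟨h1.2, ngR h3, n28, n38, h5, h6, h7⟩ : Or3 W (d 1) (d 2) (d 3))
  have fp := (ff2 (h := h.bs) (a := d 1) (c := d 3) h2.2)
  exact h9 ((tnF op).2 (fp.2 (R33 h nd hr)))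

theorem k35_h {V : Type} {W : Mw V} (h : W.Hy) : TH (mrel h.bs (Tn_sy h.bs)) W.z k35 := by
  intro d n01 n02 n03 n12 n13 n23 n08 n18 n28 n38 h0 h1 h2 h3 h4 h5 h6 h7 h8 h9 h10 h11
  have hr : Hit (mrel0 h.bs) (pt [d 0, d 1, d 2, d 3] W.z) rf35 := Classical.byContradiction fun hn => of_not_hit hn n01 n02 n03 n12 n13 n23 n08 n18 n28 n38 h0 h1 h2 h3 h4 h5 h6 h7 h8 h9
  have nd : [W.z, d 0, d 1, d 2, d 3].Nodup := mk4 n01 n02 n03 n12 n13 n23 n08 n18 n28 n38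
  have op := (⟨h0.2, ngR h3, n28, n38, h9, h6, h7⟩ : Or3 W (d 0) (d 2) (d 3))
  have fp := (ff2 (h := h.bs) (a := d 0) (c := d 3) h2.2)
  have oq := (⟨h1.2, ngR h3, n28, n38, h5, h6, h8⟩ : Or3 W (d 1) (d 2) (d 3))
  have fq := (ff2 (h := h.bs) (a := d 1) (c := d 3) h2.2)
  exact h11 ((tnF oq).2 (fq.2 (R35 h nd hr (fp.1 ((tnF op).1 h10)))))

theorem k36_h {V : Type} {W : Mw V} (h : W.Hy) : TH (mrel h.bs (Tn_sy h.bs)) W.z k36 := by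
  intro d n01 n02 n03 n12 n13 n23 n08 n18 n28 n38 h0 h1 h2 h3 h4 h5 h6 h7 h8 h9 h10 h11 h12
  have hr : Hit (mrel0 h.bs) (pt [d 0, d 1, d 2, d 3] W.z) rf36 := Classical.byContradiction fun hn => of_not_hit hn n01 n02 n03 n12 n13 n23 n08 n18 n28 n38 h0 h1 h2 h3 h4 h5 h6 h7 h8 h9 h10
  have nd : [W.z, d 0, d 1, d 2, d 3].Nodup := mk4 n01 n02 n03 n12 n13 n23 n08 n18 n28 n38
  have op := (⟨h1.2, ngR h3, n28, n38, h5, h6, h7⟩ : Or3 W (d 1) (d 2) (d 3))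
  have fp := (ff2 (h := h.bs) (a := d 1) (c := d 3) h2.2)
  have oq := (⟨h0.2, ngR h3, n28, n38, h10, h6, h8⟩ : Or3 W (d 0) (d 2) (d 3))
  have fq := (ff2 (h := h.bs) (a := d 0) (c := d 3) h2.2)
  exact h12 ((tnF oq).2 (fq.2 (R36 h nd hr (fp.1 ((tnF op).1 h11)))))

theorem k38_h {V : Type} {W : Mw V} (h : W.Hy) : TH (mrel h.bs (Tn_sy h.bs)) W.z k38 := by
  intro d n01 n02 n03 n12 n13 n23 n08 n18 n28 n38 h0 h1 h2 h3 h4 h5 h6 h7 h8 h9 h10 h11 h12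
  have hr : Hit (mrel0 h.bs) (pt [d 0, d 1, d 2, d 3] W.z) rf38 := Classical.byContradiction fun hn => of_not_hit hn n01 n02 n03 n12 n13 n23 n08 n18 n28 n38 h0 h1 h2 h3 h4 h5 h6 h7 h8 h9 h10
  have nd : [W.z, d 0, d 1, d 2, d 3].Nodup := mk4 n01 n02 n03 n12 n13 n23 n08 n18 n28 n38
  have op := (⟨h0.2, ngR h3, n18, n38, h4, h6, h7⟩ : Or3 W (d 0) (d 1) (d 3))
  have fp := (ff2 (h := h.bs) (a := d 0) (c := d 3) h1.2)
  have oq := (⟨h0.2, ngR h3, n28, n38, h10, h8, h7⟩ : Or3 W (d 0) (d 2) (d 3))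
  have fq := (ff2 (h := h.bs) (a := d 0) (c := d 3) h2.2)
  exact h12 ((tnF oq).2 (fq.2 (R38 h nd hr (fp.1 ((tnF op).1 h11)))))

theorem k39_h {V : Type} {W : Mw V} (h : W.Hy) : TH (mrel h.bs (Tn_sy h.bs)) W.z k39 := by
  intro d n01 n02 n03 n12 n13 n23 n08 n18 n28 n38 h0 h1 h2 h3 h4 h5 h6 h7 h8 h9 h10 h11
  have hr : Hit (mrel0 h.bs) (pt [d 0, d 1, d 2, d 3] W.z) rf39 := Classical.byContradiction fun hn => of_not_hit hn n01 n02 n03 n12 n13 n23 n08 n18 n28 n38 h0 h1 h2 h3 h4 h5 h6 h7 h8 h9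
  have nd : [W.z, d 0, d 1, d 2, d 3].Nodup := mk4 n01 n02 n03 n12 n13 n23 n08 n18 n28 n38
  have op := (⟨h0.2, ngR h3, n28, n38, h9, h6, h7⟩ : Or3 W (d 0) (d 2) (d 3))
  have fp := (ff2 (h := h.bs) (a := d 0) (c := d 3) h2.2)
  have oq := (⟨h0.2, ngR h3, n18, n38, h4, h8, h7⟩ : Or3 W (d 0) (d 1) (d 3))
  have fq := (ff2 (h := h.bs) (a := d 0) (c := d 3) h1.2)
  exact h11 ((tnF oq).2 (fq.2 (R39 h nd hr (fp.1 ((tnF op).1 h10)))))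

theorem k40_h {V : Type} {W : Mw V} (h : W.Hy) : TH (mrel h.bs (Tn_sy h.bs)) W.z k40 := by
  intro d n01 n02 n03 n12 n13 n23 n08 n18 n28 n38 h0 h1 h2 h3 h4 h5 h6 h7 h8 h9
  have hr : Hit (mrel0 h.bs) (pt [d 0, d 1, d 2, d 3] W.z) rf40 := Classical.byContradiction fun hn => of_not_hit hn n01 n02 n03 n12 n13 n23 n08 n18 n28 n38 h0 h1 h2 h3 h4 h5 h6 h7 h8
  have nd : [W.z, d 0, d 1, d 2, d 3].Nodup := mk4 n01 n02 n03 n12 n13 n23 n08 n18 n28 n38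
  have op := (⟨h0.2, ngR h3, n18, n38, h4, h6, h7⟩ : Or3 W (d 0) (d 1) (d 3))
  have fp := (ff2 (h := h.bs) (a := d 0) (c := d 3) h1.2)
  exact h9 ((tnF op).2 (fp.2 (R40 h nd hr)))

theorem k41_h {V : Type} {W : Mw V} (h : W.Hy) : TH (mrel h.bs (Tn_sy h.bs)) W.z k41 := by
  intro d n01 n02 n03 n12 n13 n23 n08 n18 n28 n38 h0 h1 h2 h3 h4 h5 h6 h7 h8 h9 h10
  have hr : Hit (mrel0 h.bs) (pt [d 0, d 1, d 2, d 3] W.z) rf41 := Classical.byContradiction fun hn => of_not_hit hn n01 n02 n03 n12 n13 n23 n08 n18 n28 n38 h0 h1 h2 h3 h4 h5 h6 h7 h8 h9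
  have nd : [W.z, d 0, d 1, d 2, d 3].Nodup := mk4 n01 n02 n03 n12 n13 n23 n08 n18 n28 n38
  have op := (⟨h0.2, ngR h3, n18, n38, h4, h6, h7⟩ : Or3 W (d 0) (d 1) (d 3))
  have fp := (ff2 (h := h.bs) (a := d 0) (c := d 3) h1.2)
  exact h10 ((tnG op).2 fun k => R41 h nd hr (fp.1 k))

theorem k46_h {V : Type} {W : Mw V} (h : W.Hy) : TH (mrel h.bs (Tn_sy h.bs)) W.z k46 := by
  intro d n01 n02 n03 n04 n12 n13 n14 n23 n24 n34 n08 n18 n28 n38 n48 h0 h1 h2 h3 h4 h5 h6 h7 h8 h9 h10 h11 h12 h13 h14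
  have hr : Hit (mrel0 h.bs) (pt [d 0, d 1, d 2, d 3, d 4] W.z) rf46 := Classical.byContradiction fun hn => of_not_hit hn n01 n02 n03 n04 n12 n13 n14 n23 n24 n34 n08 n18 n28 n38 n48 h0 h1 h2 h3 h4 h5 h6 h7 h8 h9 h10 h11 h12 h13
  have nd : [W.z, d 0, d 1, d 2, d 3, d 4].Nodup := mk5 n01 n02 n03 n04 n12 n13 n14 n23 n24 n34 n08 n18 n28 n38 n48
  have op := (⟨h0.2, ngR h4, n18, n48, h13, h8, h9⟩ : Or3 W (d 0) (d 1) (d 4))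
  have fp := (ff1 (h := h.bs) (a := d 0) (c := d 4) (ngR h1))
  exact h14 ((tnG op).2 fun k => R46 h nd hr (fp.1 k))

theorem k47_h {V : Type} {W : Mw V} (h : W.Hy) : TH (mrel h.bs (Tn_sy h.bs)) W.z k47 := by
  intro d n01 n02 n03 n04 n12 n13 n14 n23 n24 n34 n08 n18 n28 n38 n48 h0 h1 h2 h3 h4 h5 h6 h7 h8 h9 h10 h11 h12 h13 h14
  have hr : Hit (mrel0 h.bs) (pt [d 0, d 1, d 2, d 3, d 4] W.z) rf47 := Classical.byContradiction fun hn => of_not_hit hn n01 n02 n03 n04 n12 n13 n14 n23 n24 n34 n08 n18 n28 n38 n48 h0 h1 h2 h3 h4 h5 h6 h7 h8 h9 h10 h11 h12 h13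
  have nd : [W.z, d 0, d 1, d 2, d 3, d 4].Nodup := mk5 n01 n02 n03 n04 n12 n13 n14 n23 n24 n34 n08 n18 n28 n38 n48
  have op := (⟨h0.2, ngR h2, n18, n28, h13, h8, h9⟩ : Or3 W (d 0) (d 1) (d 2))
  have fp := (ff2 (h := h.bs) (a := d 0) (c := d 2) h1.2)
  exact h14 ((tnF op).2 (fp.2 (R47 h nd hr)))

theorem k48_h {V : Type} {W : Mw V} (h : W.Hy) : TH (mrel h.bs (Tn_sy h.bs)) W.z k48 := by
  intro d n01 n02 n03 n04 n12 n13 n14 n23 n24 n34 n08 n18 n28 n38 n48 h0 h1 h2 h3 h4 h5 h6 h7 h8 h9 h10 h11 h12 h13 h14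
  have hr : Hit (mrel0 h.bs) (pt [d 0, d 1, d 2, d 3, d 4] W.z) rf48 := Classical.byContradiction fun hn => of_not_hit hn n01 n02 n03 n04 n12 n13 n14 n23 n24 n34 n08 n18 n28 n38 n48 h0 h1 h2 h3 h4 h5 h6 h7 h8 h9 h10 h11 h12 h13
  have nd : [W.z, d 0, d 1, d 2, d 3, d 4].Nodup := mk5 n01 n02 n03 n04 n12 n13 n14 n23 n24 n34 n08 n18 n28 n38 n48
  have op := (⟨h2.2, ngR h4, n38, n48, h13, h8, h9⟩ : Or3 W (d 2) (d 3) (d 4))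
  have fp := (ff1 (h := h.bs) (a := d 2) (c := d 4) (ngR h3))
  exact h14 ((tnG op).2 fun k => R48 h nd hr (fp.1 k))

theorem k50_h {V : Type} {W : Mw V} (h : W.Hy) : TH (mrel h.bs (Tn_sy h.bs)) W.z k50 := by
  intro d n01 n02 n03 n04 n12 n13 n14 n23 n24 n34 n08 n18 n28 n38 n48 h0 h1 h2 h3 h4 h5 h6 h7 h8 h9 h10 h11 h12 h13 h14
  have hr : Hit (mrel0 h.bs) (pt [d 0, d 1, d 2, d 3, d 4] W.z) rf50 := Classical.byContradiction fun hn => of_not_hit hn n01 n02 n03 n04 n12 n13 n14 n23 n24 n34 n08 n18 n28 n38 n48 h0 h1 h2 h3 h4 h5 h6 h7 h8 h9 h10 h11 h12 h13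
  have nd : [W.z, d 0, d 1, d 2, d 3, d 4].Nodup := mk5 n01 n02 n03 n04 n12 n13 n14 n23 n24 n34 n08 n18 n28 n38 n48
  have op := (⟨h0.2, ngR h4, n38, n48, h13, h8, h9⟩ : Or3 W (d 0) (d 3) (d 4))
  have fp := (ff2 (h := h.bs) (a := d 0) (c := d 4) h3.2)
  exact h14 ((tnF op).2 (fp.2 (R50 h nd hr)))

/-- the rules -/
def kA : List Tm := [k4, k5, k7, k8, k11, k12, k13, k16, k17, k20, k21, k24, k25, k28, k29, k33, k35, k36, k38, k39, k40, k41, k46, k47, k48, k50]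

theorem kA_h {V : Type} {W : Mw V} (h : W.Hy) : THs (mrel h.bs (Tn_sy h.bs)) W.z kA :=
  .cons (k4_h h) (.cons (k5_h h) (.cons (k7_h h) (.cons (k8_h h) (.cons (k11_h h) (.cons (k12_h h) (.cons (k13_h h) (.cons (k16_h h) (.cons (k17_h h) (.cons (k20_h h) (.cons (k21_h h) (.cons (k24_h h) (.cons (k25_h h) (.cons (k28_h h) (.cons (k29_h h) (.cons (k33_h h) (.cons (k35_h h) (.cons (k36_h h) (.cons (k38_h h) (.cons (k39_h h) (.cons (k40_h h) (.cons (k41_h h) (.cons (k46_h h) (.cons (k47_h h) (.cons (k48_h h) (.cons (k50_h h) .nil)))))))))))))))))))))))))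

theorem kA_z : kA.map (tren zr) = kA := rfl

/-- rules for the new quartets -/
def nT : List Tm := [
  ⟨3, [], [(0, 1), (0, 2), (1, 2), (0, 8), (1, 8), (2, 8)], [.q false 2 8 0 1 2, .q false 0 8 0 1 2]⟩,
  ⟨3, [], [(0, 1), (0, 2), (1, 2), (0, 8), (1, 8), (2, 8)], [.q false 2 8 0 1 2, .b true 0 8 1]⟩,
  ⟨3, [], [(0, 1), (0, 2), (1, 2), (0, 8), (1, 8), (2, 8)], [.q false 2 8 0 1 2, .b true 0 0 1]⟩,
  ⟨3, [], [(0, 1), (0, 2), (1, 2), (0, 8), (1, 8), (2, 8)], [.b false 0 8 0, .b false 0 1 2, .q false 0 8 0 1 2, .q true 2 8 1 0 2, .q true 2 8 2 0 1]⟩,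
  ⟨3, [], [(0, 1), (0, 2), (1, 2), (0, 8), (1, 8), (2, 8)], [.q false 2 8 0 1 2, .q false 2 8 1 0 2]⟩,
  ⟨3, [], [(0, 1), (0, 2), (1, 2), (0, 8), (1, 8), (2, 8)], [.b false 2 0 0, .b false 2 1 1, .b false 2 2 2, .q false 1 8 0 1 2, .q true 2 8 0 1 2]⟩,
  ⟨3, [], [(0, 1), (0, 2), (1, 2), (0, 8), (1, 8), (2, 8)], [.b false 2 0 0, .b false 2 1 1, .b false 2 2 2, .q true 1 8 0 1 2, .q false 2 8 0 1 2]⟩,
  ⟨3, [], [(0, 1), (0, 2), (1, 2), (0, 8), (1, 8), (2, 8)], [.b true 2 0 0, .b true 2 1 1, .b true 2 2 2, .q false 1 8 0 1 2, .q true 2 8 0 1 2]⟩,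
  ⟨3, [], [(0, 1), (0, 2), (1, 2), (0, 8), (1, 8), (2, 8)], [.b true 2 0 0, .b true 2 1 1, .b true 2 2 2, .q true 1 8 0 1 2, .q false 2 8 0 1 2]⟩]

theorem nT_z : nT.map (tren zr) = nT := rfl

end Pool.Agent.SOU
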